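import Pool.Agent.Lib.H54R.Graph

/-!
# C1: arithmetic of lanes and links
-/

set_option autoImplicit false

namespace Pool.Agent.H54R

namespace RS

variable {S : RS}

theorem R_pos (h : S.WF) : 0 < S.R := by
  have h1 := h.len
  have h2 := h.pos
  omega

theorem low_lt (h : S.WF) {ρ : ℕ} (hρ : ρ < S.R) : S.low ρ < S.MM := by
  unfold low MM
  split_ifs <;> omega

theorem upr_lt (h : S.WF) {ρ : ℕ} (hρ : ρ < S.R) : S.upr ρ < S.MM := by
  unfold upr MM
  split_ifs <;> omega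

theorem low_lt_upr (h : S.WF) {ρ : ℕ} (hρ : ρ < S.R) : S.low ρ < S.upr ρ := by
  unfold low upr
  split_ifs <;> omega

/-- the lane of a read is between the left and the right link lanes -/
theorem lane_ge (h : S.WF) {ρ : ℕ} (hρ : ρ < S.R) : 2 * S.K ≤ S.lane ρ := by
  unfold lane
  split_ifs <;> omega

theorem lane_lt (h : S.WF) {ρ : ℕ} (hρ : ρ < S.R) : S.lane ρ < S.rlane 0 := by
  unfold lane rlane
  have h1 := h.len
  split_ifs with h2 h3
  · omega
  · have := h.div_lt ρ hρ h3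
    omega
  · have h4 := h.tag ρ hρ
    have := h.mul_lt ρ hρ (by omega)
    omega

theorem rlane_lt (h : S.WF) {l : ℕ} (hl : l < 2 * S.K) : S.rlane l < S.NN := by
  unfold rlane NN
  omega

theorem role_low (h : S.WF) {ρ : ℕ} (hρ : ρ < S.R) : S.role (S.low ρ) = (1, ρ) := by
  unfold role low
  by_cases ho : S.outer ρ = true
  · rw [if_pos ho, if_neg (by omega), if_neg (by omega), if_pos (by omega),
      Nat.add_sub_cancel_left, if_pos ho]
  · rw [if_neg ho, if_pos hρ, if_neg ho]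

theorem role_upr (h : S.WF) {ρ : ℕ} (hρ : ρ < S.R) : S.role (S.upr ρ) = (2, ρ) := by
  unfold role upr
  by_cases ho : S.outer ρ = true
  · have e : 4 * S.R - 1 - (4 * S.R - 1 - ρ) = ρ := by omega
    rw [if_pos ho, if_neg (by omega), if_neg (by omega), if_neg (by omega), if_pos (by omega),
      e, if_pos ho]
  · have e : 2 * S.R - 1 - (2 * S.R - 1 - ρ) = ρ := by omega
    rw [if_neg ho, if_neg (by omega), if_pos (by omega), e, if_neg ho]

theorem role_one (h : S.WF) {i ρ : ℕ} (hi : S.role i = (1, ρ)) : ρ < S.R ∧ S.low ρ = i := by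
  unfold role at hi
  unfold low
  split_ifs at hi with h1 h2 h3 h4 h5 h6 h7 h8
  · simp at hi
  · simp only [Prod.mk.injEq, true_and] at hi
    subst hi
    exact ⟨h1, by rw [if_neg h2]⟩
  · simp at hi
  · simp at hi
  · simp only [Prod.mk.injEq, true_and] at hi
    subst hi
    exact ⟨by omega, by rw [if_pos h6]; omega⟩
  · simp at hi
  · simp at hi
  · simp at hi
  · simp at hi

theorem role_two (h : S.WF) {i ρ : ℕ} (hi : S.role i = (2, ρ)) : ρ < S.R ∧ S.upr ρ = i := by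
  unfold role at hi
  unfold upr
  split_ifs at hi with h1 h2 h3 h4 h5 h6 h7 h8
  · simp at hi
  · simp at hi
  · simp at hi
  · simp only [Prod.mk.injEq, true_and] at hi
    subst hi
    exact ⟨by omega, by rw [if_neg h4]; omega⟩
  · simp at hi
  · simp at hi
  · simp only [Prod.mk.injEq, true_and] at hi
    subst hi
    exact ⟨by omega, by rw [if_pos h8]; omega⟩
  · simp at hi
  · simp at hi

/-- the first component of the role is `0`, `1` or `2` -/
theorem role_le (S : RS) (i : ℕ) : (S.role i).1 ≤ 2 := by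
  unfold role
  split_ifs <;> simp

theorem low_inj (h : S.WF) {ρ σ : ℕ} (hρ : ρ < S.R) (hσ : σ < S.R) (e : S.low ρ = S.low σ) :
    ρ = σ := by
  have h1 := role_low h hρ
  have h2 := role_low h hσ
  rw [e, h2] at h1
  exact (Prod.mk.inj h1).2.symm

theorem upr_inj (h : S.WF) {ρ σ : ℕ} (hρ : ρ < S.R) (hσ : σ < S.R) (e : S.upr ρ = S.upr σ) :
    ρ = σ := by
  have h1 := role_upr h hρ
  have h2 := role_upr h hσ
  rw [e, h2] at h1
  exact (Prod.mk.inj h1).2.symm

theorem low_ne_upr (h : S.WF) {ρ σ : ℕ} (hρ : ρ < S.R) (hσ : σ < S.R) :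
    S.low ρ ≠ S.upr σ := by
  intro e
  have h1 := role_low h hρ
  have h2 := role_upr h hσ
  rw [e, h2] at h1
  have := (Prod.mk.inj h1).1
  omega

theorem loE_lt (h : S.WF) {l : ℕ} (hl : l < 2 * S.K) : loE l < S.R := by
  unfold loE
  have h1 := h.len
  omega

theorem loF_lt (h : S.WF) {l : ℕ} (hl : l < 2 * S.K) : loF l < S.R := by
  unfold loF
  have h1 := h.len
  split_ifs <;> omega

theorem loA_lt (h : S.WF) {l : ℕ} (hl : l < 2 * S.K) : S.loA l < S.R := by
  unfold loA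
  split_ifs
  · exact loE_lt h hl
  · exact loF_lt h hl

theorem loB_lt (h : S.WF) {l : ℕ} (hl : l < 2 * S.K) : S.loB l < S.R := by
  unfold loB
  split_ifs
  · exact loF_lt h hl
  · exact loE_lt h hl

theorem upA_lt (h : S.WF) {l : ℕ} (hl : l < 2 * S.K) : S.upA l < S.R := by
  unfold upA
  have h1 := h.len
  split_ifs <;> omega

theorem upB_lt (h : S.WF) {l : ℕ} (hl : l < 2 * S.K) : S.upB l < S.R := by
  unfold upB
  have h1 := h.len
  split_ifs <;> omega

/-- the two reads are different, and the row lane of `loA` is smaller -/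
theorem loA_lt_loB (h : S.WF) {l : ℕ} (hl : l < 2 * S.K) :
    S.low (S.loA l) < S.low (S.loB l) := by
  unfold loA loB
  split_ifs with h1
  · exact h1
  · refine lt_of_le_of_ne (not_lt.mp h1) fun e => ?_
    have h2 := low_inj h (loF_lt h hl) (loE_lt h hl) e
    unfold loF loE at h2
    split_ifs at h2 <;> omega

theorem upB_lt_upA (h : S.WF) {l : ℕ} (hl : l < 2 * S.K) :
    S.upr (S.upB l) < S.upr (S.upA l) := by
  unfold upA upB
  have h3 := h.len
  split_ifs with h1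
  · exact h1
  · refine lt_of_le_of_ne (not_lt.mp h1) fun e => ?_
    have h2 := upr_inj h (by omega) (by omega) e
    omega

theorem lo_pair (S : RS) (l : ℕ) : (S.loA l = loE l ∧ S.loB l = loF l) ∨
    (S.loA l = loF l ∧ S.loB l = loE l) := by
  unfold loA loB
  split_ifs
  · exact Or.inl ⟨rfl, rfl⟩
  · exact Or.inr ⟨rfl, rfl⟩

theorem up_pair (S : RS) (l : ℕ) : (S.upA l = 2 * l ∧ S.upB l = 2 * l + 1) ∨
    (S.upA l = 2 * l + 1 ∧ S.upB l = 2 * l) := by
  unfold upA upB
  split_ifs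
  · exact Or.inl ⟨rfl, rfl⟩
  · exact Or.inr ⟨rfl, rfl⟩

theorem lkL_loE (l : ℕ) : lkL (loE l) = l := by
  unfold lkL loE
  split_ifs <;> omega

theorem lkL_loF (l : ℕ) : lkL (loF l) = l := by
  unfold lkL loF
  split_ifs <;> omega

theorem lkL_loA (S : RS) (l : ℕ) : lkL (S.loA l) = l := by
  rcases S.lo_pair l with ⟨h1, _⟩ | ⟨h1, _⟩
  · rw [h1, lkL_loE]
  · rw [h1, lkL_loF]

theorem lkL_loB (S : RS) (l : ℕ) : lkL (S.loB l) = l := by
  rcases S.lo_pair l with ⟨_, h1⟩ | ⟨_, h1⟩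
  · rw [h1, lkL_loF]
  · rw [h1, lkL_loE]

theorem lkU_upA (S : RS) (l : ℕ) : lkU (S.upA l) = l := by
  unfold lkU
  rcases S.up_pair l with ⟨h1, _⟩ | ⟨h1, _⟩ <;> rw [h1] <;> omega

theorem lkU_upB (S : RS) (l : ℕ) : lkU (S.upB l) = l := by
  unfold lkU
  rcases S.up_pair l with ⟨_, h1⟩ | ⟨_, h1⟩ <;> rw [h1] <;> omega

theorem lkL_lt (h : S.WF) {ρ : ℕ} (hρ : ρ < S.R) : lkL ρ < 2 * S.K := by
  unfold lkL
  have h1 := h.len
  split_ifs <;> omega

theorem lkU_lt (h : S.WF) {ρ : ℕ} (hρ : ρ < S.R) : lkU ρ < 2 * S.K := by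
  unfold lkU
  have h1 := h.len
  omega

/-- a read is one of the two reads of its link -/
theorem eq_loA_or (S : RS) (ρ : ℕ) : ρ = S.loA (lkL ρ) ∨ ρ = S.loB (lkL ρ) := by
  have h1 : ρ = loE (lkL ρ) ∨ ρ = loF (lkL ρ) := by
    unfold loE loF lkL
    split_ifs <;> omega
  rcases S.lo_pair (lkL ρ) with ⟨h2, h3⟩ | ⟨h2, h3⟩
  · rw [h2, h3]
    exact h1
  · rw [h2, h3]
    exact h1.symm

theorem eq_upA_or (S : RS) (ρ : ℕ) : ρ = S.upA (lkU ρ) ∨ ρ = S.upB (lkU ρ) := by
  have h1 : ρ = 2 * lkU ρ ∨ ρ = 2 * lkU ρ + 1 := by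
    unfold lkU
    omega
  rcases S.up_pair (lkU ρ) with ⟨h2, h3⟩ | ⟨h2, h3⟩
  · rw [h2, h3]
    exact h1
  · rw [h2, h3]
    exact h1.symm

theorem hatL_loA (h : S.WF) {l : ℕ} (hl : l < 2 * S.K) : S.hatL (S.loA l) = true := by
  unfold hatL
  rw [lkL_loA, decide_eq_true_eq]

theorem hatL_loB (h : S.WF) {l : ℕ} (hl : l < 2 * S.K) : S.hatL (S.loB l) = false := by
  unfold hatL
  rw [lkL_loB, decide_eq_false_iff_not]
  intro e
  have h1 := loA_lt_loB h hl
  rw [e] at h1
  exact lt_irrefl _ h1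

theorem hatU_upA (h : S.WF) {l : ℕ} (hl : l < 2 * S.K) : S.hatU (S.upA l) = true := by
  unfold hatU
  rw [lkU_upA, decide_eq_true_eq]

theorem hatU_upB (h : S.WF) {l : ℕ} (hl : l < 2 * S.K) : S.hatU (S.upB l) = false := by
  unfold hatU
  rw [lkU_upB, decide_eq_false_iff_not]
  intro e
  have h1 := upB_lt_upA h hl
  rw [e] at h1
  exact lt_irrefl _ h1

/-- `(i, j)` determines the block -/
theorem block_inj (h : S.WF) {b b' : ℕ × ℕ} {c c' : ℕ} (hb : S.binB b c) (hb' : S.binB b' c')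
    (e1 : S.brow b = S.brow b') (e2 : S.bcol b = S.bcol b') : b = b' := by
  obtain ⟨g, x⟩ := b
  obtain ⟨g', x'⟩ := b'
  have key : ∀ {g x c : ℕ}, S.binB (g, x) c →
      ((g = 0 ∨ g = 1) ∧ x < S.R ∧ S.bcol (g, x) = S.lane x ∧ 2 * S.K ≤ S.bcol (g, x) ∧
        S.bcol (g, x) < S.rlane 0) ∨
      ((g = 2 ∨ g = 3) ∧ x < 2 * S.K ∧ S.bcol (g, x) = x) ∨
      ((g = 4 ∨ g = 5) ∧ x < 2 * S.K ∧ S.bcol (g, x) = S.rlane 0 + x) := by
    intro g x c hb
    unfold binB at hb
    simp only at hb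
    unfold bcol
    simp only
    rcases hb with ⟨h1, h2, _⟩ | ⟨h1, h2, h3, _⟩
    · left
      have h4 : g = 0 ∨ g = 1 := by omega
      rw [if_pos h4]
      exact ⟨h4, h2, rfl, lane_ge h h2, lane_lt h h2⟩
    · right
      rw [if_neg (by omega)]
      by_cases h4 : g = 2 ∨ g = 3
      · left
        rw [if_pos h4]
        exact ⟨h4, h3, rfl⟩
      · right
        rw [if_neg h4]
        refine ⟨by omega, h3, ?_⟩
        unfold rlane
        omega
  have hRK : 2 * S.K ≤ S.rlane 0 := by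
    unfold rlane
    omega
  have k1 := key hb
  have k2 := key hb'
  rcases k1 with ⟨g1, x1, c1, c1', c1''⟩ | ⟨g1, x1, c1⟩ | ⟨g1, x1, c1⟩
  · rcases k2 with ⟨g2, x2, c2, c2', c2''⟩ | ⟨g2, x2, c2⟩ | ⟨g2, x2, c2⟩
    · rcases g1 with rfl | rfl
      · rcases g2 with rfl | rfl
        · exact Prod.ext rfl (low_inj h x1 x2 e1)
        · exact absurd e1 (low_ne_upr h x1 x2)
      · rcases g2 with rfl | rfl
        · exact absurd e1.symm (low_ne_upr h x2 x1)
        · exact Prod.ext rfl (upr_inj h x1 x2 e1)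
    · omega
    · omega
  · rcases k2 with ⟨g2, x2, c2, c2', c2''⟩ | ⟨g2, x2, c2⟩ | ⟨g2, x2, c2⟩
    · omega
    · have hx : x = x' := by omega
      subst hx
      have h5 := loA_lt_loB h x1
      rcases g1 with rfl | rfl
      · rcases g2 with rfl | rfl
        · rfl
        · exact absurd e1 h5.ne
      · rcases g2 with rfl | rfl
        · exact absurd e1 h5.ne'
        · rfl
    · omega
  · rcases k2 with ⟨g2, x2, c2, c2', c2''⟩ | ⟨g2, x2, c2⟩ | ⟨g2, x2, c2⟩
    · omega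
    · omega
    · have hx : x = x' := by omega
      subst hx
      have h5 := upB_lt_upA h x1
      rcases g1 with rfl | rfl
      · rcases g2 with rfl | rfl
        · rfl
        · exact absurd e1 h5.ne'
      · rcases g2 with rfl | rfl
        · exact absurd e1 h5.ne
        · rfl

end RS

end Pool.Agent.H54R
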