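import Pool.Agent.Lib.H54R.Graph
import Pool.Agent.Lib.H54R.C1

/-!
# C2: members of the lists of reads in a lane
-/

set_option autoImplicit false

namespace Pool.Agent.H54R

namespace RS

variable {S : RS}

theorem c2_take {l : List ℕ} (hl : l.Pairwise (· < ·)) {x : ℕ} :
    x ∈ l.take 1 ↔ x ∈ l ∧ ∀ y ∈ l, ¬ y < x := by
  cases l with
  | nil => simp
  | cons b t =>
    rw [List.pairwise_cons] at hl
    rw [List.take_succ_cons, List.take_zero, List.mem_singleton, List.mem_cons]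
    constructor
    · rintro rfl
      refine ⟨Or.inl rfl, fun y hy => ?_⟩
      rcases List.mem_cons.1 hy with rfl | hy
      · exact lt_irrefl _
      · exact (hl.1 y hy).le.not_gt
    · rintro ⟨h1 | h1, h2⟩
      · exact h1
      · exact absurd (hl.1 x h1) (h2 b (by simp))

theorem c2_take' {l : List ℕ} {x : ℕ} (h : x ∈ l.take 1) : l.take 1 = [x] := by
  cases l with
  | nil => simp at h
  | cons b t =>
    simp only [List.take_succ_cons, List.take_zero, List.mem_singleton] at h ⊢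
    rw [h]

theorem c2_single {l : List ℕ} (hl : l.Pairwise (· < ·)) {a : ℕ} (h : ∀ x, x ∈ l ↔ x = a) :
    l = [a] := by
  cases l with
  | nil => exact absurd ((h a).2 rfl) (by simp)
  | cons b t =>
    rw [List.pairwise_cons] at hl
    have hb : b = a := (h b).1 (by simp)
    subst hb
    cases t with
    | nil => rfl
    | cons c u =>
      have hc : c = b := (h c).1 (by simp)
      have := hl.1 c (by simp)
      omega

theorem mem_rd {k j ρ : ℕ} : ρ ∈ S.rd k j ↔ ρ < S.R ∧ S.kd ρ = k ∧ S.lane ρ = j := by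
  simp [rd]

theorem rd_sorted (S : RS) (k j : ℕ) : (S.rd k j).Pairwise (· < ·) := by
  exact List.Pairwise.filter _ List.pairwise_lt_range

theorem kd_le (S : RS) (ρ : ℕ) : S.kd ρ ≤ 4 := by
  unfold kd
  split_ifs <;> omega

/-- parity of the kinds -/
theorem kd_even {ρ : ℕ} (h : S.kd ρ = 1 ∨ S.kd ρ = 3) : ρ % 2 = 0 := by
  rcases h with h | h <;> (unfold kd at h; split_ifs at h <;> omega)

theorem kd_odd {ρ : ℕ} (h : S.kd ρ = 2 ∨ S.kd ρ = 4) : ρ % 2 = 1 := by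
  rcases h with h | h <;> (unfold kd at h; split_ifs at h <;> omega)

/-- the operation of a read of kind 1 or 2 (3 or 4) in well-formed systems -/
theorem op_div (h : S.WF) {ρ : ℕ} (hρ : ρ < S.R) (hk : S.kd ρ = 1 ∨ S.kd ρ = 2) :
    S.op ρ = (1, S.lane ρ - 6 * S.K) ∧ 6 * S.K ≤ S.lane ρ ∧ S.lane ρ < 6 * S.K + S.m := by
  have h1 : (S.op ρ).1 = 1 := by
    rcases hk with hk | hk <;> (unfold kd at hk; split_ifs at hk <;> omega)
  have h2 := h.div_lt ρ hρ h1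
  have h3 : S.lane ρ = 6 * S.K + (S.op ρ).2 := by
    unfold lane
    rw [if_neg (by omega), if_pos h1]
  refine ⟨?_, by omega, by omega⟩
  rw [h3, Nat.add_sub_cancel_left, ← h1]

theorem op_mul (h : S.WF) {ρ : ℕ} (hρ : ρ < S.R) (hk : S.kd ρ = 3 ∨ S.kd ρ = 4) :
    S.op ρ = (2, S.lane ρ - (6 * S.K + S.m)) ∧ 6 * S.K + S.m ≤ S.lane ρ ∧
      S.lane ρ < 6 * S.K + S.m + S.n := by
  have h0 := h.tag ρ hρ
  have h1 : (S.op ρ).1 = 2 := by
    rcases hk with hk | hk <;> (unfold kd at hk; split_ifs at hk <;> omega)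
  have h2 := h.mul_lt ρ hρ h1
  have h3 : S.lane ρ = 6 * S.K + S.m + (S.op ρ).2 := by
    unfold lane
    rw [if_neg (by omega), if_neg (by omega)]
  refine ⟨?_, by omega, by omega⟩
  rw [h3, Nat.add_sub_cancel_left, ← h1]

theorem lane_plain (h : S.WF) {ρ : ℕ} (hρ : ρ < S.R) (hk : S.kd ρ = 0) :
    S.lane ρ = 2 * S.K + ρ ∧ S.lane ρ < 6 * S.K := by
  have h1 : (S.op ρ).1 = 0 := by
    unfold kd at hk
    split_ifs at hk <;> omega
  have h3 : S.lane ρ = 2 * S.K + ρ := by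
    unfold lane
    rw [if_pos h1]
  have h4 := h.len
  exact ⟨h3, by omega⟩

theorem c2_cases (ρ : ℕ) : S.kd ρ = 0 ∨ (S.kd ρ = 1 ∨ S.kd ρ = 2) ∨ (S.kd ρ = 3 ∨ S.kd ρ = 4) := by
  have := S.kd_le ρ
  omega

/-- plain lanes: the only read in the lane `2 K + ρ` is `ρ`, if it is plain -/
theorem rd_plain (h : S.WF) {ρ : ℕ} (hρ : ρ < S.R) (k : ℕ) :
    S.rd k (2 * S.K + ρ) = if k = 0 ∧ S.kd ρ = 0 then [ρ] else [] := by
  have h4 := h.len
  have key : ∀ σ, σ ∈ S.rd k (2 * S.K + ρ) ↔ (k = 0 ∧ S.kd ρ = 0) ∧ σ = ρ := by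
    intro σ
    rw [mem_rd]
    constructor
    · rintro ⟨h1, h2, h3⟩
      have h5 := S.kd_le σ
      rcases c2_cases (S := S) σ with hc | hc | hc
      · have h6 := lane_plain h h1 hc
        have h7 : σ = ρ := by omega
        subst h7
        exact ⟨⟨by omega, hc⟩, rfl⟩
      · have h6 := op_div h h1 hc
        omega
      · have h6 := op_mul h h1 hc
        omega
    · rintro ⟨⟨h1, h2⟩, h3⟩
      subst h3
      exact ⟨hρ, by omega, (lane_plain h hρ h2).1⟩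
  split_ifs with hc
  · exact c2_single (S.rd_sorted _ _) fun σ => by rw [key σ]; simp [hc]
  · refine List.eq_nil_iff_forall_not_mem.2 fun σ hσ => hc ((key σ).1 hσ).1

/-- fresh lanes: exactly one read of kind 1 and one of kind 2 -/
theorem rd_fresh (h : S.WF) {k : ℕ} (hk : k < S.m) :
    ∃ ρ σ, S.rd 1 (6 * S.K + k) = [ρ] ∧ S.rd 2 (6 * S.K + k) = [σ] ∧
      S.rd 0 (6 * S.K + k) = [] ∧ S.rd 3 (6 * S.K + k) = [] ∧ S.rd 4 (6 * S.K + k) = [] := by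
  obtain ⟨ρ, ⟨r1, r2, r3⟩, r4⟩ := h.divE k hk
  obtain ⟨σ, ⟨s1, s2, s3⟩, s4⟩ := h.divO k hk
  have hρ : S.kd ρ = 1 ∧ S.lane ρ = 6 * S.K + k := by
    unfold kd lane
    rw [r3]
    simp [r2]
  have hσ : S.kd σ = 2 ∧ S.lane σ = 6 * S.K + k := by
    unfold kd lane
    rw [s3]
    simp [s2]
  refine ⟨ρ, σ, c2_single (S.rd_sorted _ _) fun τ => ?_, c2_single (S.rd_sorted _ _) fun τ => ?_,
    ?_, ?_, ?_⟩
  · rw [mem_rd]
    constructor
    · rintro ⟨h1, h2, h3⟩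
      have h5 := op_div h h1 (Or.inl h2)
      refine r4 τ ⟨h1, kd_even (Or.inl h2), ?_⟩
      rw [h5.1, h3, Nat.add_sub_cancel_left]
    · rintro rfl
      exact ⟨r1, hρ⟩
  · rw [mem_rd]
    constructor
    · rintro ⟨h1, h2, h3⟩
      have h5 := op_div h h1 (Or.inr h2)
      refine s4 τ ⟨h1, kd_odd (Or.inl h2), ?_⟩
      rw [h5.1, h3, Nat.add_sub_cancel_left]
    · rintro rfl
      exact ⟨s1, hσ⟩
  · refine List.eq_nil_iff_forall_not_mem.2 fun τ hτ => ?_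
    obtain ⟨h1, h2, h3⟩ := mem_rd.1 hτ
    have := lane_plain h h1 h2
    omega
  · refine List.eq_nil_iff_forall_not_mem.2 fun τ hτ => ?_
    obtain ⟨h1, h2, h3⟩ := mem_rd.1 hτ
    have := op_mul h h1 (Or.inl h2)
    omega
  · refine List.eq_nil_iff_forall_not_mem.2 fun τ hτ => ?_
    obtain ⟨h1, h2, h3⟩ := mem_rd.1 hτ
    have := op_mul h h1 (Or.inr h2)
    omega

/-- home lanes: at least one read of kind 3 and of kind 4, no others -/
theorem rd_home (h : S.WF) {i : ℕ} (hi : i < S.n) :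
    S.rd 3 (6 * S.K + S.m + i) ≠ [] ∧ S.rd 4 (6 * S.K + S.m + i) ≠ [] ∧
      S.rd 0 (6 * S.K + S.m + i) = [] ∧ S.rd 1 (6 * S.K + S.m + i) = [] ∧
      S.rd 2 (6 * S.K + S.m + i) = [] := by
  obtain ⟨ρ, r1, r2, r3⟩ := h.mulE i hi
  obtain ⟨σ, s1, s2, s3⟩ := h.mulO i hi
  have hρ : S.kd ρ = 3 ∧ S.lane ρ = 6 * S.K + S.m + i := by
    unfold kd lane
    rw [r3]
    simp [r2]
  have hσ : S.kd σ = 4 ∧ S.lane σ = 6 * S.K + S.m + i := by
    unfold kd lane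
    rw [s3]
    simp [s2]
  refine ⟨List.ne_nil_of_mem (mem_rd.2 ⟨r1, hρ⟩), List.ne_nil_of_mem (mem_rd.2 ⟨s1, hσ⟩),
    ?_, ?_, ?_⟩
  · refine List.eq_nil_iff_forall_not_mem.2 fun τ hτ => ?_
    obtain ⟨h1, h2, h3⟩ := mem_rd.1 hτ
    have := lane_plain h h1 h2
    omega
  · refine List.eq_nil_iff_forall_not_mem.2 fun τ hτ => ?_
    obtain ⟨h1, h2, h3⟩ := mem_rd.1 hτ
    have := op_div h h1 (Or.inl h2)
    omega
  · refine List.eq_nil_iff_forall_not_mem.2 fun τ hτ => ?_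
    obtain ⟨h1, h2, h3⟩ := mem_rd.1 hτ
    have := op_div h h1 (Or.inr h2)
    omega

/-- the next read -/
theorem mem_nxt {ρ σ : ℕ} : σ ∈ S.nxt ρ ↔ (σ < S.R ∧ S.kd σ = S.kd ρ ∧ S.lane σ = S.lane ρ ∧
    ρ < σ) ∧ ∀ τ, ρ < τ → τ < σ → ¬ (S.kd τ = S.kd ρ ∧ S.lane τ = S.lane ρ) := by
  unfold nxt
  rw [c2_take (List.Pairwise.filter _ List.pairwise_lt_range)]
  simp only [List.mem_filter, List.mem_range, decide_eq_true_eq]
  constructor
  · rintro ⟨h1, h2⟩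
    exact ⟨h1, fun τ h3 h4 h5 => h2 τ ⟨by omega, h5.1, h5.2, h3⟩ h4⟩
  · rintro ⟨h1, h2⟩
    exact ⟨h1, fun τ h3 h4 => h2 τ h3.2.2.2 h4 ⟨h3.2.1, h3.2.2.1⟩⟩

theorem nxt_length (S : RS) (ρ : ℕ) : (S.nxt ρ).length ≤ 1 := by
  unfold nxt
  rw [List.length_take]
  exact min_le_left _ _

/-- every read of kind 3 or 4 is the first one of its lane, or the next one of a previous read -/
theorem first_or_next {ρ : ℕ} (hρ : ρ < S.R) :
    (∀ τ < ρ, ¬ (S.kd τ = S.kd ρ ∧ S.lane τ = S.lane ρ)) ∨ ∃ σ < ρ, ρ ∈ S.nxt σ := by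
  by_cases h : ∃ τ < ρ, S.kd τ = S.kd ρ ∧ S.lane τ = S.lane ρ
  · right
    classical
    obtain ⟨τ, h1, h2⟩ := h
    obtain ⟨σ, h3, h4⟩ := ((Finset.range ρ).filter fun τ =>
      S.kd τ = S.kd ρ ∧ S.lane τ = S.lane ρ).exists_max_image id ⟨τ, by simp [h1, h2]⟩
    simp only [Finset.mem_filter, Finset.mem_range, id] at h3 h4
    refine ⟨σ, h3.1, mem_nxt.2 ⟨⟨hρ, h3.2.1.symm, h3.2.2.symm, h3.1⟩, fun τ h5 h6 h7 => ?_⟩⟩
    have := h4 τ ⟨h6, by rw [h7.1, h3.2.1], by rw [h7.2, h3.2.2]⟩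
    omega
  · left
    push Not at h
    intro τ h1 h2
    exact h τ h1 h2.1 h2.2

/-- the first read of the lane is the head of the list -/
theorem take_one {ρ : ℕ} (hρ : ρ < S.R)
    (h : ∀ τ < ρ, ¬ (S.kd τ = S.kd ρ ∧ S.lane τ = S.lane ρ)) :
    (S.rd (S.kd ρ) (S.lane ρ)).take 1 = [ρ] := by
  refine c2_take' ((c2_take (S.rd_sorted _ _)).2 ⟨mem_rd.2 ⟨hρ, rfl, rfl⟩, fun y hy h1 => ?_⟩)
  obtain ⟨h2, h3, h4⟩ := mem_rd.1 hy
  exact h y h1 ⟨h3, h4⟩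

end RS

end Pool.Agent.H54R
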