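import Pool.Agent.Lib.H54R.Graph
import Pool.Agent.Lib.H54R.C1
import Pool.Agent.Lib.H54R.C2

/-!
# C3: complete lines of the network: members and order
-/

set_option autoImplicit false

namespace Pool.Agent.H54R

namespace RS

variable {S : RS}

theorem binB_F {b : ℕ × ℕ} {c : ℕ} (hb : S.binB b c) : S.binB b (S.bF b) := by
  rcases hb with ⟨h1, h2, h3⟩ | ⟨h1, h2, h3, h4⟩
  · left
    refine ⟨h1, h2, ?_⟩
    unfold bF
    split_ifs <;> omega
  · right
    refine ⟨h1, h2, h3, ?_⟩
    unfold bF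
    split_ifs <;> omega

theorem brow_lt (h : S.WF) {b : ℕ × ℕ} {c : ℕ} (hb : S.binB b c) : S.brow b < S.MM := by
  obtain ⟨g, l⟩ := b
  unfold brow
  rcases hb with ⟨h1, h2, h3⟩ | ⟨h1, h2, h3, h4⟩
  · simp only at h1 h2 ⊢
    split_ifs with g0 g1 g2 g3 g4
    · exact low_lt h h2
    · exact upr_lt h h2
    all_goals omega
  · simp only at h1 h2 h3 ⊢
    split_ifs with g0 g1 g2 g3 g4
    · omega
    · omega
    · exact low_lt h (loA_lt h h3)
    · exact low_lt h (loB_lt h h3)
    · exact upr_lt h (upA_lt h h3)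
    · exact upr_lt h (upB_lt h h3)

theorem bcol_lt (h : S.WF) {b : ℕ × ℕ} {c : ℕ} (hb : S.binB b c) : S.bcol b < S.NN := by
  obtain ⟨g, l⟩ := b
  unfold bcol
  rcases hb with ⟨h1, h2, h3⟩ | ⟨h1, h2, h3, h4⟩
  · simp only at h1 h2 ⊢
    split_ifs with g0 g1
    · have := lane_lt h h2
      unfold rlane at this
      unfold NN
      omega
    all_goals omega
  · simp only at h1 h2 h3 ⊢
    split_ifs with g0 g1
    · omega
    · unfold NN
      omega
    · exact rlane_lt h h3

theorem c3_hatA {ρ : ℕ} (e : S.hatL ρ = true) : S.loA (lkL ρ) = ρ :=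
  (of_decide_eq_true e).symm

theorem c3_hatB {ρ : ℕ} (e : ¬ S.hatL ρ = true) : S.loB (lkL ρ) = ρ := by
  rcases S.eq_loA_or ρ with h | h
  · exact absurd (decide_eq_true h) e
  · exact h.symm

theorem c3_hatA' {ρ : ℕ} (e : S.hatU ρ = true) : S.upA (lkU ρ) = ρ :=
  (of_decide_eq_true e).symm

theorem c3_hatB' {ρ : ℕ} (e : ¬ S.hatU ρ = true) : S.upB (lkU ρ) = ρ := by
  rcases S.eq_upA_or ρ with h | h
  · exact absurd (decide_eq_true h) e
  · exact h.symm

theorem c3_rB (h : S.WF) {i : ℕ} {v : (ℕ × ℕ) × ℕ} (hv : v ∈ S.rB i) :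
    S.binB v.1 v.2 ∧ S.brow v.1 = i := by
  unfold rB at hv
  split_ifs at hv with g1 g2 g3 g4
  · obtain ⟨h1, h2⟩ := role_one h (Prod.ext g1 rfl : S.role i = (1, (S.role i).2))
    have h3 := lkL_lt h h1
    simp only [List.mem_singleton] at hv
    subst hv
    refine ⟨Or.inr ⟨by norm_num, by norm_num, h3, by norm_num⟩, ?_⟩
    simp [brow, c3_hatA g2, h2]
  · obtain ⟨h1, h2⟩ := role_one h (Prod.ext g1 rfl : S.role i = (1, (S.role i).2))
    have h3 := lkL_lt h h1
    simp only [List.mem_cons, List.not_mem_nil, or_false] at hv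
    rcases hv with hv | hv <;> subst hv
    · refine ⟨Or.inr ⟨by norm_num, by norm_num, h3, by norm_num⟩, ?_⟩
      simp [brow, c3_hatB g2, h2]
    · refine ⟨Or.inl ⟨by norm_num, h1, by norm_num⟩, ?_⟩
      simp [brow, h2]
  · obtain ⟨h1, h2⟩ := role_two h (Prod.ext g3 rfl : S.role i = (2, (S.role i).2))
    have h3 := lkU_lt h h1
    simp only [List.mem_cons, List.not_mem_nil, or_false] at hv
    rcases hv with hv | hv <;> subst hv
    · refine ⟨Or.inl ⟨by norm_num, h1, by norm_num⟩, ?_⟩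
      simp [brow, h2]
    · refine ⟨Or.inr ⟨by norm_num, by norm_num, h3, by norm_num⟩, ?_⟩
      simp [brow, c3_hatA' g4, h2]
  · obtain ⟨h1, h2⟩ := role_two h (Prod.ext g3 rfl : S.role i = (2, (S.role i).2))
    have h3 := lkU_lt h h1
    simp only [List.mem_cons, List.not_mem_nil, or_false] at hv
    rcases hv with hv | hv <;> subst hv
    · refine ⟨Or.inl ⟨by norm_num, h1, by norm_num⟩, ?_⟩
      simp [brow, h2]
    · refine ⟨Or.inr ⟨by norm_num, by norm_num, h3, by norm_num⟩, ?_⟩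
      simp [brow, c3_hatB' g4, h2]
  · simp at hv

theorem c3_rT (h : S.WF) {i : ℕ} {v : (ℕ × ℕ) × ℕ} (hv : v ∈ S.rT i) :
    S.binB v.1 v.2 ∧ S.brow v.1 = i := by
  unfold rT at hv
  split_ifs at hv with g1 g2 g3 g4
  · obtain ⟨h1, h2⟩ := role_one h (Prod.ext g1 rfl : S.role i = (1, (S.role i).2))
    have h3 := lkL_lt h h1
    simp only [List.mem_cons, List.not_mem_nil, or_false] at hv
    rcases hv with hv | hv <;> subst hv
    · refine ⟨Or.inr ⟨by norm_num, by norm_num, h3, by norm_num⟩, ?_⟩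
      simp [brow, c3_hatA g2, h2]
    · refine ⟨Or.inl ⟨by norm_num, h1, by norm_num⟩, ?_⟩
      simp [brow, h2]
  · obtain ⟨h1, h2⟩ := role_one h (Prod.ext g1 rfl : S.role i = (1, (S.role i).2))
    have h3 := lkL_lt h h1
    simp only [List.mem_cons, List.not_mem_nil, or_false] at hv
    rcases hv with hv | hv <;> subst hv
    · refine ⟨Or.inr ⟨by norm_num, by norm_num, h3, by norm_num⟩, ?_⟩
      simp [brow, c3_hatB g2, h2]
    · refine ⟨Or.inl ⟨by norm_num, h1, by norm_num⟩, ?_⟩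
      simp [brow, h2]
  · obtain ⟨h1, h2⟩ := role_two h (Prod.ext g3 rfl : S.role i = (2, (S.role i).2))
    have h3 := lkU_lt h h1
    simp only [List.mem_singleton] at hv
    subst hv
    refine ⟨Or.inr ⟨by norm_num, by norm_num, h3, by norm_num⟩, ?_⟩
    simp [brow, c3_hatA' g4, h2]
  · obtain ⟨h1, h2⟩ := role_two h (Prod.ext g3 rfl : S.role i = (2, (S.role i).2))
    have h3 := lkU_lt h h1
    simp only [List.mem_cons, List.not_mem_nil, or_false] at hv
    rcases hv with hv | hv <;> subst hv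
    · refine ⟨Or.inl ⟨by norm_num, h1, by norm_num⟩, ?_⟩
      simp [brow, h2]
    · refine ⟨Or.inr ⟨by norm_num, by norm_num, h3, by norm_num⟩, ?_⟩
      simp [brow, c3_hatB' g4, h2]
  · simp at hv

theorem c3_BT {i : ℕ} {v : (ℕ × ℕ) × ℕ} (hv : v ∈ S.rB i) : v ∉ S.rT i := by
  unfold rB at hv
  unfold rT
  split_ifs at hv ⊢ with g1 g2 g3 g4
  · simp only [List.mem_cons, List.not_mem_nil, or_false] at hv ⊢
    subst hv
    simp
  · simp only [List.mem_cons, List.not_mem_nil, or_false] at hv ⊢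
    rcases hv with hv | hv <;> subst hv <;> simp
  · simp only [List.mem_cons, List.not_mem_nil, or_false] at hv ⊢
    rcases hv with hv | hv <;> subst hv <;> simp
  · simp only [List.mem_cons, List.not_mem_nil, or_false] at hv ⊢
    rcases hv with hv | hv <;> subst hv <;> simp
  · simp

theorem bri_mem (h : S.WF) {k : ℕ} {v : (ℕ × ℕ) × ℕ} (hk : Cpl S.MM k) (hv : v ∈ S.bri k) :
    S.binB v.1 v.2 ∧ S.brow v.1 = k / 4 := by
  unfold bri at hv
  split_ifs at hv with h1 h2
  · exact c3_rB h hv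
  · exact c3_rT h hv
  · simp at hv

theorem bri_sorted (h : S.WF) {k : ℕ} (hk : Cpl S.MM k) :
    (S.bri k).Pairwise fun v w => S.bcol v.1 < S.bcol w.1 := by
  have key : ∀ i, (S.role i).1 = 1 → lkL (S.role i).2 < S.lane (S.role i).2 := fun i e => by
    have h1 := (role_one h (Prod.ext e rfl : S.role i = (1, (S.role i).2))).1
    exact lt_of_lt_of_le (lkL_lt h h1) (lane_ge h h1)
  have key' : ∀ i, (S.role i).1 = 2 → S.lane (S.role i).2 < S.rlane (lkU (S.role i).2) :=
      fun i e => by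
    have h1 := (role_two h (Prod.ext e rfl : S.role i = (2, (S.role i).2))).1
    refine lt_of_lt_of_le (lane_lt h h1) ?_
    unfold rlane
    omega
  unfold bri
  split_ifs with h1 h2
  · unfold rB
    split_ifs with g1 g2 g3 g4
    · simp
    · simpa [bcol] using key _ g1
    · simpa [bcol] using key' _ g3
    · simpa [bcol] using key' _ g3
    · simp
  · unfold rT
    split_ifs with g1 g2 g3 g4
    · simpa [bcol] using key _ g1
    · simpa [bcol] using key _ g1
    · simp
    · simpa [bcol] using key' _ g3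
    · simp
  · simp

theorem bri_disj (h : S.WF) {k l : ℕ} {v : (ℕ × ℕ) × ℕ} (hk : Cpl S.MM k) (hl : Cpl S.MM l)
    (hv : v ∈ S.bri k) (hv' : v ∈ S.bri l) : k = l := by
  have e1 := (bri_mem h hk hv).2
  have e2 := (bri_mem h hl hv').2
  have e3 : k / 4 = l / 4 := by rw [← e1, e2]
  unfold bri at hv hv'
  rw [← e3] at hv'
  split_ifs at hv hv' with h1 h2 h3 h4 h5
  · omega
  · exact absurd hv' (c3_BT hv)
  · simp at hv'
  · exact absurd hv (c3_BT hv')
  · omega
  · simp at hv'
  · simp at hv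
  · simp at hv
  · simp at hv

end RS

end Pool.Agent.H54R
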