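import Pool.Agent.Lib.H54R.Graph
import Pool.Agent.Lib.H54R.C1
import Pool.Agent.Lib.H54R.C2

/-!
# C4: complete column lines: members and order
-/

set_option autoImplicit false

namespace Pool.Agent.H54R

namespace RS

variable {S : RS}

theorem c4_in {ρ : ℕ} (e : S.kd ρ = 0 ∨ S.kd ρ = 1 ∨ S.kd ρ = 4) :
    S.low ρ = ρ ∧ S.upr ρ = 2 * S.R - 1 - ρ := by
  have h : S.outer ρ = false := by
    unfold outer
    rcases e with e | e | e <;> rw [e] <;> rfl
  unfold low upr
  rw [h]
  simp

theorem c4_out {ρ : ℕ} (e : S.kd ρ = 2 ∨ S.kd ρ = 3) :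
    S.low ρ = 2 * S.R + ρ ∧ S.upr ρ = 4 * S.R - 1 - ρ := by
  have h : S.outer ρ = true := by
    unfold outer
    rcases e with e | e <;> rw [e] <;> rfl
  unfold low upr
  rw [h]
  simp

theorem c4_one {k j ρ g c : ℕ} (hρ : ρ ∈ S.rd k j) (hg : g ≤ 1) (hc : c < 3) :
    S.binB (g, ρ) c ∧ S.bcol (g, ρ) = j := by
  obtain ⟨h1, h2, h3⟩ := mem_rd.1 hρ
  refine ⟨Or.inl ⟨hg, h1, hc⟩, ?_⟩
  unfold bcol
  simp only
  rw [if_pos (by omega), h3]

theorem c4_cL (h : S.WF) {j : ℕ} (hj : j < S.NN) {v : (ℕ × ℕ) × ℕ} (hv : v ∈ S.cL j) :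
    S.binB v.1 v.2 ∧ S.bcol v.1 = j := by
  have hN : S.NN = 8 * S.K + S.m + S.n := rfl
  have hr : ∀ l, S.rlane l = 6 * S.K + S.m + S.n + l := fun l => rfl
  unfold cL at hv
  split_ifs at hv with g1 g2
  · simp only [List.mem_singleton] at hv
    subst hv
    refine ⟨Or.inr ⟨by norm_num, by norm_num, g1, by norm_num⟩, ?_⟩
    simp [bcol]
  · simp only [List.mem_cons, List.not_mem_nil, or_false] at hv
    have h1 : j - S.rlane 0 < 2 * S.K := by
      have e1 := hr 0
      omega
    have h2 : S.rlane (j - S.rlane 0) = j := by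
      have e1 := hr 0
      have e2 := hr (j - S.rlane 0)
      omega
    rcases hv with hv | hv <;> subst hv
    · refine ⟨Or.inr ⟨by norm_num, by norm_num, h1, by norm_num⟩, ?_⟩
      simpa [bcol] using h2
    · refine ⟨Or.inr ⟨by norm_num, by norm_num, h1, by norm_num⟩, ?_⟩
      simpa [bcol] using h2
  · simp only [List.mem_append, List.mem_map, List.mem_flatMap, List.mem_cons,
      List.not_mem_nil, or_false] at hv
    rcases hv with (((⟨ρ, hρ, e⟩ | ⟨ρ, hρ, e | e⟩) | ⟨ρ, hρ, e | e⟩) | ⟨ρ, hρ, e | e⟩) | ⟨ρ, hρ, e⟩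
    · subst e; exact c4_one hρ (by omega) (by omega)
    · subst e; exact c4_one hρ (by omega) (by omega)
    · subst e; exact c4_one hρ (by omega) (by omega)
    · subst e; exact c4_one hρ (by omega) (by omega)
    · subst e; exact c4_one hρ (by omega) (by omega)
    · subst e; exact c4_one (List.mem_of_mem_take hρ) (by omega) (by omega)
    · subst e; exact c4_one (List.mem_of_mem_take hρ) (by omega) (by omega)
    · subst e; exact c4_one hρ (by omega) (by omega)

theorem c4_cR (h : S.WF) {j : ℕ} (hj : j < S.NN) {v : (ℕ × ℕ) × ℕ} (hv : v ∈ S.cR j) :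
    S.binB v.1 v.2 ∧ S.bcol v.1 = j := by
  have hN : S.NN = 8 * S.K + S.m + S.n := rfl
  have hr : ∀ l, S.rlane l = 6 * S.K + S.m + S.n + l := fun l => rfl
  unfold cR at hv
  split_ifs at hv with g1 g2
  · simp only [List.mem_cons, List.not_mem_nil, or_false] at hv
    rcases hv with hv | hv <;> subst hv
    · refine ⟨Or.inr ⟨by norm_num, by norm_num, g1, by norm_num⟩, ?_⟩
      simp [bcol]
    · refine ⟨Or.inr ⟨by norm_num, by norm_num, g1, by norm_num⟩, ?_⟩
      simp [bcol]
  · simp only [List.mem_singleton] at hv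
    have h1 : j - S.rlane 0 < 2 * S.K := by
      have e1 := hr 0
      omega
    have h2 : S.rlane (j - S.rlane 0) = j := by
      have e1 := hr 0
      have e2 := hr (j - S.rlane 0)
      omega
    subst hv
    refine ⟨Or.inr ⟨by norm_num, by norm_num, h1, by norm_num⟩, ?_⟩
    simpa [bcol] using h2
  · simp only [List.mem_append, List.mem_map, List.mem_flatMap, List.mem_cons,
      List.not_mem_nil, or_false, List.mem_reverse] at hv
    rcases hv with (((⟨ρ, hρ, e | e⟩ | ⟨ρ, hρ, e⟩) | ⟨ρ, hρ, e | e⟩) | ⟨ρ, hρ, e | e⟩) | ⟨ρ, hρ, e⟩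
    · subst e; exact c4_one hρ (by omega) (by omega)
    · subst e; exact c4_one hρ (by omega) (by omega)
    · subst e; exact c4_one hρ (by omega) (by omega)
    · subst e; exact c4_one hρ (by omega) (by omega)
    · subst e; exact c4_one hρ (by omega) (by omega)
    · subst e; exact c4_one (List.mem_of_mem_take hρ) (by omega) (by omega)
    · subst e; exact c4_one (List.mem_of_mem_take hρ) (by omega) (by omega)
    · subst e; exact c4_one hρ (by omega) (by omega)

theorem c4_take {l : List ℕ} (hl : l ≠ []) : ∃ a ∈ l, l.take 1 = [a] := by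
  cases l with
  | nil => exact absurd rfl hl
  | cons a t => exact ⟨a, by simp, by simp⟩

theorem c4_sL (h : S.WF) {j : ℕ} (hj : j < S.NN) :
    (S.cL j).Pairwise fun v w => S.brow v.1 < S.brow w.1 := by
  have hN : S.NN = 8 * S.K + S.m + S.n := rfl
  have hr : ∀ l, S.rlane l = 6 * S.K + S.m + S.n + l := fun l => rfl
  have hR := h.len
  have hK := h.pos
  unfold cL
  split_ifs with g1 g2
  · simp
  · have h1 : j - S.rlane 0 < 2 * S.K := by rw [hr]; omega
    simpa [brow] using upB_lt_upA h h1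
  · rw [hr] at g2
    by_cases c1 : j < 6 * S.K
    · obtain ⟨ρ, rfl⟩ : ∃ ρ, j = 2 * S.K + ρ := ⟨j - 2 * S.K, by omega⟩
      have hρ : ρ < S.R := by omega
      have h0 := low_lt_upr h hρ
      simp only [rd_plain h hρ]
      by_cases c2 : S.kd ρ = 0
      · simpa [c2, brow] using h0
      · simp [c2]
    by_cases c2 : j < 6 * S.K + S.m
    · obtain ⟨k, rfl⟩ : ∃ k, j = 6 * S.K + k := ⟨j - 6 * S.K, by omega⟩
      obtain ⟨ρ, σ, r1, r2, r3, r4, r5⟩ := rd_fresh h (k := k) (by omega)
      obtain ⟨a1, a2, a3⟩ := mem_rd.1 (by rw [r1]; simp : ρ ∈ S.rd 1 (6 * S.K + k))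
      obtain ⟨b1, b2, b3⟩ := mem_rd.1 (by rw [r2]; simp : σ ∈ S.rd 2 (6 * S.K + k))
      have a4 := c4_in (S := S) (ρ := ρ) (Or.inr (Or.inl a2))
      have b4 := c4_out (S := S) (ρ := σ) (Or.inl b2)
      rw [r1, r2, r3, r4, r5]
      simp only [List.map_nil, List.flatMap_nil, List.take_nil, List.nil_append, List.flatMap_cons,
        List.append_nil, List.map_cons, List.cons_append, List.pairwise_cons, List.mem_cons,
        List.not_mem_nil, or_false, forall_eq_or_imp, forall_eq, brow, a4, b4]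
      simp
      omega
    · obtain ⟨i, rfl⟩ : ∃ i, j = 6 * S.K + S.m + i := ⟨j - (6 * S.K + S.m), by omega⟩
      obtain ⟨r3, r4, r0, r1, r2⟩ := rd_home h (i := i) (by omega)
      rw [r0, r1, r2]
      obtain ⟨a, ha, ha'⟩ := c4_take r3
      rw [ha']
      obtain ⟨a1, a2, a3⟩ := mem_rd.1 ha
      have a4 := c4_out (S := S) (ρ := a) (Or.inr a2)
      simp only [List.flatMap_nil, List.append_nil, List.map_nil, List.flatMap_cons]
      rw [List.pairwise_append]
      refine ⟨?_, ?_, ?_⟩
      · rw [List.pairwise_map]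
        refine (S.rd_sorted 4 _).imp_of_mem fun {x y} hx hy hxy => ?_
        obtain ⟨x1, x2, x3⟩ := mem_rd.1 hx
        obtain ⟨y1, y2, y3⟩ := mem_rd.1 hy
        have x4 := c4_in (S := S) (ρ := x) (Or.inr (Or.inr x2))
        have y4 := c4_in (S := S) (ρ := y) (Or.inr (Or.inr y2))
        simpa [brow, x4, y4] using hxy
      · have := low_lt_upr h a1
        simpa [brow] using this
      · intro v hv w hw
        simp only [List.mem_map, List.mem_cons, List.not_mem_nil, or_false] at hv hw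
        obtain ⟨x, hx, rfl⟩ := hv
        obtain ⟨x1, x2, x3⟩ := mem_rd.1 hx
        have x4 := c4_in (S := S) (ρ := x) (Or.inr (Or.inr x2))
        rcases hw with hw | hw <;> subst hw <;> simp [brow, x4, a4] <;> omega

theorem c4_sR (h : S.WF) {j : ℕ} (hj : j < S.NN) :
    (S.cR j).Pairwise fun v w => S.brow v.1 < S.brow w.1 := by
  have hN : S.NN = 8 * S.K + S.m + S.n := rfl
  have hr : ∀ l, S.rlane l = 6 * S.K + S.m + S.n + l := fun l => rfl
  have hR := h.len
  have hK := h.pos
  unfold cR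
  split_ifs with g1 g2
  · simpa [brow] using loA_lt_loB h g1
  · simp
  · rw [hr] at g2
    by_cases c1 : j < 6 * S.K
    · obtain ⟨ρ, rfl⟩ : ∃ ρ, j = 2 * S.K + ρ := ⟨j - 2 * S.K, by omega⟩
      have hρ : ρ < S.R := by omega
      have h0 := low_lt_upr h hρ
      simp only [rd_plain h hρ]
      by_cases c2 : S.kd ρ = 0
      · simpa [c2, brow] using h0
      · simp [c2]
    by_cases c2 : j < 6 * S.K + S.m
    · obtain ⟨k, rfl⟩ : ∃ k, j = 6 * S.K + k := ⟨j - 6 * S.K, by omega⟩
      obtain ⟨ρ, σ, r1, r2, r3, r4, r5⟩ := rd_fresh h (k := k) (by omega)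
      obtain ⟨a1, a2, a3⟩ := mem_rd.1 (by rw [r1]; simp : ρ ∈ S.rd 1 (6 * S.K + k))
      obtain ⟨b1, b2, b3⟩ := mem_rd.1 (by rw [r2]; simp : σ ∈ S.rd 2 (6 * S.K + k))
      have a4 := c4_in (S := S) (ρ := ρ) (Or.inr (Or.inl a2))
      have b4 := c4_out (S := S) (ρ := σ) (Or.inl b2)
      rw [r1, r2, r3, r4, r5]
      simp only [List.map_nil, List.flatMap_nil, List.take_nil, List.nil_append, List.flatMap_cons,
        List.append_nil, List.map_cons, List.cons_append, List.pairwise_cons, List.mem_cons,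
        List.not_mem_nil, or_false, forall_eq_or_imp, forall_eq, brow, a4, b4, List.reverse_nil]
      simp
      omega
    · obtain ⟨i, rfl⟩ : ∃ i, j = 6 * S.K + S.m + i := ⟨j - (6 * S.K + S.m), by omega⟩
      obtain ⟨r3, r4, r0, r1, r2⟩ := rd_home h (i := i) (by omega)
      rw [r0, r1, r2]
      obtain ⟨a, ha, ha'⟩ := c4_take r4
      rw [ha']
      obtain ⟨a1, a2, a3⟩ := mem_rd.1 ha
      have a4 := c4_in (S := S) (ρ := a) (Or.inr (Or.inr a2))
      simp only [List.flatMap_nil, List.nil_append, List.map_nil, List.flatMap_cons,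
        List.append_nil]
      rw [List.pairwise_append]
      refine ⟨?_, ?_, ?_⟩
      · have := low_lt_upr h a1
        simpa [brow] using this
      · rw [List.pairwise_map, List.pairwise_reverse]
        refine (S.rd_sorted 3 _).imp_of_mem fun {x y} hx hy hxy => ?_
        obtain ⟨x1, x2, x3⟩ := mem_rd.1 hx
        obtain ⟨y1, y2, y3⟩ := mem_rd.1 hy
        have x4 := c4_out (S := S) (ρ := x) (Or.inr x2)
        have y4 := c4_out (S := S) (ρ := y) (Or.inr y2)
        simp [brow, x4, y4]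
        omega
      · intro v hv w hw
        simp only [List.mem_map, List.mem_cons, List.not_mem_nil, or_false,
          List.mem_reverse] at hv hw
        obtain ⟨x, hx, rfl⟩ := hw
        obtain ⟨x1, x2, x3⟩ := mem_rd.1 hx
        have x4 := c4_out (S := S) (ρ := x) (Or.inr x2)
        rcases hv with hv | hv <;> subst hv <;> simp [brow, x4, a4] <;> omega

theorem c4_LR {j : ℕ} {v : (ℕ × ℕ) × ℕ} (hv : v ∈ S.cL j) : v ∉ S.cR j := by
  unfold cL at hv
  unfold cR
  split_ifs at hv ⊢ with g1 g2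
  · simp only [List.mem_cons, List.not_mem_nil, or_false] at hv ⊢
    subst hv
    simp
  · simp only [List.mem_cons, List.not_mem_nil, or_false] at hv ⊢
    rcases hv with hv | hv <;> subst hv <;> simp
  · have h1 : v.2 = 0 := by
      simp only [List.mem_append, List.mem_map, List.mem_flatMap, List.mem_cons,
        List.not_mem_nil, or_false] at hv
      rcases hv with (((⟨ρ, hρ, e⟩ | ⟨ρ, hρ, e | e⟩) | ⟨ρ, hρ, e | e⟩) | ⟨ρ, hρ, e | e⟩) |
        ⟨ρ, hρ, e⟩ <;> subst e <;> rfl
    intro hv'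
    have h2 : v.2 = 2 := by
      simp only [List.mem_append, List.mem_map, List.mem_flatMap, List.mem_cons,
        List.not_mem_nil, or_false, List.mem_reverse] at hv'
      rcases hv' with (((⟨ρ, hρ, e | e⟩ | ⟨ρ, hρ, e⟩) | ⟨ρ, hρ, e | e⟩) | ⟨ρ, hρ, e | e⟩) |
        ⟨ρ, hρ, e⟩ <;> subst e <;> rfl
    omega

theorem bci_mem (h : S.WF) {k : ℕ} {v : (ℕ × ℕ) × ℕ} (hk : Cpl S.NN k) (hv : v ∈ S.bci k) :
    S.binB v.1 v.2 ∧ S.bcol v.1 = k / 4 := by
  have hk4 : k / 4 < S.NN ∨ bci S k = [] := by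
    obtain ⟨h1, h2⟩ := hk
    by_cases h3 : k % 4 = 0
    · right
      unfold bci
      rw [if_neg (by omega), if_neg (by omega)]
    · left
      omega
  rcases hk4 with hk4 | hk4
  · unfold bci at hv
    split_ifs at hv with h1 h2
    · exact c4_cL h hk4 hv
    · exact c4_cR h hk4 hv
    · simp at hv
  · rw [hk4] at hv
    simp at hv

/-- Row lanes increase along the column lines. Left link lanes and right link lanes by
`loA_lt_loB`, `upB_lt_upA`; plain lanes `low < upr`; fresh lanes: zones A (`low` of LL), B- (`upr` of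
LL), B+ (`low` of RU), C (`upr` of RU); home lanes: zone A (`low` of RL, increasing with the read),
B- (`upr` of RL, decreasing), B+ (`low` of LU), C (`upr` of LU, decreasing with the read). -/
theorem bci_sorted (h : S.WF) {k : ℕ} (hk : Cpl S.NN k) :
    (S.bci k).Pairwise fun v w => S.brow v.1 < S.brow w.1 := by
  unfold bci
  split_ifs with h1 h2
  · exact c4_sL h (by obtain ⟨h3, h4⟩ := hk; omega)
  · exact c4_sR h (by obtain ⟨h3, h4⟩ := hk; omega)
  · simp

theorem bci_disj (h : S.WF) {k l : ℕ} {v : (ℕ × ℕ) × ℕ} (hk : Cpl S.NN k) (hl : Cpl S.NN l)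
    (hv : v ∈ S.bci k) (hv' : v ∈ S.bci l) : k = l := by
  have e1 := (bci_mem h hk hv).2
  have e2 := (bci_mem h hl hv').2
  have e3 : k / 4 = l / 4 := by rw [← e1, e2]
  unfold bci at hv hv'
  rw [← e3] at hv'
  split_ifs at hv hv' with h1 h2 h3 h4 h5
  · omega
  · exact absurd hv' (c4_LR hv)
  · simp at hv'
  · exact absurd hv (c4_LR hv')
  · omega
  · simp at hv'
  · simp at hv
  · simp at hv
  · simp at hv

end RS

end Pool.Agent.H54R
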