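import Pool.Agent.Lib.H54R.Graph
import Pool.Agent.Lib.H54R.C1
import Pool.Agent.Lib.H54R.C2

/-!
# C5: light edges
-/

set_option autoImplicit false

namespace Pool.Agent.H54R

namespace RS

variable {S : RS}

/-- light adjacency -/
def li (S : RS) (a b : Vx) : Prop := (a, b) ∈ S.light ∨ (b, a) ∈ S.light

/-- heavy adjacency -/
def hv (S : RS) (a b : Vx) : Prop := (a, b) ∈ S.heavy ∨ (b, a) ∈ S.heavy

theorem li_symm {a b : Vx} (h : S.li a b) : S.li b a := h.symm

theorem hv_symm {a b : Vx} (h : S.hv a b) : S.hv b a := h.symm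

theorem li_row {i : ℕ} (hi : i < S.MM) {e : Vx × Vx} (he : e ∈ S.liRow i) : S.li e.1 e.2 := by
  left
  have h1 : e ∈ (List.range S.MM).flatMap fun i => S.liRow i :=
    List.mem_flatMap.mpr ⟨i, List.mem_range.mpr hi, he⟩
  unfold light
  simp only [List.mem_append]
  exact Or.inl (Or.inl (Or.inl (Or.inr h1)))

theorem li_col {j : ℕ} (hj : j < S.NN) {e : Vx × Vx} (he : e ∈ S.liCol j) : S.li e.1 e.2 := by
  left
  have h1 : e ∈ (List.range S.NN).flatMap fun j => S.liCol j :=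
    List.mem_flatMap.mpr ⟨j, List.mem_range.mpr hj, he⟩
  unfold light
  simp only [List.mem_append]
  exact Or.inl (Or.inl (Or.inr h1))

theorem li_rd {ρ : ℕ} (hρ : ρ < S.R) {e : Vx × Vx} (he : e ∈ S.liRd ρ) : S.li e.1 e.2 := by
  left
  have h1 : e ∈ (List.range S.R).flatMap fun ρ => S.liRd ρ :=
    List.mem_flatMap.mpr ⟨ρ, List.mem_range.mpr hρ, he⟩
  unfold light
  simp only [List.mem_append]
  exact Or.inl (Or.inr h1)

theorem li_lk {l : ℕ} (hl : l < 2 * S.K) {e : Vx × Vx} (he : e ∈ liLk l) : S.li e.1 e.2 := by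
  left
  have h1 : e ∈ (List.range (2 * S.K)).flatMap fun l => liLk l :=
    List.mem_flatMap.mpr ⟨l, List.mem_range.mpr hl, he⟩
  unfold light
  simp only [List.mem_append]
  exact Or.inr h1

theorem hv_rd {ρ : ℕ} (hρ : ρ < S.R) {e : Vx × Vx} (he : e ∈ hvRd ρ) : S.hv e.1 e.2 := by
  left
  have h1 : e ∈ (List.range S.R).flatMap fun ρ => hvRd ρ :=
    List.mem_flatMap.mpr ⟨ρ, List.mem_range.mpr hρ, he⟩
  unfold heavy
  simp only [List.mem_append]
  exact Or.inl (Or.inl (Or.inl h1))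

theorem hv_lk {l : ℕ} (hl : l < 2 * S.K) {e : Vx × Vx} (he : e ∈ hvLk l) : S.hv e.1 e.2 := by
  left
  have h1 : e ∈ (List.range (2 * S.K)).flatMap fun l => hvLk l :=
    List.mem_flatMap.mpr ⟨l, List.mem_range.mpr hl, he⟩
  unfold heavy
  simp only [List.mem_append]
  exact Or.inl (Or.inl (Or.inr h1))

theorem bci_li (h : S.WF) {k : ℕ} (hk : Cpl S.NN k) :
    ∀ e ∈ edg (.B k :: ((S.bci k).map fun v => Vx.blk v.1 v.2) ++ [.T k]), S.li e.1 e.2 := by
  obtain ⟨hk1, hk2⟩ := hk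
  have h3 : k % 4 = 0 ∨ k % 4 = 1 ∨ k % 4 = 3 := by omega
  intro e he
  rcases h3 with h3 | h3 | h3
  · have hb : S.bci k = [] := by
      unfold bci
      rw [if_neg (by omega), if_neg (by omega)]
    rw [hb] at he
    have he' : e ∈ [(Vx.B k, Vx.T k)] := he
    rw [List.mem_singleton] at he'
    subst he'
    left
    have hk4 : k = 4 * (k / 4) := by omega
    have h1 : (Vx.B k, Vx.T k) ∈
        (List.range (S.NN + 1)).map fun j => (Vx.B (4 * j), Vx.T (4 * j)) := by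
      rw [List.mem_map]
      exact ⟨k / 4, List.mem_range.mpr (by omega), by rw [← hk4]⟩
    unfold light
    simp only [List.mem_append]
    exact Or.inl (Or.inl (Or.inl (Or.inl (Or.inr h1))))
  · have hb : S.bci k = S.cL (k / 4) := by
      unfold bci
      rw [if_pos h3]
    have hk4 : k = 4 * (k / 4) + 1 := by omega
    have hlt : k / 4 < S.NN := by omega
    rw [hb] at he
    apply li_col hlt
    unfold liCol
    simp only [List.mem_append]
    refine Or.inl (Or.inl (Or.inl (Or.inl ?_)))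
    rw [← hk4]
    exact he
  · have hb : S.bci k = S.cR (k / 4) := by
      unfold bci
      rw [if_neg (by omega), if_pos h3]
    have hk4 : k = 4 * (k / 4) + 3 := by omega
    have hlt : k / 4 < S.NN := by omega
    rw [hb] at he
    apply li_col hlt
    unfold liCol
    simp only [List.mem_append]
    refine Or.inl (Or.inl (Or.inl (Or.inr ?_)))
    rw [← hk4]
    exact he

theorem bri_li (h : S.WF) {k : ℕ} (hk : Cpl S.MM k) :
    ∀ e ∈ edg (.L k :: ((S.bri k).map fun v => Vx.blk v.1 v.2) ++ [.R k]), S.li e.1 e.2 := by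
  obtain ⟨hk1, hk2⟩ := hk
  have h3 : k % 4 = 0 ∨ k % 4 = 1 ∨ k % 4 = 3 := by omega
  intro e he
  rcases h3 with h3 | h3 | h3
  · have hb : S.bri k = [] := by
      unfold bri
      rw [if_neg (by omega), if_neg (by omega)]
    rw [hb] at he
    have he' : e ∈ [(Vx.L k, Vx.R k)] := he
    rw [List.mem_singleton] at he'
    subst he'
    left
    have hk4 : k = 4 * (k / 4) := by omega
    have h1 : (Vx.L k, Vx.R k) ∈
        (List.range (S.MM + 1)).map fun j => (Vx.L (4 * j), Vx.R (4 * j)) := by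
      rw [List.mem_map]
      exact ⟨k / 4, List.mem_range.mpr (by omega), by rw [← hk4]⟩
    unfold light
    simp only [List.mem_append]
    exact Or.inl (Or.inl (Or.inl (Or.inl (Or.inl h1))))
  · have hb : S.bri k = S.rB (k / 4) := by
      unfold bri
      rw [if_pos h3]
    have hk4 : k = 4 * (k / 4) + 1 := by omega
    have hlt : k / 4 < S.MM := by omega
    rw [hb] at he
    apply li_row hlt
    unfold liRow
    simp only [List.mem_append]
    refine Or.inl (Or.inl (Or.inl ?_))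
    rw [← hk4]
    exact he
  · have hb : S.bri k = S.rT (k / 4) := by
      unfold bri
      rw [if_neg (by omega), if_pos h3]
    have hk4 : k = 4 * (k / 4) + 3 := by omega
    have hlt : k / 4 < S.MM := by omega
    rw [hb] at he
    apply li_row hlt
    unfold liRow
    simp only [List.mem_append]
    refine Or.inl (Or.inl (Or.inr ?_))
    rw [← hk4]
    exact he

/-- the levers -/
theorem li_lever (h : S.WF) {ρ : ℕ} (hρ : ρ < S.R) {g : ℕ} (hg : g ≤ 1) :
    S.li (.blk (g, ρ) 0) (.blk (g, ρ) 2) := by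
  have h1 : ((Vx.blk (g, ρ) 0, Vx.blk (g, ρ) 2) : Vx × Vx) ∈ S.liRd ρ := by
    unfold liRd
    rw [List.mem_append]
    right
    rcases (by omega : g = 0 ∨ g = 1) with rfl | rfl
    · exact List.mem_cons_self
    · exact List.mem_cons_of_mem _ List.mem_cons_self
  exact li_rd hρ h1

theorem li_lever' (h : S.WF) {l : ℕ} (hl : l < 2 * S.K) {g : ℕ} (hg : 2 ≤ g) (hg' : g ≤ 5) :
    S.li (.blk (g, l) 0) (.blk (g, l) 3) ∧ S.li (.blk (g, l) 5) (.blk (g, l) 1) := by
  have h0 : g ∈ [2, 3, 4, 5] := by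
    simp only [List.mem_cons, List.not_mem_nil, or_false]
    omega
  have h1 : ((Vx.blk (g, l) 0, Vx.blk (g, l) 3) : Vx × Vx) ∈ liLk l := by
    unfold liLk
    rw [List.mem_flatMap]
    exact ⟨g, h0, List.mem_cons_self⟩
  have h2 : ((Vx.blk (g, l) 5, Vx.blk (g, l) 1) : Vx × Vx) ∈ liLk l := by
    unfold liLk
    rw [List.mem_flatMap]
    exact ⟨g, h0, List.mem_cons_of_mem _ List.mem_cons_self⟩
  exact ⟨li_lk hl h1, li_lk hl h2⟩

/-- heavy edges of read blocks and link blocks -/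
theorem hv_read (h : S.WF) {ρ : ℕ} (hρ : ρ < S.R) {g : ℕ} (hg : g ≤ 1) :
    S.hv (.blk (g, ρ) 0) (.blk (g, ρ) 1) ∧ S.hv (.blk (g, ρ) 1) (.blk (g, ρ) 2) := by
  have h0 : g ∈ [0, 1] := by
    simp only [List.mem_cons, List.not_mem_nil, or_false]
    omega
  have h1 : ((Vx.blk (g, ρ) 0, Vx.blk (g, ρ) 1) : Vx × Vx) ∈ hvRd ρ := by
    unfold hvRd
    rw [List.mem_flatMap]
    exact ⟨g, h0, List.mem_cons_self⟩
  have h2 : ((Vx.blk (g, ρ) 1, Vx.blk (g, ρ) 2) : Vx × Vx) ∈ hvRd ρ := by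
    unfold hvRd
    rw [List.mem_flatMap]
    exact ⟨g, h0, List.mem_cons_of_mem _ List.mem_cons_self⟩
  exact ⟨hv_rd hρ h1, hv_rd hρ h2⟩

theorem hv_link (h : S.WF) {l : ℕ} (hl : l < 2 * S.K) {g : ℕ} (hg : 2 ≤ g) (hg' : g ≤ 5) :
    S.hv (.blk (g, l) 0) (.blk (g, l) 5) ∧ S.hv (.blk (g, l) 5) (.blk (g, l) 3) ∧
    S.hv (.blk (g, l) 5) (.blk (g, l) 2) ∧ S.hv (.blk (g, l) 2) (.blk (g, l) 1) ∧
    S.hv (.blk (g, l) 0) (.blk (g, l) 1) ∧ S.hv (.blk (g, l) 3) (.blk (g, l) 4) := by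
  have h0 : g ∈ [2, 3, 4, 5] := by
    simp only [List.mem_cons, List.not_mem_nil, or_false]
    omega
  have key : ∀ e : Vx × Vx, e ∈ [((Vx.blk (g, l) 0, Vx.blk (g, l) 5) : Vx × Vx),
      (Vx.blk (g, l) 5, Vx.blk (g, l) 3), (Vx.blk (g, l) 5, Vx.blk (g, l) 2),
      (Vx.blk (g, l) 2, Vx.blk (g, l) 1), (Vx.blk (g, l) 0, Vx.blk (g, l) 1),
      (Vx.blk (g, l) 3, Vx.blk (g, l) 4)] → S.hv e.1 e.2 := by
    intro e he
    apply hv_lk hl
    unfold hvLk
    rw [List.mem_flatMap]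
    exact ⟨g, h0, he⟩
  refine ⟨key (_, _) ?_, key (_, _) ?_, key (_, _) ?_, key (_, _) ?_, key (_, _) ?_,
    key (_, _) ?_⟩ <;> simp

end RS

end Pool.Agent.H54R
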