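import Pool.Agent.Lib.H54R.Graph
import Pool.Agent.Lib.H54R.C1
import Pool.Agent.Lib.H54R.C2
import Pool.Agent.Lib.H54R.C3
import Pool.Agent.Lib.H54R.C4
import Pool.Agent.Lib.H54R.C5

/-!
# C6: the neighbours of the full vertices
-/

set_option autoImplicit false

namespace Pool.Agent.H54R

namespace RS

variable {S : RS}

theorem c6_cons {α : Type} {e : α × α} {L : List α} (a : α) (h : e ∈ edg L) :
    e ∈ edg (a :: L) := by
  cases L with
  | nil => simp [edg] at h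
  | cons b t =>
    simp only [edg, List.tail_cons, List.zip_cons_cons] at h ⊢
    exact List.mem_cons_of_mem _ h

theorem c6_mid {α : Type} (p q : List α) (x y : α) : (x, y) ∈ edg (p ++ x :: y :: q) := by
  induction p with
  | nil => simp [edg]
  | cons a p ih => exact c6_cons a ih

theorem c6_next {α β : Type} {l : List α} {r : α → α → Prop} (hl : l.Pairwise r) (f : α → β)
    (a z : β) {v : α} (hv : v ∈ l) : ∃ w, (f v, w) ∈ edg (a :: l.map f ++ [z]) ∧
      (w = z ∨ ∃ u ∈ l, w = f u ∧ r v u) := by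
  obtain ⟨s, t, rfl⟩ := List.append_of_mem hv
  cases t with
  | nil =>
    refine ⟨z, ?_, Or.inl rfl⟩
    have := c6_mid (a :: s.map f) [] (f v) z
    simpa using this
  | cons u t =>
    refine ⟨f u, ?_, Or.inr ⟨u, by simp, rfl, ?_⟩⟩
    · have := c6_mid (a :: s.map f) (t.map f ++ [z]) (f v) (f u)
      simpa using this
    · rw [List.pairwise_append] at hl
      exact (List.pairwise_cons.1 hl.2.1).1 u (by simp)

theorem c6_prev {α β : Type} {l : List α} {r : α → α → Prop} (hl : l.Pairwise r) (f : α → β)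
    (a z : β) {v : α} (hv : v ∈ l) : ∃ w, (w, f v) ∈ edg (a :: l.map f ++ [z]) ∧
      (w = a ∨ ∃ u ∈ l, w = f u ∧ r u v) := by
  obtain ⟨s, t, rfl⟩ := List.append_of_mem hv
  rcases List.eq_nil_or_concat s with rfl | ⟨s, u, rfl⟩
  · refine ⟨a, ?_, Or.inl rfl⟩
    have := c6_mid [] (t.map f ++ [z]) a (f v)
    simpa using this
  · refine ⟨f u, ?_, Or.inr ⟨u, by simp, rfl, ?_⟩⟩
    · have := c6_mid (a :: s.map f) (t.map f ++ [z]) (f u) (f v)
      simpa using this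
    · rw [List.pairwise_append] at hl
      exact hl.2.2 u (by simp) v (by simp)

theorem c6_k {k : ℕ} {v : (ℕ × ℕ) × ℕ} (hv : v ∈ S.bci k) : k % 4 ≠ 0 := by
  intro e
  unfold bci at hv
  rw [if_neg (by omega), if_neg (by omega)] at hv
  simp at hv

theorem c6_up (h : S.WF) {k : ℕ} (hk : Cpl S.NN k) {b : ℕ × ℕ} {c : ℕ} (hv : (b, c) ∈ S.bci k) :
    (∃ k, k ≤ 4 * S.NN ∧ k / 4 = S.bcol b ∧ k % 4 ≠ 0 ∧ S.li (.blk b c) (.T k)) ∨
    ∃ b' c', S.binB b' c' ∧ S.bcol b' = S.bcol b ∧ S.brow b < S.brow b' ∧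
      S.li (.blk b c) (.blk b' c') := by
  have hm := bci_mem h hk hv
  obtain ⟨w, hw, h1⟩ := c6_next (bci_sorted h hk) (fun v => Vx.blk v.1 v.2) (.B k) (.T k) hv
  have h2 := bci_li h hk _ hw
  rcases h1 with rfl | ⟨u, hu, rfl, hr⟩
  · left
    exact ⟨k, hk.1, hm.2.symm, c6_k hv, h2⟩
  · right
    have hm' := bci_mem h hk hu
    exact ⟨u.1, u.2, hm'.1, hm'.2.trans hm.2.symm, hr, h2⟩

theorem c6_dn (h : S.WF) {k : ℕ} (hk : Cpl S.NN k) {b : ℕ × ℕ} {c : ℕ} (hv : (b, c) ∈ S.bci k) :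
    (∃ k, k ≤ 4 * S.NN ∧ k / 4 = S.bcol b ∧ k % 4 ≠ 0 ∧ S.li (.blk b c) (.B k)) ∨
    ∃ b' c', S.binB b' c' ∧ S.bcol b' = S.bcol b ∧ S.brow b' < S.brow b ∧
      S.li (.blk b c) (.blk b' c') := by
  have hm := bci_mem h hk hv
  obtain ⟨w, hw, h1⟩ := c6_prev (bci_sorted h hk) (fun v => Vx.blk v.1 v.2) (.B k) (.T k) hv
  have h2 := li_symm (bci_li h hk _ hw)
  rcases h1 with rfl | ⟨u, hu, rfl, hr⟩
  · left
    exact ⟨k, hk.1, hm.2.symm, c6_k hv, h2⟩
  · right
    have hm' := bci_mem h hk hu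
    exact ⟨u.1, u.2, hm'.1, hm'.2.trans hm.2.symm, hr, h2⟩

theorem c6_nxt {ρ σ : ℕ} (e : ρ ∈ S.nxt σ) : S.nxt σ = [ρ] := by
  have h := S.nxt_length σ
  match hn : S.nxt σ with
  | [] => rw [hn] at e; simp at e
  | [a] => rw [hn] at e; simp at e; rw [e]
  | a :: b :: t => rw [hn] at h; simp at h

theorem c6_ck3 {ρ σ : ℕ} (e : ρ ∈ S.nxt σ) (h : S.kd σ = 3) :
    S.ck σ = [.blk (0, σ) 1, .blk (0, ρ) 0, .blk (1, ρ) 0, .blk (1, σ) 1] := by
  unfold ck
  rw [if_pos h, c6_nxt e]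
  simp

theorem c6_ck4 {ρ σ : ℕ} (e : ρ ∈ S.nxt σ) (h : S.kd σ = 4) :
    S.ck σ = [.blk (0, σ) 1, .blk (0, ρ) 2, .blk (1, ρ) 2, .blk (1, σ) 1] := by
  unfold ck
  rw [if_neg (by omega), if_pos h, c6_nxt e]
  simp

theorem c6_L {j : ℕ} (hj : j < S.NN) {v : (ℕ × ℕ) × ℕ} (hv : v ∈ S.cL j) :
    ∃ k, Cpl S.NN k ∧ v ∈ S.bci k := by
  refine ⟨4 * j + 1, ⟨by omega, by omega⟩, ?_⟩
  unfold bci
  rw [if_pos (by omega)]
  have : (4 * j + 1) / 4 = j := by omega
  rwa [this]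

theorem c6_R {j : ℕ} (hj : j < S.NN) {v : (ℕ × ℕ) × ℕ} (hv : v ∈ S.cR j) :
    ∃ k, Cpl S.NN k ∧ v ∈ S.bci k := by
  refine ⟨4 * j + 3, ⟨by omega, by omega⟩, ?_⟩
  unfold bci
  rw [if_neg (by omega), if_pos (by omega)]
  have : (4 * j + 3) / 4 = j := by omega
  rwa [this]

theorem c6_where (h : S.WF) {b : ℕ × ℕ} {c : ℕ} (hb : S.binB b c) :
    (∃ k, Cpl S.NN k ∧ (b, S.bF b) ∈ S.bci k) ∨ (∃ l, l < 2 * S.K ∧ b = (2, l) ∧ S.bF b = 0) ∨
    (∃ l, l < 2 * S.K ∧ b = (4, l) ∧ S.bF b = 0) ∨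
    ∃ ρ σ, ρ < S.R ∧ σ < S.R ∧ ρ ∈ S.nxt σ ∧ ((b = (0, ρ) ∧ S.bF b = 0 ∧ S.kd σ = 3) ∨
      (b = (1, ρ) ∧ S.bF b = 2 ∧ S.kd σ = 4)) ∧ True := by
  have hN : S.NN = 8 * S.K + S.m + S.n := rfl
  have hr : ∀ l, S.rlane l = 6 * S.K + S.m + S.n + l := fun l => rfl
  have hr0 := hr 0
  obtain ⟨g, ρ⟩ := b
  rcases hb with ⟨h1, h2, h3⟩ | ⟨h1, h2, h3, h4⟩
  · simp only at h1 h2
    have l1 := lane_ge h h2
    have l2 := lane_lt h h2
    have hj : S.lane ρ < S.NN := by omega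
    have n1 : ¬ S.lane ρ < 2 * S.K := by omega
    have n2 : ¬ S.rlane 0 ≤ S.lane ρ := by omega
    have hm : ρ ∈ S.rd (S.kd ρ) (S.lane ρ) := mem_rd.2 ⟨h2, rfl, rfl⟩
    have hk4 := S.kd_le ρ
    have hg : g = 0 ∨ g = 1 := by omega
    rcases hg with rfl | rfl
    · have hF : S.bF (0, ρ) = if S.kd ρ = 2 then 2 else 0 := by simp [bF]
      by_cases k2 : S.kd ρ = 2
      · left
        rw [hF, if_pos k2]
        refine c6_R hj ?_
        rw [k2] at hm
        unfold cR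
        rw [if_neg n1, if_neg n2]
        simp only [List.mem_append, List.mem_flatMap]
        exact Or.inl (Or.inl (Or.inr ⟨ρ, hm, by simp⟩))
      rw [hF, if_neg k2]
      by_cases k3 : S.kd ρ = 3
      · rcases first_or_next h2 with hf | ⟨σ, hσ, hn⟩
        · left
          refine c6_L hj ?_
          have ht := take_one h2 hf
          rw [k3] at ht
          unfold cL
          rw [if_neg n1, if_neg n2, ht]
          simp only [List.mem_append, List.mem_flatMap]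
          exact Or.inl (Or.inr ⟨ρ, by simp, by simp⟩)
        · right; right; right
          have hs := (mem_nxt.1 hn).1
          exact ⟨ρ, σ, h2, by omega, hn, Or.inl ⟨rfl, rfl, by rw [← hs.2.1]; exact k3⟩, trivial⟩
      left
      refine c6_L hj ?_
      unfold cL
      rw [if_neg n1, if_neg n2]
      simp only [List.mem_append, List.mem_flatMap, List.mem_map]
      have : S.kd ρ = 0 ∨ S.kd ρ = 1 ∨ S.kd ρ = 4 := by omega
      rcases this with e | e | e <;> rw [e] at hm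
      · exact Or.inl (Or.inl (Or.inl (Or.inr ⟨ρ, hm, by simp⟩)))
      · exact Or.inl (Or.inl (Or.inr ⟨ρ, hm, by simp⟩))
      · exact Or.inl (Or.inl (Or.inl (Or.inl ⟨ρ, hm, rfl⟩)))
    · have hF : S.bF (1, ρ) = if S.kd ρ = 1 then 0 else 2 := by simp [bF]
      by_cases k1 : S.kd ρ = 1
      · left
        rw [hF, if_pos k1]
        refine c6_L hj ?_
        rw [k1] at hm
        unfold cL
        rw [if_neg n1, if_neg n2]
        simp only [List.mem_append, List.mem_flatMap]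
        exact Or.inl (Or.inl (Or.inr ⟨ρ, hm, by simp⟩))
      rw [hF, if_neg k1]
      by_cases k4 : S.kd ρ = 4
      · rcases first_or_next h2 with hf | ⟨σ, hσ, hn⟩
        · left
          refine c6_R hj ?_
          have ht := take_one h2 hf
          rw [k4] at ht
          unfold cR
          rw [if_neg n1, if_neg n2, ht]
          simp only [List.mem_append, List.mem_flatMap]
          exact Or.inl (Or.inr ⟨ρ, by simp, by simp⟩)
        · right; right; right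
          have hs := (mem_nxt.1 hn).1
          exact ⟨ρ, σ, h2, by omega, hn, Or.inr ⟨rfl, rfl, by rw [← hs.2.1]; exact k4⟩, trivial⟩
      left
      refine c6_R hj ?_
      unfold cR
      rw [if_neg n1, if_neg n2]
      simp only [List.mem_append, List.mem_flatMap, List.mem_map, List.mem_reverse]
      have : S.kd ρ = 0 ∨ S.kd ρ = 2 ∨ S.kd ρ = 3 := by omega
      rcases this with e | e | e <;> rw [e] at hm
      · exact Or.inl (Or.inl (Or.inl (Or.inl ⟨ρ, hm, by simp⟩)))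
      · exact Or.inl (Or.inl (Or.inr ⟨ρ, hm, by simp⟩))
      · exact Or.inr ⟨ρ, hm, rfl⟩
  · simp only at h1 h2 h3
    have hg : g = 2 ∨ g = 3 ∨ g = 4 ∨ g = 5 := by omega
    rcases hg with rfl | rfl | rfl | rfl
    · right; left
      exact ⟨ρ, h3, rfl, by simp [bF]⟩
    · left
      have hF : S.bF (3, ρ) = 0 := by simp [bF]
      rw [hF]
      refine c6_L (j := ρ) (by omega) ?_
      unfold cL
      rw [if_pos h3]
      simp
    · right; right; left
      exact ⟨ρ, h3, rfl, by simp [bF]⟩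
    · left
      have hF : S.bF (5, ρ) = 0 := by simp [bF]
      rw [hF]
      have hl := hr ρ
      refine c6_R (j := S.rlane ρ) (by omega) ?_
      unfold cR
      rw [if_neg (by omega), if_pos (by omega)]
      have : S.rlane ρ - S.rlane 0 = ρ := by omega
      simp [this]

/-- `Rt` or `Lf` line, or the line `k` of the previous read (kinds 3 lower, 4 upper) -/
theorem bup (h : S.WF) {b : ℕ × ℕ} {c : ℕ} (hb : S.binB b c) :
    (∃ k, k ≤ 4 * S.NN ∧ k / 4 = S.bcol b ∧ k % 4 ≠ 0 ∧ S.li (.blk b (S.bF b)) (.T k)) ∨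
    ∃ b' c', S.binB b' c' ∧ S.bcol b' = S.bcol b ∧ S.brow b < S.brow b' ∧
      S.li (.blk b (S.bF b)) (.blk b' c') := by
  rcases c6_where h hb with ⟨k, hk, hv⟩ | h1 | h1 | ⟨ρ, σ, hρ, hσ, e, hb', hkd⟩
  · exact c6_up h hk hv
  · obtain ⟨l, hl, e, e'⟩ := h1
    subst e
    rw [e']
    right
    have hj : l < S.NN := by unfold NN; omega
    refine ⟨(3, l), 2, Or.inr ⟨by norm_num, by norm_num, hl, by norm_num⟩, by simp [bcol], ?_,
      li_col (j := l) hj (e := (.blk (2, l) 0, .blk (3, l) 2)) ?_⟩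
    · simpa [brow] using loA_lt_loB h hl
    · simp [liCol, cC, edg, hl]
  · obtain ⟨l, hl, e, e'⟩ := h1
    subst e
    rw [e']
    left
    have hj := rlane_lt h hl
    have hr : ∀ l, S.rlane l = 6 * S.K + S.m + S.n + l := fun l => rfl
    have h2 := hr 0
    have h3 := hr l
    have hN : S.NN = 8 * S.K + S.m + S.n := rfl
    have h4 : S.rlane l - S.rlane 0 = l := by omega
    refine ⟨4 * S.rlane l + 2, by omega, by simp [bcol]; omega, by omega,
      li_col (j := S.rlane l) hj (e := (.blk (4, l) 0, .T (4 * S.rlane l + 2))) ?_⟩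
    have h5 : ¬ S.rlane l < 2 * S.K := by omega
    have h6 : S.rlane 0 ≤ S.rlane l := by omega
    simp [liCol, cC, edg, h5, h6, h4]
  · obtain ⟨⟨a1, a2, a3, a4⟩, -⟩ := mem_nxt.1 e
    right
    rcases hb' with hb' | hb'
    · obtain ⟨rfl, hF, hk3⟩ := hb'
      rw [hF]
      refine ⟨(1, ρ), 0, Or.inl ⟨by norm_num, hρ, by norm_num⟩, by simp [bcol], ?_, ?_⟩
      · simpa [brow] using low_lt_upr h hρ
      · refine li_rd (ρ := σ) hσ (e := (.blk (0, ρ) 0, .blk (1, ρ) 0)) ?_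
        simp [liRd, c6_ck3 e hk3, edg]
    · obtain ⟨rfl, hF, hk4⟩ := hb'
      rw [hF]
      refine ⟨(1, σ), 1, Or.inl ⟨by norm_num, hσ, by norm_num⟩, by simp [bcol, a3], ?_, ?_⟩
      · have h5 := c4_in (S := S) (ρ := ρ) (Or.inr (Or.inr (a2.trans hk4)))
        have h6 := c4_in (S := S) (ρ := σ) (Or.inr (Or.inr hk4))
        simp [brow, h5, h6]
        omega
      · refine li_rd (ρ := σ) hσ (e := (.blk (1, ρ) 2, .blk (1, σ) 1)) ?_
        simp [liRd, c6_ck4 e hk4, edg]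

theorem bdn (h : S.WF) {b : ℕ × ℕ} {c : ℕ} (hb : S.binB b c) :
    (∃ k, k ≤ 4 * S.NN ∧ k / 4 = S.bcol b ∧ k % 4 ≠ 0 ∧ S.li (.blk b (S.bF b)) (.B k)) ∨
    ∃ b' c', S.binB b' c' ∧ S.bcol b' = S.bcol b ∧ S.brow b' < S.brow b ∧
      S.li (.blk b (S.bF b)) (.blk b' c') := by
  rcases c6_where h hb with ⟨k, hk, hv⟩ | h1 | h1 | ⟨ρ, σ, hρ, hσ, e, hb', hkd⟩
  · exact c6_dn h hk hv
  · obtain ⟨l, hl, e, e'⟩ := h1
    subst e
    rw [e']
    left
    have hj : l < S.NN := by unfold NN; omega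
    refine ⟨4 * l + 2, by omega, by simp [bcol]; omega, by omega,
      li_symm (li_col (j := l) hj (e := (.B (4 * l + 2), .blk (2, l) 0)) ?_)⟩
    simp [liCol, cC, edg, hl]
  · obtain ⟨l, hl, e, e'⟩ := h1
    subst e
    rw [e']
    right
    have hj := rlane_lt h hl
    have hr : ∀ l, S.rlane l = 6 * S.K + S.m + S.n + l := fun l => rfl
    have h2 := hr 0
    have h3 := hr l
    have h4 : S.rlane l - S.rlane 0 = l := by omega
    refine ⟨(5, l), 2, Or.inr ⟨by norm_num, by norm_num, hl, by norm_num⟩, by simp [bcol], ?_,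
      li_symm (li_col (j := S.rlane l) hj (e := (.blk (5, l) 2, .blk (4, l) 0)) ?_)⟩
    · simpa [brow] using upB_lt_upA h hl
    · have h5 : ¬ S.rlane l < 2 * S.K := by omega
      have h6 : S.rlane 0 ≤ S.rlane l := by omega
      simp [liCol, cC, edg, h5, h6, h4]
  · obtain ⟨⟨a1, a2, a3, a4⟩, -⟩ := mem_nxt.1 e
    right
    rcases hb' with hb' | hb'
    · obtain ⟨rfl, hF, hk3⟩ := hb'
      rw [hF]
      refine ⟨(0, σ), 1, Or.inl ⟨by norm_num, hσ, by norm_num⟩, by simp [bcol, a3], ?_, ?_⟩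
      · have h5 := c4_out (S := S) (ρ := ρ) (Or.inr (a2.trans hk3))
        have h6 := c4_out (S := S) (ρ := σ) (Or.inr hk3)
        simp [brow, h5, h6]
        omega
      · refine li_symm (li_rd (ρ := σ) hσ (e := (.blk (0, σ) 1, .blk (0, ρ) 0)) ?_)
        simp [liRd, c6_ck3 e hk3, edg]
    · obtain ⟨rfl, hF, hk4⟩ := hb'
      rw [hF]
      refine ⟨(0, ρ), 2, Or.inl ⟨by norm_num, hρ, by norm_num⟩, by simp [bcol], ?_, ?_⟩
      · simpa [brow] using low_lt_upr h hρ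
      · refine li_symm (li_rd (ρ := σ) hσ (e := (.blk (0, ρ) 2, .blk (1, ρ) 2)) ?_)
        simp [liRd, c6_ck4 e hk4, edg]

end RS

end Pool.Agent.H54R
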