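import Pool.Agent.Lib.H54R.Graph
import Pool.Agent.Lib.H54R.C1
import Pool.Agent.Lib.H54R.C2
import Pool.Agent.Lib.H54R.C3
import Pool.Agent.Lib.H54R.C4
import Pool.Agent.Lib.H54R.C5

/-!
# C6B: the left and right neighbours of the full vertices, connectedness of the blocks
-/

set_option autoImplicit false

namespace Pool.Agent.H54R

namespace RS

variable {S : RS}

theorem c6b_row {i : ℕ} (hi : i < S.MM) {e : Vx × Vx}
    (he : e ∈ edg (.L (4 * i + 1) :: bx (S.rB i) ++ [.R (4 * i + 1)]) ∨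
      e ∈ edg (.L (4 * i + 3) :: bx (S.rT i) ++ [.R (4 * i + 3)]) ∨ e ∈ edg (S.rC i)) :
    S.li e.1 e.2 := by
  refine li_row hi ?_
  unfold liRow
  simp only [List.mem_append] at he ⊢
  tauto

theorem c6b_low_hat (h : S.WF) {ρ : ℕ} (hρ : ρ < S.R) (hh : S.hatL ρ = true) :
    S.li (.L (4 * S.low ρ + 1)) (.blk (2, lkL ρ) 0) ∧
    S.li (.blk (2, lkL ρ) 0) (.R (4 * S.low ρ + 1)) ∧
    S.li (.blk (2, lkL ρ) 4) (.blk (0, ρ) 2) ∧
    S.li (.blk (0, ρ) 2) (.R (4 * S.low ρ + 3)) ∧
    S.li (.blk (2, lkL ρ) 2) (.blk (0, ρ) 0) ∧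
    S.li (.blk (0, ρ) 0) (.R (4 * S.low ρ + 2)) := by
  have hr := role_low h hρ
  have hB : S.rB (S.low ρ) = [((2, lkL ρ), 0)] := by
    unfold rB
    rw [hr]
    simp [hh]
  have hT : S.rT (S.low ρ) = [((2, lkL ρ), 4), ((0, ρ), 2)] := by
    unfold rT
    rw [hr]
    simp [hh]
  have hC : S.rC (S.low ρ) = [.blk (2, lkL ρ) 2, .blk (0, ρ) 0, .R (4 * S.low ρ + 2)] := by
    unfold rC
    rw [hr]
    simp [hh]
  have key := fun e => c6b_row (S := S) (low_lt h hρ) (e := e)
  rw [hB, hT, hC] at key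
  refine ⟨key (_, _) ?_, key (_, _) ?_, key (_, _) ?_, key (_, _) ?_, key (_, _) ?_,
    key (_, _) ?_⟩ <;> simp [edg, bx]

theorem c6b_low_not (h : S.WF) {ρ : ℕ} (hρ : ρ < S.R) (hh : ¬ S.hatL ρ = true) :
    S.li (.L (4 * S.low ρ + 3)) (.blk (3, lkL ρ) 0) ∧
    S.li (.blk (3, lkL ρ) 1) (.blk (0, ρ) 0) ∧
    S.li (.blk (0, ρ) 0) (.R (4 * S.low ρ + 1)) ∧
    S.li (.blk (3, lkL ρ) 0) (.blk (0, ρ) 2) ∧
    S.li (.blk (0, ρ) 2) (.R (4 * S.low ρ + 3)) := by
  have hr := role_low h hρ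
  have hB : S.rB (S.low ρ) = [((3, lkL ρ), 1), ((0, ρ), 0)] := by
    unfold rB
    rw [hr]
    simp [hh]
  have hT : S.rT (S.low ρ) = [((3, lkL ρ), 0), ((0, ρ), 2)] := by
    unfold rT
    rw [hr]
    simp [hh]
  have key := fun e => c6b_row (S := S) (low_lt h hρ) (e := e)
  rw [hB, hT] at key
  refine ⟨key (_, _) ?_, key (_, _) ?_, key (_, _) ?_, key (_, _) ?_, key (_, _) ?_⟩ <;>
    simp [edg, bx]

theorem c6b_upr_hat (h : S.WF) {ρ : ℕ} (hρ : ρ < S.R) (hh : S.hatU ρ = true) :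
    S.li (.L (4 * S.upr ρ + 1)) (.blk (1, ρ) 0) ∧
    S.li (.blk (1, ρ) 0) (.blk (4, lkU ρ) 4) ∧
    S.li (.L (4 * S.upr ρ + 3)) (.blk (4, lkU ρ) 0) ∧
    S.li (.blk (4, lkU ρ) 0) (.R (4 * S.upr ρ + 3)) ∧
    S.li (.L (4 * S.upr ρ + 2)) (.blk (1, ρ) 2) ∧
    S.li (.blk (1, ρ) 2) (.blk (4, lkU ρ) 2) := by
  have hr := role_upr h hρ
  have hB : S.rB (S.upr ρ) = [((1, ρ), 0), ((4, lkU ρ), 4)] := by
    unfold rB
    rw [hr]
    simp [hh]
  have hT : S.rT (S.upr ρ) = [((4, lkU ρ), 0)] := by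
    unfold rT
    rw [hr]
    simp [hh]
  have hC : S.rC (S.upr ρ) = [.L (4 * S.upr ρ + 2), .blk (1, ρ) 2, .blk (4, lkU ρ) 2] := by
    unfold rC
    rw [hr]
    simp [hh]
  have key := fun e => c6b_row (S := S) (upr_lt h hρ) (e := e)
  rw [hB, hT, hC] at key
  refine ⟨key (_, _) ?_, key (_, _) ?_, key (_, _) ?_, key (_, _) ?_, key (_, _) ?_,
    key (_, _) ?_⟩ <;> simp [edg, bx]

theorem c6b_upr_not (h : S.WF) {ρ : ℕ} (hρ : ρ < S.R) (hh : ¬ S.hatU ρ = true) :
    S.li (.L (4 * S.upr ρ + 1)) (.blk (1, ρ) 0) ∧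
    S.li (.blk (1, ρ) 0) (.blk (5, lkU ρ) 0) ∧
    S.li (.blk (5, lkU ρ) 0) (.R (4 * S.upr ρ + 1)) ∧
    S.li (.L (4 * S.upr ρ + 3)) (.blk (1, ρ) 2) ∧
    S.li (.blk (1, ρ) 2) (.blk (5, lkU ρ) 1) := by
  have hr := role_upr h hρ
  have hB : S.rB (S.upr ρ) = [((1, ρ), 0), ((5, lkU ρ), 0)] := by
    unfold rB
    rw [hr]
    simp [hh]
  have hT : S.rT (S.upr ρ) = [((1, ρ), 2), ((5, lkU ρ), 1)] := by
    unfold rT
    rw [hr]
    simp [hh]
  have key := fun e => c6b_row (S := S) (upr_lt h hρ) (e := e)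
  rw [hB, hT] at key
  refine ⟨key (_, _) ?_, key (_, _) ?_, key (_, _) ?_, key (_, _) ?_, key (_, _) ?_⟩ <;>
    simp [edg, bx]

theorem c6b_loA {ρ : ℕ} (hh : S.hatL ρ = true) : S.loA (lkL ρ) = ρ := by
  unfold hatL at hh
  exact (of_decide_eq_true hh).symm

theorem c6b_loB {ρ : ℕ} (hh : ¬ S.hatL ρ = true) : S.loB (lkL ρ) = ρ := by
  rcases eq_loA_or S ρ with e | e
  · exact absurd (by unfold hatL; exact decide_eq_true e) hh
  · exact e.symm

theorem c6b_upA {ρ : ℕ} (hh : S.hatU ρ = true) : S.upA (lkU ρ) = ρ := by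
  unfold hatU at hh
  exact (of_decide_eq_true hh).symm

theorem c6b_upB {ρ : ℕ} (hh : ¬ S.hatU ρ = true) : S.upB (lkU ρ) = ρ := by
  rcases eq_upA_or S ρ with e | e
  · exact absurd (by unfold hatU; exact decide_eq_true e) hh
  · exact e.symm

theorem c6b_rlane (S : RS) (l : ℕ) : S.rlane 0 ≤ S.rlane l := by
  unfold rlane
  omega

theorem brt (h : S.WF) {b : ℕ × ℕ} {c : ℕ} (hb : S.binB b c) :
    (∃ k, k ≤ 4 * S.MM ∧ k / 4 = S.brow b ∧ k % 4 ≠ 0 ∧ S.li (.blk b (S.bF b)) (.R k)) ∨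
    ∃ b' c', S.binB b' c' ∧ S.brow b' = S.brow b ∧ S.bcol b < S.bcol b' ∧
      S.li (.blk b (S.bF b)) (.blk b' c') := by
  obtain ⟨g, ρ⟩ := b
  have hbr := brow_lt h hb
  rcases hb with ⟨hg, hρ, -⟩ | ⟨hg, hg', hl, -⟩
  · simp only at hg hρ
    have hlt := low_lt h hρ
    have hut := upr_lt h hρ
    have hgg : g = 0 ∨ g = 1 := by omega
    rcases hgg with rfl | rfl
    · left
      by_cases hk : S.kd ρ = 2
      · refine ⟨4 * S.low ρ + 3, by omega, ?_, by omega, ?_⟩
        · simp [brow]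
          omega
        · have hF : S.bF (0, ρ) = 2 := by simp [bF, hk]
          rw [hF]
          by_cases hh : S.hatL ρ = true
          · exact (c6b_low_hat h hρ hh).2.2.2.1
          · exact (c6b_low_not h hρ hh).2.2.2.2
      · have hF : S.bF (0, ρ) = 0 := by simp [bF, hk]
        rw [hF]
        by_cases hh : S.hatL ρ = true
        · refine ⟨4 * S.low ρ + 2, by omega, ?_, by omega, (c6b_low_hat h hρ hh).2.2.2.2.2⟩
          simp [brow]
          omega
        · refine ⟨4 * S.low ρ + 1, by omega, ?_, by omega, (c6b_low_not h hρ hh).2.2.1⟩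
          simp [brow]
          omega
    · right
      have hlk := lkU_lt h hρ
      have hln := lane_lt h hρ
      have hrl := c6b_rlane S (lkU ρ)
      by_cases hk : S.kd ρ = 1
      · have hF : S.bF (1, ρ) = 0 := by simp [bF, hk]
        rw [hF]
        by_cases hh : S.hatU ρ = true
        · refine ⟨(4, lkU ρ), 4, Or.inr ⟨by simp, by simp, hlk, by simp⟩, ?_, ?_,
            (c6b_upr_hat h hρ hh).2.1⟩
          · simp [brow, c6b_upA hh]
          · simp [bcol]
            omega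
        · refine ⟨(5, lkU ρ), 0, Or.inr ⟨by simp, by simp, hlk, by simp⟩, ?_, ?_,
            (c6b_upr_not h hρ hh).2.1⟩
          · simp [brow, c6b_upB hh]
          · simp [bcol]
            omega
      · have hF : S.bF (1, ρ) = 2 := by simp [bF, hk]
        rw [hF]
        by_cases hh : S.hatU ρ = true
        · refine ⟨(4, lkU ρ), 2, Or.inr ⟨by simp, by simp, hlk, by simp⟩, ?_, ?_,
            (c6b_upr_hat h hρ hh).2.2.2.2.2⟩
          · simp [brow, c6b_upA hh]
          · simp [bcol]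
            omega
        · refine ⟨(5, lkU ρ), 1, Or.inr ⟨by simp, by simp, hlk, by simp⟩, ?_, ?_,
            (c6b_upr_not h hρ hh).2.2.2.2⟩
          · simp [brow, c6b_upB hh]
          · simp [bcol]
            omega
  · simp only at hg hg' hl
    have hF : S.bF (g, ρ) = 0 := by
      unfold bF
      rw [if_neg (by simp; omega), if_neg (by simp; omega)]
    rw [hF]
    have hgg : g = 2 ∨ g = 3 ∨ g = 4 ∨ g = 5 := by omega
    rcases hgg with rfl | rfl | rfl | rfl
    · left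
      have hA := loA_lt h hl
      have hlt := low_lt h hA
      have := (c6b_low_hat h hA (hatL_loA h hl)).2.1
      rw [lkL_loA] at this
      refine ⟨4 * S.low (S.loA ρ) + 1, by omega, ?_, by omega, this⟩
      simp [brow]
      omega
    · right
      have hA := loB_lt h hl
      have hh : ¬ S.hatL (S.loB ρ) = true := by rw [hatL_loB h hl]; simp
      have := (c6b_low_not h hA hh).2.2.2.1
      rw [lkL_loB] at this
      refine ⟨(0, S.loB ρ), 2, Or.inl ⟨by simp, hA, by simp⟩, by simp [brow], ?_, this⟩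
      have := lane_ge h hA
      simp [bcol]
      omega
    · left
      have hA := upA_lt h hl
      have hlt := upr_lt h hA
      have := (c6b_upr_hat h hA (hatU_upA h hl)).2.2.2.1
      rw [lkU_upA] at this
      refine ⟨4 * S.upr (S.upA ρ) + 3, by omega, ?_, by omega, this⟩
      simp [brow]
      omega
    · left
      have hA := upB_lt h hl
      have hlt := upr_lt h hA
      have hh : ¬ S.hatU (S.upB ρ) = true := by rw [hatU_upB h hl]; simp
      have := (c6b_upr_not h hA hh).2.2.1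
      rw [lkU_upB] at this
      refine ⟨4 * S.upr (S.upB ρ) + 1, by omega, ?_, by omega, this⟩
      simp [brow]
      omega

theorem blf (h : S.WF) {b : ℕ × ℕ} {c : ℕ} (hb : S.binB b c) :
    (∃ k, k ≤ 4 * S.MM ∧ k / 4 = S.brow b ∧ k % 4 ≠ 0 ∧ S.li (.blk b (S.bF b)) (.L k)) ∨
    ∃ b' c', S.binB b' c' ∧ S.brow b' = S.brow b ∧ S.bcol b' < S.bcol b ∧
      S.li (.blk b (S.bF b)) (.blk b' c') := by
  obtain ⟨g, ρ⟩ := b
  have hbr := brow_lt h hb
  rcases hb with ⟨hg, hρ, -⟩ | ⟨hg, hg', hl, -⟩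
  · simp only at hg hρ
    have hlt := low_lt h hρ
    have hut := upr_lt h hρ
    have hgg : g = 0 ∨ g = 1 := by omega
    rcases hgg with rfl | rfl
    · right
      have hlk := lkL_lt h hρ
      have hln := lane_ge h hρ
      by_cases hk : S.kd ρ = 2
      · have hF : S.bF (0, ρ) = 2 := by simp [bF, hk]
        rw [hF]
        by_cases hh : S.hatL ρ = true
        · refine ⟨(2, lkL ρ), 4, Or.inr ⟨by simp, by simp, hlk, by simp⟩, ?_, ?_,
            li_symm (c6b_low_hat h hρ hh).2.2.1⟩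
          · simp [brow, c6b_loA hh]
          · simp [bcol]
            omega
        · refine ⟨(3, lkL ρ), 0, Or.inr ⟨by simp, by simp, hlk, by simp⟩, ?_, ?_,
            li_symm (c6b_low_not h hρ hh).2.2.2.1⟩
          · simp [brow, c6b_loB hh]
          · simp [bcol]
            omega
      · have hF : S.bF (0, ρ) = 0 := by simp [bF, hk]
        rw [hF]
        by_cases hh : S.hatL ρ = true
        · refine ⟨(2, lkL ρ), 2, Or.inr ⟨by simp, by simp, hlk, by simp⟩, ?_, ?_,
            li_symm (c6b_low_hat h hρ hh).2.2.2.2.1⟩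
          · simp [brow, c6b_loA hh]
          · simp [bcol]
            omega
        · refine ⟨(3, lkL ρ), 1, Or.inr ⟨by simp, by simp, hlk, by simp⟩, ?_, ?_,
            li_symm (c6b_low_not h hρ hh).2.1⟩
          · simp [brow, c6b_loB hh]
          · simp [bcol]
            omega
    · left
      by_cases hk : S.kd ρ = 1
      · have hF : S.bF (1, ρ) = 0 := by simp [bF, hk]
        rw [hF]
        refine ⟨4 * S.upr ρ + 1, by omega, ?_, by omega, ?_⟩
        · simp [brow]
          omega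
        · by_cases hh : S.hatU ρ = true
          · exact li_symm (c6b_upr_hat h hρ hh).1
          · exact li_symm (c6b_upr_not h hρ hh).1
      · have hF : S.bF (1, ρ) = 2 := by simp [bF, hk]
        rw [hF]
        by_cases hh : S.hatU ρ = true
        · refine ⟨4 * S.upr ρ + 2, by omega, ?_, by omega,
            li_symm (c6b_upr_hat h hρ hh).2.2.2.2.1⟩
          simp [brow]
          omega
        · refine ⟨4 * S.upr ρ + 3, by omega, ?_, by omega,
            li_symm (c6b_upr_not h hρ hh).2.2.2.1⟩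
          simp [brow]
          omega
  · simp only at hg hg' hl
    have hF : S.bF (g, ρ) = 0 := by
      unfold bF
      rw [if_neg (by simp; omega), if_neg (by simp; omega)]
    rw [hF]
    have hgg : g = 2 ∨ g = 3 ∨ g = 4 ∨ g = 5 := by omega
    rcases hgg with rfl | rfl | rfl | rfl
    · left
      have hA := loA_lt h hl
      have hlt := low_lt h hA
      have := (c6b_low_hat h hA (hatL_loA h hl)).1
      rw [lkL_loA] at this
      refine ⟨4 * S.low (S.loA ρ) + 1, by omega, ?_, by omega, li_symm this⟩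
      simp [brow]
      omega
    · left
      have hA := loB_lt h hl
      have hlt := low_lt h hA
      have hh : ¬ S.hatL (S.loB ρ) = true := by rw [hatL_loB h hl]; simp
      have := (c6b_low_not h hA hh).1
      rw [lkL_loB] at this
      refine ⟨4 * S.low (S.loB ρ) + 3, by omega, ?_, by omega, li_symm this⟩
      simp [brow]
      omega
    · left
      have hA := upA_lt h hl
      have hlt := upr_lt h hA
      have := (c6b_upr_hat h hA (hatU_upA h hl)).2.2.1
      rw [lkU_upA] at this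
      refine ⟨4 * S.upr (S.upA ρ) + 3, by omega, ?_, by omega, li_symm this⟩
      simp [brow]
      omega
    · right
      have hA := upB_lt h hl
      have hh : ¬ S.hatU (S.upB ρ) = true := by rw [hatU_upB h hl]; simp
      have := (c6b_upr_not h hA hh).2.1
      rw [lkU_upB] at this
      refine ⟨(1, S.upB ρ), 0, Or.inl ⟨by simp, hA, by simp⟩, by simp [brow], ?_, li_symm this⟩
      have := lane_lt h hA
      have := c6b_rlane S ρ
      simp [bcol]
      omega

theorem bconn (h : S.WF) {b : ℕ × ℕ} {c : ℕ} (hb : S.binB b c) : Relation.ReflTransGen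
    (fun x y => S.binB b x ∧ S.binB b y ∧ S.hv (.blk b x) (.blk b y)) (S.bF b) c := by
  obtain ⟨g, ρ⟩ := b
  rcases hb with ⟨hg, hρ, hc⟩ | ⟨hg, hg', hl, hc⟩
  · simp only at hg hρ hc
    obtain ⟨e1, e2⟩ := hv_read h hρ hg
    have hb : ∀ c < 3, S.binB (g, ρ) c := fun c hc => Or.inl ⟨hg, hρ, hc⟩
    have h01 : Relation.ReflTransGen (fun x y => S.binB (g, ρ) x ∧ S.binB (g, ρ) y ∧
        S.hv (.blk (g, ρ) x) (.blk (g, ρ) y)) 0 1 :=
      .single ⟨hb 0 (by simp), hb 1 (by simp), e1⟩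
    have h10 : Relation.ReflTransGen (fun x y => S.binB (g, ρ) x ∧ S.binB (g, ρ) y ∧
        S.hv (.blk (g, ρ) x) (.blk (g, ρ) y)) 1 0 :=
      .single ⟨hb 1 (by simp), hb 0 (by simp), hv_symm e1⟩
    have h12 : Relation.ReflTransGen (fun x y => S.binB (g, ρ) x ∧ S.binB (g, ρ) y ∧
        S.hv (.blk (g, ρ) x) (.blk (g, ρ) y)) 1 2 :=
      .single ⟨hb 1 (by simp), hb 2 (by simp), e2⟩
    have h21 : Relation.ReflTransGen (fun x y => S.binB (g, ρ) x ∧ S.binB (g, ρ) y ∧
        S.hv (.blk (g, ρ) x) (.blk (g, ρ) y)) 2 1 :=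
      .single ⟨hb 2 (by simp), hb 1 (by simp), hv_symm e2⟩
    have hF : S.bF (g, ρ) = 0 ∨ S.bF (g, ρ) = 2 := by
      unfold bF
      split_ifs <;> simp
    have hcc : c = 0 ∨ c = 1 ∨ c = 2 := by omega
    rcases hF with hF | hF <;> rw [hF] <;> rcases hcc with rfl | rfl | rfl
    · exact .refl
    · exact h01
    · exact h01.trans h12
    · exact h21.trans h10
    · exact h21
    · exact .refl
  · simp only at hg hg' hl hc
    have hF : S.bF (g, ρ) = 0 := by
      unfold bF
      rw [if_neg (by simp; omega), if_neg (by simp; omega)]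
    rw [hF]
    obtain ⟨e05, e53, e52, e21, e01, e34⟩ := hv_link h hl hg hg'
    have hb : ∀ c < 6, S.binB (g, ρ) c := fun c hc => Or.inr ⟨hg, hg', hl, hc⟩
    have mk : ∀ x y, x < 6 → y < 6 → S.hv (.blk (g, ρ) x) (.blk (g, ρ) y) →
        Relation.ReflTransGen (fun x y => S.binB (g, ρ) x ∧ S.binB (g, ρ) y ∧
          S.hv (.blk (g, ρ) x) (.blk (g, ρ) y)) x y := fun x y hx hy hxy =>
      .single ⟨hb x hx, hb y hy, hxy⟩
    have r5 := mk 0 5 (by simp) (by simp) e05
    have r3 := r5.trans (mk 5 3 (by simp) (by simp) e53)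
    have hcc : c = 0 ∨ c = 1 ∨ c = 2 ∨ c = 3 ∨ c = 4 ∨ c = 5 := by omega
    rcases hcc with rfl | rfl | rfl | rfl | rfl | rfl
    · exact .refl
    · exact mk 0 1 (by simp) (by simp) e01
    · exact r5.trans (mk 5 2 (by simp) (by simp) e52)
    · exact r3
    · exact r3.trans (mk 3 4 (by simp) (by simp) e34)
    · exact r5

end RS

end Pool.Agent.H54R
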