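import Mathlib
import Pool.Agent.MinRank.Defs

/-!
# Axis-parallel right-angle crossing drawings: the decision problem

* `Gr`: finite simple graphs on the vertices `0, ..., n - 1`, given by the adjacency matrix.
* `IsDrawing`: straight-line drawings. `Cross`: common interior point of two segments.
* `APRAC`: the graphs which have an apRAC-drawing.
* `RedTo`: many-one reductions computable in polynomial time by a Turing machine, for decision
  problems with arbitrary bit string encodings. `InER`: the problem reduces to the existential
  theory of the reals. `ERComplete`.
-/

set_option autoImplicit false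

namespace Pool.Agent.H54R

open Pool.Agent.PolyTime Pool.Agent.MinRank

/-- A finite simple graph on the vertices `0, ..., n - 1`, given by its adjacency matrix. -/
structure Gr : Type where
  /-- the number of vertices -/
  n : ℕ
  /-- the adjacency matrix -/
  adj : Fin n → Fin n → Bool
  /-- adjacency is symmetric -/
  symm : ∀ i j, adj i j = adj j i
  /-- there are no loops -/
  irrefl : ∀ i, adj i i = false

/-- the rows of the adjacency matrix -/
def Gr.rows (G : Gr) : List (List Bool) := List.ofFn fun i => List.ofFn fun j => G.adj i j

/-- a graph is encoded by the list of the rows of its adjacency matrix -/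
instance : Enc Gr := ⟨fun G => enc G.rows⟩

/-- The segments `ab` and `cd` have a common interior point. -/
def Cross (a b c d : ℝ × ℝ) : Prop := ∃ z, z ∈ openSegment ℝ a b ∧ z ∈ openSegment ℝ c d

/-- the segment `ab` is horizontal -/
def Hor (a b : ℝ × ℝ) : Prop := a.2 = b.2

/-- the segment `ab` is vertical -/
def Ver (a b : ℝ × ℝ) : Prop := a.1 = b.1

/-- A straight-line drawing: the vertices are distinct points, and no edge passes through the image
of a vertex other than its ends. -/
def IsDrawing (G : Gr) (p : Fin G.n → ℝ × ℝ) : Prop :=
  Function.Injective p ∧
    ∀ u v w, G.adj u v = true → w ≠ u → w ≠ v → p w ∉ segment ℝ (p u) (p v)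

/-- An apRAC-drawing: of two different edges which cross, one is horizontal and the other one is
vertical. -/
def IsApRAC (G : Gr) (p : Fin G.n → ℝ × ℝ) : Prop :=
  IsDrawing G p ∧ ∀ u v w z, G.adj u v = true → G.adj w z = true → s(u, v) ≠ s(w, z) →
    Cross (p u) (p v) (p w) (p z) →
    (Hor (p u) (p v) ∧ Ver (p w) (p z)) ∨ (Ver (p u) (p v) ∧ Hor (p w) (p z))

/-- the graphs which have an apRAC-drawing -/
def APRAC : Set Gr := {G | ∃ p, IsApRAC G p}

/-- `A` (with the instances encoded as bit strings by `ea`) reduces to `B` (with encoding `eb`) by a
many-one reduction computable in polynomial time by a Turing machine. -/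
def RedTo {α β : Type} (ea : α → List Bool) (eb : β → List Bool) (A : Set α) (B : Set β) : Prop :=
  ∃ f : α → β, Nonempty (Turing.TM2ComputableInPolyTime ea eb f) ∧ ∀ a, a ∈ A ↔ f a ∈ B

/-- The class of the existential theory of the reals: the decision problems which reduce to it. -/
def InER {α : Type} (ea : α → List Bool) (A : Set α) : Prop := RedTo ea bitString A ETR

/-- `B` is hard for the class: every decision problem in the class reduces to `B`. -/
def ERHardP {β : Type} (eb : β → List Bool) (B : Set β) : Prop :=
  ∀ (α : Type) (ea : α → List Bool) (A : Set α), InER ea A → RedTo ea eb A B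

/-- `B` is complete for the class. -/
def ERComplete {β : Type} (eb : β → List Bool) (B : Set β) : Prop := InER eb B ∧ ERHardP eb B

end Pool.Agent.H54R
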