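import Pool.Agent.Lib.H54R.EDefs

/-!
# E1: edge lists and graphs
-/

set_option autoImplicit false

namespace Pool.Agent.H54R

open Pool.Agent.PolyTime

theorem mem_ddup {W : Type} [DecidableEq W] {l : List W} {x : W} : x ∈ ddup l ↔ x ∈ l := by
  have key : ∀ (l acc : List W), x ∈ l.foldl (fun acc x => if x ∈ acc then acc else x :: acc) acc ↔
      x ∈ acc ∨ x ∈ l := by
    intro l
    induction l with
    | nil => intro acc; simp
    | cons y l ih =>
      intro acc
      rw [List.foldl_cons, ih]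
      by_cases h : y ∈ acc
      · simp only [h, if_true, List.mem_cons]
        constructor
        · tauto
        · rintro (h1 | h1 | h1)
          · exact Or.inl h1
          · exact Or.inl (h1 ▸ h)
          · exact Or.inr h1
      · simp only [h, if_false, List.mem_cons]
        tauto
  have h := key l []
  simpa [ddup] using h

theorem nodup_ddup {W : Type} [DecidableEq W] (l : List W) : (ddup l).Nodup := by
  have key : ∀ (l acc : List W), acc.Nodup →
      (l.foldl (fun acc x => if x ∈ acc then acc else x :: acc) acc).Nodup := by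
    intro l
    induction l with
    | nil => intro acc h; exact h
    | cons y l ih =>
      intro acc h
      rw [List.foldl_cons]
      apply ih
      by_cases hy : y ∈ acc
      · simpa [hy] using h
      · simp [hy, h]
  exact key l [] List.nodup_nil

theorem mem_verts {W : Type} [DecidableEq W] {E : List (W × W)} {x : W} :
    x ∈ verts E ↔ x ∈ vset E := by
  rw [verts, mem_ddup, List.mem_flatMap]
  simp [vset]

/-- The graph `toGr E` has an apRAC-drawing iff there are positions for the ends of the edges. -/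
theorem toGr_mem {W : Type} [DecidableEq W] {E : List (W × W)} (hE : NoLoop E) :
    toGr E ∈ APRAC ↔ ∃ p, ElDraw E p := by
  have hnd : Function.Injective (verts E).get := List.nodup_iff_injective_get.1 (nodup_ddup _)
  have hget : ∀ {v}, v ∈ vset E → ∃ i, (verts E).get i = v := by
    intro v hv
    exact List.mem_iff_get.1 (mem_verts.2 hv)
  have hmem : ∀ i, (verts E).get i ∈ vset E := fun i => mem_verts.1 (List.get_mem _ _)
  have hadj : ∀ {i j}, (toGr E).adj i j = true ↔ (verts E).get i ≠ (verts E).get j ∧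
      (((verts E).get i, (verts E).get j) ∈ E ∨ ((verts E).get j, (verts E).get i) ∈ E) := by
    intro i j
    simp [toGr, adjE]
  have hv1 : ∀ {e}, e ∈ E → e.1 ∈ vset E := fun he => ⟨_, he, Or.inl rfl⟩
  have hv2 : ∀ {e}, e ∈ E → e.2 ∈ vset E := fun he => ⟨_, he, Or.inr rfl⟩
  constructor
  · rintro ⟨p, ⟨hinj, hav⟩, hcr⟩
    classical
    let q : W → Pt := fun w => if h : ∃ i, (verts E).get i = w then p h.choose else 0
    have hq : ∀ i, q ((verts E).get i) = p i := by
      intro i
      have h : ∃ j, (verts E).get j = (verts E).get i := ⟨i, rfl⟩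
      have h1 : q ((verts E).get i) = p h.choose := by simp only [q, dif_pos h]
      rw [h1, hnd h.choose_spec]
    refine ⟨q, ?_, ?_, ?_⟩
    · intro v hv w hw hvw
      obtain ⟨i, rfl⟩ := hget hv
      obtain ⟨j, rfl⟩ := hget hw
      rw [hq, hq] at hvw
      rw [hinj hvw]
    · rintro ⟨a, b⟩ he v hv h1 h2
      obtain ⟨i, hi⟩ := hget (hv1 he)
      obtain ⟨j, hj⟩ := hget (hv2 he)
      obtain ⟨k, hk⟩ := hget hv
      have hne := hE _ he
      simp only at hi hj h1 h2 hne ⊢
      subst hi hj hk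
      rw [hq, hq, hq]
      exact hav i j k (hadj.2 ⟨hne, Or.inl he⟩) (fun e => h1 (by rw [e])) (fun e => h2 (by rw [e]))
    · rintro ⟨a, b⟩ he ⟨c, d⟩ hf hne hc
      obtain ⟨i, hi⟩ := hget (hv1 he)
      obtain ⟨j, hj⟩ := hget (hv2 he)
      obtain ⟨k, hk⟩ := hget (hv1 hf)
      obtain ⟨l, hl⟩ := hget (hv2 hf)
      have hne1 := hE _ he
      have hne2 := hE _ hf
      simp only at hi hj hk hl hne hc hne1 hne2 ⊢
      subst hi hj hk hl
      rw [hq, hq, hq, hq] at hc ⊢
      refine hcr i j k l (hadj.2 ⟨hne1, Or.inl he⟩) (hadj.2 ⟨hne2, Or.inl hf⟩) (fun e => hne ?_) hc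
      rw [Sym2.eq_iff] at e ⊢
      rcases e with ⟨e1, e2⟩ | ⟨e1, e2⟩
      · exact Or.inl ⟨by rw [e1], by rw [e2]⟩
      · exact Or.inr ⟨by rw [e1], by rw [e2]⟩
  · rintro ⟨q, hinj, hav, hcr⟩
    have hav' : ∀ a b, ((a, b) ∈ E ∨ (b, a) ∈ E) → ∀ v ∈ vset E, v ≠ a → v ≠ b →
        q v ∉ segment ℝ (q a) (q b) := by
      rintro a b (h | h) v hv h1 h2
      · exact hav _ h v hv h1 h2
      · rw [segment_symm]
        exact hav _ h v hv h2 h1
    have hcr1 : ∀ e ∈ E, ∀ c d, ((c, d) ∈ E ∨ (d, c) ∈ E) → s(e.1, e.2) ≠ s(c, d) →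
        Cross (q e.1) (q e.2) (q c) (q d) →
        (Hor (q e.1) (q e.2) ∧ Ver (q c) (q d)) ∨ (Ver (q e.1) (q e.2) ∧ Hor (q c) (q d)) := by
      rintro e he c d (h | h) hne hc
      · exact hcr e he _ h hne hc
      · have h1 := hcr e he _ h (by rw [Sym2.eq_swap (a := (d, c).1)]; exact hne) (by
          obtain ⟨z, hz1, hz2⟩ := hc
          exact ⟨z, hz1, by rw [openSegment_symm]; exact hz2⟩)
        exact h1.imp (fun h => ⟨h.1, h.2.symm⟩) (fun h => ⟨h.1, h.2.symm⟩)
    have hcr' : ∀ a b c d, ((a, b) ∈ E ∨ (b, a) ∈ E) → ((c, d) ∈ E ∨ (d, c) ∈ E) →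
        s(a, b) ≠ s(c, d) → Cross (q a) (q b) (q c) (q d) →
        (Hor (q a) (q b) ∧ Ver (q c) (q d)) ∨ (Ver (q a) (q b) ∧ Hor (q c) (q d)) := by
      rintro a b c d (h | h) hcd hne hc
      · exact hcr1 _ h c d hcd hne hc
      · have h1 := hcr1 _ h c d hcd (by rw [Sym2.eq_swap (a := (b, a).1)]; exact hne) (by
          obtain ⟨z, hz1, hz2⟩ := hc
          exact ⟨z, by rw [openSegment_symm]; exact hz1, hz2⟩)
        exact h1.imp (fun h => ⟨h.1.symm, h.2⟩) (fun h => ⟨h.1.symm, h.2⟩)
    refine ⟨fun i => q ((verts E).get i), ⟨fun i j hij => hnd (hinj (hmem i) (hmem j) hij), ?_⟩, ?_⟩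
    · intro u v w huv h1 h2
      obtain ⟨-, h⟩ := hadj.1 huv
      exact hav' _ _ h _ (hmem w) (fun e => h1 (hnd e)) (fun e => h2 (hnd e))
    · intro u v w z huv hwz hne hc
      obtain ⟨-, h1⟩ := hadj.1 huv
      obtain ⟨-, h2⟩ := hadj.1 hwz
      refine hcr' _ _ _ _ h1 h2 (fun e => hne ?_) hc
      rw [Sym2.eq_iff] at e ⊢
      rcases e with ⟨e1, e2⟩ | ⟨e1, e2⟩
      · exact Or.inl ⟨hnd e1, hnd e2⟩
      · exact Or.inr ⟨hnd e1, hnd e2⟩

/-- the rows of the adjacency matrix -/
theorem toGr_rows {W : Type} [DecidableEq W] (E : List (W × W)) :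
    (toGr E).rows = (verts E).map fun a => (verts E).map fun b => adjE E a b := by
  have h : ∀ {β : Type} (f : W → β), (verts E).map f = List.ofFn fun i => f ((verts E).get i) := by
    intro β f
    conv_lhs => rw [← List.ofFn_get (verts E), List.map_ofFn]
    rfl
  rw [h]
  unfold Gr.rows
  congr 1
  funext i
  rw [h]
  rfl

end Pool.Agent.H54R
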