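import Pool.Agent.Lib.H54R.EDefs
import Pool.Agent.Lib.H54R.E1

/-!
# E2: the graph of an edge list in polynomial time
-/

set_option autoImplicit false

namespace Pool.Agent.H54R

open Pool.Agent.PolyTime

instance : EncInj Vx := ⟨fun a b h => Vx.code_inj (EncInj.inj (by
  have h' : enc a.code = enc b.code := h
  exact h'))⟩

theorem PT_ddup {α W : Type} [Enc α] [Enc W] [EncInj W] [DecidableEq W] {l : α → List W}
    (hl : PT l) : PT fun a => ddup (l a) := by
  have hsz : ∀ (l acc : List W),
      sz (l.foldl (fun acc x => if x ∈ acc then acc else x :: acc) acc) + 1 ≤ sz l + sz acc := by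
    intro l
    induction l with
    | nil => intro acc; rw [List.foldl_nil, sz_nil]; omega
    | cons y l ih =>
      intro acc
      rw [List.foldl_cons, sz_cons]
      by_cases hy : y ∈ acc
      · rw [if_pos hy]
        have := ih acc
        omega
      · rw [if_neg hy]
        have := ih (y :: acc)
        rw [sz_cons] at this
        omega
  have h := PT.foldl (g := fun (_ : α) (acc : List W) (x : W) => if x ∈ acc then acc else x :: acc)
    (s := fun _ => []) (l := l) (B := fun a => sz (l a))
    (PT.ite (p := fun p : α × List W × W => p.2.2 ∈ p.2.1)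
      (PT.mem (f := fun p : α × List W × W => p.2.2) (l := fun p : α × List W × W => p.2.1)
        (by fun_prop) (by fun_prop)) (by fun_prop) (by fun_prop))
    (by fun_prop) hl (PT.bdd hl) (by
      intro a l1 l2 h
      have h1 := hsz l1 []
      have h2 : sz l1 ≤ sz (l a) := sz_sublist_le (by rw [h]; exact List.sublist_append_left _ _)
      rw [sz_nil] at h1
      omega)
  exact h

theorem PT_verts {α W : Type} [Enc α] [Enc W] [EncInj W] [DecidableEq W]
    {E : α → List (W × W)} (hE : PT E) : PT fun a => verts (E a) := by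
  exact PT_ddup (PT.flatMap (f := fun _ (e : W × W) => [e.1, e.2]) (by fun_prop) hE)

theorem PT_adjE {α W : Type} [Enc α] [Enc W] [EncInj W] [DecidableEq W]
    {E : α → List (W × W)} {f g : α → W} (hE : PT E) (hf : PT f) (hg : PT g) :
    PT fun a => adjE (E a) (f a) (g a) := by
  unfold adjE
  have h1 : PT fun a => decide (f a = g a) := PT.decide_eq hf hg
  have h2 : PT fun a => decide ((f a, g a) ∈ E a) :=
    (PT.mem (PT.pair hf hg) hE).congr fun a => by congr
  have h3 : PT fun a => decide ((g a, f a) ∈ E a) :=
    (PT.mem (PT.pair hg hf) hE).congr fun a => by congr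
  refine (PT.and (PT.not h1) (PT.or h2 h3)).congr fun a => ?_
  simp

/-- `enc (toGr E) = enc (toGr E).rows`, and `toGr_rows` -/
theorem PT_toGr {α W : Type} [Enc α] [Enc W] [EncInj W] [DecidableEq W]
    {E : α → List (W × W)} (hE : PT E) : PT fun a => toGr (E a) := by
  have hv : PT fun a => verts (E a) := PT_verts hE
  have h : PT fun a => (verts (E a)).map fun x => (verts (E a)).map fun y => adjE (E a) x y := by
    refine PT.map (f := fun a x => (verts (E a)).map fun y => adjE (E a) x y) ?_ hv
    refine PT.map (f := fun (p : α × W) y => adjE (E p.1) p.2 y) ?_ (hv.comp PT.fst')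
    exact PT_adjE (hE.comp (f := fun p : (α × W) × W => p.1.1) (by fun_prop))
      (f := fun p : (α × W) × W => p.1.2) (g := fun p : (α × W) × W => p.2)
      (by fun_prop) (by fun_prop)
  have h2 : PT fun a => (toGr (E a)).rows := h.congr fun a => (toGr_rows (E a)).symm
  exact h2

/-- the expansion of the heavy edges -/
theorem PT_expand {α V : Type} [Enc α] [Enc V] {C : α → List (V × V) × List (V × V)}
    (hC : PT C) : PT fun a => expand (C a) := by
  unfold expand
  refine PT.append (PT.map (f := fun _ (e : V × V) => ((Sum.inl e.1 : XV V), (Sum.inl e.2 : XV V)))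
    (by fun_prop) (PT.fst hC)) ?_
  refine PT.flatMap (f := fun _ (h : (V × V) × ℕ) => (List.range 9).flatMap fun c =>
      [((Sum.inl h.1.1 : XV V), (Sum.inr (h.2, c) : XV V)), (Sum.inr (h.2, c), Sum.inl h.1.2)])
    ?_ (PT.zipIdx (PT.snd hC))
  exact PT.flatMap (f := fun (p : α × (V × V) × ℕ) c =>
      [((Sum.inl p.2.1.1 : XV V), (Sum.inr (p.2.2, c) : XV V)), (Sum.inr (p.2.2, c), Sum.inl p.2.1.2)])
    (by fun_prop) (PT.const (List.range 9))

end Pool.Agent.H54R
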