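import Pool.Agent.Lib.H54R.EDefs

/-!
# E3A: at most four edges at a vertex are crossed
-/

set_option autoImplicit false

namespace Pool.Agent.H54R

theorem e3a_seg {a b c : Pt} {t : ℝ} (h0 : 0 ≤ t) (h1 : t ≤ 1) (hx : b.1 - a.1 = t * (c.1 - a.1))
    (hy : b.2 - a.2 = t * (c.2 - a.2)) : b ∈ segment ℝ a c := by
  refine ⟨1 - t, t, by linarith, h0, by ring, ?_⟩
  ext
  · simp
    linarith
  · simp
    linarith

theorem e3a_real {u v w : ℝ} (hv : v ≠ u) (hw : w ≠ u) (h : (u < v) ↔ (u < w)) :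
    ∃ t : ℝ, 0 ≤ t ∧ t ≤ 1 ∧ (v - u = t * (w - u) ∨ w - u = t * (v - u)) := by
  have hv' : v - u ≠ 0 := sub_ne_zero.mpr hv
  have hw' : w - u ≠ 0 := sub_ne_zero.mpr hw
  by_cases h1 : u < v
  · have h2 : u < w := h.mp h1
    rcases le_total v w with h3 | h3
    · exact ⟨(v - u) / (w - u), div_nonneg (by linarith) (by linarith),
        (div_le_one (by linarith)).mpr (by linarith), Or.inl (div_mul_cancel₀ _ hw').symm⟩
    · exact ⟨(w - u) / (v - u), div_nonneg (by linarith) (by linarith),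
        (div_le_one (by linarith)).mpr (by linarith), Or.inr (div_mul_cancel₀ _ hv').symm⟩
  · have h2 : ¬ u < w := fun h3 => h1 (h.mpr h3)
    have h1' : v < u := lt_of_le_of_ne (not_lt.mp h1) hv
    have h2' : w < u := lt_of_le_of_ne (not_lt.mp h2) hw
    rcases le_total v w with h3 | h3
    · refine ⟨(w - u) / (v - u), div_nonneg_of_nonpos (by linarith) (by linarith),
        (div_le_one_of_neg (by linarith)).mpr (by linarith), Or.inr (div_mul_cancel₀ _ hv').symm⟩
    · refine ⟨(v - u) / (w - u), div_nonneg_of_nonpos (by linarith) (by linarith),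
        (div_le_one_of_neg (by linarith)).mpr (by linarith), Or.inl (div_mul_cancel₀ _ hw').symm⟩

theorem e3a_hor {a b c : Pt} (hb : b ≠ a) (hc : c ≠ a) (hab : a.2 = b.2) (hac : a.2 = c.2)
    (h : (a.1 < b.1) ↔ (a.1 < c.1)) : b ∈ segment ℝ a c ∨ c ∈ segment ℝ a b := by
  obtain ⟨t, h0, h1, h2 | h2⟩ := e3a_real (u := a.1) (v := b.1) (w := c.1)
    (fun e => hb (Prod.ext e hab.symm)) (fun e => hc (Prod.ext e hac.symm)) h
  · exact Or.inl (e3a_seg h0 h1 h2 (by rw [← hab, ← hac]; ring))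
  · exact Or.inr (e3a_seg h0 h1 h2 (by rw [← hab, ← hac]; ring))

theorem e3a_ver {a b c : Pt} (hb : b ≠ a) (hc : c ≠ a) (hab : a.1 = b.1) (hac : a.1 = c.1)
    (h : (a.2 < b.2) ↔ (a.2 < c.2)) : b ∈ segment ℝ a c ∨ c ∈ segment ℝ a b := by
  obtain ⟨t, h0, h1, h2 | h2⟩ := e3a_real (u := a.2) (v := b.2) (w := c.2)
    (fun e => hb (Prod.ext hab.symm e)) (fun e => hc (Prod.ext hac.symm e)) h
  · exact Or.inl (e3a_seg h0 h1 (by rw [← hab, ← hac]; ring) h2)
  · exact Or.inr (e3a_seg h0 h1 (by rw [← hab, ← hac]; ring) h2)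

/-- In an apRAC-drawing a vertex `a` has at most four neighbours `b` such that the edge `a b` is
crossed: a crossed edge is horizontal or vertical, and two edges from `a` in the same of the four
directions would give a vertex on an edge. -/
theorem crossed_le {W : Type} [DecidableEq W] {E : List (W × W)} {q : W → Pt} (hE : NoLoop E)
    (h : ElDraw E q) (a : W) (B : Finset W)
    (hB : ∀ b ∈ B, ((a, b) ∈ E ∨ (b, a) ∈ E) ∧ ∃ f ∈ E, s(a, b) ≠ s(f.1, f.2) ∧
      Cross (q a) (q b) (q f.1) (q f.2)) : B.card ≤ 4 := by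
  classical
  have hne : ∀ b ∈ B, b ≠ a := by
    intro b hb e
    rcases (hB b hb).1 with h1 | h1
    · exact hE _ h1 e.symm
    · exact hE _ h1 e
  have hv : ∀ b ∈ B, a ∈ vset E ∧ b ∈ vset E := by
    intro b hb
    rcases (hB b hb).1 with h1 | h1
    · exact ⟨⟨_, h1, Or.inl rfl⟩, ⟨_, h1, Or.inr rfl⟩⟩
    · exact ⟨⟨_, h1, Or.inr rfl⟩, ⟨_, h1, Or.inl rfl⟩⟩
  have hq : ∀ b ∈ B, q b ≠ q a := fun b hb e => hne b hb (h.inj (hv b hb).2 (hv b hb).1 e)
  have hHV : ∀ b ∈ B, (q a).2 = (q b).2 ∨ (q a).1 = (q b).1 := by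
    intro b hb
    obtain ⟨h1, f, hf, hs, hc⟩ := hB b hb
    rcases h1 with h1 | h1
    · rcases h.cross _ h1 f hf hs hc with h2 | h2
      · exact Or.inl h2.1
      · exact Or.inr h2.1
    · have hs' : s((b, a).1, (b, a).2) ≠ s(f.1, f.2) := by rwa [Sym2.eq_swap] at hs
      have hc' : Cross (q (b, a).1) (q (b, a).2) (q f.1) (q f.2) := by
        obtain ⟨z, hz1, hz2⟩ := hc
        exact ⟨z, by rwa [openSegment_symm] at hz1, hz2⟩
      rcases h.cross _ h1 f hf hs' hc' with h2 | h2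
      · exact Or.inl (Eq.symm h2.1)
      · exact Or.inr (Eq.symm h2.1)
  have hav : ∀ b ∈ B, ∀ c ∈ B, b ≠ c → q b ∉ segment ℝ (q a) (q c) := by
    intro b hb c hc hbc
    rcases (hB c hc).1 with h1 | h1
    · exact h.avoid _ h1 b (hv b hb).2 (hne b hb) hbc
    · rw [segment_symm]
      exact h.avoid _ h1 b (hv b hb).2 hbc (hne b hb)
  let dir : W → Bool × Bool := fun b => (decide ((q a).2 = (q b).2),
    if (q a).2 = (q b).2 then decide ((q a).1 < (q b).1) else decide ((q a).2 < (q b).2))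
  have hinj : Set.InjOn dir (B : Set W) := by
    intro b hb c hc he
    by_contra hbc
    have hb' : b ∈ B := hb
    have hc' : c ∈ B := hc
    have h1 := hav b hb' c hc' hbc
    have h2 := hav c hc' b hb' (Ne.symm hbc)
    simp only [dir, Prod.mk.injEq, decide_eq_decide] at he
    obtain ⟨he1, he2⟩ := he
    by_cases hbh : (q a).2 = (q b).2
    · have hch := he1.mp hbh
      rw [if_pos hbh, if_pos hch, decide_eq_decide] at he2
      rcases e3a_hor (hq b hb') (hq c hc') hbh hch he2 with h3 | h3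
      · exact h1 h3
      · exact h2 h3
    · have hch : ¬ (q a).2 = (q c).2 := fun e => hbh (he1.mpr e)
      rw [if_neg hbh, if_neg hch, decide_eq_decide] at he2
      rcases e3a_ver (hq b hb') (hq c hc') ((hHV b hb').resolve_left hbh)
        ((hHV c hc').resolve_left hch) he2 with h3 | h3
      · exact h1 h3
      · exact h2 h3
  have := Finset.card_le_card_of_injOn (s := B) (t := (Finset.univ : Finset (Bool × Bool))) dir
    (fun _ _ => Finset.mem_univ _) hinj
  simpa using this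

end Pool.Agent.H54R
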