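import Pool.Agent.Lib.H54R.EDefs
import Pool.Agent.Lib.H54R.E3A

/-!
# E3: a drawing of the expanded graph gives a semi-drawing of the core graph
-/

set_option autoImplicit false

namespace Pool.Agent.H54R

theorem e3_light {V : Type} {C : List (V × V) × List (V × V)} {a b : V} (h : (a, b) ∈ C.1) :
    ((Sum.inl a, Sum.inl b) : XV V × XV V) ∈ expand C := by
  unfold expand
  exact List.mem_append_left _ (List.mem_map.2 ⟨(a, b), h, rfl⟩)

theorem e3_heavy {V : Type} {C : List (V × V) × List (V × V)} {a b : V} {n c : ℕ}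
    (h : C.2[n]? = some (a, b)) (hc : c < 9) :
    ((Sum.inl a, Sum.inr (n, c)) : XV V × XV V) ∈ expand C ∧
      ((Sum.inr (n, c), Sum.inl b) : XV V × XV V) ∈ expand C := by
  unfold expand
  constructor
  · refine List.mem_append_right _ (List.mem_flatMap.2 ⟨((a, b), n), ?_, ?_⟩)
    · rw [List.mk_mem_zipIdx_iff_getElem?]
      exact h
    · refine List.mem_flatMap.2 ⟨c, List.mem_range.2 hc, ?_⟩
      simp
  · refine List.mem_append_right _ (List.mem_flatMap.2 ⟨((a, b), n), ?_, ?_⟩)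
    · rw [List.mk_mem_zipIdx_iff_getElem?]
      exact h
    · refine List.mem_flatMap.2 ⟨c, List.mem_range.2 hc, ?_⟩
      simp

theorem e3_noLoop {V : Type} {C : List (V × V) × List (V × V)} (hC : NoLoop (C.1 ++ C.2)) :
    NoLoop (expand C) := by
  intro e he
  unfold expand at he
  rcases List.mem_append.1 he with he | he
  · obtain ⟨f, hf, rfl⟩ := List.mem_map.1 he
    intro heq
    exact hC f (List.mem_append_left _ hf) (Sum.inl_injective heq)
  · obtain ⟨x, -, he⟩ := List.mem_flatMap.1 he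
    obtain ⟨c, -, he⟩ := List.mem_flatMap.1 he
    rcases List.mem_cons.1 he with rfl | he
    · exact Sum.inl_ne_inr
    · rw [List.mem_singleton.1 he]
      exact Sum.inr_ne_inl

/-- the edge is not crossed -/
def E3Un {W : Type} (E : List (W × W)) (q : W → Pt) (e : W × W) : Prop :=
  ∀ f ∈ E, s(e.1, e.2) ≠ s(f.1, f.2) → ¬ Cross (q e.1) (q e.2) (q f.1) (q f.2)

theorem e3_cross_swap {a b c d : Pt} (h : Cross a b c d) : Cross b a c d := by
  obtain ⟨w, h1, h2⟩ := h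
  exact ⟨w, by rw [openSegment_symm]; exact h1, h2⟩

theorem e3_cross_swap' {a b c d : Pt} (h : Cross a b c d) : Cross a b d c := by
  obtain ⟨w, h1, h2⟩ := h
  exact ⟨w, h1, by rw [openSegment_symm]; exact h2⟩

theorem e3_choose {V : Type} [DecidableEq V] {C : List (V × V) × List (V × V)}
    (hC : NoLoop (C.1 ++ C.2)) {q : XV V → Pt} (h : ElDraw (expand C) q) {a b : V} {n : ℕ}
    (hn : C.2[n]? = some (a, b)) : ∃ c < 9,
      E3Un (expand C) q (Sum.inl a, Sum.inr (n, c)) ∧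
      E3Un (expand C) q (Sum.inr (n, c), Sum.inl b) := by
  classical
  by_contra hcon
  push Not at hcon
  have hN := e3_noLoop hC
  let A : Finset ℕ := (Finset.range 9).filter fun c =>
    ¬ E3Un (expand C) q (Sum.inl a, Sum.inr (n, c))
  let B : Finset ℕ := (Finset.range 9).filter fun c =>
    ¬ E3Un (expand C) q (Sum.inr (n, c), Sum.inl b)
  have hinj : Function.Injective fun c : ℕ => (Sum.inr (n, c) : XV V) := by
    intro x y hxy
    have := Sum.inr_injective hxy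
    exact (Prod.ext_iff.1 this).2
  have hA : A.card ≤ 4 := by
    have := crossed_le hN h (Sum.inl a) (A.image fun c : ℕ => (Sum.inr (n, c) : XV V)) ?_
    · rwa [Finset.card_image_of_injective _ hinj] at this
    · intro x hx
      obtain ⟨c, hc, rfl⟩ := Finset.mem_image.1 hx
      obtain ⟨hc1, hc2⟩ := Finset.mem_filter.1 hc
      refine ⟨Or.inl (e3_heavy hn (Finset.mem_range.1 hc1)).1, ?_⟩
      unfold E3Un at hc2
      push Not at hc2
      exact hc2
  have hB : B.card ≤ 4 := by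
    have := crossed_le hN h (Sum.inl b) (B.image fun c : ℕ => (Sum.inr (n, c) : XV V)) ?_
    · rwa [Finset.card_image_of_injective _ hinj] at this
    · intro x hx
      obtain ⟨c, hc, rfl⟩ := Finset.mem_image.1 hx
      obtain ⟨hc1, hc2⟩ := Finset.mem_filter.1 hc
      refine ⟨Or.inr (e3_heavy hn (Finset.mem_range.1 hc1)).2, ?_⟩
      unfold E3Un at hc2
      push Not at hc2
      obtain ⟨f, hf, h1, h2⟩ := hc2
      refine ⟨f, hf, ?_, e3_cross_swap h2⟩
      rw [Sym2.eq_swap]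
      exact h1
  have hsub : Finset.range 9 ⊆ A ∪ B := by
    intro c hc
    by_cases h1 : E3Un (expand C) q (Sum.inl a, Sum.inr (n, c))
    · exact Finset.mem_union_right _ (Finset.mem_filter.2 ⟨hc, hcon c (Finset.mem_range.1 hc) h1⟩)
    · exact Finset.mem_union_left _ (Finset.mem_filter.2 ⟨hc, h1⟩)
  have h9 := (Finset.card_le_card hsub).trans (Finset.card_union_le A B)
  rw [Finset.card_range] at h9
  omega

/-- For every heavy edge one of the nine middle vertices has both edges uncrossed (`crossed_le` at both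
ends: at most eight middle vertices are bad). `m a b` is the image of such a middle vertex of an
index `n` with `C.2[n] = (a, b)` or `(b, a)`; `Lt` are the light edges, `U` the chosen half edges
`p a`, `m a b` and `m a b`, `p b` (in both orders); `P` is the set of all images of vertices. -/
theorem semi_of_expand {V : Type} [DecidableEq V] {C : List (V × V) × List (V × V)}
    (hC : NoLoop (C.1 ++ C.2)) {q : XV V → Pt} (h : ElDraw (expand C) q) : Nonempty (Semi C) := by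
  classical
  have hN := e3_noLoop hC
  set E := expand C with hE
  have hch : ∀ n : ℕ, ∃ c : ℕ, ∀ a b : V, C.2[n]? = some (a, b) → c < 9 ∧
      E3Un E q (Sum.inl a, Sum.inr (n, c)) ∧ E3Un E q (Sum.inr (n, c), Sum.inl b) := by
    intro n
    rcases hn : C.2[n]? with _ | ⟨a, b⟩
    · exact ⟨0, fun a b h => by cases h⟩
    · obtain ⟨c, hc, h1, h2⟩ := e3_choose hC h hn
      refine ⟨c, fun a' b' h' => ?_⟩
      cases h'
      exact ⟨hc, h1, h2⟩
  choose g hg using hch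
  have hidx : ∀ {a b : V}, (a, b) ∈ C.2 ∨ (b, a) ∈ C.2 →
      ∃ n : ℕ, C.2[n]? = some (a, b) ∨ C.2[n]? = some (b, a) := by
    intro a b hab
    rcases hab with hab | hab
    · obtain ⟨n, hn⟩ := List.mem_iff_getElem?.1 hab
      exact ⟨n, Or.inl hn⟩
    · obtain ⟨n, hn⟩ := List.mem_iff_getElem?.1 hab
      exact ⟨n, Or.inr hn⟩
  let mi : V → V → ℕ := fun a b =>
    if h : ∃ n : ℕ, C.2[n]? = some (a, b) ∨ C.2[n]? = some (b, a) then h.choose else 0
  have hmi : ∀ {a b : V}, (a, b) ∈ C.2 ∨ (b, a) ∈ C.2 →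
      C.2[mi a b]? = some (a, b) ∨ C.2[mi a b]? = some (b, a) := by
    intro a b hab
    have h1 := hidx hab
    have h2 : mi a b = h1.choose := dif_pos h1
    rw [h2]
    exact h1.choose_spec
  -- edges
  have hedge : ∀ {a b : V}, (a, b) ∈ C.2 ∨ (b, a) ∈ C.2 →
      ∃ e ∈ E, E3Un E q e ∧ ((e.1 = Sum.inl a ∧ e.2 = Sum.inr (mi a b, g (mi a b))) ∨
        (e.2 = Sum.inl a ∧ e.1 = Sum.inr (mi a b, g (mi a b)))) := by
    intro a b hab
    rcases hmi hab with h1 | h1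
    · obtain ⟨g1, g2, g3⟩ := hg _ _ _ h1
      exact ⟨_, (e3_heavy h1 g1).1, g2, Or.inl ⟨rfl, rfl⟩⟩
    · obtain ⟨g1, g2, g3⟩ := hg _ _ _ h1
      exact ⟨_, (e3_heavy h1 g1).2, g3, Or.inr ⟨rfl, rfl⟩⟩
  have hedge' : ∀ {a b : V}, (a, b) ∈ C.2 ∨ (b, a) ∈ C.2 →
      ∃ e ∈ E, E3Un E q e ∧ ((e.1 = Sum.inl b ∧ e.2 = Sum.inr (mi a b, g (mi a b))) ∨
        (e.2 = Sum.inl b ∧ e.1 = Sum.inr (mi a b, g (mi a b)))) := by
    intro a b hab
    rcases hmi hab with h1 | h1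
    · obtain ⟨g1, g2, g3⟩ := hg _ _ _ h1
      exact ⟨_, (e3_heavy h1 g1).2, g3, Or.inr ⟨rfl, rfl⟩⟩
    · obtain ⟨g1, g2, g3⟩ := hg _ _ _ h1
      exact ⟨_, (e3_heavy h1 g1).1, g2, Or.inl ⟨rfl, rfl⟩⟩
  have v1 : ∀ {e : XV V × XV V}, e ∈ E → e.1 ∈ vset E := fun he => ⟨_, he, Or.inl rfl⟩
  have v2 : ∀ {e : XV V × XV V}, e ∈ E → e.2 ∈ vset E := fun he => ⟨_, he, Or.inr rfl⟩
  have hvP : ∀ {v : V}, v ∈ vset (C.1 ++ C.2) → (Sum.inl v : XV V) ∈ vset E := by
    rintro v ⟨e, he, hv⟩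
    rcases List.mem_append.1 he with he | he
    · rcases hv with rfl | rfl
      · exact v1 (e3_light (a := e.1) (b := e.2) he)
      · exact v2 (e3_light (a := e.1) (b := e.2) he)
    · rcases hv with rfl | rfl
      · obtain ⟨f, hf, -, h1 | h1⟩ := hedge (a := e.1) (b := e.2) (Or.inl he)
        · rw [← h1.1]; exact v1 hf
        · rw [← h1.1]; exact v2 hf
      · obtain ⟨f, hf, -, h1 | h1⟩ := hedge' (a := e.1) (b := e.2) (Or.inl he)
        · rw [← h1.1]; exact v1 hf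
        · rw [← h1.1]; exact v2 hf
  have hmP : ∀ {a b : V}, (a, b) ∈ C.2 ∨ (b, a) ∈ C.2 →
      (Sum.inr (mi a b, g (mi a b)) : XV V) ∈ vset E := by
    intro a b hab
    obtain ⟨f, hf, -, h1 | h1⟩ := hedge hab
    · rw [← h1.2]; exact v2 hf
    · rw [← h1.2]; exact v1 hf
  let On : Pt → Pt → XV V × XV V → Prop := fun x y e =>
    (x = q e.1 ∧ y = q e.2) ∨ (x = q e.2 ∧ y = q e.1)
  have OnS : ∀ {x y e}, On x y e → On y x e := by
    rintro x y e (⟨h1, h2⟩ | ⟨h1, h2⟩)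
    · exact Or.inr ⟨h2, h1⟩
    · exact Or.inl ⟨h2, h1⟩
  have OnP : ∀ {x y e}, e ∈ E → On x y e → x ∈ q '' vset E ∧ y ∈ q '' vset E ∧ x ≠ y := by
    rintro x y e he (⟨rfl, rfl⟩ | ⟨rfl, rfl⟩)
    · exact ⟨⟨_, v1 he, rfl⟩, ⟨_, v2 he, rfl⟩, fun heq => hN e he (h.inj (v1 he) (v2 he) heq)⟩
    · exact ⟨⟨_, v2 he, rfl⟩, ⟨_, v1 he, rfl⟩,
        fun heq => hN e he (h.inj (v2 he) (v1 he) heq).symm⟩
  have OnNv : ∀ {x y z e}, e ∈ E → On x y e → z ∈ q '' vset E → z ≠ x → z ≠ y →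
      z ∉ segment ℝ x y := by
    rintro x y z e he (⟨rfl, rfl⟩ | ⟨rfl, rfl⟩) ⟨v, hv, rfl⟩ h1 h2
    · exact h.avoid e he v hv (fun hh => h1 (by rw [hh])) (fun hh => h2 (by rw [hh]))
    · rw [segment_symm]
      exact h.avoid e he v hv (fun hh => h2 (by rw [hh])) (fun hh => h1 (by rw [hh]))
  have OnSym : ∀ {x y z w e f}, On x y e → On z w f → s(x, y) ≠ s(z, w) →
      s(e.1, e.2) ≠ s(f.1, f.2) := by
    rintro x y z w e f (⟨rfl, rfl⟩ | ⟨rfl, rfl⟩) (⟨rfl, rfl⟩ | ⟨rfl, rfl⟩) hne heq <;>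
    · apply hne
      rw [Sym2.eq_iff] at heq ⊢
      rcases heq with ⟨h1, h2⟩ | ⟨h1, h2⟩ <;> simp [h1, h2]
  have OnCr : ∀ {x y z w e f}, On x y e → On z w f → Cross x y z w →
      Cross (q e.1) (q e.2) (q f.1) (q f.2) := by
    rintro x y z w e f (⟨rfl, rfl⟩ | ⟨rfl, rfl⟩) (⟨rfl, rfl⟩ | ⟨rfl, rfl⟩) hcr
    · exact hcr
    · exact e3_cross_swap' hcr
    · exact e3_cross_swap hcr
    · exact e3_cross_swap (e3_cross_swap' hcr)
  have OnHor : ∀ {x y e}, On x y e → Hor (q e.1) (q e.2) → Hor x y := by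
    rintro x y e (⟨rfl, rfl⟩ | ⟨rfl, rfl⟩) hh
    · exact hh
    · exact hh.symm
  have OnVer : ∀ {x y e}, On x y e → Ver (q e.1) (q e.2) → Ver x y := by
    rintro x y e (⟨rfl, rfl⟩ | ⟨rfl, rfl⟩) hh
    · exact hh
    · exact hh.symm
  let Lt : Pt → Pt → Prop := fun x y => ∃ e ∈ E, On x y e
  let U : Pt → Pt → Prop := fun x y => ∃ e ∈ E, E3Un E q e ∧ On x y e
  refine ⟨{
    P := q '' vset E
    Lt := Lt
    U := U
    Lsymm := fun ⟨e, he, h1⟩ => ⟨e, he, OnS h1⟩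
    Usymm := fun ⟨e, he, hu, h1⟩ => ⟨e, he, hu, OnS h1⟩
    LP := fun ⟨e, he, h1⟩ => OnP he h1
    UP := fun ⟨e, he, hu, h1⟩ => OnP he h1
    nv := ?_
    cross := ?_
    un := ?_
    p := fun v => q (Sum.inl v)
    m := fun a b => q (Sum.inr (mi a b, g (mi a b)))
    pP := fun hv => ⟨_, hvP hv, rfl⟩
    pinj := fun hv hw heq => Sum.inl_injective (h.inj (hvP hv) (hvP hw) heq)
    mP := fun hab => ⟨_, hmP hab, rfl⟩
    mp := fun hab hv heq => by
      have := h.inj (hmP hab) (hvP hv) heq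
      cases this
    minj := ?_
    Lt_of := ?_
    U1 := ?_
    U2 := ?_ }⟩
  · rintro x y z (⟨e, he, h1⟩ | ⟨e, he, hu, h1⟩) hz hzx hzy
    · exact OnNv he h1 hz hzx hzy
    · exact OnNv he h1 hz hzx hzy
  · rintro x y z w ⟨e, he, h1⟩ ⟨f, hf, h2⟩ hne hcr
    rcases h.cross e he f hf (OnSym h1 h2 hne) (OnCr h1 h2 hcr) with ⟨h3, h4⟩ | ⟨h3, h4⟩
    · exact Or.inl ⟨OnHor h1 h3, OnVer h2 h4⟩
    · exact Or.inr ⟨OnVer h1 h3, OnHor h2 h4⟩
  · rintro x y z w ⟨e, he, hu, h1⟩ (⟨f, hf, h2⟩ | ⟨f, hf, hu', h2⟩) hne hcr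
    · exact hu f hf (OnSym h1 h2 hne) (OnCr h1 h2 hcr)
    · exact hu f hf (OnSym h1 h2 hne) (OnCr h1 h2 hcr)
  · intro a b c d hab hcd heq
    have h1 := Sum.inr_injective (h.inj (hmP hab) (hmP hcd) heq)
    have h2 : mi a b = mi c d := (Prod.ext_iff.1 h1).1
    have h3 := hmi hab
    have h4 := hmi hcd
    rw [← h2] at h4
    rcases h3 with h3 | h3 <;> rcases h4 with h4 | h4 <;> rw [h3] at h4 <;>
      injection h4 with h4 <;> injection h4 with h5 h6 <;> subst h5 <;> subst h6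
    · rfl
    · exact Sym2.eq_swap
    · exact Sym2.eq_swap
    · rfl
  · rintro a b (hab | hab)
    · exact ⟨_, e3_light hab, Or.inl ⟨rfl, rfl⟩⟩
    · exact ⟨_, e3_light hab, Or.inr ⟨rfl, rfl⟩⟩
  · intro a b hab
    obtain ⟨e, he, hu, h1 | h1⟩ := hedge hab
    · exact ⟨e, he, hu, Or.inl ⟨by rw [h1.1], by rw [h1.2]⟩⟩
    · exact ⟨e, he, hu, Or.inr ⟨by rw [h1.1], by rw [h1.2]⟩⟩
  · intro a b hab
    obtain ⟨e, he, hu, h1 | h1⟩ := hedge' hab
    · exact ⟨e, he, hu, Or.inr ⟨by rw [h1.2], by rw [h1.1]⟩⟩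
    · exact ⟨e, he, hu, Or.inl ⟨by rw [h1.2], by rw [h1.1]⟩⟩

end Pool.Agent.H54R
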