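import Pool.Agent.Lib.H54R.EDefs

/-!
# E4A: the ear lemma
-/

set_option autoImplicit false

namespace Pool.Agent.H54R

open Filter Topology

theorem e4a_closed (p r : Pt) : IsClosed (segment ℝ p r) := by
  rw [segment_eq_image]
  exact (isCompact_Icc.image (by fun_prop)).isClosed

theorem e4a_near {p m : Pt} {K : Set Pt} (hK : IsClosed K) (h : ∀ x ∈ segment ℝ p m, x ∉ K) :
    ∀ᶠ z in 𝓝 m, ∀ x ∈ segment ℝ p z, x ∉ K := by
  have key : ∀ᶠ z in 𝓝 m, ∀ t ∈ Set.Icc (0 : ℝ) 1, (1 - t) • p + t • z ∈ Kᶜ := by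
    refine isCompact_Icc.eventually_forall_of_forall_eventually fun t ht => ?_
    have hc : Continuous fun y : Pt × ℝ => (1 - y.2) • p + y.2 • y.1 := by fun_prop
    have hm : (1 - t) • p + t • m ∈ Kᶜ := by
      refine h _ ?_
      rw [segment_eq_image]
      exact ⟨t, ht, rfl⟩
    exact (hc.tendsto (m, t)).eventually (hK.isOpen_compl.mem_nhds hm)
  filter_upwards [key] with z hz x hx
  rw [segment_eq_image] at hx
  obtain ⟨t, ht, rfl⟩ := hx
  exact hz t ht

/-- the points `(1 - t) a + t z`, `0 < t ≤ 1`, are not in `[c, d]` -/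
def e4aG (a z c d : Pt) : Prop :=
  ∀ x ∈ segment ℝ c d, ∀ t : ℝ, 0 < t → t ≤ 1 → x ≠ (1 - t) • a + t • z

theorem e4a_ray {a m v : Pt} (hv : v ≠ 0) (hm : ∀ r : ℝ, 0 ≤ r → m - a ≠ r • v) :
    ∀ᶠ z in 𝓝 m, ∀ r : ℝ, 0 ≤ r → z - a ≠ r • v := by
  have hcl : IsClosed ((fun r : ℝ => r • v) '' Set.Ici 0) :=
    (isClosedEmbedding_smul_left hv).isClosedMap _ isClosed_Ici
  have hc : Continuous fun z : Pt => z - a := by fun_prop
  have h2 := (hcl.preimage hc).isOpen_compl.mem_nhds (x := m) (by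
    rintro ⟨r, hr, h⟩
    exact hm r hr h.symm)
  filter_upwards [h2] with z hz r hr h
  exact hz ⟨r, hr, h.symm⟩

theorem e4a_ray_G {a z y : Pt} (h : ∀ r : ℝ, 0 ≤ r → z - a ≠ r • (y - a)) : e4aG a z a y := by
  intro x hx t ht _ hxe
  rw [segment_eq_image] at hx
  obtain ⟨s, hs, rfl⟩ := hx
  simp only at hxe
  refine h (s / t) (div_nonneg hs.1 ht.le) ?_
  have h1 : t • (z - a) = s • (y - a) := by
    have : (1 - s) • a + s • y - a = (1 - t) • a + t • z - a := by rw [hxe]
    have e1 : (1 - s) • a + s • y - a = s • (y - a) := by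
      rw [sub_smul, one_smul, smul_sub]; abel
    have e2 : (1 - t) • a + t • z - a = t • (z - a) := by
      rw [sub_smul, one_smul, smul_sub]; abel
    rw [← e1, ← e2, this]
  rw [div_eq_inv_mul, mul_smul, ← h1, smul_smul, inv_mul_cancel₀ ht.ne', one_smul]

theorem e4a_mid_mem (a b : Pt) : (1 / 2 : ℝ) • a + (1 / 2 : ℝ) • b ∈ segment ℝ a b :=
  ⟨1 / 2, 1 / 2, by norm_num, by norm_num, by norm_num, rfl⟩

/-- points of `[a, m]` are `a` or in the open segment `a b` -/
theorem e4a_half {a b x : Pt} (hx : x ∈ segment ℝ a ((1 / 2 : ℝ) • a + (1 / 2 : ℝ) • b)) :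
    x = a ∨ x ∈ openSegment ℝ a b := by
  rw [segment_eq_image] at hx
  obtain ⟨t, ht, rfl⟩ := hx
  rcases ht.1.eq_or_lt with h0 | h0
  · left
    simp [← h0]
  · right
    rw [openSegment_eq_image]
    refine ⟨t / 2, ⟨by linarith, by linarith [ht.2]⟩, ?_⟩
    ext <;> simp <;> ring

theorem e4a_ne_of_open {a b : Pt} (hab : a ≠ b) {x : Pt} (hx : x ∈ openSegment ℝ a b) : x ≠ b := by
  rintro rfl
  rw [openSegment_eq_image] at hx
  obtain ⟨t, ht, h⟩ := hx
  simp only at h
  apply hab
  have h1 : (1 - t) • (a - x) = 0 := by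
    have : (1 - t) • a + t • x - x = 0 := by rw [h]; simp
    rw [← this, smul_sub, sub_smul, sub_smul, one_smul, one_smul]; abel
  rcases smul_eq_zero.mp h1 with h2 | h2
  · linarith [ht.2]
  · exact sub_eq_zero.mp h2

/-- the one-sided statement for one edge `c d` -/
theorem e4a_side {W : Type} {q : W → Pt} {a b c d : W} (hab : q a ≠ q b) (hcd : q c ≠ q d)
    (hcdW : c ≠ d)
    (hs : s(c, d) ≠ s(a, b))
    (hX : ∀ x ∈ openSegment ℝ (q a) (q b), x ∉ openSegment ℝ (q c) (q d))
    (hva : a ≠ c → a ≠ d → q a ∉ segment ℝ (q c) (q d))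
    (hvb : b ≠ c → b ≠ d → q b ∉ segment ℝ (q c) (q d))
    (hc : c ≠ a → c ≠ b → q c ∉ segment ℝ (q a) (q b))
    (hd : d ≠ a → d ≠ b → q d ∉ segment ℝ (q a) (q b)) :
    ∀ᶠ z in 𝓝 ((1 / 2 : ℝ) • q a + (1 / 2 : ℝ) • q b), e4aG (q a) z (q c) (q d) := by
  have habW : a ≠ b := fun h => hab (by rw [h])
  -- the ray argument
  have ray : ∀ y : W, y ≠ a → y ≠ b → q y ≠ q a → (q b ∉ segment ℝ (q a) (q y)) →
      (q y ∉ segment ℝ (q a) (q b)) →
      ∀ᶠ z in 𝓝 ((1 / 2 : ℝ) • q a + (1 / 2 : ℝ) • q b), e4aG (q a) z (q a) (q y) := by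
    intro y _ _ hya h1 h2
    have := e4a_ray (a := q a) (m := (1 / 2 : ℝ) • q a + (1 / 2 : ℝ) • q b) (v := q y - q a)
      (sub_ne_zero.mpr hya) ?_
    · filter_upwards [this] with z hz
      exact e4a_ray_G hz
    · intro r hr h
      have h3 : q b - q a = (2 * r) • (q y - q a) := by
        rw [mul_smul, ← h, smul_sub, smul_add, smul_smul, smul_smul]
        norm_num
        rw [two_smul]; abel
      have hr0 : 0 < r := by
        rcases hr.eq_or_lt with h0 | h0
        · exfalso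
          rw [← h0] at h3
          simp only [mul_zero, zero_smul] at h3
          exact hab (sub_eq_zero.mp h3).symm
        · exact h0
      rcases le_or_gt (2 * r) 1 with h4 | h4
      · apply h1
        rw [segment_eq_image]
        refine ⟨2 * r, ⟨by linarith, h4⟩, ?_⟩
        have : q b = q a + (2 * r) • (q y - q a) := by rw [← h3]; abel
        simp only
        rw [this, sub_smul, one_smul, smul_sub]; abel
      · apply h2
        rw [segment_eq_image]
        refine ⟨(2 * r)⁻¹, ⟨by positivity, inv_le_one_of_one_le₀ h4.le⟩, ?_⟩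
        have h5 : (2 * r)⁻¹ • (q b - q a) = q y - q a := by
          rw [h3, smul_smul, inv_mul_cancel₀ (by positivity), one_smul]
        simp only
        have : q y = q a + (2 * r)⁻¹ • (q b - q a) := by rw [h5]; abel
        rw [this, sub_smul, one_smul, smul_sub]; abel
  by_cases ha1 : a = c
  · subst ha1
    have hdb : d ≠ b := by
      rintro rfl
      exact hs rfl
    exact ray d hcdW.symm hdb hcd.symm (hvb habW.symm hdb.symm) (hd hcdW.symm hdb)
  by_cases ha2 : a = d
  · subst ha2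
    have hcb : c ≠ b := by
      rintro rfl
      exact hs (Sym2.eq_swap)
    have := ray c hcdW hcb hcd (by rw [segment_symm]; exact hvb hcb.symm habW.symm)
      (hc hcdW hcb)
    filter_upwards [this] with z hz
    unfold e4aG at hz ⊢
    rwa [segment_symm]
  have h0 : ∀ x ∈ segment ℝ (q a) ((1 / 2 : ℝ) • q a + (1 / 2 : ℝ) • q b),
      x ∉ segment ℝ (q c) (q d) := by
    intro x hx hx2
    rcases e4a_half hx with rfl | hxo
    · exact hva ha1 ha2 hx2
    · have hxb : x ≠ q b := e4a_ne_of_open hab hxo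
      have hxs : x ∈ segment ℝ (q a) (q b) := openSegment_subset_segment _ _ _ hxo
      rw [← insert_endpoints_openSegment] at hx2
      rcases hx2 with rfl | rfl | hx2
      · exact hc (Ne.symm ha1) (fun h => hxb (by rw [h])) hxs
      · exact hd (Ne.symm ha2) (fun h => hxb (by rw [h])) hxs
      · exact hX x hxo hx2
  filter_upwards [e4a_near (e4a_closed (q c) (q d)) h0] with z hz x hx t ht ht1 hxe
  refine hz x ?_ hx
  rw [segment_eq_image]
  exact ⟨t, ⟨ht.le, ht1⟩, hxe.symm⟩

/-- `z` is not on the line `a b` -/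
def e4aOff (a b z : Pt) : Prop := ∀ r : ℝ, z - a ≠ r • (b - a)

theorem e4a_off_symm {a b z : Pt} (h : e4aOff a b z) : e4aOff b a z := by
  intro r hr
  apply h (1 - r)
  have : z = b + r • (a - b) := by rw [← hr]; abel
  rw [this, sub_smul, one_smul, smul_sub, smul_sub]; abel

theorem e4a_line_G {a b z : Pt} (h : e4aOff a b z) : e4aG a z a b :=
  e4a_ray_G fun r _ => h r

theorem e4a_G_symm {a z c d : Pt} (h : e4aG a z c d) : e4aG a z d c := by
  unfold e4aG at h ⊢
  rwa [segment_symm]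

theorem e4a_exists_off {a b : Pt} (hab : a ≠ b) {P : Pt → Prop}
    (h : ∀ᶠ z in 𝓝 ((1 / 2 : ℝ) • a + (1 / 2 : ℝ) • b), P z) : ∃ z, P z ∧ e4aOff a b z := by
  set n : Pt := (-(b.2 - a.2), b.1 - a.1) with hn
  have ht : Tendsto (fun ε : ℝ => (1 / 2 : ℝ) • a + (1 / 2 : ℝ) • b + ε • n) (𝓝[>] 0)
      (𝓝 ((1 / 2 : ℝ) • a + (1 / 2 : ℝ) • b)) := by
    have hc : Continuous fun ε : ℝ => (1 / 2 : ℝ) • a + (1 / 2 : ℝ) • b + ε • n := by fun_prop
    have := hc.tendsto 0
    simp only [zero_smul, add_zero] at this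
    exact this.mono_left nhdsWithin_le_nhds
  obtain ⟨ε, hP, hε⟩ := ((ht.eventually h).and self_mem_nhdsWithin).exists
  refine ⟨_, hP, fun r hr => ?_⟩
  have hε0 : 0 < ε := hε
  have h1 := congrArg Prod.fst hr
  have h2 := congrArg Prod.snd hr
  simp only [Prod.fst_sub, Prod.fst_add, Prod.smul_fst, smul_eq_mul, Prod.snd_sub, Prod.snd_add,
    Prod.smul_snd, hn] at h1 h2
  have h3 : ε * ((b.1 - a.1) ^ 2 + (b.2 - a.2) ^ 2) = 0 := by
    linear_combination (b.1 - a.1) * h2 - (b.2 - a.2) * h1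
  have h4 : (b.1 - a.1) ^ 2 + (b.2 - a.2) ^ 2 = 0 := by
    rcases mul_eq_zero.mp h3 with h | h
    · linarith
    · exact h
  apply hab
  have h5 : b.1 - a.1 = 0 := by nlinarith [sq_nonneg (b.1 - a.1), sq_nonneg (b.2 - a.2)]
  have h6 : b.2 - a.2 = 0 := by nlinarith [sq_nonneg (b.1 - a.1), sq_nonneg (b.2 - a.2)]
  ext <;> linarith

/-- One more vertex near the middle of an uncrossed edge. Let `a b` be a heavy edge of a core drawing and
`w` a new vertex. For all sufficiently small `ε > 0` the point `z = (q a + q b) / 2 + ε n`, `n` normal to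
the edge, works: it is on no other segment, the segments `q a z` and `z q b` do not meet the other
segments except in common ends (for an edge `a y` of the drawing compare directions at `q a`; all
other edges are disjoint from the compact set `[q a, q b]` or from one half of it), and no vertex is on
them. -/
theorem ear {W : Type} [DecidableEq W] {C : List (W × W) × List (W × W)} {q : W → Pt}
    (hC : NoLoop (C.1 ++ C.2)) (h : CoreDraw C q) {a b w : W} (hab : (a, b) ∈ C.2)
    (hw : w ∉ vset (C.1 ++ C.2)) :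
    ∃ z, CoreDraw (C.1, C.2 ++ [(a, w), (w, b)]) (Function.update q w z) := by
  have habE : (a, b) ∈ C.1 ++ C.2 := List.mem_append_right _ hab
  have haV : a ∈ vset (C.1 ++ C.2) := ⟨(a, b), habE, Or.inl rfl⟩
  have hbV : b ∈ vset (C.1 ++ C.2) := ⟨(a, b), habE, Or.inr rfl⟩
  have habW : a ≠ b := hC (a, b) habE
  have hqab : q a ≠ q b := fun e => habW (h.inj haV hbV e)
  have hV1 : ∀ e ∈ C.1 ++ C.2, e.1 ∈ vset (C.1 ++ C.2) := fun e he => ⟨e, he, Or.inl rfl⟩
  have hV2 : ∀ e ∈ C.1 ++ C.2, e.2 ∈ vset (C.1 ++ C.2) := fun e he => ⟨e, he, Or.inr rfl⟩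
  have havoid := h.avoid (a, b) habE
  have hun := h.un (a, b) hab
  -- the edges
  have ev1 : ∀ e ∈ C.1 ++ C.2, s(e.1, e.2) ≠ s(a, b) →
      ∀ᶠ z in 𝓝 ((1 / 2 : ℝ) • q a + (1 / 2 : ℝ) • q b),
        e4aG (q a) z (q e.1) (q e.2) ∧ e4aG (q b) z (q e.1) (q e.2) := by
    intro e he hs
    have hl : e.1 ≠ e.2 := hC e he
    have hqe : q e.1 ≠ q e.2 := fun x => hl (h.inj (hV1 e he) (hV2 e he) x)
    have hX : ∀ x ∈ openSegment ℝ (q a) (q b), x ∉ openSegment ℝ (q e.1) (q e.2) :=
      fun x hx hx2 => hun e he (Ne.symm hs) ⟨x, hx, hx2⟩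
    refine Filter.Eventually.and ?_ ?_
    · exact e4a_side hqab hqe hl hs hX (h.avoid e he a haV) (h.avoid e he b hbV)
        (havoid e.1 (hV1 e he)) (havoid e.2 (hV2 e he))
    · have := e4a_side (q := q) (a := b) (b := a) (c := e.1) (d := e.2) hqab.symm hqe hl
        (by rw [Sym2.eq_swap (a := b)]; exact hs)
        (by rw [openSegment_symm]; exact hX) (h.avoid e he b hbV) (h.avoid e he a haV)
        (by rw [segment_symm]; exact fun h1 h2 => havoid e.1 (hV1 e he) h2 h1)
        (by rw [segment_symm]; exact fun h1 h2 => havoid e.2 (hV2 e he) h2 h1)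
      rwa [add_comm] at this
  have ev1' : ∀ᶠ z in 𝓝 ((1 / 2 : ℝ) • q a + (1 / 2 : ℝ) • q b),
      ∀ e ∈ {e | e ∈ C.1 ++ C.2}, s(e.1, e.2) ≠ s(a, b) →
        e4aG (q a) z (q e.1) (q e.2) ∧ e4aG (q b) z (q e.1) (q e.2) := by
    rw [Filter.eventually_all_finite (List.finite_toSet _)]
    intro e he
    by_cases hs : s(e.1, e.2) = s(a, b)
    · exact Filter.Eventually.of_forall fun z hz => absurd hs hz
    · filter_upwards [ev1 e he hs] with z hz _
      exact hz
  -- the vertices
  have hsub1 : segment ℝ (q a) ((1 / 2 : ℝ) • q a + (1 / 2 : ℝ) • q b) ⊆ segment ℝ (q a) (q b) :=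
    (convex_segment _ _).segment_subset (left_mem_segment _ _ _) (e4a_mid_mem _ _)
  have hsub2 : segment ℝ (q b) ((1 / 2 : ℝ) • q a + (1 / 2 : ℝ) • q b) ⊆ segment ℝ (q a) (q b) :=
    (convex_segment _ _).segment_subset (right_mem_segment _ _ _) (e4a_mid_mem _ _)
  have ev2 : ∀ v ∈ vset (C.1 ++ C.2), v ≠ a → v ≠ b →
      ∀ᶠ z in 𝓝 ((1 / 2 : ℝ) • q a + (1 / 2 : ℝ) • q b),
        q v ∉ segment ℝ (q a) z ∧ q v ∉ segment ℝ (q b) z := by
    intro v hv hva hvb
    have h0 : q v ∉ segment ℝ (q a) (q b) := havoid v hv hva hvb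
    filter_upwards [e4a_near (p := q a) (K := {q v}) isClosed_singleton
      (fun x hx hx2 => h0 (by rw [← Set.mem_singleton_iff.mp hx2]; exact hsub1 hx)),
      e4a_near (p := q b) (K := {q v}) isClosed_singleton
      (fun x hx hx2 => h0 (by rw [← Set.mem_singleton_iff.mp hx2]; exact hsub2 hx))] with z h1 h2
    exact ⟨fun hx => h1 _ hx rfl, fun hx => h2 _ hx rfl⟩
  have hfin : (vset (C.1 ++ C.2)).Finite := by
    refine ((List.finite_toSet ((C.1 ++ C.2).map Prod.fst)).union
      (List.finite_toSet ((C.1 ++ C.2).map Prod.snd))).subset ?_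
    rintro v ⟨e, he, rfl | rfl⟩
    · exact Or.inl (List.mem_map_of_mem (f := Prod.fst) he)
    · exact Or.inr (List.mem_map_of_mem (f := Prod.snd) he)
  have ev2' : ∀ᶠ z in 𝓝 ((1 / 2 : ℝ) • q a + (1 / 2 : ℝ) • q b),
      ∀ v ∈ vset (C.1 ++ C.2), v ≠ a → v ≠ b →
        q v ∉ segment ℝ (q a) z ∧ q v ∉ segment ℝ (q b) z := by
    rw [Filter.eventually_all_finite hfin]
    intro v hv
    by_cases hva : v = a
    · exact Filter.Eventually.of_forall fun z hz => absurd hva hz
    by_cases hvb : v = b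
    · exact Filter.Eventually.of_forall fun z _ hz => absurd hvb hz
    filter_upwards [ev2 v hv hva hvb] with z hz _ _
    exact hz
  obtain ⟨z, ⟨z1, z2⟩, off⟩ := e4a_exists_off hqab (ev1'.and ev2')
  have off' := e4a_off_symm off
  -- all edges
  have GA : ∀ e ∈ C.1 ++ C.2, e4aG (q a) z (q e.1) (q e.2) ∧ e4aG (q b) z (q e.1) (q e.2) := by
    intro e he
    by_cases hs : s(e.1, e.2) = s(a, b)
    · rw [Sym2.eq_iff] at hs
      rcases hs with ⟨h1, h2⟩ | ⟨h1, h2⟩
      · rw [h1, h2]
        exact ⟨e4a_line_G off, e4a_G_symm (e4a_line_G off')⟩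
      · rw [h1, h2]
        exact ⟨e4a_G_symm (e4a_line_G off), e4a_line_G off'⟩
    · exact z1 e he hs
  have hz : ∀ e ∈ C.1 ++ C.2, z ∉ segment ℝ (q e.1) (q e.2) := fun e he hx =>
    (GA e he).1 z hx 1 one_pos le_rfl (by simp)
  have hzv : ∀ v ∈ vset (C.1 ++ C.2), q v ≠ z := by
    rintro v ⟨e, he, rfl | rfl⟩ hx
    · exact hz e he (hx ▸ left_mem_segment ℝ _ _)
    · exact hz e he (hx ▸ right_mem_segment ℝ _ _)
  have key : ∀ {c d : Pt}, c ≠ d → e4aOff c d z → d ∉ segment ℝ c z := by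
    intro c d hcd ho hx
    rw [segment_eq_image] at hx
    obtain ⟨t, ht, hx⟩ := hx
    simp only at hx
    have h1 : d - c = t • (z - c) := by
      rw [← hx, sub_smul, one_smul, smul_sub]; abel
    rcases ht.1.eq_or_lt with h0 | h0
    · rw [← h0, zero_smul] at h1
      exact hcd (sub_eq_zero.mp h1).symm
    · exact ho t⁻¹ (by rw [h1, smul_smul, inv_mul_cancel₀ h0.ne', one_smul])
  have zA : ∀ v ∈ vset (C.1 ++ C.2), v ≠ a → q v ∉ segment ℝ (q a) z := by
    intro v hv hva
    by_cases hvb : v = b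
    · rw [hvb]
      exact key hqab off
    · exact (z2 v hv hva hvb).1
  have zB : ∀ v ∈ vset (C.1 ++ C.2), v ≠ b → q v ∉ segment ℝ (q b) z := by
    intro v hv hvb
    by_cases hva : v = a
    · rw [hva]
      exact key hqab.symm off'
    · exact (z2 v hv hva hvb).2
  -- the two new edges do not cross
  have new : ¬ ∃ x, x ∈ openSegment ℝ (q a) z ∧ x ∈ openSegment ℝ (q b) z := by
    rintro ⟨x, hx1, hx2⟩
    rw [openSegment_eq_image] at hx1 hx2
    obtain ⟨t, ht, h1⟩ := hx1
    obtain ⟨r, hr, h2⟩ := hx2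
    simp only at h1 h2
    have h3 : (t - r) • (z - q a) = (1 - r) • (q b - q a) := by
      have : (1 - t) • q a + t • z - q a = (1 - r) • q b + r • z - q a := by rw [h1, h2]
      have e1 : (1 - t) • q a + t • z - q a = t • (z - q a) := by
        rw [sub_smul, one_smul, smul_sub]; abel
      have e2 : (1 - r) • q b + r • z - q a = (1 - r) • (q b - q a) + r • (z - q a) := by
        rw [smul_sub, smul_sub, sub_smul 1 r (q a), one_smul]; abel
      rw [e1, e2] at this
      rw [sub_smul, this]; abel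
    have hr1 : 0 < 1 - r := by linarith [hr.2]
    rcases eq_or_ne (t - r) 0 with h0 | h0
    · rw [h0, zero_smul] at h3
      rcases smul_eq_zero.mp h3.symm with h4 | h4
      · linarith
      · exact hqab (sub_eq_zero.mp h4).symm
    · exact off ((t - r)⁻¹ * (1 - r)) (by
        rw [mul_smul, ← h3, smul_smul, inv_mul_cancel₀ h0, one_smul])
  refine ⟨z, ?_⟩
  have hne : ∀ {v}, v ∈ vset (C.1 ++ C.2) → v ≠ w := fun hv e => hw (e ▸ hv)
  have hq : ∀ {v}, v ∈ vset (C.1 ++ C.2) → Function.update q w z v = q v :=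
    fun hv => Function.update_of_ne (hne hv) _ _
  have hqw : Function.update q w z w = z := Function.update_self _ _ _
  have hmem : ∀ e ∈ (C.1, C.2 ++ [(a, w), (w, b)]).1 ++ (C.1, C.2 ++ [(a, w), (w, b)]).2,
      e ∈ C.1 ++ C.2 ∨ e = (a, w) ∨ e = (w, b) := by
    intro e he
    simp only [List.mem_append, List.mem_cons, List.not_mem_nil, or_false] at he ⊢
    tauto
  have hvset : ∀ v ∈ vset ((C.1, C.2 ++ [(a, w), (w, b)]).1 ++ (C.1, C.2 ++ [(a, w), (w, b)]).2),
      v ∈ vset (C.1 ++ C.2) ∨ v = w := by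
    rintro v ⟨e, he, hv⟩
    rcases hmem e he with he | rfl | rfl
    · exact Or.inl ⟨e, he, hv⟩
    · rcases hv with rfl | rfl
      · exact Or.inl haV
      · exact Or.inr rfl
    · rcases hv with rfl | rfl
      · exact Or.inr rfl
      · exact Or.inl hbV
  have crossA : ∀ e ∈ C.1 ++ C.2, ¬ ∃ x, x ∈ openSegment ℝ (q e.1) (q e.2) ∧
      x ∈ openSegment ℝ (q a) z := by
    rintro e he ⟨x, hx1, hx2⟩
    rw [openSegment_eq_image] at hx2
    obtain ⟨t, ht, h1⟩ := hx2
    exact (GA e he).1 x (openSegment_subset_segment _ _ _ hx1) t ht.1 ht.2.le h1.symm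
  have crossB : ∀ e ∈ C.1 ++ C.2, ¬ ∃ x, x ∈ openSegment ℝ (q e.1) (q e.2) ∧
      x ∈ openSegment ℝ (q b) z := by
    rintro e he ⟨x, hx1, hx2⟩
    rw [openSegment_eq_image] at hx2
    obtain ⟨t, ht, h1⟩ := hx2
    exact (GA e he).2 x (openSegment_subset_segment _ _ _ hx1) t ht.1 ht.2.le h1.symm
  refine ⟨?_, ?_, ?_, ?_⟩
  · intro v hv v' hv' he
    rcases hvset v hv with h1 | rfl <;> rcases hvset v' hv' with h2 | rfl
    · rw [hq h1, hq h2] at he
      exact h.inj h1 h2 he
    · rw [hq h1, hqw] at he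
      exact absurd he (hzv v h1)
    · rw [hq h2, hqw] at he
      exact absurd he.symm (hzv v' h2)
    · rfl
  · intro e he v hv h1 h2
    rcases hmem e he with he1 | rfl | rfl
    · rw [hq (hV1 e he1), hq (hV2 e he1)]
      rcases hvset v hv with h3 | rfl
      · rw [hq h3]
        exact h.avoid e he1 v h3 h1 h2
      · rw [hqw]
        exact hz e he1
    · rcases hvset v hv with h3 | rfl
      · simp only
        rw [hq h3, hq haV, hqw]
        exact zA v h3 h1
      · exact absurd rfl h2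
    · rcases hvset v hv with h3 | rfl
      · simp only
        rw [hq h3, hq hbV, hqw, segment_symm]
        exact zB v h3 h2
      · exact absurd rfl h1
  · intro e he f hf hs hc
    have he' : e ∈ C.1 ++ C.2 := List.mem_append_left _ he
    have hf' : f ∈ C.1 ++ C.2 := List.mem_append_left _ hf
    rw [hq (hV1 e he'), hq (hV2 e he'), hq (hV1 f hf'), hq (hV2 f hf')] at hc ⊢
    exact h.cross e he f hf hs hc
  · intro e he f hf hs
    have he' : e ∈ C.2 ∨ e = (a, w) ∨ e = (w, b) := by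
      simp only [List.mem_append, List.mem_cons, List.not_mem_nil, or_false] at he
      exact he
    rcases he' with he' | rfl | rfl
    · have he2 : e ∈ C.1 ++ C.2 := List.mem_append_right _ he'
      rw [hq (hV1 e he2), hq (hV2 e he2)]
      rcases hmem f hf with hf | rfl | rfl
      · rw [hq (hV1 f hf), hq (hV2 f hf)]
        exact h.un e he' f hf hs
      · simp only
        rw [hq haV, hqw]
        exact crossA e he2
      · simp only
        rw [hq hbV, hqw]
        unfold Cross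
        rw [openSegment_symm ℝ z]
        exact crossB e he2
    · simp only
      rw [hq haV, hqw]
      rcases hmem f hf with hf | rfl | rfl
      · rw [hq (hV1 f hf), hq (hV2 f hf)]
        rintro ⟨x, h1, h2⟩
        exact crossA f hf ⟨x, h2, h1⟩
      · exact absurd rfl hs
      · simp only
        rw [hq hbV, hqw]
        unfold Cross
        rw [openSegment_symm ℝ z]
        exact new
    · simp only
      rw [hq hbV, hqw]
      rcases hmem f hf with hf | rfl | rfl
      · rw [hq (hV1 f hf), hq (hV2 f hf)]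
        unfold Cross
        rw [openSegment_symm ℝ z]
        rintro ⟨x, h1, h2⟩
        exact crossB f hf ⟨x, h2, h1⟩
      · simp only
        rw [hq haV, hqw]
        unfold Cross
        rw [openSegment_symm ℝ z]
        rintro ⟨x, h1, h2⟩
        exact new ⟨x, h2, h1⟩
      · exact absurd rfl hs

end Pool.Agent.H54R
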