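import Pool.Agent.Lib.H54R.EDefs
import Pool.Agent.Lib.H54R.E4A

/-!
# E4: a core drawing gives a drawing of the expanded graph
-/

set_option autoImplicit false

namespace Pool.Agent.H54R

theorem e4_vset_mono {W : Type} {E E' : List (W × W)} (h : ∀ e ∈ E', e ∈ E) : vset E' ⊆ vset E := by
  rintro v ⟨e, he, hv⟩
  exact ⟨e, h e he, hv⟩

/-- removing edges -/
theorem CoreDraw.mono {W : Type} {C C' : List (W × W) × List (W × W)} {q : W → Pt}
    (h : CoreDraw C q) (h1 : ∀ e ∈ C'.1, e ∈ C.1) (h2 : ∀ e ∈ C'.2, e ∈ C.2) :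
    CoreDraw C' q := by
  have h3 : ∀ e ∈ C'.1 ++ C'.2, e ∈ C.1 ++ C.2 := by
    intro e he
    rcases List.mem_append.mp he with he | he
    · exact List.mem_append_left _ (h1 e he)
    · exact List.mem_append_right _ (h2 e he)
  exact ⟨h.inj.mono (e4_vset_mono h3), fun e he v hv => h.avoid e (h3 e he) v (e4_vset_mono h3 hv),
    fun e he f hf => h.cross e (h1 e he) f (h1 f hf), fun e he f hf => h.un e (h2 e he) f (h3 f hf)⟩

/-- a core drawing is an apRAC-drawing of the graph of all edges -/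
theorem CoreDraw.elDraw {W : Type} {C : List (W × W) × List (W × W)} {q : W → Pt}
    (h : CoreDraw C q) : ElDraw (C.1 ++ C.2) q := by
  refine ⟨h.inj, h.avoid, fun e he f hf hs hc => ?_⟩
  rcases List.mem_append.mp he with he1 | he2
  · rcases List.mem_append.mp hf with hf1 | hf2
    · exact h.cross e he1 f hf1 hs hc
    · obtain ⟨z, hz1, hz2⟩ := hc
      exact absurd ⟨z, hz2, hz1⟩ (h.un f hf2 e he (Ne.symm hs))
  · exact absurd hc (h.un e he2 f hf hs)

theorem e4_ears {W : Type} [DecidableEq W] (L : List (W × W × W)) :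
    ∀ (C : List (W × W) × List (W × W)) (q : W → Pt), NoLoop (C.1 ++ C.2) → CoreDraw C q →
      (∀ t ∈ L, (t.1, t.2.1) ∈ C.2) → (∀ t ∈ L, t.2.2 ∉ vset (C.1 ++ C.2)) →
      (L.map fun t => t.2.2).Nodup →
      ∃ q' : W → Pt, CoreDraw (C.1, C.2 ++ L.flatMap fun t => [(t.1, t.2.2), (t.2.2, t.2.1)]) q' := by
  induction L with
  | nil =>
    intro C q _ h _ _ _
    exact ⟨q, by simpa using h⟩
  | cons t L ih =>
    intro C q hC h hab hw hnd
    obtain ⟨a, b, w⟩ := t
    have hab0 : (a, b) ∈ C.2 := hab _ List.mem_cons_self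
    have hw0 : w ∉ vset (C.1 ++ C.2) := hw _ List.mem_cons_self
    have habE : (a, b) ∈ C.1 ++ C.2 := List.mem_append_right _ hab0
    have haV : a ∈ vset (C.1 ++ C.2) := ⟨(a, b), habE, Or.inl rfl⟩
    have hbV : b ∈ vset (C.1 ++ C.2) := ⟨(a, b), habE, Or.inr rfl⟩
    obtain ⟨z, hz⟩ := ear hC h hab0 hw0
    have hmem : ∀ e ∈ C.1 ++ (C.2 ++ [(a, w), (w, b)]),
        e ∈ C.1 ++ C.2 ∨ e = (a, w) ∨ e = (w, b) := by
      intro e he
      simp only [List.mem_append, List.mem_cons, List.not_mem_nil, or_false] at he ⊢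
      tauto
    rw [List.map_cons, List.nodup_cons] at hnd
    have h1 : NoLoop ((C.1, C.2 ++ [(a, w), (w, b)]).1 ++ (C.1, C.2 ++ [(a, w), (w, b)]).2) := by
      intro e he
      rcases hmem e he with h1 | rfl | rfl
      · exact hC e h1
      · intro (h4 : a = w)
        exact hw0 (h4 ▸ haV)
      · intro (h4 : w = b)
        exact hw0 (h4 ▸ hbV)
    have h2 : ∀ t ∈ L, (t.1, t.2.1) ∈ (C.1, C.2 ++ [(a, w), (w, b)]).2 := by
      intro t ht
      exact List.mem_append_left _ (hab t (List.mem_cons_of_mem _ ht))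
    have h3 : ∀ t ∈ L, t.2.2 ∉
        vset ((C.1, C.2 ++ [(a, w), (w, b)]).1 ++ (C.1, C.2 ++ [(a, w), (w, b)]).2) := by
      rintro t ht ⟨e, he, hv⟩
      have h1 := hw t (List.mem_cons_of_mem _ ht)
      have h2 : t.2.2 ≠ w := fun e => hnd.1 (e ▸ List.mem_map_of_mem (f := fun t => t.2.2) ht)
      rcases hmem e he with h3 | rfl | rfl
      · exact h1 ⟨e, h3, hv⟩
      · rcases hv with hv | hv
        · exact h1 (hv ▸ haV)
        · exact h2 hv
      · rcases hv with hv | hv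
        · exact h2 hv
        · exact h1 (hv ▸ hbV)
    obtain ⟨q', hq'⟩ := ih (C.1, C.2 ++ [(a, w), (w, b)]) _ h1 hz h2 h3 hnd.2
    refine ⟨q', ?_⟩
    rw [List.flatMap_cons, ← List.append_assoc]
    exact hq'

/-- Add the `9 * C.2.length` middle vertices one after the other with `ear`, starting with the core
graph on `XV V`, then remove the heavy edges (`CoreDraw.mono`). -/
theorem expand_of_core {V : Type} [DecidableEq V] {C : List (V × V) × List (V × V)}
    (hC : NoLoop (C.1 ++ C.2)) {p : V → Pt} (h : CoreDraw C p) :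
    ∃ q : XV V → Pt, ElDraw (expand C) q := by
  let i : V × V → XV V × XV V := fun e => (Sum.inl e.1, Sum.inl e.2)
  let C0 : List (XV V × XV V) × List (XV V × XV V) := (C.1.map i, C.2.map i)
  have hmem : ∀ e ∈ C0.1 ++ C0.2, ∃ f ∈ C.1 ++ C.2, e = i f := by
    intro e he
    rw [← List.map_append] at he
    obtain ⟨f, hf, rfl⟩ := List.mem_map.mp he
    exact ⟨f, hf, rfl⟩
  have hv : ∀ v ∈ vset (C0.1 ++ C0.2), ∃ u ∈ vset (C.1 ++ C.2), v = Sum.inl u := by
    rintro v ⟨e, he, hv⟩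
    obtain ⟨f, hf, rfl⟩ := hmem e he
    rcases hv with hv | hv
    · exact ⟨f.1, ⟨f, hf, Or.inl rfl⟩, hv⟩
    · exact ⟨f.2, ⟨f, hf, Or.inr rfl⟩, hv⟩
  have hs : ∀ {e f : V × V}, s((i e).1, (i e).2) ≠ s((i f).1, (i f).2) → s(e.1, e.2) ≠ s(f.1, f.2) := by
    intro e f h1 h2
    exact h1 (congrArg (Sym2.map (Sum.inl : V → XV V)) h2)
  have h0 : CoreDraw C0 (Sum.elim p fun _ => 0) := by
    refine ⟨?_, ?_, ?_, ?_⟩
    · intro v hv1 w hw1 he
      obtain ⟨u, hu, rfl⟩ := hv v hv1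
      obtain ⟨u', hu', rfl⟩ := hv w hw1
      rw [h.inj hu hu' he]
    · intro e he v hv1 h1 h2
      obtain ⟨u, hu, rfl⟩ := hv v hv1
      obtain ⟨f, hf, rfl⟩ := hmem e he
      exact h.avoid f hf u hu (fun e => h1 (by rw [e])) (fun e => h2 (by rw [e]))
    · intro e he f hf h1 h2
      obtain ⟨e', he', rfl⟩ := List.mem_map.mp he
      obtain ⟨f', hf', rfl⟩ := List.mem_map.mp hf
      exact h.cross e' he' f' hf' (hs h1) h2
    · intro e he f hf h1 h2
      obtain ⟨e', he', rfl⟩ := List.mem_map.mp he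
      obtain ⟨f', hf', rfl⟩ := hmem f hf
      exact h.un e' he' f' hf' (hs h1) h2
  have hn : NoLoop (C0.1 ++ C0.2) := by
    intro e he h1
    obtain ⟨f, hf, rfl⟩ := hmem e he
    exact hC f hf (Sum.inl_injective h1)
  let L : List (XV V × XV V × XV V) := C.2.zipIdx.flatMap fun h => (List.range 9).map fun c =>
    (Sum.inl h.1.1, Sum.inl h.1.2, Sum.inr (h.2, c))
  have hL : ∀ t ∈ L, ∃ x ∈ C.2.zipIdx, ∃ c ∈ List.range 9,
      t = (Sum.inl x.1.1, Sum.inl x.1.2, Sum.inr (x.2, c)) := by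
    intro t ht
    obtain ⟨x, hx, ht⟩ := List.mem_flatMap.mp ht
    obtain ⟨c, hc, rfl⟩ := List.mem_map.mp ht
    exact ⟨x, hx, c, hc, rfl⟩
  have a1 : ∀ t ∈ L, (t.1, t.2.1) ∈ C0.2 := by
    intro t ht
    obtain ⟨x, hx, c, hc, rfl⟩ := hL t ht
    refine List.mem_map.mpr ⟨x.1, ?_, rfl⟩
    exact List.fst_mem_of_mem_zipIdx hx
  have a2 : ∀ t ∈ L, t.2.2 ∉ vset (C0.1 ++ C0.2) := by
    rintro t ht h1
    obtain ⟨x, hx, c, hc, rfl⟩ := hL t ht
    obtain ⟨u, _, h2⟩ := hv _ h1
    simp at h2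
  have a3 : (L.map fun t => t.2.2).Nodup := by
    have h1 : (L.map fun t => t.2.2) = (C.2.zipIdx.map Prod.snd).flatMap fun k =>
        (List.range 9).map fun c => (Sum.inr (k, c) : XV V) := by
      simp only [L, List.map_flatMap, List.flatMap_map, List.map_map]
      rfl
    rw [h1, List.nodup_flatMap]
    refine ⟨fun k _ => List.Nodup.map (fun c d h => ?_) List.nodup_range, ?_⟩
    · simpa using h
    · have h2 : (C.2.zipIdx.map Prod.snd).Nodup := by
        simp [List.nodup_range']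
      refine List.Pairwise.imp ?_ h2
      intro k l hkl
      simp only [Function.onFun]
      intro v h3 h4
      obtain ⟨c, _, rfl⟩ := List.mem_map.mp h3
      obtain ⟨d, _, h5⟩ := List.mem_map.mp h4
      simp only [Sum.inr.injEq, Prod.mk.injEq] at h5
      exact hkl h5.1.symm
  obtain ⟨q, hq⟩ := e4_ears L C0 _ hn h0 a1 a2 a3
  refine ⟨q, ?_⟩
  let D : List (XV V × XV V) := C.2.zipIdx.flatMap fun h => (List.range 9).flatMap fun c =>
      [(Sum.inl h.1.1, Sum.inr (h.2, c)), (Sum.inr (h.2, c), Sum.inl h.1.2)]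
  have a4 : ∀ e ∈ D, e ∈ C0.2 ++ L.flatMap fun t => [(t.1, t.2.2), (t.2.2, t.2.1)] := by
    intro e he
    apply List.mem_append_right
    obtain ⟨x, hx, he⟩ := List.mem_flatMap.mp he
    obtain ⟨c, hc, he⟩ := List.mem_flatMap.mp he
    exact List.mem_flatMap.mpr ⟨_, List.mem_flatMap.mpr ⟨x, hx, List.mem_map_of_mem hc⟩, he⟩
  exact (hq.mono (C' := (C0.1, D)) (fun e he => he) a4).elDraw

theorem expand_noLoop {V : Type} {C : List (V × V) × List (V × V)} (hC : NoLoop C.1) :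
    NoLoop (expand C) := by
  intro e he
  rcases List.mem_append.mp he with he | he
  · obtain ⟨f, hf, rfl⟩ := List.mem_map.mp he
    intro h
    exact hC f hf (Sum.inl_injective h)
  · obtain ⟨x, hx, he⟩ := List.mem_flatMap.mp he
    obtain ⟨c, hc, he⟩ := List.mem_flatMap.mp he
    simp only [List.mem_cons, List.not_mem_nil, or_false] at he
    rcases he with rfl | rfl <;> simp

end Pool.Agent.H54R
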