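import Pool.Agent.Lib.H54R.Graph
import Pool.Agent.Lib.PolyTime.Subsets
import Pool.Agent.Lib.PolyTime.More
import Pool.Agent.Lib.PolyTime.Eq

/-!
# Edge lists, heavy edges

`ElDraw E p`: an apRAC-drawing of the graph with the list of edges `E`. `toGr E`: this graph as a
graph on `0, ..., n - 1`. `expand (light, heavy)`: every heavy edge is replaced by nine paths of
length two. `CoreDraw`: straight-line drawing of the core graph with uncrossed heavy edges.
-/

set_option autoImplicit false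

namespace Pool.Agent.H54R

open Pool.Agent.PolyTime

/-- the ends of the edges -/
def vset {W : Type} (E : List (W × W)) : Set W := {v | ∃ e ∈ E, v = e.1 ∨ v = e.2}

/-- An apRAC-drawing of the graph with edge list `E`. -/
structure ElDraw {W : Type} (E : List (W × W)) (p : W → Pt) : Prop where
  inj : Set.InjOn p (vset E)
  avoid : ∀ e ∈ E, ∀ v ∈ vset E, v ≠ e.1 → v ≠ e.2 → p v ∉ segment ℝ (p e.1) (p e.2)
  cross : ∀ e ∈ E, ∀ f ∈ E, s(e.1, e.2) ≠ s(f.1, f.2) → Cross (p e.1) (p e.2) (p f.1) (p f.2) →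
    (Hor (p e.1) (p e.2) ∧ Ver (p f.1) (p f.2)) ∨ (Ver (p e.1) (p e.2) ∧ Hor (p f.1) (p f.2))

/-- no loops -/
def NoLoop {W : Type} (E : List (W × W)) : Prop := ∀ e ∈ E, e.1 ≠ e.2

/-- the list without repetitions -/
def ddup {W : Type} [DecidableEq W] (l : List W) : List W :=
  l.foldl (fun acc x => if x ∈ acc then acc else x :: acc) []

/-- the vertices of an edge list -/
def verts {W : Type} [DecidableEq W] (E : List (W × W)) : List W :=
  ddup (E.flatMap fun e => [e.1, e.2])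

/-- adjacency in the graph with edge list `E` -/
def adjE {W : Type} [DecidableEq W] (E : List (W × W)) (a b : W) : Bool :=
  decide (a ≠ b) && (decide ((a, b) ∈ E) || decide ((b, a) ∈ E))

/-- the graph with edge list `E`, on the vertices `0, ..., n - 1` -/
def toGr {W : Type} [DecidableEq W] (E : List (W × W)) : Gr where
  n := (verts E).length
  adj i j := adjE E ((verts E).get i) ((verts E).get j)
  symm i j := by
    unfold adjE
    rw [Bool.or_comm]
    congr 1
    simp [ne_comm]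
  irrefl i := by simp [adjE]

/-- the vertices of the expanded graph: core vertices and middle vertices -/
abbrev XV (V : Type) : Type := V ⊕ (ℕ × ℕ)

/-- every heavy edge is replaced by nine paths of length two -/
def expand {V : Type} (C : List (V × V) × List (V × V)) : List (XV V × XV V) :=
  (C.1.map fun e => (Sum.inl e.1, Sum.inl e.2)) ++
    C.2.zipIdx.flatMap fun h => (List.range 9).flatMap fun c =>
      [(Sum.inl h.1.1, Sum.inr (h.2, c)), (Sum.inr (h.2, c), Sum.inl h.1.2)]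

/-- A straight-line drawing of the core graph: heavy edges are uncrossed, light edges cross only
horizontally and vertically. -/
structure CoreDraw {V : Type} (C : List (V × V) × List (V × V)) (p : V → Pt) : Prop where
  inj : Set.InjOn p (vset (C.1 ++ C.2))
  avoid : ∀ e ∈ C.1 ++ C.2, ∀ v ∈ vset (C.1 ++ C.2), v ≠ e.1 → v ≠ e.2 →
    p v ∉ segment ℝ (p e.1) (p e.2)
  cross : ∀ e ∈ C.1, ∀ f ∈ C.1, s(e.1, e.2) ≠ s(f.1, f.2) →
    Cross (p e.1) (p e.2) (p f.1) (p f.2) →
    (Hor (p e.1) (p e.2) ∧ Ver (p f.1) (p f.2)) ∨ (Ver (p e.1) (p e.2) ∧ Hor (p f.1) (p f.2))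
  un : ∀ e ∈ C.2, ∀ f ∈ C.1 ++ C.2, s(e.1, e.2) ≠ s(f.1, f.2) →
    ¬ Cross (p e.1) (p e.2) (p f.1) (p f.2)

/-- A drawing of the core graph in which every heavy edge `a b` is drawn as an uncrossed path
`p a`, `m a b`, `p b`. -/
structure Semi {V : Type} (C : List (V × V) × List (V × V)) extends PD where
  p : V → Pt
  m : V → V → Pt
  pP : ∀ {v}, v ∈ vset (C.1 ++ C.2) → p v ∈ P
  pinj : ∀ {v w}, v ∈ vset (C.1 ++ C.2) → w ∈ vset (C.1 ++ C.2) → p v = p w → v = w
  mP : ∀ {a b}, ((a, b) ∈ C.2 ∨ (b, a) ∈ C.2) → m a b ∈ P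
  mp : ∀ {a b v}, ((a, b) ∈ C.2 ∨ (b, a) ∈ C.2) → v ∈ vset (C.1 ++ C.2) → m a b ≠ p v
  minj : ∀ {a b c d}, ((a, b) ∈ C.2 ∨ (b, a) ∈ C.2) → ((c, d) ∈ C.2 ∨ (d, c) ∈ C.2) →
    m a b = m c d → s(a, b) = s(c, d)
  Lt_of : ∀ {a b}, ((a, b) ∈ C.1 ∨ (b, a) ∈ C.1) → Lt (p a) (p b)
  U1 : ∀ {a b}, ((a, b) ∈ C.2 ∨ (b, a) ∈ C.2) → U (p a) (m a b)
  U2 : ∀ {a b}, ((a, b) ∈ C.2 ∨ (b, a) ∈ C.2) → U (m a b) (p b)

/-! ### encodings -/

/-- code of a vertex: tag and three numbers -/
def Vx.code : Vx → ℕ × ℕ × ℕ × ℕ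
  | .L k => (0, k, 0, 0)
  | .R k => (1, k, 0, 0)
  | .B k => (2, k, 0, 0)
  | .T k => (3, k, 0, 0)
  | .hub i => (4, i, 0, 0)
  | .blk b c => (5, b.1, b.2, c)

theorem Vx.code_inj {a b : Vx} (h : a.code = b.code) : a = b := by
  cases a <;> cases b <;> simp_all [Vx.code, Prod.ext_iff]

instance : Enc Vx := ⟨fun v => enc v.code⟩

/-- the core graph of a ring system -/
def coreG (S : RS) : List (Vx × Vx) × List (Vx × Vx) := (S.light, S.heavy)

/-- the graph of a ring system -/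
def graphOf (S : RS) : Gr := toGr (expand (coreG S))

end Pool.Agent.H54R
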