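import Pool.Agent.Lib.H54R.Graph
import Pool.Agent.Lib.H54R.C1
import Pool.Agent.Lib.H54R.C2
import Pool.Agent.Lib.H54R.C5

/-!
# FL1: edges and complete lines at the lower links
-/

set_option autoImplicit false

namespace Pool.Agent.H54R

namespace RS

variable {S : RS}

theorem fl1_mod1 (i : ℕ) : (4 * i + 1) % 4 = 1 ∧ (4 * i + 1) / 4 = i := by omega

theorem fl1_mod3 (i : ℕ) : (4 * i + 3) % 4 = 3 ∧ (4 * i + 3) / 4 = i := by omega

theorem fl1_bci1 (S : RS) (i : ℕ) : S.bci (4 * i + 1) = S.cL i := by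
  rw [bci, (fl1_mod1 i).1, (fl1_mod1 i).2, if_pos rfl]

theorem fl1_bci3 (S : RS) (i : ℕ) : S.bci (4 * i + 3) = S.cR i := by
  rw [bci, (fl1_mod3 i).1, (fl1_mod3 i).2, if_neg (by decide), if_pos rfl]

theorem fl1_bri1 (S : RS) (i : ℕ) : S.bri (4 * i + 1) = S.rB i := by
  rw [bri, (fl1_mod1 i).1, (fl1_mod1 i).2, if_pos rfl]

theorem fl1_bri3 (S : RS) (i : ℕ) : S.bri (4 * i + 3) = S.rT i := by
  rw [bri, (fl1_mod3 i).1, (fl1_mod3 i).2, if_neg (by decide), if_pos rfl]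

theorem bci_left1 {l : ℕ} (hl : l < 2 * S.K) : S.bci (4 * l + 1) = [((3, l), 0)] := by
  rw [fl1_bci1, cL, if_pos hl]

theorem bci_left3 {l : ℕ} (hl : l < 2 * S.K) :
    S.bci (4 * l + 3) = [((2, l), 1), ((3, l), 4)] := by
  rw [fl1_bci3, cR, if_pos hl]

theorem bri_loA1 (h : S.WF) {l : ℕ} (hl : l < 2 * S.K) :
    S.bri (4 * S.low (S.loA l) + 1) = [((2, l), 0)] := by
  rw [fl1_bri1, rB, role_low h (loA_lt h hl)]
  simp [hatL_loA h hl, lkL_loA]

theorem bri_loA3 (h : S.WF) {l : ℕ} (hl : l < 2 * S.K) :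
    S.bri (4 * S.low (S.loA l) + 3) = [((2, l), 4), ((0, S.loA l), 2)] := by
  rw [fl1_bri3, rT, role_low h (loA_lt h hl)]
  simp [hatL_loA h hl, lkL_loA]

theorem bri_loB1 (h : S.WF) {l : ℕ} (hl : l < 2 * S.K) :
    S.bri (4 * S.low (S.loB l) + 1) = [((3, l), 1), ((0, S.loB l), 0)] := by
  rw [fl1_bri1, rB, role_low h (loB_lt h hl)]
  simp [hatL_loB h hl, lkL_loB]

theorem bri_loB3 (h : S.WF) {l : ℕ} (hl : l < 2 * S.K) :
    S.bri (4 * S.low (S.loB l) + 3) = [((3, l), 0), ((0, S.loB l), 2)] := by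
  rw [fl1_bri3, rT, role_low h (loB_lt h hl)]
  simp [hatL_loB h hl, lkL_loB]

/-- light edges in the row lane of the read `loA l` -/
theorem li_loA (h : S.WF) {l : ℕ} (hl : l < 2 * S.K) :
    S.li (.L (4 * S.low (S.loA l) + 1)) (.blk (2, l) 0) ∧
    S.li (.blk (2, l) 0) (.R (4 * S.low (S.loA l) + 1)) ∧
    S.li (.blk (2, l) 2) (.blk (0, S.loA l) 0) ∧
    S.li (.blk (0, S.loA l) 0) (.R (4 * S.low (S.loA l) + 2)) ∧
    S.li (.blk (2, l) 5) (.blk (0, S.loA l) 1) ∧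
    S.li (.blk (2, l) 4) (.blk (0, S.loA l) 2) := by
  have hi := low_lt h (loA_lt h hl)
  have hr := role_low h (loA_lt h hl)
  have hh := hatL_loA h hl
  have hk := lkL_loA S l
  refine ⟨?_, ?_, ?_, ?_, ?_, ?_⟩ <;>
  · refine li_row hi (e := (_, _)) ?_
    simp [liRow, rB, rT, rC, rW, hr, hh, hk, bx, edg]

/-- light edges in the row lane of the read `loB l` -/
theorem li_loB (h : S.WF) {l : ℕ} (hl : l < 2 * S.K) :
    S.li (.blk (3, l) 2) (.blk (3, l) 3) ∧ S.li (.blk (3, l) 3) (.blk (0, S.loB l) 1) := by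
  have hi := low_lt h (loB_lt h hl)
  have hr := role_low h (loB_lt h hl)
  have hh := hatL_loB h hl
  have hk := lkL_loB S l
  refine ⟨?_, ?_⟩ <;>
  · refine li_row hi (e := (_, _)) ?_
    simp [liRow, rB, rT, rC, rW, hr, hh, hk, bx, edg]

/-- light edges in the left link lane `l` -/
theorem li_left (h : S.WF) {l : ℕ} (hl : l < 2 * S.K) :
    S.li (.B (4 * l + 2)) (.blk (2, l) 0) ∧ S.li (.blk (2, l) 0) (.blk (3, l) 2) ∧
    S.li (.blk (2, l) 2) (.blk (2, l) 3) ∧ S.li (.blk (2, l) 3) (.blk (3, l) 5) ∧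
    S.li (.B (4 * l + 1)) (.blk (3, l) 0) ∧ S.li (.blk (2, l) 1) (.blk (3, l) 4) := by
  have hj : l < S.NN := by
    have := h.pos
    unfold NN
    omega
  refine ⟨?_, ?_, ?_, ?_, ?_, ?_⟩ <;>
  · refine li_col hj (e := (_, _)) ?_
    simp [liCol, cL, cR, cC, cf, hl, bx, edg]

end RS

end Pool.Agent.H54R
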