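import Pool.Agent.Lib.H54R.Graph
import Pool.Agent.Lib.H54R.C1
import Pool.Agent.Lib.H54R.C2
import Pool.Agent.Lib.H54R.C5

/-!
# FL3: edges and complete lines in the lanes of the reads
-/

set_option autoImplicit false

namespace Pool.Agent.H54R

namespace RS

variable {S : RS}

/-- the first read of its kind in its lane -/
def First (S : RS) (ρ : ℕ) : Prop := ∀ τ < ρ, ¬ (S.kd τ = S.kd ρ ∧ S.lane τ = S.lane ρ)

theorem fl3_lane (h : S.WF) {ρ : ℕ} (hρ : ρ < S.R) :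
    ¬ S.lane ρ < 2 * S.K ∧ ¬ S.rlane 0 ≤ S.lane ρ :=
  ⟨not_lt.2 (lane_ge h hρ), not_le.2 (lane_lt h hρ)⟩

theorem fl3_bci1 (h : S.WF) {ρ : ℕ} (hρ : ρ < S.R) : S.bci (4 * S.lane ρ + 1) =
    ((S.rd 4 (S.lane ρ)).map fun ρ => ((0, ρ), 0)) ++
    ((S.rd 0 (S.lane ρ)).flatMap fun ρ => [((0, ρ), 0), ((1, ρ), 0)]) ++
    ((S.rd 1 (S.lane ρ)).flatMap fun ρ => [((0, ρ), 0), ((1, ρ), 0)]) ++
    (((S.rd 3 (S.lane ρ)).take 1).flatMap fun ρ => [((0, ρ), 0), ((1, ρ), 0)]) ++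
    ((S.rd 2 (S.lane ρ)).map fun ρ => ((1, ρ), 0)) := by
  have e1 : (4 * S.lane ρ + 1) % 4 = 1 := by omega
  have e2 : (4 * S.lane ρ + 1) / 4 = S.lane ρ := by omega
  rw [bci, e1, e2, if_pos rfl, cL, if_neg (fl3_lane h hρ).1, if_neg (fl3_lane h hρ).2]

theorem fl3_bci3 (h : S.WF) {ρ : ℕ} (hρ : ρ < S.R) : S.bci (4 * S.lane ρ + 3) =
    ((S.rd 0 (S.lane ρ)).flatMap fun ρ => [((0, ρ), 2), ((1, ρ), 2)]) ++
    ((S.rd 1 (S.lane ρ)).map fun ρ => ((0, ρ), 2)) ++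
    ((S.rd 2 (S.lane ρ)).flatMap fun ρ => [((0, ρ), 2), ((1, ρ), 2)]) ++
    (((S.rd 4 (S.lane ρ)).take 1).flatMap fun ρ => [((0, ρ), 2), ((1, ρ), 2)]) ++
    ((S.rd 3 (S.lane ρ)).reverse.map fun ρ => ((1, ρ), 2)) := by
  have e1 : (4 * S.lane ρ + 3) % 4 = 3 := by omega
  have e2 : (4 * S.lane ρ + 3) / 4 = S.lane ρ := by omega
  rw [bci, e1, e2, if_neg (by decide), if_pos rfl, cR, if_neg (fl3_lane h hρ).1,
    if_neg (fl3_lane h hρ).2]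

/-- the head of the list of reads is the first read -/
theorem fl3_take {k j ρ : ℕ} : ρ ∈ (S.rd k j).take 1 ↔
    ρ < S.R ∧ S.kd ρ = k ∧ S.lane ρ = j ∧ S.First ρ := by
  have hs := rd_sorted S k j
  constructor
  · intro hm
    cases hl : S.rd k j with
    | nil => simp [hl] at hm
    | cons a t =>
      rw [hl] at hm hs
      simp only [List.take_succ_cons, List.take_zero, List.mem_singleton] at hm
      subst hm
      have hmem : ρ ∈ S.rd k j := by rw [hl]; exact List.mem_cons_self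
      obtain ⟨h1, h2, h3⟩ := mem_rd.1 hmem
      refine ⟨h1, h2, h3, fun τ hτ hc => ?_⟩
      have hτm : τ ∈ S.rd k j := mem_rd.2 ⟨hτ.trans h1, hc.1.trans h2, hc.2.trans h3⟩
      rw [hl, List.mem_cons] at hτm
      rcases hτm with rfl | hτm
      · exact lt_irrefl _ hτ
      · exact lt_asymm hτ (List.rel_of_pairwise_cons hs hτm)
  · rintro ⟨h1, h2, h3, h4⟩
    have := take_one h1 h4
    rw [h2, h3] at this
    rw [this]
    exact List.mem_singleton_self _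

theorem mem_bci1_low (h : S.WF) {ρ c : ℕ} (hρ : ρ < S.R) :
    ((0, ρ), c) ∈ S.bci (4 * S.lane ρ + 1) ↔ c = 0 ∧ (S.kd ρ = 0 ∨ S.kd ρ = 1 ∨ S.kd ρ = 4 ∨
      (S.kd ρ = 3 ∧ S.First ρ)) := by
  rw [fl3_bci1 h hρ]
  simp only [List.mem_append, List.mem_map, List.mem_flatMap, List.mem_cons, List.not_mem_nil,
    or_false, Prod.mk.injEq, mem_rd, fl3_take]
  constructor
  · rintro ((((⟨a, ha, h1⟩ | ⟨a, ha, h1⟩) | ⟨a, ha, h1⟩) | ⟨a, ha, h1⟩) | ⟨a, ha, h1⟩) <;> grind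
  · grind

theorem mem_bci1_up (h : S.WF) {ρ c : ℕ} (hρ : ρ < S.R) :
    ((1, ρ), c) ∈ S.bci (4 * S.lane ρ + 1) ↔ c = 0 ∧ (S.kd ρ = 0 ∨ S.kd ρ = 1 ∨ S.kd ρ = 2 ∨
      (S.kd ρ = 3 ∧ S.First ρ)) := by
  rw [fl3_bci1 h hρ]
  simp only [List.mem_append, List.mem_map, List.mem_flatMap, List.mem_cons, List.not_mem_nil,
    or_false, Prod.mk.injEq, mem_rd, fl3_take]
  constructor
  · rintro ((((⟨a, ha, h1⟩ | ⟨a, ha, h1⟩) | ⟨a, ha, h1⟩) | ⟨a, ha, h1⟩) | ⟨a, ha, h1⟩) <;> grind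
  · grind

theorem mem_bci3_low (h : S.WF) {ρ c : ℕ} (hρ : ρ < S.R) :
    ((0, ρ), c) ∈ S.bci (4 * S.lane ρ + 3) ↔ c = 2 ∧ (S.kd ρ = 0 ∨ S.kd ρ = 1 ∨ S.kd ρ = 2 ∨
      (S.kd ρ = 4 ∧ S.First ρ)) := by
  rw [fl3_bci3 h hρ]
  simp only [List.mem_append, List.mem_map, List.mem_flatMap, List.mem_cons, List.not_mem_nil,
    or_false, Prod.mk.injEq, mem_rd, fl3_take, List.mem_reverse]
  constructor
  · rintro ((((⟨a, ha, h1⟩ | ⟨a, ha, h1⟩) | ⟨a, ha, h1⟩) | ⟨a, ha, h1⟩) | ⟨a, ha, h1⟩) <;> grind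
  · grind

theorem mem_bci3_up (h : S.WF) {ρ c : ℕ} (hρ : ρ < S.R) :
    ((1, ρ), c) ∈ S.bci (4 * S.lane ρ + 3) ↔ c = 2 ∧ (S.kd ρ = 0 ∨ S.kd ρ = 2 ∨ S.kd ρ = 3 ∨
      (S.kd ρ = 4 ∧ S.First ρ)) := by
  rw [fl3_bci3 h hρ]
  simp only [List.mem_append, List.mem_map, List.mem_flatMap, List.mem_cons, List.not_mem_nil,
    or_false, Prod.mk.injEq, mem_rd, fl3_take, List.mem_reverse]
  constructor
  · rintro ((((⟨a, ha, h1⟩ | ⟨a, ha, h1⟩) | ⟨a, ha, h1⟩) | ⟨a, ha, h1⟩) | ⟨a, ha, h1⟩) <;> grind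
  · grind

/-- vertices on the variable line -/
theorem mem_cX (h : S.WF) {ρ c g : ℕ} (hρ : ρ < S.R) :
    Vx.blk (g, ρ) c ∈ S.cX (S.lane ρ) ↔ (g = 1 ∧ c = 2 ∧ S.kd ρ = 1) ∨
      (g = 1 ∧ c = 0 ∧ S.kd ρ = 4) ∨ (g = 0 ∧ c = 0 ∧ S.kd ρ = 2) ∨
      (g = 0 ∧ c = 2 ∧ S.kd ρ = 3) := by
  simp only [cX, List.mem_append, List.mem_map, Vx.blk.injEq, Prod.mk.injEq, mem_rd,
    List.mem_reverse]
  constructor
  · rintro (((⟨a, ha, h1⟩ | ⟨a, ha, h1⟩) | ⟨a, ha, h1⟩) | ⟨a, ha, h1⟩) <;> grind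
  · grind

theorem fl3_up_in {ρ : ℕ} (hk : S.kd ρ = 1 ∨ S.kd ρ = 4) : S.upr ρ = 2 * S.R - 1 - ρ := by
  have : S.outer ρ = false := by
    rcases hk with hk | hk <;> simp [outer, hk]
  simp [upr, this]

theorem fl3_low_out {ρ : ℕ} (hk : S.kd ρ = 2 ∨ S.kd ρ = 3) : S.low ρ = 2 * S.R + ρ := by
  have : S.outer ρ = true := by
    rcases hk with hk | hk <;> simp [outer, hk]
  simp [low, this]

theorem fl3_up_out {ρ : ℕ} (hk : S.kd ρ = 2 ∨ S.kd ρ = 3) : S.upr ρ = 4 * S.R - 1 - ρ := by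
  have : S.outer ρ = true := by
    rcases hk with hk | hk <;> simp [outer, hk]
  simp [upr, this]

theorem fl3_low_in {ρ : ℕ} (hk : S.kd ρ = 1 ∨ S.kd ρ = 4) : S.low ρ = ρ := by
  have : S.outer ρ = false := by
    rcases hk with hk | hk <;> simp [outer, hk]
  simp [low, this]

/-- two reads of kind one in the same lane are equal -/
theorem fl3_uniq (h : S.WF) {a b j : ℕ} (ha : a ∈ S.rd 1 j) (hb : b ∈ S.rd 1 j) : a = b := by
  obtain ⟨ha1, ha2, ha3⟩ := mem_rd.1 ha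
  obtain ⟨hb1, hb2, hb3⟩ := mem_rd.1 hb
  obtain ⟨oa, la, la'⟩ := op_div h ha1 (Or.inl ha2)
  obtain ⟨ob, lb, lb'⟩ := op_div h hb1 (Or.inl hb2)
  rw [ha3] at oa la la'
  rw [hb3] at ob
  obtain ⟨ρ, -, hu⟩ := h.divE (j - 6 * S.K) (by omega)
  rw [hu a ⟨ha1, kd_even (Or.inl ha2), oa⟩, hu b ⟨hb1, kd_even (Or.inl hb2), ob⟩]

/-- the members of the variable line are vertices of blocks in increasing row lanes -/
theorem cX_sorted (h : S.WF) (j : ℕ) : ∃ l : List ((ℕ × ℕ) × ℕ), S.cX j = bx l ∧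
    (l.Pairwise fun v w => S.brow v.1 < S.brow w.1) ∧ ∀ v ∈ l, S.binB v.1 v.2 := by
  refine ⟨((S.rd 1 j).map fun ρ => ((1, ρ), 2)) ++ ((S.rd 4 j).reverse.map fun ρ => ((1, ρ), 0)) ++
    ((S.rd 2 j).map fun ρ => ((0, ρ), 0)) ++ ((S.rd 3 j).map fun ρ => ((0, ρ), 2)), ?_, ?_, ?_⟩
  · simp [cX, bx, List.map_map, Function.comp_def]
  · have hb1 : ∀ ρ c : ℕ, S.brow ((1, ρ), c).1 = S.upr ρ := fun ρ c => by simp [brow]
    have hb0 : ∀ ρ c : ℕ, S.brow ((0, ρ), c).1 = S.low ρ := fun ρ c => by simp [brow]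
    have p1 : (((S.rd 1 j).map fun ρ => (((1, ρ), 2) : (ℕ × ℕ) × ℕ))).Pairwise
        fun v w => S.brow v.1 < S.brow w.1 := by
      rw [List.pairwise_map]
      refine (rd_sorted S 1 j).imp_of_mem fun {a b} ha hb hab => ?_
      exact absurd (fl3_uniq h ha hb) hab.ne
    have p4 : (((S.rd 4 j).reverse.map fun ρ => (((1, ρ), 0) : (ℕ × ℕ) × ℕ))).Pairwise
        fun v w => S.brow v.1 < S.brow w.1 := by
      rw [List.pairwise_map, List.pairwise_reverse]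
      refine (rd_sorted S 4 j).imp_of_mem fun {a b} ha hb hab => ?_
      obtain ⟨ha1, ha2, -⟩ := mem_rd.1 ha
      obtain ⟨hb1', hb2, -⟩ := mem_rd.1 hb
      rw [hb1, hb1, fl3_up_in (Or.inr ha2), fl3_up_in (Or.inr hb2)]
      omega
    have p2 : (((S.rd 2 j).map fun ρ => (((0, ρ), 0) : (ℕ × ℕ) × ℕ))).Pairwise
        fun v w => S.brow v.1 < S.brow w.1 := by
      rw [List.pairwise_map]
      refine (rd_sorted S 2 j).imp_of_mem fun {a b} ha hb hab => ?_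
      obtain ⟨ha1, ha2, -⟩ := mem_rd.1 ha
      obtain ⟨hb1', hb2, -⟩ := mem_rd.1 hb
      rw [hb0, hb0, fl3_low_out (Or.inl ha2), fl3_low_out (Or.inl hb2)]
      omega
    have p3 : (((S.rd 3 j).map fun ρ => (((0, ρ), 2) : (ℕ × ℕ) × ℕ))).Pairwise
        fun v w => S.brow v.1 < S.brow w.1 := by
      rw [List.pairwise_map]
      refine (rd_sorted S 3 j).imp_of_mem fun {a b} ha hb hab => ?_
      obtain ⟨ha1, ha2, -⟩ := mem_rd.1 ha
      obtain ⟨hb1', hb2, -⟩ := mem_rd.1 hb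
      rw [hb0, hb0, fl3_low_out (Or.inr ha2), fl3_low_out (Or.inr hb2)]
      omega
    rw [List.pairwise_append, List.pairwise_append, List.pairwise_append]
    refine ⟨⟨⟨p1, p4, ?_⟩, p2, ?_⟩, p3, ?_⟩
    · intro v hv w hw
      rw [List.mem_map] at hv hw
      obtain ⟨a, ha, rfl⟩ := hv
      obtain ⟨b, hb, rfl⟩ := hw
      rw [List.mem_reverse] at hb
      obtain ⟨ha1, ha2, ha3⟩ := mem_rd.1 ha
      obtain ⟨hb1', hb2, hb3⟩ := mem_rd.1 hb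
      have h1 := (op_div h ha1 (Or.inl ha2)).2.2
      have h2 := (op_mul h hb1' (Or.inr hb2)).2.1
      omega
    · intro v hv w hw
      rw [List.mem_append, List.mem_map, List.mem_map] at hv
      rw [List.mem_map] at hw
      obtain ⟨b, hb, rfl⟩ := hw
      obtain ⟨hb1', hb2, hb3⟩ := mem_rd.1 hb
      rcases hv with ⟨a, ha, rfl⟩ | ⟨a, ha, rfl⟩
      · obtain ⟨ha1, ha2, ha3⟩ := mem_rd.1 ha
        rw [hb1, hb0, fl3_up_in (Or.inl ha2), fl3_low_out (Or.inl hb2)]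
        omega
      · rw [List.mem_reverse] at ha
        obtain ⟨ha1, ha2, ha3⟩ := mem_rd.1 ha
        rw [hb1, hb0, fl3_up_in (Or.inr ha2), fl3_low_out (Or.inl hb2)]
        omega
    · intro v hv w hw
      rw [List.mem_append, List.mem_append, List.mem_map, List.mem_map, List.mem_map] at hv
      rw [List.mem_map] at hw
      obtain ⟨b, hb, rfl⟩ := hw
      obtain ⟨hb1', hb2, hb3⟩ := mem_rd.1 hb
      rcases hv with (⟨a, ha, rfl⟩ | ⟨a, ha, rfl⟩) | ⟨a, ha, rfl⟩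
      · obtain ⟨ha1, ha2, ha3⟩ := mem_rd.1 ha
        rw [hb1, hb0, fl3_up_in (Or.inl ha2), fl3_low_out (Or.inr hb2)]
        omega
      · rw [List.mem_reverse] at ha
        obtain ⟨ha1, ha2, ha3⟩ := mem_rd.1 ha
        rw [hb1, hb0, fl3_up_in (Or.inr ha2), fl3_low_out (Or.inr hb2)]
        omega
      · obtain ⟨ha1, ha2, ha3⟩ := mem_rd.1 ha
        have h1 := (op_div h ha1 (Or.inr ha2)).2.2
        have h2 := (op_mul h hb1' (Or.inl hb2)).2.1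
        omega
  · intro v hv
    simp only [List.mem_append, List.mem_map, List.mem_reverse] at hv
    rcases hv with ((⟨a, ha, rfl⟩ | ⟨a, ha, rfl⟩) | ⟨a, ha, rfl⟩) | ⟨a, ha, rfl⟩ <;>
    · exact Or.inl ⟨by norm_num, (mem_rd.1 ha).1, by norm_num⟩

theorem cX_ne_nil (h : S.WF) {ρ : ℕ} (hρ : ρ < S.R) (hk : S.kd ρ ≠ 0) :
    S.cX (S.lane ρ) ≠ [] := by
  have hk4 := kd_le S ρ
  have hc : S.kd ρ = 1 ∨ S.kd ρ = 2 ∨ S.kd ρ = 3 ∨ S.kd ρ = 4 := by omega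
  rcases hc with hc | hc | hc | hc
  · exact List.ne_nil_of_mem ((mem_cX h hρ (g := 1) (c := 2)).2 (Or.inl ⟨rfl, rfl, hc⟩))
  · exact List.ne_nil_of_mem ((mem_cX h hρ (g := 0) (c := 0)).2
      (Or.inr (Or.inr (Or.inl ⟨rfl, rfl, hc⟩))))
  · exact List.ne_nil_of_mem ((mem_cX h hρ (g := 0) (c := 2)).2
      (Or.inr (Or.inr (Or.inr ⟨rfl, rfl, hc⟩))))
  · exact List.ne_nil_of_mem ((mem_cX h hρ (g := 1) (c := 0)).2 (Or.inr (Or.inl ⟨rfl, rfl, hc⟩)))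

/-- edges of the variable line -/
theorem li_cX (h : S.WF) {ρ : ℕ} (hρ : ρ < S.R) :
    ∀ e ∈ edg (S.cX (S.lane ρ)), S.li e.1 e.2 := by
  intro e he
  have hj : S.lane ρ < S.NN := by
    have h1 := lane_lt h hρ
    unfold rlane at h1
    unfold NN
    omega
  refine li_col hj ?_
  unfold liCol
  exact List.mem_append_right _ he

/-- the line `k` of a read -/
theorem li_ck (h : S.WF) {ρ : ℕ} (hρ : ρ < S.R) : ∀ e ∈ edg (S.ck ρ), S.li e.1 e.2 := by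
  intro e he
  refine li_rd hρ ?_
  unfold liRd
  exact List.mem_append_left _ he

theorem fl3_nxt (S : RS) (ρ : ℕ) : S.nxt ρ = [] ∨ ∃ σ, S.nxt ρ = [σ] := by
  have := nxt_length S ρ
  cases hl : S.nxt ρ with
  | nil => exact Or.inl rfl
  | cons a t =>
    right
    rw [hl, List.length_cons] at this
    have ht : t = [] := List.length_eq_zero_iff.1 (by omega)
    exact ⟨a, by rw [ht]⟩

theorem ck_sorted (h : S.WF) {ρ : ℕ} (hρ : ρ < S.R) : ∃ l : List ((ℕ × ℕ) × ℕ),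
    S.ck ρ = bx l ∧ (l.Pairwise fun v w => S.brow v.1 < S.brow w.1) ∧
      ∀ v ∈ l, S.binB v.1 v.2 := by
  have hb1 : ∀ ρ : ℕ, S.brow (1, ρ) = S.upr ρ := fun ρ => by simp [brow]
  have hb0 : ∀ ρ : ℕ, S.brow (0, ρ) = S.low ρ := fun ρ => by simp [brow]
  have hlu := low_lt_upr h hρ
  have base : (∃ l : List ((ℕ × ℕ) × ℕ),
      [Vx.blk (0, ρ) 1, Vx.blk (1, ρ) 1] = bx l ∧
        (l.Pairwise fun v w => S.brow v.1 < S.brow w.1) ∧ ∀ v ∈ l, S.binB v.1 v.2) := by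
    refine ⟨[((0, ρ), 1), ((1, ρ), 1)], rfl, ?_, ?_⟩
    · simp [hb0, hb1, hlu]
    · intro v hv
      simp only [List.mem_cons, List.not_mem_nil, or_false] at hv
      rcases hv with rfl | rfl <;>
      · exact Or.inl ⟨by norm_num, hρ, by norm_num⟩
  have step : ∀ σ c : ℕ, c < 3 → σ < S.R → S.low ρ < S.low σ → S.upr σ < S.upr ρ →
      (∃ l : List ((ℕ × ℕ) × ℕ),
      [Vx.blk (0, ρ) 1, Vx.blk (0, σ) c, Vx.blk (1, σ) c, Vx.blk (1, ρ) 1] = bx l ∧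
        (l.Pairwise fun v w => S.brow v.1 < S.brow w.1) ∧ ∀ v ∈ l, S.binB v.1 v.2) := by
    intro σ c hc hσ h1 h2
    have h3 := low_lt_upr h hσ
    refine ⟨[((0, ρ), 1), ((0, σ), c), ((1, σ), c), ((1, ρ), 1)], rfl, ?_, ?_⟩
    · simp only [List.pairwise_cons, List.mem_cons, List.not_mem_nil, or_false, forall_eq_or_imp,
        forall_eq, hb0, hb1, List.Pairwise.nil, and_true, IsEmpty.forall_iff, implies_true]
      refine ⟨⟨h1, ?_, hlu⟩, ⟨h3, ?_⟩, h2⟩ <;> omega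
    · intro v hv
      simp only [List.mem_cons, List.not_mem_nil, or_false] at hv
      rcases hv with rfl | rfl | rfl | rfl
      · exact Or.inl ⟨by norm_num, hρ, by norm_num⟩
      · exact Or.inl ⟨by norm_num, hσ, hc⟩
      · exact Or.inl ⟨by norm_num, hσ, hc⟩
      · exact Or.inl ⟨by norm_num, hρ, by norm_num⟩
  by_cases h3 : S.kd ρ = 3
  · rcases fl3_nxt S ρ with hn | ⟨σ, hn⟩
    · have : S.ck ρ = [Vx.blk (0, ρ) 1, Vx.blk (1, ρ) 1] := by simp [ck, h3, hn]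
      rw [this]
      exact base
    · have : S.ck ρ = [Vx.blk (0, ρ) 1, Vx.blk (0, σ) 0, Vx.blk (1, σ) 0, Vx.blk (1, ρ) 1] := by
        simp [ck, h3, hn]
      rw [this]
      obtain ⟨⟨g1, g2, g3, g4⟩, -⟩ := mem_nxt.1 (show σ ∈ S.nxt ρ by rw [hn]; simp)
      rw [h3] at g2
      refine step σ 0 (by norm_num) g1 ?_ ?_
      · rw [fl3_low_out (Or.inr h3), fl3_low_out (Or.inr g2)]
        omega
      · rw [fl3_up_out (Or.inr h3), fl3_up_out (Or.inr g2)]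
        omega
  · by_cases h4 : S.kd ρ = 4
    · rcases fl3_nxt S ρ with hn | ⟨σ, hn⟩
      · have : S.ck ρ = [Vx.blk (0, ρ) 1, Vx.blk (1, ρ) 1] := by simp [ck, h4, hn]
        rw [this]
        exact base
      · have : S.ck ρ = [Vx.blk (0, ρ) 1, Vx.blk (0, σ) 2, Vx.blk (1, σ) 2, Vx.blk (1, ρ) 1] := by
          simp [ck, h4, hn]
        rw [this]
        obtain ⟨⟨g1, g2, g3, g4⟩, -⟩ := mem_nxt.1 (show σ ∈ S.nxt ρ by rw [hn]; simp)
        rw [h4] at g2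
        refine step σ 2 (by norm_num) g1 ?_ ?_
        · rw [fl3_low_in (Or.inr h4), fl3_low_in (Or.inr g2)]
          omega
        · rw [fl3_up_in (Or.inr h4), fl3_up_in (Or.inr g2)]
          omega
    · have : S.ck ρ = [Vx.blk (0, ρ) 1, Vx.blk (1, ρ) 1] := by simp [ck, h3, h4]
      rw [this]
      exact base

theorem mem_ck_self (S : RS) (ρ : ℕ) : Vx.blk (0, ρ) 1 ∈ S.ck ρ ∧ Vx.blk (1, ρ) 1 ∈ S.ck ρ := by
  constructor <;> simp [ck]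

theorem mem_ck_three {ρ σ : ℕ} (hk : S.kd ρ = 3) (hσ : σ ∈ S.nxt ρ) :
    Vx.blk (0, σ) 0 ∈ S.ck ρ ∧ Vx.blk (1, σ) 0 ∈ S.ck ρ := by
  constructor <;> simp [ck, hk, hσ]

theorem mem_ck_four {ρ σ : ℕ} (hk : S.kd ρ = 4) (hσ : σ ∈ S.nxt ρ) :
    Vx.blk (0, σ) 2 ∈ S.ck ρ ∧ Vx.blk (1, σ) 2 ∈ S.ck ρ := by
  constructor <;> simp [ck, hk, hσ]

end RS

end Pool.Agent.H54R
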