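import Pool.Agent.Lib.H54R.SDefs

/-!
# S0: plane symmetries and the exchange of rows and columns
-/

set_option autoImplicit false

namespace Pool.Agent.H54R

/-- linear maps of the plane which preserve or exchange horizontal and vertical segments -/
def GoodMap (φ : Pt ≃ₗ[ℝ] Pt) : Prop :=
  (∀ a b, (Hor (φ a) (φ b) ↔ Hor a b) ∧ (Ver (φ a) (φ b) ↔ Ver a b)) ∨
    ∀ a b, (Hor (φ a) (φ b) ↔ Ver a b) ∧ (Ver (φ a) (φ b) ↔ Hor a b)

theorem s0_open (φ : Pt ≃ₗ[ℝ] Pt) (a b c : Pt) :
    φ a ∈ openSegment ℝ (φ b) (φ c) ↔ a ∈ openSegment ℝ b c := by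
  constructor
  · rintro ⟨s, t, hs, ht, hst, h⟩
    refine ⟨s, t, hs, ht, hst, ?_⟩
    apply φ.injective
    rw [← h, map_add, map_smul, map_smul]
  · rintro ⟨s, t, hs, ht, hst, h⟩
    refine ⟨s, t, hs, ht, hst, ?_⟩
    rw [← h, map_add, map_smul, map_smul]

theorem cross_map (φ : Pt ≃ₗ[ℝ] Pt) (a b c d : Pt) :
    Cross (φ a) (φ b) (φ c) (φ d) ↔ Cross a b c d := by
  constructor
  · rintro ⟨z, h1, h2⟩
    have hz : z = φ (φ.symm z) := by simp
    rw [hz] at h1 h2
    exact ⟨φ.symm z, (s0_open φ _ _ _).1 h1, (s0_open φ _ _ _).1 h2⟩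
  · rintro ⟨z, h1, h2⟩
    exact ⟨φ z, (s0_open φ _ _ _).2 h1, (s0_open φ _ _ _).2 h2⟩

theorem mem_segment_map (φ : Pt ≃ₗ[ℝ] Pt) (a b c : Pt) :
    φ a ∈ segment ℝ (φ b) (φ c) ↔ a ∈ segment ℝ b c := by
  constructor
  · rintro ⟨s, t, hs, ht, hst, h⟩
    refine ⟨s, t, hs, ht, hst, ?_⟩
    apply φ.injective
    rw [← h, map_add, map_smul, map_smul]
  · rintro ⟨s, t, hs, ht, hst, h⟩
    refine ⟨s, t, hs, ht, hst, ?_⟩
    rw [← h, map_add, map_smul, map_smul]

theorem s0_good_symm {φ : Pt ≃ₗ[ℝ] Pt} (hφ : GoodMap φ) :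
    (∀ a b, (Hor a b ↔ Hor (φ.symm a) (φ.symm b)) ∧ (Ver a b ↔ Ver (φ.symm a) (φ.symm b))) ∨
    ∀ a b, (Hor a b ↔ Ver (φ.symm a) (φ.symm b)) ∧ (Ver a b ↔ Hor (φ.symm a) (φ.symm b)) := by
  rcases hφ with h | h
  · left
    intro a b
    have := h (φ.symm a) (φ.symm b)
    simpa using this
  · right
    intro a b
    have := h (φ.symm a) (φ.symm b)
    simpa using this

theorem s0_cross_symm (φ : Pt ≃ₗ[ℝ] Pt) {a b c d : Pt} (h : Cross a b c d) :
    Cross (φ.symm a) (φ.symm b) (φ.symm c) (φ.symm d) := by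
  rw [← cross_map φ]
  simpa using h

theorem s0_sym2 (φ : Pt ≃ₗ[ℝ] Pt) {a b c d : Pt} (h : s(a, b) ≠ s(c, d)) :
    s(φ.symm a, φ.symm b) ≠ s(φ.symm c, φ.symm d) := by
  intro h2
  apply h
  have h3 := congrArg (Sym2.map φ) h2
  simpa using h3

/-- the image of a plane drawing -/
def PD.map (D : PD) (φ : Pt ≃ₗ[ℝ] Pt) (hφ : GoodMap φ) : PD where
  P := {x | φ.symm x ∈ D.P}
  Lt x y := D.Lt (φ.symm x) (φ.symm y)
  U x y := D.U (φ.symm x) (φ.symm y)
  Lsymm := by intro x y h; exact D.Lsymm h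
  Usymm := by intro x y h; exact D.Usymm h
  LP := by
    intro x y h
    obtain ⟨h1, h2, h3⟩ := D.LP h
    exact ⟨h1, h2, fun e => h3 (by rw [e])⟩
  UP := by
    intro x y h
    obtain ⟨h1, h2, h3⟩ := D.UP h
    exact ⟨h1, h2, fun e => h3 (by rw [e])⟩
  nv := by
    intro x y z h hz hx hy hs
    refine D.nv h hz (fun e => hx (φ.symm.injective e)) (fun e => hy (φ.symm.injective e)) ?_
    rw [← mem_segment_map φ]
    simpa using hs
  cross := by
    intro x y z w h1 h2 hne hc
    have := D.cross h1 h2 (s0_sym2 φ hne) (s0_cross_symm φ hc)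
    rcases s0_good_symm hφ with hg | hg
    · rcases this with ⟨h3, h4⟩ | ⟨h3, h4⟩
      · exact Or.inl ⟨(hg _ _).1.2 h3, (hg _ _).2.2 h4⟩
      · exact Or.inr ⟨(hg _ _).2.2 h3, (hg _ _).1.2 h4⟩
    · rcases this with ⟨h3, h4⟩ | ⟨h3, h4⟩
      · exact Or.inr ⟨(hg _ _).2.2 h3, (hg _ _).1.2 h4⟩
      · exact Or.inl ⟨(hg _ _).1.2 h3, (hg _ _).2.2 h4⟩
  un := by
    intro x y z w h1 h2 hne hc
    exact D.un h1 h2 (s0_sym2 φ hne) (s0_cross_symm φ hc)

/-- the image of a drawing of a network -/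
def ND.map {N : Net} (D : ND N) (φ : Pt ≃ₗ[ℝ] Pt) (hφ : GoodMap φ) : ND N where
  toPD := D.toPD.map φ hφ
  p v := φ (D.p v)
  m a b := φ (D.m a b)
  pP := by
    intro v hv
    change φ.symm (φ (D.p v)) ∈ D.P
    rw [LinearEquiv.symm_apply_apply]
    exact D.pP hv
  pinj := by
    intro v w hv hw h
    exact D.pinj hv hw (φ.injective h)
  mP := by
    intro a b ha hb h
    change φ.symm (φ (D.m a b)) ∈ D.P
    rw [LinearEquiv.symm_apply_apply]
    exact D.mP ha hb h
  mp := by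
    intro a b v ha hb h hv e
    exact D.mp ha hb h hv (φ.injective e)
  minj := by
    intro a b c d ha hb hc hd h1 h2 e
    exact D.minj ha hb hc hd h1 h2 (φ.injective e)
  Lt_of := by
    intro a b ha hb h
    change D.Lt (φ.symm (φ (D.p a))) (φ.symm (φ (D.p b)))
    rw [LinearEquiv.symm_apply_apply, LinearEquiv.symm_apply_apply]
    exact D.Lt_of ha hb h
  U1 := by
    intro a b ha hb h
    change D.U (φ.symm (φ (D.p a))) (φ.symm (φ (D.m a b)))
    rw [LinearEquiv.symm_apply_apply, LinearEquiv.symm_apply_apply]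
    exact D.U1 ha hb h
  U2 := by
    intro a b ha hb h
    change D.U (φ.symm (φ (D.m a b))) (φ.symm (φ (D.p b)))
    rw [LinearEquiv.symm_apply_apply, LinearEquiv.symm_apply_apply]
    exact D.U2 ha hb h

/-- exchange of the coordinates -/
def swapE : Pt ≃ₗ[ℝ] Pt := LinearEquiv.prodComm ℝ ℝ ℝ

theorem good_swap : GoodMap swapE := by
  right
  intro a b
  exact ⟨Iff.rfl, Iff.rfl⟩

/-- reflection in the vertical axis -/
def negX : Pt ≃ₗ[ℝ] Pt := (LinearEquiv.neg ℝ).prodCongr (LinearEquiv.refl ℝ ℝ)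

theorem good_negX : GoodMap negX := by
  left
  intro a b
  refine ⟨Iff.rfl, ?_⟩
  change -a.1 = -b.1 ↔ a.1 = b.1
  exact neg_inj

/-- reflection in the horizontal axis -/
def negY : Pt ≃ₗ[ℝ] Pt := (LinearEquiv.refl ℝ ℝ).prodCongr (LinearEquiv.neg ℝ)

theorem good_negY : GoodMap negY := by
  left
  intro a b
  refine ⟨?_, Iff.rfl⟩
  change -a.2 = -b.2 ↔ a.2 = b.2
  exact neg_inj

/-- rotation by 180 degrees -/
def rotE : Pt ≃ₗ[ℝ] Pt := LinearEquiv.neg ℝ

theorem good_rot : GoodMap rotE := by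
  left
  intro a b
  constructor
  · change -a.2 = -b.2 ↔ a.2 = b.2
    exact neg_inj
  · change -a.1 = -b.1 ↔ a.1 = b.1
    exact neg_inj

/-- the map `(x, y) ↦ (1 - y, x)` without translation: `(x, y) ↦ (-y, x)` -/
def quarter : Pt ≃ₗ[ℝ] Pt := swapE.trans negX

theorem good_quarter : GoodMap quarter := by
  right
  intro a b
  constructor
  · exact Iff.rfl
  · change -a.2 = -b.2 ↔ a.2 = b.2
    exact neg_inj

@[simp] theorem swapE_apply (a : Pt) : swapE a = (a.2, a.1) := rfl
@[simp] theorem negX_apply (a : Pt) : negX a = (-a.1, a.2) := rfl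
@[simp] theorem negY_apply (a : Pt) : negY a = (a.1, -a.2) := rfl
@[simp] theorem rotE_apply (a : Pt) : rotE a = (-a.1, -a.2) := rfl
@[simp] theorem quarter_apply (a : Pt) : quarter a = (-a.2, a.1) := rfl

@[simp] theorem Vx.tr_tr (v : Vx) : v.tr.tr = v := by
  cases v with
  | hub i =>
    simp only [Vx.tr]
    congr 1
    by_cases h0 : i = 0
    · subst h0; simp
    · by_cases h3 : i = 3
      · subst h3; simp
      · by_cases h1 : i = 1
        · subst h1; simp
        · by_cases h2 : i = 2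
          · subst h2; simp
          · simp [h0, h1, h2, h3]
  | _ => rfl

theorem s0_tr_inj {v w : Vx} (h : v.tr = w.tr) : v = w := by
  have := congrArg Vx.tr h
  simpa using this

theorem s0_edg_map {α β : Type} (f : α → β) (l : List α) :
    edg (l.map f) = (edg l).map fun e => (f e.1, f e.2) := by
  unfold edg
  rw [← List.map_tail, List.zip_map]
  rfl

/-- the network with rows and columns exchanged -/
def Net.trN (N : Net) : Net where
  M := N.N
  N := N.M
  M_pos := N.N_pos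
  N_pos := N.M_pos
  li a b := N.li a.tr b.tr
  hv a b := N.hv a.tr b.tr
  li_symm := by intro a b h; exact N.li_symm h
  hv_symm := by intro a b h; exact N.hv_symm h
  inB := N.inB
  row := N.col
  col := N.row
  F := N.F
  inB_F := N.inB_F
  row_lt := N.col_lt
  col_lt := N.row_lt
  ci := N.ri
  ri := N.ci
  ci_mem := N.ri_mem
  ri_mem := N.ci_mem
  ci_long := N.ri_long
  ri_long := N.ci_long
  ci_sorted := N.ri_sorted
  ri_sorted := N.ci_sorted
  ci_disj := N.ri_disj
  ri_disj := N.ci_disj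
  ci_li := by
    intro k hk e he
    have h := N.ri_li hk (e.1.tr, e.2.tr)
    apply h
    have h2 : (Vx.L k :: ((N.ri k).map fun v => Vx.blk v.1 v.2) ++ [Vx.R k]) =
        (Vx.B k :: ((N.ri k).map fun v => Vx.blk v.1 v.2) ++ [Vx.T k]).map Vx.tr := by
      simp [Vx.tr, Function.comp_def]
    rw [h2, s0_edg_map]
    exact List.mem_map.2 ⟨e, he, rfl⟩
  ri_li := by
    intro k hk e he
    have h := N.ci_li hk (e.1.tr, e.2.tr)
    apply h
    have h2 : (Vx.B k :: ((N.ci k).map fun v => Vx.blk v.1 v.2) ++ [Vx.T k]) =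
        (Vx.L k :: ((N.ci k).map fun v => Vx.blk v.1 v.2) ++ [Vx.R k]).map Vx.tr := by
      simp [Vx.tr, Function.comp_def]
    rw [h2, s0_edg_map]
    exact List.mem_map.2 ⟨e, he, rfl⟩
  up := by intro b c h; exact N.rt h
  dn := by intro b c h; exact N.lf h
  rt := by intro b c h; exact N.up h
  lf := by intro b c h; exact N.dn h
  conn := by intro b c h; exact N.conn h
  bL := by intro k h; exact N.bB h
  bR := by intro k h; exact N.bT h
  bB := by intro k h; exact N.bL h
  bT := by intro k h; exact N.bR h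
  bLT := N.hv_symm N.bRB
  bTR := N.hv_symm N.bTR
  bRB := N.hv_symm N.bLT
  bBL := N.hv_symm N.bBL
  hL := by intro k h; exact N.hB h
  hR := by intro k h; exact N.hT h
  hT := by intro k h; exact N.hR h
  hB := by intro k h; exact N.hL h
  hZ := by
    intro i hi
    have h4 : Vx.tr (.hub 4) = .hub 4 := rfl
    rw [h4]
    interval_cases i
    · exact N.hZ (i := 3) (by norm_num)
    · exact N.hZ (i := 2) (by norm_num)
    · exact N.hZ (i := 1) (by norm_num)
    · exact N.hZ (i := 0) (by norm_num)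

theorem Net.isV_trN (N : Net) (v : Vx) : N.trN.isV v ↔ N.isV v.tr := by
  cases v with
  | hub i =>
    simp only [Vx.tr, Net.isV]
    by_cases h0 : i = 0
    · subst h0; simp
    · by_cases h3 : i = 3
      · subst h3; simp
      · by_cases h1 : i = 1
        · subst h1; simp
        · by_cases h2 : i = 2
          · subst h2; simp
          · simp [h0, h1, h2, h3]
  | _ => exact Iff.rfl

/-- the drawing with rows and columns exchanged (the plane is reflected at the diagonal) -/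
def ND.trD {N : Net} (D : ND N) : ND N.trN where
  toPD := D.toPD.map swapE good_swap
  p v := swapE (D.p v.tr)
  m a b := swapE (D.m a.tr b.tr)
  pP := by
    intro v hv
    change swapE.symm (swapE (D.p v.tr)) ∈ D.P
    rw [LinearEquiv.symm_apply_apply]
    exact D.pP ((N.isV_trN v).1 hv)
  pinj := by
    intro v w hv hw h
    exact s0_tr_inj (D.pinj ((N.isV_trN v).1 hv) ((N.isV_trN w).1 hw) (swapE.injective h))
  mP := by
    intro a b ha hb h
    change swapE.symm (swapE (D.m a.tr b.tr)) ∈ D.P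
    rw [LinearEquiv.symm_apply_apply]
    exact D.mP ((N.isV_trN a).1 ha) ((N.isV_trN b).1 hb) h
  mp := by
    intro a b v ha hb h hv e
    exact D.mp ((N.isV_trN a).1 ha) ((N.isV_trN b).1 hb) h ((N.isV_trN v).1 hv)
      (swapE.injective e)
  minj := by
    intro a b c d ha hb hc hd h1 h2 e
    have h3 := D.minj ((N.isV_trN a).1 ha) ((N.isV_trN b).1 hb) ((N.isV_trN c).1 hc)
      ((N.isV_trN d).1 hd) h1 h2 (swapE.injective e)
    have h4 := congrArg (Sym2.map Vx.tr) h3
    simpa using h4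
  Lt_of := by
    intro a b ha hb h
    change D.Lt (swapE.symm (swapE (D.p a.tr))) (swapE.symm (swapE (D.p b.tr)))
    rw [LinearEquiv.symm_apply_apply, LinearEquiv.symm_apply_apply]
    exact D.Lt_of ((N.isV_trN a).1 ha) ((N.isV_trN b).1 hb) h
  U1 := by
    intro a b ha hb h
    change D.U (swapE.symm (swapE (D.p a.tr))) (swapE.symm (swapE (D.m a.tr b.tr)))
    rw [LinearEquiv.symm_apply_apply, LinearEquiv.symm_apply_apply]
    exact D.U1 ((N.isV_trN a).1 ha) ((N.isV_trN b).1 hb) h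
  U2 := by
    intro a b ha hb h
    change D.U (swapE.symm (swapE (D.m a.tr b.tr))) (swapE.symm (swapE (D.p b.tr)))
    rw [LinearEquiv.symm_apply_apply, LinearEquiv.symm_apply_apply]
    exact D.U2 ((N.isV_trN a).1 ha) ((N.isV_trN b).1 hb) h

theorem Norm.trD {N : Net} {D : ND N} (h : Norm D) : Norm D.trD where
  h0 := h.g0
  g0 := h.h0
  h1 := h.g1
  g1 := h.h1

@[simp] theorem ND.trD_xc {N : Net} (D : ND N) (k : ℕ) : D.trD.xc k = D.yc k := rfl

@[simp] theorem ND.trD_yc {N : Net} (D : ND N) (k : ℕ) : D.trD.yc k = D.xc k := rfl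

end Pool.Agent.H54R
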