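import Pool.Agent.Lib.H54R.TDefs

/-!
# T1: the parity formula for two segments
-/

set_option autoImplicit false

namespace Pool.Agent.H54R

/-- for finitely many points the lexicographic order is the order of a linear functional -/
theorem t1_eps (S : Finset Pt) : ∃ ε : ℝ, 0 < ε ∧ ∀ u ∈ S, ∀ v ∈ S,
    (lx u v ↔ u.1 - ε * u.2 < v.1 - ε * v.2) := by
  have key : ∀ᶠ ε in nhdsWithin (0 : ℝ) (Set.Ioi 0), ∀ u ∈ S, ∀ v ∈ S,
      (lx u v ↔ u.1 - ε * u.2 < v.1 - ε * v.2) := by
    refine (Filter.eventually_all_finset S).2 fun u _ => (Filter.eventually_all_finset S).2 fun v _ => ?_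
    have hc : ∀ w : Pt, Filter.Tendsto (fun ε : ℝ => w.1 - ε * w.2)
        (nhdsWithin (0 : ℝ) (Set.Ioi 0)) (nhds w.1) := by
      intro w
      have h : Continuous (fun ε : ℝ => w.1 - ε * w.2) := by fun_prop
      have h2 := (h.tendsto 0).mono_left (nhdsWithin_le_nhds (s := Set.Ioi (0 : ℝ)))
      simpa using h2
    rcases lt_trichotomy u.1 v.1 with h | h | h
    · filter_upwards [(hc u).eventually_lt (hc v) h] with ε hε
      exact ⟨fun _ => hε, fun _ => Or.inl h⟩
    · filter_upwards [self_mem_nhdsWithin] with ε hε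
      have hε' : (0 : ℝ) < ε := hε
      constructor
      · rintro (h1 | ⟨_, h2⟩)
        · exact absurd h (ne_of_lt h1)
        · rw [h]
          have := mul_lt_mul_of_pos_left h2 hε'
          linarith
      · intro h1
        refine Or.inr ⟨h, ?_⟩
        rw [h] at h1
        have h3 : ε * v.2 < ε * u.2 := by linarith
        exact lt_of_mul_lt_mul_left h3 hε'.le
    · filter_upwards [(hc v).eventually_lt (hc u) h] with ε hε
      constructor
      · rintro (h1 | ⟨h2, _⟩)
        · exact absurd h1 (not_lt.2 h.le)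
        · exact absurd h2 (ne_of_gt h)
      · intro h1
        exact absurd h1 (not_lt.2 hε.le)
  obtain ⟨ε, h1, h2⟩ := (key.and self_mem_nhdsWithin).exists
  exact ⟨ε, h2, h1⟩

/-- a point on the line `cd`, between `c` and `d` for a linear functional, is on the segment -/
theorem t1_mem {c d a : Pt} {ε : ℝ} (h0 : ori c d a = 0)
    (h1 : c.1 - ε * c.2 < a.1 - ε * a.2) (h2 : a.1 - ε * a.2 < d.1 - ε * d.2) :
    a ∈ openSegment ℝ c d := by
  set fc := c.1 - ε * c.2 with hfc
  set fa := a.1 - ε * a.2 with hfa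
  set fd := d.1 - ε * d.2 with hfd
  have hcd : 0 < fd - fc := by linarith
  have hne : fd - fc ≠ 0 := ne_of_gt hcd
  refine ⟨(fd - fa) / (fd - fc), (fa - fc) / (fd - fc), div_pos (by linarith) hcd,
    div_pos (by linarith) hcd, ?_, ?_⟩
  · field_simp
    ring
  · unfold ori at h0
    have e1 : (fd - fa) * c.1 + (fa - fc) * d.1 = (fd - fc) * a.1 := by
      rw [hfd, hfa, hfc]
      linear_combination (-ε) * h0
    have e2 : (fd - fa) * c.2 + (fa - fc) * d.2 = (fd - fc) * a.2 := by
      rw [hfd, hfa, hfc]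
      linear_combination (-1 : ℝ) * h0
    refine Prod.ext ?_ ?_
    · simp only [Prod.fst_add, Prod.smul_fst, smul_eq_mul]
      rw [div_mul_eq_mul_div, div_mul_eq_mul_div, ← add_div, e1]
      field_simp
    · simp only [Prod.snd_add, Prod.smul_snd, smul_eq_mul]
      rw [div_mul_eq_mul_div, div_mul_eq_mul_div, ← add_div, e2]
      field_simp

/-- orientation along a segment -/
theorem t1_ori_comb (c d a b : Pt) (s t : ℝ) (h : s + t = 1) :
    ori c d (s • a + t • b) = s * ori c d a + t * ori c d b := by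
  have hs : s = 1 - t := by linarith
  subst hs
  unfold ori
  simp only [Prod.fst_add, Prod.snd_add, Prod.smul_fst, Prod.smul_snd, smul_eq_mul]
  ring

theorem t1_ori_self (c d : Pt) (s t : ℝ) (h : s + t = 1) : ori c d (s • c + t • d) = 0 := by
  rw [t1_ori_comb c d c d s t h]
  unfold ori
  ring

theorem t1_cross_of {a b c d : Pt} (h1 : ori c d a * ori c d b < 0)
    (h2 : ori a b c * ori a b d < 0) : Cross a b c d := by
  set A := ori c d a with hA
  set B := ori c d b with hB
  set C := ori a b c with hC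
  set E := ori a b d with hE
  have hAC : A + C = B + E := by
    rw [hA, hB, hC, hE]; unfold ori; ring
  have i1 : A * b.1 - B * a.1 = E * c.1 - C * d.1 := by
    rw [hA, hB, hC, hE]; unfold ori; ring
  have i2 : A * b.2 - B * a.2 = E * c.2 - C * d.2 := by
    rw [hA, hB, hC, hE]; unfold ori; ring
  have hAB : A - B ≠ 0 := by
    intro h
    have : A = B := by linarith
    rw [this] at h1
    nlinarith [mul_self_nonneg B]
  have hEC : E - C = A - B := by linarith
  have key : ∀ x y : ℝ, x * y < 0 → 0 < x / (x - y) ∧ 0 < -y / (x - y) := by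
    intro x y hxy
    rcases lt_trichotomy x 0 with hx | hx | hx
    · have hy : 0 < y := by
        by_contra hy
        push Not at hy
        nlinarith [mul_nonneg_of_nonpos_of_nonpos hx.le hy]
      exact ⟨div_pos_of_neg_of_neg hx (by linarith), div_pos_of_neg_of_neg (by linarith) (by linarith)⟩
    · simp [hx] at hxy
    · have hy : y < 0 := by
        by_contra hy
        push Not at hy
        nlinarith [mul_nonneg hx.le hy]
      exact ⟨div_pos hx (by linarith), div_pos (by linarith) (by linarith)⟩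
  obtain ⟨k1, k2⟩ := key A B h1
  have h2' : E * C < 0 := by linarith [mul_comm E C]
  obtain ⟨k3, k4⟩ := key E C h2'
  rw [hEC] at k3 k4
  refine ⟨((-B) / (A - B)) • a + (A / (A - B)) • b, ⟨_, _, k2, k1, ?_, rfl⟩,
    ⟨E / (A - B), -C / (A - B), k3, k4, ?_, ?_⟩⟩
  · field_simp; ring
  · rw [← add_div, div_eq_one_iff_eq hAB]; linarith
  · refine Prod.ext ?_ ?_
    · simp only [Prod.fst_add, Prod.smul_fst, smul_eq_mul]
      field_simp
      linarith
    · simp only [Prod.snd_add, Prod.smul_snd, smul_eq_mul]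
      field_simp
      linarith

/-- one half of the sign condition -/
theorem t1_cross_half {a b c d : Pt} (h : GP4 a b c d) (hab : lx a b) (hcd : lx c d)
    (hc : Cross a b c d) : ori c d a * ori c d b < 0 := by
  obtain ⟨z, ⟨s, t, hs, ht, hst, rfl⟩, ⟨s', t', hs', ht', hst', hz⟩⟩ := hc
  have h0 : s * ori c d a + t * ori c d b = 0 := by
    rw [← t1_ori_comb c d a b s t hst, ← hz, t1_ori_self c d s' t' hst']
  by_cases hA : ori c d a = 0
  · exfalso
    have hB : ori c d b = 0 := by
      rw [hA, mul_zero, zero_add] at h0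
      rcases mul_eq_zero.1 h0 with h1 | h1
      · exact absurd h1 (ne_of_gt ht)
      · exact h1
    classical
    obtain ⟨ε, hε, hl⟩ := t1_eps {a, b, c, d}
    have lab := (hl a (by simp) b (by simp)).1 hab
    have lcd := (hl c (by simp) d (by simp)).1 hcd
    have z1 := congrArg Prod.fst hz
    have z2 := congrArg Prod.snd hz
    simp only [Prod.fst_add, Prod.snd_add, Prod.smul_fst, Prod.smul_snd, smul_eq_mul] at z1 z2
    set fa := a.1 - ε * a.2 with hfa
    set fb := b.1 - ε * b.2 with hfb
    set fc := c.1 - ε * c.2 with hfc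
    set fd := d.1 - ε * d.2 with hfd
    have hzz : s' * fc + t' * fd = s * fa + t * fb := by
      rw [hfa, hfb, hfc, hfd]; linear_combination z1 - ε * z2
    have hs1 : s = 1 - t := by linarith
    have hs1' : s' = 1 - t' := by linarith
    -- `a` is not between
    have na : ¬ (fc < fa ∧ fa < fd) := fun hh =>
      h.a_cd (openSegment_subset_segment ℝ c d (t1_mem hA hh.1 hh.2))
    have nb : ¬ (fc < fb ∧ fb < fd) := fun hh =>
      h.b_cd (openSegment_subset_segment ℝ c d (t1_mem hB hh.1 hh.2))
    have h1 : fa < fd := by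
      have q1 : 0 < t * (fb - fa) := mul_pos ht (by linarith)
      have q2 : 0 < s' * (fd - fc) := mul_pos hs' (by linarith)
      rw [hs1] at hzz
      rw [hs1'] at hzz q2
      nlinarith
    have h2 : fc < fb := by
      have q1 : 0 < s * (fb - fa) := mul_pos hs (by linarith)
      have q2 : 0 < t' * (fd - fc) := mul_pos ht' (by linarith)
      rw [hs1] at hzz q1
      rw [hs1'] at hzz
      nlinarith
    have h3 : fa ≤ fc := by
      by_contra h4
      push Not at h4
      exact na ⟨h4, h1⟩
    have hC : ori a b c = 0 := by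
      -- c is on the line ab
      have e1 : (fd - fc) * a.1 = (fd - fa) * c.1 + (fa - fc) * d.1 := by
        rw [hfd, hfa, hfc]; unfold ori at hA; linear_combination (ε) * hA
      have e2 : (fd - fc) * a.2 = (fd - fa) * c.2 + (fa - fc) * d.2 := by
        rw [hfd, hfa, hfc]; unfold ori at hA; linear_combination (1 : ℝ) * hA
      have e3 : (fd - fc) * b.1 = (fd - fb) * c.1 + (fb - fc) * d.1 := by
        rw [hfd, hfb, hfc]; unfold ori at hB; linear_combination (ε) * hB
      have e4 : (fd - fc) * b.2 = (fd - fb) * c.2 + (fb - fc) * d.2 := by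
        rw [hfd, hfb, hfc]; unfold ori at hB; linear_combination (1 : ℝ) * hB
      have hne : (fd - fc) ≠ 0 := by intro hh; linarith
      have : (fd - fc) ^ 2 * ori a b c = 0 := by
        unfold ori
        have : (fd - fc) ^ 2 * ((b.1 - a.1) * (c.2 - a.2) - (b.2 - a.2) * (c.1 - a.1)) =
          ((fd - fc) * b.1 - (fd - fc) * a.1) * ((fd - fc) * c.2 - (fd - fc) * a.2) -
          ((fd - fc) * b.2 - (fd - fc) * a.2) * ((fd - fc) * c.1 - (fd - fc) * a.1) := by ring
        rw [this, e1, e2, e3, e4]
        ring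
      rcases mul_eq_zero.1 this with h5 | h5
      · exact absurd (pow_eq_zero_iff (two_ne_zero)|>.1 h5) hne
      · exact h5
    rcases h3.lt_or_eq with h4 | h4
    · exact h.c_ab (openSegment_subset_segment ℝ a b (t1_mem hC h4 h2))
    · -- `fa = fc`: then `a = c`
      have e1 : (fd - fc) * a.1 = (fd - fa) * c.1 + (fa - fc) * d.1 := by
        rw [hfd, hfa, hfc]; unfold ori at hA; linear_combination (ε) * hA
      have e2 : (fd - fc) * a.2 = (fd - fa) * c.2 + (fa - fc) * d.2 := by
        rw [hfd, hfa, hfc]; unfold ori at hA; linear_combination (1 : ℝ) * hA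
      rw [h4, sub_self, zero_mul, add_zero] at e1 e2
      have hne : (fd - fc) ≠ 0 := by intro hh; linarith
      have : a = c := Prod.ext (mul_left_cancel₀ hne e1) (mul_left_cancel₀ hne e2)
      exact h.a_cd (this ▸ left_mem_segment ℝ c d)
  · rcases lt_or_gt_of_ne hA with hA' | hA'
    · have : 0 < ori c d b := by
        by_contra hh
        push Not at hh
        nlinarith [mul_neg_of_pos_of_neg hs hA', mul_nonpos_of_nonneg_of_nonpos ht.le hh]
      exact mul_neg_of_neg_of_pos hA' this
    · have : ori c d b < 0 := by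
        by_contra hh
        push Not at hh
        nlinarith [mul_pos hs hA', mul_nonneg ht.le hh]
      exact mul_neg_of_pos_of_neg hA' this

theorem t1_cross_iff {a b c d : Pt} (h : GP4 a b c d) (hab : lx a b) (hcd : lx c d) :
    Cross a b c d ↔ (ori c d a * ori c d b < 0 ∧ ori a b c * ori a b d < 0) := by
  constructor
  · intro hc
    refine ⟨t1_cross_half h hab hcd hc, ?_⟩
    have h' : GP4 c d a b := ⟨h.cd, h.ab, h.c_ab, h.d_ab, h.a_cd, h.b_cd⟩
    obtain ⟨z, h1, h2⟩ := hc
    exact t1_cross_half h' hcd hab ⟨z, h2, h1⟩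
  · rintro ⟨h1, h2⟩
    exact t1_cross_of h1 h2

/-- four numbers with signs: the two identities after a shift -/
theorem t1_shift (a b c d A B C E t : ℝ) (h1 : A + C = B + E)
    (h2 : A * b - B * a = E * c - C * d) :
    A * (b - t) - B * (a - t) = E * (c - t) - C * (d - t) := by
  linear_combination h2 - t * h1

theorem t1_core (a b c d A B C E : ℝ) (h1 : A + C = B + E)
    (h2 : A * b - B * a = E * c - C * d) (hab : a < b) (hcd : c < d) (hac : a ≠ c) (had : a ≠ d)
    (hbc : b ≠ c) (hbd : b ≠ d) (nA : c < a → a < d → A ≠ 0) (nB : c < b → b < d → B ≠ 0)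
    (nC : a < c → c < b → C ≠ 0) (nE : a < d → d < b → E ≠ 0) :
    (if A * B < 0 ∧ C * E < 0 then (1 : ZMod 2) else 0) =
      (if c < a ∧ a < d ∧ A < 0 then 1 else 0) + (if c < b ∧ b < d ∧ B < 0 then 1 else 0) +
      (if a < c ∧ c < b ∧ 0 < C then 1 else 0) + (if a < d ∧ d < b ∧ 0 < E then 1 else 0) := by
  have sa := t1_shift a b c d A B C E a h1 h2
  have sb := t1_shift a b c d A B C E b h1 h2
  have sc := t1_shift a b c d A B C E c h1 h2
  have sd := t1_shift a b c d A B C E d h1 h2
  have two : (1 : ZMod 2) + 1 = 0 := rfl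
  rcases lt_or_gt_of_ne hac with ac | ac
  · rcases lt_or_gt_of_ne hbc with bc | bc
    · -- a < b < c < d
      have n1 : ¬ (c < a) := by linarith
      have n2 : ¬ (c < b) := by linarith
      have n3 : ¬ (d < b) := by linarith
      have hn : ¬ (A * B < 0 ∧ C * E < 0) := by
        rintro ⟨p1, p2⟩
        rcases mul_neg_iff.1 p1 with ⟨q1, q2⟩ | ⟨q1, q2⟩ <;>
        rcases mul_neg_iff.1 p2 with ⟨q3, q4⟩ | ⟨q3, q4⟩ <;> nlinarith
      simp [n1, n2, n3, hn]
    · rcases lt_or_gt_of_ne hbd with bd | bd
      · -- a < c < b < d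
        have n1 : ¬ (c < a) := by linarith
        have n2 : ¬ (d < b) := by linarith
        have nB' := nB bc bd
        have nC' := nC ac bc
        rcases lt_or_gt_of_ne nB' with q1 | q1 <;> rcases lt_or_gt_of_ne nC' with q2 | q2
        · have q3 : 0 < A := by nlinarith
          have q4 : 0 < E := by nlinarith
          have m1 : A * B < 0 := mul_neg_of_pos_of_neg q3 q1
          have m2 : C * E < 0 := mul_neg_of_neg_of_pos q2 q4
          simp [n1, n2, m1, m2, q1, bc, bd, q2.le]
        · have hn : ¬ (A * B < 0 ∧ C * E < 0) := by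
            rintro ⟨p1, p2⟩
            rcases mul_neg_iff.1 p1 with ⟨r1, r2⟩ | ⟨r1, r2⟩ <;>
            rcases mul_neg_iff.1 p2 with ⟨r3, r4⟩ | ⟨r3, r4⟩ <;> nlinarith
          simp [n1, n2, hn, q1, bc, bd, q2, ac, two]
        · have hn : ¬ (A * B < 0 ∧ C * E < 0) := by
            rintro ⟨p1, p2⟩
            rcases mul_neg_iff.1 p1 with ⟨r1, r2⟩ | ⟨r1, r2⟩ <;>
            rcases mul_neg_iff.1 p2 with ⟨r3, r4⟩ | ⟨r3, r4⟩ <;> nlinarith
          simp [n1, n2, hn, not_lt.2 q1.le, not_lt.2 q2.le]
        · have q3 : A < 0 := by nlinarith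
          have q4 : E < 0 := by nlinarith
          have m1 : A * B < 0 := mul_neg_of_neg_of_pos q3 q1
          have m2 : C * E < 0 := mul_neg_of_pos_of_neg q2 q4
          simp [n1, n2, m1, m2, q1.le, bc, ac, q2]
      · -- a < c < d < b
        have ad : a < d := by linarith
        have n1 : ¬ (c < a) := by linarith
        have n2 : ¬ (b < d) := by linarith
        have nC' := nC ac bc
        have nE' := nE ad bd
        rcases lt_or_gt_of_ne nC' with q1 | q1 <;> rcases lt_or_gt_of_ne nE' with q2 | q2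
        · have hn : ¬ (A * B < 0 ∧ C * E < 0) := by
            rintro ⟨p1, p2⟩
            rcases mul_neg_iff.1 p2 with ⟨r3, r4⟩ | ⟨r3, r4⟩ <;> linarith
          simp [n1, n2, hn, not_lt.2 q1.le, not_lt.2 q2.le]
        · have q3 : 0 < A := by nlinarith
          have q4 : B < 0 := by nlinarith
          have m1 : A * B < 0 := mul_neg_of_pos_of_neg q3 q4
          have m2 : C * E < 0 := mul_neg_of_neg_of_pos q1 q2
          simp [n1, n2, m1, m2, q1.le, q2, ad, bd]
        · have q3 : A < 0 := by nlinarith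
          have q4 : 0 < B := by nlinarith
          have m1 : A * B < 0 := mul_neg_of_neg_of_pos q3 q4
          have m2 : C * E < 0 := mul_neg_of_pos_of_neg q1 q2
          simp [n1, n2, m1, m2, q1, q2.le, ac, bc]
        · have hn : ¬ (A * B < 0 ∧ C * E < 0) := by
            rintro ⟨p1, p2⟩
            rcases mul_neg_iff.1 p2 with ⟨r3, r4⟩ | ⟨r3, r4⟩ <;> linarith
          simp [n1, n2, hn, q1, q2, ac, bc, ad, bd, two]
  · rcases lt_or_gt_of_ne had with ad | ad
    · rcases lt_or_gt_of_ne hbd with bd | bd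
      · -- c < a < b < d
        have cb : c < b := by linarith
        have n1 : ¬ (a < c) := by linarith
        have n2 : ¬ (d < b) := by linarith
        have nA' := nA ac ad
        have nB' := nB cb bd
        rcases lt_or_gt_of_ne nA' with q1 | q1 <;> rcases lt_or_gt_of_ne nB' with q2 | q2
        · have hn : ¬ (A * B < 0 ∧ C * E < 0) := by
            rintro ⟨p1, p2⟩
            rcases mul_neg_iff.1 p1 with ⟨r3, r4⟩ | ⟨r3, r4⟩ <;> linarith
          simp [n1, n2, hn, q1, q2, ac, ad, cb, bd, two]
        · have q3 : C < 0 ∨ 0 < C := by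
            rcases lt_trichotomy C 0 with h | h | h
            · exact Or.inl h
            · exfalso; nlinarith
            · exact Or.inr h
          have q3 : 0 < C := by
            rcases q3 with h | h
            · exfalso; nlinarith
            · exact h
          have q4 : E < 0 := by nlinarith
          have m1 : A * B < 0 := mul_neg_of_neg_of_pos q1 q2
          have m2 : C * E < 0 := mul_neg_of_pos_of_neg q3 q4
          simp [n1, n2, m1, m2, q1, q2.le, ac, ad]
        · have q3 : C < 0 := by nlinarith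
          have q4 : 0 < E := by nlinarith
          have m1 : A * B < 0 := mul_neg_of_pos_of_neg q1 q2
          have m2 : C * E < 0 := mul_neg_of_neg_of_pos q3 q4
          simp [n1, n2, m1, m2, q1.le, q2, cb, bd]
        · have hn : ¬ (A * B < 0 ∧ C * E < 0) := by
            rintro ⟨p1, p2⟩
            rcases mul_neg_iff.1 p1 with ⟨r3, r4⟩ | ⟨r3, r4⟩ <;> linarith
          simp [n1, n2, hn, not_lt.2 q1.le, not_lt.2 q2.le]
      · -- c < a < d < b
        have n1 : ¬ (a < c) := by linarith
        have n2 : ¬ (b < d) := by linarith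
        have nA' := nA ac ad
        have nE' := nE ad bd
        rcases lt_or_gt_of_ne nA' with q1 | q1 <;> rcases lt_or_gt_of_ne nE' with q2 | q2
        · have q3 : 0 < B := by nlinarith
          have q4 : 0 < C := by nlinarith
          have m1 : A * B < 0 := mul_neg_of_neg_of_pos q1 q3
          have m2 : C * E < 0 := mul_neg_of_pos_of_neg q4 q2
          simp [n1, n2, m1, m2, q1, q2.le, ac, ad]
        · have hn : ¬ (A * B < 0 ∧ C * E < 0) := by
            rintro ⟨p1, p2⟩
            rcases mul_neg_iff.1 p1 with ⟨r1, r2⟩ | ⟨r1, r2⟩ <;>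
            rcases mul_neg_iff.1 p2 with ⟨r3, r4⟩ | ⟨r3, r4⟩ <;> nlinarith
          simp [n1, n2, hn, q1, q2, ac, ad, bd, two]
        · have hn : ¬ (A * B < 0 ∧ C * E < 0) := by
            rintro ⟨p1, p2⟩
            rcases mul_neg_iff.1 p1 with ⟨r1, r2⟩ | ⟨r1, r2⟩ <;>
            rcases mul_neg_iff.1 p2 with ⟨r3, r4⟩ | ⟨r3, r4⟩ <;> nlinarith
          simp [n1, n2, hn, not_lt.2 q1.le, not_lt.2 q2.le]
        · have q3 : B < 0 := by nlinarith
          have q4 : C < 0 := by nlinarith
          have m1 : A * B < 0 := mul_neg_of_pos_of_neg q1 q3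
          have m2 : C * E < 0 := mul_neg_of_neg_of_pos q4 q2
          simp [n1, n2, m1, m2, q1.le, q2, ad, bd]
    · -- c < d < a < b
      have n1 : ¬ (a < d) := by linarith
      have n2 : ¬ (b < d) := by linarith
      have n3 : ¬ (a < c) := by linarith
      have hn : ¬ (A * B < 0 ∧ C * E < 0) := by
        rintro ⟨p1, p2⟩
        rcases mul_neg_iff.1 p1 with ⟨q1, q2⟩ | ⟨q1, q2⟩ <;>
        rcases mul_neg_iff.1 p2 with ⟨q3, q4⟩ | ⟨q3, q4⟩ <;> nlinarith
      simp [n1, n2, n3, hn]

theorem t1_rr {ε : ℝ} {c d a : Pt} (h1 : lx c d ↔ c.1 - ε * c.2 < d.1 - ε * d.2)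
    (h2 : lx c a ↔ c.1 - ε * c.2 < a.1 - ε * a.2) (h3 : lx a d ↔ a.1 - ε * a.2 < d.1 - ε * d.2)
    (h4 : lx d a ↔ d.1 - ε * d.2 < a.1 - ε * a.2) (h5 : lx a c ↔ a.1 - ε * a.2 < c.1 - ε * c.2)
    (h : lx c d) : rr c d a = (if c.1 - ε * c.2 < a.1 - ε * a.2 ∧ a.1 - ε * a.2 < d.1 - ε * d.2 ∧
      ori c d a < 0 then 1 else 0) ∧
      ss c d a = (if c.1 - ε * c.2 < a.1 - ε * a.2 ∧ a.1 - ε * a.2 < d.1 - ε * d.2 ∧
      0 < ori c d a then 1 else 0) := by
  have h' := h1.1 h
  unfold rr ss
  rw [h2, h3, h4, h5]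
  constructor
  · congr 1
    apply propext
    constructor
    · rintro (h6 | ⟨h6, h7, _⟩)
      · exact h6
      · exfalso; linarith
    · exact Or.inl
  · congr 1
    apply propext
    constructor
    · rintro (h6 | ⟨h6, h7, _⟩)
      · exact h6
      · exfalso; linarith
    · exact Or.inl

theorem t1_ne {ε : ℝ} {a c : Pt} (h : a ≠ c) (h1 : lx a c ↔ a.1 - ε * a.2 < c.1 - ε * c.2)
    (h2 : lx c a ↔ c.1 - ε * c.2 < a.1 - ε * a.2) : a.1 - ε * a.2 ≠ c.1 - ε * c.2 := by
  intro h3
  apply h
  have n1 : ¬ lx a c := fun h4 => absurd (h1.1 h4) (by rw [h3]; exact lt_irrefl _)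
  have n2 : ¬ lx c a := fun h4 => absurd (h2.1 h4) (by rw [h3]; exact lt_irrefl _)
  unfold lx at n1 n2
  push Not at n1 n2
  have e1 : a.1 = c.1 := le_antisymm n2.1 n1.1
  exact Prod.ext e1 (le_antisymm (n1.2 e1) (n2.2 e1.symm))

theorem t1_ordered {a b c d : Pt} (h : GP4 a b c d) (hab : lx a b) (hcd : lx c d) :
    cr a b c d = rr c d a + rr c d b + ss a b c + ss a b d := by
  classical
  obtain ⟨ε, hε, hl⟩ := t1_eps {a, b, c, d}
  have La : a ∈ ({a, b, c, d} : Finset Pt) := by simp
  have Lb : b ∈ ({a, b, c, d} : Finset Pt) := by simp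
  have Lc : c ∈ ({a, b, c, d} : Finset Pt) := by simp
  have Ld : d ∈ ({a, b, c, d} : Finset Pt) := by simp
  have hac : a ≠ c := fun hh => h.a_cd (hh ▸ left_mem_segment ℝ c d)
  have had : a ≠ d := fun hh => h.a_cd (hh ▸ right_mem_segment ℝ c d)
  have hbc : b ≠ c := fun hh => h.b_cd (hh ▸ left_mem_segment ℝ c d)
  have hbd : b ≠ d := fun hh => h.b_cd (hh ▸ right_mem_segment ℝ c d)
  rw [(t1_rr (hl c Lc d Ld) (hl c Lc a La) (hl a La d Ld) (hl d Ld a La) (hl a La c Lc) hcd).1,
    (t1_rr (hl c Lc d Ld) (hl c Lc b Lb) (hl b Lb d Ld) (hl d Ld b Lb) (hl b Lb c Lc) hcd).1,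
    (t1_rr (hl a La b Lb) (hl a La c Lc) (hl c Lc b Lb) (hl b Lb c Lc) (hl c Lc a La) hab).2,
    (t1_rr (hl a La b Lb) (hl a La d Ld) (hl d Ld b Lb) (hl b Lb d Ld) (hl d Ld a La) hab).2,
    ← t1_core _ _ _ _ (ori c d a) (ori c d b) (ori a b c) (ori a b d) ?_ ?_
      ((hl a La b Lb).1 hab) ((hl c Lc d Ld).1 hcd)
      (t1_ne hac (hl a La c Lc) (hl c Lc a La)) (t1_ne had (hl a La d Ld) (hl d Ld a La))
      (t1_ne hbc (hl b Lb c Lc) (hl c Lc b Lb)) (t1_ne hbd (hl b Lb d Ld) (hl d Ld b Lb))]
  · unfold cr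
    congr 1
    exact propext (t1_cross_iff h hab hcd)
  · intro h1 h2 h3
    exact h.a_cd (openSegment_subset_segment ℝ c d (t1_mem h3 h1 h2))
  · intro h1 h2 h3
    exact h.b_cd (openSegment_subset_segment ℝ c d (t1_mem h3 h1 h2))
  · intro h1 h2 h3
    exact h.c_ab (openSegment_subset_segment ℝ a b (t1_mem h3 h1 h2))
  · intro h1 h2 h3
    exact h.d_ab (openSegment_subset_segment ℝ a b (t1_mem h3 h1 h2))
  · unfold ori; ring
  · unfold ori; ring

theorem t1_rr_comm (p q z : Pt) : rr p q z = rr q p z := by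
  unfold rr
  congr 1
  exact propext or_comm

theorem t1_ss_comm (p q z : Pt) : ss p q z = ss q p z := by
  unfold ss
  congr 1
  exact propext or_comm

theorem t1_cr_comm (a b c d : Pt) : cr a b c d = cr b a c d := by
  unfold cr Cross
  rw [openSegment_symm ℝ a b]

theorem t1_cr_comm' (a b c d : Pt) : cr a b c d = cr a b d c := by
  unfold cr Cross
  rw [openSegment_symm ℝ c d]

theorem t1_total {a b : Pt} (h : a ≠ b) : lx a b ∨ lx b a := by
  unfold lx
  rcases lt_trichotomy a.1 b.1 with h1 | h1 | h1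
  · exact Or.inl (Or.inl h1)
  · rcases lt_trichotomy a.2 b.2 with h2 | h2 | h2
    · exact Or.inr (Or.inr ⟨h1.symm, h2⟩)
    · exact absurd (Prod.ext h1 h2) h
    · exact Or.inl (Or.inr ⟨h1, h2⟩)
  · exact Or.inr (Or.inl h1)

/-- The parity formula. `a`, `b` play the same role, and so do `c`, `d` (symmetry of `rr`, `ss` and
`Cross`), so one can assume `lx a b` and `lx c d`; moreover the formula is symmetric under the
exchange of the two segments only together with above and below, so treat the orders: (1) `b` before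
`c` or `d` before `a` (all terms zero; a common point would be between them in the order);
(2) nested, `lx c a` and `lx b d`: the right hand side is `[ori c d a < 0] + [ori c d b < 0]`;
(3) nested the other way; (4) interleaved. Let `A = ori c d a`, `B = ori c d b`, `C = ori a b c`,
`E = ori a b d`. If `A B < 0` and `C E < 0` the segments cross, and conversely (a common interior
point `z` gives convex combinations); GP4 excludes zeros for points which are between in the order.
Identities: `A + E = B + C` up to sign and the affine dependence of the four points,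
`E c - C d + B a - A b = 0` up to signs, both coordinates; apply them to the lexicographic order
(positive combinations of positive vectors are positive). For example in the interleaved case
`c < a < d < b`: if `A < 0` and `E < 0` then the dependence gives `B > 0` and `C > 0`: crossing; if
`A < 0`, `E > 0` a crossing would give four numbers of the same sign with sum zero. -/
theorem cr_eq (a b c d : Pt) (h : GP4 a b c d) :
    cr a b c d = rr c d a + rr c d b + ss a b c + ss a b d := by
  rcases t1_total h.ab with h1 | h1 <;> rcases t1_total h.cd with h2 | h2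
  · exact t1_ordered h h1 h2
  · have h' : GP4 a b d c := ⟨h.ab, h.cd.symm, by rw [segment_symm]; exact h.a_cd,
      by rw [segment_symm]; exact h.b_cd, h.d_ab, h.c_ab⟩
    rw [t1_cr_comm', t1_ordered h' h1 h2, t1_rr_comm d c a, t1_rr_comm d c b]
    ring
  · have h' : GP4 b a c d := ⟨h.ab.symm, h.cd, h.b_cd, h.a_cd,
      by rw [segment_symm]; exact h.c_ab, by rw [segment_symm]; exact h.d_ab⟩
    rw [t1_cr_comm, t1_ordered h' h1 h2, t1_ss_comm b a c, t1_ss_comm b a d]
    ring
  · have h' : GP4 b a d c := ⟨h.ab.symm, h.cd.symm, by rw [segment_symm]; exact h.b_cd,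
      by rw [segment_symm]; exact h.a_cd,
      by rw [segment_symm]; exact h.d_ab, by rw [segment_symm]; exact h.c_ab⟩
    rw [t1_cr_comm, t1_cr_comm', t1_ordered h' h1 h2, t1_ss_comm b a c, t1_ss_comm b a d,
      t1_rr_comm d c a, t1_rr_comm d c b]
    ring

end Pool.Agent.H54R
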