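import Pool.Agent.Lib.H54R.TDefs

/-!
# T2: small facts on `lx`, `rr`, `ss`, `cr`
-/

set_option autoImplicit false

namespace Pool.Agent.H54R

theorem lx_irrefl (a : Pt) : ¬ lx a a := by
  rintro (h | ⟨-, h⟩) <;> exact lt_irrefl _ h

theorem lx_trans {a b c : Pt} (h : lx a b) (h' : lx b c) : lx a c := by
  rcases h with h | ⟨h1, h2⟩ <;> rcases h' with h' | ⟨h3, h4⟩
  · exact Or.inl (h.trans h')
  · exact Or.inl (h3 ▸ h)
  · exact Or.inl (h1 ▸ h')
  · exact Or.inr ⟨h1.trans h3, h4.trans h2⟩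

theorem lx_total {a b : Pt} (h : a ≠ b) : lx a b ∨ lx b a := by
  rcases lt_trichotomy a.1 b.1 with h1 | h1 | h1
  · exact Or.inl (Or.inl h1)
  · rcases lt_trichotomy a.2 b.2 with h2 | h2 | h2
    · exact Or.inr (Or.inr ⟨h1.symm, h2⟩)
    · exact absurd (Prod.ext h1 h2) h
    · exact Or.inl (Or.inr ⟨h1, h2⟩)
  · exact Or.inr (Or.inl h1)

theorem t2_asymm {a b : Pt} (h : lx a b) : ¬ lx b a := fun h' => lx_irrefl a (lx_trans h h')

/-- exactly one of the two orders holds -/
theorem lxi_add {a b : Pt} (h : a ≠ b) : lxi a b + lxi b a = 1 := by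
  unfold lxi
  rcases lx_total h with h1 | h1
  · rw [if_pos h1, if_neg (t2_asymm h1), add_zero]
  · rw [if_pos h1, if_neg (t2_asymm h1), zero_add]

theorem rr_comm (p q z : Pt) : rr p q z = rr q p z := by
  unfold rr
  by_cases h : (lx p z ∧ lx z q ∧ ori p q z < 0) ∨ (lx q z ∧ lx z p ∧ ori q p z < 0)
  · rw [if_pos h, if_pos h.symm]
  · rw [if_neg h, if_neg fun h' => h h'.symm]

theorem ss_comm (p q z : Pt) : ss p q z = ss q p z := by
  unfold ss
  by_cases h : (lx p z ∧ lx z q ∧ 0 < ori p q z) ∨ (lx q z ∧ lx z p ∧ 0 < ori q p z)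
  · rw [if_pos h, if_pos h.symm]
  · rw [if_neg h, if_neg fun h' => h h'.symm]

theorem cr_comm (a b c d : Pt) : cr a b c d = cr c d a b := by
  have h : Cross a b c d ↔ Cross c d a b :=
    ⟨fun ⟨z, h1, h2⟩ => ⟨z, h2, h1⟩, fun ⟨z, h1, h2⟩ => ⟨z, h2, h1⟩⟩
  unfold cr
  rw [h]

theorem cr_swap (a b c d : Pt) : cr a b c d = cr b a c d := by
  have h : Cross a b c d ↔ Cross b a c d := by
    unfold Cross
    rw [openSegment_symm]
  unfold cr
  rw [h]

theorem GP4.symm {a b c d : Pt} (h : GP4 a b c d) : GP4 c d a b :=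
  ⟨h.cd, h.ab, h.c_ab, h.d_ab, h.a_cd, h.b_cd⟩

theorem GP4.swap {a b c d : Pt} (h : GP4 a b c d) : GP4 b a c d :=
  ⟨h.ab.symm, h.cd, h.b_cd, h.a_cd, segment_symm ℝ a b ▸ h.c_ab, segment_symm ℝ a b ▸ h.d_ab⟩

theorem t2_mem {p q z : Pt} (h1 : lx p z) (h2 : lx z q) (h : ori p q z = 0) :
    z ∈ segment ℝ p q := by
  unfold ori at h
  rw [segment_eq_image]
  rcases lx_trans h1 h2 with h3 | ⟨h3, h4⟩
  · have hd : 0 < q.1 - p.1 := sub_pos.mpr h3
    have h5 : p.1 ≤ z.1 := by rcases h1 with h1 | ⟨h1, -⟩ <;> [exact h1.le; exact h1.le]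
    have h6 : z.1 ≤ q.1 := by rcases h2 with h1 | ⟨h1, -⟩ <;> [exact h1.le; exact h1.le]
    refine ⟨(z.1 - p.1) / (q.1 - p.1), ⟨div_nonneg (sub_nonneg.mpr h5) hd.le,
      (div_le_one hd).mpr (by linarith)⟩, ?_⟩
    refine Prod.ext ?_ ?_
    · simp only [Prod.fst_add, Prod.smul_fst, smul_eq_mul]
      field_simp
      ring
    · simp only [Prod.snd_add, Prod.smul_snd, smul_eq_mul]
      field_simp
      linarith
  · have h5 : p.1 = z.1 := by
      rcases h1 with h1 | ⟨h1, -⟩
      · rcases h2 with h2 | ⟨h2, -⟩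
        · exact absurd h3 (h1.trans h2).ne
        · exact absurd h3 (h2 ▸ h1).ne
      · exact h1
    have h6 : z.2 < p.2 := by
      rcases h1 with h1 | ⟨-, h1⟩
      · exact absurd h5 h1.ne
      · exact h1
    have h7 : q.2 < z.2 := by
      rcases h2 with h1 | ⟨-, h1⟩
      · exact absurd (h5.symm.trans h3) h1.ne
      · exact h1
    have hd : 0 < p.2 - q.2 := sub_pos.mpr h4
    refine ⟨(p.2 - z.2) / (p.2 - q.2), ⟨div_nonneg (by linarith) hd.le,
      (div_le_one hd).mpr (by linarith)⟩, ?_⟩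
    refine Prod.ext ?_ ?_
    · simp only [Prod.fst_add, Prod.smul_fst, smul_eq_mul]
      rw [← h3, ← h5]
      ring
    · simp only [Prod.snd_add, Prod.smul_snd, smul_eq_mul]
      field_simp
      ring

theorem t2_lt {p q z : Pt} (hpq : lx p q) (hz : z ∉ segment ℝ p q) :
    rr p q z + ss p q z = lxi p z + lxi q z := by
  have hzp : z ≠ p := by
    rintro rfl
    exact hz (left_mem_segment ℝ z q)
  have hzq : z ≠ q := by
    rintro rfl
    exact hz (right_mem_segment ℝ p z)
  unfold rr ss lxi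
  rcases lx_total hzp with h1 | h1
  · -- `z < p < q`
    have h2 := lx_trans h1 hpq
    have h3 := t2_asymm h1
    have h4 := t2_asymm h2
    simp [h3, h4]
  · rcases lx_total hzq with h2 | h2
    · have h3 := t2_asymm h1
      have h4 := t2_asymm h2
      have h5 : ori p q z ≠ 0 := fun h => hz (t2_mem h1 h2 h)
      rcases lt_or_gt_of_ne h5 with h6 | h6
      · have h7 : ¬ 0 < ori p q z := h6.not_gt
        simp [h1, h2, h4, h6, h7]
      · have h7 : ¬ ori p q z < 0 := h6.not_gt
        simp [h1, h2, h4, h6, h7]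
    · have h3 := t2_asymm h1
      have h4 := t2_asymm h2
      simp [h1, h2, h3, h4]
      decide

/-- `z` is not on the segment: if it is between the ends in the order, the orientation is not zero
(on a line through `p`, `q` the points between `p` and `q` in the order are those of the segment),
so exactly one of below and above; it is between iff exactly one of `lx p z`, `lx q z` holds. -/
theorem rr_add_ss {p q z : Pt} (hpq : p ≠ q) (hz : z ∉ segment ℝ p q) :
    rr p q z + ss p q z = lxi p z + lxi q z := by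
  rcases lx_total hpq with h | h
  · exact t2_lt h hz
  · rw [rr_comm, ss_comm, add_comm (lxi p z)]
    rw [segment_symm] at hz
    exact t2_lt h hz

/-- a point beyond both ends in the first coordinate -/
theorem rr_right {p q z : Pt} (hp : p.1 < z.1) (hq : q.1 < z.1) : rr p q z = 0 := by
  unfold rr
  rw [if_neg]
  rintro (⟨-, h, -⟩ | ⟨-, h, -⟩)
  · exact t2_asymm h (Or.inl hq)
  · exact t2_asymm h (Or.inl hp)

theorem rr_left {p q z : Pt} (hp : z.1 < p.1) (hq : z.1 < q.1) : rr p q z = 0 := by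
  unfold rr
  rw [if_neg]
  rintro (⟨h, -, -⟩ | ⟨h, -, -⟩)
  · exact t2_asymm h (Or.inl hp)
  · exact t2_asymm h (Or.inl hq)

theorem t2_le {a b : Pt} (h : lx a b) : a.1 ≤ b.1 := by
  rcases h with h | ⟨h, -⟩
  · exact h.le
  · exact h.le

/-- a vertical segment is never above a point that is not on its line or is outside -/
theorem rr_ver {p q z : Pt} (h : p.1 = q.1) (hz : z ∉ segment ℝ p q) : rr p q z = 0 := by
  unfold rr
  rw [if_neg]
  rintro (⟨h1, h2, h3⟩ | ⟨h1, h2, h3⟩)
  · have e : z.1 = p.1 := le_antisymm ((t2_le h2).trans h.symm.le) (t2_le h1)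
    unfold ori at h3
    rw [← h, e, sub_self, zero_mul, mul_zero, sub_self] at h3
    exact lt_irrefl _ h3
  · have e : z.1 = q.1 := le_antisymm ((t2_le h2).trans h.le) (t2_le h1)
    unfold ori at h3
    rw [h, e, sub_self, zero_mul, mul_zero, sub_self] at h3
    exact lt_irrefl _ h3

/-- a horizontal segment over `z` -/
theorem rr_hor_one {p q z : Pt} (h : p.2 = q.2) (h1 : p.1 < z.1) (h2 : z.1 < q.1)
    (h3 : z.2 < p.2) : rr p q z = 1 := by
  unfold rr
  rw [if_pos]
  refine Or.inl ⟨Or.inl h1, Or.inl h2, ?_⟩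
  unfold ori
  rw [← h, sub_self, zero_mul, sub_zero]
  exact mul_neg_of_pos_of_neg (by linarith) (by linarith)

theorem rr_hor_zero {p q z : Pt} (h : p.2 = q.2) (h3 : p.2 < z.2) : rr p q z = 0 := by
  unfold rr
  rw [if_neg]
  rintro (⟨h1, h2, h4⟩ | ⟨h1, h2, h4⟩)
  · unfold ori at h4
    rw [← h, sub_self, zero_mul, sub_zero] at h4
    have h5 := (t2_le h1).trans (t2_le h2)
    exact h4.not_ge (mul_nonneg (by linarith) (by linarith))
  · unfold ori at h4
    rw [h, sub_self, zero_mul, sub_zero] at h4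
    have h5 := (t2_le h1).trans (t2_le h2)
    exact h4.not_ge (mul_nonneg (by linarith) (by linarith))

end Pool.Agent.H54R
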