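import Pool.Agent.Lib.H54R.TDefs
import Pool.Agent.Lib.H54R.T1
import Pool.Agent.Lib.H54R.T2

/-!
# T3: polygonal paths
-/

set_option autoImplicit false

namespace Pool.Agent.H54R

theorem t3_two (x : ZMod 2) : x + x = 0 := CharTwo.add_self_eq_zero x

theorem t3_edg_cons {α : Type} (x y : α) (l : List α) :
    edg (x :: y :: l) = (x, y) :: edg (y :: l) := rfl

theorem t3_edg_one {α : Type} (x : α) : edg [x] = [] := rfl

theorem t3_sumE_one (f : Pt → Pt → ZMod 2) (x : Pt) : sumE f [x] = 0 := rfl

theorem t3_sumE_nil (f : Pt → Pt → ZMod 2) : sumE f [] = 0 := rfl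

theorem sumE_cons (f : Pt → Pt → ZMod 2) (l : List Pt) (x y : Pt) :
    sumE f (x :: y :: l) = f x y + sumE f (y :: l) := by
  unfold sumE
  rw [t3_edg_cons, List.map_cons, List.sum_cons]

theorem t3_tele (g : Pt → ZMod 2) (l : List Pt) : ∀ (x b : Pt),
    (x :: l).getLast? = some b → sumE (fun x y => g x + g y) (x :: l) = g x + g b := by
  induction l with
  | nil =>
    intro x b h
    have : x = b := by simpa using h
    rw [t3_sumE_one, this, t3_two]
  | cons y l ih =>
    intro x b h
    rw [List.getLast?_cons_cons] at h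
    rw [sumE_cons, ih y b h]
    have := t3_two (g y)
    linear_combination this

theorem t3_path {a b : Pt} {l : List Pt} (h : PathL a b l) :
    ∃ y k, l = a :: y :: k ∧ (a :: y :: k).getLast? = some b := by
  obtain ⟨h1, h2, h3⟩ := h
  match l, h1, h2, h3 with
  | x :: y :: k, _, h2, h3 =>
    have : x = a := by simpa using h2
    subst this
    exact ⟨y, k, rfl, h3⟩

/-- telescoping modulo 2 -/
theorem sumE_tele (g : Pt → ZMod 2) {a b : Pt} {l : List Pt} (h : PathL a b l) :
    sumE (fun x y => g x + g y) l = g a + g b := by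
  obtain ⟨y, k, rfl, h3⟩ := t3_path h
  exact t3_tele g _ _ _ h3

theorem sumE_add (f g : Pt → Pt → ZMod 2) (l : List Pt) :
    sumE (fun x y => f x y + g x y) l = sumE f l + sumE g l := by
  unfold sumE
  rw [← List.sum_map_add]

theorem sumE_congr {f g : Pt → Pt → ZMod 2} {l : List Pt}
    (h : ∀ e ∈ edg l, f e.1 e.2 = g e.1 e.2) : sumE f l = sumE g l := by
  unfold sumE
  rw [List.map_congr_left h]

theorem sumE_zero {f : Pt → Pt → ZMod 2} {l : List Pt}
    (h : ∀ e ∈ edg l, f e.1 e.2 = 0) : sumE f l = 0 := by
  unfold sumE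
  rw [List.map_congr_left h]
  simp

/-- concatenation of two paths at a common end: `l ++ [x]` and `x :: k` -/
theorem sumE_append (f : Pt → Pt → ZMod 2) (l k : List Pt) (x : Pt) :
    sumE f (l ++ x :: k) = sumE f (l ++ [x]) + sumE f (x :: k) := by
  induction l with
  | nil => rw [List.nil_append, List.nil_append, t3_sumE_one, zero_add]
  | cons y l ih =>
    match l, ih with
    | [], _ =>
      change sumE f (y :: x :: k) = sumE f (y :: [x]) + sumE f (x :: k)
      rw [sumE_cons, sumE_cons, t3_sumE_one, add_zero]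
    | z :: l, ih =>
      change sumE f (y :: z :: (l ++ x :: k)) = sumE f (y :: z :: (l ++ [x])) + sumE f (x :: k)
      rw [sumE_cons, sumE_cons, add_assoc]
      congr 1

theorem crL_eq {a b c d : Pt} {l : List Pt} (h : PathL c d l) (hg : GPL a b l) :
    crL a b l = rrL l a + rrL l b + ss a b c + ss a b d := by
  have h1 : crL a b l = sumE (fun x y => (rr x y a + rr x y b) + (ss a b x + ss a b y)) l := by
    apply sumE_congr
    intro e he
    rw [cr_eq a b e.1 e.2 (hg e he)]
    ring
  rw [h1, sumE_add, sumE_add, sumE_tele (fun x => ss a b x) h]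
  unfold rrL
  ring

/-- The parity formula for closed polygons. -/
theorem crL_closed {a b c : Pt} {l : List Pt} (h : PathL c c l) (hg : GPL a b l) :
    crL a b l = rrL l a + rrL l b := by
  rw [crL_eq h hg]
  have := t3_two (ss a b c)
  linear_combination this

theorem t3_swap {α β : Type} (f : α → β → ZMod 2) (k : List α) (l : List β) :
    (k.map fun x => (l.map fun y => f x y).sum).sum =
      (l.map fun y => (k.map fun x => f x y).sum).sum := by
  induction k with
  | nil => simp
  | cons x k ih =>
    rw [List.map_cons, List.sum_cons, ih]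
    rw [← List.sum_map_add]
    simp only [List.map_cons, List.sum_cons]

theorem crLL_comm (k l : List Pt) : crLL k l = crLL l k := by
  unfold crLL crL sumE
  rw [t3_swap]
  simp only [cr_comm]

theorem crLL_eq {a b c d : Pt} {k l : List Pt} (hk : PathL a b k) (hl : PathL c d l)
    (hg : GPLL k l) : crLL k l = rrL l a + rrL l b + ssL k c + ssL k d := by
  have h1 : crLL k l = sumE (fun x y => (rrL l x + rrL l y) + (ss x y c + ss x y d)) k := by
    apply sumE_congr
    intro e he
    rw [crL_eq hl (hg e he)]
    ring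
  rw [h1, sumE_add, sumE_add (fun x y => ss x y c), sumE_tele (fun x => rrL l x) hk]
  unfold ssL
  ring

theorem rrL_add_ssL {a b z : Pt} {l : List Pt} (h : PathL a b l)
    (hl : ∀ e ∈ edg l, e.1 ≠ e.2 ∧ z ∉ segment ℝ e.1 e.2) :
    rrL l z + ssL l z = lxi a z + lxi b z := by
  unfold rrL ssL
  rw [← sumE_add, ← sumE_tele (fun x => lxi x z) h]
  apply sumE_congr
  intro e he
  exact rr_add_ss (hl e he).1 (hl e he).2

end Pool.Agent.H54R
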