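import Pool.Agent.Lib.H54R.SDefs
import Pool.Agent.Lib.H54R.T1
import Pool.Agent.Lib.H54R.T2
import Pool.Agent.Lib.H54R.T3

/-!
# S2: general position in a plane drawing
-/

set_option autoImplicit false

namespace Pool.Agent.H54R

theorem s2_mem_of_edg {α : Type} {l : List α} {e : α × α} (h : e ∈ edg l) : e.1 ∈ l ∧ e.2 ∈ l := by
  have h1 := List.of_mem_zip (show (e.1, e.2) ∈ l.zip l.tail from h)
  exact ⟨h1.1, List.mem_of_mem_tail h1.2⟩

theorem s2_P (D : PD) {a b : Pt} (h : D.Sg a b) : a ∈ D.P ∧ b ∈ D.P ∧ a ≠ b := by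
  rcases h with h | h
  · exact D.LP h
  · exact D.UP h

/-- Two segments of the drawing without common ends are in general position. -/
theorem PD.gp4 (D : PD) {a b c d : Pt} (h : D.Sg a b) (h' : D.Sg c d) (hac : a ≠ c) (had : a ≠ d)
    (hbc : b ≠ c) (hbd : b ≠ d) : GP4 a b c d := by
  obtain ⟨ha, hb, hab⟩ := s2_P D h
  obtain ⟨hc, hd, hcd⟩ := s2_P D h'
  exact ⟨hab, hcd, D.nv h' ha hac had, D.nv h' hb hbc hbd, D.nv h hc hac.symm hbc.symm,
    D.nv h hd had.symm hbd.symm⟩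

theorem s2_sym {a b c d : Pt} (hac : a ≠ c) (had : a ≠ d) : s(a, b) ≠ s(c, d) := by
  intro he
  rw [Sym2.eq_iff] at he
  rcases he with he | he
  · exact hac he.1
  · exact had he.1

theorem s2_cr (D : PD) {a b c d : Pt} (h : D.U a b) (h' : D.Sg c d) (hac : a ≠ c) (had : a ≠ d) :
    cr a b c d = 0 := by
  rw [cr, if_neg (D.un h h' (s2_sym hac had))]

theorem PD.gpl (D : PD) {a b : Pt} {l : List Pt} (hab : D.Sg a b) (hl : D.PathD l)
    (ha : a ∉ l) (hb : b ∉ l) : GPL a b l := by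
  intro e he
  obtain ⟨h1, h2⟩ := s2_mem_of_edg he
  exact D.gp4 hab (hl e he) (fun hh => ha (hh ▸ h1)) (fun hh => ha (hh ▸ h2))
    (fun hh => hb (hh ▸ h1)) (fun hh => hb (hh ▸ h2))

/-- two paths of the drawing without common vertices -/
theorem PD.gpll (D : PD) {k l : List Pt} (hk : D.PathD k) (hl : D.PathD l)
    (h : ∀ x ∈ k, x ∉ l) : GPLL k l := by
  intro e he
  obtain ⟨h1, h2⟩ := s2_mem_of_edg he
  exact D.gpl (hk e he) hl (h _ h1) (h _ h2)

theorem PD.crL_zero (D : PD) {a b : Pt} {l : List Pt} (hab : D.Sg a b) (hl : D.PathU l)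
    (ha : a ∉ l) (hb : b ∉ l) : crL a b l = 0 := by
  refine sumE_zero fun e he => ?_
  obtain ⟨h1, h2⟩ := s2_mem_of_edg he
  show cr a b e.1 e.2 = 0
  rw [cr_comm]
  exact s2_cr D (hl e he) hab (fun hh => ha (hh ▸ h1)) (fun hh => hb (hh ▸ h1))

theorem PD.crL_zero' (D : PD) {a b : Pt} {l : List Pt} (hab : D.U a b) (hl : D.PathD l)
    (ha : a ∉ l) (hb : b ∉ l) : crL a b l = 0 := by
  refine sumE_zero fun e he => ?_
  obtain ⟨h1, h2⟩ := s2_mem_of_edg he
  exact s2_cr D hab (hl e he) (fun hh => ha (hh ▸ h1)) (fun hh => ha (hh ▸ h2))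

/-- an uncrossed path has no crossings -/
theorem PD.crLL_zero (D : PD) {k l : List Pt} (hk : D.PathU k) (hl : D.PathD l)
    (h : ∀ x ∈ k, x ∉ l) : crLL k l = 0 := by
  refine sumE_zero fun e he => ?_
  obtain ⟨h1, h2⟩ := s2_mem_of_edg he
  exact D.crL_zero' (hk e he) hl (h _ h1) (h _ h2)

theorem PathD.of_U (D : PD) {l : List Pt} (h : D.PathU l) : D.PathD l :=
  fun e he => Or.inr (h e he)

/-- the members of the ends of edges are members of the path -/
theorem mem_of_edg {α : Type} {l : List α} {e : α × α} (h : e ∈ edg l) : e.1 ∈ l ∧ e.2 ∈ l :=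
  s2_mem_of_edg h

end Pool.Agent.H54R
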