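import Pool.Agent.Lib.H54R.SDefs
import Pool.Agent.Lib.H54R.S2

/-!
# S3: the path drawn for a list of vertices
-/

set_option autoImplicit false

namespace Pool.Agent.H54R

theorem edg_cons {α : Type} (a b : α) (l : List α) :
    edg (a :: b :: l) = (a, b) :: edg (b :: l) := rfl

theorem edg_append {α : Type} (l k : List α) (x : α) :
    edg (l ++ x :: k) = edg (l ++ [x]) ++ edg (x :: k) := by
  induction l with
  | nil => rfl
  | cons a l ih =>
    cases l with
    | nil => rfl
    | cons b l =>
      change edg (a :: b :: (l ++ x :: k)) = edg (a :: b :: (l ++ [x])) ++ edg (x :: k)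
      rw [edg_cons, edg_cons, List.cons_append]
      congr 1

theorem edg_map {α β : Type} (f : α → β) (l : List α) :
    edg (l.map f) = (edg l).map fun e => (f e.1, f e.2) := by
  induction l with
  | nil => rfl
  | cons a l ih =>
    cases l with
    | nil => rfl
    | cons b l =>
      rw [List.map_cons, List.map_cons, edg_cons, edg_cons, List.map_cons, ← ih]
      rfl

theorem s3_ex_cons {N : Net} (D : ND N) (b : Vx) (l : List Vx) :
    ∃ t, D.ex (b :: l) = D.p b :: t := by
  cases l with
  | nil => exact ⟨[], rfl⟩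
  | cons c l => exact ⟨D.m b c :: D.ex (c :: l), rfl⟩

/-- the points of `ex l` are the images of the members of `l` and middle points -/
theorem ND.mem_ex {N : Net} (D : ND N) {l : List Vx} {x : Pt} (h : x ∈ D.ex l) :
    (∃ v ∈ l, x = D.p v) ∨ ∃ e ∈ edg l, x = D.m e.1 e.2 := by
  induction l with
  | nil => exact absurd h (List.not_mem_nil)
  | cons a l ih =>
    cases l with
    | nil =>
      left
      refine ⟨a, List.mem_singleton_self a, ?_⟩
      exact List.mem_singleton.mp h
    | cons b l =>
      have h' : x ∈ D.p a :: D.m a b :: D.ex (b :: l) := h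
      rw [List.mem_cons, List.mem_cons] at h'
      rcases h' with h' | h' | h'
      · exact Or.inl ⟨a, List.mem_cons_self, h'⟩
      · right
        refine ⟨(a, b), ?_, h'⟩
        rw [edg_cons]
        exact List.mem_cons_self
      · rcases ih h' with ⟨v, hv, hx⟩ | ⟨e, he, hx⟩
        · exact Or.inl ⟨v, List.mem_cons_of_mem _ hv, hx⟩
        · right
          refine ⟨e, ?_, hx⟩
          rw [edg_cons]
          exact List.mem_cons_of_mem _ he

theorem s3_HvPath_tail {N : Net} {a b : Vx} {l : List Vx} (h : N.HvPath (a :: b :: l)) :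
    N.isV a ∧ N.isV b ∧ N.hv a b ∧ N.HvPath (b :: l) := by
  obtain ⟨h1, h2⟩ := h
  rw [edg_cons] at h2
  refine ⟨h1 a List.mem_cons_self, h1 b (List.mem_cons_of_mem _ List.mem_cons_self),
    h2 (a, b) List.mem_cons_self, fun v hv => h1 v (List.mem_cons_of_mem _ hv),
    fun e he => h2 e (List.mem_cons_of_mem _ he)⟩

theorem ND.ex_pathU {N : Net} (D : ND N) {l : List Vx} (h : N.HvPath l) : D.PathU (D.ex l) := by
  induction l with
  | nil => intro e he; exact absurd he List.not_mem_nil
  | cons a l ih =>
    cases l with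
    | nil => intro e he; exact absurd he List.not_mem_nil
    | cons b l =>
      obtain ⟨ha, hb, hab, ht⟩ := s3_HvPath_tail h
      have ih' := ih ht
      obtain ⟨t, htt⟩ := s3_ex_cons D b l
      have e1 : D.ex (a :: b :: l) = D.p a :: D.m a b :: D.p b :: t := by
        change D.p a :: D.m a b :: D.ex (b :: l) = _
        rw [htt]
      intro e he
      rw [e1, edg_cons, edg_cons, List.mem_cons, List.mem_cons] at he
      rcases he with rfl | rfl | he
      · exact D.U1 ha hb hab
      · exact D.U2 ha hb hab
      · rw [htt] at ih'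
        exact ih' e he

theorem ND.ex_pathL {N : Net} (D : ND N) {l : List Vx} (hl : 2 ≤ l.length) {a b : Vx}
    (ha : l.head? = some a) (hb : l.getLast? = some b) : PathL (D.p a) (D.p b) (D.ex l) := by
  have key : ∀ (l : List Vx) (a : Vx), 2 ≤ l.length → l.head? = some a → l.getLast? = some b →
      PathL (D.p a) (D.p b) (D.ex l) := by
    intro l
    induction l with
    | nil => intro a h; simp at h
    | cons c l ih =>
      intro a h2 h3 h4
      cases l with
      | nil => simp at h2
      | cons d l =>
        have hca : c = a := by simpa using h3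
        subst hca
        obtain ⟨t, htt⟩ := s3_ex_cons D d l
        have e1 : D.ex (c :: d :: l) = D.p c :: D.m c d :: D.ex (d :: l) := rfl
        refine ⟨?_, ?_, ?_⟩
        · rw [e1]; simp
        · rw [e1]; rfl
        · rw [e1]
          cases l with
          | nil =>
            have hdb : d = b := by simpa using h4
            subst hdb
            rfl
          | cons f l =>
            have h5 : (d :: f :: l).getLast? = some b := by
              rw [List.getLast?_cons_cons] at h4
              exact h4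
            have h6 := ih d (by simp) rfl h5
            have h7 := h6.2.2
            rw [htt] at h7 ⊢
            rw [List.getLast?_cons_cons, List.getLast?_cons_cons]
            exact h7
  exact key l a hl ha hb

theorem s3_mem_of_edg {α : Type} {l : List α} {e : α × α} (h : e ∈ edg l) :
    e.1 ∈ l ∧ e.2 ∈ l := by
  have h1 : (e.1, e.2) ∈ l.zip l.tail := h
  exact ⟨(List.of_mem_zip h1).1, List.mem_of_mem_tail (List.of_mem_zip h1).2⟩

/-- disjoint lists of vertices give disjoint paths -/
theorem ND.ex_disj {N : Net} (D : ND N) {l k : List Vx} (hl : N.HvPath l) (hk : N.HvPath k)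
    (h : ∀ v ∈ l, v ∉ k) : ∀ x ∈ D.ex l, x ∉ D.ex k := by
  intro x hx hx'
  rcases D.mem_ex hx with ⟨v, hv, rfl⟩ | ⟨e, he, rfl⟩
  · rcases D.mem_ex hx' with ⟨w, hw, hvw⟩ | ⟨e', he', hve⟩
    · have := D.pinj (hl.1 v hv) (hk.1 w hw) hvw
      subst this
      exact h v hv hw
    · have hm := s3_mem_of_edg he'
      exact D.mp (hk.1 _ hm.1) (hk.1 _ hm.2) (hk.2 e' he') (hl.1 v hv) hve.symm
  · have hm := s3_mem_of_edg he
    rcases D.mem_ex hx' with ⟨w, hw, hvw⟩ | ⟨e', he', hve⟩
    · exact D.mp (hl.1 _ hm.1) (hl.1 _ hm.2) (hl.2 e he) (hk.1 w hw) hvw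
    · have hm' := s3_mem_of_edg he'
      have hs := D.minj (hl.1 _ hm.1) (hl.1 _ hm.2) (hk.1 _ hm'.1) (hk.1 _ hm'.2)
        (hl.2 e he) (hk.2 e' he') hve
      rw [Sym2.eq_iff] at hs
      rcases hs with ⟨h1, _⟩ | ⟨h1, _⟩
      · exact h _ hm.1 (h1 ▸ hm'.1)
      · exact h _ hm.1 (h1 ▸ hm'.2)

/-- a path of heavy edges and a list of vertices disjoint from it -/
theorem ND.ex_disj_map {N : Net} (D : ND N) {l k : List Vx} (hl : N.HvPath l)
    (hk : ∀ v ∈ k, N.isV v) (h : ∀ v ∈ l, v ∉ k) : ∀ x ∈ D.ex l, x ∉ k.map D.p := by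
  intro x hx hx'
  rw [List.mem_map] at hx'
  obtain ⟨w, hw, hxw⟩ := hx'
  rcases D.mem_ex hx with ⟨v, hv, rfl⟩ | ⟨e, he, rfl⟩
  · have := D.pinj (hk w hw) (hl.1 v hv) hxw
    subst this
    exact h w hv hw
  · have hm := s3_mem_of_edg he
    exact D.mp (hl.1 _ hm.1) (hl.1 _ hm.2) (hl.2 e he) (hk w hw) hxw.symm

theorem s3_edg_range {n : ℕ} {e : ℕ × ℕ} (h : e ∈ edg (List.range (n + 1))) :
    ∃ i < n, e = (i, i + 1) := by
  have h1 : e ∈ (List.range (n + 1)).zip (List.range (n + 1)).tail := h
  rw [List.mem_iff_getElem] at h1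
  obtain ⟨i, hi, he⟩ := h1
  rw [List.length_zip, List.length_tail, List.length_range] at hi
  rw [List.getElem_zip, List.getElem_tail, List.getElem_range, List.getElem_range] at he
  exact ⟨i, by omega, he.symm⟩

theorem HvPath_seqV {N : Net} {f : ℕ → Vx} {a n : ℕ} (h1 : ∀ i ≤ n, N.isV (f (a + i)))
    (h2 : ∀ i < n, N.hv (f (a + i)) (f (a + i + 1))) : N.HvPath (seqV f a n) := by
  constructor
  · intro v hv
    rw [seqV, List.mem_map] at hv
    obtain ⟨i, hi, rfl⟩ := hv
    rw [List.mem_range] at hi
    exact h1 i (by omega)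
  · intro e he
    rw [seqV, edg_map, List.mem_map] at he
    obtain ⟨q, hq, rfl⟩ := he
    obtain ⟨i, hi, rfl⟩ := s3_edg_range hq
    exact h2 i hi

theorem mem_seqV {f : ℕ → Vx} {a n : ℕ} {v : Vx} :
    v ∈ seqV f a n ↔ ∃ i ≤ n, v = f (a + i) := by
  rw [seqV, List.mem_map]
  constructor
  · rintro ⟨i, hi, rfl⟩
    rw [List.mem_range] at hi
    exact ⟨i, by omega, rfl⟩
  · rintro ⟨i, hi, rfl⟩
    exact ⟨i, List.mem_range.mpr (by omega), rfl⟩

theorem seqV_head (f : ℕ → Vx) (a n : ℕ) : (seqV f a n).head? = some (f a) := by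
  rw [seqV, List.range_succ_eq_map]
  rfl

theorem seqV_last (f : ℕ → Vx) (a n : ℕ) : (seqV f a n).getLast? = some (f (a + n)) := by
  rw [seqV, List.range_succ, List.map_append, List.map_cons, List.map_nil,
    List.getLast?_append]
  rfl

theorem s3_edg_reverse {α : Type} {l : List α} {e : α × α} (h : e ∈ edg l.reverse) :
    (e.2, e.1) ∈ edg l := by
  induction l with
  | nil => exact absurd h List.not_mem_nil
  | cons a l ih =>
    cases l with
    | nil => exact absurd h List.not_mem_nil
    | cons b l =>
      rw [List.reverse_cons, List.reverse_cons, List.append_assoc, List.singleton_append,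
        edg_append, List.mem_append] at h
      rw [edg_cons, List.mem_cons]
      rcases h with h | h
      · right
        apply ih
        rw [List.reverse_cons]
        exact h
      · left
        have h' : e ∈ [(b, a)] := h
        rw [List.mem_singleton] at h'
        rw [h']

theorem HvPath.reverse {N : Net} {l : List Vx} (h : N.HvPath l) : N.HvPath l.reverse := by
  refine ⟨fun v hv => h.1 v (List.mem_reverse.mp hv), fun e he => ?_⟩
  exact N.hv_symm (h.2 _ (s3_edg_reverse he))

/-- two paths joined by a heavy edge -/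
theorem HvPath.append {N : Net} {l k : List Vx} (hl : N.HvPath l) (hk : N.HvPath k) {a b : Vx}
    (ha : l.getLast? = some a) (hb : k.head? = some b) (hab : N.hv a b) :
    N.HvPath (l ++ k) := by
  obtain ⟨l', rfl⟩ := List.getLast?_eq_some_iff.mp ha
  obtain ⟨k', rfl⟩ := List.head?_eq_some_iff.mp hb
  refine ⟨fun v hv => ?_, fun e he => ?_⟩
  · rw [List.mem_append] at hv
    rcases hv with hv | hv
    · exact hl.1 v hv
    · exact hk.1 v hv
  · rw [List.append_assoc, List.singleton_append, edg_append, edg_cons, List.mem_append,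
      List.mem_cons] at he
    rcases he with he | rfl | he
    · exact hl.2 e he
    · exact hab
    · exact hk.2 e he

end Pool.Agent.H54R
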