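import Pool.Agent.Lib.H54R.SDefs
import Pool.Agent.Lib.H54R.S2
import Pool.Agent.Lib.H54R.S3

/-!
# S4: complete lines as paths, and the closed polygon
-/

set_option autoImplicit false

namespace Pool.Agent.H54R

theorem Net.cl_isV (N : Net) {k : ℕ} (hk : Cpl N.N k) : ∀ v ∈ N.cl k, N.isV v := by
  intro v hv
  rw [Net.cl, List.mem_append, List.mem_cons, List.mem_map, List.mem_singleton] at hv
  rcases hv with (rfl | ⟨w, hw, rfl⟩) | rfl
  · exact hk.1
  · exact (N.ci_mem hk hw).1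
  · exact hk.1

theorem Net.rl_isV (N : Net) {k : ℕ} (hk : Cpl N.M k) : ∀ v ∈ N.rl k, N.isV v := by
  intro v hv
  rw [Net.rl, List.mem_append, List.mem_cons, List.mem_map, List.mem_singleton] at hv
  rcases hv with (rfl | ⟨w, hw, rfl⟩) | rfl
  · exact hk.1
  · exact (N.ri_mem hk hw).1
  · exact hk.1

theorem s4_clp_Lt {N : Net} (D : ND N) {k : ℕ} (hk : Cpl N.N k) :
    ∀ e ∈ edg (D.clp k), D.Lt e.1 e.2 := by
  intro e he
  rw [ND.clp, edg_map, List.mem_map] at he
  obtain ⟨q, hq, rfl⟩ := he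
  have hm := mem_of_edg hq
  exact D.Lt_of (N.cl_isV hk _ hm.1) (N.cl_isV hk _ hm.2) (N.ci_li hk q hq)

theorem ND.clp_pathD {N : Net} (D : ND N) {k : ℕ} (hk : Cpl N.N k) : D.PathD (D.clp k) :=
  fun e he => Or.inl (s4_clp_Lt D hk e he)

/-- all edges of a complete line are light -/
theorem ND.clp_Lt {N : Net} (D : ND N) {k : ℕ} (hk : Cpl N.N k) :
    ∀ e ∈ edg (D.clp k), D.Lt e.1 e.2 := s4_clp_Lt D hk

theorem s4_clp_cons {N : Net} (D : ND N) (k : ℕ) :
    ∃ t, D.clp k = D.p (.B k) :: (t ++ [D.p (.T k)]) := by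
  refine ⟨((N.ci k).map fun v => Vx.blk v.1 v.2).map D.p, ?_⟩
  rw [ND.clp, Net.cl, List.map_append, List.map_cons]
  rfl

theorem s4_hubs_cons {N : Net} (D : ND N) (k : ℕ) :
    ∃ t, D.hubs k = D.p (.T k) :: (t ++ [D.p (.B k)]) :=
  ⟨[D.m (.T k) (.hub 2), D.p (.hub 2), D.m (.hub 2) (.hub 4), D.p (.hub 4),
    D.m (.hub 4) (.hub 3), D.p (.hub 3), D.m (.hub 3) (.B k)], rfl⟩

theorem s4_gam_eq {N : Net} (D : ND N) (k : ℕ) :
    ∃ t t', D.clp k = D.p (.B k) :: (t ++ [D.p (.T k)]) ∧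
      D.hubs k = D.p (.T k) :: (t' ++ [D.p (.B k)]) ∧
      D.gam k = D.p (.B k) :: (t ++ D.p (.T k) :: (t' ++ [D.p (.B k)])) := by
  obtain ⟨t, ht⟩ := s4_clp_cons D k
  obtain ⟨t', ht'⟩ := s4_hubs_cons D k
  refine ⟨t, t', ht, ht', ?_⟩
  rw [ND.gam, ht, ht', List.tail_cons, List.cons_append, List.append_assoc]
  rfl

theorem s4_edg_gam {N : Net} (D : ND N) (k : ℕ) :
    edg (D.gam k) = edg (D.clp k) ++ edg (D.hubs k) := by
  obtain ⟨t, t', h1, h2, h3⟩ := s4_gam_eq D k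
  rw [h1, h2, h3]
  exact edg_append (D.p (.B k) :: t) (t' ++ [D.p (.B k)]) (D.p (.T k))

theorem ND.clp_pathL {N : Net} (D : ND N) (k : ℕ) :
    PathL (D.p (.B k)) (D.p (.T k)) (D.clp k) := by
  obtain ⟨t, ht⟩ := s4_clp_cons D k
  rw [ht]
  refine ⟨by simp, rfl, ?_⟩
  rw [← List.cons_append, List.getLast?_append]
  rfl

theorem ND.hubs_pathU {N : Net} (D : ND N) {k : ℕ} (hk : k ≤ 4 * N.N) : D.PathU (D.hubs k) := by
  apply ND.ex_pathU
  constructor
  · intro v hv
    rw [List.mem_cons, List.mem_cons, List.mem_cons, List.mem_cons, List.mem_singleton] at hv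
    rcases hv with rfl | rfl | rfl | rfl | rfl
    · exact hk
    · exact (by decide : (2 : ℕ) < 5)
    · exact (by decide : (4 : ℕ) < 5)
    · exact (by decide : (3 : ℕ) < 5)
    · exact hk
  · intro e he
    rw [edg_cons, edg_cons, edg_cons, edg_cons, List.mem_cons, List.mem_cons, List.mem_cons,
      List.mem_cons] at he
    rcases he with rfl | rfl | rfl | rfl | he
    · exact N.hv_symm (N.hT hk)
    · exact N.hv_symm (N.hZ (by decide))
    · exact N.hZ (by decide)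
    · exact N.hB hk
    · exact absurd he List.not_mem_nil

theorem ND.gam_pathD {N : Net} (D : ND N) {k : ℕ} (hk : Cpl N.N k) : D.PathD (D.gam k) := by
  intro e he
  rw [s4_edg_gam, List.mem_append] at he
  rcases he with he | he
  · exact Or.inl (D.clp_Lt hk e he)
  · exact Or.inr (D.hubs_pathU hk.1 e he)

/-- the polygon is closed -/
theorem ND.gam_pathL {N : Net} (D : ND N) (k : ℕ) :
    PathL (D.p (.B k)) (D.p (.B k)) (D.gam k) := by
  obtain ⟨t, t', h1, h2, h3⟩ := s4_gam_eq D k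
  rw [h3]
  refine ⟨by simp; omega, rfl, ?_⟩
  have e1 : D.p (.B k) :: (t ++ D.p (.T k) :: (t' ++ [D.p (.B k)])) =
      (D.p (.B k) :: (t ++ D.p (.T k) :: t')) ++ [D.p (.B k)] := by simp
  rw [e1, List.getLast?_append]
  rfl

/-- members of the polygon: members of the line, hubs, middle points of the hub path -/
theorem ND.mem_gam {N : Net} (D : ND N) {k : ℕ} {x : Pt} :
    x ∈ D.gam k ↔ x ∈ D.clp k ∨ x ∈ D.hubs k := by
  obtain ⟨t, t', h1, h2, h3⟩ := s4_gam_eq D k
  rw [h1, h2, h3]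
  simp only [List.mem_cons, List.mem_append, List.not_mem_nil, or_false]
  tauto

/-- crossings with the polygon are crossings with the line or with the hub path -/
theorem ND.crL_gam {N : Net} (D : ND N) (k : ℕ) (x y : Pt) :
    crL x y (D.gam k) = crL x y (D.clp k) + crL x y (D.hubs k) := by
  rw [crL, crL, crL, sumE, sumE, sumE, s4_edg_gam, List.map_append, List.sum_append]

/-- the long wire `4 j` is a single segment -/
theorem ND.clp_long {N : Net} (D : ND N) (j : ℕ) :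
    D.clp (4 * j) = [D.p (.B (4 * j)), D.p (.T (4 * j))] := by
  rw [ND.clp, Net.cl, N.ci_long (Nat.mul_mod_right 4 j)]
  rfl

end Pool.Agent.H54R
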