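import Pool.Agent.Lib.H54R.SDefs
import Pool.Agent.Lib.H54R.S2
import Pool.Agent.Lib.H54R.S3
import Pool.Agent.Lib.H54R.S4

/-!
# S5: sides along segments
-/

set_option autoImplicit false

namespace Pool.Agent.H54R

theorem s5_z1 : ∀ a b : ZMod 2, 0 = a + b → a = b := by decide

theorem s5_z2 : ∀ a b c : ZMod 2, a + c + (b + c) = a + b := by decide

/-- along an uncrossed segment the side is constant -/
theorem ND.side_U {N : Net} (D : ND N) {k : ℕ} (hk : Cpl N.N k) {x y : Pt} (h : D.U x y)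
    (hx : x ∉ D.gam k) (hy : y ∉ D.gam k) : D.side k x = D.side k y := by
  have h1 := crL_closed (D.gam_pathL k) (D.gpl (Or.inr h) (D.gam_pathD hk) hx hy)
  rw [D.crL_zero' h (D.gam_pathD hk) hx hy] at h1
  rw [ND.side, ND.side, s5_z1 _ _ h1]

/-- along a light segment the side changes with the crossings with the line -/
theorem ND.side_Lt {N : Net} (D : ND N) {k : ℕ} (hk : Cpl N.N k) {x y : Pt} (h : D.Lt x y)
    (hx : x ∉ D.gam k) (hy : y ∉ D.gam k) :
    D.side k x + D.side k y = crL x y (D.clp k) := by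
  have h1 := crL_closed (D.gam_pathL k) (D.gpl (Or.inl h) (D.gam_pathD hk) hx hy)
  have hx' : x ∉ D.hubs k := fun hh => hx ((D.mem_gam).mpr (Or.inr hh))
  have hy' : y ∉ D.hubs k := fun hh => hy ((D.mem_gam).mpr (Or.inr hh))
  rw [D.crL_gam, D.crL_zero (Or.inl h) (D.hubs_pathU hk.1) hx' hy', add_zero] at h1
  rw [ND.side, ND.side, s5_z2, h1]

theorem s5_not_mem_gam {N : Net} (D : ND N) {k : ℕ} (hk : Cpl N.N k) {a : Vx} (ha : N.isV a)
    (ha' : a ∉ N.cl k ∧ a ≠ .hub 2 ∧ a ≠ .hub 3 ∧ a ≠ .hub 4) : D.p a ∉ D.gam k := by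
  intro h
  obtain ⟨h1, h2, h3, h4⟩ := ha'
  have hT : Vx.T k ∈ N.cl k := by
    rw [Net.cl, List.mem_append]
    exact Or.inr (List.mem_singleton_self _)
  have hB : Vx.B k ∈ N.cl k := by
    rw [Net.cl, List.mem_append, List.mem_cons]
    exact Or.inl (Or.inl rfl)
  have hV : ∀ v ∈ [Vx.T k, .hub 2, .hub 4, .hub 3, .B k], N.isV v := by
    intro v hv
    rw [List.mem_cons, List.mem_cons, List.mem_cons, List.mem_cons, List.mem_singleton] at hv
    rcases hv with rfl | rfl | rfl | rfl | rfl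
    · exact hk.1
    · exact (by decide : (2 : ℕ) < 5)
    · exact (by decide : (4 : ℕ) < 5)
    · exact (by decide : (3 : ℕ) < 5)
    · exact hk.1
  rcases (D.mem_gam).mp h with hc | hh
  · rw [ND.clp, List.mem_map] at hc
    obtain ⟨v, hv, hva⟩ := hc
    have := D.pinj (N.cl_isV hk v hv) ha hva
    subst this
    exact h1 hv
  · rcases D.mem_ex hh with ⟨v, hv, hva⟩ | ⟨e, he, hea⟩
    · have := D.pinj ha (hV v hv) hva
      subst this
      rw [List.mem_cons, List.mem_cons, List.mem_cons, List.mem_cons, List.mem_singleton] at hv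
      rcases hv with rfl | rfl | rfl | rfl | rfl
      · exact h1 hT
      · exact h2 rfl
      · exact h4 rfl
      · exact h3 rfl
      · exact h1 hB
    · have hm := mem_of_edg he
      have hhv : N.hv e.1 e.2 := by
        rw [edg_cons, edg_cons, edg_cons, edg_cons, List.mem_cons, List.mem_cons, List.mem_cons,
          List.mem_cons] at he
        rcases he with rfl | rfl | rfl | rfl | he
        · exact N.hv_symm (N.hT hk.1)
        · exact N.hv_symm (N.hZ (by decide))
        · exact N.hZ (by decide)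
        · exact N.hB hk.1
        · exact absurd he List.not_mem_nil
      exact D.mp (hV _ hm.1) (hV _ hm.2) hhv ha hea.symm

theorem s5_m_not_mem_gam {N : Net} (D : ND N) {k : ℕ} (hk : Cpl N.N k) {a b : Vx}
    (ha : N.isV a) (hb : N.isV b) (hab : N.hv a b)
    (ha' : a ∉ N.cl k ∧ a ≠ .hub 2 ∧ a ≠ .hub 3 ∧ a ≠ .hub 4) : D.m a b ∉ D.gam k := by
  intro h
  obtain ⟨h1, h2, h3, h4⟩ := ha'
  have hT : Vx.T k ∈ N.cl k := by
    rw [Net.cl, List.mem_append]
    exact Or.inr (List.mem_singleton_self _)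
  have hB : Vx.B k ∈ N.cl k := by
    rw [Net.cl, List.mem_append, List.mem_cons]
    exact Or.inl (Or.inl rfl)
  have hV : ∀ v ∈ [Vx.T k, .hub 2, .hub 4, .hub 3, .B k], N.isV v := by
    intro v hv
    rw [List.mem_cons, List.mem_cons, List.mem_cons, List.mem_cons, List.mem_singleton] at hv
    rcases hv with rfl | rfl | rfl | rfl | rfl
    · exact hk.1
    · exact (by decide : (2 : ℕ) < 5)
    · exact (by decide : (4 : ℕ) < 5)
    · exact (by decide : (3 : ℕ) < 5)
    · exact hk.1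
  have haL : a ∉ [Vx.T k, .hub 2, .hub 4, .hub 3, .B k] := by
    intro hv
    rw [List.mem_cons, List.mem_cons, List.mem_cons, List.mem_cons, List.mem_singleton] at hv
    rcases hv with rfl | rfl | rfl | rfl | rfl
    · exact h1 hT
    · exact h2 rfl
    · exact h4 rfl
    · exact h3 rfl
    · exact h1 hB
  rcases (D.mem_gam).mp h with hc | hh
  · rw [ND.clp, List.mem_map] at hc
    obtain ⟨v, hv, hva⟩ := hc
    exact D.mp ha hb hab (N.cl_isV hk v hv) hva.symm
  · rcases D.mem_ex hh with ⟨v, hv, hva⟩ | ⟨e, he, hea⟩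
    · exact D.mp ha hb hab (hV v hv) hva
    · have hm := mem_of_edg he
      have hhv : N.hv e.1 e.2 := by
        rw [edg_cons, edg_cons, edg_cons, edg_cons, List.mem_cons, List.mem_cons, List.mem_cons,
          List.mem_cons] at he
        rcases he with rfl | rfl | rfl | rfl | he
        · exact N.hv_symm (N.hT hk.1)
        · exact N.hv_symm (N.hZ (by decide))
        · exact N.hZ (by decide)
        · exact N.hB hk.1
        · exact absurd he List.not_mem_nil
      have hs := D.minj ha hb (hV _ hm.1) (hV _ hm.2) hab hhv hea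
      rw [Sym2.eq_iff] at hs
      rcases hs with ⟨h5, _⟩ | ⟨h5, _⟩
      · exact haL (h5 ▸ hm.1)
      · exact haL (h5 ▸ hm.2)

theorem s5_side_hv {N : Net} (D : ND N) {k : ℕ} (hk : Cpl N.N k) {a b : Vx} (hab : N.hv a b)
    (ha : N.isV a) (hb : N.isV b)
    (ha' : a ∉ N.cl k ∧ a ≠ .hub 2 ∧ a ≠ .hub 3 ∧ a ≠ .hub 4)
    (hb' : b ∉ N.cl k ∧ b ≠ .hub 2 ∧ b ≠ .hub 3 ∧ b ≠ .hub 4) :
    D.side k (D.p a) = D.side k (D.p b) := by
  have h1 := s5_not_mem_gam D hk ha ha'
  have h2 := s5_not_mem_gam D hk hb hb'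
  have h3 := s5_m_not_mem_gam D hk ha hb hab ha'
  exact (D.side_U hk (D.U1 ha hb hab) h1 h3).trans (D.side_U hk (D.U2 ha hb hab) h3 h2)

/-- the side is constant along paths of heavy edges which avoid the polygon -/
theorem ND.side_ex {N : Net} (D : ND N) {k : ℕ} (hk : Cpl N.N k) {l : List Vx} (hl : N.HvPath l)
    (h : ∀ v ∈ l, v ∉ N.cl k ∧ v ≠ .hub 2 ∧ v ≠ .hub 3 ∧ v ≠ .hub 4) {a b : Vx} (ha : a ∈ l)
    (hb : b ∈ l) : D.side k (D.p a) = D.side k (D.p b) := by
  have key : ∀ (l : List Vx) (c : Vx), N.HvPath (c :: l) →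
      (∀ v ∈ c :: l, v ∉ N.cl k ∧ v ≠ .hub 2 ∧ v ≠ .hub 3 ∧ v ≠ .hub 4) → ∀ v ∈ c :: l,
      D.side k (D.p c) = D.side k (D.p v) := by
    intro l
    induction l with
    | nil =>
      intro c _ _ v hv
      rw [List.mem_singleton] at hv
      rw [hv]
    | cons d l ih =>
      intro c hc hcl v hv
      obtain ⟨h1, h2, h3, h4⟩ := s3_HvPath_tail hc
      have h5 := s5_side_hv D hk h3 h1 h2 (hcl c List.mem_cons_self)
        (hcl d (List.mem_cons_of_mem _ List.mem_cons_self))
      rw [List.mem_cons] at hv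
      rcases hv with rfl | hv
      · rfl
      · rw [h5]
        exact ih d h4 (fun w hw => hcl w (List.mem_cons_of_mem _ hw)) v hv
  cases l with
  | nil => exact absurd ha List.not_mem_nil
  | cons c l => rw [← key l c hl h a ha, ← key l c hl h b hb]

/-- the same for a single heavy edge -/
theorem ND.side_hv {N : Net} (D : ND N) {k : ℕ} (hk : Cpl N.N k) {a b : Vx} (hab : N.hv a b)
    (ha : N.isV a) (hb : N.isV b)
    (ha' : a ∉ N.cl k ∧ a ≠ .hub 2 ∧ a ≠ .hub 3 ∧ a ≠ .hub 4)
    (hb' : b ∉ N.cl k ∧ b ≠ .hub 2 ∧ b ≠ .hub 3 ∧ b ≠ .hub 4) :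
    D.side k (D.p a) = D.side k (D.p b) := s5_side_hv D hk hab ha hb ha' hb'

/-- vertices not on the polygon -/
theorem ND.not_mem_gam {N : Net} (D : ND N) {k : ℕ} (hk : Cpl N.N k) {a : Vx} (ha : N.isV a)
    (ha' : a ∉ N.cl k ∧ a ≠ .hub 2 ∧ a ≠ .hub 3 ∧ a ≠ .hub 4) : D.p a ∉ D.gam k :=
  s5_not_mem_gam D hk ha ha'

/-- Points inside segments: the segment from `x` to `y` is a part of the segment `ab` of the drawing,
and `x`, `y` are vertices outside the polygon or interior points of `ab` not on the polygon. Then the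
segment `xy` is in general position to the polygon and the side changes with the crossings. -/
theorem ND.side_part {N : Net} (D : ND N) {k : ℕ} (hk : Cpl N.N k) {a b x y : Pt}
    (h : D.Sg a b) (hxy : x ≠ y) (hx : x ∈ segment ℝ a b) (hy : y ∈ segment ℝ a b)
    (hc : ∀ e ∈ edg (D.gam k), x ∉ segment ℝ e.1 e.2 ∧ y ∉ segment ℝ e.1 e.2)
    (ha : a ∉ D.gam k) (hb : b ∉ D.gam k) :
    D.side k x + D.side k y = crL x y (D.gam k) := by
  have hg : GPL a b (D.gam k) := D.gpl h (D.gam_pathD hk) ha hb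
  have hsub : segment ℝ x y ⊆ segment ℝ a b := (convex_segment a b).segment_subset hx hy
  have hg' : GPL x y (D.gam k) := by
    intro e he
    have h4 := hg e he
    exact ⟨hxy, h4.cd, (hc e he).1, (hc e he).2, fun hm => h4.c_ab (hsub hm),
      fun hm => h4.d_ab (hsub hm)⟩
  have h1 := crL_closed (D.gam_pathL k) hg'
  rw [ND.side, ND.side, s5_z2, h1]

end Pool.Agent.H54R
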