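import Pool.Agent.Lib.H54R.TDefs
import Pool.Agent.Lib.H54R.T1
import Pool.Agent.Lib.H54R.T2
import Pool.Agent.Lib.H54R.T3

/-!
# T4: five points and ten paths
-/

set_option autoImplicit false

namespace Pool.Agent.H54R

theorem t4_first {c d : Pt} {l : List Pt} (h : PathL c d l) : ∃ e ∈ edg l, e.1 = c := by
  obtain ⟨y, k, rfl, -⟩ := t3_path h
  exact ⟨(c, y), by rw [t3_edg_cons]; exact List.mem_cons_self, rfl⟩

theorem t4_lastAux (l : List Pt) : ∀ (x y d : Pt), (x :: y :: l).getLast? = some d →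
    ∃ e ∈ edg (x :: y :: l), e.2 = d := by
  induction l with
  | nil =>
    intro x y d h
    have : y = d := by simpa using h
    exact ⟨(x, y), by rw [t3_edg_cons]; exact List.mem_cons_self, this⟩
  | cons z l ih =>
    intro x y d h
    rw [List.getLast?_cons_cons] at h
    obtain ⟨e, he, h2⟩ := ih y z d h
    exact ⟨e, by rw [t3_edg_cons]; exact List.mem_cons_of_mem _ he, h2⟩

theorem t4_last {c d : Pt} {l : List Pt} (h : PathL c d l) : ∃ e ∈ edg l, e.2 = d := by
  obtain ⟨y, k, rfl, h3⟩ := t3_path h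
  exact t4_lastAux k _ _ _ h3

theorem t4_eq {a b c d : Pt} {k l : List Pt} (hk : PathL a b k) (hl : PathL c d l)
    (hg : GPLL k l) : crLL k l = (rrL l a + rrL l b) + (rrL k c + rrL k d) +
      (lxi a c + lxi b c + lxi a d + lxi b d) := by
  have h1 : rrL k c + ssL k c = lxi a c + lxi b c := by
    apply rrL_add_ssL hk
    intro e he
    obtain ⟨e', he', rfl⟩ := t4_first hl
    exact ⟨(hg e he e' he').ab, (hg e he e' he').c_ab⟩
  have h2 : rrL k d + ssL k d = lxi a d + lxi b d := by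
    apply rrL_add_ssL hk
    intro e he
    obtain ⟨e', he', rfl⟩ := t4_last hl
    exact ⟨(hg e he e' he').ab, (hg e he e' he').d_ab⟩
  rw [crLL_eq hk hl hg]
  have h3 := t3_two (rrL k c)
  have h4 := t3_two (rrL k d)
  linear_combination h1 + h2 - h3 - h4

/-- The parity form of the nonplanarity of the complete graph with five vertices: if the fourteen
other pairs of independent paths cross an even number of times (here: `crLL = 0`), the paths `P` from
`a` to `b` and `Q` from `c` to `d` cross an odd number of times. Proof: write all fifteen numbers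
with `crLL_eq`, replace `ssL k x` by `rrL k x + lxi _ x + lxi _ x` (`rrL_add_ssL`); in the sum of the
fifteen equations every `rrL` occurs twice, and the terms `lxi` sum up to `1` because of
`lxi_add` (ten pairs of distinct points, every pair occurs six times; the number of reversed
occurrences is odd). -/
theorem five_points (a b c d z : Pt) (P Q Aad Adb Abc Aca Za Zb Zc Zd : List Pt)
    (hab : a ≠ b) (hac : a ≠ c) (had : a ≠ d) (haz : a ≠ z) (hbc : b ≠ c) (hbd : b ≠ d)
    (hbz : b ≠ z) (hcd : c ≠ d) (hcz : c ≠ z) (hdz : d ≠ z)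
    (hP : PathL a b P) (hQ : PathL c d Q) (hAad : PathL a d Aad) (hAdb : PathL d b Adb)
    (hAbc : PathL b c Abc) (hAca : PathL c a Aca) (hZa : PathL z a Za) (hZb : PathL z b Zb)
    (hZc : PathL z c Zc) (hZd : PathL z d Zd)
    (g1 : GPLL P Q) (g2 : GPLL P Zc) (g3 : GPLL P Zd) (g4 : GPLL Q Za) (g5 : GPLL Q Zb)
    (g6 : GPLL Aad Abc) (g7 : GPLL Aad Zb) (g8 : GPLL Aad Zc) (g9 : GPLL Adb Aca)
    (g10 : GPLL Adb Za) (g11 : GPLL Adb Zc) (g12 : GPLL Abc Za) (g13 : GPLL Abc Zd)
    (g14 : GPLL Aca Zb) (g15 : GPLL Aca Zd)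
    (h2 : crLL P Zc = 0) (h3 : crLL P Zd = 0) (h4 : crLL Q Za = 0) (h5 : crLL Q Zb = 0)
    (h6 : crLL Aad Abc = 0) (h7 : crLL Aad Zb = 0) (h8 : crLL Aad Zc = 0)
    (h9 : crLL Adb Aca = 0) (h10 : crLL Adb Za = 0) (h11 : crLL Adb Zc = 0)
    (h12 : crLL Abc Za = 0) (h13 : crLL Abc Zd = 0) (h14 : crLL Aca Zb = 0)
    (h15 : crLL Aca Zd = 0) : crLL P Q = 1 := by
  have e1 := t4_eq hP hQ g1
  have e2 := t4_eq hP hZc g2
  have e3 := t4_eq hP hZd g3
  have e4 := t4_eq hQ hZa g4
  have e5 := t4_eq hQ hZb g5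
  have e6 := t4_eq hAad hAbc g6
  have e7 := t4_eq hAad hZb g7
  have e8 := t4_eq hAad hZc g8
  have e9 := t4_eq hAdb hAca g9
  have e10 := t4_eq hAdb hZa g10
  have e11 := t4_eq hAdb hZc g11
  have e12 := t4_eq hAbc hZa g12
  have e13 := t4_eq hAbc hZd g13
  have e14 := t4_eq hAca hZb g14
  have e15 := t4_eq hAca hZd g15
  rw [h2] at e2
  rw [h3] at e3
  rw [h4] at e4
  rw [h5] at e5
  rw [h6] at e6
  rw [h7] at e7
  rw [h8] at e8
  rw [h9] at e9
  rw [h10] at e10
  rw [h11] at e11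
  rw [h12] at e12
  rw [h13] at e13
  rw [h14] at e14
  rw [h15] at e15
  have hs : ∀ {x y : Pt}, x ≠ y → lxi y x = lxi x y + 1 := by
    intro x y h
    have h1 := lxi_add h
    have h2 := t3_two (lxi x y)
    linear_combination h1 - h2
  rw [e1]
  simp only [hs hab, hs hac, hs had, hs haz, hs hbc, hs hbd, hs hbz, hs hcd, hs hcz, hs hdz]
    at e2 e3 e4 e5 e6 e7 e8 e9 e10 e11 e12 e13 e14 e15 ⊢
  linear_combination (norm := (ring_nf; reduce_mod_char))
    e2 + e3 + e4 + e5 + e6 + e7 + e8 + e9 + e10 + e11 + e12 + e13 + e14 + e15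

end Pool.Agent.H54R
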