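import Pool.Agent.Lib.H54R.SDefs
import Pool.Agent.Lib.H54R.S0
import Pool.Agent.Lib.H54R.S2
import Pool.Agent.Lib.H54R.S3
import Pool.Agent.Lib.H54R.S4
import Pool.Agent.Lib.H54R.T4

/-!
# S6: every long wire crosses every complete line
-/

set_option autoImplicit false

namespace Pool.Agent.H54R

/-- the kind of a vertex -/
def s6t : Vx → ℕ
  | .L _ => 0
  | .R _ => 1
  | .B _ => 2
  | .T _ => 3
  | .hub i => 4 + i
  | .blk _ _ => 100

theorem s6_disj {A B : Finset ℕ} (hAB : Disjoint A B) {l k : List Vx} (hl : ∀ v ∈ l, s6t v ∈ A)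
    (hk : ∀ v ∈ k, s6t v ∈ B) : ∀ v ∈ l, v ∉ k := fun v hv hv' =>
  Finset.disjoint_left.1 hAB (hl v hv) (hk v hv')

theorem s6_seq {f : ℕ → Vx} {t a n : ℕ} (hf : ∀ j, s6t (f j) = t) : ∀ v ∈ seqV f a n, s6t v = t := by
  intro v hv
  obtain ⟨i, -, rfl⟩ := mem_seqV.1 hv
  exact hf _

theorem s6_len (f : ℕ → Vx) (a n : ℕ) : (seqV f a n).length = n + 1 := by
  unfold seqV
  rw [List.length_map, List.length_range]

/-- two lists of vertices with their data -/
structure S6P (N : Net) (A : Finset ℕ) (a b : Vx) (l : List Vx) : Prop where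
  hv : N.HvPath l
  ty : ∀ v ∈ l, s6t v ∈ A
  hd : l.head? = some a
  la : l.getLast? = some b

theorem S6P.rev {N : Net} {A : Finset ℕ} {a b : Vx} {l : List Vx} (h : S6P N A a b l) :
    S6P N A b a l.reverse where
  hv := HvPath.reverse h.hv
  ty := fun v hv => h.ty v (List.mem_reverse.1 hv)
  hd := by rw [List.head?_reverse]; exact h.la
  la := by rw [List.getLast?_reverse]; exact h.hd

theorem S6P.app {N : Net} {A : Finset ℕ} {a b c d : Vx} {l k : List Vx} (h : S6P N A a b l)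
    (h' : S6P N A c d k) (hbc : N.hv b c) : S6P N A a d (l ++ k) where
  hv := HvPath.append h.hv h'.hv h.la h'.hd hbc
  ty := by
    intro v hv
    rcases List.mem_append.1 hv with hv | hv
    · exact h.ty v hv
    · exact h'.ty v hv
  hd := by rw [List.head?_append, h.hd]; rfl
  la := by rw [List.getLast?_append, h'.la]; rfl

theorem S6P.seq {N : Net} {A : Finset ℕ} {f : ℕ → Vx} {a n : ℕ} (hA : ∀ j, s6t (f j) ∈ A)
    (h1 : ∀ i ≤ n, N.isV (f (a + i))) (h2 : ∀ i < n, N.hv (f (a + i)) (f (a + i + 1))) :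
    S6P N A (f a) (f (a + n)) (seqV f a n) where
  hv := HvPath_seqV h1 h2
  ty := by
    intro v hv
    obtain ⟨i, -, rfl⟩ := mem_seqV.1 hv
    exact hA _
  hd := seqV_head f a n
  la := seqV_last f a n

theorem S6P.three {N : Net} {A : Finset ℕ} {a b c : Vx} (ha : N.isV a) (hb : N.isV b) (hc : N.isV c)
    (hab : N.hv a b) (hbc : N.hv b c) (tA : s6t a ∈ A) (tB : s6t b ∈ A) (tC : s6t c ∈ A) :
    S6P N A a c [a, b, c] where
  hv := by
    refine ⟨fun v hv => ?_, fun e he => ?_⟩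
    · simp only [List.mem_cons, List.not_mem_nil, or_false] at hv
      rcases hv with rfl | rfl | rfl <;> assumption
    · simp only [edg, List.tail_cons, List.zip_cons_cons, List.zip_nil_right, List.mem_cons,
        List.not_mem_nil, or_false] at he
      rcases he with rfl | rfl <;> assumption
  ty := by
    intro v hv
    simp only [List.mem_cons, List.not_mem_nil, or_false] at hv
    rcases hv with rfl | rfl | rfl <;> assumption
  hd := rfl
  la := rfl

/-- Apply `five_points` with `a = p (L (4 i))`, `b = p (R (4 i))`, `c = p (B k)`, `d = p (T k)`,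
`z = p (hub 4)`, `P` the long wire, `Q` the line `k`, the four arcs of the boundary cycle (as
`D.ex` of lists made with `seqV`, `reverse`, `HvPath.append`) and the four paths from the hub `4`
over the hubs `0, 1, 3, 2`. General position by `PD.gpll`, `ND.ex_disj`, `ND.ex_disj_map`; no
crossings by `PD.crLL_zero`. -/
theorem ND.cross_line {N : Net} (D : ND N) {i k : ℕ} (hi : i ≤ N.M) (hk : Cpl N.N k) :
    crL (D.p (.L (4 * i))) (D.p (.R (4 * i))) (D.clp k) = 1 := by
  have hk1 : k ≤ 4 * N.N := hk.1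
  have hi4 : 4 * i ≤ 4 * N.M := by omega
  -- the vertices
  have va : N.isV (.L (4 * i)) := hi4
  have vb : N.isV (.R (4 * i)) := hi4
  have vc : N.isV (.B k) := hk1
  have vd : N.isV (.T k) := hk1
  have vh : ∀ j, j < 5 → N.isV (.hub j) := fun j hj => hj
  have hne : ∀ {v w : Vx}, N.isV v → N.isV w → v ≠ w → D.p v ≠ D.p w :=
    fun hv hw hvw h => hvw (D.pinj hv hw h)
  -- the eight paths
  have pad : S6P N {0, 3} (.L (4 * i)) (.T k) (seqV Vx.L (4 * i) (4 * N.M - 4 * i) ++ seqV Vx.T 0 k) := by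
    have h1 := S6P.seq (N := N) (A := {0, 3}) (f := Vx.L) (a := 4 * i) (n := 4 * N.M - 4 * i)
      (fun j => by simp [s6t]) (fun j hj => by show 4 * i + j ≤ 4 * N.M; omega)
      (fun j hj => N.bL (by omega))
    have h2 := S6P.seq (N := N) (A := {0, 3}) (f := Vx.T) (a := 0) (n := k)
      (fun j => by simp [s6t]) (fun j hj => by show 0 + j ≤ 4 * N.N; omega)
      (fun j hj => N.bT (by omega))
    rw [show 4 * i + (4 * N.M - 4 * i) = 4 * N.M by omega] at h1
    rw [zero_add] at h2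
    exact h1.app h2 N.bLT
  have pdb : S6P N {3, 1} (.T k) (.R (4 * i)) (seqV Vx.T k (4 * N.N - k) ++
      (seqV Vx.R (4 * i) (4 * N.M - 4 * i)).reverse) := by
    have h1 := S6P.seq (N := N) (A := {3, 1}) (f := Vx.R) (a := 4 * i) (n := 4 * N.M - 4 * i)
      (fun j => by simp [s6t]) (fun j hj => by show 4 * i + j ≤ 4 * N.M; omega)
      (fun j hj => N.bR (by omega))
    have h2 := S6P.seq (N := N) (A := {3, 1}) (f := Vx.T) (a := k) (n := 4 * N.N - k)
      (fun j => by simp [s6t]) (fun j hj => by show k + j ≤ 4 * N.N; omega)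
      (fun j hj => N.bT (by omega))
    rw [show 4 * i + (4 * N.M - 4 * i) = 4 * N.M by omega] at h1
    rw [show k + (4 * N.N - k) = 4 * N.N by omega] at h2
    exact h2.app h1.rev N.bTR
  have pbc : S6P N {1, 2} (.R (4 * i)) (.B k) ((seqV Vx.R 0 (4 * i)).reverse ++
      (seqV Vx.B k (4 * N.N - k)).reverse) := by
    have h1 := S6P.seq (N := N) (A := {1, 2}) (f := Vx.R) (a := 0) (n := 4 * i)
      (fun j => by simp [s6t]) (fun j hj => by show 0 + j ≤ 4 * N.M; omega)
      (fun j hj => N.bR (by omega))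
    have h2 := S6P.seq (N := N) (A := {1, 2}) (f := Vx.B) (a := k) (n := 4 * N.N - k)
      (fun j => by simp [s6t]) (fun j hj => by show k + j ≤ 4 * N.N; omega)
      (fun j hj => N.bB (by omega))
    rw [zero_add] at h1
    rw [show k + (4 * N.N - k) = 4 * N.N by omega] at h2
    exact h1.rev.app h2.rev N.bRB
  have pca : S6P N {2, 0} (.B k) (.L (4 * i)) ((seqV Vx.B 0 k).reverse ++ seqV Vx.L 0 (4 * i)) := by
    have h1 := S6P.seq (N := N) (A := {2, 0}) (f := Vx.L) (a := 0) (n := 4 * i)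
      (fun j => by simp [s6t]) (fun j hj => by show 0 + j ≤ 4 * N.M; omega)
      (fun j hj => N.bL (by omega))
    have h2 := S6P.seq (N := N) (A := {2, 0}) (f := Vx.B) (a := 0) (n := k)
      (fun j => by simp [s6t]) (fun j hj => by show 0 + j ≤ 4 * N.N; omega)
      (fun j hj => N.bB (by omega))
    rw [zero_add] at h1 h2
    exact h2.rev.app h1 N.bBL
  have pza : S6P N {8, 4, 0} (.hub 4) (.L (4 * i)) [.hub 4, .hub 0, .L (4 * i)] :=
    S6P.three (vh 4 (by omega)) (vh 0 (by omega)) va (N.hZ (by omega)) (N.hL hi4)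
      (by simp [s6t]) (by simp [s6t]) (by simp [s6t])
  have pzb : S6P N {8, 5, 1} (.hub 4) (.R (4 * i)) [.hub 4, .hub 1, .R (4 * i)] :=
    S6P.three (vh 4 (by omega)) (vh 1 (by omega)) vb (N.hZ (by omega)) (N.hR hi4)
      (by simp [s6t]) (by simp [s6t]) (by simp [s6t])
  have pzc : S6P N {8, 7, 2} (.hub 4) (.B k) [.hub 4, .hub 3, .B k] :=
    S6P.three (vh 4 (by omega)) (vh 3 (by omega)) vc (N.hZ (by omega)) (N.hB hk1)
      (by simp [s6t]) (by simp [s6t]) (by simp [s6t])
  have pzd : S6P N {8, 6, 3} (.hub 4) (.T k) [.hub 4, .hub 2, .T k] :=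
    S6P.three (vh 4 (by omega)) (vh 2 (by omega)) vd (N.hZ (by omega)) (N.hT hk1)
      (by simp [s6t]) (by simp [s6t]) (by simp [s6t])
  -- the light paths
  have tP : ∀ v ∈ [Vx.L (4 * i), Vx.R (4 * i)], s6t v ∈ ({0, 1} : Finset ℕ) := by
    intro v hv
    simp only [List.mem_cons, List.not_mem_nil, or_false] at hv
    rcases hv with rfl | rfl <;> simp [s6t]
  have vP : ∀ v ∈ [Vx.L (4 * i), Vx.R (4 * i)], N.isV v := by
    intro v hv
    simp only [List.mem_cons, List.not_mem_nil, or_false] at hv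
    rcases hv with rfl | rfl <;> assumption
  have tQ : ∀ v ∈ N.cl k, s6t v ∈ ({2, 100, 3} : Finset ℕ) := by
    intro v hv
    unfold Net.cl at hv
    simp only [List.cons_append, List.mem_cons, List.mem_append, List.mem_map, List.not_mem_nil,
      or_false] at hv
    rcases hv with rfl | ⟨w, -, rfl⟩ | rfl <;> simp [s6t]
  have vQ := N.cl_isV hk
  have hli : N.li (.L (4 * i)) (.R (4 * i)) := by
    have hc : Cpl N.M (4 * i) := ⟨hi4, by omega⟩
    have h := N.ri_li hc (.L (4 * i), .R (4 * i))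
    rw [N.ri_long (by omega)] at h
    exact h (by simp [edg])
  have dP : D.PathD [D.p (.L (4 * i)), D.p (.R (4 * i))] := by
    intro e he
    simp only [edg, List.tail_cons, List.zip_cons_cons, List.zip_nil_right, List.mem_cons,
      List.not_mem_nil, or_false] at he
    subst he
    exact Or.inl (D.Lt_of va vb hli)
  have dQ := D.clp_pathD hk
  have ePmap : [D.p (.L (4 * i)), D.p (.R (4 * i))] = [Vx.L (4 * i), Vx.R (4 * i)].map D.p := rfl
  -- disjoint
  have dLL : ∀ {A B : Finset ℕ} {a b c d : Vx} {l l' : List Vx}, S6P N A a b l → S6P N B c d l' →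
      Disjoint A B → ∀ x ∈ D.ex l, x ∉ D.ex l' := by
    intro A B a b c d l l' h h' hAB
    exact D.ex_disj h.hv h'.hv (s6_disj hAB h.ty h'.ty)
  have dML : ∀ {A B : Finset ℕ} {a b : Vx} {l q : List Vx}, S6P N A a b l → (∀ v ∈ q, N.isV v) →
      (∀ v ∈ q, s6t v ∈ B) → Disjoint A B → ∀ x ∈ D.ex l, x ∉ q.map D.p := by
    intro A B a b l q h hq hB hAB
    exact D.ex_disj_map h.hv hq (s6_disj hAB h.ty hB)
  have uu : ∀ {A : Finset ℕ} {a b : Vx} {l : List Vx}, S6P N A a b l → D.PathU (D.ex l) :=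
    fun h => D.ex_pathU h.hv
  have dd : ∀ {A : Finset ℕ} {a b : Vx} {l : List Vx}, S6P N A a b l → D.PathD (D.ex l) :=
    fun h => PathD.of_U D.toPD (D.ex_pathU h.hv)
  -- crossings and general position, two heavy paths
  have gLL : ∀ {A B : Finset ℕ} {a b c d : Vx} {l l' : List Vx}, S6P N A a b l → S6P N B c d l' →
      Disjoint A B → GPLL (D.ex l) (D.ex l') ∧ crLL (D.ex l) (D.ex l') = 0 := by
    intro A B a b c d l l' h h' hAB
    exact ⟨D.gpll (dd h) (dd h') (dLL h h' hAB), D.crLL_zero (uu h) (dd h') (dLL h h' hAB)⟩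
  have gML : ∀ {A B : Finset ℕ} {a b : Vx} {l q : List Vx}, S6P N A a b l → D.PathD (q.map D.p) →
      (∀ v ∈ q, N.isV v) → (∀ v ∈ q, s6t v ∈ B) → Disjoint A B →
      GPLL (q.map D.p) (D.ex l) ∧ crLL (q.map D.p) (D.ex l) = 0 := by
    intro A B a b l q h hd hq hB hAB
    refine ⟨D.gpll hd (dd h) fun x hx hx' => dML h hq hB hAB x hx' hx, ?_⟩
    rw [crLL_comm]
    exact D.crLL_zero (uu h) hd (dML h hq hB hAB)
  have gPQ : GPLL [D.p (.L (4 * i)), D.p (.R (4 * i))] (D.clp k) := by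
    refine D.gpll dP dQ fun x hx hx' => ?_
    rw [ePmap, List.mem_map] at hx
    unfold ND.clp at hx'
    rw [List.mem_map] at hx'
    obtain ⟨v, hv, rfl⟩ := hx
    obtain ⟨w, hw, hvw⟩ := hx'
    have h := D.pinj (vQ w hw) (vP v hv) hvw
    subst h
    exact s6_disj (A := {0, 1}) (B := {2, 100, 3}) (by decide) tP tQ w hv hw
  have ln : ∀ {A : Finset ℕ} {a b : Vx} {l : List Vx}, S6P N A a b l → a ≠ b → 2 ≤ l.length := by
    intro A a b l h hab
    rcases l with _ | ⟨x, _ | ⟨y, l⟩⟩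
    · exact absurd h.hd (by simp)
    · have h1 := h.hd
      have h2 := h.la
      simp only [List.head?_cons, List.getLast?_singleton, Option.some.injEq] at h1 h2
      exact absurd (h1.symm.trans h2) hab
    · simp
  have pl : ∀ {A : Finset ℕ} {a b : Vx} {l : List Vx}, S6P N A a b l → a ≠ b →
      PathL (D.p a) (D.p b) (D.ex l) := fun h hab => D.ex_pathL (ln h hab) h.hd h.la
  obtain ⟨g2, h2⟩ := gML (q := [Vx.L (4 * i), Vx.R (4 * i)]) pzc dP vP tP (by decide)
  obtain ⟨g3, h3⟩ := gML (q := [Vx.L (4 * i), Vx.R (4 * i)]) pzd dP vP tP (by decide)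
  obtain ⟨g4, h4⟩ := gML pza dQ vQ tQ (by decide)
  obtain ⟨g5, h5⟩ := gML pzb dQ vQ tQ (by decide)
  obtain ⟨g6, h6⟩ := gLL pad pbc (by decide)
  obtain ⟨g7, h7⟩ := gLL pad pzb (by decide)
  obtain ⟨g8, h8⟩ := gLL pad pzc (by decide)
  obtain ⟨g9, h9⟩ := gLL pdb pca (by decide)
  obtain ⟨g10, h10⟩ := gLL pdb pza (by decide)
  obtain ⟨g11, h11⟩ := gLL pdb pzc (by decide)
  obtain ⟨g12, h12⟩ := gLL pbc pza (by decide)
  obtain ⟨g13, h13⟩ := gLL pbc pzd (by decide)
  obtain ⟨g14, h14⟩ := gLL pca pzb (by decide)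
  obtain ⟨g15, h15⟩ := gLL pca pzd (by decide)
  have vz := vh 4 (by omega)
  have key := five_points (D.p (.L (4 * i))) (D.p (.R (4 * i))) (D.p (.B k)) (D.p (.T k)) (D.p (.hub 4))
    [D.p (.L (4 * i)), D.p (.R (4 * i))] (D.clp k) _ _ _ _ _ _ _ _
    (hne va vb (by simp)) (hne va vc (by simp)) (hne va vd (by simp)) (hne va vz (by simp))
    (hne vb vc (by simp)) (hne vb vd (by simp)) (hne vb vz (by simp)) (hne vc vd (by simp))
    (hne vc vz (by simp)) (hne vd vz (by simp))
    ⟨le_rfl, rfl, rfl⟩ (D.clp_pathL k) (pl pad (by simp)) (pl pdb (by simp)) (pl pbc (by simp))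
    (pl pca (by simp)) (pl pza (by simp)) (pl pzb (by simp)) (pl pzc (by simp)) (pl pzd (by simp))
    gPQ g2 g3 g4 g5 g6 g7 g8 g9 g10 g11 g12 g13 g14 g15 h2 h3 h4 h5 h6 h7 h8 h9 h10 h11 h12 h13 h14 h15
  rw [← key]
  simp [crLL, sumE, edg]

end Pool.Agent.H54R
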