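import Pool.Agent.Lib.H54R.SDefs
import Pool.Agent.Lib.H54R.S0
import Pool.Agent.Lib.H54R.S6

/-!
# S6B: consequences of `ND.cross_line`
-/

set_option autoImplicit false

namespace Pool.Agent.H54R

theorem cr_swapE (a b c d : Pt) : cr (swapE a) (swapE b) (swapE c) (swapE d) = cr a b c d := by
  unfold cr
  have h := cross_map swapE a b c d
  by_cases hc : Cross a b c d
  · rw [if_pos hc, if_pos (h.2 hc)]
  · rw [if_neg hc, if_neg fun h' => hc (h.1 h')]

theorem s6b_crL_swapE (a b : Pt) (l : List Pt) :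
    crL (swapE a) (swapE b) (l.map swapE) = crL a b l := by
  unfold crL sumE
  rw [edg_map, List.map_map]
  congr 1
  refine List.map_congr_left fun e _ => ?_
  exact cr_swapE a b e.1 e.2

theorem s6b_trD_clp {N : Net} (D : ND N) (k : ℕ) : D.trD.clp k = (D.rlp k).map swapE := by
  unfold ND.clp ND.rlp
  rw [List.map_map]
  unfold Net.cl Net.rl
  simp only [List.cons_append, List.map_cons, List.map_append, List.map_map, List.map_nil]
  rfl

/-- the same for the long column wires and the complete row lines (exchange rows and columns) -/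
theorem ND.cross_rline {N : Net} (D : ND N) {j k : ℕ} (hj : j ≤ N.N) (hk : Cpl N.M k) :
    crL (D.p (.B (4 * j))) (D.p (.T (4 * j))) (D.rlp k) = 1 := by
  have h : crL (swapE (D.p (.B (4 * j)))) (swapE (D.p (.T (4 * j)))) (D.trD.clp k) = 1 :=
    D.trD.cross_line (i := j) (k := k) hj hk
  rwa [s6b_trD_clp, s6b_crL_swapE] at h

theorem s6b_cpl {n j : ℕ} (hj : j ≤ n) : Cpl n (4 * j) := ⟨by omega, by omega⟩

/-- the long wires cross -/
theorem ND.cross_long {N : Net} (D : ND N) {i j : ℕ} (hi : i ≤ N.M) (hj : j ≤ N.N) :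
    Cross (D.p (.L (4 * i))) (D.p (.R (4 * i))) (D.p (.B (4 * j))) (D.p (.T (4 * j))) := by
  have h := D.cross_line hi (s6b_cpl hj)
  rw [D.clp_long] at h
  by_contra hc
  unfold crL sumE edg at h
  simp only [List.tail_cons, List.zip_cons_cons, List.zip_nil_right, List.map_cons, List.map_nil,
    List.sum_cons, List.sum_nil, add_zero] at h
  rw [cr, if_neg hc] at h
  exact zero_ne_one h

/-- some edge of the complete line `k` is crossed by the long row wire -/
theorem ND.cross_edge {N : Net} (D : ND N) {i k : ℕ} (hi : i ≤ N.M) (hk : Cpl N.N k) :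
    ∃ e ∈ edg (D.clp k), Cross (D.p (.L (4 * i))) (D.p (.R (4 * i))) e.1 e.2 := by
  have h := D.cross_line hi hk
  by_contra hc
  push Not at hc
  have h0 : crL (D.p (.L (4 * i))) (D.p (.R (4 * i))) (D.clp k) = 0 := by
    unfold crL
    apply sumE_zero
    intro e he
    rw [cr, if_neg (hc e he)]
  rw [h0] at h
  exact zero_ne_one h

theorem s6b_li_row {N : Net} {k : ℕ} (hk : k ≤ 4 * N.M) (h4 : k % 4 = 0) :
    N.li (.L k) (.R k) := by
  have h := N.ri_li (k := k) ⟨hk, by omega⟩ (.L k, .R k)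
  rw [N.ri_long h4] at h
  exact h (by simp [edg])

theorem s6b_li_col {N : Net} {k : ℕ} (hk : k ≤ 4 * N.N) (h4 : k % 4 = 0) :
    N.li (.B k) (.T k) := by
  have h := N.ci_li (k := k) ⟨hk, by omega⟩ (.B k, .T k)
  rw [N.ci_long h4] at h
  exact h (by simp [edg])

/-- the long row wire is a light segment -/
theorem ND.Lt_row {N : Net} (D : ND N) {i : ℕ} (hi : i ≤ N.M) :
    D.Lt (D.p (.L (4 * i))) (D.p (.R (4 * i))) :=
  D.Lt_of (show 4 * i ≤ 4 * N.M by omega) (show 4 * i ≤ 4 * N.M by omega)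
    (s6b_li_row (by omega) (by omega))

/-- the long column wire is a light segment -/
theorem ND.Lt_col {N : Net} (D : ND N) {j : ℕ} (hj : j ≤ N.N) :
    D.Lt (D.p (.B (4 * j))) (D.p (.T (4 * j))) :=
  D.Lt_of (show 4 * j ≤ 4 * N.N by omega) (show 4 * j ≤ 4 * N.N by omega)
    (s6b_li_col (by omega) (by omega))

theorem s6b_ne {N : Net} (D : ND N) {a b : Vx} (ha : N.isV a) (hb : N.isV b) (hab : a ≠ b) :
    D.p a ≠ D.p b := fun h => hab (D.pinj ha hb h)

theorem s6b_sne {N : Net} (D : ND N) {i j : ℕ} (hi : i ≤ N.M) (hj : j ≤ N.N) :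
    s(D.p (.L (4 * i)), D.p (.R (4 * i))) ≠ s(D.p (.B (4 * j)), D.p (.T (4 * j))) := by
  intro h
  rw [Sym2.eq_iff] at h
  have e1 : D.p (.L (4 * i)) ≠ D.p (.B (4 * j)) :=
    s6b_ne D (show 4 * i ≤ 4 * N.M by omega) (show 4 * j ≤ 4 * N.N by omega) (by simp)
  have e2 : D.p (.L (4 * i)) ≠ D.p (.T (4 * j)) :=
    s6b_ne D (show 4 * i ≤ 4 * N.M by omega) (show 4 * j ≤ 4 * N.N by omega) (by simp)
  rcases h with h | h
  · exact e1 h.1
  · exact e2 h.1

/-- the two possibilities for the directions of two crossing long wires -/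
theorem ND.dir_long {N : Net} (D : ND N) {i j : ℕ} (hi : i ≤ N.M) (hj : j ≤ N.N) :
    (Hor (D.p (.L (4 * i))) (D.p (.R (4 * i))) ∧ Ver (D.p (.B (4 * j))) (D.p (.T (4 * j)))) ∨
      (Ver (D.p (.L (4 * i))) (D.p (.R (4 * i))) ∧ Hor (D.p (.B (4 * j))) (D.p (.T (4 * j)))) :=
  D.cross (D.Lt_row hi) (D.Lt_col hj) (s6b_sne D hi hj) (D.cross_long hi hj)

theorem s6b_ext {a b : Pt} (h1 : Hor a b) (h2 : Ver a b) : a = b := Prod.ext h2 h1

theorem s6b_row_ne {N : Net} (D : ND N) {i : ℕ} (hi : i ≤ N.M) :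
    D.p (.L (4 * i)) ≠ D.p (.R (4 * i)) := (D.LP (D.Lt_row hi)).2.2

theorem s6b_col_ne {N : Net} (D : ND N) {j : ℕ} (hj : j ≤ N.N) :
    D.p (.B (4 * j)) ≠ D.p (.T (4 * j)) := (D.LP (D.Lt_col hj)).2.2

theorem s6b_norm3 {N : Net} (D : ND N) (h0 : Hor (D.p (.L 0)) (D.p (.R 0)))
    (g0 : Ver (D.p (.B 0)) (D.p (.T 0))) (h1 : (D.p (.L 0)).1 < (D.p (.R 0)).1) :
    ∃ D' : ND N, Norm D' := by
  have hne : (D.p (.B 0)).2 ≠ (D.p (.T 0)).2 := fun h =>
    s6b_col_ne D (j := 0) (Nat.zero_le _) (s6b_ext h g0)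
  rcases lt_or_gt_of_ne hne with h | h
  · exact ⟨D, h0, g0, h1, h⟩
  · refine ⟨D.map negY good_negY, ?_, ?_, ?_, ?_⟩
    · change Hor (negY (D.p (.L 0))) (negY (D.p (.R 0)))
      rw [negY_apply, negY_apply]
      exact congrArg Neg.neg h0
    · change Ver (negY (D.p (.B 0))) (negY (D.p (.T 0)))
      rw [negY_apply, negY_apply]
      exact g0
    · change (negY (D.p (.L 0))).1 < (negY (D.p (.R 0))).1
      rw [negY_apply, negY_apply]
      exact h1
    · change (negY (D.p (.B 0))).2 < (negY (D.p (.T 0))).2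
      rw [negY_apply, negY_apply]
      exact neg_lt_neg h

theorem s6b_norm2 {N : Net} (D : ND N) (h0 : Hor (D.p (.L 0)) (D.p (.R 0)))
    (g0 : Ver (D.p (.B 0)) (D.p (.T 0))) : ∃ D' : ND N, Norm D' := by
  have hne : (D.p (.L 0)).1 ≠ (D.p (.R 0)).1 := fun h =>
    s6b_row_ne D (i := 0) (Nat.zero_le _) (s6b_ext h0 h)
  rcases lt_or_gt_of_ne hne with h | h
  · exact s6b_norm3 D h0 g0 h
  · refine s6b_norm3 (D.map negX good_negX) ?_ ?_ ?_
    · change Hor (negX (D.p (.L 0))) (negX (D.p (.R 0)))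
      rw [negX_apply, negX_apply]
      exact h0
    · change Ver (negX (D.p (.B 0))) (negX (D.p (.T 0)))
      rw [negX_apply, negX_apply]
      exact congrArg Neg.neg g0
    · change (negX (D.p (.L 0))).1 < (negX (D.p (.R 0))).1
      rw [negX_apply, negX_apply]
      exact neg_lt_neg h

/-- there is a normalised drawing: exchange the coordinates and reflect, if necessary -/
theorem ND.exists_norm {N : Net} (D : ND N) : ∃ D' : ND N, Norm D' := by
  rcases D.dir_long (i := 0) (j := 0) (Nat.zero_le _) (Nat.zero_le _) with h | h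
  · exact s6b_norm2 D h.1 h.2
  · refine s6b_norm2 (D.map swapE good_swap) ?_ ?_
    · change Hor (swapE (D.p (.L 0))) (swapE (D.p (.R 0)))
      rw [swapE_apply, swapE_apply]
      exact h.1
    · change Ver (swapE (D.p (.B 0))) (swapE (D.p (.T 0)))
      rw [swapE_apply, swapE_apply]
      exact h.2

/-- in a normalised drawing all long wires are horizontal and vertical -/
theorem Norm.hor {N : Net} {D : ND N} (h : Norm D) {i : ℕ} (hi : i ≤ N.M) :
    Hor (D.p (.L (4 * i))) (D.p (.R (4 * i))) := by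
  rcases D.dir_long (j := 0) hi (Nat.zero_le _) with h' | h'
  · exact h'.1
  · exact (s6b_col_ne D (j := 0) (Nat.zero_le _) (s6b_ext h'.2 h.g0)).elim

theorem Norm.ver {N : Net} {D : ND N} (h : Norm D) {j : ℕ} (hj : j ≤ N.N) :
    Ver (D.p (.B (4 * j))) (D.p (.T (4 * j))) := by
  rcases D.dir_long (i := 0) (Nat.zero_le _) hj with h' | h'
  · exact h'.2
  · exact (s6b_row_ne D (i := 0) (Nat.zero_le _) (s6b_ext h.h0 h'.1)).elim

end Pool.Agent.H54R
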