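import Pool.Agent.Lib.H54R.SDefs
import Pool.Agent.Lib.H54R.S0
import Pool.Agent.Lib.H54R.S2
import Pool.Agent.Lib.H54R.S3
import Pool.Agent.Lib.H54R.S4
import Pool.Agent.Lib.H54R.S5
import Pool.Agent.Lib.H54R.S6
import Pool.Agent.Lib.H54R.S6B

/-!
# S7: sides of the boundary vertices
-/

set_option autoImplicit false

namespace Pool.Agent.H54R

theorem s7_two (a : ZMod 2) : a + a = 0 := CharTwo.add_self_eq_zero a

theorem s7_L (N : Net) (k i : ℕ) :
    Vx.L i ∉ N.cl k ∧ Vx.L i ≠ .hub 2 ∧ Vx.L i ≠ .hub 3 ∧ Vx.L i ≠ .hub 4 := by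
  refine ⟨?_, by simp, by simp, by simp⟩
  simp [Net.cl]

theorem s7_R (N : Net) (k i : ℕ) :
    Vx.R i ∉ N.cl k ∧ Vx.R i ≠ .hub 2 ∧ Vx.R i ≠ .hub 3 ∧ Vx.R i ≠ .hub 4 := by
  refine ⟨?_, by simp, by simp, by simp⟩
  simp [Net.cl]

theorem s7_B (N : Net) {k l : ℕ} (h : l ≠ k) :
    Vx.B l ∉ N.cl k ∧ Vx.B l ≠ .hub 2 ∧ Vx.B l ≠ .hub 3 ∧ Vx.B l ≠ .hub 4 := by
  refine ⟨?_, by simp, by simp, by simp⟩
  simp [Net.cl, h]

theorem s7_T (N : Net) {k l : ℕ} (h : l ≠ k) :
    Vx.T l ∉ N.cl k ∧ Vx.T l ≠ .hub 2 ∧ Vx.T l ≠ .hub 3 ∧ Vx.T l ≠ .hub 4 := by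
  refine ⟨?_, by simp, by simp, by simp⟩
  simp [Net.cl, h]

/-- `L 0` is on the side `0` by definition; the other `L i` are joined to it by heavy edges which
avoid the polygon. -/
theorem ND.side_L {N : Net} (D : ND N) {k i : ℕ} (hk : Cpl N.N k) (hi : i ≤ 4 * N.M) :
    D.side k (D.p (.L i)) = 0 := by
  induction i with
  | zero => exact s7_two _
  | succ i ih =>
    rw [← ih (by omega)]
    refine (D.side_hv hk (N.bL (by omega)) ?_ ?_ (s7_L N k _) (s7_L N k _)).symm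
    · show i ≤ 4 * N.M
      omega
    · show i + 1 ≤ 4 * N.M
      exact hi

/-- the wire `h_0` crosses the line an odd number of times (`ND.cross_line`, `ND.side_Lt`) -/
theorem ND.side_R {N : Net} (D : ND N) {k i : ℕ} (hk : Cpl N.N k) (hi : i ≤ 4 * N.M) :
    D.side k (D.p (.R i)) = 1 := by
  induction i with
  | zero =>
    have hL : N.isV (.L 0) := Nat.zero_le _
    have hR : N.isV (.R 0) := Nat.zero_le _
    have hli : N.li (.L 0) (.R 0) := by
      have h1 := N.ri_li (k := 0) ⟨Nat.zero_le _, by norm_num⟩ (.L 0, .R 0)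
      rw [N.ri_long (k := 0) (by norm_num)] at h1
      exact h1 (by simp [edg])
    have h1 := D.side_Lt hk (D.Lt_of hL hR hli) (D.not_mem_gam hk hL (s7_L N k 0))
      (D.not_mem_gam hk hR (s7_R N k 0))
    have h2 := D.cross_line (i := 0) (Nat.zero_le _) hk
    rw [mul_zero] at h2
    rw [h2, D.side_L hk (Nat.zero_le _), zero_add] at h1
    exact h1
  | succ i ih =>
    rw [← ih (by omega)]
    refine (D.side_hv hk (N.bR (by omega)) ?_ ?_ (s7_R N k _) (s7_R N k _)).symm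
    · show i ≤ 4 * N.M
      omega
    · show i + 1 ≤ 4 * N.M
      exact hi

theorem ND.side_B_lt {N : Net} (D : ND N) {k l : ℕ} (hk : Cpl N.N k) (hl : l < k) :
    D.side k (D.p (.B l)) = 0 := by
  have hkN := hk.1
  induction l with
  | zero =>
    rw [← D.side_L hk (Nat.zero_le _)]
    exact D.side_hv hk N.bBL (show 0 ≤ 4 * N.N from Nat.zero_le _) (show 0 ≤ 4 * N.M from Nat.zero_le _)
      (s7_B N (by omega)) (s7_L N k _)
  | succ l ih =>
    rw [← ih (by omega)]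
    refine (D.side_hv hk (N.bB (by omega)) ?_ ?_ (s7_B N (by omega)) (s7_B N (by omega))).symm
    · show l ≤ 4 * N.N
      omega
    · show l + 1 ≤ 4 * N.N
      omega

theorem ND.side_B_gt {N : Net} (D : ND N) {k l : ℕ} (hk : Cpl N.N k) (hl : k < l)
    (hl' : l ≤ 4 * N.N) : D.side k (D.p (.B l)) = 1 := by
  obtain ⟨j, hj⟩ : ∃ j, 4 * N.N = l + j := ⟨4 * N.N - l, by omega⟩
  induction j generalizing l with
  | zero =>
    rw [← D.side_R hk (Nat.zero_le _)]
    have h1 : l = 4 * N.N := by omega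
    subst h1
    exact (D.side_hv hk N.bRB (show 0 ≤ 4 * N.M from Nat.zero_le _) (show 4 * N.N ≤ 4 * N.N from le_rfl)
      (s7_R N k _) (s7_B N (by omega))).symm
  | succ j ih =>
    rw [← ih (l := l + 1) (by omega) (by omega) (by omega)]
    exact D.side_hv hk (N.bB (by omega)) (show l ≤ 4 * N.N by omega) (show l + 1 ≤ 4 * N.N by omega)
      (s7_B N (by omega)) (s7_B N (by omega))

theorem ND.side_T_lt {N : Net} (D : ND N) {k l : ℕ} (hk : Cpl N.N k) (hl : l < k) :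
    D.side k (D.p (.T l)) = 0 := by
  have hkN := hk.1
  induction l with
  | zero =>
    rw [← D.side_L hk (i := 4 * N.M) le_rfl]
    exact (D.side_hv hk N.bLT (show 4 * N.M ≤ 4 * N.M from le_rfl) (show 0 ≤ 4 * N.N from Nat.zero_le _)
      (s7_L N k _) (s7_T N (by omega))).symm
  | succ l ih =>
    rw [← ih (by omega)]
    refine (D.side_hv hk (N.bT (by omega)) ?_ ?_ (s7_T N (by omega)) (s7_T N (by omega))).symm
    · show l ≤ 4 * N.N
      omega
    · show l + 1 ≤ 4 * N.N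
      omega

theorem ND.side_T_gt {N : Net} (D : ND N) {k l : ℕ} (hk : Cpl N.N k) (hl : k < l)
    (hl' : l ≤ 4 * N.N) : D.side k (D.p (.T l)) = 1 := by
  obtain ⟨j, hj⟩ : ∃ j, 4 * N.N = l + j := ⟨4 * N.N - l, by omega⟩
  induction j generalizing l with
  | zero =>
    rw [← D.side_R hk (i := 4 * N.M) le_rfl]
    have h1 : l = 4 * N.N := by omega
    subst h1
    exact D.side_hv hk N.bTR (show 4 * N.N ≤ 4 * N.N from le_rfl) (show 4 * N.M ≤ 4 * N.M from le_rfl)
      (s7_T N (by omega)) (s7_R N k _)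
  | succ j ih =>
    rw [← ih (l := l + 1) (by omega) (by omega) (by omega)]
    exact D.side_hv hk (N.bT (by omega)) (show l ≤ 4 * N.N by omega) (show l + 1 ≤ 4 * N.N by omega)
      (s7_T N (by omega)) (s7_T N (by omega))

end Pool.Agent.H54R
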