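import Pool.Agent.Lib.H54R.SDefs
import Pool.Agent.Lib.H54R.S0
import Pool.Agent.Lib.H54R.S5
import Pool.Agent.Lib.H54R.S6B
import Pool.Agent.Lib.H54R.S7

/-!
# S8: one edge, and the sides of the block vertices
-/

set_option autoImplicit false

namespace Pool.Agent.H54R

theorem s8_seg {a b z : Pt} (h : a.2 = b.2) (hz : z.2 = a.2) (h1 : a.1 < b.1) (h2 : a.1 ≤ z.1)
    (h3 : z.1 ≤ b.1) : z ∈ segment ℝ a b := by
  have hp : 0 < b.1 - a.1 := by linarith
  refine ⟨1 - (z.1 - a.1) / (b.1 - a.1), (z.1 - a.1) / (b.1 - a.1), ?_, ?_, by ring, ?_⟩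
  · have : (z.1 - a.1) / (b.1 - a.1) ≤ 1 := by
      rw [div_le_one hp]
      linarith
    linarith
  · exact div_nonneg (by linarith) hp.le
  · apply Prod.ext
    · simp only [Prod.fst_add, Prod.smul_fst, smul_eq_mul]
      field_simp
      ring
    · simp only [Prod.snd_add, Prod.smul_snd, smul_eq_mul]
      rw [hz, ← h]
      ring

theorem s8_seg' {a b z : Pt} (h : a.2 = b.2) (hz : z.2 = a.2)
    (h1 : (a.1 < b.1 ∧ a.1 ≤ z.1 ∧ z.1 ≤ b.1) ∨ (b.1 < a.1 ∧ b.1 ≤ z.1 ∧ z.1 ≤ a.1)) :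
    z ∈ segment ℝ a b := by
  rcases h1 with ⟨h1, h2, h3⟩ | ⟨h1, h2, h3⟩
  · exact s8_seg h hz h1 h2 h3
  · rw [segment_symm]
    exact s8_seg h.symm (by rw [hz, h]) h1 h2 h3

/-- an interior point of the segment `xy`, `x.1 ≠ y.1`, is strictly between in the first coordinate -/
theorem s8_btw {x y z : Pt} (hz : z ∈ openSegment ℝ x y) (hne : x.1 ≠ y.1) :
    (x.1 < z.1 ∧ z.1 < y.1) ∨ (y.1 < z.1 ∧ z.1 < x.1) := by
  obtain ⟨s, t, hs, ht, hst, rfl⟩ := hz
  simp only [Prod.fst_add, Prod.smul_fst, smul_eq_mul]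
  have hs1 : s = 1 - t := by linarith
  subst hs1
  rcases lt_or_gt_of_ne hne with h | h
  · left
    constructor <;> nlinarith
  · right
    constructor <;> nlinarith

theorem s8_ver {g g' z : Pt} (hz : z ∈ openSegment ℝ g g') (h : Ver g g') : z.1 = g.1 := by
  obtain ⟨s, t, hs, ht, hst, rfl⟩ := hz
  simp only [Prod.fst_add, Prod.smul_fst, smul_eq_mul]
  rw [← (h : g.1 = g'.1), ← add_mul, hst, one_mul]

/-- a light segment crossing a vertical light segment is horizontal, and the vertical line is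
strictly between its ends -/
theorem s8_cross (D : PD) {x y g g' : Pt} (hy : D.Lt x y) (hg : D.Lt g g') (hv : Ver g g')
    (h : Cross x y g g') (hx : x ≠ g) (hx' : x ≠ g') :
    x.2 = y.2 ∧ ((x.1 < g.1 ∧ g.1 < y.1) ∨ (y.1 < g.1 ∧ g.1 < x.1)) := by
  have hs : s(x, y) ≠ s(g, g') := by
    intro hs
    rw [Sym2.eq_iff] at hs
    rcases hs with hs | hs
    · exact hx hs.1
    · exact hx' hs.1
  have hgg : g ≠ g' := (D.LP hg).2.2
  have hxy : x ≠ y := (D.LP hy).2.2
  have hh : Hor x y := by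
    rcases D.cross hy hg hs h with h1 | h1
    · exact h1.1
    · exact absurd (Prod.ext hv h1.2) hgg
  have hne : x.1 ≠ y.1 := fun he => hxy (Prod.ext he hh)
  obtain ⟨z, hz, hz'⟩ := h
  have h1 := s8_ver hz' hv
  have h2 := s8_btw hz hne
  rw [h1] at h2
  exact ⟨hh, h2⟩

/-- At a vertex `x` at most one light segment crosses the vertical light segment `g g'`: both would be
horizontal; in the same direction one of the ends would lie on the other segment, in opposite
directions they do not both meet the vertical line. -/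
theorem PD.one_edge (D : PD) {x y y' g g' : Pt} (hy : D.Lt x y) (hy' : D.Lt x y') (hne : y ≠ y')
    (hg : D.Lt g g') (hv : Ver g g') (h : Cross x y g g') (h' : Cross x y' g g') (hx : x ≠ g)
    (hx' : x ≠ g') : False := by
  obtain ⟨a1, a2⟩ := s8_cross D hy hg hv h hx hx'
  obtain ⟨b1, b2⟩ := s8_cross D hy' hg hv h' hx hx'
  have hyP := (D.LP hy).2.1
  have hyP' := (D.LP hy').2.1
  have hxy : x ≠ y := (D.LP hy).2.2
  have hxy' : x ≠ y' := (D.LP hy').2.2
  have n1 : y ∉ segment ℝ x y' := D.nv (Or.inl hy') hyP hxy.symm hne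
  have n2 : y' ∉ segment ℝ x y := D.nv (Or.inl hy) hyP' hxy'.symm hne.symm
  rcases le_total y.1 y'.1 with hle | hle
  · rcases a2 with ⟨a2, a3⟩ | ⟨a2, a3⟩
    · rcases b2 with ⟨b2, b3⟩ | ⟨b2, b3⟩
      · exact n1 (s8_seg' b1 a1.symm (Or.inl ⟨by linarith, by linarith, hle⟩))
      · linarith
    · rcases b2 with ⟨b2, b3⟩ | ⟨b2, b3⟩
      · linarith
      · exact n2 (s8_seg' a1 b1.symm (Or.inr ⟨by linarith, hle, by linarith⟩))
  · rcases a2 with ⟨a2, a3⟩ | ⟨a2, a3⟩
    · rcases b2 with ⟨b2, b3⟩ | ⟨b2, b3⟩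
      · exact n2 (s8_seg' a1 b1.symm (Or.inl ⟨by linarith, by linarith, hle⟩))
      · linarith
    · rcases b2 with ⟨b2, b3⟩ | ⟨b2, b3⟩
      · linarith
      · exact n1 (s8_seg' b1 a1.symm (Or.inr ⟨by linarith, hle, by linarith⟩))

theorem s8_cpl {N j : ℕ} (hj : j ≤ N) : Cpl N (4 * j) := ⟨by omega, by omega⟩

theorem s8_add {a b : ZMod 2} (h : a + b = 0) : a = b := by
  revert a b
  decide

theorem s8_cl (N : Net) (j : ℕ) : N.cl (4 * j) = [.B (4 * j), .T (4 * j)] := by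
  rw [Net.cl, N.ci_long (by omega)]
  rfl

/-- for long wires: the side changes exactly if the light segment crosses the wire -/
theorem ND.side_long {N : Net} (D : ND N) {j : ℕ} (hj : j ≤ N.N) {x y : Pt} (h : D.Lt x y)
    (hx : x ∉ D.gam (4 * j)) (hy : y ∉ D.gam (4 * j)) (hne : D.side (4 * j) x ≠ D.side (4 * j) y) :
    Cross x y (D.p (.B (4 * j))) (D.p (.T (4 * j))) := by
  have h1 := D.side_Lt (s8_cpl hj) h hx hy
  by_contra hcon
  apply hne
  apply s8_add
  rw [h1, D.clp_long j]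
  simp [crL, sumE, edg, cr, hcon]

theorem s8_blk (N : Net) (j : ℕ) (b : ℕ × ℕ) (c : ℕ) :
    (Vx.blk b c) ∉ N.cl (4 * j) ∧ (Vx.blk b c) ≠ .hub 2 ∧ (Vx.blk b c) ≠ .hub 3 ∧ (Vx.blk b c) ≠ .hub 4 := by
  rw [s8_cl]
  simp

theorem s8_T (N : Net) {j k : ℕ} (h : k ≠ 4 * j) :
    (Vx.T k) ∉ N.cl (4 * j) ∧ (Vx.T k) ≠ .hub 2 ∧ (Vx.T k) ≠ .hub 3 ∧ (Vx.T k) ≠ .hub 4 := by
  rw [s8_cl]
  simp [h]

theorem s8_R (N : Net) (j k : ℕ) :
    (Vx.R k) ∉ N.cl (4 * j) ∧ (Vx.R k) ≠ .hub 2 ∧ (Vx.R k) ≠ .hub 3 ∧ (Vx.R k) ≠ .hub 4 := by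
  rw [s8_cl]
  simp

theorem s8_L (N : Net) (j k : ℕ) :
    (Vx.L k) ∉ N.cl (4 * j) ∧ (Vx.L k) ≠ .hub 2 ∧ (Vx.L k) ≠ .hub 3 ∧ (Vx.L k) ≠ .hub 4 := by
  rw [s8_cl]
  simp

theorem s8_wire {N : Net} (D : ND N) {j : ℕ} (hj : j ≤ N.N) :
    D.Lt (D.p (.B (4 * j))) (D.p (.T (4 * j))) := by
  have h := N.ci_li (s8_cpl hj)
  have h1 := h (.B (4 * j), .T (4 * j)) (by
    rw [N.ci_long (by omega)]
    simp [edg])
  exact D.Lt_of (show 4 * j ≤ 4 * N.N by omega) (show 4 * j ≤ 4 * N.N by omega) h1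

/-- two different light neighbours on the side `s` of the long wire force the side `s` -/
theorem s8_two {N : Net} {D : ND N} (h : Norm D) {j : ℕ} (hj : j ≤ N.N) {x y y' : Vx}
    (hx : N.isV x) (hy : N.isV y) (hy' : N.isV y') (hne : y ≠ y')
    (hxy : N.li x y) (hxy' : N.li x y')
    (ax : x ∉ N.cl (4 * j) ∧ x ≠ .hub 2 ∧ x ≠ .hub 3 ∧ x ≠ .hub 4)
    (ay : y ∉ N.cl (4 * j) ∧ y ≠ .hub 2 ∧ y ≠ .hub 3 ∧ y ≠ .hub 4)
    (ay' : y' ∉ N.cl (4 * j) ∧ y' ≠ .hub 2 ∧ y' ≠ .hub 3 ∧ y' ≠ .hub 4) {s : ZMod 2}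
    (sy : D.side (4 * j) (D.p y) = s) (sy' : D.side (4 * j) (D.p y') = s) :
    D.side (4 * j) (D.p x) = s := by
  by_contra hcon
  have gx := D.not_mem_gam (s8_cpl hj) hx ax
  have gy := D.not_mem_gam (s8_cpl hj) hy ay
  have gy' := D.not_mem_gam (s8_cpl hj) hy' ay'
  have c1 := D.side_long hj (D.Lt_of hx hy hxy) gx gy (by rw [sy]; exact hcon)
  have c2 := D.side_long hj (D.Lt_of hx hy' hxy') gx gy' (by rw [sy']; exact hcon)
  have hB : N.isV (.B (4 * j)) := show 4 * j ≤ 4 * N.N by omega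
  have hT : N.isV (.T (4 * j)) := show 4 * j ≤ 4 * N.N by omega
  have ne1 : x ≠ .B (4 * j) := by
    rintro rfl
    exact ax.1 (by rw [s8_cl]; simp)
  have ne2 : x ≠ .T (4 * j) := by
    rintro rfl
    exact ax.1 (by rw [s8_cl]; simp)
  exact D.toPD.one_edge (D.Lt_of hx hy hxy) (D.Lt_of hx hy' hxy') (fun he => hne (D.pinj hy hy' he))
    (s8_wire D hj) (h.ver hj) c1 c2 (fun he => ne1 (D.pinj hx hB he)) (fun he => ne2 (D.pinj hx hT he))

/-- all vertices of a block are on the same side of a long wire (`Net.conn`, `ND.side_hv`) -/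
theorem ND.side_block {N : Net} (D : ND N) {j : ℕ} (hj : j ≤ N.N) {b : ℕ × ℕ} {c : ℕ}
    (hb : N.inB b c) :
    D.side (4 * j) (D.p (.blk b c)) = D.side (4 * j) (D.p (.blk b (N.F b))) := by
  have h1 := N.conn hb
  have h2 : ∀ x, Relation.ReflTransGen
      (fun x y => N.inB b x ∧ N.inB b y ∧ N.hv (.blk b x) (.blk b y)) (N.F b) x →
      D.side (4 * j) (D.p (.blk b x)) = D.side (4 * j) (D.p (.blk b (N.F b))) := by
    intro x hx
    induction hx with
    | refl => rfl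
    | tail _ hyz ih =>
      rw [← ih]
      exact (D.side_hv (s8_cpl hj) hyz.2.2 hyz.1 hyz.2.1 (s8_blk N j b _) (s8_blk N j b _)).symm
  exact h2 c h1

/-- Blocks in the column lanes `≥ j` are on the right of the wire `g_j`. Induction on
`(M - row b, N - col b)` lexicographically: the upper and the right neighbour of the full vertex are
on the right side, so by `PD.one_edge` the full vertex is on the right side. -/
theorem Norm.side_right {N : Net} {D : ND N} (h : Norm D) {j : ℕ} {b : ℕ × ℕ} {c : ℕ}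
    (hb : N.inB b c) (hj : j ≤ N.col b) : D.side (4 * j) (D.p (.blk b c)) = 1 := by
  have main : ∀ m n : ℕ, ∀ (b : ℕ × ℕ) (c : ℕ), N.inB b c → j ≤ N.col b → N.M - N.row b = m →
      N.N - N.col b = n → D.side (4 * j) (D.p (.blk b c)) = 1 := by
    intro m
    induction m using Nat.strong_induction_on with
    | _ m ihm =>
      intro n
      induction n using Nat.strong_induction_on with
      | _ n ihn =>
        intro b c hb hj hm hn
        have hc := N.col_lt hb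
        have hr := N.row_lt hb
        have hjN : j ≤ N.N := by omega
        rw [D.side_block hjN hb]
        have hF := N.inB_F hb
        obtain ⟨y, hyV, hyl, hya, hys, hyd⟩ : ∃ y : Vx, N.isV y ∧ N.li (.blk b (N.F b)) y ∧
            (y ∉ N.cl (4 * j) ∧ y ≠ .hub 2 ∧ y ≠ .hub 3 ∧ y ≠ .hub 4) ∧
            D.side (4 * j) (D.p y) = 1 ∧
            ((∃ k, y = .T k) ∨ ∃ b' c', y = .blk b' c' ∧ N.row b < N.row b') := by
          rcases N.up hb with ⟨k, hk, hk1, hk2, hkl⟩ | ⟨b', c', hb', hcol, hrow, hl⟩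
          · have hlt : 4 * j < k := by omega
            exact ⟨.T k, hk, hkl, s8_T N (by omega), D.side_T_gt (s8_cpl hjN) hlt hk, Or.inl ⟨k, rfl⟩⟩
          · have hr' := N.row_lt hb'
            refine ⟨.blk b' c', hb', hl, s8_blk N j b' c', ?_, Or.inr ⟨b', c', rfl, hrow⟩⟩
            exact ihm (N.M - N.row b') (by omega) _ b' c' hb' (by omega) rfl rfl
        obtain ⟨z, hzV, hzl, hza, hzs, hzd⟩ : ∃ y : Vx, N.isV y ∧ N.li (.blk b (N.F b)) y ∧
            (y ∉ N.cl (4 * j) ∧ y ≠ .hub 2 ∧ y ≠ .hub 3 ∧ y ≠ .hub 4) ∧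
            D.side (4 * j) (D.p y) = 1 ∧
            ((∃ k, y = .R k) ∨ ∃ b' c', y = .blk b' c' ∧ N.row b' = N.row b) := by
          rcases N.rt hb with ⟨k, hk, hk1, hk2, hkl⟩ | ⟨b', c', hb', hrow, hcol, hl⟩
          · exact ⟨.R k, hk, hkl, s8_R N j k, D.side_R (s8_cpl hjN) hk, Or.inl ⟨k, rfl⟩⟩
          · have hc' := N.col_lt hb'
            refine ⟨.blk b' c', hb', hl, s8_blk N j b' c', ?_, Or.inr ⟨b', c', rfl, hrow⟩⟩
            exact ihn (N.N - N.col b') (by omega) b' c' hb' (by omega) (by rw [hrow]; exact hm) rfl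
        have hne : y ≠ z := by
          rintro rfl
          rcases hyd with ⟨k, rfl⟩ | ⟨b1, c1, rfl, h1⟩
          · rcases hzd with ⟨k', h2⟩ | ⟨b2, c2, h2, -⟩
            · cases h2
            · cases h2
          · rcases hzd with ⟨k', h2⟩ | ⟨b2, c2, h2, h3⟩
            · cases h2
            · injection h2 with h4 h5
              subst h4
              omega
        exact s8_two h hjN (x := .blk b (N.F b)) hF hyV hzV hne hyl hzl (s8_blk N j b _) hya hza hys hzs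
  exact main _ _ b c hb hj rfl rfl

/-- Blocks in the column lanes `< j` are on the left of the wire `g_j`: upper and left
neighbours. -/
theorem Norm.side_left {N : Net} {D : ND N} (h : Norm D) {j : ℕ} (hjN : j ≤ N.N) {b : ℕ × ℕ}
    {c : ℕ} (hb : N.inB b c) (hj : N.col b < j) : D.side (4 * j) (D.p (.blk b c)) = 0 := by
  have main : ∀ m n : ℕ, ∀ (b : ℕ × ℕ) (c : ℕ), N.inB b c → N.col b < j → N.M - N.row b = m →
      N.col b = n → D.side (4 * j) (D.p (.blk b c)) = 0 := by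
    intro m
    induction m using Nat.strong_induction_on with
    | _ m ihm =>
      intro n
      induction n using Nat.strong_induction_on with
      | _ n ihn =>
        intro b c hb hj hm hn
        have hc := N.col_lt hb
        have hr := N.row_lt hb
        rw [D.side_block hjN hb]
        have hF := N.inB_F hb
        obtain ⟨y, hyV, hyl, hya, hys, hyd⟩ : ∃ y : Vx, N.isV y ∧ N.li (.blk b (N.F b)) y ∧
            (y ∉ N.cl (4 * j) ∧ y ≠ .hub 2 ∧ y ≠ .hub 3 ∧ y ≠ .hub 4) ∧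
            D.side (4 * j) (D.p y) = 0 ∧
            ((∃ k, y = .T k) ∨ ∃ b' c', y = .blk b' c' ∧ N.row b < N.row b') := by
          rcases N.up hb with ⟨k, hk, hk1, hk2, hkl⟩ | ⟨b', c', hb', hcol, hrow, hl⟩
          · have hlt : k < 4 * j := by omega
            exact ⟨.T k, hk, hkl, s8_T N (by omega), D.side_T_lt (s8_cpl hjN) hlt, Or.inl ⟨k, rfl⟩⟩
          · have hr' := N.row_lt hb'
            refine ⟨.blk b' c', hb', hl, s8_blk N j b' c', ?_, Or.inr ⟨b', c', rfl, hrow⟩⟩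
            exact ihm (N.M - N.row b') (by omega) _ b' c' hb' (by omega) rfl rfl
        obtain ⟨z, hzV, hzl, hza, hzs, hzd⟩ : ∃ y : Vx, N.isV y ∧ N.li (.blk b (N.F b)) y ∧
            (y ∉ N.cl (4 * j) ∧ y ≠ .hub 2 ∧ y ≠ .hub 3 ∧ y ≠ .hub 4) ∧
            D.side (4 * j) (D.p y) = 0 ∧
            ((∃ k, y = .L k) ∨ ∃ b' c', y = .blk b' c' ∧ N.row b' = N.row b) := by
          rcases N.lf hb with ⟨k, hk, hk1, hk2, hkl⟩ | ⟨b', c', hb', hrow, hcol, hl⟩
          · exact ⟨.L k, hk, hkl, s8_L N j k, D.side_L (s8_cpl hjN) hk, Or.inl ⟨k, rfl⟩⟩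
          · have hc' := N.col_lt hb'
            refine ⟨.blk b' c', hb', hl, s8_blk N j b' c', ?_, Or.inr ⟨b', c', rfl, hrow⟩⟩
            exact ihn (N.col b') (by omega) b' c' hb' (by omega) (by rw [hrow]; exact hm) rfl
        have hne : y ≠ z := by
          rintro rfl
          rcases hyd with ⟨k, rfl⟩ | ⟨b1, c1, rfl, h1⟩
          · rcases hzd with ⟨k', h2⟩ | ⟨b2, c2, h2, -⟩
            · cases h2
            · cases h2
          · rcases hzd with ⟨k', h2⟩ | ⟨b2, c2, h2, h3⟩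
            · cases h2
            · injection h2 with h4 h5
              subst h4
              omega
        exact s8_two h hjN (x := .blk b (N.F b)) hF hyV hzV hne hyl hzl (s8_blk N j b _) hya hza hys hzs
  exact main _ _ b c hb hj rfl rfl

end Pool.Agent.H54R
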