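import Pool.Agent.Lib.H54R.SDefs
import Pool.Agent.Lib.H54R.S0
import Pool.Agent.Lib.H54R.S5
import Pool.Agent.Lib.H54R.S6B
import Pool.Agent.Lib.H54R.S7
import Pool.Agent.Lib.H54R.S8

/-!
# S9: row edges are horizontal, column edges are vertical
-/

set_option autoImplicit false

namespace Pool.Agent.H54R

/-- a light edge whose ends are on different sides of a long column wire is horizontal -/
theorem Norm.hor_of_side {N : Net} {D : ND N} (h : Norm D) {j : ℕ} (hj : j ≤ N.N) {a b : Vx}
    (ha : N.isV a) (hb : N.isV b) (hab : N.li a b)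
    (ha' : a ∉ N.cl (4 * j) ∧ a ≠ .hub 2 ∧ a ≠ .hub 3 ∧ a ≠ .hub 4)
    (hb' : b ∉ N.cl (4 * j) ∧ b ≠ .hub 2 ∧ b ≠ .hub 3 ∧ b ≠ .hub 4)
    (hne : D.side (4 * j) (D.p a) ≠ D.side (4 * j) (D.p b)) : Hor (D.p a) (D.p b) := by
  have gx := D.not_mem_gam (s8_cpl hj) ha ha'
  have gy := D.not_mem_gam (s8_cpl hj) hb hb'
  have c1 := D.side_long hj (D.Lt_of ha hb hab) gx gy hne
  have hB : N.isV (.B (4 * j)) := show 4 * j ≤ 4 * N.N by omega
  have hT : N.isV (.T (4 * j)) := show 4 * j ≤ 4 * N.N by omega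
  have ne1 : a ≠ .B (4 * j) := by
    rintro rfl
    exact ha'.1 (by rw [s8_cl]; simp)
  have ne2 : a ≠ .T (4 * j) := by
    rintro rfl
    exact ha'.1 (by rw [s8_cl]; simp)
  exact (s8_cross D.toPD (D.Lt_of ha hb hab) (s8_wire D hj) (h.ver hj) c1
    (fun he => ne1 (D.pinj ha hB he)) (fun he => ne2 (D.pinj ha hT he))).1

theorem Norm.hor_bb {N : Net} {D : ND N} (h : Norm D) {b b' : ℕ × ℕ} {c c' : ℕ}
    (hb : N.inB b c) (hb' : N.inB b' c') (hne : N.col b ≠ N.col b')
    (hl : N.li (.blk b c) (.blk b' c')) : Hor (D.p (.blk b c)) (D.p (.blk b' c')) := by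
  have c1 := N.col_lt hb
  have c2 := N.col_lt hb'
  rcases lt_or_gt_of_ne hne with hlt | hlt
  · refine h.hor_of_side (j := N.col b') (by omega) (a := .blk b c) (b := .blk b' c') hb hb' hl
      (s8_blk N _ b c) (s8_blk N _ b' c') ?_
    rw [h.side_left (by omega) hb hlt, h.side_right hb' le_rfl]
    decide
  · refine h.hor_of_side (j := N.col b) (by omega) (a := .blk b c) (b := .blk b' c') hb hb' hl
      (s8_blk N _ b c) (s8_blk N _ b' c') ?_
    rw [h.side_left (by omega) hb' hlt, h.side_right hb le_rfl]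
    decide

theorem Norm.hor_bL {N : Net} {D : ND N} (h : Norm D) {b : ℕ × ℕ} {c k : ℕ}
    (hb : N.inB b c) (hk : k ≤ 4 * N.M) (hl : N.li (.blk b c) (.L k)) :
    Hor (D.p (.blk b c)) (D.p (.L k)) := by
  refine h.hor_of_side (j := 0) (Nat.zero_le _) (a := .blk b c) (b := .L k) hb hk hl
    (s8_blk N _ b c) (s8_L N _ k) ?_
  rw [h.side_right hb (Nat.zero_le _), D.side_L (s8_cpl (Nat.zero_le _)) hk]
  decide

theorem Norm.hor_bR {N : Net} {D : ND N} (h : Norm D) {b : ℕ × ℕ} {c k : ℕ}
    (hb : N.inB b c) (hk : k ≤ 4 * N.M) (hl : N.li (.blk b c) (.R k)) :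
    Hor (D.p (.blk b c)) (D.p (.R k)) := by
  have c1 := N.col_lt hb
  refine h.hor_of_side (j := N.col b + 1) (by omega) (a := .blk b c) (b := .R k) hb hk hl
    (s8_blk N _ b c) (s8_R N _ k) ?_
  rw [h.side_left (by omega) hb (by omega), D.side_R (s8_cpl (by omega)) hk]
  decide

theorem Norm.ver_bb {N : Net} {D : ND N} (h : Norm D) {b b' : ℕ × ℕ} {c c' : ℕ}
    (hb : N.inB b c) (hb' : N.inB b' c') (hne : N.row b ≠ N.row b')
    (hl : N.li (.blk b c) (.blk b' c')) : Ver (D.p (.blk b c)) (D.p (.blk b' c')) := by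
  exact Norm.hor_bb (N := N.trN) h.trD hb hb' hne hl

theorem Norm.ver_bB {N : Net} {D : ND N} (h : Norm D) {b : ℕ × ℕ} {c k : ℕ}
    (hb : N.inB b c) (hk : k ≤ 4 * N.N) (hl : N.li (.blk b c) (.B k)) :
    Ver (D.p (.blk b c)) (D.p (.B k)) := by
  exact Norm.hor_bL (N := N.trN) h.trD hb hk hl

theorem Norm.ver_bT {N : Net} {D : ND N} (h : Norm D) {b : ℕ × ℕ} {c k : ℕ}
    (hb : N.inB b c) (hk : k ≤ 4 * N.N) (hl : N.li (.blk b c) (.T k)) :
    Ver (D.p (.blk b c)) (D.p (.T k)) := by
  exact Norm.hor_bR (N := N.trN) h.trD hb hk hl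

theorem s9_edg {α β : Type} (g : α → β) (T : β) : ∀ (l : List α) (v0 : α) (e : β × β),
    e ∈ edg ((v0 :: l).map g ++ [T]) →
      (∃ v w, (v, w) ∈ edg (v0 :: l) ∧ e = (g v, g w)) ∨ ∃ v ∈ v0 :: l, e = (g v, T) := by
  intro l
  induction l with
  | nil =>
    intro v0 e he
    simp only [edg, List.map_cons, List.map_nil, List.cons_append, List.nil_append, List.tail_cons,
      List.zip_cons_cons, List.zip_nil_right, List.mem_singleton] at he
    exact Or.inr ⟨v0, by simp, he⟩
  | cons w l ih =>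
    intro v0 e he
    have he' : e = (g v0, g w) ∨ e ∈ edg ((w :: l).map g ++ [T]) := by
      simpa [edg] using he
    rcases he' with he' | he'
    · exact Or.inl ⟨v0, w, by simp [edg], he'⟩
    · rcases ih w e he' with ⟨v, w', h1, h2⟩ | ⟨v, h1, h2⟩
      · refine Or.inl ⟨v, w', ?_, h2⟩
        have h3 : (v, w') ∈ (v0, w) :: edg (w :: l) := List.mem_cons_of_mem _ h1
        simpa [edg] using h3
      · exact Or.inr ⟨v, List.mem_cons_of_mem _ h1, h2⟩

theorem s9_pair {α : Type} (R : α → α → Prop) : ∀ (l : List α) (v w : α), (v, w) ∈ edg l →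
    l.Pairwise R → R v w ∧ v ∈ l ∧ w ∈ l := by
  intro l
  induction l with
  | nil =>
    intro v w h
    simp [edg] at h
  | cons a l ih =>
    intro v w h hp
    cases l with
    | nil => simp [edg] at h
    | cons b l =>
      have h' : (v, w) = (a, b) ∨ (v, w) ∈ edg (b :: l) := by
        simpa [edg] using h
      rw [List.pairwise_cons] at hp
      rcases h' with h' | h'
      · injection h' with h1 h2
        subst h1 h2
        exact ⟨hp.1 w (by simp), by simp, by simp⟩
      · obtain ⟨h1, h2, h3⟩ := ih v w h' hp.2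
        exact ⟨h1, List.mem_cons_of_mem _ h2, List.mem_cons_of_mem _ h3⟩

theorem s9_const {α : Type} (f : α → ℝ) : ∀ (l : List α) (a : α),
    (∀ e ∈ edg (a :: l), f e.1 = f e.2) → ∀ v ∈ a :: l, f v = f a := by
  intro l
  induction l with
  | nil =>
    intro a _ v hv
    rw [List.mem_singleton] at hv
    rw [hv]
  | cons b l ih =>
    intro a h v hv
    have h1 : f a = f b := h (a, b) (by simp [edg])
    rcases List.mem_cons.mp hv with rfl | hv
    · rfl
    · rw [h1]
      refine ih b (fun e he => h e ?_) v hv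
      have h3 : e ∈ (a, b) :: edg (b :: l) := List.mem_cons_of_mem _ he
      simpa [edg] using h3

/-- a complete column line is on a vertical line (a line without inner vertices: its edge is crossed
by the horizontal wire `h_0`) -/
theorem Norm.line_ver {N : Net} {D : ND N} (h : Norm D) {k : ℕ} (hk : Cpl N.N k) :
    ∀ v ∈ N.cl k, (D.p v).1 = D.xc k := by
  have hcl : N.cl k = .B k :: ((N.ci k).map fun v => Vx.blk v.1 v.2) ++ [.T k] := rfl
  have hli := N.ci_li hk
  have hedge : ∀ e ∈ edg (N.cl k), (D.p e.1).1 = (D.p e.2).1 := by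
    rw [hcl]
    rcases hci : N.ci k with _ | ⟨v0, l⟩
    · intro e he
      have he' : e = (.B k, .T k) := by simpa [edg] using he
      subst he'
      obtain ⟨e, he1, he2⟩ := D.cross_edge (i := 0) (Nat.zero_le _) hk
      have he3 : e = (D.p (.B k), D.p (.T k)) := by
        rw [ND.clp, hcl, hci] at he1
        simpa [edg] using he1
      subst he3
      have hB : N.isV (.B k) := hk.1
      have hT : N.isV (.T k) := hk.1
      have hL : N.isV (.L 0) := Nat.zero_le _
      have hR : N.isV (.R 0) := Nat.zero_le _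
      have hlt : D.Lt (D.p (.B k)) (D.p (.T k)) := D.Lt_of hB hT (hli (.B k, .T k) (by rw [hci]; simp [edg]))
      have hwire : N.li (.L 0) (.R 0) := by
        have h1 := N.ri_li (k := 0) ⟨by omega, by omega⟩ (.L 0, .R 0)
        rw [N.ri_long (by omega)] at h1
        exact h1 (by simp [edg])
      have hlt' : D.Lt (D.p (.L 0)) (D.p (.R 0)) := D.Lt_of hL hR hwire
      have hs : s(D.p (.L 0), D.p (.R 0)) ≠ s(D.p (.B k), D.p (.T k)) := by
        intro hs
        rw [Sym2.eq_iff] at hs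
        rcases hs with hs | hs
        · have := D.pinj hL hB hs.1
          cases this
        · have := D.pinj hL hT hs.1
          cases this
      rcases D.cross hlt' hlt hs (by simpa using he2) with h1 | h1
      · exact h1.2
      · exact absurd (Prod.ext h1.1 h.h0) (D.LP hlt').2.2
    · intro e he
      have he' : e = (.B k, .blk v0.1 v0.2) ∨
          e ∈ edg ((v0 :: l).map (fun v => Vx.blk v.1 v.2) ++ [.T k]) := by
        simpa [edg] using he
      have hli' : ∀ e ∈ edg ((v0 :: l).map (fun v => Vx.blk v.1 v.2) ++ [.T k]), N.li e.1 e.2 := by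
        intro e he
        apply hli
        rw [hci]
        have h3 : e ∈ (Vx.B k, Vx.blk v0.1 v0.2) :: edg ((v0 :: l).map (fun v => Vx.blk v.1 v.2) ++ [.T k]) :=
          List.mem_cons_of_mem _ he
        simpa [edg] using h3
      have hmem : ∀ v ∈ v0 :: l, N.inB v.1 v.2 := fun v hv => (N.ci_mem hk (by rw [hci]; exact hv)).1
      rcases he' with rfl | he'
      · have h1 := hli (.B k, .blk v0.1 v0.2) (by rw [hci]; simp [edg])
        exact (h.ver_bB (hmem v0 (by simp)) hk.1 (N.li_symm h1)).symm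
      · have h0 := hli' e he'
        rcases s9_edg _ _ l v0 e he' with ⟨v, w, h1, rfl⟩ | ⟨v, h1, rfl⟩
        · have hsrt := N.ci_sorted hk
          rw [hci] at hsrt
          obtain ⟨h2, h3, h4⟩ := s9_pair _ _ v w h1 hsrt
          exact h.ver_bb (hmem v h3) (hmem w h4) h2.ne h0
        · exact h.ver_bT (hmem v h1) hk.1 h0
  intro v hv
  exact s9_const (fun v => (D.p v).1) _ _ (by rw [hcl] at hedge; exact hedge) v (by rw [hcl] at hv; exact hv)

theorem Norm.line_hor {N : Net} {D : ND N} (h : Norm D) {k : ℕ} (hk : Cpl N.M k) :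
    ∀ v ∈ N.rl k, (D.p v).2 = D.yc k := by
  intro v hv
  have hcl : N.trN.cl k = .B k :: ((N.ri k).map fun v => Vx.blk v.1 v.2) ++ [.T k] := rfl
  have hmem : v.tr ∈ N.trN.cl k := by
    rw [hcl]
    rw [Net.rl] at hv
    simp only [List.cons_append, List.mem_cons, List.mem_append, List.mem_map, List.mem_singleton,
      List.not_mem_nil, or_false] at hv ⊢
    rcases hv with rfl | ⟨w, hw, rfl⟩ | rfl
    · exact Or.inl rfl
    · exact Or.inr (Or.inl ⟨w, hw, rfl⟩)
    · exact Or.inr (Or.inr rfl)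
  have h1 := Norm.line_ver (N := N.trN) h.trD hk v.tr hmem
  have h2 : D.trD.p v.tr = swapE (D.p v.tr.tr) := rfl
  rw [h2, Vx.tr_tr, ND.trD_xc] at h1
  exact h1

end Pool.Agent.H54R
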