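import Pool.Agent.Lib.H54R.SDefs
import Pool.Agent.Lib.H54R.S0
import Pool.Agent.Lib.H54R.S5
import Pool.Agent.Lib.H54R.S6B
import Pool.Agent.Lib.H54R.S7
import Pool.Agent.Lib.H54R.S8
import Pool.Agent.Lib.H54R.S9

/-!
# S10: the order of the complete lines
-/

set_option autoImplicit false

namespace Pool.Agent.H54R

theorem s10_open {a b z : Pt} (h : z ∈ openSegment ℝ a b) :
    ∃ s t : ℝ, 0 < s ∧ 0 < t ∧ s + t = 1 ∧ z.1 = s * a.1 + t * b.1 ∧ z.2 = s * a.2 + t * b.2 := by
  obtain ⟨s, t, hs, ht, hst, rfl⟩ := h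
  exact ⟨s, t, hs, ht, hst, rfl, rfl⟩

theorem s10_fst {a b z : Pt} {x : ℝ} (ha : a.1 = x) (hb : b.1 = x)
    (h : z ∈ openSegment ℝ a b) : z.1 = x := by
  obtain ⟨s, t, _, _, hst, h1, _⟩ := s10_open h
  rw [h1, ha, hb, ← add_mul, hst, one_mul]

theorem s10_snd {a b z : Pt} {x : ℝ} (ha : a.2 = x) (hb : b.2 = x)
    (h : z ∈ openSegment ℝ a b) : z.2 = x := by
  obtain ⟨s, t, _, _, hst, _, h1⟩ := s10_open h
  rw [h1, ha, hb, ← add_mul, hst, one_mul]

theorem s10_btw {a b z : Pt} (hab : a.1 < b.1) (h : z ∈ openSegment ℝ a b) :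
    a.1 < z.1 ∧ z.1 < b.1 := by
  obtain ⟨s, t, hs, ht, hst, h1, _⟩ := s10_open h
  have hs' : s = 1 - t := by linarith
  subst hs'
  constructor <;> rw [h1] <;> nlinarith

theorem s10_edge_line {N : Net} {D : ND N} (h : Norm D) {k : ℕ} (hk : Cpl N.N k) {e : Pt × Pt}
    (he : e ∈ edg (D.clp k)) : e.1.1 = D.xc k ∧ e.2.1 = D.xc k := by
  have h1 := mem_of_edg he
  have h2 : ∀ x ∈ D.clp k, x.1 = D.xc k := by
    intro x hx
    unfold ND.clp at hx
    obtain ⟨v, hv, rfl⟩ := List.mem_map.1 hx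
    exact h.line_ver hk v hv
  exact ⟨h2 _ h1.1, h2 _ h1.2⟩

/-- The wire `h_0` meets the line `k` exactly in the point `(xc k, yc 0)`, which is an interior point
of an edge of the line and of the wire. -/
theorem Norm.meet {N : Net} {D : ND N} (h : Norm D) {k i : ℕ} (hk : Cpl N.N k) (hi : i ≤ N.M) :
    ((D.xc k, D.yc (4 * i)) : Pt) ∈ openSegment ℝ (D.p (.L (4 * i))) (D.p (.R (4 * i))) ∧
      ∃ e ∈ edg (D.clp k), ((D.xc k, D.yc (4 * i)) : Pt) ∈ openSegment ℝ e.1 e.2 := by
  obtain ⟨e, he, w, hw1, hw2⟩ := D.cross_edge hi hk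
  obtain ⟨e1, e2⟩ := s10_edge_line h hk he
  have h1 : w.1 = D.xc k := s10_fst e1 e2 hw2
  have h2 : w.2 = D.yc (4 * i) := s10_snd rfl (h.hor hi).symm hw1
  have h3 : w = ((D.xc k, D.yc (4 * i)) : Pt) := Prod.ext h1 h2
  rw [← h3]
  exact ⟨hw1, e, he, hw2⟩

theorem s10_open_sub {a b x y : Pt} (hx : x ∈ segment ℝ a b) (hy : y ∈ openSegment ℝ a b)
    {w : Pt} (hw : w ∈ openSegment ℝ x y) : w ∈ openSegment ℝ a b := by
  obtain ⟨s, t, hs, ht, hst, rfl⟩ := hw
  obtain ⟨s1, t1, hs1, ht1, hst1, rfl⟩ := hx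
  obtain ⟨s2, t2, hs2, ht2, hst2, rfl⟩ := hy
  refine ⟨s * s1 + t * s2, s * t1 + t * t2, by positivity, by positivity, ?_, ?_⟩
  · linear_combination hst + s * hst1 + t * hst2
  · rw [smul_add, smul_add, add_smul, add_smul, smul_smul, smul_smul, smul_smul, smul_smul]
    abel

/-- two light edges on vertical lines do not cross -/
theorem s10_no_cross (D : PD) {a b c d : Pt} (h : D.Lt a b) (h' : D.Lt c d)
    (hne : s(a, b) ≠ s(c, d)) (h1 : Ver a b) (h2 : Ver c d) : ¬ Cross a b c d := by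
  intro hc
  rcases D.cross h h' hne hc with h3 | h3
  · exact (D.LP h).2.2 (s6b_ext h3.1 h1)
  · exact (D.LP h').2.2 (s6b_ext h3.2 h2)

theorem s10_edg_gam {N : Net} (D : ND N) {l : ℕ} {e : Pt × Pt} (he : e ∈ edg (D.gam l)) :
    e ∈ edg (D.clp l) ∨ e ∈ edg (D.hubs l) := by
  have h1 : ∃ c, D.clp l = c ++ [D.p (.T l)] := by
    refine ⟨(Vx.B l :: (N.ci l).map fun v => Vx.blk v.1 v.2).map D.p, ?_⟩
    unfold ND.clp Net.cl
    rw [List.map_append]
    rfl
  have h2 : ∃ c, D.hubs l = D.p (.T l) :: c := ⟨_, rfl⟩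
  obtain ⟨c, hc⟩ := h1
  obtain ⟨c', hc'⟩ := h2
  have h3 : D.gam l = c ++ D.p (.T l) :: c' := by
    unfold ND.gam
    rw [hc, hc', List.tail_cons, List.append_assoc]
    rfl
  rw [h3, edg_append, ← hc, ← hc'] at he
  exact List.mem_append.1 he

/-- the vertices of a complete line are not on the polygon of another one -/
theorem s10_cl_disj {N : Net} {k l : ℕ} (hk : Cpl N.N k) (hl : Cpl N.N l) (hkl : k ≠ l) {v : Vx}
    (hv : v ∈ N.cl k) : v ∉ N.cl l ∧ v ≠ .hub 2 ∧ v ≠ .hub 3 ∧ v ≠ .hub 4 := by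
  unfold Net.cl at hv
  unfold Net.cl
  simp only [List.cons_append, List.mem_cons, List.mem_append, List.mem_map, List.not_mem_nil,
    or_false] at hv ⊢
  rcases hv with rfl | ⟨w, hw, rfl⟩ | rfl
  · refine ⟨?_, by simp, by simp, by simp⟩
    rintro (h | ⟨w, _, h⟩ | h)
    · exact hkl (by simpa using h)
    · simp at h
    · simp at h
  · refine ⟨?_, by simp, by simp, by simp⟩
    rintro (h | ⟨w', hw', h⟩ | h)
    · simp at h
    · simp only [Vx.blk.injEq] at h
      have h' : w' = w := Prod.ext h.1 h.2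
      rw [h'] at hw'
      exact hkl (N.ci_disj hk hl hw hw')
    · simp at h
  · refine ⟨?_, by simp, by simp, by simp⟩
    rintro (h | ⟨w, _, h⟩ | h)
    · simp at h
    · simp at h
    · exact hkl (by simpa using h)

theorem s10_clp_not_gam {N : Net} (D : ND N) {k l : ℕ} (hk : Cpl N.N k) (hl : Cpl N.N l)
    (hkl : k ≠ l) {x : Pt} (hx : x ∈ D.clp k) : x ∉ D.gam l := by
  unfold ND.clp at hx
  obtain ⟨v, hv, rfl⟩ := List.mem_map.1 hx
  exact D.not_mem_gam hl (N.cl_isV hk v hv) (s10_cl_disj hk hl hkl hv)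

theorem s10_clp_P {N : Net} (D : ND N) {k : ℕ} (hk : Cpl N.N k) {x : Pt} (hx : x ∈ D.clp k) :
    x ∈ D.P := by
  unfold ND.clp at hx
  obtain ⟨v, hv, rfl⟩ := List.mem_map.1 hx
  exact D.pP (N.cl_isV hk v hv)

theorem s10_sne {x y : Pt} {e : Pt × Pt} {l : List Pt} (he : e ∈ edg l) (hx : x ∉ l) :
    s(x, y) ≠ s(e.1, e.2) := by
  intro h
  rw [Sym2.eq_iff] at h
  have h1 := mem_of_edg he
  rcases h with h | h
  · exact hx (h.1 ▸ h1.1)
  · exact hx (h.1 ▸ h1.2)

/-- an edge of the line `k` does not cross the polygon of the line `l` -/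
theorem s10_edge_cross {N : Net} {D : ND N} (h : Norm D) {k l : ℕ} (hk : Cpl N.N k)
    (hl : Cpl N.N l) (hkl : k ≠ l) {e e' : Pt × Pt} (he : e ∈ edg (D.clp k))
    (he' : e' ∈ edg (D.gam l)) : ¬ Cross e.1 e.2 e'.1 e'.2 := by
  have h1 := D.clp_Lt hk e he
  have hx : e.1 ∉ D.gam l := s10_clp_not_gam D hk hl hkl (mem_of_edg he).1
  have hne := s10_sne (y := e.2) he' hx
  rcases s10_edg_gam D he' with h2 | h2
  · have e1 := s10_edge_line h hk he
    have e2 := s10_edge_line h hl h2
    exact s10_no_cross D.toPD h1 (D.clp_Lt hl e' h2) hne (e1.1.trans e1.2.symm)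
      (e2.1.trans e2.2.symm)
  · have h3 : D.U e'.1 e'.2 := D.hubs_pathU hl.1 e' h2
    intro hc
    obtain ⟨w, hw1, hw2⟩ := hc
    exact D.un h3 (Or.inl h1) hne.symm ⟨w, hw2, hw1⟩

theorem s10_end_or_open {a b z : Pt} (h : z ∈ segment ℝ a b) :
    z = a ∨ z = b ∨ z ∈ openSegment ℝ a b := by
  rw [← insert_endpoints_openSegment] at h
  exact h

theorem s10_not_end {a b z : Pt} (hab : a ≠ b) (h : z ∈ openSegment ℝ a b) : z ≠ a ∧ z ≠ b := by
  constructor
  · rintro rfl
    rw [left_mem_openSegment_iff] at h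
    exact hab h
  · rintro rfl
    rw [right_mem_openSegment_iff] at h
    exact hab h

/-- an interior point of an edge of the line `k` is not on the polygon of the line `l` -/
theorem s10_not_on {N : Net} {D : ND N} (h : Norm D) {k l : ℕ} (hk : Cpl N.N k)
    (hl : Cpl N.N l) (hkl : k ≠ l) {e : Pt × Pt} (he : e ∈ edg (D.clp k)) {z : Pt}
    (hz : z ∈ openSegment ℝ e.1 e.2) {e' : Pt × Pt} (he' : e' ∈ edg (D.gam l)) :
    z ∉ segment ℝ e'.1 e'.2 := by
  intro hz'
  have h1 := D.clp_Lt hk e he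
  have hzn := s10_not_end (D.LP h1).2.2 hz
  have hP : ∀ x ∈ D.gam l, x ∈ D.P := by
    intro x hx
    rcases D.mem_gam.1 hx with h2 | h2
    · exact s10_clp_P D hl h2
    · unfold ND.hubs at h2
      rcases D.mem_ex h2 with ⟨v, hv, rfl⟩ | ⟨f, hf, rfl⟩
      · refine D.pP ?_
        simp only [List.mem_cons, List.not_mem_nil, or_false] at hv
        rcases hv with rfl | rfl | rfl | rfl | rfl
        · exact hl.1
        · exact (by decide : (2 : ℕ) < 5)
        · exact (by decide : (4 : ℕ) < 5)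
        · exact (by decide : (3 : ℕ) < 5)
        · exact hl.1
      · have i2 : N.isV (.hub 2) := (by decide : (2 : ℕ) < 5)
        have i3 : N.isV (.hub 3) := (by decide : (3 : ℕ) < 5)
        have i4 : N.isV (.hub 4) := (by decide : (4 : ℕ) < 5)
        have iT : N.isV (.T l) := hl.1
        have iB : N.isV (.B l) := hl.1
        simp only [edg, List.tail_cons, List.zip_cons_cons, List.zip_nil_right, List.mem_cons,
          List.not_mem_nil, or_false] at hf
        rcases hf with rfl | rfl | rfl | rfl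
        · exact D.mP iT i2 (N.hv_symm (N.hT hl.1))
        · exact D.mP i2 i4 (N.hv_symm (N.hZ (by decide)))
        · exact D.mP i4 i3 (N.hZ (by decide))
        · exact D.mP i3 iB (N.hB hl.1)
  have hseg : ∀ x ∈ D.P, x = z → False := by
    intro x hx hxz
    refine D.nv (Or.inl h1) hx ?_ ?_ ?_
    · rw [hxz]; exact hzn.1
    · rw [hxz]; exact hzn.2
    · rw [hxz]; exact openSegment_subset_segment ℝ _ _ hz
  have hm := mem_of_edg he'
  rcases s10_end_or_open hz' with h2 | h2 | h2
  · exact hseg _ (hP _ hm.1) h2.symm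
  · exact hseg _ (hP _ hm.2) h2.symm
  · exact s10_edge_cross h hk hl hkl he he' ⟨z, hz, h2⟩

theorem s10_vertex_not_on {N : Net} {D : ND N} {l : ℕ} (hl : Cpl N.N l) {x : Pt}
    (hx : x ∈ D.P) (hxg : x ∉ D.gam l) {e' : Pt × Pt} (he' : e' ∈ edg (D.gam l)) :
    x ∉ segment ℝ e'.1 e'.2 := by
  have h1 : D.Sg e'.1 e'.2 := D.gam_pathD hl e' he'
  have hm := mem_of_edg he'
  exact D.nv h1 hx (fun h => hxg (h ▸ hm.1)) (fun h => hxg (h ▸ hm.2))

/-- all vertices of the line `k` are on the same side of the line `l` -/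
theorem s10_side_line {N : Net} {D : ND N} (h : Norm D) {k l : ℕ} (hk : Cpl N.N k)
    (hl : Cpl N.N l) (hkl : k ≠ l) {x : Pt} (hx : x ∈ D.clp k) :
    D.side l x = D.side l (D.p (.B k)) := by
  have key : ∀ (c : List Pt), (∀ e ∈ edg c, e ∈ edg (D.clp k)) → ∀ a ∈ c.head?, ∀ x ∈ c,
      D.side l x = D.side l a := by
    intro c
    induction c with
    | nil => intro _ a ha; simp at ha
    | cons b c ih =>
      intro hc a ha x hx
      rw [List.head?_cons, Option.mem_some_iff] at ha
      subst ha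
      rcases List.mem_cons.1 hx with rfl | hx
      · rfl
      · cases c with
        | nil => simp at hx
        | cons b' c =>
          have he : (b, b') ∈ edg (D.clp k) := hc _ (by rw [edg_cons]; simp)
          have h1 := D.clp_Lt hk _ he
          have hm := mem_of_edg he
          have h2 := D.side_Lt hl h1 (s10_clp_not_gam D hk hl hkl hm.1)
            (s10_clp_not_gam D hk hl hkl hm.2)
          have h3 : crL b b' (D.clp l) = 0 := by
            unfold crL
            apply sumE_zero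
            intro e' he'
            have h4 : e' ∈ edg (D.gam l) := by
              have h5 : ∃ c, D.clp l = c ++ [D.p (.T l)] := by
                refine ⟨(Vx.B l :: (N.ci l).map fun v => Vx.blk v.1 v.2).map D.p, ?_⟩
                unfold ND.clp Net.cl
                rw [List.map_append]
                rfl
              obtain ⟨c1, hc1⟩ := h5
              obtain ⟨c2, hc2⟩ : ∃ c, D.hubs l = D.p (.T l) :: c := ⟨_, rfl⟩
              have h6 : D.gam l = c1 ++ D.p (.T l) :: c2 := by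
                unfold ND.gam
                rw [hc1, hc2, List.tail_cons, List.append_assoc]
                rfl
              rw [h6, edg_append, ← hc1]
              exact List.mem_append_left _ he'
            rw [cr, if_neg (s10_edge_cross h hk hl hkl he h4)]
          rw [h3] at h2
          have h4 : D.side l b = D.side l b' := by
            have : D.side l b = - D.side l b' := eq_neg_of_add_eq_zero_left h2
            rw [this]
            exact CharTwo.neg_eq _
          rw [h4]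
          refine ih (fun e he => hc e ?_) b' (by simp) x hx
          rw [edg_cons]
          exact List.mem_cons_of_mem _ he
  refine key (D.clp k) (fun e he => he) _ ?_ x hx
  unfold ND.clp Net.cl
  simp

theorem s10_crL_zero {a b : Pt} {l : List Pt} (h : ∀ e ∈ edg l, ¬ Cross a b e.1 e.2) :
    crL a b l = 0 := by
  unfold crL
  apply sumE_zero
  intro e he
  rw [cr, if_neg (h e he)]

theorem s10_add_zero {a b : ZMod 2} (h : a + b = 0) : a = b := by
  have : a = -b := eq_neg_of_add_eq_zero_left h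
  rw [this]
  exact CharTwo.neg_eq _

/-- Order of the complete lines. Let `z = (xc k, yc 0)`. It is an interior point of an edge of the line
`k`, vertical, so the part of this edge from `z` to an end does not cross the polygon of the line `l`
(`ND.side_part`), the line `k` does not cross it either, so `side l z = side l (B k) = 0`. Hence the
part of `h_0` from `L 0` to `z` has an even number of crossings with the line `l`, and it does not
contain the point `(xc l, yc 0)`. -/
theorem Norm.xc_lt {N : Net} {D : ND N} (h : Norm D) {k l : ℕ} (hk : Cpl N.N k) (hl : Cpl N.N l)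
    (hkl : k < l) : D.xc k < D.xc l := by
  have hne : k ≠ l := ne_of_lt hkl
  obtain ⟨hz0, e, he, hze⟩ := h.meet (i := 0) hk (Nat.zero_le _)
  set z : Pt := (D.xc k, D.yc (4 * 0)) with hzdef
  have hLt := D.clp_Lt hk e he
  have hm := mem_of_edg he
  have hg1 := s10_clp_not_gam D hk hl hne hm.1
  have hg2 := s10_clp_not_gam D hk hl hne hm.2
  have hzn := s10_not_end (D.LP hLt).2.2 hze
  -- the side of `z`
  have s1 : D.side l e.1 + D.side l z = crL e.1 z (D.gam l) := by
    refine D.side_part hl (Or.inl hLt) hzn.1.symm (left_mem_segment ℝ _ _)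
      (openSegment_subset_segment ℝ _ _ hze) ?_ hg1 hg2
    intro e' he'
    exact ⟨s10_vertex_not_on hl (s10_clp_P D hk hm.1) hg1 he',
      s10_not_on h hk hl hne he hze he'⟩
  have s2 : crL e.1 z (D.gam l) = 0 := by
    apply s10_crL_zero
    rintro e' he' ⟨w, hw1, hw2⟩
    exact s10_edge_cross h hk hl hne he he'
      ⟨w, s10_open_sub (left_mem_segment ℝ _ _) hze hw1, hw2⟩
  have s3 : D.side l z = 0 := by
    rw [s2] at s1
    rw [← s10_add_zero s1, s10_side_line h hk hl hne hm.1]
    exact D.side_B_lt hl hkl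
  -- the right part of the wire
  have hw : D.Lt (D.p (.L (4 * 0))) (D.p (.R (4 * 0))) := D.Lt_row (Nat.zero_le _)
  have hwn := s10_not_end (D.LP hw).2.2 hz0
  have i0 : 4 * 0 ≤ 4 * N.M := by omega
  have hL : D.p (.L (4 * 0)) ∉ D.gam l :=
    D.not_mem_gam hl i0 (by unfold Net.cl; simp)
  have hR : D.p (.R (4 * 0)) ∉ D.gam l :=
    D.not_mem_gam hl i0 (by unfold Net.cl; simp)
  have t1 : D.side l z + D.side l (D.p (.R (4 * 0))) = crL z (D.p (.R (4 * 0))) (D.gam l) := by
    refine D.side_part hl (Or.inl hw) hwn.2 (openSegment_subset_segment ℝ _ _ hz0)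
      (right_mem_segment ℝ _ _) ?_ hL hR
    intro e' he'
    exact ⟨s10_not_on h hk hl hne he hze he', s10_vertex_not_on hl (D.pP (v := .R (4 * 0)) i0) hR he'⟩
  rw [s3, D.side_R hl i0, zero_add] at t1
  have t2 : ∃ e' ∈ edg (D.gam l), Cross z (D.p (.R (4 * 0))) e'.1 e'.2 := by
    by_contra hc
    push Not at hc
    rw [s10_crL_zero hc] at t1
    exact one_ne_zero t1
  obtain ⟨e', he', w, hw1, hw2⟩ := t2
  have hw0 : w ∈ openSegment ℝ (D.p (.L (4 * 0))) (D.p (.R (4 * 0))) := by
    rw [openSegment_symm]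
    rw [openSegment_symm] at hw1
    refine s10_open_sub (left_mem_segment ℝ _ _) ?_ hw1
    rw [openSegment_symm]
    exact hz0
  rcases s10_edg_gam D he' with h2 | h2
  · have e2 := s10_edge_line h hl h2
    have h3 : w.1 = D.xc l := s10_fst e2.1 e2.2 hw2
    have h4 : z.1 < (D.p (.R (4 * 0))).1 := (s10_btw h.h1 hz0).2
    have h5 := (s10_btw h4 hw1).1
    rw [h3] at h5
    exact h5
  · exfalso
    have h3 : D.U e'.1 e'.2 := D.hubs_pathU hl.1 e' h2
    exact D.un h3 (Or.inl hw) (s10_sne he' hL).symm ⟨w, hw2, hw0⟩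

theorem Norm.yc_lt {N : Net} {D : ND N} (h : Norm D) {k l : ℕ} (hk : Cpl N.M k) (hl : Cpl N.M l)
    (hkl : k < l) : D.yc k < D.yc l :=
  h.trD.xc_lt (k := k) (l := l) hk hl hkl

end Pool.Agent.H54R
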