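import Pool.Agent.Lib.H54R.SDefs
import Pool.Agent.Lib.H54R.S0
import Pool.Agent.Lib.H54R.S2
import Pool.Agent.Lib.H54R.S5
import Pool.Agent.Lib.H54R.S6B
import Pool.Agent.Lib.H54R.S7
import Pool.Agent.Lib.H54R.S8
import Pool.Agent.Lib.H54R.S9
import Pool.Agent.Lib.H54R.S10

/-!
# S11: blocks are in their cells
-/

set_option autoImplicit false

namespace Pool.Agent.H54R

theorem s11_blk_off {N : Net} {j : ℕ} (h4 : j % 4 = 0) {b : ℕ × ℕ} {c : ℕ} :
    Vx.blk b c ∉ N.cl j ∧ Vx.blk b c ≠ .hub 2 ∧ Vx.blk b c ≠ .hub 3 ∧ Vx.blk b c ≠ .hub 4 := by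
  unfold Net.cl
  rw [N.ci_long h4]
  simp

theorem s11_L_off {N : Net} {j k : ℕ} :
    Vx.L k ∉ N.cl j ∧ Vx.L k ≠ .hub 2 ∧ Vx.L k ≠ .hub 3 ∧ Vx.L k ≠ .hub 4 := by
  unfold Net.cl
  simp

theorem s11_R_off {N : Net} {j k : ℕ} :
    Vx.R k ∉ N.cl j ∧ Vx.R k ≠ .hub 2 ∧ Vx.R k ≠ .hub 3 ∧ Vx.R k ≠ .hub 4 := by
  unfold Net.cl
  simp

/-- a horizontal segment which crosses a vertical line -/
theorem s11_cross_btw {a b c d : Pt} {x : ℝ} (hc : c.1 = x) (hd : d.1 = x)
    (h : Cross a b c d) : (a.1 < x ∧ x < b.1) ∨ (b.1 < x ∧ x < a.1) ∨ (a.1 = x ∧ b.1 = x) := by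
  obtain ⟨w, hw1, hw2⟩ := h
  have h1 : w.1 = x := s10_fst hc hd hw2
  rcases lt_trichotomy a.1 b.1 with h2 | h2 | h2
  · have := s10_btw h2 hw1
    rw [h1] at this
    exact Or.inl this
  · right; right
    have h3 := s10_fst rfl h2.symm hw1
    rw [h1] at h3
    exact ⟨h3.symm, by rw [← h2]; exact h3.symm⟩
  · rw [openSegment_symm] at hw1
    have := s10_btw h2 hw1
    rw [h1] at this
    exact Or.inr (Or.inl this)

/-- two light segments which start at the same vertex in the same horizontal direction -/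
theorem s11_same_dir (D : PD) {f u v : Pt} (hu : D.Lt f u) (hv : D.Lt f v) (h1 : f.2 = u.2)
    (h2 : f.2 = v.2) (huv : u ≠ v) (h3 : f.1 < u.1) (h4 : f.1 < v.1) : False := by
  have key : ∀ {a b : Pt}, D.Lt f a → D.Lt f b → f.2 = a.2 → f.2 = b.2 → a ≠ b → f.1 < a.1 →
      a.1 ≤ b.1 → False := by
    intro a b ha hb ea eb hab h5 h6
    refine D.nv (Or.inl hb) (D.LP ha).2.1 (D.LP ha).2.2.symm hab ?_
    have hb1 : 0 < b.1 - f.1 := by linarith
    refine ⟨(b.1 - a.1) / (b.1 - f.1), (a.1 - f.1) / (b.1 - f.1),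
      div_nonneg (by linarith) hb1.le, div_nonneg (by linarith) hb1.le, ?_, ?_⟩
    · field_simp
      ring
    · apply Prod.ext
      · change (b.1 - a.1) / (b.1 - f.1) * f.1 + (a.1 - f.1) / (b.1 - f.1) * b.1 = a.1
        field_simp
        ring
      · change (b.1 - a.1) / (b.1 - f.1) * f.2 + (a.1 - f.1) / (b.1 - f.1) * b.2 = a.2
        rw [← eb, ← ea]
        field_simp
        ring
  rcases le_total u.1 v.1 with h5 | h5
  · exact key hu hv h1 h2 huv h3 h5
  · exact key hv hu h2 h1 huv.symm h4 h5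

theorem s11_same_dir' (D : PD) {f u v : Pt} (hu : D.Lt f u) (hv : D.Lt f v) (h1 : f.2 = u.2)
    (h2 : f.2 = v.2) (huv : u ≠ v) (h3 : u.1 < f.1) (h4 : v.1 < f.1) : False := by
  have key : ∀ {a b : Pt}, D.Lt f a → D.Lt f b → f.2 = a.2 → f.2 = b.2 → a ≠ b → a.1 < f.1 →
      b.1 ≤ a.1 → False := by
    intro a b ha hb ea eb hab h5 h6
    refine D.nv (Or.inl hb) (D.LP ha).2.1 (D.LP ha).2.2.symm hab ?_
    have hb1 : 0 < f.1 - b.1 := by linarith
    refine ⟨(a.1 - b.1) / (f.1 - b.1), (f.1 - a.1) / (f.1 - b.1),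
      div_nonneg (by linarith) hb1.le, div_nonneg (by linarith) hb1.le, ?_, ?_⟩
    · field_simp
      ring
    · apply Prod.ext
      · change (a.1 - b.1) / (f.1 - b.1) * f.1 + (f.1 - a.1) / (f.1 - b.1) * b.1 = a.1
        field_simp
        ring
      · change (a.1 - b.1) / (f.1 - b.1) * f.2 + (f.1 - a.1) / (f.1 - b.1) * b.2 = a.2
        rw [← eb, ← ea]
        field_simp
        ring
  rcases le_total u.1 v.1 with h5 | h5
  · exact key hv hu h2 h1 huv.symm h4 h5
  · exact key hu hv h1 h2 huv h3 h5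

/-- the left neighbour of the full vertex -/
theorem s11_left {N : Net} {D : ND N} (h : Norm D) {b : ℕ × ℕ} {c : ℕ} (hb : N.inB b c) :
    ∃ u, N.isV u ∧ N.li (.blk b (N.F b)) u ∧ (∀ j, u ∉ N.cl (4 * j) ∧ u ≠ .hub 2 ∧ u ≠ .hub 3 ∧
      u ≠ .hub 4) ∧ D.side (4 * N.col b) (D.p u) = 0 ∧ Hor (D.p (.blk b (N.F b))) (D.p u) := by
  have hbF := N.inB_F hb
  have hc := N.col_lt hb
  rcases N.lf hb with ⟨k, hk, _, _, hli⟩ | ⟨b', c', hb', _, hcol, hli⟩
  · exact ⟨.L k, hk, hli, fun j => s11_L_off, D.side_L ⟨by omega, by omega⟩ hk,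
      h.hor_bL hbF hk hli⟩
  · exact ⟨.blk b' c', hb', hli, fun j => s11_blk_off (by omega),
      h.side_left (j := N.col b) (by omega) hb' hcol, h.hor_bb hbF hb' (by omega) hli⟩

theorem s11_right {N : Net} {D : ND N} (h : Norm D) {b : ℕ × ℕ} {c : ℕ} (hb : N.inB b c) :
    ∃ u, N.isV u ∧ N.li (.blk b (N.F b)) u ∧ (∀ j, u ∉ N.cl (4 * j) ∧ u ≠ .hub 2 ∧ u ≠ .hub 3 ∧
      u ≠ .hub 4) ∧ D.side (4 * (N.col b + 1)) (D.p u) = 1 ∧ D.side (4 * N.col b) (D.p u) = 1 ∧
      Hor (D.p (.blk b (N.F b))) (D.p u) := by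
  have hbF := N.inB_F hb
  have hc := N.col_lt hb
  rcases N.rt hb with ⟨k, hk, _, _, hli⟩ | ⟨b', c', hb', _, hcol, hli⟩
  · exact ⟨.R k, hk, hli, fun j => s11_R_off, D.side_R ⟨by omega, by omega⟩ hk,
      D.side_R ⟨by omega, by omega⟩ hk, h.hor_bR hbF hk hli⟩
  · exact ⟨.blk b' c', hb', hli, fun j => s11_blk_off (by omega),
      h.side_right (j := N.col b + 1) hb' (by omega), h.side_right (j := N.col b) hb' (by omega),
      h.hor_bb hbF hb' (by omega) hli⟩

theorem s11_wire {N : Net} {D : ND N} (h : Norm D) {j : ℕ} (hj : j ≤ N.N) :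
    (D.p (.B (4 * j))).1 = D.xc (4 * j) ∧ (D.p (.T (4 * j))).1 = D.xc (4 * j) :=
  ⟨rfl, (h.ver hj).symm⟩

/-- the full vertex lies strictly between the two long column wires of its lane: the left edge
crosses `g_j`, the right edge crosses `g_{j+1}`, both are horizontal, and they go in opposite
directions -/
theorem Norm.full_x {N : Net} {D : ND N} (h : Norm D) {b : ℕ × ℕ} {c : ℕ} (hb : N.inB b c) :
    D.xc (4 * N.col b) < (D.p (.blk b (N.F b))).1 ∧
      (D.p (.blk b (N.F b))).1 < D.xc (4 * N.col b + 4) := by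
  have hbF := N.inB_F hb
  have hc := N.col_lt hb
  obtain ⟨u, hu, hui, huo, hus, huh⟩ := s11_left h hb
  obtain ⟨v, hv, hvi, hvo, hvs, hvs', hvh⟩ := s11_right h hb
  have hfu : D.Lt (D.p (.blk b (N.F b))) (D.p u) := D.Lt_of hbF hu hui
  have hfv : D.Lt (D.p (.blk b (N.F b))) (D.p v) := D.Lt_of hbF hv hvi
  have j0 : N.col b ≤ N.N := by omega
  have j1 : N.col b + 1 ≤ N.N := by omega
  have c0 : Cpl N.N (4 * N.col b) := s6b_cpl j0
  have c1 : Cpl N.N (4 * (N.col b + 1)) := s6b_cpl j1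
  have hfs0 : D.side (4 * N.col b) (D.p (.blk b (N.F b))) = 1 := h.side_right hbF le_rfl
  have hfs1 : D.side (4 * (N.col b + 1)) (D.p (.blk b (N.F b))) = 0 :=
    h.side_left j1 hbF (by omega)
  have hfo : ∀ j, D.p (.blk b (N.F b)) ∉ D.gam (4 * j) → True := fun _ _ => trivial
  have cu : Cross (D.p (.blk b (N.F b))) (D.p u) (D.p (.B (4 * N.col b)))
      (D.p (.T (4 * N.col b))) := by
    refine D.side_long j0 hfu ?_ ?_ ?_
    · exact D.not_mem_gam c0 hbF (s11_blk_off (by omega))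
    · exact D.not_mem_gam c0 hu (huo _)
    · rw [hfs0, hus]
      exact one_ne_zero
  have cv : Cross (D.p (.blk b (N.F b))) (D.p v) (D.p (.B (4 * (N.col b + 1))))
      (D.p (.T (4 * (N.col b + 1)))) := by
    refine D.side_long j1 hfv ?_ ?_ ?_
    · exact D.not_mem_gam c1 hbF (s11_blk_off (by omega))
    · exact D.not_mem_gam c1 hv (hvo _)
    · rw [hfs1, hvs]
      exact zero_ne_one
  have huv : D.p u ≠ D.p v := by
    intro e
    rw [e, hvs'] at hus
    exact one_ne_zero hus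
  have w0 := s11_wire h j0
  have w1 := s11_wire h j1
  have hlt : D.xc (4 * N.col b) < D.xc (4 * (N.col b + 1)) := h.xc_lt c0 c1 (by omega)
  have hne : ∀ {y : Pt} {x : ℝ}, D.Lt (D.p (.blk b (N.F b))) y →
      Hor (D.p (.blk b (N.F b))) y → (D.p (.blk b (N.F b))).1 = x → y.1 = x → False := by
    intro y x h1 h2 h3 h4
    exact (D.LP h1).2.2 (s6b_ext h2 (h3.trans h4.symm))
  have hgoal : 4 * N.col b + 4 = 4 * (N.col b + 1) := by ring
  rw [hgoal]
  rcases s11_cross_btw w0.1 w0.2 cu with a | a | a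
  · rcases s11_cross_btw w1.1 w1.2 cv with a' | a' | a'
    · exact (s11_same_dir D.toPD hfu hfv huh hvh huv (a.1.trans a.2) (a'.1.trans a'.2)).elim
    · exfalso
      linarith [a.1, a'.2]
    · exact (hne hfv hvh a'.1 a'.2).elim
  · rcases s11_cross_btw w1.1 w1.2 cv with a' | a' | a'
    · exact ⟨a.2, a'.1⟩
    · exact (s11_same_dir' D.toPD hfu hfv huh hvh huv (a.1.trans a.2) (a'.1.trans a'.2)).elim
    · exact (hne hfv hvh a'.1 a'.2).elim
  · exact (hne hfu huh a.1 a.2).elim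

theorem Norm.full_cell {N : Net} {D : ND N} (h : Norm D) {b : ℕ × ℕ} {c : ℕ} (hb : N.inB b c) :
    D.Cell (N.row b) (N.col b) (D.p (.blk b (N.F b))) := by
  have h1 := h.full_x hb
  have h2 := h.trD.full_x (b := b) (c := c) hb
  exact ⟨h1.1, h1.2, h2.1, h2.2⟩

/-- an interior point of a light segment is not on an uncrossed segment, except at an end which
would be a vertex -/
theorem s11_wall (D : PD) {x y P Q w : Pt} (hxy : D.U x y) (hPQ : D.Lt P Q) (hxP : x ≠ P)
    (hxQ : x ≠ Q) (hw : w ∈ segment ℝ x y) (hwx : w ≠ x) (hwP : w ∈ openSegment ℝ P Q) :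
    False := by
  rcases s10_end_or_open hw with h | h | h
  · exact hwx h
  · subst h
    have h1 := s10_not_end (D.LP hPQ).2.2 hwP
    exact D.nv (Or.inl hPQ) (D.UP hxy).2.1 h1.1 h1.2 (openSegment_subset_segment ℝ _ _ hwP)
  · refine D.un hxy (Or.inl hPQ) ?_ ⟨w, h, hwP⟩
    intro e
    rw [Sym2.eq_iff] at e
    rcases e with e | e
    · exact hxP e.1
    · exact hxQ e.1

theorem s11_convex_x {P Q : Pt} {a c d y : ℝ} (h1 : ((a, c) : Pt) ∈ openSegment ℝ P Q)
    (h2 : ((a, d) : Pt) ∈ openSegment ℝ P Q) (hcd : c < d) (hy1 : c ≤ y) (hy2 : y ≤ d) :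
    ((a, y) : Pt) ∈ openSegment ℝ P Q := by
  refine (convex_openSegment P Q).segment_subset h1 h2 ?_
  have hd : 0 < d - c := by linarith
  refine ⟨(d - y) / (d - c), (y - c) / (d - c), div_nonneg (by linarith) hd.le,
    div_nonneg (by linarith) hd.le, ?_, ?_⟩
  · field_simp
    ring
  · apply Prod.ext
    · change (d - y) / (d - c) * a + (y - c) / (d - c) * a = a
      field_simp
      ring
    · change (d - y) / (d - c) * c + (y - c) / (d - c) * d = y
      field_simp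
      ring

theorem s11_convex_y {P Q : Pt} {a c d y : ℝ} (h1 : ((c, a) : Pt) ∈ openSegment ℝ P Q)
    (h2 : ((d, a) : Pt) ∈ openSegment ℝ P Q) (hcd : c < d) (hy1 : c ≤ y) (hy2 : y ≤ d) :
    ((y, a) : Pt) ∈ openSegment ℝ P Q := by
  refine (convex_openSegment P Q).segment_subset h1 h2 ?_
  have hd : 0 < d - c := by linarith
  refine ⟨(d - y) / (d - c), (y - c) / (d - c), div_nonneg (by linarith) hd.le,
    div_nonneg (by linarith) hd.le, ?_, ?_⟩
  · field_simp
    ring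
  · apply Prod.ext
    · change (d - y) / (d - c) * c + (y - c) / (d - c) * d = y
      field_simp
      ring
    · change (d - y) / (d - c) * a + (y - c) / (d - c) * a = a
      field_simp
      ring

/-- the exit point of a segment from an open rectangle -/
theorem s11_exit {a b c d : ℝ} {x y : Pt} (h1 : a < x.1) (h2 : x.1 < b) (h3 : c < x.2)
    (h4 : x.2 < d) (hy : ¬ (a < y.1 ∧ y.1 < b ∧ c < y.2 ∧ y.2 < d)) :
    ∃ w ∈ segment ℝ x y, w ≠ x ∧ a ≤ w.1 ∧ w.1 ≤ b ∧ c ≤ w.2 ∧ w.2 ≤ d ∧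
      (w.1 = a ∨ w.1 = b ∨ w.2 = c ∨ w.2 = d) := by
  set z : ℝ → Pt := fun t => (x.1 + t * (y.1 - x.1), x.2 + t * (y.2 - x.2)) with hz
  set m : ℝ → ℝ := fun t => min (min ((z t).1 - a) (b - (z t).1)) (min ((z t).2 - c) (d - (z t).2))
    with hm
  have hcont : Continuous m := by
    rw [hm, hz]
    fun_prop
  have m0 : 0 < m 0 := by
    rw [hm, hz]
    simp only [zero_mul, add_zero, lt_min_iff]
    exact ⟨⟨by linarith, by linarith⟩, by linarith, by linarith⟩
  have m1 : m 1 ≤ 0 := by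
    by_contra hc
    push Not at hc
    rw [hm, hz] at hc
    simp only [one_mul, lt_min_iff] at hc
    apply hy
    obtain ⟨⟨q1, q2⟩, q3, q4⟩ := hc
    exact ⟨by linarith, by linarith, by linarith, by linarith⟩
  have hivt := intermediate_value_Icc' (zero_le_one (α := ℝ)) hcont.continuousOn
  obtain ⟨t, ht, hmt⟩ := hivt ⟨m1, m0.le⟩
  have ht0 : t ≠ 0 := by
    rintro rfl
    rw [hmt] at m0
    exact lt_irrefl _ m0
  have hseg : z t ∈ segment ℝ x y := by
    refine ⟨1 - t, t, by linarith [ht.2], ht.1, by ring, ?_⟩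
    apply Prod.ext
    · change (1 - t) * x.1 + t * y.1 = x.1 + t * (y.1 - x.1)
      ring
    · change (1 - t) * x.2 + t * y.2 = x.2 + t * (y.2 - x.2)
      ring
  have hge : 0 ≤ m t := hmt.ge
  have hge' := hge
  rw [hm] at hge
  simp only [le_min_iff] at hge
  obtain ⟨⟨q1, q2⟩, q3, q4⟩ := hge
  have hle : (z t).1 - a = 0 ∨ b - (z t).1 = 0 ∨ (z t).2 - c = 0 ∨ d - (z t).2 = 0 := by
    have h5 : m t = 0 := hmt
    rw [hm] at h5
    simp only at h5
    rcases min_choice (min ((z t).1 - a) (b - (z t).1)) (min ((z t).2 - c) (d - (z t).2)) with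
      e | e
    · rw [e] at h5
      rcases min_choice ((z t).1 - a) (b - (z t).1) with e' | e'
      · rw [e'] at h5; exact Or.inl h5
      · rw [e'] at h5; exact Or.inr (Or.inl h5)
    · rw [e] at h5
      rcases min_choice ((z t).2 - c) (d - (z t).2) with e' | e'
      · rw [e'] at h5; exact Or.inr (Or.inr (Or.inl h5))
      · rw [e'] at h5; exact Or.inr (Or.inr (Or.inr h5))
  refine ⟨z t, hseg, ?_, by linarith, by linarith, by linarith, by linarith, ?_⟩
  · intro e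
    rcases hle with q | q | q | q
    · rw [e] at q; linarith
    · rw [e] at q; linarith
    · rw [e] at q; linarith
    · rw [e] at q; linarith
  · rcases hle with q | q | q | q
    · exact Or.inl (by linarith)
    · exact Or.inr (Or.inl (by linarith))
    · exact Or.inr (Or.inr (Or.inl (by linarith)))
    · exact Or.inr (Or.inr (Or.inr (by linarith)))

theorem s11_meet_col {N : Net} {D : ND N} (h : Norm D) {i j : ℕ} (hi : i ≤ N.M) (hj : j ≤ N.N) :
    ((D.xc (4 * j), D.yc (4 * i)) : Pt) ∈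
      openSegment ℝ (D.p (.B (4 * j))) (D.p (.T (4 * j))) := by
  obtain ⟨_, e, he, hz⟩ := h.meet (s6b_cpl hj) hi
  rw [D.clp_long] at he
  simp only [edg, List.tail_cons, List.zip_cons_cons, List.zip_nil_right, List.mem_cons,
    List.not_mem_nil, or_false] at he
  rw [he] at hz
  exact hz

theorem s11_meet_row {N : Net} {D : ND N} (h : Norm D) {i j : ℕ} (hi : i ≤ N.M) (hj : j ≤ N.N) :
    ((D.xc (4 * j), D.yc (4 * i)) : Pt) ∈
      openSegment ℝ (D.p (.L (4 * i))) (D.p (.R (4 * i))) :=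
  (h.meet (s6b_cpl hj) hi).1

/-- An uncrossed segment which starts in the open rectangle of a cell stays there: the sides of the
rectangle are parts of the long wires. -/
theorem Norm.cell_U {N : Net} {D : ND N} (h : Norm D) {i j : ℕ} (hi : i < N.M) (hj : j < N.N)
    {x y : Pt} (hxy : D.U x y) (hx : D.Cell i j x) : D.Cell i j y := by
  by_contra hy
  obtain ⟨x1, x2, x3, x4⟩ := hx
  have e1 : 4 * j + 4 = 4 * (j + 1) := by ring
  have e2 : 4 * i + 4 = 4 * (i + 1) := by ring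
  obtain ⟨w, hw, hwx, w1, w2, w3, w4, hside⟩ := s11_exit x1 x2 x3 x4 hy
  rw [e1] at x2 w2 hside
  rw [e2] at x4 w4 hside
  have hx12 : D.xc (4 * j) < D.xc (4 * (j + 1)) :=
    h.xc_lt (s6b_cpl hj.le) (s6b_cpl (Nat.succ_le_of_lt hj)) (by omega)
  have hy12 : D.yc (4 * i) < D.yc (4 * (i + 1)) :=
    h.yc_lt (s6b_cpl hi.le) (s6b_cpl (Nat.succ_le_of_lt hi)) (by omega)
  have hcol : ∀ {j' : ℕ}, j' ≤ N.N → x.1 ≠ D.xc (4 * j') → w.1 = D.xc (4 * j') → False := by
    intro j' hj' hxn hwe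
    have hwo : w ∈ openSegment ℝ (D.p (.B (4 * j'))) (D.p (.T (4 * j'))) := by
      have := s11_convex_x (s11_meet_col h hi.le hj') (s11_meet_col h (Nat.succ_le_of_lt hi) hj')
        hy12 w3 w4
      rwa [← hwe] at this
    have hwire := s11_wire h hj'
    refine s11_wall D.toPD hxy (D.Lt_col hj') ?_ ?_ hw hwx hwo
    · intro e
      rw [e] at hxn
      exact hxn hwire.1
    · intro e
      rw [e] at hxn
      exact hxn hwire.2
  have hrow : ∀ {i' : ℕ}, i' ≤ N.M → x.2 ≠ D.yc (4 * i') → w.2 = D.yc (4 * i') → False := by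
    intro i' hi' hxn hwe
    have hwo : w ∈ openSegment ℝ (D.p (.L (4 * i'))) (D.p (.R (4 * i'))) := by
      have := s11_convex_y (s11_meet_row h hi' hj.le) (s11_meet_row h hi' (Nat.succ_le_of_lt hj))
        hx12 w1 w2
      rwa [← hwe] at this
    refine s11_wall D.toPD hxy (D.Lt_row hi') ?_ ?_ hw hwx hwo
    · intro e
      rw [e] at hxn
      exact hxn rfl
    · intro e
      rw [e] at hxn
      exact hxn (h.hor hi').symm
  rcases hside with q | q | q | q
  · exact hcol hj.le (ne_of_gt x1) q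
  · exact hcol (Nat.succ_le_of_lt hj) (ne_of_lt x2) q
  · exact hrow hi.le (ne_of_gt x3) q
  · exact hrow (Nat.succ_le_of_lt hi) (ne_of_lt x4) q

theorem Norm.cell {N : Net} {D : ND N} (h : Norm D) {b : ℕ × ℕ} {c : ℕ} (hb : N.inB b c) :
    D.Cell (N.row b) (N.col b) (D.p (.blk b c)) := by
  have hi := N.row_lt hb
  have hj := N.col_lt hb
  have hc := N.conn hb
  have hF := h.full_cell hb
  clear hb
  induction hc with
  | refl => exact hF
  | tail _ h2 ih =>
    exact h.cell_U hi hj (D.U2 (a := .blk b _) (b := .blk b _) h2.1 h2.2.1 h2.2.2)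
      (h.cell_U hi hj (D.U1 (a := .blk b _) (b := .blk b _) h2.1 h2.2.1 h2.2.2) ih)

theorem Norm.cell_m {N : Net} {D : ND N} (h : Norm D) {b : ℕ × ℕ} {c c' : ℕ} (hb : N.inB b c)
    (hb' : N.inB b c') (hv : N.hv (.blk b c) (.blk b c')) :
    D.Cell (N.row b) (N.col b) (D.m (.blk b c) (.blk b c')) :=
  h.cell_U (N.row_lt hb) (N.col_lt hb)
    (D.U1 (a := .blk b c) (b := .blk b c') hb hb' hv) (h.cell hb)

end Pool.Agent.H54R
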