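import Pool.Agent.Lib.H54R.SDefs
import Pool.Agent.Lib.H54R.S0
import Pool.Agent.Lib.H54R.S2
import Pool.Agent.Lib.H54R.S5
import Pool.Agent.Lib.H54R.S6B
import Pool.Agent.Lib.H54R.S7
import Pool.Agent.Lib.H54R.S8
import Pool.Agent.Lib.H54R.S9
import Pool.Agent.Lib.H54R.S10
import Pool.Agent.Lib.H54R.S11

/-!
# S12: complete lines cannot be passed inside a cell
-/

set_option autoImplicit false

namespace Pool.Agent.H54R

theorem s12_list {α : Type} (f : α → ℝ) (y : ℝ) : ∀ l : List α,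
    (∀ e ∈ edg l, ¬ ((f e.1 ≤ y ∧ y ≤ f e.2) ∨ (f e.2 ≤ y ∧ y ≤ f e.1))) →
    (∀ e ∈ edg l, f e.1 < y ∧ f e.2 < y) ∨ (∀ e ∈ edg l, y < f e.1 ∧ y < f e.2) := by
  intro l
  induction l with
  | nil => intro _; left; intro e he; simp [edg] at he
  | cons a t ih =>
    cases t with
    | nil => intro _; left; intro e he; simp [edg] at he
    | cons b t =>
      intro h
      have h0 := h (a, b) (by rw [edg_cons]; exact List.mem_cons_self ..)
      have hab : (f a < y ∧ f b < y) ∨ (y < f a ∧ y < f b) := by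
        by_contra hc
        apply h0
        rcases lt_or_ge (f a) y with ha | ha
        · rcases lt_or_ge (f b) y with hb | hb
          · exact absurd (Or.inl ⟨ha, hb⟩) hc
          · exact Or.inl ⟨ha.le, hb⟩
        · rcases lt_or_ge (f b) y with hb | hb
          · exact Or.inr ⟨hb.le, ha⟩
          · rcases eq_or_lt_of_le ha with ha' | ha'
            · exact Or.inl ⟨ha'.ge, hb⟩
            · rcases eq_or_lt_of_le hb with hb' | hb'
              · exact Or.inr ⟨hb'.ge, ha⟩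
              · exact absurd (Or.inr ⟨ha', hb'⟩) hc
      have ih' := ih (fun e he => h e (by rw [edg_cons]; exact List.mem_cons_of_mem _ he))
      cases t with
      | nil =>
        rcases hab with hab | hab
        · left; intro e he
          rw [edg_cons] at he
          simp [edg] at he
          rw [he]; exact hab
        · right; intro e he
          rw [edg_cons] at he
          simp [edg] at he
          rw [he]; exact hab
      | cons c t =>
        have hbc : (b, c) ∈ edg (b :: c :: t) := by rw [edg_cons]; exact List.mem_cons_self ..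
        rcases ih' with ih' | ih'
        · left; intro e he
          rw [edg_cons] at he
          rcases List.mem_cons.1 he with he | he
          · rcases hab with hab | hab
            · rw [he]; exact hab
            · exact absurd (ih' _ hbc).1 (not_lt.2 hab.2.le)
          · exact ih' e he
        · right; intro e he
          rw [edg_cons] at he
          rcases List.mem_cons.1 he with he | he
          · rcases hab with hab | hab
            · exact absurd (ih' _ hbc).1 (not_lt.2 hab.2.le)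
            · rw [he]; exact hab
          · exact ih' e he

theorem s12_seg {a b : Pt} {X y : ℝ} (ha : a.1 = X) (hb : b.1 = X)
    (h : (a.2 ≤ y ∧ y ≤ b.2) ∨ (b.2 ≤ y ∧ y ≤ a.2)) : ((X, y) : Pt) ∈ segment ℝ a b := by
  have hy : y ∈ segment ℝ a.2 b.2 := by
    rw [segment_eq_uIcc]
    rcases h with h | h
    · exact Set.mem_uIcc_of_le h.1 h.2
    · exact Set.mem_uIcc_of_ge h.1 h.2
  obtain ⟨s, t, hs, ht, hst, he⟩ := hy
  refine ⟨s, t, hs, ht, hst, ?_⟩
  ext
  · simp only [Prod.fst_add, Prod.smul_fst, smul_eq_mul]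
    rw [ha, hb, ← add_mul, hst, one_mul]
  · simp only [Prod.snd_add, Prod.smul_snd]
    exact he

theorem s12_open {a b z : Pt} (h : z ∈ openSegment ℝ a b) : (a.2 ≤ z.2 ∨ b.2 ≤ z.2) ∧ (z.2 ≤ a.2 ∨ z.2 ≤ b.2) := by
  obtain ⟨s, t, hs, ht, hst, he⟩ := h
  have h2 : s * a.2 + t * b.2 = z.2 := by rw [← he]; simp
  have h5 : s * z.2 + t * z.2 = z.2 := by rw [← add_mul, hst, one_mul]
  constructor
  · by_contra hc
    push Not at hc
    linarith [mul_lt_mul_of_pos_left hc.1 hs, mul_lt_mul_of_pos_left hc.2 ht]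
  · by_contra hc
    push Not at hc
    linarith [mul_lt_mul_of_pos_left hc.1 hs, mul_lt_mul_of_pos_left hc.2 ht]

theorem s12_fst {N : Net} {D : ND N} (h : Norm D) {k : ℕ} (hk : Cpl N.N k) {x : Pt} (hx : x ∈ D.clp k) :
    x.1 = D.xc k := by
  obtain ⟨v, hv, rfl⟩ := List.mem_map.1 hx
  exact h.line_ver hk v hv

theorem s12_cpl {n i : ℕ} (hi : i ≤ n) : Cpl n (4 * i) := by
  constructor
  · omega
  · omega

theorem s12_yle {N : Net} {D : ND N} (h : Norm D) {i j : ℕ} (hij : i ≤ j) (hj : j ≤ N.M) :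
    D.yc (4 * i) ≤ D.yc (4 * j) := by
  rcases eq_or_lt_of_le hij with rfl | hlt
  · exact le_rfl
  · exact (h.yc_lt (s12_cpl (by omega)) (s12_cpl hj) (by omega)).le

theorem s12_not_mem {N : Net} {D : ND N} {k : ℕ} (hk : Cpl N.N k) {b : ℕ × ℕ} {c : ℕ} (hb : N.inB b c)
    (hc : (b, c) ∉ N.ci k) : D.p (.blk b c) ∉ D.clp k := by
  intro hx
  obtain ⟨v, hv, he⟩ := List.mem_map.1 hx
  have hv' := N.cl_isV hk v hv
  have hb' : N.isV (.blk b c) := hb
  have e := D.pinj hv' hb' he
  subst e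
  simp only [Net.cl, List.cons_append, List.mem_cons, List.mem_append, List.mem_map] at hv
  rcases hv with hv | ⟨w, hw, hw'⟩ | hv | hv
  · exact absurd hv (by simp)
  · injection hw' with h1 h2
    apply hc
    rw [← h1, ← h2]
    exact hw
  · exact absurd hv (by simp)
  · simp at hv

theorem s12_m_not_mem {N : Net} {D : ND N} {k : ℕ} (hk : Cpl N.N k) {b : ℕ × ℕ} {c c' : ℕ} (hb : N.inB b c)
    (hb' : N.inB b c') (hv : N.hv (.blk b c) (.blk b c')) : D.m (.blk b c) (.blk b c') ∉ D.clp k := by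
  intro hx
  obtain ⟨v, hv', he⟩ := List.mem_map.1 hx
  exact D.mp (a := .blk b c) (b := .blk b c') hb hb' hv (N.cl_isV hk v hv') he.symm

/-- A complete column line covers the vertical segment between the wires `h_0` and `h_M`: otherwise all
its vertices would be above or below the height `y`, but it meets `h_0` and `h_M`
(`Norm.meet`). -/
theorem Norm.cover {N : Net} {D : ND N} (h : Norm D) {k : ℕ} (hk : Cpl N.N k) {y : ℝ}
    (h1 : D.yc 0 ≤ y) (h2 : y ≤ D.yc (4 * N.M)) :
    ∃ e ∈ edg (D.clp k), ((D.xc k, y) : Pt) ∈ segment ℝ e.1 e.2 := by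
  have hM : 0 ≤ N.M := Nat.zero_le _
  obtain ⟨-, e0, he0, hz0⟩ := h.meet (i := 0) hk hM
  obtain ⟨-, e1, he1, hz1⟩ := h.meet (i := N.M) hk le_rfl
  have a0 := s12_open hz0
  have a1 := s12_open hz1
  simp only [Nat.mul_zero] at a0
  by_contra hc
  push Not at hc
  have h3 : ∀ e ∈ edg (D.clp k), ¬ ((e.1.2 ≤ y ∧ y ≤ e.2.2) ∨ (e.2.2 ≤ y ∧ y ≤ e.1.2)) := by
    intro e he hcon
    have hm := mem_of_edg he
    exact hc e he (s12_seg (s12_fst h hk hm.1) (s12_fst h hk hm.2) hcon)
  rcases s12_list (fun x : Pt => x.2) y (D.clp k) h3 with h4 | h4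
  · have b1 := h4 e1 he1
    rcases a1.2 with a | a
    · exact absurd (lt_of_lt_of_le b1.1 h2) (not_lt.2 a)
    · exact absurd (lt_of_lt_of_le b1.2 h2) (not_lt.2 a)
  · have b0 := h4 e0 he0
    rcases a0.1 with a | a
    · exact absurd (lt_of_le_of_lt h1 b0.1) (not_lt.2 a)
    · exact absurd (lt_of_le_of_lt h1 b0.2) (not_lt.2 a)

/-- a vertex in a cell which is not on the line does not have the same first coordinate -/
theorem Norm.ne_xc {N : Net} {D : ND N} (h : Norm D) {k i j : ℕ} (hk : Cpl N.N k) (hi : i < N.M)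
    {x : Pt} (hx : x ∈ D.P) (hc : D.Cell i j x) (hn : x ∉ D.clp k) : x.1 ≠ D.xc k := by
  intro hx1
  have h0 : D.yc 0 ≤ x.2 := by
    have := s12_yle h (Nat.zero_le i) hi.le
    simp only [Nat.mul_zero] at this
    exact this.trans hc.2.2.1.le
  have h1 : x.2 ≤ D.yc (4 * N.M) := by
    have := s12_yle h (show i + 1 ≤ N.M from hi) le_rfl
    rw [show 4 * (i + 1) = 4 * i + 4 by ring] at this
    exact hc.2.2.2.le.trans this
  obtain ⟨e, he, hz⟩ := h.cover hk h0 h1
  have hm := mem_of_edg he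
  have hz' : x ∈ segment ℝ e.1 e.2 := by
    have : x = ((D.xc k, x.2) : Pt) := by rw [← hx1]
    rw [this]; exact hz
  exact D.nv (Or.inl (D.clp_Lt hk e he)) hx (fun hh => hn (hh ▸ hm.1)) (fun hh => hn (hh ▸ hm.2)) hz'

/-- an uncrossed segment in a cell does not pass a complete column line -/
theorem Norm.lt_xc {N : Net} {D : ND N} (h : Norm D) {k i j : ℕ} (hk : Cpl N.N k) (hi : i < N.M)
    {x y : Pt} (hxy : D.U x y) (hx : D.Cell i j x) (hy : D.Cell i j y) (hxn : x ∉ D.clp k)
    (hyn : y ∉ D.clp k) (hlt : x.1 < D.xc k) : y.1 < D.xc k := by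
  have hyP := (D.UP hxy).2.1
  have hne := h.ne_xc hk hi hyP hy hyn
  by_contra hcon
  have hgt : D.xc k < y.1 := lt_of_le_of_ne (not_lt.1 hcon) hne.symm
  have hd : 0 < y.1 - x.1 := by linarith
  set t : ℝ := (D.xc k - x.1) / (y.1 - x.1) with ht
  have ht0 : 0 < t := div_pos (by linarith) hd
  have ht1 : t < 1 := by rw [ht, div_lt_one hd]; linarith
  set w : ℝ := (1 - t) * x.2 + t * y.2 with hw
  have hzo : ((D.xc k, w) : Pt) ∈ openSegment ℝ x y := by
    refine ⟨1 - t, t, by linarith, ht0, by ring, ?_⟩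
    ext
    · simp only [Prod.fst_add, Prod.smul_fst, smul_eq_mul]
      have : t * (y.1 - x.1) = D.xc k - x.1 := div_mul_cancel₀ _ hd.ne'
      linarith
    · simp only [Prod.snd_add, Prod.smul_snd, smul_eq_mul]
      rw [hw]
  have hw1 : D.yc (4 * i) < w := by
    have := hx.2.2.1; have := hy.2.2.1
    rw [hw]; nlinarith
  have hw2 : w < D.yc (4 * i + 4) := by
    have := hx.2.2.2; have := hy.2.2.2
    rw [hw]; nlinarith
  have h0 : D.yc 0 ≤ w := by
    have := s12_yle h (Nat.zero_le i) hi.le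
    simp only [Nat.mul_zero] at this
    exact this.trans hw1.le
  have h1 : w ≤ D.yc (4 * N.M) := by
    have := s12_yle h (show i + 1 ≤ N.M from hi) le_rfl
    rw [show 4 * (i + 1) = 4 * i + 4 by ring] at this
    exact hw2.le.trans this
  obtain ⟨e, he, hz⟩ := h.cover hk h0 h1
  have hm := mem_of_edg he
  have hLt := D.clp_Lt hk e he
  have hzs : ((D.xc k, w) : Pt) ∈ segment ℝ x y := openSegment_subset_segment ℝ x y hzo
  rw [← insert_endpoints_openSegment] at hz
  rcases hz with hz | hz | hz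
  · exact D.nv (Or.inr hxy) (D.LP hLt).1 (fun hh => hxn (hh ▸ hm.1)) (fun hh => hyn (hh ▸ hm.1)) (hz ▸ hzs)
  · exact D.nv (Or.inr hxy) (D.LP hLt).2.1 (fun hh => hxn (hh ▸ hm.2)) (fun hh => hyn (hh ▸ hm.2)) (hz ▸ hzs)
  · refine D.un hxy (Or.inl hLt) ?_ ⟨_, hzo, hz⟩
    intro hs
    rw [Sym2.eq_iff] at hs
    rcases hs with hs | hs
    · exact hxn (hs.1 ▸ hm.1)
    · exact hxn (hs.1 ▸ hm.2)

theorem s12_gt_xc {N : Net} {D : ND N} (h : Norm D) {k i j : ℕ} (hk : Cpl N.N k) (hi : i < N.M)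
    {x y : Pt} (hxy : D.U x y) (hx : D.Cell i j x) (hy : D.Cell i j y) (hxn : x ∉ D.clp k)
    (hyn : y ∉ D.clp k) (hlt : D.xc k < x.1) : D.xc k < y.1 := by
  have hne := h.ne_xc hk hi (D.UP hxy).2.1 hy hyn
  by_contra hcon
  have hlt' : y.1 < D.xc k := lt_of_le_of_ne (not_lt.1 hcon) hne
  exact absurd (h.lt_xc hk hi (D.Usymm hxy) hy hx hyn hxn hlt') (not_lt.2 hlt.le)

/-- versions for the vertices of a block -/
theorem Norm.blk_lt {N : Net} {D : ND N} (h : Norm D) {k : ℕ} (hk : Cpl N.N k) {b : ℕ × ℕ}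
    {c c' : ℕ} (hb : N.inB b c) (hb' : N.inB b c') (hv : N.hv (.blk b c) (.blk b c'))
    (hc : (b, c) ∉ N.ci k) (hc' : (b, c') ∉ N.ci k) (hlt : (D.p (.blk b c)).1 < D.xc k) :
    (D.m (.blk b c) (.blk b c')).1 < D.xc k ∧ (D.p (.blk b c')).1 < D.xc k := by
  have hi := N.row_lt hb
  have c1 := h.cell hb
  have c2 := h.cell_m hb hb' hv
  have c3 := h.cell hb'
  have n1 := s12_not_mem (D := D) hk hb hc
  have n2 := s12_m_not_mem (D := D) hk hb hb' hv
  have n3 := s12_not_mem (D := D) hk hb' hc'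
  have u1 := D.U1 (a := .blk b c) (b := .blk b c') hb hb' hv
  have u2 := D.U2 (a := .blk b c) (b := .blk b c') hb hb' hv
  have r1 := h.lt_xc hk hi u1 c1 c2 n1 n2 hlt
  exact ⟨r1, h.lt_xc hk hi u2 c2 c3 n2 n3 r1⟩

theorem Norm.blk_gt {N : Net} {D : ND N} (h : Norm D) {k : ℕ} (hk : Cpl N.N k) {b : ℕ × ℕ}
    {c c' : ℕ} (hb : N.inB b c) (hb' : N.inB b c') (hv : N.hv (.blk b c) (.blk b c'))
    (hc : (b, c) ∉ N.ci k) (hc' : (b, c') ∉ N.ci k) (hlt : D.xc k < (D.p (.blk b c)).1) :
    D.xc k < (D.m (.blk b c) (.blk b c')).1 ∧ D.xc k < (D.p (.blk b c')).1 := by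
  have hi := N.row_lt hb
  have c1 := h.cell hb
  have c2 := h.cell_m hb hb' hv
  have c3 := h.cell hb'
  have n1 := s12_not_mem (D := D) hk hb hc
  have n2 := s12_m_not_mem (D := D) hk hb hb' hv
  have n3 := s12_not_mem (D := D) hk hb' hc'
  have u1 := D.U1 (a := .blk b c) (b := .blk b c') hb hb' hv
  have u2 := D.U2 (a := .blk b c) (b := .blk b c') hb hb' hv
  have r1 := s12_gt_xc h hk hi u1 c1 c2 n1 n2 hlt
  exact ⟨r1, s12_gt_xc h hk hi u2 c2 c3 n2 n3 r1⟩

/-- One end may be on the line: if `c` is on the line `k` and `c'` is not, the middle point is on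
the side of `c'` or ... (used in the form: the middle point of a heavy edge with one end `c'`
strictly on the left of the line and the other end not on the line or on the line). -/
theorem Norm.mid_lt {N : Net} {D : ND N} (h : Norm D) {k : ℕ} (hk : Cpl N.N k) {b : ℕ × ℕ}
    {c c' : ℕ} (hb : N.inB b c) (hb' : N.inB b c') (hv : N.hv (.blk b c) (.blk b c'))
    (hc' : (b, c') ∉ N.ci k) (hlt : (D.p (.blk b c')).1 < D.xc k) :
    (D.m (.blk b c) (.blk b c')).1 < D.xc k := by
  have u2 := D.U2 (a := .blk b c) (b := .blk b c') hb hb' hv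
  exact h.lt_xc hk (N.row_lt hb) (D.Usymm u2) (h.cell hb') (h.cell_m hb hb' hv)
    (s12_not_mem (D := D) hk hb' hc') (s12_m_not_mem (D := D) hk hb hb' hv) hlt

theorem Norm.mid_gt {N : Net} {D : ND N} (h : Norm D) {k : ℕ} (hk : Cpl N.N k) {b : ℕ × ℕ}
    {c c' : ℕ} (hb : N.inB b c) (hb' : N.inB b c') (hv : N.hv (.blk b c) (.blk b c'))
    (hc' : (b, c') ∉ N.ci k) (hlt : D.xc k < (D.p (.blk b c')).1) :
    D.xc k < (D.m (.blk b c) (.blk b c')).1 := by
  have u2 := D.U2 (a := .blk b c) (b := .blk b c') hb hb' hv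
  exact s12_gt_xc h hk (N.row_lt hb) (D.Usymm u2) (h.cell hb') (h.cell_m hb hb' hv)
    (s12_not_mem (D := D) hk hb' hc') (s12_m_not_mem (D := D) hk hb hb' hv) hlt

/-- A vertex which is connected by a heavy edge with a vertex on the line: strictly on one side,
namely the side of any other neighbour. Version: `c'` is on the line `k`, `c` is not; then
`p c` is not on the vertical line. -/
theorem Norm.blk_ne {N : Net} {D : ND N} (h : Norm D) {k : ℕ} (hk : Cpl N.N k) {b : ℕ × ℕ}
    {c : ℕ} (hb : N.inB b c) (hc : (b, c) ∉ N.ci k) : (D.p (.blk b c)).1 ≠ D.xc k := by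
  exact h.ne_xc hk (N.row_lt hb) (D.pP (v := .blk b c) hb) (h.cell hb) (s12_not_mem (D := D) hk hb hc)

end Pool.Agent.H54R
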