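import Pool.Agent.Lib.H54R.SDefs
import Pool.Agent.Lib.H54R.S0
import Pool.Agent.Lib.H54R.S12

/-!
# S12R: the row versions of S12 (apply S12 to `D.trD`)
-/

set_option autoImplicit false

namespace Pool.Agent.H54R

theorem s12r_clp {N : Net} (D : ND N) (k : ℕ) : D.trD.clp k = (D.rlp k).map swapE := by
  simp only [ND.clp, ND.rlp, Net.cl, Net.rl, List.map_cons, List.map_append, List.map_map,
    List.cons_append, List.map_nil]
  rfl

theorem s12r_mem {N : Net} (D : ND N) (k : ℕ) {x : Pt} (hn : x ∉ D.rlp k) :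
    swapE x ∉ D.trD.clp k := by
  rw [s12r_clp]
  intro hx
  obtain ⟨y, hy, he⟩ := List.mem_map.1 hx
  exact hn (swapE.injective he ▸ hy)

theorem Norm.ne_yc {N : Net} {D : ND N} (h : Norm D) {k i j : ℕ} (hk : Cpl N.M k) (hj : j < N.N)
    {x : Pt} (hx : x ∈ D.P) (hc : D.Cell i j x) (hn : x ∉ D.rlp k) : x.2 ≠ D.yc k := by
  have hP : swapE x ∈ D.trD.P := by
    change swapE.symm (swapE x) ∈ D.P
    rw [LinearEquiv.symm_apply_apply]
    exact hx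
  have hC : D.trD.Cell j i (swapE x) := ⟨hc.2.2.1, hc.2.2.2, hc.1, hc.2.1⟩
  exact Norm.ne_xc (N := N.trN) (D := D.trD) h.trD hk hj hP hC (s12r_mem D k hn)

theorem Norm.rblk_lt {N : Net} {D : ND N} (h : Norm D) {k : ℕ} (hk : Cpl N.M k) {b : ℕ × ℕ}
    {c c' : ℕ} (hb : N.inB b c) (hb' : N.inB b c') (hv : N.hv (.blk b c) (.blk b c'))
    (hc : (b, c) ∉ N.ri k) (hc' : (b, c') ∉ N.ri k) (hlt : (D.p (.blk b c)).2 < D.yc k) :
    (D.m (.blk b c) (.blk b c')).2 < D.yc k ∧ (D.p (.blk b c')).2 < D.yc k :=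
  Norm.blk_lt (N := N.trN) (D := D.trD) h.trD hk hb hb' hv hc hc' hlt

theorem Norm.rblk_gt {N : Net} {D : ND N} (h : Norm D) {k : ℕ} (hk : Cpl N.M k) {b : ℕ × ℕ}
    {c c' : ℕ} (hb : N.inB b c) (hb' : N.inB b c') (hv : N.hv (.blk b c) (.blk b c'))
    (hc : (b, c) ∉ N.ri k) (hc' : (b, c') ∉ N.ri k) (hlt : D.yc k < (D.p (.blk b c)).2) :
    D.yc k < (D.m (.blk b c) (.blk b c')).2 ∧ D.yc k < (D.p (.blk b c')).2 :=
  Norm.blk_gt (N := N.trN) (D := D.trD) h.trD hk hb hb' hv hc hc' hlt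

theorem Norm.rmid_lt {N : Net} {D : ND N} (h : Norm D) {k : ℕ} (hk : Cpl N.M k) {b : ℕ × ℕ}
    {c c' : ℕ} (hb : N.inB b c) (hb' : N.inB b c') (hv : N.hv (.blk b c) (.blk b c'))
    (hc' : (b, c') ∉ N.ri k) (hlt : (D.p (.blk b c')).2 < D.yc k) :
    (D.m (.blk b c) (.blk b c')).2 < D.yc k :=
  Norm.mid_lt (N := N.trN) (D := D.trD) h.trD hk hb hb' hv hc' hlt

theorem Norm.rmid_gt {N : Net} {D : ND N} (h : Norm D) {k : ℕ} (hk : Cpl N.M k) {b : ℕ × ℕ}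
    {c c' : ℕ} (hb : N.inB b c) (hb' : N.inB b c') (hv : N.hv (.blk b c) (.blk b c'))
    (hc' : (b, c') ∉ N.ri k) (hlt : D.yc k < (D.p (.blk b c')).2) :
    D.yc k < (D.m (.blk b c) (.blk b c')).2 :=
  Norm.mid_gt (N := N.trN) (D := D.trD) h.trD hk hb hb' hv hc' hlt

theorem Norm.rblk_ne {N : Net} {D : ND N} (h : Norm D) {k : ℕ} (hk : Cpl N.M k) {b : ℕ × ℕ}
    {c : ℕ} (hb : N.inB b c) (hc : (b, c) ∉ N.ri k) : (D.p (.blk b c)).2 ≠ D.yc k :=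
  Norm.blk_ne (N := N.trN) (D := D.trD) h.trD hk hb hc

end Pool.Agent.H54R
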