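import Pool.Agent.Lib.H54R.SDefs

/-!
# S13: lines made of two light segments, and levers
-/

set_option autoImplicit false

namespace Pool.Agent.H54R

theorem s13_open {a b z : Pt} {θ : ℝ} (h0 : 0 < θ) (h1 : θ < 1)
    (e1 : z.1 = a.1 + θ * (b.1 - a.1)) (e2 : z.2 = a.2 + θ * (b.2 - a.2)) :
    z ∈ openSegment ℝ a b := by
  rw [openSegment_eq_image]
  refine ⟨θ, ⟨h0, h1⟩, ?_⟩
  refine Prod.ext ?_ ?_
  · simp only [Prod.fst_add, Prod.smul_fst, smul_eq_mul]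
    rw [e1]
    ring
  · simp only [Prod.snd_add, Prod.smul_snd, smul_eq_mul]
    rw [e2]
    ring

/-- a point of a vertical segment -/
theorem s13_ver {a b z : Pt} (e1 : a.1 = z.1) (e2 : b.1 = z.1) (h1 : a.2 < z.2)
    (h2 : z.2 < b.2) : z ∈ openSegment ℝ a b := by
  have hd : 0 < b.2 - a.2 := by linarith
  refine s13_open (θ := (z.2 - a.2) / (b.2 - a.2)) (div_pos (by linarith) hd)
    ((div_lt_one hd).mpr (by linarith)) ?_ ?_
  · rw [e1, e2, sub_self, mul_zero, add_zero]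
  · field_simp
    ring

theorem s13_hor {a b z : Pt} (e1 : a.2 = z.2) (e2 : b.2 = z.2) (h1 : a.1 < z.1)
    (h2 : z.1 < b.1) : z ∈ openSegment ℝ a b := by
  have hd : 0 < b.1 - a.1 := by linarith
  refine s13_open (θ := (z.1 - a.1) / (b.1 - a.1)) (div_pos (by linarith) hd)
    ((div_lt_one hd).mpr (by linarith)) ?_ ?_
  · field_simp
    ring
  · rw [e1, e2, sub_self, mul_zero, add_zero]

theorem s13_sym {x y a b : Pt} (h1 : x ≠ a) (h2 : x ≠ b) : s(x, y) ≠ s(a, b) := by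
  intro h
  have h3 : x ∈ s(a, b) := by rw [← h]; exact Sym2.mem_mk_left x y
  rcases Sym2.mem_iff.mp h3 with h4 | h4
  · exact h1 h4
  · exact h2 h4

/-- no vertex in the interior of the line, except the middle -/
theorem s13_on (D : PD) {a s b y : Pt} (h1 : D.Lt a s) (h2 : D.Lt s b) (e1 : a.1 = s.1)
    (e2 : b.1 = s.1) (hy : y ∈ D.P) (hya : y ≠ a) (hys : y ≠ s) (hyb : y ≠ b)
    (h5 : a.2 < y.2) (h6 : y.2 < b.2) (he : y.1 = s.1) : False := by
  rcases lt_trichotomy y.2 s.2 with h | h | h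
  · exact D.nv (Or.inl h1) hy hya hys
      (openSegment_subset_segment ℝ a s (s13_ver (e1.trans he.symm) he.symm h5 h))
  · exact hys (Prod.ext he h)
  · exact D.nv (Or.inl h2) hy hys hyb
      (openSegment_subset_segment ℝ s b (s13_ver he.symm (e2.trans he.symm) h h6))

theorem s13_onh (D : PD) {a s b y : Pt} (h1 : D.Lt a s) (h2 : D.Lt s b) (e1 : a.2 = s.2)
    (e2 : b.2 = s.2) (hy : y ∈ D.P) (hya : y ≠ a) (hys : y ≠ s) (hyb : y ≠ b)
    (h5 : a.1 < y.1) (h6 : y.1 < b.1) (he : y.2 = s.2) : False := by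
  rcases lt_trichotomy y.1 s.1 with h | h | h
  · exact D.nv (Or.inl h1) hy hya hys
      (openSegment_subset_segment ℝ a s (s13_hor (e1.trans he.symm) he.symm h5 h))
  · exact hys (Prod.ext h he)
  · exact D.nv (Or.inl h2) hy hys hyb
      (openSegment_subset_segment ℝ s b (s13_hor he.symm (e2.trans he.symm) h h6))

/-- A vertical line made of two light segments `a s`, `s b` is not passed by an uncrossed segment
`x y` at heights between `a` and `b`. -/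
theorem PD.two_ver_lt (D : PD) {a s b x y : Pt} (h1 : D.Lt a s) (h2 : D.Lt s b) (e1 : a.1 = s.1)
    (e2 : b.1 = s.1) (hxy : D.U x y) (hxa : x ≠ a) (hxs : x ≠ s) (hxb : x ≠ b) (hya : y ≠ a)
    (hys : y ≠ s) (hyb : y ≠ b) (h3 : a.2 < x.2) (h4 : x.2 < b.2) (h5 : a.2 < y.2)
    (h6 : y.2 < b.2) (hlt : x.1 < s.1) : y.1 < s.1 := by
  rcases lt_trichotomy y.1 s.1 with h | h | h
  · exact h
  · exact (s13_on D h1 h2 e1 e2 (D.UP hxy).2.1 hya hys hyb h5 h6 h).elim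
  · exfalso
    have hd : 0 < y.1 - x.1 := by linarith
    have t0 : 0 < (s.1 - x.1) / (y.1 - x.1) := div_pos (by linarith) hd
    have t1 : (s.1 - x.1) / (y.1 - x.1) < 1 := (div_lt_one hd).mpr (by linarith)
    have hz1 : s.1 = x.1 + (s.1 - x.1) / (y.1 - x.1) * (y.1 - x.1) := by
      field_simp
      ring
    have hz : (s.1, x.2 + (s.1 - x.1) / (y.1 - x.1) * (y.2 - x.2)) ∈ openSegment ℝ x y :=
      s13_open t0 t1 hz1 rfl
    have lo : a.2 < x.2 + (s.1 - x.1) / (y.1 - x.1) * (y.2 - x.2) := by nlinarith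
    have hi : x.2 + (s.1 - x.1) / (y.1 - x.1) * (y.2 - x.2) < b.2 := by nlinarith
    generalize x.2 + (s.1 - x.1) / (y.1 - x.1) * (y.2 - x.2) = w at hz lo hi
    rcases lt_trichotomy w s.2 with h7 | h7 | h7
    · exact D.un hxy (Or.inl h1) (s13_sym hxa hxs) ⟨_, hz, s13_ver e1 rfl lo h7⟩
    · rw [h7] at hz
      exact D.nv (Or.inr hxy) (D.LP h2).1 hxs.symm hys.symm
        (openSegment_subset_segment ℝ x y hz)
    · exact D.un hxy (Or.inl h2) (s13_sym hxs hxb) ⟨_, hz, s13_ver rfl e2 h7 hi⟩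

theorem PD.two_ver_gt (D : PD) {a s b x y : Pt} (h1 : D.Lt a s) (h2 : D.Lt s b) (e1 : a.1 = s.1)
    (e2 : b.1 = s.1) (hxy : D.U x y) (hxa : x ≠ a) (hxs : x ≠ s) (hxb : x ≠ b) (hya : y ≠ a)
    (hys : y ≠ s) (hyb : y ≠ b) (h3 : a.2 < x.2) (h4 : x.2 < b.2) (h5 : a.2 < y.2)
    (h6 : y.2 < b.2) (hlt : s.1 < x.1) : s.1 < y.1 := by
  rcases lt_trichotomy y.1 s.1 with h | h | h
  · exact absurd (D.two_ver_lt h1 h2 e1 e2 (D.Usymm hxy) hya hys hyb hxa hxs hxb h5 h6 h3 h4 h)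
      hlt.not_gt
  · exact (s13_on D h1 h2 e1 e2 (D.UP hxy).2.1 hya hys hyb h5 h6 h).elim
  · exact h

/-- the horizontal versions -/
theorem PD.two_hor_lt (D : PD) {a s b x y : Pt} (h1 : D.Lt a s) (h2 : D.Lt s b) (e1 : a.2 = s.2)
    (e2 : b.2 = s.2) (hxy : D.U x y) (hxa : x ≠ a) (hxs : x ≠ s) (hxb : x ≠ b) (hya : y ≠ a)
    (hys : y ≠ s) (hyb : y ≠ b) (h3 : a.1 < x.1) (h4 : x.1 < b.1) (h5 : a.1 < y.1)
    (h6 : y.1 < b.1) (hlt : x.2 < s.2) : y.2 < s.2 := by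
  rcases lt_trichotomy y.2 s.2 with h | h | h
  · exact h
  · exact (s13_onh D h1 h2 e1 e2 (D.UP hxy).2.1 hya hys hyb h5 h6 h).elim
  · exfalso
    have hd : 0 < y.2 - x.2 := by linarith
    have t0 : 0 < (s.2 - x.2) / (y.2 - x.2) := div_pos (by linarith) hd
    have t1 : (s.2 - x.2) / (y.2 - x.2) < 1 := (div_lt_one hd).mpr (by linarith)
    have hz1 : s.2 = x.2 + (s.2 - x.2) / (y.2 - x.2) * (y.2 - x.2) := by
      field_simp
      ring
    have hz : (x.1 + (s.2 - x.2) / (y.2 - x.2) * (y.1 - x.1), s.2) ∈ openSegment ℝ x y :=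
      s13_open t0 t1 rfl hz1
    have lo : a.1 < x.1 + (s.2 - x.2) / (y.2 - x.2) * (y.1 - x.1) := by nlinarith
    have hi : x.1 + (s.2 - x.2) / (y.2 - x.2) * (y.1 - x.1) < b.1 := by nlinarith
    generalize x.1 + (s.2 - x.2) / (y.2 - x.2) * (y.1 - x.1) = w at hz lo hi
    rcases lt_trichotomy w s.1 with h7 | h7 | h7
    · exact D.un hxy (Or.inl h1) (s13_sym hxa hxs) ⟨_, hz, s13_hor e1 rfl lo h7⟩
    · rw [h7] at hz
      exact D.nv (Or.inr hxy) (D.LP h2).1 hxs.symm hys.symm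
        (openSegment_subset_segment ℝ x y hz)
    · exact D.un hxy (Or.inl h2) (s13_sym hxs hxb) ⟨_, hz, s13_hor rfl e2 h7 hi⟩

theorem PD.two_hor_gt (D : PD) {a s b x y : Pt} (h1 : D.Lt a s) (h2 : D.Lt s b) (e1 : a.2 = s.2)
    (e2 : b.2 = s.2) (hxy : D.U x y) (hxa : x ≠ a) (hxs : x ≠ s) (hxb : x ≠ b) (hya : y ≠ a)
    (hys : y ≠ s) (hyb : y ≠ b) (h3 : a.1 < x.1) (h4 : x.1 < b.1) (h5 : a.1 < y.1)
    (h6 : y.1 < b.1) (hlt : s.2 < x.2) : s.2 < y.2 := by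
  rcases lt_trichotomy y.2 s.2 with h | h | h
  · exact absurd (D.two_hor_lt h1 h2 e1 e2 (D.Usymm hxy) hya hys hyb hxa hxs hxb h5 h6 h3 h4 h)
      hlt.not_gt
  · exact (s13_onh D h1 h2 e1 e2 (D.UP hxy).2.1 hya hys hyb h5 h6 h).elim
  · exact h

/-- The lever inequality: the lever `s v` is slanted, hence not crossed; the horizontal light segment
from `t` to `l` reaches to the left of `s`; so `t` is above the lever. -/
theorem PD.lever (D : PD) {s t v l : Pt} (hsv : D.Lt s v) (htl : D.Lt t l) (h1 : s.1 < v.1)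
    (h2 : s.2 < t.2) (h3 : t.2 < v.2) (h4 : l.1 < s.1) (h5 : l.2 = t.2) :
    (t.1 - s.1) * (v.2 - s.2) < (t.2 - s.2) * (v.1 - s.1) := by
  by_contra hcon
  push Not at hcon
  have hts : t ≠ s := by
    rintro rfl
    exact lt_irrefl _ h2
  have htv : t ≠ v := by
    rintro rfl
    exact lt_irrefl _ h3
  have hd : 0 < v.2 - s.2 := by linarith
  have t0 : 0 < (t.2 - s.2) / (v.2 - s.2) := div_pos (by linarith) hd
  have t1 : (t.2 - s.2) / (v.2 - s.2) < 1 := (div_lt_one hd).mpr (by linarith)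
  have hz1 : t.2 = s.2 + (t.2 - s.2) / (v.2 - s.2) * (v.2 - s.2) := by
    field_simp
    ring
  have hz : (s.1 + (t.2 - s.2) / (v.2 - s.2) * (v.1 - s.1), t.2) ∈ openSegment ℝ s v :=
    s13_open t0 t1 rfl hz1
  have lo : s.1 < s.1 + (t.2 - s.2) / (v.2 - s.2) * (v.1 - s.1) := by
    have := mul_pos t0 (sub_pos.mpr h1)
    linarith
  have hi : s.1 + (t.2 - s.2) / (v.2 - s.2) * (v.1 - s.1) ≤ t.1 := by
    have : (t.2 - s.2) / (v.2 - s.2) * (v.1 - s.1) ≤ t.1 - s.1 := by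
      rw [div_mul_eq_mul_div, div_le_iff₀ hd]
      exact hcon
    linarith
  generalize s.1 + (t.2 - s.2) / (v.2 - s.2) * (v.1 - s.1) = w at hz lo hi
  rcases hi.lt_or_eq with h6 | h6
  · have hc : Cross s v l t := ⟨_, hz, s13_hor h5 rfl (h4.trans lo) h6⟩
    rcases D.cross hsv (D.Lsymm htl) (fun h => by
      have h7 : t ∈ s(s, v) := by rw [h]; exact Sym2.mem_mk_right l t
      rcases Sym2.mem_iff.mp h7 with h8 | h8
      · exact hts h8
      · exact htv h8) hc with ⟨h7, -⟩ | ⟨h7, -⟩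
    · exact absurd h7 (h2.trans h3).ne
    · exact absurd h7 h1.ne
  · rw [h6] at hz
    exact D.nv (Or.inl hsv) (D.LP htl).1 hts htv (openSegment_subset_segment ℝ s v hz)

end Pool.Agent.H54R
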