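import Pool.Agent.Lib.H54R.Graph
import Pool.Agent.Lib.H54R.C1
import Pool.Agent.Lib.H54R.C2
import Pool.Agent.Lib.H54R.C5

/-!
# FL2: edges and complete lines at the upper links
-/

set_option autoImplicit false

namespace Pool.Agent.H54R

namespace RS

variable {S : RS}

theorem fl2_r1 (S : RS) (l : ℕ) : ¬ S.rlane l < 2 * S.K := by
  unfold rlane
  omega

theorem fl2_r2 (S : RS) (l : ℕ) : S.rlane 0 ≤ S.rlane l := by
  unfold rlane
  omega

theorem fl2_r3 (S : RS) (l : ℕ) : S.rlane l - S.rlane 0 = l := by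
  unfold rlane
  omega

theorem fl2_d1 (k : ℕ) : (4 * k + 1) / 4 = k := by omega

theorem fl2_d3 (k : ℕ) : (4 * k + 3) / 4 = k := by omega

theorem fl2_m1 (k : ℕ) : (4 * k + 1) % 4 = 1 := by omega

theorem fl2_m3 (k : ℕ) : (4 * k + 3) % 4 = 3 := by omega

theorem fl2_A (h : S.WF) {l : ℕ} (hl : l < 2 * S.K) :
    S.rB (S.upr (S.upA l)) = [((1, S.upA l), 0), ((4, l), 4)] ∧
    S.rT (S.upr (S.upA l)) = [((4, l), 0)] ∧
    S.rC (S.upr (S.upA l)) = [.L (4 * S.upr (S.upA l) + 2), .blk (1, S.upA l) 2, .blk (4, l) 2] ∧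
    S.rW (S.upr (S.upA l)) = [.blk (1, S.upA l) 1, .blk (4, l) 5] := by
  have hr := role_upr h (upA_lt h hl)
  have hh := hatU_upA h hl
  have hk := lkU_upA S l
  refine ⟨?_, ?_, ?_, ?_⟩
  · unfold rB
    rw [hr]
    simp [hh, hk]
  · unfold rT
    rw [hr]
    simp [hh, hk]
  · unfold rC
    rw [hr]
    simp [hh, hk]
  · unfold rW
    rw [hr]
    simp [hh, hk]

theorem fl2_B (h : S.WF) {l : ℕ} (hl : l < 2 * S.K) :
    S.rB (S.upr (S.upB l)) = [((1, S.upB l), 0), ((5, l), 0)] ∧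
    S.rT (S.upr (S.upB l)) = [((1, S.upB l), 2), ((5, l), 1)] ∧
    S.rW (S.upr (S.upB l)) = [.blk (1, S.upB l) 1, .blk (5, l) 3, .blk (5, l) 2] := by
  have hr := role_upr h (upB_lt h hl)
  have hh := hatU_upB h hl
  have hk := lkU_upB S l
  refine ⟨?_, ?_, ?_⟩
  · unfold rB
    rw [hr]
    simp [hh, hk]
  · unfold rT
    rw [hr]
    simp [hh, hk]
  · unfold rW
    rw [hr]
    simp [hh, hk]

theorem fl2_row {i : ℕ} (hi : i < S.MM) {e : Vx × Vx}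
    (he : e ∈ edg (.L (4 * i + 1) :: bx (S.rB i) ++ [.R (4 * i + 1)]) ∨
      e ∈ edg (.L (4 * i + 3) :: bx (S.rT i) ++ [.R (4 * i + 3)]) ∨ e ∈ edg (S.rC i) ∨
      e ∈ edg (S.rW i)) : S.li e.1 e.2 := by
  refine li_row hi ?_
  unfold liRow
  simp only [List.mem_append] at he ⊢
  tauto

theorem fl2_col {j : ℕ} (hj : j < S.NN) {e : Vx × Vx}
    (he : e ∈ edg (.B (4 * j + 1) :: bx (S.cL j) ++ [.T (4 * j + 1)]) ∨
      e ∈ edg (.B (4 * j + 3) :: bx (S.cR j) ++ [.T (4 * j + 3)]) ∨ e ∈ edg (S.cC j) ∨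
      e ∈ edg (S.cf j)) : S.li e.1 e.2 := by
  refine li_col hj ?_
  unfold liCol
  simp only [List.mem_append] at he ⊢
  tauto

theorem bci_right1 (h : S.WF) {l : ℕ} (hl : l < 2 * S.K) :
    S.bci (4 * S.rlane l + 1) = [((5, l), 4), ((4, l), 1)] := by
  unfold bci cL
  rw [if_pos (fl2_m1 _), fl2_d1, if_neg (fl2_r1 S l), if_pos (fl2_r2 S l), fl2_r3]

theorem bci_right3 (h : S.WF) {l : ℕ} (hl : l < 2 * S.K) :
    S.bci (4 * S.rlane l + 3) = [((5, l), 0)] := by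
  unfold bci cR
  rw [if_neg (by omega), if_pos (fl2_m3 _), fl2_d3, if_neg (fl2_r1 S l), if_pos (fl2_r2 S l),
    fl2_r3]

theorem bri_upA1 (h : S.WF) {l : ℕ} (hl : l < 2 * S.K) :
    S.bri (4 * S.upr (S.upA l) + 1) = [((1, S.upA l), 0), ((4, l), 4)] := by
  unfold bri
  rw [if_pos (fl2_m1 _), fl2_d1]
  exact (fl2_A h hl).1

theorem bri_upA3 (h : S.WF) {l : ℕ} (hl : l < 2 * S.K) :
    S.bri (4 * S.upr (S.upA l) + 3) = [((4, l), 0)] := by
  unfold bri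
  rw [if_neg (by omega), if_pos (fl2_m3 _), fl2_d3]
  exact (fl2_A h hl).2.1

theorem bri_upB1 (h : S.WF) {l : ℕ} (hl : l < 2 * S.K) :
    S.bri (4 * S.upr (S.upB l) + 1) = [((1, S.upB l), 0), ((5, l), 0)] := by
  unfold bri
  rw [if_pos (fl2_m1 _), fl2_d1]
  exact (fl2_B h hl).1

theorem bri_upB3 (h : S.WF) {l : ℕ} (hl : l < 2 * S.K) :
    S.bri (4 * S.upr (S.upB l) + 3) = [((1, S.upB l), 2), ((5, l), 1)] := by
  unfold bri
  rw [if_neg (by omega), if_pos (fl2_m3 _), fl2_d3]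
  exact (fl2_B h hl).2.1

/-- light edges in the row lane of the read `upA l` -/
theorem li_upA (h : S.WF) {l : ℕ} (hl : l < 2 * S.K) :
    S.li (.blk (1, S.upA l) 0) (.blk (4, l) 4) ∧
    S.li (.L (4 * S.upr (S.upA l) + 2)) (.blk (1, S.upA l) 2) ∧
    S.li (.blk (1, S.upA l) 2) (.blk (4, l) 2) ∧
    S.li (.blk (1, S.upA l) 1) (.blk (4, l) 5) ∧
    S.li (.L (4 * S.upr (S.upA l) + 3)) (.blk (4, l) 0) ∧
    S.li (.blk (4, l) 0) (.R (4 * S.upr (S.upA l) + 3)) := by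
  obtain ⟨hB, hT, hC, hW⟩ := fl2_A h hl
  have key := fun e => fl2_row (S := S) (upr_lt h (upA_lt h hl)) (e := e)
  rw [hB, hT, hC, hW] at key
  refine ⟨key (_, _) ?_, key (_, _) ?_, key (_, _) ?_, key (_, _) ?_, key (_, _) ?_,
    key (_, _) ?_⟩ <;> simp [edg, bx]

/-- light edges in the row lane of the read `upB l` -/
theorem li_upB (h : S.WF) {l : ℕ} (hl : l < 2 * S.K) :
    S.li (.blk (5, l) 3) (.blk (5, l) 2) ∧ S.li (.blk (1, S.upB l) 1) (.blk (5, l) 3) := by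
  obtain ⟨hB, hT, hW⟩ := fl2_B h hl
  have key := fun e => fl2_row (S := S) (upr_lt h (upB_lt h hl)) (e := e)
  rw [hB, hT, hW] at key
  refine ⟨key (_, _) ?_, key (_, _) ?_⟩ <;> simp [edg, bx]

/-- light edges in the right link lane `l` -/
theorem li_right (h : S.WF) {l : ℕ} (hl : l < 2 * S.K) :
    S.li (.blk (4, l) 0) (.T (4 * S.rlane l + 2)) ∧ S.li (.blk (5, l) 2) (.blk (4, l) 0) ∧
    S.li (.blk (4, l) 3) (.blk (4, l) 2) ∧ S.li (.blk (5, l) 5) (.blk (4, l) 3) ∧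
    S.li (.blk (5, l) 0) (.T (4 * S.rlane l + 3)) ∧ S.li (.blk (5, l) 4) (.blk (4, l) 1) := by
  have key := fun e => fl2_col (S := S) (rlane_lt h hl) (e := e)
  have hL : S.cL (S.rlane l) = [((5, l), 4), ((4, l), 1)] := by
    unfold cL
    rw [if_neg (fl2_r1 S l), if_pos (fl2_r2 S l), fl2_r3]
  have hR : S.cR (S.rlane l) = [((5, l), 0)] := by
    unfold cR
    rw [if_neg (fl2_r1 S l), if_pos (fl2_r2 S l), fl2_r3]
  have hC : S.cC (S.rlane l) = [.blk (5, l) 2, .blk (4, l) 0, .T (4 * S.rlane l + 2)] := by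
    unfold cC
    rw [if_neg (fl2_r1 S l), if_pos (fl2_r2 S l), fl2_r3]
  have hf : S.cf (S.rlane l) = [.blk (5, l) 5, .blk (4, l) 3, .blk (4, l) 2] := by
    unfold cf
    rw [if_neg (fl2_r1 S l), if_pos (fl2_r2 S l), fl2_r3]
  rw [hL, hR, hC, hf] at key
  refine ⟨key (_, _) ?_, key (_, _) ?_, key (_, _) ?_, key (_, _) ?_, key (_, _) ?_,
    key (_, _) ?_⟩ <;> simp [edg, bx]

end RS

end Pool.Agent.H54R
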