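import Pool.Agent.Lib.H54R.FDefs
import Pool.Agent.Lib.H54R.S9
import Pool.Agent.Lib.H54R.S10
import Pool.Agent.Lib.H54R.S11
import Pool.Agent.Lib.H54R.S12
import Pool.Agent.Lib.H54R.S12R
import Pool.Agent.Lib.H54R.S13
import Pool.Agent.Lib.H54R.FL2
import Pool.Agent.Lib.H54R.FL3

/-!
# F1U: upper links: positions (rotated versions of F1)
-/

set_option autoImplicit false

namespace Pool.Agent.H54R

open RS

/-- the end `R k` of a row edge is to the right of the long wire on the right of its block -/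
theorem f1u_R {N : Net} {D : ND N} (h : Norm D) {b : ℕ × ℕ} {c k : ℕ} (hb : N.inB b c)
    (hk : k ≤ 4 * N.M) (hl : N.li (.blk b c) (.R k)) :
    D.xc (4 * N.col b + 4) < (D.p (.R k)).1 := by
  have c1 := N.col_lt hb
  have hj : N.col b + 1 ≤ N.N := by omega
  have hR : N.isV (.R k) := hk
  have hbV : N.isV (.blk b c) := hb
  have hLt := D.Lt_of hbV hR hl
  have gx := D.not_mem_gam (s8_cpl hj) hbV (s8_blk N _ b c)
  have gy := D.not_mem_gam (s8_cpl hj) hR (s8_R N _ k)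
  have hne : D.side (4 * (N.col b + 1)) (D.p (.blk b c)) ≠
      D.side (4 * (N.col b + 1)) (D.p (.R k)) := by
    rw [h.side_left hj hb (by omega), D.side_R (s8_cpl hj) hk]
    decide
  have c2 := D.side_long hj hLt gx gy hne
  have hB : N.isV (.B (4 * (N.col b + 1))) := show 4 * (N.col b + 1) ≤ 4 * N.N by omega
  have hT : N.isV (.T (4 * (N.col b + 1))) := show 4 * (N.col b + 1) ≤ 4 * N.N by omega
  have c3 := (s8_cross D.toPD hLt (s8_wire D hj) (h.ver hj) c2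
    (fun he => by cases D.pinj hbV hB he) (fun he => by cases D.pinj hbV hT he)).2
  have c4 := (h.cell hb).2.1
  have e : (D.p (.B (4 * (N.col b + 1)))).1 = D.xc (4 * N.col b + 4) := rfl
  rw [e] at c3
  rcases c3 with c3 | c3
  · exact c3.2
  · exact absurd c3.2 (not_lt.2 c4.le)

/-- the end `T k` of a column edge is above the long wire above its block -/
theorem f1u_T {N : Net} {D : ND N} (h : Norm D) {b : ℕ × ℕ} {c k : ℕ} (hb : N.inB b c)
    (hk : k ≤ 4 * N.N) (hl : N.li (.blk b c) (.T k)) :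
    D.yc (4 * N.row b + 4) < (D.p (.T k)).2 :=
  f1u_R (N := N.trN) h.trD hb hk hl

variable {S : RS} {h : S.WF}

theorem f1u_inB {g l c : ℕ} (hg : 2 ≤ g) (hg' : g ≤ 5) (hl : l < 2 * S.K) (hc : c < 6) :
    (S.net h).inB (g, l) c := Or.inr ⟨hg, hg', hl, hc⟩

theorem f1u_inR {g ρ c : ℕ} (hg : g ≤ 1) (hρ : ρ < S.R) (hc : c < 3) :
    (S.net h).inB (g, ρ) c := Or.inl ⟨hg, hρ, hc⟩

theorem f1u_hv {g l : ℕ} (hg : 2 ≤ g) (hg' : g ≤ 5) (hl : l < 2 * S.K) :
    (S.net h).hv (.blk (g, l) 0) (.blk (g, l) 5) ∧ (S.net h).hv (.blk (g, l) 5) (.blk (g, l) 3) ∧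
    (S.net h).hv (.blk (g, l) 5) (.blk (g, l) 2) ∧ (S.net h).hv (.blk (g, l) 2) (.blk (g, l) 1) ∧
    (S.net h).hv (.blk (g, l) 0) (.blk (g, l) 1) ∧ (S.net h).hv (.blk (g, l) 3) (.blk (g, l) 4) :=
  hv_link h hl hg hg'

theorem f1u_cpl1 {l : ℕ} (hl : l < 2 * S.K) : Cpl (S.net h).N (4 * S.rlane l + 1) := by
  have := rlane_lt h hl
  refine ⟨?_, by omega⟩
  change 4 * S.rlane l + 1 ≤ 4 * S.NN
  omega

theorem f1u_cpl3 {l : ℕ} (hl : l < 2 * S.K) : Cpl (S.net h).N (4 * S.rlane l + 3) := by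
  have := rlane_lt h hl
  refine ⟨?_, by omega⟩
  change 4 * S.rlane l + 3 ≤ 4 * S.NN
  omega

theorem f1u_rpl1 {l : ℕ} (hl : l < 2 * S.K) : Cpl (S.net h).M (4 * S.upr (S.upA l) + 1) := by
  have := upr_lt h (upA_lt h hl)
  refine ⟨?_, by omega⟩
  change 4 * S.upr (S.upA l) + 1 ≤ 4 * S.MM
  omega

theorem f1u_rpl3 {l : ℕ} (hl : l < 2 * S.K) : Cpl (S.net h).M (4 * S.upr (S.upA l) + 3) := by
  have := upr_lt h (upA_lt h hl)
  refine ⟨?_, by omega⟩
  change 4 * S.upr (S.upA l) + 3 ≤ 4 * S.MM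
  omega

/-- a vertex on a complete column line -/
theorem f1u_on {D : ND (S.net h)} (hD : Norm D) {k : ℕ} (hk : Cpl (S.net h).N k) {b : ℕ × ℕ}
    {c : ℕ} (hm : (b, c) ∈ S.bci k) : D.X b c = D.xc k := by
  refine hD.line_ver hk (.blk b c) ?_
  unfold Net.cl
  refine List.mem_append_left _ (List.mem_cons_of_mem _ ?_)
  exact List.mem_map.2 ⟨(b, c), hm, rfl⟩

/-- a vertex on a complete row line -/
theorem f1u_ron {D : ND (S.net h)} (hD : Norm D) {k : ℕ} (hk : Cpl (S.net h).M k) {b : ℕ × ℕ}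
    {c : ℕ} (hm : (b, c) ∈ S.bri k) : D.Y b c = D.yc k := by
  refine hD.line_hor hk (.blk b c) ?_
  unfold Net.rl
  refine List.mem_append_left _ (List.mem_cons_of_mem _ ?_)
  exact List.mem_map.2 ⟨(b, c), hm, rfl⟩

theorem f1u_lanes {D : ND (S.net h)} (hD : Norm D) {l : ℕ} (hl : l < 2 * S.K) :
    (∀ c ∈ [0, 1, 2, 3, 5], D.xc (4 * S.rlane l + 1) < D.X (5, l) c) ∧
      ∀ c ∈ [1, 2, 3, 4, 5], D.X (5, l) c < D.xc (4 * S.rlane l + 3) := by
  have k1 := f1u_cpl1 (h := h) hl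
  have k3 := f1u_cpl3 (h := h) hl
  have b1 := bci_right1 h hl
  have b3 := bci_right3 h hl
  have hlt : D.xc (4 * S.rlane l + 1) < D.xc (4 * S.rlane l + 3) := hD.xc_lt k1 k3 (by omega)
  have e0 : D.X (5, l) 0 = D.xc (4 * S.rlane l + 3) := f1u_on hD k3 (by rw [b3]; simp)
  have e4 : D.X (5, l) 4 = D.xc (4 * S.rlane l + 1) := f1u_on hD k1 (by rw [b1]; simp)
  obtain ⟨v05, v53, v52, v21, -, v34⟩ := f1u_hv (h := h) (g := 5) (by norm_num) le_rfl hl
  have hin : ∀ c, c < 6 → (S.net h).inB (5, l) c := fun c hc =>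
    f1u_inB (by norm_num) le_rfl hl hc
  have n1 : ∀ c, c ≠ 4 → ((5, l), c) ∉ (S.net h).ci (4 * S.rlane l + 1) := by
    intro c hc
    change ((5, l), c) ∉ S.bci (4 * S.rlane l + 1)
    rw [b1]
    simp [hc]
  have n3 : ∀ c, c ≠ 0 → ((5, l), c) ∉ (S.net h).ci (4 * S.rlane l + 3) := by
    intro c hc
    change ((5, l), c) ∉ S.bci (4 * S.rlane l + 3)
    rw [b3]
    simp [hc]
  have a0 : D.xc (4 * S.rlane l + 1) < D.X (5, l) 0 := by rw [e0]; exact hlt
  have a5 : D.xc (4 * S.rlane l + 1) < D.X (5, l) 5 :=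
    (hD.blk_gt k1 (hin 0 (by norm_num)) (hin 5 (by norm_num)) v05 (n1 0 (by norm_num))
      (n1 5 (by norm_num)) a0).2
  have a3 : D.xc (4 * S.rlane l + 1) < D.X (5, l) 3 :=
    (hD.blk_gt k1 (hin 5 (by norm_num)) (hin 3 (by norm_num)) v53 (n1 5 (by norm_num))
      (n1 3 (by norm_num)) a5).2
  have a2 : D.xc (4 * S.rlane l + 1) < D.X (5, l) 2 :=
    (hD.blk_gt k1 (hin 5 (by norm_num)) (hin 2 (by norm_num)) v52 (n1 5 (by norm_num))
      (n1 2 (by norm_num)) a5).2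
  have a1 : D.xc (4 * S.rlane l + 1) < D.X (5, l) 1 :=
    (hD.blk_gt k1 (hin 2 (by norm_num)) (hin 1 (by norm_num)) v21 (n1 2 (by norm_num))
      (n1 1 (by norm_num)) a2).2
  have c4 : D.X (5, l) 4 < D.xc (4 * S.rlane l + 3) := by rw [e4]; exact hlt
  have c3 : D.X (5, l) 3 < D.xc (4 * S.rlane l + 3) :=
    (hD.blk_lt k3 (hin 4 (by norm_num)) (hin 3 (by norm_num)) ((S.net h).hv_symm v34)
      (n3 4 (by norm_num)) (n3 3 (by norm_num)) c4).2
  have c5 : D.X (5, l) 5 < D.xc (4 * S.rlane l + 3) :=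
    (hD.blk_lt k3 (hin 3 (by norm_num)) (hin 5 (by norm_num)) ((S.net h).hv_symm v53)
      (n3 3 (by norm_num)) (n3 5 (by norm_num)) c3).2
  have c2 : D.X (5, l) 2 < D.xc (4 * S.rlane l + 3) :=
    (hD.blk_lt k3 (hin 5 (by norm_num)) (hin 2 (by norm_num)) v52
      (n3 5 (by norm_num)) (n3 2 (by norm_num)) c5).2
  have c1 : D.X (5, l) 1 < D.xc (4 * S.rlane l + 3) :=
    (hD.blk_lt k3 (hin 2 (by norm_num)) (hin 1 (by norm_num)) v21
      (n3 2 (by norm_num)) (n3 1 (by norm_num)) c2).2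
  constructor
  · intro c hc
    simp only [List.mem_cons, List.not_mem_nil, or_false] at hc
    rcases hc with rfl | rfl | rfl | rfl | rfl <;> assumption
  · intro c hc
    simp only [List.mem_cons, List.not_mem_nil, or_false] at hc
    rcases hc with rfl | rfl | rfl | rfl | rfl <;> assumption

theorem f1u_cols {D : ND (S.net h)} (hD : Norm D) {l : ℕ} (hl : l < 2 * S.K) :
    D.X (4, l) 0 = D.X (5, l) 2 ∧ D.X (4, l) 3 = D.X (5, l) 5 ∧
      D.X (4, l) 1 = D.xc (4 * S.rlane l + 1) ∧ D.X (5, l) 4 = D.xc (4 * S.rlane l + 1) ∧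
      D.X (5, l) 0 = D.xc (4 * S.rlane l + 3) ∧
      (D.p (.T (4 * S.rlane l + 2))).1 = D.X (4, l) 0 := by
  have k1 := f1u_cpl1 (h := h) hl
  have k3 := f1u_cpl3 (h := h) hl
  have b1 := bci_right1 h hl
  have b3 := bci_right3 h hl
  obtain ⟨l1, l2, -, l4, -, -⟩ := li_right h hl
  have hin5 : ∀ c, c < 6 → (S.net h).inB (5, l) c := fun c hc =>
    f1u_inB (by norm_num) le_rfl hl hc
  have hin4 : ∀ c, c < 6 → (S.net h).inB (4, l) c := fun c hc =>
    f1u_inB (by norm_num) (by norm_num) hl hc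
  have hrow : (S.net h).row (5, l) ≠ (S.net h).row (4, l) := by
    have := upB_lt_upA h hl
    change S.brow (5, l) ≠ S.brow (4, l)
    simp only [brow]
    norm_num
    omega
  have hkT : 4 * S.rlane l + 2 ≤ 4 * (S.net h).N := by
    have := rlane_lt h hl
    change 4 * S.rlane l + 2 ≤ 4 * S.NN
    omega
  refine ⟨?_, ?_, f1u_on hD k1 (by rw [b1]; simp), f1u_on hD k1 (by rw [b1]; simp),
    f1u_on hD k3 (by rw [b3]; simp), ?_⟩
  · exact (hD.ver_bb (hin5 2 (by norm_num)) (hin4 0 (by norm_num)) hrow l2).symm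
  · exact (hD.ver_bb (hin5 5 (by norm_num)) (hin4 3 (by norm_num)) hrow l4).symm
  · exact (hD.ver_bT (hin4 0 (by norm_num)) hkT l1).symm

theorem f1u_rows {D : ND (S.net h)} (hD : Norm D) {l : ℕ} (hl : l < 2 * S.K) :
    D.Y (4, l) 2 = D.Y (1, S.upA l) 2 ∧ D.Y (4, l) 5 = D.Y (1, S.upA l) 1 ∧
      D.Y (4, l) 4 = D.Y (1, S.upA l) 0 ∧ D.Y (4, l) 4 = D.yc (4 * S.upr (S.upA l) + 1) ∧
      D.Y (4, l) 0 = D.yc (4 * S.upr (S.upA l) + 3) ∧
      (D.p (.L (4 * S.upr (S.upA l) + 2))).2 = D.Y (1, S.upA l) 2 := by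
  have k1 := f1u_rpl1 (h := h) hl
  have k3 := f1u_rpl3 (h := h) hl
  have b1 := bri_upA1 h hl
  have b3 := bri_upA3 h hl
  obtain ⟨l1, l2, l3, l4, -, -⟩ := li_upA h hl
  have hA := upA_lt h hl
  have hin4 : ∀ c, c < 6 → (S.net h).inB (4, l) c := fun c hc =>
    f1u_inB (by norm_num) (by norm_num) hl hc
  have hin1 : ∀ c, c < 3 → (S.net h).inB (1, S.upA l) c := fun c hc =>
    f1u_inR le_rfl hA hc
  have hcol : (S.net h).col (1, S.upA l) ≠ (S.net h).col (4, l) := by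
    have h1 := lane_lt h hA
    change S.bcol (1, S.upA l) ≠ S.bcol (4, l)
    simp only [bcol]
    norm_num
    unfold rlane at h1 ⊢
    omega
  have hkL : 4 * S.upr (S.upA l) + 2 ≤ 4 * (S.net h).M := by
    have := upr_lt h hA
    change 4 * S.upr (S.upA l) + 2 ≤ 4 * S.MM
    omega
  refine ⟨?_, ?_, ?_, f1u_ron hD k1 (by rw [b1]; simp), f1u_ron hD k3 (by rw [b3]; simp), ?_⟩
  · exact (hD.hor_bb (hin1 2 (by norm_num)) (hin4 2 (by norm_num)) hcol l3).symm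
  · exact (hD.hor_bb (hin1 1 (by norm_num)) (hin4 5 (by norm_num)) hcol l4).symm
  · exact (hD.hor_bb (hin1 0 (by norm_num)) (hin4 4 (by norm_num)) hcol l1).symm
  · exact (hD.hor_bL (hin1 2 (by norm_num)) hkL ((S.net h).li_symm l2)).symm

theorem f1u_AB_rows {D : ND (S.net h)} (hD : Norm D) {l : ℕ} (hl : l < 2 * S.K) :
    (∀ c ∈ [1, 2, 3, 4, 5], D.Y (4, l) c < D.yc (4 * S.upr (S.upA l) + 3)) ∧
      ∀ c ∈ [0, 1, 2, 3, 5], D.yc (4 * S.upr (S.upA l) + 1) < D.Y (4, l) c := by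
  have k1 := f1u_rpl1 (h := h) hl
  have k3 := f1u_rpl3 (h := h) hl
  have b1 := bri_upA1 h hl
  have b3 := bri_upA3 h hl
  have hlt : D.yc (4 * S.upr (S.upA l) + 1) < D.yc (4 * S.upr (S.upA l) + 3) :=
    hD.yc_lt k1 k3 (by omega)
  have e0 : D.Y (4, l) 0 = D.yc (4 * S.upr (S.upA l) + 3) := f1u_ron hD k3 (by rw [b3]; simp)
  have e4 : D.Y (4, l) 4 = D.yc (4 * S.upr (S.upA l) + 1) := f1u_ron hD k1 (by rw [b1]; simp)
  obtain ⟨v05, v53, v52, v21, -, v34⟩ := f1u_hv (h := h) (g := 4) (by norm_num) (by norm_num) hl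
  have hin : ∀ c, c < 6 → (S.net h).inB (4, l) c := fun c hc =>
    f1u_inB (by norm_num) (by norm_num) hl hc
  have n1 : ∀ c, c ≠ 4 → ((4, l), c) ∉ (S.net h).ri (4 * S.upr (S.upA l) + 1) := by
    intro c hc
    change ((4, l), c) ∉ S.bri (4 * S.upr (S.upA l) + 1)
    rw [b1]
    simp [hc]
  have n3 : ∀ c, c ≠ 0 → ((4, l), c) ∉ (S.net h).ri (4 * S.upr (S.upA l) + 3) := by
    intro c hc
    change ((4, l), c) ∉ S.bri (4 * S.upr (S.upA l) + 3)
    rw [b3]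
    simp [hc]
  have a0 : D.yc (4 * S.upr (S.upA l) + 1) < D.Y (4, l) 0 := by rw [e0]; exact hlt
  have a5 : D.yc (4 * S.upr (S.upA l) + 1) < D.Y (4, l) 5 :=
    (hD.rblk_gt k1 (hin 0 (by norm_num)) (hin 5 (by norm_num)) v05 (n1 0 (by norm_num))
      (n1 5 (by norm_num)) a0).2
  have a3 : D.yc (4 * S.upr (S.upA l) + 1) < D.Y (4, l) 3 :=
    (hD.rblk_gt k1 (hin 5 (by norm_num)) (hin 3 (by norm_num)) v53 (n1 5 (by norm_num))
      (n1 3 (by norm_num)) a5).2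
  have a2 : D.yc (4 * S.upr (S.upA l) + 1) < D.Y (4, l) 2 :=
    (hD.rblk_gt k1 (hin 5 (by norm_num)) (hin 2 (by norm_num)) v52 (n1 5 (by norm_num))
      (n1 2 (by norm_num)) a5).2
  have a1 : D.yc (4 * S.upr (S.upA l) + 1) < D.Y (4, l) 1 :=
    (hD.rblk_gt k1 (hin 2 (by norm_num)) (hin 1 (by norm_num)) v21 (n1 2 (by norm_num))
      (n1 1 (by norm_num)) a2).2
  have c4 : D.Y (4, l) 4 < D.yc (4 * S.upr (S.upA l) + 3) := by rw [e4]; exact hlt
  have c3 : D.Y (4, l) 3 < D.yc (4 * S.upr (S.upA l) + 3) :=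
    (hD.rblk_lt k3 (hin 4 (by norm_num)) (hin 3 (by norm_num)) ((S.net h).hv_symm v34)
      (n3 4 (by norm_num)) (n3 3 (by norm_num)) c4).2
  have c5 : D.Y (4, l) 5 < D.yc (4 * S.upr (S.upA l) + 3) :=
    (hD.rblk_lt k3 (hin 3 (by norm_num)) (hin 5 (by norm_num)) ((S.net h).hv_symm v53)
      (n3 3 (by norm_num)) (n3 5 (by norm_num)) c3).2
  have c2 : D.Y (4, l) 2 < D.yc (4 * S.upr (S.upA l) + 3) :=
    (hD.rblk_lt k3 (hin 5 (by norm_num)) (hin 2 (by norm_num)) v52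
      (n3 5 (by norm_num)) (n3 2 (by norm_num)) c5).2
  have c1 : D.Y (4, l) 1 < D.yc (4 * S.upr (S.upA l) + 3) :=
    (hD.rblk_lt k3 (hin 2 (by norm_num)) (hin 1 (by norm_num)) v21
      (n3 2 (by norm_num)) (n3 1 (by norm_num)) c2).2
  constructor
  · intro c hc
    simp only [List.mem_cons, List.not_mem_nil, or_false] at hc
    rcases hc with rfl | rfl | rfl | rfl | rfl <;> assumption
  · intro c hc
    simp only [List.mem_cons, List.not_mem_nil, or_false] at hc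
    rcases hc with rfl | rfl | rfl | rfl | rfl <;> assumption

/-- one heavy edge of the block `(4, l)` does not pass the line `C` of the link lane -/
theorem f1u_step {D : ND (S.net h)} (hD : Norm D) {l : ℕ} (hl : l < 2 * S.K) {c c' : ℕ}
    (hc : c < 6) (hc' : c' < 6) (hc0 : c ≠ 0) (hc0' : c' ≠ 0)
    (hv : (S.net h).hv (.blk (4, l) c) (.blk (4, l) c')) (hlt : D.X (4, l) c < D.X (4, l) 0) :
    D.X (4, l) c' < D.X (4, l) 0 := by
  obtain ⟨l1, l2, -, -, -, -⟩ := li_right h hl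
  obtain ⟨e1, -, -, -, -, e6⟩ := f1u_cols hD hl
  have hin5 : (S.net h).inB (5, l) 2 := f1u_inB (by norm_num) le_rfl hl (by norm_num)
  have hin4 : ∀ c, c < 6 → (S.net h).inB (4, l) c := fun c hc =>
    f1u_inB (by norm_num) (by norm_num) hl hc
  have hkT : 4 * S.rlane l + 2 ≤ 4 * (S.net h).N := by
    have := rlane_lt h hl
    change 4 * S.rlane l + 2 ≤ 4 * S.NN
    omega
  have v5 : (S.net h).isV (.blk (5, l) 2) := hin5
  have v0 : (S.net h).isV (.blk (4, l) 0) := hin4 0 (by norm_num)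
  have vT : (S.net h).isV (.T (4 * S.rlane l + 2)) := hkT
  have vc : (S.net h).isV (.blk (4, l) c) := hin4 c hc
  have vc' : (S.net h).isV (.blk (4, l) c') := hin4 c' hc'
  have L1 : D.Lt (D.p (.blk (5, l) 2)) (D.p (.blk (4, l) 0)) := D.Lt_of v5 v0 l2
  have L2 : D.Lt (D.p (.blk (4, l) 0)) (D.p (.T (4 * S.rlane l + 2))) := D.Lt_of v0 vT l1
  have r4 : (S.net h).row (4, l) = S.upr (S.upA l) := by
    change S.brow (4, l) = _
    simp [brow]
  have r5 : (S.net h).row (5, l) = S.upr (S.upB l) := by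
    change S.brow (5, l) = _
    simp [brow]
  have hrr := upB_lt_upA h hl
  have hM : S.upr (S.upA l) < (S.net h).M := upr_lt h (upA_lt h hl)
  have lo : (D.p (.blk (5, l) 2)).2 < D.yc (4 * S.upr (S.upA l)) := by
    have g1 := (hD.cell hin5).2.2.2
    rw [r5] at g1
    rcases Nat.lt_or_ge (S.upr (S.upB l) + 1) (S.upr (S.upA l)) with g2 | g2
    · refine g1.trans (hD.yc_lt (k := 4 * S.upr (S.upB l) + 4) (l := 4 * S.upr (S.upA l))
        ⟨by omega, by omega⟩ ⟨by omega, by omega⟩ (by omega))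
    · have g3 : 4 * S.upr (S.upB l) + 4 = 4 * S.upr (S.upA l) := by omega
      rw [g3] at g1
      exact g1
  have hi : D.yc (4 * S.upr (S.upA l) + 4) < (D.p (.T (4 * S.rlane l + 2))).2 := by
    have g1 := f1u_T hD (hin4 0 (by norm_num)) hkT l1
    rw [r4] at g1
    exact g1
  have Cc := hD.cell (hin4 c hc)
  have Cc' := hD.cell (hin4 c' hc')
  have Cm := hD.cell_m (hin4 c hc) (hin4 c' hc') hv
  rw [r4] at Cc Cc' Cm
  have U1 := D.U1 vc vc' hv
  have U2 := D.U2 vc vc' hv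
  have ne : ∀ {a b : Vx}, (S.net h).isV a → (S.net h).isV b → a ≠ b → D.p a ≠ D.p b :=
    fun ha hb hab e => hab (D.pinj ha hb e)
  have nm : ∀ {v : Vx}, (S.net h).isV v → D.m (.blk (4, l) c) (.blk (4, l) c') ≠ D.p v :=
    fun hv' => D.mp vc vc' hv hv'
  have s1 := D.two_ver_lt L1 L2 e1.symm e6 U1 (ne vc v5 (by simp)) (ne vc v0 (by simp [hc0]))
    (ne vc vT (by simp)) (nm v5) (nm v0) (nm vT) (lo.trans Cc.2.2.1) (Cc.2.2.2.trans hi)
    (lo.trans Cm.2.2.1) (Cm.2.2.2.trans hi) hlt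
  exact D.two_ver_lt L1 L2 e1.symm e6 U2 (nm v5) (nm v0) (nm vT) (ne vc' v5 (by simp))
    (ne vc' v0 (by simp [hc0'])) (ne vc' vT (by simp)) (lo.trans Cm.2.2.1)
    (Cm.2.2.2.trans hi) (lo.trans Cc'.2.2.1) (Cc'.2.2.2.trans hi) s1

theorem f1u_AB_cols {D : ND (S.net h)} (hD : Norm D) {l : ℕ} (hl : l < 2 * S.K) :
    (∀ c ∈ [1, 2, 3, 4, 5], D.X (4, l) c < D.X (4, l) 0) ∧
      ∀ c ∈ [0, 2, 3, 4, 5], D.X (4, l) 1 < D.X (4, l) c := by
  have k1 := f1u_cpl1 (h := h) hl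
  have b1 := bci_right1 h hl
  obtain ⟨e1, -, e3, -, -, -⟩ := f1u_cols hD hl
  obtain ⟨v05, v53, v52, v21, -, v34⟩ := f1u_hv (h := h) (g := 4) (by norm_num) (by norm_num) hl
  have hin : ∀ c, c < 6 → (S.net h).inB (4, l) c := fun c hc =>
    f1u_inB (by norm_num) (by norm_num) hl hc
  have n1 : ∀ c, c ≠ 1 → ((4, l), c) ∉ (S.net h).ci (4 * S.rlane l + 1) := by
    intro c hc
    change ((4, l), c) ∉ S.bci (4 * S.rlane l + 1)
    rw [b1]
    simp [hc]
  have a0 : D.xc (4 * S.rlane l + 1) < D.X (4, l) 0 := by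
    rw [e1]
    exact (f1u_lanes hD hl).1 2 (by simp)
  have a5 : D.xc (4 * S.rlane l + 1) < D.X (4, l) 5 :=
    (hD.blk_gt k1 (hin 0 (by norm_num)) (hin 5 (by norm_num)) v05 (n1 0 (by norm_num))
      (n1 5 (by norm_num)) a0).2
  have a3 : D.xc (4 * S.rlane l + 1) < D.X (4, l) 3 :=
    (hD.blk_gt k1 (hin 5 (by norm_num)) (hin 3 (by norm_num)) v53 (n1 5 (by norm_num))
      (n1 3 (by norm_num)) a5).2
  have a2 : D.xc (4 * S.rlane l + 1) < D.X (4, l) 2 :=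
    (hD.blk_gt k1 (hin 5 (by norm_num)) (hin 2 (by norm_num)) v52 (n1 5 (by norm_num))
      (n1 2 (by norm_num)) a5).2
  have a4 : D.xc (4 * S.rlane l + 1) < D.X (4, l) 4 :=
    (hD.blk_gt k1 (hin 3 (by norm_num)) (hin 4 (by norm_num)) v34 (n1 3 (by norm_num))
      (n1 4 (by norm_num)) a3).2
  have c1 : D.X (4, l) 1 < D.X (4, l) 0 := by rw [e3]; exact a0
  have c2 : D.X (4, l) 2 < D.X (4, l) 0 :=
    f1u_step hD hl (c := 1) (by norm_num) (by norm_num) (by norm_num) (by norm_num)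
      ((S.net h).hv_symm v21) c1
  have c5 : D.X (4, l) 5 < D.X (4, l) 0 :=
    f1u_step hD hl (c := 2) (by norm_num) (by norm_num) (by norm_num) (by norm_num)
      ((S.net h).hv_symm v52) c2
  have c3 : D.X (4, l) 3 < D.X (4, l) 0 :=
    f1u_step hD hl (c := 5) (by norm_num) (by norm_num) (by norm_num) (by norm_num) v53 c5
  have c4 : D.X (4, l) 4 < D.X (4, l) 0 :=
    f1u_step hD hl (c := 3) (by norm_num) (by norm_num) (by norm_num) (by norm_num) v34 c3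
  constructor
  · intro c hc
    simp only [List.mem_cons, List.not_mem_nil, or_false] at hc
    rcases hc with rfl | rfl | rfl | rfl | rfl <;> assumption
  · intro c hc
    rw [e3]
    simp only [List.mem_cons, List.not_mem_nil, or_false] at hc
    rcases hc with rfl | rfl | rfl | rfl | rfl <;> assumption

end Pool.Agent.H54R
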