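import Pool.Agent.Lib.H54R.FDefs
import Pool.Agent.Lib.H54R.S9
import Pool.Agent.Lib.H54R.S10
import Pool.Agent.Lib.H54R.S11
import Pool.Agent.Lib.H54R.S12
import Pool.Agent.Lib.H54R.S12R
import Pool.Agent.Lib.H54R.S13
import Pool.Agent.Lib.H54R.FL1
import Pool.Agent.Lib.H54R.FL2
import Pool.Agent.Lib.H54R.FL3
import Pool.Agent.Lib.H54R.F1
import Pool.Agent.Lib.H54R.F1U

/-!
# F2: heights in the read blocks
-/

set_option autoImplicit false

namespace Pool.Agent.H54R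

open RS

variable {S : RS} {h : S.WF}

theorem f2_R {D : ND (S.net h)} (hD : Norm D) {b : ℕ × ℕ} {c k : ℕ} (hb : S.binB b c)
    (hk : k ≤ 4 * S.MM) (hl : S.li (.blk b c) (.R k)) :
    D.xc (4 * S.bcol b + 4) < (D.p (.R k)).1 := by
  have hc : S.bcol b < S.NN := bcol_lt h hb
  have hj : S.bcol b + 1 ≤ (S.net h).N := hc
  have hcell := hD.cell (b := b) (c := c) hb
  have e4 : 4 * S.bcol b + 4 = 4 * (S.bcol b + 1) := by ring
  have h2 : (D.p (.blk b c)).1 < D.xc (4 * (S.bcol b + 1)) := by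
    rw [← e4]
    exact hcell.2.1
  have hvb : (S.net h).isV (.blk b c) := hb
  have hvR : (S.net h).isV (.R k) := hk
  have hLt : D.Lt (D.p (.blk b c)) (D.p (.R k)) := D.Lt_of hvb hvR hl
  have hcr := D.side_long hj hLt (D.not_mem_gam (s8_cpl hj) hvb (s8_blk _ _ b c))
    (D.not_mem_gam (s8_cpl hj) hvR (s8_R _ _ k)) (by
      rw [hD.side_left hj (b := b) (c := c) hb (Nat.lt_succ_self _),
        D.side_R (s8_cpl hj) hvR]
      decide)
  have hw := s11_wire hD hj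
  rw [e4]
  rcases s11_cross_btw hw.1 hw.2 hcr with a | a | a
  · exact a.2
  · linarith [a.2]
  · linarith [a.1]

theorem f2_xle {D : ND (S.net h)} (hD : Norm D) {a b : ℕ} (hab : a ≤ b) (hb : b ≤ S.NN) :
    D.xc (4 * a) ≤ D.xc (4 * b) := by
  rcases hab.eq_or_lt with rfl | hlt
  · exact le_rfl
  · have h1 : Cpl (S.net h).N (4 * a) := s8_cpl (show a ≤ S.NN by omega)
    have h2 : Cpl (S.net h).N (4 * b) := s8_cpl (show b ≤ S.NN from hb)
    exact (hD.xc_lt h1 h2 (by omega)).le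

/-- Lower block of a read in the row lane `i = low ρ`: `v` is on `T_i`; `s` is on `B_i` (not hatted) or
on the companion line `C_i` (hatted; it is above `B_i` and below `T_i` by `f1_AB_rows`, and it is made
of two light segments from `q` of AB over `s` to `R (4 i + 2)`, which cover the cell). The heavy path
`s, t, v` gives the inequalities (`Norm.rblk_lt`, `Norm.rblk_gt`, `PD.two_hor_gt`). -/
theorem f2_low {D : ND (S.net h)} (hD : Norm D) {ρ : ℕ} (hρ : ρ < S.R) :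
    D.yc (4 * S.low ρ + 1) ≤ D.Y (0, ρ) 0 ∧ D.Y (0, ρ) 0 < D.Y (0, ρ) 1 ∧
      D.Y (0, ρ) 1 < D.Y (0, ρ) 2 ∧ D.Y (0, ρ) 2 = D.yc (4 * S.low ρ + 3) ∧
      (ρ = S.loB (lkL ρ) → D.Y (0, ρ) 0 = D.yc (4 * S.low ρ + 1)) := by
  have hi : S.low ρ < S.MM := low_lt h hρ
  have b0 : S.binB (0, ρ) 0 := Or.inl ⟨by simp, hρ, by simp⟩
  have b1 : S.binB (0, ρ) 1 := Or.inl ⟨by simp, hρ, by simp⟩
  have b2 : S.binB (0, ρ) 2 := Or.inl ⟨by simp, hρ, by simp⟩
  have v0 : (S.net h).isV (.blk (0, ρ) 0) := b0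
  have v1 : (S.net h).isV (.blk (0, ρ) 1) := b1
  have v2 : (S.net h).isV (.blk (0, ρ) 2) := b2
  obtain ⟨hv01, hv12⟩ := hv_read h hρ (g := 0) (by simp)
  have C1 : Cpl (S.net h).M (4 * S.low ρ + 1) := ⟨show 4 * S.low ρ + 1 ≤ 4 * S.MM by omega, by omega⟩
  have C3 : Cpl (S.net h).M (4 * S.low ρ + 3) := ⟨show 4 * S.low ρ + 3 ≤ 4 * S.MM by omega, by omega⟩
  have hy13 : D.yc (4 * S.low ρ + 1) < D.yc (4 * S.low ρ + 3) := hD.yc_lt C1 C3 (by omega)
  have hl : lkL ρ < 2 * S.K := lkL_lt h hρ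
  have hY2 : D.Y (0, ρ) 2 = D.yc (4 * S.low ρ + 3) := by
    refine hD.line_hor C3 (.blk (0, ρ) 2) ?_
    rcases eq_loA_or S ρ with e | e
    · have hb : (S.net h).ri (4 * S.low ρ + 3) = [((2, lkL ρ), 4), ((0, ρ), 2)] := by
        have := bri_loA3 h hl
        rw [← e] at this
        exact this
      unfold Net.rl
      rw [hb]
      simp
    · have hb : (S.net h).ri (4 * S.low ρ + 3) = [((3, lkL ρ), 0), ((0, ρ), 2)] := by
        have := bri_loB3 h hl
        rw [← e] at this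
        exact this
      unfold Net.rl
      rw [hb]
      simp
  rcases eq_loA_or S ρ with e | e
  · have hb1 : (S.net h).ri (4 * S.low ρ + 1) = [((2, lkL ρ), 0)] := by
      have := bri_loA1 h hl
      rw [← e] at this
      exact this
    have hb3 : (S.net h).ri (4 * S.low ρ + 3) = [((2, lkL ρ), 4), ((0, ρ), 2)] := by
      have := bri_loA3 h hl
      rw [← e] at this
      exact this
    have hrows := f1_rows hD hl
    have hAB := f1_AB_rows hD hl
    have hli := li_loA h hl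
    rw [← e] at hrows hAB hli
    have e1 : D.Y (2, lkL ρ) 2 = D.Y (0, ρ) 0 := hrows.1
    have e2 : (D.p (.R (4 * S.low ρ + 2))).2 = D.Y (0, ρ) 0 := hrows.2.2.2.2.2
    have l1 : D.yc (4 * S.low ρ + 1) < D.Y (0, ρ) 0 := by
      rw [← e1]
      exact hAB.1 2 (by simp)
    have l2 : D.Y (0, ρ) 0 < D.yc (4 * S.low ρ + 3) := by
      rw [← e1]
      exact hAB.2 2 (by simp)
    have hY1 : D.Y (0, ρ) 1 < D.yc (4 * S.low ρ + 3) := by
      refine (hD.rblk_lt (k := 4 * S.low ρ + 3) C3 (b := (0, ρ)) (c := 0) (c' := 1) b0 b1 hv01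
        ?_ ?_ l2).2
      · rw [hb3]
        simp
      · rw [hb3]
        simp
    have bq : S.binB (2, lkL ρ) 2 := Or.inr ⟨by simp, by simp, hl, by simp⟩
    have vq : (S.net h).isV (.blk (2, lkL ρ) 2) := bq
    have vR : (S.net h).isV (.R (4 * S.low ρ + 2)) :=
      show 4 * S.low ρ + 2 ≤ 4 * S.MM by omega
    have hLt1 : D.Lt (D.p (.blk (2, lkL ρ) 2)) (D.p (.blk (0, ρ) 0)) := D.Lt_of vq v0 hli.2.2.1
    have hLt2 : D.Lt (D.p (.blk (0, ρ) 0)) (D.p (.R (4 * S.low ρ + 2))) :=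
      D.Lt_of v0 vR hli.2.2.2.1
    have hU1 : D.U (D.p (.blk (0, ρ) 2)) (D.m (.blk (0, ρ) 1) (.blk (0, ρ) 2)) :=
      D.Usymm (D.U2 v1 v2 hv12)
    have hU2 : D.U (D.m (.blk (0, ρ) 1) (.blk (0, ρ) 2)) (D.p (.blk (0, ρ) 1)) :=
      D.Usymm (D.U1 v1 v2 hv12)
    have cq := hD.cell (b := (2, lkL ρ)) (c := 2) bq
    have c1 := hD.cell (b := (0, ρ)) (c := 1) b1
    have c2 := hD.cell (b := (0, ρ)) (c := 2) b2
    have cm := hD.cell_m (b := (0, ρ)) (c := 1) (c' := 2) b1 b2 hv12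
    have hcolq : (S.net h).col (2, lkL ρ) = lkL ρ := by
      show S.bcol (2, lkL ρ) = lkL ρ
      simp [bcol]
    have hcol0 : (S.net h).col (0, ρ) = S.lane ρ := by
      show S.bcol (0, ρ) = S.lane ρ
      simp [bcol]
    have hlane : 2 * S.K ≤ S.lane ρ := lane_ge h hρ
    have hlane2 : S.lane ρ < S.NN := by
      have := bcol_lt h b0
      simpa [bcol] using this
    have hx : D.xc (4 * lkL ρ + 4) ≤ D.xc (4 * S.lane ρ) := by
      have e4 : 4 * lkL ρ + 4 = 4 * (lkL ρ + 1) := by ring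
      rw [e4]
      exact f2_xle hD (by omega) hlane2.le
    have hR : D.xc (4 * S.lane ρ + 4) < (D.p (.R (4 * S.low ρ + 2))).1 := by
      have := f2_R hD b0 (k := 4 * S.low ρ + 2) (by omega) hli.2.2.2.1
      simpa [bcol] using this
    have xq : (D.p (.blk (2, lkL ρ) 2)).1 < D.xc (4 * lkL ρ + 4) := by
      have := cq.2.1
      rw [hcolq] at this
      exact this
    have bd : ∀ {z : Pt}, D.Cell ((S.net h).row (0, ρ)) ((S.net h).col (0, ρ)) z →
        (D.p (.blk (2, lkL ρ) 2)).1 < z.1 ∧ z.1 < (D.p (.R (4 * S.low ρ + 2))).1 := by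
      intro z hz
      have z1 := hz.1
      have z2 := hz.2.1
      rw [hcol0] at z1 z2
      constructor <;> linarith
    have nepp : ∀ {v w : Vx}, (S.net h).isV v → (S.net h).isV w → v ≠ w → D.p v ≠ D.p w :=
      fun hv hw hne he => hne (D.pinj hv hw he)
    have step1 : (D.p (.blk (0, ρ) 0)).2 < (D.m (.blk (0, ρ) 1) (.blk (0, ρ) 2)).2 := by
      refine D.toPD.two_hor_gt hLt1 hLt2 e1 e2 hU1 (nepp v2 vq (by simp)) (nepp v2 v0 (by simp))
        (nepp v2 vR (by simp)) (D.mp v1 v2 hv12 vq) (D.mp v1 v2 hv12 v0) (D.mp v1 v2 hv12 vR)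
        (bd c2).1 (bd c2).2 (bd cm).1 (bd cm).2 ?_
      have h5 : (D.p (.blk (0, ρ) 2)).2 = D.yc (4 * S.low ρ + 3) := hY2
      rw [h5]
      exact l2
    have step2 : (D.p (.blk (0, ρ) 0)).2 < (D.p (.blk (0, ρ) 1)).2 := by
      exact D.toPD.two_hor_gt hLt1 hLt2 e1 e2 hU2 (D.mp v1 v2 hv12 vq) (D.mp v1 v2 hv12 v0)
        (D.mp v1 v2 hv12 vR) (nepp v1 vq (by simp)) (nepp v1 v0 (by simp))
        (nepp v1 vR (by simp)) (bd cm).1 (bd cm).2 (bd c1).1 (bd c1).2 step1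
    refine ⟨l1.le, step2, ?_, hY2, fun e' => ?_⟩
    · rw [hY2]
      exact hY1
    · exfalso
      have := loA_lt_loB h hl
      rw [← e, ← e'] at this
      exact lt_irrefl _ this
  · have hb1 : (S.net h).ri (4 * S.low ρ + 1) = [((3, lkL ρ), 1), ((0, ρ), 0)] := by
      have := bri_loB1 h hl
      rw [← e] at this
      exact this
    have hb3 : (S.net h).ri (4 * S.low ρ + 3) = [((3, lkL ρ), 0), ((0, ρ), 2)] := by
      have := bri_loB3 h hl
      rw [← e] at this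
      exact this
    have hY0 : D.Y (0, ρ) 0 = D.yc (4 * S.low ρ + 1) := by
      refine hD.line_hor C1 (.blk (0, ρ) 0) ?_
      unfold Net.rl
      rw [hb1]
      simp
    have hY1a : D.yc (4 * S.low ρ + 1) < D.Y (0, ρ) 1 := by
      refine (hD.rblk_gt (k := 4 * S.low ρ + 1) C1 (b := (0, ρ)) (c := 2) (c' := 1) b2 b1
        (hv_symm hv12) ?_ ?_ ?_).2
      · rw [hb1]
        simp
      · rw [hb1]
        simp
      · have h5 : (D.p (.blk (0, ρ) 2)).2 = D.yc (4 * S.low ρ + 3) := hY2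
        rw [h5]
        exact hy13
    have hY1b : D.Y (0, ρ) 1 < D.yc (4 * S.low ρ + 3) := by
      refine (hD.rblk_lt (k := 4 * S.low ρ + 3) C3 (b := (0, ρ)) (c := 0) (c' := 1) b0 b1
        hv01 ?_ ?_ ?_).2
      · rw [hb3]
        simp
      · rw [hb3]
        simp
      · have h5 : (D.p (.blk (0, ρ) 0)).2 = D.yc (4 * S.low ρ + 1) := hY0
        rw [h5]
        exact hy13
    refine ⟨hY0.ge, ?_, ?_, hY2, fun _ => hY0⟩
    · rw [hY0]
      exact hY1a
    · rw [hY2]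
      exact hY1b

end Pool.Agent.H54R
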