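import Pool.Agent.Lib.H54R.FDefs
import Pool.Agent.Lib.H54R.S9
import Pool.Agent.Lib.H54R.S10
import Pool.Agent.Lib.H54R.S11
import Pool.Agent.Lib.H54R.S12
import Pool.Agent.Lib.H54R.S12R
import Pool.Agent.Lib.H54R.S13
import Pool.Agent.Lib.H54R.FL1
import Pool.Agent.Lib.H54R.FL2
import Pool.Agent.Lib.H54R.FL3
import Pool.Agent.Lib.H54R.F1
import Pool.Agent.Lib.H54R.F1U

/-!
# F2U: heights in the upper read blocks
-/

set_option autoImplicit false

namespace Pool.Agent.H54R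

open RS

variable {S : RS} {h : S.WF}

theorem f2u_L {D : ND (S.net h)} (hD : Norm D) {b : ℕ × ℕ} {c k : ℕ} (hb : S.binB b c)
    (hk : k ≤ 4 * S.MM) (hl : S.li (.blk b c) (.L k)) :
    (D.p (.L k)).1 < D.xc (4 * S.bcol b) := by
  have hc : S.bcol b < S.NN := bcol_lt h hb
  have hj : S.bcol b ≤ (S.net h).N := hc.le
  have hcell := hD.cell (b := b) (c := c) hb
  have h2 : D.xc (4 * S.bcol b) < (D.p (.blk b c)).1 := hcell.1
  have hvb : (S.net h).isV (.blk b c) := hb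
  have hvR : (S.net h).isV (.L k) := hk
  have hLt : D.Lt (D.p (.blk b c)) (D.p (.L k)) := D.Lt_of hvb hvR hl
  have hcr := D.side_long hj hLt (D.not_mem_gam (s8_cpl hj) hvb (s8_blk _ _ b c))
    (D.not_mem_gam (s8_cpl hj) hvR (s8_L _ _ k)) (by
      rw [hD.side_right (j := S.bcol b) (b := b) (c := c) hb le_rfl,
        D.side_L (s8_cpl hj) hvR]
      decide)
  have hw := s11_wire hD hj
  rcases s11_cross_btw hw.1 hw.2 hcr with a | a | a
  · linarith [a.1]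
  · exact a.1
  · linarith [a.1]

theorem f2u_xle {D : ND (S.net h)} (hD : Norm D) {a b : ℕ} (hab : a ≤ b) (hb : b ≤ S.NN) :
    D.xc (4 * a) ≤ D.xc (4 * b) := by
  rcases hab.eq_or_lt with rfl | hlt
  · exact le_rfl
  · have h1 : Cpl (S.net h).N (4 * a) := s8_cpl (show a ≤ S.NN by omega)
    have h2 : Cpl (S.net h).N (4 * b) := s8_cpl (show b ≤ S.NN from hb)
    exact (hD.xc_lt h1 h2 (by omega)).le

/-- the version of `f2_low` for the upper blocks (rotated) -/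
theorem f2_up {D : ND (S.net h)} (hD : Norm D) {ρ : ℕ} (hρ : ρ < S.R) :
    D.Y (1, ρ) 0 = D.yc (4 * S.upr ρ + 1) ∧ D.Y (1, ρ) 0 < D.Y (1, ρ) 1 ∧
      D.Y (1, ρ) 1 < D.Y (1, ρ) 2 ∧ D.Y (1, ρ) 2 ≤ D.yc (4 * S.upr ρ + 3) ∧
      (ρ = S.upB (lkU ρ) → D.Y (1, ρ) 2 = D.yc (4 * S.upr ρ + 3)) := by
  have hi : S.upr ρ < S.MM := upr_lt h hρ
  have b0 : S.binB (1, ρ) 0 := Or.inl ⟨by simp, hρ, by simp⟩
  have b1 : S.binB (1, ρ) 1 := Or.inl ⟨by simp, hρ, by simp⟩
  have b2 : S.binB (1, ρ) 2 := Or.inl ⟨by simp, hρ, by simp⟩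
  have v0 : (S.net h).isV (.blk (1, ρ) 0) := b0
  have v1 : (S.net h).isV (.blk (1, ρ) 1) := b1
  have v2 : (S.net h).isV (.blk (1, ρ) 2) := b2
  obtain ⟨hv01, hv12⟩ := hv_read h hρ (g := 1) (by simp)
  have C1 : Cpl (S.net h).M (4 * S.upr ρ + 1) := ⟨show 4 * S.upr ρ + 1 ≤ 4 * S.MM by omega, by omega⟩
  have C3 : Cpl (S.net h).M (4 * S.upr ρ + 3) := ⟨show 4 * S.upr ρ + 3 ≤ 4 * S.MM by omega, by omega⟩
  have hy13 : D.yc (4 * S.upr ρ + 1) < D.yc (4 * S.upr ρ + 3) := hD.yc_lt C1 C3 (by omega)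
  have hl : lkU ρ < 2 * S.K := lkU_lt h hρ
  have hY0 : D.Y (1, ρ) 0 = D.yc (4 * S.upr ρ + 1) := by
    refine hD.line_hor C1 (.blk (1, ρ) 0) ?_
    rcases eq_upA_or S ρ with e | e
    · have hb : (S.net h).ri (4 * S.upr ρ + 1) = [((1, ρ), 0), ((4, lkU ρ), 4)] := by
        have := bri_upA1 h hl
        rw [← e] at this
        exact this
      unfold Net.rl
      rw [hb]
      simp
    · have hb : (S.net h).ri (4 * S.upr ρ + 1) = [((1, ρ), 0), ((5, lkU ρ), 0)] := by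
        have := bri_upB1 h hl
        rw [← e] at this
        exact this
      unfold Net.rl
      rw [hb]
      simp
  rcases eq_upA_or S ρ with e | e
  · have hb1 : (S.net h).ri (4 * S.upr ρ + 1) = [((1, ρ), 0), ((4, lkU ρ), 4)] := by
      have := bri_upA1 h hl
      rw [← e] at this
      exact this
    have hb3 : (S.net h).ri (4 * S.upr ρ + 3) = [((4, lkU ρ), 0)] := by
      have := bri_upA3 h hl
      rw [← e] at this
      exact this
    have hrows := f1u_rows hD hl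
    have hAB := f1u_AB_rows hD hl
    have hli := li_upA h hl
    rw [← e] at hrows hAB hli
    have e1 : D.Y (4, lkU ρ) 2 = D.Y (1, ρ) 2 := hrows.1
    have e2 : (D.p (.L (4 * S.upr ρ + 2))).2 = D.Y (1, ρ) 2 := hrows.2.2.2.2.2
    have l1 : D.Y (1, ρ) 2 < D.yc (4 * S.upr ρ + 3) := by
      rw [← e1]
      exact hAB.1 2 (by simp)
    have l2 : D.yc (4 * S.upr ρ + 1) < D.Y (1, ρ) 2 := by
      rw [← e1]
      exact hAB.2 2 (by simp)
    have hY1 : D.yc (4 * S.upr ρ + 1) < D.Y (1, ρ) 1 := by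
      refine (hD.rblk_gt (k := 4 * S.upr ρ + 1) C1 (b := (1, ρ)) (c := 2) (c' := 1) b2 b1
        (hv_symm hv12) ?_ ?_ l2).2
      · rw [hb1]
        simp
      · rw [hb1]
        simp
    have bq : S.binB (4, lkU ρ) 2 := Or.inr ⟨by simp, by simp, hl, by simp⟩
    have vq : (S.net h).isV (.blk (4, lkU ρ) 2) := bq
    have vR : (S.net h).isV (.L (4 * S.upr ρ + 2)) :=
      show 4 * S.upr ρ + 2 ≤ 4 * S.MM by omega
    have hLt1 : D.Lt (D.p (.L (4 * S.upr ρ + 2))) (D.p (.blk (1, ρ) 2)) :=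
      D.Lt_of vR v2 hli.2.1
    have hLt2 : D.Lt (D.p (.blk (1, ρ) 2)) (D.p (.blk (4, lkU ρ) 2)) :=
      D.Lt_of v2 vq hli.2.2.1
    have hU1 : D.U (D.p (.blk (1, ρ) 0)) (D.m (.blk (1, ρ) 0) (.blk (1, ρ) 1)) :=
      D.U1 v0 v1 hv01
    have hU2 : D.U (D.m (.blk (1, ρ) 0) (.blk (1, ρ) 1)) (D.p (.blk (1, ρ) 1)) :=
      D.U2 v0 v1 hv01
    have cq := hD.cell (b := (4, lkU ρ)) (c := 2) bq
    have c1 := hD.cell (b := (1, ρ)) (c := 1) b1
    have c0 := hD.cell (b := (1, ρ)) (c := 0) b0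
    have cm := hD.cell_m (b := (1, ρ)) (c := 0) (c' := 1) b0 b1 hv01
    have hcolq : (S.net h).col (4, lkU ρ) = S.rlane (lkU ρ) := by
      show S.bcol (4, lkU ρ) = S.rlane (lkU ρ)
      simp [bcol]
    have hcol0 : (S.net h).col (1, ρ) = S.lane ρ := by
      show S.bcol (1, ρ) = S.lane ρ
      simp [bcol]
    have hlane : S.lane ρ < S.rlane 0 := lane_lt h hρ
    have hrl : S.rlane 0 ≤ S.rlane (lkU ρ) := by
      unfold rlane
      omega
    have hlane2 : S.rlane (lkU ρ) < S.NN := rlane_lt h hl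
    have hx : D.xc (4 * S.lane ρ + 4) ≤ D.xc (4 * S.rlane (lkU ρ)) := by
      have e4 : 4 * S.lane ρ + 4 = 4 * (S.lane ρ + 1) := by ring
      rw [e4]
      exact f2u_xle hD (by omega) hlane2.le
    have hR : (D.p (.L (4 * S.upr ρ + 2))).1 < D.xc (4 * S.lane ρ) := by
      have := f2u_L hD b2 (k := 4 * S.upr ρ + 2) (by omega) (li_symm hli.2.1)
      simpa [bcol] using this
    have xq : D.xc (4 * S.rlane (lkU ρ)) < (D.p (.blk (4, lkU ρ) 2)).1 := by
      have := cq.1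
      rw [hcolq] at this
      exact this
    have bd : ∀ {z : Pt}, D.Cell ((S.net h).row (1, ρ)) ((S.net h).col (1, ρ)) z →
        (D.p (.L (4 * S.upr ρ + 2))).1 < z.1 ∧ z.1 < (D.p (.blk (4, lkU ρ) 2)).1 := by
      intro z hz
      have z1 := hz.1
      have z2 := hz.2.1
      rw [hcol0] at z1 z2
      constructor <;> linarith
    have nepp : ∀ {v w : Vx}, (S.net h).isV v → (S.net h).isV w → v ≠ w → D.p v ≠ D.p w :=
      fun hv hw hne he => hne (D.pinj hv hw he)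
    have step1 : (D.m (.blk (1, ρ) 0) (.blk (1, ρ) 1)).2 < (D.p (.blk (1, ρ) 2)).2 := by
      refine D.toPD.two_hor_lt hLt1 hLt2 e2 e1 hU1 (nepp v0 vR (by simp)) (nepp v0 v2 (by simp))
        (nepp v0 vq (by simp)) (D.mp v0 v1 hv01 vR) (D.mp v0 v1 hv01 v2) (D.mp v0 v1 hv01 vq)
        (bd c0).1 (bd c0).2 (bd cm).1 (bd cm).2 ?_
      have h5 : (D.p (.blk (1, ρ) 0)).2 = D.yc (4 * S.upr ρ + 1) := hY0
      rw [h5]
      exact l2
    have step2 : (D.p (.blk (1, ρ) 1)).2 < (D.p (.blk (1, ρ) 2)).2 := by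
      exact D.toPD.two_hor_lt hLt1 hLt2 e2 e1 hU2 (D.mp v0 v1 hv01 vR) (D.mp v0 v1 hv01 v2)
        (D.mp v0 v1 hv01 vq) (nepp v1 vR (by simp)) (nepp v1 v2 (by simp))
        (nepp v1 vq (by simp)) (bd cm).1 (bd cm).2 (bd c1).1 (bd c1).2 step1
    refine ⟨hY0, ?_, step2, l1.le, fun e' => ?_⟩
    · rw [hY0]
      exact hY1
    · exfalso
      have := upB_lt_upA h hl
      rw [← e, ← e'] at this
      exact lt_irrefl _ this
  · have hb1 : (S.net h).ri (4 * S.upr ρ + 1) = [((1, ρ), 0), ((5, lkU ρ), 0)] := by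
      have := bri_upB1 h hl
      rw [← e] at this
      exact this
    have hb3 : (S.net h).ri (4 * S.upr ρ + 3) = [((1, ρ), 2), ((5, lkU ρ), 1)] := by
      have := bri_upB3 h hl
      rw [← e] at this
      exact this
    have hY2 : D.Y (1, ρ) 2 = D.yc (4 * S.upr ρ + 3) := by
      refine hD.line_hor C3 (.blk (1, ρ) 2) ?_
      unfold Net.rl
      rw [hb3]
      simp
    have hY1a : D.yc (4 * S.upr ρ + 1) < D.Y (1, ρ) 1 := by
      refine (hD.rblk_gt (k := 4 * S.upr ρ + 1) C1 (b := (1, ρ)) (c := 2) (c' := 1) b2 b1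
        (hv_symm hv12) ?_ ?_ ?_).2
      · rw [hb1]
        simp
      · rw [hb1]
        simp
      · have h5 : (D.p (.blk (1, ρ) 2)).2 = D.yc (4 * S.upr ρ + 3) := hY2
        rw [h5]
        exact hy13
    have hY1b : D.Y (1, ρ) 1 < D.yc (4 * S.upr ρ + 3) := by
      refine (hD.rblk_lt (k := 4 * S.upr ρ + 3) C3 (b := (1, ρ)) (c := 0) (c' := 1) b0 b1
        hv01 ?_ ?_ ?_).2
      · rw [hb3]
        simp
      · rw [hb3]
        simp
      · have h5 : (D.p (.blk (1, ρ) 0)).2 = D.yc (4 * S.upr ρ + 1) := hY0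
        rw [h5]
        exact hy13
    refine ⟨hY0, ?_, ?_, hY2.le, fun _ => hY2⟩
    · rw [hY0]
      exact hY1a
    · rw [hY2]
      exact hY1b

end Pool.Agent.H54R
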