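import Pool.Agent.Lib.H54R.SDefs
import Pool.Agent.Lib.H54R.T1
import Pool.Agent.Lib.H54R.T2
import Pool.Agent.Lib.H54R.T3

/-!
# S15: parts of segments
-/

set_option autoImplicit false

namespace Pool.Agent.H54R

theorem s15_coord {a b z : Pt} (h : z ∈ segment ℝ a b) : ∃ s t : ℝ, 0 ≤ s ∧ 0 ≤ t ∧ s + t = 1 ∧
    z.1 = s * a.1 + t * b.1 ∧ z.2 = s * a.2 + t * b.2 := by
  obtain ⟨s, t, hs, ht, hst, rfl⟩ := h
  exact ⟨s, t, hs, ht, hst, by simp, by simp⟩

theorem s15_open {a b z : Pt} (h : z ∈ segment ℝ a b) (ha : z ≠ a) (hb : z ≠ b) :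
    z ∈ openSegment ℝ a b := by
  have h2 := insert_endpoints_openSegment ℝ a b
  rw [← h2] at h
  rcases h with h | h | h
  · exact absurd h ha
  · exact absurd h hb
  · exact h

theorem s15_gen (D : PD) {a b e f x y : Pt} (hab : D.Sg a b) (he : e ∈ segment ℝ a b)
    (hf : f ∈ segment ℝ a b) (hef : e ≠ f) (hxy : D.Sg x y) (hxa : x ≠ a) (hxb : x ≠ b)
    (hya : y ≠ a) (hyb : y ≠ b) (hn : ¬ Cross x y a b) : GP4 x y e f ∧ ¬ Cross x y e f := by
  have P1 : a ∈ D.P ∧ b ∈ D.P ∧ a ≠ b := by
    rcases hab with h | h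
    · exact D.LP h
    · exact D.UP h
  have P2 : x ∈ D.P ∧ y ∈ D.P ∧ x ≠ y := by
    rcases hxy with h | h
    · exact D.LP h
    · exact D.UP h
  have nx : x ∉ segment ℝ a b := D.nv hab P2.1 hxa hxb
  have ny : y ∉ segment ℝ a b := D.nv hab P2.2.1 hya hyb
  have na : a ∉ segment ℝ x y := D.nv hxy P1.1 hxa.symm hya.symm
  have nb : b ∉ segment ℝ x y := D.nv hxy P1.2.1 hxb.symm hyb.symm
  have sub : segment ℝ e f ⊆ segment ℝ a b := (convex_segment a b).segment_subset he hf
  have key : ∀ z, z ∈ segment ℝ a b → z ∉ segment ℝ x y := by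
    intro z hz hz'
    have h1 : z ∈ openSegment ℝ x y := by
      refine s15_open hz' ?_ ?_
      · rintro rfl; exact nx hz
      · rintro rfl; exact ny hz
    have h2 : z ∈ openSegment ℝ a b := by
      refine s15_open hz ?_ ?_
      · rintro rfl; exact na hz'
      · rintro rfl; exact nb hz'
    exact hn ⟨z, h1, h2⟩
  refine ⟨⟨P2.2.2, hef, fun h => nx (sub h), fun h => ny (sub h), key e he, key f hf⟩, ?_⟩
  rintro ⟨z, h1, h2⟩
  exact key z (sub (openSegment_subset_segment ℝ e f h2)) (openSegment_subset_segment ℝ x y h1)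

/-- Let `ab` be a segment of the drawing, `e f` a part of it, and `x y` an uncrossed segment without
common ends with `ab`. Then `x y` and `e f` are in general position and do not cross. -/
theorem PD.part_gp (D : PD) {a b e f x y : Pt} (hab : D.Sg a b) (he : e ∈ segment ℝ a b)
    (hf : f ∈ segment ℝ a b) (hef : e ≠ f) (hxy : D.U x y) (hxa : x ≠ a) (hxb : x ≠ b)
    (hya : y ≠ a) (hyb : y ≠ b) : GP4 x y e f ∧ ¬ Cross x y e f := by
  refine s15_gen D hab he hf hef (Or.inr hxy) hxa hxb hya hyb ?_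
  refine D.un hxy hab ?_
  intro h
  rcases Sym2.eq_iff.1 h with h | h
  · exact hxa h.1
  · exact hxb h.1

/-- The same for a light segment `x y` which does not cross `ab` and does not have `e`, `f` on it. -/
theorem PD.part_gp' (D : PD) {a b e f x y : Pt} (hab : D.Sg a b) (he : e ∈ segment ℝ a b)
    (hf : f ∈ segment ℝ a b) (hef : e ≠ f) (hxy : D.Sg x y) (hxa : x ≠ a) (hxb : x ≠ b)
    (hya : y ≠ a) (hyb : y ≠ b) (hn : ¬ Cross x y a b) : GP4 x y e f ∧ ¬ Cross x y e f :=
  s15_gen D hab he hf hef hxy hxa hxb hya hyb hn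

/-- A horizontal segment and a vertical segment in general position, crossing -/
theorem gp_hor_ver {x y e f : Pt} (h1 : x.2 = y.2) (h2 : e.1 = f.1) (h3 : x.1 < e.1)
    (h4 : e.1 < y.1) (h5 : e.2 < x.2) (h6 : x.2 < f.2) : GP4 x y e f ∧ Cross x y e f := by
  refine ⟨⟨?_, ?_, ?_, ?_, ?_, ?_⟩, ?_⟩
  · intro h; rw [h] at h3; linarith
  · intro h; rw [h] at h5; linarith
  · intro h
    obtain ⟨s, t, hs, ht, hst, e1, e2⟩ := s15_coord h
    rw [← h2] at e1
    have : x.1 = (s + t) * e.1 := by rw [e1]; ring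
    rw [hst] at this
    linarith
  · intro h
    obtain ⟨s, t, hs, ht, hst, e1, e2⟩ := s15_coord h
    rw [← h2] at e1
    have : y.1 = (s + t) * e.1 := by rw [e1]; ring
    rw [hst] at this
    linarith
  · intro h
    obtain ⟨s, t, hs, ht, hst, e1, e2⟩ := s15_coord h
    rw [← h1] at e2
    have : e.2 = (s + t) * x.2 := by rw [e2]; ring
    rw [hst] at this
    linarith
  · intro h
    obtain ⟨s, t, hs, ht, hst, e1, e2⟩ := s15_coord h
    rw [← h1] at e2
    have : f.2 = (s + t) * x.2 := by rw [e2]; ring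
    rw [hst] at this
    linarith
  · have p1 : 0 < y.1 - x.1 := by linarith
    have p2 : 0 < f.2 - e.2 := by linarith
    refine ⟨(e.1, x.2), ⟨(y.1 - e.1) / (y.1 - x.1), (e.1 - x.1) / (y.1 - x.1),
      div_pos (by linarith) p1, div_pos (by linarith) p1, ?_, ?_⟩,
      ⟨(f.2 - x.2) / (f.2 - e.2), (x.2 - e.2) / (f.2 - e.2),
      div_pos (by linarith) p2, div_pos (by linarith) p2, ?_, ?_⟩⟩
    · field_simp; ring
    · refine Prod.ext ?_ ?_
      · simp only [Prod.fst_add, Prod.smul_fst, smul_eq_mul]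
        field_simp
        ring
      · simp only [Prod.snd_add, Prod.smul_snd, smul_eq_mul, ← h1]
        field_simp
        ring
    · field_simp; ring
    · refine Prod.ext ?_ ?_
      · simp only [Prod.fst_add, Prod.smul_fst, smul_eq_mul, ← h2]
        field_simp
        ring
      · simp only [Prod.snd_add, Prod.smul_snd, smul_eq_mul]
        field_simp
        ring

/-- A horizontal segment and a segment completely below or above it -/
theorem gp_hor_far {x y e f : Pt} (h1 : x.2 = y.2) (hxy : x ≠ y) (hef : e ≠ f)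
    (h : (e.2 < x.2 ∧ f.2 < x.2) ∨ (x.2 < e.2 ∧ x.2 < f.2)) : GP4 x y e f ∧ ¬ Cross x y e f := by
  have k1 : ∀ z, z ∈ segment ℝ x y → z.2 = x.2 := by
    intro z hz
    obtain ⟨s, t, hs, ht, hst, e1, e2⟩ := s15_coord hz
    rw [← h1] at e2
    have : z.2 = (s + t) * x.2 := by rw [e2]; ring
    rw [hst, one_mul] at this
    exact this
  have k2 : ∀ z, z ∈ segment ℝ e f → z.2 ≠ x.2 := by
    intro z hz
    obtain ⟨s, t, hs, ht, hst, e1, e2⟩ := s15_coord hz
    have hs' : s = 1 - t := by linarith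
    rcases h with ⟨h3, h4⟩ | ⟨h3, h4⟩
    · have : z.2 < x.2 := by
        rw [e2]
        rcases hs.lt_or_eq with h5 | h5
        · have a1 := mul_lt_mul_of_pos_left h3 h5
          have a2 := mul_le_mul_of_nonneg_left h4.le ht
          have a3 : s * x.2 + t * x.2 = x.2 := by rw [← add_mul, hst, one_mul]
          linarith
        · have ht1 : t = 1 := by linarith
          rw [← h5, ht1]; linarith
      exact this.ne
    · have : x.2 < z.2 := by
        rw [e2]
        rcases hs.lt_or_eq with h5 | h5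
        · have a1 := mul_lt_mul_of_pos_left h3 h5
          have a2 := mul_le_mul_of_nonneg_left h4.le ht
          have a3 : s * x.2 + t * x.2 = x.2 := by rw [← add_mul, hst, one_mul]
          linarith
        · have ht1 : t = 1 := by linarith
          rw [← h5, ht1]; linarith
      exact this.ne'
  refine ⟨⟨hxy, hef, ?_, ?_, ?_, ?_⟩, ?_⟩
  · intro hh; exact k2 x hh rfl
  · intro hh; exact k2 y hh h1.symm
  · intro hh; exact k2 e (left_mem_segment ℝ e f) (k1 e hh)
  · intro hh; exact k2 f (right_mem_segment ℝ e f) (k1 f hh)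
  · rintro ⟨z, h3, h4⟩
    exact k2 z (openSegment_subset_segment ℝ e f h4) (k1 z (openSegment_subset_segment ℝ x y h3))

end Pool.Agent.H54R
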