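import Pool.Agent.Lib.H54R.SDefs
import Pool.Agent.Lib.H54R.T1
import Pool.Agent.Lib.H54R.T2
import Pool.Agent.Lib.H54R.T3
import Pool.Agent.Lib.H54R.S15

/-!
# S16: the gate
-/

set_option autoImplicit false

namespace Pool.Agent.H54R

/-- a segment below `z` -/
theorem s16_rr_above {p q z : Pt} (h1 : p.2 < z.2) (h2 : q.2 < z.2) : rr p q z = 0 := by
  have key : ∀ a b : Pt, a.2 < z.2 → b.2 < z.2 → lx a z → lx z b → ¬ ori a b z < 0 := by
    intro a b ha hb h3 h4 h5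
    have e1 : a.1 ≤ z.1 := by
      rcases h3 with h | ⟨h, _⟩
      · exact h.le
      · exact h.le
    have e2 : z.1 ≤ b.1 := by
      rcases h4 with h | ⟨h, _⟩
      · exact h.le
      · exact h.le
    have e3 : ori a b z = (b.1 - z.1) * (z.2 - a.2) + (z.1 - a.1) * (z.2 - b.2) := by
      unfold ori; ring
    have e4 : 0 ≤ (b.1 - z.1) * (z.2 - a.2) := mul_nonneg (by linarith) (by linarith)
    have e5 : 0 ≤ (z.1 - a.1) * (z.2 - b.2) := mul_nonneg (by linarith) (by linarith)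
    linarith
  unfold rr
  rw [if_neg]
  rintro (⟨h3, h4, h5⟩ | ⟨h3, h4, h5⟩)
  · exact key p q h1 h2 h3 h4 h5
  · exact key q p h2 h1 h3 h4 h5

theorem s16_cr_one {a b c d : Pt} (h : Cross a b c d) : cr a b c d = 1 := by
  unfold cr; rw [if_pos h]

theorem s16_cr_zero {a b c d : Pt} (h : ¬ Cross a b c d) : cr a b c d = 0 := by
  unfold cr; rw [if_neg h]

theorem s16_rrL (v1 v2 v3 v4 v5 z : Pt) : rrL [v1, v2, v3, v4, v5, v1] z =
    rr v1 v2 z + rr v2 v3 z + rr v3 v4 z + rr v4 v5 z + rr v5 v1 z := by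
  simp only [rrL, sumE, edg, List.tail_cons, List.zip_cons_cons, List.zip_nil_right, List.map_cons,
    List.map_nil, List.sum_cons, List.sum_nil]
  ring

/-- the parity formula for a closed pentagon -/
theorem s16_cl {x y v1 v2 v3 v4 v5 : Pt} (h1 : GP4 x y v1 v2) (h2 : GP4 x y v2 v3)
    (h3 : GP4 x y v3 v4) (h4 : GP4 x y v4 v5) (h5 : GP4 x y v5 v1) :
    cr x y v1 v2 + cr x y v2 v3 + cr x y v3 v4 + cr x y v4 v5 + cr x y v5 v1 =
      rrL [v1, v2, v3, v4, v5, v1] x + rrL [v1, v2, v3, v4, v5, v1] y := by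
  have hp : PathL v1 v1 [v1, v2, v3, v4, v5, v1] := ⟨by simp, rfl, rfl⟩
  have hg : GPL x y [v1, v2, v3, v4, v5, v1] := by
    intro e he
    simp only [edg, List.tail_cons, List.zip_cons_cons, List.zip_nil_right, List.mem_cons,
      List.not_mem_nil, or_false] at he
    rcases he with rfl | rfl | rfl | rfl | rfl
    · exact h1
    · exact h2
    · exact h3
    · exact h4
    · exact h5
  rw [← crL_closed hp hg]
  simp only [crL, sumE, edg, List.tail_cons, List.zip_cons_cons, List.zip_nil_right, List.map_cons,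
    List.map_nil, List.sum_cons, List.sum_nil]
  ring

theorem s16_eq {x y v1 v2 v3 v4 v5 : Pt} (h1 : GP4 x y v1 v2 ∧ ¬ Cross x y v1 v2)
    (h2 : GP4 x y v2 v3 ∧ ¬ Cross x y v2 v3) (h3 : GP4 x y v3 v4 ∧ ¬ Cross x y v3 v4)
    (h4 : GP4 x y v4 v5 ∧ ¬ Cross x y v4 v5) (h5 : GP4 x y v5 v1 ∧ ¬ Cross x y v5 v1) :
    rrL [v1, v2, v3, v4, v5, v1] x = rrL [v1, v2, v3, v4, v5, v1] y := by
  have h := s16_cl h1.1 h2.1 h3.1 h4.1 h5.1
  rw [s16_cr_zero h1.2, s16_cr_zero h2.2, s16_cr_zero h3.2, s16_cr_zero h4.2,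
    s16_cr_zero h5.2] at h
  have h6 : rrL [v1, v2, v3, v4, v5, v1] x + rrL [v1, v2, v3, v4, v5, v1] y = 0 := by
    rw [← h]; ring
  exact (CharTwo.add_eq_zero).1 h6

theorem s16_symm {x y e f : Pt} (h : GP4 x y e f ∧ ¬ Cross x y e f) :
    GP4 e f x y ∧ ¬ Cross e f x y :=
  ⟨h.1.symm, fun ⟨z, h1, h2⟩ => h.2 ⟨z, h2, h1⟩⟩

theorem s16_swap {x y e f : Pt} (h : GP4 x y e f ∧ ¬ Cross x y e f) :
    GP4 x y f e ∧ ¬ Cross x y f e := by
  refine ⟨h.1.symm.swap.symm, ?_⟩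
  rintro ⟨z, h1, h2⟩
  rw [openSegment_symm] at h2
  exact h.2 ⟨z, h1, h2⟩

/-- a segment to the left of a vertical segment -/
theorem s16_ver_far {x y e f : Pt} (h1 : e.1 = f.1) (hxy : x ≠ y) (hef : e ≠ f)
    (h2 : x.1 < e.1) (h3 : y.1 < e.1) : GP4 x y e f ∧ ¬ Cross x y e f := by
  have k1 : ∀ z, z ∈ segment ℝ e f → z.1 = e.1 := by
    intro z hz
    obtain ⟨s, t, hs, ht, hst, e1, e2⟩ := s15_coord hz
    rw [← h1] at e1
    have : z.1 = (s + t) * e.1 := by rw [e1]; ring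
    rw [hst, one_mul] at this
    exact this
  have k2 : ∀ z, z ∈ segment ℝ x y → z.1 ≠ e.1 := by
    intro z hz
    obtain ⟨s, t, hs, ht, hst, e1, e2⟩ := s15_coord hz
    have hs' : s = 1 - t := by linarith
    have : z.1 < e.1 := by
      rw [e1]
      rcases hs.lt_or_eq with h5 | h5
      · have a1 := mul_lt_mul_of_pos_left h2 h5
        have a2 := mul_le_mul_of_nonneg_left h3.le ht
        have a3 : s * e.1 + t * e.1 = e.1 := by rw [← add_mul, hst, one_mul]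
        linarith
      · have ht1 : t = 1 := by linarith
        rw [← h5, ht1]; linarith
    exact this.ne
  refine ⟨⟨hxy, hef, ?_, ?_, ?_, ?_⟩, ?_⟩
  · intro hh; exact k2 x (left_mem_segment ℝ x y) (k1 x hh)
  · intro hh; exact k2 y (right_mem_segment ℝ x y) (k1 y hh)
  · intro hh; exact k2 e hh rfl
  · intro hh; exact k2 f hh h1.symm
  · rintro ⟨z, h4, h5⟩
    exact k2 z (openSegment_subset_segment ℝ x y h4) (k1 z (openSegment_subset_segment ℝ e f h5))

/-- a point of a horizontal segment -/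
theorem s16_hor_mem {a b : Pt} {t : ℝ} (h : a.2 = b.2) (h1 : a.1 < t) (h2 : t < b.1) :
    ((t, a.2) : Pt) ∈ openSegment ℝ a b := by
  have p1 : 0 < b.1 - a.1 := by linarith
  refine ⟨(b.1 - t) / (b.1 - a.1), (t - a.1) / (b.1 - a.1), div_pos (by linarith) p1,
    div_pos (by linarith) p1, by field_simp; ring, ?_⟩
  refine Prod.ext ?_ ?_
  · simp only [Prod.fst_add, Prod.smul_fst, smul_eq_mul]
    field_simp
    ring
  · simp only [Prod.snd_add, Prod.smul_snd, smul_eq_mul, ← h]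
    field_simp
    ring

/-- a point of a vertical segment -/
theorem s16_ver_mem {a b : Pt} {t : ℝ} (h : a.1 = b.1) (h1 : a.2 < t) (h2 : t < b.2) :
    ((a.1, t) : Pt) ∈ openSegment ℝ a b := by
  have p1 : 0 < b.2 - a.2 := by linarith
  refine ⟨(b.2 - t) / (b.2 - a.2), (t - a.2) / (b.2 - a.2), div_pos (by linarith) p1,
    div_pos (by linarith) p1, by field_simp; ring, ?_⟩
  refine Prod.ext ?_ ?_
  · simp only [Prod.fst_add, Prod.smul_fst, smul_eq_mul, ← h]
    field_simp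
    ring
  · simp only [Prod.snd_add, Prod.smul_snd, smul_eq_mul]
    field_simp
    ring

/-- the lever inequality: the slanted segment `a b`, not crossed by the ray `x x'` to the right -/
theorem s16_lever (D : PD) {a b x x' : Pt} (hl : D.Lt a b) (hr : D.Lt x x') (hh : x'.2 = x.2)
    (h1 : a.1 < b.1) (h2 : min a.2 b.2 < x.2) (h3 : x.2 < max a.2 b.2) (h4 : a.1 < x'.1)
    (h5 : b.1 < x'.1) (hxa : x ≠ a) (hxb : x ≠ b) (hx' : x' ≠ a) (hx'' : x' ≠ b) :
    (b.1 - a.1) * |x.2 - a.2| < (x.1 - a.1) * |b.2 - a.2| := by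
  have hne : a.2 ≠ b.2 := by
    intro h
    rw [h, min_self] at h2
    rw [h, max_self] at h3
    linarith
  have hd : b.2 - a.2 ≠ 0 := sub_ne_zero.2 hne.symm
  -- parameter of the point
  set t := (x.2 - a.2) / (b.2 - a.2) with ht
  have ht0 : 0 < t ∧ t < 1 := by
    rcases lt_or_gt_of_ne hne with h | h
    · rw [min_eq_left h.le] at h2
      rw [max_eq_right h.le] at h3
      exact ⟨div_pos (by linarith) (by linarith), (div_lt_one (by linarith)).2 (by linarith)⟩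
    · rw [min_eq_right h.le] at h2
      rw [max_eq_left h.le] at h3
      refine ⟨div_pos_of_neg_of_neg (by linarith) (by linarith), ?_⟩
      rw [div_lt_one_of_neg (by linarith)]
      linarith
  have hta : |x.2 - a.2| = t * |b.2 - a.2| := by
    have h6 : t * (b.2 - a.2) = x.2 - a.2 := by rw [ht]; exact div_mul_cancel₀ _ hd
    rw [← h6, abs_mul, abs_of_pos ht0.1]
  have hpos : 0 < |b.2 - a.2| := abs_pos.2 hd
  -- the point of the lever
  have hz : ((1 - t) • a + t • b : Pt) ∈ openSegment ℝ a b :=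
    ⟨1 - t, t, by linarith [ht0.2], ht0.1, by ring, rfl⟩
  have hz1 : ((1 - t) • a + t • b : Pt).1 = a.1 + (b.1 - a.1) * t := by simp; ring
  have hz2 : ((1 - t) • a + t • b : Pt).2 = x.2 := by
    simp only [Prod.snd_add, Prod.smul_snd, smul_eq_mul]
    rw [ht]
    field_simp
    ring
  have key : a.1 + (b.1 - a.1) * t < x.1 := by
    by_contra hcon
    push Not at hcon
    have hlt : a.1 + (b.1 - a.1) * t < x'.1 := by
      have : (b.1 - a.1) * t < (b.1 - a.1) * 1 := mul_lt_mul_of_pos_left ht0.2 (by linarith)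
      linarith
    rcases hcon.lt_or_eq with h | h
    · -- crossing
      have hc : Cross a b x x' := by
        refine ⟨_, hz, ?_⟩
        have := s16_hor_mem (a := x) (b := x') hh.symm h hlt
        have e : ((1 - t) • a + t • b : Pt) = (a.1 + (b.1 - a.1) * t, x.2) := Prod.ext hz1 hz2
        rw [e]
        exact this
      have hs : s(a, b) ≠ s(x, x') := by
        intro hh
        rcases Sym2.eq_iff.1 hh with h | h
        · exact hxa h.1.symm
        · exact hx' h.1.symm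
      rcases D.cross hl hr hs hc with ⟨h6, _⟩ | ⟨h6, _⟩
      · exact hne h6
      · exact absurd h6 h1.ne
    · have e : x = ((1 - t) • a + t • b : Pt) := Prod.ext (by rw [hz1]; exact h) hz2.symm
      refine D.nv (Or.inl hl) (D.LP hr).1 hxa hxb ?_
      rw [e]
      exact openSegment_subset_segment ℝ a b hz
  rw [hta]
  have : (b.1 - a.1) * t * |b.2 - a.2| < (x.1 - a.1) * |b.2 - a.2| :=
    mul_lt_mul_of_pos_right (by linarith) hpos
  linarith [mul_assoc (b.1 - a.1) t |b.2 - a.2|]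

/-- the algebra -/
theorem s16_alg (b y P Y y2 C yc W : ℝ) (h1 : b * y < P * Y) (h2 : (C - P) * (y - y2) < (b - P) * (y - yc))
    (hY : Y < W) (hP : 0 < P) (hyc : 0 < yc) (hb : P < b) (hy2 : y2 < y) (hy : y < W) (h0 : 0 < y2) :
    (y - y2) * C < b * (W - y2) := by
  have a1 : b * y < P * W := lt_trans h1 (mul_lt_mul_of_pos_left hY hP)
  have a2 : (b - P) * (y - yc) < (b - P) * y := mul_lt_mul_of_pos_left (by linarith) (by linarith)
  have a3 : C * (y - y2) < b * y - P * y2 := by nlinarith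
  have hW : 0 < W := by linarith
  have a4 : W * (b * y - P * y2) < W * (b * (W - y2)) := by
    have e1 : (b * y) * y2 < (P * W) * y2 := mul_lt_mul_of_pos_right a1 h0
    have e2 : (b * (W - y2)) * y < (b * (W - y2)) * W :=
      mul_lt_mul_of_pos_left hy (mul_pos (by linarith) (by linarith))
    nlinarith
  have a5 := lt_of_mul_lt_mul_left a4 hW.le
  linarith [mul_comm C (y - y2)]

/-- A link block. Heavy paths `s-m1-p`, `p-m2-u`, `p-m3-q`, `q-m4-c`, `s-m5-c`, `u-m6-w`; levers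
`s u`, `p c`; the edge `q u`; rays to the right `s s'`, `p p'`, `q q'`, `w w'` which are cut by the
vertical long wire `g1 g2`. All vertices are to the left of the wire, above `s` and below `w`, to the
right of `s` and to the left of `c` (as given in the hypotheses); `q` is below the height of `p`.

Proof. Let `γ = g1.1`, and let `O` be the closed polygon `s, m1, p, (γ, p.2), (γ, s.2), s`. A point with
a horizontal segment to the right ending at a point with first coordinate `> γ` (where `rrL = 0` by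
`rr_right`): `rrL O q = 1` (the ray of `q` crosses only the vertical edge of `O`), `rrL O w = 0` (the ray
of `w` is above `O`), `rrL O u = rrL O m6 = rrL O w` (heavy path), `rrL O c = rrL O m4 = rrL O q`. So the
light segment `q u` crosses `O`; it cannot cross the heavy path, nor the wire (both ends are on the
left), nor the ray of `s` (both ends are above); so it crosses the ray of `p`, which is horizontal:
`q u` is vertical, `q.2 < p.2 < u.2` and `p.1 < q.1`. Computing `rrL O c` directly (the vertices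
`s, m1, p` are to the left of `c`): `rrL O c = 1` gives `c.2 < p.2`. The closed polygon
`O' = p, m3, q, (γ, q.2), (γ, p.2), p` has `rrL O' s = 0` (the ray of `s` is below `O'`), so
`rrL O' c = rrL O' m5 = 0`; computing directly, `c.2 < q.2`. Now the levers: `s u` is slanted and is not
crossed by the ray of `p`: the point of `s u` at the height of `p` is to the left of `p`:
`(u.1 - s.1) * (p.2 - s.2) < (p.1 - s.1) * (u.2 - s.2)`. The lever `p c` is slanted and is not crossed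
by the ray of `q`: its point at the height of `q` is to the left of `q`:
`(c.1 - p.1) * (p.2 - q.2) < (q.1 - p.1) * (p.2 - c.2)`. With `c.2 > s.2`, `u.2 < w.2` the inequality
follows (see the paper proof, 4.9). -/
theorem PD.gate (D : PD) {s c q u w p m1 m2 m3 m4 m5 m6 s' p' q' w' g1 g2 : Pt}
    (h1 : D.U s m1) (h1' : D.U m1 p) (h2 : D.U p m2) (h2' : D.U m2 u) (h3 : D.U p m3)
    (h3' : D.U m3 q) (h4 : D.U q m4) (h4' : D.U m4 c) (h5 : D.U s m5) (h5' : D.U m5 c)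
    (h6 : D.U u m6) (h6' : D.U m6 w)
    (l1 : D.Lt s u) (l2 : D.Lt p c) (l3 : D.Lt q u)
    (r1 : D.Lt s s') (r2 : D.Lt p p') (r3 : D.Lt q q') (r4 : D.Lt w w')
    (e1 : s'.2 = s.2) (e2 : p'.2 = p.2) (e3 : q'.2 = q.2) (e4 : w'.2 = w.2)
    (hg : D.Lt g1 g2) (hg' : g1.1 = g2.1) (hg1 : g1.2 < s.2) (hg2 : w.2 < g2.2)
    (hnd : [s, c, q, u, w, p, m1, m2, m3, m4, m5, m6, s', p', q', w', g1, g2].Nodup)
    (ha : ∀ x ∈ [s, c, q, u, w, p, m1, m2, m3, m4, m5, m6], x.1 < g1.1)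
    (hb : ∀ x ∈ [s', p', q', w'], g1.1 < x.1)
    (hc : ∀ x ∈ [c, q, u, w, p, m1, m2, m3, m4, m5, m6], s.2 < x.2)
    (hd : ∀ x ∈ [s, c, q, u, p, m1, m2, m3, m4, m5, m6], x.2 < w.2)
    (hf : ∀ x ∈ [c, q, u, w, p, m1, m2, m3, m4, m5, m6], s.1 < x.1)
    (hk : ∀ x ∈ [s, q, u, w, p, m1, m2, m3, m4, m5, m6], x.1 < c.1)
    (hy : q.2 < p.2) :
    q.1 = u.1 ∧ (p.2 - q.2) * (c.1 - s.1) < (u.1 - s.1) * (w.2 - q.2) := by
  simp only [List.nodup_cons, List.mem_cons, List.not_mem_nil, or_false, not_or, not_false_eq_true,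
    List.nodup_nil, and_true] at hnd
  obtain ⟨⟨n_s_c, n_s_q, n_s_u, n_s_w, n_s_p, n_s_m1, n_s_m2, n_s_m3, n_s_m4, n_s_m5, n_s_m6, n_s_sr, n_s_pr, n_s_qr, n_s_wr, n_s_g1, n_s_g2⟩, ⟨n_c_q, n_c_u, n_c_w, n_c_p, n_c_m1, n_c_m2, n_c_m3, n_c_m4, n_c_m5, n_c_m6, n_c_sr, n_c_pr, n_c_qr, n_c_wr, n_c_g1, n_c_g2⟩, ⟨n_q_u, n_q_w, n_q_p, n_q_m1, n_q_m2, n_q_m3, n_q_m4, n_q_m5, n_q_m6, n_q_sr, n_q_pr, n_q_qr, n_q_wr, n_q_g1, n_q_g2⟩, ⟨n_u_w, n_u_p, n_u_m1, n_u_m2, n_u_m3, n_u_m4, n_u_m5, n_u_m6, n_u_sr, n_u_pr, n_u_qr, n_u_wr, n_u_g1, n_u_g2⟩, ⟨n_w_p, n_w_m1, n_w_m2, n_w_m3, n_w_m4, n_w_m5, n_w_m6, n_w_sr, n_w_pr, n_w_qr, n_w_wr, n_w_g1, n_w_g2⟩, ⟨n_p_m1, n_p_m2, n_p_m3, n_p_m4, n_p_m5, n_p_m6, n_p_sr, n_p_pr, n_p_qr, n_p_wr, n_p_g1, n_p_g2⟩, ⟨n_m1_m2, n_m1_m3, n_m1_m4, n_m1_m5, n_m1_m6, n_m1_sr, n_m1_pr, n_m1_qr, n_m1_wr, n_m1_g1, n_m1_g2⟩, ⟨n_m2_m3, n_m2_m4, n_m2_m5, n_m2_m6, n_m2_sr, n_m2_pr, n_m2_qr, n_m2_wr, n_m2_g1, n_m2_g2⟩,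 ⟨n_m3_m4, n_m3_m5, n_m3_m6, n_m3_sr, n_m3_pr, n_m3_qr, n_m3_wr, n_m3_g1, n_m3_g2⟩, ⟨n_m4_m5, n_m4_m6, n_m4_sr, n_m4_pr, n_m4_qr, n_m4_wr, n_m4_g1, n_m4_g2⟩, ⟨n_m5_m6, n_m5_sr, n_m5_pr, n_m5_qr, n_m5_wr, n_m5_g1, n_m5_g2⟩, ⟨n_m6_sr, n_m6_pr, n_m6_qr, n_m6_wr, n_m6_g1, n_m6_g2⟩, ⟨n_sr_pr, n_sr_qr, n_sr_wr, n_sr_g1, n_sr_g2⟩, ⟨n_pr_qr, n_pr_wr, n_pr_g1, n_pr_g2⟩, ⟨n_qr_wr, n_qr_g1, n_qr_g2⟩, ⟨n_wr_g1, n_wr_g2⟩, n_g1_g2⟩ := hnd
  have ha' : s.1 < g1.1 ∧ c.1 < g1.1 ∧ q.1 < g1.1 ∧ u.1 < g1.1 ∧ w.1 < g1.1 ∧ p.1 < g1.1 :=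
    ⟨ha _ (by simp), ha _ (by simp), ha _ (by simp), ha _ (by simp), ha _ (by simp),
      ha _ (by simp)⟩
  obtain ⟨as, ac, aq, au, aw, ap⟩ := ha'
  have am1 : m1.1 < g1.1 := ha _ (by simp)
  have am3 : m3.1 < g1.1 := ha _ (by simp)
  have bs : g1.1 < s'.1 := hb _ (by simp)
  have bp : g1.1 < p'.1 := hb _ (by simp)
  have bq : g1.1 < q'.1 := hb _ (by simp)
  have cc : s.2 < c.2 := hc _ (by simp)
  have cq : s.2 < q.2 := hc _ (by simp)
  have cu : s.2 < u.2 := hc _ (by simp)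
  have cp : s.2 < p.2 := hc _ (by simp)
  have dp : p.2 < w.2 := hd _ (by simp)
  have du : u.2 < w.2 := hd _ (by simp)
  have dm1 : m1.2 < w.2 := hd _ (by simp)
  have ds : s.2 < w.2 := hd _ (by simp)
  have fp : s.1 < p.1 := hf _ (by simp)
  have fq : s.1 < q.1 := hf _ (by simp)
  have fu : s.1 < u.1 := hf _ (by simp)
  have fm3 : s.1 < m3.1 := hf _ (by simp)
  have ks : s.1 < c.1 := hk _ (by simp)
  have kp : p.1 < c.1 := hk _ (by simp)
  have kq : q.1 < c.1 := hk _ (by simp)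
  have ku : u.1 < c.1 := hk _ (by simp)
  have km1 : m1.1 < c.1 := hk _ (by simp)
  have km3 : m3.1 < c.1 := hk _ (by simp)
  -- the auxiliary points
  set P1 : Pt := (g1.1, p.2) with hP1
  set S1 : Pt := (g1.1, s.2) with hS1
  set Q1 : Pt := (g1.1, q.2) with hQ1
  have P1m : P1 ∈ segment ℝ p p' := openSegment_subset_segment ℝ p p' (s16_hor_mem e2.symm ap bp)
  have S1m : S1 ∈ segment ℝ s s' := openSegment_subset_segment ℝ s s' (s16_hor_mem e1.symm as bs)
  have Q1m : Q1 ∈ segment ℝ q q' := openSegment_subset_segment ℝ q q' (s16_hor_mem e3.symm aq bq)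
  have P1g : P1 ∈ segment ℝ g1 g2 :=
    openSegment_subset_segment ℝ g1 g2 (s16_ver_mem hg' (by linarith) (by linarith))
  have S1g : S1 ∈ segment ℝ g1 g2 :=
    openSegment_subset_segment ℝ g1 g2 (s16_ver_mem hg' (by linarith) (by linarith))
  have Q1g : Q1 ∈ segment ℝ g1 g2 :=
    openSegment_subset_segment ℝ g1 g2 (s16_ver_mem hg' (by linarith) (by linarith))
  have nP1p : p ≠ P1 := by intro h; rw [h] at ap; exact lt_irrefl _ ap
  have nS1s : S1 ≠ s := by intro h; rw [← h] at as; exact lt_irrefl _ as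
  have nQ1q : q ≠ Q1 := by intro h; rw [h] at aq; exact lt_irrefl _ aq
  have nP1S1 : P1 ≠ S1 := by
    intro h
    have := congrArg Prod.snd h
    simp only [hP1, hS1] at this
    linarith
  have nQ1P1 : Q1 ≠ P1 := by
    intro h
    have := congrArg Prod.snd h
    simp only [hP1, hQ1] at this
    linarith
  -- uncrossed segments and the first polygon
  have polyO : ∀ x y : Pt, D.U x y → (∀ v ∈ [s, m1, p, s', p', g1, g2], x ≠ v ∧ y ≠ v) →
      rrL [s, m1, p, P1, S1, s] x = rrL [s, m1, p, P1, S1, s] y := by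
    intro x y hxy hv
    have v1 := hv s (by simp)
    have v2 := hv m1 (by simp)
    have v3 := hv p (by simp)
    have v4 := hv s' (by simp)
    have v5 := hv p' (by simp)
    have v6 := hv g1 (by simp)
    have v7 := hv g2 (by simp)
    exact s16_eq
      (D.part_gp (Or.inr h1) (left_mem_segment ℝ _ _) (right_mem_segment ℝ _ _) n_s_m1 hxy
        v1.1 v2.1 v1.2 v2.2)
      (D.part_gp (Or.inr h1') (left_mem_segment ℝ _ _) (right_mem_segment ℝ _ _)
        (Ne.symm n_p_m1) hxy v2.1 v3.1 v2.2 v3.2)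
      (D.part_gp (Or.inl r2) (left_mem_segment ℝ _ _) P1m nP1p hxy v3.1 v5.1 v3.2 v5.2)
      (D.part_gp (Or.inl hg) P1g S1g nP1S1 hxy v6.1 v7.1 v6.2 v7.2)
      (D.part_gp (Or.inl r1) S1m (left_mem_segment ℝ _ _) nS1s hxy v1.1 v4.1 v1.2 v4.2)
  have polyO' : ∀ x y : Pt, D.U x y → (∀ v ∈ [p, m3, q, q', g1, g2, p'], x ≠ v ∧ y ≠ v) →
      rrL [p, m3, q, Q1, P1, p] x = rrL [p, m3, q, Q1, P1, p] y := by
    intro x y hxy hv
    have v1 := hv p (by simp)
    have v2 := hv m3 (by simp)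
    have v3 := hv q (by simp)
    have v4 := hv q' (by simp)
    have v5 := hv p' (by simp)
    have v6 := hv g1 (by simp)
    have v7 := hv g2 (by simp)
    exact s16_eq
      (D.part_gp (Or.inr h3) (left_mem_segment ℝ _ _) (right_mem_segment ℝ _ _) n_p_m3 hxy
        v1.1 v2.1 v1.2 v2.2)
      (D.part_gp (Or.inr h3') (left_mem_segment ℝ _ _) (right_mem_segment ℝ _ _)
        (Ne.symm n_q_m3) hxy v2.1 v3.1 v2.2 v3.2)
      (D.part_gp (Or.inl r3) (left_mem_segment ℝ _ _) Q1m nQ1q hxy v3.1 v4.1 v3.2 v4.2)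
      (D.part_gp (Or.inl hg) Q1g P1g nQ1P1 hxy v6.1 v7.1 v6.2 v7.2)
      (D.part_gp (Or.inl r2) P1m (left_mem_segment ℝ _ _) nP1p.symm hxy v1.1 v5.1 v1.2 v5.2)
  -- `w` is outside, hence `u`
  have Ow : rrL [s, m1, p, P1, S1, s] w = 0 := by
    rw [s16_rrL, s16_rr_above ds dm1, s16_rr_above dm1 dp, s16_rr_above dp (by exact dp),
      s16_rr_above (by exact dp) (by exact ds), s16_rr_above (by exact ds) ds]
    simp
  have Ou : rrL [s, m1, p, P1, S1, s] u = 0 := by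
    rw [polyO u m6 h6 ?_, polyO m6 w h6' ?_, Ow]
    · simp only [List.mem_cons, List.not_mem_nil, or_false, forall_eq_or_imp, forall_eq]
      refine ⟨⟨?_, ?_⟩, ⟨?_, ?_⟩, ⟨?_, ?_⟩, ⟨?_, ?_⟩, ⟨?_, ?_⟩, ⟨?_, ?_⟩, ⟨?_, ?_⟩⟩ <;>
        first | assumption | (apply Ne.symm; assumption)
    · simp only [List.mem_cons, List.not_mem_nil, or_false, forall_eq_or_imp, forall_eq]
      refine ⟨⟨?_, ?_⟩, ⟨?_, ?_⟩, ⟨?_, ?_⟩, ⟨?_, ?_⟩, ⟨?_, ?_⟩, ⟨?_, ?_⟩, ⟨?_, ?_⟩⟩ <;>
        first | assumption | (apply Ne.symm; assumption)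
  -- `q` is inside
  have Oq : rrL [s, m1, p, P1, S1, s] q = 1 := by
    have w1 := s16_symm (D.part_gp (Or.inl r3) (left_mem_segment ℝ _ _) (right_mem_segment ℝ _ _)
      n_q_qr h1 (by assumption) (by assumption) (Ne.symm (by assumption)) (by assumption))
    have w2 := s16_symm (D.part_gp (Or.inl r3) (left_mem_segment ℝ _ _) (right_mem_segment ℝ _ _)
      n_q_qr h1' (Ne.symm (by assumption)) (by assumption) (Ne.symm (by assumption)) (by assumption))
    have w3 : GP4 q q' p P1 ∧ ¬ Cross q q' p P1 := gp_hor_far e3.symm n_q_qr nP1p (Or.inr ⟨hy, hy⟩)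
    have w4 : GP4 q q' P1 S1 ∧ Cross q q' P1 S1 := by
      have := gp_hor_ver (x := q) (y := q') (e := S1) (f := P1) e3.symm rfl aq bq cq hy
      refine ⟨this.1.symm.swap.symm, ?_⟩
      obtain ⟨z, z1, z2⟩ := this.2
      rw [openSegment_symm] at z2
      exact ⟨z, z1, z2⟩
    have w5 : GP4 q q' S1 s ∧ ¬ Cross q q' S1 s := gp_hor_far e3.symm n_q_qr nS1s (Or.inl ⟨cq, cq⟩)
    have h := s16_cl w1.1 w2.1 w3.1 w4.1 w5.1
    rw [s16_cr_zero w1.2, s16_cr_zero w2.2, s16_cr_zero w3.2, s16_cr_one w4.2,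
      s16_cr_zero w5.2] at h
    have hq' : rrL [s, m1, p, P1, S1, s] q' = 0 := by
      have y1 : rr s m1 q' = 0 := rr_right (by linarith) (by linarith)
      have y2 : rr m1 p q' = 0 := rr_right (by linarith) (by linarith)
      have y3 : rr p P1 q' = 0 := rr_right (by linarith) bq
      have y4 : rr P1 S1 q' = 0 := rr_right bq bq
      have y5 : rr S1 s q' = 0 := rr_right bq (by linarith)
      rw [s16_rrL, y1, y2, y3, y4, y5]
      simp
    rw [hq'] at h
    simpa using h.symm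
  -- the edge `q u` crosses the ray of `p`
  have hcr : Cross q u p p' := by
    by_contra hno
    have w1 := s16_symm (D.part_gp (Or.inl l3) (left_mem_segment ℝ _ _) (right_mem_segment ℝ _ _)
      n_q_u h1 (by assumption) (by assumption) (Ne.symm (by assumption)) (Ne.symm (by assumption)))
    have w2 := s16_symm (D.part_gp (Or.inl l3) (left_mem_segment ℝ _ _) (right_mem_segment ℝ _ _)
      n_q_u h1' (Ne.symm (by assumption)) (Ne.symm (by assumption)) (Ne.symm (by assumption))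
      (Ne.symm (by assumption)))
    have w3 : GP4 q u p P1 ∧ ¬ Cross q u p P1 :=
      D.part_gp' (Or.inl r2) (left_mem_segment ℝ _ _) P1m nP1p (Or.inl l3) n_q_p n_q_pr n_u_p n_u_pr
        hno
    have w4 : GP4 q u P1 S1 ∧ ¬ Cross q u P1 S1 := s16_ver_far rfl n_q_u nP1S1 aq au
    have w5 : GP4 q u S1 s ∧ ¬ Cross q u S1 s :=
      s16_symm (gp_hor_far rfl nS1s n_q_u (Or.inr ⟨cq, cu⟩))
    have h := s16_eq w1 w2 w3 w4 w5
    rw [Oq, Ou] at h
    exact one_ne_zero h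
  obtain ⟨hqu, hpu, hpq⟩ : q.1 = u.1 ∧ p.2 < u.2 ∧ p.1 < q.1 := by
    have hs : s(q, u) ≠ s(p, p') := by
      intro hh
      rcases Sym2.eq_iff.1 hh with h | h
      · exact n_q_p h.1
      · exact n_q_pr h.1
    rcases D.cross l3 r2 hs hcr with ⟨_, h7⟩ | ⟨h7, h8⟩
    · exfalso
      have : p.1 = p'.1 := h7
      linarith
    · have h7' : q.1 = u.1 := h7
      obtain ⟨z, ⟨α, β, hα, hβ, hαβ, rfl⟩, ⟨α', β', hα', hβ', hαβ', hz⟩⟩ := hcr
      have z1 := congrArg Prod.fst hz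
      have z2 := congrArg Prod.snd hz
      simp only [Prod.fst_add, Prod.snd_add, Prod.smul_fst, Prod.smul_snd, smul_eq_mul] at z1 z2
      have hα1 : α = 1 - β := by linarith
      have hα1' : α' = 1 - β' := by linarith
      subst hα1
      subst hα1'
      rw [e2] at z2
      rw [← h7'] at z1
      have z1' : p.1 + β' * (p'.1 - p.1) = q.1 := by linarith
      have z2' : p.2 = q.2 + β * (u.2 - q.2) := by linarith
      refine ⟨h7', ?_, ?_⟩
      · have a1 : 0 < β * (u.2 - q.2) := by linarith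
        have a2 : 0 < u.2 - q.2 := (mul_pos_iff_of_pos_left hβ).1 a1
        have a3 : 0 < (1 - β) * (u.2 - q.2) := mul_pos hα a2
        linarith
      · have a1 : 0 < β' * (p'.1 - p.1) := mul_pos hβ' (by linarith)
        linarith
  -- `c` is inside `O`
  have Oc : rrL [s, m1, p, P1, S1, s] c = 1 := by
    rw [← polyO m4 c h4' ?_, ← polyO q m4 h4 ?_, Oq]
    · simp only [List.mem_cons, List.not_mem_nil, or_false, forall_eq_or_imp, forall_eq]
      refine ⟨⟨?_, ?_⟩, ⟨?_, ?_⟩, ⟨?_, ?_⟩, ⟨?_, ?_⟩, ⟨?_, ?_⟩, ⟨?_, ?_⟩, ⟨?_, ?_⟩⟩ <;>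
        first | assumption | (apply Ne.symm; assumption)
    · simp only [List.mem_cons, List.not_mem_nil, or_false, forall_eq_or_imp, forall_eq]
      refine ⟨⟨?_, ?_⟩, ⟨?_, ?_⟩, ⟨?_, ?_⟩, ⟨?_, ?_⟩, ⟨?_, ?_⟩, ⟨?_, ?_⟩, ⟨?_, ?_⟩⟩ <;>
        first | assumption | (apply Ne.symm; assumption)
  have hcp : c.2 < p.2 := by
    by_contra hcon
    push Not at hcon
    rcases hcon.lt_or_eq with h | h
    · have y3 : rr p P1 c = 0 := rr_hor_zero rfl h
      have y4 : rr P1 S1 c = 0 := rr_left ac ac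
      have y5 : rr S1 s c = 0 := rr_hor_zero rfl cc
      rw [s16_rrL, rr_right ks km1, rr_right km1 kp, y3, y4, y5] at Oc
      simp at Oc
    · refine D.nv (Or.inl r2) (D.LP l2).2.1 (Ne.symm n_c_p |>.symm) n_c_pr ?_
      have := openSegment_subset_segment ℝ p p' (s16_hor_mem (t := c.1) e2.symm kp (by linarith))
      rw [h] at this
      exact this
  -- `c` is outside `O'`
  have O's : rrL [p, m3, q, Q1, P1, p] s = 0 := by
    rw [s16_rrL, rr_left fp fm3, rr_left fm3 fq, rr_left fq (by exact as),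
      rr_left (by exact as) (by exact as), rr_left (by exact as) fp]
    simp
  have O'c : rrL [p, m3, q, Q1, P1, p] c = 0 := by
    rw [← polyO' m5 c h5' ?_, ← polyO' s m5 h5 ?_, O's]
    · simp only [List.mem_cons, List.not_mem_nil, or_false, forall_eq_or_imp, forall_eq]
      refine ⟨⟨?_, ?_⟩, ⟨?_, ?_⟩, ⟨?_, ?_⟩, ⟨?_, ?_⟩, ⟨?_, ?_⟩, ⟨?_, ?_⟩, ⟨?_, ?_⟩⟩ <;>
        first | assumption | (apply Ne.symm; assumption)
    · simp only [List.mem_cons, List.not_mem_nil, or_false, forall_eq_or_imp, forall_eq]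
      refine ⟨⟨?_, ?_⟩, ⟨?_, ?_⟩, ⟨?_, ?_⟩, ⟨?_, ?_⟩, ⟨?_, ?_⟩, ⟨?_, ?_⟩, ⟨?_, ?_⟩⟩ <;>
        first | assumption | (apply Ne.symm; assumption)
  have hcq : c.2 < q.2 := by
    by_contra hcon
    push Not at hcon
    rcases hcon.lt_or_eq with h | h
    · have y3 : rr q Q1 c = 0 := rr_hor_zero rfl h
      have y4 : rr Q1 P1 c = 0 := rr_left ac ac
      have y5 : rr P1 p c = 1 := by rw [rr_comm]; exact rr_hor_one rfl kp ac hcp
      rw [s16_rrL, rr_right kp km3, rr_right km3 kq, y3, y4, y5] at O'c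
      simp at O'c
    · refine D.nv (Or.inl r3) (D.LP l2).2.1 n_c_q n_c_qr ?_
      have := openSegment_subset_segment ℝ q q' (s16_hor_mem (t := c.1) e3.symm kq (by linarith))
      rw [h] at this
      exact this
  -- the levers
  have L1 := s16_lever D l1 r2 e2 fu (by rw [min_eq_left cu.le]; exact cp)
    (by rw [max_eq_right cu.le]; exact hpu) (by linarith) (by linarith) (Ne.symm n_s_p)
    (Ne.symm n_u_p) (Ne.symm n_s_pr) (Ne.symm n_u_pr)
  rw [abs_of_pos (by linarith), abs_of_pos (by linarith)] at L1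
  have L2 := s16_lever D l2 r3 e3 kp (by rw [min_eq_right hcp.le]; exact hcq)
    (by rw [max_eq_left hcp.le]; exact hy) (by linarith) (by linarith) n_q_p
    (Ne.symm n_c_q) (Ne.symm n_p_qr) (Ne.symm n_c_qr)
  rw [abs_of_neg (by linarith), abs_of_neg (by linarith)] at L2
  refine ⟨hqu, ?_⟩
  have fin := s16_alg (u.1 - s.1) (p.2 - s.2) (p.1 - s.1) (u.2 - s.2) (q.2 - s.2) (c.1 - s.1)
    (c.2 - s.2) (w.2 - s.2) L1 (by rw [← hqu]; linarith) (by linarith) (by linarith) (by linarith)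
    (by linarith) (by linarith) (by linarith) (by linarith)
  linarith

end Pool.Agent.H54R
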