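import Pool.Agent.Lib.H54R.FDefs
import Pool.Agent.Lib.H54R.S9
import Pool.Agent.Lib.H54R.S10
import Pool.Agent.Lib.H54R.S11
import Pool.Agent.Lib.H54R.S12
import Pool.Agent.Lib.H54R.S12R
import Pool.Agent.Lib.H54R.S13
import Pool.Agent.Lib.H54R.S16
import Pool.Agent.Lib.H54R.FL1
import Pool.Agent.Lib.H54R.FL3
import Pool.Agent.Lib.H54R.F1
import Pool.Agent.Lib.H54R.F2

/-!
# F3: the gate AB
-/

set_option autoImplicit false

namespace Pool.Agent.H54R

open RS

variable {S : RS} {h : S.WF}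

/-! ## General lemmas (also used for the rotated gate) -/

theorem f3_pR {N : Net} {D : ND N} (hD : Norm D) {b : ℕ × ℕ} {c k : ℕ} (hb : N.inB b c)
    (hk : k ≤ 4 * N.M) (hl : N.li (.blk b c) (.R k)) :
    D.xc (4 * N.col b + 4) < (D.p (.R k)).1 := by
  have hc : N.col b < N.N := N.col_lt hb
  have hj : N.col b + 1 ≤ N.N := hc
  have hcell := hD.cell (b := b) (c := c) hb
  have e4 : 4 * N.col b + 4 = 4 * (N.col b + 1) := by ring
  have h2 : (D.p (.blk b c)).1 < D.xc (4 * (N.col b + 1)) := by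
    rw [← e4]
    exact hcell.2.1
  have hvb : N.isV (.blk b c) := hb
  have hvR : N.isV (.R k) := hk
  have hLt : D.Lt (D.p (.blk b c)) (D.p (.R k)) := D.Lt_of hvb hvR hl
  have hcr := D.side_long hj hLt (D.not_mem_gam (s8_cpl hj) hvb (s8_blk _ _ b c))
    (D.not_mem_gam (s8_cpl hj) hvR (s8_R _ _ k)) (by
      rw [hD.side_left hj (b := b) (c := c) hb (Nat.lt_succ_self _),
        D.side_R (s8_cpl hj) hvR]
      decide)
  have hw := s11_wire hD hj
  rw [e4]
  rcases s11_cross_btw hw.1 hw.2 hcr with a | a | a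
  · exact a.2
  · linarith [a.2]
  · linarith [a.1]

theorem f3_pL {N : Net} {D : ND N} (hD : Norm D) {b : ℕ × ℕ} {c k : ℕ} (hb : N.inB b c)
    (hk : k ≤ 4 * N.M) (hl : N.li (.blk b c) (.L k)) :
    (D.p (.L k)).1 < D.xc (4 * N.col b) := by
  have hc : N.col b < N.N := N.col_lt hb
  have hj : N.col b ≤ N.N := hc.le
  have hcell := hD.cell (b := b) (c := c) hb
  have h2 : D.xc (4 * N.col b) < (D.p (.blk b c)).1 := hcell.1
  have hvb : N.isV (.blk b c) := hb
  have hvR : N.isV (.L k) := hk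
  have hLt : D.Lt (D.p (.blk b c)) (D.p (.L k)) := D.Lt_of hvb hvR hl
  have hcr := D.side_long hj hLt (D.not_mem_gam (s8_cpl hj) hvb (s8_blk _ _ b c))
    (D.not_mem_gam (s8_cpl hj) hvR (s8_L _ _ k)) (by
      rw [hD.side_right (j := N.col b) (b := b) (c := c) hb le_rfl,
        D.side_L (s8_cpl hj) hvR]
      decide)
  have hw := s11_wire hD hj
  rcases s11_cross_btw hw.1 hw.2 hcr with a | a | a
  · linarith [a.1]
  · exact a.1
  · linarith [a.1]

theorem f3_pB {N : Net} {D : ND N} (hD : Norm D) {b : ℕ × ℕ} {c k : ℕ} (hb : N.inB b c)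
    (hk : k ≤ 4 * N.N) (hl : N.li (.blk b c) (.B k)) :
    (D.p (.B k)).2 < D.yc (4 * N.row b) :=
  f3_pL (N := N.trN) (D := D.trD) hD.trD hb hk hl

theorem f3_pT {N : Net} {D : ND N} (hD : Norm D) {b : ℕ × ℕ} {c k : ℕ} (hb : N.inB b c)
    (hk : k ≤ 4 * N.N) (hl : N.li (.blk b c) (.T k)) :
    D.yc (4 * N.row b + 4) < (D.p (.T k)).2 :=
  f3_pR (N := N.trN) (D := D.trD) hD.trD hb hk hl

theorem f3_xle {N : Net} {D : ND N} (hD : Norm D) {a b : ℕ} (hab : a ≤ b) (hb : b ≤ N.N) :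
    D.xc (4 * a) ≤ D.xc (4 * b) := by
  rcases hab.eq_or_lt with rfl | hlt
  · exact le_rfl
  · exact (hD.xc_lt (s8_cpl (by omega)) (s8_cpl hb) (by omega)).le

theorem f3_yle {N : Net} {D : ND N} (hD : Norm D) {a b : ℕ} (hab : a ≤ b) (hb : b ≤ N.M) :
    D.yc (4 * a) ≤ D.yc (4 * b) :=
  f3_xle (N := N.trN) (D := D.trD) hD.trD hab hb

/-- a long column wire, with its ends in the right order -/
theorem f3_wire {N : Net} {D : ND N} (hD : Norm D) {i j : ℕ} (hi : i < N.M) (hj : j ≤ N.N) :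
    ∃ G1 G2 : Vx, ((G1 = .B (4 * j) ∧ G2 = .T (4 * j)) ∨ (G1 = .T (4 * j) ∧ G2 = .B (4 * j))) ∧
      D.Lt (D.p G1) (D.p G2) ∧ (D.p G1).1 = D.xc (4 * j) ∧ (D.p G2).1 = D.xc (4 * j) ∧
      (D.p G1).2 < D.yc (4 * i) ∧ D.yc (4 * i + 4) < (D.p G2).2 := by
  have m1 := s11_meet_col hD (i := i) (j := j) hi.le hj
  have m2 := s11_meet_col hD (i := i + 1) (j := j) hi hj
  have hlt : D.yc (4 * i) < D.yc (4 * (i + 1)) :=
    hD.yc_lt (s8_cpl hi.le) (s8_cpl hi) (by omega)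
  have e4 : 4 * i + 4 = 4 * (i + 1) := by ring
  have hw := s11_wire hD hj
  have hL := s8_wire D hj
  obtain ⟨s, t, hs, ht, hst, z1, z2⟩ := s10_open m1
  obtain ⟨s', t', hs', ht', hst', z1', z2'⟩ := s10_open m2
  simp only at z2 z2'
  rw [e4]
  rcases lt_trichotomy (D.p (.B (4 * j))).2 (D.p (.T (4 * j))).2 with c | c | c
  · refine ⟨.B (4 * j), .T (4 * j), Or.inl ⟨rfl, rfl⟩, hL, hw.1, hw.2, ?_, ?_⟩
    · rw [z2]
      have : s = 1 - t := by linarith
      subst this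
      nlinarith
    · rw [z2']
      have : t' = 1 - s' := by linarith
      subst this
      nlinarith
  · exfalso
    rw [← c, ← add_mul, hst, one_mul] at z2
    rw [← c, ← add_mul, hst', one_mul] at z2'
    linarith
  · refine ⟨.T (4 * j), .B (4 * j), Or.inr ⟨rfl, rfl⟩, D.Lsymm hL, hw.2, hw.1, ?_, ?_⟩
    · rw [z2]
      have : t = 1 - s := by linarith
      subst this
      nlinarith
    · rw [z2']
      have : s' = 1 - t' := by linarith
      subst this
      nlinarith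

theorem f3_nodup {N : Net} (D : ND N) (V W : List Vx) (E : List (Vx × Vx))
    (hV : ∀ v ∈ V ++ W, N.isV v) (hE : ∀ e ∈ E, N.isV e.1 ∧ N.isV e.2 ∧ N.hv e.1 e.2)
    (n1 : (V ++ W).Nodup) (n2 : E.Pairwise fun e f => s(e.1, e.2) ≠ s(f.1, f.2)) :
    (V.map D.p ++ (E.map (fun e => D.m e.1 e.2) ++ W.map D.p)).Nodup := by
  rw [List.nodup_append] at n1
  obtain ⟨n3, n4, n5⟩ := n1
  have inj : ∀ l : List Vx, (∀ v ∈ l, N.isV v) → l.Nodup → (l.map D.p).Nodup := by
    intro l hl hn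
    refine List.Nodup.map_on (fun x hx y hy e => D.pinj (hl x hx) (hl y hy) e) hn
  have hV1 : ∀ v ∈ V, N.isV v := fun v hv => hV v (List.mem_append_left _ hv)
  have hV2 : ∀ v ∈ W, N.isV v := fun v hv => hV v (List.mem_append_right _ hv)
  have nE : (E.map fun e => D.m e.1 e.2).Nodup := by
    unfold List.Nodup
    rw [List.pairwise_map]
    refine n2.imp_of_mem ?_
    intro e f he hf hne heq
    obtain ⟨a1, a2, a3⟩ := hE e he
    obtain ⟨b1, b2, b3⟩ := hE f hf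
    exact hne (D.minj a1 a2 b1 b2 a3 b3 heq)
  rw [List.nodup_append]
  refine ⟨inj V hV1 n3, ?_, ?_⟩
  · rw [List.nodup_append]
    refine ⟨nE, inj W hV2 n4, ?_⟩
    intro a ha b hb hab
    obtain ⟨e, he, rfl⟩ := List.mem_map.1 ha
    obtain ⟨w, hw, rfl⟩ := List.mem_map.1 hb
    obtain ⟨a1, a2, a3⟩ := hE e he
    exact D.mp a1 a2 a3 (hV2 w hw) hab
  · intro a ha b hb hab
    obtain ⟨v, hv, rfl⟩ := List.mem_map.1 ha
    rcases List.mem_append.1 hb with hb | hb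
    · obtain ⟨e, he, rfl⟩ := List.mem_map.1 hb
      obtain ⟨a1, a2, a3⟩ := hE e he
      exact D.mp a1 a2 a3 (hV1 v hv) hab.symm
    · obtain ⟨w, hw, rfl⟩ := List.mem_map.1 hb
      exact n5 v hv w hw (D.pinj (hV1 v hv) (hV2 w hw) hab)

/-- the middle point of a heavy edge whose first end is strictly on one side -/
theorem f3_mid_lt {N : Net} {D : ND N} (h : Norm D) {k : ℕ} (hk : Cpl N.N k) {b : ℕ × ℕ}
    {c c' : ℕ} (hb : N.inB b c) (hb' : N.inB b c') (hv : N.hv (.blk b c) (.blk b c'))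
    (hc : (b, c) ∉ N.ci k) (hlt : (D.p (.blk b c)).1 < D.xc k) :
    (D.m (.blk b c) (.blk b c')).1 < D.xc k := by
  have u1 := D.U1 (a := .blk b c) (b := .blk b c') hb hb' hv
  exact h.lt_xc hk (N.row_lt hb) u1 (h.cell hb) (h.cell_m hb hb' hv)
    (s12_not_mem (D := D) hk hb hc) (s12_m_not_mem (D := D) hk hb hb' hv) hlt

theorem f3_mid_gt {N : Net} {D : ND N} (h : Norm D) {k : ℕ} (hk : Cpl N.N k) {b : ℕ × ℕ}
    {c c' : ℕ} (hb : N.inB b c) (hb' : N.inB b c') (hv : N.hv (.blk b c) (.blk b c'))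
    (hc : (b, c) ∉ N.ci k) (hlt : D.xc k < (D.p (.blk b c)).1) :
    D.xc k < (D.m (.blk b c) (.blk b c')).1 := by
  have u1 := D.U1 (a := .blk b c) (b := .blk b c') hb hb' hv
  exact s12_gt_xc h hk (N.row_lt hb) u1 (h.cell hb) (h.cell_m hb hb' hv)
    (s12_not_mem (D := D) hk hb hc) (s12_m_not_mem (D := D) hk hb hb' hv) hlt

theorem f3_rmid_lt {N : Net} {D : ND N} (h : Norm D) {k : ℕ} (hk : Cpl N.M k) {b : ℕ × ℕ}
    {c c' : ℕ} (hb : N.inB b c) (hb' : N.inB b c') (hv : N.hv (.blk b c) (.blk b c'))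
    (hc : (b, c) ∉ N.ri k) (hlt : (D.p (.blk b c)).2 < D.yc k) :
    (D.m (.blk b c) (.blk b c')).2 < D.yc k :=
  f3_mid_lt (N := N.trN) (D := D.trD) h.trD hk hb hb' hv hc hlt

theorem f3_rmid_gt {N : Net} {D : ND N} (h : Norm D) {k : ℕ} (hk : Cpl N.M k) {b : ℕ × ℕ}
    {c c' : ℕ} (hb : N.inB b c) (hb' : N.inB b c') (hv : N.hv (.blk b c) (.blk b c'))
    (hc : (b, c) ∉ N.ri k) (hlt : D.yc k < (D.p (.blk b c)).2) :
    D.yc k < (D.m (.blk b c) (.blk b c')).2 :=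
  f3_mid_gt (N := N.trN) (D := D.trD) h.trD hk hb hb' hv hc hlt

/-- `PD.gate` for the block `(2, l)` in the cell `(low (loA l), l)`: `s, c, q, u, w, p` are the vertices
`0, 1, 2, 3, 4, 5`, the middle points of the heavy edges, `s' = R (4 i + 1)`, `p' = t`, `q' = s`,
`w' = v` of the block `(0, loA l)`, and the wire from `B (4 l + 4)` to `T (4 l + 4)`. The middle points
are in the cell (`Norm.cell_m`) and on the right sides of the lines (`Norm.rmid_gt`, `Norm.rmid_lt`,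
`Norm.mid_lt`, `PD.two_ver_gt`). -/
theorem f3_AB {D : ND (S.net h)} (hD : Norm D) {l : ℕ} (hl : l < 2 * S.K) :
    D.X (2, l) 2 = D.X (2, l) 3 ∧
      D.lv (S.loA l) < (D.X (2, l) 3 - D.X (2, l) 0) / (D.xc (4 * l + 3) - D.X (2, l) 0) := by
  have ha := loA_lt h hl
  have hi : S.low (S.loA l) < S.MM := low_lt h ha
  have hlN : l < S.NN := by
    have := bcol_lt h (b := (2, l)) (c := 0) (Or.inr ⟨by simp, by simp, hl, by simp⟩)
    simpa [bcol] using this
  have bb : ∀ c < 6, S.binB (2, l) c := fun c hc => Or.inr ⟨by simp, by simp, hl, hc⟩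
  have ba : ∀ c < 3, S.binB (0, S.loA l) c := fun c hc => Or.inl ⟨by simp, ha, hc⟩
  have vb : ∀ c < 6, (S.net h).isV (.blk (2, l) c) := fun c hc => bb c hc
  have va : ∀ c < 3, (S.net h).isV (.blk (0, S.loA l) c) := fun c hc => ba c hc
  obtain ⟨v05, v53, v52, v21, v01, v34⟩ := hv_link h hl (g := 2) (by simp) (by simp)
  obtain ⟨lv03, lv51⟩ := li_lever' h hl (g := 2) (by simp) (by simp)
  have C1 : Cpl (S.net h).M (4 * S.low (S.loA l) + 1) :=
    ⟨show 4 * S.low (S.loA l) + 1 ≤ 4 * S.MM by omega, by omega⟩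
  have C3 : Cpl (S.net h).M (4 * S.low (S.loA l) + 3) :=
    ⟨show 4 * S.low (S.loA l) + 3 ≤ 4 * S.MM by omega, by omega⟩
  have K3 : Cpl (S.net h).N (4 * l + 3) := ⟨show 4 * l + 3 ≤ 4 * S.NN by omega, by omega⟩
  have hb1 : (S.net h).ri (4 * S.low (S.loA l) + 1) = [((2, l), 0)] := bri_loA1 h hl
  have hb3 : (S.net h).ri (4 * S.low (S.loA l) + 3) = [((2, l), 4), ((0, S.loA l), 2)] :=
    bri_loA3 h hl
  have hc3 : (S.net h).ci (4 * l + 3) = [((2, l), 1), ((3, l), 4)] := bci_left3 hl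
  obtain ⟨x1, x2, x3, x4, x5, x6⟩ := f1_cols hD hl
  obtain ⟨y1, y2, y3, y4, y5, y6⟩ := f1_rows hD hl
  obtain ⟨hAr1, hAr2⟩ := f1_AB_rows hD hl
  obtain ⟨hAc1, hAc2⟩ := f1_AB_cols hD hl
  obtain ⟨lL1, lR1, lqs, lsR, lpt, lwv⟩ := li_loA h hl
  obtain ⟨lBs, lsq, lqu, lup, lB1, lcw⟩ := li_left h hl
  obtain ⟨-, hf2, -, -, -⟩ := f2_low hD ha
  have cellb : ∀ c < 6, D.Cell (S.low (S.loA l)) l (D.p (.blk (2, l) c)) := by
    intro c hc
    have := hD.cell (b := (2, l)) (c := c) (bb c hc)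
    have e1 : (S.net h).row (2, l) = S.low (S.loA l) := by
      show S.brow (2, l) = _
      simp [brow]
    have e2 : (S.net h).col (2, l) = l := by
      show S.bcol (2, l) = _
      simp [bcol]
    rwa [e1, e2] at this
  have cellm : ∀ c < 6, ∀ c' < 6, S.hv (.blk (2, l) c) (.blk (2, l) c') →
      D.Cell (S.low (S.loA l)) l (D.m (.blk (2, l) c) (.blk (2, l) c')) := by
    intro c hc c' hc' hv
    have := hD.cell_m (b := (2, l)) (c := c) (c' := c') (bb c hc) (bb c' hc') hv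
    have e1 : (S.net h).row (2, l) = S.low (S.loA l) := by
      show S.brow (2, l) = _
      simp [brow]
    have e2 : (S.net h).col (2, l) = l := by
      show S.bcol (2, l) = _
      simp [bcol]
    rwa [e1, e2] at this
  have vR : (S.net h).isV (.R (4 * S.low (S.loA l) + 1)) :=
    show 4 * S.low (S.loA l) + 1 ≤ 4 * S.MM by omega
  obtain ⟨G1, G2, hG, hGL, hG1, hG2, hGy1, hGy2⟩ :=
    f3_wire hD (i := S.low (S.loA l)) (j := l + 1) hi (show l + 1 ≤ S.NN by omega)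
  have vG1 : (S.net h).isV G1 := by
    rcases hG with ⟨rfl, rfl⟩ | ⟨rfl, rfl⟩
    · exact show 4 * (l + 1) ≤ 4 * S.NN by omega
    · exact show 4 * (l + 1) ≤ 4 * S.NN by omega
  have vG2 : (S.net h).isV G2 := by
    rcases hG with ⟨rfl, rfl⟩ | ⟨rfl, rfl⟩
    · exact show 4 * (l + 1) ≤ 4 * S.NN by omega
    · exact show 4 * (l + 1) ≤ 4 * S.NN by omega
  -- nodup
  have hnd := f3_nodup D
    [.blk (2, l) 0, .blk (2, l) 1, .blk (2, l) 2, .blk (2, l) 3, .blk (2, l) 4, .blk (2, l) 5]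
    [.R (4 * S.low (S.loA l) + 1), .blk (0, S.loA l) 1, .blk (0, S.loA l) 0,
      .blk (0, S.loA l) 2, G1, G2]
    [(.blk (2, l) 0, .blk (2, l) 5), (.blk (2, l) 5, .blk (2, l) 3),
      (.blk (2, l) 5, .blk (2, l) 2), (.blk (2, l) 2, .blk (2, l) 1),
      (.blk (2, l) 0, .blk (2, l) 1), (.blk (2, l) 3, .blk (2, l) 4)]
    (by
      simp only [List.mem_append, List.mem_cons, List.not_mem_nil, or_false, or_imp, forall_and,
        forall_eq]
      exact ⟨⟨vb 0 (by simp), vb 1 (by simp), vb 2 (by simp), vb 3 (by simp), vb 4 (by simp),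
        vb 5 (by simp)⟩, vR, va 1 (by simp), va 0 (by simp), va 2 (by simp), vG1, vG2⟩)
    (by
      simp only [List.mem_cons, List.not_mem_nil, or_false, forall_eq_or_imp, forall_eq]
      exact ⟨⟨vb 0 (by simp), vb 5 (by simp), v05⟩, ⟨vb 5 (by simp), vb 3 (by simp), v53⟩,
        ⟨vb 5 (by simp), vb 2 (by simp), v52⟩, ⟨vb 2 (by simp), vb 1 (by simp), v21⟩,
        ⟨vb 0 (by simp), vb 1 (by simp), v01⟩, ⟨vb 3 (by simp), vb 4 (by simp), v34⟩⟩)
    (by
      rcases hG with ⟨rfl, rfl⟩ | ⟨rfl, rfl⟩ <;> simp)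
    (by simp)
  have U1 : ∀ {c c' : ℕ}, c < 6 → c' < 6 → S.hv (.blk (2, l) c) (.blk (2, l) c') →
      D.U (D.p (.blk (2, l) c)) (D.m (.blk (2, l) c) (.blk (2, l) c')) :=
    fun hc hc' hv => D.U1 (vb _ hc) (vb _ hc') hv
  have U2 : ∀ {c c' : ℕ}, c < 6 → c' < 6 → S.hv (.blk (2, l) c) (.blk (2, l) c') →
      D.U (D.m (.blk (2, l) c) (.blk (2, l) c')) (D.p (.blk (2, l) c')) :=
    fun hc hc' hv => D.U2 (vb _ hc) (vb _ hc') hv
  -- B_i
  have Ys : (D.p (.blk (2, l) 0)).2 = D.yc (4 * S.low (S.loA l) + 1) := y5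
  have Yw : (D.p (.blk (2, l) 4)).2 = D.yc (4 * S.low (S.loA l) + 3) := y4
  have Xc : (D.p (.blk (2, l) 1)).1 = D.xc (4 * l + 3) := x3
  have g1 : ∀ {c c' : ℕ}, c < 6 → c' < 6 → c' ≠ 0 → S.hv (.blk (2, l) c) (.blk (2, l) c') →
      (D.p (.blk (2, l) 0)).2 < (D.m (.blk (2, l) c) (.blk (2, l) c')).2 := by
    intro c c' hc hc' h0 hv
    rw [Ys]
    refine hD.rmid_gt C1 (bb c hc) (bb c' hc') hv ?_ ?_
    · rw [hb1]
      simp [h0]
    · refine hAr1 c' ?_
      have : c' = 1 ∨ c' = 2 ∨ c' = 3 ∨ c' = 4 ∨ c' = 5 := by omega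
      simpa using this
  have g3 : ∀ {c c' : ℕ}, c < 6 → c' < 6 → c' ≠ 4 → S.hv (.blk (2, l) c) (.blk (2, l) c') →
      (D.m (.blk (2, l) c) (.blk (2, l) c')).2 < (D.p (.blk (2, l) 4)).2 := by
    intro c c' hc hc' h0 hv
    rw [Yw]
    refine hD.rmid_lt C3 (bb c hc) (bb c' hc') hv ?_ ?_
    · rw [hb3]
      simp [h0]
    · refine hAr2 c' ?_
      have : c' = 0 ∨ c' = 1 ∨ c' = 2 ∨ c' = 3 ∨ c' = 5 := by omega
      simpa using this
  have g3' : ∀ {c c' : ℕ}, c < 6 → c' < 6 → c ≠ 4 → S.hv (.blk (2, l) c) (.blk (2, l) c') →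
      (D.m (.blk (2, l) c) (.blk (2, l) c')).2 < (D.p (.blk (2, l) 4)).2 := by
    intro c c' hc hc' h0 hv
    rw [Yw]
    refine f3_rmid_lt hD C3 (bb c hc) (bb c' hc') hv ?_ ?_
    · rw [hb3]
      simp [h0]
    · refine hAr2 c ?_
      have : c = 0 ∨ c = 1 ∨ c = 2 ∨ c = 3 ∨ c = 5 := by omega
      simpa using this
  have gk : ∀ {c c' : ℕ}, c < 6 → c' < 6 → c' ≠ 1 → S.hv (.blk (2, l) c) (.blk (2, l) c') →
      (D.m (.blk (2, l) c) (.blk (2, l) c')).1 < (D.p (.blk (2, l) 1)).1 := by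
    intro c c' hc hc' h0 hv
    rw [Xc]
    refine hD.mid_lt K3 (bb c hc) (bb c' hc') hv ?_ ?_
    · rw [hc3]
      simp [h0]
    · rw [← Xc]
      refine hAc2 c' ?_
      have : c' = 0 ∨ c' = 2 ∨ c' = 3 ∨ c' = 4 ∨ c' = 5 := by omega
      simpa using this
  have gk' : ∀ {c c' : ℕ}, c < 6 → c' < 6 → c ≠ 1 → S.hv (.blk (2, l) c) (.blk (2, l) c') →
      (D.m (.blk (2, l) c) (.blk (2, l) c')).1 < (D.p (.blk (2, l) 1)).1 := by
    intro c c' hc hc' h0 hv
    rw [Xc]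
    refine f3_mid_lt hD K3 (bb c hc) (bb c' hc') hv ?_ ?_
    · rw [hc3]
      simp [h0]
    · rw [← Xc]
      refine hAc2 c ?_
      have : c = 0 ∨ c = 2 ∨ c = 3 ∨ c = 4 ∨ c = 5 := by omega
      simpa using this
  -- the companion column line
  have vB : (S.net h).isV (.B (4 * l + 2)) := show 4 * l + 2 ≤ 4 * S.NN by omega
  have b3 : S.binB (3, l) 2 := Or.inr ⟨by simp, by simp, hl, by simp⟩
  have v3 : (S.net h).isV (.blk (3, l) 2) := b3
  have LtB : D.Lt (D.p (.B (4 * l + 2))) (D.p (.blk (2, l) 0)) :=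
    D.Lt_of vB (vb 0 (by simp)) lBs
  have LtC : D.Lt (D.p (.blk (2, l) 0)) (D.p (.blk (3, l) 2)) :=
    D.Lt_of (vb 0 (by simp)) v3 lsq
  have hBy : (D.p (.B (4 * l + 2))).2 < D.yc (4 * S.low (S.loA l)) := by
    have := f3_pB hD (b := (2, l)) (c := 0) (k := 4 * l + 2) (bb 0 (by simp)) vB (li_symm lBs)
    have e1 : (S.net h).row (2, l) = S.low (S.loA l) := by
      show S.brow (2, l) = _
      simp [brow]
    rwa [e1] at this
  have hCy : D.yc (4 * S.low (S.loA l) + 4) < (D.p (.blk (3, l) 2)).2 := by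
    have h1 := (hD.cell (b := (3, l)) (c := 2) b3).2.2.1
    have e1 : (S.net h).row (3, l) = S.low (S.loB l) := by
      show S.brow (3, l) = _
      simp [brow]
    rw [e1] at h1
    have h2 := loA_lt_loB h hl
    have h3 : D.yc (4 * (S.low (S.loA l) + 1)) ≤ D.yc (4 * S.low (S.loB l)) :=
      f3_yle hD h2 (low_lt h (loB_lt h hl)).le
    have e4 : 4 * S.low (S.loA l) + 4 = 4 * (S.low (S.loA l) + 1) := by ring
    rw [e4]
    exact lt_of_le_of_lt h3 h1
  have nepp : ∀ {v w : Vx}, (S.net h).isV v → (S.net h).isV w → v ≠ w → D.p v ≠ D.p w :=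
    fun hv hw hne he => hne (D.pinj hv hw he)
  have gf : ∀ {c c' : ℕ}, c < 6 → c' < 6 → c' ≠ 0 → S.hv (.blk (2, l) c) (.blk (2, l) c') →
      (D.p (.blk (2, l) 0)).1 < (D.m (.blk (2, l) c) (.blk (2, l) c')).1 := by
    intro c c' hc hc' h0 hv
    have ce := cellb c' hc'
    have cm := cellm c hc c' hc' hv
    refine D.toPD.two_ver_gt LtB LtC x6 x1.symm (D.Usymm (U2 hc hc' hv))
      (nepp (vb c' hc') vB (by simp)) (nepp (vb c' hc') (vb 0 (by simp)) (by simp [h0]))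
      (nepp (vb c' hc') v3 (by simp)) (D.mp (vb c hc) (vb c' hc') hv vB)
      (D.mp (vb c hc) (vb c' hc') hv (vb 0 (by simp))) (D.mp (vb c hc) (vb c' hc') hv v3)
      ?_ ?_ ?_ ?_ ?_
    · linarith [ce.2.2.1]
    · linarith [ce.2.2.2]
    · linarith [cm.2.2.1]
    · linarith [cm.2.2.2]
    · refine hAc1 c' ?_
      have : c' = 1 ∨ c' = 2 ∨ c' = 3 ∨ c' = 4 ∨ c' = 5 := by omega
      simpa using this
  have ga : ∀ {z : Pt}, D.Cell (S.low (S.loA l)) l z → z.1 < (D.p G1).1 := by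
    intro z hz
    rw [hG1]
    have e4 : 4 * (l + 1) = 4 * l + 4 := by ring
    rw [e4]
    exact hz.2.1
  have gb : ∀ c < 3, (D.p G1).1 < (D.p (.blk (0, S.loA l) c)).1 := by
    intro c hc
    have h1 := (hD.cell (b := (0, S.loA l)) (c := c) (ba c hc)).1
    have e1 : (S.net h).col (0, S.loA l) = S.lane (S.loA l) := by
      show S.bcol (0, S.loA l) = _
      simp [bcol]
    rw [e1] at h1
    have h2 := lane_ge h ha
    have h3 : S.lane (S.loA l) < S.NN := by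
      have := bcol_lt h (ba c hc)
      simpa [bcol] using this
    have h4 : D.xc (4 * (l + 1)) ≤ D.xc (4 * S.lane (S.loA l)) :=
      f3_xle hD (by omega) h3.le
    rw [hG1]
    exact lt_of_le_of_lt h4 h1
  have gR : (D.p G1).1 < (D.p (.R (4 * S.low (S.loA l) + 1))).1 := by
    have h1 := f3_pR hD (b := (2, l)) (c := 0) (k := 4 * S.low (S.loA l) + 1) (bb 0 (by simp)) vR
      lR1
    have e2 : (S.net h).col (2, l) = l := by
      show S.bcol (2, l) = _
      simp [bcol]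
    rw [e2] at h1
    rw [hG1]
    have e4 : 4 * (l + 1) = 4 * l + 4 := by ring
    rw [e4]
    exact h1
  have eR : (D.p (.R (4 * S.low (S.loA l) + 1))).2 = (D.p (.blk (2, l) 0)).2 := by
    rw [Ys]
    refine hD.line_hor C1 _ ?_
    unfold Net.rl
    simp
  have key := D.toPD.gate (s := D.p (.blk (2, l) 0)) (c := D.p (.blk (2, l) 1))
    (q := D.p (.blk (2, l) 2)) (u := D.p (.blk (2, l) 3)) (w := D.p (.blk (2, l) 4))
    (p := D.p (.blk (2, l) 5)) (m1 := D.m (.blk (2, l) 0) (.blk (2, l) 5))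
    (m2 := D.m (.blk (2, l) 5) (.blk (2, l) 3)) (m3 := D.m (.blk (2, l) 5) (.blk (2, l) 2))
    (m4 := D.m (.blk (2, l) 2) (.blk (2, l) 1)) (m5 := D.m (.blk (2, l) 0) (.blk (2, l) 1))
    (m6 := D.m (.blk (2, l) 3) (.blk (2, l) 4)) (s' := D.p (.R (4 * S.low (S.loA l) + 1)))
    (p' := D.p (.blk (0, S.loA l) 1)) (q' := D.p (.blk (0, S.loA l) 0))
    (w' := D.p (.blk (0, S.loA l) 2)) (g1 := D.p G1) (g2 := D.p G2)
    (U1 (by simp) (by simp) v05) (U2 (by simp) (by simp) v05)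
    (U1 (by simp) (by simp) v53) (U2 (by simp) (by simp) v53)
    (U1 (by simp) (by simp) v52) (U2 (by simp) (by simp) v52)
    (U1 (by simp) (by simp) v21) (U2 (by simp) (by simp) v21)
    (U1 (by simp) (by simp) v01) (U2 (by simp) (by simp) v01)
    (U1 (by simp) (by simp) v34) (U2 (by simp) (by simp) v34)
    (D.Lt_of (vb 0 (by simp)) (vb 3 (by simp)) lv03)
    (D.Lt_of (vb 5 (by simp)) (vb 1 (by simp)) lv51)
    (D.Lt_of (vb 2 (by simp)) (vb 3 (by simp)) lqu)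
    (D.Lt_of (vb 0 (by simp)) vR lR1)
    (D.Lt_of (vb 5 (by simp)) (va 1 (by simp)) lpt)
    (D.Lt_of (vb 2 (by simp)) (va 0 (by simp)) lqs)
    (D.Lt_of (vb 4 (by simp)) (va 2 (by simp)) lwv)
    eR y2.symm y1.symm y3.symm hGL (hG1.trans hG2.symm)
    (by linarith [(cellb 0 (by simp)).2.2.1]) (by linarith [(cellb 4 (by simp)).2.2.2])
    hnd
    (by
      simp only [List.mem_cons, List.not_mem_nil, or_false, forall_eq_or_imp, forall_eq]
      exact ⟨ga (cellb 0 (by simp)), ga (cellb 1 (by simp)), ga (cellb 2 (by simp)),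
        ga (cellb 3 (by simp)), ga (cellb 4 (by simp)), ga (cellb 5 (by simp)),
        ga (cellm 0 (by simp) 5 (by simp) v05), ga (cellm 5 (by simp) 3 (by simp) v53),
        ga (cellm 5 (by simp) 2 (by simp) v52), ga (cellm 2 (by simp) 1 (by simp) v21),
        ga (cellm 0 (by simp) 1 (by simp) v01), ga (cellm 3 (by simp) 4 (by simp) v34)⟩)
    (by
      simp only [List.mem_cons, List.not_mem_nil, or_false, forall_eq_or_imp, forall_eq]
      exact ⟨gR, gb 1 (by simp), gb 0 (by simp), gb 2 (by simp)⟩)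
    (by
      simp only [List.mem_cons, List.not_mem_nil, or_false, forall_eq_or_imp, forall_eq]
      refine ⟨?_, ?_, ?_, ?_, ?_, g1 (by simp) (by simp) (by simp) v05,
        g1 (by simp) (by simp) (by simp) v53, g1 (by simp) (by simp) (by simp) v52,
        g1 (by simp) (by simp) (by simp) v21, g1 (by simp) (by simp) (by simp) v01,
        g1 (by simp) (by simp) (by simp) v34⟩
      · rw [Ys]; exact hAr1 1 (by simp)
      · rw [Ys]; exact hAr1 2 (by simp)
      · rw [Ys]; exact hAr1 3 (by simp)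
      · rw [Ys]; exact hAr1 4 (by simp)
      · rw [Ys]; exact hAr1 5 (by simp))
    (by
      simp only [List.mem_cons, List.not_mem_nil, or_false, forall_eq_or_imp, forall_eq]
      refine ⟨?_, ?_, ?_, ?_, ?_, g3 (by simp) (by simp) (by simp) v05,
        g3 (by simp) (by simp) (by simp) v53, g3 (by simp) (by simp) (by simp) v52,
        g3 (by simp) (by simp) (by simp) v21, g3 (by simp) (by simp) (by simp) v01,
        g3' (by simp) (by simp) (by simp) v34⟩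
      · rw [Yw]; exact hAr2 0 (by simp)
      · rw [Yw]; exact hAr2 1 (by simp)
      · rw [Yw]; exact hAr2 2 (by simp)
      · rw [Yw]; exact hAr2 3 (by simp)
      · rw [Yw]; exact hAr2 5 (by simp))
    (by
      simp only [List.mem_cons, List.not_mem_nil, or_false, forall_eq_or_imp, forall_eq]
      exact ⟨hAc1 1 (by simp), hAc1 2 (by simp), hAc1 3 (by simp), hAc1 4 (by simp),
        hAc1 5 (by simp), gf (by simp) (by simp) (by simp) v05,
        gf (by simp) (by simp) (by simp) v53, gf (by simp) (by simp) (by simp) v52,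
        gf (by simp) (by simp) (by simp) v21, gf (by simp) (by simp) (by simp) v01,
        gf (by simp) (by simp) (by simp) v34⟩)
    (by
      simp only [List.mem_cons, List.not_mem_nil, or_false, forall_eq_or_imp, forall_eq]
      exact ⟨hAc2 0 (by simp), hAc2 2 (by simp), hAc2 3 (by simp), hAc2 4 (by simp),
        hAc2 5 (by simp), gk (by simp) (by simp) (by simp) v05,
        gk (by simp) (by simp) (by simp) v53, gk (by simp) (by simp) (by simp) v52,
        gk' (by simp) (by simp) (by simp) v21, gk' (by simp) (by simp) (by simp) v01,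
        gk (by simp) (by simp) (by simp) v34⟩)
    (by
      have h1 : (D.p (.blk (2, l) 2)).2 = D.Y (0, S.loA l) 0 := y1
      have h2 : (D.p (.blk (2, l) 5)).2 = D.Y (0, S.loA l) 1 := y2
      rw [h1, h2]
      exact hf2)
  obtain ⟨k1, k2⟩ := key
  refine ⟨k1, ?_⟩
  have e1 : (D.p (.blk (2, l) 2)).2 = D.Y (0, S.loA l) 0 := y1
  have e2 : (D.p (.blk (2, l) 5)).2 = D.Y (0, S.loA l) 1 := y2
  have e3 : (D.p (.blk (2, l) 4)).2 = D.Y (0, S.loA l) 2 := y3
  have k3 : D.Y (2, l) 2 < D.yc (4 * S.low (S.loA l) + 3) := hAr2 2 (by simp)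
  have k4 : D.X (2, l) 0 < D.X (2, l) 1 := hAc1 1 (by simp)
  unfold ND.lv
  rw [← x3, div_lt_div_iff₀]
  · rw [← e1, ← e2, ← e3]
    exact k2
  · rw [← e1, ← e3, Yw]
    exact sub_pos.2 k3
  · exact sub_pos.2 k4

end Pool.Agent.H54R
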