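import Pool.Agent.Lib.H54R.Net

/-!
# Sides of complete lines: definitions

`gam D k`: the closed polygon made of the complete column line `k` and the uncrossed path from
`T k` over the hubs `2, 4, 3` to `B k`. `side D k z`: on which side of it the point `z` lies,
normalised such that `L 0` has side `0`. `Norm D`: the long wires `g_0`, `h_0` are vertical and
horizontal and have the right directions.
-/

set_option autoImplicit false

namespace Pool.Agent.H54R

/-- the segments of the drawing -/
def PD.Sg (D : PD) (x y : Pt) : Prop := D.Lt x y ∨ D.U x y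

/-- all edges of the polygonal path `l` are segments of the drawing -/
def PD.PathD (D : PD) (l : List Pt) : Prop := ∀ e ∈ edg l, D.Sg e.1 e.2

/-- all edges of the polygonal path `l` are uncrossed segments of the drawing -/
def PD.PathU (D : PD) (l : List Pt) : Prop := ∀ e ∈ edg l, D.U e.1 e.2

/-- a list of vertices of the network joined by heavy edges -/
def Net.HvPath (N : Net) (l : List Vx) : Prop :=
  (∀ v ∈ l, N.isV v) ∧ ∀ e ∈ edg l, N.hv e.1 e.2

/-- the points of the complete column line `k` -/
def ND.clp {N : Net} (D : ND N) (k : ℕ) : List Pt := (N.cl k).map D.p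

/-- the points of the complete row line `k` -/
def ND.rlp {N : Net} (D : ND N) (k : ℕ) : List Pt := (N.rl k).map D.p

/-- the path over the hubs -/
def ND.hubs {N : Net} (D : ND N) (k : ℕ) : List Pt := D.ex [.T k, .hub 2, .hub 4, .hub 3, .B k]

/-- the closed polygon of the complete column line `k` -/
def ND.gam {N : Net} (D : ND N) (k : ℕ) : List Pt := D.clp k ++ (D.hubs k).tail

/-- the side of a point with respect to the complete column line `k` -/
noncomputable def ND.side {N : Net} (D : ND N) (k : ℕ) (z : Pt) : ZMod 2 :=
  rrL (D.gam k) z + rrL (D.gam k) (D.p (.L 0))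

/-- normalised drawings -/
structure Norm {N : Net} (D : ND N) : Prop where
  h0 : Hor (D.p (.L 0)) (D.p (.R 0))
  g0 : Ver (D.p (.B 0)) (D.p (.T 0))
  h1 : (D.p (.L 0)).1 < (D.p (.R 0)).1
  g1 : (D.p (.B 0)).2 < (D.p (.T 0)).2

/-- first coordinate of the complete column line `k` -/
def ND.xc {N : Net} (D : ND N) (k : ℕ) : ℝ := (D.p (.B k)).1

/-- second coordinate of the complete row line `k` -/
def ND.yc {N : Net} (D : ND N) (k : ℕ) : ℝ := (D.p (.L k)).2

/-- the open rectangle of the cell with row lane `i` and column lane `j` -/
def ND.Cell {N : Net} (D : ND N) (i j : ℕ) (z : Pt) : Prop :=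
  D.xc (4 * j) < z.1 ∧ z.1 < D.xc (4 * j + 4) ∧ D.yc (4 * i) < z.2 ∧ z.2 < D.yc (4 * i + 4)

/-- consecutive values of a function, as a list of vertices: `f a, f (a + 1), ..., f (a + n)` -/
def seqV (f : ℕ → Vx) (a n : ℕ) : List Vx := (List.range (n + 1)).map fun i => f (a + i)

end Pool.Agent.H54R
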