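import Pool.Agent.Lib.H54R.NetOf
import Pool.Agent.Lib.H54R.SDefs

/-!
# Coordinates read off from a drawing of the network of a ring system
-/

set_option autoImplicit false

namespace Pool.Agent.H54R

open RS

variable {S : RS} {h : S.WF}

/-- coordinates of the vertices of blocks -/
def ND.X {N : Net} (D : ND N) (b : ℕ × ℕ) (c : ℕ) : ℝ := (D.p (.blk b c)).1
def ND.Y {N : Net} (D : ND N) (b : ℕ × ℕ) (c : ℕ) : ℝ := (D.p (.blk b c)).2

/-- height of the lower wire of the read `ρ`, relative to its block -/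
noncomputable def ND.lv {N : Net} (D : ND N) (ρ : ℕ) : ℝ :=
  (D.Y (0, ρ) 1 - D.Y (0, ρ) 0) / (D.Y (0, ρ) 2 - D.Y (0, ρ) 0)

/-- height of the upper wire of the read `ρ`, relative to its block -/
noncomputable def ND.uv {N : Net} (D : ND N) (ρ : ℕ) : ℝ :=
  (D.Y (1, ρ) 1 - D.Y (1, ρ) 0) / (D.Y (1, ρ) 2 - D.Y (1, ρ) 0)

/-- coordinate in the lane `j`, normalised such that the lines `Lf`, `Rt` have coordinates `0`,
`1` -/
noncomputable def ND.nrm {N : Net} (D : ND N) (j : ℕ) (x : ℝ) : ℝ :=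
  (x - D.xc (4 * j + 1)) / (D.xc (4 * j + 3) - D.xc (4 * j + 1))

/-- first coordinate of the variable line of the lane `j` -/
def ND.XX (D : ND (S.net h)) (j : ℕ) : ℝ := (D.p ((S.cX j).headD (.hub 0))).1

end Pool.Agent.H54R
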