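import Pool.Agent.Lib.H54R.S0
import Pool.Agent.Lib.H54R.S9
import Pool.Agent.Lib.H54R.S10
import Pool.Agent.Lib.H54R.S11
import Pool.Agent.Lib.H54R.S12
import Pool.Agent.Lib.H54R.S12R
import Pool.Agent.Lib.H54R.S13
import Pool.Agent.Lib.H54R.S16
import Pool.Agent.Lib.H54R.FDefs

/-!
# FGate: the gate lemma for link blocks, in the form used in F3, F4, F3U, F4U
-/

set_option autoImplicit false

namespace Pool.Agent.H54R

/-- the heavy edges of a link block -/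
def fgP : List (ℕ × ℕ) := [(0, 5), (5, 3), (5, 2), (2, 1), (0, 1), (3, 4)]

/-- a link block -/
structure FgB (N : Net) (b : ℕ × ℕ) : Prop where
  inB : ∀ c < 6, N.inB b c
  hv : ∀ q ∈ fgP, N.hv (.blk b q.1) (.blk b q.2)

theorem fgP_lt {q : ℕ × ℕ} (hq : q ∈ fgP) : q.1 < 6 ∧ q.2 < 6 ∧ q.1 ≠ q.2 := by
  simp only [fgP, List.mem_cons, List.not_mem_nil, or_false] at hq
  rcases hq with rfl | rfl | rfl | rfl | rfl | rfl <;> decide

theorem fg_mid_lt {N : Net} {D : ND N} (h : Norm D) {k : ℕ} (hk : Cpl N.N k) {b : ℕ × ℕ}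
    {c c' : ℕ} (hb : N.inB b c) (hb' : N.inB b c') (hv : N.hv (.blk b c) (.blk b c'))
    (hor : ((b, c) ∉ N.ci k ∧ (D.p (.blk b c)).1 < D.xc k) ∨
      ((b, c') ∉ N.ci k ∧ (D.p (.blk b c')).1 < D.xc k)) :
    (D.m (.blk b c) (.blk b c')).1 < D.xc k := by
  rcases hor with ⟨h1, h2⟩ | ⟨h1, h2⟩
  · have u1 := D.U1 (a := .blk b c) (b := .blk b c') hb hb' hv
    exact h.lt_xc hk (N.row_lt hb) u1 (h.cell hb) (h.cell_m hb hb' hv)
      (s12_not_mem (D := D) hk hb h1) (s12_m_not_mem (D := D) hk hb hb' hv) h2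
  · exact h.mid_lt hk hb hb' hv h1 h2

theorem fg_mid_gt {N : Net} {D : ND N} (h : Norm D) {k : ℕ} (hk : Cpl N.N k) {b : ℕ × ℕ}
    {c c' : ℕ} (hb : N.inB b c) (hb' : N.inB b c') (hv : N.hv (.blk b c) (.blk b c'))
    (hor : ((b, c) ∉ N.ci k ∧ D.xc k < (D.p (.blk b c)).1) ∨
      ((b, c') ∉ N.ci k ∧ D.xc k < (D.p (.blk b c')).1)) :
    D.xc k < (D.m (.blk b c) (.blk b c')).1 := by
  rcases hor with ⟨h1, h2⟩ | ⟨h1, h2⟩
  · have u1 := D.U1 (a := .blk b c) (b := .blk b c') hb hb' hv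
    exact s12_gt_xc h hk (N.row_lt hb) u1 (h.cell hb) (h.cell_m hb hb' hv)
      (s12_not_mem (D := D) hk hb h1) (s12_m_not_mem (D := D) hk hb hb' hv) h2
  · exact h.mid_gt hk hb hb' hv h1 h2

/-- a property of the vertices different from `e` which is invariant along the heavy edges -/
theorem fg_conn {P : ℕ → Prop} {e : ℕ} (he : e = 0 ∨ e = 1 ∨ e = 4)
    (hP : ∀ q ∈ fgP, q.1 ≠ e → q.2 ≠ e → (P q.1 ↔ P q.2)) {c0 : ℕ} (hc0 : c0 < 6)
    (hne : c0 ≠ e) (h0 : P c0) : ∀ c < 6, c ≠ e → P c := by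
  have e1 := hP (0, 5) (by simp [fgP])
  have e2 := hP (5, 3) (by simp [fgP])
  have e3 := hP (5, 2) (by simp [fgP])
  have e4 := hP (2, 1) (by simp [fgP])
  have e5 := hP (0, 1) (by simp [fgP])
  have e6 := hP (3, 4) (by simp [fgP])
  simp only at e1 e2 e3 e4 e5 e6
  rcases he with rfl | rfl | rfl
  · have f2 := e2 (by omega) (by omega)
    have f3 := e3 (by omega) (by omega)
    have f4 := e4 (by omega) (by omega)
    have f6 := e6 (by omega) (by omega)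
    have k4 : P 4 ↔ P 5 := f6.symm.trans f2.symm
    have k3 : P 3 ↔ P 5 := f2.symm
    have k2 : P 2 ↔ P 5 := f3.symm
    have k1 : P 1 ↔ P 5 := f4.symm.trans f3.symm
    have k5 : P 5 := by
      interval_cases c0
      · exact absurd rfl hne
      · exact k1.1 h0
      · exact k2.1 h0
      · exact k3.1 h0
      · exact k4.1 h0
      · exact h0
    intro c hc hce
    interval_cases c
    · exact absurd rfl hce
    · exact k1.2 k5
    · exact k2.2 k5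
    · exact k3.2 k5
    · exact k4.2 k5
    · exact k5
  · have f1 := e1 (by omega) (by omega)
    have f2 := e2 (by omega) (by omega)
    have f3 := e3 (by omega) (by omega)
    have f6 := e6 (by omega) (by omega)
    have k4 : P 4 ↔ P 5 := f6.symm.trans f2.symm
    have k3 : P 3 ↔ P 5 := f2.symm
    have k2 : P 2 ↔ P 5 := f3.symm
    have k0 : P 0 ↔ P 5 := f1
    have k5 : P 5 := by
      interval_cases c0
      · exact k0.1 h0
      · exact absurd rfl hne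
      · exact k2.1 h0
      · exact k3.1 h0
      · exact k4.1 h0
      · exact h0
    intro c hc hce
    interval_cases c
    · exact k0.2 k5
    · exact absurd rfl hce
    · exact k2.2 k5
    · exact k3.2 k5
    · exact k4.2 k5
    · exact k5
  · have f1 := e1 (by omega) (by omega)
    have f2 := e2 (by omega) (by omega)
    have f3 := e3 (by omega) (by omega)
    have f4 := e4 (by omega) (by omega)
    have k3 : P 3 ↔ P 5 := f2.symm
    have k2 : P 2 ↔ P 5 := f3.symm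
    have k1 : P 1 ↔ P 5 := f4.symm.trans f3.symm
    have k0 : P 0 ↔ P 5 := f1
    have k5 : P 5 := by
      interval_cases c0
      · exact k0.1 h0
      · exact k1.1 h0
      · exact k2.1 h0
      · exact k3.1 h0
      · exact absurd rfl hne
      · exact h0
    intro c hc hce
    interval_cases c
    · exact k0.2 k5
    · exact k1.2 k5
    · exact k2.2 k5
    · exact k3.2 k5
    · exact absurd rfl hce
    · exact k5

/-- the block is to the left of a complete column line (except possibly the vertex `e`) -/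
theorem fg_lt {N : Net} {D : ND N} (h : Norm D) {b : ℕ × ℕ} (hb : FgB N b) {k : ℕ}
    (hk : Cpl N.N k) {e : ℕ} (he : e = 0 ∨ e = 1 ∨ e = 4)
    (hn : ∀ c < 6, c ≠ e → (b, c) ∉ N.ci k) {c0 : ℕ} (hc0 : c0 < 6) (hne : c0 ≠ e)
    (hlt : (D.p (.blk b c0)).1 < D.xc k) :
    (∀ c < 6, c ≠ e → (D.p (.blk b c)).1 < D.xc k) ∧
      ∀ q ∈ fgP, (D.m (.blk b q.1) (.blk b q.2)).1 < D.xc k := by
  have h1 : ∀ c < 6, c ≠ e → (D.p (.blk b c)).1 < D.xc k := by
    refine fg_conn (P := fun c => (D.p (.blk b c)).1 < D.xc k) he ?_ hc0 hne hlt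
    intro q hq h1 h2
    obtain ⟨l1, l2, _⟩ := fgP_lt hq
    have hv := hb.hv q hq
    constructor
    · intro h3
      exact (h.blk_lt hk (hb.inB _ l1) (hb.inB _ l2) hv (hn _ l1 h1) (hn _ l2 h2) h3).2
    · intro h3
      exact (h.blk_lt hk (hb.inB _ l2) (hb.inB _ l1) (N.hv_symm hv) (hn _ l2 h2)
        (hn _ l1 h1) h3).2
  refine ⟨h1, ?_⟩
  intro q hq
  obtain ⟨l1, l2, l3⟩ := fgP_lt hq
  refine fg_mid_lt h hk (hb.inB _ l1) (hb.inB _ l2) (hb.hv q hq) ?_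
  by_cases hq1 : q.1 = e
  · right
    exact ⟨hn _ l2 (by omega), h1 _ l2 (by omega)⟩
  · left
    exact ⟨hn _ l1 hq1, h1 _ l1 hq1⟩

/-- the block is to the right of a complete column line (except possibly the vertex `e`) -/
theorem fg_gt {N : Net} {D : ND N} (h : Norm D) {b : ℕ × ℕ} (hb : FgB N b) {k : ℕ}
    (hk : Cpl N.N k) {e : ℕ} (he : e = 0 ∨ e = 1 ∨ e = 4)
    (hn : ∀ c < 6, c ≠ e → (b, c) ∉ N.ci k) {c0 : ℕ} (hc0 : c0 < 6) (hne : c0 ≠ e)
    (hlt : D.xc k < (D.p (.blk b c0)).1) :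
    (∀ c < 6, c ≠ e → D.xc k < (D.p (.blk b c)).1) ∧
      ∀ q ∈ fgP, D.xc k < (D.m (.blk b q.1) (.blk b q.2)).1 := by
  have h1 : ∀ c < 6, c ≠ e → D.xc k < (D.p (.blk b c)).1 := by
    refine fg_conn (P := fun c => D.xc k < (D.p (.blk b c)).1) he ?_ hc0 hne hlt
    intro q hq h1 h2
    obtain ⟨l1, l2, _⟩ := fgP_lt hq
    have hv := hb.hv q hq
    constructor
    · intro h3
      exact (h.blk_gt hk (hb.inB _ l1) (hb.inB _ l2) hv (hn _ l1 h1) (hn _ l2 h2) h3).2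
    · intro h3
      exact (h.blk_gt hk (hb.inB _ l2) (hb.inB _ l1) (N.hv_symm hv) (hn _ l2 h2)
        (hn _ l1 h1) h3).2
  refine ⟨h1, ?_⟩
  intro q hq
  obtain ⟨l1, l2, l3⟩ := fgP_lt hq
  refine fg_mid_gt h hk (hb.inB _ l1) (hb.inB _ l2) (hb.hv q hq) ?_
  by_cases hq1 : q.1 = e
  · right
    exact ⟨hn _ l2 (by omega), h1 _ l2 (by omega)⟩
  · left
    exact ⟨hn _ l1 hq1, h1 _ l1 hq1⟩

theorem FgB.tr {N : Net} {b : ℕ × ℕ} (hb : FgB N b) : FgB N.trN b := ⟨hb.inB, hb.hv⟩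

/-- the block is below a complete row line (except possibly the vertex `e`) -/
theorem fg_rlt {N : Net} {D : ND N} (h : Norm D) {b : ℕ × ℕ} (hb : FgB N b) {k : ℕ}
    (hk : Cpl N.M k) {e : ℕ} (he : e = 0 ∨ e = 1 ∨ e = 4)
    (hn : ∀ c < 6, c ≠ e → (b, c) ∉ N.ri k) {c0 : ℕ} (hc0 : c0 < 6) (hne : c0 ≠ e)
    (hlt : (D.p (.blk b c0)).2 < D.yc k) :
    (∀ c < 6, c ≠ e → (D.p (.blk b c)).2 < D.yc k) ∧
      ∀ q ∈ fgP, (D.m (.blk b q.1) (.blk b q.2)).2 < D.yc k :=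
  fg_lt (N := N.trN) (D := D.trD) h.trD hb.tr hk he hn hc0 hne hlt

/-- the block is above a complete row line (except possibly the vertex `e`) -/
theorem fg_rgt {N : Net} {D : ND N} (h : Norm D) {b : ℕ × ℕ} (hb : FgB N b) {k : ℕ}
    (hk : Cpl N.M k) {e : ℕ} (he : e = 0 ∨ e = 1 ∨ e = 4)
    (hn : ∀ c < 6, c ≠ e → (b, c) ∉ N.ri k) {c0 : ℕ} (hc0 : c0 < 6) (hne : c0 ≠ e)
    (hlt : D.yc k < (D.p (.blk b c0)).2) :
    (∀ c < 6, c ≠ e → D.yc k < (D.p (.blk b c)).2) ∧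
      ∀ q ∈ fgP, D.yc k < (D.m (.blk b q.1) (.blk b q.2)).2 :=
  fg_gt (N := N.trN) (D := D.trD) h.trD hb.tr hk he hn hc0 hne hlt

/-- the block is in its cell -/
theorem fg_cell {N : Net} {D : ND N} (h : Norm D) {b : ℕ × ℕ} (hb : FgB N b) :
    (∀ c < 6, D.Cell (N.row b) (N.col b) (D.p (.blk b c))) ∧
      ∀ q ∈ fgP, D.Cell (N.row b) (N.col b) (D.m (.blk b q.1) (.blk b q.2)) := by
  refine ⟨fun c hc => h.cell (hb.inB c hc), ?_⟩
  intro q hq
  obtain ⟨l1, l2, _⟩ := fgP_lt hq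
  exact h.cell_m (hb.inB _ l1) (hb.inB _ l2) (hb.hv q hq)

theorem fg_sym {b : ℕ × ℕ} {q r : ℕ × ℕ} (hq : q ∈ fgP) (hr : r ∈ fgP)
    (h : s(Vx.blk b q.1, Vx.blk b q.2) = s(Vx.blk b r.1, Vx.blk b r.2)) : q = r := by
  have h1 : (q.1 = r.1 ∧ q.2 = r.2) ∨ (q.1 = r.2 ∧ q.2 = r.1) := by
    rw [Sym2.eq_iff] at h
    simpa using h
  simp only [fgP, List.mem_cons, List.not_mem_nil, or_false] at hq hr
  rcases hq with rfl | rfl | rfl | rfl | rfl | rfl <;>
    rcases hr with rfl | rfl | rfl | rfl | rfl | rfl <;> simp at h1 ⊢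

theorem fg_nodup {N : Net} (D : ND N) {b : ℕ × ℕ} (hb : FgB N b) (vs : List Vx)
    (hV : ∀ v ∈ vs, N.isV v) (hn : ∀ v ∈ vs, ∀ c, v ≠ .blk b c) (hd : vs.Nodup) :
    ([0, 1, 2, 3, 4, 5].map (fun c => D.p (.blk b c)) ++
      (fgP.map (fun q => D.m (.blk b q.1) (.blk b q.2)) ++ vs.map D.p)).Nodup := by
  have hV6 : ∀ c ∈ [0, 1, 2, 3, 4, 5], N.isV (.blk b c) := by
    intro c hc
    refine hb.inB c ?_
    simp only [List.mem_cons, List.not_mem_nil, or_false] at hc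
    omega
  rw [List.nodup_append, List.nodup_append]
  refine ⟨?_, ⟨?_, ?_, ?_⟩, ?_⟩
  · refine List.Nodup.map_on ?_ (by decide)
    intro c hc c' hc' he
    have := D.pinj (hV6 c hc) (hV6 c' hc') he
    simpa using this
  · refine List.Nodup.map_on ?_ (by decide)
    intro q hq r hr he
    obtain ⟨l1, l2, _⟩ := fgP_lt hq
    obtain ⟨l3, l4, _⟩ := fgP_lt hr
    exact fg_sym hq hr (D.minj (hb.inB _ l1) (hb.inB _ l2) (hb.inB _ l3) (hb.inB _ l4)
      (hb.hv q hq) (hb.hv r hr) he)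
  · refine List.Nodup.map_on ?_ hd
    intro v hv w hw he
    exact D.pinj (hV v hv) (hV w hw) he
  · intro x hx y hy he
    obtain ⟨q, hq, rfl⟩ := List.mem_map.1 hx
    obtain ⟨v, hv, rfl⟩ := List.mem_map.1 hy
    obtain ⟨l1, l2, _⟩ := fgP_lt hq
    exact D.mp (a := .blk b q.1) (b := .blk b q.2) (hb.inB _ l1) (hb.inB _ l2) (hb.hv q hq)
      (hV v hv) he
  · intro x hx y hy he
    obtain ⟨c, hc, rfl⟩ := List.mem_map.1 hx
    rcases List.mem_append.1 hy with hy | hy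
    · obtain ⟨q, hq, rfl⟩ := List.mem_map.1 hy
      obtain ⟨l1, l2, _⟩ := fgP_lt hq
      exact D.mp (a := .blk b q.1) (b := .blk b q.2) (hb.inB _ l1) (hb.inB _ l2) (hb.hv q hq)
        (hV6 c hc) he.symm
    · obtain ⟨v, hv, rfl⟩ := List.mem_map.1 hy
      exact hn v hv c (D.pinj (hV6 c hc) (hV v hv) he).symm

/-- `PD.gate` for a link block `b` of a drawing of a network, after a map `φ` of the plane -/
theorem fg_gate {N : Net} (D : ND N) {b : ℕ × ℕ} (hb : FgB N b) (φ : Pt ≃ₗ[ℝ] Pt)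
    (hφ : GoodMap φ) {s' p' q' w' g1 g2 : Vx}
    (hV : ∀ v ∈ [s', p', q', w', g1, g2], N.isV v)
    (hn : ∀ v ∈ [s', p', q', w', g1, g2], ∀ c, v ≠ .blk b c)
    (hnd : [s', p', q', w', g1, g2].Nodup)
    (l1 : N.li (.blk b 0) (.blk b 3)) (l2 : N.li (.blk b 5) (.blk b 1))
    (l3 : N.li (.blk b 2) (.blk b 3))
    (r1 : N.li (.blk b 0) s') (r2 : N.li (.blk b 5) p') (r3 : N.li (.blk b 2) q')
    (r4 : N.li (.blk b 4) w') (hg : N.li g1 g2)
    (e1 : (φ (D.p s')).2 = (φ (D.p (.blk b 0))).2) (e2 : (φ (D.p p')).2 = (φ (D.p (.blk b 5))).2)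
    (e3 : (φ (D.p q')).2 = (φ (D.p (.blk b 2))).2) (e4 : (φ (D.p w')).2 = (φ (D.p (.blk b 4))).2)
    (hg' : (φ (D.p g1)).1 = (φ (D.p g2)).1) (hg1 : (φ (D.p g1)).2 < (φ (D.p (.blk b 0))).2)
    (hg2 : (φ (D.p (.blk b 4))).2 < (φ (D.p g2)).2)
    (ha : (∀ c < 6, (φ (D.p (.blk b c))).1 < (φ (D.p g1)).1) ∧
      ∀ q ∈ fgP, (φ (D.m (.blk b q.1) (.blk b q.2))).1 < (φ (D.p g1)).1)
    (hb' : ∀ v ∈ [s', p', q', w'], (φ (D.p g1)).1 < (φ (D.p v)).1)
    (hc : (∀ c < 6, c ≠ 0 → (φ (D.p (.blk b 0))).2 < (φ (D.p (.blk b c))).2) ∧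
      ∀ q ∈ fgP, (φ (D.p (.blk b 0))).2 < (φ (D.m (.blk b q.1) (.blk b q.2))).2)
    (hd : (∀ c < 6, c ≠ 4 → (φ (D.p (.blk b c))).2 < (φ (D.p (.blk b 4))).2) ∧
      ∀ q ∈ fgP, (φ (D.m (.blk b q.1) (.blk b q.2))).2 < (φ (D.p (.blk b 4))).2)
    (hf : (∀ c < 6, c ≠ 0 → (φ (D.p (.blk b 0))).1 < (φ (D.p (.blk b c))).1) ∧
      ∀ q ∈ fgP, (φ (D.p (.blk b 0))).1 < (φ (D.m (.blk b q.1) (.blk b q.2))).1)
    (hk : (∀ c < 6, c ≠ 1 → (φ (D.p (.blk b c))).1 < (φ (D.p (.blk b 1))).1) ∧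
      ∀ q ∈ fgP, (φ (D.m (.blk b q.1) (.blk b q.2))).1 < (φ (D.p (.blk b 1))).1)
    (hy : (φ (D.p (.blk b 2))).2 < (φ (D.p (.blk b 5))).2) :
    (φ (D.p (.blk b 2))).1 = (φ (D.p (.blk b 3))).1 ∧
      ((φ (D.p (.blk b 5))).2 - (φ (D.p (.blk b 2))).2) *
        ((φ (D.p (.blk b 1))).1 - (φ (D.p (.blk b 0))).1) <
      ((φ (D.p (.blk b 3))).1 - (φ (D.p (.blk b 0))).1) *
        ((φ (D.p (.blk b 4))).2 - (φ (D.p (.blk b 2))).2) := by
  have hU1 : ∀ q ∈ fgP, (D.toPD.map φ hφ).U (φ (D.p (.blk b q.1)))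
      (φ (D.m (.blk b q.1) (.blk b q.2))) := by
    intro q hq
    obtain ⟨l1, l2, _⟩ := fgP_lt hq
    change D.U (φ.symm (φ _)) (φ.symm (φ _))
    rw [LinearEquiv.symm_apply_apply, LinearEquiv.symm_apply_apply]
    exact D.U1 (hb.inB _ l1) (hb.inB _ l2) (hb.hv q hq)
  have hU2 : ∀ q ∈ fgP, (D.toPD.map φ hφ).U (φ (D.m (.blk b q.1) (.blk b q.2)))
      (φ (D.p (.blk b q.2))) := by
    intro q hq
    obtain ⟨l1, l2, _⟩ := fgP_lt hq
    change D.U (φ.symm (φ _)) (φ.symm (φ _))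
    rw [LinearEquiv.symm_apply_apply, LinearEquiv.symm_apply_apply]
    exact D.U2 (hb.inB _ l1) (hb.inB _ l2) (hb.hv q hq)
  have hLt : ∀ {x y : Vx}, N.isV x → N.isV y → N.li x y →
      (D.toPD.map φ hφ).Lt (φ (D.p x)) (φ (D.p y)) := by
    intro x y hx hy hxy
    change D.Lt (φ.symm (φ _)) (φ.symm (φ _))
    rw [LinearEquiv.symm_apply_apply, LinearEquiv.symm_apply_apply]
    exact D.Lt_of hx hy hxy
  have q1 : ((0, 5) : ℕ × ℕ) ∈ fgP := by simp [fgP]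
  have q2 : ((5, 3) : ℕ × ℕ) ∈ fgP := by simp [fgP]
  have q3 : ((5, 2) : ℕ × ℕ) ∈ fgP := by simp [fgP]
  have q4 : ((2, 1) : ℕ × ℕ) ∈ fgP := by simp [fgP]
  have q5 : ((0, 1) : ℕ × ℕ) ∈ fgP := by simp [fgP]
  have q6 : ((3, 4) : ℕ × ℕ) ∈ fgP := by simp [fgP]
  have i0 : N.isV (.blk b 0) := hb.inB 0 (by omega)
  have i1 : N.isV (.blk b 1) := hb.inB 1 (by omega)
  have i2 : N.isV (.blk b 2) := hb.inB 2 (by omega)
  have i3 : N.isV (.blk b 3) := hb.inB 3 (by omega)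
  have i4 : N.isV (.blk b 4) := hb.inB 4 (by omega)
  have i5 : N.isV (.blk b 5) := hb.inB 5 (by omega)
  have hnd' := (fg_nodup D hb _ hV hn hnd).map φ.injective
  have all : ∀ {P : Pt → Prop}, (∀ c < 6, P (φ (D.p (.blk b c)))) →
      (∀ q ∈ fgP, P (φ (D.m (.blk b q.1) (.blk b q.2)))) → ∀ x ∈
      [φ (D.p (.blk b 0)), φ (D.p (.blk b 1)), φ (D.p (.blk b 2)), φ (D.p (.blk b 3)),
        φ (D.p (.blk b 4)), φ (D.p (.blk b 5)), φ (D.m (.blk b 0) (.blk b 5)),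
        φ (D.m (.blk b 5) (.blk b 3)), φ (D.m (.blk b 5) (.blk b 2)),
        φ (D.m (.blk b 2) (.blk b 1)), φ (D.m (.blk b 0) (.blk b 1)),
        φ (D.m (.blk b 3) (.blk b 4))], P x := by
    intro P h1 h2 x hx
    simp only [List.mem_cons, List.not_mem_nil, or_false] at hx
    rcases hx with rfl | rfl | rfl | rfl | rfl | rfl | rfl | rfl | rfl | rfl | rfl | rfl
    · exact h1 0 (by omega)
    · exact h1 1 (by omega)
    · exact h1 2 (by omega)
    · exact h1 3 (by omega)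
    · exact h1 4 (by omega)
    · exact h1 5 (by omega)
    · exact h2 _ q1
    · exact h2 _ q2
    · exact h2 _ q3
    · exact h2 _ q4
    · exact h2 _ q5
    · exact h2 _ q6
  refine (D.toPD.map φ hφ).gate (s := φ (D.p (.blk b 0))) (c := φ (D.p (.blk b 1)))
    (q := φ (D.p (.blk b 2))) (u := φ (D.p (.blk b 3))) (w := φ (D.p (.blk b 4)))
    (p := φ (D.p (.blk b 5))) (hU1 _ q1) (hU2 _ q1) (hU1 _ q2) (hU2 _ q2) (hU1 _ q3) (hU2 _ q3)
    (hU1 _ q4) (hU2 _ q4) (hU1 _ q5) (hU2 _ q5) (hU1 _ q6) (hU2 _ q6) (hLt i0 i3 l1)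
    (hLt i5 i1 l2) (hLt i2 i3 l3) (hLt i0 (hV s' (by simp)) r1) (hLt i5 (hV p' (by simp)) r2)
    (hLt i2 (hV q' (by simp)) r3) (hLt i4 (hV w' (by simp)) r4) e1 e2 e3 e4
    (hLt (hV g1 (by simp)) (hV g2 (by simp)) hg) hg' hg1 hg2 hnd' ?_ ?_ ?_ ?_ ?_ ?_ hy
  · exact all ha.1 ha.2
  · intro x hx
    simp only [List.mem_cons, List.not_mem_nil, or_false] at hx
    rcases hx with rfl | rfl | rfl | rfl
    · exact hb' s' (by simp)
    · exact hb' p' (by simp)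
    · exact hb' q' (by simp)
    · exact hb' w' (by simp)
  · intro x hx
    simp only [List.mem_cons, List.not_mem_nil, or_false] at hx
    rcases hx with rfl | rfl | rfl | rfl | rfl | rfl | rfl | rfl | rfl | rfl | rfl
    · exact hc.1 1 (by omega) (by omega)
    · exact hc.1 2 (by omega) (by omega)
    · exact hc.1 3 (by omega) (by omega)
    · exact hc.1 4 (by omega) (by omega)
    · exact hc.1 5 (by omega) (by omega)
    · exact hc.2 _ q1
    · exact hc.2 _ q2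
    · exact hc.2 _ q3
    · exact hc.2 _ q4
    · exact hc.2 _ q5
    · exact hc.2 _ q6
  · intro x hx
    simp only [List.mem_cons, List.not_mem_nil, or_false] at hx
    rcases hx with rfl | rfl | rfl | rfl | rfl | rfl | rfl | rfl | rfl | rfl | rfl
    · exact hd.1 0 (by omega) (by omega)
    · exact hd.1 1 (by omega) (by omega)
    · exact hd.1 2 (by omega) (by omega)
    · exact hd.1 3 (by omega) (by omega)
    · exact hd.1 5 (by omega) (by omega)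
    · exact hd.2 _ q1
    · exact hd.2 _ q2
    · exact hd.2 _ q3
    · exact hd.2 _ q4
    · exact hd.2 _ q5
    · exact hd.2 _ q6
  · intro x hx
    simp only [List.mem_cons, List.not_mem_nil, or_false] at hx
    rcases hx with rfl | rfl | rfl | rfl | rfl | rfl | rfl | rfl | rfl | rfl | rfl
    · exact hf.1 1 (by omega) (by omega)
    · exact hf.1 2 (by omega) (by omega)
    · exact hf.1 3 (by omega) (by omega)
    · exact hf.1 4 (by omega) (by omega)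
    · exact hf.1 5 (by omega) (by omega)
    · exact hf.2 _ q1
    · exact hf.2 _ q2
    · exact hf.2 _ q3
    · exact hf.2 _ q4
    · exact hf.2 _ q5
    · exact hf.2 _ q6
  · intro x hx
    simp only [List.mem_cons, List.not_mem_nil, or_false] at hx
    rcases hx with rfl | rfl | rfl | rfl | rfl | rfl | rfl | rfl | rfl | rfl | rfl
    · exact hk.1 0 (by omega) (by omega)
    · exact hk.1 2 (by omega) (by omega)
    · exact hk.1 3 (by omega) (by omega)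
    · exact hk.1 4 (by omega) (by omega)
    · exact hk.1 5 (by omega) (by omega)
    · exact hk.2 _ q1
    · exact hk.2 _ q2
    · exact hk.2 _ q3
    · exact hk.2 _ q4
    · exact hk.2 _ q5
    · exact hk.2 _ q6

open RS

variable {S : RS} {h : S.WF}

theorem fgB_net {g l : ℕ} (hg : 2 ≤ g) (hg' : g ≤ 5) (hl : l < 2 * S.K) :
    FgB (S.net h) (g, l) := by
  refine ⟨fun c hc => Or.inr ⟨hg, hg', hl, hc⟩, ?_⟩
  obtain ⟨v1, v2, v3, v4, v5, v6⟩ := hv_link h hl hg hg'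
  intro q hq
  simp only [fgP, List.mem_cons, List.not_mem_nil, or_false] at hq
  rcases hq with rfl | rfl | rfl | rfl | rfl | rfl <;> assumption

theorem fg_cpl1 {n i : ℕ} (hi : i < n) : Cpl n (4 * i + 1) := ⟨by omega, by omega⟩

theorem fg_cpl3 {n i : ℕ} (hi : i < n) : Cpl n (4 * i + 3) := ⟨by omega, by omega⟩

/-- a vertex on a complete column line -/
theorem fg_on {D : ND (S.net h)} (hD : Norm D) {k : ℕ} (hk : Cpl (S.net h).N k) {b : ℕ × ℕ}
    {c : ℕ} (hm : (b, c) ∈ S.bci k) : (D.p (.blk b c)).1 = D.xc k := by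
  refine hD.line_ver hk (.blk b c) ?_
  unfold Net.cl
  refine List.mem_append_left _ (List.mem_cons_of_mem _ ?_)
  exact List.mem_map.2 ⟨(b, c), hm, rfl⟩

/-- a vertex on a complete row line -/
theorem fg_ron {D : ND (S.net h)} (hD : Norm D) {k : ℕ} (hk : Cpl (S.net h).M k) {b : ℕ × ℕ}
    {c : ℕ} (hm : (b, c) ∈ S.bri k) : (D.p (.blk b c)).2 = D.yc k := by
  refine hD.line_hor hk (.blk b c) ?_
  unfold Net.rl
  refine List.mem_append_left _ (List.mem_cons_of_mem _ ?_)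
  exact List.mem_map.2 ⟨(b, c), hm, rfl⟩

end Pool.Agent.H54R
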