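import Pool.Agent.Lib.H54R.FDefs
import Pool.Agent.Lib.H54R.S0
import Pool.Agent.Lib.H54R.S9
import Pool.Agent.Lib.H54R.S10
import Pool.Agent.Lib.H54R.S11
import Pool.Agent.Lib.H54R.S12
import Pool.Agent.Lib.H54R.S12R
import Pool.Agent.Lib.H54R.S13
import Pool.Agent.Lib.H54R.S16
import Pool.Agent.Lib.H54R.FL2
import Pool.Agent.Lib.H54R.FL3
import Pool.Agent.Lib.H54R.F1U
import Pool.Agent.Lib.H54R.F2U
import Pool.Agent.Lib.H54R.F3
import Pool.Agent.Lib.H54R.FGate

/-!
# F3U: the gate ABr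
-/

set_option autoImplicit false

namespace Pool.Agent.H54R

open RS

variable {S : RS} {h : S.WF}

/-- the middle points of the heavy edges of ABr are to the left of the companion line -/
theorem f3u_mid {D : ND (S.net h)} (hD : Norm D) {l : ℕ} (hl : l < 2 * S.K) {q : ℕ × ℕ}
    (hq : q ∈ fgP) :
    (D.m (.blk (4, l) q.1) (.blk (4, l) q.2)).1 < (D.p (.blk (4, l) 0)).1 := by
  obtain ⟨l1, l2, -, -, -, -⟩ := li_right h hl
  obtain ⟨e1, -, -, -, -, e6⟩ := f1u_cols hD hl
  have hAc1 := (f1u_AB_cols hD hl).1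
  have B5 : FgB (S.net h) (5, l) := fgB_net (by omega) (by omega) hl
  have B4 : FgB (S.net h) (4, l) := fgB_net (by omega) (by omega) hl
  have hq' : q.1 < 6 ∧ q.2 < 6 ∧ q.2 ≠ 0 := by
    simp only [fgP, List.mem_cons, List.not_mem_nil, or_false] at hq
    rcases hq with rfl | rfl | rfl | rfl | rfl | rfl <;> simp
  obtain ⟨hc, hc', hc0⟩ := hq'
  have hv := B4.hv q hq
  have hkT : 4 * S.rlane l + 2 ≤ 4 * (S.net h).N := by
    have := rlane_lt h hl
    change 4 * S.rlane l + 2 ≤ 4 * S.NN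
    omega
  have v5 : (S.net h).isV (.blk (5, l) 2) := B5.inB 2 (by omega)
  have v0 : (S.net h).isV (.blk (4, l) 0) := B4.inB 0 (by omega)
  have vT : (S.net h).isV (.T (4 * S.rlane l + 2)) := hkT
  have vc : (S.net h).isV (.blk (4, l) q.1) := B4.inB _ hc
  have vc' : (S.net h).isV (.blk (4, l) q.2) := B4.inB _ hc'
  have L1 : D.Lt (D.p (.blk (5, l) 2)) (D.p (.blk (4, l) 0)) := D.Lt_of v5 v0 l2
  have L2 : D.Lt (D.p (.blk (4, l) 0)) (D.p (.T (4 * S.rlane l + 2))) := D.Lt_of v0 vT l1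
  have r4 : (S.net h).row (4, l) = S.upr (S.upA l) := by
    change S.brow (4, l) = _
    simp [brow]
  have r5 : (S.net h).row (5, l) = S.upr (S.upB l) := by
    change S.brow (5, l) = _
    simp [brow]
  have hrr := upB_lt_upA h hl
  have hM : S.upr (S.upA l) < (S.net h).M := upr_lt h (upA_lt h hl)
  have lo : (D.p (.blk (5, l) 2)).2 < D.yc (4 * S.upr (S.upA l)) := by
    have g1 := (hD.cell (b := (5, l)) (c := 2) v5).2.2.2
    rw [r5] at g1
    have g2 : D.yc (4 * (S.upr (S.upB l) + 1)) ≤ D.yc (4 * S.upr (S.upA l)) :=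
      f3_yle hD (by omega) hM.le
    exact lt_of_lt_of_le g1 g2
  have hi : D.yc (4 * S.upr (S.upA l) + 4) < (D.p (.T (4 * S.rlane l + 2))).2 := by
    have g1 := f3_pT hD (b := (4, l)) (c := 0) v0 hkT l1
    rw [r4] at g1
    exact g1
  have Cc' := hD.cell (b := (4, l)) (c := q.2) vc'
  have Cm := hD.cell_m (b := (4, l)) (c := q.1) (c' := q.2) vc vc' hv
  rw [r4] at Cc' Cm
  have U2 := D.Usymm (D.U2 vc vc' hv)
  have ne : ∀ {a b : Vx}, (S.net h).isV a → (S.net h).isV b → a ≠ b → D.p a ≠ D.p b :=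
    fun ha hb hab e => hab (D.pinj ha hb e)
  have nm : ∀ {v : Vx}, (S.net h).isV v → D.m (.blk (4, l) q.1) (.blk (4, l) q.2) ≠ D.p v :=
    fun hv' => D.mp vc vc' hv hv'
  have hlt : (D.p (.blk (4, l) q.2)).1 < (D.p (.blk (4, l) 0)).1 := by
    refine hAc1 q.2 ?_
    have : q.2 = 1 ∨ q.2 = 2 ∨ q.2 = 3 ∨ q.2 = 4 ∨ q.2 = 5 := by omega
    simpa using this
  exact D.two_ver_lt L1 L2 e1.symm e6 U2 (ne vc' v5 (by simp)) (ne vc' v0 (by simp [hc0]))
    (ne vc' vT (by simp)) (nm v5) (nm v0) (nm vT) (lo.trans Cc'.2.2.1) (Cc'.2.2.2.trans hi)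
    (lo.trans Cm.2.2.1) (Cm.2.2.2.trans hi) hlt

/-- the version of `f3_AB` for the block `(4, l)`: apply `PD.gate` to `D.toPD.map rotE _` -/
theorem f3u_AB {D : ND (S.net h)} (hD : Norm D) {l : ℕ} (hl : l < 2 * S.K) :
    D.X (4, l) 2 = D.X (4, l) 3 ∧
      1 - D.uv (S.upA l) <
        (D.X (4, l) 0 - D.X (4, l) 3) / (D.X (4, l) 0 - D.xc (4 * S.rlane l + 1)) := by
  have hρ := upA_lt h hl
  have hi : S.upr (S.upA l) < S.MM := upr_lt h hρ
  have hiM : S.upr (S.upA l) < (S.net h).M := hi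
  have hlane := lane_lt h hρ
  have hrl : S.rlane 0 ≤ S.rlane l := by
    unfold rlane
    omega
  have hlN : S.rlane l < S.NN := rlane_lt h hl
  have hlN' : S.rlane l < (S.net h).N := hlN
  have B4 : FgB (S.net h) (4, l) := fgB_net (by omega) (by omega) hl
  have hrow4 : S.brow (4, l) = S.upr (S.upA l) := by simp [brow]
  have hcol4 : S.bcol (4, l) = S.rlane l := by simp [bcol]
  have hcolr : S.bcol (1, S.upA l) = S.lane (S.upA l) := by simp [bcol]
  have hcne : (S.net h).col (4, l) ≠ (S.net h).col (1, S.upA l) := by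
    change S.bcol (4, l) ≠ S.bcol (1, S.upA l)
    rw [hcol4, hcolr]
    omega
  obtain ⟨lws, -, lqv, lpt, lsL, -⟩ := li_upA h hl
  obtain ⟨-, -, lqu, -, -, -⟩ := li_right h hl
  obtain ⟨l03, l51⟩ := li_lever' h hl (g := 4) (by omega) (by omega)
  have c1 := fg_cpl1 hlN'
  have k1 := fg_cpl1 hiM
  have k3 := fg_cpl3 hiM
  have bc1 := bci_right1 h hl
  have br1 := bri_upA1 h hl
  have br3 := bri_upA3 h hl
  obtain ⟨x1, -, x3, -, -, -⟩ := f1u_cols hD hl
  obtain ⟨y1, y2, y3, y4, y5, -⟩ := f1u_rows hD hl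
  have hAc1 := (f1u_AB_cols hD hl).1
  obtain ⟨f1, f2, f3, -, -⟩ := f2_up hD hρ
  have hy13 : D.yc (4 * S.upr (S.upA l) + 1) < D.yc (4 * S.upr (S.upA l) + 3) :=
    hD.yc_lt k1 k3 (by omega)
  have X1 : (D.p (.blk (4, l) 1)).1 = D.xc (4 * S.rlane l + 1) := x3
  have Y4 : (D.p (.blk (4, l) 4)).2 = D.yc (4 * S.upr (S.upA l) + 1) := y4
  have Y0 : (D.p (.blk (4, l) 0)).2 = D.yc (4 * S.upr (S.upA l) + 3) := y5
  have x10 : D.xc (4 * S.rlane l + 1) < (D.p (.blk (4, l) 0)).1 := by
    rw [← X1]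
    exact hAc1 1 (by simp)
  -- the four directions
  have dc := fg_rlt hD B4 k3 (e := 0) (by omega)
    (by
      intro c _ hc
      change ((4, l), c) ∉ S.bri (4 * S.upr (S.upA l) + 3)
      rw [br3]
      simpa using hc) (c0 := 4) (by omega) (by omega) (by rw [Y4]; exact hy13)
  have dd := fg_rgt hD B4 k1 (e := 4) (by omega)
    (by
      intro c _ hc
      change ((4, l), c) ∉ S.bri (4 * S.upr (S.upA l) + 1)
      rw [br1]
      simpa using hc) (c0 := 0) (by omega) (by omega) (by rw [Y0]; exact hy13)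
  have dk := fg_gt hD B4 c1 (e := 1) (by omega)
    (by
      intro c _ hc
      change ((4, l), c) ∉ S.bci (4 * S.rlane l + 1)
      rw [bc1]
      simpa using hc) (c0 := 0) (by omega) (by omega) x10
  have cells := fg_cell hD B4
  have hcell1 : ∀ c < 3, (D.p (.blk (1, S.upA l) c)).1 < D.xc (4 * S.rlane l) := by
    intro c hc
    have h1 := (hD.cell (b := (1, S.upA l)) (c := c) (Or.inl ⟨by simp, hρ, hc⟩)).2.1
    have h2 : D.xc (4 * (S.bcol (1, S.upA l) + 1)) ≤ D.xc (4 * S.rlane l) :=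
      f3_xle hD (by rw [hcolr]; omega) hlN'.le
    exact lt_of_lt_of_le h1 h2
  obtain ⟨G1, G2, hG, hGL, g1, g2, g3, g4⟩ := f3_wire hD (i := S.upr (S.upA l))
    (j := S.rlane l) hiM hlN'.le
  have vG : (S.net h).isV G1 ∧ (S.net h).isV G2 ∧ (S.net h).li G1 G2 := by
    have h1 : 4 * S.rlane l ≤ 4 * (S.net h).N := by omega
    have h2 : (S.net h).li (.B (4 * S.rlane l)) (.T (4 * S.rlane l)) :=
      s6b_li_col h1 (by omega)
    rcases hG with ⟨rfl, rfl⟩ | ⟨rfl, rfl⟩
    · exact ⟨h1, h1, h2⟩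
    · exact ⟨h1, h1, (S.net h).li_symm h2⟩
  obtain ⟨vG1, vG2, liG⟩ := vG
  have b4 : ∀ c < 6, (S.net h).isV (.blk (4, l) c) := B4.inB
  have b1 : ∀ c < 3, (S.net h).isV (.blk (1, S.upA l) c) := fun c hc =>
    Or.inl ⟨by simp, hρ, hc⟩
  have hkL : 4 * S.upr (S.upA l) + 3 ≤ 4 * (S.net h).M := by omega
  have r1 : (S.net h).li (.blk (4, l) 0) (.L (4 * S.upr (S.upA l) + 3)) :=
    (S.net h).li_symm lsL
  have r2 : (S.net h).li (.blk (4, l) 5) (.blk (1, S.upA l) 1) := (S.net h).li_symm lpt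
  have r3 : (S.net h).li (.blk (4, l) 2) (.blk (1, S.upA l) 2) := (S.net h).li_symm lqv
  have r4 : (S.net h).li (.blk (4, l) 4) (.blk (1, S.upA l) 0) := (S.net h).li_symm lws
  have e1 := hD.hor_bL (B4.inB 0 (by omega)) hkL r1
  have e2 : (D.p (.blk (4, l) 5)).2 = (D.p (.blk (1, S.upA l) 1)).2 := y2
  have e3 : (D.p (.blk (4, l) 2)).2 = (D.p (.blk (1, S.upA l) 2)).2 := y1
  have e4 : (D.p (.blk (4, l) 4)).2 = (D.p (.blk (1, S.upA l) 0)).2 := y3
  have hpL := f3_pL hD (B4.inB 0 (by omega)) hkL r1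
  have G := fg_gate D B4 rotE good_rot (s' := .L (4 * S.upr (S.upA l) + 3))
    (p' := .blk (1, S.upA l) 1) (q' := .blk (1, S.upA l) 2) (w' := .blk (1, S.upA l) 0)
    (g1 := G2) (g2 := G1)
    (by
      intro v hv
      simp only [List.mem_cons, List.not_mem_nil, or_false] at hv
      rcases hv with rfl | rfl | rfl | rfl | rfl | rfl
      · exact hkL
      · exact b1 1 (by omega)
      · exact b1 2 (by omega)
      · exact b1 0 (by omega)
      · exact vG2
      · exact vG1)
    (by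
      intro v hv c
      simp only [List.mem_cons, List.not_mem_nil, or_false] at hv
      rcases hG with ⟨rfl, rfl⟩ | ⟨rfl, rfl⟩ <;>
        rcases hv with rfl | rfl | rfl | rfl | rfl | rfl <;> simp)
    (by
      rcases hG with ⟨rfl, rfl⟩ | ⟨rfl, rfl⟩ <;> simp)
    l03 l51 ((S.net h).li_symm lqu) r1 r2 r3 r4 ((S.net h).li_symm liG)
    (by
      change -(D.p (.L (4 * S.upr (S.upA l) + 3))).2 = -(D.p (.blk (4, l) 0)).2
      rw [← e1])
    (by
      change -(D.p (.blk (1, S.upA l) 1)).2 = -(D.p (.blk (4, l) 5)).2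
      rw [← e2])
    (by
      change -(D.p (.blk (1, S.upA l) 2)).2 = -(D.p (.blk (4, l) 2)).2
      rw [← e3])
    (by
      change -(D.p (.blk (1, S.upA l) 0)).2 = -(D.p (.blk (4, l) 4)).2
      rw [← e4])
    (by
      change -(D.p G2).1 = -(D.p G1).1
      rw [g1, g2])
    (by
      change -(D.p G2).2 < -(D.p (.blk (4, l) 0)).2
      have h1 := (cells.1 0 (by omega)).2.2.2
      change _ < D.yc (4 * S.brow (4, l) + 4) at h1
      rw [hrow4] at h1
      exact neg_lt_neg (h1.trans g4))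
    (by
      change -(D.p (.blk (4, l) 4)).2 < -(D.p G1).2
      have h1 := (cells.1 4 (by omega)).2.2.1
      change D.yc (4 * S.brow (4, l)) < _ at h1
      rw [hrow4] at h1
      exact neg_lt_neg (g3.trans h1))
    (by
      constructor
      · intro c hc
        have h1 := (cells.1 c hc).1
        change D.xc (4 * S.bcol (4, l)) < _ at h1
        rw [hcol4, ← g2] at h1
        exact neg_lt_neg h1
      · intro q hq
        have h1 := (cells.2 q hq).1
        change D.xc (4 * S.bcol (4, l)) < _ at h1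
        rw [hcol4, ← g2] at h1
        exact neg_lt_neg h1)
    (by
      intro v hv
      simp only [List.mem_cons, List.not_mem_nil, or_false] at hv
      have key : (D.p v).1 < D.xc (4 * S.rlane l) := by
        rcases hv with rfl | rfl | rfl | rfl
        · change _ < D.xc (4 * S.bcol (4, l)) at hpL
          rw [hcol4] at hpL
          exact hpL
        · exact hcell1 1 (by omega)
        · exact hcell1 2 (by omega)
        · exact hcell1 0 (by omega)
      rw [← g2] at key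
      exact neg_lt_neg key)
    (by
      constructor
      · intro c hc hc0
        have h1 := dc.1 c hc hc0
        rw [← Y0] at h1
        exact neg_lt_neg h1
      · intro q hq
        have h1 := dc.2 q hq
        rw [← Y0] at h1
        exact neg_lt_neg h1)
    (by
      constructor
      · intro c hc hc0
        have h1 := dd.1 c hc hc0
        rw [← Y4] at h1
        exact neg_lt_neg h1
      · intro q hq
        have h1 := dd.2 q hq
        rw [← Y4] at h1
        exact neg_lt_neg h1)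
    (by
      constructor
      · intro c hc hc0
        have h1 : (D.p (.blk (4, l) c)).1 < (D.p (.blk (4, l) 0)).1 := by
          refine hAc1 c ?_
          have : c = 1 ∨ c = 2 ∨ c = 3 ∨ c = 4 ∨ c = 5 := by omega
          simpa using this
        exact neg_lt_neg h1
      · intro q hq
        exact neg_lt_neg (f3u_mid hD hl hq))
    (by
      constructor
      · intro c hc hc0
        have h1 := dk.1 c hc hc0
        rw [← X1] at h1
        exact neg_lt_neg h1
      · intro q hq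
        have h1 := dk.2 q hq
        rw [← X1] at h1
        exact neg_lt_neg h1)
    (by
      change -(D.p (.blk (4, l) 2)).2 < -(D.p (.blk (4, l) 5)).2
      rw [e2, e3]
      exact neg_lt_neg f3)
  simp only [rotE_apply] at G
  obtain ⟨G1', G2'⟩ := G
  refine ⟨neg_injective G1', ?_⟩
  have hlv : 1 - D.uv (S.upA l) = (D.Y (1, S.upA l) 2 - D.Y (1, S.upA l) 1) /
      (D.Y (1, S.upA l) 2 - D.Y (1, S.upA l) 0) := by
    unfold ND.uv
    rw [eq_div_iff (by linarith), sub_mul, div_mul_cancel₀ _ (by linarith)]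
    ring
  rw [hlv]
  unfold ND.X ND.Y at *
  rw [div_lt_div_iff₀ (by linarith) (by linarith)]
  rw [e2, e3, e4, X1] at G2'
  nlinarith [G2']

end Pool.Agent.H54R
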