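import Pool.Agent.Lib.H54R.FDefs
import Pool.Agent.Lib.H54R.S0
import Pool.Agent.Lib.H54R.S9
import Pool.Agent.Lib.H54R.S10
import Pool.Agent.Lib.H54R.S11
import Pool.Agent.Lib.H54R.S12
import Pool.Agent.Lib.H54R.S12R
import Pool.Agent.Lib.H54R.S13
import Pool.Agent.Lib.H54R.S16
import Pool.Agent.Lib.H54R.FL1
import Pool.Agent.Lib.H54R.FL3
import Pool.Agent.Lib.H54R.F1
import Pool.Agent.Lib.H54R.F2
import Pool.Agent.Lib.H54R.F3
import Pool.Agent.Lib.H54R.FGate

/-!
# F4: the gate AB' 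
-/

set_option autoImplicit false

namespace Pool.Agent.H54R

open RS

variable {S : RS} {h : S.WF}

/-- a long row wire, with its ends in the right order -/
theorem f4_rwire {N : Net} {D : ND N} (hD : Norm D) {i j : ℕ} (hi : i ≤ N.M) (hj : j < N.N) :
    ∃ G1 G2 : Vx, ((G1 = .L (4 * i) ∧ G2 = .R (4 * i)) ∨ (G1 = .R (4 * i) ∧ G2 = .L (4 * i))) ∧
      (D.p G1).2 = D.yc (4 * i) ∧ (D.p G2).2 = D.yc (4 * i) ∧
      (D.p G1).1 < D.xc (4 * j) ∧ D.xc (4 * j + 4) < (D.p G2).1 := by
  obtain ⟨G1, G2, h1, -, h3, h4, h5, h6⟩ := f3_wire (N := N.trN) (D := D.trD) hD.trD hj hi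
  refine ⟨G1.tr, G2.tr, ?_, h3, h4, h5, h6⟩
  rcases h1 with ⟨rfl, rfl⟩ | ⟨rfl, rfl⟩
  · left
    exact ⟨rfl, rfl⟩
  · right
    exact ⟨rfl, rfl⟩

theorem f4_rwire_li {N : Net} {i : ℕ} (hi : i ≤ N.M) {G1 G2 : Vx}
    (hG : (G1 = .L (4 * i) ∧ G2 = .R (4 * i)) ∨ (G1 = .R (4 * i) ∧ G2 = .L (4 * i))) :
    N.isV G1 ∧ N.isV G2 ∧ N.li G1 G2 := by
  have h1 : 4 * i ≤ 4 * N.M := by omega
  have h2 : N.li (.L (4 * i)) (.R (4 * i)) := s6b_li_row h1 (by omega)
  rcases hG with ⟨rfl, rfl⟩ | ⟨rfl, rfl⟩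
  · exact ⟨h1, h1, h2⟩
  · exact ⟨h1, h1, N.li_symm h2⟩

/-- `PD.gate` for the block `(3, l)` in the drawing `D.toPD.map quarter _` (which maps AB' to the shape
of AB): `s' = B (4 l + 1)`, `p' = (2, l) 3`, `q' = (2, l) 0`, `w' = (2, l) 1`, the wire from
`L (4 i)` to `R (4 i)`, `i = low (loB l)` (after the map `(x, y) ↦ (-y, x)` the rays go to the
right). The hypothesis `q.2 < p.2` is `f_c < f` (`f1_cols`, `f1_AB_cols`). -/
theorem f4_AB {D : ND (S.net h)} (hD : Norm D) {l : ℕ} (hl : l < 2 * S.K) :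
    D.Y (3, l) 2 = D.Y (3, l) 3 ∧ D.Y (3, l) 3 = D.Y (0, S.loB l) 1 ∧
      (D.X (2, l) 3 - D.X (2, l) 0) / (D.xc (4 * l + 3) - D.X (2, l) 0) < 1 - D.lv (S.loB l) := by
  have hρ := loB_lt h hl
  have hi : S.low (S.loB l) < S.MM := low_lt h hρ
  have hiM : S.low (S.loB l) < (S.net h).M := hi
  have hlane := lane_ge h hρ
  have hlane' := lane_lt h hρ
  have hlN : l < S.NN := by
    unfold NN
    omega
  have hlN' : l < (S.net h).N := hlN
  have B3 : FgB (S.net h) (3, l) := fgB_net (by omega) (by omega) hl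
  have B2 : FgB (S.net h) (2, l) := fgB_net (by omega) (by omega) hl
  have hrow3 : S.brow (3, l) = S.low (S.loB l) := by simp [brow]
  have hrow2 : S.brow (2, l) = S.low (S.loA l) := by simp [brow]
  have hcol3 : S.bcol (3, l) = l := by simp [bcol]
  have hcol2 : S.bcol (2, l) = l := by simp [bcol]
  have hrr := loA_lt_loB h hl
  have hrne : (S.net h).row (3, l) ≠ (S.net h).row (2, l) := by
    change S.brow (3, l) ≠ S.brow (2, l)
    rw [hrow3, hrow2]
    omega
  obtain ⟨-, lqs, -, lup, lB1, lcw⟩ := li_left h hl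
  obtain ⟨lqu, lut⟩ := li_loB h hl
  obtain ⟨l03, l51⟩ := li_lever' h hl (g := 3) (by omega) (by omega)
  have c1 := fg_cpl1 hlN'
  have c3 := fg_cpl3 hlN'
  have k1 := fg_cpl1 hiM
  have k3 := fg_cpl3 hiM
  have bc1 : S.bci (4 * l + 1) = [((3, l), 0)] := bci_left1 hl
  have bc3 : S.bci (4 * l + 3) = [((2, l), 1), ((3, l), 4)] := bci_left3 hl
  have br1 := bri_loB1 h hl
  have br3 := bri_loB3 h hl
  have hx13 : D.xc (4 * l + 1) < D.xc (4 * l + 3) := hD.xc_lt c1 c3 (by omega)
  have hy13 : D.yc (4 * S.low (S.loB l) + 1) < D.yc (4 * S.low (S.loB l) + 3) :=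
    hD.yc_lt k1 k3 (by omega)
  have X0 : (D.p (.blk (3, l) 0)).1 = D.xc (4 * l + 1) := fg_on hD c1 (by rw [bc1]; simp)
  have X4 : (D.p (.blk (3, l) 4)).1 = D.xc (4 * l + 3) := fg_on hD c3 (by rw [bc3]; simp)
  have Y1 : (D.p (.blk (3, l) 1)).2 = D.yc (4 * S.low (S.loB l) + 1) :=
    fg_ron hD k1 (by rw [br1]; simp)
  have Y0 : (D.p (.blk (3, l) 0)).2 = D.yc (4 * S.low (S.loB l) + 3) :=
    fg_ron hD k3 (by rw [br3]; simp)
  have Ya : D.Y (0, S.loB l) 0 = D.yc (4 * S.low (S.loB l) + 1) :=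
    fg_ron hD k1 (by rw [br1]; simp)
  have Yb : D.Y (0, S.loB l) 2 = D.yc (4 * S.low (S.loB l) + 3) :=
    fg_ron hD k3 (by rw [br3]; simp)
  -- the four directions
  have dc := fg_gt hD B3 c1 (e := 0) (by omega)
    (by
      intro c _ hc
      change ((3, l), c) ∉ S.bci (4 * l + 1)
      rw [bc1]
      simpa using hc) (c0 := 4) (by omega) (by omega) (by rw [X4]; exact hx13)
  have dd := fg_lt hD B3 c3 (e := 4) (by omega)
    (by
      intro c _ hc
      change ((3, l), c) ∉ S.bci (4 * l + 3)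
      rw [bc3]
      simpa using hc) (c0 := 0) (by omega) (by omega) (by rw [X0]; exact hx13)
  have df := fg_rlt hD B3 k3 (e := 0) (by omega)
    (by
      intro c _ hc
      change ((3, l), c) ∉ S.bri (4 * S.low (S.loB l) + 3)
      rw [br3]
      simpa using hc) (c0 := 1) (by omega) (by omega) (by rw [Y1]; exact hy13)
  have dk := fg_rgt hD B3 k1 (e := 1) (by omega)
    (by
      intro c _ hc
      change ((3, l), c) ∉ S.bri (4 * S.low (S.loB l) + 1)
      rw [br1]
      simpa using hc) (c0 := 0) (by omega) (by omega) (by rw [Y0]; exact hy13)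
  have cells := fg_cell hD B3
  have hcell2 : ∀ c < 6, (D.p (.blk (2, l) c)).2 < D.yc (4 * S.low (S.loB l)) := by
    intro c hc
    have h1 := ((fg_cell hD B2).1 c hc).2.2.2
    have h2 : D.yc (4 * (S.brow (2, l) + 1)) ≤ D.yc (4 * S.low (S.loB l)) :=
      f3_yle hD (by rw [hrow2]; omega) (by omega)
    exact lt_of_lt_of_le h1 h2
  obtain ⟨G1, G2, hG, g1, g2, g3, g4⟩ := f4_rwire hD (i := S.low (S.loB l)) (j := l)
    hiM.le hlN'
  obtain ⟨vG1, vG2, liG⟩ := f4_rwire_li (N := S.net h) hiM.le hG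
  have b3 : ∀ c < 6, (S.net h).isV (.blk (3, l) c) := B3.inB
  have b2 : ∀ c < 6, (S.net h).isV (.blk (2, l) c) := B2.inB
  have hkB : 4 * l + 1 ≤ 4 * (S.net h).N := by omega
  have r1 : (S.net h).li (.blk (3, l) 0) (.B (4 * l + 1)) := (S.net h).li_symm lB1
  have r2 : (S.net h).li (.blk (3, l) 5) (.blk (2, l) 3) := (S.net h).li_symm lup
  have r3 : (S.net h).li (.blk (3, l) 2) (.blk (2, l) 0) := (S.net h).li_symm lqs
  have r4 : (S.net h).li (.blk (3, l) 4) (.blk (2, l) 1) := (S.net h).li_symm lcw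
  have e1 := hD.ver_bB (B3.inB 0 (by omega)) hkB r1
  have e2 := hD.ver_bb (B3.inB 5 (by omega)) (B2.inB 3 (by omega)) hrne r2
  have e3 := hD.ver_bb (B3.inB 2 (by omega)) (B2.inB 0 (by omega)) hrne r3
  have e4 := hD.ver_bb (B3.inB 4 (by omega)) (B2.inB 1 (by omega)) hrne r4
  have hpB := f3_pB hD (B3.inB 0 (by omega)) hkB r1
  obtain ⟨-, hAc⟩ := f1_AB_cols hD hl
  have hAc1 := (f1_AB_cols hD hl).1
  have G := fg_gate D B3 quarter good_quarter (s' := .B (4 * l + 1)) (p' := .blk (2, l) 3)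
    (q' := .blk (2, l) 0) (w' := .blk (2, l) 1) (g1 := G1) (g2 := G2)
    (by
      intro v hv
      simp only [List.mem_cons, List.not_mem_nil, or_false] at hv
      rcases hv with rfl | rfl | rfl | rfl | rfl | rfl
      · exact hkB
      · exact b2 3 (by omega)
      · exact b2 0 (by omega)
      · exact b2 1 (by omega)
      · exact vG1
      · exact vG2)
    (by
      intro v hv c
      simp only [List.mem_cons, List.not_mem_nil, or_false] at hv
      rcases hG with ⟨rfl, rfl⟩ | ⟨rfl, rfl⟩ <;>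
        rcases hv with rfl | rfl | rfl | rfl | rfl | rfl <;> simp)
    (by
      rcases hG with ⟨rfl, rfl⟩ | ⟨rfl, rfl⟩ <;> simp)
    l03 l51 lqu r1 r2 r3 r4 liG e1.symm e2.symm e3.symm e4.symm
    (by
      change -(D.p G1).2 = -(D.p G2).2
      rw [g1, g2])
    (by
      change (D.p G1).1 < (D.p (.blk (3, l) 0)).1
      have h1 := (cells.1 0 (by omega)).1
      change D.xc (4 * S.bcol (3, l)) < _ at h1
      rw [hcol3] at h1
      exact g3.trans h1)
    (by
      change (D.p (.blk (3, l) 4)).1 < (D.p G2).1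
      have h1 := (cells.1 4 (by omega)).2.1
      change _ < D.xc (4 * S.bcol (3, l) + 4) at h1
      rw [hcol3] at h1
      exact h1.trans g4)
    (by
      constructor
      · intro c hc
        have h1 := (cells.1 c hc).2.2.1
        change D.yc (4 * S.brow (3, l)) < _ at h1
        rw [hrow3, ← g1] at h1
        exact neg_lt_neg h1
      · intro q hq
        have h1 := (cells.2 q hq).2.2.1
        change D.yc (4 * S.brow (3, l)) < _ at h1
        rw [hrow3, ← g1] at h1
        exact neg_lt_neg h1)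
    (by
      intro v hv
      simp only [List.mem_cons, List.not_mem_nil, or_false] at hv
      have key : (D.p v).2 < D.yc (4 * S.low (S.loB l)) := by
        rcases hv with rfl | rfl | rfl | rfl
        · change _ < D.yc (4 * S.brow (3, l)) at hpB
          rw [hrow3] at hpB
          exact hpB
        · exact hcell2 3 (by omega)
        · exact hcell2 0 (by omega)
        · exact hcell2 1 (by omega)
      rw [← g1] at key
      exact neg_lt_neg key)
    (by
      constructor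
      · intro c hc hc0
        change (D.p (.blk (3, l) 0)).1 < (D.p (.blk (3, l) c)).1
        rw [X0]
        exact dc.1 c hc hc0
      · intro q hq
        change (D.p (.blk (3, l) 0)).1 < (D.m (.blk (3, l) q.1) (.blk (3, l) q.2)).1
        rw [X0]
        exact dc.2 q hq)
    (by
      constructor
      · intro c hc hc0
        change (D.p (.blk (3, l) c)).1 < (D.p (.blk (3, l) 4)).1
        rw [X4]
        exact dd.1 c hc hc0
      · intro q hq
        change (D.m (.blk (3, l) q.1) (.blk (3, l) q.2)).1 < (D.p (.blk (3, l) 4)).1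
        rw [X4]
        exact dd.2 q hq)
    (by
      constructor
      · intro c hc hc0
        have h1 := df.1 c hc hc0
        rw [← Y0] at h1
        exact neg_lt_neg h1
      · intro q hq
        have h1 := df.2 q hq
        rw [← Y0] at h1
        exact neg_lt_neg h1)
    (by
      constructor
      · intro c hc hc0
        have h1 := dk.1 c hc hc0
        rw [← Y1] at h1
        exact neg_lt_neg h1
      · intro q hq
        have h1 := dk.2 q hq
        rw [← Y1] at h1
        exact neg_lt_neg h1)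
    (by
      change (D.p (.blk (3, l) 2)).1 < (D.p (.blk (3, l) 5)).1
      have h1 : (D.p (.blk (2, l) 0)).1 < (D.p (.blk (2, l) 3)).1 := hAc1 3 (by simp)
      rw [e2, e3]
      exact h1)
  simp only [quarter_apply] at G
  obtain ⟨G1', G2'⟩ := G
  have hhor : D.Y (3, l) 3 = D.Y (0, S.loB l) 1 := by
    have hcne : (S.net h).col (3, l) ≠ (S.net h).col (0, S.loB l) := by
      change S.bcol (3, l) ≠ S.bcol (0, S.loB l)
      have h1 : S.bcol (0, S.loB l) = S.lane (S.loB l) := by simp [bcol]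
      rw [hcol3, h1]
      omega
    exact hD.hor_bb (B3.inB 3 (by omega)) (b' := (0, S.loB l)) (c' := 1)
      (Or.inl ⟨by simp, hρ, by omega⟩) hcne lut
  refine ⟨neg_injective G1', hhor, ?_⟩
  have x0 : (D.p (.blk (2, l) 0)).1 < D.xc (4 * l + 3) := by
    have h1 := dd.1 2 (by omega) (by omega)
    rw [e3] at h1
    exact h1
  have hlv : 1 - D.lv (S.loB l) = (D.Y (0, S.loB l) 2 - D.Y (0, S.loB l) 1) /
      (D.Y (0, S.loB l) 2 - D.Y (0, S.loB l) 0) := by
    unfold ND.lv
    rw [Ya, Yb, eq_div_iff (by linarith), sub_mul, div_mul_cancel₀ _ (by linarith)]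
    ring
  rw [hlv, ← hhor, Ya, Yb]
  unfold ND.X ND.Y
  rw [div_lt_div_iff₀ (by linarith) (by linarith)]
  rw [e2, e3, X4, Y0, Y1] at G2'
  nlinarith [G2']

end Pool.Agent.H54R
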