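import Pool.Agent.Lib.H54R.FDefs
import Pool.Agent.Lib.H54R.S0
import Pool.Agent.Lib.H54R.S9
import Pool.Agent.Lib.H54R.S10
import Pool.Agent.Lib.H54R.S11
import Pool.Agent.Lib.H54R.S12
import Pool.Agent.Lib.H54R.S12R
import Pool.Agent.Lib.H54R.S13
import Pool.Agent.Lib.H54R.S16
import Pool.Agent.Lib.H54R.FL2
import Pool.Agent.Lib.H54R.FL3
import Pool.Agent.Lib.H54R.F1U
import Pool.Agent.Lib.H54R.F2U
import Pool.Agent.Lib.H54R.F4

/-!
# F4U: the gate ABr' 
-/

set_option autoImplicit false

namespace Pool.Agent.H54R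

open RS

variable {S : RS} {h : S.WF}

/-- the map `(x, y) ↦ (y, -x)` -/
def f4uE : Pt ≃ₗ[ℝ] Pt := swapE.trans negY

theorem f4uE_apply (a : Pt) : f4uE a = (a.2, -a.1) := rfl

theorem f4u_good : GoodMap f4uE := by
  right
  intro a b
  constructor
  · change -a.1 = -b.1 ↔ a.1 = b.1
    exact neg_inj
  · exact Iff.rfl

/-- the version of `f4_AB` for the block `(5, l)`: apply `PD.gate` to the image under
`(x, y) ↦ (y, -x)` -/
theorem f4u_AB {D : ND (S.net h)} (hD : Norm D) {l : ℕ} (hl : l < 2 * S.K) :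
    D.Y (5, l) 2 = D.Y (5, l) 3 ∧ D.Y (5, l) 3 = D.Y (1, S.upB l) 1 ∧
      (D.X (4, l) 0 - D.X (4, l) 3) / (D.X (4, l) 0 - D.xc (4 * S.rlane l + 1)) <
        D.uv (S.upB l) := by
  have hρ := upB_lt h hl
  have hρA := upA_lt h hl
  have hi : S.upr (S.upB l) < S.MM := upr_lt h hρ
  have hiM : S.upr (S.upB l) < (S.net h).M := hi
  have hlane := lane_lt h hρ
  have hrl : S.rlane 0 ≤ S.rlane l := by
    unfold rlane
    omega
  have hlN : S.rlane l < S.NN := rlane_lt h hl
  have hlN' : S.rlane l < (S.net h).N := hlN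
  have B5 : FgB (S.net h) (5, l) := fgB_net (by omega) (by omega) hl
  have B4 : FgB (S.net h) (4, l) := fgB_net (by omega) (by omega) hl
  have hrow5 : S.brow (5, l) = S.upr (S.upB l) := by simp [brow]
  have hrow4 : S.brow (4, l) = S.upr (S.upA l) := by simp [brow]
  have hcol5 : S.bcol (5, l) = S.rlane l := by simp [bcol]
  have hrr := upB_lt_upA h hl
  have hiA : S.upr (S.upA l) < S.MM := upr_lt h hρA
  have hrne : (S.net h).row (5, l) ≠ (S.net h).row (4, l) := by
    change S.brow (5, l) ≠ S.brow (4, l)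
    rw [hrow5, hrow4]
    omega
  obtain ⟨-, lqs, -, lup, lB1, lcw⟩ := li_right h hl
  obtain ⟨lqu, lut⟩ := li_upB h hl
  obtain ⟨l03, l51⟩ := li_lever' h hl (g := 5) (by omega) (by omega)
  have c1 := fg_cpl1 hlN'
  have c3 := fg_cpl3 hlN'
  have k1 := fg_cpl1 hiM
  have k3 := fg_cpl3 hiM
  have bc1 := bci_right1 h hl
  have bc3 := bci_right3 h hl
  have br1 := bri_upB1 h hl
  have br3 := bri_upB3 h hl
  have hx13 : D.xc (4 * S.rlane l + 1) < D.xc (4 * S.rlane l + 3) := hD.xc_lt c1 c3 (by omega)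
  have hy13 : D.yc (4 * S.upr (S.upB l) + 1) < D.yc (4 * S.upr (S.upB l) + 3) :=
    hD.yc_lt k1 k3 (by omega)
  have X0 : (D.p (.blk (5, l) 0)).1 = D.xc (4 * S.rlane l + 3) :=
    fg_on hD c3 (by rw [bc3]; simp)
  have X4 : (D.p (.blk (5, l) 4)).1 = D.xc (4 * S.rlane l + 1) :=
    fg_on hD c1 (by rw [bc1]; simp)
  have Y1 : (D.p (.blk (5, l) 1)).2 = D.yc (4 * S.upr (S.upB l) + 3) :=
    fg_ron hD k3 (by rw [br3]; simp)
  have Y0 : (D.p (.blk (5, l) 0)).2 = D.yc (4 * S.upr (S.upB l) + 1) :=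
    fg_ron hD k1 (by rw [br1]; simp)
  have Ya : D.Y (1, S.upB l) 0 = D.yc (4 * S.upr (S.upB l) + 1) :=
    fg_ron hD k1 (by rw [br1]; simp)
  have Yb : D.Y (1, S.upB l) 2 = D.yc (4 * S.upr (S.upB l) + 3) :=
    fg_ron hD k3 (by rw [br3]; simp)
  -- the four directions
  have dc := fg_lt hD B5 c3 (e := 0) (by omega)
    (by
      intro c _ hc
      change ((5, l), c) ∉ S.bci (4 * S.rlane l + 3)
      rw [bc3]
      simpa using hc) (c0 := 4) (by omega) (by omega) (by rw [X4]; exact hx13)
  have dd := fg_gt hD B5 c1 (e := 4) (by omega)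
    (by
      intro c _ hc
      change ((5, l), c) ∉ S.bci (4 * S.rlane l + 1)
      rw [bc1]
      simpa using hc) (c0 := 0) (by omega) (by omega) (by rw [X0]; exact hx13)
  have df := fg_rgt hD B5 k1 (e := 0) (by omega)
    (by
      intro c _ hc
      change ((5, l), c) ∉ S.bri (4 * S.upr (S.upB l) + 1)
      rw [br1]
      simpa using hc) (c0 := 1) (by omega) (by omega) (by rw [Y1]; exact hy13)
  have dk := fg_rlt hD B5 k3 (e := 1) (by omega)
    (by
      intro c _ hc
      change ((5, l), c) ∉ S.bri (4 * S.upr (S.upB l) + 3)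
      rw [br3]
      simpa using hc) (c0 := 0) (by omega) (by omega) (by rw [Y0]; exact hy13)
  have cells := fg_cell hD B5
  have hcell4 : ∀ c < 6, D.yc (4 * (S.upr (S.upB l) + 1)) < (D.p (.blk (4, l) c)).2 := by
    intro c hc
    have h1 := ((fg_cell hD B4).1 c hc).2.2.1
    have h2 : D.yc (4 * (S.upr (S.upB l) + 1)) ≤ D.yc (4 * S.brow (4, l)) :=
      f3_yle hD (by rw [hrow4]; omega) (by rw [hrow4]; exact hiA.le)
    exact lt_of_le_of_lt h2 h1
  obtain ⟨G1, G2, hG, g1, g2, g3, g4⟩ := f4_rwire hD (i := S.upr (S.upB l) + 1) (j := S.rlane l)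
    hiM hlN'
  obtain ⟨vG1, vG2, liG⟩ := f4_rwire_li (N := S.net h) hiM hG
  have b5 : ∀ c < 6, (S.net h).isV (.blk (5, l) c) := B5.inB
  have b4 : ∀ c < 6, (S.net h).isV (.blk (4, l) c) := B4.inB
  have hkT : 4 * S.rlane l + 3 ≤ 4 * (S.net h).N := by omega
  have r1 : (S.net h).li (.blk (5, l) 0) (.T (4 * S.rlane l + 3)) := lB1
  have r2 : (S.net h).li (.blk (5, l) 5) (.blk (4, l) 3) := lup
  have r3 : (S.net h).li (.blk (5, l) 2) (.blk (4, l) 0) := lqs
  have r4 : (S.net h).li (.blk (5, l) 4) (.blk (4, l) 1) := lcw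
  have e1 := hD.ver_bT (B5.inB 0 (by omega)) hkT r1
  have e2 := hD.ver_bb (B5.inB 5 (by omega)) (B4.inB 3 (by omega)) hrne r2
  have e3 := hD.ver_bb (B5.inB 2 (by omega)) (B4.inB 0 (by omega)) hrne r3
  have e4 := hD.ver_bb (B5.inB 4 (by omega)) (B4.inB 1 (by omega)) hrne r4
  have hpT := f3_pT hD (B5.inB 0 (by omega)) hkT r1
  have hAc1 := (f1u_AB_cols hD hl).1
  have G := fg_gate D B5 f4uE f4u_good (s' := .T (4 * S.rlane l + 3)) (p' := .blk (4, l) 3)
    (q' := .blk (4, l) 0) (w' := .blk (4, l) 1) (g1 := G2) (g2 := G1)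
    (by
      intro v hv
      simp only [List.mem_cons, List.not_mem_nil, or_false] at hv
      rcases hv with rfl | rfl | rfl | rfl | rfl | rfl
      · exact hkT
      · exact b4 3 (by omega)
      · exact b4 0 (by omega)
      · exact b4 1 (by omega)
      · exact vG2
      · exact vG1)
    (by
      intro v hv c
      simp only [List.mem_cons, List.not_mem_nil, or_false] at hv
      rcases hG with ⟨rfl, rfl⟩ | ⟨rfl, rfl⟩ <;>
        rcases hv with rfl | rfl | rfl | rfl | rfl | rfl <;> simp)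
    (by
      rcases hG with ⟨rfl, rfl⟩ | ⟨rfl, rfl⟩ <;> simp)
    l03 l51 ((S.net h).li_symm lqu) r1 r2 r3 r4 ((S.net h).li_symm liG)
    (by
      change -(D.p (.T (4 * S.rlane l + 3))).1 = -(D.p (.blk (5, l) 0)).1
      rw [← e1])
    (by
      change -(D.p (.blk (4, l) 3)).1 = -(D.p (.blk (5, l) 5)).1
      rw [← e2])
    (by
      change -(D.p (.blk (4, l) 0)).1 = -(D.p (.blk (5, l) 2)).1
      rw [← e3])
    (by
      change -(D.p (.blk (4, l) 1)).1 = -(D.p (.blk (5, l) 4)).1
      rw [← e4])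
    (by
      change (D.p G2).2 = (D.p G1).2
      rw [g1, g2])
    (by
      change -(D.p G2).1 < -(D.p (.blk (5, l) 0)).1
      have h1 := (cells.1 0 (by omega)).2.1
      change _ < D.xc (4 * S.bcol (5, l) + 4) at h1
      rw [hcol5] at h1
      exact neg_lt_neg (h1.trans g4))
    (by
      change -(D.p (.blk (5, l) 4)).1 < -(D.p G1).1
      have h1 := (cells.1 4 (by omega)).1
      change D.xc (4 * S.bcol (5, l)) < _ at h1
      rw [hcol5] at h1
      exact neg_lt_neg (g3.trans h1))
    (by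
      constructor
      · intro c hc
        have h1 := (cells.1 c hc).2.2.2
        change _ < D.yc (4 * (S.brow (5, l) + 1)) at h1
        rw [hrow5, ← g2] at h1
        exact h1
      · intro q hq
        have h1 := (cells.2 q hq).2.2.2
        change _ < D.yc (4 * (S.brow (5, l) + 1)) at h1
        rw [hrow5, ← g2] at h1
        exact h1)
    (by
      intro v hv
      simp only [List.mem_cons, List.not_mem_nil, or_false] at hv
      have key : D.yc (4 * (S.upr (S.upB l) + 1)) < (D.p v).2 := by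
        rcases hv with rfl | rfl | rfl | rfl
        · change D.yc (4 * (S.brow (5, l) + 1)) < _ at hpT
          rw [hrow5] at hpT
          exact hpT
        · exact hcell4 3 (by omega)
        · exact hcell4 0 (by omega)
        · exact hcell4 1 (by omega)
      rw [← g2] at key
      exact key)
    (by
      constructor
      · intro c hc hc0
        have h1 := dc.1 c hc hc0
        rw [← X0] at h1
        exact neg_lt_neg h1
      · intro q hq
        have h1 := dc.2 q hq
        rw [← X0] at h1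
        exact neg_lt_neg h1)
    (by
      constructor
      · intro c hc hc0
        have h1 := dd.1 c hc hc0
        rw [← X4] at h1
        exact neg_lt_neg h1
      · intro q hq
        have h1 := dd.2 q hq
        rw [← X4] at h1
        exact neg_lt_neg h1)
    (by
      constructor
      · intro c hc hc0
        have h1 := df.1 c hc hc0
        rw [← Y0] at h1
        exact h1
      · intro q hq
        have h1 := df.2 q hq
        rw [← Y0] at h1
        exact h1)
    (by
      constructor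
      · intro c hc hc0
        have h1 := dk.1 c hc hc0
        rw [← Y1] at h1
        exact h1
      · intro q hq
        have h1 := dk.2 q hq
        rw [← Y1] at h1
        exact h1)
    (by
      change -(D.p (.blk (5, l) 2)).1 < -(D.p (.blk (5, l) 5)).1
      have h1 : (D.p (.blk (4, l) 3)).1 < (D.p (.blk (4, l) 0)).1 := hAc1 3 (by simp)
      rw [e2, e3]
      exact neg_lt_neg h1)
  simp only [f4uE_apply] at G
  obtain ⟨G1', G2'⟩ := G
  have hhor : D.Y (5, l) 3 = D.Y (1, S.upB l) 1 := by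
    have hcne : (S.net h).col (1, S.upB l) ≠ (S.net h).col (5, l) := by
      change S.bcol (1, S.upB l) ≠ S.bcol (5, l)
      have h1 : S.bcol (1, S.upB l) = S.lane (S.upB l) := by simp [bcol]
      rw [hcol5, h1]
      omega
    exact (hD.hor_bb (b := (1, S.upB l)) (c := 1) (b' := (5, l)) (c' := 3)
      (Or.inl ⟨by simp, hρ, by omega⟩) (B5.inB 3 (by omega)) hcne lut).symm
  refine ⟨G1', hhor, ?_⟩
  have x0 : D.xc (4 * S.rlane l + 1) < (D.p (.blk (4, l) 0)).1 := by
    have h1 := dd.1 2 (by omega) (by omega)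
    rw [e3] at h1
    exact h1
  unfold ND.uv
  rw [← hhor, Ya, Yb]
  unfold ND.X ND.Y
  rw [div_lt_div_iff₀ (by linarith) (by linarith)]
  rw [e2, e3, X4, Y0, Y1] at G2'
  nlinarith [G2']

end Pool.Agent.H54R
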