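import Pool.Agent.Lib.H54R.FDefs
import Pool.Agent.Lib.H54R.S9
import Pool.Agent.Lib.H54R.S10
import Pool.Agent.Lib.H54R.S11
import Pool.Agent.Lib.H54R.S12
import Pool.Agent.Lib.H54R.S13
import Pool.Agent.Lib.H54R.FL3
import Pool.Agent.Lib.H54R.F2
import Pool.Agent.Lib.H54R.F2U
import Pool.Agent.Lib.H54R.F3
import Pool.Agent.Lib.H54R.F4
import Pool.Agent.Lib.H54R.F3U
import Pool.Agent.Lib.H54R.F4U

/-!
# F5: lines in the lanes of the reads, levers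
-/

set_option autoImplicit false

namespace Pool.Agent.H54R

open RS

variable {S : RS} {h : S.WF}

theorem f5_edg_map {α β : Type} (g : α → β) (l : List α) {e : β × β} (he : e ∈ edg (l.map g)) :
    ∃ v w, (v, w) ∈ edg l ∧ e = (g v, g w) := by
  unfold edg at he
  rw [← List.map_tail, List.zip_map] at he
  obtain ⟨⟨v, w⟩, hv, rfl⟩ := List.mem_map.1 he
  exact ⟨v, w, hv, rfl⟩

/-- a list of vertices of blocks in increasing row lanes, joined by light edges -/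
theorem f5_line {D : ND (S.net h)} (hD : Norm D) (l : List ((ℕ × ℕ) × ℕ))
    (hs : l.Pairwise fun v w => S.brow v.1 < S.brow w.1) (hb : ∀ v ∈ l, S.binB v.1 v.2)
    (he : ∀ e ∈ edg (bx l), S.li e.1 e.2) :
    ∀ v ∈ bx l, ∀ w ∈ bx l, (D.p v).1 = (D.p w).1 := by
  have hedge : ∀ e ∈ edg (bx l), (D.p e.1).1 = (D.p e.2).1 := by
    intro e hel
    have h1 := he e hel
    obtain ⟨v, w, hvw, rfl⟩ := f5_edg_map _ _ hel
    obtain ⟨h2, hv, hw⟩ := s9_pair _ _ _ _ hvw hs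
    exact hD.ver_bb (hb v hv) (hb w hw) (ne_of_lt h2) h1
  intro v hv w hw
  rcases hbl : bx l with _ | ⟨a, l'⟩
  · rw [hbl] at hv
    simp at hv
  · rw [hbl] at hv hw hedge
    have h1 := s9_const (fun v => (D.p v).1) l' a hedge
    exact (h1 v hv).trans (h1 w hw).symm

theorem f5_low_col {ρ : ℕ} (g : ℕ) (hg : g ≤ 1) : S.bcol (g, ρ) = S.lane ρ := by
  unfold bcol
  rw [if_pos]
  simp only
  omega

theorem f5_left_col {l : ℕ} (g : ℕ) (hg : 2 ≤ g) (hg' : g ≤ 3) : S.bcol (g, l) = l := by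
  unfold bcol
  rw [if_neg, if_pos]
  · simp only
    omega
  · simp only
    omega

theorem f5_right_col {l : ℕ} (g : ℕ) (hg : 4 ≤ g) : S.bcol (g, l) = S.rlane l := by
  unfold bcol
  rw [if_neg, if_neg]
  · simp only
    omega
  · simp only
    omega

theorem f5_inR {ρ : ℕ} (hρ : ρ < S.R) {g c : ℕ} (hg : g ≤ 1) (hc : c < 3) : S.binB (g, ρ) c :=
  Or.inl ⟨hg, hρ, hc⟩

theorem f5_inL {l : ℕ} (hl : l < 2 * S.K) {g c : ℕ} (hg : 2 ≤ g) (hg' : g ≤ 5) (hc : c < 6) :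
    S.binB (g, l) c :=
  Or.inr ⟨hg, hg', hl, hc⟩

theorem f5_cpl0 {j : ℕ} (hj : j ≤ S.NN) : Cpl (S.net h).N (4 * j) :=
  ⟨Nat.mul_le_mul_left 4 hj, by omega⟩

theorem f5_cpl1 {j : ℕ} (hj : j < S.NN) : Cpl (S.net h).N (4 * j + 1) := by
  refine ⟨?_, by omega⟩
  change 4 * j + 1 ≤ 4 * S.NN
  omega

theorem f5_cpl3 {j : ℕ} (hj : j < S.NN) : Cpl (S.net h).N (4 * j + 3) := by
  refine ⟨?_, by omega⟩
  change 4 * j + 3 ≤ 4 * S.NN
  omega

theorem f5_xle {D : ND (S.net h)} (hD : Norm D) {i j : ℕ} (hij : i ≤ j) (hj : j ≤ S.NN) :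
    D.xc (4 * i) ≤ D.xc (4 * j) := by
  rcases hij.eq_or_lt with rfl | hlt
  · exact le_refl _
  · exact (hD.xc_lt (f5_cpl0 (by omega)) (f5_cpl0 hj) (by omega)).le

/-- vertices in different column lanes -/
theorem f5_col_lt {D : ND (S.net h)} (hD : Norm D) {b b' : ℕ × ℕ} {c c' : ℕ} (hb : S.binB b c)
    (hb' : S.binB b' c') (hlt : S.bcol b < S.bcol b') :
    (D.p (.blk b c)).1 < (D.p (.blk b' c')).1 := by
  have h1 := hD.cell (b := b) (c := c) hb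
  have h2 := hD.cell (b := b') (c := c') hb'
  have h3 : D.xc (4 * (S.bcol b + 1)) ≤ D.xc (4 * S.bcol b') :=
    f5_xle hD hlt (bcol_lt h hb').le
  have h4 : (D.p (.blk b c)).1 < D.xc (4 * (S.bcol b + 1)) := h1.2.1
  exact (h4.trans_le h3).trans h2.1

/-- the links -/
theorem f5_lo {D : ND (S.net h)} (hD : Norm D) {l : ℕ} (hl : l < 2 * S.K) :
    D.lv (loE l) + D.lv (loF l) < 1 := by
  have h1 := (f3_AB hD hl).2
  have h2 := (f4_AB hD hl).2.2
  rcases S.lo_pair l with ⟨e1, e2⟩ | ⟨e1, e2⟩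
  · rw [e1] at h1
    rw [e2] at h2
    linarith
  · rw [e1] at h1
    rw [e2] at h2
    linarith

theorem f5_up {D : ND (S.net h)} (hD : Norm D) {l : ℕ} (hl : l < 2 * S.K) :
    1 < D.uv (2 * l) + D.uv (2 * l + 1) := by
  have h1 := (f3u_AB hD hl).2
  have h2 := (f4u_AB hD hl).2.2
  rcases S.up_pair l with ⟨e1, e2⟩ | ⟨e1, e2⟩
  · rw [e1] at h1
    rw [e2] at h2
    linarith
  · rw [e1] at h1
    rw [e2] at h2
    linarith

theorem f5_lv_pos {D : ND (S.net h)} (hD : Norm D) {ρ : ℕ} (hρ : ρ < S.R) :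
    0 < D.lv ρ ∧ D.lv ρ < 1 ∧ 0 < D.uv ρ ∧ D.uv ρ < 1 := by
  obtain ⟨_, h1, h2, _, _⟩ := f2_low hD hρ
  obtain ⟨_, h3, h4, _, _⟩ := f2_up hD hρ
  unfold ND.lv ND.uv
  refine ⟨div_pos (by linarith) (by linarith), ?_, div_pos (by linarith) (by linarith), ?_⟩
  · rw [div_lt_one (by linarith)]
    linarith
  · rw [div_lt_one (by linarith)]
    linarith

/-- all vertices of the line `k` of a read have the same first coordinate -/
theorem f5_ck {D : ND (S.net h)} (hD : Norm D) {ρ : ℕ} (hρ : ρ < S.R) :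
    ∀ v ∈ S.ck ρ, (D.p v).1 = D.X (0, ρ) 1 := by
  intro v hv
  obtain ⟨l, hl, hs, hb⟩ := ck_sorted h hρ
  have h1 := (mem_ck_self S ρ).1
  have he := li_ck h hρ
  rw [hl] at hv h1 he
  exact f5_line hD l hs hb he v hv _ h1

/-- all vertices of a variable line have the same first coordinate -/
theorem f5_cX {D : ND (S.net h)} (hD : Norm D) {ρ : ℕ} (hρ : ρ < S.R) (hk : S.kd ρ ≠ 0) :
    ∀ v ∈ S.cX (S.lane ρ), (D.p v).1 = D.XX (S.lane ρ) := by
  intro v hv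
  obtain ⟨l, hl, hs, hb⟩ := cX_sorted h (S.lane ρ)
  have hne := cX_ne_nil h hρ hk
  have he := li_cX h hρ
  unfold ND.XX
  have h1 : (S.cX (S.lane ρ)).headD (.hub 0) ∈ S.cX (S.lane ρ) := by
    rcases hc : S.cX (S.lane ρ) with _ | ⟨a, l'⟩
    · exact absurd hc hne
    · simp
  rw [hl] at hv h1 he ⊢
  exact f5_line hD l hs hb he v hv _ h1

/-- the lever of a lower block (`PD.lever`; the left neighbour of `t` is in the left link lane) -/
theorem f5_lever {D : ND (S.net h)} (hD : Norm D) {ρ : ℕ} (hρ : ρ < S.R)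
    (hx : D.X (0, ρ) 0 < D.X (0, ρ) 2) :
    (D.X (0, ρ) 1 - D.X (0, ρ) 0) / (D.X (0, ρ) 2 - D.X (0, ρ) 0) < D.lv ρ := by
  obtain ⟨_, h1, h2, _, _⟩ := f2_low hD hρ
  have hl := lkL_lt h hρ
  have hlane := lane_ge h hρ
  have b0 : S.binB (0, ρ) 0 := f5_inR hρ (by omega) (by omega)
  have b1 : S.binB (0, ρ) 1 := f5_inR hρ (by omega) (by omega)
  have b2 : S.binB (0, ρ) 2 := f5_inR hρ (by omega) (by omega)
  have key : ∃ g c, S.binB (g, lkL ρ) c ∧ S.bcol (g, lkL ρ) = lkL ρ ∧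
      S.li (.blk (g, lkL ρ) c) (.blk (0, ρ) 1) := by
    rcases eq_loA_or S ρ with e | e
    · have h3 := (li_loA h hl).2.2.2.2.1
      rw [← e] at h3
      exact ⟨2, 5, f5_inL hl (by omega) (by omega) (by omega),
        f5_left_col 2 (by omega) (by omega), h3⟩
    · have h3 := (li_loB h hl).2
      rw [← e] at h3
      exact ⟨3, 3, f5_inL hl (by omega) (by omega) (by omega),
        f5_left_col 3 (by omega) (by omega), h3⟩
  obtain ⟨g, c, hb, hcol, hli⟩ := key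
  have hcolr : S.bcol (0, ρ) = S.lane ρ := f5_low_col 0 (by omega)
  have hlt : S.bcol (g, lkL ρ) < S.bcol (0, ρ) := by
    rw [hcol, hcolr]
    omega
  have h4 := f5_col_lt hD hb b0 hlt
  have h5 := hD.hor_bb (b := (g, lkL ρ)) (b' := (0, ρ)) hb b1 (ne_of_lt hlt) hli
  have hsv : D.Lt (D.p (.blk (0, ρ) 0)) (D.p (.blk (0, ρ) 2)) :=
    D.Lt_of (a := .blk (0, ρ) 0) (b := .blk (0, ρ) 2) b0 b2 (li_lever h hρ (by omega))
  have htl : D.Lt (D.p (.blk (0, ρ) 1)) (D.p (.blk (g, lkL ρ) c)) :=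
    D.Lsymm (D.Lt_of (a := .blk (g, lkL ρ) c) (b := .blk (0, ρ) 1) hb b1 hli)
  have h6 := D.toPD.lever hsv htl hx h1 h2 h4 h5
  unfold ND.lv
  unfold ND.X ND.Y at *
  rw [div_lt_div_iff₀ (by linarith) (by linarith)]
  exact h6

/-- the lever of an upper block (rotated) -/
theorem f5_lever_up {D : ND (S.net h)} (hD : Norm D) {ρ : ℕ} (hρ : ρ < S.R)
    (hx : D.X (1, ρ) 0 < D.X (1, ρ) 2) :
    D.uv ρ < (D.X (0, ρ) 1 - D.X (1, ρ) 0) / (D.X (1, ρ) 2 - D.X (1, ρ) 0) := by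
  obtain ⟨_, h1, h2, _, _⟩ := f2_up hD hρ
  have hl := lkU_lt h hρ
  have hlane := lane_lt h hρ
  have b0 : S.binB (1, ρ) 0 := f5_inR hρ (by omega) (by omega)
  have b1 : S.binB (1, ρ) 1 := f5_inR hρ (by omega) (by omega)
  have b2 : S.binB (1, ρ) 2 := f5_inR hρ (by omega) (by omega)
  have key : ∃ g c, S.binB (g, lkU ρ) c ∧ S.bcol (g, lkU ρ) = S.rlane (lkU ρ) ∧
      S.li (.blk (1, ρ) 1) (.blk (g, lkU ρ) c) := by
    rcases eq_upA_or S ρ with e | e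
    · have h3 := (li_upA h hl).2.2.2.1
      rw [← e] at h3
      exact ⟨4, 5, f5_inL hl (by omega) (by omega) (by omega), f5_right_col 4 (by omega), h3⟩
    · have h3 := (li_upB h hl).2
      rw [← e] at h3
      exact ⟨5, 3, f5_inL hl (by omega) (by omega) (by omega), f5_right_col 5 (by omega), h3⟩
  obtain ⟨g, c, hb, hcol, hli⟩ := key
  have hcolr : S.bcol (1, ρ) = S.lane ρ := f5_low_col 1 (by omega)
  have hlt : S.bcol (1, ρ) < S.bcol (g, lkU ρ) := by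
    rw [hcol, hcolr]
    refine lt_of_lt_of_le hlane ?_
    unfold rlane
    omega
  have h4 := f5_col_lt hD b2 hb hlt
  have h5 := hD.hor_bb (b := (1, ρ)) (b' := (g, lkU ρ)) b1 hb (ne_of_lt hlt) hli
  have hsv : D.Lt (D.p (.blk (1, ρ) 0)) (D.p (.blk (1, ρ) 2)) :=
    D.Lt_of (a := .blk (1, ρ) 0) (b := .blk (1, ρ) 2) b0 b2 (li_lever h hρ (by omega))
  have htl : D.Lt (D.p (.blk (1, ρ) 1)) (D.p (.blk (g, lkU ρ) c)) :=
    D.Lt_of (a := .blk (1, ρ) 1) (b := .blk (g, lkU ρ) c) b1 hb hli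
  have hk : D.X (0, ρ) 1 = D.X (1, ρ) 1 := (f5_ck hD hρ _ (mem_ck_self S ρ).2).symm
  have h6 := (D.toPD.map rotE good_rot).lever (s := rotE (D.p (.blk (1, ρ) 2)))
    (t := rotE (D.p (.blk (1, ρ) 1))) (v := rotE (D.p (.blk (1, ρ) 0)))
    (l := rotE (D.p (.blk (g, lkU ρ) c)))
    (by
      change D.Lt (rotE.symm (rotE _)) (rotE.symm (rotE _))
      rw [LinearEquiv.symm_apply_apply, LinearEquiv.symm_apply_apply]
      exact D.Lsymm hsv)
    (by
      change D.Lt (rotE.symm (rotE _)) (rotE.symm (rotE _))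
      rw [LinearEquiv.symm_apply_apply, LinearEquiv.symm_apply_apply]
      exact htl)
    (neg_lt_neg hx) (neg_lt_neg h2) (neg_lt_neg h1) (neg_lt_neg h4)
    (by
      change -(D.p (.blk (g, lkU ρ) c)).2 = -(D.p (.blk (1, ρ) 1)).2
      rw [← h5])
  rw [hk]
  simp only [rotE_apply] at h6
  unfold ND.uv
  unfold ND.X ND.Y at *
  rw [div_lt_div_iff₀ (by linarith) (by linarith)]
  nlinarith [h6]

theorem f5_first {k j : ℕ} (hne : S.rd k j ≠ []) :
    ∃ ρ < S.R, S.kd ρ = k ∧ S.lane ρ = j ∧ S.First ρ := by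
  classical
  obtain ⟨ρ, hρ⟩ := List.exists_mem_of_ne_nil _ hne
  rw [mem_rd] at hρ
  have hex : ∃ ρ, ρ < S.R ∧ S.kd ρ = k ∧ S.lane ρ = j := ⟨ρ, hρ⟩
  obtain ⟨h1, h2, h3⟩ := Nat.find_spec hex
  refine ⟨Nat.find hex, h1, h2, h3, ?_⟩
  intro τ hτ hc
  rw [h2, h3] at hc
  exact Nat.find_min hex hτ ⟨hτ.trans h1, hc.1, hc.2⟩

/-- a read of a certain type gives `Lf < X` -/
theorem f5_gt {D : ND (S.net h)} (hD : Norm D) {σ g : ℕ} (hσ : σ < S.R) (hg : g ≤ 1)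
    (hn : ∀ c, ((g, σ), c) ∉ S.bci (4 * S.lane σ + 1))
    (hm : ((g, σ), 2) ∈ S.bci (4 * S.lane σ + 3)) (hk : S.kd σ ≠ 0)
    (hX : Vx.blk (g, σ) 0 ∈ S.cX (S.lane σ)) : D.xc (4 * S.lane σ + 1) < D.XX (S.lane σ) := by
  have hj : S.lane σ < S.NN := by
    have h1 := lane_lt h hσ
    unfold rlane at h1
    unfold NN
    omega
  have b0 : S.binB (g, σ) 0 := f5_inR hσ hg (by omega)
  have b1 : S.binB (g, σ) 1 := f5_inR hσ hg (by omega)
  have b2 : S.binB (g, σ) 2 := f5_inR hσ hg (by omega)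
  have h2 : (D.p (.blk (g, σ) 2)).1 = D.xc (4 * S.lane σ + 3) := by
    refine hD.line_ver (f5_cpl3 hj) _ ?_
    unfold Net.cl
    refine List.mem_append_left _ (List.mem_cons_of_mem _ (List.mem_map.2 ⟨((g, σ), 2), hm, rfl⟩))
  have h3 : D.xc (4 * S.lane σ + 1) < D.xc (4 * S.lane σ + 3) :=
    hD.xc_lt (f5_cpl1 hj) (f5_cpl3 hj) (by omega)
  obtain ⟨hv1, hv2⟩ := hv_read h hσ hg
  have h4 := hD.blk_gt (f5_cpl1 hj) (b := (g, σ)) (c := 2) (c' := 1) b2 b1 (hv_symm hv2) (hn 2)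
    (hn 1) (by rw [h2]; exact h3)
  have h5 := hD.blk_gt (f5_cpl1 hj) (b := (g, σ)) (c := 1) (c' := 0) b1 b0 (hv_symm hv1) (hn 1)
    (hn 0) h4.2
  have h6 := f5_cX hD hσ hk _ hX
  rw [← h6]
  exact h5.2

/-- a read of a certain type gives `X < Rt` -/
theorem f5_lt {D : ND (S.net h)} (hD : Norm D) {σ g : ℕ} (hσ : σ < S.R) (hg : g ≤ 1)
    (hn : ∀ c, ((g, σ), c) ∉ S.bci (4 * S.lane σ + 3))
    (hm : ((g, σ), 0) ∈ S.bci (4 * S.lane σ + 1)) (hk : S.kd σ ≠ 0)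
    (hX : Vx.blk (g, σ) 2 ∈ S.cX (S.lane σ)) : D.XX (S.lane σ) < D.xc (4 * S.lane σ + 3) := by
  have hj : S.lane σ < S.NN := by
    have h1 := lane_lt h hσ
    unfold rlane at h1
    unfold NN
    omega
  have b0 : S.binB (g, σ) 0 := f5_inR hσ hg (by omega)
  have b1 : S.binB (g, σ) 1 := f5_inR hσ hg (by omega)
  have b2 : S.binB (g, σ) 2 := f5_inR hσ hg (by omega)
  have h2 : (D.p (.blk (g, σ) 0)).1 = D.xc (4 * S.lane σ + 1) := by
    refine hD.line_ver (f5_cpl1 hj) _ ?_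
    unfold Net.cl
    refine List.mem_append_left _ (List.mem_cons_of_mem _ (List.mem_map.2 ⟨((g, σ), 0), hm, rfl⟩))
  have h3 : D.xc (4 * S.lane σ + 1) < D.xc (4 * S.lane σ + 3) :=
    hD.xc_lt (f5_cpl1 hj) (f5_cpl3 hj) (by omega)
  obtain ⟨hv1, hv2⟩ := hv_read h hσ hg
  have h4 := hD.blk_lt (f5_cpl3 hj) (b := (g, σ)) (c := 0) (c' := 1) b0 b1 hv1 (hn 0)
    (hn 1) (by rw [h2]; exact h3)
  have h5 := hD.blk_lt (f5_cpl3 hj) (b := (g, σ)) (c := 1) (c' := 2) b1 b2 hv2 (hn 1)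
    (hn 2) h4.2
  have h6 := f5_cX hD hσ hk _ hX
  rw [← h6]
  exact h5.2

/-- `Lf < X < Rt` in the lanes of fresh and home variables -/
theorem f5_X {D : ND (S.net h)} (hD : Norm D) {ρ : ℕ} (hρ : ρ < S.R) (hk : S.kd ρ ≠ 0) :
    D.xc (4 * S.lane ρ + 1) < D.XX (S.lane ρ) ∧ D.XX (S.lane ρ) < D.xc (4 * S.lane ρ + 3) := by
  have hle := kd_le S ρ
  by_cases h12 : S.kd ρ = 1 ∨ S.kd ρ = 2
  · obtain ⟨_, h1, h2⟩ := op_div h hρ h12
    obtain ⟨α, β, ha, hb, _⟩ := rd_fresh h (k := S.lane ρ - 6 * S.K) (by omega)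
    have e : 6 * S.K + (S.lane ρ - 6 * S.K) = S.lane ρ := by omega
    rw [e] at ha hb
    have ha' : α ∈ S.rd 1 (S.lane ρ) := by rw [ha]; simp
    have hb' : β ∈ S.rd 2 (S.lane ρ) := by rw [hb]; simp
    rw [mem_rd] at ha' hb'
    obtain ⟨a1, a2, a3⟩ := ha'
    obtain ⟨b1, b2, b3⟩ := hb'
    constructor
    · rw [← b3]
      refine f5_gt hD b1 (g := 0) (by omega) ?_ ?_ (by omega) ?_
      · intro c hc
        rw [mem_bci1_low h b1] at hc
        omega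
      · rw [mem_bci3_low h b1]
        omega
      · rw [mem_cX h b1]
        omega
    · rw [← a3]
      refine f5_lt hD a1 (g := 1) (by omega) ?_ ?_ (by omega) ?_
      · intro c hc
        rw [mem_bci3_up h a1] at hc
        omega
      · rw [mem_bci1_up h a1]
        omega
      · rw [mem_cX h a1]
        omega
  · have h34 : S.kd ρ = 3 ∨ S.kd ρ = 4 := by omega
    obtain ⟨_, h1, h2⟩ := op_mul h hρ h34
    obtain ⟨ha, hb, _⟩ := rd_home h (i := S.lane ρ - (6 * S.K + S.m)) (by omega)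
    have e : 6 * S.K + S.m + (S.lane ρ - (6 * S.K + S.m)) = S.lane ρ := by omega
    rw [e] at ha hb
    obtain ⟨α, a1, a2, a3, a4⟩ := f5_first ha
    obtain ⟨β, b1, b2, b3, b4⟩ := f5_first hb
    constructor
    · rw [← b3]
      refine f5_gt hD b1 (g := 1) (by omega) ?_ ?_ (by omega) ?_
      · intro c hc
        rw [mem_bci1_up h b1] at hc
        omega
      · rw [mem_bci3_up h b1]
        exact ⟨rfl, Or.inr (Or.inr (Or.inr ⟨b2, b4⟩))⟩
      · rw [mem_cX h b1]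
        omega
    · rw [← a3]
      refine f5_lt hD a1 (g := 0) (by omega) ?_ ?_ (by omega) ?_
      · intro c hc
        rw [mem_bci3_low h a1] at hc
        omega
      · rw [mem_bci1_low h a1]
        exact ⟨rfl, Or.inr (Or.inr (Or.inr ⟨a2, a4⟩))⟩
      · rw [mem_cX h a1]
        omega

end Pool.Agent.H54R
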