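import Pool.Agent.Lib.H54R.FDefs
import Pool.Agent.Lib.H54R.S10
import Pool.Agent.Lib.H54R.FL3
import Pool.Agent.Lib.H54R.F5

/-!
# F6: the relations of the reads
-/

set_option autoImplicit false

namespace Pool.Agent.H54R

open RS

variable {S : RS} {h : S.WF}

theorem f6_cpl {j r : ℕ} (hj : j < S.NN) (hr : r = 1 ∨ r = 3) : Cpl (S.net h).N (4 * j + r) := by
  constructor
  · change 4 * j + r ≤ 4 * S.NN
    omega
  · omega

theorem f6_lane (h : S.WF) {ρ : ℕ} (hρ : ρ < S.R) : S.lane ρ < S.NN := by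
  have h1 := lane_lt h hρ
  have h2 : S.rlane 0 < S.NN := rlane_lt h (by have := h.pos; omega)
  omega

theorem f6_line {D : ND (S.net h)} (hD : Norm D) {k : ℕ} (hk : Cpl (S.net h).N k) {g ρ c : ℕ}
    (hm : ((g, ρ), c) ∈ S.bci k) : D.X (g, ρ) c = D.xc k := by
  apply hD.line_ver hk
  have h1 : (S.net h).cl k = .B k :: ((S.bci k).map fun v => Vx.blk v.1 v.2) ++ [.T k] := rfl
  rw [h1, List.mem_append, List.mem_cons, List.mem_map]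
  exact Or.inl (Or.inr ⟨((g, ρ), c), hm, rfl⟩)

theorem f6_ab {D : ND (S.net h)} (hD : Norm D) {ρ : ℕ} (hρ : ρ < S.R) :
    D.xc (4 * S.lane ρ + 1) < D.xc (4 * S.lane ρ + 3) :=
  hD.xc_lt (f6_cpl (f6_lane h hρ) (Or.inl rfl)) (f6_cpl (f6_lane h hρ) (Or.inr rfl)) (by omega)

theorem f6_low1 {D : ND (S.net h)} (hD : Norm D) {ρ : ℕ} (hρ : ρ < S.R)
    (hk : S.kd ρ = 0 ∨ S.kd ρ = 1 ∨ S.kd ρ = 4 ∨ (S.kd ρ = 3 ∧ S.First ρ)) :
    D.X (0, ρ) 0 = D.xc (4 * S.lane ρ + 1) :=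
  f6_line hD (f6_cpl (f6_lane h hρ) (Or.inl rfl)) ((mem_bci1_low h hρ).mpr ⟨rfl, hk⟩)

theorem f6_up1 {D : ND (S.net h)} (hD : Norm D) {ρ : ℕ} (hρ : ρ < S.R)
    (hk : S.kd ρ = 0 ∨ S.kd ρ = 1 ∨ S.kd ρ = 2 ∨ (S.kd ρ = 3 ∧ S.First ρ)) :
    D.X (1, ρ) 0 = D.xc (4 * S.lane ρ + 1) :=
  f6_line hD (f6_cpl (f6_lane h hρ) (Or.inl rfl)) ((mem_bci1_up h hρ).mpr ⟨rfl, hk⟩)

theorem f6_low3 {D : ND (S.net h)} (hD : Norm D) {ρ : ℕ} (hρ : ρ < S.R)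
    (hk : S.kd ρ = 0 ∨ S.kd ρ = 1 ∨ S.kd ρ = 2 ∨ (S.kd ρ = 4 ∧ S.First ρ)) :
    D.X (0, ρ) 2 = D.xc (4 * S.lane ρ + 3) :=
  f6_line hD (f6_cpl (f6_lane h hρ) (Or.inr rfl)) ((mem_bci3_low h hρ).mpr ⟨rfl, hk⟩)

theorem f6_up3 {D : ND (S.net h)} (hD : Norm D) {ρ : ℕ} (hρ : ρ < S.R)
    (hk : S.kd ρ = 0 ∨ S.kd ρ = 2 ∨ S.kd ρ = 3 ∨ (S.kd ρ = 4 ∧ S.First ρ)) :
    D.X (1, ρ) 2 = D.xc (4 * S.lane ρ + 3) :=
  f6_line hD (f6_cpl (f6_lane h hρ) (Or.inr rfl)) ((mem_bci3_up h hρ).mpr ⟨rfl, hk⟩)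

theorem f6_cX {D : ND (S.net h)} (hD : Norm D) {ρ g c : ℕ} (hρ : ρ < S.R) (hk : S.kd ρ ≠ 0)
    (hc : (g = 1 ∧ c = 2 ∧ S.kd ρ = 1) ∨ (g = 1 ∧ c = 0 ∧ S.kd ρ = 4) ∨
      (g = 0 ∧ c = 0 ∧ S.kd ρ = 2) ∨ (g = 0 ∧ c = 2 ∧ S.kd ρ = 3)) :
    D.X (g, ρ) c = D.XX (S.lane ρ) :=
  f5_cX hD hρ hk _ ((mem_cX h hρ).mpr hc)

theorem f6_plain {D : ND (S.net h)} (hD : Norm D) {ρ : ℕ} (hρ : ρ < S.R) (hk : S.kd ρ = 0) :
    D.uv ρ < D.lv ρ := by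
  have hab := f6_ab hD hρ
  have e1 := f6_low1 hD hρ (Or.inl hk)
  have e2 := f6_low3 hD hρ (Or.inl hk)
  have e3 := f6_up1 hD hρ (Or.inl hk)
  have e4 := f6_up3 hD hρ (Or.inl hk)
  have h1 := f5_lever hD hρ (by rw [e1, e2]; exact hab)
  have h2 := f5_lever_up hD hρ (by rw [e3, e4]; exact hab)
  rw [e1, e2] at h1
  rw [e3, e4] at h2
  exact h2.trans h1

theorem f6_LL {D : ND (S.net h)} (hD : Norm D) {ρ : ℕ} (hρ : ρ < S.R) (hk : S.kd ρ = 1) :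
    D.nrm (S.lane ρ) (D.XX (S.lane ρ)) * D.uv ρ < D.lv ρ := by
  have hab := f6_ab hD hρ
  have hk0 : S.kd ρ ≠ 0 := by omega
  obtain ⟨hX1, hX2⟩ := f5_X hD hρ hk0
  have e1 := f6_low1 hD hρ (Or.inr (Or.inl hk))
  have e2 := f6_low3 hD hρ (Or.inr (Or.inl hk))
  have e3 := f6_up1 hD hρ (Or.inr (Or.inl hk))
  have e4 := f6_cX hD (g := 1) (c := 2) hρ hk0 (Or.inl ⟨rfl, rfl, hk⟩)
  have h1 := f5_lever hD hρ (by rw [e1, e2]; exact hab)
  have h2 := f5_lever_up hD hρ (by rw [e3, e4]; exact hX1)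
  rw [e1, e2] at h1
  rw [e3, e4] at h2
  rw [ND.nrm]
  set a := D.xc (4 * S.lane ρ + 1)
  set b := D.xc (4 * S.lane ρ + 3)
  set X := D.XX (S.lane ρ)
  set k := D.X (0, ρ) 1
  have hXa : 0 < X - a := sub_pos.mpr hX1
  have hba : 0 < b - a := sub_pos.mpr hab
  calc (X - a) / (b - a) * D.uv ρ < (X - a) / (b - a) * ((k - a) / (X - a)) :=
        mul_lt_mul_of_pos_left h2 (div_pos hXa hba)
    _ = (k - a) / (b - a) := by field_simp
    _ < D.lv ρ := h1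

theorem f6_RU {D : ND (S.net h)} (hD : Norm D) {ρ : ℕ} (hρ : ρ < S.R) (hk : S.kd ρ = 2) :
    (1 - D.nrm (S.lane ρ) (D.XX (S.lane ρ))) * (1 - D.lv ρ) < 1 - D.uv ρ := by
  have hab := f6_ab hD hρ
  have hk0 : S.kd ρ ≠ 0 := by omega
  obtain ⟨hX1, hX2⟩ := f5_X hD hρ hk0
  have e1 := f6_cX hD (g := 0) (c := 0) hρ hk0 (Or.inr (Or.inr (Or.inl ⟨rfl, rfl, hk⟩)))
  have e2 := f6_low3 hD hρ (Or.inr (Or.inr (Or.inl hk)))
  have e3 := f6_up1 hD hρ (Or.inr (Or.inr (Or.inl hk)))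
  have e4 := f6_up3 hD hρ (Or.inr (Or.inl hk))
  have h1 := f5_lever hD hρ (by rw [e1, e2]; exact hX2)
  have h2 := f5_lever_up hD hρ (by rw [e3, e4]; exact hab)
  rw [e1, e2] at h1
  rw [e3, e4] at h2
  rw [ND.nrm]
  set a := D.xc (4 * S.lane ρ + 1)
  set b := D.xc (4 * S.lane ρ + 3)
  set X := D.XX (S.lane ρ)
  set k := D.X (0, ρ) 1
  have hbX : 0 < b - X := sub_pos.mpr hX2
  have hba : 0 < b - a := sub_pos.mpr hab
  have e5 : 1 - (X - a) / (b - a) = (b - X) / (b - a) := by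
    field_simp
    ring
  have e6 : 1 - (k - X) / (b - X) = (b - k) / (b - X) := by
    field_simp
    ring
  have e7 : 1 - (k - a) / (b - a) = (b - k) / (b - a) := by
    field_simp
    ring
  have h3 : 1 - D.lv ρ < (b - k) / (b - X) := by
    rw [← e6]
    linarith
  have h4 : (b - k) / (b - a) < 1 - D.uv ρ := by
    rw [← e7]
    linarith
  rw [e5]
  calc (b - X) / (b - a) * (1 - D.lv ρ) < (b - X) / (b - a) * ((b - k) / (b - X)) :=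
        mul_lt_mul_of_pos_left h3 (div_pos hbX hba)
    _ = (b - k) / (b - a) := by field_simp
    _ < 1 - D.uv ρ := h4

/-- the previous read of the same kind in the lane -/
theorem f6_prev {ρ : ℕ} (hρ : ρ < S.R) (hF : ¬ S.First ρ) :
    ∃ τ < ρ, S.kd τ = S.kd ρ ∧ S.lane τ = S.lane ρ ∧ ρ ∈ S.nxt τ := by
  classical
  have hex : ∃ τ, τ < ρ ∧ S.kd τ = S.kd ρ ∧ S.lane τ = S.lane ρ := by
    by_contra hcon
    push Not at hcon
    apply hF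
    intro τ hτ h1
    exact hcon τ hτ h1.1 h1.2
  rcases first_or_next hρ with h1 | ⟨σ, hσ, h1⟩
  · exact absurd h1 hF
  · have h2 := (mem_nxt.mp h1).1
    exact ⟨σ, hσ, h2.2.1.symm, h2.2.2.1.symm, h1⟩

/-- reads of kind 3: the left border `c` (first coordinate of `s`) satisfies `Lf ≤ c < X`, by strong
induction on `ρ` (`First`: the line `Lf`; otherwise the line `k` of the previous read, where the lever
inequalities give `c < k < X`). -/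
theorem f6_border3 {D : ND (S.net h)} (hD : Norm D) {ρ : ℕ} (hρ : ρ < S.R) (hk : S.kd ρ = 3) :
    D.xc (4 * S.lane ρ + 1) ≤ D.X (0, ρ) 0 ∧ D.X (0, ρ) 0 < D.XX (S.lane ρ) ∧
      D.X (1, ρ) 0 = D.X (0, ρ) 0 := by
  induction ρ using Nat.strong_induction_on with
  | _ ρ ih =>
    have hk0 : S.kd ρ ≠ 0 := by omega
    by_cases hF : S.First ρ
    · have e1 := f6_low1 hD hρ (Or.inr (Or.inr (Or.inr ⟨hk, hF⟩)))
      have e2 := f6_up1 hD hρ (Or.inr (Or.inr (Or.inr ⟨hk, hF⟩)))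
      rw [e1, e2]
      exact ⟨le_rfl, (f5_X hD hρ hk0).1, rfl⟩
    · obtain ⟨τ, hτ, hτk, hτl, hτn⟩ := f6_prev hρ hF
      have hτR : τ < S.R := hτ.trans hρ
      have hτ3 : S.kd τ = 3 := by omega
      have hτ0 : S.kd τ ≠ 0 := by omega
      obtain ⟨c1, c2, c3⟩ := ih τ hτ hτR hτ3
      obtain ⟨m1, m2⟩ := mem_ck_three hτ3 hτn
      have e1 : D.X (0, ρ) 0 = D.X (0, τ) 1 := f5_ck hD hτR _ m1
      have e2 : D.X (1, ρ) 0 = D.X (0, τ) 1 := f5_ck hD hτR _ m2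
      have e3 := f6_cX hD (g := 0) (c := 2) hτR hτ0 (Or.inr (Or.inr (Or.inr ⟨rfl, rfl, hτ3⟩)))
      have e4 := f6_up3 hD hτR (Or.inr (Or.inr (Or.inl hτ3)))
      obtain ⟨hX1, hX2⟩ := f5_X hD hτR hτ0
      have h1 := f5_lever hD hτR (by rw [e3]; exact c2)
      have h2 := f5_lever_up hD hτR (by rw [e4, c3]; exact c2.trans hX2)
      obtain ⟨v1, v2, v3, v4⟩ := f5_lv_pos hD hτR
      rw [e3] at h1
      rw [e4, c3] at h2
      rw [e1, e2, ← hτl]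
      have p1 : 0 < D.XX (S.lane τ) - D.X (0, τ) 0 := sub_pos.mpr c2
      have p2 : 0 < D.xc (4 * S.lane τ + 3) - D.X (0, τ) 0 := sub_pos.mpr (c2.trans hX2)
      have q1 := h1.trans v2
      rw [div_lt_one p1] at q1
      have q2 := v3.trans h2
      have q3 : 0 < D.X (0, τ) 1 - D.X (0, τ) 0 := by
        by_contra hcon
        exact absurd q2 (not_lt.mpr (div_nonpos_of_nonpos_of_nonneg (not_lt.mp hcon) p2.le))
      exact ⟨by linarith, by linarith, rfl⟩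

theorem f6_LU {D : ND (S.net h)} (hD : Norm D) {ρ : ℕ} (hρ : ρ < S.R) (hk : S.kd ρ = 3) :
    D.uv ρ < D.nrm (S.lane ρ) (D.XX (S.lane ρ)) * D.lv ρ := by
  have hab := f6_ab hD hρ
  have hk0 : S.kd ρ ≠ 0 := by omega
  obtain ⟨hX1, hX2⟩ := f5_X hD hρ hk0
  obtain ⟨c1, c2, c3⟩ := f6_border3 hD hρ hk
  have e3 := f6_cX hD (g := 0) (c := 2) hρ hk0 (Or.inr (Or.inr (Or.inr ⟨rfl, rfl, hk⟩)))
  have e4 := f6_up3 hD hρ (Or.inr (Or.inr (Or.inl hk)))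
  have h1 := f5_lever hD hρ (by rw [e3]; exact c2)
  have h2 := f5_lever_up hD hρ (by rw [e4, c3]; exact c2.trans hX2)
  obtain ⟨v1, v2, v3, v4⟩ := f5_lv_pos hD hρ
  rw [e3] at h1
  rw [e4, c3] at h2
  rw [ND.nrm]
  set a := D.xc (4 * S.lane ρ + 1)
  set b := D.xc (4 * S.lane ρ + 3)
  set X := D.XX (S.lane ρ)
  set k := D.X (0, ρ) 1
  set c := D.X (0, ρ) 0
  have p1 : 0 < X - c := sub_pos.mpr c2
  have p2 : 0 < b - c := sub_pos.mpr (c2.trans hX2)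
  have p3 : 0 < b - a := sub_pos.mpr hab
  have h3 : (X - c) / (b - c) ≤ (X - a) / (b - a) := by
    rw [div_le_div_iff₀ p2 p3]
    nlinarith
  calc D.uv ρ < (k - c) / (b - c) := h2
    _ = (X - c) / (b - c) * ((k - c) / (X - c)) := by field_simp
    _ < (X - c) / (b - c) * D.lv ρ := mul_lt_mul_of_pos_left h1 (div_pos p1 p2)
    _ ≤ (X - a) / (b - a) * D.lv ρ := mul_le_mul_of_nonneg_right h3 v1.le

theorem f6_border4 {D : ND (S.net h)} (hD : Norm D) {ρ : ℕ} (hρ : ρ < S.R) (hk : S.kd ρ = 4) :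
    D.X (0, ρ) 2 ≤ D.xc (4 * S.lane ρ + 3) ∧ D.XX (S.lane ρ) < D.X (0, ρ) 2 ∧
      D.X (1, ρ) 2 = D.X (0, ρ) 2 := by
  induction ρ using Nat.strong_induction_on with
  | _ ρ ih =>
    have hk0 : S.kd ρ ≠ 0 := by omega
    by_cases hF : S.First ρ
    · have e1 := f6_low3 hD hρ (Or.inr (Or.inr (Or.inr ⟨hk, hF⟩)))
      have e2 := f6_up3 hD hρ (Or.inr (Or.inr (Or.inr ⟨hk, hF⟩)))
      rw [e1, e2]
      exact ⟨le_rfl, (f5_X hD hρ hk0).2, rfl⟩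
    · obtain ⟨τ, hτ, hτk, hτl, hτn⟩ := f6_prev hρ hF
      have hτR : τ < S.R := hτ.trans hρ
      have hτ4 : S.kd τ = 4 := by omega
      have hτ0 : S.kd τ ≠ 0 := by omega
      obtain ⟨c1, c2, c3⟩ := ih τ hτ hτR hτ4
      obtain ⟨m1, m2⟩ := mem_ck_four hτ4 hτn
      have e1 : D.X (0, ρ) 2 = D.X (0, τ) 1 := f5_ck hD hτR _ m1
      have e2 : D.X (1, ρ) 2 = D.X (0, τ) 1 := f5_ck hD hτR _ m2
      have e3 := f6_low1 hD hτR (Or.inr (Or.inr (Or.inl hτ4)))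
      have e4 := f6_cX hD (g := 1) (c := 0) hτR hτ0 (Or.inr (Or.inl ⟨rfl, rfl, hτ4⟩))
      obtain ⟨hX1, hX2⟩ := f5_X hD hτR hτ0
      have h1 := f5_lever hD hτR (by rw [e3]; exact hX1.trans c2)
      have h2 := f5_lever_up hD hτR (by rw [e4, c3]; exact c2)
      obtain ⟨v1, v2, v3, v4⟩ := f5_lv_pos hD hτR
      rw [e3] at h1
      rw [e4, c3] at h2
      rw [e1, e2, ← hτl]
      have p1 : 0 < D.X (0, τ) 2 - D.xc (4 * S.lane τ + 1) := sub_pos.mpr (hX1.trans c2)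
      have p2 : 0 < D.X (0, τ) 2 - D.XX (S.lane τ) := sub_pos.mpr c2
      have q1 := h1.trans v2
      rw [div_lt_one p1] at q1
      have q2 := v3.trans h2
      have q3 : 0 < D.X (0, τ) 1 - D.XX (S.lane τ) := by
        by_contra hcon
        exact absurd q2 (not_lt.mpr (div_nonpos_of_nonpos_of_nonneg (not_lt.mp hcon) p2.le))
      exact ⟨by linarith, by linarith, rfl⟩

theorem f6_RL {D : ND (S.net h)} (hD : Norm D) {ρ : ℕ} (hρ : ρ < S.R) (hk : S.kd ρ = 4) :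
    1 - D.lv ρ < (1 - D.nrm (S.lane ρ) (D.XX (S.lane ρ))) * (1 - D.uv ρ) := by
  have hab := f6_ab hD hρ
  have hk0 : S.kd ρ ≠ 0 := by omega
  obtain ⟨hX1, hX2⟩ := f5_X hD hρ hk0
  obtain ⟨c1, c2, c3⟩ := f6_border4 hD hρ hk
  have e3 := f6_low1 hD hρ (Or.inr (Or.inr (Or.inl hk)))
  have e4 := f6_cX hD (g := 1) (c := 0) hρ hk0 (Or.inr (Or.inl ⟨rfl, rfl, hk⟩))
  have h1 := f5_lever hD hρ (by rw [e3]; exact hX1.trans c2)
  have h2 := f5_lever_up hD hρ (by rw [e4, c3]; exact c2)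
  obtain ⟨v1, v2, v3, v4⟩ := f5_lv_pos hD hρ
  rw [e3] at h1
  rw [e4, c3] at h2
  rw [ND.nrm]
  set a := D.xc (4 * S.lane ρ + 1)
  set b := D.xc (4 * S.lane ρ + 3)
  set X := D.XX (S.lane ρ)
  set k := D.X (0, ρ) 1
  set d := D.X (0, ρ) 2
  have p1 : 0 < d - a := sub_pos.mpr (hX1.trans c2)
  have p2 : 0 < d - X := sub_pos.mpr c2
  have p3 : 0 < b - a := sub_pos.mpr hab
  have e5 : 1 - (X - a) / (b - a) = (b - X) / (b - a) := by
    field_simp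
    ring
  have e6 : 1 - (k - a) / (d - a) = (d - k) / (d - a) := by
    field_simp
    ring
  have e7 : 1 - (k - X) / (d - X) = (d - k) / (d - X) := by
    field_simp
    ring
  have h3 : 1 - D.lv ρ < (d - k) / (d - a) := by
    rw [← e6]
    linarith
  have h4 : (d - k) / (d - X) < 1 - D.uv ρ := by
    rw [← e7]
    linarith
  have h5 : (d - X) / (d - a) ≤ (b - X) / (b - a) := by
    rw [div_le_div_iff₀ p1 p3]
    nlinarith
  have h6 : 0 < 1 - D.uv ρ := by linarith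
  rw [e5]
  calc 1 - D.lv ρ < (d - k) / (d - a) := h3
    _ = (d - X) / (d - a) * ((d - k) / (d - X)) := by field_simp
    _ < (d - X) / (d - a) * (1 - D.uv ρ) := mul_lt_mul_of_pos_left h4 (div_pos p2 p1)
    _ ≤ (b - X) / (b - a) * (1 - D.uv ρ) := mul_le_mul_of_nonneg_right h5 h6.le

end Pool.Agent.H54R
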