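import Pool.Agent.Lib.H54R.FDefs
import Pool.Agent.Lib.H54R.F5
import Pool.Agent.Lib.H54R.F6
import Pool.Agent.Lib.H54R.S0
import Pool.Agent.Lib.H54R.S6B

/-!
# F7: a drawing of the network gives a solution of the ring system
-/

set_option autoImplicit false

namespace Pool.Agent.H54R

open RS

variable {S : RS} {h : S.WF}

theorem f7_ring {u0 u1 u2 u3 l0 l1 l2 l3 a0 a1 a2 a3 : ℝ} (hu0 : 0 < u0) (hu1 : u1 < 1)
    (hu2 : 0 < u2) (hu3 : u3 < 1) (hl0 : 0 < l0) (hl1 : l1 < 1) (hl2 : 0 < l2) (hl3 : l3 < 1)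
    (A0 : u0 < a0 * l0) (A1 : 1 - l1 < a1 * (1 - u1)) (A2 : u2 < a2 * l2)
    (A3 : 1 - l3 < a3 * (1 - u3)) (B0 : 1 < u0 + u1) (B1 : 1 < u2 + u3) (C0 : l1 + l2 < 1)
    (C1 : l3 + l0 < 1) : 1 < a0 * a1 * a2 * a3 := by
  have h1 : u0 * (1 - l1) < (a0 * l0) * (a1 * (1 - u1)) :=
    mul_lt_mul'' A0 A1 hu0.le (by linarith)
  have h2 : u2 * (1 - l3) < (a2 * l2) * (a3 * (1 - u3)) :=
    mul_lt_mul'' A2 A3 hu2.le (by linarith)
  have p1 : 0 < u0 * (1 - l1) := mul_pos hu0 (by linarith)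
  have p2 : 0 < u2 * (1 - l3) := mul_pos hu2 (by linarith)
  have h3 := mul_lt_mul'' h1 h2 p1.le p2.le
  have h4 : (1 - u1) * l2 < u0 * (1 - l1) :=
    mul_lt_mul'' (by linarith) (by linarith) (by linarith) hl2.le
  have h5 : (1 - u3) * l0 < u2 * (1 - l3) :=
    mul_lt_mul'' (by linarith) (by linarith) (by linarith) hl0.le
  have q1 : 0 < (1 - u1) * l2 := mul_pos (by linarith) hl2
  have q2 : 0 < (1 - u3) * l0 := mul_pos (by linarith) hl0
  have h6 := mul_lt_mul'' h4 h5 q1.le q2.le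
  have h7 : ((1 - u1) * l2) * ((1 - u3) * l0) <
      ((1 - u1) * l2) * ((1 - u3) * l0) * (a0 * a1 * a2 * a3) := by
    calc ((1 - u1) * l2) * ((1 - u3) * l0) < u0 * (1 - l1) * (u2 * (1 - l3)) := h6
      _ < (a0 * l0) * (a1 * (1 - u1)) * ((a2 * l2) * (a3 * (1 - u3))) := h3
      _ = ((1 - u1) * l2) * ((1 - u3) * l0) * (a0 * a1 * a2 * a3) := by ring
  exact (lt_mul_iff_one_lt_right (mul_pos q1 q2)).mp h7

theorem f7_nrm {D : ND (S.net h)} (hD : Norm D) {ρ : ℕ} (hρ : ρ < S.R) (hk : S.kd ρ ≠ 0) :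
    0 < D.nrm (S.lane ρ) (D.XX (S.lane ρ)) ∧ D.nrm (S.lane ρ) (D.XX (S.lane ρ)) < 1 := by
  obtain ⟨h1, h2⟩ := f5_X hD hρ hk
  have h3 : 0 < D.xc (4 * S.lane ρ + 3) - D.xc (4 * S.lane ρ + 1) := by linarith
  rw [ND.nrm]
  exact ⟨div_pos (by linarith) h3, (div_lt_one h3).mpr (by linarith)⟩

/-- the values of the fresh variables -/
noncomputable def f7_w (D : ND (S.net h)) (k : ℕ) : ℝ :=
  if k < S.m then D.nrm (6 * S.K + k) (D.XX (6 * S.K + k)) else 1 / 2

/-- the values of the home variables -/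
noncomputable def f7_x (D : ND (S.net h)) (i : ℕ) : ℝ :=
  if i < S.n then D.nrm (6 * S.K + S.m + i) (D.XX (6 * S.K + S.m + i)) else 1 / 2

theorem f7_w_mem {D : ND (S.net h)} (hD : Norm D) (k : ℕ) : 0 < f7_w D k ∧ f7_w D k < 1 := by
  unfold f7_w
  split_ifs with hk
  · obtain ⟨ρ, ⟨hρ, hev, hop⟩, -⟩ := h.divE k hk
    have h1 : S.lane ρ = 6 * S.K + k := by
      unfold lane
      rw [hop]
      simp
    have h2 : S.kd ρ ≠ 0 := by
      unfold kd
      rw [hop]
      simp [hev]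
    rw [← h1]
    exact f7_nrm hD hρ h2
  · norm_num

theorem f7_x_mem {D : ND (S.net h)} (hD : Norm D) (i : ℕ) : 0 < f7_x D i ∧ f7_x D i < 1 := by
  unfold f7_x
  split_ifs with hk
  · obtain ⟨ρ, hρ, hev, hop⟩ := h.mulE i hk
    have h1 : S.lane ρ = 6 * S.K + S.m + i := by
      unfold lane
      rw [hop]
      simp
    have h2 : S.kd ρ ≠ 0 := by
      unfold kd
      rw [hop]
      simp [hev]
    rw [← h1]
    exact f7_nrm hD hρ h2
  · norm_num

theorem f7_even {D : ND (S.net h)} (hD : Norm D) {ρ : ℕ} (hρ : ρ < S.R) (hp : ρ % 2 = 0) :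
    D.uv ρ < S.fac (f7_x D) (f7_w D) ρ * D.lv ρ := by
  unfold fac
  by_cases h0 : (S.op ρ).1 = 0
  · have hk : S.kd ρ = 0 := by
      unfold kd
      rw [if_pos h0]
    rw [if_pos h0, one_mul]
    exact f6_plain hD hρ hk
  · rw [if_neg h0]
    by_cases h1 : (S.op ρ).1 = 1
    · have hk : S.kd ρ = 1 := by
        unfold kd
        rw [if_neg h0, if_pos h1, if_pos hp]
      have hl : S.lane ρ = 6 * S.K + (S.op ρ).2 := by
        unfold lane
        rw [if_neg h0, if_pos h1]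
      have hw : f7_w D (S.op ρ).2 = D.nrm (S.lane ρ) (D.XX (S.lane ρ)) := by
        unfold f7_w
        rw [if_pos (h.div_lt ρ hρ h1), hl]
      have h2 := f6_LL hD hρ hk
      rw [← hw] at h2
      rw [if_pos h1, if_pos hp, inv_mul_eq_div, lt_div_iff₀ (f7_w_mem hD _).1, mul_comm]
      exact h2
    · have hk : S.kd ρ = 3 := by
        unfold kd
        rw [if_neg h0, if_neg h1, if_pos hp]
      have hl : S.lane ρ = 6 * S.K + S.m + (S.op ρ).2 := by
        unfold lane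
        rw [if_neg h0, if_neg h1]
      have h3 : (S.op ρ).1 = 2 := by
        have := h.tag ρ hρ
        omega
      have hw : f7_x D (S.op ρ).2 = D.nrm (S.lane ρ) (D.XX (S.lane ρ)) := by
        unfold f7_x
        rw [if_pos (h.mul_lt ρ hρ h3), hl]
      have h2 := f6_LU hD hρ hk
      rw [← hw] at h2
      rw [if_neg h1, if_pos hp]
      exact h2

theorem f7_odd {D : ND (S.net h)} (hD : Norm D) {ρ : ℕ} (hρ : ρ < S.R) (hp : ρ % 2 = 1) :
    1 - D.lv ρ < S.fac (f7_x D) (f7_w D) ρ * (1 - D.uv ρ) := by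
  have hp' : ¬ ρ % 2 = 0 := by omega
  unfold fac
  by_cases h0 : (S.op ρ).1 = 0
  · have hk : S.kd ρ = 0 := by
      unfold kd
      rw [if_pos h0]
    rw [if_pos h0, one_mul]
    have := f6_plain hD hρ hk
    linarith
  · rw [if_neg h0]
    by_cases h1 : (S.op ρ).1 = 1
    · have hk : S.kd ρ = 2 := by
        unfold kd
        rw [if_neg h0, if_pos h1, if_neg hp']
      have hl : S.lane ρ = 6 * S.K + (S.op ρ).2 := by
        unfold lane
        rw [if_neg h0, if_pos h1]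
      have hw : f7_w D (S.op ρ).2 = D.nrm (S.lane ρ) (D.XX (S.lane ρ)) := by
        unfold f7_w
        rw [if_pos (h.div_lt ρ hρ h1), hl]
      have h2 := f6_RU hD hρ hk
      rw [← hw] at h2
      have h4 : 0 < 1 - f7_w D (S.op ρ).2 := by
        have := (f7_w_mem hD (S.op ρ).2).2
        linarith
      rw [if_pos h1, if_neg hp', inv_mul_eq_div, lt_div_iff₀ h4, mul_comm]
      exact h2
    · have hk : S.kd ρ = 4 := by
        unfold kd
        rw [if_neg h0, if_neg h1, if_neg hp']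
      have hl : S.lane ρ = 6 * S.K + S.m + (S.op ρ).2 := by
        unfold lane
        rw [if_neg h0, if_neg h1]
      have h3 : (S.op ρ).1 = 2 := by
        have := h.tag ρ hρ
        omega
      have hw : f7_x D (S.op ρ).2 = D.nrm (S.lane ρ) (D.XX (S.lane ρ)) := by
        unfold f7_x
        rw [if_pos (h.mul_lt ρ hρ h3), hl]
      have h2 := f6_RL hD hρ hk
      rw [← hw] at h2
      rw [if_neg h1, if_neg hp']
      exact h2

/-- `x i = nrm` of the variable line of the lane `6 K + m + i`, `w k` that of the lane `6 K + k` (for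
`i < n`, `k < m`; `1 / 2` otherwise). Even reads: `u < fac * l`, odd reads: `1 - l < fac * (1 - u)`;
with the links the product of the four factors is greater than 1. -/
theorem f7_sol {D : ND (S.net h)} (hD : Norm D) : S.Sat := by
  refine ⟨f7_x D, f7_w D, f7_x_mem hD, f7_w_mem hD, fun r hr => ?_⟩
  have hlen := h.len
  have r0 : 4 * r < S.R := by omega
  have r1 : 4 * r + 1 < S.R := by omega
  have r2 : 4 * r + 2 < S.R := by omega
  have r3 : 4 * r + 3 < S.R := by omega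
  obtain ⟨a1, a2, a3, a4⟩ := f5_lv_pos hD r0
  obtain ⟨b1, b2, b3, b4⟩ := f5_lv_pos hD r1
  obtain ⟨c1, c2, c3, c4⟩ := f5_lv_pos hD r2
  obtain ⟨d1, d2, d3, d4⟩ := f5_lv_pos hD r3
  have L0 := f5_lo hD (l := 2 * r) (by omega)
  have L1 := f5_lo hD (l := 2 * r + 1) (by omega)
  have U0 := f5_up hD (l := 2 * r) (by omega)
  have U1 := f5_up hD (l := 2 * r + 1) (by omega)
  have e1 : loE (2 * r) = 4 * r + 1 := by
    unfold loE
    omega
  have e2 : loF (2 * r) = 4 * r + 2 := by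
    unfold loF
    rw [if_pos (by omega)]
    omega
  have e3 : loE (2 * r + 1) = 4 * r + 3 := by
    unfold loE
    omega
  have e4 : loF (2 * r + 1) = 4 * r := by
    unfold loF
    rw [if_neg (by omega)]
    omega
  have e5 : 2 * (2 * r) = 4 * r := by omega
  have e6 : 2 * (2 * r + 1) = 4 * r + 2 := by omega
  have e7 : 4 * r + 2 + 1 = 4 * r + 3 := by omega
  rw [e1, e2] at L0
  rw [e3, e4] at L1
  rw [e5] at U0
  rw [e6, e7] at U1
  exact f7_ring a3 b4 c3 d4 a1 b2 c1 d2 (f7_even hD r0 (by omega)) (f7_odd hD r1 (by omega))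
    (f7_even hD r2 (by omega)) (f7_odd hD r3 (by omega)) U0 U1 L0 L1

theorem sat_of_nd (D : ND (S.net h)) : S.Sat := by
  obtain ⟨D', hD'⟩ := D.exists_norm
  exact f7_sol hD'

end Pool.Agent.H54R
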