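import Pool.Agent.Lib.H54R.GapDefs

/-! # Chunk G1: Siegel's lemma for integer polynomials -/

set_option autoImplicit false

namespace Pool.Agent.H54R

open MvPolynomial

attribute [local instance] Matrix.seminormedAddCommGroup

/-- G1 (M). Siegel's lemma for a family `P i` of integer polynomials whose monomials are all among
`mon k`, `k : κ`, with `2 |κ| ≤ |ι|` and coefficients of absolute value at most `B`.

PROOF. Let `A : Matrix κ ι ℤ := Matrix.of fun k i => (P i).coeff (mon k)`. Mathlib's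
`Int.Matrix.exists_ne_zero_int_vec_norm_le A hn hm` (file Mathlib/NumberTheory/SiegelsLemma.lean; the
norm of matrices is `Matrix.seminormedAddCommGroup`, the sup norm, use
`attribute [local instance] Matrix.seminormedAddCommGroup`) gives `c ≠ 0`, `A *ᵥ c = 0` and
`‖c‖ ≤ (|ι| * max 1 ‖A‖) ^ (|κ| / (|ι| - |κ|))`. Here `|κ| / (|ι| - |κ|) ≤ 1` because `2 |κ| ≤ |ι|` and
`|κ| > 0`, and the base is at least `1` (`|ι| ≥ 2`), so `‖c‖ ≤ |ι| * max 1 ‖A‖ ≤ |ι| * B`
(`Matrix.norm_le_iff` and `1 ≤ B`); finally `|c i| = ‖c i‖ ≤ ‖c‖` (`norm_le_pi_norm`,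
`Int.norm_eq_abs`), cast back to `ℤ`. The sum `∑ i, C (c i) * P i` is zero: take the coefficient at
`e` (`MvPolynomial.ext`, `coeff_sum`, `coeff_C_mul`); if `e = mon k` it is `(A *ᵥ c) k = 0`
(`Matrix.mulVec`, `dotProduct`, `mul_comm`); otherwise every `(P i).coeff e = 0` by `hsupp`
(`notMem_support_iff`). -/
theorem siegel_poly {σ ι κ : Type} [Fintype ι] [Fintype κ] (P : ι → MvPolynomial σ ℤ)
    (mon : κ → (σ →₀ ℕ)) (B : ℕ) (hB1 : 1 ≤ B)
    (hsupp : ∀ i, ∀ e ∈ (P i).support, ∃ k, mon k = e)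
    (hB : ∀ i e, ((P i).coeff e).natAbs ≤ B)
    (hcard : 2 * Fintype.card κ ≤ Fintype.card ι) (hκ : 0 < Fintype.card κ) :
    ∃ c : ι → ℤ, c ≠ 0 ∧ (∀ i, (c i).natAbs ≤ Fintype.card ι * B) ∧ ∑ i, C (c i) * P i = 0 := by
  classical
  set A : Matrix κ ι ℤ := Matrix.of fun k i => (P i).coeff (mon k) with hA
  have hn : Fintype.card κ < Fintype.card ι := by omega
  obtain ⟨c, hc0, hc1, hc2⟩ := Int.Matrix.exists_ne_zero_int_vec_norm_le A hn hκ
  refine ⟨c, hc0, ?_, ?_⟩
  · have hAn : ‖A‖ ≤ (B : ℝ) := by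
      rw [Matrix.norm_le_iff (by positivity)]
      intro k i
      have := hB i (mon k)
      rw [Int.norm_eq_abs]
      have h2 : |((A k i : ℤ) : ℝ)| = ((A k i).natAbs : ℝ) := by
        rw [Nat.cast_natAbs, Int.cast_abs]
      rw [h2]
      exact_mod_cast this
    have hB1' : (1 : ℝ) ≤ B := by exact_mod_cast hB1
    have hmax : max 1 ‖A‖ ≤ (B : ℝ) := max_le hB1' hAn
    have hι : (1 : ℝ) ≤ Fintype.card ι := by
      have : 1 ≤ Fintype.card ι := by omega
      exact_mod_cast this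
    have hbase : (1 : ℝ) ≤ (Fintype.card ι : ℝ) * max 1 ‖A‖ :=
      one_le_mul_of_one_le_of_one_le hι (le_max_left _ _)
    have hpos : (0 : ℝ) < (Fintype.card ι : ℝ) - Fintype.card κ := by
      have : (Fintype.card κ : ℝ) < Fintype.card ι := by exact_mod_cast hn
      linarith
    have hexp : ((Fintype.card κ : ℝ) / ((Fintype.card ι : ℝ) - Fintype.card κ)) ≤ 1 := by
      rw [div_le_one hpos]
      have : (2 * Fintype.card κ : ℝ) ≤ Fintype.card ι := by exact_mod_cast hcard
      linarith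
    have hle : ‖c‖ ≤ (Fintype.card ι : ℝ) * B := by
      refine hc2.trans ?_
      calc ((Fintype.card ι : ℝ) * max 1 ‖A‖) ^ ((Fintype.card κ : ℝ) / ((Fintype.card ι : ℝ) - Fintype.card κ))
          ≤ ((Fintype.card ι : ℝ) * max 1 ‖A‖) ^ (1 : ℝ) := Real.rpow_le_rpow_of_exponent_le hbase hexp
        _ = (Fintype.card ι : ℝ) * max 1 ‖A‖ := Real.rpow_one _
        _ ≤ _ := by gcongr
    intro i
    have h1 : ‖c i‖ ≤ (Fintype.card ι : ℝ) * B := (norm_le_pi_norm c i).trans hle
    rw [Int.norm_eq_abs] at h1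
    have h2 : |((c i : ℤ) : ℝ)| = ((c i).natAbs : ℝ) := by
      rw [Nat.cast_natAbs, Int.cast_abs]
    rw [h2] at h1
    exact_mod_cast h1
  · ext e
    rw [coeff_sum, coeff_zero]
    simp only [coeff_C_mul]
    by_cases he : ∃ k, mon k = e
    · obtain ⟨k, rfl⟩ := he
      have := congrFun hc1 k
      simp only [Matrix.mulVec, dotProduct, hA, Matrix.of_apply, Pi.zero_apply] at this
      rw [← this]
      exact Finset.sum_congr rfl fun i _ => mul_comm _ _
    · apply Finset.sum_eq_zero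
      intro i _
      have : e ∉ (P i).support := fun h => he (hsupp i e h)
      rw [notMem_support_iff.1 this, mul_zero]

end Pool.Agent.H54R
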