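import Pool.Agent.Lib.H54R.GapDefs

/-! # Chunk G7: existence of minima -/

set_option autoImplicit false

namespace Pool.Agent.H54R

open Filter Topology

variable {n m : ℕ}

/-- G7 (S). `fun_prop` after cases of `e`. -/
theorem continuous_res (e : GEq n) : Continuous fun x : Fin n → ℝ => e.res x := by
  cases e <;> simp only [GEq.res] <;> fun_prop

theorem continuous_gF (S : Fin m → GEq n) : Continuous (gF S) := by
  unfold gF
  exact continuous_finsetSum _ fun k _ => (continuous_res (S k)).pow 2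

theorem gF_nonneg (S : Fin m → GEq n) (x : Fin n → ℝ) : 0 ≤ gF S x := by
  unfold gF
  exact Finset.sum_nonneg fun k _ => sq_nonneg _

theorem continuous_gN : Continuous (gN : (Fin n → ℝ) → ℝ) := by
  unfold gN
  fun_prop

theorem gN_nonneg (x : Fin n → ℝ) : 0 ≤ gN x := by
  unfold gN
  exact Finset.sum_nonneg fun k _ => sq_nonneg _

theorem sq_le_gN (x : Fin n → ℝ) (i : Fin n) : x i ^ 2 ≤ gN x := by
  unfold gN
  exact Finset.single_le_sum (f := fun i => x i ^ 2) (fun k _ => sq_nonneg _) (Finset.mem_univ i)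

/-- G7 (S). The ball `|x|^2 ≤ R` is compact: closed (`continuous_gN`) and contained in the
compact set `Set.pi univ (fun _ => Icc (-(R+1)) (R+1))` (`isCompact_univ_pi`, `x i ^ 2 ≤ R` gives
`|x i| ≤ R + 1`). -/
theorem isCompact_ball (R : ℝ) : IsCompact {x : Fin n → ℝ | gN x ≤ R} := by
  have hK : IsCompact (Set.pi Set.univ (fun _ : Fin n => Set.Icc (-(R + 1)) (R + 1))) :=
    isCompact_univ_pi fun _ => isCompact_Icc
  have hcl : IsClosed {x : Fin n → ℝ | gN x ≤ R} := isClosed_le continuous_gN continuous_const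
  refine hK.of_isClosed_subset hcl ?_
  intro x hx i _
  have h1 : x i ^ 2 ≤ R := (sq_le_gN x i).trans hx
  have h2 : 0 ≤ R := (sq_nonneg _).trans h1
  constructor <;> nlinarith [sq_nonneg (x i + 1), sq_nonneg (x i - 1)]

/-- G7. `2 <v, x> ≤ |v|^2 / t + t |x|^2` for `t > 0` (termwise). -/
theorem two_lin_le (v x : Fin n → ℝ) {t : ℝ} (ht : 0 < t) :
    2 * ∑ j, v j * x j ≤ gN v / t + t * gN x := by
  unfold gN
  rw [Finset.mul_sum, Finset.sum_div, Finset.mul_sum, ← Finset.sum_add_distrib]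
  refine Finset.sum_le_sum fun j _ => ?_
  have h : v j ^ 2 / t + t * x j ^ 2 - 2 * (v j * x j) = (v j - t * x j) ^ 2 / t := by
    field_simp
    ring
  have h2 : 0 ≤ (v j - t * x j) ^ 2 / t := by positivity
  linarith

/-- G7 (M). For continuous `F ≥ 0` and `t > 0` the function `F + t |x|^2 - 2 <v, x>` has a minimum.
PROOF. By `two_lin_le` with `t / 2`: the function is at least `(t/2) |x|^2 - 2 |v|^2 / t`. Its value
at `0` is `F 0`. Let `R = (2 / t) (F 0 + 2 |v|^2 / t)`, nonnegative. On the compact ball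
`|x|^2 ≤ R` (nonempty, contains `0`) there is a minimum `x` (`IsCompact.exists_isMinOn`); outside of
the ball the value is greater than `F 0`, which is at least the minimum. -/
theorem exists_min (F : (Fin n → ℝ) → ℝ) (hF : Continuous F) (hF0 : ∀ x, 0 ≤ F x) {t : ℝ}
    (ht : 0 < t) (v : Fin n → ℝ) : ∃ x : Fin n → ℝ, ∀ y : Fin n → ℝ,
      gG F t x - 2 * ∑ j, v j * x j ≤ gG F t y - 2 * ∑ j, v j * y j := by
  set R : ℝ := (2 / t) * (F 0 + gN v / (t / 2)) with hR
  have hR0 : 0 ≤ R := by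
    have := hF0 0
    have := gN_nonneg v
    positivity
  have hN0 : gN (0 : Fin n → ℝ) = 0 := by simp [gN]
  have hcont : Continuous fun x : Fin n → ℝ => gG F t x - 2 * ∑ j, v j * x j := by
    unfold gG
    have := continuous_gN (n := n)
    fun_prop
  obtain ⟨x, hx1, hx2⟩ := (isCompact_ball (n := n) R).exists_isMinOn ⟨0, by simp [hN0, hR0]⟩
    hcont.continuousOn
  refine ⟨x, fun y => ?_⟩
  by_cases hy : gN y ≤ R
  · exact hx2 hy
  · have h0 : gG F t x - 2 * ∑ j, v j * x j ≤ gG F t 0 - 2 * ∑ j, v j * (0 : Fin n → ℝ) j :=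
      hx2 (by simp [hN0, hR0])
    have h00 : gG F t 0 - 2 * ∑ j, v j * (0 : Fin n → ℝ) j = F 0 := by simp [gG, hN0]
    rw [h00] at h0
    have h1 := two_lin_le v y (half_pos ht)
    have h2 : R < gN y := not_le.1 hy
    have h3 : F 0 + gN v / (t / 2) < t / 2 * gN y := by
      have : t / 2 * R < t / 2 * gN y := by gcongr
      have e : t / 2 * R = F 0 + gN v / (t / 2) := by
        rw [hR, ← mul_assoc]
        have : t / 2 * (2 / t) = 1 := by field_simp
        rw [this, one_mul]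
      linarith
    have h4 := hF0 y
    unfold gG at h0 ⊢
    nlinarith

/-- G7. `gMin F t` is attained (`exists_min` with `v = 0`, `ciInf` over a set bounded below by
`0`). -/
theorem exists_gMin (F : (Fin n → ℝ) → ℝ) (hF : Continuous F) (hF0 : ∀ x, 0 ≤ F x) {t : ℝ}
    (ht : 0 < t) : ∃ x : Fin n → ℝ, gG F t x = gMin F t := by
  obtain ⟨x, hx⟩ := exists_min F hF hF0 ht 0
  have hx' : ∀ y, gG F t x ≤ gG F t y := fun y => by simpa using hx y
  refine ⟨x, le_antisymm (le_ciInf hx') (ciInf_le ⟨gG F t x, ?_⟩ x)⟩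
  rintro _ ⟨y, rfl⟩
  exact hx' y

/-- G7. `gMin F t ≤ G t y`. -/
theorem gMin_le (F : (Fin n → ℝ) → ℝ) (hF0 : ∀ x, 0 ≤ F x) {t : ℝ} (ht : 0 < t)
    (y : Fin n → ℝ) : gMin F t ≤ gG F t y := by
  refine ciInf_le ⟨0, ?_⟩ y
  rintro _ ⟨z, rfl⟩
  have := hF0 z
  have := gN_nonneg z
  unfold gG
  positivity

end Pool.Agent.H54R
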