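import Pool.Agent.Lib.H54R.G6
import Pool.Agent.Lib.H54R.G7

/-! # Chunk G8: perturbed minima -/

set_option autoImplicit false

namespace Pool.Agent.H54R

open Filter Topology

variable {n m : ℕ}

/-- G8 (M). For `t > 0` there are a sequence `s k > 0` with `s k → 0` and points `x k` with
`u_i (x k) = (s k) ^ ((D + 1) ^ i)` for all `i` and `G (x k) → gMin F t`.

PROOF. `s k = 1 / (k + 1)`, `v k i = (s k) ^ ((D + 1) ^ i)`, so `0 ≤ v k i ≤ s k ≤ 1` (the exponent
is at least `1`). Let `x k` be a minimum of `G - 2 <v k, x>` (`exists_min`); `gU_of_min` gives the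
gradient. Let `z` be a minimum of `G` (`exists_gMin`). Then
`G (x k) ≤ G z - 2 <v k, z> + 2 <v k, x k>` and `G z ≤ G (x k)`. With `two_lin_le` for `t / 2` and
`t |x k|^2 ≤ G (x k)`: `2 <v k, x k> ≤ 2 |v k|^2 / t + G (x k) / 2`, so `G (x k)` is bounded by some
constant `M` (`|v k|^2 ≤ n`, `|<v k, z>| ≤ ∑ |z j|`), hence `|x k|^2 ≤ M / t` and
`|<v k, x k>| ≤ s k * ∑ |x k j| ≤ s k * n * (M / t + 1)`; so `0 ≤ G (x k) - G z ≤ const * s k → 0`
(`squeeze_zero`). -/
theorem exists_seq (S : Fin m → GEq n) (D : ℕ) {t : ℝ} (ht : 0 < t) :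
    ∃ (s : ℕ → ℝ) (x : ℕ → Fin n → ℝ), (∀ k, 0 < s k) ∧ Tendsto s atTop (𝓝 0) ∧
      (∀ k i, gU S t (x k) i = s k ^ ((D + 1) ^ (i : ℕ))) ∧
      Tendsto (fun k => gG (gF S) t (x k)) atTop (𝓝 (gMin (gF S) t)) := by
  have hF := continuous_gF S
  have hF0 := gF_nonneg S
  obtain ⟨z, hz⟩ := exists_gMin (gF S) hF hF0 ht
  set s : ℕ → ℝ := fun k => 1 / ((k : ℝ) + 1) with hs
  have hs0 : ∀ k, 0 < s k := fun k => by simp only [hs]; positivity
  have hs1 : ∀ k, s k ≤ 1 := fun k => by
    simp only [hs]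
    rw [div_le_one (by positivity)]
    have : (0 : ℝ) ≤ k := Nat.cast_nonneg k
    linarith
  have hst : Tendsto s atTop (𝓝 0) := tendsto_one_div_add_atTop_nhds_zero_nat
  let v : ℕ → Fin n → ℝ := fun k i => s k ^ ((D + 1) ^ (i : ℕ))
  have hv0 : ∀ k i, 0 ≤ v k i := fun k i => pow_nonneg (hs0 k).le _
  have hv1 : ∀ k i, v k i ≤ s k := fun k i => by
    have h1 : (D + 1) ^ (i : ℕ) ≠ 0 := by positivity
    exact pow_le_of_le_one (hs0 k).le (hs1 k) h1
  have hv2 : ∀ k i, v k i ≤ 1 := fun k i => (hv1 k i).trans (hs1 k)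
  choose x hx using fun k => exists_min (gF S) hF hF0 ht (v k)
  refine ⟨s, x, hs0, hst, fun k i => gU_of_min S t (v k) (x k) (hx k) i, ?_⟩
  set Z : ℝ := gMin (gF S) t with hZ
  set Bz : ℝ := ∑ j, |z j| with hBz
  have hBz0 : 0 ≤ Bz := Finset.sum_nonneg fun _ _ => abs_nonneg _
  set M : ℝ := 2 * (Z + 2 * Bz + 2 * n / t) with hM
  have hb : ∀ k, |∑ j, v k j * z j| ≤ s k * Bz := fun k => by
    refine (Finset.abs_sum_le_sum_abs _ _).trans ?_
    rw [hBz, Finset.mul_sum]
    refine Finset.sum_le_sum fun j _ => ?_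
    rw [abs_mul, abs_of_nonneg (hv0 k j)]
    exact mul_le_mul_of_nonneg_right (hv1 k j) (abs_nonneg _)
  have hZle : ∀ k, Z ≤ gG (gF S) t (x k) := fun k => gMin_le (gF S) hF0 ht (x k)
  have hmin : ∀ k, gG (gF S) t (x k) - 2 * ∑ j, v k j * x k j ≤ Z - 2 * ∑ j, v k j * z j := fun k => by
    have := hx k z
    rw [hz] at this
    exact this
  have hNv : ∀ k, gN (v k) ≤ n := fun k => by
    unfold gN
    calc ∑ i, v k i ^ 2 ≤ ∑ _i : Fin n, (1 : ℝ) := Finset.sum_le_sum fun i _ => by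
          have := hv0 k i
          have := hv2 k i
          nlinarith
      _ = n := by simp
  have htN : ∀ k, t * gN (x k) ≤ gG (gF S) t (x k) := fun k => by
    have := hF0 (x k)
    unfold gG
    linarith
  have hmM : ∀ k, gG (gF S) t (x k) ≤ M := fun k => by
    have h1 := two_lin_le (v k) (x k) (half_pos ht)
    have h2 := htN k
    have h3 := hmin k
    have h4 := hb k
    have h5 : s k * Bz ≤ Bz := by
      have := hs1 k
      nlinarith
    have h6 : gN (v k) / (t / 2) ≤ 2 * n / t := by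
      have e : (2 : ℝ) * n / t = n / (t / 2) := by field_simp
      rw [e]
      have := hNv k
      gcongr
    have h7 := (abs_le.1 h4).1
    rw [hM]
    nlinarith
  have hMt : 0 ≤ M / t := by
    have h1 := htN 0
    have h2 := hmM 0
    have h3 := gN_nonneg (x 0)
    have : 0 ≤ M := by nlinarith
    positivity
  have hxj : ∀ k j, |x k j| ≤ M / t + 1 := fun k j => by
    have h1 : x k j ^ 2 ≤ M / t := by
      rw [le_div_iff₀ ht]
      have := sq_le_gN (x k) j
      have := htN k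
      have := hmM k
      nlinarith
    rw [abs_le]
    constructor <;> nlinarith [sq_nonneg (x k j + 1), sq_nonneg (x k j - 1)]
  have ha : ∀ k, |∑ j, v k j * x k j| ≤ s k * (n * (M / t + 1)) := fun k => by
    refine (Finset.abs_sum_le_sum_abs _ _).trans ?_
    calc ∑ j, |v k j * x k j| ≤ ∑ _j : Fin n, s k * (M / t + 1) := Finset.sum_le_sum fun j _ => by
          rw [abs_mul, abs_of_nonneg (hv0 k j)]
          exact mul_le_mul (hv1 k j) (hxj k j) (abs_nonneg _) (hs0 k).le
      _ = s k * (n * (M / t + 1)) := by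
          rw [Finset.sum_const, Finset.card_univ, Fintype.card_fin, nsmul_eq_mul]
          ring
  have hup : ∀ k, gG (gF S) t (x k) ≤ Z + s k * (2 * (n * (M / t + 1)) + 2 * Bz) := fun k => by
    have h1 := hmin k
    have h2 := (abs_le.1 (hb k)).1
    have h3 := (abs_le.1 (ha k)).2
    nlinarith
  refine tendsto_of_tendsto_of_tendsto_of_le_of_le tendsto_const_nhds ?_ hZle hup
  have := (hst.mul_const (2 * (n * (M / t + 1)) + 2 * Bz)).const_add Z
  simpa using this

end Pool.Agent.H54R
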