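import Pool.Agent.Lib.H54R.GapDefs

/-! # Chunk G9: weights and the leading coefficient -/

set_option autoImplicit false

namespace Pool.Agent.H54R

open Filter Topology

variable {n : ℕ}

theorem g9_succ {D n : ℕ} (a : Fin (n + 1) → Fin (D + 1)) :
    gWt a = (a 0 : ℕ) + (D + 1) * gWt (fun i => a i.succ) := by
  unfold gWt
  rw [Fin.sum_univ_succ, Finset.mul_sum]
  congr 1
  · simp
  · refine Finset.sum_congr rfl fun i _ => ?_
    rw [Fin.val_succ, pow_succ]
    ring

/-- G9 (S/M). The weights `w α = ∑ (D + 1)^i α_i` are the numbers with digits `α_i` in base `D + 1`: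
injective. PROOF. Induction on `n` with `Fin.sum_univ_succ`:
`w α = α 0 + (D + 1) * w (α ∘ succ)`; take remainders and quotients modulo `D + 1` (`α 0 < D + 1`);
`(D + 1) ^ (i.succ : ℕ) = (D + 1) * (D + 1) ^ i`. -/
theorem gWt_injective (D : ℕ) : Function.Injective (gWt : (Fin n → Fin (D + 1)) → ℕ) := by
  induction n with
  | zero => exact fun a b _ => Subsingleton.elim a b
  | succ n ih =>
    intro a b h
    rw [g9_succ, g9_succ] at h
    have ha := (a 0).isLt
    have hb := (b 0).isLt
    have h1 : (a 0 : ℕ) = b 0 := by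
      have h2 := congrArg (fun x => x % (D + 1)) h
      simp only [Nat.add_mul_mod_self_left] at h2
      rwa [Nat.mod_eq_of_lt ha, Nat.mod_eq_of_lt hb] at h2
    rw [h1] at h
    have h3 : gWt (fun i => a i.succ) = gWt (fun i => b i.succ) :=
      Nat.eq_of_mul_eq_mul_left (Nat.succ_pos D) (Nat.add_left_cancel h)
    have h4 := ih h3
    funext i
    refine Fin.cases ?_ (fun j => ?_) i
    · exact Fin.ext h1
    · exact congrFun h4 j

/-- G9 (M). LEADING COEFFICIENT. Let `w : A → ℕ` be injective on a finite type, `s k > 0`, `s k → 0`,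
`a α k → a' α`, and `∑ α, s k ^ w α * a α k = 0` for all `k`. Let `α₀` be such that `a α k = 0` for
all `k` whenever `w α < w α₀`. Then `a' α₀ = 0`.

PROOF. Divide by `s k ^ w α₀`: `∑ α, b α k = 0` with `b α k = 0` for `w α < w α₀`,
`b α₀ k = a α₀ k`, `b α k = s k ^ (w α - w α₀) * a α k → 0` for `w α > w α₀`. The limit of the sum
is `a' α₀`. -/
theorem leading_zero {A : Type} [Fintype A] (w : A → ℕ) (hw : Function.Injective w) (s : ℕ → ℝ)
    (hs : ∀ k, 0 < s k) (hs0 : Tendsto s atTop (𝓝 0)) (a : A → ℕ → ℝ) (a' : A → ℝ)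
    (ha : ∀ α, Tendsto (a α) atTop (𝓝 (a' α))) (hsum : ∀ k, ∑ α, s k ^ w α * a α k = 0) (α₀ : A)
    (h0 : ∀ α, w α < w α₀ → ∀ k, a α k = 0) : a' α₀ = 0 := by
  classical
  have h1 : ∀ α, Tendsto (fun k => s k ^ w α * a α k / s k ^ w α₀) atTop
      (𝓝 (if α = α₀ then a' α₀ else 0)) := by
    intro α
    rcases lt_trichotomy (w α) (w α₀) with h | h | h
    · have hne : α ≠ α₀ := by
        rintro rfl
        exact lt_irrefl _ h
      rw [if_neg hne]
      refine tendsto_const_nhds.congr fun k => ?_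
      rw [h0 α h k, mul_zero, zero_div]
    · have he := hw h
      subst he
      rw [if_pos rfl]
      refine (ha α).congr fun k => ?_
      rw [mul_div_assoc, mul_comm, div_mul_cancel₀]
      exact (pow_pos (hs k) _).ne'
    · have hne : α ≠ α₀ := by
        rintro rfl
        exact lt_irrefl _ h
      rw [if_neg hne]
      have h2 : Tendsto (fun k => s k ^ (w α - w α₀) * a α k) atTop (𝓝 0) := by
        have h3 := (hs0.pow (w α - w α₀)).mul (ha α)
        rwa [zero_pow (Nat.sub_ne_zero_of_lt h), zero_mul] at h3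
      refine h2.congr fun k => ?_
      have hk := (pow_pos (hs k) (w α₀)).ne'
      rw [eq_div_iff hk, mul_right_comm, ← pow_add, Nat.sub_add_cancel h.le]
  have h2 := tendsto_finsetSum Finset.univ fun α _ => h1 α
  rw [Finset.sum_ite_eq' Finset.univ α₀, if_pos (Finset.mem_univ _)] at h2
  have h3 : Tendsto (fun _ : ℕ => (0 : ℝ)) atTop (𝓝 (a' α₀)) := by
    refine h2.congr fun k => ?_
    rw [← Finset.sum_div, hsum k, zero_div]
  exact tendsto_nhds_unique h3 tendsto_const_nhds

end Pool.Agent.H54R
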