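import Pool.Agent.Lib.H54R.G5
import Pool.Agent.Lib.H54R.G8
import Pool.Agent.Lib.H54R.G9

/-! # Chunk G10: the equation of the minimum -/

set_option autoImplicit false

namespace Pool.Agent.H54R

open Filter Topology

variable {n m : ℕ}

/-- G10 (M). There is a nonzero integer polynomial `Q(t, T) = ∑ d g β t^g T^β` of degree at most `L`
in `t`, `D` in `T` and with coefficients at most `H` such that `Q (t, gMin F t) = 0` for all `t > 0`.

PROOF. `c` from `gap_relation`. Choose `α₀` with minimal weight `gWt α₀` among the `α` for which some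
`c (g, α, β)` is not zero (there is such an `α` because `c ≠ 0`; `Finset.exists_min_image` or
`WellFounded.min`), `d g β = c (g, α₀, β)`. For `t > 0` take `s`, `x` from `exists_seq S (gD n) ht`.
With `a α k = ∑ g β, c (g, α, β) t^g G(x k)^β` and `a' α = ∑ g β, c (g, α, β) t^g (gMin F t)^β`:
`∏ i, u_i ^ α_i = s k ^ gWt α` (`Finset.prod_pow_eq_pow_sum`, `pow_mul`), so the relation at `x k` is
`∑ α, s k ^ gWt α * a α k = 0` (`Fintype.sum_prod_type`, `Finset.sum_comm`); the family `a α` is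
zero for `gWt α < gWt α₀`; `leading_zero` with `gWt_injective`. -/
theorem exists_eqn (S : Fin m → GEq n) : ∃ d : Fin (gL n + 1) → Fin (gD n + 1) → ℤ,
    (∃ g β, d g β ≠ 0) ∧ (∀ g β, (d g β).natAbs ≤ gH n m) ∧
    ∀ t : ℝ, 0 < t → ∑ g, ∑ β, (d g β : ℝ) * (t ^ (g : ℕ) * gMin (gF S) t ^ (β : ℕ)) = 0 := by
  classical
  obtain ⟨c, hc0, hcH, hrel⟩ := gap_relation S
  obtain ⟨⟨g₁, α₁, β₁⟩, h₁⟩ : ∃ q, c q ≠ 0 := by
    by_contra h
    push Not at h
    exact hc0 (funext h)
  obtain ⟨α₀, h₀, hmin⟩ := (Finset.univ.filter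
    fun α : Fin n → Fin (gD n + 1) => ∃ g β, c (g, α, β) ≠ 0).exists_min_image gWt
    ⟨α₁, by simp only [Finset.mem_filter, Finset.mem_univ, true_and]; exact ⟨g₁, β₁, h₁⟩⟩
  simp only [Finset.mem_filter, Finset.mem_univ, true_and] at h₀ hmin
  refine ⟨fun g β => c (g, α₀, β), h₀, fun g β => hcH _, ?_⟩
  intro t ht
  obtain ⟨s, x, hs, hs0, hu, hG⟩ := exists_seq S (gD n) ht
  have ha : ∀ α : Fin n → Fin (gD n + 1), Tendsto
      (fun k => ∑ g : Fin (gL n + 1), ∑ β : Fin (gD n + 1),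
        (c (g, α, β) : ℝ) * (t ^ (g : ℕ) * gG (gF S) t (x k) ^ (β : ℕ))) atTop
      (𝓝 (∑ g : Fin (gL n + 1), ∑ β : Fin (gD n + 1),
        (c (g, α, β) : ℝ) * (t ^ (g : ℕ) * gMin (gF S) t ^ (β : ℕ)))) := by
    intro α
    refine tendsto_finsetSum _ fun g _ => tendsto_finsetSum _ fun β _ => ?_
    exact ((hG.pow _).const_mul _).const_mul _
  refine leading_zero (gWt : (Fin n → Fin (gD n + 1)) → ℕ) (gWt_injective (gD n)) s hs hs0 _ _ ha
    ?_ α₀ ?_
  · intro k
    rw [← hrel t (x k)]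
    rw [Fintype.sum_prod_type]
    simp only [Fintype.sum_prod_type]
    rw [Finset.sum_comm]
    refine Finset.sum_congr rfl fun α _ => ?_
    rw [Finset.mul_sum]
    refine Finset.sum_congr rfl fun g _ => ?_
    rw [Finset.mul_sum]
    refine Finset.sum_congr rfl fun β _ => ?_
    have h2 : ∏ i, gU S t (x k) i ^ (α i : ℕ) = s k ^ gWt α := by
      unfold gWt
      rw [← Finset.prod_pow_eq_pow_sum]
      refine Finset.prod_congr rfl fun i _ => ?_
      rw [hu k i, ← pow_mul]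
    rw [h2]
    ring
  · intro α hα k
    refine Finset.sum_eq_zero fun g _ => Finset.sum_eq_zero fun β _ => ?_
    have h3 : c (g, α, β) = 0 := by
      by_contra h
      exact (hmin α ⟨g, β, h⟩).not_gt hα
    rw [h3, Int.cast_zero, zero_mul]

end Pool.Agent.H54R
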