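import Pool.Agent.Lib.H54R.GapDefs

/-! # Chunk G11: estimates of polynomials with bounded integer coefficients -/

set_option autoImplicit false

namespace Pool.Agent.H54R

theorem g11_low {H : ℕ} (R : ℕ → ℤ) (hH : ∀ j, (R j).natAbs ≤ H) {T : ℝ}
    (hT : 2 * (1 + (H : ℝ)) ≤ T) (b : ℕ) :
    |∑ j ∈ Finset.range b, (R j : ℝ) * T ^ j| ≤ (T ^ b - 1) / 2 := by
  have hH0 : (0 : ℝ) ≤ H := Nat.cast_nonneg H
  have hT0 : 0 < T := by linarith
  induction b with
  | zero => simp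
  | succ b ih =>
    rw [Finset.sum_range_succ]
    have h1 : |(R b : ℝ) * T ^ b| ≤ H * T ^ b := by
      rw [abs_mul, abs_of_pos (pow_pos hT0 b)]
      refine mul_le_mul_of_nonneg_right ?_ (pow_pos hT0 b).le
      rw [← Int.cast_abs, Int.abs_eq_natAbs]
      exact_mod_cast hH b
    have h2 : T ^ b * (2 * (1 + (H : ℝ))) ≤ T ^ b * T :=
      mul_le_mul_of_nonneg_left hT (pow_pos hT0 b).le
    have h3 := pow_pos hT0 b
    calc |∑ j ∈ Finset.range b, (R j : ℝ) * T ^ j + (R b : ℝ) * T ^ b| ≤ _ := abs_add_le _ _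
      _ ≤ (T ^ b - 1) / 2 + H * T ^ b := add_le_add ih h1
      _ ≤ (T ^ (b + 1) - 1) / 2 := by rw [pow_succ]; nlinarith

/-- G11 (M). Let `r 0, ..., r D` be integers, not all zero, of absolute value at most `H`, and
`T ≥ 2 (1 + H)`. Then `|∑ r β T^β| ≥ 1`. PROOF. Let `b` be the largest index with `r b ≠ 0`
(`Finset.exists_max_image`). The terms beyond `b` vanish. `|r b T^b| ≥ T^b`, and
`|∑ β<b, r β T^β| ≤ H ∑ β<b, T^β = H (T^b - 1) / (T - 1) ≤ (T^b - 1) / 2` because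
`2 H ≤ T - 1` (`Commute.geom_sum..`, `geom_sum_eq`, or an induction on `b`). So the value is at least
`T^b - (T^b - 1)/2 ≥ 1` in absolute value (`T ≥ 1`). -/
theorem one_le_abs_poly {D H : ℕ} (r : Fin (D + 1) → ℤ) (hr : ∃ β, r β ≠ 0)
    (hH : ∀ β, (r β).natAbs ≤ H) {T : ℝ} (hT : 2 * (1 + (H : ℝ)) ≤ T) :
    1 ≤ |∑ β, (r β : ℝ) * T ^ (β : ℕ)| := by
  classical
  have hH0 : (0 : ℝ) ≤ H := Nat.cast_nonneg H
  have hT1 : 1 ≤ T := by linarith
  set R : ℕ → ℤ := fun j => if h : j < D + 1 then r ⟨j, h⟩ else 0 with hR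
  have hRH : ∀ j, (R j).natAbs ≤ H := by
    intro j
    by_cases h : j < D + 1
    · rw [hR]; simp only [h, dif_pos]; exact hH _
    · rw [hR]; simp only [h, dif_neg, not_false_eq_true]; exact Nat.zero_le _
  have hRr : ∀ β : Fin (D + 1), R (β : ℕ) = r β := by
    intro β
    rw [hR]
    simp only [β.isLt, dif_pos]
  have hsum : ∑ β : Fin (D + 1), (r β : ℝ) * T ^ (β : ℕ) =
      ∑ j ∈ Finset.range (D + 1), (R j : ℝ) * T ^ j := by
    rw [Finset.sum_range]
    refine Finset.sum_congr rfl fun β _ => ?_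
    rw [hRr]
  obtain ⟨β₀, hβ₀⟩ := hr
  obtain ⟨b, hb, hmax⟩ := (Finset.univ.filter fun β : Fin (D + 1) => r β ≠ 0).exists_max_image
    (fun β => (β : ℕ)) ⟨β₀, by simp [hβ₀]⟩
  rw [Finset.mem_filter] at hb
  have hsplit : ∑ j ∈ Finset.range (D + 1), (R j : ℝ) * T ^ j =
      ∑ j ∈ Finset.range ((b : ℕ) + 1), (R j : ℝ) * T ^ j := by
    symm
    refine Finset.sum_subset (Finset.range_mono (Nat.succ_le_of_lt b.isLt)) fun j hj hj2 => ?_
    rw [Finset.mem_range] at hj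
    rw [Finset.mem_range, not_lt] at hj2
    have h1 : R j = 0 := by
      by_contra h
      have h2 := hmax ⟨j, hj⟩ (by
        rw [Finset.mem_filter]
        refine ⟨Finset.mem_univ _, ?_⟩
        have h3 := hRr ⟨j, hj⟩
        rw [← h3]
        exact h)
      simp only at h2
      omega
    rw [h1, Int.cast_zero, zero_mul]
  rw [hsum, hsplit, Finset.sum_range_succ]
  have h1 := g11_low R hRH hT (b : ℕ)
  have h2 : 1 ≤ |(R (b : ℕ) : ℝ)| := by
    rw [← Int.cast_abs]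
    have h3 : 1 ≤ |R (b : ℕ)| := by
      rw [hRr]
      exact Int.one_le_abs hb.2
    exact_mod_cast h3
  have h3 : T ^ (b : ℕ) ≤ |(R (b : ℕ) : ℝ) * T ^ (b : ℕ)| := by
    rw [abs_mul, abs_of_pos (pow_pos (zero_lt_one.trans_le hT1) _)]
    exact le_mul_of_one_le_left (pow_pos (zero_lt_one.trans_le hT1) _).le h2
  have h4 : (1 : ℝ) ≤ T ^ (b : ℕ) := one_le_pow₀ hT1
  have h5 := abs_sub_abs_le_abs_sub ((R (b : ℕ) : ℝ) * T ^ (b : ℕ))
    (-(∑ j ∈ Finset.range (b : ℕ), (R j : ℝ) * T ^ j))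
  rw [abs_neg, sub_neg_eq_add] at h5
  rw [add_comm]
  linarith

/-- G11 (M). Let `d g β` (`g ≤ L`, `β ≤ D`) be integers, not all zero, of absolute value at most `H`.
There are an exponent `e` and integers `r β`, not all zero, of absolute value at most `H`, and real
numbers `q g β` (`g ≤ L`, `β ≤ D`), such that ... in the form: for every `t > 0` and real `T` the sum
`∑ d g β t^g (t T)^β` is `t^e * Q t T` where `Q t T = ∑ d' g β t^(g + β - e) T^β` satisfies
`|Q t T - ∑ r β T^β| ≤ (D + 1) (L + 1) H t T1^D` for `0 < t ≤ 1`, `|T| ≤ T1`, `1 ≤ T1`.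

PROOF. `e` = the smallest `g + β` with `d g β ≠ 0` (`Nat.find`), `r β = d (e - β) β` if
`β ≤ e ≤ β + L`, else `0` (so `r β` is the coefficient of `t^e` at `T^β`), nonzero at the pair where
the minimum is attained. `Q t T = ∑ g β, d g β t^(g + β - e) T^β` with natural subtraction; all
terms with `d g β ≠ 0` have `g + β ≥ e`. `t^e * t^(g+β-e) = t^(g+β)`. The terms with `g + β = e`
sum to `∑ r β T^β`; every other nonzero term is at most `H t |T|^β ≤ H t T1^D` in absolute value, and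
there are at most `(L + 1)(D + 1)` terms. -/
theorem exists_reduced {D L H : ℕ} (d : Fin (L + 1) → Fin (D + 1) → ℤ) (hd : ∃ g β, d g β ≠ 0)
    (hH : ∀ g β, (d g β).natAbs ≤ H) :
    ∃ (e : ℕ) (r : Fin (D + 1) → ℤ) (Q : ℝ → ℝ → ℝ), (∃ β, r β ≠ 0) ∧
      (∀ β, (r β).natAbs ≤ H) ∧
      (∀ t T : ℝ, 0 < t →
        ∑ g, ∑ β, (d g β : ℝ) * (t ^ (g : ℕ) * (t * T) ^ (β : ℕ)) = t ^ e * Q t T) ∧
      (∀ t T T1 : ℝ, 0 < t → t ≤ 1 → 1 ≤ T1 → |T| ≤ T1 →
        |Q t T - ∑ β, (r β : ℝ) * T ^ (β : ℕ)| ≤ (D + 1) * (L + 1) * H * t * T1 ^ D) := by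
  classical
  obtain ⟨g₁, β₁, h₁⟩ := hd
  obtain ⟨⟨g₀, β₀⟩, h₀, hmin⟩ := (Finset.univ.filter
    fun q : Fin (L + 1) × Fin (D + 1) => d q.1 q.2 ≠ 0).exists_min_image
    (fun q => (q.1 : ℕ) + (q.2 : ℕ)) ⟨(g₁, β₁), by simp [h₁]⟩
  rw [Finset.mem_filter] at h₀
  simp only at hmin
  have hmin' : ∀ g β, d g β ≠ 0 → (g₀ : ℕ) + (β₀ : ℕ) ≤ (g : ℕ) + (β : ℕ) := fun g β h =>
    hmin (g, β) (by simp [h])
  set e : ℕ := (g₀ : ℕ) + (β₀ : ℕ) with he
  have hr1 : ∀ (g : Fin (L + 1)) (β : Fin (D + 1)), (g : ℕ) + (β : ℕ) = e →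
      (∑ g' : Fin (L + 1), if (g' : ℕ) + (β : ℕ) = e then d g' β else 0) = d g β := by
    intro g β h
    rw [Finset.sum_eq_single g]
    · rw [if_pos h]
    · intro g' _ hg'
      rw [if_neg]
      intro h2
      apply hg'
      apply Fin.ext
      omega
    · intro h2
      exact absurd (Finset.mem_univ g) h2
  refine ⟨e, fun β => ∑ g : Fin (L + 1), if (g : ℕ) + (β : ℕ) = e then d g β else 0,
    fun t T => ∑ g, ∑ β, (d g β : ℝ) * (t ^ ((g : ℕ) + (β : ℕ) - e) * T ^ (β : ℕ)),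
    ⟨β₀, ?_⟩, ?_, ?_, ?_⟩
  · change (∑ g' : Fin (L + 1), if (g' : ℕ) + (β₀ : ℕ) = e then d g' β₀ else 0) ≠ 0
    rw [hr1 g₀ β₀ rfl]
    exact h₀.2
  · intro β
    by_cases h : ∃ g : Fin (L + 1), (g : ℕ) + (β : ℕ) = e
    · obtain ⟨g, hg⟩ := h
      simp only [hr1 g β hg]
      exact hH g β
    · push Not at h
      have : (∑ g' : Fin (L + 1), if (g' : ℕ) + (β : ℕ) = e then d g' β else 0) = 0 :=
        Finset.sum_eq_zero fun g _ => if_neg (h g)
      simp only [this]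
      exact Nat.zero_le _
  · intro t T ht
    rw [Finset.mul_sum]
    refine Finset.sum_congr rfl fun g _ => ?_
    rw [Finset.mul_sum]
    refine Finset.sum_congr rfl fun β _ => ?_
    by_cases h : d g β = 0
    · rw [h]; simp
    · have h2 := hmin' g β h
      have h3 : t ^ (g : ℕ) * (t * T) ^ (β : ℕ) =
          t ^ e * (t ^ ((g : ℕ) + (β : ℕ) - e) * T ^ (β : ℕ)) := by
        rw [mul_pow, ← mul_assoc, ← mul_assoc, ← pow_add, ← pow_add]
        congr 2
        omega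
      rw [h3]
      ring
  · intro t T T1 ht ht1 hT1 hT
    have h1 : (∑ g, ∑ β, (d g β : ℝ) * (t ^ ((g : ℕ) + (β : ℕ) - e) * T ^ (β : ℕ))) -
        ∑ β : Fin (D + 1), ((∑ g : Fin (L + 1), if (g : ℕ) + (β : ℕ) = e then d g β else 0 : ℤ) : ℝ)
          * T ^ (β : ℕ) =
        ∑ g : Fin (L + 1), ∑ β : Fin (D + 1),
          ((d g β : ℝ) * (t ^ ((g : ℕ) + (β : ℕ) - e) * T ^ (β : ℕ)) -
            (if (g : ℕ) + (β : ℕ) = e then (d g β : ℝ) else 0) * T ^ (β : ℕ)) := by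
      simp only [Finset.sum_sub_distrib]
      congr 1
      rw [Finset.sum_comm]
      refine Finset.sum_congr rfl fun β _ => ?_
      rw [Int.cast_sum, Finset.sum_mul]
      refine Finset.sum_congr rfl fun g _ => ?_
      split_ifs <;> simp
    rw [h1]
    have h2 : ∀ (g : Fin (L + 1)) (β : Fin (D + 1)),
        |(d g β : ℝ) * (t ^ ((g : ℕ) + (β : ℕ) - e) * T ^ (β : ℕ)) -
            (if (g : ℕ) + (β : ℕ) = e then (d g β : ℝ) else 0) * T ^ (β : ℕ)| ≤
          H * t * T1 ^ D := by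
      intro g β
      have hpos : 0 ≤ (H : ℝ) * t * T1 ^ D := by positivity
      by_cases h : d g β = 0
      · rw [h]; simpa using hpos
      · have h3 := hmin' g β h
        by_cases h4 : (g : ℕ) + (β : ℕ) = e
        · rw [if_pos h4, h4, Nat.sub_self, pow_zero, one_mul, sub_self, abs_zero]
          exact hpos
        · rw [if_neg h4, zero_mul, sub_zero, abs_mul, abs_mul, mul_assoc]
          have h5 : |(d g β : ℝ)| ≤ H := by
            rw [← Int.cast_abs, Int.abs_eq_natAbs]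
            exact_mod_cast hH g β
          have h6 : |t ^ ((g : ℕ) + (β : ℕ) - e)| ≤ t := by
            rw [abs_of_pos (pow_pos ht _)]
            have h7 : t ^ ((g : ℕ) + (β : ℕ) - e) ≤ t ^ 1 :=
              pow_le_pow_of_le_one ht.le ht1 (by omega)
            rwa [pow_one] at h7
          have h7 : |T ^ (β : ℕ)| ≤ T1 ^ D := by
            rw [abs_pow]
            exact (pow_le_pow_left₀ (abs_nonneg T) hT _).trans
              (pow_le_pow_right₀ hT1 (Nat.lt_succ_iff.mp β.isLt))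
          exact mul_le_mul h5 (mul_le_mul h6 h7 (abs_nonneg _) ht.le)
            (mul_nonneg (abs_nonneg _) (abs_nonneg _)) (Nat.cast_nonneg H)
    refine (Finset.abs_sum_le_sum_abs _ _).trans ?_
    have h3 : ∀ g ∈ (Finset.univ : Finset (Fin (L + 1))), |∑ β : Fin (D + 1),
          ((d g β : ℝ) * (t ^ ((g : ℕ) + (β : ℕ) - e) * T ^ (β : ℕ)) -
            (if (g : ℕ) + (β : ℕ) = e then (d g β : ℝ) else 0) * T ^ (β : ℕ))| ≤
          (D + 1 : ℝ) * (H * t * T1 ^ D) := by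
      intro g _
      refine (Finset.abs_sum_le_sum_abs _ _).trans ((Finset.sum_le_sum fun β _ => h2 g β).trans ?_)
      rw [Finset.sum_const, Finset.card_univ, Fintype.card_fin, nsmul_eq_mul]
      push_cast
      exact le_rfl
    refine (Finset.sum_le_sum h3).trans ?_
    rw [Finset.sum_const, Finset.card_univ, Fintype.card_fin, nsmul_eq_mul]
    push_cast
    apply le_of_eq
    ring

end Pool.Agent.H54R
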