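import Pool.Agent.Lib.H54R.G7

/-! # Chunk G12: the function `μ t = gMin F t / t` -/

set_option autoImplicit false

namespace Pool.Agent.H54R

open Filter Topology

variable {n : ℕ}

/-- G12 (S). `μ` is nonnegative. -/
theorem gMin_div_nonneg (F : (Fin n → ℝ) → ℝ) (hF : Continuous F) (hF0 : ∀ x, 0 ≤ F x) {t : ℝ}
    (ht : 0 < t) : 0 ≤ gMin F t / t := by
  obtain ⟨x, hx⟩ := exists_gMin F hF hF0 ht
  rw [← hx]
  have h1 := hF0 x
  have h2 := gN_nonneg x
  unfold gG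
  positivity

/-- G12 (S). `μ t ≤ F y / t + |y|^2`. -/
theorem gMin_div_le (F : (Fin n → ℝ) → ℝ) (hF0 : ∀ x, 0 ≤ F x) {t : ℝ} (ht : 0 < t)
    (y : Fin n → ℝ) : gMin F t / t ≤ F y / t + gN y := by
  have h := gMin_le F hF0 ht y
  unfold gG at h
  rw [div_le_iff₀ ht, add_mul, div_mul_cancel₀ _ ht.ne']
  linarith

/-- G12 (M). `μ` is continuous on `[a, b]`, `0 < a`. PROOF. `gMin F` is Lipschitz there: for `t`,
`t'` in `[a, b]` let `x` be a minimum at `t` (`exists_gMin`); `a |x|^2 ≤ t |x|^2 ≤ gMin F t ≤ G t 0 =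
F 0`, so `gMin F t' ≤ G t' x = gMin F t + (t' - t) |x|^2 ≤ gMin F t + |t' - t| (F 0 / a)`, and
symmetrically. (`LipschitzOnWith`, `continuousOn_iff` or `Metric.continuousOn_iff`.) Divide by the
continuous nonvanishing `t`. -/
theorem continuousOn_gMin_div (F : (Fin n → ℝ) → ℝ) (hF : Continuous F) (hF0 : ∀ x, 0 ≤ F x)
    {a b : ℝ} (ha : 0 < a) : ContinuousOn (fun t => gMin F t / t) (Set.Icc a b) := by
  have hN0 : gN (0 : Fin n → ℝ) = 0 := by simp [gN]
  have key : ∀ t t' : ℝ, a ≤ t → a ≤ t' → gMin F t' ≤ gMin F t + |t' - t| * (F 0 / a) := by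
    intro t t' ht ht'
    have ht0 : 0 < t := ha.trans_le ht
    have ht'0 : 0 < t' := ha.trans_le ht'
    obtain ⟨x, hx⟩ := exists_gMin F hF hF0 ht0
    have h1 := gMin_le F hF0 ht'0 x
    have h2 := gMin_le F hF0 ht0 0
    have h3 := hF0 x
    have h4 := gN_nonneg x
    unfold gG at hx h1 h2
    rw [hN0] at h2
    have h5 : gN x ≤ F 0 / a := by
      rw [le_div_iff₀ ha]
      nlinarith
    have h6 : (t' - t) * gN x ≤ |t' - t| * (F 0 / a) :=
      (mul_le_mul_of_nonneg_right (le_abs_self _) h4).trans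
        (mul_le_mul_of_nonneg_left h5 (abs_nonneg _))
    linarith
  have hF00 : 0 ≤ F 0 / a := div_nonneg (hF0 0) ha.le
  have hlip : LipschitzOnWith (F 0 / a).toNNReal (gMin F) (Set.Icc a b) := by
    refine LipschitzOnWith.of_dist_le_mul fun t ht t' ht' => ?_
    have h1 := key t t' ht.1 ht'.1
    have h2 := key t' t ht'.1 ht.1
    rw [Real.dist_eq, Real.dist_eq, Real.coe_toNNReal _ hF00, abs_sub_le_iff]
    rw [abs_sub_comm t' t] at h1
    constructor <;> linarith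
  exact hlip.continuousOn.div continuousOn_id fun t ht => (ha.trans_le ht.1).ne'

/-- G12 (M). If `F` has no zero then `μ` becomes large: for every `T1 ≥ 0` and `t0 > 0` there is
`t1` in `(0, t0]` with `T1 ≤ μ t1`. PROOF. `F > 0` is continuous, so it has a positive lower bound
`δ` on the compact ball `|x|^2 ≤ T1` (`isCompact_ball`, nonempty). Let `t1 = min t0 (δ / (T1 + 1))`
and let `x` be a minimum at `t1`: `μ t1 = F x / t1 + |x|^2`. If `|x|^2 ≥ T1` done, otherwise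
`F x / t1 ≥ δ / t1 ≥ T1 + 1`. -/
theorem exists_le_gMin_div (F : (Fin n → ℝ) → ℝ) (hF : Continuous F) (hF0 : ∀ x, 0 < F x)
    {T1 t0 : ℝ} (hT : 0 ≤ T1) (ht0 : 0 < t0) :
    ∃ t1, 0 < t1 ∧ t1 ≤ t0 ∧ T1 ≤ gMin F t1 / t1 := by
  have hN0 : gN (0 : Fin n → ℝ) = 0 := by simp [gN]
  obtain ⟨x0, -, hx0⟩ := (isCompact_ball (n := n) T1).exists_isMinOn ⟨0, by simp [hN0, hT]⟩
    hF.continuousOn
  have hδ := hF0 x0
  have hT' : 0 < T1 + 1 := by linarith
  have ht1 : 0 < min t0 (F x0 / (T1 + 1)) := lt_min ht0 (div_pos hδ hT')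
  refine ⟨min t0 (F x0 / (T1 + 1)), ht1, min_le_left _ _, ?_⟩
  have h7 : min t0 (F x0 / (T1 + 1)) * (T1 + 1) ≤ F x0 := by
    rw [← le_div_iff₀ hT']
    exact min_le_right _ _
  generalize min t0 (F x0 / (T1 + 1)) = t1 at ht1 h7 ⊢
  obtain ⟨x, hx⟩ := exists_gMin F hF (fun x => (hF0 x).le) ht1
  rw [← hx, le_div_iff₀ ht1]
  unfold gG
  have h3 := hF0 x
  rcases le_total T1 (gN x) with h | h
  · nlinarith
  · have h4 : F x0 ≤ F x := hx0 (show x ∈ {x : Fin n → ℝ | gN x ≤ T1} from h)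
    have h5 := gN_nonneg x
    nlinarith

/-- G12 (M). If `F` has a zero, then there are a zero `z` of minimal `|z|^2` and a sequence
`t k > 0`, `t k → 0`, with `μ (t k) → |z|^2` (and `μ (t k) ≤ |z|^2`). PROOF. The zero set is closed,
its intersection with a large ball is compact and nonempty: `z` exists. `μ t ≤ |z|^2` by
`gMin_div_le`. Let `t k = 1 / (k + 1)`, `x k` a minimum at `t k`: `F (x k) / t k + |x k|^2 =
μ (t k) ≤ |z|^2`. All `x k` are in the compact ball, so a subsequence converges to some `y`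
(`IsCompact.tendsto_subseq`); `F (x k) ≤ t k |z|^2 → 0`, so `F y = 0`, hence
`|z|^2 ≤ |y|^2 = lim |x k|^2 ≤ liminf μ (t k)`; squeeze. -/
theorem exists_min_zero (F : (Fin n → ℝ) → ℝ) (hF : Continuous F) (hF0 : ∀ x, 0 ≤ F x)
    (hz : ∃ x, F x = 0) : ∃ (z : Fin n → ℝ) (t : ℕ → ℝ), F z = 0 ∧ (∀ k, 0 < t k) ∧
      Tendsto t atTop (𝓝 0) ∧ (∀ k, gMin F (t k) / t k ≤ gN z) ∧
      Tendsto (fun k => gMin F (t k) / t k) atTop (𝓝 (gN z)) := by
  obtain ⟨x0, hx0⟩ := hz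
  have hcl : IsClosed {x : Fin n → ℝ | F x = 0} := isClosed_eq hF continuous_const
  obtain ⟨z, ⟨hz1, hz2⟩, hz3⟩ := ((isCompact_ball (n := n) (gN x0)).inter_left hcl).exists_isMinOn
    ⟨x0, hx0, show gN x0 ≤ gN x0 from le_rfl⟩ continuous_gN.continuousOn
  have hzF : F z = 0 := hz1
  have hzmin : ∀ y, F y = 0 → gN z ≤ gN y := by
    intro y hy
    rcases le_total (gN y) (gN x0) with h | h
    · exact hz3 ⟨hy, h⟩
    · exact le_trans hz2 h
  have ht : ∀ k : ℕ, (0 : ℝ) < 1 / ((k : ℝ) + 1) := fun k => by positivity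
  have hle : ∀ k : ℕ, gMin F (1 / ((k : ℝ) + 1)) / (1 / ((k : ℝ) + 1)) ≤ gN z := by
    intro k
    have h := gMin_div_le F hF0 (ht k) z
    rwa [hzF, zero_div, zero_add] at h
  choose x hx using fun k : ℕ => exists_gMin F hF hF0 (ht k)
  have hx1 : ∀ k, gN (x k) ≤ gMin F (1 / ((k : ℝ) + 1)) / (1 / ((k : ℝ) + 1)) := by
    intro k
    rw [← hx k, le_div_iff₀ (ht k)]
    unfold gG
    have := hF0 (x k)
    linarith
  have hx2 : ∀ k, F (x k) ≤ 1 / ((k : ℝ) + 1) * gN z := by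
    intro k
    have h := hle k
    rw [← hx k, div_le_iff₀ (ht k)] at h
    unfold gG at h
    have h2 := gN_nonneg (x k)
    have h3 := mul_nonneg (ht k).le h2
    linarith
  obtain ⟨y, -, φ, hφ, hy⟩ := (isCompact_ball (n := n) (gN z)).tendsto_subseq
    (x := x) (fun k => (hx1 k).trans (hle k))
  have htend : Tendsto (fun k : ℕ => (1 : ℝ) / ((φ k : ℝ) + 1)) atTop (𝓝 0) :=
    (tendsto_one_div_add_atTop_nhds_zero_nat (𝕜 := ℝ)).comp hφ.tendsto_atTop
  have hN : Tendsto (fun k => gN (x (φ k))) atTop (𝓝 (gN y)) :=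
    (continuous_gN.tendsto y).comp hy
  have hFy : F y = 0 := by
    have h1 : Tendsto (fun k => F (x (φ k))) atTop (𝓝 (F y)) := (hF.tendsto y).comp hy
    have h2 : Tendsto (fun k : ℕ => (1 : ℝ) / ((φ k : ℝ) + 1) * gN z) atTop (𝓝 0) := by
      simpa using htend.mul_const (gN z)
    exact le_antisymm (le_of_tendsto_of_tendsto' h1 h2 fun k => hx2 (φ k)) (hF0 y)
  have hyz : gN y = gN z := le_antisymm
    (le_of_tendsto' hN fun k => (hx1 (φ k)).trans (hle (φ k))) (hzmin y hFy)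
  refine ⟨z, fun k => 1 / ((φ k : ℝ) + 1), hzF, fun k => ht (φ k), htend, fun k => hle (φ k), ?_⟩
  rw [hyz] at hN
  exact tendsto_of_tendsto_of_tendsto_of_le_of_le hN tendsto_const_nhds
    (fun k => hx1 (φ k)) (fun k => hle (φ k))

end Pool.Agent.H54R
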