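import Pool.Agent.Lib.H54R.G11
import Pool.Agent.Lib.H54R.G12

/-! # Chunk G13: the gap theorem, abstract form -/

set_option autoImplicit false

namespace Pool.Agent.H54R

open Filter Topology

variable {n : ℕ}

/-- G13 (M). If `F` has a zero, it has a zero with `|z|^2 ≤ 2 (1 + H)`. PROOF. `exists_min_zero`,
`exists_reduced` with `d`. For all `k`: `0 = ∑ d g β t^g (gMin F t)^β = t^e Q t (μ t)` (`t = t k`,
`gMin F t = t * μ t`), so `Q (t k) (μ (t k)) = 0`. With `T1 = |z|^2 + 1`: for `k` large (`t k ≤ 1`),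
`|∑ r β μ^β| ≤ (D+1)(L+1) H t k T1^D → 0`, and `∑ r β μ(t k)^β → ∑ r β (|z|^2)^β`, so this is
`0`; by `one_le_abs_poly` `|z|^2 < 2 (1 + H)`. -/
theorem exists_small_zero {D L H : ℕ} (F : (Fin n → ℝ) → ℝ) (hF : Continuous F)
    (hF0 : ∀ x, 0 ≤ F x) (d : Fin (L + 1) → Fin (D + 1) → ℤ) (hd : ∃ g β, d g β ≠ 0)
    (hH : ∀ g β, (d g β).natAbs ≤ H)
    (hdt : ∀ t : ℝ, 0 < t → ∑ g, ∑ β, (d g β : ℝ) * (t ^ (g : ℕ) * gMin F t ^ (β : ℕ)) = 0)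
    (hz : ∃ x, F x = 0) : ∃ z, F z = 0 ∧ gN z ≤ 2 * (1 + H) := by
  obtain ⟨z, t, hFz, ht, htend, hle, hμ⟩ := exists_min_zero F hF hF0 hz
  obtain ⟨e, r, Q, hr, hrH, hQ1, hQ2⟩ := exists_reduced d hd hH
  refine ⟨z, hFz, ?_⟩
  by_contra hcon
  have h1 := one_le_abs_poly r hr hrH (not_le.1 hcon).le
  have hQ0 : ∀ k, Q (t k) (gMin F (t k) / t k) = 0 := by
    intro k
    have h2 := hQ1 (t k) (gMin F (t k) / t k) (ht k)
    rw [mul_div_cancel₀ _ (ht k).ne', hdt (t k) (ht k)] at h2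
    exact (mul_eq_zero.1 h2.symm).resolve_left (pow_ne_zero _ (ht k).ne')
  have hz0 : 0 ≤ gN z := gN_nonneg z
  have hbound : ∀ᶠ k in atTop, |∑ β, (r β : ℝ) * (gMin F (t k) / t k) ^ (β : ℕ)| ≤
      (D + 1) * (L + 1) * H * (gN z + 1) ^ D * t k := by
    filter_upwards [htend.eventually (gt_mem_nhds one_pos)] with k hk
    have h3 := hQ2 (t k) (gMin F (t k) / t k) (gN z + 1) (ht k) hk.le (by linarith)
      (by rw [abs_of_nonneg (gMin_div_nonneg F hF hF0 (ht k))]; linarith [hle k])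
    rw [hQ0 k, zero_sub, abs_neg] at h3
    refine h3.trans (le_of_eq ?_)
    ring
  have hlim1 : Tendsto (fun k => |∑ β, (r β : ℝ) * (gMin F (t k) / t k) ^ (β : ℕ)|) atTop
      (𝓝 |∑ β, (r β : ℝ) * gN z ^ (β : ℕ)|) := by
    refine Tendsto.abs (tendsto_finsetSum _ fun β _ => ?_)
    exact (hμ.pow _).const_mul _
  have hlim2 : Tendsto (fun k => (D + 1) * (L + 1) * H * (gN z + 1) ^ D * t k) atTop (𝓝 0) := by
    simpa using htend.const_mul ((D + 1) * (L + 1) * H * (gN z + 1) ^ D)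
  have h4 := le_of_tendsto_of_tendsto hlim1 hlim2 hbound
  linarith

/-- G13 (M). If `F x ≤ t0` for some `x` with `|x|^2 ≤ T1 / 2`, where `T1 ≥ 2 (1 + H)` and
`2 (D + 1)(L + 1)(H + 1) T1^D t0 ≤ 1`, then `F` has a zero. PROOF. Otherwise `F > 0`. `t0 ≤ 1`
(`T1 ≥ 2`). `μ t0 ≤ F x / t0 + |x|^2 ≤ 1 + T1 / 2 ≤ T1` (`gMin_div_le`). By `exists_le_gMin_div` there
is `t1` in `(0, t0]` with `T1 ≤ μ t1`. By `continuousOn_gMin_div` and the intermediate value theorem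
(`intermediate_value_Icc'`) there is `t` in `[t1, t0]` with `μ t = T1`. Then
`0 = ∑ d g β t^g (t T1)^β = t^e Q t T1` so `Q t T1 = 0`, so
`|∑ r β T1^β| ≤ (D+1)(L+1) H t T1^D ≤ 1/2`, against `one_le_abs_poly`. (`t0 > 0` is assumed.) -/
theorem exists_zero_of_small {D L H : ℕ} (F : (Fin n → ℝ) → ℝ) (hF : Continuous F)
    (hF0 : ∀ x, 0 ≤ F x) (d : Fin (L + 1) → Fin (D + 1) → ℤ) (hd : ∃ g β, d g β ≠ 0)
    (hH : ∀ g β, (d g β).natAbs ≤ H)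
    (hdt : ∀ t : ℝ, 0 < t → ∑ g, ∑ β, (d g β : ℝ) * (t ^ (g : ℕ) * gMin F t ^ (β : ℕ)) = 0)
    {T1 t0 : ℝ} (hT1 : 2 * (1 + (H : ℝ)) ≤ T1) (ht0 : 0 < t0)
    (ht1 : 2 * (D + 1) * (L + 1) * (H + 1) * T1 ^ D * t0 ≤ 1)
    (x : Fin n → ℝ) (hx : gN x ≤ T1 / 2) (hFx : F x ≤ t0) : ∃ z, F z = 0 := by
  by_contra hcon
  push Not at hcon
  have hpos : ∀ x, 0 < F x := fun x => lt_of_le_of_ne (hF0 x) (Ne.symm (hcon x))
  obtain ⟨e, r, Q, hr, hrH, hQ1, hQ2⟩ := exists_reduced d hd hH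
  have hH0 : (0 : ℝ) ≤ H := Nat.cast_nonneg _
  have hT2 : 2 ≤ T1 := by linarith
  have hTD : (1 : ℝ) ≤ T1 ^ D := one_le_pow₀ (by linarith)
  have hD0 : (0 : ℝ) ≤ D := Nat.cast_nonneg _
  have hL0 : (0 : ℝ) ≤ L := Nat.cast_nonneg _
  have hc1 : (1 : ℝ) ≤ (D + 1) * (L + 1) * (H + 1) * T1 ^ D := by
    have h1 : (1 : ℝ) ≤ D + 1 := by linarith
    have h2 : (1 : ℝ) ≤ L + 1 := by linarith
    have h3 : (1 : ℝ) ≤ H + 1 := by linarith
    have h4 : (1 : ℝ) ≤ (D + 1) * (L + 1) := one_le_mul_of_one_le_of_one_le h1 h2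
    have h5 : (1 : ℝ) ≤ (D + 1) * (L + 1) * (H + 1) := one_le_mul_of_one_le_of_one_le h4 h3
    exact one_le_mul_of_one_le_of_one_le h5 hTD
  have ht01 : t0 ≤ 1 := by nlinarith
  have hμ0 : gMin F t0 / t0 ≤ T1 := by
    have h1 := gMin_div_le F hF0 ht0 x
    have h2 : F x / t0 ≤ 1 := (div_le_one ht0).2 hFx
    linarith
  obtain ⟨t1, ht1p, ht10, hμ1⟩ := exists_le_gMin_div F hF hpos (T1 := T1) (t0 := t0)
    (by linarith) ht0
  obtain ⟨t, ⟨hta, htb⟩, htT⟩ := intermediate_value_Icc' ht10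
    (continuousOn_gMin_div F hF hF0 (a := t1) (b := t0) ht1p) ⟨hμ0, hμ1⟩
  have htp : 0 < t := ht1p.trans_le hta
  have hg : gMin F t = t * T1 := by
    rw [← htT]
    exact (mul_div_cancel₀ _ htp.ne').symm
  have h2 := hQ1 t T1 htp
  rw [← hg, hdt t htp] at h2
  have hQ0 : Q t T1 = 0 := (mul_eq_zero.1 h2.symm).resolve_left (pow_ne_zero _ htp.ne')
  have h3 := hQ2 t T1 T1 htp (htb.trans ht01) (by linarith)
    (by rw [abs_of_nonneg (by linarith : (0 : ℝ) ≤ T1)])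
  rw [hQ0, zero_sub, abs_neg] at h3
  have h1 := one_le_abs_poly r hr hrH hT1
  have h5 : ((D : ℝ) + 1) * (L + 1) * H * t * T1 ^ D ≤ (D + 1) * (L + 1) * (H + 1) * t0 * T1 ^ D := by
    have : (H : ℝ) ≤ H + 1 := by linarith
    gcongr
  have h6 : ((D : ℝ) + 1) * (L + 1) * (H + 1) * t0 * T1 ^ D =
      (D + 1) * (L + 1) * (H + 1) * T1 ^ D * t0 := by ring
  rw [h6] at h5
  have h7 : 2 * (((D : ℝ) + 1) * (L + 1) * (H + 1) * T1 ^ D * t0) ≤ 1 := by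
    calc _ = 2 * ((D : ℝ) + 1) * (L + 1) * (H + 1) * T1 ^ D * t0 := by ring
      _ ≤ 1 := ht1
  linarith

end Pool.Agent.H54R
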