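import Pool.Agent.Lib.H54R.G5

/-! # Chunk G14: the size of the numbers -/

set_option autoImplicit false

namespace Pool.Agent.H54R

/-- all zeros can be taken in the box `2 ^ (2 ^ gE1 N)` -/
def gE1 (N : ℕ) : ℕ := 2 * (N + 2) ^ 2

/-- residues `2 ^ (- 2 ^ (E + gE2 N))` in the box `2 ^ (2 ^ E)` are small enough -/
def gE2 (N : ℕ) : ℕ := (N + 2) ^ 2 + 4

theorem g14_sq (a : ℕ) (ha : 4 ≤ a) : a ^ 2 ≤ 2 ^ a ∧ 2 * a + 8 ≤ 2 ^ a := by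
  induction a, ha using Nat.le_induction with
  | base => norm_num
  | succ a ha ih =>
    obtain ⟨h1, h2⟩ := ih
    rw [pow_succ 2 a]
    constructor
    · nlinarith
    · omega

/-- G14 (S/M). `D + 1 = 4 (4 (n+1))^n ≤ 2^2 * (2^(n+2))^n = 2^(n^2 + 2 n + 2) ≤ 2^((N+2)^2)`
(`gD_succ`, `n + 1 ≤ 2^n` is `Nat.lt_two_pow_self`). -/
theorem gD_le {n N : ℕ} (hn : n ≤ N) : gD n + 1 ≤ 2 ^ ((N + 2) ^ 2) := by
  rw [gD_succ]
  have h1 : n + 1 ≤ 2 ^ n := Nat.lt_two_pow_self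
  have h2 : 4 * (n + 1) ≤ 2 ^ (n + 2) := by
    rw [pow_add]
    omega
  calc 4 * (4 * (n + 1)) ^ n ≤ 2 ^ 2 * (2 ^ (n + 2)) ^ n :=
        Nat.mul_le_mul (by norm_num) (Nat.pow_le_pow_left h2 n)
    _ = 2 ^ (2 + (n + 2) * n) := by rw [← pow_mul, ← pow_add]
    _ ≤ 2 ^ ((N + 2) ^ 2) := by
        apply Nat.pow_le_pow_right (by norm_num)
        nlinarith

/-- G14 (M). PROOF. Let `a = (N+2)^2`. `D + 1 ≤ 2^a`, `L + 1 ≤ (n+1)(D+1) ≤ 2^(N + a)`,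
`W = 9 m + n + 1 ≤ 2^(N+4)`, so
`H ≤ 2^(N + a) * 2^(a (N+1)) * 2^((N+4) (N+1) 2^a)` and, with `H + 1 ≤ 2 H` (`H ≥ 1`), the left side
is at most `2^(2 + a + (N + a) + (N + a) + a (N+1) + (N+4)(N+1) 2^a)`; the exponent is at most
`2^(2 a)`: `(N+4)(N+1) ≤ 2 a`, the other terms are at most `a^2 + 5 a + 2`, and
`a^2 + 5 a + 2 + 2 a 2^a ≤ 2^(2 a)` for `a ≥ 4` (for instance from `2 a + 2 ≤ 2^a`, `a ≥ 4`, because
then `2^a 2^a ≥ 2 a 2^a + 2 * 2^a` and `2 * 2^a ≥ a^2 + 5 a + 2`; inductions on `a ≥ 4`, the last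
one fails for small `a`: check `a = 4` (`32 < 38`) with the slack of the first, i.e. use
`2 a + 3 ≤ 2^a` and `3 * 2^a ≥ a^2 + 5 a + 2`). -/
theorem gap_num {n m N : ℕ} (hn : n ≤ N) (hm : m ≤ N) :
    2 * (gD n + 1) * (gL n + 1) * (gH n m + 1) ≤ 2 ^ (2 ^ gE1 N) := by
  obtain ⟨a, ha⟩ : ∃ a, a = (N + 2) ^ 2 := ⟨_, rfl⟩
  have ha4 : 4 ≤ a := by rw [ha]; nlinarith
  obtain ⟨hsq, hlin⟩ := g14_sq a ha4
  have hN2 : N + 1 ≤ 2 ^ N := Nat.lt_two_pow_self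
  have hD : gD n + 1 ≤ 2 ^ a := ha ▸ gD_le hn
  have hn1 : n + 1 ≤ 2 ^ N := (Nat.succ_le_succ hn).trans hN2
  have hL : gL n + 1 ≤ 2 ^ (N + a) := by
    rw [pow_add]
    calc gL n + 1 ≤ (n + 1) * (gD n + 1) := by unfold gL; nlinarith
      _ ≤ 2 ^ N * 2 ^ a := Nat.mul_le_mul hn1 hD
  have hW : gW n m ≤ 2 ^ (N + 4) := by
    rw [pow_add]
    unfold gW
    omega
  have hW1 : 1 ≤ gW n m := by unfold gW; omega
  have hH : gH n m ≤ 2 ^ ((N + a) + a * (N + 1) + (N + 4) * ((N + 1) * 2 ^ a)) := by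
    unfold gH
    rw [pow_add 2 (N + a + a * (N + 1)), pow_add 2 (N + a)]
    refine Nat.mul_le_mul (Nat.mul_le_mul hL ?_) ?_
    · calc (gD n + 1) ^ (n + 1) ≤ (2 ^ a) ^ (n + 1) := Nat.pow_le_pow_left hD _
        _ ≤ (2 ^ a) ^ (N + 1) := Nat.pow_le_pow_right (Nat.two_pow_pos a) (by omega)
        _ = 2 ^ (a * (N + 1)) := (pow_mul 2 a (N + 1)).symm
    · calc gW n m ^ ((n + 1) * gD n) ≤ (2 ^ (N + 4)) ^ ((n + 1) * gD n) :=
          Nat.pow_le_pow_left hW _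
        _ ≤ (2 ^ (N + 4)) ^ ((N + 1) * 2 ^ a) := by
          apply Nat.pow_le_pow_right (Nat.two_pow_pos _)
          exact Nat.mul_le_mul (by omega) (by omega)
        _ = 2 ^ ((N + 4) * ((N + 1) * 2 ^ a)) := (pow_mul 2 _ _).symm
  have hH1 : gH n m + 1 ≤ 2 * 2 ^ ((N + a) + a * (N + 1) + (N + 4) * ((N + 1) * 2 ^ a)) := by
    have := Nat.two_pow_pos ((N + a) + a * (N + 1) + (N + 4) * ((N + 1) * 2 ^ a))
    omega
  have hexp : 1 + a + (N + a) + (1 + ((N + a) + a * (N + 1) + (N + 4) * ((N + 1) * 2 ^ a))) ≤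
      2 ^ gE1 N := by
    have e1 : gE1 N = a + a := by unfold gE1; rw [ha]; ring
    rw [e1, pow_add]
    have hNa : N + 2 ≤ a := by rw [ha]; nlinarith
    have h3 : (N + 4) * (N + 1) + 4 ≤ 2 * a := by rw [ha]; nlinarith
    generalize 2 ^ a = x at hsq hlin ⊢
    have h4 : (N + 4) * (N + 1) + 12 ≤ x := by omega
    have h5 : ((N + 4) * (N + 1) + 12) * x ≤ x * x := Nat.mul_le_mul_right x h4
    have h6 : a * (N + 1) ≤ a * a := Nat.mul_le_mul_left a (by omega)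
    have h7 : a * a ≤ x := by rw [← sq]; exact hsq
    have h8 : (N + 4) * ((N + 1) * x) = (N + 4) * (N + 1) * x := by ring
    rw [h8]
    have h9 : ((N + 4) * (N + 1) + 12) * x = (N + 4) * (N + 1) * x + 12 * x := by ring
    rw [h9] at h5
    omega
  calc 2 * (gD n + 1) * (gL n + 1) * (gH n m + 1) ≤
        2 * 2 ^ a * 2 ^ (N + a) *
          (2 * 2 ^ ((N + a) + a * (N + 1) + (N + 4) * ((N + 1) * 2 ^ a))) :=
        Nat.mul_le_mul (Nat.mul_le_mul (Nat.mul_le_mul_left 2 hD) hL) hH1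
    _ = 2 ^ (1 + a + (N + a) + (1 + ((N + a) + a * (N + 1) + (N + 4) * ((N + 1) * 2 ^ a)))) := by
        rw [pow_add 2 (1 + a + (N + a)), pow_add 2 (1 + a), pow_add 2 1 a, pow_add 2 1, pow_one]
    _ ≤ 2 ^ (2 ^ gE1 N) := Nat.pow_le_pow_right (by norm_num) hexp

end Pool.Agent.H54R
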