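import Pool.Agent.Lib.H54R.G10
import Pool.Agent.Lib.H54R.G13
import Pool.Agent.Lib.H54R.G14

/-! # Chunk G15: the gap theorem for `GEq` -/

set_option autoImplicit false

namespace Pool.Agent.H54R

variable {n m : ℕ}

/-- G15 (S). A sum of squares vanishes iff all terms vanish. -/
theorem gF_eq_zero (S : Fin m → GEq n) (x : Fin n → ℝ) :
    gF S x = 0 ↔ ∀ k, (S k).res x = 0 := by
  unfold gF
  rw [Finset.sum_eq_zero_iff_of_nonneg (fun i _ => sq_nonneg _)]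
  simp

/-- `2 (1 + H) ≤ 2 ^ (2 ^ gE1 N)` in the reals -/
theorem g15_num {N : ℕ} (hn : n ≤ N) (hm : m ≤ N) :
    2 * (1 + (gH n m : ℝ)) ≤ 2 ^ (2 ^ gE1 N) := by
  have h := gap_num hn hm
  have h1 : 2 * (1 + gH n m) ≤ 2 * (gD n + 1) * (gL n + 1) * (gH n m + 1) := by
    have h2 : 1 * 1 ≤ (gD n + 1) * (gL n + 1) := Nat.mul_le_mul (by omega) (by omega)
    calc 2 * (1 + gH n m) = 1 * 1 * (2 * (gH n m + 1)) := by ring
      _ ≤ ((gD n + 1) * (gL n + 1)) * (2 * (gH n m + 1)) := Nat.mul_le_mul_right _ h2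
      _ = _ := by ring
  exact_mod_cast h1.trans h

/-- G15 (S/M). `exists_eqn`, `exists_small_zero` (`H = gH n m`), `sq_le_gN`: `z i ^ 2 ≤ 2 (1 + H)` so
`|z i| ≤ 2 (1 + H) ≤ 2^(2^gE1 N)` (`gap_num`, cast to the reals). -/
theorem gap_exact_fin {N : ℕ} (hn : n ≤ N) (hm : m ≤ N) (S : Fin m → GEq n)
    (h : ∃ x : Fin n → ℝ, ∀ k, (S k).res x = 0) :
    ∃ x : Fin n → ℝ, (∀ i, |x i| ≤ 2 ^ (2 ^ gE1 N)) ∧ ∀ k, (S k).res x = 0 := by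
  obtain ⟨d, hd, hH, hdt⟩ := exists_eqn S
  obtain ⟨x0, hx0⟩ := h
  obtain ⟨z, hz, hN⟩ := exists_small_zero (gF S) (continuous_gF S) (gF_nonneg S) d hd hH hdt
    ⟨x0, (gF_eq_zero S x0).2 hx0⟩
  refine ⟨z, fun i => ?_, (gF_eq_zero S z).1 hz⟩
  have h1 := g15_num hn hm
  have h2 : z i ^ 2 ≤ 2 * (1 + (gH n m : ℝ)) := (sq_le_gN z i).trans hN
  have h3 : (0 : ℝ) ≤ gH n m := Nat.cast_nonneg _
  refine le_trans ?_ h1
  rw [← sq_abs] at h2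
  by_contra hlt
  push Not at hlt
  nlinarith [abs_nonneg (z i)]

/-- G15 (M). `exists_eqn`, `exists_zero_of_small` with `T1 = 2^(2^(E+2))` and
`t0 = (2^(2^(E + 2 + (N+2)^2)))⁻¹`. (a) `2 (1 + H) ≤ 2^(2^E) ≤ T1` (`gap_num`). (b) With
`M0 = 2 (D+1)(L+1)(H+1) ≤ 2^(2^E) ≤ T1`: `M0 T1^D ≤ T1^(D+1) = 2^(2^(E+2) (D+1)) ≤ 1 / t0` by
`gD_le`. (c) `|x|^2 ≤ n (2^(2^E))^2 ≤ T1 / 2`: `2 N ≤ 2^(2^(E+1))`. (d) `F x ≤ m ε^2 ≤ t0` with
`ε = (2^(2^(E + gE2 N)))⁻¹`: `ε^2 = (2^(2^(E + (N+2)^2 + 5)))⁻¹`, `N ≤ 2^N`. -/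
theorem gap_approx_fin {N : ℕ} (hn : n ≤ N) (hm : m ≤ N) (S : Fin m → GEq n) (E : ℕ)
    (hE : gE1 N ≤ E) (x : Fin n → ℝ) (hx : ∀ i, |x i| ≤ 2 ^ (2 ^ E))
    (hr : ∀ k, |(S k).res x| ≤ (2 ^ (2 ^ (E + gE2 N)))⁻¹) :
    ∃ z : Fin n → ℝ, ∀ k, (S k).res z = 0 := by
  obtain ⟨d, hd, hH, hdt⟩ := exists_eqn S
  have hNE : N ≤ E := by
    refine le_trans ?_ hE
    unfold gE1
    nlinarith [sq_nonneg (N + 1)]
  have hT0 : ((2 : ℝ)) ^ (2 ^ gE1 N) ≤ 2 ^ (2 ^ (E + 2)) :=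
    pow_le_pow_right₀ (by norm_num) (Nat.pow_le_pow_right (by norm_num) (by omega))
  have hnum := gap_num hn hm
  have hnum' : 2 * ((gD n : ℝ) + 1) * ((gL n : ℝ) + 1) * ((gH n m : ℝ) + 1) ≤
      2 ^ (2 ^ gE1 N) := by
    exact_mod_cast hnum
  refine Exists.imp (fun z hz => (gF_eq_zero S z).1 hz)
    (exists_zero_of_small (gF S) (continuous_gF S) (gF_nonneg S) d hd hH hdt
    (T1 := 2 ^ (2 ^ (E + 2))) (t0 := (2 ^ (2 ^ (E + 2 + (N + 2) ^ 2)))⁻¹)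
    ((g15_num hn hm).trans hT0) (by positivity) ?_ x ?_ ?_)
  · -- (b)
    have h1 : ((2 : ℝ) ^ (2 ^ (E + 2))) ^ (gD n + 1) ≤ 2 ^ (2 ^ (E + 2 + (N + 2) ^ 2)) := by
      rw [← pow_mul]
      refine pow_le_pow_right₀ (by norm_num) ?_
      rw [pow_add 2 (E + 2)]
      exact Nat.mul_le_mul_left _ (gD_le hn)
    have hpos : (0 : ℝ) < 2 ^ (2 ^ (E + 2 + (N + 2) ^ 2)) := by positivity
    rw [← div_eq_mul_inv, div_le_one hpos]
    refine le_trans ?_ h1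
    rw [pow_succ ((2 : ℝ) ^ (2 ^ (E + 2))) (gD n), mul_comm (((2 : ℝ) ^ (2 ^ (E + 2))) ^ gD n)]
    exact mul_le_mul_of_nonneg_right (hnum'.trans hT0) (by positivity)
  · -- (c)
    have h1 : gN x ≤ n * (2 : ℝ) ^ (2 ^ (E + 1)) := by
      unfold gN
      calc ∑ i, x i ^ 2 ≤ ∑ _i : Fin n, (2 : ℝ) ^ (2 ^ (E + 1)) := by
            refine Finset.sum_le_sum fun i _ => ?_
            have h2 := hx i
            have h3 : (2 : ℝ) ^ (2 ^ (E + 1)) = (2 ^ (2 ^ E)) ^ 2 := by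
              rw [← pow_mul, pow_succ 2 E]
            rw [h3, ← sq_abs]
            exact pow_le_pow_left₀ (abs_nonneg _) h2 2
        _ = n * (2 : ℝ) ^ (2 ^ (E + 1)) := by simp
    have h2 : (2 * n : ℝ) ≤ 2 ^ (2 ^ (E + 1)) := by
      have h3 : 2 * n ≤ 2 ^ (n + 1) := by
        rw [pow_succ]
        have := (Nat.lt_two_pow_self (n := n)).le
        omega
      have h4 : 2 ^ (n + 1) ≤ 2 ^ (2 ^ (E + 1)) := by
        refine Nat.pow_le_pow_right (by norm_num) ?_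
        have := (Nat.lt_two_pow_self (n := E + 1)).le
        omega
      exact_mod_cast h3.trans h4
    have h5 : (2 : ℝ) ^ (2 ^ (E + 2)) = 2 ^ (2 ^ (E + 1)) * 2 ^ (2 ^ (E + 1)) := by
      rw [← pow_add]
      congr 1
      rw [pow_succ 2 (E + 1)]
      ring
    rw [h5]
    have hpos : (0 : ℝ) < 2 ^ (2 ^ (E + 1)) := by positivity
    nlinarith
  · -- (d)
    have h1 : gF S x ≤ m * ((2 : ℝ) ^ (2 ^ (E + gE2 N + 1)))⁻¹ := by
      unfold gF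
      calc ∑ k, ((S k).res x) ^ 2 ≤ ∑ _k : Fin m, ((2 : ℝ) ^ (2 ^ (E + gE2 N + 1)))⁻¹ := by
            refine Finset.sum_le_sum fun k _ => ?_
            have h3 : ((2 : ℝ) ^ (2 ^ (E + gE2 N + 1)))⁻¹ = ((2 ^ (2 ^ (E + gE2 N)))⁻¹) ^ 2 := by
              rw [inv_pow, ← pow_mul, pow_succ 2 (E + gE2 N)]
            rw [h3, ← sq_abs]
            exact pow_le_pow_left₀ (abs_nonneg _) (hr k) 2
        _ = m * ((2 : ℝ) ^ (2 ^ (E + gE2 N + 1)))⁻¹ := by simp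
    refine h1.trans ?_
    have hpos : (0 : ℝ) < 2 ^ (2 ^ (E + gE2 N + 1)) := by positivity
    have hpos' : (0 : ℝ) < 2 ^ (2 ^ (E + 2 + (N + 2) ^ 2)) := by positivity
    rw [← div_eq_mul_inv, div_le_iff₀ hpos, ← div_eq_inv_mul, le_div_iff₀ hpos']
    have h4 : m ≤ 2 ^ (2 ^ (E + 2 + (N + 2) ^ 2)) := by
      refine (Nat.lt_two_pow_self (n := m)).le.trans (Nat.pow_le_pow_right (by norm_num) ?_)
      have := (Nat.lt_two_pow_self (n := E + 2 + (N + 2) ^ 2)).le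
      omega
    have h5 : (2 ^ (2 ^ (E + 2 + (N + 2) ^ 2))) * (2 ^ (2 ^ (E + 2 + (N + 2) ^ 2))) ≤
        2 ^ (2 ^ (E + gE2 N + 1)) := by
      rw [← pow_add]
      refine Nat.pow_le_pow_right (by norm_num) ?_
      rw [← two_mul, mul_comm, ← pow_succ]
      refine Nat.pow_le_pow_right (by norm_num) ?_
      unfold gE2
      omega
    have h6 := (Nat.mul_le_mul_right (2 ^ (2 ^ (E + 2 + (N + 2) ^ 2))) h4).trans h5
    exact_mod_cast h6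

end Pool.Agent.H54R
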