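import Pool.Agent.Lib.H54R.G15

/-! # Chunk G16: the gap theorem for lists of equations with variables in `ℕ` -/

set_option autoImplicit false

namespace Pool.Agent.H54R

/-- the equations `y a + y b = y c`, `y a * y b = y c`, `y a = 1` -/
inductive SEq : Type
  | add (a b c : ℕ) : SEq
  | mul (a b c : ℕ) : SEq
  | one (a : ℕ) : SEq

namespace SEq

/-- the residue of an equation -/
def res (y : ℕ → ℝ) : SEq → ℝ
  | .add a b c => y a + y b - y c
  | .mul a b c => y a * y b - y c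
  | .one a => y a - 1

/-- all variables of the equation are less than `n` -/
def Lt (n : ℕ) : SEq → Prop
  | .add a b c => a < n ∧ b < n ∧ c < n
  | .mul a b c => a < n ∧ b < n ∧ c < n
  | .one a => a < n

/-- the equation with variables in `Fin n` -/
def toG {n : ℕ} : (e : SEq) → e.Lt n → GEq n
  | .add a b c, h => .add ⟨a, h.1⟩ ⟨b, h.2.1⟩ ⟨c, h.2.2⟩
  | .mul a b c, h => .mul ⟨a, h.1⟩ ⟨b, h.2.1⟩ ⟨c, h.2.2⟩
  | .one a, h => .one ⟨a, h⟩

/-- G16 (S). Cases. -/
theorem res_toG {n : ℕ} (e : SEq) (h : e.Lt n) (y : ℕ → ℝ) :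
    (e.toG h).res (fun i : Fin n => y i) = e.res y := by
  cases e <;> rfl

end SEq

/-- G16 (S/M). GAP THEOREM, first half: a solvable system has a solution in the box.
`gap_exact_fin` with `n = N`, `m = S.length`, `k ↦ (S.get k).toG _`; extend by `0`
(`y i = if h : i < N then x ⟨i, h⟩ else 0`). -/
theorem gap_exact {N : ℕ} (S : List SEq) (hn : ∀ e ∈ S, e.Lt N) (hm : S.length ≤ N)
    (h : ∃ y : ℕ → ℝ, ∀ e ∈ S, e.res y = 0) :
    ∃ y : ℕ → ℝ, (∀ i, |y i| ≤ 2 ^ (2 ^ gE1 N)) ∧ ∀ e ∈ S, e.res y = 0 := by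
  obtain ⟨y, hy⟩ := h
  obtain ⟨x, hx1, hx2⟩ := gap_exact_fin (n := N) (m := S.length) (N := N) le_rfl hm
    (fun k => (S.get k).toG (hn _ (List.get_mem S k)))
    ⟨fun i => y i, fun k => by rw [SEq.res_toG]; exact hy _ (List.get_mem S k)⟩
  refine ⟨fun i => if h : i < N then x ⟨i, h⟩ else 0, fun i => ?_, fun e he => ?_⟩
  · by_cases h : i < N
    · simp only [h, dite_true]
      exact hx1 _
    · simp only [h, dite_false, abs_zero]
      positivity
  · obtain ⟨k, rfl⟩ := List.get_of_mem he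
    rw [← SEq.res_toG (S.get k) (hn _ (List.get_mem S k)), ← hx2 k]
    congr 1
    funext i
    simp

/-- G16 (S/M). GAP THEOREM, second half: an approximate solution in the box gives an exact one. -/
theorem gap_approx {N : ℕ} (S : List SEq) (hn : ∀ e ∈ S, e.Lt N) (hm : S.length ≤ N) (E : ℕ)
    (hE : gE1 N ≤ E) (y : ℕ → ℝ) (hy : ∀ i < N, |y i| ≤ 2 ^ (2 ^ E))
    (hr : ∀ e ∈ S, |e.res y| ≤ (2 ^ (2 ^ (E + gE2 N)))⁻¹) :
    ∃ y : ℕ → ℝ, ∀ e ∈ S, e.res y = 0 := by
  obtain ⟨x, hx2⟩ := gap_approx_fin (n := N) (m := S.length) (N := N) le_rfl hm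
    (fun k => (S.get k).toG (hn _ (List.get_mem S k))) E hE (fun i => y i) (fun i => hy i i.2)
    (fun k => by rw [SEq.res_toG]; exact hr _ (List.get_mem S k))
  refine ⟨fun i => if h : i < N then x ⟨i, h⟩ else 0, fun e he => ?_⟩
  obtain ⟨k, rfl⟩ := List.get_of_mem he
  rw [← SEq.res_toG (S.get k) (hn _ (List.get_mem S k)), ← hx2 k]
  congr 1
  funext i
  simp

end Pool.Agent.H54R
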