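import Pool.Agent.Lib.H54R.GapDefs

/-! # Chunk G2: the sum of the absolute values of the coefficients -/

set_option autoImplicit false

namespace Pool.Agent.H54R

open MvPolynomial

variable {σ : Type}

/-- G2 (S). `coeff e p` is a term of the sum if `e` is in the support, and zero otherwise. -/
theorem natAbs_coeff_le_l1 (p : MvPolynomial σ ℤ) (e : σ →₀ ℕ) : (p.coeff e).natAbs ≤ l1 p := by
  by_cases h : e ∈ p.support
  · exact Finset.single_le_sum (f := fun e => (p.coeff e).natAbs) (fun _ _ => Nat.zero_le _) h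
  · rw [notMem_support_iff.1 h]
    simp

/-- G2. The sum may be extended to any finset containing the support
(`Finset.sum_subset`, `notMem_support_iff`). -/
theorem l1_eq_sum (p : MvPolynomial σ ℤ) (T : Finset (σ →₀ ℕ)) (h : p.support ⊆ T) :
    l1 p = ∑ e ∈ T, (p.coeff e).natAbs := by
  refine Finset.sum_subset h fun e _ he => ?_
  rw [notMem_support_iff.1 he]
  simp

/-- G2. Sum over the union of the supports, `Int.natAbs_add_le`. -/
theorem l1_add_le (p q : MvPolynomial σ ℤ) : l1 (p + q) ≤ l1 p + l1 q := by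
  classical
  rw [l1_eq_sum (p + q) (p.support ∪ q.support) support_add,
    l1_eq_sum p (p.support ∪ q.support) Finset.subset_union_left,
    l1_eq_sum q (p.support ∪ q.support) Finset.subset_union_right, ← Finset.sum_add_distrib]
  refine Finset.sum_le_sum fun e _ => ?_
  rw [coeff_add]
  exact Int.natAbs_add_le _ _

theorem l1_neg (p : MvPolynomial σ ℤ) : l1 (-p) = l1 p := by
  simp [l1, support_neg]

theorem l1_sub_le (p q : MvPolynomial σ ℤ) : l1 (p - q) ≤ l1 p + l1 q := by
  rw [sub_eq_add_neg]
  exact (l1_add_le _ _).trans (by rw [l1_neg])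

/-- G2. Induction over the finset. -/
theorem l1_sum_le {ι : Type} (s : Finset ι) (p : ι → MvPolynomial σ ℤ) :
    l1 (∑ i ∈ s, p i) ≤ ∑ i ∈ s, l1 (p i) := by
  classical
  induction s using Finset.induction_on with
  | empty => simp [l1]
  | insert a s ha ih =>
    rw [Finset.sum_insert ha, Finset.sum_insert ha]
    exact (l1_add_le _ _).trans (Nat.add_le_add_left ih _)

/-- G2. For a monomial `monomial e a`: `l1 = |a|`. -/
theorem l1_monomial (e : σ →₀ ℕ) (a : ℤ) : l1 (monomial e a) = a.natAbs := by
  classical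
  rw [l1_eq_sum (monomial e a) {e} (by
    intro f hf
    rw [mem_support_iff, coeff_monomial] at hf
    by_contra h
    exact hf (if_neg fun h' => h (by simp [h'])))]
  simp

theorem l1_zero : l1 (0 : MvPolynomial σ ℤ) = 0 := by
  simp [l1]

theorem l1_one : l1 (1 : MvPolynomial σ ℤ) = 1 := by
  have h := l1_monomial (0 : σ →₀ ℕ) 1
  simpa using h

theorem l1_X (i : σ) : l1 (X i : MvPolynomial σ ℤ) = 1 := by
  have h := l1_monomial (Finsupp.single i 1 : σ →₀ ℕ) 1
  simpa [X] using h

/-- G2 (M). `l1 (p q) ≤ l1 p * l1 q`. PROOF. `p = ∑ e ∈ p.support, monomial e (coeff e p)`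
(`MvPolynomial.support_sum_monomial_coeff` or `as_sum`), same for `q`; the product is the double sum of
the monomials `monomial (e + f) (coeff e p * coeff f q)`; use `l1_sum_le` twice, `l1_monomial`,
`Int.natAbs_mul`, `Finset.sum_mul_sum`. -/
theorem l1_mul_le (p q : MvPolynomial σ ℤ) : l1 (p * q) ≤ l1 p * l1 q := by
  classical
  have hp : p = ∑ e ∈ p.support, monomial e (coeff e p) := (support_sum_monomial_coeff p).symm
  have hq : q = ∑ e ∈ q.support, monomial e (coeff e q) := (support_sum_monomial_coeff q).symm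
  have hpq : p * q = ∑ e ∈ p.support, ∑ f ∈ q.support,
      monomial (e + f) (coeff e p * coeff f q) := by
    conv_lhs => rw [hp, hq]
    rw [Finset.sum_mul_sum]
    refine Finset.sum_congr rfl fun e _ => Finset.sum_congr rfl fun f _ => ?_
    rw [monomial_mul]
  rw [hpq]
  refine (l1_sum_le _ _).trans ?_
  have h1 : l1 p * l1 q = ∑ e ∈ p.support, ∑ f ∈ q.support,
      (coeff e p).natAbs * (coeff f q).natAbs := by
    rw [l1, l1, Finset.sum_mul_sum]
  rw [h1]
  refine Finset.sum_le_sum fun e _ => (l1_sum_le _ _).trans (Finset.sum_le_sum fun f _ => ?_)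
  rw [l1_monomial, Int.natAbs_mul]

theorem l1_pow_le (p : MvPolynomial σ ℤ) (k : ℕ) : l1 (p ^ k) ≤ l1 p ^ k := by
  induction k with
  | zero => rw [pow_zero, pow_zero, l1_one]
  | succ k ih =>
    rw [pow_succ, pow_succ]
    exact (l1_mul_le _ _).trans (Nat.mul_le_mul_right _ ih)

theorem l1_prod_le {ι : Type} (s : Finset ι) (p : ι → MvPolynomial σ ℤ) :
    l1 (∏ i ∈ s, p i) ≤ ∏ i ∈ s, l1 (p i) := by
  classical
  induction s using Finset.induction_on with
  | empty => rw [Finset.prod_empty, Finset.prod_empty, l1_one]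
  | insert a s ha ih =>
    rw [Finset.prod_insert ha, Finset.prod_insert ha]
    exact (l1_mul_le _ _).trans (Nat.mul_le_mul_left _ ih)

end Pool.Agent.H54R
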