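import Pool.Agent.Lib.H54R.G2

/-! # Chunk G3: coefficient bounds -/

set_option autoImplicit false

namespace Pool.Agent.H54R

open MvPolynomial

variable {n m : ℕ}

theorem g3_ite (c : Prop) [Decidable c] (p : MvPolynomial (Fin (n + 1)) ℤ) (h : l1 p ≤ 1) :
    l1 (if c then p else 0) ≤ 1 := by
  split_ifs
  · exact h
  · rw [l1_zero]; omega

/-- G3 (S). Cases, `l1_sub_le`, `l1_add_le`, `l1_mul_le`, `l1_X`, `l1_one`. -/
theorem l1_pol (e : GEq n) : l1 e.pol ≤ 3 := by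
  cases e with
  | add a b c =>
    refine (l1_sub_le _ _).trans ?_
    have h := l1_add_le (X a.succ : MvPolynomial (Fin (n + 1)) ℤ) (X b.succ)
    rw [l1_X, l1_X] at h
    rw [l1_X]
    omega
  | mul a b c =>
    refine (l1_sub_le _ _).trans ?_
    have h := l1_mul_le (X a.succ : MvPolynomial (Fin (n + 1)) ℤ) (X b.succ)
    rw [l1_X, l1_X] at h
    rw [l1_X]
    omega
  | one a =>
    refine (l1_sub_le _ _).trans ?_
    rw [l1_X, l1_one]
    omega

/-- G3. Cases and `split_ifs`. -/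
theorem l1_dpol (i : Fin n) (e : GEq n) : l1 (e.dpol i) ≤ 3 := by
  cases e with
  | add a b c =>
    refine (l1_sub_le _ _).trans ?_
    have h := l1_add_le (if a = i then (1 : MvPolynomial (Fin (n + 1)) ℤ) else 0)
      (if b = i then 1 else 0)
    have h1 := g3_ite (n := n) (a = i) 1 (by rw [l1_one])
    have h2 := g3_ite (n := n) (b = i) 1 (by rw [l1_one])
    have h3 := g3_ite (n := n) (c = i) 1 (by rw [l1_one])
    omega
  | mul a b c =>
    refine (l1_sub_le _ _).trans ?_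
    have h := l1_add_le (if a = i then (X b.succ : MvPolynomial (Fin (n + 1)) ℤ) else 0)
      (if b = i then X a.succ else 0)
    have h1 := g3_ite (n := n) (a = i) (X b.succ) (by rw [l1_X])
    have h2 := g3_ite (n := n) (b = i) (X a.succ) (by rw [l1_X])
    have h3 := g3_ite (n := n) (c = i) 1 (by rw [l1_one])
    omega
  | one a =>
    exact (g3_ite (n := n) (a = i) 1 (by rw [l1_one])).trans (by omega)

/-- G3. `m` squares of `l1` at most `9`, and `n` monomials `t * x i ^ 2`: at most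
`9 m + n ≤ W`. -/
theorem l1_gGP (S : Fin m → GEq n) : l1 (gGP S) ≤ gW n m := by
  refine (l1_add_le _ _).trans ?_
  have h1 : l1 (∑ k, ((S k).pol) ^ 2) ≤ 9 * m := by
    refine (l1_sum_le _ _).trans ?_
    refine (Finset.sum_le_sum fun k _ => (l1_pow_le _ 2).trans
      (Nat.pow_le_pow_left (l1_pol (S k)) 2)).trans ?_
    simp [mul_comm]
  have h2 : l1 (X 0 * ∑ i : Fin n, X i.succ ^ 2 : MvPolynomial (Fin (n + 1)) ℤ) ≤ n := by
    refine (l1_mul_le _ _).trans ?_
    rw [l1_X, one_mul]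
    refine (l1_sum_le _ _).trans ?_
    refine (Finset.sum_le_sum fun k _ => (l1_pow_le _ 2)).trans ?_
    simp [l1_X]
  rw [gW]
  omega

/-- G3. At most `9 m + 1`. -/
theorem l1_gUP (S : Fin m → GEq n) (i : Fin n) : l1 (gUP S i) ≤ gW n m := by
  refine (l1_add_le _ _).trans ?_
  have h1 : l1 (∑ k, (S k).pol * (S k).dpol i) ≤ 9 * m := by
    refine (l1_sum_le _ _).trans ?_
    refine (Finset.sum_le_sum fun k _ => (l1_mul_le _ _).trans
      (Nat.mul_le_mul (l1_pol (S k)) (l1_dpol i (S k)))).trans ?_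
    simp [mul_comm]
  have h2 : l1 (X 0 * X i.succ : MvPolynomial (Fin (n + 1)) ℤ) ≤ 1 := by
    refine (l1_mul_le _ _).trans ?_
    rw [l1_X, l1_X]
  rw [gW]
  omega

/-- G3. `l1_mul_le`, `l1_pow_le`, `l1_prod_le`; every exponent is at most `D`, there are `n` factors
`u i` and one factor `G`, and `1 ≤ W`: the bound is `1 * (W ^ D) ^ n * W ^ D = W ^ ((n + 1) * D)`. -/
theorem l1_gProd (S : Fin m → GEq n) (q : GIx n) : l1 (gProd S q) ≤ gW n m ^ ((n + 1) * gD n) := by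
  have hW : 1 ≤ gW n m := by rw [gW]; omega
  have hD1 : ∀ i, (q.2.1 i : ℕ) ≤ gD n := fun i => Nat.lt_succ_iff.1 (q.2.1 i).2
  have hD2 : (q.2.2 : ℕ) ≤ gD n := Nat.lt_succ_iff.1 q.2.2.2
  have h1 : l1 (X 0 ^ (q.1 : ℕ) : MvPolynomial (Fin (n + 1)) ℤ) ≤ 1 :=
    (l1_pow_le _ _).trans (by rw [l1_X, one_pow])
  have h2 : l1 (∏ i, gUP S i ^ (q.2.1 i : ℕ)) ≤ gW n m ^ (n * gD n) := by
    refine (l1_prod_le _ _).trans ?_
    refine (Finset.prod_le_prod' fun i _ => ((l1_pow_le _ _).trans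
      (Nat.pow_le_pow_left (l1_gUP S i) _)).trans (Nat.pow_le_pow_right hW (hD1 i))).trans ?_
    rw [Finset.prod_const, Finset.card_univ, Fintype.card_fin, ← pow_mul, mul_comm]
  have h3 : l1 (gGP S ^ (q.2.2 : ℕ)) ≤ gW n m ^ gD n :=
    ((l1_pow_le _ _).trans (Nat.pow_le_pow_left (l1_gGP S) _)).trans (Nat.pow_le_pow_right hW hD2)
  rw [gProd]
  refine (l1_mul_le _ _).trans ?_
  have h4 := (l1_mul_le (X 0 ^ (q.1 : ℕ) : MvPolynomial (Fin (n + 1)) ℤ)
    (∏ i, gUP S i ^ (q.2.1 i : ℕ))).trans (Nat.mul_le_mul h1 h2)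
  refine (Nat.mul_le_mul h4 h3).trans ?_
  rw [one_mul, ← pow_add]
  exact le_of_eq (by ring)

end Pool.Agent.H54R
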