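import Pool.Agent.Lib.H54R.GapDefs

/-! # Chunk G4: degrees -/

set_option autoImplicit false

namespace Pool.Agent.H54R

open MvPolynomial

variable {n m : ℕ}

theorem g4_X (i j : Fin (n + 1)) :
    degreeOf j (X i : MvPolynomial (Fin (n + 1)) ℤ) = if j = i then 1 else 0 :=
  degreeOf_X j i

theorem g4_X_le (i j : Fin (n + 1)) :
    degreeOf j (X i : MvPolynomial (Fin (n + 1)) ℤ) ≤ 1 := by
  rw [g4_X]; split_ifs <;> omega

theorem g4_zero (i : Fin n) : degreeOf 0 (X i.succ : MvPolynomial (Fin (n + 1)) ℤ) = 0 := by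
  rw [g4_X, if_neg (Fin.succ_ne_zero i).symm]

theorem g4_one (j : Fin (n + 1)) : degreeOf j (1 : MvPolynomial (Fin (n + 1)) ℤ) = 0 :=
  degreeOf_one j

theorem g4_ite (c : Prop) [Decidable c] (j : Fin (n + 1)) (k : ℕ)
    (p : MvPolynomial (Fin (n + 1)) ℤ) (h : degreeOf j p ≤ k) :
    degreeOf j (if c then p else 0) ≤ k := by
  split_ifs
  · exact h
  · simp

theorem g4_sub (j : Fin (n + 1)) (k : ℕ) (p q : MvPolynomial (Fin (n + 1)) ℤ)
    (h : degreeOf j p ≤ k) (h' : degreeOf j q ≤ k) : degreeOf j (p - q) ≤ k :=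
  (degreeOf_sub_le j p q).trans (max_le h h')

theorem g4_add (j : Fin (n + 1)) (k : ℕ) (p q : MvPolynomial (Fin (n + 1)) ℤ)
    (h : degreeOf j p ≤ k) (h' : degreeOf j q ≤ k) : degreeOf j (p + q) ≤ k :=
  (degreeOf_add_le j p q).trans (max_le h h')

theorem g4_mul (j : Fin (n + 1)) (k l : ℕ) (p q : MvPolynomial (Fin (n + 1)) ℤ)
    (h : degreeOf j p ≤ k) (h' : degreeOf j q ≤ l) : degreeOf j (p * q) ≤ k + l :=
  (degreeOf_mul_le j p q).trans (Nat.add_le_add h h')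

theorem g4_pow (j : Fin (n + 1)) (k l : ℕ) (p : MvPolynomial (Fin (n + 1)) ℤ)
    (h : degreeOf j p ≤ k) : degreeOf j (p ^ l) ≤ l * k :=
  (degreeOf_pow_le j p l).trans (Nat.mul_le_mul_left _ h)

theorem g4_sum {ι : Type} (s : Finset ι) (j : Fin (n + 1)) (k : ℕ)
    (p : ι → MvPolynomial (Fin (n + 1)) ℤ) (h : ∀ i ∈ s, degreeOf j (p i) ≤ k) :
    degreeOf j (∑ i ∈ s, p i) ≤ k := by
  classical
  induction s using Finset.induction_on with
  | empty => simp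
  | insert a s ha ih =>
    rw [Finset.sum_insert ha]
    exact g4_add j k _ _ (h a (Finset.mem_insert_self a s))
      (ih fun i hi => h i (Finset.mem_insert_of_mem hi))

theorem g4_prod {ι : Type} (s : Finset ι) (j : Fin (n + 1)) (k : ℕ)
    (p : ι → MvPolynomial (Fin (n + 1)) ℤ) (h : ∀ i ∈ s, degreeOf j (p i) ≤ k) :
    degreeOf j (∏ i ∈ s, p i) ≤ s.card * k := by
  classical
  induction s using Finset.induction_on with
  | empty => simp
  | insert a s ha ih =>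
    rw [Finset.prod_insert ha, Finset.card_insert_of_notMem ha]
    have h1 := g4_mul j k (s.card * k) _ _ (h a (Finset.mem_insert_self a s))
      (ih fun i hi => h i (Finset.mem_insert_of_mem hi))
    calc _ ≤ k + s.card * k := h1
      _ = (s.card + 1) * k := by ring

/-- G4 (S). `t` does not occur. (`degreeOf_sub_le`, `degreeOf_add_le`, `degreeOf_mul_le`,
`degreeOf_X`, `degreeOf_one`; `Fin.succ_ne_zero`.) -/
theorem degreeOf_zero_pol (e : GEq n) : degreeOf 0 e.pol = 0 := by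
  rw [← Nat.le_zero]
  cases e with
  | add a b c =>
    exact g4_sub _ _ _ _ (g4_add _ _ _ _ (g4_zero a).le (g4_zero b).le) (g4_zero c).le
  | mul a b c =>
    exact g4_sub _ _ _ _ (g4_mul _ 0 0 _ _ (g4_zero a).le (g4_zero b).le) (g4_zero c).le
  | one a =>
    exact g4_sub _ _ _ _ (g4_zero a).le (g4_one 0).le

theorem degreeOf_zero_dpol (i : Fin n) (e : GEq n) : degreeOf 0 (e.dpol i) = 0 := by
  rw [← Nat.le_zero]
  cases e with
  | add a b c =>
    exact g4_sub _ _ _ _ (g4_add _ _ _ _ (g4_ite _ _ _ _ (g4_one 0).le)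
      (g4_ite _ _ _ _ (g4_one 0).le)) (g4_ite _ _ _ _ (g4_one 0).le)
  | mul a b c =>
    exact g4_sub _ _ _ _ (g4_add _ _ _ _ (g4_ite _ _ _ _ (g4_zero b).le)
      (g4_ite _ _ _ _ (g4_zero a).le)) (g4_ite _ _ _ _ (g4_one 0).le)
  | one a =>
    exact g4_ite _ _ _ _ (g4_one 0).le

/-- G4 (S). The residue has degree at most `2`, its derivative degree at most `1`, in every
variable. -/
theorem degreeOf_pol (j : Fin (n + 1)) (e : GEq n) : degreeOf j e.pol ≤ 2 := by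
  cases e with
  | add a b c =>
    exact g4_sub _ _ _ _ (g4_add _ _ _ _ ((g4_X_le _ _).trans (by omega))
      ((g4_X_le _ _).trans (by omega))) ((g4_X_le _ _).trans (by omega))
  | mul a b c =>
    exact g4_sub _ _ _ _ (g4_mul _ 1 1 _ _ (g4_X_le _ _) (g4_X_le _ _))
      ((g4_X_le _ _).trans (by omega))
  | one a =>
    exact g4_sub _ _ _ _ ((g4_X_le _ _).trans (by omega)) ((g4_one _).le.trans (by omega))

theorem degreeOf_dpol (j : Fin (n + 1)) (i : Fin n) (e : GEq n) : degreeOf j (e.dpol i) ≤ 1 := by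
  have h1 : degreeOf j (1 : MvPolynomial (Fin (n + 1)) ℤ) ≤ 1 := (g4_one _).le.trans (by omega)
  cases e with
  | add a b c =>
    exact g4_sub _ _ _ _ (g4_add _ _ _ _ (g4_ite _ _ _ _ h1) (g4_ite _ _ _ _ h1))
      (g4_ite _ _ _ _ h1)
  | mul a b c =>
    exact g4_sub _ _ _ _ (g4_add _ _ _ _ (g4_ite _ _ _ _ (g4_X_le _ _))
      (g4_ite _ _ _ _ (g4_X_le _ _))) (g4_ite _ _ _ _ h1)
  | one a =>
    exact g4_ite _ _ _ _ h1

/-- G4. `degreeOf_add_le`, `degreeOf_sum_le`, `degreeOf_mul_le`, `degreeOf_pow_le`. -/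
theorem degreeOf_zero_gGP (S : Fin m → GEq n) : degreeOf 0 (gGP S) ≤ 1 := by
  refine g4_add _ _ _ _ (g4_sum _ _ _ _ fun k _ => ?_) ?_
  · exact (g4_pow 0 0 2 _ (degreeOf_zero_pol (S k)).le).trans (by omega)
  · refine g4_mul 0 1 0 _ _ (g4_X_le _ _) (g4_sum _ _ _ _ fun i _ => ?_)
    exact (g4_pow 0 0 2 _ (g4_zero i).le).trans (by omega)

theorem degreeOf_zero_gUP (S : Fin m → GEq n) (i : Fin n) : degreeOf 0 (gUP S i) ≤ 1 := by
  refine g4_add _ _ _ _ (g4_sum _ _ _ _ fun k _ => ?_) ?_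
  · exact (g4_mul 0 0 0 _ _ (degreeOf_zero_pol (S k)).le (degreeOf_zero_dpol i (S k)).le).trans
      (by omega)
  · exact g4_mul 0 1 0 _ _ (g4_X_le _ _) (g4_zero i).le

/-- G4. In `x j`: the squares have degree at most `4`, `t * x i ^ 2` at most `2`. -/
theorem degreeOf_succ_gGP (S : Fin m → GEq n) (j : Fin n) : degreeOf j.succ (gGP S) ≤ 4 := by
  refine g4_add _ _ _ _ (g4_sum _ _ _ _ fun k _ => ?_) ?_
  · exact (g4_pow _ 2 2 _ (degreeOf_pol j.succ (S k))).trans (by omega)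
  · have h := g4_mul j.succ 1 2 (X 0 : MvPolynomial (Fin (n + 1)) ℤ)
      (∑ i : Fin n, X i.succ ^ 2) (g4_X_le _ _) (g4_sum _ _ _ _ fun i _ =>
        (g4_pow j.succ 1 2 _ (g4_X_le _ _)).trans (by omega))
    exact h.trans (by omega)

/-- G4. In `x j`: `2 + 1 = 3`. -/
theorem degreeOf_succ_gUP (S : Fin m → GEq n) (i j : Fin n) : degreeOf j.succ (gUP S i) ≤ 3 := by
  refine g4_add _ _ _ _ (g4_sum _ _ _ _ fun k _ => ?_) ?_
  · exact g4_mul _ 2 1 _ _ (degreeOf_pol j.succ (S k)) (degreeOf_dpol j.succ i (S k))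
  · exact (g4_mul _ 1 1 _ _ (g4_X_le _ _) (g4_X_le _ _)).trans (by omega)

/-- G4 (M). In `t`: at most `L + n D + D = 2 L`. (`degreeOf_mul_le`, `degreeOf_prod_le`,
`degreeOf_pow_le`; exponents at most `L`, `D`, `D`.) -/
theorem degreeOf_zero_gProd (S : Fin m → GEq n) (q : GIx n) :
    degreeOf 0 (gProd S q) ≤ 2 * gL n := by
  have hL : (q.1 : ℕ) ≤ gL n := Nat.lt_succ_iff.1 q.1.2
  have hD1 : ∀ i, (q.2.1 i : ℕ) ≤ gD n := fun i => Nat.lt_succ_iff.1 (q.2.1 i).2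
  have hD2 : (q.2.2 : ℕ) ≤ gD n := Nat.lt_succ_iff.1 q.2.2.2
  have h1 : degreeOf 0 (X 0 ^ (q.1 : ℕ) : MvPolynomial (Fin (n + 1)) ℤ) ≤ gL n :=
    (g4_pow 0 1 _ _ (g4_X_le _ _)).trans (by omega)
  have h2 : degreeOf 0 (∏ i, gUP S i ^ (q.2.1 i : ℕ)) ≤ n * gD n := by
    have h := g4_prod Finset.univ 0 (gD n) (fun i => gUP S i ^ (q.2.1 i : ℕ)) fun i _ =>
      (g4_pow 0 1 _ _ (degreeOf_zero_gUP S i)).trans (by have := hD1 i; omega)
    simpa using h
  have h3 : degreeOf 0 (gGP S ^ (q.2.2 : ℕ)) ≤ gD n :=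
    (g4_pow 0 1 _ _ (degreeOf_zero_gGP S)).trans (by omega)
  rw [gProd]
  refine (g4_mul 0 _ _ _ _ (g4_mul 0 _ _ _ _ h1 h2) h3).trans ?_
  rw [gL]
  exact le_of_eq (by ring)

/-- G4. In `x j`: at most `3 n D + 4 D ≤ 4 (n + 1) D`. -/
theorem degreeOf_succ_gProd (S : Fin m → GEq n) (q : GIx n) (j : Fin n) :
    degreeOf j.succ (gProd S q) ≤ 4 * (n + 1) * gD n := by
  have hD1 : ∀ i, (q.2.1 i : ℕ) ≤ gD n := fun i => Nat.lt_succ_iff.1 (q.2.1 i).2
  have hD2 : (q.2.2 : ℕ) ≤ gD n := Nat.lt_succ_iff.1 q.2.2.2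
  have h0 : degreeOf j.succ (X 0 : MvPolynomial (Fin (n + 1)) ℤ) ≤ 0 := by
    rw [g4_X, if_neg (Fin.succ_ne_zero j)]
  have h1 : degreeOf j.succ (X 0 ^ (q.1 : ℕ) : MvPolynomial (Fin (n + 1)) ℤ) ≤ 0 :=
    (g4_pow _ 0 _ _ h0).trans (by omega)
  have h2 : degreeOf j.succ (∏ i, gUP S i ^ (q.2.1 i : ℕ)) ≤ n * (gD n * 3) := by
    have h := g4_prod Finset.univ j.succ (gD n * 3) (fun i => gUP S i ^ (q.2.1 i : ℕ)) fun i _ =>
      (g4_pow _ 3 _ _ (degreeOf_succ_gUP S i j)).trans (Nat.mul_le_mul_right _ (hD1 i))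
    simpa using h
  have h3 : degreeOf j.succ (gGP S ^ (q.2.2 : ℕ)) ≤ gD n * 4 :=
    (g4_pow _ 4 _ _ (degreeOf_succ_gGP S j)).trans (Nat.mul_le_mul_right _ hD2)
  rw [gProd]
  refine (g4_mul _ _ _ _ _ (g4_mul _ _ _ _ _ h1 h2) h3).trans ?_
  nlinarith [Nat.zero_le (n * gD n)]

/-- G4. Every monomial of a product is some `gMon p`: by `monomial_le_degreeOf` (a monomial `e` of the
support has `e j ≤ degreeOf j`) take `p = (⟨e 0, _⟩, fun i => ⟨e i.succ, _⟩)`; `Finsupp.ext`,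
`Fin.cases`. -/
theorem gMon_of_mem_support (S : Fin m → GEq n) (q : GIx n) (e : Fin (n + 1) →₀ ℕ)
    (he : e ∈ (gProd S q).support) : ∃ p : GMon n, gMon p = e := by
  have h0 : e 0 ≤ 2 * gL n := (monomial_le_degreeOf 0 he).trans (degreeOf_zero_gProd S q)
  have hj : ∀ j : Fin n, e j.succ ≤ 4 * (n + 1) * gD n := fun j =>
    (monomial_le_degreeOf j.succ he).trans (degreeOf_succ_gProd S q j)
  refine ⟨(⟨e 0, Nat.lt_succ_of_le h0⟩, fun i => ⟨e i.succ, Nat.lt_succ_of_le (hj i)⟩), ?_⟩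
  ext i
  refine Fin.cases ?_ (fun j => ?_) i
  · simp [gMon]
  · simp [gMon]

end Pool.Agent.H54R
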