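import Pool.Agent.Lib.H54R.G1
import Pool.Agent.Lib.H54R.G3
import Pool.Agent.Lib.H54R.G4

/-! # Chunk G5: the algebraic relation between `t`, the `u i` and `G` -/

set_option autoImplicit false

namespace Pool.Agent.H54R

open MvPolynomial

variable {n m : ℕ}

/-- G5 (S). `gD n + 1 = 4 * (4 * (n + 1)) ^ n` (the power is positive). -/
theorem gD_succ (n : ℕ) : gD n + 1 = 4 * (4 * (n + 1)) ^ n := by
  have h : 0 < (4 * (n + 1)) ^ n := Nat.pow_pos (by omega)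
  rw [gD]
  omega

/-- G5. `|GIx n| = (L + 1) * (D + 1) ^ (n + 1)` (`Fintype.card_prod`, `Fintype.card_fun`,
`Fintype.card_fin`). -/
theorem card_GIx (n : ℕ) : Fintype.card (GIx n) = (gL n + 1) * (gD n + 1) ^ (n + 1) := by
  simp only [Fintype.card_prod, Fintype.card_fun, Fintype.card_fin]
  ring

/-- G5. `2 |GMon n| ≤ |GIx n|`. PROOF. `|GMon n| = (2 L + 1) * (4 (n + 1) D + 1) ^ n
≤ (2 L + 1) * (4 (n + 1) (D + 1)) ^ n = (2 L + 1) * (4 (n + 1)) ^ n * (D + 1) ^ n` and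
`2 (2 L + 1) (4 (n + 1)) ^ n ≤ 4 (L + 1) (4 (n + 1)) ^ n = (L + 1) (D + 1)`. -/
theorem card_GMon (n : ℕ) : 2 * Fintype.card (GMon n) ≤ Fintype.card (GIx n) := by
  rw [card_GIx]
  simp only [Fintype.card_prod, Fintype.card_fun, Fintype.card_fin]
  have h1 : (4 * (n + 1) * gD n + 1) ^ n ≤ (4 * (n + 1)) ^ n * (gD n + 1) ^ n := by
    rw [← mul_pow]
    refine Nat.pow_le_pow_left ?_ n
    nlinarith
  have h2 : 2 * (2 * gL n + 1) ≤ 4 * (gL n + 1) := by omega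
  calc 2 * ((2 * gL n + 1) * (4 * (n + 1) * gD n + 1) ^ n)
      = (2 * (2 * gL n + 1)) * (4 * (n + 1) * gD n + 1) ^ n := by ring
    _ ≤ (4 * (gL n + 1)) * ((4 * (n + 1)) ^ n * (gD n + 1) ^ n) := Nat.mul_le_mul h2 h1
    _ = (gL n + 1) * ((4 * (4 * (n + 1)) ^ n) * (gD n + 1) ^ n) := by ring
    _ = (gL n + 1) * (gD n + 1) ^ (n + 1) := by rw [← gD_succ]; ring

/-- G5 (S). Values of the polynomials at `(t, x)`: `simp`, cases. -/
theorem aeval_pol (t : ℝ) (x : Fin n → ℝ) (e : GEq n) :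
    aeval (Fin.cons t x : Fin (n + 1) → ℝ) e.pol = e.res x := by
  cases e <;> simp [GEq.pol, GEq.res]

theorem aeval_dpol (t : ℝ) (x : Fin n → ℝ) (i : Fin n) (e : GEq n) :
    aeval (Fin.cons t x : Fin (n + 1) → ℝ) (e.dpol i) = e.dres x i := by
  cases e <;> simp only [GEq.dpol, GEq.dres] <;> split_ifs <;> simp

theorem aeval_gGP (S : Fin m → GEq n) (t : ℝ) (x : Fin n → ℝ) :
    aeval (Fin.cons t x : Fin (n + 1) → ℝ) (gGP S) = gG (gF S) t x := by
  simp [gGP, gG, gF, gN, aeval_pol]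

theorem aeval_gUP (S : Fin m → GEq n) (t : ℝ) (x : Fin n → ℝ) (i : Fin n) :
    aeval (Fin.cons t x : Fin (n + 1) → ℝ) (gUP S i) = gU S t x i := by
  simp [gUP, gU, aeval_pol, aeval_dpol]

/-- G5 (M). The relation. PROOF. `siegel_poly` for `P = gProd S`, `mon = gMon`,
`B = gW n m ^ ((n + 1) * gD n)` (`natAbs_coeff_le_l1`, `l1_gProd`, `gMon_of_mem_support`,
`card_GMon`); apply `aeval (Fin.cons t x)` to `∑ q, C (c q) * gProd S q = 0` (`map_sum`, `map_mul`,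
`aeval_C`, `map_prod`, `map_pow`, `aeval_X`, `Fin.cons_zero`). `gH n m = card_GIx * B`. -/
theorem gap_relation (S : Fin m → GEq n) : ∃ c : GIx n → ℤ, c ≠ 0 ∧
    (∀ q, (c q).natAbs ≤ gH n m) ∧
    ∀ (t : ℝ) (x : Fin n → ℝ), ∑ q : GIx n, (c q : ℝ) *
      (t ^ (q.1 : ℕ) * (∏ i, gU S t x i ^ (q.2.1 i : ℕ)) * gG (gF S) t x ^ (q.2.2 : ℕ)) = 0 := by
  have hW : 1 ≤ gW n m := by rw [gW]; omega
  obtain ⟨c, hc0, hc1, hc2⟩ := siegel_poly (gProd S) gMon (gW n m ^ ((n + 1) * gD n))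
    (Nat.one_le_pow _ _ hW) (fun q e he => gMon_of_mem_support S q e he)
    (fun q e => (natAbs_coeff_le_l1 _ e).trans (l1_gProd S q)) (card_GMon n)
    (Fintype.card_pos)
  refine ⟨c, hc0, fun q => ?_, fun t x => ?_⟩
  · refine (hc1 q).trans (le_of_eq ?_)
    rw [card_GIx, gH]
  · have h := congrArg (aeval (Fin.cons t x : Fin (n + 1) → ℝ)) hc2
    rw [map_sum, map_zero] at h
    rw [← h]
    refine Finset.sum_congr rfl fun q _ => ?_
    rw [gProd, map_mul, map_mul, map_mul, map_prod, map_pow, map_pow, aeval_X, aeval_gGP,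
      Fin.cons_zero]
    simp only [map_pow, aeval_gUP]
    congr 1
    simp

end Pool.Agent.H54R
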