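import Pool.Agent.Lib.H54R.GapDefs

/-! # Chunk G6: the gradient at a minimum -/

set_option autoImplicit false

namespace Pool.Agent.H54R

variable {n m : ℕ}

/-- `x + h e_i` at `a`. -/
theorem upd_apply (x : Fin n → ℝ) (i : Fin n) (h : ℝ) (a : Fin n) :
    Function.update x i (x i + h) a = x a + h * (if a = i then 1 else 0) := by
  by_cases hai : a = i
  · subst hai
    simp
  · simp [hai]

/-- G6 (S). Taylor expansion of the residue in the direction of `x i`: cases of `e`,
`Function.update_apply`, `split_ifs`, `ring`. -/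
theorem res_update (x : Fin n → ℝ) (i : Fin n) (h : ℝ) (e : GEq n) :
    e.res (Function.update x i (x i + h)) = e.res x + h * e.dres x i + h ^ 2 * e.ddres i := by
  cases e with
  | add a b c =>
    simp only [GEq.res, GEq.dres, GEq.ddres, upd_apply]
    ring
  | mul a b c =>
    simp only [GEq.res, GEq.dres, GEq.ddres, upd_apply]
    by_cases ha : a = i
    · by_cases hb : b = i
      · simp only [ha, hb, and_self, if_true]
        ring
      · simp only [ha, hb, and_false, if_true, if_false]
        ring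
    · simp only [ha, false_and, if_false]
      by_cases hb : b = i
      · simp only [hb, if_true]
        ring
      · simp only [hb, if_false]
        ring
  | one a =>
    simp only [GEq.res, GEq.dres, GEq.ddres, upd_apply]
    ring

/-- G6 (S). `|x + h e_i|^2 = |x|^2 + 2 h x_i + h^2`. -/
theorem gN_update (x : Fin n → ℝ) (i : Fin n) (h : ℝ) :
    gN (Function.update x i (x i + h)) = gN x + 2 * h * x i + h ^ 2 := by
  have h1 : ∀ a, (Function.update x i (x i + h) a) ^ 2 =
      x a ^ 2 + (if a = i then 2 * h * x i + h ^ 2 else 0) := by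
    intro a
    by_cases hai : a = i
    · subst hai
      simp
      ring
    · simp [hai]
  unfold gN
  simp only [h1]
  rw [Finset.sum_add_distrib]
  simp
  ring

/-- G6 (S). `∑ v_j x_j` changes by `h v_i`. -/
theorem lin_update (v x : Fin n → ℝ) (i : Fin n) (h : ℝ) :
    ∑ j, v j * Function.update x i (x i + h) j = (∑ j, v j * x j) + h * v i := by
  have h1 : ∀ a, v a * Function.update x i (x i + h) a =
      v a * x a + (if a = i then h * v i else 0) := by
    intro a
    by_cases hai : a = i
    · subst hai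
      simp
      ring
    · simp [hai]
  simp only [h1]
  rw [Finset.sum_add_distrib]
  simp

/-- G6 (M). `G (x + h e_i) = G x + 2 h u_i + h^2 (A + B h + C h^2)` for some numbers `A`, `B`, `C`
(not depending on `h`). PROOF. With `r`, `d`, `a` the residue, `dres`, `ddres` of the `k`-th
equation: `(r + h d + h^2 a)^2 = r^2 + 2 h r d + h^2 (d^2 + 2 r a) + 2 h^3 d a + h^4 a^2`; sum over
`k`, add `t (2 h x_i + h^2)`. -/
theorem gG_update (S : Fin m → GEq n) (t : ℝ) (x : Fin n → ℝ) (i : Fin n) : ∃ A B C : ℝ, ∀ h : ℝ,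
    gG (gF S) t (Function.update x i (x i + h)) =
      gG (gF S) t x + 2 * h * gU S t x i + h ^ 2 * (A + B * h + C * h ^ 2) := by
  refine ⟨(∑ k, ((S k).dres x i ^ 2 + 2 * (S k).res x * (S k).ddres i)) + t,
    ∑ k, 2 * (S k).dres x i * (S k).ddres i, ∑ k, (S k).ddres i ^ 2, fun h => ?_⟩
  unfold gG gU
  rw [gN_update]
  have h1 : gF S (Function.update x i (x i + h)) = gF S x +
      2 * h * (∑ k, (S k).res x * (S k).dres x i) +
      h ^ 2 * ((∑ k, ((S k).dres x i ^ 2 + 2 * (S k).res x * (S k).ddres i)) +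
        (∑ k, 2 * (S k).dres x i * (S k).ddres i) * h + (∑ k, (S k).ddres i ^ 2) * h ^ 2) := by
    unfold gF
    simp only [res_update]
    rw [Finset.mul_sum, Finset.sum_mul, Finset.sum_mul, ← Finset.sum_add_distrib,
      ← Finset.sum_add_distrib, ← Finset.sum_add_distrib, Finset.mul_sum,
      ← Finset.sum_add_distrib]
    refine Finset.sum_congr rfl fun k _ => ?_
    ring
  rw [h1]
  ring

/-- G6 (M). If `2 h w + h^2 (A + B h + C h^2) ≥ 0` for all `h`, then `w = 0`. PROOF. For
`0 < h ≤ 1` divide by `h`: `2 w ≥ - h (|A| + |B| + |C|)`; for `-1 ≤ h < 0`: `2 w ≤ |h| (..)`; let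
`h → 0` (or choose `h` explicitly). -/
theorem eq_zero_of_quad {w A B C : ℝ}
    (H : ∀ h : ℝ, 0 ≤ 2 * h * w + h ^ 2 * (A + B * h + C * h ^ 2)) : w = 0 := by
  by_contra hw
  set K : ℝ := |A| + |B| + |C| + 1 with hK
  have hK1 : 1 ≤ K := by
    have := abs_nonneg A
    have := abs_nonneg B
    have := abs_nonneg C
    linarith
  have hwp : 0 < |w| := abs_pos.mpr hw
  -- choose `s = min 1 (|w| / K)`, `h = - sign w * s`
  set s : ℝ := min 1 (|w| / K) with hs
  have hs0 : 0 < s := lt_min one_pos (div_pos hwp (by linarith))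
  have hs1 : s ≤ 1 := min_le_left _ _
  have hsK : s * K ≤ |w| := by
    have : s ≤ |w| / K := min_le_right _ _
    rwa [le_div_iff₀ (by linarith)] at this
  have key : ∀ e : ℝ, (e = 1 ∨ e = -1) → e * w = - |w| → False := by
    intro e he hew
    have h1 := H (e * s)
    have he2 : e ^ 2 = 1 := by
      rcases he with rfl | rfl <;> norm_num
    have hB : B * (e * s) ≤ |B| := by
      have h2 : B * (e * s) ≤ |B * (e * s)| := le_abs_self _
      have h3 : |B * (e * s)| = |B| * s := by
        rw [abs_mul, abs_mul, abs_of_pos hs0]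
        rcases he with rfl | rfl <;> simp
      rw [h3] at h2
      have h4 : |B| * s ≤ |B| * 1 := mul_le_mul_of_nonneg_left hs1 (abs_nonneg B)
      linarith
    have hC : C * (e * s) ^ 2 ≤ |C| := by
      rw [mul_pow, he2, one_mul]
      have h2 : C * s ^ 2 ≤ |C| * s ^ 2 := mul_le_mul_of_nonneg_right (le_abs_self C) (sq_nonneg s)
      have h3 : s ^ 2 ≤ 1 := by nlinarith
      have h4 : |C| * s ^ 2 ≤ |C| * 1 := mul_le_mul_of_nonneg_left h3 (abs_nonneg C)
      linarith
    have hA : A ≤ |A| := le_abs_self A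
    have h5 : A + B * (e * s) + C * (e * s) ^ 2 ≤ K := by linarith
    have h6 : (e * s) ^ 2 = s ^ 2 := by rw [mul_pow, he2, one_mul]
    have h7 : (e * s) ^ 2 * (A + B * (e * s) + C * (e * s) ^ 2) ≤ s ^ 2 * K := by
      rw [h6]
      rw [h6] at h5
      exact mul_le_mul_of_nonneg_left h5 (sq_nonneg s)
    have h8 : 2 * (e * s) * w = - (2 * s * |w|) := by
      have : 2 * (e * s) * w = 2 * s * (e * w) := by ring
      rw [this, hew]
      ring
    have h9 : s ^ 2 * K ≤ s * |w| := by
      have : s ^ 2 * K = s * (s * K) := by ring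
      rw [this]
      exact mul_le_mul_of_nonneg_left hsK hs0.le
    have h10 : 0 < s * |w| := mul_pos hs0 hwp
    linarith
  rcases le_or_gt 0 w with h0 | h0
  · exact key (-1) (Or.inr rfl) (by rw [abs_of_nonneg h0]; ring)
  · exact key 1 (Or.inl rfl) (by rw [abs_of_neg h0]; ring)

/-- G6. At a global minimum of `G - 2 <v, x>` the gradient is `v`: `gG_update`, `lin_update`,
`eq_zero_of_quad` with `w = u_i - v_i`. -/
theorem gU_of_min (S : Fin m → GEq n) (t : ℝ) (v x : Fin n → ℝ)
    (hx : ∀ y : Fin n → ℝ, gG (gF S) t x - 2 * ∑ j, v j * x j ≤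
      gG (gF S) t y - 2 * ∑ j, v j * y j) (i : Fin n) : gU S t x i = v i := by
  obtain ⟨A, B, C, hABC⟩ := gG_update S t x i
  have h1 : gU S t x i - v i = 0 := by
    refine eq_zero_of_quad (A := A) (B := B) (C := C) fun h => ?_
    have h2 := hx (Function.update x i (x i + h))
    rw [hABC h, lin_update] at h2
    linarith
  linarith

end Pool.Agent.H54R
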