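import Mathlib

/-!
# The gap theorem for systems of simple equations: definitions (PAPER.md, 6.1)

* `GEq n`: equations `x a + x b = x c`, `x a * x b = x c`, `x a = 1` in `x 0, ..., x (n - 1)`.
* `res`, `dres`: the residue and its partial derivatives; `pol`, `dpol`: the same as polynomials in
  the variables `0 ↦ t`, `i + 1 ↦ x i`.
* `gF = sum of the squares of the residues`, `gN = |x|^2`, `gG = gF + t |x|^2`, `gU = half of the
  gradient of gG`.
* `gMin F t = min over x of F x + t |x|^2`.
* `gD`, `gL`, `gW`, `gH`: the numbers of the paper.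
-/

set_option autoImplicit false

namespace Pool.Agent.H54R

open MvPolynomial

/-- the equations `x a + x b = x c`, `x a * x b = x c`, `x a = 1` -/
inductive GEq (n : ℕ) : Type
  | add (a b c : Fin n) : GEq n
  | mul (a b c : Fin n) : GEq n
  | one (a : Fin n) : GEq n

namespace GEq

variable {n : ℕ}

/-- the residue of an equation -/
def res (x : Fin n → ℝ) : GEq n → ℝ
  | .add a b c => x a + x b - x c
  | .mul a b c => x a * x b - x c
  | .one a => x a - 1

/-- the partial derivative of the residue with respect to `x i` -/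
def dres (x : Fin n → ℝ) (i : Fin n) : GEq n → ℝ
  | .add a b c => (if a = i then 1 else 0) + (if b = i then 1 else 0) - (if c = i then 1 else 0)
  | .mul a b c => (if a = i then x b else 0) + (if b = i then x a else 0) - (if c = i then 1 else 0)
  | .one a => if a = i then 1 else 0

/-- the second partial derivative of the residue with respect to `x i`, divided by two -/
def ddres (i : Fin n) : GEq n → ℝ
  | .add _ _ _ => 0
  | .mul a b _ => if a = i ∧ b = i then 1 else 0
  | .one _ => 0

/-- the residue as a polynomial; the variable `0` is `t`, the variable `i + 1` is `x i` -/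
noncomputable def pol : GEq n → MvPolynomial (Fin (n + 1)) ℤ
  | .add a b c => X a.succ + X b.succ - X c.succ
  | .mul a b c => X a.succ * X b.succ - X c.succ
  | .one a => X a.succ - 1

/-- the partial derivative of the residue as a polynomial -/
noncomputable def dpol (i : Fin n) : GEq n → MvPolynomial (Fin (n + 1)) ℤ
  | .add a b c => (if a = i then 1 else 0) + (if b = i then 1 else 0) - (if c = i then 1 else 0)
  | .mul a b c => (if a = i then X b.succ else 0) + (if b = i then X a.succ else 0) -
      (if c = i then 1 else 0)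
  | .one a => if a = i then 1 else 0

end GEq

variable {n m : ℕ}

/-- the sum of the squares of the residues -/
def gF (S : Fin m → GEq n) (x : Fin n → ℝ) : ℝ := ∑ k, ((S k).res x) ^ 2

/-- `|x|^2` -/
def gN (x : Fin n → ℝ) : ℝ := ∑ i, x i ^ 2

/-- `G = F + t |x|^2` -/
def gG (F : (Fin n → ℝ) → ℝ) (t : ℝ) (x : Fin n → ℝ) : ℝ := F x + t * gN x

/-- half of the partial derivative of `G` with respect to `x i` -/
def gU (S : Fin m → GEq n) (t : ℝ) (x : Fin n → ℝ) (i : Fin n) : ℝ :=
  (∑ k, (S k).res x * (S k).dres x i) + t * x i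

/-- `G` as a polynomial -/
noncomputable def gGP (S : Fin m → GEq n) : MvPolynomial (Fin (n + 1)) ℤ :=
  (∑ k, ((S k).pol) ^ 2) + X 0 * ∑ i : Fin n, X i.succ ^ 2

/-- `u i` as a polynomial -/
noncomputable def gUP (S : Fin m → GEq n) (i : Fin n) : MvPolynomial (Fin (n + 1)) ℤ :=
  (∑ k, (S k).pol * (S k).dpol i) + X 0 * X i.succ

/-- the sum of the absolute values of the coefficients -/
noncomputable def l1 {σ : Type} (p : MvPolynomial σ ℤ) : ℕ := ∑ e ∈ p.support, (p.coeff e).natAbs

/-- `D + 1 = 4 (4 (n + 1)) ^ n` -/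
def gD (n : ℕ) : ℕ := 4 * (4 * (n + 1)) ^ n - 1

/-- `L = (n + 1) D` -/
def gL (n : ℕ) : ℕ := (n + 1) * gD n

/-- `W = 9 m + n + 1` -/
def gW (n m : ℕ) : ℕ := 9 * m + n + 1

/-- the bound of the coefficients of the relation -/
def gH (n m : ℕ) : ℕ := (gL n + 1) * (gD n + 1) ^ (n + 1) * gW n m ^ ((n + 1) * gD n)

/-- the indices of the products `t ^ g * u ^ α * G ^ β` -/
abbrev GIx (n : ℕ) : Type := Fin (gL n + 1) × (Fin n → Fin (gD n + 1)) × Fin (gD n + 1)

/-- the products `t ^ g * u ^ α * G ^ β` -/
noncomputable def gProd (S : Fin m → GEq n) (q : GIx n) : MvPolynomial (Fin (n + 1)) ℤ :=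
  X 0 ^ (q.1 : ℕ) * (∏ i, gUP S i ^ (q.2.1 i : ℕ)) * gGP S ^ (q.2.2 : ℕ)

/-- the indices of the monomials of these products -/
abbrev GMon (n : ℕ) : Type := Fin (2 * gL n + 1) × (Fin n → Fin (4 * (n + 1) * gD n + 1))

/-- the monomials of these products -/
noncomputable def gMon (p : GMon n) : Fin (n + 1) →₀ ℕ :=
  Finsupp.equivFunOnFinite.symm (Fin.cons (p.1 : ℕ) fun i => (p.2 i : ℕ))

/-- `min over x of F x + t |x|^2` -/
noncomputable def gMin (F : (Fin n → ℝ) → ℝ) (t : ℝ) : ℝ := ⨅ x : Fin n → ℝ, gG F t x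

/-- the weight of `α`: the exponent of `s` in `∏ i, (s ^ (K ^ i)) ^ α i`, `K = D + 1` -/
def gWt {D : ℕ} (α : Fin n → Fin (D + 1)) : ℕ := ∑ i : Fin n, (D + 1) ^ (i : ℕ) * (α i : ℕ)

end Pool.Agent.H54R
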