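import Pool.Agent.Lib.H54R.TDefs

/-!
# Networks and their drawings (abstract form)

`PD`: a plane drawing with edges `Lt` (light, they may cross horizontally/vertically) and `U`
(uncrossed). `Net`: the combinatorial structure of a network used in the forcing argument.
`ND N`: a drawing of the network `N`; every heavy edge `a b` is drawn as the uncrossed path
`p a`, `m a b`, `p b`.
-/

set_option autoImplicit false

namespace Pool.Agent.H54R

/-- A plane drawing: set `P` of vertices, light segments `Lt`, uncrossed segments `U`. -/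
structure PD : Type where
  P : Set Pt
  Lt : Pt → Pt → Prop
  U : Pt → Pt → Prop
  Lsymm : ∀ {x y}, Lt x y → Lt y x
  Usymm : ∀ {x y}, U x y → U y x
  LP : ∀ {x y}, Lt x y → x ∈ P ∧ y ∈ P ∧ x ≠ y
  UP : ∀ {x y}, U x y → x ∈ P ∧ y ∈ P ∧ x ≠ y
  /-- no vertex on a segment except its ends -/
  nv : ∀ {x y z}, (Lt x y ∨ U x y) → z ∈ P → z ≠ x → z ≠ y → z ∉ segment ℝ x y
  /-- crossing light segments are horizontal and vertical -/
  cross : ∀ {x y z w}, Lt x y → Lt z w → s(x, y) ≠ s(z, w) → Cross x y z w →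
    (Hor x y ∧ Ver z w) ∨ (Ver x y ∧ Hor z w)
  /-- the segments `U` are not crossed -/
  un : ∀ {x y z w}, U x y → (Lt z w ∨ U z w) → s(x, y) ≠ s(z, w) → ¬ Cross x y z w

/-- Vertices of the core graph: boundary vertices on the left, right, bottom and top side, five
hubs (0 left, 1 right, 2 top, 3 bottom, 4 outer), vertices of the blocks. -/
inductive Vx : Type
  | L (k : ℕ) : Vx
  | R (k : ℕ) : Vx
  | B (k : ℕ) : Vx
  | T (k : ℕ) : Vx
  | hub (i : ℕ) : Vx
  | blk (b : ℕ × ℕ) (c : ℕ) : Vx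
  deriving DecidableEq

/-- exchange of the axes -/
def Vx.tr : Vx → Vx
  | .L k => .B k
  | .R k => .T k
  | .B k => .L k
  | .T k => .R k
  | .hub i => .hub (if i = 0 then 3 else if i = 3 then 0 else if i = 1 then 2 else
      if i = 2 then 1 else i)
  | .blk b c => .blk b c

/-- The indices of the complete lines: `4 i` long wires, `4 i + 1` and `4 i + 3` the complete lines of
lane `i`. -/
def Cpl (n k : ℕ) : Prop := k ≤ 4 * n ∧ k % 4 ≠ 2

/-- A network: `M` row lanes and `N` column lanes; blocks `b` in the cells `(row b, col b)`; light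
edges `li`, heavy edges `hv`; `ci k`, `ri k` are the inner vertices of the complete column and row
lines. `F b` is the full vertex of the block `b`. -/
structure Net : Type where
  M : ℕ
  N : ℕ
  M_pos : 0 < M
  N_pos : 0 < N
  li : Vx → Vx → Prop
  hv : Vx → Vx → Prop
  li_symm : ∀ {a b}, li a b → li b a
  hv_symm : ∀ {a b}, hv a b → hv b a
  /-- the vertices of the block `b` are `blk b c` with `inB b c` -/
  inB : ℕ × ℕ → ℕ → Prop
  row : ℕ × ℕ → ℕ
  col : ℕ × ℕ → ℕ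
  F : ℕ × ℕ → ℕ
  inB_F : ∀ {b c}, inB b c → inB b (F b)
  row_lt : ∀ {b c}, inB b c → row b < M
  col_lt : ∀ {b c}, inB b c → col b < N
  /-- the inner vertices of the complete column lines, from bottom to top -/
  ci : ℕ → List ((ℕ × ℕ) × ℕ)
  /-- the inner vertices of the complete row lines, from left to right -/
  ri : ℕ → List ((ℕ × ℕ) × ℕ)
  ci_mem : ∀ {k v}, Cpl N k → v ∈ ci k → inB v.1 v.2 ∧ col v.1 = k / 4
  ri_mem : ∀ {k v}, Cpl M k → v ∈ ri k → inB v.1 v.2 ∧ row v.1 = k / 4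
  ci_long : ∀ {k}, k % 4 = 0 → ci k = []
  ri_long : ∀ {k}, k % 4 = 0 → ri k = []
  ci_sorted : ∀ {k}, Cpl N k → (ci k).Pairwise fun v w => row v.1 < row w.1
  ri_sorted : ∀ {k}, Cpl M k → (ri k).Pairwise fun v w => col v.1 < col w.1
  ci_disj : ∀ {k l v}, Cpl N k → Cpl N l → v ∈ ci k → v ∈ ci l → k = l
  ri_disj : ∀ {k l v}, Cpl M k → Cpl M l → v ∈ ri k → v ∈ ri l → k = l
  ci_li : ∀ {k}, Cpl N k →
    ∀ e ∈ edg (.B k :: ((ci k).map fun v => Vx.blk v.1 v.2) ++ [.T k]), li e.1 e.2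
  ri_li : ∀ {k}, Cpl M k →
    ∀ e ∈ edg (.L k :: ((ri k).map fun v => Vx.blk v.1 v.2) ++ [.R k]), li e.1 e.2
  /-- the four neighbours of the full vertex -/
  up : ∀ {b c}, inB b c → (∃ k, k ≤ 4 * N ∧ k / 4 = col b ∧ k % 4 ≠ 0 ∧ li (.blk b (F b)) (.T k)) ∨
    ∃ b' c', inB b' c' ∧ col b' = col b ∧ row b < row b' ∧ li (.blk b (F b)) (.blk b' c')
  dn : ∀ {b c}, inB b c → (∃ k, k ≤ 4 * N ∧ k / 4 = col b ∧ k % 4 ≠ 0 ∧ li (.blk b (F b)) (.B k)) ∨
    ∃ b' c', inB b' c' ∧ col b' = col b ∧ row b' < row b ∧ li (.blk b (F b)) (.blk b' c')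
  rt : ∀ {b c}, inB b c → (∃ k, k ≤ 4 * M ∧ k / 4 = row b ∧ k % 4 ≠ 0 ∧ li (.blk b (F b)) (.R k)) ∨
    ∃ b' c', inB b' c' ∧ row b' = row b ∧ col b < col b' ∧ li (.blk b (F b)) (.blk b' c')
  lf : ∀ {b c}, inB b c → (∃ k, k ≤ 4 * M ∧ k / 4 = row b ∧ k % 4 ≠ 0 ∧ li (.blk b (F b)) (.L k)) ∨
    ∃ b' c', inB b' c' ∧ row b' = row b ∧ col b' < col b ∧ li (.blk b (F b)) (.blk b' c')
  /-- every vertex of a block is joined to the full vertex by heavy edges in the block -/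
  conn : ∀ {b c}, inB b c → Relation.ReflTransGen
    (fun x y => inB b x ∧ inB b y ∧ hv (.blk b x) (.blk b y)) (F b) c
  /-- the boundary cycle -/
  bL : ∀ {k}, k < 4 * M → hv (.L k) (.L (k + 1))
  bR : ∀ {k}, k < 4 * M → hv (.R k) (.R (k + 1))
  bB : ∀ {k}, k < 4 * N → hv (.B k) (.B (k + 1))
  bT : ∀ {k}, k < 4 * N → hv (.T k) (.T (k + 1))
  bLT : hv (.L (4 * M)) (.T 0)
  bTR : hv (.T (4 * N)) (.R (4 * M))
  bRB : hv (.R 0) (.B (4 * N))
  bBL : hv (.B 0) (.L 0)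
  /-- the hubs -/
  hL : ∀ {k}, k ≤ 4 * M → hv (.hub 0) (.L k)
  hR : ∀ {k}, k ≤ 4 * M → hv (.hub 1) (.R k)
  hT : ∀ {k}, k ≤ 4 * N → hv (.hub 2) (.T k)
  hB : ∀ {k}, k ≤ 4 * N → hv (.hub 3) (.B k)
  hZ : ∀ {i}, i < 4 → hv (.hub 4) (.hub i)

namespace Net

/-- the vertices of the network -/
def isV (N : Net) : Vx → Prop
  | .L k => k ≤ 4 * N.M
  | .R k => k ≤ 4 * N.M
  | .B k => k ≤ 4 * N.N
  | .T k => k ≤ 4 * N.N
  | .hub i => i < 5
  | .blk b c => N.inB b c

/-- the complete column line `k` -/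
def cl (N : Net) (k : ℕ) : List Vx := .B k :: ((N.ci k).map fun v => Vx.blk v.1 v.2) ++ [.T k]

/-- the complete row line `k` -/
def rl (N : Net) (k : ℕ) : List Vx := .L k :: ((N.ri k).map fun v => Vx.blk v.1 v.2) ++ [.R k]

end Net

/-- A drawing of the network `N`. -/
structure ND (N : Net) extends PD where
  p : Vx → Pt
  m : Vx → Vx → Pt
  pP : ∀ {v}, N.isV v → p v ∈ P
  pinj : ∀ {v w}, N.isV v → N.isV w → p v = p w → v = w
  mP : ∀ {a b}, N.isV a → N.isV b → N.hv a b → m a b ∈ P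
  mp : ∀ {a b v}, N.isV a → N.isV b → N.hv a b → N.isV v → m a b ≠ p v
  minj : ∀ {a b c d}, N.isV a → N.isV b → N.isV c → N.isV d → N.hv a b → N.hv c d →
    m a b = m c d → s(a, b) = s(c, d)
  Lt_of : ∀ {a b}, N.isV a → N.isV b → N.li a b → Lt (p a) (p b)
  U1 : ∀ {a b}, N.isV a → N.isV b → N.hv a b → U (p a) (m a b)
  U2 : ∀ {a b}, N.isV a → N.isV b → N.hv a b → U (m a b) (p b)

/-- the path drawn for a list of vertices joined by heavy edges -/
def ND.ex {N : Net} (D : ND N) : List Vx → List Pt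
  | [] => []
  | [a] => [D.p a]
  | a :: b :: l => D.p a :: D.m a b :: D.ex (b :: l)

end Pool.Agent.H54R
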