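import Pool.Agent.Lib.H54R.Ring
import Pool.Agent.Lib.H54R.Net

/-!
# The core graph of a ring system

Kinds of reads (`kd`): 0 plain, 1 even division (LL), 2 odd division (RU), 3 even multiplication (LU),
4 odd multiplication (RL). Blocks: `(0, ρ)` lower block and `(1, ρ)` upper block of the read `ρ`, with
vertices `0 = s`, `1 = t`, `2 = v`; `(2, l)`, `(3, l)` the blocks of the lower link `l`, `(4, l)`,
`(5, l)` those of the upper link `l`, with vertices `0 = s`, `1 = c`, `2 = q`, `3 = u`, `4 = w`,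
`5 = p`.
-/

set_option autoImplicit false

namespace Pool.Agent.H54R

namespace RS

variable (S : RS)

/-- kind of a read -/
def kd (ρ : ℕ) : ℕ :=
  if (S.op ρ).1 = 0 then 0
  else if (S.op ρ).1 = 1 then (if ρ % 2 = 0 then 1 else 2)
  else (if ρ % 2 = 0 then 3 else 4)

/-- the kinds RU and LU, which use the outer zones -/
def outer (ρ : ℕ) : Bool := decide (S.kd ρ = 2) || decide (S.kd ρ = 3)

/-- row lane of the lower block -/
def low (ρ : ℕ) : ℕ := if S.outer ρ then 2 * S.R + ρ else ρ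

/-- row lane of the upper block -/
def upr (ρ : ℕ) : ℕ := if S.outer ρ then 4 * S.R - 1 - ρ else 2 * S.R - 1 - ρ

/-- column lane of a read -/
def lane (ρ : ℕ) : ℕ :=
  if (S.op ρ).1 = 0 then 2 * S.K + ρ
  else if (S.op ρ).1 = 1 then 6 * S.K + (S.op ρ).2
  else 6 * S.K + S.m + (S.op ρ).2

/-- column lane of an upper link -/
def rlane (l : ℕ) : ℕ := 6 * S.K + S.m + S.n + l

/-- number of row lanes -/
def MM : ℕ := 4 * S.R

/-- number of column lanes -/
def NN : ℕ := 8 * S.K + S.m + S.n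

/-- the two reads of a lower link -/
def loE (l : ℕ) : ℕ := 2 * l + 1
def loF (l : ℕ) : ℕ := if l % 2 = 0 then 2 * l + 2 else 2 * l - 2

/-- the read of a lower link with the smaller row lane, and the other one -/
def loA (l : ℕ) : ℕ := if S.low (loE l) < S.low (loF l) then loE l else loF l
def loB (l : ℕ) : ℕ := if S.low (loE l) < S.low (loF l) then loF l else loE l

/-- the read of an upper link with the larger row lane, and the other one -/
def upA (l : ℕ) : ℕ := if S.upr (2 * l + 1) < S.upr (2 * l) then 2 * l else 2 * l + 1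
def upB (l : ℕ) : ℕ := if S.upr (2 * l + 1) < S.upr (2 * l) then 2 * l + 1 else 2 * l

/-- the lower link of a read -/
def lkL (ρ : ℕ) : ℕ := if ρ % 4 = 0 ∨ ρ % 4 = 3 then 2 * (ρ / 4) + 1 else 2 * (ρ / 4)

/-- the upper link of a read -/
def lkU (ρ : ℕ) : ℕ := ρ / 2

/-- the lower wire of the read has a companion -/
def hatL (ρ : ℕ) : Bool := decide (ρ = S.loA (lkL ρ))

/-- the upper wire of the read has a companion -/
def hatU (ρ : ℕ) : Bool := decide (ρ = S.upA (lkU ρ))

/-- the block in a row lane: `(0, _)` unused, `(1, ρ)` lower block, `(2, ρ)` upper block of `ρ` -/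
def role (i : ℕ) : ℕ × ℕ :=
  if i < S.R then (if S.outer i then (0, 0) else (1, i))
  else if i < 2 * S.R then
    (if S.outer (2 * S.R - 1 - i) then (0, 0) else (2, 2 * S.R - 1 - i))
  else if i < 3 * S.R then (if S.outer (i - 2 * S.R) then (1, i - 2 * S.R) else (0, 0))
  else if i < 4 * S.R then
    (if S.outer (4 * S.R - 1 - i) then (2, 4 * S.R - 1 - i) else (0, 0))
  else (0, 0)

/-- inner vertices of the row line `B_i` -/
def rB (i : ℕ) : List ((ℕ × ℕ) × ℕ) :=
  if (S.role i).1 = 1 then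
    (if S.hatL (S.role i).2 then [((2, lkL (S.role i).2), 0)]
      else [((3, lkL (S.role i).2), 1), ((0, (S.role i).2), 0)])
  else if (S.role i).1 = 2 then
    (if S.hatU (S.role i).2 then [((1, (S.role i).2), 0), ((4, lkU (S.role i).2), 4)]
      else [((1, (S.role i).2), 0), ((5, lkU (S.role i).2), 0)])
  else []

/-- inner vertices of the row line `T_i` -/
def rT (i : ℕ) : List ((ℕ × ℕ) × ℕ) :=
  if (S.role i).1 = 1 then
    (if S.hatL (S.role i).2 then [((2, lkL (S.role i).2), 4), ((0, (S.role i).2), 2)]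
      else [((3, lkL (S.role i).2), 0), ((0, (S.role i).2), 2)])
  else if (S.role i).1 = 2 then
    (if S.hatU (S.role i).2 then [((4, lkU (S.role i).2), 0)]
      else [((1, (S.role i).2), 2), ((5, lkU (S.role i).2), 1)])
  else []

/-- the companion line `C_i` -/
def rC (i : ℕ) : List Vx :=
  if (S.role i).1 = 1 ∧ S.hatL (S.role i).2 then
    [.blk (2, lkL (S.role i).2) 2, .blk (0, (S.role i).2) 0, .R (4 * i + 2)]
  else if (S.role i).1 = 2 ∧ S.hatU (S.role i).2 then
    [.L (4 * i + 2), .blk (1, (S.role i).2) 2, .blk (4, lkU (S.role i).2) 2]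
  else []

/-- the wire `W_i` -/
def rW (i : ℕ) : List Vx :=
  if (S.role i).1 = 1 then
    (if S.hatL (S.role i).2 then [.blk (2, lkL (S.role i).2) 5, .blk (0, (S.role i).2) 1]
      else [.blk (3, lkL (S.role i).2) 2, .blk (3, lkL (S.role i).2) 3,
        .blk (0, (S.role i).2) 1])
  else if (S.role i).1 = 2 then
    (if S.hatU (S.role i).2 then [.blk (1, (S.role i).2) 1, .blk (4, lkU (S.role i).2) 5]
      else [.blk (1, (S.role i).2) 1, .blk (5, lkU (S.role i).2) 3,
        .blk (5, lkU (S.role i).2) 2])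
  else []

/-- the reads of kind `k` in the column lane `j` -/
def rd (k j : ℕ) : List ℕ := (List.range S.R).filter fun ρ => S.kd ρ = k ∧ S.lane ρ = j

/-- inner vertices of the column line `Lf_j` -/
def cL (j : ℕ) : List ((ℕ × ℕ) × ℕ) :=
  if j < 2 * S.K then [((3, j), 0)]
  else if S.rlane 0 ≤ j then [((5, j - S.rlane 0), 4), ((4, j - S.rlane 0), 1)]
  else ((S.rd 4 j).map fun ρ => ((0, ρ), 0)) ++
    ((S.rd 0 j).flatMap fun ρ => [((0, ρ), 0), ((1, ρ), 0)]) ++
    ((S.rd 1 j).flatMap fun ρ => [((0, ρ), 0), ((1, ρ), 0)]) ++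
    (((S.rd 3 j).take 1).flatMap fun ρ => [((0, ρ), 0), ((1, ρ), 0)]) ++
    ((S.rd 2 j).map fun ρ => ((1, ρ), 0))

/-- inner vertices of the column line `Rt_j` -/
def cR (j : ℕ) : List ((ℕ × ℕ) × ℕ) :=
  if j < 2 * S.K then [((2, j), 1), ((3, j), 4)]
  else if S.rlane 0 ≤ j then [((5, j - S.rlane 0), 0)]
  else ((S.rd 0 j).flatMap fun ρ => [((0, ρ), 2), ((1, ρ), 2)]) ++
    ((S.rd 1 j).map fun ρ => ((0, ρ), 2)) ++
    ((S.rd 2 j).flatMap fun ρ => [((0, ρ), 2), ((1, ρ), 2)]) ++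
    (((S.rd 4 j).take 1).flatMap fun ρ => [((0, ρ), 2), ((1, ρ), 2)]) ++
    ((S.rd 3 j).reverse.map fun ρ => ((1, ρ), 2))

/-- the variable line `X_j` -/
def cX (j : ℕ) : List Vx :=
  ((S.rd 1 j).map fun ρ => .blk (1, ρ) 2) ++ ((S.rd 4 j).reverse.map fun ρ => .blk (1, ρ) 0) ++
    ((S.rd 2 j).map fun ρ => .blk (0, ρ) 0) ++ ((S.rd 3 j).map fun ρ => .blk (0, ρ) 2)

/-- the companion line `C_j` of a link lane -/
def cC (j : ℕ) : List Vx :=
  if j < 2 * S.K then [.B (4 * j + 2), .blk (2, j) 0, .blk (3, j) 2]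
  else if S.rlane 0 ≤ j then
    [.blk (5, j - S.rlane 0) 2, .blk (4, j - S.rlane 0) 0, .T (4 * j + 2)]
  else []

/-- the main line of a link lane -/
def cf (j : ℕ) : List Vx :=
  if j < 2 * S.K then [.blk (2, j) 2, .blk (2, j) 3, .blk (3, j) 5]
  else if S.rlane 0 ≤ j then
    [.blk (5, j - S.rlane 0) 5, .blk (4, j - S.rlane 0) 3, .blk (4, j - S.rlane 0) 2]
  else []

/-- the next read of the same kind in the same lane, if any -/
def nxt (ρ : ℕ) : List ℕ :=
  ((List.range S.R).filter fun σ => S.kd σ = S.kd ρ ∧ S.lane σ = S.lane ρ ∧ ρ < σ).take 1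

/-- the line `k` of a read -/
def ck (ρ : ℕ) : List Vx :=
  [.blk (0, ρ) 1] ++
    (if S.kd ρ = 3 then (S.nxt ρ).flatMap fun σ => [.blk (0, σ) 0, .blk (1, σ) 0]
      else if S.kd ρ = 4 then (S.nxt ρ).flatMap fun σ => [.blk (0, σ) 2, .blk (1, σ) 2]
      else []) ++ [.blk (1, ρ) 1]

/-- vertices of blocks as vertices of the core graph -/
def bx (l : List ((ℕ × ℕ) × ℕ)) : List Vx := l.map fun v => Vx.blk v.1 v.2

/-- light edges of the row lane `i` -/
def liRow (i : ℕ) : List (Vx × Vx) :=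
  edg (.L (4 * i + 1) :: bx (S.rB i) ++ [.R (4 * i + 1)]) ++
    edg (.L (4 * i + 3) :: bx (S.rT i) ++ [.R (4 * i + 3)]) ++ edg (S.rC i) ++ edg (S.rW i)

/-- light edges of the column lane `j` -/
def liCol (j : ℕ) : List (Vx × Vx) :=
  edg (.B (4 * j + 1) :: bx (S.cL j) ++ [.T (4 * j + 1)]) ++
    edg (.B (4 * j + 3) :: bx (S.cR j) ++ [.T (4 * j + 3)]) ++ edg (S.cC j) ++ edg (S.cf j) ++
    edg (S.cX j)

/-- light edges of a read: its line `k` and the two levers -/
def liRd (ρ : ℕ) : List (Vx × Vx) :=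
  edg (S.ck ρ) ++ [(.blk (0, ρ) 0, .blk (0, ρ) 2), (.blk (1, ρ) 0, .blk (1, ρ) 2)]

/-- levers of the blocks of the links `l` -/
def liLk (l : ℕ) : List (Vx × Vx) :=
  [2, 3, 4, 5].flatMap fun g => [(.blk (g, l) 0, .blk (g, l) 3), (.blk (g, l) 5, .blk (g, l) 1)]

/-- the light edges -/
def light : List (Vx × Vx) :=
  ((List.range (S.MM + 1)).map fun i => (.L (4 * i), .R (4 * i))) ++
    ((List.range (S.NN + 1)).map fun j => (.B (4 * j), .T (4 * j))) ++
    ((List.range S.MM).flatMap fun i => S.liRow i) ++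
    ((List.range S.NN).flatMap fun j => S.liCol j) ++
    ((List.range S.R).flatMap fun ρ => S.liRd ρ) ++ ((List.range (2 * S.K)).flatMap fun l => liLk l)

/-- heavy edges of a read -/
def hvRd (ρ : ℕ) : List (Vx × Vx) :=
  [0, 1].flatMap fun g => [(.blk (g, ρ) 0, .blk (g, ρ) 1), (.blk (g, ρ) 1, .blk (g, ρ) 2)]

/-- heavy edges of the blocks of the links `l` -/
def hvLk (l : ℕ) : List (Vx × Vx) :=
  [2, 3, 4, 5].flatMap fun g => [(.blk (g, l) 0, .blk (g, l) 5), (.blk (g, l) 5, .blk (g, l) 3),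
    (.blk (g, l) 5, .blk (g, l) 2), (.blk (g, l) 2, .blk (g, l) 1), (.blk (g, l) 0, .blk (g, l) 1),
    (.blk (g, l) 3, .blk (g, l) 4)]

/-- the boundary cycle -/
def hvBd : List (Vx × Vx) :=
  ((List.range (4 * S.MM)).map fun k => (.L k, .L (k + 1))) ++
    ((List.range (4 * S.MM)).map fun k => (.R k, .R (k + 1))) ++
    ((List.range (4 * S.NN)).map fun k => (.B k, .B (k + 1))) ++
    ((List.range (4 * S.NN)).map fun k => (.T k, .T (k + 1))) ++
    [(.L (4 * S.MM), .T 0), (.T (4 * S.NN), .R (4 * S.MM)), (.R 0, .B (4 * S.NN)), (.B 0, .L 0)]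

/-- the hubs -/
def hvHub : List (Vx × Vx) :=
  ((List.range (4 * S.MM + 1)).map fun k => (.hub 0, .L k)) ++
    ((List.range (4 * S.MM + 1)).map fun k => (.hub 1, .R k)) ++
    ((List.range (4 * S.NN + 1)).map fun k => (.hub 2, .T k)) ++
    ((List.range (4 * S.NN + 1)).map fun k => (.hub 3, .B k)) ++
    [(.hub 4, .hub 0), (.hub 4, .hub 1), (.hub 4, .hub 2), (.hub 4, .hub 3)]

/-- the heavy edges -/
def heavy : List (Vx × Vx) :=
  ((List.range S.R).flatMap fun ρ => hvRd ρ) ++ ((List.range (2 * S.K)).flatMap fun l => hvLk l) ++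
    S.hvBd ++ S.hvHub

/-- row lane of a block -/
def brow (b : ℕ × ℕ) : ℕ :=
  if b.1 = 0 then S.low b.2 else if b.1 = 1 then S.upr b.2 else if b.1 = 2 then S.low (S.loA b.2)
  else if b.1 = 3 then S.low (S.loB b.2) else if b.1 = 4 then S.upr (S.upA b.2)
  else S.upr (S.upB b.2)

/-- column lane of a block -/
def bcol (b : ℕ × ℕ) : ℕ :=
  if b.1 = 0 ∨ b.1 = 1 then S.lane b.2 else if b.1 = 2 ∨ b.1 = 3 then b.2 else S.rlane b.2

/-- the full vertex of a block -/
def bF (b : ℕ × ℕ) : ℕ :=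
  if b.1 = 0 then (if S.kd b.2 = 2 then 2 else 0)
  else if b.1 = 1 then (if S.kd b.2 = 1 then 0 else 2) else 0

/-- the vertices of the blocks -/
def binB (b : ℕ × ℕ) (c : ℕ) : Prop :=
  (b.1 ≤ 1 ∧ b.2 < S.R ∧ c < 3) ∨ (2 ≤ b.1 ∧ b.1 ≤ 5 ∧ b.2 < 2 * S.K ∧ c < 6)

/-- inner vertices of the complete column lines -/
def bci (k : ℕ) : List ((ℕ × ℕ) × ℕ) :=
  if k % 4 = 1 then S.cL (k / 4) else if k % 4 = 3 then S.cR (k / 4) else []

/-- inner vertices of the complete row lines -/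
def bri (k : ℕ) : List ((ℕ × ℕ) × ℕ) :=
  if k % 4 = 1 then S.rB (k / 4) else if k % 4 = 3 then S.rT (k / 4) else []

end RS

end Pool.Agent.H54R
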