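import Pool.Agent.Lib.H54R.MDefs

/-! # Chunk M1: values of the terms and formulas -/

set_option autoImplicit false

namespace Pool.Agent.H54R

open Pool.Agent.PolyTime Pool.Agent.MinRank

variable (y : ℕ → ℝ)

/-- M1 (S). `rfl` / `simp [Term.eval]; ring`. -/
theorem eval_tSub (s t : Term) : (tSub s t).eval y = s.eval y - t.eval y := by
  simp only [tSub, Term.eval]
  push_cast
  ring

theorem eval_tOri (u v w : ℕ) :
    (tOri u v w).eval y = oriR (ptOf y u) (ptOf y v) (ptOf y w) := by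
  simp only [tOri, eval_tSub, Term.eval, tX, tY, oriR, ptOf]

theorem eval_tDot (u v w : ℕ) :
    (tDot u v w).eval y = dotR (ptOf y u) (ptOf y v) (ptOf y w) := by
  simp only [tDot, eval_tSub, Term.eval, tX, tY, dotR, ptOf]

theorem holds_fTrue : fTrue.Holds y := by
  simp only [fTrue, Formula.Holds]

theorem holds_fEqPt (u v : ℕ) : (fEqPt u v).Holds y ↔ ptOf y u = ptOf y v := by
  simp only [fEqPt, Formula.Holds, Term.eval, tX, tY, ptOf, Prod.mk.injEq]

theorem holds_fSeg (u v w : ℕ) : (fSeg u v w).Holds y ↔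
    oriR (ptOf y u) (ptOf y v) (ptOf y w) = 0 ∧ dotR (ptOf y u) (ptOf y v) (ptOf y w) ≤ 0 := by
  simp only [fSeg, Formula.Holds, eval_tOri, eval_tDot, Term.eval, Int.cast_zero, not_lt]

theorem holds_fCross (u v w z : ℕ) : (fCross u v w z).Holds y ↔
    PCross (ptOf y u) (ptOf y v) (ptOf y w) (ptOf y z) := by
  simp only [fCross, fNeg, Formula.Holds, eval_tOri, Term.eval, Int.cast_zero, PCross]

theorem holds_fRAC (u v w z : ℕ) : (fRAC u v w z).Holds y ↔
    (PCross (ptOf y u) (ptOf y v) (ptOf y w) (ptOf y z) →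
      (Hor (ptOf y u) (ptOf y v) ∧ Ver (ptOf y w) (ptOf y z)) ∨
        (Ver (ptOf y u) (ptOf y v) ∧ Hor (ptOf y w) (ptOf y z))) := by
  simp only [fRAC, Formula.Holds, holds_fCross, Term.eval, tX, tY, Hor, Ver]
  simp only [ptOf]
  tauto

/-- M1 (S). Induction. -/
theorem holds_conj (l : List Formula) : (conj l).Holds y ↔ ∀ φ ∈ l, φ.Holds y := by
  induction l with
  | nil => simp [conj, holds_fTrue]
  | cons φ l ih => simp [conj, Formula.Holds, ih]

end Pool.Agent.H54R
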