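import Pool.Agent.Lib.H54R.MDefs

/-! # Chunk M2: segments by orientation and scalar product -/

set_option autoImplicit false

namespace Pool.Agent.H54R

/-- M2 (S/M). `c` is in the closed segment `a b` iff the orientation is zero and the scalar product of
`a - c` and `b - c` is not positive. PROOF. `segment_eq_image` or `mem_segment_iff..`: if
`c = a + t (b - a)`, `0 ≤ t ≤ 1`, then the orientation is `0` and the scalar product is
`- t (1 - t) |b - a|^2`. Conversely if `a = b` then the scalar product is `|a - c|^2 ≤ 0`, so `c = a`.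
If `a ≠ b` let `L = |b - a|^2 > 0`, `t = ((c - a)·(b - a)) / L`. Orientation zero gives
`c = a + t (b - a)` (in coordinates: `L (c - a) = ((c - a)·(b - a)) (b - a)`), and
`- t (1 - t) L ≤ 0` gives `0 ≤ t ≤ 1`. -/
theorem mem_segment_iff_ori (a b c : ℝ × ℝ) :
    c ∈ segment ℝ a b ↔ oriR a b c = 0 ∧ dotR a b c ≤ 0 := by
  obtain ⟨a1, a2⟩ := a
  obtain ⟨b1, b2⟩ := b
  obtain ⟨c1, c2⟩ := c
  constructor
  · rintro ⟨α, β, hα, hβ, hαβ, h⟩
    have h1 : α * a1 + β * b1 = c1 := by simpa using congrArg Prod.fst h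
    have h2 : α * a2 + β * b2 = c2 := by simpa using congrArg Prod.snd h
    have hα' : α = 1 - β := by linarith
    subst hα'
    subst h1 h2
    refine ⟨?_, ?_⟩
    · simp only [oriR]
      ring
    · simp only [dotR]
      have h3 : (a1 - ((1 - β) * a1 + β * b1)) * (b1 - ((1 - β) * a1 + β * b1)) +
          (a2 - ((1 - β) * a2 + β * b2)) * (b2 - ((1 - β) * a2 + β * b2)) =
          -(β * (1 - β) * ((b1 - a1) ^ 2 + (b2 - a2) ^ 2)) := by ring
      rw [h3]
      have : 0 ≤ β * (1 - β) * ((b1 - a1) ^ 2 + (b2 - a2) ^ 2) := by positivity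
      linarith
  · rintro ⟨h1, h2⟩
    simp only [oriR, dotR] at h1 h2
    by_cases hL : (b1 - a1) ^ 2 + (b2 - a2) ^ 2 = 0
    · have hb1 : b1 = a1 := by nlinarith [sq_nonneg (b1 - a1), sq_nonneg (b2 - a2)]
      have hb2 : b2 = a2 := by nlinarith [sq_nonneg (b1 - a1), sq_nonneg (b2 - a2)]
      subst hb1 hb2
      have hc1 : c1 = b1 := by nlinarith [sq_nonneg (b1 - c1), sq_nonneg (b2 - c2)]
      have hc2 : c2 = b2 := by nlinarith [sq_nonneg (b1 - c1), sq_nonneg (b2 - c2)]
      subst hc1 hc2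
      exact left_mem_segment ℝ _ _
    · have hLpos : 0 < (b1 - a1) ^ 2 + (b2 - a2) ^ 2 := lt_of_le_of_ne (by positivity) (Ne.symm hL)
      obtain ⟨t, ht⟩ : ∃ t, t * ((b1 - a1) ^ 2 + (b2 - a2) ^ 2) = (c1 - a1) * (b1 - a1) + (c2 - a2) * (b2 - a2) :=
        ⟨((c1 - a1) * (b1 - a1) + (c2 - a2) * (b2 - a2)) / ((b1 - a1) ^ 2 + (b2 - a2) ^ 2), div_mul_cancel₀ _ hL⟩
      have e1 : c1 - a1 = t * (b1 - a1) := by
        apply mul_right_cancel₀ hL
        linear_combination (-(b2 - a2)) * h1 - (b1 - a1) * ht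
      have e2 : c2 - a2 = t * (b2 - a2) := by
        apply mul_right_cancel₀ hL
        linear_combination (b1 - a1) * h1 - (b2 - a2) * ht
      have hc1 : c1 = a1 + t * (b1 - a1) := by linarith
      have hc2 : c2 = a2 + t * (b2 - a2) := by linarith
      have h3 : -(t * (1 - t)) * ((b1 - a1) ^ 2 + (b2 - a2) ^ 2) ≤ 0 := by
        rw [hc1, hc2] at h2
        nlinarith [h2]
      have h4 : 0 ≤ t * (1 - t) := by
        by_contra hneg
        push Not at hneg
        nlinarith
      have ht0 : 0 ≤ t := by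
        by_contra hneg
        push Not at hneg
        nlinarith
      have ht1 : t ≤ 1 := by
        by_contra hneg
        push Not at hneg
        nlinarith
      refine ⟨1 - t, t, by linarith, ht0, by ring, ?_⟩
      ext
      · simp [hc1]; ring
      · simp [hc2]; ring

/-- M2 (S/M). Proper crossing gives a common interior point. PROOF. With `A = oriR a b c`,
`B = oriR a b d` of opposite signs put `t = A / (A - B)` in `(0, 1)` and `z = c + t (d - c)`, so
`oriR a b z = (1 - t) A + t B = 0`. With `C = oriR c d a`, `D = oriR c d b`, `s = C / (C - D)`, and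
`A - B = - (C - D)` up to sign (both are the determinant of `b - a` and `d - c`), `z = a + s (b - a)`:
check both coordinates by `field_simp; ring`. -/
theorem cross_of_pCross {a b c d : ℝ × ℝ} (h : PCross a b c d) : Cross a b c d := by
  obtain ⟨a1, a2⟩ := a
  obtain ⟨b1, b2⟩ := b
  obtain ⟨c1, c2⟩ := c
  obtain ⟨d1, d2⟩ := d
  obtain ⟨h1, h2⟩ := h
  obtain ⟨A, hA⟩ : ∃ A, A = oriR (a1, a2) (b1, b2) (c1, c2) := ⟨_, rfl⟩
  obtain ⟨B, hB⟩ : ∃ B, B = oriR (a1, a2) (b1, b2) (d1, d2) := ⟨_, rfl⟩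
  obtain ⟨C, hC⟩ : ∃ C, C = oriR (c1, c2) (d1, d2) (a1, a2) := ⟨_, rfl⟩
  obtain ⟨D, hD⟩ : ∃ D, D = oriR (c1, c2) (d1, d2) (b1, b2) := ⟨_, rfl⟩
  rw [← hA, ← hB] at h1
  rw [← hC, ← hD] at h2
  have key : ∀ A B : ℝ, A * B < 0 → A - B ≠ 0 ∧ 0 < A / (A - B) ∧ A / (A - B) < 1 := by
    intro A B h
    have hne : A - B ≠ 0 := by
      intro h0
      have : A = B := by linarith
      subst this
      nlinarith [mul_self_nonneg A]
    rcases lt_or_ge 0 A with hp | hp
    · have hB : B < 0 := by nlinarith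
      refine ⟨hne, div_pos hp (by linarith), (div_lt_one (by linarith)).2 (by linarith)⟩
    · have hA : A < 0 := lt_of_le_of_ne hp (by rintro rfl; simp at h)
      have hB : 0 < B := by nlinarith
      refine ⟨hne, div_pos_of_neg_of_neg hA (by linarith), ?_⟩
      rw [div_lt_one_of_neg (by linarith)]
      linarith
  obtain ⟨n1, t0, t1⟩ := key A B h1
  obtain ⟨n2, s0, s1⟩ := key C D h2
  have hAB : A - B = -(C - D) := by
    rw [hA, hB, hC, hD]
    simp only [oriR]
    ring
  refine ⟨(a1 + C / (C - D) * (b1 - a1), a2 + C / (C - D) * (b2 - a2)), ?_, ?_⟩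
  · refine ⟨1 - C / (C - D), C / (C - D), by linarith, s0, by ring, ?_⟩
    ext
    · simp; ring
    · simp; ring
  · refine ⟨1 - A / (A - B), A / (A - B), by linarith, t0, by ring, ?_⟩
    have e1 : (A - B) * (c1 - a1) + A * (d1 - c1) + C * (b1 - a1) = 0 := by
      rw [hA, hB, hC]
      simp only [oriR]
      ring
    have e2 : (A - B) * (c2 - a2) + A * (d2 - c2) + C * (b2 - a2) = 0 := by
      rw [hA, hB, hC]
      simp only [oriR]
      ring
    have hCD : C / (C - D) = -(C / (A - B)) := by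
      rw [hAB, div_neg, neg_neg]
    rw [hCD]
    have f1 : ∀ c a d b : ℝ, (A - B) * (c - a) + A * (d - c) + C * (b - a) = 0 →
        (1 - A / (A - B)) * c + A / (A - B) * d = a + -(C / (A - B)) * (b - a) := by
      intro c a d b h
      have h4 : (1 - A / (A - B)) * c + A / (A - B) * d - (a + -(C / (A - B)) * (b - a)) =
          ((A - B) * (c - a) + A * (d - c) + C * (b - a)) / (A - B) := by
        field_simp
        ring
      rw [h, zero_div] at h4
      linarith
    ext
    · simpa using f1 c1 a1 d1 b1 e1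
    · simpa using f1 c2 a2 d2 b2 e2

end Pool.Agent.H54R
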