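import Pool.Agent.Lib.H54R.MDefs

/-! # Chunk M3: a crossing is proper or an end of one segment is inside the other one -/

set_option autoImplicit false

namespace Pool.Agent.H54R

/-- M3 (S/M). Collinear case in coordinates of the line: with `γ ≠ δ`, if the open intervals `(0,1)` and
`(γ, δ)` (or `(δ, γ)`) meet and `{γ, δ} ≠ {0, 1}`, then `γ` or `δ` is in `(0,1)` or `0` or `1` is strictly
between `γ` and `δ`. -/
theorem interval_case {γ δ s : ℝ} (hγδ : γ ≠ δ) (hs0 : 0 < s) (hs1 : s < 1)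
    (hs : (γ < s ∧ s < δ) ∨ (δ < s ∧ s < γ)) (h1 : ¬ (γ = 0 ∧ δ = 1)) (h2 : ¬ (γ = 1 ∧ δ = 0)) :
    (0 < γ ∧ γ < 1) ∨ (0 < δ ∧ δ < 1) ∨ ((γ < 0 ∧ 0 < δ) ∨ (δ < 0 ∧ 0 < γ)) ∨
      ((γ < 1 ∧ 1 < δ) ∨ (δ < 1 ∧ 1 < γ)) := by
  by_contra hcon
  push Not at hcon
  obtain ⟨c1, c2, ⟨c3, c4⟩, c5, c6⟩ := hcon
  rcases hs with ⟨h3, h4⟩ | ⟨h3, h4⟩
  · have h5 : 1 ≤ δ := c2 (by linarith)
    have h6 : γ ≤ 0 := by
      by_contra h; push Not at h
      linarith [c1 h]
    have h7 : 0 ≤ γ := by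
      by_contra h; push Not at h
      linarith [c3 h]
    have h8 : δ ≤ 1 := c5 (by linarith)
    exact h1 ⟨by linarith, by linarith⟩
  · have h5 : 1 ≤ γ := c1 (by linarith)
    have h6 : δ ≤ 0 := by
      by_contra h; push Not at h
      linarith [c2 h]
    have h7 : 0 ≤ δ := by
      by_contra h; push Not at h
      linarith [c4 h]
    have h8 : γ ≤ 1 := c6 (by linarith)
    exact h2 ⟨by linarith, by linarith⟩

theorem m3_line {a b c : ℝ × ℝ} (hab : a ≠ b) (h : oriR a b c = 0) :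
    ∃ t, c.1 = a.1 + t * (b.1 - a.1) ∧ c.2 = a.2 + t * (b.2 - a.2) := by
  have hL : (b.1 - a.1) ^ 2 + (b.2 - a.2) ^ 2 ≠ 0 := by
    intro h0
    apply hab
    ext
    · nlinarith [sq_nonneg (b.1 - a.1), sq_nonneg (b.2 - a.2)]
    · nlinarith [sq_nonneg (b.1 - a.1), sq_nonneg (b.2 - a.2)]
  simp only [oriR] at h
  obtain ⟨t, ht⟩ : ∃ t, t * ((b.1 - a.1) ^ 2 + (b.2 - a.2) ^ 2) = (c.1 - a.1) * (b.1 - a.1) + (c.2 - a.2) * (b.2 - a.2) :=
    ⟨((c.1 - a.1) * (b.1 - a.1) + (c.2 - a.2) * (b.2 - a.2)) / ((b.1 - a.1) ^ 2 + (b.2 - a.2) ^ 2), div_mul_cancel₀ _ hL⟩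
  refine ⟨t, ?_, ?_⟩
  · have e1 : c.1 - a.1 = t * (b.1 - a.1) := by
      apply mul_right_cancel₀ hL
      linear_combination (-(b.2 - a.2)) * h - (b.1 - a.1) * ht
    linarith
  · have e2 : c.2 - a.2 = t * (b.2 - a.2) := by
      apply mul_right_cancel₀ hL
      linear_combination (b.1 - a.1) * h - (b.2 - a.2) * ht
    linarith

theorem m3_sign {A B t : ℝ} (h0 : 0 < t) (h1 : t < 1) (h : (1 - t) * A + t * B = 0) : A * B < 0 ∨ (A = 0 ∧ B = 0) := by
  rcases eq_or_ne A 0 with hA | hA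
  · right
    refine ⟨hA, ?_⟩
    rw [hA, mul_zero, zero_add] at h
    rcases mul_eq_zero.mp h with h | h
    · linarith
    · exact h
  · left
    have h2 : 0 < A ^ 2 := by positivity
    have h3 : t * (A * B) = -((1 - t) * A ^ 2) := by linear_combination A * h
    have h4 : 0 < (1 - t) * A ^ 2 := mul_pos (by linarith) h2
    by_contra hcon
    push Not at hcon
    nlinarith

theorem m3_mem {a b z : ℝ × ℝ} {t : ℝ} (h0 : 0 < t) (h1 : t < 1) (e1 : z.1 = a.1 + t * (b.1 - a.1))
    (e2 : z.2 = a.2 + t * (b.2 - a.2)) : z ∈ openSegment ℝ a b := by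
  refine ⟨1 - t, t, by linarith, h0, by ring, ?_⟩
  ext
  · simp only [Prod.fst_add, Prod.smul_fst, smul_eq_mul]
    rw [e1]; ring
  · simp only [Prod.snd_add, Prod.smul_snd, smul_eq_mul]
    rw [e2]; ring

theorem m3_of {a b z : ℝ × ℝ} (h : z ∈ openSegment ℝ a b) : ∃ t, 0 < t ∧ t < 1 ∧ z.1 = a.1 + t * (b.1 - a.1) ∧
    z.2 = a.2 + t * (b.2 - a.2) := by
  obtain ⟨α, β, hα, hβ, hαβ, rfl⟩ := h
  have hα' : α = 1 - β := by linarith
  subst hα'
  refine ⟨β, hβ, by linarith, ?_, ?_⟩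
  · simp only [Prod.fst_add, Prod.smul_fst, smul_eq_mul]; ring
  · simp only [Prod.snd_add, Prod.smul_snd, smul_eq_mul]; ring

theorem m3_between {γ δ r : ℝ} (hγδ : γ ≠ δ) (h : (γ < r ∧ r < δ) ∨ (δ < r ∧ r < γ)) :
    ∃ t, 0 < t ∧ t < 1 ∧ γ + t * (δ - γ) = r := by
  have hne : δ - γ ≠ 0 := sub_ne_zero.mpr hγδ.symm
  refine ⟨(r - γ) / (δ - γ), ?_, ?_, ?_⟩
  · rcases h with ⟨h1, h2⟩ | ⟨h1, h2⟩
    · exact div_pos (by linarith) (by linarith)
    · exact div_pos_of_neg_of_neg (by linarith) (by linarith)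
  · rcases h with ⟨h1, h2⟩ | ⟨h1, h2⟩
    · rw [div_lt_one (by linarith)]; linarith
    · rw [div_lt_one_of_neg (by linarith)]; linarith
  · rw [div_mul_cancel₀ _ hne]; ring

/-- M3 (M). Let the open segments `a b` and `c d` (`a ≠ b`, `c ≠ d`) have a common point, and let the
segments be different as pairs of ends. Then they cross properly or an end of one of them is in the
open segment of the other one.

PROOF. `z = a + s (b - a) = c + t (d - c)`, `0 < s, t < 1` (`openSegment_eq_image` or the definition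
`∃ α β, 0 < α, 0 < β, α + β = 1, α • a + β • b = z`). Let `A = oriR a b c`, `B = oriR a b d`:
`(1 - t) A + t B = oriR a b z = 0`, so `A B < 0` or `A = B = 0`. Similarly
`(1 - s) C + s D = 0` with `C = oriR c d a`, `D = oriR c d b`.
If `A = B = 0`: `c` and `d` are on the line `a b`: `c = a + γ (b - a)`, `d = a + δ (b - a)` with
`γ = ((c - a)·(b - a)) / |b - a|^2`; `γ ≠ δ` because `c ≠ d`; `s = γ + t (δ - γ)`; the hypothesis on
ends excludes `(γ, δ) = (0, 1), (1, 0)`; `interval_case`: if `0 < γ < 1` then `c ∈ openSegment a b`,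
.. ; if `0` is strictly between `γ` and `δ` then `a = c + ((0 - γ) / (δ - γ)) (d - c)` is in
`openSegment c d`, similarly for `1` and `b`.
If `A B < 0` and `C = D = 0`: then `a`, `b` are on the line `c d`, so (`C = D = 0` and `c ≠ d`)
`A = B = 0` as well, contradiction: `A - B = ± (C - D)`, so `A = B`, against `A B < 0`. -/
theorem cross_cases {a b c d : ℝ × ℝ} (hab : a ≠ b) (hcd : c ≠ d) (h1 : ¬ (a = c ∧ b = d))
    (h2 : ¬ (a = d ∧ b = c)) (h : Cross a b c d) :
    PCross a b c d ∨ c ∈ openSegment ℝ a b ∨ d ∈ openSegment ℝ a b ∨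
      a ∈ openSegment ℝ c d ∨ b ∈ openSegment ℝ c d := by
  obtain ⟨z, hz1, hz2⟩ := h
  obtain ⟨s, s0, s1, zs1, zs2⟩ := m3_of hz1
  obtain ⟨t, t0, t1, zt1, zt2⟩ := m3_of hz2
  have hAB : (1 - t) * oriR a b c + t * oriR a b d = 0 := by
    have e : (1 - t) * oriR a b c + t * oriR a b d = oriR a b z := by
      simp only [oriR]
      rw [zt1, zt2]
      ring
    rw [e]
    simp only [oriR]
    rw [zs1, zs2]
    ring
  have hCD : (1 - s) * oriR c d a + s * oriR c d b = 0 := by
    have e : (1 - s) * oriR c d a + s * oriR c d b = oriR c d z := by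
      simp only [oriR]
      rw [zs1, zs2]
      ring
    rw [e]
    simp only [oriR]
    rw [zt1, zt2]
    ring
  rcases m3_sign t0 t1 hAB with h3 | ⟨hA, hB⟩
  · rcases m3_sign s0 s1 hCD with h4 | ⟨hC, hD⟩
    · exact Or.inl ⟨h3, h4⟩
    · exfalso
      have h5 : oriR a b c - oriR a b d = -(oriR c d a - oriR c d b) := by
        simp only [oriR]
        ring
      rw [hC, hD] at h5
      have h6 : oriR a b c = oriR a b d := by linarith
      rw [h6] at h3
      nlinarith [mul_self_nonneg (oriR a b d)]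
  · right
    obtain ⟨γ, g1, g2⟩ := m3_line hab hA
    obtain ⟨δ, d1, d2⟩ := m3_line hab hB
    have hγδ : γ ≠ δ := by
      intro h
      apply hcd
      ext
      · rw [g1, d1, h]
      · rw [g2, d2, h]
    have hs : s = γ + t * (δ - γ) := by
      have e1 : (s - (γ + t * (δ - γ))) * (b.1 - a.1) = 0 := by
        rw [g1, d1] at zt1
        linear_combination zt1 - zs1
      have e2 : (s - (γ + t * (δ - γ))) * (b.2 - a.2) = 0 := by
        rw [g2, d2] at zt2
        linear_combination zt2 - zs2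
      by_contra hne
      have hne' : s - (γ + t * (δ - γ)) ≠ 0 := sub_ne_zero.mpr hne
      apply hab
      ext
      · have := (mul_eq_zero.mp e1).resolve_left hne'
        linarith
      · have := (mul_eq_zero.mp e2).resolve_left hne'
        linarith
    have hbt : (γ < s ∧ s < δ) ∨ (δ < s ∧ s < γ) := by
      rcases lt_or_gt_of_ne hγδ with h | h
      · left
        constructor
        · nlinarith
        · nlinarith
      · right
        constructor
        · nlinarith
        · nlinarith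
    have hn1 : ¬ (γ = 0 ∧ δ = 1) := by
      rintro ⟨rfl, rfl⟩
      apply h1
      constructor
      · ext
        · rw [g1]; ring
        · rw [g2]; ring
      · ext
        · rw [d1]; ring
        · rw [d2]; ring
    have hn2 : ¬ (γ = 1 ∧ δ = 0) := by
      rintro ⟨rfl, rfl⟩
      apply h2
      constructor
      · ext
        · rw [d1]; ring
        · rw [d2]; ring
      · ext
        · rw [g1]; ring
        · rw [g2]; ring
    rcases interval_case hγδ s0 s1 hbt hn1 hn2 with h | h | h | h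
    · exact Or.inl (m3_mem h.1 h.2 g1 g2)
    · exact Or.inr (Or.inl (m3_mem h.1 h.2 d1 d2))
    · obtain ⟨r, r0, r1, er⟩ := m3_between (r := 0) hγδ h
      refine Or.inr (Or.inr (Or.inl (m3_mem r0 r1 ?_ ?_)))
      · rw [g1, d1]
        linear_combination (-(b.1 - a.1)) * er
      · rw [g2, d2]
        linear_combination (-(b.2 - a.2)) * er
    · obtain ⟨r, r0, r1, er⟩ := m3_between (r := 1) hγδ h
      refine Or.inr (Or.inr (Or.inr (m3_mem r0 r1 ?_ ?_)))
      · rw [g1, d1]
        linear_combination (-(b.1 - a.1)) * er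
      · rw [g2, d2]
        linear_combination (-(b.2 - a.2)) * er

end Pool.Agent.H54R
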