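import Pool.Agent.Lib.H54R.M2
import Pool.Agent.Lib.H54R.M3

/-! # Chunk M4: right angle crossings by proper crossings -/

set_option autoImplicit false

namespace Pool.Agent.H54R

/-- M4 (M). PROOF. Left to right: `cross_of_pCross`. Right to left: given two different edges which
cross; their ends are different points (`p` is injective, `G.irrefl`), and the pairs of ends are
different as well (`s(u, v) ≠ s(w, z)`: `Sym2.eq_iff`, injectivity). By `cross_cases` they cross
properly, or an end of one edge is in the open segment of the other one: then it is different from the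
two ends of this edge (a point of `openSegment ℝ a b`, `a ≠ b`, is not `a` or `b`:
`left_mem_openSegment_iff`, `right_mem_openSegment_iff`) and in the closed segment
(`openSegment_subset_segment`), against `IsDrawing`. -/
theorem isApRAC_iff (G : Gr) (p : Fin G.n → ℝ × ℝ) : IsApRAC G p ↔ IsDrawing G p ∧
    ∀ u v w z, G.adj u v = true → G.adj w z = true → s(u, v) ≠ s(w, z) →
      PCross (p u) (p v) (p w) (p z) →
      (Hor (p u) (p v) ∧ Ver (p w) (p z)) ∨ (Ver (p u) (p v) ∧ Hor (p w) (p z)) := by
  unfold IsApRAC
  constructor
  · rintro ⟨hD, h⟩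
    exact ⟨hD, fun u v w z huv hwz hne hP => h u v w z huv hwz hne (cross_of_pCross hP)⟩
  · rintro ⟨hD, h⟩
    refine ⟨hD, fun u v w z huv hwz hne hC => h u v w z huv hwz hne ?_⟩
    obtain ⟨hinj, hseg⟩ := hD
    have huv' : u ≠ v := by
      rintro rfl
      rw [G.irrefl] at huv
      cases huv
    have hwz' : w ≠ z := by
      rintro rfl
      rw [G.irrefl] at hwz
      cases hwz
    have hab : p u ≠ p v := fun e => huv' (hinj e)
    have hcd : p w ≠ p z := fun e => hwz' (hinj e)
    have h1 : ¬ (p u = p w ∧ p v = p z) := by
      rintro ⟨e1, e2⟩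
      exact hne (by rw [hinj e1, hinj e2])
    have h2 : ¬ (p u = p z ∧ p v = p w) := by
      rintro ⟨e1, e2⟩
      exact hne (by rw [hinj e1, hinj e2, Sym2.eq_swap])
    have key : ∀ a b c : Fin G.n, G.adj a b = true → a ≠ b → p c ∉ openSegment ℝ (p a) (p b) := by
      intro a b c hadj hne' hmem
      have hpab : p a ≠ p b := fun e => hne' (hinj e)
      refine hseg a b c hadj ?_ ?_ (openSegment_subset_segment ℝ _ _ hmem)
      · rintro rfl
        exact hpab ((left_mem_openSegment_iff).1 hmem)
      · rintro rfl
        exact hpab ((right_mem_openSegment_iff).1 hmem)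
    rcases cross_cases hab hcd h1 h2 hC with h' | h' | h' | h' | h'
    · exact h'
    · exact absurd h' (key u v w huv huv')
    · exact absurd h' (key u v z huv huv')
    · exact absurd h' (key w z u hwz hwz')
    · exact absurd h' (key w z v hwz hwz')

end Pool.Agent.H54R
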