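import Pool.Agent.Lib.H54R.M1
import Pool.Agent.Lib.H54R.M4

/-! # Chunk M5: the formula of a graph is correct -/

set_option autoImplicit false

namespace Pool.Agent.H54R

open Pool.Agent.PolyTime Pool.Agent.MinRank

/-- M5 (S). -/
theorem length_rows (G : Gr) : G.rows.length = G.n := by
  simp [Gr.rows]

theorem adjR_rows (G : Gr) (u v : Fin G.n) : adjR G.rows u v = G.adj u v := by
  simp [adjR, Gr.rows, List.getD_eq_getElem?_getD]

/-- M5 (M). PROOF. `holds_conj`, `List.mem_append`, `List.mem_map`, `List.mem_product`,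
`List.mem_range`; the numbers `< n` are the values of `Fin G.n`; `holds_fTrue`, `holds_fEqPt`,
`holds_fSeg` with `mem_segment_iff_ori`, `holds_fRAC`; `samePr` decides `s(u, v) = s(w, z)`
(`Sym2.eq_iff`); `isApRAC_iff`. -/
theorem holds_fml (G : Gr) (y : ℕ → ℝ) :
    (fml G).Holds y ↔ IsApRAC G fun i => ptOf y i := by
  rw [isApRAC_iff]
  unfold fml fmlA
  rw [holds_conj]
  simp only [List.mem_append, or_imp, forall_and]
  have hn : G.rows.length = G.n := length_rows G
  have e2 : (∀ φ ∈ fs2 G.rows, φ.Holds y) ↔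
      Function.Injective (fun i : Fin G.n => ptOf y i) := by
    unfold fs2
    constructor
    · intro h i j hij
      by_contra hne
      have h1 := h _ (List.mem_map.2 ⟨((i : ℕ), (j : ℕ)), by
        simp [List.mem_product, hn, i.2, j.2], rfl⟩)
      have hne' : (i : ℕ) ≠ (j : ℕ) := fun e => hne (Fin.ext e)
      simp only [hne', if_false, Formula.Holds, holds_fEqPt] at h1
      exact h1 hij
    · intro h φ hφ
      obtain ⟨⟨a, b⟩, hq, rfl⟩ := List.mem_map.1 hφ
      simp only [List.mem_product, List.mem_range, hn] at hq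
      by_cases hab : a = b
      · simp only [hab, if_true]
        exact holds_fTrue y
      · simp only [hab, if_false, Formula.Holds, holds_fEqPt]
        intro e
        exact hab (congrArg Fin.val (@h ⟨a, hq.1⟩ ⟨b, hq.2⟩ e))
  have e3 : (∀ φ ∈ fs3 G.rows, φ.Holds y) ↔
      (∀ u v w : Fin G.n, G.adj u v = true → w ≠ u → w ≠ v →
        ptOf y w ∉ segment ℝ (ptOf y u) (ptOf y v)) := by
    unfold fs3
    constructor
    · intro h u v w huv hwu hwv
      have h1 := h _ (List.mem_map.2 ⟨(((u : ℕ), (v : ℕ)), (w : ℕ)), by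
        simp [List.mem_product, hn, u.2, v.2, w.2], rfl⟩)
      have hwu' : (w : ℕ) ≠ (u : ℕ) := fun e => hwu (Fin.ext e)
      have hwv' : (w : ℕ) ≠ (v : ℕ) := fun e => hwv (Fin.ext e)
      simp only [adjR_rows, huv, hwu', hwv', decide_false, Bool.not_false, Bool.and_self,
        cond_true, Formula.Holds, holds_fSeg] at h1
      rwa [mem_segment_iff_ori]
    · intro h φ hφ
      obtain ⟨⟨⟨a, b⟩, c⟩, hq, rfl⟩ := List.mem_map.1 hφ
      simp only [List.mem_product, List.mem_range, hn] at hq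
      obtain ⟨⟨ha, hb⟩, hc⟩ := hq
      have h2 := adjR_rows G ⟨a, ha⟩ ⟨b, hb⟩
      simp only at h2
      simp only [h2]
      cases hadj : G.adj ⟨a, ha⟩ ⟨b, hb⟩ with
      | false => simpa using holds_fTrue y
      | true =>
        by_cases hca : c = a
        · simpa [hca] using holds_fTrue y
        · by_cases hcb : c = b
          · simpa [hcb] using holds_fTrue y
          · simp only [hca, hcb, decide_false, Bool.not_false, Bool.and_self, cond_true,
              Formula.Holds, holds_fSeg]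
            have h3 := h ⟨a, ha⟩ ⟨b, hb⟩ ⟨c, hc⟩ hadj (by simpa using hca) (by simpa using hcb)
            rwa [mem_segment_iff_ori] at h3
  have e4 : (∀ φ ∈ fs4 G.rows, φ.Holds y) ↔
      (∀ u v w z : Fin G.n, G.adj u v = true → G.adj w z = true → s(u, v) ≠ s(w, z) →
        PCross (ptOf y u) (ptOf y v) (ptOf y w) (ptOf y z) →
        (Hor (ptOf y u) (ptOf y v) ∧ Ver (ptOf y w) (ptOf y z)) ∨
          (Ver (ptOf y u) (ptOf y v) ∧ Hor (ptOf y w) (ptOf y z))) := by
    have hs : ∀ u v w z : Fin G.n, samePr u v w z = true ↔ s(u, v) = s(w, z) := by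
      intro u v w z
      simp [samePr, Sym2.eq_iff, Fin.ext_iff]
    unfold fs4
    constructor
    · intro h u v w z huv hwz hne
      have h1 := h _ (List.mem_map.2 ⟨(((u : ℕ), (v : ℕ)), ((w : ℕ), (z : ℕ))), by
        simp [List.mem_product, hn, u.2, v.2, w.2, z.2], rfl⟩)
      have hs' : samePr u v w z = false := by
        rw [← Bool.not_eq_true, hs]
        exact hne
      simp only [adjR_rows, huv, hwz, hs', Bool.not_false, Bool.and_self, cond_true,
        holds_fRAC] at h1
      exact h1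
    · intro h φ hφ
      obtain ⟨⟨⟨a, b⟩, ⟨c, d⟩⟩, hq, rfl⟩ := List.mem_map.1 hφ
      simp only [List.mem_product, List.mem_range, hn] at hq
      obtain ⟨⟨ha, hb⟩, ⟨hc, hd⟩⟩ := hq
      have h2 := adjR_rows G ⟨a, ha⟩ ⟨b, hb⟩
      have h3 := adjR_rows G ⟨c, hc⟩ ⟨d, hd⟩
      have h4 := hs ⟨a, ha⟩ ⟨b, hb⟩ ⟨c, hc⟩ ⟨d, hd⟩
      simp only at h2 h3 h4
      simp only [h2, h3]
      cases hadj : G.adj ⟨a, ha⟩ ⟨b, hb⟩ with
      | false => simpa using holds_fTrue y
      | true =>
        cases hadj2 : G.adj ⟨c, hc⟩ ⟨d, hd⟩ with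
        | false => simpa using holds_fTrue y
        | true =>
          cases hsp : samePr a b c d with
          | true => simpa using holds_fTrue y
          | false =>
            simp only [Bool.not_false, Bool.and_self, cond_true, holds_fRAC]
            refine h ⟨a, ha⟩ ⟨b, hb⟩ ⟨c, hc⟩ ⟨d, hd⟩ hadj hadj2 ?_
            intro e
            rw [h4.2 e] at hsp
            cases hsp
  rw [e2, e3, e4]
  unfold IsDrawing
  tauto

/-- M5 (S). Given a drawing `p` take `y (2 i) = (p i).1`, `y (2 i + 1) = (p i).2` for `i < n`, else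
`0` (`y j = if h : j / 2 < G.n then (if j % 2 = 0 then (p ⟨j / 2, h⟩).1 else (p ⟨j / 2, h⟩).2)
else 0`). -/
theorem mem_APRAC_iff (G : Gr) : G ∈ APRAC ↔ fml G ∈ ETR := by
  unfold APRAC ETR
  simp only [Set.mem_setOf_eq]
  constructor
  · rintro ⟨p, hp⟩
    refine ⟨fun j => if h : j / 2 < G.n then (if j % 2 = 0 then (p ⟨j / 2, h⟩).1
      else (p ⟨j / 2, h⟩).2) else 0, ?_⟩
    rw [holds_fml]
    convert hp using 2 with i
    unfold ptOf
    have h1 : 2 * (i : ℕ) / 2 = i := by omega
    have h2 : (2 * (i : ℕ) + 1) / 2 = i := by omega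
    have h3 : 2 * (i : ℕ) % 2 = 0 := by omega
    have h4 : ¬ (2 * (i : ℕ) + 1) % 2 = 0 := by omega
    simp only [h1, h2, h3, h4, i.2, dif_pos, if_true, if_false, Fin.eta, Prod.mk.eta]
  · rintro ⟨y, hy⟩
    exact ⟨_, (holds_fml G y).1 hy⟩

end Pool.Agent.H54R
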