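import Pool.Agent.Lib.H54R.MDefs

/-! # Chunk M6: the formula of a graph in polynomial time -/

set_option autoImplicit false

namespace Pool.Agent.H54R

open Pool.Agent.PolyTime Pool.Agent.MinRank

variable {α β : Type} [Enc α] [Enc β]

/-- a term is encoded by its reverse Polish form -/
instance : Enc Term := ⟨fun t => enc t.rpn⟩

/-- M6 (S). `PT` of the constructors: the reverse Polish form is a concatenation; `PT f` for
`f : α → Term` unfolds to `PT fun a => (f a).rpn` (same encoding). -/
@[fun_prop] theorem PT_tvar {f : α → ℕ} (hf : PT f) : PT fun a => Term.var (f a) := by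
  have h1 : PT fun a => Token.var (f a) := by
    have h2 : PT fun a => (Sum.inl (f a) : ℕ ⊕ ℤ ⊕ ℕ) := by fun_prop
    exact h2
  have h3 : PT fun a => [Token.var (f a)] := by fun_prop
  exact h3

@[fun_prop] theorem PT_tadd {s t : α → Term} (hs : PT s) (ht : PT t) :
    PT fun a => Term.add (s a) (t a) := by
  have h1 : PT fun a => (s a).rpn := hs
  have h2 : PT fun a => (t a).rpn := ht
  have h3 : PT fun a => (s a).rpn ++ (t a).rpn ++ [Token.add] := by fun_prop
  exact h3

@[fun_prop] theorem PT_tmul {s t : α → Term} (hs : PT s) (ht : PT t) :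
    PT fun a => Term.mul (s a) (t a) := by
  have h1 : PT fun a => (s a).rpn := hs
  have h2 : PT fun a => (t a).rpn := ht
  have h3 : PT fun a => (s a).rpn ++ (t a).rpn ++ [Token.mul] := by fun_prop
  exact h3

@[fun_prop] theorem PT_feq {s t : α → Term} (hs : PT s) (ht : PT t) :
    PT fun a => Formula.eq (s a) (t a) := by
  have h1 : PT fun a => (s a).rpn := hs
  have h2 : PT fun a => (t a).rpn := ht
  have h3 : PT fun a => (s a).rpn ++ (t a).rpn ++ [Token.eq] := by fun_prop
  exact h3

@[fun_prop] theorem PT_flt {s t : α → Term} (hs : PT s) (ht : PT t) :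
    PT fun a => Formula.lt (s a) (t a) := by
  have h1 : PT fun a => (s a).rpn := hs
  have h2 : PT fun a => (t a).rpn := ht
  have h3 : PT fun a => (s a).rpn ++ (t a).rpn ++ [Token.lt] := by fun_prop
  exact h3

@[fun_prop] theorem PT_fnot {φ : α → Formula} (hφ : PT φ) : PT fun a => Formula.not (φ a) := by
  have h1 : PT fun a => (φ a).rpn := hφ
  have h3 : PT fun a => (φ a).rpn ++ [Token.not] := by fun_prop
  exact h3

@[fun_prop] theorem PT_fand {φ ψ : α → Formula} (hφ : PT φ) (hψ : PT ψ) :
    PT fun a => Formula.and (φ a) (ψ a) := by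
  have h1 : PT fun a => (φ a).rpn := hφ
  have h2 : PT fun a => (ψ a).rpn := hψ
  have h3 : PT fun a => (φ a).rpn ++ (ψ a).rpn ++ [Token.and] := by fun_prop
  exact h3

@[fun_prop] theorem PT_for {φ ψ : α → Formula} (hφ : PT φ) (hψ : PT ψ) :
    PT fun a => Formula.or (φ a) (ψ a) := by
  have h1 : PT fun a => (φ a).rpn := hφ
  have h2 : PT fun a => (ψ a).rpn := hψ
  have h3 : PT fun a => (φ a).rpn ++ (ψ a).rpn ++ [Token.or] := by fun_prop
  exact h3

/-- M6 (S). Unfold; all by `fun_prop`. -/
theorem PT_fEqPt {u v : α → ℕ} (hu : PT u) (hv : PT v) : PT fun a => fEqPt (u a) (v a) := by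
  unfold fEqPt tX tY
  fun_prop

theorem PT_fSeg {u v w : α → ℕ} (hu : PT u) (hv : PT v) (hw : PT w) :
    PT fun a => fSeg (u a) (v a) (w a) := by
  unfold fSeg tOri tDot tSub tX tY
  fun_prop

theorem PT_fRAC {u v w z : α → ℕ} (hu : PT u) (hv : PT v) (hw : PT w) (hz : PT z) :
    PT fun a => fRAC (u a) (v a) (w a) (z a) := by
  unfold fRAC fCross fNeg tOri tSub tX tY
  fun_prop

/-- M6 (S/M). The reverse Polish form of `conj l` is
`(l.flatMap rpn) ++ fTrue.rpn ++ replicate l.length Token.and` (induction); `PT.flatMap`,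
`PT.replicateLength`, `PT.append`. -/
theorem PT_conj {l : α → List Formula} (hl : PT l) : PT fun a => conj (l a) := by
  have e : ∀ l : List Formula, (conj l).rpn =
      (l.flatMap fun φ => φ.rpn) ++ (fTrue.rpn ++ List.replicate l.length Token.and) := by
    intro l
    induction l with
    | nil => simp [conj]
    | cons φ l ih =>
      simp only [conj, Formula.rpn, ih, List.flatMap_cons, List.length_cons, List.append_assoc,
        List.replicate_succ']
  have h1 : PT fun a => ((l a).flatMap fun φ => φ.rpn) :=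
    PT.flatMap (f := fun (_ : α) (φ : Formula) => φ.rpn) (by
      have h2 : PT (Prod.snd : α × Formula → Formula) := PT.snd'
      exact h2) hl
  have h3 : PT fun a => ((l a).flatMap fun φ => φ.rpn) ++
      (fTrue.rpn ++ List.replicate (l a).length Token.and) := by fun_prop
  have h4 : PT fun a => (conj (l a)).rpn := h3.congr fun a => (e (l a)).symm
  exact h4

end Pool.Agent.H54R
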