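import Pool.Agent.Lib.H54R.M5
import Pool.Agent.Lib.H54R.M6
import Pool.Agent.Lib.PolyTime.Final

/-! # Chunk M7: the problem is in the class -/

set_option autoImplicit false

namespace Pool.Agent.H54R

open Pool.Agent.PolyTime Pool.Agent.MinRank

variable {α β : Type} [Enc α] [Enc β]

/-- M7 (S). A graph is encoded by its rows. -/
theorem PT_rows {G : α → Gr} (hG : PT G) : PT fun a => (G a).rows := by
  exact hG

@[fun_prop] theorem PT_adjR {A : α → List (List Bool)} {u v : α → ℕ} (hA : PT A) (hu : PT u)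
    (hv : PT v) : PT fun a => adjR (A a) (u a) (v a) := by
  unfold adjR
  fun_prop

/-- M7 (S/M). `PT.map`, `PT.product`, `PT.rangeLength`, `PT.ite` / `PT.bif`. -/
theorem PT_fs2 {A : α → List (List Bool)} (hA : PT A) : PT fun a => fs2 (A a) := by
  unfold fs2
  have hr := PT.rangeLength hA
  refine PT.map (f := fun (_ : α) (q : ℕ × ℕ) => if q.1 = q.2 then fTrue else .not (fEqPt q.1 q.2))
    ?_ (PT.product hr hr)
  refine PT.ite (p := fun q : α × ℕ × ℕ => q.2.1 = q.2.2) (by fun_prop) (by fun_prop) ?_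
  exact PT_fnot (PT_fEqPt (by fun_prop) (by fun_prop))

theorem PT_fs3 {A : α → List (List Bool)} (hA : PT A) : PT fun a => fs3 (A a) := by
  unfold fs3
  have hr := PT.rangeLength hA
  refine PT.map (f := fun (a : α) (q : (ℕ × ℕ) × ℕ) =>
    bif adjR (A a) q.1.1 q.1.2 && (!decide (q.2 = q.1.1) && !decide (q.2 = q.1.2)) then
      .not (fSeg q.1.1 q.1.2 q.2) else fTrue)
    ?_ (PT.product (PT.product hr hr) hr)
  have hA' : PT fun p : α × (ℕ × ℕ) × ℕ => A p.1 := hA.comp PT.fst'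
  refine PT.bif (by fun_prop) ?_ (by fun_prop)
  exact PT_fnot (PT_fSeg (by fun_prop) (by fun_prop) (by fun_prop))

theorem PT_fs4 {A : α → List (List Bool)} (hA : PT A) : PT fun a => fs4 (A a) := by
  unfold fs4
  have hr := PT.rangeLength hA
  refine PT.map (f := fun (a : α) (q : (ℕ × ℕ) × (ℕ × ℕ)) =>
    bif adjR (A a) q.1.1 q.1.2 && (adjR (A a) q.2.1 q.2.2 && !samePr q.1.1 q.1.2 q.2.1 q.2.2) then
      fRAC q.1.1 q.1.2 q.2.1 q.2.2 else fTrue)
    ?_ (PT.product (PT.product hr hr) (PT.product hr hr))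
  have hA' : PT fun p : α × (ℕ × ℕ) × (ℕ × ℕ) => A p.1 := hA.comp PT.fst'
  refine PT.bif ?_ ?_ (by fun_prop)
  · unfold samePr
    fun_prop
  · exact PT_fRAC (by fun_prop) (by fun_prop) (by fun_prop) (by fun_prop)

theorem PT_fml {G : α → Gr} (hG : PT G) : PT fun a => fml (G a) := by
  unfold fml fmlA
  have h := PT_rows hG
  exact PT_conj (PT.append (PT_fs2 h) (PT.append (PT_fs3 h) (PT_fs4 h)))

/-- M7 (S). `mem_APRAC_iff` and `PT.tm (PT_fml PT.id)`. -/
theorem inER_APRAC : InER (bitString (α := Gr)) APRAC := by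
  exact ⟨fml, PT.tm (PT_fml PT.id), mem_APRAC_iff⟩

end Pool.Agent.H54R
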