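import Pool.Agent.Lib.H54R.Defs
import Pool.Agent.Lib.PolyTime.Subsets

/-!
# Membership: the formula of a graph (PAPER.md, Part 7)

The coordinates of the vertex `i` are the variables `2 * i` and `2 * i + 1`.
-/

set_option autoImplicit false

namespace Pool.Agent.H54R

open Pool.Agent.PolyTime Pool.Agent.MinRank

/-- first coordinate of the vertex `i` -/
def tX (i : ℕ) : Term := .var (2 * i)

/-- second coordinate of the vertex `i` -/
def tY (i : ℕ) : Term := .var (2 * i + 1)

/-- difference of two terms -/
def tSub (s t : Term) : Term := .add s (.mul (.const (-1)) t)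

/-- orientation of the vertices `u`, `v`, `w` -/
def tOri (u v w : ℕ) : Term :=
  tSub (.mul (tSub (tX v) (tX u)) (tSub (tY w) (tY u)))
    (.mul (tSub (tY v) (tY u)) (tSub (tX w) (tX u)))

/-- scalar product of `u - w` and `v - w` -/
def tDot (u v w : ℕ) : Term :=
  .add (.mul (tSub (tX u) (tX w)) (tSub (tX v) (tX w)))
    (.mul (tSub (tY u) (tY w)) (tSub (tY v) (tY w)))

/-- a true formula -/
def fTrue : Formula := .eq (.const 0) (.const 0)

/-- the term is negative -/
def fNeg (t : Term) : Formula := .lt t (.const 0)

/-- the vertices `u`, `v` have the same position -/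
def fEqPt (u v : ℕ) : Formula := .and (.eq (tX u) (tX v)) (.eq (tY u) (tY v))

/-- the vertex `w` is in the closed segment `u v` -/
def fSeg (u v w : ℕ) : Formula :=
  .and (.eq (tOri u v w) (.const 0)) (.not (.lt (.const 0) (tDot u v w)))

/-- the segments `u v` and `w z` cross properly -/
def fCross (u v w z : ℕ) : Formula :=
  .and (fNeg (.mul (tOri u v w) (tOri u v z))) (fNeg (.mul (tOri w z u) (tOri w z v)))

/-- if the segments cross properly, one is horizontal and the other one is vertical -/
def fRAC (u v w z : ℕ) : Formula :=
  .or (.not (fCross u v w z))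
    (.or (.and (.eq (tY u) (tY v)) (.eq (tX w) (tX z)))
      (.and (.eq (tX u) (tX v)) (.eq (tY w) (tY z))))

/-- conjunction of a list of formulas -/
def conj : List Formula → Formula
  | [] => fTrue
  | φ :: l => .and φ (conj l)

/-- entry of a matrix given by its rows -/
def adjR (A : List (List Bool)) (u v : ℕ) : Bool := (A.getD u []).getD v false

/-- formulas saying that different vertices have different positions -/
def fs2 (A : List (List Bool)) : List Formula :=
  (List.range A.length ×ˢ List.range A.length).map fun q =>
    if q.1 = q.2 then fTrue else .not (fEqPt q.1 q.2)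

/-- formulas saying that there is no vertex on an edge except for its ends -/
def fs3 (A : List (List Bool)) : List Formula :=
  ((List.range A.length ×ˢ List.range A.length) ×ˢ List.range A.length).map fun q =>
    bif adjR A q.1.1 q.1.2 && (!decide (q.2 = q.1.1) && !decide (q.2 = q.1.2)) then
      .not (fSeg q.1.1 q.1.2 q.2) else fTrue

/-- are the pairs `u v` and `w z` equal as sets? -/
def samePr (u v w z : ℕ) : Bool :=
  (decide (u = w) && decide (v = z)) || (decide (u = z) && decide (v = w))

/-- formulas for the crossings -/
def fs4 (A : List (List Bool)) : List Formula :=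
  ((List.range A.length ×ˢ List.range A.length) ×ˢ
    (List.range A.length ×ˢ List.range A.length)).map fun q =>
    bif adjR A q.1.1 q.1.2 && (adjR A q.2.1 q.2.2 && !samePr q.1.1 q.1.2 q.2.1 q.2.2) then
      fRAC q.1.1 q.1.2 q.2.1 q.2.2 else fTrue

/-- the formula of a matrix -/
def fmlA (A : List (List Bool)) : Formula := conj (fs2 A ++ (fs3 A ++ fs4 A))

/-- the formula of a graph -/
def fml (G : Gr) : Formula := fmlA G.rows

/-- the point with the number `i` of an assignment -/
def ptOf (y : ℕ → ℝ) (i : ℕ) : ℝ × ℝ := (y (2 * i), y (2 * i + 1))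

/-- orientation of three points -/
def oriR (a b c : ℝ × ℝ) : ℝ := (b.1 - a.1) * (c.2 - a.2) - (b.2 - a.2) * (c.1 - a.1)

/-- scalar product of `a - c` and `b - c` -/
def dotR (a b c : ℝ × ℝ) : ℝ := (a.1 - c.1) * (b.1 - c.1) + (a.2 - c.2) * (b.2 - c.2)

/-- proper crossing -/
def PCross (a b c d : ℝ × ℝ) : Prop :=
  oriR a b c * oriR a b d < 0 ∧ oriR c d a * oriR c d b < 0

end Pool.Agent.H54R
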