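import Pool.Agent.Lib.H54R.NDefs

/-! # Chunk N1: the blocks of a formula -/

set_option autoImplicit false

namespace Pool.Agent.H54R

open Pool.Agent.PolyTime Pool.Agent.MinRank

/-- the three forms of blocks -/
def IsForm (B : Block) : Prop :=
  (∃ a b c, B = bAdd a b c) ∨ (∃ a b c, B = bMul a b c) ∨ ∃ a c, B = bConst a c

theorem n1_fa (a b c : ℕ) : IsForm (bAdd a b c) := Or.inl ⟨a, b, c, rfl⟩

theorem n1_fm (a b c : ℕ) : IsForm (bMul a b c) := Or.inr (Or.inl ⟨a, b, c, rfl⟩)

theorem n1_fc (a : ℕ) (c : ℤ) : IsForm (bConst a c) := Or.inr (Or.inr ⟨a, c, rfl⟩)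

theorem n1_bin (op : Op) (hop : ∀ k a b, ∀ B ∈ (op k a b).2, IsForm B) (s : State)
    (hs : ∀ B ∈ s.2.2, IsForm B) : ∀ B ∈ (bin op s).2.2, IsForm B := by
  obtain ⟨k, st, L⟩ := s
  rcases st with _ | ⟨b, _ | ⟨a, st⟩⟩
  · exact hs
  · exact hs
  · intro B hB
    rcases List.mem_append.1 hB with h | h
    · exact hop _ _ _ _ h
    · exact hs _ h

theorem n1_neg (s : State) (hs : ∀ B ∈ s.2.2, IsForm B) : ∀ B ∈ (neg s).2.2, IsForm B := by
  obtain ⟨k, st, L⟩ := s
  rcases st with _ | ⟨b, st⟩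
  · exact hs
  · exact hs

theorem n1_opAdd : ∀ k a b, ∀ B ∈ (opAdd k a b).2, IsForm B := by
  intro k a b B hB
  simp only [opAdd, List.mem_cons, List.not_mem_nil, or_false] at hB
  rcases hB with rfl
  exact n1_fa _ _ _

theorem n1_opMul : ∀ k a b, ∀ B ∈ (opMul k a b).2, IsForm B := by
  intro k a b B hB
  simp only [opMul, List.mem_cons, List.not_mem_nil, or_false] at hB
  rcases hB with rfl
  exact n1_fm _ _ _

theorem n1_opEq : ∀ k a b, ∀ B ∈ (opEq k a b).2, IsForm B := by
  intro k a b B hB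
  simp only [opEq, List.mem_cons, List.not_mem_nil, or_false] at hB
  rcases hB with rfl | rfl | rfl | rfl <;>
    first | exact n1_fa _ _ _ | exact n1_fm _ _ _ | exact n1_fc _ _

theorem n1_opLt : ∀ k a b, ∀ B ∈ (opLt k a b).2, IsForm B := by
  intro k a b B hB
  simp only [opLt, List.mem_cons, List.not_mem_nil, or_false] at hB
  rcases hB with rfl | rfl | rfl | rfl | rfl | rfl | rfl <;>
    first | exact n1_fa _ _ _ | exact n1_fm _ _ _ | exact n1_fc _ _

theorem n1_opAnd : ∀ k a b, ∀ B ∈ (opAnd k a b).2, IsForm B := by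
  intro k a b B hB
  simp only [opAnd, List.mem_cons, List.not_mem_nil, or_false] at hB
  rcases hB with rfl | rfl | rfl | rfl <;>
    first | exact n1_fa _ _ _ | exact n1_fm _ _ _ | exact n1_fc _ _

theorem n1_opOr : ∀ k a b, ∀ B ∈ (opOr k a b).2, IsForm B := by
  intro k a b B hB
  simp only [opOr, List.mem_cons, List.not_mem_nil, or_false] at hB
  rcases hB with rfl | rfl | rfl | rfl <;>
    first | exact n1_fa _ _ _ | exact n1_fm _ _ _ | exact n1_fc _ _

theorem n1_opStep (s : State) (hs : ∀ B ∈ s.2.2, IsForm B) (o : ℕ) :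
    ∀ B ∈ (opStep s o).2.2, IsForm B := by
  unfold opStep
  split_ifs
  · exact n1_bin _ n1_opAdd s hs
  · exact n1_bin _ n1_opMul s hs
  · exact n1_bin _ n1_opEq s hs
  · exact n1_bin _ n1_opLt s hs
  · exact n1_neg s hs
  · exact n1_bin _ n1_opAnd s hs
  · exact n1_bin _ n1_opOr s hs

/-- N1 (S). All blocks produced by one operation are of the three forms: unfold `opAdd` etc.,
`List.mem_cons`. -/
theorem form_step (s : State) (hs : ∀ B ∈ s.2.2, IsForm B) (t : ℕ ⊕ ℤ ⊕ ℕ) :
    ∀ B ∈ (step s t).2.2, IsForm B := by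
  rcases t with v | c | o
  · exact hs
  · intro B hB
    rcases List.mem_cons.1 hB with h | h
    · rw [h]
      exact n1_fc _ _
    · exact hs B h
  · exact n1_opStep s hs o

/-- N1 (S). Induction over the list of tokens (`run` is a `foldl` of `step`). -/
theorem form_run (l : List Token) (s : State) (hs : ∀ B ∈ s.2.2, IsForm B) :
    ∀ B ∈ (run l s).2.2, IsForm B := by
  unfold run
  generalize l.map Token.toSum = m
  induction m generalizing s with
  | nil => exact hs
  | cons t m ih => exact ih _ (form_step s hs t)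

/-- N1 (S). -/
theorem form_sysOf (l : List Token) : ∀ B ∈ sysOf l, IsForm B := by
  have h := form_run l (0, [], []) (by simp)
  unfold sysOf
  generalize (run l (0, [], [])) = r at h
  obtain ⟨k, st, L⟩ := r
  rcases st with _ | ⟨p, st⟩
  · simp
  · intro B hB
    rcases List.mem_cons.1 hB with h1 | h1
    · rw [h1]
      exact n1_fc p.1 0
    · exact h B h1

theorem n1_varOf (a : ℕ) : varOf (vr a) = a := by
  simp only [varOf, vr]
  omega

/-- N1 (S). `entr (bAdd a b c) 0 = cst 1`, .. are `rfl`; `varOf (vr v) = 2 * v / 2 = v`. -/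
theorem blockEqs_bAdd (k a b c : ℕ) : blockEqs k (bAdd a b c) = [(0, nmV a, nmV b, nmV c)] := by
  have h0 : entr (bAdd a b c) 0 = cst 1 := rfl
  have h1 : entr (bAdd a b c) 1 = cst 0 := rfl
  have h2 : entr (bAdd a b c) 2 = vr a := rfl
  have h5 : entr (bAdd a b c) 5 = vr b := rfl
  have h8 : entr (bAdd a b c) 8 = vr c := rfl
  simp only [blockEqs, h0, h1, h2, h5, h8, n1_varOf]
  rfl

theorem blockEqs_bMul (k a b c : ℕ) : blockEqs k (bMul a b c) = [(1, nmV a, nmV b, nmV c)] := by
  have h0 : entr (bMul a b c) 0 = cst 1 := rfl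
  have h1 : entr (bMul a b c) 1 = vr a := rfl
  have h3 : entr (bMul a b c) 3 = vr b := rfl
  have h4 : entr (bMul a b c) 4 = vr c := rfl
  simp only [blockEqs, h0, h1, h3, h4, n1_varOf]
  rfl

/-- N1 (S). `numOf (cst (c : ℚ)) = c` is `Rat.num_intCast`. -/
theorem blockEqs_bConst (k a : ℕ) (c : ℤ) :
    blockEqs k (bConst a c) = constEqs k (nmV a) c := by
  have h0 : entr (bConst a c) 0 = vr a := rfl
  have h1 : entr (bConst a c) 1 = cst (c : ℚ) := rfl
  have h2 : numOf (cst (c : ℚ)) = c := Rat.num_intCast c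
  simp only [blockEqs, h0, h1, n1_varOf, h2]
  rfl

end Pool.Agent.H54R
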