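import Pool.Agent.Lib.H54R.NDefs

/-! # Chunk N10: the rings of one constraint -/

set_option autoImplicit false

namespace Pool.Agent.H54R

lemma n10_dummy {a : ℝ} (h0 : 0 < a) (h1 : a < 1) : 1 < a⁻¹ * (1 - a)⁻¹ := by
  rw [← mul_inv, one_lt_inv₀ (by nlinarith)]
  nlinarith

lemma n10_lt_of {a y : ℝ} (h0 : 0 < a) (h : 1 < a⁻¹ * y) : a < y := by
  have := mul_lt_mul_of_pos_left h h0
  rwa [mul_one, ← mul_assoc, mul_inv_cancel₀ h0.ne', one_mul] at this

lemma n10_of_lt {a y : ℝ} (h0 : 0 < a) (h : a < y) : 1 < a⁻¹ * y := by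
  rw [inv_mul_eq_div, one_lt_div h0]; exact h

/-- the three rings, written out -/
lemma n10_iff (x w : ℕ → ℝ) (l : List (ℕ × ℕ)) : RingsHold x w l ↔
    (1 < facOp x w (l.getD 0 opP) 0 * facOp x w (l.getD 1 opP) 1 *
      facOp x w (l.getD 2 opP) 0 * facOp x w (l.getD 3 opP) 1) ∧
    (1 < facOp x w (l.getD 4 opP) 0 * facOp x w (l.getD 5 opP) 1 *
      facOp x w (l.getD 6 opP) 0 * facOp x w (l.getD 7 opP) 1) ∧
    (1 < facOp x w (l.getD 8 opP) 0 * facOp x w (l.getD 9 opP) 1 *
      facOp x w (l.getD 10 opP) 0 * facOp x w (l.getD 11 opP) 1) := by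
  constructor
  · intro h
    exact ⟨h 0 (by norm_num), h 1 (by norm_num), h 2 (by norm_num)⟩
  · rintro ⟨h0, h1, h2⟩ r hr
    interval_cases r
    · exact h0
    · exact h1
    · exact h2

lemma n10_facP (x w : ℕ → ℝ) (p : ℕ) : facOp x w opP p = 1 := by simp [facOp, opP]

lemma n10_facD0 (x w : ℕ → ℝ) (k : ℕ) : facOp x w (opD k) 0 = (w k)⁻¹ := by simp [facOp, opD]

lemma n10_facD1 (x w : ℕ → ℝ) (k : ℕ) : facOp x w (opD k) 1 = (1 - w k)⁻¹ := by
  simp [facOp, opD]

lemma n10_facM0 (x w : ℕ → ℝ) (i : ℕ) : facOp x w (2, i) 0 = x i := by simp [facOp]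

lemma n10_facM1 (x w : ℕ → ℝ) (i : ℕ) : facOp x w (2, i) 1 = 1 - x i := by
  simp [facOp]

/-- the product over the right hand side -/
lemma n10_prod (x w : ℕ → ℝ) (B : List ℕ) (hB : B.length ≤ 2) :
    facOp x w (opM B 0 opP) 0 * facOp x w (opM B 1 opP) 0 = (B.map x).prod := by
  rcases B with _ | ⟨i, _ | ⟨j, _ | ⟨k, B⟩⟩⟩
  · simp [opM, n10_facP]
  · simp [opM, n10_facP, n10_facM0]
  · simp [opM, n10_facM0]
  · simp at hB

lemma n10_prod_le_one {x : ℕ → ℝ} (hx : ∀ i, 0 < x i ∧ x i < 1) (B : List ℕ) :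
    0 < (B.map x).prod ∧ (B.map x).prod ≤ 1 := by
  induction B with
  | nil => simp
  | cons i B ih =>
    rw [List.map_cons, List.prod_cons]
    obtain ⟨h1, h2⟩ := hx i
    exact ⟨mul_pos h1 ih.1, by nlinarith [ih.1, ih.2]⟩

/-- N10 (M). PROOF. `RingsHold` at `r = 0, 1, 2`; cases of `t` (`TC.Shape`: lists of lengths
`0, 1, 2`: `match` on the lists, `simp [ringOps, opM, opI, opD, opP, facOp]`). With `a = w (2 c)`,
`b = w (2 c + 1)`: tag `0`: if `A = [i, j]`: `a⁻¹ (1 - x i) > 1` gives `1 - a > x i`, similarly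
`1 - b > x j`, and the third ring gives `prod B > (1 - a)(1 - b) > x i x j`; if `A = [i]` only `a`
matters: `prod B > 1 - a > x i`; if `A = []`: `prod B > 1`. Tag `1`: `a < 1 - x i` and `x j < a`.
Tag `2`: `1 - a < x i`, `a < x j`. -/
theorem rings_sound {n c : ℕ} {t : TC ℕ} (ht : TC.Good n t) {x w : ℕ → ℝ}
    (hx : ∀ i, 0 < x i ∧ x i < 1) (hw : ∀ k, 0 < w k ∧ w k < 1)
    (h : RingsHold x w (ringOps c t)) : t.Holds x := by
  obtain ⟨hs, -, -⟩ := ht
  obtain ⟨tag, A, B⟩ := t
  rw [n10_iff] at h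
  obtain ⟨ha0, ha1⟩ := hw (2 * c)
  obtain ⟨hb0, hb1⟩ := hw (2 * c + 1)
  rcases hs with ⟨h1, h2, h3⟩ | ⟨h1, h2⟩
  · simp only at h1 h2 h3
    subst h1
    have hp := n10_prod x w B h3
    rcases A with _ | ⟨i, _ | ⟨j, _ | ⟨k, A⟩⟩⟩
    · obtain ⟨-, -, h6⟩ := h
      have h7 : 1 < facOp x w (opM B 0 opP) 0 * 1 * facOp x w (opM B 1 opP) 0 * 1 := by
        simpa [ringOps, opI, n10_facP] using h6
      rw [mul_one, mul_one, hp] at h7
      simpa [TC.Holds] using h7
    · obtain ⟨h4, -, h6⟩ := h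
      have h7 : 1 < facOp x w (opM B 0 opP) 0 * (1 - w (2 * c))⁻¹ *
          facOp x w (opM B 1 opP) 0 * 1 := by
        simpa [ringOps, opI, n10_facP, n10_facD1] using h6
      have h8 : 1 < (w (2 * c))⁻¹ * (1 - x i) := by
        simpa [ringOps, opM, n10_facP, n10_facD0, n10_facM1] using h4
      have h9 := n10_lt_of ha0 h8
      have h10 : 1 < (1 - w (2 * c))⁻¹ * (B.map x).prod := by
        rw [← hp]
        calc (1 : ℝ) < _ := h7
          _ = _ := by ring
      have h11 := n10_lt_of (by linarith) h10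
      have : x i < (B.map x).prod := by linarith
      simpa [TC.Holds] using this
    · obtain ⟨h4, h5, h6⟩ := h
      have h7 : 1 < facOp x w (opM B 0 opP) 0 * (1 - w (2 * c))⁻¹ *
          facOp x w (opM B 1 opP) 0 * (1 - w (2 * c + 1))⁻¹ := by
        simpa [ringOps, opI, n10_facP, n10_facD1] using h6
      have h8 : 1 < (w (2 * c))⁻¹ * (1 - x i) := by
        simpa [ringOps, opM, n10_facP, n10_facD0, n10_facM1] using h4
      have h8' : 1 < (w (2 * c + 1))⁻¹ * (1 - x j) := by
        simpa [ringOps, opM, n10_facP, n10_facD0, n10_facM1] using h5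
      have h9 := n10_lt_of ha0 h8
      have h9' := n10_lt_of hb0 h8'
      have h10 : 1 < ((1 - w (2 * c)) * (1 - w (2 * c + 1)))⁻¹ * (B.map x).prod := by
        rw [← hp, mul_inv]
        calc (1 : ℝ) < _ := h7
          _ = _ := by ring
      have h11 := n10_lt_of (mul_pos (by linarith) (by linarith)) h10
      have hi := hx i
      have hj := hx j
      have : x i * x j < (B.map x).prod := by nlinarith
      simpa [TC.Holds] using this
    · simp at h2
  · simp only at h1 h2
    obtain ⟨i, j, rfl⟩ : ∃ i j, A = [i, j] := List.length_eq_two.1 h2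
    rcases h1 with rfl | rfl
    · obtain ⟨h4, h5, -⟩ := h
      have h8 : 1 < (w (2 * c))⁻¹ * (1 - x i) := by
        simpa [ringOps, opM, n10_facP, n10_facD0, n10_facM1] using h4
      have h8' : 1 < (1 - w (2 * c))⁻¹ * (1 - x j) := by
        simpa [ringOps, opM, n10_facP, n10_facD1, n10_facM1] using h5
      have h9 := n10_lt_of ha0 h8
      have h9' := n10_lt_of (by linarith) h8'
      have : x i + x j < 1 := by linarith
      simpa [TC.Holds] using this
    · obtain ⟨h4, h5, -⟩ := h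
      have h8 : 1 < (1 - w (2 * c))⁻¹ * x i := by
        have : 1 < x i * (1 - w (2 * c))⁻¹ := by
          simpa [ringOps, opM, n10_facP, n10_facD1, n10_facM0] using h4
        rwa [mul_comm] at this
      have h8' : 1 < (w (2 * c))⁻¹ * x j := by
        simpa [ringOps, opM, n10_facP, n10_facD0, n10_facM0] using h5
      have h9 := n10_lt_of (by linarith) h8
      have h9' := n10_lt_of ha0 h8'
      have : 1 < x i + x j := by linarith
      simpa [TC.Holds] using this

/-- N10 (M). PROOF. Tag `0`, `A = [i, j]`, `p = prod B > x i x j`, `p ≤ 1`: choose `s > x i`,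
`s' > x j` in `(0,1)` with `s s' < p` (if `p > x j`.. : choose `l` in `(1, ..)` with `l^2 x i x j < p`,
`l x i < 1`, `l x j < 1` and `s = l x i`, `s' = l x j`), `a = 1 - s`, `b = 1 - s'`. `A = [i]`: `s`
between `x i` and `min 1 p`, `b = 1/2`. `A = []`: `p > 1` is given, `a = b = 1/2`
(`a⁻¹ (1 - a)⁻¹ > 1`). Tag `1`: `a` between `x j` and `1 - x i`. Tag `2`: `a` between `1 - x i` and
`x j`. In the last ring of tags `1`, `2`: `b⁻¹ (1 - b)⁻¹ > 1`. -/
theorem rings_complete {n : ℕ} (c : ℕ) {t : TC ℕ} (ht : TC.Good n t) {x : ℕ → ℝ}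
    (hx : ∀ i, 0 < x i ∧ x i < 1) (h : t.Holds x) :
    ∃ a b : ℝ, (0 < a ∧ a < 1) ∧ (0 < b ∧ b < 1) ∧
      ∀ w : ℕ → ℝ, w (2 * c) = a → w (2 * c + 1) = b → RingsHold x w (ringOps c t) := by
  obtain ⟨hs, -, -⟩ := ht
  obtain ⟨tag, A, B⟩ := t
  have hd : (1 : ℝ) < (1 / 2)⁻¹ * (1 - 1 / 2)⁻¹ := n10_dummy (by norm_num) (by norm_num)
  rcases hs with ⟨h1, h2, h3⟩ | ⟨h1, h2⟩
  · simp only at h1 h2 h3
    subst h1
    obtain ⟨hp0, hp1⟩ := n10_prod_le_one hx B
    rcases A with _ | ⟨i, _ | ⟨j, _ | ⟨k, A⟩⟩⟩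
    · have : 1 < (B.map x).prod := by simpa [TC.Holds] using h
      linarith
    · have h4 : x i < (B.map x).prod := by simpa [TC.Holds] using h
      obtain ⟨s, hs1, hs2⟩ := exists_between h4
      have hi := hx i
      refine ⟨1 - s, 1 / 2, ⟨by linarith, by linarith⟩, ⟨by norm_num, by norm_num⟩,
        fun w hwa hwb => ?_⟩
      rw [n10_iff]
      have hp := n10_prod x w B h3
      refine ⟨?_, ?_, ?_⟩
      · have : 1 < (w (2 * c))⁻¹ * (1 - x i) :=
          n10_of_lt (by rw [hwa]; linarith) (by rw [hwa]; linarith)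
        simpa [ringOps, opM, n10_facP, n10_facD0, n10_facM1] using this
      · have : 1 < (w (2 * c + 1))⁻¹ * (1 - w (2 * c + 1))⁻¹ := by rw [hwb]; exact hd
        simpa [ringOps, opM, n10_facP, n10_facD0, n10_facD1] using this
      · have h7 : 1 < facOp x w (opM B 0 opP) 0 * (1 - w (2 * c))⁻¹ *
            facOp x w (opM B 1 opP) 0 * 1 := by
          have : 1 < (1 - w (2 * c))⁻¹ * (B.map x).prod :=
            n10_of_lt (by rw [hwa]; linarith) (by rw [hwa]; linarith)
          rw [← hp] at this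
          calc (1 : ℝ) < _ := this
            _ = _ := by ring
        simpa [ringOps, opI, n10_facP, n10_facD1] using h7
    · have h4 : x i * x j < (B.map x).prod := by simpa [TC.Holds] using h
      have hi := hx i
      have hj := hx j
      obtain ⟨s, hs1, hs2⟩ : ∃ s, x i < s ∧ s < min 1 ((B.map x).prod / x j) :=
        exists_between (lt_min hi.2 ((lt_div_iff₀ hj.1).2 h4))
      have hs3 : s < 1 := hs2.trans_le (min_le_left _ _)
      have hs4 : s * x j < (B.map x).prod :=
        (lt_div_iff₀ hj.1).1 (hs2.trans_le (min_le_right _ _))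
      have hs0 : 0 < s := hi.1.trans hs1
      obtain ⟨s', ht1, ht2⟩ : ∃ s', x j < s' ∧ s' < min 1 ((B.map x).prod / s) :=
        exists_between (lt_min hj.2 ((lt_div_iff₀ hs0).2 (by rwa [mul_comm])))
      have ht3 : s' < 1 := ht2.trans_le (min_le_left _ _)
      have ht4 : s' * s < (B.map x).prod :=
        (lt_div_iff₀ hs0).1 (ht2.trans_le (min_le_right _ _))
      have ht0 : 0 < s' := hj.1.trans ht1
      refine ⟨1 - s, 1 - s', ⟨by linarith, by linarith⟩, ⟨by linarith, by linarith⟩,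
        fun w hwa hwb => ?_⟩
      rw [n10_iff]
      have hp := n10_prod x w B h3
      refine ⟨?_, ?_, ?_⟩
      · have : 1 < (w (2 * c))⁻¹ * (1 - x i) :=
          n10_of_lt (by rw [hwa]; linarith) (by rw [hwa]; linarith)
        simpa [ringOps, opM, n10_facP, n10_facD0, n10_facM1] using this
      · have : 1 < (w (2 * c + 1))⁻¹ * (1 - x j) :=
          n10_of_lt (by rw [hwb]; linarith) (by rw [hwb]; linarith)
        simpa [ringOps, opM, n10_facP, n10_facD0, n10_facM1] using this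
      · have h7 : 1 < facOp x w (opM B 0 opP) 0 * (1 - w (2 * c))⁻¹ *
            facOp x w (opM B 1 opP) 0 * (1 - w (2 * c + 1))⁻¹ := by
          have : 1 < ((1 - w (2 * c)) * (1 - w (2 * c + 1)))⁻¹ * (B.map x).prod := by
            rw [hwa, hwb]
            have e1 : (1 - (1 - s)) * (1 - (1 - s')) = s' * s := by ring
            rw [e1]
            exact n10_of_lt (mul_pos ht0 hs0) ht4
          rw [← hp, mul_inv] at this
          calc (1 : ℝ) < _ := this
            _ = _ := by ring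
        simpa [ringOps, opI, n10_facP, n10_facD1] using h7
    · simp at h2
  · simp only at h1 h2
    obtain ⟨i, j, rfl⟩ : ∃ i j, A = [i, j] := List.length_eq_two.1 h2
    have hi := hx i
    have hj := hx j
    rcases h1 with rfl | rfl
    · have h4 : x i + x j < 1 := by simpa [TC.Holds] using h
      obtain ⟨a, ha1, ha2⟩ : ∃ a, x j < a ∧ a < 1 - x i := exists_between (by linarith)
      refine ⟨a, 1 / 2, ⟨by linarith, by linarith⟩, ⟨by norm_num, by norm_num⟩,
        fun w hwa hwb => ?_⟩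
      rw [n10_iff]
      refine ⟨?_, ?_, ?_⟩
      · have : 1 < (w (2 * c))⁻¹ * (1 - x i) :=
          n10_of_lt (by rw [hwa]; linarith) (by rw [hwa]; linarith)
        simpa [ringOps, opM, n10_facP, n10_facD0, n10_facM1] using this
      · have : 1 < (1 - w (2 * c))⁻¹ * (1 - x j) :=
          n10_of_lt (by rw [hwa]; linarith) (by rw [hwa]; linarith)
        simpa [ringOps, opM, n10_facP, n10_facD1, n10_facM1] using this
      · have : 1 < (w (2 * c + 1))⁻¹ * (1 - w (2 * c + 1))⁻¹ := by rw [hwb]; exact hd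
        simpa [ringOps, opM, n10_facP, n10_facD0, n10_facD1] using this
    · have h4 : 1 < x i + x j := by simpa [TC.Holds] using h
      obtain ⟨a, ha1, ha2⟩ : ∃ a, 1 - x i < a ∧ a < x j := exists_between (by linarith)
      refine ⟨a, 1 / 2, ⟨by linarith, by linarith⟩, ⟨by norm_num, by norm_num⟩,
        fun w hwa hwb => ?_⟩
      rw [n10_iff]
      refine ⟨?_, ?_, ?_⟩
      · have : 1 < x i * (1 - w (2 * c))⁻¹ := by
          rw [mul_comm]
          exact n10_of_lt (by rw [hwa]; linarith) (by rw [hwa]; linarith)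
        simpa [ringOps, opM, n10_facP, n10_facD1, n10_facM0] using this
      · have : 1 < (w (2 * c))⁻¹ * x j :=
          n10_of_lt (by rw [hwa]; linarith) (by rw [hwa]; linarith)
        simpa [ringOps, opM, n10_facP, n10_facD0, n10_facM0] using this
      · have : 1 < (w (2 * c + 1))⁻¹ * (1 - w (2 * c + 1))⁻¹ := by rw [hwb]; exact hd
        simpa [ringOps, opM, n10_facP, n10_facD0, n10_facD1] using this

end Pool.Agent.H54R
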