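import Pool.Agent.Lib.H54R.NDefs

/-! # Chunk N11: the list of reads -/

set_option autoImplicit false

namespace Pool.Agent.H54R

/-- N11 (S). -/
theorem length_ringOps (c : ℕ) (t : TC ℕ) : (ringOps c t).length = 12 := by
  unfold ringOps
  split_ifs <;> rfl

theorem length_flatMap_zipIdx {α β : Type} (L : ℕ) (f : ℕ → α → List β)
    (hf : ∀ k a, (f k a).length = L) (l : List α) (s : ℕ) :
    ((l.zipIdx s).flatMap fun p => f p.2 p.1).length = L * l.length := by
  induction l generalizing s with
  | nil => simp
  | cons b l ih =>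
    rw [List.zipIdx_cons, List.flatMap_cons, List.length_append, ih, hf, List.length_cons]
    ring

/-- N11 (S/M). General: a `flatMap` over `zipIdx` with pieces of length `L > 0`. PROOF. Induction on
`l`, generalizing the start index `s` of `zipIdx`. -/
theorem getD_flatMap_zipIdx {α β : Type} (L : ℕ) (f : ℕ → α → List β)
    (hf : ∀ k a, (f k a).length = L) (l : List α) (s c j : ℕ) (hj : j < L) (a : α)
    (hc : l[c]? = some a) (d : β) :
    ((l.zipIdx s).flatMap fun p => f p.2 p.1).getD (L * c + j) d = (f (s + c) a).getD j d := by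
  induction l generalizing s c with
  | nil => simp at hc
  | cons b l ih =>
    rw [List.zipIdx_cons, List.flatMap_cons]
    rcases c with _ | c
    · simp only [List.getElem?_cons_zero, Option.some.injEq] at hc
      subst hc
      rw [List.getD_append _ _ _ _ (by rw [hf]; omega)]
      simp
    · rw [List.getElem?_cons_succ] at hc
      have h1 := ih (s + 1) c hc
      rw [List.getD_append_right _ _ _ _ (by
        simp only [hf]
        have : L * (c + 1) = L * c + L := by ring
        omega)]
      simp only [hf]
      have e : L * (c + 1) + j - L = L * c + j := by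
        have : L * (c + 1) = L * c + L := by ring
        omega
      rw [e, h1]
      congr 2
      omega

/-- N11 (S). -/
theorem R_ringSys (n : ℕ) (C : List (TC ℕ)) : (ringSys n C).R = 12 * C.length :=
  length_flatMap_zipIdx 12 ringOps length_ringOps C 0

theorem K_ringSys (n : ℕ) (C : List (TC ℕ)) : (ringSys n C).K = 3 * C.length := by
  have h : (ringSys n C).K = (ringSys n C).R / 4 := rfl
  rw [h, R_ringSys]
  omega

/-- N11 (S). -/
theorem op_ringSys (n : ℕ) (C : List (TC ℕ)) {c j : ℕ} {t : TC ℕ} (hc : C[c]? = some t)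
    (hj : j < 12) : (ringSys n C).op (12 * c + j) = (ringOps c t).getD j opP := by
  have h := getD_flatMap_zipIdx 12 ringOps length_ringOps C 0 c j hj t hc (0, 0)
  rw [zero_add] at h
  exact h

/-- N11 (S). `RS.fac` is `facOp` of the operation: the parity of `12 c + j` is that of `j`. -/
theorem fac_ringSys (n : ℕ) (C : List (TC ℕ)) {c j : ℕ} {t : TC ℕ} (hc : C[c]? = some t)
    (hj : j < 12) (x w : ℕ → ℝ) :
    (ringSys n C).fac x w (12 * c + j) = facOp x w ((ringOps c t).getD j opP) j := by
  have e : (12 * c + j) % 2 = j % 2 := by omega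
  rw [← op_ringSys n C hc hj]
  unfold RS.fac facOp
  rw [e]

lemma n11_par (x w : ℕ → ℝ) (o : ℕ × ℕ) {p q : ℕ} (h : p % 2 = q % 2) :
    facOp x w o p = facOp x w o q := by
  unfold facOp
  rw [h]

/-- N11 (S/M). PROOF. The ring `r < 3 * C.length` is ring `r % 3` of the constraint `r / 3`:
`4 r + i = 12 (r / 3) + (4 (r % 3) + i)`; `facOp` depends only on the parity of the place. -/
theorem sol_ringSys (n : ℕ) (C : List (TC ℕ)) (x w : ℕ → ℝ) :
    (ringSys n C).Sol x w ↔ (∀ i, 0 < x i ∧ x i < 1) ∧ (∀ k, 0 < w k ∧ w k < 1) ∧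
      ∀ c t, C[c]? = some t → RingsHold x w (ringOps c t) := by
  have key : ∀ c t, C[c]? = some t → ∀ r < 3,
      (ringSys n C).fac x w (4 * (3 * c + r)) * (ringSys n C).fac x w (4 * (3 * c + r) + 1) *
        (ringSys n C).fac x w (4 * (3 * c + r) + 2) * (ringSys n C).fac x w (4 * (3 * c + r) + 3) =
      facOp x w ((ringOps c t).getD (4 * r) opP) 0 *
        facOp x w ((ringOps c t).getD (4 * r + 1) opP) 1 *
        facOp x w ((ringOps c t).getD (4 * r + 2) opP) 0 *
        facOp x w ((ringOps c t).getD (4 * r + 3) opP) 1 := by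
    intro c t ht r hr
    have e0 : 4 * (3 * c + r) = 12 * c + 4 * r := by ring
    rw [e0, add_assoc, add_assoc, add_assoc, fac_ringSys n C ht (by omega),
      fac_ringSys n C ht (by omega), fac_ringSys n C ht (by omega), fac_ringSys n C ht (by omega),
      n11_par x w _ (show 4 * r % 2 = 0 % 2 by omega),
      n11_par x w _ (show (4 * r + 1) % 2 = 1 % 2 by omega),
      n11_par x w _ (show (4 * r + 2) % 2 = 0 % 2 by omega),
      n11_par x w _ (show (4 * r + 3) % 2 = 1 % 2 by omega)]
  unfold RS.Sol
  rw [K_ringSys]
  refine and_congr_right fun _ => and_congr_right fun _ => ⟨fun h c t ht r hr => ?_,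
    fun h r hr => ?_⟩
  · have hc : c < C.length := by
      by_contra h
      rw [List.getElem?_eq_none (by omega)] at ht
      simp at ht
    rw [← key c t ht r hr]
    exact h (3 * c + r) (by omega)
  · have hc : r / 3 < C.length := by omega
    have ht : C[r / 3]? = some C[r / 3] := List.getElem?_eq_getElem hc
    have h1 := h _ _ ht (r % 3) (Nat.mod_lt _ (by norm_num))
    rw [← key _ _ ht _ (Nat.mod_lt _ (by norm_num)), Nat.div_add_mod] at h1
    exact h1

end Pool.Agent.H54R
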