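import Pool.Agent.Lib.H54R.N10
import Pool.Agent.Lib.H54R.N11

/-! # Chunk N12: the ring system of a list of constraints -/

set_option autoImplicit false

namespace Pool.Agent.H54R

/-- N12 (S/M). PROOF. Left to right: `sol_ringSys`, `rings_sound`. Right to left: choose `a c`, `b c`
by `rings_complete` for `C[c]? = some t` (`1/2` otherwise), `w k = if k % 2 = 0 then a (k / 2) else
b (k / 2)`. -/
theorem sat_ringSys {n : ℕ} {C : List (TC ℕ)} (hC : ∀ t ∈ C, TC.Good n t) :
    (ringSys n C).Sat ↔ ∃ x : ℕ → ℝ, TSol C x := by
  constructor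
  · rintro ⟨x, w, h⟩
    rw [sol_ringSys] at h
    obtain ⟨hx, hw, h⟩ := h
    refine ⟨x, hx, fun t ht => ?_⟩
    obtain ⟨c, hc⟩ := List.mem_iff_getElem?.1 ht
    exact rings_sound (hC t ht) hx hw (h c t hc)
  · rintro ⟨x, hx, h⟩
    have key : ∀ c : ℕ, ∃ a b : ℝ, (0 < a ∧ a < 1) ∧ (0 < b ∧ b < 1) ∧
        ∀ t, C[c]? = some t → ∀ w : ℕ → ℝ, w (2 * c) = a → w (2 * c + 1) = b →
          RingsHold x w (ringOps c t) := by
      intro c
      cases hc : C[c]? with
      | none =>
        exact ⟨1 / 2, 1 / 2, ⟨by norm_num, by norm_num⟩, ⟨by norm_num, by norm_num⟩,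
          fun t ht => by simp at ht⟩
      | some t =>
        have ht : t ∈ C := List.mem_iff_getElem?.2 ⟨c, hc⟩
        obtain ⟨a, b, ha, hb, hab⟩ := rings_complete c (hC t ht) hx (h t ht)
        refine ⟨a, b, ha, hb, fun t' ht' => ?_⟩
        simp only [Option.some.injEq] at ht'
        subst ht'
        exact hab
    choose a b ha hb hab using key
    refine ⟨x, fun k => if k % 2 = 0 then a (k / 2) else b (k / 2), ?_⟩
    rw [sol_ringSys]
    refine ⟨hx, fun k => ?_, fun c t hc => hab c t hc _ ?_ ?_⟩
    · split_ifs
      · exact ha _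
      · exact hb _
    · have e1 : 2 * c % 2 = 0 := by omega
      have e2 : 2 * c / 2 = c := by omega
      simp [e2]
    · have e1 : (2 * c + 1) % 2 = 1 := by omega
      have e2 : (2 * c + 1) / 2 = c := by omega
      simp [e1, e2]

/-- the operations at a place -/
lemma n12_place {n : ℕ} {C : List (TC ℕ)} {ρ : ℕ} (hρ : ρ < (ringSys n C).R) :
    ∃ c j t, ρ = 12 * c + j ∧ j < 12 ∧ C[c]? = some t ∧
      (ringSys n C).op ρ = (ringOps c t).getD j opP := by
  rw [R_ringSys] at hρ
  have hc : ρ / 12 < C.length := by omega
  refine ⟨ρ / 12, ρ % 12, C[ρ / 12], by omega, Nat.mod_lt _ (by norm_num),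
    List.getElem?_eq_getElem hc, ?_⟩
  have h := op_ringSys n C (c := ρ / 12) (j := ρ % 12) (t := C[ρ / 12])
    (List.getElem?_eq_getElem hc) (Nat.mod_lt _ (by norm_num))
  rwa [Nat.div_add_mod] at h

/-- all operations of a list are of three kinds -/
lemma n12_ops {n c : ℕ} {t : TC ℕ} (ht : TC.Good n t) {j : ℕ} (hj : j < 12) :
    (ringOps c t).getD j opP = opP ∨
      ((ringOps c t).getD j opP).1 = 1 ∧ (((ringOps c t).getD j opP).2 = 2 * c ∨
        ((ringOps c t).getD j opP).2 = 2 * c + 1) ∨
      ((ringOps c t).getD j opP).1 = 2 ∧ ((ringOps c t).getD j opP).2 < n := by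
  obtain ⟨hs, hA, hB⟩ := ht
  obtain ⟨tag, A, B⟩ := t
  simp only at hA hB
  have hM : ∀ (l : List ℕ) (i : ℕ) (d : ℕ × ℕ), (∀ v ∈ l, v < n) →
      opM l i d = d ∨ ((opM l i d).1 = 2 ∧ (opM l i d).2 < n) := by
    intro l i d hl
    unfold opM
    cases h : l[i]? with
    | none => left; rfl
    | some v => right; exact ⟨rfl, hl v (List.mem_iff_getElem?.2 ⟨i, h⟩)⟩
  have hI : ∀ (l : List ℕ) (i : ℕ) (d : ℕ × ℕ), opI l i d = opP ∨ opI l i d = d := by
    intro l i d
    unfold opI
    cases h : l[i]? with
    | none => left; rfl
    | some v => right; rfl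
  have hD : ∀ k, (opD k).1 = 1 ∧ (opD k).2 = k := fun k => ⟨rfl, rfl⟩
  have hDD : ∀ o : ℕ × ℕ, o = opD (2 * c) ∨ o = opD (2 * c + 1) → (o = opP ∨
      o.1 = 1 ∧ (o.2 = 2 * c ∨ o.2 = 2 * c + 1) ∨ o.1 = 2 ∧ o.2 < n) := by
    rintro o (rfl | rfl)
    · right; left; exact ⟨rfl, Or.inl rfl⟩
    · right; left; exact ⟨rfl, Or.inr rfl⟩
  have hMd : ∀ (l : List ℕ) (i : ℕ) (d : ℕ × ℕ), (∀ v ∈ l, v < n) →
      (d = opP ∨ d = opD (2 * c) ∨ d = opD (2 * c + 1)) → (opM l i d = opP ∨
      (opM l i d).1 = 1 ∧ ((opM l i d).2 = 2 * c ∨ (opM l i d).2 = 2 * c + 1) ∨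
        (opM l i d).1 = 2 ∧ (opM l i d).2 < n) := by
    intro l i d hl hd
    rcases hM l i d hl with h | h
    · rw [h]
      rcases hd with hd | hd
      · left; exact hd
      · exact hDD d hd
    · right; right; exact h
  have hId : ∀ (l : List ℕ) (i : ℕ) (d : ℕ × ℕ),
      (d = opD (2 * c) ∨ d = opD (2 * c + 1)) → (opI l i d = opP ∨
      (opI l i d).1 = 1 ∧ ((opI l i d).2 = 2 * c ∨ (opI l i d).2 = 2 * c + 1) ∨
        (opI l i d).1 = 2 ∧ (opI l i d).2 < n) := by
    intro l i d hd
    rcases hI l i d with h | h
    · left; exact h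
    · rw [h]; exact hDD d hd
  have e1 : opD (2 * c) = opD (2 * c) ∨ opD (2 * c) = opD (2 * c + 1) := Or.inl rfl
  have e2 : opD (2 * c + 1) = opD (2 * c) ∨ opD (2 * c + 1) = opD (2 * c + 1) := Or.inr rfl
  by_cases h0 : tag = 0
  · subst h0
    have e : ringOps c ((0, A, B) : TC ℕ) =
      [opD (2 * c), opM A 0 (opD (2 * c)), opP, opP,
      opD (2 * c + 1), opM A 1 (opD (2 * c + 1)), opP, opP,
      opM B 0 opP, opI A 0 (opD (2 * c)), opM B 1 opP, opI A 1 (opD (2 * c + 1))] := rfl
    rw [e]
    interval_cases j
    · exact hDD _ e1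
    · exact hMd A 0 _ hA (Or.inr e1)
    · left; rfl
    · left; rfl
    · exact hDD _ e2
    · exact hMd A 1 _ hA (Or.inr e2)
    · left; rfl
    · left; rfl
    · exact hMd B 0 _ hB (Or.inl rfl)
    · exact hId A 0 _ e1
    · exact hMd B 1 _ hB (Or.inl rfl)
    · exact hId A 1 _ e2
  · by_cases h1 : tag = 1
    · subst h1
      have e : ringOps c ((1, A, B) : TC ℕ) =
        [opD (2 * c), opM A 0 opP, opP, opP,
        opP, opD (2 * c), opP, opM A 1 opP,
        opD (2 * c + 1), opD (2 * c + 1), opP, opP] := rfl
      rw [e]
      interval_cases j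
      · exact hDD _ e1
      · exact hMd A 0 _ hA (Or.inl rfl)
      · left; rfl
      · left; rfl
      · left; rfl
      · exact hDD _ e1
      · left; rfl
      · exact hMd A 1 _ hA (Or.inl rfl)
      · exact hDD _ e2
      · exact hDD _ e2
      · left; rfl
      · left; rfl
    · have e : ringOps c ((tag, A, B) : TC ℕ) =
        [opM A 0 opP, opD (2 * c), opP, opP,
        opD (2 * c), opP, opM A 1 opP, opP,
        opD (2 * c + 1), opD (2 * c + 1), opP, opP] := by
        unfold ringOps
        rw [if_neg h0, if_neg h1]
      rw [e]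
      interval_cases j
      · exact hMd A 0 _ hA (Or.inl rfl)
      · exact hDD _ e1
      · left; rfl
      · left; rfl
      · exact hDD _ e1
      · left; rfl
      · exact hMd A 1 _ hA (Or.inl rfl)
      · left; rfl
      · exact hDD _ e2
      · exact hDD _ e2
      · left; rfl
      · left; rfl

lemma n12_opM_ne (l : List ℕ) (i k : ℕ) : opM l i opP ≠ (1, k) := by
  unfold opM opP
  cases l[i]? <;> simp

/-- the places of the two fresh variables in a list -/
lemma n12_fresh {n c : ℕ} {t : TC ℕ} (ht : TC.Good n t) (i p : ℕ) (hi : i < 2) (hp : p < 2) :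
    ∃! j, j < 12 ∧ j % 2 = p ∧ (ringOps c t).getD j opP = (1, 2 * c + i) := by
  obtain ⟨hs, -, -⟩ := ht
  obtain ⟨tag, A, B⟩ := t
  have hu : ∀ (l : List (ℕ × ℕ)) (j0 : ℕ), j0 < 12 → j0 % 2 = p →
      l.getD j0 opP = (1, 2 * c + i) →
      (∀ j < 12, j % 2 = p → l.getD j opP = (1, 2 * c + i) → j = j0) →
      ∃! j, j < 12 ∧ j % 2 = p ∧ l.getD j opP = (1, 2 * c + i) := by
    intro l j0 h1 h2 h3 h4
    exact ⟨j0, ⟨h1, h2, h3⟩, fun j hj => h4 j hj.1 hj.2.1 hj.2.2⟩
  have q0 : ∀ k, opP ≠ (1, k) := fun k => by simp [opP]
  have q1 : ∀ k l i, opM l i opP ≠ (1, k) := fun k l i => n12_opM_ne l i k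
  have q2 : opD (2 * c) ≠ (1, 2 * c + 1) := by simp [opD]
  have q3 : opD (2 * c + 1) ≠ (1, 2 * c + 0) := by simp [opD]
  have q4 : ∀ v k, ((2, v) : ℕ × ℕ) ≠ (1, k) := fun v k => by simp
  rcases hs with ⟨h1, h2, h3⟩ | ⟨h1, h2⟩
  · simp only at h1 h2 h3
    subst h1
    rcases A with _ | ⟨a, _ | ⟨b, _ | ⟨k, A⟩⟩⟩
    · have e : ringOps c ((0, [], B) : TC ℕ) =
        [opD (2 * c), opD (2 * c), opP, opP,
        opD (2 * c + 1), opD (2 * c + 1), opP, opP,
        opM B 0 opP, opP, opM B 1 opP, opP] := rfl
      rw [e]
      interval_cases i <;> interval_cases p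
      · refine hu _ 0 (by norm_num) rfl rfl fun j hj hp hj' => ?_
        interval_cases j <;>
          first
          | rfl
          | omega
          | exact absurd hj' (q0 _)
          | exact absurd hj' (q1 _ _ _)
          | exact absurd hj' (q4 _ _)
          | exact absurd hj' q2
          | exact absurd hj' q3
      · refine hu _ 1 (by norm_num) rfl rfl fun j hj hp hj' => ?_
        interval_cases j <;>
          first
          | rfl
          | omega
          | exact absurd hj' (q0 _)
          | exact absurd hj' (q1 _ _ _)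
          | exact absurd hj' (q4 _ _)
          | exact absurd hj' q2
          | exact absurd hj' q3
      · refine hu _ 4 (by norm_num) rfl rfl fun j hj hp hj' => ?_
        interval_cases j <;>
          first
          | rfl
          | omega
          | exact absurd hj' (q0 _)
          | exact absurd hj' (q1 _ _ _)
          | exact absurd hj' (q4 _ _)
          | exact absurd hj' q2
          | exact absurd hj' q3
      · refine hu _ 5 (by norm_num) rfl rfl fun j hj hp hj' => ?_
        interval_cases j <;>
          first
          | rfl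
          | omega
          | exact absurd hj' (q0 _)
          | exact absurd hj' (q1 _ _ _)
          | exact absurd hj' (q4 _ _)
          | exact absurd hj' q2
          | exact absurd hj' q3
    · have e : ringOps c ((0, [a], B) : TC ℕ) =
        [opD (2 * c), (2, a), opP, opP,
        opD (2 * c + 1), opD (2 * c + 1), opP, opP,
        opM B 0 opP, opD (2 * c), opM B 1 opP, opP] := rfl
      rw [e]
      interval_cases i <;> interval_cases p
      · refine hu _ 0 (by norm_num) rfl rfl fun j hj hp hj' => ?_
        interval_cases j <;>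
          first
          | rfl
          | omega
          | exact absurd hj' (q0 _)
          | exact absurd hj' (q1 _ _ _)
          | exact absurd hj' (q4 _ _)
          | exact absurd hj' q2
          | exact absurd hj' q3
      · refine hu _ 9 (by norm_num) rfl rfl fun j hj hp hj' => ?_
        interval_cases j <;>
          first
          | rfl
          | omega
          | exact absurd hj' (q0 _)
          | exact absurd hj' (q1 _ _ _)
          | exact absurd hj' (q4 _ _)
          | exact absurd hj' q2
          | exact absurd hj' q3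
      · refine hu _ 4 (by norm_num) rfl rfl fun j hj hp hj' => ?_
        interval_cases j <;>
          first
          | rfl
          | omega
          | exact absurd hj' (q0 _)
          | exact absurd hj' (q1 _ _ _)
          | exact absurd hj' (q4 _ _)
          | exact absurd hj' q2
          | exact absurd hj' q3
      · refine hu _ 5 (by norm_num) rfl rfl fun j hj hp hj' => ?_
        interval_cases j <;>
          first
          | rfl
          | omega
          | exact absurd hj' (q0 _)
          | exact absurd hj' (q1 _ _ _)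
          | exact absurd hj' (q4 _ _)
          | exact absurd hj' q2
          | exact absurd hj' q3
    · have e : ringOps c ((0, [a, b], B) : TC ℕ) =
        [opD (2 * c), (2, a), opP, opP,
        opD (2 * c + 1), (2, b), opP, opP,
        opM B 0 opP, opD (2 * c), opM B 1 opP, opD (2 * c + 1)] := rfl
      rw [e]
      interval_cases i <;> interval_cases p
      · refine hu _ 0 (by norm_num) rfl rfl fun j hj hp hj' => ?_
        interval_cases j <;>
          first
          | rfl
          | omega
          | exact absurd hj' (q0 _)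
          | exact absurd hj' (q1 _ _ _)
          | exact absurd hj' (q4 _ _)
          | exact absurd hj' q2
          | exact absurd hj' q3
      · refine hu _ 9 (by norm_num) rfl rfl fun j hj hp hj' => ?_
        interval_cases j <;>
          first
          | rfl
          | omega
          | exact absurd hj' (q0 _)
          | exact absurd hj' (q1 _ _ _)
          | exact absurd hj' (q4 _ _)
          | exact absurd hj' q2
          | exact absurd hj' q3
      · refine hu _ 4 (by norm_num) rfl rfl fun j hj hp hj' => ?_
        interval_cases j <;>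
          first
          | rfl
          | omega
          | exact absurd hj' (q0 _)
          | exact absurd hj' (q1 _ _ _)
          | exact absurd hj' (q4 _ _)
          | exact absurd hj' q2
          | exact absurd hj' q3
      · refine hu _ 11 (by norm_num) rfl rfl fun j hj hp hj' => ?_
        interval_cases j <;>
          first
          | rfl
          | omega
          | exact absurd hj' (q0 _)
          | exact absurd hj' (q1 _ _ _)
          | exact absurd hj' (q4 _ _)
          | exact absurd hj' q2
          | exact absurd hj' q3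
    · simp at h2
  · simp only at h1 h2
    obtain ⟨a, b, rfl⟩ : ∃ i j, A = [i, j] := List.length_eq_two.1 h2
    rcases h1 with rfl | rfl
    · have e : ringOps c ((1, [a, b], B) : TC ℕ) =
        [opD (2 * c), (2, a), opP, opP,
        opP, opD (2 * c), opP, (2, b),
        opD (2 * c + 1), opD (2 * c + 1), opP, opP] := rfl
      rw [e]
      interval_cases i <;> interval_cases p
      · refine hu _ 0 (by norm_num) rfl rfl fun j hj hp hj' => ?_
        interval_cases j <;>
          first
          | rfl
          | omega
          | exact absurd hj' (q0 _)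
          | exact absurd hj' (q1 _ _ _)
          | exact absurd hj' (q4 _ _)
          | exact absurd hj' q2
          | exact absurd hj' q3
      · refine hu _ 5 (by norm_num) rfl rfl fun j hj hp hj' => ?_
        interval_cases j <;>
          first
          | rfl
          | omega
          | exact absurd hj' (q0 _)
          | exact absurd hj' (q1 _ _ _)
          | exact absurd hj' (q4 _ _)
          | exact absurd hj' q2
          | exact absurd hj' q3
      · refine hu _ 8 (by norm_num) rfl rfl fun j hj hp hj' => ?_
        interval_cases j <;>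
          first
          | rfl
          | omega
          | exact absurd hj' (q0 _)
          | exact absurd hj' (q1 _ _ _)
          | exact absurd hj' (q4 _ _)
          | exact absurd hj' q2
          | exact absurd hj' q3
      · refine hu _ 9 (by norm_num) rfl rfl fun j hj hp hj' => ?_
        interval_cases j <;>
          first
          | rfl
          | omega
          | exact absurd hj' (q0 _)
          | exact absurd hj' (q1 _ _ _)
          | exact absurd hj' (q4 _ _)
          | exact absurd hj' q2
          | exact absurd hj' q3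
    · have e : ringOps c ((2, [a, b], B) : TC ℕ) =
        [(2, a), opD (2 * c), opP, opP,
        opD (2 * c), opP, (2, b), opP,
        opD (2 * c + 1), opD (2 * c + 1), opP, opP] := rfl
      rw [e]
      interval_cases i <;> interval_cases p
      · refine hu _ 4 (by norm_num) rfl rfl fun j hj hp hj' => ?_
        interval_cases j <;>
          first
          | rfl
          | omega
          | exact absurd hj' (q0 _)
          | exact absurd hj' (q1 _ _ _)
          | exact absurd hj' (q4 _ _)
          | exact absurd hj' q2
          | exact absurd hj' q3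
      · refine hu _ 1 (by norm_num) rfl rfl fun j hj hp hj' => ?_
        interval_cases j <;>
          first
          | rfl
          | omega
          | exact absurd hj' (q0 _)
          | exact absurd hj' (q1 _ _ _)
          | exact absurd hj' (q4 _ _)
          | exact absurd hj' q2
          | exact absurd hj' q3
      · refine hu _ 8 (by norm_num) rfl rfl fun j hj hp hj' => ?_
        interval_cases j <;>
          first
          | rfl
          | omega
          | exact absurd hj' (q0 _)
          | exact absurd hj' (q1 _ _ _)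
          | exact absurd hj' (q4 _ _)
          | exact absurd hj' q2
          | exact absurd hj' q3
      · refine hu _ 9 (by norm_num) rfl rfl fun j hj hp hj' => ?_
        interval_cases j <;>
          first
          | rfl
          | omega
          | exact absurd hj' (q0 _)
          | exact absurd hj' (q1 _ _ _)
          | exact absurd hj' (q4 _ _)
          | exact absurd hj' q2
          | exact absurd hj' q3

/-- N12 (M). PROOF. Every `ρ < 12 * C.length` is `12 c + j`, `j < 12`, `C[c]? = some t`; `op` is the
entry `j` of the explicit list (`op_ringSys`), `interval_cases j`. `divE`, `divO`: the fresh variable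
`k < 2 * C.length` belongs to `c = k / 2`; in the list of `c` it occurs at exactly one even and one
odd place (for tag `0`: even places `0`, `4`; odd places `1` or `9`, `5` or `11`, depending on
`t.2.1[0]?`, `t.2.1[1]?`; tag `1`: `0`, `5`; `8`, `9`; tag `2`: `4`, `1`; `8`, `9`); lists of other
`c'` contain only the fresh variables `2 c'`, `2 c' + 1`. `mulE`, `mulO`: by `hall` the constraint
`(0, [i, i], [i])` is at some place `c`: odd place `12 c + 1`, even place `12 c + 8`. -/
theorem wf_ringSys {n : ℕ} {C : List (TC ℕ)} (hC : ∀ t ∈ C, TC.Good n t) (hne : C ≠ [])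
    (hall : ∀ i < n, ((0, [i, i], [i]) : TC ℕ) ∈ C) : (ringSys n C).WF := by
  have hlen : 0 < C.length := List.length_pos_iff.2 hne
  have hm : (ringSys n C).m = 2 * C.length := rfl
  have hn : (ringSys n C).n = n := rfl
  have good : ∀ {c t}, C[c]? = some t → TC.Good n t := fun h =>
    hC _ (List.mem_iff_getElem?.2 ⟨_, h⟩)
  have hdiv : ∀ k < (ringSys n C).m, ∀ p < 2,
      ∃! ρ, ρ < (ringSys n C).R ∧ ρ % 2 = p ∧ (ringSys n C).op ρ = (1, k) := by
    intro k hk p hp
    rw [hm] at hk
    have hc : k / 2 < C.length := by omega
    have hct : C[k / 2]? = some C[k / 2] := List.getElem?_eq_getElem hc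
    obtain ⟨j, ⟨hj1, hj2, hj3⟩, hj4⟩ :=
      n12_fresh (c := k / 2) (good hct) (k % 2) p (Nat.mod_lt _ (by norm_num)) hp
    rw [Nat.div_add_mod] at hj3
    have h1 := op_ringSys n C hct hj1
    refine ⟨12 * (k / 2) + j, ⟨?_, by omega, by rw [h1, hj3]⟩, ?_⟩
    · rw [R_ringSys]; omega
    · rintro ρ ⟨hρ, hρ2, hρ3⟩
      obtain ⟨c', j', t', e, hj', ht', hop⟩ := n12_place hρ
      rw [hop] at hρ3
      have h2 := n12_ops (c := c') (good ht') hj'
      rw [hρ3] at h2
      have hc' : c' = k / 2 := by
        rcases h2 with h2 | h2 | h2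
        · simp [opP] at h2
        · simp only at h2; omega
        · simp at h2
      subst hc'
      rw [hct] at ht'
      simp only [Option.some.injEq] at ht'
      subst ht'
      have h3 := hj4 j' ⟨hj', by omega, by rw [hρ3, Nat.div_add_mod]⟩
      omega
  refine ⟨?_, ?_, ?_, ?_, ?_, fun k hk => hdiv k hk 0 (by norm_num),
    fun k hk => hdiv k hk 1 (by norm_num), ?_, ?_⟩
  · rw [R_ringSys, K_ringSys]; ring
  · rw [K_ringSys]; omega
  · intro ρ hρ
    obtain ⟨c, j, t, -, hj, ht, hop⟩ := n12_place hρ
    rw [hop]
    rcases n12_ops (c := c) (good ht) hj with h | h | h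
    · rw [h]; simp [opP]
    · rw [h.1]; norm_num
    · rw [h.1]
  · intro ρ hρ h1
    obtain ⟨c, j, t, -, hj, ht, hop⟩ := n12_place hρ
    rw [hop] at h1 ⊢
    have hc : c < C.length := by
      by_contra h
      rw [List.getElem?_eq_none (by omega)] at ht
      simp at ht
    rcases n12_ops (c := c) (good ht) hj with h | h | h
    · rw [h] at h1; simp [opP] at h1
    · rw [hm]
      rcases h.2 with h2 | h2 <;> rw [h2] <;> omega
    · rw [h.1] at h1; norm_num at h1
  · intro ρ hρ h1
    obtain ⟨c, j, t, -, hj, ht, hop⟩ := n12_place hρ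
    rw [hop] at h1 ⊢
    rcases n12_ops (c := c) (good ht) hj with h | h | h
    · rw [h] at h1; simp [opP] at h1
    · rw [h.1] at h1; norm_num at h1
    · rw [hn]; exact h.2
  · intro i hi
    rw [hn] at hi
    obtain ⟨c, hc⟩ := List.mem_iff_getElem?.1 (hall i hi)
    have hc' : c < C.length := by
      by_contra h
      rw [List.getElem?_eq_none (by omega)] at hc
      simp at hc
    refine ⟨12 * c + 8, by rw [R_ringSys]; omega, by omega, ?_⟩
    rw [op_ringSys n C hc (by norm_num)]
    rfl
  · intro i hi
    rw [hn] at hi
    obtain ⟨c, hc⟩ := List.mem_iff_getElem?.1 (hall i hi)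
    have hc' : c < C.length := by
      by_contra h
      rw [List.getElem?_eq_none (by omega)] at hc
      simp at hc
    refine ⟨12 * c + 1, by rw [R_ringSys]; omega, by omega, ?_⟩
    rw [op_ringSys n C hc (by norm_num)]
    rfl

end Pool.Agent.H54R
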