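import Pool.Agent.Lib.H54R.NDefs

/-! # Chunk N5: the gap theorem for systems with named variables -/

set_option autoImplicit false

namespace Pool.Agent.H54R

/-- the variables of a system of equations -/
def occS (S : List SQ) : List Nm := S.flatMap fun e => [e.2.1, e.2.2.1, e.2.2.2]

/-- the equation with numbers -/
def toSEq (V : List Nm) (e : SQ) : SEq :=
  if e.1 = 0 then .add (V.idxOf e.2.1) (V.idxOf e.2.2.1) (V.idxOf e.2.2.2)
  else if e.1 = 1 then .mul (V.idxOf e.2.1) (V.idxOf e.2.2.1) (V.idxOf e.2.2.2)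
  else .one (V.idxOf e.2.1)

lemma n5_length (S : List SQ) : (occS S).length = 3 * S.length := by
  unfold occS
  induction S with
  | nil => rfl
  | cons e S ih =>
    rw [List.flatMap_cons, List.length_append, ih, List.length_cons]
    simp only [List.length_cons, List.length_nil]
    ring

lemma n5_mem {S : List SQ} {e : SQ} (he : e ∈ S) :
    e.2.1 ∈ occS S ∧ e.2.2.1 ∈ occS S ∧ e.2.2.2 ∈ occS S :=
  ⟨List.mem_flatMap.2 ⟨e, he, by simp⟩, List.mem_flatMap.2 ⟨e, he, by simp⟩,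
    List.mem_flatMap.2 ⟨e, he, by simp⟩⟩

/-- N5 (S). The three names of an equation of `S` are in `occS S`; `idxOf` of a member is less than
the length `3 * S.length ≤ N`. -/
theorem toSEq_lt (S : List SQ) {N : ℕ} (hN : 3 * S.length ≤ N) (e : SQ) (he : e ∈ S) :
    (toSEq (occS S) e).Lt N := by
  obtain ⟨h1, h2, h3⟩ := n5_mem he
  have key : ∀ v ∈ occS S, (occS S).idxOf v < N := fun v hv => by
    have h := List.idxOf_lt_length_iff.2 hv
    rw [n5_length] at h
    omega
  unfold toSEq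
  split_ifs
  · exact ⟨key _ h1, key _ h2, key _ h3⟩
  · exact ⟨key _ h1, key _ h2, key _ h3⟩
  · exact key _ h1

/-- N5 (S). If `y v = z (V.idxOf v)` for the names `v` of `e` then the residues agree. -/
theorem res_toSEq (V : List Nm) (e : SQ) (y : Nm → ℝ) (z : ℕ → ℝ)
    (h1 : y e.2.1 = z (V.idxOf e.2.1)) (h2 : y e.2.2.1 = z (V.idxOf e.2.2.1))
    (h3 : y e.2.2.2 = z (V.idxOf e.2.2.2)) : (toSEq V e).res z = SQ.res y e := by
  unfold toSEq SQ.res
  split_ifs
  · rw [h1, h2, h3]; rfl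
  · rw [h1, h2, h3]; rfl
  · rw [h1]; rfl

lemma n5_getD (V : List Nm) (v : Nm) (hv : v ∈ V) : V.getD (V.idxOf v) [] = v := by
  have h := List.idxOf_lt_length_iff.2 hv
  rw [List.getD_eq_getElem _ _ h, List.getElem_idxOf h]

lemma n5_res (S : List SQ) (y : Nm → ℝ) {e : SQ} (he : e ∈ S) :
    (toSEq (occS S) e).res (fun i => y ((occS S).getD i [])) = SQ.res y e := by
  obtain ⟨h1, h2, h3⟩ := n5_mem he
  apply res_toSEq
  · rw [n5_getD _ _ h1]
  · rw [n5_getD _ _ h2]
  · rw [n5_getD _ _ h3]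

/-- N5 (S/M). PROOF. `S' = S.map (toSEq (occS S))`. From `y` get `z i = y ((occS S).getD i [])`:
`z (idxOf v) = y v` for `v ∈ occS S` (`List.getElem_idxOf`, `List.getD`). Apply `gap_exact` to `S'`;
the result `z'` gives `y' v = z' ((occS S).idxOf v)`, `res_toSEq`. -/
theorem gapN_exact (S : List SQ) {N : ℕ} (hN : 3 * S.length ≤ N)
    (h : ∃ y : Nm → ℝ, Zero S y) :
    ∃ y : Nm → ℝ, (∀ v, |y v| ≤ 2 ^ (2 ^ gE1 N)) ∧ Zero S y := by
  obtain ⟨y, hy⟩ := h
  obtain ⟨z, hz, hz0⟩ := gap_exact (N := N) (S.map (toSEq (occS S)))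
    (fun e he => by
      obtain ⟨e', he', rfl⟩ := List.mem_map.1 he
      exact toSEq_lt S hN e' he')
    (by rw [List.length_map]; omega)
    ⟨fun i => y ((occS S).getD i []), fun e he => by
      obtain ⟨e', he', rfl⟩ := List.mem_map.1 he
      rw [n5_res S y he']
      exact hy e' he'⟩
  refine ⟨fun v => z ((occS S).idxOf v), fun v => hz _, fun e he => ?_⟩
  rw [← res_toSEq (occS S) e _ z rfl rfl rfl]
  exact hz0 _ (List.mem_map_of_mem he)

/-- N5 (S/M). The same with `gap_approx`. -/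
theorem gapN_approx (S : List SQ) {N : ℕ} (hN : 3 * S.length ≤ N) (E : ℕ) (hE : gE1 N ≤ E)
    (y : Nm → ℝ) (hy : ∀ v, |y v| ≤ 2 ^ (2 ^ E))
    (hr : ∀ e ∈ S, |SQ.res y e| ≤ (2 ^ (2 ^ (E + gE2 N)))⁻¹) : ∃ y : Nm → ℝ, Zero S y := by
  obtain ⟨z, hz0⟩ := gap_approx (N := N) (S.map (toSEq (occS S)))
    (fun e he => by
      obtain ⟨e', he', rfl⟩ := List.mem_map.1 he
      exact toSEq_lt S hN e' he')
    (by rw [List.length_map]; omega) E hE (fun i => y ((occS S).getD i []))
    (fun i _ => hy _)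
    (fun e he => by
      obtain ⟨e', he', rfl⟩ := List.mem_map.1 he
      rw [n5_res S y he']
      exact hr e' he')
  refine ⟨fun v => z ((occS S).idxOf v), fun e he => ?_⟩
  rw [← res_toSEq (occS S) e _ z rfl rfl rfl]
  exact hz0 _ (List.mem_map_of_mem he)

end Pool.Agent.H54R
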