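import Pool.Agent.Lib.H54R.NDefs

/-! # Chunk N6: a solution of the strict system gives an approximate solution -/

set_option autoImplicit false

namespace Pool.Agent.H54R

lemma n6_sq (j : ℕ) : (((2 : ℝ) ^ (2 ^ j))⁻¹) * (((2 : ℝ) ^ (2 ^ j))⁻¹) =
    ((2 : ℝ) ^ (2 ^ (j + 1)))⁻¹ := by
  rw [← mul_inv, ← pow_add, pow_succ]
  congr 2
  ring

/-- N6 (S/M). PROOF. `c.Holds` for the members of `chains E E'`. `y (T 0) > 1/2`,
`y (T (j+1)) > (y (T j))^2`; induction on `j ≤ E`: `y (T j) > (2^(2^j))⁻¹` (square of the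
inverse: `(2^(2^j))⁻¹ ^ 2 = (2^(2^(j+1)))⁻¹`). -/
theorem chains_T {E E' : ℕ} {y : Nm → ℝ} (h01 : ∀ v, 0 < y v ∧ y v < 1)
    (h : ∀ c ∈ chains E E', TC.Holds y c) : ((2 : ℝ) ^ (2 ^ E))⁻¹ < y (nmT E) := by
  have h0 : 1 < y (nmT 0) + y (nmT 0) := by
    have := h (2, [nmT 0, nmT 0], []) (by simp [chains])
    simpa [TC.Holds] using this
  have h1 : ∀ j < E, y (nmT j) * y (nmT j) < y (nmT (j + 1)) := by
    intro j hj
    have := h (0, [nmT j, nmT j], [nmT (j + 1)]) (by simp [chains]; exact ⟨j, hj, rfl, rfl⟩)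
    simpa [TC.Holds] using this
  have key : ∀ j ≤ E, ((2 : ℝ) ^ (2 ^ j))⁻¹ < y (nmT j) := by
    intro j
    induction j with
    | zero => intro _; norm_num; linarith
    | succ j ih =>
      intro hj
      have h2 := ih (by omega)
      have h3 := h1 j (by omega)
      have h4 : (0 : ℝ) < ((2 : ℝ) ^ (2 ^ j))⁻¹ := by positivity
      rw [← n6_sq]
      nlinarith
  exact key E le_rfl

/-- N6 (S/M). The same with `y (Q 0) < 1/2`, `y (Q (j+1)) < (y (Q j))^2`. -/
theorem chains_Q {E E' : ℕ} {y : Nm → ℝ} (h01 : ∀ v, 0 < y v ∧ y v < 1)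
    (h : ∀ c ∈ chains E E', TC.Holds y c) : y (nmQ E') < ((2 : ℝ) ^ (2 ^ E'))⁻¹ := by
  have h0 : y (nmQ 0) + y (nmQ 0) < 1 := by
    have := h (1, [nmQ 0, nmQ 0], []) (by simp [chains])
    simpa [TC.Holds] using this
  have h1 : ∀ j < E', y (nmQ (j + 1)) < y (nmQ j) * y (nmQ j) := by
    intro j hj
    have := h (0, [nmQ (j + 1)], [nmQ j, nmQ j]) (by simp [chains]; exact ⟨j, hj, rfl, rfl⟩)
    simpa [TC.Holds] using this
  have key : ∀ j ≤ E', y (nmQ j) < ((2 : ℝ) ^ (2 ^ j))⁻¹ := by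
    intro j
    induction j with
    | zero => intro _; norm_num; linarith
    | succ j ih =>
      intro hj
      have h2 := ih (by omega)
      have h3 := h1 j (by omega)
      have h4 := (h01 (nmQ j)).1
      rw [← n6_sq]
      nlinarith
  exact key E' le_rfl

/-- N6 (S). -/
theorem chains_E {E E' : ℕ} {y : Nm → ℝ} (h : ∀ c ∈ chains E E', TC.Holds y c) :
    1 - y (nmQ E') < y nmE := by
  have := h (2, [nmE, nmQ E'], []) (by simp [chains])
  have h1 : 1 < y nmE + y (nmQ E') := by simpa [TC.Holds] using this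
  linarith

/-- N6 (M). One equation, with `σ = y (nmT E)`, `U = y (nmU a) / σ`, `V`, `W` in `(0, B)`, and
`ε = y nmE > 1 - δ ≥ 1/2`. PROOF. Divide the constraints by `σ` or `σ^2`.
`e.1 = 0`: `ε (U + V) < W (r + r') < W` and `q W < h / σ < U / ε`, `q' W < V / ε`, so
`W < (q + q') W < (U + V) / ε`; hence `|U + V - W| ≤ (U + V) 2 δ ≤ 4 B δ`.
`e.1 = 1`: `ε U V < W` and `ε W < U V`, so `|U V - W| ≤ B^2 δ`.
Otherwise `ε U < 1` and `ε < U`, so `|U - 1| ≤ 2 δ`. (`1 ≤ B`, `1 - ε ≤ δ`, `1 / ε - 1 ≤ 2 δ`.) -/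
theorem res_bound {E k : ℕ} {e : SQ} {y : Nm → ℝ} (h01 : ∀ v, 0 < y v ∧ y v < 1) {B δ : ℝ}
    (hB : 1 ≤ B) (hT : B⁻¹ < y (nmT E)) (hδ : δ ≤ 1 / 2) (hδ0 : 0 < δ) (hE : 1 - δ < y nmE)
    (h : ∀ c ∈ tcEqs E k e, TC.Holds y c) :
    |SQ.res (fun v => y (nmU v) / y (nmT E)) e| ≤ 4 * B ^ 2 * δ := by
  obtain ⟨tag, a, b, c⟩ := e
  set σ := y (nmT E) with hσd
  set ε := y nmE with hεd
  have hσ : 0 < σ := (h01 _).1
  have hε1 : ε < 1 := (h01 _).2
  have hε : 1 / 2 < ε := by linarith
  have hσB : 1 < σ * B := by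
    have hB0 : 0 < B := by linarith
    have := mul_lt_mul_of_pos_right hT hB0
    rwa [inv_mul_cancel₀ hB0.ne'] at this
  have hub : ∀ v, 0 < y (nmU v) / σ ∧ y (nmU v) / σ < B := by
    intro v
    refine ⟨div_pos (h01 _).1 hσ, ?_⟩
    rw [div_lt_iff₀ hσ]
    have := (h01 (nmU v)).2
    nlinarith
  have hu : ∀ v, y (nmU v) = σ * (y (nmU v) / σ) := fun v => by field_simp
  set U := y (nmU a) / σ with hU
  set V := y (nmU b) / σ with hV
  set W := y (nmU c) / σ with hW
  obtain ⟨hU0, hUB⟩ := hub a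
  obtain ⟨hV0, hVB⟩ := hub b
  obtain ⟨hW0, hWB⟩ := hub c
  have hBB : B ≤ B ^ 2 := by nlinarith
  by_cases h0 : tag = 0
  · subst h0
    have e1 : tcEqs E k ((0, a, b, c) : SQ) =
      [(0, [nmE, nmU a], [nmH k 0, nmU c]), (0, [nmE, nmU b], [nmH k 1, nmU c]),
      (1, [nmH k 0, nmH k 1], []),
      (0, [nmH k 2, nmU c], [nmH k 4]), (0, [nmE, nmH k 4], [nmU a]),
      (0, [nmH k 3, nmU c], [nmH k 5]), (0, [nmE, nmH k 5], [nmU b]),
      (2, [nmH k 2, nmH k 3], [])] := rfl
    rw [e1] at h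
    have i1 : ε * y (nmU a) < y (nmH k 0) * y (nmU c) := by
      simpa [TC.Holds] using h (0, [nmE, nmU a], [nmH k 0, nmU c]) (by simp)
    have i2 : ε * y (nmU b) < y (nmH k 1) * y (nmU c) := by
      simpa [TC.Holds] using h (0, [nmE, nmU b], [nmH k 1, nmU c]) (by simp)
    have i3 : y (nmH k 0) + y (nmH k 1) < 1 := by
      simpa [TC.Holds] using h (1, [nmH k 0, nmH k 1], []) (by simp)
    have i4 : y (nmH k 2) * y (nmU c) < y (nmH k 4) := by
      simpa [TC.Holds] using h (0, [nmH k 2, nmU c], [nmH k 4]) (by simp)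
    have i5 : ε * y (nmH k 4) < y (nmU a) := by
      simpa [TC.Holds] using h (0, [nmE, nmH k 4], [nmU a]) (by simp)
    have i6 : y (nmH k 3) * y (nmU c) < y (nmH k 5) := by
      simpa [TC.Holds] using h (0, [nmH k 3, nmU c], [nmH k 5]) (by simp)
    have i7 : ε * y (nmH k 5) < y (nmU b) := by
      simpa [TC.Holds] using h (0, [nmE, nmH k 5], [nmU b]) (by simp)
    have i8 : 1 < y (nmH k 2) + y (nmH k 3) := by
      simpa [TC.Holds] using h (2, [nmH k 2, nmH k 3], []) (by simp)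
    have hc0 := (h01 (nmU c)).1
    have j1 : ε * (y (nmU a) + y (nmU b)) < y (nmU c) := by nlinarith
    have hε0 : 0 < ε := by linarith
    have j2 : ε * y (nmU c) < y (nmU a) + y (nmU b) := by
      have l1 : y (nmU c) < (y (nmH k 2) + y (nmH k 3)) * y (nmU c) := by nlinarith
      have l2 : y (nmU c) < y (nmH k 4) + y (nmH k 5) := by nlinarith
      have l3 : ε * y (nmU c) < ε * (y (nmH k 4) + y (nmH k 5)) := mul_lt_mul_of_pos_left l2 hε0
      nlinarith
    rw [hu a, hu b, hu c] at j1 j2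
    have k1 : ε * (U + V) < W := by
      have : σ * (ε * (U + V)) < σ * W := by
        calc σ * (ε * (U + V)) = ε * (σ * U + σ * V) := by ring
          _ < σ * W := j1
      exact lt_of_mul_lt_mul_left this hσ.le
    have k2 : ε * W < U + V := by
      have : σ * (ε * W) < σ * (U + V) := by
        calc σ * (ε * W) = ε * (σ * W) := by ring
          _ < σ * U + σ * V := j2
          _ = σ * (U + V) := by ring
      exact lt_of_mul_lt_mul_left this hσ.le
    have e2 : SQ.res (fun v => y (nmU v) / σ) (0, a, b, c) = U + V - W := by simp [SQ.res, hU, hV, hW]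
    rw [e2, abs_le]
    constructor
    · nlinarith
    · nlinarith
  · by_cases h1 : tag = 1
    · subst h1
      have e1 : tcEqs E k ((1, a, b, c) : SQ) = [(0, [nmU a, nmU b], [nmH k 0]),
          (0, [nmE, nmH k 0], [nmT E, nmU c]), (0, [nmT E, nmU c], [nmH k 1]),
          (0, [nmE, nmH k 1], [nmU a, nmU b])] := rfl
      rw [e1] at h
      have i1 : y (nmU a) * y (nmU b) < y (nmH k 0) := by
        simpa [TC.Holds] using h (0, [nmU a, nmU b], [nmH k 0]) (by simp)
      have i2 : ε * y (nmH k 0) < σ * y (nmU c) := by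
        simpa [TC.Holds] using h (0, [nmE, nmH k 0], [nmT E, nmU c]) (by simp)
      have i3 : σ * y (nmU c) < y (nmH k 1) := by
        simpa [TC.Holds] using h (0, [nmT E, nmU c], [nmH k 1]) (by simp)
      have i4 : ε * y (nmH k 1) < y (nmU a) * y (nmU b) := by
        simpa [TC.Holds] using h (0, [nmE, nmH k 1], [nmU a, nmU b]) (by simp)
      have j1 : ε * (y (nmU a) * y (nmU b)) < σ * y (nmU c) := by nlinarith
      have j2 : ε * (σ * y (nmU c)) < y (nmU a) * y (nmU b) := by nlinarith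
      rw [hu a, hu b, hu c] at j1 j2
      have hσ2 : 0 < σ * σ := mul_pos hσ hσ
      have k1 : ε * (U * V) < W := by
        have : σ * σ * (ε * (U * V)) < σ * σ * W := by
          calc σ * σ * (ε * (U * V)) = ε * (σ * U * (σ * V)) := by ring
            _ < σ * (σ * W) := j1
            _ = σ * σ * W := by ring
        exact lt_of_mul_lt_mul_left this hσ2.le
      have k2 : ε * W < U * V := by
        have : σ * σ * (ε * W) < σ * σ * (U * V) := by
          calc σ * σ * (ε * W) = ε * (σ * (σ * W)) := by ring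
            _ < σ * U * (σ * V) := j2
            _ = σ * σ * (U * V) := by ring
        exact lt_of_mul_lt_mul_left this hσ2.le
      have e2 : SQ.res (fun v => y (nmU v) / σ) (1, a, b, c) = U * V - W := by
        simp [SQ.res, hU, hV, hW]
      have hUV : U * V ≤ B ^ 2 := by nlinarith
      have hUV0 : 0 < U * V := mul_pos hU0 hV0
      rw [e2, abs_le]
      constructor
      · nlinarith
      · nlinarith
    · have e1 : tcEqs E k ((tag, a, b, c) : SQ) = [(0, [nmE, nmU a], [nmT E]),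
          (0, [nmE, nmT E], [nmU a])] := by simp [tcEqs, h0, h1]
      rw [e1] at h
      have i1 : ε * y (nmU a) < σ := by
        simpa [TC.Holds] using h (0, [nmE, nmU a], [nmT E]) (by simp)
      have i2 : ε * σ < y (nmU a) := by
        simpa [TC.Holds] using h (0, [nmE, nmT E], [nmU a]) (by simp)
      rw [hu a] at i1 i2
      have k1 : ε * U < 1 := by
        have : σ * (ε * U) < σ * 1 := by
          calc σ * (ε * U) = ε * (σ * U) := by ring
            _ < σ := i1
            _ = σ * 1 := by ring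
        exact lt_of_mul_lt_mul_left this hσ.le
      have k2 : ε < U := by
        have : σ * ε < σ * U := by
          calc σ * ε = ε * σ := by ring
            _ < σ * U := i2
        exact lt_of_mul_lt_mul_left this hσ.le
      have e2 : SQ.res (fun v => y (nmU v) / σ) (tag, a, b, c) = U - 1 := by
        simp [SQ.res, h0, h1, hU]
      have hB2 : 1 ≤ B ^ 2 := by nlinarith
      have hU2 : U < 2 := by nlinarith
      rw [e2, abs_le]
      constructor
      · nlinarith
      · nlinarith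

end Pool.Agent.H54R
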