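import Pool.Agent.Lib.H54R.N4
import Pool.Agent.Lib.H54R.N5
import Pool.Agent.Lib.H54R.N6

/-! # Chunk N7: soundness of the strict system -/

set_option autoImplicit false

namespace Pool.Agent.H54R

lemma n7_num (E X : ℕ) (hX : E + 4 ≤ X) :
    4 * ((2 : ℝ) ^ (2 ^ E)) ^ 2 * (2 ^ (2 ^ (X + 2)))⁻¹ ≤ (2 ^ (2 ^ X))⁻¹ := by
  have h1 : 2 + 2 ^ E * 2 + 2 ^ X ≤ 2 ^ (X + 2) := by
    have h2 : 2 ^ E * 2 ≤ 2 ^ X := by
      rw [← pow_succ]; exact Nat.pow_le_pow_right (by norm_num) (by omega)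
    have h3 : 2 ≤ 2 ^ X := by
      calc 2 = 2 ^ 1 := by norm_num
        _ ≤ 2 ^ X := Nat.pow_le_pow_right (by norm_num) (by omega)
    have h4 : 2 ^ (X + 2) = 4 * 2 ^ X := by rw [pow_add]; ring
    omega
  have h5 : (4 : ℝ) * (2 ^ (2 ^ E)) ^ 2 * 2 ^ (2 ^ X) ≤ 2 ^ (2 ^ (X + 2)) := by
    calc (4 : ℝ) * (2 ^ (2 ^ E)) ^ 2 * 2 ^ (2 ^ X) = 2 ^ (2 + 2 ^ E * 2 + 2 ^ X) := by
          rw [pow_add, pow_add, ← pow_mul]; norm_num
      _ ≤ 2 ^ (2 ^ (X + 2)) := pow_le_pow_right₀ (by norm_num) h1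
  have h6 : (0 : ℝ) < 2 ^ (2 ^ (X + 2)) := by positivity
  have h7 : (0 : ℝ) < 2 ^ (2 ^ X) := by positivity
  rw [← div_eq_mul_inv, div_le_iff₀ h6, inv_mul_eq_div, le_div_iff₀ h7]
  exact h5

/-- N7 (M). PROOF. Let `N = szN S`, `E = chE S`, `E' = chE' S = E + gE2 N + 2`, `B = 2^(2^E)`,
`δ = (2^(2^E'))⁻¹ ≤ 1/2`, `z v = y (nmU v) / y (nmT E)`. By `chains_T`, `0 < z v < B`. By `chains_Q`,
`chains_E`: `1 - δ < y nmE`. By `res_bound` all residues of `posSys S` at `z` are at most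
`4 B^2 δ ≤ (2^(2^(E + gE2 N)))⁻¹`: with `X = E + gE2 N`, `2 + 2 * 2^E + 2^X ≤ 4 * 2^X = 2^(X + 2)`
(`gE2 N ≥ 4`). `gapN_approx` for `posSys S`, `3 * (posSys S).length ≤ 24 * S.length = N`
(`length_posSys`). -/
theorem strict_sound (S : List SQ) (y : Nm → ℝ) (h : TSol (strictSys S) y) :
    ∃ z : Nm → ℝ, Zero (posSys S) z := by
  obtain ⟨h01, h⟩ := h
  have hch : ∀ c ∈ chains (chE S) (chE' S), TC.Holds y c := fun c hc =>
    h c (List.mem_append_left _ hc)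
  have hT := chains_T h01 hch
  have hQ := chains_Q h01 hch
  have hE := chains_E hch
  have hN : 3 * (posSys S).length ≤ szN S := by
    have := length_posSys S
    unfold szN
    omega
  have hB : (1 : ℝ) ≤ 2 ^ (2 ^ chE S) := one_le_pow₀ (by norm_num)
  have hδ : ((2 : ℝ) ^ (2 ^ chE' S))⁻¹ ≤ 1 / 2 := by
    rw [one_div]
    refine inv_anti₀ (by norm_num) ?_
    calc (2 : ℝ) = 2 ^ 1 := by norm_num
      _ ≤ 2 ^ (2 ^ chE' S) := pow_le_pow_right₀ (by norm_num) Nat.one_le_two_pow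
  have hT0 := (h01 (nmT (chE S))).1
  have hcE : chE' S = (chE S + gE2 (szN S)) + 2 := rfl
  refine gapN_approx (posSys S) hN (chE S) (by unfold chE; omega)
    (fun v => y (nmU v) / y (nmT (chE S))) (fun v => ?_) (fun e he => ?_)
  · rw [abs_of_pos (div_pos (h01 _).1 hT0), div_le_iff₀ hT0]
    have h1 := (h01 (nmU v)).2
    have h2 : 1 < 2 ^ (2 ^ chE S) * y (nmT (chE S)) := by
      have h3 : (0 : ℝ) < 2 ^ (2 ^ chE S) := by positivity
      calc (1 : ℝ) = 2 ^ (2 ^ chE S) * (2 ^ (2 ^ chE S))⁻¹ := (mul_inv_cancel₀ h3.ne').symm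
        _ < _ := mul_lt_mul_of_pos_left hT h3
    linarith
  · obtain ⟨k, hk⟩ := List.mem_iff_getElem?.1 he
    have hk' : ∀ c ∈ tcEqs (chE S) k e, TC.Holds y c := fun c hc => by
      refine h c (List.mem_append_right _ (List.mem_flatMap.2 ⟨(e, k), ?_, hc⟩))
      rw [List.mk_mem_zipIdx_iff_getElem?]
      exact hk
    refine (res_bound h01 hB hT hδ (by positivity) (by linarith) hk').trans ?_
    rw [hcE]
    refine n7_num (chE S) (chE S + gE2 (szN S)) ?_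
    unfold gE2
    have := Nat.zero_le ((szN S + 2) ^ 2)
    omega

end Pool.Agent.H54R
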