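import Pool.Agent.Lib.H54R.NDefs

/-! # Chunk N8: completeness of the strict system -/

set_option autoImplicit false

namespace Pool.Agent.H54R

/-- N8 (M). Sums. PROOF. `r = (1+ε)/2 * U/W`, `r' = (1+ε)/2 * V/W`. Let `m` be the minimum of `W/U`,
`W/V`, `1/(σ U)`, `1/(σ V)`, `1/ε`; all are greater than `1`, so choose `1 < l < m`; `q = l U/W`,
`q' = l V/W`; choose `h` between `q σ W = l σ U` and `min 1 (σ U / ε)`, and `h'` similarly. -/
theorem aux_add {σ ε U V W : ℝ} (hσ : 0 < σ) (hε : 0 < ε) (hε1 : ε < 1) (hU : 0 < U) (hV : 0 < V)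
    (h : U + V = W) (hW : σ * W < 1) :
    ∃ r r' q q' t t' : ℝ, (0 < r ∧ r < 1) ∧ (0 < r' ∧ r' < 1) ∧ (0 < q ∧ q < 1) ∧
      (0 < q' ∧ q' < 1) ∧ (0 < t ∧ t < 1) ∧ (0 < t' ∧ t' < 1) ∧
      ε * (σ * U) < r * (σ * W) ∧ ε * (σ * V) < r' * (σ * W) ∧ r + r' < 1 ∧
      q * (σ * W) < t ∧ ε * t < σ * U ∧ q' * (σ * W) < t' ∧ ε * t' < σ * V ∧ 1 < q + q' := by
  have hW0 : 0 < W := by linarith
  have hσU : 0 < σ * U := mul_pos hσ hU
  have hσV : 0 < σ * V := mul_pos hσ hV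
  have hσU1 : σ * U < 1 := lt_of_le_of_lt (mul_le_mul_of_nonneg_left (by linarith) hσ.le) hW
  have hσV1 : σ * V < 1 := lt_of_le_of_lt (mul_le_mul_of_nonneg_left (by linarith) hσ.le) hW
  obtain ⟨l, hl1, hl2⟩ : ∃ l, 1 < l ∧
      l < min (min (W / U) (W / V)) (min (min (1 / (σ * U)) (1 / (σ * V))) (1 / ε)) := by
    apply exists_between
    refine lt_min (lt_min ?_ ?_) (lt_min (lt_min ?_ ?_) ?_)
    · rw [one_lt_div hU]; linarith
    · rw [one_lt_div hV]; linarith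
    · rw [one_lt_div hσU]; exact hσU1
    · rw [one_lt_div hσV]; exact hσV1
    · rw [one_lt_div hε]; exact hε1
  rw [lt_min_iff, lt_min_iff, lt_min_iff, lt_min_iff] at hl2
  obtain ⟨⟨h1, h2⟩, ⟨h3, h4⟩, h5⟩ := hl2
  rw [lt_div_iff₀ hU] at h1
  rw [lt_div_iff₀ hV] at h2
  rw [lt_div_iff₀ hσU] at h3
  rw [lt_div_iff₀ hσV] at h4
  rw [lt_div_iff₀ hε] at h5
  have hl0 : 0 < l := by linarith
  obtain ⟨t, ht1, ht2⟩ : ∃ t, l * (σ * U) < t ∧ t < min 1 (σ * U / ε) := by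
    apply exists_between
    refine lt_min h3 ?_
    rw [lt_div_iff₀ hε]
    nlinarith
  obtain ⟨t', ht1', ht2'⟩ : ∃ t, l * (σ * V) < t ∧ t < min 1 (σ * V / ε) := by
    apply exists_between
    refine lt_min h4 ?_
    rw [lt_div_iff₀ hε]
    nlinarith
  rw [lt_min_iff, lt_div_iff₀ hε] at ht2 ht2'
  have e1 : ∀ a X : ℝ, a * X / W * (σ * W) = a * (σ * X) := by
    intro a X; field_simp
  refine ⟨(1 + ε) / 2 * U / W, (1 + ε) / 2 * V / W, l * U / W, l * V / W, t, t', ⟨by positivity, ?_⟩,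
    ⟨by positivity, ?_⟩, ⟨by positivity, ?_⟩, ⟨by positivity, ?_⟩, ⟨?_, ht2.1⟩, ⟨?_, ht2'.1⟩,
    ?_, ?_, ?_, ?_, by linarith [ht2.2], ?_, by linarith [ht2'.2], ?_⟩
  · rw [div_lt_one hW0]; nlinarith
  · rw [div_lt_one hW0]; nlinarith
  · rw [div_lt_one hW0]; linarith
  · rw [div_lt_one hW0]; linarith
  · have : 0 < l * (σ * U) := by positivity
    linarith
  · have : 0 < l * (σ * V) := by positivity
    linarith
  · rw [e1]; nlinarith
  · rw [e1]; nlinarith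
  · have : (1 + ε) / 2 * U / W + (1 + ε) / 2 * V / W = (1 + ε) / 2 := by
      rw [← add_div, ← mul_add, h]; field_simp
    rw [this]; linarith
  · rw [e1]; exact ht1
  · rw [e1]; exact ht1'
  · have : l * U / W + l * V / W = l := by
      rw [← add_div, ← mul_add, h]; field_simp
    rw [this]; exact hl1

/-- N8 (S). Products. PROOF. Choose `t` between `p = σ U σ V = σ (σ W)` and `min 1 (p / ε)`. -/
theorem aux_mul {σ ε U V W : ℝ} (hσ : 0 < σ) (hε : 0 < ε) (hε1 : ε < 1) (hU : 0 < U) (hV : 0 < V)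
    (h : U * V = W) (hU1 : σ * U < 1) (hV1 : σ * V < 1) :
    ∃ t : ℝ, (0 < t ∧ t < 1) ∧ (σ * U) * (σ * V) < t ∧ ε * t < σ * (σ * W) ∧
      σ * (σ * W) < t ∧ ε * t < (σ * U) * (σ * V) := by
  have hσU : 0 < σ * U := mul_pos hσ hU
  have hσV : 0 < σ * V := mul_pos hσ hV
  have e : σ * (σ * W) = (σ * U) * (σ * V) := by rw [← h]; ring
  have hp : 0 < (σ * U) * (σ * V) := mul_pos hσU hσV
  obtain ⟨t, ht1, ht2⟩ : ∃ t, (σ * U) * (σ * V) < t ∧ t < min 1 ((σ * U) * (σ * V) / ε) := by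
    apply exists_between
    refine lt_min (by nlinarith) ?_
    rw [lt_div_iff₀ hε]
    nlinarith
  rw [lt_min_iff, lt_div_iff₀ hε] at ht2
  refine ⟨t, ⟨by linarith, ht2.1⟩, ht1, ?_, ?_, ?_⟩
  · rw [e]; linarith [ht2.2]
  · rw [e]; exact ht1
  · linarith [ht2.2]

/-- N8 (M). One equation. PROOF. Cases `e.1 = 0` (`aux_add`; `a 0, .., a 5 = r, r', q, q', t, t'`),
`e.1 = 1` (`aux_mul`; `a 0 = a 1 = t`), else (`z v = 1`: `ε σ < σ`); other `a j = 1/2`.
`TC.Holds` unfolds to the inequalities by `simp`. -/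
theorem tc_aux (E k : ℕ) (e : SQ) (z : Nm → ℝ) {σ ε : ℝ} (hσ : 0 < σ) (hε : 0 < ε) (hε1 : ε < 1)
    (hz : ∀ v, 0 < z v) (hz1 : ∀ v, σ * z v < 1) (he : SQ.res z e = 0) :
    ∃ a : ℕ → ℝ, (∀ j, 0 < a j ∧ a j < 1) ∧
      ∀ y : Nm → ℝ, (∀ x, y (nmU x) = σ * z x) → y (nmT E) = σ → y nmE = ε →
        (∀ j, y (nmH k j) = a j) → ∀ c ∈ tcEqs E k e, TC.Holds y c := by
  obtain ⟨tag, u, v, w⟩ := e
  by_cases h0 : tag = 0
  · subst h0
    have h1 : z u + z v = z w := by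
      have : z u + z v - z w = 0 := by simpa [SQ.res] using he
      linarith
    obtain ⟨r, r', q, q', t, t', hr, hr', hq, hq', ht, ht', i1, i2, i3, i4, i5, i6, i7, i8⟩ :=
      aux_add hσ hε hε1 (hz u) (hz v) h1 (hz1 w)
    refine ⟨fun j => [r, r', q, q', t, t'].getD j (1 / 2), fun j => ?_, fun y h2 h3 h4 h5 => ?_⟩
    · rcases j with _ | _ | _ | _ | _ | _ | j
      · exact hr
      · exact hr'
      · exact hq
      · exact hq'
      · exact ht
      · exact ht'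
      · norm_num
    · have a0 : y (nmH k 0) = r := h5 0
      have a1 : y (nmH k 1) = r' := h5 1
      have a2 : y (nmH k 2) = q := h5 2
      have a3 : y (nmH k 3) = q' := h5 3
      have a4 : y (nmH k 4) = t := h5 4
      have a5 : y (nmH k 5) = t' := h5 5
      intro c hc
      simp only [tcEqs, if_true, List.mem_cons, List.not_mem_nil, or_false] at hc
      rcases hc with rfl | rfl | rfl | rfl | rfl | rfl | rfl | rfl
      · simp [TC.Holds, h2, h4, a0]; exact i1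
      · simp [TC.Holds, h2, h4, a1]; exact i2
      · simp [TC.Holds, a0, a1]; exact i3
      · simp [TC.Holds, h2, a2, a4]; exact i4
      · simp [TC.Holds, h2, h4, a4]; exact i5
      · simp [TC.Holds, h2, a3, a5]; exact i6
      · simp [TC.Holds, h2, h4, a5]; exact i7
      · simp [TC.Holds, a2, a3]; exact i8
  · by_cases h00 : tag = 1
    · subst h00
      have h1 : z u * z v = z w := by
        have : z u * z v - z w = 0 := by simpa [SQ.res] using he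
        linarith
      obtain ⟨t, ht, i1, i2, i3, i4⟩ := aux_mul hσ hε hε1 (hz u) (hz v) h1 (hz1 u) (hz1 v)
      refine ⟨fun j => [t, t].getD j (1 / 2), fun j => ?_, fun y h2 h3 h4 h5 => ?_⟩
      · rcases j with _ | _ | j
        · exact ht
        · exact ht
        · norm_num
      · have a0 : y (nmH k 0) = t := h5 0
        have a1 : y (nmH k 1) = t := h5 1
        intro c hc
        have e : tcEqs E k ((1, u, v, w) : SQ) = [(0, [nmU u, nmU v], [nmH k 0]),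
          (0, [nmE, nmH k 0], [nmT E, nmU w]), (0, [nmT E, nmU w], [nmH k 1]),
          (0, [nmE, nmH k 1], [nmU u, nmU v])] := rfl
        rw [e] at hc
        simp only [List.mem_cons, List.not_mem_nil, or_false] at hc
        rcases hc with rfl | rfl | rfl | rfl
        · simp [TC.Holds, h2, a0]; exact i1
        · simp [TC.Holds, h2, h3, h4, a0]; exact i2
        · simp [TC.Holds, h2, h3, a1]; exact i3
        · simp [TC.Holds, h2, h4, a1]; exact i4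
    · have h1 : z u = 1 := by
        have : z u - 1 = 0 := by simpa [SQ.res, h0, h00] using he
        linarith
      refine ⟨fun _ => 1 / 2, fun j => by norm_num, fun y h2 h3 h4 h5 => ?_⟩
      intro c hc
      have e : tcEqs E k ((tag, u, v, w) : SQ) = [(0, [nmE, nmU u], [nmT E]),
        (0, [nmE, nmT E], [nmU u])] := by simp [tcEqs, h0, h00]
      rw [e] at hc
      simp only [List.mem_cons, List.not_mem_nil, or_false] at hc
      rcases hc with rfl | rfl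
      · simp [TC.Holds, h2, h3, h4, h1]; nlinarith
      · simp [TC.Holds, h2, h3, h4, h1]; nlinarith

/-- N8 (S/M). The chains: `y (T j) = 9/10 * (7/10)^(2^j)`, `y (Q j) = 3/2 * (1/4)^(2^j)`,
`y nmE = 1 - y (Q E') / 2`. PROOF. `9/10 * 7/10 > 1/2`, `(9/10)^2 < 9/10`, `3/2 * 1/4 < 1/2`,
`3/2 < (3/2)^2`; `(b^(2^j))^2 = b^(2^(j+1))`. -/
theorem chains_complete (E E' : ℕ) (y : Nm → ℝ)
    (hT : ∀ j, y (nmT j) = 9 / 10 * (7 / 10) ^ (2 ^ j))
    (hQ : ∀ j, y (nmQ j) = 3 / 2 * (1 / 4) ^ (2 ^ j)) (hE : y nmE = 1 - y (nmQ E') / 2) :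
    ∀ c ∈ chains E E', TC.Holds y c := by
  intro c hc
  simp only [chains, List.mem_cons, List.mem_append, List.mem_map, List.mem_range] at hc
  rcases hc with rfl | rfl | rfl | ⟨j, -, rfl⟩ | ⟨j, -, rfl⟩
  · simp [TC.Holds, hT]; norm_num
  · simp [TC.Holds, hQ]; norm_num
  · have h1 : 0 < y (nmQ E') := by rw [hQ]; positivity
    simp [TC.Holds, hE]
    linarith
  · have h1 : (0 : ℝ) < (7 / 10) ^ (2 ^ j) := by positivity
    have h2 : ((7 : ℝ) / 10) ^ (2 ^ (j + 1)) = (7 / 10) ^ (2 ^ j) * (7 / 10) ^ (2 ^ j) := by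
      rw [← pow_add, pow_succ]; congr 1; ring
    simp only [TC.Holds, if_true, List.map_cons, List.map_nil, List.prod_cons, List.prod_nil,
      mul_one, hT]
    rw [h2]
    nlinarith [mul_pos h1 h1]
  · have h1 : (0 : ℝ) < (1 / 4) ^ (2 ^ j) := by positivity
    have h2 : ((1 : ℝ) / 4) ^ (2 ^ (j + 1)) = (1 / 4) ^ (2 ^ j) * (1 / 4) ^ (2 ^ j) := by
      rw [← pow_add, pow_succ]; congr 1; ring
    simp only [TC.Holds, if_true, List.map_cons, List.map_nil, List.prod_cons, List.prod_nil,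
      mul_one, hQ]
    rw [h2]
    nlinarith [mul_pos h1 h1]

/-- N8 (S). `(7/10)^(2^(E+1)) = (49/100)^(2^E) ≤ (1/2)^(2^E)`. -/
theorem sigma_small (E : ℕ) :
    9 / 10 * (7 / 10 : ℝ) ^ (2 ^ (E + 1)) * 2 ^ (2 ^ E) < 1 := by
  have h1 : ((7 : ℝ) / 10) ^ (2 ^ (E + 1)) = (49 / 100) ^ (2 ^ E) := by
    rw [pow_succ, mul_comm (2 ^ E) 2, pow_mul]; norm_num
  rw [h1, mul_assoc, ← mul_pow]
  have h2 : ((49 : ℝ) / 100 * 2) ^ (2 ^ E) ≤ 1 := pow_le_one₀ (by norm_num) (by norm_num)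
  linarith

/-- the values of the strict system -/
noncomputable def n8y (σ : ℝ) (q : ℝ) (z : Nm → ℝ) (a : ℕ → ℕ → ℝ) : Nm → ℝ
  | 8 :: x => σ * z x
  | [9, j] => 9 / 10 * (7 / 10) ^ (2 ^ j)
  | [10, j] => 3 / 2 * (1 / 4) ^ (2 ^ j)
  | [11] => q
  | [12, k, j] => a k j
  | _ => 1 / 2

/-- N8 (M). PROOF. `E = chE S = E0 + 1`, `σ = 9/10 * (7/10)^(2^E)`, `σ z v < 1` by `sigma_small`;
`ε = 1 - 3/4 * (1/4)^(2^E')`. Choose `a k` by `tc_aux` for the equation of `posSys S` at place `k`.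
`y : List ℕ → ℝ`: `8 :: x ↦ σ * z x`, `[9, j] ↦ ..`, `[10, j] ↦ ..`, `[11] ↦ ε`, `[12, k, j] ↦ a k j`,
everything else `↦ 1/2`. All values are in `(0,1)`. -/
theorem strict_complete (S : List SQ) (z : Nm → ℝ) (hz : Zero (posSys S) z)
    (hz1 : ∀ v, 1 ≤ z v) {E0 : ℕ} (hE0 : chE S = E0 + 1) (hz2 : ∀ v, z v ≤ 2 ^ (2 ^ E0)) :
    ∃ y : Nm → ℝ, TSol (strictSys S) y := by
  set σ : ℝ := 9 / 10 * (7 / 10) ^ (2 ^ (E0 + 1)) with hσd
  have hσ : 0 < σ := by positivity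
  have hσz : ∀ v, σ * z v < 1 := fun v =>
    lt_of_le_of_lt (mul_le_mul_of_nonneg_left (hz2 v) hσ.le) (sigma_small E0)
  have hz0 : ∀ v, 0 < z v := fun v => lt_of_lt_of_le one_pos (hz1 v)
  have hq : ∀ j : ℕ, 0 < 3 / 2 * ((1 : ℝ) / 4) ^ (2 ^ j) ∧ 3 / 2 * ((1 : ℝ) / 4) ^ (2 ^ j) < 1 := by
    intro j
    refine ⟨by positivity, ?_⟩
    have : ((1 : ℝ) / 4) ^ (2 ^ j) ≤ (1 / 4) ^ 1 :=
      pow_le_pow_of_le_one (by norm_num) (by norm_num) Nat.one_le_two_pow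
    linarith
  have ht : ∀ j : ℕ, 0 < 9 / 10 * ((7 : ℝ) / 10) ^ (2 ^ j) ∧
      9 / 10 * ((7 : ℝ) / 10) ^ (2 ^ j) < 1 := by
    intro j
    refine ⟨by positivity, ?_⟩
    have : ((7 : ℝ) / 10) ^ (2 ^ j) ≤ 1 := pow_le_one₀ (by norm_num) (by norm_num)
    linarith
  set ε : ℝ := 1 - 3 / 2 * (1 / 4) ^ (2 ^ (chE' S)) / 2 with hεd
  have hε : 0 < ε ∧ ε < 1 := by
    have := hq (chE' S)
    constructor <;> linarith
  have key : ∀ k : ℕ, ∃ a : ℕ → ℝ, (∀ j, 0 < a j ∧ a j < 1) ∧ ∀ e, (posSys S)[k]? = some e →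
      ∀ y : Nm → ℝ, (∀ x, y (nmU x) = σ * z x) → y (nmT (chE S)) = σ → y nmE = ε →
        (∀ j, y (nmH k j) = a j) → ∀ c ∈ tcEqs (chE S) k e, TC.Holds y c := by
    intro k
    cases hk : (posSys S)[k]? with
    | none => exact ⟨fun _ => 1 / 2, fun j => by norm_num, fun e he => by simp at he⟩
    | some e =>
      have he : e ∈ posSys S := List.mem_iff_getElem?.2 ⟨k, hk⟩
      obtain ⟨a, ha, ha'⟩ := tc_aux (chE S) k e z hσ hε.1 hε.2 hz0 hσz (hz e he)
      refine ⟨a, ha, fun e' he' => ?_⟩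
      simp only [Option.some.injEq] at he'
      subst he'
      exact ha'
  choose a ha ha' using key
  have h01 : ∀ v, 0 < n8y σ ε z a v ∧ n8y σ ε z a v < 1 := by
    intro v
    unfold n8y
    split
    · exact ⟨mul_pos hσ (hz0 _), hσz _⟩
    · exact ht _
    · exact hq _
    · exact hε
    · exact ha _ _
    · norm_num
  refine ⟨n8y σ ε z a, h01, fun c hc => ?_⟩
  rw [strictSys, List.mem_append] at hc
  rcases hc with hc | hc
  · exact chains_complete (chE S) (chE' S) _ (fun j => rfl) (fun j => rfl) rfl c hc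
  · rw [List.mem_flatMap] at hc
    obtain ⟨⟨e, k⟩, hek, hc⟩ := hc
    rw [List.mk_mem_zipIdx_iff_getElem?] at hek
    refine ha' k e hek _ (fun x => rfl) ?_ rfl (fun j => rfl) c hc
    rw [hE0]; rfl

end Pool.Agent.H54R
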