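import Pool.Agent.Lib.H54R.NDefs

/-! # Chunk N9: renumbering -/

set_option autoImplicit false

namespace Pool.Agent.H54R

/-- N9 (S). `TC.Holds` of the renumbered constraint: `List.map_map`. -/
theorem renTC_holds (C : List (TC Nm)) (c : TC Nm) (y : ℕ → ℝ) :
    (renTC C c).Holds y ↔ c.Holds fun v => y (renm C v) := by
  simp only [TC.Holds, renTC, List.map_map]
  rfl

/-- N9 (S). -/
theorem ren_sound (C : List (TC Nm)) (y : ℕ → ℝ) (h : TSol (renSys C) y) :
    TSol C fun v => y (renm C v) := by
  refine ⟨fun v => h.1 _, fun c hc => ?_⟩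
  rw [← renTC_holds]
  exact h.2 _ (List.mem_append_left _ (List.mem_map_of_mem hc))

lemma n9_getD (V : List Nm) (v : Nm) (hv : v ∈ V) : V.getD (V.idxOf v) [] = v := by
  have h := List.idxOf_lt_length_iff.2 hv
  rw [List.getD_eq_getElem _ _ h, List.getElem_idxOf h]

lemma n9_congr {V : Type} {c : TC V} {y y' : V → ℝ} (h : ∀ v ∈ c.2.1 ++ c.2.2, y v = y' v) :
    c.Holds y ↔ c.Holds y' := by
  have h1 : c.2.1.map y = c.2.1.map y' :=
    List.map_congr_left fun v hv => h v (List.mem_append_left _ hv)
  have h2 : c.2.2.map y = c.2.2.map y' :=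
    List.map_congr_left fun v hv => h v (List.mem_append_right _ hv)
  unfold TC.Holds
  rw [h1, h2]

/-- N9 (S/M). PROOF. `y' i = y ((occ C).getD i [])`. For `c ∈ C` and a name `v` of `c`, `v ∈ occ C`,
so `(occ C).getD (renm C v) [] = v` (`List.getElem_idxOf`) and `(renTC C c).Holds y' ↔ c.Holds y`
(`renTC_holds`, `List.map_congr_left`). The added constraints: `x * x < x` for `0 < x < 1`. -/
theorem ren_complete (C : List (TC Nm)) (y : Nm → ℝ) (h : TSol C y) :
    ∃ y' : ℕ → ℝ, TSol (renSys C) y' := by
  refine ⟨fun i => y ((occ C).getD i []), fun i => h.1 _, fun t ht => ?_⟩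
  rw [renSys, List.mem_append, List.mem_map, List.mem_map] at ht
  rcases ht with ⟨c, hc, rfl⟩ | ⟨i, -, rfl⟩
  · rw [renTC_holds]
    refine (n9_congr fun v hv => ?_).1 (h.2 c hc)
    have hv' : v ∈ occ C := List.mem_flatMap.2 ⟨c, hc, hv⟩
    show y v = y ((occ C).getD ((occ C).idxOf v) [])
    rw [n9_getD _ _ hv']
  · have h1 := h.1 ((occ C).getD i [])
    simp only [TC.Holds, if_true, List.map_cons, List.map_nil, List.prod_cons, List.prod_nil,
      mul_one]
    nlinarith

/-- N9 (S). `renm C v < (occ C).length` for the names of the members of `C`. -/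
theorem renSys_good (C : List (TC Nm)) (hC : ∀ c ∈ C, TC.Shape c) :
    ∀ t ∈ renSys C, TC.Good (occ C).length t := by
  intro t ht
  rw [renSys, List.mem_append, List.mem_map, List.mem_map] at ht
  rcases ht with ⟨c, hc, rfl⟩ | ⟨i, hi, rfl⟩
  · have hv : ∀ v ∈ c.2.1 ++ c.2.2, renm C v < (occ C).length := fun v hv =>
      List.idxOf_lt_length_iff.2 (List.mem_flatMap.2 ⟨c, hc, hv⟩)
    refine ⟨?_, fun i hi => ?_, fun i hi => ?_⟩
    · have := hC c hc
      simpa [TC.Shape, renTC] using this
    · simp only [renTC, List.mem_map] at hi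
      obtain ⟨v, h1, rfl⟩ := hi
      exact hv v (List.mem_append_left _ h1)
    · simp only [renTC, List.mem_map] at hi
      obtain ⟨v, h1, rfl⟩ := hi
      exact hv v (List.mem_append_right _ h1)
  · rw [List.mem_range] at hi
    refine ⟨Or.inl ⟨rfl, by simp, by simp⟩, ?_, ?_⟩
    · intro j hj
      have : j = i := by simpa using hj
      omega
    · intro j hj
      have : j = i := by simpa using hj
      omega

lemma n9_tcEqs (E k : ℕ) (e : SQ) : ∀ c ∈ tcEqs E k e, TC.Shape c := by
  intro c hc
  unfold tcEqs at hc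
  split_ifs at hc
  · simp only [List.mem_cons, List.not_mem_nil, or_false] at hc
    rcases hc with rfl | rfl | rfl | rfl | rfl | rfl | rfl | rfl <;> simp [TC.Shape]
  · simp only [List.mem_cons, List.not_mem_nil, or_false] at hc
    rcases hc with rfl | rfl | rfl | rfl <;> simp [TC.Shape]
  · simp only [List.mem_cons, List.not_mem_nil, or_false] at hc
    rcases hc with rfl | rfl <;> simp [TC.Shape]

/-- N9 (S). Unfold everything; the members of `chains` and `tcEqs` are explicit. -/
theorem strictSys_shape (S : List SQ) : ∀ c ∈ strictSys S, TC.Shape c := by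
  intro c hc
  rw [strictSys, List.mem_append] at hc
  rcases hc with hc | hc
  · simp only [chains, List.mem_cons, List.mem_append, List.mem_map, List.mem_range] at hc
    rcases hc with rfl | rfl | rfl | ⟨j, -, rfl⟩ | ⟨j, -, rfl⟩ <;> simp [TC.Shape]
  · rw [List.mem_flatMap] at hc
    obtain ⟨p, -, hc⟩ := hc
    exact n9_tcEqs _ _ _ c hc

/-- N9 (S). `chains` has a first element. -/
theorem renSys_ne_nil (S : List SQ) : renSys (strictSys S) ≠ [] := by
  simp [renSys, strictSys, chains]

end Pool.Agent.H54R
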