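import Pool.Agent.Lib.H54R.N3
import Pool.Agent.Lib.H54R.N7
import Pool.Agent.Lib.H54R.N8
import Pool.Agent.Lib.H54R.N9
import Pool.Agent.Lib.H54R.N12

/-! # Chunk N13: the ring system of a formula -/

set_option autoImplicit false

namespace Pool.Agent.H54R

open Pool.Agent.MinRank

/-- N13 (S). `wf_ringSys`, `renSys_good`, `strictSys_shape`, `renSys_ne_nil`. -/
theorem toRS_wf (φ : Formula) : (toRS φ).WF := by
  refine wf_ringSys (renSys_good _ (strictSys_shape _)) (renSys_ne_nil _) fun i hi => ?_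
  rw [renSys, List.mem_append]
  right
  exact List.mem_map.2 ⟨i, List.mem_range.2 hi, rfl⟩

lemma n13_num (E : ℕ) (hE : 2 ≤ E) :
    3 * ((2 : ℝ) ^ (2 ^ E) + 1) ^ 2 ≤ 2 ^ (2 ^ (E + 2)) := by
  have h0 : (2 : ℝ) ^ (2 ^ (E + 2)) = (2 ^ (2 ^ E)) ^ 4 := by
    rw [← pow_mul, pow_add]; norm_num
  have h1 : (16 : ℝ) ≤ 2 ^ (2 ^ E) := by
    have h2 : 2 ^ 2 ≤ 2 ^ E := Nat.pow_le_pow_right (by norm_num) hE
    calc (16 : ℝ) = 2 ^ (2 ^ 2) := by norm_num
      _ ≤ 2 ^ (2 ^ E) := pow_le_pow_right₀ (by norm_num) h2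
  rw [h0]
  set R : ℝ := 2 ^ (2 ^ E)
  nlinarith [mul_self_nonneg R, mul_self_nonneg (R * R), mul_nonneg (by linarith : (0:ℝ) ≤ R)
    (by linarith : (0:ℝ) ≤ R), pow_pos (by linarith : (0:ℝ) < R) 3]

/-- N13 (S/M). Left to right: `sat_ringSys`, `ren_sound`, `strict_sound`, `pos_sound`,
`simpleSys_iff`. Right to left: `simpleSys_iff`, `gapN_exact` with `N = szN S`, `pos_complete` with
`R = 2^(2^gE1 N)`: values in `[1, 3 (R + 1)^2]`, and `3 (R + 1)^2 ≤ 12 R^2 ≤ R^4 = 2^(2^(gE1 N + 2))`;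
`strict_complete` with `E0 = gE1 N + 2`, `ren_complete`. -/
theorem toRS_sat (φ : Formula) : (toRS φ).Sat ↔ φ ∈ ETR := by
  have hgood := renSys_good _ (strictSys_shape (simpleSys φ))
  constructor
  · intro h
    obtain ⟨x, hx⟩ := (sat_ringSys hgood).1 h
    obtain ⟨z, hz⟩ := strict_sound _ _ (ren_sound _ _ hx)
    exact (simpleSys_iff φ).1 ⟨_, pos_sound _ _ hz⟩
  · intro h
    have h1 := (simpleSys_iff φ).2 h
    have hN : 3 * (simpleSys φ).length ≤ szN (simpleSys φ) := by unfold szN; omega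
    obtain ⟨y, hy, hy0⟩ := gapN_exact _ hN h1
    have hR : (1 : ℝ) ≤ 2 ^ (2 ^ gE1 (szN (simpleSys φ))) := one_le_pow₀ (by norm_num)
    obtain ⟨z, hz, hz1⟩ := pos_complete _ y hR hy hy0
    have hE : 2 ≤ gE1 (szN (simpleSys φ)) := by
      unfold gE1
      nlinarith [Nat.zero_le (szN (simpleSys φ))]
    obtain ⟨y', hy'⟩ := strict_complete (simpleSys φ) z hz (fun v => (hz1 v).1)
      (E0 := gE1 (szN (simpleSys φ)) + 2) rfl
      (fun v => (hz1 v).2.trans (n13_num _ hE))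
    exact (sat_ringSys hgood).2 (ren_complete _ y' hy')

end Pool.Agent.H54R
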