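import Pool.Agent.Lib.H54R.NTools

/-! # Chunk N14: polynomial time, equations -/

set_option autoImplicit false

namespace Pool.Agent.H54R

open Pool.Agent.PolyTime Pool.Agent.MinRank

variable {α : Type} [Enc α]

/-- N14 (S). Names: `unfold nmV; fun_prop`. -/
@[fun_prop] theorem PT_nmV {f : α → ℕ} (hf : PT f) : PT fun a => nmV (f a) := by
  unfold nmV
  fun_prop

@[fun_prop] theorem PT_nmW {f g : α → ℕ} (hf : PT f) (hg : PT g) :
    PT fun a => nmW (f a) (g a) := by
  unfold nmW
  fun_prop

@[fun_prop] theorem PT_nmD {f g : α → ℕ} (hf : PT f) (hg : PT g) :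
    PT fun a => nmD (f a) (g a) := by
  unfold nmD
  fun_prop

/-- N14 (S/M). `PT.flatMap`, `PT.zipIdx`, `PT.bif`. -/
theorem PT_digEqs {k : α → ℕ} {l : α → List Bool} (hk : PT k) (hl : PT l) :
    PT fun a => digEqs (k a) (l a) := by
  unfold digEqs
  refine PT.flatMap (f := fun a (p : Bool × ℕ) =>
    [((0, nmW (k a) (p.2 + 1), nmW (k a) (p.2 + 1), nmD (k a) p.2) : SQ),
      (0, nmD (k a) p.2, (bif p.1 then nmOne else nmZero), nmW (k a) p.2)]) ?_ (PT.zipIdx hl)
  have hk' : PT fun p : α × (Bool × ℕ) => k p.1 := hk.comp PT.fst'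
  have hb : PT fun p : α × (Bool × ℕ) => (bif p.2.1 then nmOne else nmZero) :=
    PT.bif (by fun_prop) (PT.const _) (PT.const _)
  fun_prop

/-- N14 (S). An integer is encoded by the pair (sign, absolute value). -/
@[fun_prop] theorem PT_natAbs {c : α → ℤ} (hc : PT c) : PT fun a => (c a).natAbs := by
  have h : PT fun a => (decide (c a < 0), (c a).natAbs) := hc
  exact PT.snd h

theorem PT_neg_decide {c : α → ℤ} (hc : PT c) : PT fun a => decide (c a < 0) := by
  have h : PT fun a => (decide (c a < 0), (c a).natAbs) := hc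
  exact PT.fst h

theorem PT_constEqs {k : α → ℕ} {v : α → Nm} {c : α → ℤ} (hk : PT k) (hv : PT v) (hc : PT c) :
    PT fun a => constEqs (k a) (v a) (c a) := by
  unfold constEqs
  have h1 : PT fun a => digEqs (k a) (c a).natAbs.bits := PT_digEqs hk (by fun_prop)
  have h2 : PT fun a => (if c a < 0 then ((0, v a, nmW (k a) 0, nmZero) : SQ)
      else (0, v a, nmZero, nmW (k a) 0)) :=
    PT.ite (p := fun a => c a < 0) (PT_neg_decide hc) (by fun_prop) (by fun_prop)
  fun_prop

/-- N14 (S). `PT.sumCases`; a rational number is encoded by the pair (numerator, denominator). -/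
@[fun_prop] theorem PT_varOf {x : α → ℚ ⊕ ℕ} (hx : PT x) : PT fun a => varOf (x a) := by
  refine (PT.sumCases (o := x) (f := fun _ _ => 0) (g := fun _ v => v / 2) hx (by fun_prop)
    (by fun_prop)).congr fun a => ?_
  unfold varOf
  cases x a <;> rfl

@[fun_prop] theorem PT_numOf {x : α → ℚ ⊕ ℕ} (hx : PT x) : PT fun a => numOf (x a) := by
  have hq : PT fun p : α × ℚ => p.2.num := by
    have h : PT fun p : α × ℚ => (p.2.num, p.2.den) := (PT.snd' : PT fun p : α × ℚ => p.2)
    exact PT.fst h
  refine (PT.sumCases (o := x) (f := fun _ q => q.num) (g := fun _ _ => (0 : ℤ)) hx hq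
    (by fun_prop)).congr fun a => ?_
  unfold numOf
  cases x a <;> rfl

@[fun_prop] theorem PT_isVar {x : α → ℚ ⊕ ℕ} (hx : PT x) : PT fun a => isVar (x a) := by
  refine (PT.sumCases (o := x) (f := fun _ _ => false) (g := fun _ _ => true) hx (by fun_prop)
    (by fun_prop)).congr fun a => ?_
  unfold isVar
  cases x a <;> rfl

@[fun_prop] theorem PT_entr {B : α → Block} (hB : PT B) (i : ℕ) : PT fun a => entr (B a) i := by
  unfold entr
  fun_prop

theorem PT_blockEqs {k : α → ℕ} {B : α → Block} (hk : PT k) (hB : PT B) :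
    PT fun a => blockEqs (k a) (B a) := by
  unfold blockEqs
  refine PT.bif (by fun_prop) (PT_constEqs hk (by fun_prop) (by fun_prop)) ?_
  exact PT.bif (by fun_prop) (by fun_prop) (by fun_prop)

theorem PT_blocksEqs {L : α → List Block} (hL : PT L) : PT fun a => blocksEqs (L a) := by
  unfold blocksEqs
  have h1 : PT fun a => (L a).zipIdx.flatMap fun p => blockEqs p.2 p.1 :=
    PT.flatMap (f := fun (_ : α) (p : Block × ℕ) => blockEqs p.2 p.1)
      (PT_blockEqs (by fun_prop) (by fun_prop)) (PT.zipIdx hL)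
  fun_prop

/-- N14 (S). `PT_sysOf`, `PT_rpn`. -/
theorem PT_simpleSys {f : α → Formula} (hf : PT f) : PT fun a => simpleSys (f a) :=
  PT_blocksEqs (PT_sysOf (PT_rpn hf))

end Pool.Agent.H54R
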