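import Pool.Agent.Lib.H54R.NTools

/-! # Chunk N15: polynomial time, positive and strict systems -/

set_option autoImplicit false

namespace Pool.Agent.H54R

open Pool.Agent.PolyTime Pool.Agent.MinRank

variable {α : Type} [Enc α]

@[fun_prop] lemma n15_nmP {f : α → Nm} (hf : PT f) : PT fun a => nmP (f a) := by
  unfold nmP; fun_prop

@[fun_prop] lemma n15_nmN {f : α → Nm} (hf : PT f) : PT fun a => nmN (f a) := by
  unfold nmN; fun_prop

@[fun_prop] lemma n15_nmA {f g : α → ℕ} (hf : PT f) (hg : PT g) :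
    PT fun a => nmA (f a) (g a) := by
  unfold nmA; fun_prop

@[fun_prop] lemma n15_nmU {f : α → Nm} (hf : PT f) : PT fun a => nmU (f a) := by
  unfold nmU; fun_prop

@[fun_prop] lemma n15_nmT {f : α → ℕ} (hf : PT f) : PT fun a => nmT (f a) := by
  unfold nmT; fun_prop

@[fun_prop] lemma n15_nmQ {f : α → ℕ} (hf : PT f) : PT fun a => nmQ (f a) := by
  unfold nmQ; fun_prop

@[fun_prop] lemma n15_nmH {f g : α → ℕ} (hf : PT f) (hg : PT g) :
    PT fun a => nmH (f a) (g a) := by
  unfold nmH; fun_prop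

/-- N15 (S/M). `PT.ite` with `PT.decide_eq`, `PT.cons`, `PT.pair`; names by `unfold`. -/
theorem PT_posEqs {k : α → ℕ} {e : α → SQ} (hk : PT k) (he : PT e) :
    PT fun a => posEqs (k a) (e a) := by
  unfold posEqs
  refine PT.ite (p := fun a => (e a).1 = 0) (PT.decide_eq (by fun_prop) (by fun_prop)) ?_ ?_
  · fun_prop
  · refine PT.ite (p := fun a => (e a).1 = 1) (PT.decide_eq (by fun_prop) (by fun_prop)) ?_ ?_
    · fun_prop
    · fun_prop

theorem PT_posSys {S : α → List SQ} (hS : PT S) : PT fun a => posSys (S a) := by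
  unfold posSys
  exact PT.flatMap (f := fun (_ : α) (p : SQ × ℕ) => posEqs p.2 p.1)
    (PT_posEqs (by fun_prop) (by fun_prop)) (PT.zipIdx hS)

theorem PT_tcEqs {E k : α → ℕ} {e : α → SQ} (hE : PT E) (hk : PT k) (he : PT e) :
    PT fun a => tcEqs (E a) (k a) (e a) := by
  unfold tcEqs
  refine PT.ite (p := fun a => (e a).1 = 0) (PT.decide_eq (by fun_prop) (by fun_prop)) ?_ ?_
  · fun_prop
  · refine PT.ite (p := fun a => (e a).1 = 1) (PT.decide_eq (by fun_prop) (by fun_prop)) ?_ ?_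
    · fun_prop
    · fun_prop

/-- N15 (S/M). `PT_rangeN` (NTools.lean) needs the polynomial bounds. -/
theorem PT_chains {E E' : α → ℕ} (hE : PT E) (hE' : PT E') (hb : PBd E) (hb' : PBd E') :
    PT fun a => chains (E a) (E' a) := by
  unfold chains
  have h1 : PT fun a => (List.range (E a)).map fun j =>
      ((0, [nmT j, nmT j], [nmT (j + 1)]) : TC Nm) :=
    PT.map (f := fun (_ : α) (j : ℕ) => ((0, [nmT j, nmT j], [nmT (j + 1)]) : TC Nm))
      (by fun_prop) (PT_rangeN hE hb)
  have h2 : PT fun a => (List.range (E' a)).map fun j =>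
      ((0, [nmQ (j + 1)], [nmQ j, nmQ j]) : TC Nm) :=
    PT.map (f := fun (_ : α) (j : ℕ) => ((0, [nmQ (j + 1)], [nmQ j, nmQ j]) : TC Nm))
      (by fun_prop) (PT_rangeN hE' hb')
  fun_prop

lemma n15_szN {S : α → List SQ} (hS : PT S) : PT fun a => szN (S a) := by
  unfold szN
  fun_prop

lemma n15_gE1 {f : α → ℕ} (hf : PT f) : PT fun a => gE1 (f a) := by
  have h : PT fun a => 2 * ((f a + 2) * (f a + 2)) := by fun_prop
  refine h.congr fun a => ?_
  unfold gE1
  ring

lemma n15_gE2 {f : α → ℕ} (hf : PT f) : PT fun a => gE2 (f a) := by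
  have h : PT fun a => (f a + 2) * (f a + 2) + 4 := by fun_prop
  refine h.congr fun a => ?_
  unfold gE2
  ring

lemma n15_bszN {S : α → List SQ} (hS : PT S) : PBd fun a => szN (S a) := by
  unfold szN
  exact (PBd.const 24).mul (PBd_length hS)

lemma n15_bgE1 {f : α → ℕ} (hf : PBd f) : PBd fun a => gE1 (f a) :=
  (PBd.const 2).mul ((hf.add (PBd.const 2)).pow 2)

lemma n15_bgE2 {f : α → ℕ} (hf : PBd f) : PBd fun a => gE2 (f a) :=
  ((hf.add (PBd.const 2)).pow 2).add (PBd.const 4)

/-- N15 (S). Polynomials in the length of `S` (`PT.length`, `PT.mul`, `PT.add`; powers `x ^ 2` as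
`x * x`); `PBd.mul`, `PBd.add`, `length_lt_sz`, `PT.bdd`. -/
theorem PT_chE {S : α → List SQ} (hS : PT S) : PT fun a => chE (S a) := by
  unfold chE
  exact PT.add (n15_gE1 (n15_szN hS)) (PT.const 3)

theorem PT_chE' {S : α → List SQ} (hS : PT S) : PT fun a => chE' (S a) := by
  unfold chE'
  exact PT.add (PT.add (PT_chE hS) (n15_gE2 (n15_szN hS))) (PT.const 2)

theorem PBd_chE {S : α → List SQ} (hS : PT S) : PBd fun a => chE (S a) := by
  unfold chE
  exact (n15_bgE1 (n15_bszN hS)).add (PBd.const 3)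

theorem PBd_chE' {S : α → List SQ} (hS : PT S) : PBd fun a => chE' (S a) := by
  unfold chE'
  exact ((PBd_chE hS).add (n15_bgE2 (n15_bszN hS))).add (PBd.const 2)

theorem PT_strictSys {S : α → List SQ} (hS : PT S) : PT fun a => strictSys (S a) := by
  unfold strictSys
  refine PT.append (PT_chains (PT_chE hS) (PT_chE' hS) (PBd_chE hS) (PBd_chE' hS)) ?_
  exact PT.flatMap (f := fun (a : α) (p : SQ × ℕ) => tcEqs (chE (S a)) p.2 p.1)
    (PT_tcEqs ((PT_chE hS).comp PT.fst') (by fun_prop) (by fun_prop)) (PT.zipIdx (PT_posSys hS))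

end Pool.Agent.H54R
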