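import Pool.Agent.Lib.H54R.N14
import Pool.Agent.Lib.H54R.N15

/-! # Chunk N16: polynomial time, renumbering and rings -/

set_option autoImplicit false

namespace Pool.Agent.H54R

open Pool.Agent.PolyTime Pool.Agent.MinRank

variable {α : Type} [Enc α]

theorem PT_occ {C : α → List (TC Nm)} (hC : PT C) : PT fun a => occ (C a) := by
  unfold occ
  exact PT.flatMap (f := fun (_ : α) (c : TC Nm) => c.2.1 ++ c.2.2) (by fun_prop) hC

/-- N16 (S/M). `PT_idxOf` (NTools.lean; `EncInj` of lists of numbers). -/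
theorem PT_renm {C : α → List (TC Nm)} {v : α → Nm} (hC : PT C) (hv : PT v) :
    PT fun a => renm (C a) (v a) := by
  unfold renm
  refine (PT_idxOf (PT_occ hC) hv).congr fun a => ?_
  have h : (instBEqOfDecidableEq : BEq Nm) = List.instBEq := lawful_beq_subsingleton _ _
  rw [h]

theorem PT_renTC {C : α → List (TC Nm)} {c : α → TC Nm} (hC : PT C) (hc : PT c) :
    PT fun a => renTC (C a) (c a) := by
  unfold renTC
  have h1 : ∀ l : α → List Nm, PT l → PT fun a => (l a).map (renm (C a)) := fun l hl =>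
    PT.map (f := fun (a : α) (v : Nm) => renm (C a) v) (PT_renm (hC.comp PT.fst') PT.snd') hl
  exact PT.pair (by fun_prop) (PT.pair (h1 _ (by fun_prop)) (h1 _ (by fun_prop)))

/-- N16 (S). `PT.map`, `PT.append`, `PT.rangeLength`. -/
theorem PT_renSys {C : α → List (TC Nm)} (hC : PT C) : PT fun a => renSys (C a) := by
  unfold renSys
  refine PT.append ?_ ?_
  · exact PT.map (f := fun (a : α) (c : TC Nm) => renTC (C a) c)
      (PT_renTC (hC.comp PT.fst') PT.snd') hC
  · exact PT.map (f := fun (_ : α) (i : ℕ) => ((0, [i, i], [i]) : TC ℕ)) (by fun_prop)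
      (PT.rangeLength (PT_occ hC))

/-- N16 (S). `PT.optionCases`, `PT.getElem?`. -/
@[fun_prop] theorem PT_opM {A : α → List ℕ} {d : α → ℕ × ℕ} (hA : PT A) (j : ℕ) (hd : PT d) :
    PT fun a => opM (A a) j (d a) := by
  refine (PT.optionCases (o := fun a => (A a)[j]?) (f := fun a => d a)
    (g := fun _ i => ((2, i) : ℕ × ℕ)) (by fun_prop) hd (by fun_prop)).congr fun a => ?_
  unfold opM
  cases (A a)[j]? <;> rfl

@[fun_prop] theorem PT_opI {A : α → List ℕ} {d : α → ℕ × ℕ} (hA : PT A) (j : ℕ) (hd : PT d) :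
    PT fun a => opI (A a) j (d a) := by
  refine (PT.optionCases (o := fun a => (A a)[j]?) (f := fun _ => opP)
    (g := fun a _ => d a) (by fun_prop) (by fun_prop) (hd.comp PT.fst')).congr fun a => ?_
  unfold opI
  cases (A a)[j]? <;> rfl

@[fun_prop] lemma n16_opD {k : α → ℕ} (hk : PT k) : PT fun a => opD (k a) := by
  unfold opD; fun_prop

theorem PT_ringOps {c : α → ℕ} {t : α → TC ℕ} (hc : PT c) (ht : PT t) :
    PT fun a => ringOps (c a) (t a) := by
  unfold ringOps
  refine PT.ite (p := fun a => (t a).1 = 0) (PT.decide_eq (by fun_prop) (by fun_prop)) ?_ ?_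
  · fun_prop
  · refine PT.ite (p := fun a => (t a).1 = 1) (PT.decide_eq (by fun_prop) (by fun_prop)) ?_ ?_
    · fun_prop
    · fun_prop

theorem PT_ringSys {n : α → ℕ} {C : α → List (TC ℕ)} (hn : PT n) (hC : PT C) :
    PT fun a => ringSys (n a) (C a) := by
  unfold ringSys
  refine PT.pair (by fun_prop) ?_
  exact PT.flatMap (f := fun (_ : α) (p : TC ℕ × ℕ) => ringOps p.2 p.1)
    (PT_ringOps (by fun_prop) (by fun_prop)) (PT.zipIdx hC)

/-- N16 (S). -/
theorem PT_toRS {f : α → Formula} (hf : PT f) : PT fun a => toRS (f a) := by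
  unfold toRS
  have h := PT_strictSys (PT_simpleSys hf)
  exact PT_ringSys (PT.length (PT_occ h)) (PT_renSys h)

end Pool.Agent.H54R
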