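import Pool.Agent.Lib.H54R.NDefs

/-! # Chunk N2: binary expansions -/

set_option autoImplicit false

namespace Pool.Agent.H54R

open Pool.Agent.PolyTime Pool.Agent.MinRank

lemma n2_drop {l : List Bool} {i : ℕ} {b : Bool} (h : l[i]? = some b) :
    l.drop i = b :: l.drop (i + 1) := by
  obtain ⟨hi, rfl⟩ := List.getElem?_eq_some_iff.1 h
  exact List.drop_eq_getElem_cons hi

lemma n2_val {l : List Bool} {i : ℕ} {b : Bool} (h : l[i]? = some b) :
    ((val (l.drop i) : ℕ) : ℝ) = 2 * (val (l.drop (i + 1)) : ℕ) + (if b then 1 else 0) := by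
  rw [n2_drop h, val_cons]
  cases b <;> simp [add_comm]

/-- N2 (S/M). PROOF. By induction on the length of `l.drop i`, downwards from `i = l.length`
(or on `l.length - i`): `y (W k i) = val (l.drop i)`. For `i = l.length` this is `hend`; for
`i < l.length`, `l.drop i = b :: l.drop (i + 1)` with `(b, i) ∈ l.zipIdx`
(`List.mk_mem_zipIdx_iff_getElem?`, `List.drop_eq_getElem_cons`), and the two equations give
`y (W k i) = 2 * y (W k (i + 1)) + b`; `val (b :: t) = b + 2 * val t` (file PolyTime/Nat.lean or
Subsets.lean: unfold `val`). -/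
theorem digEqs_sound (k : ℕ) (l : List Bool) (y : Nm → ℝ) (h : Zero (digEqs k l) y)
    (h1 : y nmOne = 1) (h0 : y nmZero = 0) (hend : y (nmW k l.length) = 0) :
    ∀ i ≤ l.length, y (nmW k i) = (val (l.drop i) : ℕ) := by
  have key : ∀ d, ∀ i, i + d = l.length → y (nmW k i) = (val (l.drop i) : ℕ) := by
    intro d
    induction d with
    | zero =>
      intro i hi
      rw [add_zero] at hi
      subst hi
      rw [hend, List.drop_length]
      simp
    | succ d ih =>
      intro i hi
      have h2 := ih (i + 1) (by omega)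
      have hb : l[i]? = some l[i] := List.getElem?_eq_getElem (by omega)
      have hm : (l[i], i) ∈ l.zipIdx := by
        rw [List.mk_mem_zipIdx_iff_getElem?]; exact hb
      have e1 : SQ.res y (0, nmW k (i + 1), nmW k (i + 1), nmD k i) = 0 :=
        h _ (List.mem_flatMap.2 ⟨_, hm, by simp⟩)
      have e2 : SQ.res y (0, nmD k i, (bif l[i] then nmOne else nmZero), nmW k i) = 0 :=
        h _ (List.mem_flatMap.2 ⟨_, hm, by simp⟩)
      rw [n2_val hb]
      simp only [SQ.res, if_true] at e1 e2
      cases hbb : l[i]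
      · rw [hbb] at e2
        simp only [cond_false, h0] at e2
        simp
        linarith
      · rw [hbb] at e2
        simp only [cond_true, h1] at e2
        simp
        linarith
  intro i hi
  exact key (l.length - i) i (by omega)

/-- N2 (S/M). Conversely these values satisfy the equations. -/
theorem digEqs_complete (k : ℕ) (l : List Bool) (y : Nm → ℝ) (h1 : y nmOne = 1)
    (h0 : y nmZero = 0) (hW : ∀ i, y (nmW k i) = (val (l.drop i) : ℕ))
    (hD : ∀ i, y (nmD k i) = 2 * (val (l.drop (i + 1)) : ℕ)) : Zero (digEqs k l) y := by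
  intro e he
  rw [digEqs, List.mem_flatMap] at he
  obtain ⟨⟨b, i⟩, hb, he⟩ := he
  rw [List.mk_mem_zipIdx_iff_getElem?] at hb
  simp only [List.mem_cons, List.not_mem_nil, or_false] at he
  rcases he with rfl | rfl
  · simp only [SQ.res, if_true]
    rw [hW, hD]; ring
  · simp only [SQ.res, if_true]
    rw [hW, hD, n2_val hb]
    cases b <;> simp [h0, h1]

/-- N2 (S). `digEqs_sound` with `l = c.natAbs.bits`, `i = 0`: `y (W k 0) = val c.natAbs.bits =
c.natAbs` (`val_bits`); the sign by cases. -/
theorem constEqs_sound (k : ℕ) (v : Nm) (c : ℤ) (y : Nm → ℝ) (h : Zero (constEqs k v c) y)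
    (h1 : y nmOne = 1) (h0 : y nmZero = 0) : y v = (c : ℝ) := by
  have e1 : SQ.res y (0, nmW k c.natAbs.bits.length, nmZero, nmZero) = 0 :=
    h _ (by simp [constEqs])
  have e2 : SQ.res y (if c < 0 then (0, v, nmW k 0, nmZero) else (0, v, nmZero, nmW k 0)) = 0 :=
    h _ (by simp [constEqs])
  have e3 : y (nmW k c.natAbs.bits.length) = 0 := by
    simp only [SQ.res, if_true] at e1
    linarith
  have e4 := digEqs_sound k c.natAbs.bits y (fun e he => h e (by simp [constEqs, he])) h1 h0 e3 0
    (Nat.zero_le _)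
  rw [List.drop_zero, val_bits] at e4
  have e5 : ((c.natAbs : ℕ) : ℝ) = |(c : ℝ)| := by
    rw [Nat.cast_natAbs]; simp
  rw [e5] at e4
  by_cases hc : c < 0
  · rw [if_pos hc] at e2
    simp only [SQ.res, if_true] at e2
    have : |(c : ℝ)| = -c := abs_of_neg (by exact_mod_cast hc)
    linarith
  · rw [if_neg hc] at e2
    simp only [SQ.res, if_true] at e2
    have : |(c : ℝ)| = c := abs_of_nonneg (by exact_mod_cast not_lt.1 hc)
    linarith

/-- N2 (S). `val [] = 0` for the equation at the end. -/
theorem constEqs_complete (k : ℕ) (v : Nm) (c : ℤ) (y : Nm → ℝ) (h1 : y nmOne = 1)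
    (h0 : y nmZero = 0) (hv : y v = (c : ℝ))
    (hW : ∀ i, y (nmW k i) = (val (c.natAbs.bits.drop i) : ℕ))
    (hD : ∀ i, y (nmD k i) = 2 * (val (c.natAbs.bits.drop (i + 1)) : ℕ)) :
    Zero (constEqs k v c) y := by
  intro e he
  rw [constEqs, List.mem_cons, List.mem_cons] at he
  have e5 : ((c.natAbs : ℕ) : ℝ) = |(c : ℝ)| := by
    rw [Nat.cast_natAbs]; simp
  rcases he with rfl | rfl | he
  · simp only [SQ.res, if_true]
    rw [hW, List.drop_length, h0]
    simp
  · have e4 := hW 0
    rw [List.drop_zero, val_bits, e5] at e4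
    by_cases hc : c < 0
    · rw [if_pos hc]
      have : |(c : ℝ)| = -c := abs_of_neg (by exact_mod_cast hc)
      simp only [SQ.res, if_true]
      rw [h0]
      linarith
    · rw [if_neg hc]
      have : |(c : ℝ)| = c := abs_of_nonneg (by exact_mod_cast not_lt.1 hc)
      simp only [SQ.res, if_true]
      rw [h0]
      linarith
  · exact digEqs_complete k _ y h1 h0 hW hD e he

end Pool.Agent.H54R
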