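import Pool.Agent.Lib.H54R.N1
import Pool.Agent.Lib.H54R.N2

/-! # Chunk N3: a formula is in `ETR` if and only if its simple system has a solution -/

set_option autoImplicit false

namespace Pool.Agent.H54R

open Pool.Agent.PolyTime Pool.Agent.MinRank

/-- N3 (M). PROOF. `y nmOne = 1` and `y nmZero = 0` by the first two equations. Every `B ∈ L` is at
some place `k` (`List.mem_iff_getElem?` and `List.mk_mem_zipIdx_iff_getElem?`), and the equations of
`blockEqs k B` hold; by `hL` it is one of three forms: use `blockEqs_bAdd`, .. and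
`Holds.cons_add`, `Holds.cons_mul`, `Holds.cons_const` (on `[B]`, then collect: `Holds x L` is
`∀ B ∈ L, ..`). -/
theorem holds_of_zero (L : List Block) (hL : ∀ B ∈ L, IsForm B) (y : Nm → ℝ)
    (h : Zero (blocksEqs L) y) : Holds (fun v => y (nmV v)) L := by
  have h1 : y nmOne = 1 := by
    have : SQ.res y (2, nmOne, nmOne, nmOne) = 0 := h _ (by simp [blocksEqs])
    simp only [SQ.res] at this
    norm_num at this
    linarith
  have h0 : y nmZero = 0 := by
    have : SQ.res y (0, nmZero, nmZero, nmZero) = 0 := h _ (by simp [blocksEqs])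
    simp only [SQ.res, if_true] at this
    linarith
  intro B hB
  obtain ⟨k, hk⟩ := List.mem_iff_getElem?.1 hB
  have hz : Zero (blockEqs k B) y := fun e he => h e (by
    rw [blocksEqs, List.mem_cons, List.mem_cons]
    right; right
    exact List.mem_flatMap.2 ⟨(B, k), by rw [List.mk_mem_zipIdx_iff_getElem?]; exact hk, he⟩)
  rcases hL B hB with ⟨a, b, c, rfl⟩ | ⟨a, b, c, rfl⟩ | ⟨a, c, rfl⟩
  · rw [blockEqs_bAdd] at hz
    have h2 := hz _ (List.mem_singleton_self _)
    simp only [SQ.res, if_true] at h2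
    have h3 : Holds (fun v => y (nmV v)) [bAdd a b c] :=
      Holds.cons_add (by show y (nmV c) = y (nmV a) + y (nmV b); linarith) (Holds.nil _)
    exact h3 _ (List.mem_singleton_self _)
  · rw [blockEqs_bMul] at hz
    have h2 := hz _ (List.mem_singleton_self _)
    simp only [SQ.res] at h2
    norm_num at h2
    have h3 : Holds (fun v => y (nmV v)) [bMul a b c] :=
      Holds.cons_mul (by show y (nmV c) = y (nmV a) * y (nmV b); linarith) (Holds.nil _)
    exact h3 _ (List.mem_singleton_self _)
  · rw [blockEqs_bConst] at hz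
    have h2 := constEqs_sound k (nmV a) c y hz h1 h0
    have h3 : Holds (fun v => y (nmV v)) [bConst a c] :=
      Holds.cons_const h2 (Holds.nil _)
    exact h3 _ (List.mem_singleton_self _)

/-- the constant of the block with number `k` -/
def n3c (L : List Block) (k : ℕ) : ℤ :=
  match L[k]? with
  | none => 0
  | some B => numOf (entr B 1)

/-- the values of the variables -/
noncomputable def n3y (L : List Block) (x : ℕ → ℝ) : Nm → ℝ
  | [0, v] => x v
  | [1] => 1
  | [2] => 0
  | [3, k, i] => (val ((n3c L k).natAbs.bits.drop i) : ℕ)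
  | [4, k, i] => 2 * (val ((n3c L k).natAbs.bits.drop (i + 1)) : ℕ)
  | _ => 0

/-- N3 (M). PROOF. Let `cOf k` be the constant of the block at place `k`
(`numOf (entr B 1)` if `L[k]? = some B`, else `0`). Define `y : List ℕ → ℝ` by
`[0, v] ↦ x v`, `[1] ↦ 1`, `[2] ↦ 0`, `[3, k, i] ↦ val ((cOf k).natAbs.bits.drop i)`,
`[4, k, i] ↦ 2 * val ((cOf k).natAbs.bits.drop (i + 1))`, everything else `↦ 0`. For
`(B, k) ∈ L.zipIdx` use the form of `B`, `blockEqs_bAdd`, .. and `Sat.add`, `Sat.mul`, `Sat.const`
(`Holds.sat`) for the value equations, `constEqs_complete` for constants. -/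
theorem zero_of_holds (L : List Block) (hL : ∀ B ∈ L, IsForm B) (x : ℕ → ℝ) (h : Holds x L) :
    ∃ y : Nm → ℝ, Zero (blocksEqs L) y := by
  refine ⟨n3y L x, fun e he => ?_⟩
  have h1 : n3y L x nmOne = 1 := rfl
  have h0 : n3y L x nmZero = 0 := rfl
  have hv : ∀ v, n3y L x (nmV v) = x v := fun v => rfl
  rw [blocksEqs, List.mem_cons, List.mem_cons, List.mem_flatMap] at he
  rcases he with rfl | rfl | ⟨⟨B, k⟩, hk, he⟩
  · simp [SQ.res, h1]
  · simp [SQ.res, h0]
  · rw [List.mk_mem_zipIdx_iff_getElem?] at hk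
    have hB : B ∈ L := List.mem_iff_getElem?.2 ⟨k, hk⟩
    simp only at he
    rcases hL B hB with ⟨a, b, c, rfl⟩ | ⟨a, b, c, rfl⟩ | ⟨a, c, rfl⟩
    · rw [blockEqs_bAdd, List.mem_singleton] at he
      subst he
      have := h.sat.add hB
      simp only [SQ.res, if_true, hv]
      linarith
    · rw [blockEqs_bMul, List.mem_singleton] at he
      subst he
      have := h.sat.mul hB
      simp only [SQ.res, hv]
      norm_num
      linarith
    · rw [blockEqs_bConst] at he
      have hc : n3c L k = c := by
        unfold n3c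
        rw [hk]
        show numOf (entr (bConst a c) 1) = c
        simp [entr, bConst, cst, numOf]
      refine constEqs_complete k (nmV a) c _ h1 h0 ?_ (fun i => ?_) (fun i => ?_) e he
      · rw [hv]; exact h.sat.const hB
      · show ((val ((n3c L k).natAbs.bits.drop i) : ℕ) : ℝ) = _
        rw [hc]
      · show 2 * ((val ((n3c L k).natAbs.bits.drop (i + 1)) : ℕ) : ℝ) = _
        rw [hc]

/-- N3 (S). `holds_of_zero`, `form_sysOf`, `Holds.sat`, `etr_of_sat`; `holds_of_etr`,
`zero_of_holds`. -/
theorem simpleSys_iff (φ : Formula) : (∃ y : Nm → ℝ, Zero (simpleSys φ) y) ↔ φ ∈ ETR := by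
  constructor
  · rintro ⟨y, hy⟩
    exact etr_of_sat φ _ (holds_of_zero _ (form_sysOf _) y hy).sat
  · intro h
    obtain ⟨x, hx⟩ := holds_of_etr φ h
    exact zero_of_holds _ (form_sysOf _) x hx

end Pool.Agent.H54R
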