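import Pool.Agent.Lib.H54R.NDefs

/-! # Chunk N4: the positive system -/

set_option autoImplicit false

namespace Pool.Agent.H54R

/-- N4 (S/M). PROOF. Every `e ∈ S` is at some place `k`, its equations `posEqs k e` are in
`posSys S`. Cases `e.1 = 0`, `e.1 = 1`, else; the residues of the equations are linear combinations:
`linarith` / `nlinarith` / `linear_combination`. For the product:
`(Pa - Na)(Pb - Nb) = Pa Pb + Na Nb - (Pa Nb + Na Pb) = A0 + A1 - (A2 + A3) = A4 - A6
= (A5 - Nc) - (A5 - Pc) = Pc - Nc`. -/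
theorem pos_sound (S : List SQ) (y : Nm → ℝ) (h : Zero (posSys S) y) :
    Zero S fun x => y (nmP x) - y (nmN x) := by
  intro e he
  obtain ⟨k, hk⟩ := List.mem_iff_getElem?.mp he
  have hk' : (e, k) ∈ S.zipIdx := List.mk_mem_zipIdx_iff_getElem?.mpr hk
  have h1 : ∀ e' ∈ posEqs k e, SQ.res y e' = 0 := fun e' he' =>
    h e' (List.mem_flatMap.mpr ⟨(e, k), hk', he'⟩)
  by_cases h0 : e.1 = 0
  · simp only [posEqs, h0, if_true, List.mem_cons, List.not_mem_nil, or_false, forall_eq_or_imp,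
      forall_eq, SQ.res] at h1 ⊢
    obtain ⟨r0, r1, r2, r3⟩ := h1
    linear_combination r0 + r1 - r2 - r3
  by_cases h2 : e.1 = 1
  · simp only [posEqs, h2, one_ne_zero, if_false, if_true, List.mem_cons, List.not_mem_nil,
      or_false, forall_eq_or_imp, forall_eq, SQ.res] at h1 ⊢
    obtain ⟨s0, s1, s2, s3, s4, s5, s6, s7⟩ := h1
    linear_combination s0 + s1 - s2 - s3 + s4 + s5 - s6 - s7
  · simp only [posEqs, h0, h2, if_false, if_true, List.mem_cons, List.not_mem_nil, or_false,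
      forall_eq_or_imp, forall_eq, SQ.res] at h1 ⊢
    obtain ⟨t0, t1⟩ := h1
    norm_num at t0
    linear_combination t0 - t1

/-- N4 (M). One equation. `p x = max (y x) 0 + 1`, `q x = max (- y x) 0 + 1`: both are in
`[1, R + 1]`, `p x - q x = y x`. PROOF. Choose `a j` as the values of the sums and products, e.g.
for `e.1 = 0`: `a 0 = p a + p b`, `a 1 = a 0 + q c`, `a 2 = q a + q b`, other `a j = 1`; all are in
`[1, 3 (R + 1)^2]`. -/
theorem pos_aux (k : ℕ) (e : SQ) (y : Nm → ℝ) {R : ℝ} (hR : 1 ≤ R) (hy : ∀ v, |y v| ≤ R)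
    (he : SQ.res y e = 0) :
    ∃ a : ℕ → ℝ, (∀ j, 1 ≤ a j ∧ a j ≤ 3 * (R + 1) ^ 2) ∧
      ∀ z : Nm → ℝ, (∀ x, z (nmP x) = max (y x) 0 + 1) → (∀ x, z (nmN x) = max (-y x) 0 + 1) →
        (∀ j, z (nmA k j) = a j) → ∀ e' ∈ posEqs k e, SQ.res z e' = 0 := by
  obtain ⟨p, hp⟩ : ∃ p : Nm → ℝ, ∀ x, p x = max (y x) 0 + 1 := ⟨_, fun _ => rfl⟩
  obtain ⟨q, hq⟩ : ∃ q : Nm → ℝ, ∀ x, q x = max (-y x) 0 + 1 := ⟨_, fun _ => rfl⟩
  have hpq : ∀ x, p x - q x = y x := by
    intro x
    rw [hp, hq]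
    linarith [max_zero_sub_max_neg_zero_eq_self (y x)]
  have hp1 : ∀ x, 1 ≤ p x := fun x => by rw [hp]; linarith [le_max_right (y x) 0]
  have hq1 : ∀ x, 1 ≤ q x := fun x => by rw [hq]; linarith [le_max_right (-y x) 0]
  have hp2 : ∀ x, p x ≤ R + 1 := fun x => by
    rw [hp]
    have h1 : max (y x) 0 ≤ R := max_le ((le_abs_self (y x)).trans (hy x)) (by linarith)
    linarith
  have hq2 : ∀ x, q x ≤ R + 1 := fun x => by
    rw [hq]
    have h1 : max (-y x) 0 ≤ R := max_le ((neg_le_abs (y x)).trans (hy x)) (by linarith)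
    linarith
  have hM1 : R + 1 ≤ (R + 1) ^ 2 := by nlinarith
  have hM0 : 1 ≤ (R + 1) ^ 2 := by linarith
  simp only [← hp, ← hq]
  by_cases h0 : e.1 = 0
  · simp only [SQ.res, h0, if_true] at he
    refine ⟨fun j => match j with
      | 0 => p e.2.1 + p e.2.2.1
      | 1 => p e.2.1 + p e.2.2.1 + q e.2.2.2
      | 2 => q e.2.1 + q e.2.2.1
      | _ => 1, ?_, ?_⟩
    · intro j
      have b1 := hp1 e.2.1
      have b2 := hp1 e.2.2.1
      have b3 := hq1 e.2.1
      have b4 := hq1 e.2.2.1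
      have b5 := hq1 e.2.2.2
      have b6 := hp2 e.2.1
      have b7 := hp2 e.2.2.1
      have b8 := hq2 e.2.1
      have b9 := hq2 e.2.2.1
      have b10 := hq2 e.2.2.2
      beta_reduce
      split <;> constructor <;> linarith
    · intro z z1 z2 z3
      simp only [posEqs, h0, if_true, List.mem_cons, List.not_mem_nil, or_false, forall_eq_or_imp,
        forall_eq, SQ.res, z1, z2, z3]
      have c1 := hpq e.2.1
      have c2 := hpq e.2.2.1
      have c3 := hpq e.2.2.2
      refine ⟨by ring, by ring, by ring, ?_⟩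
      linear_combination c3 - c1 - c2 - he
  by_cases h2 : e.1 = 1
  · simp only [SQ.res, h2, one_ne_zero, if_false, if_true] at he
    have b1 := hp1 e.2.1
    have b2 := hp1 e.2.2.1
    have b3 := hq1 e.2.1
    have b4 := hq1 e.2.2.1
    have b5 := hq1 e.2.2.2
    have b6 := hp2 e.2.1
    have b7 := hp2 e.2.2.1
    have b8 := hq2 e.2.1
    have b9 := hq2 e.2.2.1
    have b10 := hq2 e.2.2.2
    have lo : ∀ {u v : ℝ}, 1 ≤ u → 1 ≤ v → 1 ≤ u * v := fun hu hv =>
      one_le_mul_of_one_le_of_one_le hu hv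
    have hi : ∀ {u v : ℝ}, 1 ≤ u → 1 ≤ v → u ≤ R + 1 → v ≤ R + 1 → u * v ≤ (R + 1) ^ 2 := by
      intro u v hu hv hu' hv'
      nlinarith
    have d1 := lo b1 b2
    have d2 := lo b3 b4
    have d3 := lo b1 b4
    have d4 := lo b3 b2
    have d5 := hi b1 b2 b6 b7
    have d6 := hi b3 b4 b8 b9
    have d7 := hi b1 b4 b6 b9
    have d8 := hi b3 b2 b8 b7
    refine ⟨fun j => match j with
      | 0 => p e.2.1 * p e.2.2.1
      | 1 => q e.2.1 * q e.2.2.1
      | 2 => p e.2.1 * q e.2.2.1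
      | 3 => q e.2.1 * p e.2.2.1
      | 4 => p e.2.1 * p e.2.2.1 + q e.2.1 * q e.2.2.1
      | 5 => p e.2.1 * p e.2.2.1 + q e.2.1 * q e.2.2.1 + q e.2.2.2
      | 6 => p e.2.1 * q e.2.2.1 + q e.2.1 * p e.2.2.1
      | _ => 1, ?_, ?_⟩
    · intro j
      beta_reduce
      split <;> constructor <;> linarith
    · intro z z1 z2 z3
      simp only [posEqs, h2, one_ne_zero, if_false, if_true, List.mem_cons, List.not_mem_nil,
        or_false, forall_eq_or_imp, forall_eq, SQ.res, z1, z2, z3]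
      have c1 := hpq e.2.1
      have c2 := hpq e.2.2.1
      have c3 := hpq e.2.2.2
      refine ⟨by ring, by ring, by ring, by ring, by ring, by ring, by ring, ?_⟩
      linear_combination c3 - (p e.2.2.1 - q e.2.2.1) * c1 - y e.2.1 * c2 - he
  · simp only [SQ.res, h0, h2, if_false] at he
    refine ⟨fun j => 1, fun j => ⟨le_rfl, by linarith⟩, ?_⟩
    intro z z1 z2 z3
    have c1 := hpq e.2.1
    simp only [posEqs, h0, h2, if_false, List.mem_cons, List.not_mem_nil, or_false,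
      forall_eq_or_imp, forall_eq, SQ.res, z1, z2, z3]
    norm_num
    linarith

/-- N4 (M). PROOF. Choose `a k` by `pos_aux` for the equation at place `k` (`S[k]? = some e`), `1`
otherwise. `z : List ℕ → ℝ`, `5 :: x ↦ max (y x) 0 + 1`, `6 :: x ↦ max (- y x) 0 + 1`,
`[7, k, j] ↦ a k j`, everything else `↦ 1`. -/
theorem pos_complete (S : List SQ) (y : Nm → ℝ) {R : ℝ} (hR : 1 ≤ R) (hy : ∀ v, |y v| ≤ R)
    (h : Zero S y) :
    ∃ z : Nm → ℝ, Zero (posSys S) z ∧ ∀ v, 1 ≤ z v ∧ z v ≤ 3 * (R + 1) ^ 2 := by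
  have hM1 : R + 1 ≤ (R + 1) ^ 2 := by nlinarith
  have ex : ∀ k : ℕ, ∃ a : ℕ → ℝ, (∀ j, 1 ≤ a j ∧ a j ≤ 3 * (R + 1) ^ 2) ∧
      ∀ e, S[k]? = some e → ∀ z : Nm → ℝ, (∀ x, z (nmP x) = max (y x) 0 + 1) →
        (∀ x, z (nmN x) = max (-y x) 0 + 1) →
        (∀ j, z (nmA k j) = a j) → ∀ e' ∈ posEqs k e, SQ.res z e' = 0 := by
    intro k
    rcases hk : S[k]? with _ | e
    · exact ⟨fun _ => 1, fun j => ⟨le_rfl, by linarith⟩, fun e he => by cases he⟩
    · obtain ⟨a, ha, ha'⟩ := pos_aux k e y hR hy (h e (List.mem_iff_getElem?.mpr ⟨k, hk⟩))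
      refine ⟨a, ha, fun e' he' => ?_⟩
      cases he'
      exact ha'
  choose a ha ha' using ex
  let z : Nm → ℝ := fun v => match v with
    | 5 :: x => max (y x) 0 + 1
    | 6 :: x => max (-y x) 0 + 1
    | [7, k, j] => a k j
    | _ => 1
  refine ⟨z, ?_, ?_⟩
  · intro e' he'
    obtain ⟨⟨e, k⟩, hk, he'⟩ := List.mem_flatMap.mp he'
    exact ha' k e (List.mk_mem_zipIdx_iff_getElem?.mp hk) z (fun x => rfl) (fun x => rfl)
      (fun j => rfl) e' he'
  · intro v
    simp only [z]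
    split
    · rename_i x
      have h1 : max (y x) 0 ≤ R := max_le ((le_abs_self (y x)).trans (hy x)) (by linarith)
      exact ⟨by linarith [le_max_right (y x) 0], by linarith⟩
    · rename_i x
      have h1 : max (-y x) 0 ≤ R := max_le ((neg_le_abs (y x)).trans (hy x)) (by linarith)
      exact ⟨by linarith [le_max_right (-y x) 0], by linarith⟩
    · exact ha _ _
    · exact ⟨le_rfl, by linarith⟩

/-- N4 (S). Every equation gives at most eight. -/
theorem length_posSys (S : List SQ) : (posSys S).length ≤ 8 * S.length := by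
  have h1 : ∀ k e, (posEqs k e).length ≤ 8 := by
    intro k e
    unfold posEqs
    split
    · simp
    · split <;> simp
  unfold posSys
  rw [List.length_flatMap]
  have := List.sum_le_card_nsmul (S.zipIdx.map fun p => (posEqs p.2 p.1).length) 8 (by
    intro x hx
    obtain ⟨p, _, rfl⟩ := List.mem_map.mp hx
    exact h1 _ _)
  simpa [mul_comm] using this

end Pool.Agent.H54R
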