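import Pool.Agent.Lib.H54R.Defs

/-!
# Ring systems

A ring system `((n, m), ops)` has home variables `x i` (`i < n`), fresh variables `w k` (`k < m`) and
reads `ρ = 0, 1, ..., R - 1` with operations `op ρ`: `(0, _)` plain, `(1, k)` division by the fresh
variable `k`, `(2, i)` multiplication by the home variable `i`. Even reads use `w k`, `x i`, odd reads
use `1 - w k`, `1 - x i`. Four consecutive reads form a ring; it holds if the product of the four
factors is greater than `1`.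
-/

set_option autoImplicit false

namespace Pool.Agent.H54R

/-- ring systems -/
abbrev RS : Type := (ℕ × ℕ) × List (ℕ × ℕ)

namespace RS

/-- number of home variables -/
def n (S : RS) : ℕ := S.1.1

/-- number of fresh variables -/
def m (S : RS) : ℕ := S.1.2

/-- number of reads -/
def R (S : RS) : ℕ := S.2.length

/-- number of rings -/
def K (S : RS) : ℕ := S.2.length / 4

/-- operation of a read -/
def op (S : RS) (ρ : ℕ) : ℕ × ℕ := S.2.getD ρ (0, 0)

/-- factor of a read -/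
noncomputable def fac (S : RS) (x w : ℕ → ℝ) (ρ : ℕ) : ℝ :=
  if (S.op ρ).1 = 0 then 1
  else if (S.op ρ).1 = 1 then
    (if ρ % 2 = 0 then (w (S.op ρ).2)⁻¹ else (1 - w (S.op ρ).2)⁻¹)
  else (if ρ % 2 = 0 then x (S.op ρ).2 else 1 - x (S.op ρ).2)

/-- `x`, `w` is a solution of the ring system -/
def Sol (S : RS) (x w : ℕ → ℝ) : Prop :=
  (∀ i, 0 < x i ∧ x i < 1) ∧ (∀ k, 0 < w k ∧ w k < 1) ∧
    ∀ r < S.K, 1 < S.fac x w (4 * r) * S.fac x w (4 * r + 1) * S.fac x w (4 * r + 2) *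
      S.fac x w (4 * r + 3)

/-- the ring system has a solution -/
def Sat (S : RS) : Prop := ∃ x w : ℕ → ℝ, S.Sol x w

/-- Well-formed ring systems: every fresh variable occurs in exactly one even read and exactly one
odd read, every home variable in at least one even read and in at least one odd read. -/
structure WF (S : RS) : Prop where
  len : S.R = 4 * S.K
  pos : 0 < S.K
  tag : ∀ ρ < S.R, (S.op ρ).1 ≤ 2
  div_lt : ∀ ρ < S.R, (S.op ρ).1 = 1 → (S.op ρ).2 < S.m
  mul_lt : ∀ ρ < S.R, (S.op ρ).1 = 2 → (S.op ρ).2 < S.n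
  divE : ∀ k < S.m, ∃! ρ, ρ < S.R ∧ ρ % 2 = 0 ∧ S.op ρ = (1, k)
  divO : ∀ k < S.m, ∃! ρ, ρ < S.R ∧ ρ % 2 = 1 ∧ S.op ρ = (1, k)
  mulE : ∀ i < S.n, ∃ ρ, ρ < S.R ∧ ρ % 2 = 0 ∧ S.op ρ = (2, i)
  mulO : ∀ i < S.n, ∃ ρ, ρ < S.R ∧ ρ % 2 = 1 ∧ S.op ρ = (2, i)

end RS

end Pool.Agent.H54R
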