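import Pool.Agent.Lib.H54R.G16
import Pool.Agent.Lib.H54R.Ring
import Pool.Agent.MinRank.Poly

/-!
# From formulas to ring systems: definitions (PAPER.md, 6.2 - 6.4)

Variables are named by lists of natural numbers:
`[0, v]` variables of the blocks of `MinRank.sysOf`; `[1]` one; `[2]` zero; `[3, k, i]`, `[4, k, i]`
binary expansion of the constant in block `k`; `5 :: x`, `6 :: x` positive and negative part of `x`;
`[7, k, j]` auxiliary variables of the positive system; `8 :: x` the scaled variable `x`; `[9, j]`,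
`[10, j]` chains of squares; `[11]` the factor near one; `[12, k, j]` auxiliary variables of the strict
system.
-/

set_option autoImplicit false

namespace Pool.Agent.H54R

open Pool.Agent.PolyTime Pool.Agent.MinRank

/-- names of variables -/
abbrev Nm : Type := List ℕ

/-! ### equations -/

/-- equations `(0, a, b, c)`: `a + b = c`; `(1, a, b, c)`: `a * b = c`; `(2, a, _, _)`: `a = 1` -/
abbrev SQ : Type := ℕ × Nm × Nm × Nm

/-- the residue of an equation -/
def SQ.res (y : Nm → ℝ) (e : SQ) : ℝ :=
  if e.1 = 0 then y e.2.1 + y e.2.2.1 - y e.2.2.2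
  else if e.1 = 1 then y e.2.1 * y e.2.2.1 - y e.2.2.2
  else y e.2.1 - 1

/-- all equations of the list hold -/
def Zero (S : List SQ) (y : Nm → ℝ) : Prop := ∀ e ∈ S, SQ.res y e = 0

/-! ### formulas to equations -/

/-- the variable with number `v` of the blocks -/
def nmV (v : ℕ) : Nm := [0, v]

/-- the variable with value `1` -/
def nmOne : Nm := [1]

/-- the variable with value `0` -/
def nmZero : Nm := [2]

/-- the variable with value `∑ j ≥ i, b j * 2 ^ (j - i)`, where `b` are the binary digits of the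
constant in block `k` -/
def nmW (k i : ℕ) : Nm := [3, k, i]

/-- the variable with value twice that of `nmW k (i + 1)` -/
def nmD (k i : ℕ) : Nm := [4, k, i]

/-- equations for the binary digits `l` -/
def digEqs (k : ℕ) (l : List Bool) : List SQ :=
  l.zipIdx.flatMap fun p =>
    [(0, nmW k (p.2 + 1), nmW k (p.2 + 1), nmD k p.2),
      (0, nmD k p.2, (bif p.1 then nmOne else nmZero), nmW k p.2)]

/-- equations for `v = c` -/
def constEqs (k : ℕ) (v : Nm) (c : ℤ) : List SQ :=
  (0, nmW k c.natAbs.bits.length, nmZero, nmZero) ::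
    ((if c < 0 then (0, v, nmW k 0, nmZero) else (0, v, nmZero, nmW k 0)) ::
      digEqs k c.natAbs.bits)

/-- the number of the variable of an entry of a block -/
def varOf (x : ℚ ⊕ ℕ) : ℕ :=
  match x with
  | Sum.inl _ => 0
  | Sum.inr v => v / 2

/-- the integer constant of an entry of a block -/
def numOf (x : ℚ ⊕ ℕ) : ℤ :=
  match x with
  | Sum.inl q => q.num
  | Sum.inr _ => 0

/-- the entry with number `i` of a block -/
def entr (B : Block) (i : ℕ) : ℚ ⊕ ℕ := B.getD i (cst 0)

/-- is the entry a variable? -/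
def isVar (x : ℚ ⊕ ℕ) : Bool :=
  match x with
  | Sum.inl _ => false
  | Sum.inr _ => true

/-- the equations of the block `B` with number `k` -/
def blockEqs (k : ℕ) (B : Block) : List SQ :=
  bif isVar (entr B 0) then constEqs k (nmV (varOf (entr B 0))) (numOf (entr B 1))
  else bif isVar (entr B 1) then
    [(1, nmV (varOf (entr B 1)), nmV (varOf (entr B 3)), nmV (varOf (entr B 4)))]
  else [(0, nmV (varOf (entr B 2)), nmV (varOf (entr B 5)), nmV (varOf (entr B 8)))]

/-- the system of equations of a list of blocks -/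
def blocksEqs (L : List Block) : List SQ :=
  (2, nmOne, nmOne, nmOne) :: ((0, nmZero, nmZero, nmZero) ::
    L.zipIdx.flatMap fun p => blockEqs p.2 p.1)

/-- the system of equations of a formula -/
def simpleSys (φ : Formula) : List SQ := blocksEqs (sysOf φ.rpn)

/-! ### the positive system -/

/-- positive part of the variable `x` -/
def nmP (x : Nm) : Nm := 5 :: x

/-- negative part of the variable `x` -/
def nmN (x : Nm) : Nm := 6 :: x

/-- auxiliary variables -/
def nmA (k j : ℕ) : Nm := [7, k, j]

/-- the equations of the positive system for the equation `e` with number `k` -/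
def posEqs (k : ℕ) (e : SQ) : List SQ :=
  if e.1 = 0 then
    [(0, nmP e.2.1, nmP e.2.2.1, nmA k 0), (0, nmA k 0, nmN e.2.2.2, nmA k 1),
      (0, nmN e.2.1, nmN e.2.2.1, nmA k 2), (0, nmA k 2, nmP e.2.2.2, nmA k 1)]
  else if e.1 = 1 then
    [(1, nmP e.2.1, nmP e.2.2.1, nmA k 0), (1, nmN e.2.1, nmN e.2.2.1, nmA k 1),
      (1, nmP e.2.1, nmN e.2.2.1, nmA k 2), (1, nmN e.2.1, nmP e.2.2.1, nmA k 3),
      (0, nmA k 0, nmA k 1, nmA k 4), (0, nmA k 4, nmN e.2.2.2, nmA k 5),
      (0, nmA k 2, nmA k 3, nmA k 6), (0, nmA k 6, nmP e.2.2.2, nmA k 5)]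
  else [(2, nmA k 0, nmA k 0, nmA k 0), (0, nmN e.2.1, nmA k 0, nmP e.2.1)]

/-- the positive system -/
def posSys (S : List SQ) : List SQ := S.zipIdx.flatMap fun p => posEqs p.2 p.1

/-! ### the strict system -/

/-- constraints `(0, A, B)`: the product over `A` is less than the product over `B`;
`(1, A, _)`: the sum over `A` is less than `1`; `(2, A, _)`: the sum over `A` is greater than `1` -/
abbrev TC (V : Type) : Type := ℕ × List V × List V

/-- the constraint holds -/
def TC.Holds {V : Type} (y : V → ℝ) (c : TC V) : Prop :=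
  if c.1 = 0 then (c.2.1.map y).prod < (c.2.2.map y).prod
  else if c.1 = 1 then (c.2.1.map y).sum < 1
  else 1 < (c.2.1.map y).sum

/-- all values are in `(0,1)` and all constraints hold -/
def TSol {V : Type} (C : List (TC V)) (y : V → ℝ) : Prop :=
  (∀ v, 0 < y v ∧ y v < 1) ∧ ∀ c ∈ C, c.Holds y

/-- scaled variable -/
def nmU (x : Nm) : Nm := 8 :: x

/-- first chain: `t (j + 1) > t j ^ 2` -/
def nmT (j : ℕ) : Nm := [9, j]

/-- second chain: `d (j + 1) < d j ^ 2` -/
def nmQ (j : ℕ) : Nm := [10, j]

/-- the factor near one -/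
def nmE : Nm := [11]

/-- auxiliary variables -/
def nmH (k j : ℕ) : Nm := [12, k, j]

/-- the constraints for the equation `e` with number `k`; the scale is `nmT E` -/
def tcEqs (E k : ℕ) (e : SQ) : List (TC Nm) :=
  if e.1 = 0 then
    [(0, [nmE, nmU e.2.1], [nmH k 0, nmU e.2.2.2]), (0, [nmE, nmU e.2.2.1], [nmH k 1, nmU e.2.2.2]),
      (1, [nmH k 0, nmH k 1], []),
      (0, [nmH k 2, nmU e.2.2.2], [nmH k 4]), (0, [nmE, nmH k 4], [nmU e.2.1]),
      (0, [nmH k 3, nmU e.2.2.2], [nmH k 5]), (0, [nmE, nmH k 5], [nmU e.2.2.1]),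
      (2, [nmH k 2, nmH k 3], [])]
  else if e.1 = 1 then
    [(0, [nmU e.2.1, nmU e.2.2.1], [nmH k 0]), (0, [nmE, nmH k 0], [nmT E, nmU e.2.2.2]),
      (0, [nmT E, nmU e.2.2.2], [nmH k 1]), (0, [nmE, nmH k 1], [nmU e.2.1, nmU e.2.2.1])]
  else [(0, [nmE, nmU e.2.1], [nmT E]), (0, [nmE, nmT E], [nmU e.2.1])]

/-- the two chains of lengths `E`, `E'` and the factor near one -/
def chains (E E' : ℕ) : List (TC Nm) :=
  (2, [nmT 0, nmT 0], []) :: (1, [nmQ 0, nmQ 0], []) :: (2, [nmE, nmQ E'], []) ::
    (((List.range E).map fun j => (0, [nmT j, nmT j], [nmT (j + 1)])) ++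
      (List.range E').map fun j => (0, [nmQ (j + 1)], [nmQ j, nmQ j]))

/-- the size parameter of a system -/
def szN (S : List SQ) : ℕ := 24 * S.length

/-- the length of the first chain -/
def chE (S : List SQ) : ℕ := gE1 (szN S) + 3

/-- the length of the second chain -/
def chE' (S : List SQ) : ℕ := chE S + gE2 (szN S) + 2

/-- the strict system of a system of equations -/
def strictSys (S : List SQ) : List (TC Nm) :=
  chains (chE S) (chE' S) ++ (posSys S).zipIdx.flatMap fun p => tcEqs (chE S) p.2 p.1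

/-! ### renumbering -/

/-- the variables of the constraints, with repetitions -/
def occ (C : List (TC Nm)) : List Nm := C.flatMap fun c => c.2.1 ++ c.2.2

/-- the number of a variable -/
def renm (C : List (TC Nm)) (v : Nm) : ℕ := (occ C).idxOf v

/-- the constraint with numbers instead of names -/
def renTC (C : List (TC Nm)) (c : TC Nm) : TC ℕ :=
  (c.1, c.2.1.map (renm C), c.2.2.map (renm C))

/-- the renumbered system, with the constraints `x i * x i < x i` added -/
def renSys (C : List (TC Nm)) : List (TC ℕ) :=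
  C.map (renTC C) ++ (List.range (occ C).length).map fun i => (0, [i, i], [i])

/-! ### rings -/

/-- plain read -/
def opP : ℕ × ℕ := (0, 0)

/-- division by the fresh variable `k` -/
def opD (k : ℕ) : ℕ × ℕ := (1, k)

/-- multiplication by the home variable with number `j` in the list `A`, or `d` if there is none -/
def opM (A : List ℕ) (j : ℕ) (d : ℕ × ℕ) : ℕ × ℕ :=
  match A[j]? with
  | none => d
  | some i => (2, i)

/-- `d` if `A` has an element with number `j`, plain otherwise -/
def opI (A : List ℕ) (j : ℕ) (d : ℕ × ℕ) : ℕ × ℕ :=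
  match A[j]? with
  | none => opP
  | some _ => d

/-- the twelve reads of the constraint `t` with number `c` -/
def ringOps (c : ℕ) (t : TC ℕ) : List (ℕ × ℕ) :=
  if t.1 = 0 then
    [opD (2 * c), opM t.2.1 0 (opD (2 * c)), opP, opP,
      opD (2 * c + 1), opM t.2.1 1 (opD (2 * c + 1)), opP, opP,
      opM t.2.2 0 opP, opI t.2.1 0 (opD (2 * c)), opM t.2.2 1 opP, opI t.2.1 1 (opD (2 * c + 1))]
  else if t.1 = 1 then
    [opD (2 * c), opM t.2.1 0 opP, opP, opP,
      opP, opD (2 * c), opP, opM t.2.1 1 opP,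
      opD (2 * c + 1), opD (2 * c + 1), opP, opP]
  else
    [opM t.2.1 0 opP, opD (2 * c), opP, opP,
      opD (2 * c), opP, opM t.2.1 1 opP, opP,
      opD (2 * c + 1), opD (2 * c + 1), opP, opP]

/-- the form of the constraints used here: at most two factors on both sides, or exactly two
summands -/
def TC.Shape {V : Type} (t : TC V) : Prop :=
  (t.1 = 0 ∧ t.2.1.length ≤ 2 ∧ t.2.2.length ≤ 2) ∨ ((t.1 = 1 ∨ t.1 = 2) ∧ t.2.1.length = 2)

/-- constraints of this form with all variables less than `n` -/
def TC.Good (n : ℕ) (t : TC ℕ) : Prop :=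
  t.Shape ∧ (∀ i ∈ t.2.1, i < n) ∧ ∀ i ∈ t.2.2, i < n

/-- the factor of an operation at an even (`p = 0`) or odd (`p = 1`) place -/
noncomputable def facOp (x w : ℕ → ℝ) (o : ℕ × ℕ) (p : ℕ) : ℝ :=
  if o.1 = 0 then 1
  else if o.1 = 1 then (if p % 2 = 0 then (w o.2)⁻¹ else (1 - w o.2)⁻¹)
  else (if p % 2 = 0 then x o.2 else 1 - x o.2)

/-- the three rings given by a list of twelve operations hold -/
def RingsHold (x w : ℕ → ℝ) (l : List (ℕ × ℕ)) : Prop :=
  ∀ r < 3, 1 < facOp x w (l.getD (4 * r) opP) 0 * facOp x w (l.getD (4 * r + 1) opP) 1 *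
    facOp x w (l.getD (4 * r + 2) opP) 0 * facOp x w (l.getD (4 * r + 3) opP) 1

/-- the ring system of a list of constraints with home variables `< n` -/
def ringSys (n : ℕ) (C : List (TC ℕ)) : RS :=
  ((n, 2 * C.length), C.zipIdx.flatMap fun p => ringOps p.2 p.1)

/-- the ring system of a formula -/
def toRS (φ : Formula) : RS :=
  ringSys (occ (strictSys (simpleSys φ))).length (renSys (strictSys (simpleSys φ)))

end Pool.Agent.H54R
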