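import Pool.Agent.Lib.H54R.NDefs

/-!
# Tools for polynomial time (copied from Lib/H24S/P0.lean and Lib/H24U/PTTools.lean)
-/

set_option autoImplicit false

namespace Pool.Agent.H54R

open Pool.Agent.PolyTime

variable {α β γ σ : Type} [Enc α] [Enc β] [Enc γ] [Enc σ]

lemma p0_succ_iter (i n : ℕ) : (fun x : ℕ => x + 1)^[i] n = n + i := by
  induction i generalizing n with
  | zero => rfl
  | succ i ih => rw [Function.iterate_succ_apply, ih]; omega

lemma PT_szN {f : α → β} (hf : PT f) : PT fun a => sz (f a) := by
  have h := PT.iterate_sz (f := fun x : ℕ => x + 1) (s := fun _ : α => 0) (n := f) (by fun_prop)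
    (by fun_prop) hf (B := fun a => 4 * sz (f a) + 1)
    (((PBd.const 4).mul hf.bdd).add (PBd.const 1)) (by
      intro a i hi
      rw [p0_succ_iter]
      refine (sz_nat_le_self _).trans ?_
      omega)
  exact h.congr fun a => by rw [p0_succ_iter]; omega

lemma PBd_length {l : α → List β} (hl : PT l) : PBd fun a => (l a).length :=
  PBd.mono (fun a => (length_lt_sz (l a)).le) hl.bdd

/-- a number has small code if it has a small value -/
lemma PBd_szNat {b : α → ℕ} (hb : PBd b) : PBd fun a => sz (b a) :=
  PBd.mono (fun a => sz_nat_le_self (b a)) (((PBd.const 4).mul hb).add (PBd.const 1))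

lemma p0_unit_iter (i : ℕ) (l : List Unit) : ((fun x : List Unit => () :: x)^[i] l).length =
    l.length + i := by
  induction i generalizing l with
  | zero => rfl
  | succ i ih => rw [Function.iterate_succ_apply, ih, List.length_cons]; omega

lemma p0_sz_unit (l : List Unit) : sz l = 2 * l.length + 1 := by
  induction l with
  | nil => rfl
  | cons a l ih =>
    have h : sz a = 1 := rfl
    rw [sz_cons, ih, h, List.length_cons]
    omega

lemma p0_units : ∃ l : α → List Unit, PT l ∧ ∀ a, (l a).length = sz a := by
  refine ⟨fun a => (fun x : List Unit => () :: x)^[sz a] [], ?_, fun a => by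
    rw [p0_unit_iter]; simp⟩
  exact PT.iterate_sz (f := fun x : List Unit => () :: x) (s := fun _ : α => []) (n := fun a => a)
    (by fun_prop) (by fun_prop) (by fun_prop) (B := fun a => 2 * sz a + 1)
    (((PBd.const 2).mul PBd.sz).add (PBd.const 1)) (by
      intro a i hi
      rw [p0_sz_unit, p0_unit_iter]
      simp
      omega)

lemma p0_pow (k : ℕ) : ∃ l : α → List Unit, PT l ∧ ∀ a, (l a).length = sz a ^ k := by
  obtain ⟨u, hu, hu'⟩ := p0_units (α := α)
  induction k with
  | zero => exact ⟨fun _ => [()], PT.const _, fun a => by simp⟩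
  | succ k ih =>
    obtain ⟨l, hl, hl'⟩ := ih
    refine ⟨fun a => (l a).flatMap fun _ => u a, ?_, ?_⟩
    · exact PT.flatMap (f := fun a (_ : Unit) => u a) (hu.comp PT.fst') hl
    · intro a
      rw [List.length_flatMap]
      simp [hl', hu', pow_succ]

theorem PT_clock {b : α → ℕ} (hb : PBd b) : ∃ l : α → List Unit, PT l ∧ ∀ a, b a ≤ (l a).length := by
  obtain ⟨c, k, hck⟩ := hb
  obtain ⟨u, hu, hu'⟩ := p0_pow (α := α) k
  have h : ∀ c : ℕ, ∃ l : α → List Unit, PT l ∧ ∀ a, (l a).length = c * sz a ^ k := by
    intro c
    induction c with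
    | zero => exact ⟨fun _ => [], PT.const _, fun a => by simp⟩
    | succ c ih =>
      obtain ⟨l, hl, hl'⟩ := ih
      refine ⟨fun a => l a ++ u a, hl.append hu, ?_⟩
      intro a
      rw [List.length_append, hl', hu']
      ring
  obtain ⟨l, hl, hl'⟩ := h c
  exact ⟨l, hl, fun a => by rw [hl']; exact hck a⟩

lemma p0_filter_range (m n : ℕ) (h : m ≤ n) :
    ((List.range n).filter fun x => decide (x < m)) = List.range m := by
  obtain ⟨k, rfl⟩ := Nat.exists_eq_add_of_le h
  rw [List.range_add, List.filter_append, List.filter_eq_self.2, List.filter_eq_nil_iff.2,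
    List.append_nil]
  · intro x hx
    rw [List.mem_map] at hx
    obtain ⟨y, _, rfl⟩ := hx
    simp
  · intro x hx
    simpa using hx

theorem PT_rangeN {b : α → ℕ} (hb : PT b) (hbb : PBd b) : PT fun a => List.range (b a) := by
  obtain ⟨l, hl, hl'⟩ := PT_clock hbb
  have h1 : PT fun a => (List.range (l a).length).filter fun x => decide (x < b a) :=
    PT.filter (f := fun a x => decide (x < b a))
      (PT.decide_lt (f := fun p : α × ℕ => p.2) (g := fun p => b p.1) (by fun_prop)
        (hb.comp PT.fst')) (PT.rangeLength hl)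
  exact h1.congr fun a => p0_filter_range _ _ (hl' a)

@[fun_prop] theorem PT_idxOf [EncInj β] [DecidableEq β] {l : α → List β} {x : α → β} (hl : PT l)
    (hx : PT x) : PT fun a => (l a).idxOf (x a) := by
  have h1 := PT.length (PT.takeWhile (f := fun (a : α) (b : β) => !decide (b = x a))
    (PT.not (PT.decide_eq (f := fun p : α × β => p.2) (g := fun p : α × β => x p.1) (by fun_prop)
      (by fun_prop))) hl)
  refine h1.congr fun a => ?_
  generalize l a = m
  induction m with
  | nil => rfl
  | cons b m ih =>
    by_cases hb : b = x a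
    · subst hb
      simp
    · rw [List.idxOf_cons_ne _ hb, List.takeWhile_cons]
      simp only [hb, decide_false, Bool.not_false, if_true, List.length_cons]
      rw [ih]


end Pool.Agent.H54R
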