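import Pool.Agent.Lib.H54R.Graph
import Pool.Agent.Lib.H54R.C1
import Pool.Agent.Lib.H54R.C2
import Pool.Agent.Lib.H54R.C3
import Pool.Agent.Lib.H54R.C4
import Pool.Agent.Lib.H54R.C5
import Pool.Agent.Lib.H54R.C6
import Pool.Agent.Lib.H54R.C6B
import Pool.Agent.Lib.H54R.EDefs

/-!
# The network of a ring system
-/

set_option autoImplicit false

namespace Pool.Agent.H54R

namespace RS

theorem nf_hvBd {S : RS} {e : Vx × Vx} (he : e ∈ S.hvBd) : S.hv e.1 e.2 := by
  refine Or.inl ?_
  unfold heavy
  exact List.mem_append_left _ (List.mem_append_right _ he)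

theorem nf_hvHub {S : RS} {e : Vx × Vx} (he : e ∈ S.hvHub) : S.hv e.1 e.2 := by
  refine Or.inl ?_
  unfold heavy
  exact List.mem_append_right _ he

theorem nf_bL (S : RS) {k : ℕ} (hk : k < 4 * S.MM) : S.hv (.L k) (.L (k + 1)) :=
  nf_hvBd (e := (.L k, .L (k + 1))) (by simp [hvBd, hk])

theorem nf_bR (S : RS) {k : ℕ} (hk : k < 4 * S.MM) : S.hv (.R k) (.R (k + 1)) :=
  nf_hvBd (e := (.R k, .R (k + 1))) (by simp [hvBd, hk])

theorem nf_bB (S : RS) {k : ℕ} (hk : k < 4 * S.NN) : S.hv (.B k) (.B (k + 1)) :=
  nf_hvBd (e := (.B k, .B (k + 1))) (by simp [hvBd, hk])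

theorem nf_bT (S : RS) {k : ℕ} (hk : k < 4 * S.NN) : S.hv (.T k) (.T (k + 1)) :=
  nf_hvBd (e := (.T k, .T (k + 1))) (by simp [hvBd, hk])

theorem nf_bLT (S : RS) : S.hv (.L (4 * S.MM)) (.T 0) :=
  nf_hvBd (e := (.L (4 * S.MM), .T 0)) (by simp [hvBd])

theorem nf_bTR (S : RS) : S.hv (.T (4 * S.NN)) (.R (4 * S.MM)) :=
  nf_hvBd (e := (.T (4 * S.NN), .R (4 * S.MM))) (by simp [hvBd])

theorem nf_bRB (S : RS) : S.hv (.R 0) (.B (4 * S.NN)) :=
  nf_hvBd (e := (.R 0, .B (4 * S.NN))) (by simp [hvBd])

theorem nf_bBL (S : RS) : S.hv (.B 0) (.L 0) :=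
  nf_hvBd (e := (.B 0, .L 0)) (by simp [hvBd])

theorem nf_hL (S : RS) {k : ℕ} (hk : k ≤ 4 * S.MM) : S.hv (.hub 0) (.L k) :=
  nf_hvHub (e := (.hub 0, .L k)) (by simp [hvHub]; omega)

theorem nf_hR (S : RS) {k : ℕ} (hk : k ≤ 4 * S.MM) : S.hv (.hub 1) (.R k) :=
  nf_hvHub (e := (.hub 1, .R k)) (by simp [hvHub]; omega)

theorem nf_hT (S : RS) {k : ℕ} (hk : k ≤ 4 * S.NN) : S.hv (.hub 2) (.T k) :=
  nf_hvHub (e := (.hub 2, .T k)) (by simp [hvHub]; omega)

theorem nf_hB (S : RS) {k : ℕ} (hk : k ≤ 4 * S.NN) : S.hv (.hub 3) (.B k) :=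
  nf_hvHub (e := (.hub 3, .B k)) (by simp [hvHub]; omega)

theorem nf_hZ (S : RS) {i : ℕ} (hi : i < 4) : S.hv (.hub 4) (.hub i) :=
  nf_hvHub (e := (.hub 4, .hub i)) (by simp [hvHub]; omega)

/-- the network of a ring system -/
def net (S : RS) (h : S.WF) : Net where
  M := S.MM
  N := S.NN
  M_pos := by
    have := R_pos h
    unfold MM
    omega
  N_pos := by
    have := h.pos
    unfold NN
    omega
  li := S.li
  hv := S.hv
  li_symm := li_symm
  hv_symm := hv_symm
  inB := S.binB
  row := S.brow
  col := S.bcol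
  F := S.bF
  inB_F := binB_F
  row_lt := brow_lt h
  col_lt := bcol_lt h
  ci := S.bci
  ri := S.bri
  ci_mem := bci_mem h
  ri_mem := bri_mem h
  ci_long := by
    intro k hk
    simp [bci, hk]
  ri_long := by
    intro k hk
    simp [bri, hk]
  ci_sorted := bci_sorted h
  ri_sorted := bri_sorted h
  ci_disj := bci_disj h
  ri_disj := bri_disj h
  ci_li := bci_li h
  ri_li := bri_li h
  up := bup h
  dn := bdn h
  rt := brt h
  lf := blf h
  conn := bconn h
  bL := fun hk => nf_bL S hk
  bR := fun hk => nf_bR S hk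
  bB := fun hk => nf_bB S hk
  bT := fun hk => nf_bT S hk
  bLT := nf_bLT S
  bTR := nf_bTR S
  bRB := nf_bRB S
  bBL := nf_bBL S
  hL := fun hk => nf_hL S hk
  hR := fun hk => nf_hR S hk
  hT := fun hk => nf_hT S hk
  hB := fun hk => nf_hB S hk
  hZ := fun hk => nf_hZ S hk

/-- the vertices, explicitly -/
def nfV (S : RS) : Vx → Prop
  | .L k => k ≤ 4 * S.MM
  | .R k => k ≤ 4 * S.MM
  | .B k => k ≤ 4 * S.NN
  | .T k => k ≤ 4 * S.NN
  | .hub i => i < 5
  | .blk b c => S.binB b c

theorem nf_isV (S : RS) (h : S.WF) (v : Vx) : (S.net h).isV v ↔ nfV S v := by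
  cases v <;> exact Iff.rfl

theorem nf_edg_mem {α : Type} {l : List α} {e : α × α} (h : e ∈ edg l) : e.1 ∈ l ∧ e.2 ∈ l := by
  have h1 := List.of_mem_zip (show (e.1, e.2) ∈ l.zip l.tail from h)
  exact ⟨h1.1, List.mem_of_mem_tail h1.2⟩

theorem nf_edg_cons {α : Type} (a b : α) (l : List α) :
    edg (a :: b :: l) = (a, b) :: edg (b :: l) := rfl

theorem nf_nodup {α : Type} : ∀ {l : List α}, l.Nodup → ∀ e ∈ edg l, e.1 ≠ e.2
  | [], _, e, he => by simp [edg] at he
  | [a], _, e, he => by simp [edg] at he
  | a :: b :: l, h, e, he => by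
    rw [nf_edg_cons, List.mem_cons] at he
    rcases he with rfl | he
    · intro hab
      have h1 : a ∉ b :: l := (List.nodup_cons.1 h).1
      exact h1 (by rw [show a = b from hab]; exact List.mem_cons_self)
    · exact nf_nodup (List.nodup_cons.1 h).2 e he

/-- a valid edge -/
def nfE (S : RS) (e : Vx × Vx) : Prop := nfV S e.1 ∧ nfV S e.2 ∧ e.1 ≠ e.2

theorem nf_list {S : RS} {l : List Vx} (h1 : ∀ v ∈ l, nfV S v) (h2 : l.Nodup) :
    ∀ e ∈ edg l, nfE S e :=
  fun e he => ⟨h1 _ (nf_edg_mem he).1, h1 _ (nf_edg_mem he).2, nf_nodup h2 e he⟩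

theorem nf_rdB {S : RS} {ρ g c : ℕ} (hρ : ρ < S.R) (hg : g ≤ 1) (hc : c < 3) :
    nfV S (.blk (g, ρ) c) := Or.inl ⟨hg, hρ, hc⟩

theorem nf_lkB {S : RS} {l g c : ℕ} (hl : l < 2 * S.K) (hg : 2 ≤ g) (hg' : g ≤ 5) (hc : c < 6) :
    nfV S (.blk (g, l) c) := Or.inr ⟨hg, hg', hl, hc⟩

theorem nf_hvRd {S : RS} {ρ : ℕ} (hρ : ρ < S.R) {e : Vx × Vx} (he : e ∈ hvRd ρ) : nfE S e := by
  obtain ⟨g, hg, he⟩ := List.mem_flatMap.1 he
  have hg' : g ≤ 1 := by
    simp only [List.mem_cons, List.not_mem_nil, or_false] at hg
    omega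
  simp only [List.mem_cons, List.not_mem_nil, or_false] at he
  rcases he with rfl | rfl <;>
    exact ⟨nf_rdB hρ hg' (by norm_num), nf_rdB hρ hg' (by norm_num), by simp⟩

theorem nf_hvLk {S : RS} {l : ℕ} (hl : l < 2 * S.K) {e : Vx × Vx} (he : e ∈ hvLk l) :
    nfE S e := by
  obtain ⟨g, hg, he⟩ := List.mem_flatMap.1 he
  have hg' : 2 ≤ g ∧ g ≤ 5 := by
    simp only [List.mem_cons, List.not_mem_nil, or_false] at hg
    omega
  simp only [List.mem_cons, List.not_mem_nil, or_false] at he
  rcases he with rfl | rfl | rfl | rfl | rfl | rfl <;>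
    exact ⟨nf_lkB hl hg'.1 hg'.2 (by norm_num), nf_lkB hl hg'.1 hg'.2 (by norm_num), by simp⟩

theorem nf_map {S : RS} {n : ℕ} {f : ℕ → Vx × Vx} (hf : ∀ k < n, nfE S (f k)) {e : Vx × Vx}
    (he : e ∈ (List.range n).map f) : nfE S e := by
  obtain ⟨k, hk, rfl⟩ := List.mem_map.1 he
  exact hf k (List.mem_range.1 hk)

theorem nf_flat {S : RS} {n : ℕ} {f : ℕ → List (Vx × Vx)} (hf : ∀ k < n, ∀ e ∈ f k, nfE S e)
    {e : Vx × Vx} (he : e ∈ (List.range n).flatMap f) : nfE S e := by
  obtain ⟨k, hk, h⟩ := List.mem_flatMap.1 he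
  exact hf k (List.mem_range.1 hk) e h

theorem nf_bd {S : RS} {e : Vx × Vx} (he : e ∈ S.hvBd) : nfE S e := by
  unfold hvBd at he
  rcases List.mem_append.1 he with he | he
  · rcases List.mem_append.1 he with he | he
    · rcases List.mem_append.1 he with he | he
      · rcases List.mem_append.1 he with he | he
        · refine nf_map (fun k hk => ?_) he
          exact ⟨show k ≤ 4 * S.MM by omega, show k + 1 ≤ 4 * S.MM by omega, by simp⟩
        · refine nf_map (fun k hk => ?_) he
          exact ⟨show k ≤ 4 * S.MM by omega, show k + 1 ≤ 4 * S.MM by omega, by simp⟩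
      · refine nf_map (fun k hk => ?_) he
        exact ⟨show k ≤ 4 * S.NN by omega, show k + 1 ≤ 4 * S.NN by omega, by simp⟩
    · refine nf_map (fun k hk => ?_) he
      exact ⟨show k ≤ 4 * S.NN by omega, show k + 1 ≤ 4 * S.NN by omega, by simp⟩
  · simp only [List.mem_cons, List.not_mem_nil, or_false] at he
    rcases he with rfl | rfl | rfl | rfl
    · exact ⟨le_rfl (a := 4 * S.MM), Nat.zero_le (4 * S.NN), by simp⟩
    · exact ⟨le_rfl (a := 4 * S.NN), le_rfl (a := 4 * S.MM), by simp⟩
    · exact ⟨Nat.zero_le (4 * S.MM), le_rfl (a := 4 * S.NN), by simp⟩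
    · exact ⟨Nat.zero_le (4 * S.NN), Nat.zero_le (4 * S.MM), by simp⟩

theorem nf_hub {S : RS} {e : Vx × Vx} (he : e ∈ S.hvHub) : nfE S e := by
  unfold hvHub at he
  rcases List.mem_append.1 he with he | he
  · rcases List.mem_append.1 he with he | he
    · rcases List.mem_append.1 he with he | he
      · rcases List.mem_append.1 he with he | he
        · refine nf_map (fun k hk => ?_) he
          exact ⟨show 0 < 5 by omega, show k ≤ 4 * S.MM by omega, by simp⟩
        · refine nf_map (fun k hk => ?_) he
          exact ⟨show 1 < 5 by omega, show k ≤ 4 * S.MM by omega, by simp⟩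
      · refine nf_map (fun k hk => ?_) he
        exact ⟨show 2 < 5 by omega, show k ≤ 4 * S.NN by omega, by simp⟩
    · refine nf_map (fun k hk => ?_) he
      exact ⟨show 3 < 5 by omega, show k ≤ 4 * S.NN by omega, by simp⟩
  · simp only [List.mem_cons, List.not_mem_nil, or_false] at he
    rcases he with rfl | rfl | rfl | rfl
    · exact ⟨show 4 < 5 by omega, show 0 < 5 by omega, by simp⟩
    · exact ⟨show 4 < 5 by omega, show 1 < 5 by omega, by simp⟩
    · exact ⟨show 4 < 5 by omega, show 2 < 5 by omega, by simp⟩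
    · exact ⟨show 4 < 5 by omega, show 3 < 5 by omega, by simp⟩

theorem nf_heavy {S : RS} {e : Vx × Vx} (he : e ∈ S.heavy) : nfE S e := by
  unfold heavy at he
  rcases List.mem_append.1 he with he | he
  · rcases List.mem_append.1 he with he | he
    · rcases List.mem_append.1 he with he | he
      · exact nf_flat (fun k hk e he => nf_hvRd hk he) he
      · exact nf_flat (fun k hk e he => nf_hvLk hk he) he
    · exact nf_bd he
  · exact nf_hub he

/-- a complete line -/
theorem nf_line {S : RS} {l : List ((ℕ × ℕ) × ℕ)} {X Y : Vx} (hX : nfV S X) (hY : nfV S Y)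
    (hXb : ∀ b c, X ≠ .blk b c) (hYb : ∀ b c, Y ≠ .blk b c) (hXY : X ≠ Y)
    (f : ℕ × ℕ → ℕ) (h1 : ∀ v ∈ l, S.binB v.1 v.2) (h2 : l.Pairwise fun v w => f v.1 < f w.1) :
    ∀ e ∈ edg (X :: bx l ++ [Y]), nfE S e := by
  have hm : ∀ v ∈ bx l, ∃ b c, v = Vx.blk b c ∧ S.binB b c := by
    intro v hv
    obtain ⟨w, hw, rfl⟩ := List.mem_map.1 hv
    exact ⟨w.1, w.2, rfl, h1 w hw⟩
  apply nf_list
  · intro v hv
    rw [List.mem_append, List.mem_cons, List.mem_singleton] at hv
    rcases hv with (rfl | hv) | rfl
    · exact hX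
    · obtain ⟨b, c, rfl, hb⟩ := hm v hv
      exact hb
    · exact hY
  · have hn : (bx l).Nodup := by
      refine List.Nodup.map ?_ ?_
      · intro v w hvw
        simp only [Vx.blk.injEq] at hvw
        exact Prod.ext hvw.1 hvw.2
      · exact h2.imp fun {v w} hvw he => by
          rw [he] at hvw
          exact lt_irrefl _ hvw
    rw [List.cons_append, List.nodup_cons, List.nodup_append]
    refine ⟨?_, hn, List.nodup_singleton _, ?_⟩
    · rw [List.mem_append, List.mem_singleton]
      rintro (hX' | hX')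
      · obtain ⟨b, c, hb, -⟩ := hm _ hX'
        exact hXb _ _ hb
      · exact hXY hX'
    · intro v hv w hw he
      rw [List.mem_singleton] at hw
      obtain ⟨b, c, hb, -⟩ := hm _ hv
      exact hYb b c (by rw [← hw, ← he, hb])

theorem nf_liRow {S : RS} (h : S.WF) {i : ℕ} (hi : i < S.MM) {e : Vx × Vx} (he : e ∈ S.liRow i) :
    nfE S e := by
  have c1 : Cpl S.MM (4 * i + 1) := ⟨by omega, by omega⟩
  have c3 : Cpl S.MM (4 * i + 3) := ⟨by omega, by omega⟩
  have b1 : S.bri (4 * i + 1) = S.rB i := by
    unfold bri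
    rw [if_pos (by omega)]
    congr 1
    omega
  have b3 : S.bri (4 * i + 3) = S.rT i := by
    unfold bri
    rw [if_neg (by omega), if_pos (by omega)]
    congr 1
    omega
  unfold liRow at he
  rcases List.mem_append.1 he with he | he
  · rcases List.mem_append.1 he with he | he
    · rcases List.mem_append.1 he with he | he
      · refine nf_line ?_ ?_ ?_ ?_ ?_ S.bcol ?_ ?_ e he
        · exact (show 4 * i + 1 ≤ 4 * S.MM by omega)
        · exact (show 4 * i + 1 ≤ 4 * S.MM by omega)
        · simp
        · simp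
        · simp
        · exact fun v hv => (bri_mem h c1 (b1 ▸ hv)).1
        · exact b1 ▸ bri_sorted h c1
      · refine nf_line ?_ ?_ ?_ ?_ ?_ S.bcol ?_ ?_ e he
        · exact (show 4 * i + 3 ≤ 4 * S.MM by omega)
        · exact (show 4 * i + 3 ≤ 4 * S.MM by omega)
        · simp
        · simp
        · simp
        · exact fun v hv => (bri_mem h c3 (b3 ▸ hv)).1
        · exact b3 ▸ bri_sorted h c3
    · unfold rC at he
      split_ifs at he with h1 h2
      · have hρ := (role_one h (i := i) (ρ := (S.role i).2) (Prod.ext h1.1 rfl)).1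
        refine nf_list ?_ ?_ e he
        · intro v hv
          simp only [List.mem_cons, List.not_mem_nil, or_false] at hv
          rcases hv with rfl | rfl | rfl
          · exact nf_lkB (lkL_lt h hρ) (by norm_num) (by norm_num) (by norm_num)
          · exact nf_rdB hρ (by norm_num) (by norm_num)
          · exact (show 4 * i + 2 ≤ 4 * S.MM by omega)
        · simp
      · have hρ := (role_two h (i := i) (ρ := (S.role i).2) (Prod.ext h2.1 rfl)).1
        refine nf_list ?_ ?_ e he
        · intro v hv
          simp only [List.mem_cons, List.not_mem_nil, or_false] at hv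
          rcases hv with rfl | rfl | rfl
          · exact (show 4 * i + 2 ≤ 4 * S.MM by omega)
          · exact nf_rdB hρ (by norm_num) (by norm_num)
          · exact nf_lkB (lkU_lt h hρ) (by norm_num) (by norm_num) (by norm_num)
        · simp
      · simp [edg] at he
  · unfold rW at he
    split_ifs at he with h1 h2 h3 h4
    · have hρ := (role_one h (i := i) (ρ := (S.role i).2) (Prod.ext h1 rfl)).1
      refine nf_list ?_ ?_ e he
      · intro v hv
        simp only [List.mem_cons, List.not_mem_nil, or_false] at hv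
        rcases hv with rfl | rfl
        · exact nf_lkB (lkL_lt h hρ) (by norm_num) (by norm_num) (by norm_num)
        · exact nf_rdB hρ (by norm_num) (by norm_num)
      · simp
    · have hρ := (role_one h (i := i) (ρ := (S.role i).2) (Prod.ext h1 rfl)).1
      refine nf_list ?_ ?_ e he
      · intro v hv
        simp only [List.mem_cons, List.not_mem_nil, or_false] at hv
        rcases hv with rfl | rfl | rfl
        · exact nf_lkB (lkL_lt h hρ) (by norm_num) (by norm_num) (by norm_num)
        · exact nf_lkB (lkL_lt h hρ) (by norm_num) (by norm_num) (by norm_num)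
        · exact nf_rdB hρ (by norm_num) (by norm_num)
      · simp
    · have hρ := (role_two h (i := i) (ρ := (S.role i).2) (Prod.ext h3 rfl)).1
      refine nf_list ?_ ?_ e he
      · intro v hv
        simp only [List.mem_cons, List.not_mem_nil, or_false] at hv
        rcases hv with rfl | rfl
        · exact nf_rdB hρ (by norm_num) (by norm_num)
        · exact nf_lkB (lkU_lt h hρ) (by norm_num) (by norm_num) (by norm_num)
      · simp
    · have hρ := (role_two h (i := i) (ρ := (S.role i).2) (Prod.ext h3 rfl)).1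
      refine nf_list ?_ ?_ e he
      · intro v hv
        simp only [List.mem_cons, List.not_mem_nil, or_false] at hv
        rcases hv with rfl | rfl | rfl
        · exact nf_rdB hρ (by norm_num) (by norm_num)
        · exact nf_lkB (lkU_lt h hρ) (by norm_num) (by norm_num) (by norm_num)
        · exact nf_lkB (lkU_lt h hρ) (by norm_num) (by norm_num) (by norm_num)
      · simp
    · simp [edg] at he

theorem nf_rdmap {S : RS} {k j g c : ℕ} (hg : g ≤ 1) (hc : c < 3) {v : Vx}
    (hv : v ∈ (S.rd k j).map fun ρ => Vx.blk (g, ρ) c) : nfV S v := by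
  obtain ⟨ρ, hρ, rfl⟩ := List.mem_map.1 hv
  exact nf_rdB (mem_rd.1 hρ).1 hg hc

theorem nf_rdnd {S : RS} (k j g c : ℕ) : ((S.rd k j).map fun ρ => Vx.blk (g, ρ) c).Nodup := by
  refine List.Nodup.map ?_ ?_
  · intro a b hab
    simpa using hab
  · exact (rd_sorted S k j).imp fun {a b} hab => hab.ne

theorem nf_cX {S : RS} (j : ℕ) : (∀ v ∈ S.cX j, nfV S v) ∧ (S.cX j).Nodup := by
  unfold cX
  rw [List.map_reverse]
  constructor
  · intro v hv
    rcases List.mem_append.1 hv with hv | hv
    · rcases List.mem_append.1 hv with hv | hv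
      · rcases List.mem_append.1 hv with hv | hv
        · exact nf_rdmap (by norm_num) (by norm_num) hv
        · exact nf_rdmap (by norm_num) (by norm_num) (List.mem_reverse.1 hv)
      · exact nf_rdmap (by norm_num) (by norm_num) hv
    · exact nf_rdmap (by norm_num) (by norm_num) hv
  · rw [List.nodup_append, List.nodup_append, List.nodup_append]
    refine ⟨⟨⟨nf_rdnd _ _ _ _, List.nodup_reverse.2 (nf_rdnd _ _ _ _), ?_⟩, nf_rdnd _ _ _ _, ?_⟩,
      nf_rdnd _ _ _ _, ?_⟩
    · intro a ha b hb
      rw [List.mem_reverse] at hb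
      obtain ⟨ρ, -, rfl⟩ := List.mem_map.1 ha
      obtain ⟨σ, -, rfl⟩ := List.mem_map.1 hb
      simp
    · intro a ha b hb
      obtain ⟨σ, -, rfl⟩ := List.mem_map.1 hb
      rcases List.mem_append.1 ha with ha | ha
      · obtain ⟨ρ, -, rfl⟩ := List.mem_map.1 ha
        simp
      · rw [List.mem_reverse] at ha
        obtain ⟨ρ, -, rfl⟩ := List.mem_map.1 ha
        simp
    · intro a ha b hb
      obtain ⟨σ, -, rfl⟩ := List.mem_map.1 hb
      rcases List.mem_append.1 ha with ha | ha
      · rcases List.mem_append.1 ha with ha | ha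
        · obtain ⟨ρ, -, rfl⟩ := List.mem_map.1 ha
          simp
        · rw [List.mem_reverse] at ha
          obtain ⟨ρ, -, rfl⟩ := List.mem_map.1 ha
          simp
      · obtain ⟨ρ, -, rfl⟩ := List.mem_map.1 ha
        simp

theorem nf_liCol {S : RS} (h : S.WF) {j : ℕ} (hj : j < S.NN) {e : Vx × Vx} (he : e ∈ S.liCol j) :
    nfE S e := by
  have c1 : Cpl S.NN (4 * j + 1) := ⟨by omega, by omega⟩
  have c3 : Cpl S.NN (4 * j + 3) := ⟨by omega, by omega⟩
  have b1 : S.bci (4 * j + 1) = S.cL j := by
    unfold bci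
    rw [if_pos (by omega)]
    congr 1
    omega
  have b3 : S.bci (4 * j + 3) = S.cR j := by
    unfold bci
    rw [if_neg (by omega), if_pos (by omega)]
    congr 1
    omega
  have hlt : S.rlane 0 ≤ j → j - S.rlane 0 < 2 * S.K := by
    unfold rlane
    unfold NN at hj
    omega
  unfold liCol at he
  rcases List.mem_append.1 he with he | he
  · rcases List.mem_append.1 he with he | he
    · rcases List.mem_append.1 he with he | he
      · rcases List.mem_append.1 he with he | he
        · refine nf_line ?_ ?_ ?_ ?_ ?_ S.brow ?_ ?_ e he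
          · exact (show 4 * j + 1 ≤ 4 * S.NN by omega)
          · exact (show 4 * j + 1 ≤ 4 * S.NN by omega)
          · simp
          · simp
          · simp
          · exact fun v hv => (bci_mem h c1 (b1 ▸ hv)).1
          · exact b1 ▸ bci_sorted h c1
        · refine nf_line ?_ ?_ ?_ ?_ ?_ S.brow ?_ ?_ e he
          · exact (show 4 * j + 3 ≤ 4 * S.NN by omega)
          · exact (show 4 * j + 3 ≤ 4 * S.NN by omega)
          · simp
          · simp
          · simp
          · exact fun v hv => (bci_mem h c3 (b3 ▸ hv)).1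
          · exact b3 ▸ bci_sorted h c3
      · unfold cC at he
        split_ifs at he with h1 h2
        · refine nf_list ?_ ?_ e he
          · intro v hv
            simp only [List.mem_cons, List.not_mem_nil, or_false] at hv
            rcases hv with rfl | rfl | rfl
            · exact (show 4 * j + 2 ≤ 4 * S.NN by omega)
            · exact nf_lkB h1 (by norm_num) (by norm_num) (by norm_num)
            · exact nf_lkB h1 (by norm_num) (by norm_num) (by norm_num)
          · simp
        · refine nf_list ?_ ?_ e he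
          · intro v hv
            simp only [List.mem_cons, List.not_mem_nil, or_false] at hv
            rcases hv with rfl | rfl | rfl
            · exact nf_lkB (hlt h2) (by norm_num) (by norm_num) (by norm_num)
            · exact nf_lkB (hlt h2) (by norm_num) (by norm_num) (by norm_num)
            · exact (show 4 * j + 2 ≤ 4 * S.NN by omega)
          · simp
        · simp [edg] at he
    · unfold cf at he
      split_ifs at he with h1 h2
      · refine nf_list ?_ ?_ e he
        · intro v hv
          simp only [List.mem_cons, List.not_mem_nil, or_false] at hv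
          rcases hv with rfl | rfl | rfl
          · exact nf_lkB h1 (by norm_num) (by norm_num) (by norm_num)
          · exact nf_lkB h1 (by norm_num) (by norm_num) (by norm_num)
          · exact nf_lkB h1 (by norm_num) (by norm_num) (by norm_num)
        · simp
      · refine nf_list ?_ ?_ e he
        · intro v hv
          simp only [List.mem_cons, List.not_mem_nil, or_false] at hv
          rcases hv with rfl | rfl | rfl
          · exact nf_lkB (hlt h2) (by norm_num) (by norm_num) (by norm_num)
          · exact nf_lkB (hlt h2) (by norm_num) (by norm_num) (by norm_num)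
          · exact nf_lkB (hlt h2) (by norm_num) (by norm_num) (by norm_num)
        · simp
      · simp [edg] at he
  · exact nf_list (nf_cX j).1 (nf_cX j).2 e he

theorem nf_nxt {S : RS} (ρ : ℕ) : S.nxt ρ = [] ∨ ∃ σ, S.nxt ρ = [σ] ∧ σ < S.R := by
  have h1 := nxt_length S ρ
  rcases hn : S.nxt ρ with _ | ⟨σ, l⟩
  · exact Or.inl rfl
  · right
    rw [hn] at h1
    have hl : l = [] := by
      rw [List.length_cons] at h1
      exact List.length_eq_zero_iff.1 (by omega)
    subst hl
    refine ⟨σ, rfl, ?_⟩
    have h2 : σ ∈ S.nxt ρ := by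
      rw [hn]
      exact List.mem_cons_self
    exact (mem_nxt.1 h2).1.1

theorem nf_liRd {S : RS} {ρ : ℕ} (hρ : ρ < S.R) {e : Vx × Vx} (he : e ∈ S.liRd ρ) : nfE S e := by
  unfold liRd at he
  rcases List.mem_append.1 he with he | he
  · have h0 : ∀ c < 3, nfV S (.blk (0, ρ) c) := fun c hc => nf_rdB hρ (by norm_num) hc
    have h1 : ∀ c < 3, nfV S (.blk (1, ρ) c) := fun c hc => nf_rdB hρ (by norm_num) hc
    have hbase : ∀ e ∈ edg [Vx.blk (0, ρ) 1, Vx.blk (1, ρ) 1], nfE S e := by
      refine nf_list ?_ (by simp)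
      intro v hv
      simp only [List.mem_cons, List.not_mem_nil, or_false] at hv
      rcases hv with rfl | rfl
      · exact h0 _ (by norm_num)
      · exact h1 _ (by norm_num)
    unfold ck at he
    rcases nf_nxt (S := S) ρ with hn | ⟨σ, hn, hσ⟩
    · rw [hn] at he
      simp only [List.flatMap_nil, ite_self, List.append_nil] at he
      exact hbase e he
    · rw [hn] at he
      split_ifs at he with k3 k4
      · refine nf_list ?_ ?_ e he
        · intro v hv
          simp only [List.flatMap_cons, List.flatMap_nil, List.append_nil, List.mem_append,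
            List.mem_cons, List.not_mem_nil, or_false] at hv
          rcases hv with (rfl | rfl | rfl) | rfl
          · exact h0 _ (by norm_num)
          · exact nf_rdB hσ (by norm_num) (by norm_num)
          · exact nf_rdB hσ (by norm_num) (by norm_num)
          · exact h1 _ (by norm_num)
        · simp
      · refine nf_list ?_ ?_ e he
        · intro v hv
          simp only [List.flatMap_cons, List.flatMap_nil, List.append_nil, List.mem_append,
            List.mem_cons, List.not_mem_nil, or_false] at hv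
          rcases hv with (rfl | rfl | rfl) | rfl
          · exact h0 _ (by norm_num)
          · exact nf_rdB hσ (by norm_num) (by norm_num)
          · exact nf_rdB hσ (by norm_num) (by norm_num)
          · exact h1 _ (by norm_num)
        · simp
      · exact hbase e he
  · simp only [List.mem_cons, List.not_mem_nil, or_false] at he
    rcases he with rfl | rfl
    · exact ⟨nf_rdB hρ (by norm_num) (by norm_num), nf_rdB hρ (by norm_num) (by norm_num), by simp⟩
    · exact ⟨nf_rdB hρ (by norm_num) (by norm_num), nf_rdB hρ (by norm_num) (by norm_num), by simp⟩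

theorem nf_liLk {S : RS} {l : ℕ} (hl : l < 2 * S.K) {e : Vx × Vx} (he : e ∈ liLk l) :
    nfE S e := by
  obtain ⟨g, hg, he⟩ := List.mem_flatMap.1 he
  have hg' : 2 ≤ g ∧ g ≤ 5 := by
    simp only [List.mem_cons, List.not_mem_nil, or_false] at hg
    omega
  simp only [List.mem_cons, List.not_mem_nil, or_false] at he
  rcases he with rfl | rfl <;>
    exact ⟨nf_lkB hl hg'.1 hg'.2 (by norm_num), nf_lkB hl hg'.1 hg'.2 (by norm_num), by simp⟩

theorem nf_light {S : RS} (h : S.WF) {e : Vx × Vx} (he : e ∈ S.light) : nfE S e := by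
  unfold light at he
  rcases List.mem_append.1 he with he | he
  · rcases List.mem_append.1 he with he | he
    · rcases List.mem_append.1 he with he | he
      · rcases List.mem_append.1 he with he | he
        · rcases List.mem_append.1 he with he | he
          · refine nf_map (fun k hk => ?_) he
            exact ⟨show 4 * k ≤ 4 * S.MM by omega, show 4 * k ≤ 4 * S.MM by omega, by simp⟩
          · refine nf_map (fun k hk => ?_) he
            exact ⟨show 4 * k ≤ 4 * S.NN by omega, show 4 * k ≤ 4 * S.NN by omega, by simp⟩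
        · exact nf_flat (fun k hk e he => nf_liRow h hk he) he
      · exact nf_flat (fun k hk e he => nf_liCol h hk he) he
    · exact nf_flat (fun k hk e he => nf_liRd hk he) he
  · exact nf_flat (fun k hk e he => nf_liLk hk he) he

theorem nf_vs {S : RS} {a b : Vx} (hab : S.hv a b) : a ∈ vset ((coreG S).1 ++ (coreG S).2) ∧
    b ∈ vset ((coreG S).1 ++ (coreG S).2) := by
  rcases hab with h | h
  · exact ⟨⟨(a, b), List.mem_append_right _ h, Or.inl rfl⟩,
      ⟨(a, b), List.mem_append_right _ h, Or.inr rfl⟩⟩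
  · exact ⟨⟨(b, a), List.mem_append_right _ h, Or.inr rfl⟩,
      ⟨(b, a), List.mem_append_right _ h, Or.inl rfl⟩⟩

/-- the vertices of the network are exactly the ends of edges of the core graph -/
theorem isV_iff (S : RS) (h : S.WF) (v : Vx) :
    (S.net h).isV v ↔ v ∈ vset ((coreG S).1 ++ (coreG S).2) := by
  rw [nf_isV]
  constructor
  · intro hv
    cases v with
    | L k => exact (nf_vs (nf_hL S hv)).2
    | R k => exact (nf_vs (nf_hR S hv)).2
    | B k => exact (nf_vs (nf_hB S hv)).2
    | T k => exact (nf_vs (nf_hT S hv)).2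
    | hub i =>
      have hi : i < 5 := hv
      by_cases h4 : i = 4
      · subst h4
        exact (nf_vs (nf_hZ S (i := 0) (by norm_num))).1
      · exact (nf_vs (nf_hZ S (i := i) (by omega))).2
    | blk b c =>
      obtain ⟨g, ρ⟩ := b
      rcases hv with ⟨hg, hρ, hc⟩ | ⟨hg, hg', hl, hc⟩
      · have h1 := hv_read h hρ hg
        have hc' : c = 0 ∨ c = 1 ∨ c = 2 := by omega
        rcases hc' with rfl | rfl | rfl
        · exact (nf_vs h1.1).1
        · exact (nf_vs h1.1).2
        · exact (nf_vs h1.2).2
      · obtain ⟨h1, h2, h3, h4, h5, h6⟩ := hv_link h hl hg hg'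
        have hc' : c = 0 ∨ c = 1 ∨ c = 2 ∨ c = 3 ∨ c = 4 ∨ c = 5 := by omega
        rcases hc' with rfl | rfl | rfl | rfl | rfl | rfl
        · exact (nf_vs h1).1
        · exact (nf_vs h4).2
        · exact (nf_vs h3).2
        · exact (nf_vs h2).2
        · exact (nf_vs h6).2
        · exact (nf_vs h1).2
  · rintro ⟨e, he, hv⟩
    have hE : nfE S e := by
      rcases List.mem_append.1 he with he | he
      · exact nf_light h he
      · exact nf_heavy he
    rcases hv with rfl | rfl
    · exact hE.1
    · exact hE.2.1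

/-- a semi-drawing of the core graph is a drawing of the network -/
theorem nd_of_semi (S : RS) (h : S.WF) (D : Semi (coreG S)) : Nonempty (ND (S.net h)) := by
  refine ⟨{ D.toPD with
    p := D.p
    m := D.m
    pP := fun hv => D.pP ((isV_iff S h _).1 hv)
    pinj := fun hv hw => D.pinj ((isV_iff S h _).1 hv) ((isV_iff S h _).1 hw)
    mP := fun _ _ hab => D.mP hab
    mp := fun _ _ hab hv => D.mp hab ((isV_iff S h _).1 hv)
    minj := fun _ _ _ _ hab hcd => D.minj hab hcd
    Lt_of := fun _ _ hab => D.Lt_of hab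
    U1 := fun _ _ hab => D.U1 hab
    U2 := fun _ _ hab => D.U2 hab }⟩

/-- edges of the core graph: no loops, no pair twice -/
theorem core_noLoop (S : RS) (h : S.WF) : NoLoop ((coreG S).1 ++ (coreG S).2) := by
  intro e he
  rcases List.mem_append.1 he with he | he
  · exact (nf_light h he).2.2
  · exact (nf_heavy he).2.2

end RS

end Pool.Agent.H54R
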