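import Pool.Agent.Lib.H54R.NTools
import Pool.Agent.Lib.H54R.E2

/-!
# P1: polynomial time: vertices, kinds and lanes

Everything is a composition of arithmetic on numbers (`PT.add`, `PT.mul`, `PT.sub`, `PT.div`,
`PT.mod`), `PT.ite` with `PT.decide_eq`, `PT.decide_lt`, and `PT.getD`, `PT.length`.
-/

set_option autoImplicit false

namespace Pool.Agent.H54R

open Pool.Agent.PolyTime

variable {α : Type} [Enc α] {S : α → RS}

@[fun_prop] theorem PT_vL {f : α → ℕ} (hf : PT f) : PT fun a => Vx.L (f a) := by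
  have h : PT fun a => ((0, f a, 0, 0) : ℕ × ℕ × ℕ × ℕ) := by fun_prop
  exact h

@[fun_prop] theorem PT_vR {f : α → ℕ} (hf : PT f) : PT fun a => Vx.R (f a) := by
  have h : PT fun a => ((1, f a, 0, 0) : ℕ × ℕ × ℕ × ℕ) := by fun_prop
  exact h

@[fun_prop] theorem PT_vB {f : α → ℕ} (hf : PT f) : PT fun a => Vx.B (f a) := by
  have h : PT fun a => ((2, f a, 0, 0) : ℕ × ℕ × ℕ × ℕ) := by fun_prop
  exact h

@[fun_prop] theorem PT_vT {f : α → ℕ} (hf : PT f) : PT fun a => Vx.T (f a) := by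
  have h : PT fun a => ((3, f a, 0, 0) : ℕ × ℕ × ℕ × ℕ) := by fun_prop
  exact h

@[fun_prop] theorem PT_vhub {f : α → ℕ} (hf : PT f) : PT fun a => Vx.hub (f a) := by
  have h : PT fun a => ((4, f a, 0, 0) : ℕ × ℕ × ℕ × ℕ) := by fun_prop
  exact h

@[fun_prop] theorem PT_vblk {b : α → ℕ × ℕ} {c : α → ℕ} (hb : PT b) (hc : PT c) :
    PT fun a => Vx.blk (b a) (c a) := by
  have h : PT fun a => ((5, (b a).1, (b a).2, c a) : ℕ × ℕ × ℕ × ℕ) := by fun_prop
  exact h

@[fun_prop] theorem PT_R (hS : PT S) : PT fun a => (S a).R := by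
  unfold RS.R
  fun_prop

@[fun_prop] theorem PT_K (hS : PT S) : PT fun a => (S a).K := by
  unfold RS.K
  fun_prop

@[fun_prop] theorem PT_n (hS : PT S) : PT fun a => (S a).n := by
  unfold RS.n
  fun_prop

@[fun_prop] theorem PT_m (hS : PT S) : PT fun a => (S a).m := by
  unfold RS.m
  fun_prop

@[fun_prop] theorem PT_op {ρ : α → ℕ} (hS : PT S) (hρ : PT ρ) : PT fun a => (S a).op (ρ a) := by
  unfold RS.op
  fun_prop

@[fun_prop] theorem PT_kd {ρ : α → ℕ} (hS : PT S) (hρ : PT ρ) : PT fun a => (S a).kd (ρ a) := by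
  unfold RS.kd
  exact PT.ite (PT.decide_eq (by fun_prop) (by fun_prop)) (by fun_prop) (PT.ite (PT.decide_eq (by fun_prop) (by fun_prop))
    (PT.ite (PT.decide_eq (by fun_prop) (by fun_prop)) (by fun_prop) (by fun_prop))
    (PT.ite (PT.decide_eq (by fun_prop) (by fun_prop)) (by fun_prop) (by fun_prop)))

@[fun_prop] theorem PT_outer {ρ : α → ℕ} (hS : PT S) (hρ : PT ρ) :
    PT fun a => (S a).outer (ρ a) := by
  unfold RS.outer
  exact PT.or (PT.decide_eq (by fun_prop) (by fun_prop)) (PT.decide_eq (by fun_prop) (by fun_prop))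

@[fun_prop] theorem PT_low {ρ : α → ℕ} (hS : PT S) (hρ : PT ρ) : PT fun a => (S a).low (ρ a) := by
  unfold RS.low
  exact PT.ite (PT.decide_eq (by fun_prop) (by fun_prop)) (by fun_prop) (by fun_prop)

@[fun_prop] theorem PT_upr {ρ : α → ℕ} (hS : PT S) (hρ : PT ρ) : PT fun a => (S a).upr (ρ a) := by
  unfold RS.upr
  exact PT.ite (PT.decide_eq (by fun_prop) (by fun_prop)) (by fun_prop) (by fun_prop)

@[fun_prop] theorem PT_lane {ρ : α → ℕ} (hS : PT S) (hρ : PT ρ) :
    PT fun a => (S a).lane (ρ a) := by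
  unfold RS.lane
  exact PT.ite (PT.decide_eq (by fun_prop) (by fun_prop)) (by fun_prop) (PT.ite (PT.decide_eq (by fun_prop) (by fun_prop)) (by fun_prop)
    (by fun_prop))

@[fun_prop] theorem PT_rlane {ρ : α → ℕ} (hS : PT S) (hρ : PT ρ) :
    PT fun a => (S a).rlane (ρ a) := by
  unfold RS.rlane
  fun_prop

@[fun_prop] theorem PT_MM (hS : PT S) : PT fun a => (S a).MM := by
  unfold RS.MM
  fun_prop

@[fun_prop] theorem PT_NN (hS : PT S) : PT fun a => (S a).NN := by
  unfold RS.NN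
  fun_prop

end Pool.Agent.H54R
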