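import Pool.Agent.Lib.H54R.P1

/-!
# P2: polynomial time: links and roles
-/

set_option autoImplicit false

namespace Pool.Agent.H54R

open Pool.Agent.PolyTime

variable {α : Type} [Enc α] {S : α → RS}

@[fun_prop] theorem PT_loE {l : α → ℕ} (hl : PT l) : PT fun a => RS.loE (l a) := by
  unfold RS.loE
  fun_prop

@[fun_prop] theorem PT_loF {l : α → ℕ} (hl : PT l) : PT fun a => RS.loF (l a) := by
  unfold RS.loF
  exact PT.ite (PT.decide_eq (by fun_prop) (by fun_prop)) (by fun_prop) (by fun_prop)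

@[fun_prop] theorem PT_loA {l : α → ℕ} (hS : PT S) (hl : PT l) : PT fun a => (S a).loA (l a) := by
  unfold RS.loA
  exact PT.ite (PT.decide_lt (by fun_prop) (by fun_prop)) (by fun_prop) (by fun_prop)

@[fun_prop] theorem PT_loB {l : α → ℕ} (hS : PT S) (hl : PT l) : PT fun a => (S a).loB (l a) := by
  unfold RS.loB
  exact PT.ite (PT.decide_lt (by fun_prop) (by fun_prop)) (by fun_prop) (by fun_prop)

@[fun_prop] theorem PT_upA {l : α → ℕ} (hS : PT S) (hl : PT l) : PT fun a => (S a).upA (l a) := by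
  unfold RS.upA
  exact PT.ite (PT.decide_lt (by fun_prop) (by fun_prop)) (by fun_prop) (by fun_prop)

@[fun_prop] theorem PT_upB {l : α → ℕ} (hS : PT S) (hl : PT l) : PT fun a => (S a).upB (l a) := by
  unfold RS.upB
  exact PT.ite (PT.decide_lt (by fun_prop) (by fun_prop)) (by fun_prop) (by fun_prop)

@[fun_prop] theorem PT_lkL {l : α → ℕ} (hl : PT l) : PT fun a => RS.lkL (l a) := by
  unfold RS.lkL
  exact PT.ite (PT.decide_or (PT.decide_eq (by fun_prop) (by fun_prop))
    (PT.decide_eq (by fun_prop) (by fun_prop))) (by fun_prop) (by fun_prop)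

@[fun_prop] theorem PT_lkU {l : α → ℕ} (hl : PT l) : PT fun a => RS.lkU (l a) := by
  unfold RS.lkU
  fun_prop

@[fun_prop] theorem PT_hatL {ρ : α → ℕ} (hS : PT S) (hρ : PT ρ) :
    PT fun a => (S a).hatL (ρ a) := by
  unfold RS.hatL
  exact PT.decide_eq (by fun_prop) (by fun_prop)

@[fun_prop] theorem PT_hatU {ρ : α → ℕ} (hS : PT S) (hρ : PT ρ) :
    PT fun a => (S a).hatU (ρ a) := by
  unfold RS.hatU
  exact PT.decide_eq (by fun_prop) (by fun_prop)

/-- nested `if`s: unfold `RS.role` and use `PT.ite` (`decide (b = true)` is handled with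
`PT.congr`) -/
@[fun_prop] theorem PT_role {i : α → ℕ} (hS : PT S) (hi : PT i) :
    PT fun a => (S a).role (i a) := by
  unfold RS.role
  refine PT.ite (PT.decide_lt (by fun_prop) (by fun_prop))
    (PT.ite (PT.decide_eq (by fun_prop) (by fun_prop)) (by fun_prop) (by fun_prop)) ?_
  refine PT.ite (PT.decide_lt (by fun_prop) (by fun_prop))
    (PT.ite (PT.decide_eq (by fun_prop) (by fun_prop)) (by fun_prop) (by fun_prop)) ?_
  refine PT.ite (PT.decide_lt (by fun_prop) (by fun_prop))
    (PT.ite (PT.decide_eq (by fun_prop) (by fun_prop)) (by fun_prop) (by fun_prop)) ?_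
  refine PT.ite (PT.decide_lt (by fun_prop) (by fun_prop))
    (PT.ite (PT.decide_eq (by fun_prop) (by fun_prop)) (by fun_prop) (by fun_prop)) (by fun_prop)

end Pool.Agent.H54R
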