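import Pool.Agent.Lib.H54R.P2

/-!
# P3: polynomial time: row lines
-/

set_option autoImplicit false

namespace Pool.Agent.H54R

open Pool.Agent.PolyTime

variable {α : Type} [Enc α] {S : α → RS}

@[fun_prop] theorem PT_rB {i : α → ℕ} (hS : PT S) (hi : PT i) : PT fun a => (S a).rB (i a) := by
  unfold RS.rB
  refine PT.ite (PT.decide_eq (by fun_prop) (by fun_prop))
    (PT.ite (PT.decide_eq (by fun_prop) (by fun_prop)) (by fun_prop) (by fun_prop)) ?_
  exact PT.ite (PT.decide_eq (by fun_prop) (by fun_prop))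
    (PT.ite (PT.decide_eq (by fun_prop) (by fun_prop)) (by fun_prop) (by fun_prop)) (by fun_prop)

@[fun_prop] theorem PT_rT {i : α → ℕ} (hS : PT S) (hi : PT i) : PT fun a => (S a).rT (i a) := by
  unfold RS.rT
  refine PT.ite (PT.decide_eq (by fun_prop) (by fun_prop))
    (PT.ite (PT.decide_eq (by fun_prop) (by fun_prop)) (by fun_prop) (by fun_prop)) ?_
  exact PT.ite (PT.decide_eq (by fun_prop) (by fun_prop))
    (PT.ite (PT.decide_eq (by fun_prop) (by fun_prop)) (by fun_prop) (by fun_prop)) (by fun_prop)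

@[fun_prop] theorem PT_rC {i : α → ℕ} (hS : PT S) (hi : PT i) : PT fun a => (S a).rC (i a) := by
  unfold RS.rC
  refine PT.ite (PT.decide_and (PT.decide_eq (by fun_prop) (by fun_prop)) (PT.decide_eq (by fun_prop) (by fun_prop)))
    (by fun_prop) ?_
  exact PT.ite (PT.decide_and (PT.decide_eq (by fun_prop) (by fun_prop)) (PT.decide_eq (by fun_prop) (by fun_prop)))
    (by fun_prop) (by fun_prop)

@[fun_prop] theorem PT_rW {i : α → ℕ} (hS : PT S) (hi : PT i) : PT fun a => (S a).rW (i a) := by
  unfold RS.rW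
  refine PT.ite (PT.decide_eq (by fun_prop) (by fun_prop))
    (PT.ite (PT.decide_eq (by fun_prop) (by fun_prop)) (by fun_prop) (by fun_prop)) ?_
  exact PT.ite (PT.decide_eq (by fun_prop) (by fun_prop))
    (PT.ite (PT.decide_eq (by fun_prop) (by fun_prop)) (by fun_prop) (by fun_prop)) (by fun_prop)

end Pool.Agent.H54R
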