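import Pool.Agent.Lib.H54R.P2

/-!
# P4: polynomial time: lists of reads, column lines
-/

set_option autoImplicit false

namespace Pool.Agent.H54R

open Pool.Agent.PolyTime

variable {α : Type} [Enc α] {S : α → RS}

/-- `PT.filter` and `PT.rangeLength` -/
@[fun_prop] theorem PT_rd {k j : α → ℕ} (hS : PT S) (hk : PT k) (hj : PT j) :
    PT fun a => (S a).rd (k a) (j a) := by
  have h : PT fun a => (List.range (S a).2.length).filter
      (fun ρ => decide ((S a).kd ρ = k a ∧ (S a).lane ρ = j a)) := by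
    refine PT.filter (f := fun a ρ => decide ((S a).kd ρ = k a ∧ (S a).lane ρ = j a)) ?_
      (PT.rangeLength (by fun_prop))
    exact PT.decide_and (PT.decide_eq (by fun_prop) (by fun_prop))
      (PT.decide_eq (by fun_prop) (by fun_prop))
  exact h

@[fun_prop] theorem PT_nxt {ρ : α → ℕ} (hS : PT S) (hρ : PT ρ) : PT fun a => (S a).nxt (ρ a) := by
  have h : PT fun a => ((List.range (S a).2.length).filter
      (fun σ => decide ((S a).kd σ = (S a).kd (ρ a) ∧ (S a).lane σ = (S a).lane (ρ a) ∧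
        ρ a < σ))).take 1 := by
    refine PT.take ?_ (PT.const 1)
    refine PT.filter (f := fun a σ => decide ((S a).kd σ = (S a).kd (ρ a) ∧
      (S a).lane σ = (S a).lane (ρ a) ∧ ρ a < σ)) ?_
      (PT.rangeLength (by fun_prop))
    exact PT.decide_and (PT.decide_eq (by fun_prop) (by fun_prop))
      (PT.decide_and (PT.decide_eq (by fun_prop) (by fun_prop))
        (PT.decide_lt (by fun_prop) (by fun_prop)))
  exact h

theorem p4_map1 {γ : Type} [Enc γ] {f : ℕ → γ} {l : α → List ℕ} (hf : PT f) (hl : PT l) :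
    PT fun a => (l a).map f :=
  PT.map (f := fun _ ρ => f ρ) (by fun_prop) hl

theorem p4_flatMap1 {γ : Type} [Enc γ] {f : ℕ → List γ} {l : α → List ℕ} (hf : PT f)
    (hl : PT l) : PT fun a => (l a).flatMap f :=
  PT.flatMap (f := fun _ ρ => f ρ) (by fun_prop) hl

/-- `PT.flatMap`, `PT.map`, `PT.append`, `PT.ite` -/
@[fun_prop] theorem PT_cL {j : α → ℕ} (hS : PT S) (hj : PT j) : PT fun a => (S a).cL (j a) := by
  unfold RS.cL
  refine PT.ite (PT.decide_lt (by fun_prop) (by fun_prop)) (by fun_prop) ?_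
  refine PT.ite (PT.decide_le (by fun_prop) (by fun_prop)) (by fun_prop) ?_
  refine PT.append (PT.append (PT.append (PT.append ?_ ?_) ?_) ?_) ?_
  · exact p4_map1 (by fun_prop) (by fun_prop)
  · exact p4_flatMap1 (by fun_prop) (by fun_prop)
  · exact p4_flatMap1 (by fun_prop) (by fun_prop)
  · exact p4_flatMap1 (by fun_prop) (by fun_prop)
  · exact p4_map1 (by fun_prop) (by fun_prop)

@[fun_prop] theorem PT_cR {j : α → ℕ} (hS : PT S) (hj : PT j) : PT fun a => (S a).cR (j a) := by
  unfold RS.cR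
  refine PT.ite (PT.decide_lt (by fun_prop) (by fun_prop)) (by fun_prop) ?_
  refine PT.ite (PT.decide_le (by fun_prop) (by fun_prop)) (by fun_prop) ?_
  refine PT.append (PT.append (PT.append (PT.append ?_ ?_) ?_) ?_) ?_
  · exact p4_flatMap1 (by fun_prop) (by fun_prop)
  · exact p4_map1 (by fun_prop) (by fun_prop)
  · exact p4_flatMap1 (by fun_prop) (by fun_prop)
  · exact p4_flatMap1 (by fun_prop) (by fun_prop)
  · exact p4_map1 (by fun_prop) (by fun_prop)

@[fun_prop] theorem PT_cX {j : α → ℕ} (hS : PT S) (hj : PT j) : PT fun a => (S a).cX (j a) := by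
  unfold RS.cX
  refine PT.append (PT.append (PT.append ?_ ?_) ?_) ?_
  · exact p4_map1 (by fun_prop) (by fun_prop)
  · exact p4_map1 (by fun_prop) (by fun_prop)
  · exact p4_map1 (by fun_prop) (by fun_prop)
  · exact p4_map1 (by fun_prop) (by fun_prop)

@[fun_prop] theorem PT_cC {j : α → ℕ} (hS : PT S) (hj : PT j) : PT fun a => (S a).cC (j a) := by
  unfold RS.cC
  refine PT.ite (PT.decide_lt (by fun_prop) (by fun_prop)) (by fun_prop) ?_
  exact PT.ite (PT.decide_le (by fun_prop) (by fun_prop)) (by fun_prop) (by fun_prop)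

@[fun_prop] theorem PT_cf {j : α → ℕ} (hS : PT S) (hj : PT j) : PT fun a => (S a).cf (j a) := by
  unfold RS.cf
  refine PT.ite (PT.decide_lt (by fun_prop) (by fun_prop)) (by fun_prop) ?_
  exact PT.ite (PT.decide_le (by fun_prop) (by fun_prop)) (by fun_prop) (by fun_prop)

@[fun_prop] theorem PT_ck {ρ : α → ℕ} (hS : PT S) (hρ : PT ρ) : PT fun a => (S a).ck (ρ a) := by
  unfold RS.ck
  refine PT.append (PT.append (by fun_prop) ?_) (by fun_prop)
  refine PT.ite (PT.decide_eq (by fun_prop) (by fun_prop)) ?_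
    (PT.ite (PT.decide_eq (by fun_prop) (by fun_prop)) ?_ (by fun_prop))
  · exact p4_flatMap1 (by fun_prop) (by fun_prop)
  · exact p4_flatMap1 (by fun_prop) (by fun_prop)

end Pool.Agent.H54R
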