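import Pool.Agent.Lib.H54R.P3
import Pool.Agent.Lib.H54R.P4

/-!
# P5: polynomial time: light edges
-/

set_option autoImplicit false

namespace Pool.Agent.H54R

open Pool.Agent.PolyTime

variable {α : Type} [Enc α] {S : α → RS}

@[fun_prop] theorem PT_bx {l : α → List ((ℕ × ℕ) × ℕ)} (hl : PT l) : PT fun a => RS.bx (l a) := by
  unfold RS.bx
  exact PT.map (f := fun _ (v : (ℕ × ℕ) × ℕ) => Vx.blk v.1 v.2) (by fun_prop) hl

/-- consecutive pairs of a list (`edg l = l.zip l.tail`) -/
@[fun_prop] theorem PT_edg {l : α → List Vx} (hl : PT l) : PT fun a => edg (l a) := by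
  unfold edg
  fun_prop

@[fun_prop] theorem PT_liRow {i : α → ℕ} (hS : PT S) (hi : PT i) :
    PT fun a => (S a).liRow (i a) := by
  unfold RS.liRow
  fun_prop

@[fun_prop] theorem PT_liCol {j : α → ℕ} (hS : PT S) (hj : PT j) :
    PT fun a => (S a).liCol (j a) := by
  unfold RS.liCol
  fun_prop

@[fun_prop] theorem PT_liRd {ρ : α → ℕ} (hS : PT S) (hρ : PT ρ) :
    PT fun a => (S a).liRd (ρ a) := by
  unfold RS.liRd
  fun_prop

@[fun_prop] theorem PT_liLk {l : α → ℕ} (hl : PT l) : PT fun a => RS.liLk (l a) := by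
  unfold RS.liLk
  exact PT.flatMap (f := fun a (g : ℕ) => [(Vx.blk (g, l a) 0, Vx.blk (g, l a) 3),
    (Vx.blk (g, l a) 5, Vx.blk (g, l a) 1)]) (by fun_prop) (PT.const _)

/-- the numbers of lanes are polynomially bounded (`PBd_length`) -/
theorem PBd_MM (hS : PT S) : PBd fun a => (S a).MM := by
  have h : PBd fun a => 4 * ((S a).2).length :=
    (PBd.const 4).mul (PBd_length (l := fun a => (S a).2) (by fun_prop))
  exact h

theorem p5_K (hS : PT S) : PBd fun a => (S a).K := by
  have h : ∀ a, (S a).K ≤ ((S a).2).length := fun a => Nat.div_le_self _ _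
  exact PBd.mono h (PBd_length (l := fun a => (S a).2) (by fun_prop))

theorem PBd_NN (hS : PT S) (hn : PBd fun a => (S a).n) (hm : PBd fun a => (S a).m) :
    PBd fun a => (S a).NN := by
  exact (((PBd.const 8).mul (p5_K hS)).add hm).add hn

/-- `PT_rangeN` (NTools.lean) with `PBd_MM`, `PBd_NN` for the ranges, `PT.map`, `PT.flatMap` -/
theorem PT_light (hS : PT S) (hn : PBd fun a => (S a).n) (hm : PBd fun a => (S a).m) :
    PT fun a => (S a).light := by
  have hM := PBd_MM hS
  have hN := PBd_NN hS hn hm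
  unfold RS.light
  refine PT.append (PT.append (PT.append (PT.append (PT.append ?_ ?_) ?_) ?_) ?_) ?_
  · exact PT.map (f := fun _ i => (Vx.L (4 * i), Vx.R (4 * i))) (by fun_prop)
      (PT_rangeN (by fun_prop) (hM.add (PBd.const 1)))
  · exact PT.map (f := fun _ i => (Vx.B (4 * i), Vx.T (4 * i))) (by fun_prop)
      (PT_rangeN (by fun_prop) (hN.add (PBd.const 1)))
  · exact PT.flatMap (f := fun a i => (S a).liRow i) (by fun_prop) (PT_rangeN (by fun_prop) hM)
  · exact PT.flatMap (f := fun a i => (S a).liCol i) (by fun_prop) (PT_rangeN (by fun_prop) hN)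
  · exact PT.flatMap (f := fun a i => (S a).liRd i) (by fun_prop) (PT_rangeN (by fun_prop)
      (PBd_length (l := fun a => (S a).2) (by fun_prop)))
  · exact PT.flatMap (f := fun _ i => RS.liLk i) (by fun_prop) (PT_rangeN (by fun_prop)
      ((PBd.const 2).mul (p5_K hS)))

end Pool.Agent.H54R
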