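import Pool.Agent.Lib.H54R.P5

/-!
# P6: polynomial time: heavy edges, the graph
-/

set_option autoImplicit false

namespace Pool.Agent.H54R

open Pool.Agent.PolyTime

variable {α : Type} [Enc α] {S : α → RS}

@[fun_prop] theorem PT_hvRd {ρ : α → ℕ} (hρ : PT ρ) : PT fun a => RS.hvRd (ρ a) := by
  unfold RS.hvRd
  exact PT.flatMap (f := fun a (g : ℕ) => [(Vx.blk (g, ρ a) 0, Vx.blk (g, ρ a) 1),
    (Vx.blk (g, ρ a) 1, Vx.blk (g, ρ a) 2)]) (by fun_prop) (PT.const _)

@[fun_prop] theorem PT_hvLk {l : α → ℕ} (hl : PT l) : PT fun a => RS.hvLk (l a) := by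
  unfold RS.hvLk
  exact PT.flatMap (f := fun a (g : ℕ) => [(Vx.blk (g, l a) 0, Vx.blk (g, l a) 5),
    (Vx.blk (g, l a) 5, Vx.blk (g, l a) 3), (Vx.blk (g, l a) 5, Vx.blk (g, l a) 2),
    (Vx.blk (g, l a) 2, Vx.blk (g, l a) 1), (Vx.blk (g, l a) 0, Vx.blk (g, l a) 1),
    (Vx.blk (g, l a) 3, Vx.blk (g, l a) 4)]) (by fun_prop) (PT.const _)

/-- `PT_rangeN` (NTools.lean) with `PBd_MM`, `PBd_NN` for the ranges -/
theorem PT_hvBd (hS : PT S) (hn : PBd fun a => (S a).n) (hm : PBd fun a => (S a).m) :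
    PT fun a => (S a).hvBd := by
  have hM := PBd_MM hS
  have hN := PBd_NN hS hn hm
  unfold RS.hvBd
  refine PT.append (PT.append (PT.append (PT.append ?_ ?_) ?_) ?_) (by fun_prop)
  · exact PT.map (f := fun _ k => (Vx.L k, Vx.L (k + 1))) (by fun_prop)
      (PT_rangeN (by fun_prop) ((PBd.const 4).mul hM))
  · exact PT.map (f := fun _ k => (Vx.R k, Vx.R (k + 1))) (by fun_prop)
      (PT_rangeN (by fun_prop) ((PBd.const 4).mul hM))
  · exact PT.map (f := fun _ k => (Vx.B k, Vx.B (k + 1))) (by fun_prop)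
      (PT_rangeN (by fun_prop) ((PBd.const 4).mul hN))
  · exact PT.map (f := fun _ k => (Vx.T k, Vx.T (k + 1))) (by fun_prop)
      (PT_rangeN (by fun_prop) ((PBd.const 4).mul hN))

theorem PT_hvHub (hS : PT S) (hn : PBd fun a => (S a).n) (hm : PBd fun a => (S a).m) :
    PT fun a => (S a).hvHub := by
  have hM := PBd_MM hS
  have hN := PBd_NN hS hn hm
  unfold RS.hvHub
  refine PT.append (PT.append (PT.append (PT.append ?_ ?_) ?_) ?_) (by fun_prop)
  · exact PT.map (f := fun _ k => (Vx.hub 0, Vx.L k)) (by fun_prop)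
      (PT_rangeN (by fun_prop) (((PBd.const 4).mul hM).add (PBd.const 1)))
  · exact PT.map (f := fun _ k => (Vx.hub 1, Vx.R k)) (by fun_prop)
      (PT_rangeN (by fun_prop) (((PBd.const 4).mul hM).add (PBd.const 1)))
  · exact PT.map (f := fun _ k => (Vx.hub 2, Vx.T k)) (by fun_prop)
      (PT_rangeN (by fun_prop) (((PBd.const 4).mul hN).add (PBd.const 1)))
  · exact PT.map (f := fun _ k => (Vx.hub 3, Vx.B k)) (by fun_prop)
      (PT_rangeN (by fun_prop) (((PBd.const 4).mul hN).add (PBd.const 1)))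

theorem PT_heavy (hS : PT S) (hn : PBd fun a => (S a).n) (hm : PBd fun a => (S a).m) :
    PT fun a => (S a).heavy := by
  unfold RS.heavy
  refine PT.append (PT.append (PT.append ?_ ?_) (PT_hvBd hS hn hm)) (PT_hvHub hS hn hm)
  · exact PT.flatMap (f := fun _ i => RS.hvRd i) (by fun_prop) (PT_rangeN (by fun_prop)
      (PBd_length (l := fun a => (S a).2) (by fun_prop)))
  · exact PT.flatMap (f := fun _ i => RS.hvLk i) (by fun_prop) (PT_rangeN (by fun_prop)
      ((PBd.const 2).mul (p5_K hS)))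

/-- `PT_toGr`, `PT_expand` (E2.lean) -/
theorem PT_graphOf (hS : PT S) (hn : PBd fun a => (S a).n) (hm : PBd fun a => (S a).m) :
    PT fun a => graphOf (S a) := by
  unfold graphOf coreG
  exact PT_toGr (PT_expand (PT.pair (PT_light hS hn hm) (PT_heavy hS hn hm)))

end Pool.Agent.H54R
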