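import Pool.Agent.Lib.H54R.RDefs

/-!
# R4: the picture of a gate
-/

set_option autoImplicit false

namespace Pool.Agent.H54R

variable {x0 f y2 y px yu yc xw : ℝ}

theorem r4_open {P Q z : Pt} (hz : z ∈ openSegment ℝ P Q) :
    ∃ t : ℝ, 0 < t ∧ t < 1 ∧ z.1 = P.1 + t * (Q.1 - P.1) ∧ z.2 = P.2 + t * (Q.2 - P.2) := by
  obtain ⟨a, b, ha, hb, hab, rfl⟩ := hz
  have e : a = 1 - b := by linarith
  subst e
  refine ⟨b, hb, by linarith, ?_, ?_⟩
  · simp only [Prod.fst_add, Prod.smul_fst, smul_eq_mul]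
    ring
  · simp only [Prod.snd_add, Prod.smul_snd, smul_eq_mul]
    ring

/-- a linear function which separates two segments -/
theorem r4_sep (a b g : ℝ) {P Q R T z : Pt} (hz : z ∈ openSegment ℝ P Q)
    (hz' : z ∈ openSegment ℝ R T) (h1 : 0 ≤ a * P.1 + b * P.2 + g)
    (h2 : 0 ≤ a * Q.1 + b * Q.2 + g)
    (h3 : 0 < (a * P.1 + b * P.2 + g) + (a * Q.1 + b * Q.2 + g))
    (h4 : a * R.1 + b * R.2 + g ≤ 0) (h5 : a * T.1 + b * T.2 + g ≤ 0) : False := by
  obtain ⟨t, ht, ht', z1, z2⟩ := r4_open hz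
  obtain ⟨s, hs, hs', w1, w2⟩ := r4_open hz'
  have e1 : a * z.1 + b * z.2 + g =
      (1 - t) * (a * P.1 + b * P.2 + g) + t * (a * Q.1 + b * Q.2 + g) := by
    rw [z1, z2]
    ring
  have e2 : a * z.1 + b * z.2 + g =
      (1 - s) * (a * R.1 + b * R.2 + g) + s * (a * T.1 + b * T.2 + g) := by
    rw [w1, w2]
    ring
  have p1 : 0 < a * z.1 + b * z.2 + g := by
    rw [e1]
    rcases h1.eq_or_lt with h | h
    · rw [← h] at h3 ⊢
      rw [zero_add] at h3
      rw [mul_zero, zero_add]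
      exact mul_pos ht h3
    · have := mul_pos (sub_pos.2 ht') h
      have := mul_nonneg ht.le h2
      linarith
  have p2 : a * z.1 + b * z.2 + g ≤ 0 := by
    rw [e2]
    have := mul_nonneg (sub_pos.2 hs').le (neg_nonneg.2 h4)
    have := mul_nonneg hs.le (neg_nonneg.2 h5)
    linarith
  linarith

theorem r4_mul {t d : ℝ} (h0 : 0 < t) (h1 : t < 1) (hd : 0 < d) : 0 < t * d ∧ t * d < d := by
  refine ⟨mul_pos h0 hd, ?_⟩
  have := mul_pos (sub_pos.2 h1) hd
  linarith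

/-- Points of the open edges of a gate: strictly between `x0` and `1`, `0` and `1`, not on the ray of
`q` or `p` to the right, not on the vertical ray over `q`. (For each of the eight edges write the point
as a convex combination; `p c` at the height of `q` and at the column `f` uses `h11`, `s u` at the
height of `p` uses `h10`.) -/
theorem gate_lines (h : GateN x0 f y2 y px yu yc xw) {e : ℕ × ℕ} (he : e ∈ gateE) {z : Pt}
    (hz : z ∈ openSegment ℝ (gateP x0 f y2 y px yu yc xw e.1)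
      (gateP x0 f y2 y px yu yc xw e.2)) :
    x0 < z.1 ∧ z.1 < 1 ∧ 0 < z.2 ∧ z.2 < 1 ∧ ¬ (z.2 = y2 ∧ f ≤ z.1) ∧
      ¬ (z.2 = y ∧ px ≤ z.1) ∧ ¬ (z.1 = f ∧ y2 ≤ z.2) := by
  obtain ⟨h0, h1, h2, h3, h4, h5, h6, h7, h8, h9, h10, h11⟩ := h
  obtain ⟨t, ht, ht', z1, z2⟩ := r4_open hz
  simp only [gateE, List.mem_cons, List.not_mem_nil, or_false] at he
  rcases he with rfl | rfl | rfl | rfl | rfl | rfl | rfl | rfl
  · change z.1 = x0 + t * (px - x0) at z1
    change z.2 = 0 + t * (y - 0) at z2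
    obtain ⟨a1, a2⟩ := r4_mul ht ht' (show 0 < px - x0 by linarith)
    obtain ⟨b1, b2⟩ := r4_mul ht ht' (show 0 < y - 0 by linarith)
    refine ⟨by linarith, by linarith, by linarith, by linarith, ?_, ?_, ?_⟩
    · rintro ⟨c1, c2⟩
      linarith
    · rintro ⟨c1, c2⟩
      linarith
    · rintro ⟨c1, c2⟩
      linarith
  · change z.1 = px + t * (f - px) at z1
    change z.2 = y + t * (yu - y) at z2
    obtain ⟨a1, a2⟩ := r4_mul ht ht' (show 0 < f - px by linarith)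
    obtain ⟨b1, b2⟩ := r4_mul ht ht' (show 0 < yu - y by linarith)
    refine ⟨by linarith, by linarith, by linarith, by linarith, ?_, ?_, ?_⟩
    · rintro ⟨c1, c2⟩
      linarith
    · rintro ⟨c1, c2⟩
      linarith
    · rintro ⟨c1, c2⟩
      linarith
  · change z.1 = px + t * (f - px) at z1
    change z.2 = y + t * (y2 - y) at z2
    obtain ⟨a1, a2⟩ := r4_mul ht ht' (show 0 < f - px by linarith)
    obtain ⟨b1, b2⟩ := r4_mul ht ht' (show 0 < y - y2 by linarith)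
    have b3 : t * (y2 - y) = -(t * (y - y2)) := by ring
    refine ⟨by linarith, by linarith, by linarith, by linarith, ?_, ?_, ?_⟩
    · rintro ⟨c1, c2⟩
      linarith
    · rintro ⟨c1, c2⟩
      linarith
    · rintro ⟨c1, c2⟩
      linarith
  · change z.1 = f + t * (1 - f) at z1
    change z.2 = y2 + t * (yc - y2) at z2
    obtain ⟨a1, a2⟩ := r4_mul ht ht' (show 0 < 1 - f by linarith)
    obtain ⟨b1, b2⟩ := r4_mul ht ht' (show 0 < y2 - yc by linarith)
    have b3 : t * (yc - y2) = -(t * (y2 - yc)) := by ring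
    refine ⟨by linarith, by linarith, by linarith, by linarith, ?_, ?_, ?_⟩
    · rintro ⟨c1, c2⟩
      linarith
    · rintro ⟨c1, c2⟩
      linarith
    · rintro ⟨c1, c2⟩
      linarith
  · change z.1 = x0 + t * (1 - x0) at z1
    change z.2 = 0 + t * (yc - 0) at z2
    obtain ⟨a1, a2⟩ := r4_mul ht ht' (show 0 < 1 - x0 by linarith)
    obtain ⟨b1, b2⟩ := r4_mul ht ht' (show 0 < yc - 0 by linarith)
    refine ⟨by linarith, by linarith, by linarith, by linarith, ?_, ?_, ?_⟩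
    · rintro ⟨c1, c2⟩
      linarith
    · rintro ⟨c1, c2⟩
      linarith
    · rintro ⟨c1, c2⟩
      linarith
  · change z.1 = f + t * (xw - f) at z1
    change z.2 = yu + t * (1 - yu) at z2
    obtain ⟨a1, a2⟩ := r4_mul ht ht' (show 0 < xw - f by linarith)
    obtain ⟨b1, b2⟩ := r4_mul ht ht' (show 0 < 1 - yu by linarith)
    refine ⟨by linarith, by linarith, by linarith, by linarith, ?_, ?_, ?_⟩
    · rintro ⟨c1, c2⟩
      linarith
    · rintro ⟨c1, c2⟩
      linarith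
    · rintro ⟨c1, c2⟩
      linarith
  · change z.1 = x0 + t * (f - x0) at z1
    change z.2 = 0 + t * (yu - 0) at z2
    obtain ⟨a1, a2⟩ := r4_mul ht ht' (show 0 < f - x0 by linarith)
    obtain ⟨b1, b2⟩ := r4_mul ht ht' (show 0 < yu - 0 by linarith)
    refine ⟨by linarith, by linarith, by linarith, by linarith, ?_, ?_, ?_⟩
    · rintro ⟨c1, c2⟩
      linarith
    · rintro ⟨c1, c2⟩
      have c3 : px - x0 ≤ t * (f - x0) := by linarith
      have c4 := mul_le_mul_of_nonneg_right c3 (show 0 ≤ yu by linarith)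
      have c5 : t * yu = y := by linarith
      have c6 : t * (f - x0) * yu = (f - x0) * y := by rw [← c5]; ring
      linarith
    · rintro ⟨c1, c2⟩
      linarith
  · change z.1 = px + t * (1 - px) at z1
    change z.2 = y + t * (yc - y) at z2
    obtain ⟨a1, a2⟩ := r4_mul ht ht' (show 0 < 1 - px by linarith)
    obtain ⟨b1, b2⟩ := r4_mul ht ht' (show 0 < y - yc by linarith)
    have b3 : t * (yc - y) = -(t * (y - yc)) := by ring
    refine ⟨by linarith, by linarith, by linarith, by linarith, ?_, ?_, ?_⟩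
    · rintro ⟨c1, c2⟩
      have c3 : f - px ≤ t * (1 - px) := by linarith
      have c4 := mul_le_mul_of_nonneg_right c3 (show 0 ≤ y - yc by linarith)
      have c5 : t * (y - yc) = y - y2 := by linarith
      have c6 : t * (1 - px) * (y - yc) = (1 - px) * (y - y2) := by rw [← c5]; ring
      linarith
    · rintro ⟨c1, c2⟩
      linarith
    · rintro ⟨c1, c2⟩
      have c3 : t * (y - yc) ≤ y - y2 := by linarith
      have c4 := mul_le_mul_of_nonneg_left c3 (show 0 ≤ 1 - px by linarith)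
      have c5 : t * (1 - px) = f - px := by linarith
      have c6 : (1 - px) * (t * (y - yc)) = (f - px) * (y - yc) := by rw [← c5]; ring
      linarith

/-- The open edges of a gate are pairwise disjoint: for every pair give a separating line (the line
of one of the edges, or a horizontal or vertical line); see PAPER.md 5.3. For example all vertices
except `s`, `u` are strictly on the right of the line `s u` (for `w`: `xw > f` and `yu < 1`, use the line
only if needed; `u w` is above the height `yu`), all except `s`, `c` are above the line `s c`, `q` and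
`u`, `w` are above the line `p c` and `s` is below it. -/
theorem gate_pairs (h : GateN x0 f y2 y px yu yc xw) {e e' : ℕ × ℕ} (he : e ∈ gateE)
    (he' : e' ∈ gateE) (hne : e ≠ e') {z : Pt}
    (hz : z ∈ openSegment ℝ (gateP x0 f y2 y px yu yc xw e.1)
      (gateP x0 f y2 y px yu yc xw e.2)) :
    z ∉ openSegment ℝ (gateP x0 f y2 y px yu yc xw e'.1)
      (gateP x0 f y2 y px yu yc xw e'.2) := by
  obtain ⟨h0, h1, h2, h3, h4, h5, h6, h7, h8, h9, h10, h11⟩ := h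
  have hfx : 0 < f - x0 := by linarith
  have gq : 0 < (f - x0) * (yu - y2) := mul_pos hfx (by linarith)
  have gc : 0 < (1 - x0) * (yu - yc) := mul_pos (by linarith) (by linarith)
  have gc' : 0 < (1 - f) * yc := mul_pos (by linarith) h5
  have ep : 0 < (1 - x0) * (y - yc) := mul_pos (by linarith) (by linarith)
  have ep' : 0 < (1 - px) * yc := mul_pos (by linarith) h5
  have kBA : ∀ z : Pt, z ∈ openSegment ℝ ((px, y) : Pt) ((f, yu) : Pt) →
      z ∈ openSegment ℝ ((x0, 0) : Pt) ((px, y) : Pt) → False := by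
    intro z hz hz'
    refine r4_sep 1 0 (-px) hz hz' ?_ ?_ ?_ ?_ ?_
    · show (0 : ℝ) ≤ 1 * px + 0 * y + -px
      linarith
    · show (0 : ℝ) ≤ 1 * f + 0 * yu + -px
      linarith
    · show (0 : ℝ) < (1 * px + 0 * y + -px) + (1 * f + 0 * yu + -px)
      linarith
    · show 1 * x0 + 0 * 0 + -px ≤ (0 : ℝ)
      linarith
    · show 1 * px + 0 * y + -px ≤ (0 : ℝ)
      linarith
  have kCA : ∀ z : Pt, z ∈ openSegment ℝ ((px, y) : Pt) ((f, y2) : Pt) →
      z ∈ openSegment ℝ ((x0, 0) : Pt) ((px, y) : Pt) → False := by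
    intro z hz hz'
    refine r4_sep 1 0 (-px) hz hz' ?_ ?_ ?_ ?_ ?_
    · show (0 : ℝ) ≤ 1 * px + 0 * y + -px
      linarith
    · show (0 : ℝ) ≤ 1 * f + 0 * y2 + -px
      linarith
    · show (0 : ℝ) < (1 * px + 0 * y + -px) + (1 * f + 0 * y2 + -px)
      linarith
    · show 1 * x0 + 0 * 0 + -px ≤ (0 : ℝ)
      linarith
    · show 1 * px + 0 * y + -px ≤ (0 : ℝ)
      linarith
  have kDA : ∀ z : Pt, z ∈ openSegment ℝ ((f, y2) : Pt) ((1, yc) : Pt) →
      z ∈ openSegment ℝ ((x0, 0) : Pt) ((px, y) : Pt) → False := by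
    intro z hz hz'
    refine r4_sep 1 0 (-px) hz hz' ?_ ?_ ?_ ?_ ?_
    · show (0 : ℝ) ≤ 1 * f + 0 * y2 + -px
      linarith
    · show (0 : ℝ) ≤ 1 * 1 + 0 * yc + -px
      linarith
    · show (0 : ℝ) < (1 * f + 0 * y2 + -px) + (1 * 1 + 0 * yc + -px)
      linarith
    · show 1 * x0 + 0 * 0 + -px ≤ (0 : ℝ)
      linarith
    · show 1 * px + 0 * y + -px ≤ (0 : ℝ)
      linarith
  have kFA : ∀ z : Pt, z ∈ openSegment ℝ ((f, yu) : Pt) ((xw, 1) : Pt) →
      z ∈ openSegment ℝ ((x0, 0) : Pt) ((px, y) : Pt) → False := by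
    intro z hz hz'
    refine r4_sep 1 0 (-px) hz hz' ?_ ?_ ?_ ?_ ?_
    · show (0 : ℝ) ≤ 1 * f + 0 * yu + -px
      linarith
    · show (0 : ℝ) ≤ 1 * xw + 0 * 1 + -px
      linarith
    · show (0 : ℝ) < (1 * f + 0 * yu + -px) + (1 * xw + 0 * 1 + -px)
      linarith
    · show 1 * x0 + 0 * 0 + -px ≤ (0 : ℝ)
      linarith
    · show 1 * px + 0 * y + -px ≤ (0 : ℝ)
      linarith
  have kHA : ∀ z : Pt, z ∈ openSegment ℝ ((px, y) : Pt) ((1, yc) : Pt) →
      z ∈ openSegment ℝ ((x0, 0) : Pt) ((px, y) : Pt) → False := by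
    intro z hz hz'
    refine r4_sep 1 0 (-px) hz hz' ?_ ?_ ?_ ?_ ?_
    · show (0 : ℝ) ≤ 1 * px + 0 * y + -px
      linarith
    · show (0 : ℝ) ≤ 1 * 1 + 0 * yc + -px
      linarith
    · show (0 : ℝ) < (1 * px + 0 * y + -px) + (1 * 1 + 0 * yc + -px)
      linarith
    · show 1 * x0 + 0 * 0 + -px ≤ (0 : ℝ)
      linarith
    · show 1 * px + 0 * y + -px ≤ (0 : ℝ)
      linarith
  have kAE : ∀ z : Pt, z ∈ openSegment ℝ ((x0, 0) : Pt) ((px, y) : Pt) →
      z ∈ openSegment ℝ ((x0, 0) : Pt) ((1, yc) : Pt) → False := by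
    intro z hz hz'
    refine r4_sep (-yc) (1 - x0) ((yc * x0)) hz hz' ?_ ?_ ?_ ?_ ?_
    · show (0 : ℝ) ≤ (-yc) * x0 + (1 - x0) * 0 + (yc * x0)
      linarith
    · show (0 : ℝ) ≤ (-yc) * px + (1 - x0) * y + (yc * x0)
      linarith
    · show (0 : ℝ) < ((-yc) * x0 + (1 - x0) * 0 + (yc * x0)) + ((-yc) * px + (1 - x0) * y + (yc * x0))
      linarith
    · show (-yc) * x0 + (1 - x0) * 0 + (yc * x0) ≤ (0 : ℝ)
      linarith
    · show (-yc) * 1 + (1 - x0) * yc + (yc * x0) ≤ (0 : ℝ)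
      linarith
  have kAG : ∀ z : Pt, z ∈ openSegment ℝ ((x0, 0) : Pt) ((px, y) : Pt) →
      z ∈ openSegment ℝ ((x0, 0) : Pt) ((f, yu) : Pt) → False := by
    intro z hz hz'
    refine r4_sep yu (-(f - x0)) ((-(yu * x0))) hz hz' ?_ ?_ ?_ ?_ ?_
    · show (0 : ℝ) ≤ yu * x0 + (-(f - x0)) * 0 + (-(yu * x0))
      linarith
    · show (0 : ℝ) ≤ yu * px + (-(f - x0)) * y + (-(yu * x0))
      linarith
    · show (0 : ℝ) < (yu * x0 + (-(f - x0)) * 0 + (-(yu * x0))) + (yu * px + (-(f - x0)) * y + (-(yu * x0)))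
      linarith
    · show yu * x0 + (-(f - x0)) * 0 + (-(yu * x0)) ≤ (0 : ℝ)
      linarith
    · show yu * f + (-(f - x0)) * yu + (-(yu * x0)) ≤ (0 : ℝ)
      linarith
  have kBC : ∀ z : Pt, z ∈ openSegment ℝ ((px, y) : Pt) ((f, yu) : Pt) →
      z ∈ openSegment ℝ ((px, y) : Pt) ((f, y2) : Pt) → False := by
    intro z hz hz'
    refine r4_sep 0 1 (-y) hz hz' ?_ ?_ ?_ ?_ ?_
    · show (0 : ℝ) ≤ 0 * px + 1 * y + -y
      linarith
    · show (0 : ℝ) ≤ 0 * f + 1 * yu + -y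
      linarith
    · show (0 : ℝ) < (0 * px + 1 * y + -y) + (0 * f + 1 * yu + -y)
      linarith
    · show 0 * px + 1 * y + -y ≤ (0 : ℝ)
      linarith
    · show 0 * f + 1 * y2 + -y ≤ (0 : ℝ)
      linarith
  have kDB : ∀ z : Pt, z ∈ openSegment ℝ ((f, y2) : Pt) ((1, yc) : Pt) →
      z ∈ openSegment ℝ ((px, y) : Pt) ((f, yu) : Pt) → False := by
    intro z hz hz'
    refine r4_sep 1 0 (-f) hz hz' ?_ ?_ ?_ ?_ ?_
    · show (0 : ℝ) ≤ 1 * f + 0 * y2 + -f
      linarith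
    · show (0 : ℝ) ≤ 1 * 1 + 0 * yc + -f
      linarith
    · show (0 : ℝ) < (1 * f + 0 * y2 + -f) + (1 * 1 + 0 * yc + -f)
      linarith
    · show 1 * px + 0 * y + -f ≤ (0 : ℝ)
      linarith
    · show 1 * f + 0 * yu + -f ≤ (0 : ℝ)
      linarith
  have kBE : ∀ z : Pt, z ∈ openSegment ℝ ((px, y) : Pt) ((f, yu) : Pt) →
      z ∈ openSegment ℝ ((x0, 0) : Pt) ((1, yc) : Pt) → False := by
    intro z hz hz'
    refine r4_sep 0 1 (-y) hz hz' ?_ ?_ ?_ ?_ ?_
    · show (0 : ℝ) ≤ 0 * px + 1 * y + -y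
      linarith
    · show (0 : ℝ) ≤ 0 * f + 1 * yu + -y
      linarith
    · show (0 : ℝ) < (0 * px + 1 * y + -y) + (0 * f + 1 * yu + -y)
      linarith
    · show 0 * x0 + 1 * 0 + -y ≤ (0 : ℝ)
      linarith
    · show 0 * 1 + 1 * yc + -y ≤ (0 : ℝ)
      linarith
  have kFB : ∀ z : Pt, z ∈ openSegment ℝ ((f, yu) : Pt) ((xw, 1) : Pt) →
      z ∈ openSegment ℝ ((px, y) : Pt) ((f, yu) : Pt) → False := by
    intro z hz hz'
    refine r4_sep 1 0 (-f) hz hz' ?_ ?_ ?_ ?_ ?_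
    · show (0 : ℝ) ≤ 1 * f + 0 * yu + -f
      linarith
    · show (0 : ℝ) ≤ 1 * xw + 0 * 1 + -f
      linarith
    · show (0 : ℝ) < (1 * f + 0 * yu + -f) + (1 * xw + 0 * 1 + -f)
      linarith
    · show 1 * px + 0 * y + -f ≤ (0 : ℝ)
      linarith
    · show 1 * f + 0 * yu + -f ≤ (0 : ℝ)
      linarith
  have kBH : ∀ z : Pt, z ∈ openSegment ℝ ((px, y) : Pt) ((f, yu) : Pt) →
      z ∈ openSegment ℝ ((px, y) : Pt) ((1, yc) : Pt) → False := by
    intro z hz hz'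
    refine r4_sep 0 1 (-y) hz hz' ?_ ?_ ?_ ?_ ?_
    · show (0 : ℝ) ≤ 0 * px + 1 * y + -y
      linarith
    · show (0 : ℝ) ≤ 0 * f + 1 * yu + -y
      linarith
    · show (0 : ℝ) < (0 * px + 1 * y + -y) + (0 * f + 1 * yu + -y)
      linarith
    · show 0 * px + 1 * y + -y ≤ (0 : ℝ)
      linarith
    · show 0 * 1 + 1 * yc + -y ≤ (0 : ℝ)
      linarith
  have kBG : ∀ z : Pt, z ∈ openSegment ℝ ((px, y) : Pt) ((f, yu) : Pt) →
      z ∈ openSegment ℝ ((x0, 0) : Pt) ((f, yu) : Pt) → False := by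
    intro z hz hz'
    refine r4_sep yu (-(f - x0)) ((-(yu * x0))) hz hz' ?_ ?_ ?_ ?_ ?_
    · show (0 : ℝ) ≤ yu * px + (-(f - x0)) * y + (-(yu * x0))
      linarith
    · show (0 : ℝ) ≤ yu * f + (-(f - x0)) * yu + (-(yu * x0))
      linarith
    · show (0 : ℝ) < (yu * px + (-(f - x0)) * y + (-(yu * x0))) + (yu * f + (-(f - x0)) * yu + (-(yu * x0)))
      linarith
    · show yu * x0 + (-(f - x0)) * 0 + (-(yu * x0)) ≤ (0 : ℝ)
      linarith
    · show yu * f + (-(f - x0)) * yu + (-(yu * x0)) ≤ (0 : ℝ)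
      linarith
  have kDC : ∀ z : Pt, z ∈ openSegment ℝ ((f, y2) : Pt) ((1, yc) : Pt) →
      z ∈ openSegment ℝ ((px, y) : Pt) ((f, y2) : Pt) → False := by
    intro z hz hz'
    refine r4_sep 1 0 (-f) hz hz' ?_ ?_ ?_ ?_ ?_
    · show (0 : ℝ) ≤ 1 * f + 0 * y2 + -f
      linarith
    · show (0 : ℝ) ≤ 1 * 1 + 0 * yc + -f
      linarith
    · show (0 : ℝ) < (1 * f + 0 * y2 + -f) + (1 * 1 + 0 * yc + -f)
      linarith
    · show 1 * px + 0 * y + -f ≤ (0 : ℝ)
      linarith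
    · show 1 * f + 0 * y2 + -f ≤ (0 : ℝ)
      linarith
  have kCE : ∀ z : Pt, z ∈ openSegment ℝ ((px, y) : Pt) ((f, y2) : Pt) →
      z ∈ openSegment ℝ ((x0, 0) : Pt) ((1, yc) : Pt) → False := by
    intro z hz hz'
    refine r4_sep 0 1 (-y2) hz hz' ?_ ?_ ?_ ?_ ?_
    · show (0 : ℝ) ≤ 0 * px + 1 * y + -y2
      linarith
    · show (0 : ℝ) ≤ 0 * f + 1 * y2 + -y2
      linarith
    · show (0 : ℝ) < (0 * px + 1 * y + -y2) + (0 * f + 1 * y2 + -y2)
      linarith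
    · show 0 * x0 + 1 * 0 + -y2 ≤ (0 : ℝ)
      linarith
    · show 0 * 1 + 1 * yc + -y2 ≤ (0 : ℝ)
      linarith
  have kFC : ∀ z : Pt, z ∈ openSegment ℝ ((f, yu) : Pt) ((xw, 1) : Pt) →
      z ∈ openSegment ℝ ((px, y) : Pt) ((f, y2) : Pt) → False := by
    intro z hz hz'
    refine r4_sep 1 0 (-f) hz hz' ?_ ?_ ?_ ?_ ?_
    · show (0 : ℝ) ≤ 1 * f + 0 * yu + -f
      linarith
    · show (0 : ℝ) ≤ 1 * xw + 0 * 1 + -f
      linarith
    · show (0 : ℝ) < (1 * f + 0 * yu + -f) + (1 * xw + 0 * 1 + -f)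
      linarith
    · show 1 * px + 0 * y + -f ≤ (0 : ℝ)
      linarith
    · show 1 * f + 0 * y2 + -f ≤ (0 : ℝ)
      linarith
  have kCG : ∀ z : Pt, z ∈ openSegment ℝ ((px, y) : Pt) ((f, y2) : Pt) →
      z ∈ openSegment ℝ ((x0, 0) : Pt) ((f, yu) : Pt) → False := by
    intro z hz hz'
    refine r4_sep yu (-(f - x0)) ((-(yu * x0))) hz hz' ?_ ?_ ?_ ?_ ?_
    · show (0 : ℝ) ≤ yu * px + (-(f - x0)) * y + (-(yu * x0))
      linarith
    · show (0 : ℝ) ≤ yu * f + (-(f - x0)) * y2 + (-(yu * x0))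
      linarith
    · show (0 : ℝ) < (yu * px + (-(f - x0)) * y + (-(yu * x0))) + (yu * f + (-(f - x0)) * y2 + (-(yu * x0)))
      linarith
    · show yu * x0 + (-(f - x0)) * 0 + (-(yu * x0)) ≤ (0 : ℝ)
      linarith
    · show yu * f + (-(f - x0)) * yu + (-(yu * x0)) ≤ (0 : ℝ)
      linarith
  have kCH : ∀ z : Pt, z ∈ openSegment ℝ ((px, y) : Pt) ((f, y2) : Pt) →
      z ∈ openSegment ℝ ((px, y) : Pt) ((1, yc) : Pt) → False := by
    intro z hz hz'
    refine r4_sep (y - yc) (1 - px) ((-((1 - px) * y) - (y - yc) * px)) hz hz' ?_ ?_ ?_ ?_ ?_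
    · show (0 : ℝ) ≤ (y - yc) * px + (1 - px) * y + (-((1 - px) * y) - (y - yc) * px)
      linarith
    · show (0 : ℝ) ≤ (y - yc) * f + (1 - px) * y2 + (-((1 - px) * y) - (y - yc) * px)
      linarith
    · show (0 : ℝ) < ((y - yc) * px + (1 - px) * y + (-((1 - px) * y) - (y - yc) * px)) + ((y - yc) * f + (1 - px) * y2 + (-((1 - px) * y) - (y - yc) * px))
      linarith
    · show (y - yc) * px + (1 - px) * y + (-((1 - px) * y) - (y - yc) * px) ≤ (0 : ℝ)
      linarith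
    · show (y - yc) * 1 + (1 - px) * yc + (-((1 - px) * y) - (y - yc) * px) ≤ (0 : ℝ)
      linarith
  have kDE : ∀ z : Pt, z ∈ openSegment ℝ ((f, y2) : Pt) ((1, yc) : Pt) →
      z ∈ openSegment ℝ ((x0, 0) : Pt) ((1, yc) : Pt) → False := by
    intro z hz hz'
    refine r4_sep 0 1 (-yc) hz hz' ?_ ?_ ?_ ?_ ?_
    · show (0 : ℝ) ≤ 0 * f + 1 * y2 + -yc
      linarith
    · show (0 : ℝ) ≤ 0 * 1 + 1 * yc + -yc
      linarith
    · show (0 : ℝ) < (0 * f + 1 * y2 + -yc) + (0 * 1 + 1 * yc + -yc)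
      linarith
    · show 0 * x0 + 1 * 0 + -yc ≤ (0 : ℝ)
      linarith
    · show 0 * 1 + 1 * yc + -yc ≤ (0 : ℝ)
      linarith
  have kFD : ∀ z : Pt, z ∈ openSegment ℝ ((f, yu) : Pt) ((xw, 1) : Pt) →
      z ∈ openSegment ℝ ((f, y2) : Pt) ((1, yc) : Pt) → False := by
    intro z hz hz'
    refine r4_sep 0 1 (-yu) hz hz' ?_ ?_ ?_ ?_ ?_
    · show (0 : ℝ) ≤ 0 * f + 1 * yu + -yu
      linarith
    · show (0 : ℝ) ≤ 0 * xw + 1 * 1 + -yu
      linarith
    · show (0 : ℝ) < (0 * f + 1 * yu + -yu) + (0 * xw + 1 * 1 + -yu)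
      linarith
    · show 0 * f + 1 * y2 + -yu ≤ (0 : ℝ)
      linarith
    · show 0 * 1 + 1 * yc + -yu ≤ (0 : ℝ)
      linarith
  have kDG : ∀ z : Pt, z ∈ openSegment ℝ ((f, y2) : Pt) ((1, yc) : Pt) →
      z ∈ openSegment ℝ ((x0, 0) : Pt) ((f, yu) : Pt) → False := by
    intro z hz hz'
    refine r4_sep 1 0 (-f) hz hz' ?_ ?_ ?_ ?_ ?_
    · show (0 : ℝ) ≤ 1 * f + 0 * y2 + -f
      linarith
    · show (0 : ℝ) ≤ 1 * 1 + 0 * yc + -f
      linarith
    · show (0 : ℝ) < (1 * f + 0 * y2 + -f) + (1 * 1 + 0 * yc + -f)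
      linarith
    · show 1 * x0 + 0 * 0 + -f ≤ (0 : ℝ)
      linarith
    · show 1 * f + 0 * yu + -f ≤ (0 : ℝ)
      linarith
  have kDH : ∀ z : Pt, z ∈ openSegment ℝ ((f, y2) : Pt) ((1, yc) : Pt) →
      z ∈ openSegment ℝ ((px, y) : Pt) ((1, yc) : Pt) → False := by
    intro z hz hz'
    refine r4_sep (y - yc) (1 - px) ((-((1 - px) * y) - (y - yc) * px)) hz hz' ?_ ?_ ?_ ?_ ?_
    · show (0 : ℝ) ≤ (y - yc) * f + (1 - px) * y2 + (-((1 - px) * y) - (y - yc) * px)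
      linarith
    · show (0 : ℝ) ≤ (y - yc) * 1 + (1 - px) * yc + (-((1 - px) * y) - (y - yc) * px)
      linarith
    · show (0 : ℝ) < ((y - yc) * f + (1 - px) * y2 + (-((1 - px) * y) - (y - yc) * px)) + ((y - yc) * 1 + (1 - px) * yc + (-((1 - px) * y) - (y - yc) * px))
      linarith
    · show (y - yc) * px + (1 - px) * y + (-((1 - px) * y) - (y - yc) * px) ≤ (0 : ℝ)
      linarith
    · show (y - yc) * 1 + (1 - px) * yc + (-((1 - px) * y) - (y - yc) * px) ≤ (0 : ℝ)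
      linarith
  have kFE : ∀ z : Pt, z ∈ openSegment ℝ ((f, yu) : Pt) ((xw, 1) : Pt) →
      z ∈ openSegment ℝ ((x0, 0) : Pt) ((1, yc) : Pt) → False := by
    intro z hz hz'
    refine r4_sep 0 1 (-yu) hz hz' ?_ ?_ ?_ ?_ ?_
    · show (0 : ℝ) ≤ 0 * f + 1 * yu + -yu
      linarith
    · show (0 : ℝ) ≤ 0 * xw + 1 * 1 + -yu
      linarith
    · show (0 : ℝ) < (0 * f + 1 * yu + -yu) + (0 * xw + 1 * 1 + -yu)
      linarith
    · show 0 * x0 + 1 * 0 + -yu ≤ (0 : ℝ)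
      linarith
    · show 0 * 1 + 1 * yc + -yu ≤ (0 : ℝ)
      linarith
  have kEG : ∀ z : Pt, z ∈ openSegment ℝ ((x0, 0) : Pt) ((1, yc) : Pt) →
      z ∈ openSegment ℝ ((x0, 0) : Pt) ((f, yu) : Pt) → False := by
    intro z hz hz'
    refine r4_sep yu (-(f - x0)) ((-(yu * x0))) hz hz' ?_ ?_ ?_ ?_ ?_
    · show (0 : ℝ) ≤ yu * x0 + (-(f - x0)) * 0 + (-(yu * x0))
      linarith
    · show (0 : ℝ) ≤ yu * 1 + (-(f - x0)) * yc + (-(yu * x0))
      linarith
    · show (0 : ℝ) < (yu * x0 + (-(f - x0)) * 0 + (-(yu * x0))) + (yu * 1 + (-(f - x0)) * yc + (-(yu * x0)))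
      linarith
    · show yu * x0 + (-(f - x0)) * 0 + (-(yu * x0)) ≤ (0 : ℝ)
      linarith
    · show yu * f + (-(f - x0)) * yu + (-(yu * x0)) ≤ (0 : ℝ)
      linarith
  have kHE : ∀ z : Pt, z ∈ openSegment ℝ ((px, y) : Pt) ((1, yc) : Pt) →
      z ∈ openSegment ℝ ((x0, 0) : Pt) ((1, yc) : Pt) → False := by
    intro z hz hz'
    refine r4_sep 0 1 (-yc) hz hz' ?_ ?_ ?_ ?_ ?_
    · show (0 : ℝ) ≤ 0 * px + 1 * y + -yc
      linarith
    · show (0 : ℝ) ≤ 0 * 1 + 1 * yc + -yc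
      linarith
    · show (0 : ℝ) < (0 * px + 1 * y + -yc) + (0 * 1 + 1 * yc + -yc)
      linarith
    · show 0 * x0 + 1 * 0 + -yc ≤ (0 : ℝ)
      linarith
    · show 0 * 1 + 1 * yc + -yc ≤ (0 : ℝ)
      linarith
  have kFG : ∀ z : Pt, z ∈ openSegment ℝ ((f, yu) : Pt) ((xw, 1) : Pt) →
      z ∈ openSegment ℝ ((x0, 0) : Pt) ((f, yu) : Pt) → False := by
    intro z hz hz'
    refine r4_sep 1 0 (-f) hz hz' ?_ ?_ ?_ ?_ ?_
    · show (0 : ℝ) ≤ 1 * f + 0 * yu + -f
      linarith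
    · show (0 : ℝ) ≤ 1 * xw + 0 * 1 + -f
      linarith
    · show (0 : ℝ) < (1 * f + 0 * yu + -f) + (1 * xw + 0 * 1 + -f)
      linarith
    · show 1 * x0 + 0 * 0 + -f ≤ (0 : ℝ)
      linarith
    · show 1 * f + 0 * yu + -f ≤ (0 : ℝ)
      linarith
  have kFH : ∀ z : Pt, z ∈ openSegment ℝ ((f, yu) : Pt) ((xw, 1) : Pt) →
      z ∈ openSegment ℝ ((px, y) : Pt) ((1, yc) : Pt) → False := by
    intro z hz hz'
    refine r4_sep 0 1 (-yu) hz hz' ?_ ?_ ?_ ?_ ?_
    · show (0 : ℝ) ≤ 0 * f + 1 * yu + -yu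
      linarith
    · show (0 : ℝ) ≤ 0 * xw + 1 * 1 + -yu
      linarith
    · show (0 : ℝ) < (0 * f + 1 * yu + -yu) + (0 * xw + 1 * 1 + -yu)
      linarith
    · show 0 * px + 1 * y + -yu ≤ (0 : ℝ)
      linarith
    · show 0 * 1 + 1 * yc + -yu ≤ (0 : ℝ)
      linarith
  have kHG : ∀ z : Pt, z ∈ openSegment ℝ ((px, y) : Pt) ((1, yc) : Pt) →
      z ∈ openSegment ℝ ((x0, 0) : Pt) ((f, yu) : Pt) → False := by
    intro z hz hz'
    refine r4_sep yu (-(f - x0)) ((-(yu * x0))) hz hz' ?_ ?_ ?_ ?_ ?_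
    · show (0 : ℝ) ≤ yu * px + (-(f - x0)) * y + (-(yu * x0))
      linarith
    · show (0 : ℝ) ≤ yu * 1 + (-(f - x0)) * yc + (-(yu * x0))
      linarith
    · show (0 : ℝ) < (yu * px + (-(f - x0)) * y + (-(yu * x0))) + (yu * 1 + (-(f - x0)) * yc + (-(yu * x0)))
      linarith
    · show yu * x0 + (-(f - x0)) * 0 + (-(yu * x0)) ≤ (0 : ℝ)
      linarith
    · show yu * f + (-(f - x0)) * yu + (-(yu * x0)) ≤ (0 : ℝ)
      linarith
  simp only [gateE, List.mem_cons, List.not_mem_nil, or_false] at he he'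
  rcases he with rfl | rfl | rfl | rfl | rfl | rfl | rfl | rfl <;>
    rcases he' with rfl | rfl | rfl | rfl | rfl | rfl | rfl | rfl
  · exact absurd rfl hne
  · exact fun hz' => kBA z hz' hz
  · exact fun hz' => kCA z hz' hz
  · exact fun hz' => kDA z hz' hz
  · exact fun hz' => kAE z hz hz'
  · exact fun hz' => kFA z hz' hz
  · exact fun hz' => kAG z hz hz'
  · exact fun hz' => kHA z hz' hz
  · exact fun hz' => kBA z hz hz'
  · exact absurd rfl hne
  · exact fun hz' => kBC z hz hz'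
  · exact fun hz' => kDB z hz' hz
  · exact fun hz' => kBE z hz hz'
  · exact fun hz' => kFB z hz' hz
  · exact fun hz' => kBG z hz hz'
  · exact fun hz' => kBH z hz hz'
  · exact fun hz' => kCA z hz hz'
  · exact fun hz' => kBC z hz' hz
  · exact absurd rfl hne
  · exact fun hz' => kDC z hz' hz
  · exact fun hz' => kCE z hz hz'
  · exact fun hz' => kFC z hz' hz
  · exact fun hz' => kCG z hz hz'
  · exact fun hz' => kCH z hz hz'
  · exact fun hz' => kDA z hz hz'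
  · exact fun hz' => kDB z hz hz'
  · exact fun hz' => kDC z hz hz'
  · exact absurd rfl hne
  · exact fun hz' => kDE z hz hz'
  · exact fun hz' => kFD z hz' hz
  · exact fun hz' => kDG z hz hz'
  · exact fun hz' => kDH z hz hz'
  · exact fun hz' => kAE z hz' hz
  · exact fun hz' => kBE z hz' hz
  · exact fun hz' => kCE z hz' hz
  · exact fun hz' => kDE z hz' hz
  · exact absurd rfl hne
  · exact fun hz' => kFE z hz' hz
  · exact fun hz' => kEG z hz hz'
  · exact fun hz' => kHE z hz' hz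
  · exact fun hz' => kFA z hz hz'
  · exact fun hz' => kFB z hz hz'
  · exact fun hz' => kFC z hz hz'
  · exact fun hz' => kFD z hz hz'
  · exact fun hz' => kFE z hz hz'
  · exact absurd rfl hne
  · exact fun hz' => kFG z hz hz'
  · exact fun hz' => kFH z hz hz'
  · exact fun hz' => kAG z hz' hz
  · exact fun hz' => kBG z hz' hz
  · exact fun hz' => kCG z hz' hz
  · exact fun hz' => kDG z hz' hz
  · exact fun hz' => kEG z hz' hz
  · exact fun hz' => kFG z hz' hz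
  · exact absurd rfl hne
  · exact fun hz' => kHG z hz' hz
  · exact fun hz' => kHA z hz hz'
  · exact fun hz' => kBH z hz' hz
  · exact fun hz' => kCH z hz' hz
  · exact fun hz' => kDH z hz' hz
  · exact fun hz' => kHE z hz hz'
  · exact fun hz' => kFH z hz' hz
  · exact fun hz' => kHG z hz hz'
  · exact absurd rfl hne

/-- the vertices are distinct and in the unit square -/
theorem gate_inj (h : GateN x0 f y2 y px yu yc xw) {c c' : ℕ} (hc : c < 6) (hc' : c' < 6)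
    (e : gateP x0 f y2 y px yu yc xw c = gateP x0 f y2 y px yu yc xw c') : c = c' := by
  obtain ⟨h0, h1, h2, h3, h4, h5, h6, h7, h8, h9, h10, h11⟩ := h
  have e2 := congrArg Prod.snd e
  clear e
  interval_cases c <;> interval_cases c' <;>
    first | rfl | (exfalso; simp only [gateP] at e2; norm_num at e2 <;> linarith)

theorem gate_mem (h : GateN x0 f y2 y px yu yc xw) (c : ℕ) :
    x0 ≤ (gateP x0 f y2 y px yu yc xw c).1 ∧ (gateP x0 f y2 y px yu yc xw c).1 ≤ 1 ∧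
      0 ≤ (gateP x0 f y2 y px yu yc xw c).2 ∧ (gateP x0 f y2 y px yu yc xw c).2 ≤ 1 := by
  obtain ⟨h0, h1, h2, h3, h4, h5, h6, h7, h8, h9, h10, h11⟩ := h
  unfold gateP
  split_ifs <;> refine ⟨?_, ?_, ?_, ?_⟩ <;> simp only <;> linarith

end Pool.Agent.H54R
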