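import Pool.Agent.Lib.H54R.RDefs
import Pool.Agent.Lib.H54R.R4
import Pool.Agent.Lib.H54R.C1
import Pool.Agent.Lib.H54R.C2

/-!
# R5: ranges of the coordinates
-/

set_option autoImplicit false

namespace Pool.Agent.H54R

open RS

variable {S : RS} {d : Dat}

theorem r5_last (p : ℕ → Bool) (n σ : ℕ) : ((List.range n).filter p).getLast? = some σ ↔
    (σ < n ∧ p σ = true) ∧ ∀ τ, σ < τ → τ < n → ¬ p τ = true := by
  induction n with
  | zero => simp
  | succ n ih =>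
    rw [List.range_succ, List.filter_append]
    by_cases hp : p n = true
    · have e1 : [n].filter p = [n] := by simp [hp]
      rw [e1, List.getLast?_append]
      simp only [List.getLast?_singleton, Option.some_or, Option.some.injEq]
      constructor
      · rintro rfl
        exact ⟨⟨Nat.lt_succ_self _, hp⟩, fun τ h1 h2 => by omega⟩
      · rintro ⟨⟨h1, h2⟩, h3⟩
        by_contra hne
        exact h3 n (by omega) (Nat.lt_succ_self _) hp
    · have e1 : [n].filter p = [] := by simp [hp]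
      rw [e1, List.append_nil, ih]
      constructor
      · rintro ⟨⟨h1, h2⟩, h3⟩
        refine ⟨⟨by omega, h2⟩, fun τ h4 h5 => ?_⟩
        rcases Nat.lt_or_ge τ n with h6 | h6
        · exact h3 τ h4 h6
        · have h7 : τ = n := by omega
          rw [h7]
          exact hp
      · rintro ⟨⟨h1, h2⟩, h3⟩
        have h4 : σ ≠ n := fun e => hp (e ▸ h2)
        exact ⟨⟨by omega, h2⟩, fun τ h5 h6 => h3 τ h5 (by omega)⟩

theorem prv_some {ρ σ : ℕ} : S.prv ρ = some σ ↔ (σ < ρ ∧ S.kd σ = S.kd ρ ∧ S.lane σ = S.lane ρ) ∧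
    ∀ τ, σ < τ → τ < ρ → ¬ (S.kd τ = S.kd ρ ∧ S.lane τ = S.lane ρ) := by
  unfold prv
  rw [r5_last]
  simp only [decide_eq_true_eq]

theorem prv_none {ρ : ℕ} : S.prv ρ = none ↔ S.First ρ := by
  unfold prv First
  rw [List.getLast?_eq_none_iff, List.filter_eq_nil_iff]
  simp only [List.mem_range, decide_eq_true_eq]

/-- the previous read is `σ` iff `ρ` is the next read of `σ` -/
theorem prv_nxt {ρ σ : ℕ} (hρ : ρ < S.R) : S.prv ρ = some σ ↔ ρ ∈ S.nxt σ := by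
  rw [prv_some, mem_nxt]
  constructor
  · rintro ⟨⟨h1, h2, h3⟩, h4⟩
    refine ⟨⟨hρ, h2.symm, h3.symm, h1⟩, fun τ h5 h6 h7 => h4 τ h5 h6 ?_⟩
    rw [← h2, ← h3]
    exact h7
  · rintro ⟨⟨-, h2, h3, h1⟩, h4⟩
    refine ⟨⟨h1, h2.symm, h3.symm⟩, fun τ h5 h6 h7 => h4 τ h5 h6 ?_⟩
    rw [← h2, ← h3]
    exact h7

theorem xv01 (hd : DatOK S d) (ρ : ℕ) : 0 < d.xv S ρ ∧ d.xv S ρ < 1 := by
  unfold Dat.xv
  split_ifs
  · exact hd.w01 _
  · exact hd.x01 _

/-- reads of the same lane have the same variable -/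
theorem xv_eq (h : S.WF) {ρ σ : ℕ} (hρ : ρ < S.R) (hσ : σ < S.R) (hk : S.kd ρ ≠ 0)
    (e : S.lane σ = S.lane ρ) : d.xv S σ = d.xv S ρ := by
  have h2 := c2_cases (S := S) ρ
  have h3 := c2_cases (S := S) σ
  rcases h2 with h2 | h2 | h2
  · exact absurd h2 hk
  · obtain ⟨a1, a2, a3⟩ := op_div h hρ h2
    rcases h3 with h3 | h3 | h3
    · have := (lane_plain h hσ h3).2
      omega
    · obtain ⟨b1, b2, b3⟩ := op_div h hσ h3
      unfold Dat.xv
      rw [a1, b1, e]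
    · obtain ⟨b1, b2, b3⟩ := op_mul h hσ h3
      omega
  · obtain ⟨a1, a2, a3⟩ := op_mul h hρ h2
    rcases h3 with h3 | h3 | h3
    · have := (lane_plain h hσ h3).2
      omega
    · obtain ⟨b1, b2, b3⟩ := op_div h hσ h3
      omega
    · obtain ⟨b1, b2, b3⟩ := op_mul h hσ h3
      unfold Dat.xv
      rw [a1, b1, e]

theorem r5_cb_some {ρ σ : ℕ} (hp : S.prv ρ = some σ) : d.cb S ρ = d.κ σ := by
  unfold Dat.cb
  rw [hp]

theorem r5_cb_none {ρ : ℕ} (hp : S.prv ρ = none) :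
    d.cb S ρ = if S.kd ρ = 3 then 0 else 1 := by
  unfold Dat.cb
  rw [hp]

theorem r5_bord (h : S.WF) (hd : DatOK S d) (ρ : ℕ) (hρ : ρ < S.R) :
    (0 ≤ d.cb S ρ ∧ d.cb S ρ ≤ 1) ∧
      (0 ≤ d.bl S ρ ∧ d.br S ρ ≤ 1 ∧ 0 ≤ d.ul S ρ ∧ d.ur S ρ ≤ 1) := by
  induction ρ using Nat.strong_induction_on with
  | _ ρ ih =>
    have hc : 0 ≤ d.cb S ρ ∧ d.cb S ρ ≤ 1 := by
      rcases hp : S.prv ρ with _ | σ
      · rw [r5_cb_none hp]
        split_ifs
        · exact ⟨le_rfl, zero_le_one⟩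
        · exact ⟨zero_le_one, le_rfl⟩
      · rw [r5_cb_some hp]
        have h1 := (prv_some.1 hp).1.1
        obtain ⟨-, h2, h3, -, -⟩ := ih σ h1 (h1.trans hρ)
        obtain ⟨h4, h5⟩ := hd.k1 σ (h1.trans hρ)
        exact ⟨by linarith, by linarith⟩
    have hx := xv01 hd ρ
    refine ⟨hc, ?_, ?_, ?_, ?_⟩
    · unfold Dat.bl
      split_ifs
      · exact hx.1.le
      · exact hc.1
      · exact le_rfl
    · unfold Dat.br
      split_ifs
      · exact hx.2.le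
      · exact hc.2
      · exact le_rfl
    · unfold Dat.ul
      split_ifs
      · exact hc.1
      · exact hx.1.le
      · exact le_rfl
    · unfold Dat.ur
      split_ifs
      · exact hx.2.le
      · exact hc.2
      · exact le_rfl

/-- borders between `0` and `1` (strong induction for `cb`) -/
theorem bord01 (h : S.WF) (hd : DatOK S d) {ρ : ℕ} (hρ : ρ < S.R) :
    0 ≤ d.bl S ρ ∧ d.br S ρ ≤ 1 ∧ 0 ≤ d.ul S ρ ∧ d.ur S ρ ≤ 1 := (r5_bord h hd ρ hρ).2

/-- kind 3: the border `cb` is `0` or a column of a previous read, smaller than `X`; kind 4 -/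
theorem cb3 (h : S.WF) (hd : DatOK S d) {ρ : ℕ} (hρ : ρ < S.R) (hk : S.kd ρ = 3) :
    0 ≤ d.cb S ρ ∧ d.cb S ρ < d.κ ρ ∧ d.κ ρ < d.xv S ρ := by
  have h1 := hd.k1 ρ hρ
  have e1 : d.bl S ρ = d.cb S ρ := by
    unfold Dat.bl
    rw [if_neg (by omega), if_pos hk]
  have e2 : d.br S ρ = d.xv S ρ := by
    unfold Dat.br
    rw [if_pos hk]
  rw [e1, e2] at h1
  exact ⟨(r5_bord h hd ρ hρ).1.1, h1.1, h1.2⟩

theorem cb4 (h : S.WF) (hd : DatOK S d) {ρ : ℕ} (hρ : ρ < S.R) (hk : S.kd ρ = 4) :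
    d.cb S ρ ≤ 1 ∧ d.κ ρ < d.cb S ρ ∧ d.xv S ρ < d.κ ρ := by
  have h1 := hd.k2 ρ hρ
  have e1 : d.ul S ρ = d.xv S ρ := by
    unfold Dat.ul
    rw [if_neg (by omega), if_pos hk]
  have e2 : d.ur S ρ = d.cb S ρ := by
    unfold Dat.ur
    rw [if_neg (by omega), if_pos hk]
  rw [e1, e2] at h1
  exact ⟨(r5_bord h hd ρ hρ).1.2, h1.2, h1.1⟩

/-- the columns increase along the reads of kind 3 of a lane, and decrease for kind 4 -/
theorem kappa3 (h : S.WF) (hd : DatOK S d) {ρ σ : ℕ} (hρ : ρ < S.R) (hk : S.kd ρ = 3)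
    (hs : S.kd σ = 3) (hl : S.lane σ = S.lane ρ) (hlt : σ < ρ) : d.κ σ ≤ d.cb S ρ := by
  induction ρ using Nat.strong_induction_on with
  | _ ρ ih =>
    rcases hp : S.prv ρ with _ | τ
    · exact absurd ⟨hs.trans hk.symm, hl⟩ (prv_none.1 hp σ hlt)
    · rw [r5_cb_some hp]
      obtain ⟨⟨h1, h2, h3⟩, h4⟩ := prv_some.1 hp
      rcases lt_trichotomy σ τ with h5 | h5 | h5
      · have h6 := ih τ h1 (h1.trans hρ) (h2.trans hk) (hl.trans h3.symm) h5
        exact h6.trans (cb3 h hd (h1.trans hρ) (h2.trans hk)).2.1.le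
      · rw [h5]
      · exact absurd ⟨hs.trans hk.symm, hl⟩ (h4 σ h5 hlt)

theorem kappa4 (h : S.WF) (hd : DatOK S d) {ρ σ : ℕ} (hρ : ρ < S.R) (hk : S.kd ρ = 4)
    (hs : S.kd σ = 4) (hl : S.lane σ = S.lane ρ) (hlt : σ < ρ) : d.cb S ρ ≤ d.κ σ := by
  induction ρ using Nat.strong_induction_on with
  | _ ρ ih =>
    rcases hp : S.prv ρ with _ | τ
    · exact absurd ⟨hs.trans hk.symm, hl⟩ (prv_none.1 hp σ hlt)
    · rw [r5_cb_some hp]
      obtain ⟨⟨h1, h2, h3⟩, h4⟩ := prv_some.1 hp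
      rcases lt_trichotomy σ τ with h5 | h5 | h5
      · have h6 := ih τ h1 (h1.trans hρ) (h2.trans hk) (hl.trans h3.symm) h5
        exact (cb4 h hd (h1.trans hρ) (h2.trans hk)).2.1.le.trans h6
      · rw [h5]
      · exact absurd ⟨hs.trans hk.symm, hl⟩ (h4 σ h5 hlt)

/-- heights in the blocks of the reads -/
theorem height_low (h : S.WF) (hd : DatOK S d) {ρ : ℕ} (hρ : ρ < S.R) :
    0 ≤ d.hb S ρ ∧ d.hb S ρ < d.hy S ρ ∧ d.hy S ρ < 1 ∧
      d.hy S ρ = d.hb S ρ + d.l ρ * (1 - d.hb S ρ) ∧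
      (d.κ ρ - d.bl S ρ) * (1 - d.hb S ρ) < (d.hy S ρ - d.hb S ρ) * (d.br S ρ - d.bl S ρ) := by
  have hl := hd.l01 ρ hρ
  have hk := hd.k3 ρ hρ
  have key : 0 ≤ d.hb S ρ ∧ d.hb S ρ < 1 ∧ d.hy S ρ = d.hb S ρ + d.l ρ * (1 - d.hb S ρ) := by
    unfold Dat.hb Dat.hy
    by_cases hh : S.hatL ρ = true
    · rw [if_pos hh, if_pos hh]
      have h1 := hd.lo _ (lkL_lt h hρ)
      have e1 : ρ = S.loA (lkL ρ) := by
        unfold hatL at hh
        exact of_decide_eq_true hh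
      have h2 := h1.hy
      rw [← e1] at h2
      have h3 := h1.g1
      exact ⟨by linarith [h3.h5, h3.h6], by linarith [h3.h7, h3.h8, h3.h9], h2⟩
    · rw [if_neg hh, if_neg hh]
      exact ⟨le_rfl, zero_lt_one, by ring⟩
  obtain ⟨h1, h2, h3⟩ := key
  have h4 : 0 < 1 - d.hb S ρ := by linarith
  refine ⟨h1, ?_, ?_, h3, ?_⟩
  · rw [h3]
    have := mul_pos hl.1 h4
    linarith
  · rw [h3]
    nlinarith [hl.2]
  · rw [h3]
    have := mul_lt_mul_of_pos_right hk h4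
    nlinarith

theorem height_up (h : S.WF) (hd : DatOK S d) {ρ : ℕ} (hρ : ρ < S.R) :
    0 < d.hz S ρ ∧ d.hz S ρ < d.ht S ρ ∧ d.ht S ρ ≤ 1 ∧ d.hz S ρ = d.u ρ * d.ht S ρ ∧
      d.hz S ρ * (d.ur S ρ - d.ul S ρ) < (d.κ ρ - d.ul S ρ) * d.ht S ρ := by
  have hl := hd.u01 ρ hρ
  have hk := hd.k4 ρ hρ
  have key : 0 < d.ht S ρ ∧ d.ht S ρ ≤ 1 ∧ d.hz S ρ = d.u ρ * d.ht S ρ := by
    unfold Dat.ht Dat.hz
    by_cases hh : S.hatU ρ = true
    · rw [if_pos hh, if_pos hh]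
      have h1 := hd.up _ (lkU_lt h hρ)
      have e1 : ρ = S.upA (lkU ρ) := by
        unfold hatU at hh
        exact of_decide_eq_true hh
      have h2 := h1.hy
      rw [← e1] at h2
      have h3 := h1.g1
      refine ⟨by linarith [h3.h7, h3.h8, h3.h9], by linarith [h3.h5, h3.h6], ?_⟩
      rw [h2]
      ring
    · rw [if_neg hh, if_neg hh]
      exact ⟨zero_lt_one, le_rfl, by ring⟩
  obtain ⟨h1, h2, h3⟩ := key
  refine ⟨?_, ?_, h2, h3, ?_⟩
  · rw [h3]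
    exact mul_pos hl.1 h1
  · rw [h3]
    nlinarith [hl.2]
  · rw [h3]
    have := mul_lt_mul_of_pos_right hk h1
    nlinarith

theorem r5_gt {a b : ℝ} {g : Gt} (hg : GtOK a b g) : 0 < g.y2 ∧ g.y2 < 1 ∧ 0 < g.c ∧ g.c < 1 := by
  have h1 := hg.g1
  have h2 := hg.hc
  exact ⟨by linarith [h1.h5, h1.h6], by linarith [h1.h7, h1.h8, h1.h9], h2,
    by linarith [h1.h1, h1.h2, h1.h3, h1.h4]⟩

theorem cc01 (h : S.WF) (hd : DatOK S d) (i : ℕ) : 0 < d.cc S i ∧ d.cc S i < 1 := by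
  unfold Dat.cc
  split_ifs with h1 h2
  · have h3 := (role_one h (i := i) (ρ := (S.role i).2) (Prod.ext h1.1 rfl)).1
    have h4 := r5_gt (hd.lo _ (lkL_lt h h3))
    exact ⟨h4.1, h4.2.1⟩
  · have h3 := (role_two h (i := i) (ρ := (S.role i).2) (Prod.ext h2.1 rfl)).1
    have h4 := r5_gt (hd.up _ (lkU_lt h h3))
    exact ⟨by linarith [h4.2.1], by linarith [h4.1]⟩
  · norm_num

theorem dd01 (h : S.WF) (hd : DatOK S d) {j : ℕ} (hj : j < S.NN) :
    0 < d.dd S j ∧ d.dd S j < 1 := by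
  unfold Dat.dd
  split_ifs with h1 h2
  · have h4 := r5_gt (hd.lo _ h1)
    exact ⟨h4.2.2.1, h4.2.2.2⟩
  · have h3 : j - S.rlane 0 < 2 * S.K := by
      unfold rlane at h2 ⊢
      unfold NN at hj
      omega
    have h4 := r5_gt (hd.up _ h3)
    exact ⟨by linarith [h4.2.2.2], by linarith [h4.2.2.1]⟩
  · norm_num

theorem loc01 (h : S.WF) (hd : DatOK S d) {b : ℕ × ℕ} {c : ℕ} (hb : S.binB b c) :
    0 ≤ (d.loc S b c).1 ∧ (d.loc S b c).1 ≤ 1 ∧ 0 ≤ (d.loc S b c).2 ∧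
      (d.loc S b c).2 ≤ 1 := by
  obtain ⟨g, ρ⟩ := b
  rcases hb with ⟨h1, h2, h3⟩ | ⟨h1, h2, h3, h4⟩
  · change g ≤ 1 at h1
    change ρ < S.R at h2
    obtain ⟨b1, b2, b3, b4⟩ := bord01 h hd h2
    obtain ⟨a1, a2⟩ := hd.k1 ρ h2
    obtain ⟨a3, a4⟩ := hd.k2 ρ h2
    obtain ⟨c1, c2, c3, -, -⟩ := height_low h hd h2
    obtain ⟨c4, c5, c6, -, -⟩ := height_up h hd h2
    have hg : g = 0 ∨ g = 1 := by omega
    have hc : c = 0 ∨ c = 1 ∨ c = 2 := by omega
    unfold Dat.loc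
    rcases hg with rfl | rfl
    · rcases hc with rfl | rfl | rfl
      · simp only [if_true]
        exact ⟨b1, by linarith, c1, by linarith⟩
      · simp only [if_true, one_ne_zero, if_false]
        exact ⟨by linarith, by linarith, by linarith, by linarith⟩
      · simp only [if_true, OfNat.ofNat_ne_zero, if_false, OfNat.ofNat_ne_one]
        exact ⟨by linarith, by linarith, by linarith, by linarith⟩
    · rcases hc with rfl | rfl | rfl
      · simp only [if_true, one_ne_zero, if_false]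
        exact ⟨by linarith, by linarith, by linarith, by linarith⟩
      · simp only [if_true, one_ne_zero, if_false]
        exact ⟨by linarith, by linarith, by linarith, by linarith⟩
      · simp only [if_true, one_ne_zero, OfNat.ofNat_ne_zero, if_false, OfNat.ofNat_ne_one]
        exact ⟨by linarith, by linarith, by linarith, by linarith⟩
  · change 2 ≤ g at h1
    change g ≤ 5 at h2
    change ρ < 2 * S.K at h3
    have hL := hd.lo ρ h3
    have hU := hd.up ρ h3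
    have hg : g = 2 ∨ g = 3 ∨ g = 4 ∨ g = 5 := by omega
    have eb : (d.gL ρ).b = d.l (S.loB ρ) := hL.hb
    have eb' : (d.gU ρ).b = 1 - d.u (S.upB ρ) := hU.hb
    unfold Dat.loc
    rcases hg with rfl | rfl | rfl | rfl
    · have h5 := gate_mem hL.g1 c
      have h6 := hL.hc
      exact ⟨by simpa using h6.le.trans h5.1, by simpa using h5.2.1, by simpa using h5.2.2.1,
        by simpa using h5.2.2.2⟩
    · have h5 := gate_mem hL.g2 c
      rw [← eb] at h5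
      simp only [OfNat.ofNat_ne_zero, if_false, OfNat.ofNat_ne_one, if_true, vT,
        show (3 : ℕ) ≠ 2 by norm_num]
      exact ⟨h5.2.2.1, h5.2.2.2, by linarith [h5.2.1], by linarith [h5.1]⟩
    · have h5 := gate_mem hU.g1 c
      have h6 := hU.hc
      simp only [OfNat.ofNat_ne_zero, if_false, OfNat.ofNat_ne_one, if_true, rt2,
        show (4 : ℕ) ≠ 2 by norm_num, show (4 : ℕ) ≠ 3 by norm_num]
      exact ⟨by linarith [h5.2.1], by linarith [h5.1], by linarith [h5.2.2.2],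
        by linarith [h5.2.2.1]⟩
    · have h5 := gate_mem hU.g2 c
      rw [← eb'] at h5
      simp only [OfNat.ofNat_ne_zero, if_false, OfNat.ofNat_ne_one, rt2, vT,
        show (5 : ℕ) ≠ 2 by norm_num, show (5 : ℕ) ≠ 3 by norm_num, show (5 : ℕ) ≠ 4 by norm_num]
      exact ⟨by linarith [h5.2.2.2], by linarith [h5.2.2.1], by linarith [h5.1],
        by linarith [h5.2.1]⟩

end Pool.Agent.H54R
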