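import Pool.Agent.Lib.H54R.RDefs
import Pool.Agent.Lib.H54R.R5

/-!
# R5B: comparison of positions
-/

set_option autoImplicit false

namespace Pool.Agent.H54R

open RS

variable {S : RS} {d : Dat}

/-- a boundary coordinate -/
noncomputable def r5b_g (c : ℕ → ℝ) (k : ℕ) : ℝ :=
  2 * (k / 4 : ℕ) + (if k % 4 = 0 then 0 else if k % 4 = 1 then 1 / 2
    else if k % 4 = 2 then 1 / 2 + c (k / 4) else 3 / 2)

theorem r5b_rep (c : ℕ → ℝ) (k : ℕ) (hc : k % 4 = 2 → 0 < c (k / 4) ∧ c (k / 4) < 1) :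
    ∃ t : ℝ, r5b_g c k = 2 * (k / 4 : ℕ) + t ∧ 0 ≤ t ∧ t ≤ 3 / 2 ∧
      ((k % 4 = 0 ∧ t = 0) ∨ (k % 4 = 1 ∧ t = 1 / 2) ∨
        (k % 4 = 2 ∧ t = 1 / 2 + c (k / 4) ∧ 1 / 2 < t ∧ t < 3 / 2) ∨ (k % 4 = 3 ∧ t = 3 / 2)) := by
  refine ⟨_, rfl, ?_⟩
  have h4 : k % 4 = 0 ∨ k % 4 = 1 ∨ k % 4 = 2 ∨ k % 4 = 3 := by omega
  rcases h4 with h | h | h | h
  · rw [if_pos h]
    exact ⟨le_rfl, by norm_num, Or.inl ⟨h, rfl⟩⟩
  · rw [if_neg (by omega), if_pos h]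
    exact ⟨by norm_num, by norm_num, Or.inr (Or.inl ⟨h, rfl⟩)⟩
  · rw [if_neg (by omega), if_neg (by omega), if_pos h]
    obtain ⟨h1, h2⟩ := hc h
    exact ⟨by linarith, by linarith, Or.inr (Or.inr (Or.inl ⟨h, rfl, by linarith, by linarith⟩))⟩
  · rw [if_neg (by omega), if_neg (by omega), if_neg (by omega)]
    exact ⟨by norm_num, le_rfl, Or.inr (Or.inr (Or.inr ⟨h, rfl⟩))⟩

theorem r5b_lt (c : ℕ → ℝ) {k k' : ℕ} (hk : k < k')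
    (hc : k % 4 = 2 → 0 < c (k / 4) ∧ c (k / 4) < 1)
    (hc' : k' % 4 = 2 → 0 < c (k' / 4) ∧ c (k' / 4) < 1) : r5b_g c k < r5b_g c k' := by
  obtain ⟨t, e, h0, h1, ht⟩ := r5b_rep c k hc
  obtain ⟨t', e', h0', h1', ht'⟩ := r5b_rep c k' hc'
  rw [e, e']
  have hq : k / 4 < k' / 4 ∨ (k / 4 = k' / 4 ∧ k % 4 < k' % 4) := by omega
  rcases hq with hq | ⟨hq, hr⟩
  · have h2 : ((k / 4 : ℕ) : ℝ) + 1 ≤ ((k' / 4 : ℕ) : ℝ) := by exact_mod_cast hq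
    linarith
  · rw [hq]
    have h3 : t < t' := by
      rcases ht with ⟨a, b⟩ | ⟨a, b⟩ | ⟨a, -, b1, b2⟩ | ⟨a, b⟩ <;>
        rcases ht' with ⟨a', b'⟩ | ⟨a', b'⟩ | ⟨a', -, b1', b2'⟩ | ⟨a', b'⟩ <;>
        first | omega | linarith
    linarith

theorem r5b_mem (c : ℕ → ℝ) {k n : ℕ} (hk : k ≤ 4 * n)
    (hc : k % 4 = 2 → 0 < c (k / 4) ∧ c (k / 4) < 1) :
    0 ≤ r5b_g c k ∧ r5b_g c k ≤ 2 * n := by
  obtain ⟨t, e, h0, h1, ht⟩ := r5b_rep c k hc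
  rw [e]
  refine ⟨by positivity, ?_⟩
  have hq : k / 4 < n ∨ (k / 4 = n ∧ k % 4 = 0) := by omega
  rcases hq with hq | ⟨hq, hr⟩
  · have h2 : ((k / 4 : ℕ) : ℝ) + 1 ≤ (n : ℝ) := by exact_mod_cast hq
    linarith
  · have h3 : t = 0 := by
      rcases ht with ⟨a, b⟩ | ⟨a, b⟩ | ⟨a, -, b1, b2⟩ | ⟨a, b⟩
      · exact b
      all_goals omega
    rw [hq, h3, add_zero]

theorem r5b_eq {r r' : ℕ} {y y' : ℝ} (h0 : 0 ≤ y) (h1 : y ≤ 1) (h0' : 0 ≤ y') (h1' : y' ≤ 1)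
    (e : 2 * (r : ℝ) + 1 / 2 + y = 2 * (r' : ℝ) + 1 / 2 + y') : r = r' ∧ y = y' := by
  have hr : r = r' := by
    rcases lt_trichotomy r r' with h | h | h
    · have h2 : (r : ℝ) + 1 ≤ (r' : ℝ) := by exact_mod_cast h
      linarith
    · exact h
    · have h2 : (r' : ℝ) + 1 ≤ (r : ℝ) := by exact_mod_cast h
      linarith
  subst hr
  exact ⟨rfl, by linarith⟩

theorem r5b_yb (c : ℕ → ℝ) {k r : ℕ} {y : ℝ} (hc : k % 4 = 2 → 0 < c (k / 4) ∧ c (k / 4) < 1)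
    (h0 : 0 ≤ y) (h1 : y ≤ 1) (e : 2 * (r : ℝ) + 1 / 2 + y = r5b_g c k) :
    k / 4 = r ∧ ((k % 4 = 1 ∧ y = 0) ∨ (k % 4 = 2 ∧ y = c (k / 4)) ∨ (k % 4 = 3 ∧ y = 1)) := by
  obtain ⟨t, e', h0', h1', ht⟩ := r5b_rep c k hc
  rw [e'] at e
  have hr : k / 4 = r := by
    rcases lt_trichotomy (k / 4) r with h | h | h
    · have h2 : ((k / 4 : ℕ) : ℝ) + 1 ≤ (r : ℝ) := by exact_mod_cast h
      linarith
    · exact h
    · have h2 : (r : ℝ) + 1 ≤ ((k / 4 : ℕ) : ℝ) := by exact_mod_cast h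
      linarith
  refine ⟨hr, ?_⟩
  rw [hr] at e ht ⊢
  rcases ht with ⟨a, b⟩ | ⟨a, b⟩ | ⟨a, b, b1, b2⟩ | ⟨a, b⟩
  · exfalso
    linarith
  · exact Or.inl ⟨a, by linarith⟩
  · exact Or.inr (Or.inl ⟨a, by linarith⟩)
  · exact Or.inr (Or.inr ⟨a, by linarith⟩)

theorem yb_lt (h : S.WF) (hd : DatOK S d) {k k' : ℕ} (hk : k < k') : d.yb S k < d.yb S k' :=
  r5b_lt (d.cc S) hk (fun _ => cc01 h hd _) (fun _ => cc01 h hd _)

theorem xb_lt (h : S.WF) (hd : DatOK S d) {k k' : ℕ} (hk : k < k') (hk' : k' ≤ 4 * S.NN) :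
    d.xb S k < d.xb S k' :=
  r5b_lt (d.dd S) hk (fun _ => dd01 h hd (by omega)) (fun _ => dd01 h hd (by omega))

theorem yb_mem (h : S.WF) (hd : DatOK S d) {k : ℕ} (hk : k ≤ 4 * S.MM) :
    0 ≤ d.yb S k ∧ d.yb S k ≤ 2 * S.MM :=
  r5b_mem (d.cc S) hk (fun _ => cc01 h hd _)

theorem xb_mem (h : S.WF) (hd : DatOK S d) {k : ℕ} (hk : k ≤ 4 * S.NN) :
    0 ≤ d.xb S k ∧ d.xb S k ≤ 2 * S.NN :=
  r5b_mem (d.dd S) hk (fun _ => dd01 h hd (by omega))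

/-- block vertices are strictly inside their cells -/
theorem blk_mem (h : S.WF) (hd : DatOK S d) {b : ℕ × ℕ} {c : ℕ} (hb : S.binB b c) :
    2 * (S.bcol b : ℝ) + 1 / 2 ≤ (d.pos S (.blk b c)).1 ∧
      (d.pos S (.blk b c)).1 ≤ 2 * (S.bcol b : ℝ) + 3 / 2 ∧
      2 * (S.brow b : ℝ) + 1 / 2 ≤ (d.pos S (.blk b c)).2 ∧
      (d.pos S (.blk b c)).2 ≤ 2 * (S.brow b : ℝ) + 3 / 2 := by
  obtain ⟨h1, h2, h3, h4⟩ := loc01 h hd hb
  simp only [Dat.pos]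
  exact ⟨by linarith, by linarith, by linarith, by linarith⟩

/-- equal heights: the same row lane and the same local height -/
theorem blk_row_eq (h : S.WF) (hd : DatOK S d) {b b' : ℕ × ℕ} {c c' : ℕ} (hb : S.binB b c)
    (hb' : S.binB b' c') (e : (d.pos S (.blk b c)).2 = (d.pos S (.blk b' c')).2) :
    S.brow b = S.brow b' ∧ (d.loc S b c).2 = (d.loc S b' c').2 := by
  obtain ⟨-, -, h3, h4⟩ := loc01 h hd hb
  obtain ⟨-, -, h3', h4'⟩ := loc01 h hd hb'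
  exact r5b_eq h3 h4 h3' h4' e

theorem blk_col_eq (h : S.WF) (hd : DatOK S d) {b b' : ℕ × ℕ} {c c' : ℕ} (hb : S.binB b c)
    (hb' : S.binB b' c') (e : (d.pos S (.blk b c)).1 = (d.pos S (.blk b' c')).1) :
    S.bcol b = S.bcol b' ∧ (d.loc S b c).1 = (d.loc S b' c').1 := by
  obtain ⟨h3, h4, -, -⟩ := loc01 h hd hb
  obtain ⟨h3', h4', -, -⟩ := loc01 h hd hb'
  exact r5b_eq h3 h4 h3' h4' e

/-- a block vertex at the height of a boundary vertex -/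
theorem blk_yb_eq (h : S.WF) (hd : DatOK S d) {b : ℕ × ℕ} {c k : ℕ} (hb : S.binB b c)
    (e : (d.pos S (.blk b c)).2 = d.yb S k) : k / 4 = S.brow b ∧
      ((k % 4 = 1 ∧ (d.loc S b c).2 = 0) ∨ (k % 4 = 2 ∧ (d.loc S b c).2 = d.cc S (k / 4)) ∨
        (k % 4 = 3 ∧ (d.loc S b c).2 = 1)) := by
  obtain ⟨-, -, h3, h4⟩ := loc01 h hd hb
  exact r5b_yb (d.cc S) (fun _ => cc01 h hd _) h3 h4 e

theorem blk_xb_eq (h : S.WF) (hd : DatOK S d) {b : ℕ × ℕ} {c k : ℕ} (hk : k ≤ 4 * S.NN)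
    (hb : S.binB b c) (e : (d.pos S (.blk b c)).1 = d.xb S k) : k / 4 = S.bcol b ∧
      ((k % 4 = 1 ∧ (d.loc S b c).1 = 0) ∨ (k % 4 = 2 ∧ (d.loc S b c).1 = d.dd S (k / 4)) ∨
        (k % 4 = 3 ∧ (d.loc S b c).1 = 1)) := by
  obtain ⟨h3, h4, -, -⟩ := loc01 h hd hb
  exact r5b_yb (d.dd S) (fun _ => dd01 h hd (by omega)) h3 h4 e

/-- the six kinds of blocks -/
theorem r5b_cases {b : ℕ × ℕ} {c : ℕ} (hb : S.binB b c) :
    (∃ x < S.R, b = (0, x)) ∨ (∃ x < S.R, b = (1, x)) ∨ (∃ x < 2 * S.K, b = (2, x)) ∨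
      (∃ x < 2 * S.K, b = (3, x)) ∨ (∃ x < 2 * S.K, b = (4, x)) ∨ ∃ x < 2 * S.K, b = (5, x) := by
  obtain ⟨g, x⟩ := b
  rcases hb with ⟨h1, h2, -⟩ | ⟨h1, h1', h2, -⟩
  · change g ≤ 1 at h1
    change x < S.R at h2
    have hg : g = 0 ∨ g = 1 := by omega
    rcases hg with rfl | rfl
    · exact Or.inl ⟨x, h2, rfl⟩
    · exact Or.inr (Or.inl ⟨x, h2, rfl⟩)
  · change 2 ≤ g at h1
    change g ≤ 5 at h1'
    change x < 2 * S.K at h2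
    have hg : g = 2 ∨ g = 3 ∨ g = 4 ∨ g = 5 := by omega
    rcases hg with rfl | rfl | rfl | rfl
    · exact Or.inr (Or.inr (Or.inl ⟨x, h2, rfl⟩))
    · exact Or.inr (Or.inr (Or.inr (Or.inl ⟨x, h2, rfl⟩)))
    · exact Or.inr (Or.inr (Or.inr (Or.inr (Or.inl ⟨x, h2, rfl⟩))))
    · exact Or.inr (Or.inr (Or.inr (Or.inr (Or.inr ⟨x, h2, rfl⟩))))

theorem r5b_row0 (x : ℕ) : S.brow (0, x) = S.low x := by simp [brow]
theorem r5b_row1 (x : ℕ) : S.brow (1, x) = S.upr x := by simp [brow]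
theorem r5b_row2 (x : ℕ) : S.brow (2, x) = S.low (S.loA x) := by simp [brow]
theorem r5b_row3 (x : ℕ) : S.brow (3, x) = S.low (S.loB x) := by simp [brow]
theorem r5b_row4 (x : ℕ) : S.brow (4, x) = S.upr (S.upA x) := by simp [brow]
theorem r5b_row5 (x : ℕ) : S.brow (5, x) = S.upr (S.upB x) := by simp [brow]
theorem r5b_col0 (x : ℕ) : S.bcol (0, x) = S.lane x := by simp [bcol]
theorem r5b_col1 (x : ℕ) : S.bcol (1, x) = S.lane x := by simp [bcol]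
theorem r5b_col2 (x : ℕ) : S.bcol (2, x) = x := by simp [bcol]
theorem r5b_col3 (x : ℕ) : S.bcol (3, x) = x := by simp [bcol]
theorem r5b_col4 (x : ℕ) : S.bcol (4, x) = S.rlane x := by simp [bcol]
theorem r5b_col5 (x : ℕ) : S.bcol (5, x) = S.rlane x := by simp [bcol]

/-- blocks in the row lane of a read -/
theorem brow_low (h : S.WF) {b : ℕ × ℕ} {c ρ : ℕ} (hb : S.binB b c) (hρ : ρ < S.R)
    (e : S.brow b = S.low ρ) :
    b = (0, ρ) ∨ (b = (2, lkL ρ) ∧ S.hatL ρ = true) ∨ (b = (3, lkL ρ) ∧ S.hatL ρ = false) := by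
  rcases r5b_cases hb with ⟨x, hx, rfl⟩ | ⟨x, hx, rfl⟩ | ⟨x, hx, rfl⟩ | ⟨x, hx, rfl⟩ | ⟨x, hx, rfl⟩ |
    ⟨x, hx, rfl⟩
  · rw [r5b_row0] at e
    rw [low_inj h hx hρ e]
    exact Or.inl rfl
  · rw [r5b_row1] at e
    exact absurd e.symm (low_ne_upr h hρ hx)
  · rw [r5b_row2] at e
    have e1 := low_inj h (loA_lt h hx) hρ e
    refine Or.inr (Or.inl ?_)
    rw [← e1, lkL_loA]
    exact ⟨rfl, hatL_loA h hx⟩
  · rw [r5b_row3] at e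
    have e1 := low_inj h (loB_lt h hx) hρ e
    refine Or.inr (Or.inr ?_)
    rw [← e1, lkL_loB]
    exact ⟨rfl, hatL_loB h hx⟩
  · rw [r5b_row4] at e
    exact absurd e.symm (low_ne_upr h hρ (upA_lt h hx))
  · rw [r5b_row5] at e
    exact absurd e.symm (low_ne_upr h hρ (upB_lt h hx))

theorem brow_upr (h : S.WF) {b : ℕ × ℕ} {c ρ : ℕ} (hb : S.binB b c) (hρ : ρ < S.R)
    (e : S.brow b = S.upr ρ) :
    b = (1, ρ) ∨ (b = (4, lkU ρ) ∧ S.hatU ρ = true) ∨ (b = (5, lkU ρ) ∧ S.hatU ρ = false) := by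
  rcases r5b_cases hb with ⟨x, hx, rfl⟩ | ⟨x, hx, rfl⟩ | ⟨x, hx, rfl⟩ | ⟨x, hx, rfl⟩ | ⟨x, hx, rfl⟩ |
    ⟨x, hx, rfl⟩
  · rw [r5b_row0] at e
    exact absurd e (low_ne_upr h hx hρ)
  · rw [r5b_row1] at e
    rw [upr_inj h hx hρ e]
    exact Or.inl rfl
  · rw [r5b_row2] at e
    exact absurd e (low_ne_upr h (loA_lt h hx) hρ)
  · rw [r5b_row3] at e
    exact absurd e (low_ne_upr h (loB_lt h hx) hρ)
  · rw [r5b_row4] at e
    have e1 := upr_inj h (upA_lt h hx) hρ e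
    refine Or.inr (Or.inl ?_)
    rw [← e1, lkU_upA]
    exact ⟨rfl, hatU_upA h hx⟩
  · rw [r5b_row5] at e
    have e1 := upr_inj h (upB_lt h hx) hρ e
    refine Or.inr (Or.inr ?_)
    rw [← e1, lkU_upB]
    exact ⟨rfl, hatU_upB h hx⟩

/-- blocks in the column lanes -/
theorem bcol_left (h : S.WF) {b : ℕ × ℕ} {c j : ℕ} (hb : S.binB b c) (hj : j < 2 * S.K)
    (e : S.bcol b = j) : b = (2, j) ∨ b = (3, j) := by
  rcases r5b_cases hb with ⟨x, hx, rfl⟩ | ⟨x, hx, rfl⟩ | ⟨x, hx, rfl⟩ | ⟨x, hx, rfl⟩ | ⟨x, hx, rfl⟩ |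
    ⟨x, hx, rfl⟩
  · rw [r5b_col0] at e
    have := lane_ge h hx
    omega
  · rw [r5b_col1] at e
    have := lane_ge h hx
    omega
  · rw [r5b_col2] at e
    rw [e]
    exact Or.inl rfl
  · rw [r5b_col3] at e
    rw [e]
    exact Or.inr rfl
  · rw [r5b_col4] at e
    unfold rlane at e
    omega
  · rw [r5b_col5] at e
    unfold rlane at e
    omega

theorem bcol_right (h : S.WF) {b : ℕ × ℕ} {c l : ℕ} (hb : S.binB b c) (hl : l < 2 * S.K)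
    (e : S.bcol b = S.rlane l) : b = (4, l) ∨ b = (5, l) := by
  rcases r5b_cases hb with ⟨x, hx, rfl⟩ | ⟨x, hx, rfl⟩ | ⟨x, hx, rfl⟩ | ⟨x, hx, rfl⟩ | ⟨x, hx, rfl⟩ |
    ⟨x, hx, rfl⟩
  · rw [r5b_col0] at e
    have := lane_lt h hx
    unfold rlane at e this
    omega
  · rw [r5b_col1] at e
    have := lane_lt h hx
    unfold rlane at e this
    omega
  · rw [r5b_col2] at e
    unfold rlane at e
    omega
  · rw [r5b_col3] at e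
    unfold rlane at e
    omega
  · rw [r5b_col4] at e
    have e1 : x = l := by
      unfold rlane at e
      omega
    rw [e1]
    exact Or.inl rfl
  · rw [r5b_col5] at e
    have e1 : x = l := by
      unfold rlane at e
      omega
    rw [e1]
    exact Or.inr rfl

theorem bcol_mid (h : S.WF) {b : ℕ × ℕ} {c : ℕ} (hb : S.binB b c)
    (h1 : 2 * S.K ≤ S.bcol b) (h2 : S.bcol b < S.rlane 0) :
    ∃ ρ < S.R, (b = (0, ρ) ∨ b = (1, ρ)) ∧ S.lane ρ = S.bcol b := by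
  rcases r5b_cases hb with ⟨x, hx, rfl⟩ | ⟨x, hx, rfl⟩ | ⟨x, hx, rfl⟩ | ⟨x, hx, rfl⟩ | ⟨x, hx, rfl⟩ |
    ⟨x, hx, rfl⟩
  · exact ⟨x, hx, Or.inl rfl, (r5b_col0 x).symm⟩
  · exact ⟨x, hx, Or.inr rfl, (r5b_col1 x).symm⟩
  · rw [r5b_col2] at h1
    omega
  · rw [r5b_col3] at h1
    omega
  · rw [r5b_col4] at h2
    unfold rlane at h2
    omega
  · rw [r5b_col5] at h2
    unfold rlane at h2
    omega

end Pool.Agent.H54R
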