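import Pool.Agent.Lib.H54R.RDefs
import Pool.Agent.Lib.H54R.R4
import Pool.Agent.Lib.H54R.R5
import Pool.Agent.Lib.H54R.R5B
import Pool.Agent.Lib.H54R.C3

/-!
# R6: row lines of the lower lanes
-/

set_option autoImplicit false

namespace Pool.Agent.H54R

open RS

variable {S : RS} {d : Dat}

theorem r6_blk1 (b : ℕ × ℕ) (c : ℕ) : (d.pos S (.blk b c)).1 =
    2 * (S.bcol b : ℝ) + 1 / 2 + (d.loc S b c).1 := rfl

theorem r6_blk2 (b : ℕ × ℕ) (c : ℕ) : (d.pos S (.blk b c)).2 =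
    2 * (S.brow b : ℝ) + 1 / 2 + (d.loc S b c).2 := rfl

/-- comparison of heights -/
theorem r6_int {m n : ℕ} {s t : ℝ} (s0 : 0 ≤ s) (s1 : s ≤ 1) (t0 : 0 ≤ t) (t1 : t ≤ 1)
    (e : 2 * (m : ℝ) + 1 / 2 + s = 2 * (n : ℝ) + 1 / 2 + t) : m = n ∧ s = t := by
  have h1 : m = n := by
    rcases lt_trichotomy m n with h | h | h
    · have : (m : ℝ) + 1 ≤ n := by exact_mod_cast h
      linarith
    · exact h
    · have : (n : ℝ) + 1 ≤ m := by exact_mod_cast h
      linarith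
  refine ⟨h1, ?_⟩
  rw [h1] at e
  linarith

theorem r6_yb (h : S.WF) (hd : DatOK S d) {k i : ℕ} {t : ℝ} (t0 : 0 ≤ t) (t1 : t ≤ 1)
    (e : d.yb S k = 2 * (i : ℝ) + 1 / 2 + t) :
    (k = 4 * i + 1 ∧ t = 0) ∨ (k = 4 * i + 2 ∧ t = d.cc S i) ∨ (k = 4 * i + 3 ∧ t = 1) := by
  unfold Dat.yb at e
  have hc := cc01 h hd (k / 4)
  have hk : k % 4 < 4 := Nat.mod_lt _ (by norm_num)
  split_ifs at e with h0 h1 h2
  · exfalso
    rcases lt_or_ge i (k / 4) with h3 | h3
    · have : (i : ℝ) + 1 ≤ (k / 4 : ℕ) := by exact_mod_cast h3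
      linarith
    · have : ((k / 4 : ℕ) : ℝ) ≤ i := by exact_mod_cast h3
      linarith
  · left
    have h3 := r6_int (m := k / 4) (n := i) (s := 0) (t := t) le_rfl zero_le_one t0 t1
      (by rw [add_zero]; exact e)
    exact ⟨by omega, h3.2.symm⟩
  · right; left
    have h3 := r6_int (m := k / 4) (n := i) (s := d.cc S (k / 4)) (t := t) hc.1.le hc.2.le t0 t1
      (by rw [← e]; ring)
    rw [← h3.1]
    exact ⟨by omega, h3.2.symm⟩
  · right; right
    have h3 := r6_int (m := k / 4) (n := i) (s := 1) (t := t) zero_le_one le_rfl t0 t1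
      (by rw [← e]; ring)
    exact ⟨by omega, h3.2.symm⟩

theorem r6_yb1 (i : ℕ) : d.yb S (4 * i + 1) = 2 * (i : ℝ) + 1 / 2 + 0 := by
  have e1 : (4 * i + 1) / 4 = i := by omega
  have e2 : (4 * i + 1) % 4 = 1 := by omega
  unfold Dat.yb
  rw [e1, e2]
  norm_num

theorem r6_yb2 (i : ℕ) : d.yb S (4 * i + 2) = 2 * (i : ℝ) + 1 / 2 + d.cc S i := by
  have e1 : (4 * i + 2) / 4 = i := by omega
  have e2 : (4 * i + 2) % 4 = 2 := by omega
  unfold Dat.yb
  rw [e1, e2, if_neg (by norm_num), if_neg (by norm_num), if_pos rfl]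
  ring

theorem r6_yb3 (i : ℕ) : d.yb S (4 * i + 3) = 2 * (i : ℝ) + 1 / 2 + 1 := by
  have e1 : (4 * i + 3) / 4 = i := by omega
  have e2 : (4 * i + 3) % 4 = 3 := by omega
  unfold Dat.yb
  rw [e1, e2]
  norm_num
  ring

theorem r6_MM (S : RS) : (S.MM : ℝ) = 4 * (S.R : ℝ) := by
  unfold MM
  push_cast
  ring

/-- criterion for good row lines in a lane -/
theorem r6_good (h : S.WF) (hd : DatOK S d) {i : ℕ} (hi : i < S.MM) {t : ℝ} (t0 : 0 ≤ t)
    (t1 : t ≤ 1) {r : List Vx} (hp : r.Pairwise fun v w => (d.pos S v).1 < (d.pos S w).1)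
    (hy : ∀ v ∈ r, (d.pos S v).2 = 2 * (i : ℝ) + 1 / 2 + t) (hv : ∀ v ∈ r, S.isV v)
    (hL : ∀ k, d.yb S k = 2 * (i : ℝ) + 1 / 2 + t → (∃ a ∈ r, (d.pos S a).1 ≤ -1) → .L k ∈ r)
    (hR : ∀ k, d.yb S k = 2 * (i : ℝ) + 1 / 2 + t →
      (∃ a ∈ r, 2 * (S.NN : ℝ) + 1 ≤ (d.pos S a).1) → .R k ∈ r)
    (hb : ∀ b c, S.binB b c → S.brow b = i → (d.loc S b c).2 = t → .blk b c ∈ r) :
    RowGood S d r := by
  refine ⟨hp, fun v hv' w hw => (hy v hv').trans (hy w hw).symm, hv, ?_⟩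
  rintro v hvV ⟨a, ha, b, hb', h1, h2, h3⟩
  rw [hy a ha] at h3
  have hi' : (i : ℝ) + 1 ≤ (S.MM : ℝ) := by exact_mod_cast hi
  have hi0 : (0 : ℝ) ≤ i := Nat.cast_nonneg i
  have hNN : (0 : ℝ) ≤ (S.NN : ℝ) := Nat.cast_nonneg _
  have hMM : (0 : ℝ) ≤ (S.MM : ℝ) := Nat.cast_nonneg _
  have hbig : S.big = 2 * S.NN + 2 * S.MM + 2 := rfl
  cases v with
  | L k =>
    exact hL k h3 ⟨a, ha, h1⟩
  | R k =>
    exact hR k h3 ⟨b, hb', h2⟩
  | B k =>
    exfalso
    change (-1 : ℝ) = _ at h3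
    linarith
  | T k =>
    exfalso
    change 2 * (S.MM : ℝ) + 1 = _ at h3
    linarith
  | hub n =>
    exfalso
    have hpar : (S.MM : ℝ) + 1 / 7 ≠ 2 * (i : ℝ) + 1 / 2 + t := by
      rw [r6_MM]
      intro e
      rcases lt_or_ge i (2 * S.R) with h4 | h4
      · have : (i : ℝ) + 1 ≤ 2 * (S.R : ℝ) := by exact_mod_cast h4
        linarith
      · have : 2 * (S.R : ℝ) ≤ (i : ℝ) := by exact_mod_cast h4
        linarith
    have hn : n < 5 := hvV
    have hn' : n = 0 ∨ n = 1 ∨ n = 2 ∨ n = 3 ∨ n = 4 := by omega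
    rcases hn' with rfl | rfl | rfl | rfl | rfl
    · exact hpar h3
    · exact hpar h3
    · change 2 * (S.MM : ℝ) + 1 + S.big = _ at h3
      linarith
    · change -20 * S.big = _ at h3
      linarith
    · change 20 * S.big = _ at h3
      linarith
  | blk b c =>
    have hl := loc01 h hd (b := b) (c := c) hvV
    rw [r6_blk2] at h3
    obtain ⟨e1, e2⟩ := r6_int hl.2.2.1 hl.2.2.2 t0 t1 h3
    exact hb b c hvV e1 e2

/-- block vertices are strictly between the boundary vertices -/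
theorem r6_x (h : S.WF) (hd : DatOK S d) {b : ℕ × ℕ} {c : ℕ} (hb : S.binB b c) :
    -1 < (d.pos S (.blk b c)).1 ∧ (d.pos S (.blk b c)).1 < 2 * (S.NN : ℝ) + 1 := by
  obtain ⟨h1, h2, -, -⟩ := blk_mem h hd hb
  have h3 : (S.bcol b : ℝ) + 1 ≤ S.NN := by exact_mod_cast bcol_lt h hb
  have h4 : (0 : ℝ) ≤ S.bcol b := Nat.cast_nonneg _
  constructor <;> linarith

/-- comparison of different columns -/
theorem r6_xx (h : S.WF) (hd : DatOK S d) {b b' : ℕ × ℕ} {c c' : ℕ} (hb : S.binB b c)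
    (hb' : S.binB b' c') (hlt : S.bcol b < S.bcol b') :
    (d.pos S (.blk b c)).1 < (d.pos S (.blk b' c')).1 := by
  obtain ⟨-, h2, -, -⟩ := blk_mem h hd hb
  obtain ⟨h1, -, -, -⟩ := blk_mem h hd hb'
  have h3 : (S.bcol b : ℝ) + 1 ≤ S.bcol b' := by exact_mod_cast hlt
  linarith

/-- the empty line is good -/
theorem r6_nil : RowGood S d [] := by
  refine ⟨List.Pairwise.nil, ?_, ?_, ?_⟩
  · intro v hv
    exact absurd hv List.not_mem_nil
  · intro v hv
    exact absurd hv List.not_mem_nil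
  · rintro v - ⟨a, ha, -⟩
    exact absurd ha List.not_mem_nil

theorem r6_bin0 {g ρ c : ℕ} (hg : g ≤ 1) (hρ : ρ < S.R) (hc : c < 3) : S.binB (g, ρ) c :=
  Or.inl ⟨hg, hρ, hc⟩

theorem r6_bin2 {g l c : ℕ} (hg : 2 ≤ g) (hg' : g ≤ 5) (hl : l < 2 * S.K) (hc : c < 6) :
    S.binB (g, l) c := Or.inr ⟨hg, hg', hl, hc⟩

theorem r6_le (S : RS) {l : ℕ} (hl : l ≤ 4 * S.MM) : S.isV (.L l) := hl

/-- long wires -/
theorem row_long (h : S.WF) (hd : DatOK S d) {i : ℕ} (hi : i ≤ S.MM) :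
    RowGood S d [.L (4 * i), .R (4 * i)] := by
  have e1 : 4 * i / 4 = i := by omega
  have e2 : 4 * i % 4 = 0 := by omega
  have hyb : d.yb S (4 * i) = 2 * (i : ℝ) := by
    unfold Dat.yb
    rw [e1, e2, if_pos rfl, add_zero]
  have hNN : (0 : ℝ) ≤ (S.NN : ℝ) := Nat.cast_nonneg _
  have hMM : (0 : ℝ) ≤ (S.MM : ℝ) := Nat.cast_nonneg _
  have hi' : (i : ℝ) ≤ (S.MM : ℝ) := by exact_mod_cast hi
  have hi0 : (0 : ℝ) ≤ i := Nat.cast_nonneg i
  have hbig : S.big = 2 * S.NN + 2 * S.MM + 2 := rfl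
  refine ⟨?_, ?_, ?_, ?_⟩
  · rw [List.pairwise_pair]
    change (-1 : ℝ) < 2 * (S.NN : ℝ) + 1
    linarith
  · intro v hv w hw
    simp only [List.mem_cons, List.not_mem_nil, or_false] at hv hw
    rcases hv with rfl | rfl <;> rcases hw with rfl | rfl <;> rfl
  · intro v hv
    simp only [List.mem_cons, List.not_mem_nil, or_false] at hv
    rcases hv with rfl | rfl
    · change 4 * i ≤ 4 * S.MM
      omega
    · change 4 * i ≤ 4 * S.MM
      omega
  · rintro v hvV ⟨a, ha, b, hb', h1, h2, h3⟩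
    have ha2 : (d.pos S a).2 = 2 * (i : ℝ) := by
      simp only [List.mem_cons, List.not_mem_nil, or_false] at ha
      rcases ha with rfl | rfl <;> exact hyb
    rw [ha2] at h3
    have hk : ∀ k, d.yb S k = 2 * (i : ℝ) → k = 4 * i := by
      intro k hk
      rcases lt_trichotomy k (4 * i) with h4 | h4 | h4
      · have := yb_lt h hd h4
        linarith
      · exact h4
      · have := yb_lt h hd h4
        linarith
    cases v with
    | L k =>
      rw [hk k h3]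
      simp
    | R k =>
      rw [hk k h3]
      simp
    | B k =>
      exfalso
      change (-1 : ℝ) = _ at h3
      linarith
    | T k =>
      exfalso
      change 2 * (S.MM : ℝ) + 1 = _ at h3
      linarith
    | hub n =>
      exfalso
      have hpar : (S.MM : ℝ) + 1 / 7 ≠ 2 * (i : ℝ) := by
        rw [r6_MM]
        intro e
        rcases lt_or_ge (2 * S.R) i with h4 | h4
        · have : 2 * (S.R : ℝ) + 1 ≤ (i : ℝ) := by exact_mod_cast h4
          linarith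
        · have : (i : ℝ) ≤ 2 * (S.R : ℝ) := by exact_mod_cast h4
          linarith
      have hn : n < 5 := hvV
      have hn' : n = 0 ∨ n = 1 ∨ n = 2 ∨ n = 3 ∨ n = 4 := by omega
      rcases hn' with rfl | rfl | rfl | rfl | rfl
      · exact hpar h3
      · exact hpar h3
      · change 2 * (S.MM : ℝ) + 1 + S.big = _ at h3
        linarith
      · change -20 * S.big = _ at h3
        linarith
      · change 20 * S.big = _ at h3
        linarith
    | blk b c =>
      exfalso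
      have hl := loc01 h hd (b := b) (c := c) hvV
      rw [r6_blk2] at h3
      rcases lt_or_ge (S.brow b) i with h4 | h4
      · have : (S.brow b : ℝ) + 1 ≤ (i : ℝ) := by exact_mod_cast h4
        linarith
      · have : (i : ℝ) ≤ (S.brow b : ℝ) := by exact_mod_cast h4
        linarith

/-- local heights in the blocks `(0, ρ)` -/
theorem r6_h0 (ρ : ℕ) : (d.loc S (0, ρ) 0).2 = d.hb S ρ ∧ (d.loc S (0, ρ) 1).2 = d.hy S ρ ∧
    (d.loc S (0, ρ) 2).2 = 1 := by
  refine ⟨?_, ?_, ?_⟩ <;> simp [Dat.loc]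

theorem r6_h2 (l : ℕ) : (d.loc S (2, l) 0).2 = 0 ∧ (d.loc S (2, l) 1).2 = (d.gL l).yc ∧
    (d.loc S (2, l) 2).2 = (d.gL l).y2 ∧ (d.loc S (2, l) 3).2 = (d.gL l).yu ∧
    (d.loc S (2, l) 4).2 = 1 ∧ (d.loc S (2, l) 5).2 = (d.gL l).y := by
  refine ⟨?_, ?_, ?_, ?_, ?_, ?_⟩ <;> simp [Dat.loc, gateP]

theorem r6_h3 (l : ℕ) : (d.loc S (3, l) 0).2 = 1 ∧ (d.loc S (3, l) 1).2 = 0 ∧
    (d.loc S (3, l) 2).2 = (d.gL l).b ∧ (d.loc S (3, l) 3).2 = (d.gL l).b ∧
    (d.loc S (3, l) 4).2 = 1 - (d.gL l).xw' ∧ (d.loc S (3, l) 5).2 = 1 - (d.gL l).px' := by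
  refine ⟨?_, ?_, ?_, ?_, ?_, ?_⟩ <;> simp [Dat.loc, gateP, vT]

theorem r6_x3 (l : ℕ) : (d.loc S (3, l) 2).1 = (d.gL l).c ∧
    (d.loc S (3, l) 3).1 = (d.gL l).yu' := by
  refine ⟨?_, ?_⟩ <;> simp [Dat.loc, gateP, vT]

/-- a good line from the left to the right boundary -/
theorem r6_LR (h : S.WF) (hd : DatOK S d) {i κ : ℕ} (hi : i < S.MM) {t : ℝ} (t0 : 0 ≤ t)
    (t1 : t ≤ 1) (hκ : (κ = 1 ∧ t = 0) ∨ (κ = 3 ∧ t = 1)) {m : List ((ℕ × ℕ) × ℕ)}
    (hp : (bx m).Pairwise fun v w => (d.pos S v).1 < (d.pos S w).1)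
    (hm : ∀ v ∈ m, S.binB v.1 v.2 ∧ S.brow v.1 = i ∧ (d.loc S v.1 v.2).2 = t)
    (hb : ∀ b c, S.binB b c → S.brow b = i → (d.loc S b c).2 = t → (b, c) ∈ m) :
    RowGood S d (.L (4 * i + κ) :: bx m ++ [.R (4 * i + κ)]) := by
  have hNN : (0 : ℝ) ≤ (S.NN : ℝ) := Nat.cast_nonneg _
  have hyk : d.yb S (4 * i + κ) = 2 * (i : ℝ) + 1 / 2 + t := by
    rcases hκ with ⟨rfl, rfl⟩ | ⟨rfl, rfl⟩
    · exact r6_yb1 i
    · exact r6_yb3 i
  have hcc := cc01 h hd i
  have hkk : ∀ k, d.yb S k = 2 * (i : ℝ) + 1 / 2 + t → k = 4 * i + κ := by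
    intro k hk
    rcases r6_yb h hd t0 t1 hk with ⟨h1, h2⟩ | ⟨h1, h2⟩ | ⟨h1, h2⟩
    · rcases hκ with ⟨h3, h4⟩ | ⟨h3, h4⟩
      · omega
      · exfalso
        linarith
    · exfalso
      rcases hκ with ⟨h3, h4⟩ | ⟨h3, h4⟩ <;> linarith
    · rcases hκ with ⟨h3, h4⟩ | ⟨h3, h4⟩
      · exfalso
        linarith
      · omega
  have hmem : ∀ v : Vx, v ∈ (.L (4 * i + κ) :: bx m ++ [.R (4 * i + κ)] : List Vx) ↔
      v = .L (4 * i + κ) ∨ (∃ z ∈ m, v = .blk z.1 z.2) ∨ v = .R (4 * i + κ) := by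
    intro v
    simp only [bx, List.cons_append, List.mem_cons, List.mem_append, List.mem_map,
      List.not_mem_nil, or_false, eq_comm]
  refine r6_good h hd hi t0 t1 ?_ ?_ ?_ ?_ ?_ ?_
  · rw [List.cons_append, List.pairwise_cons]
    constructor
    · intro v hv
      rw [List.mem_append] at hv
      rcases hv with hv | hv
      · obtain ⟨z, hz, rfl⟩ := List.mem_map.1 hv
        exact (r6_x h hd (hm z hz).1).1
      · rw [List.mem_singleton] at hv
        rw [hv]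
        change (-1 : ℝ) < 2 * (S.NN : ℝ) + 1
        linarith
    · rw [List.pairwise_append]
      refine ⟨hp, List.pairwise_singleton _ _, ?_⟩
      intro v hv w hw
      obtain ⟨z, hz, rfl⟩ := List.mem_map.1 hv
      rw [List.mem_singleton] at hw
      rw [hw]
      exact (r6_x h hd (hm z hz).1).2
  · intro v hv
    rcases (hmem v).1 hv with rfl | ⟨z, hz, rfl⟩ | rfl
    · exact hyk
    · obtain ⟨h1, h2, h3⟩ := hm z hz
      rw [r6_blk2, h2, h3]
    · exact hyk
  · intro v hv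
    have hκ4 : κ < 4 := by omega
    rcases (hmem v).1 hv with rfl | ⟨z, hz, rfl⟩ | rfl
    · change 4 * i + κ ≤ 4 * S.MM
      omega
    · exact (hm z hz).1
    · change 4 * i + κ ≤ 4 * S.MM
      omega
  · intro k hk _
    rw [hkk k hk, hmem]
    exact Or.inl rfl
  · intro k hk _
    rw [hkk k hk, hmem]
    exact Or.inr (Or.inr rfl)
  · intro b c h1 h2 h3
    rw [hmem]
    exact Or.inr (Or.inl ⟨(b, c), hb b c h1 h2 h3, rfl⟩)

/-- a good line of block vertices -/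
theorem r6_W (h : S.WF) (hd : DatOK S d) {i : ℕ} (hi : i < S.MM) {t : ℝ} (t0 : 0 ≤ t)
    (t1 : t ≤ 1) {r : List Vx} {m : List ((ℕ × ℕ) × ℕ)} (hr : r = bx m)
    (hp : r.Pairwise fun v w => (d.pos S v).1 < (d.pos S w).1)
    (hm : ∀ v ∈ m, S.binB v.1 v.2 ∧ S.brow v.1 = i ∧ (d.loc S v.1 v.2).2 = t)
    (hb : ∀ b c, S.binB b c → S.brow b = i → (d.loc S b c).2 = t → (b, c) ∈ m) :
    RowGood S d r := by
  subst hr
  have hmem : ∀ v : Vx, v ∈ bx m ↔ ∃ z ∈ m, v = .blk z.1 z.2 := by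
    intro v
    simp only [bx, List.mem_map, eq_comm]
  refine r6_good h hd hi t0 t1 hp ?_ ?_ ?_ ?_ ?_
  · intro v hv
    obtain ⟨z, hz, rfl⟩ := (hmem v).1 hv
    obtain ⟨h1, h2, h3⟩ := hm z hz
    rw [r6_blk2, h2, h3]
  · intro v hv
    obtain ⟨z, hz, rfl⟩ := (hmem v).1 hv
    exact (hm z hz).1
  · rintro k - ⟨a, ha, h1⟩
    obtain ⟨z, hz, rfl⟩ := (hmem a).1 ha
    have := (r6_x h hd (hm z hz).1).1
    linarith
  · rintro k - ⟨a, ha, h1⟩
    obtain ⟨z, hz, rfl⟩ := (hmem a).1 ha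
    have := (r6_x h hd (hm z hz).1).2
    linarith
  · intro b c h1 h2 h3
    rw [hmem]
    exact ⟨(b, c), hb b c h1 h2 h3, rfl⟩

/-- `(0, ρ)` is to the right of the link blocks -/
theorem r6_col (h : S.WF) {g ρ l : ℕ} (hg : g = 2 ∨ g = 3) (hρ : ρ < S.R) (hl : l < 2 * S.K) :
    S.bcol (g, l) < S.bcol (0, ρ) := by
  have e1 : S.bcol (g, l) = l := by
    unfold bcol
    rw [if_neg (by simp only; omega), if_pos (by simpa using hg)]
  have e2 : S.bcol (0, ρ) = S.lane ρ := by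
    unfold bcol
    rw [if_pos (by simp)]
  rw [e1, e2]
  exact hl.trans_le (lane_ge h hρ)

/-- hatted lower lane: `B: L, (2,l) 0, R`; `T: L, (2,l) 4, (0,ρ) 2, R`; `C: (2,l) 2, (0,ρ) 0, R`;
`W: (2,l) 5, (0,ρ) 1`. Vertices in the lane: boundary vertices and those of the blocks `(0, ρ)` and
`(2, l)` (`brow_low`); compare the local heights `0 < yc < y2 < y < yu < 1`. -/
theorem rows_low_hat (h : S.WF) (hd : DatOK S d) {ρ : ℕ} (hρ : ρ < S.R) (hh : S.hatL ρ = true) :
    ∀ r ∈ S.laneR (S.low ρ), RowGood S d r := by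
  have hrole := role_low h hρ
  have hi := low_lt h hρ
  have hl := lkL_lt h hρ
  obtain ⟨l, hlk⟩ : ∃ l, l = lkL ρ := ⟨_, rfl⟩
  have hA : ρ = S.loA l := by
    have h1 := hh
    unfold hatL at h1
    rw [hlk]
    exact of_decide_eq_true h1
  rw [← hlk] at hl
  have hg := (hd.lo l hl).g1
  have hb0 : d.hb S ρ = (d.gL l).y2 := by
    unfold Dat.hb
    rw [if_pos hh, hlk]
  have hy0 : d.hy S ρ = (d.gL l).y := by
    unfold Dat.hy
    rw [if_pos hh, hlk]
  have r0 : S.brow (0, ρ) = S.low ρ := by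
    unfold brow
    rw [if_pos rfl]
  have r2 : S.brow (2, l) = S.low ρ := by
    unfold brow
    rw [if_neg (by simp), if_neg (by simp), if_pos rfl, hA]
  obtain ⟨a0, a1, a2⟩ := r6_h0 (S := S) (d := d) ρ
  obtain ⟨c0, c1, c2, c3, c4, c5⟩ := r6_h2 (S := S) (d := d) l
  rw [hb0] at a0
  rw [hy0] at a1
  have g5 := hg.h5
  have g6 := hg.h6
  have g7 := hg.h7
  have g8 := hg.h8
  have g9 := hg.h9
  have hcc : d.cc S (S.low ρ) = (d.gL l).y2 := by
    unfold Dat.cc
    rw [hrole, if_pos ⟨rfl, hh⟩, ← hlk]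
  have key : ∀ (t : ℝ) (m : List ((ℕ × ℕ) × ℕ)),
      ((0 : ℝ) = t → ((2, l), 0) ∈ m) → ((d.gL l).yc = t → ((2, l), 1) ∈ m) →
      ((d.gL l).y2 = t → ((2, l), 2) ∈ m ∧ ((0, ρ), 0) ∈ m) →
      ((d.gL l).yu = t → ((2, l), 3) ∈ m) →
      ((1 : ℝ) = t → ((2, l), 4) ∈ m ∧ ((0, ρ), 2) ∈ m) →
      ((d.gL l).y = t → ((2, l), 5) ∈ m ∧ ((0, ρ), 1) ∈ m) →
      ∀ b c, S.binB b c → S.brow b = S.low ρ → (d.loc S b c).2 = t → (b, c) ∈ m := by
    intro t m k0 k1 k2 k3 k4 k5 b c hb hr ht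
    rcases brow_low h hb hρ hr with rfl | ⟨rfl, -⟩ | ⟨rfl, h9⟩
    · rcases hb with ⟨-, -, hc⟩ | ⟨h8, -⟩
      · interval_cases c
        · rw [a0] at ht
          exact (k2 ht).2
        · rw [a1] at ht
          exact (k5 ht).2
        · rw [a2] at ht
          exact (k4 ht).2
      · exact absurd h8 (by norm_num)
    · rw [← hlk] at ht ⊢
      rcases hb with ⟨h8, -⟩ | ⟨-, -, -, hc⟩
      · exact absurd h8 (by norm_num)
      · interval_cases c
        · rw [c0] at ht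
          exact k0 ht
        · rw [c1] at ht
          exact k1 ht
        · rw [c2] at ht
          exact (k2 ht).1
        · rw [c3] at ht
          exact k3 ht
        · rw [c4] at ht
          exact (k4 ht).1
        · rw [c5] at ht
          exact (k5 ht).1
    · rw [hh] at h9
      exact absurd h9 (by simp)
  have eB : S.rB (S.low ρ) = [((2, l), 0)] := by
    unfold rB
    rw [hrole, if_pos rfl, if_pos hh, ← hlk]
  have eT : S.rT (S.low ρ) = [((2, l), 4), ((0, ρ), 2)] := by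
    unfold rT
    rw [hrole, if_pos rfl, if_pos hh, ← hlk]
  have eC : S.rC (S.low ρ) = [.blk (2, l) 2, .blk (0, ρ) 0, .R (4 * S.low ρ + 2)] := by
    unfold rC
    rw [hrole, if_pos ⟨rfl, hh⟩, ← hlk]
  have eW : S.rW (S.low ρ) = [.blk (2, l) 5, .blk (0, ρ) 1] := by
    unfold rW
    rw [hrole, if_pos rfl, if_pos hh, ← hlk]
  have hcol := r6_col h (g := 2) (Or.inl rfl) hρ hl
  have b0 : ∀ c < 3, S.binB (0, ρ) c := fun c hc => r6_bin0 (by norm_num) hρ hc
  have b2 : ∀ c < 6, S.binB (2, l) c := fun c hc => r6_bin2 (by norm_num) (by norm_num) hl hc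
  intro r hr
  unfold laneR at hr
  simp only [List.mem_cons, List.not_mem_nil, or_false] at hr
  rcases hr with rfl | rfl | rfl | rfl
  · rw [eB]
    refine r6_LR h hd hi le_rfl zero_le_one (Or.inl ⟨rfl, rfl⟩) ?_ ?_ ?_
    · exact List.pairwise_singleton _ _
    · intro v hv
      rw [List.mem_singleton] at hv
      rw [hv]
      exact ⟨b2 0 (by norm_num), r2, c0⟩
    · refine key 0 _ (fun _ => by simp) ?_ ?_ ?_ ?_ ?_ <;> intro e <;> exfalso <;> linarith
  · rw [eT]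
    refine r6_LR h hd hi zero_le_one le_rfl (Or.inr ⟨rfl, rfl⟩) ?_ ?_ ?_
    · simp only [bx, List.map_cons, List.map_nil]
      rw [List.pairwise_pair]
      exact r6_xx h hd (b2 4 (by norm_num)) (b0 2 (by norm_num)) hcol
    · intro v hv
      simp only [List.mem_cons, List.not_mem_nil, or_false] at hv
      rcases hv with rfl | rfl
      · exact ⟨b2 4 (by norm_num), r2, c4⟩
      · exact ⟨b0 2 (by norm_num), r0, a2⟩
    · refine key 1 _ ?_ ?_ ?_ ?_ (fun _ => by simp) ?_ <;> intro e <;> exfalso <;> linarith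
  · rw [eC]
    have hyk := r6_yb2 (S := S) (d := d) (S.low ρ)
    rw [hcc] at hyk
    have x1 := r6_xx h hd (b2 2 (by norm_num)) (b0 0 (by norm_num)) hcol
    have x2 := r6_x h hd (b2 2 (by norm_num))
    have x3 := r6_x h hd (b0 0 (by norm_num))
    refine r6_good h hd hi (t := (d.gL l).y2) (by linarith) (by linarith) ?_ ?_ ?_ ?_ ?_ ?_
    · simp only [List.pairwise_cons, List.mem_cons, List.not_mem_nil, or_false, forall_eq_or_imp,
        forall_eq, List.Pairwise.nil, and_true, false_imp_iff, implies_true]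
      exact ⟨⟨x1, x2.2⟩, x3.2⟩
    · intro v hv
      simp only [List.mem_cons, List.not_mem_nil, or_false] at hv
      rcases hv with rfl | rfl | rfl
      · rw [r6_blk2, r2, c2]
      · rw [r6_blk2, r0, a0]
      · exact hyk
    · intro v hv
      simp only [List.mem_cons, List.not_mem_nil, or_false] at hv
      rcases hv with rfl | rfl | rfl
      · exact b2 2 (by norm_num)
      · exact b0 0 (by norm_num)
      · change 4 * S.low ρ + 2 ≤ 4 * S.MM
        omega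
    · rintro k - ⟨a, ha, h1⟩
      exfalso
      simp only [List.mem_cons, List.not_mem_nil, or_false] at ha
      rcases ha with rfl | rfl | rfl
      · linarith [x2.1]
      · linarith [x3.1]
      · change 2 * (S.NN : ℝ) + 1 ≤ -1 at h1
        have hNN : (0 : ℝ) ≤ (S.NN : ℝ) := Nat.cast_nonneg _
        linarith
    · rintro k hk -
      rcases r6_yb h hd (by linarith) (by linarith) hk with ⟨h1, h2⟩ | ⟨h1, h2⟩ | ⟨h1, h2⟩
      · exfalso
        linarith
      · rw [h1]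
        simp
      · exfalso
        linarith
    · intro b c h1 h2 h3
      have h4 := key (d.gL l).y2 [((2, l), 2), ((0, ρ), 0)] (fun e => by exfalso; linarith)
        (fun e => by exfalso; linarith) (fun _ => by simp) (fun e => by exfalso; linarith)
        (fun e => by exfalso; linarith) (fun e => by exfalso; linarith) b c h1 h2 h3
      simp only [List.mem_cons, List.not_mem_nil, or_false, Prod.mk.injEq] at h4
      rcases h4 with ⟨rfl, rfl⟩ | ⟨rfl, rfl⟩ <;> simp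
  · rw [eW]
    have x1 := r6_xx h hd (b2 5 (by norm_num)) (b0 1 (by norm_num)) hcol
    refine r6_W h hd hi (t := (d.gL l).y) (by linarith) (by linarith)
      (m := [((2, l), 5), ((0, ρ), 1)]) rfl ?_ ?_ ?_
    · rw [List.pairwise_pair]
      exact x1
    · intro v hv
      simp only [List.mem_cons, List.not_mem_nil, or_false] at hv
      rcases hv with rfl | rfl
      · exact ⟨b2 5 (by norm_num), r2, c5⟩
      · exact ⟨b0 1 (by norm_num), r0, a1⟩
    · refine key _ _ ?_ ?_ ?_ ?_ ?_ (fun _ => by simp) <;> intro e <;> exfalso <;> linarith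

/-- lower lane without companion: `B: L, (3,l) 1, (0,ρ) 0, R`; `T: L, (3,l) 0, (0,ρ) 2, R`;
`W: (3,l) 2, (3,l) 3, (0,ρ) 1` -/
theorem rows_low (h : S.WF) (hd : DatOK S d) {ρ : ℕ} (hρ : ρ < S.R) (hh : S.hatL ρ = false) :
    ∀ r ∈ S.laneR (S.low ρ), RowGood S d r := by
  have hrole := role_low h hρ
  have hi := low_lt h hρ
  have hl := lkL_lt h hρ
  obtain ⟨l, hlk⟩ : ∃ l, l = lkL ρ := ⟨_, rfl⟩
  have hh' : ¬ S.hatL ρ = true := by rw [hh]; simp
  have hA : ρ = S.loB l := by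
    rcases eq_loA_or S ρ with h1 | h1
    · exfalso
      apply hh'
      unfold hatL
      exact decide_eq_true h1
    · rw [hlk]
      exact h1
  rw [← hlk] at hl
  have hg := (hd.lo l hl).g2
  have hbb : (d.gL l).b = d.l ρ := by
    rw [(hd.lo l hl).hb, ← hA]
  rw [← hA, ← hbb] at hg
  have hb0 : d.hb S ρ = 0 := by
    unfold Dat.hb
    rw [if_neg hh']
  have hy0 : d.hy S ρ = (d.gL l).b := by
    unfold Dat.hy
    rw [if_neg hh', hbb]
  have r0 : S.brow (0, ρ) = S.low ρ := by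
    unfold brow
    rw [if_pos rfl]
  have r3 : S.brow (3, l) = S.low ρ := by
    unfold brow
    rw [if_neg (by simp), if_neg (by simp), if_neg (by simp), if_pos rfl, ← hA]
  obtain ⟨a0, a1, a2⟩ := r6_h0 (S := S) (d := d) ρ
  obtain ⟨c0, c1, c2, c3, c4, c5⟩ := r6_h3 (S := S) (d := d) l
  obtain ⟨e2, e3⟩ := r6_x3 (S := S) (d := d) l
  rw [hb0] at a0
  rw [hy0] at a1
  have g1 := hg.h1
  have g2 := hg.h2
  have g3 := hg.h3
  have g4 := hg.h4
  have g7 := hg.h7
  have g8 := hg.h8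
  have hl01 := hd.l01 ρ hρ
  rw [← hbb] at hl01
  have key : ∀ (t : ℝ) (m : List ((ℕ × ℕ) × ℕ)),
      ((0 : ℝ) = t → ((3, l), 1) ∈ m ∧ ((0, ρ), 0) ∈ m) →
      ((d.gL l).b = t → ((3, l), 2) ∈ m ∧ ((3, l), 3) ∈ m ∧ ((0, ρ), 1) ∈ m) →
      (1 - (d.gL l).xw' = t → ((3, l), 4) ∈ m) → (1 - (d.gL l).px' = t → ((3, l), 5) ∈ m) →
      ((1 : ℝ) = t → ((3, l), 0) ∈ m ∧ ((0, ρ), 2) ∈ m) →
      ∀ b c, S.binB b c → S.brow b = S.low ρ → (d.loc S b c).2 = t → (b, c) ∈ m := by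
    intro t m k0 k2 k4 k5 k1 b c hb hr ht
    rcases brow_low h hb hρ hr with rfl | ⟨rfl, h9⟩ | ⟨rfl, -⟩
    · rcases hb with ⟨-, -, hc⟩ | ⟨h8, -⟩
      · interval_cases c
        · rw [a0] at ht
          exact (k0 ht).2
        · rw [a1] at ht
          exact (k2 ht).2.2
        · rw [a2] at ht
          exact (k1 ht).2
      · exact absurd h8 (by norm_num)
    · exact absurd h9 hh'
    · rw [← hlk] at ht ⊢
      rcases hb with ⟨h8, -⟩ | ⟨-, -, -, hc⟩
      · exact absurd h8 (by norm_num)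
      · interval_cases c
        · rw [c0] at ht
          exact (k1 ht).1
        · rw [c1] at ht
          exact (k0 ht).1
        · rw [c2] at ht
          exact (k2 ht).1
        · rw [c3] at ht
          exact (k2 ht).2.1
        · rw [c4] at ht
          exact k4 ht
        · rw [c5] at ht
          exact k5 ht
  have eB : S.rB (S.low ρ) = [((3, l), 1), ((0, ρ), 0)] := by
    unfold rB
    rw [hrole, if_pos rfl, if_neg hh', ← hlk]
  have eT : S.rT (S.low ρ) = [((3, l), 0), ((0, ρ), 2)] := by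
    unfold rT
    rw [hrole, if_pos rfl, if_neg hh', ← hlk]
  have eC : S.rC (S.low ρ) = [] := by
    unfold rC
    rw [hrole, if_neg (fun h1 => hh' h1.2), if_neg (fun h1 => absurd h1.1 (by norm_num))]
  have eW : S.rW (S.low ρ) = [.blk (3, l) 2, .blk (3, l) 3, .blk (0, ρ) 1] := by
    unfold rW
    rw [hrole, if_pos rfl, if_neg hh', ← hlk]
  have hcol := r6_col h (g := 3) (Or.inr rfl) hρ hl
  have b0 : ∀ c < 3, S.binB (0, ρ) c := fun c hc => r6_bin0 (by norm_num) hρ hc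
  have b3 : ∀ c < 6, S.binB (3, l) c := fun c hc => r6_bin2 (by norm_num) (by norm_num) hl hc
  intro r hr
  unfold laneR at hr
  simp only [List.mem_cons, List.not_mem_nil, or_false] at hr
  rcases hr with rfl | rfl | rfl | rfl
  · rw [eB]
    refine r6_LR h hd hi le_rfl zero_le_one (Or.inl ⟨rfl, rfl⟩) ?_ ?_ ?_
    · simp only [bx, List.map_cons, List.map_nil]
      rw [List.pairwise_pair]
      exact r6_xx h hd (b3 1 (by norm_num)) (b0 0 (by norm_num)) hcol
    · intro v hv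
      simp only [List.mem_cons, List.not_mem_nil, or_false] at hv
      rcases hv with rfl | rfl
      · exact ⟨b3 1 (by norm_num), r3, c1⟩
      · exact ⟨b0 0 (by norm_num), r0, a0⟩
    · refine key 0 _ (fun _ => by simp) ?_ ?_ ?_ ?_ <;> intro e <;> exfalso <;> linarith
  · rw [eT]
    refine r6_LR h hd hi zero_le_one le_rfl (Or.inr ⟨rfl, rfl⟩) ?_ ?_ ?_
    · simp only [bx, List.map_cons, List.map_nil]
      rw [List.pairwise_pair]
      exact r6_xx h hd (b3 0 (by norm_num)) (b0 2 (by norm_num)) hcol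
    · intro v hv
      simp only [List.mem_cons, List.not_mem_nil, or_false] at hv
      rcases hv with rfl | rfl
      · exact ⟨b3 0 (by norm_num), r3, c0⟩
      · exact ⟨b0 2 (by norm_num), r0, a2⟩
    · refine key 1 _ ?_ ?_ ?_ ?_ (fun _ => by simp) <;> intro e <;> exfalso <;> linarith
  · rw [eC]
    exact r6_nil
  · rw [eW]
    have x1 := r6_xx h hd (b3 2 (by norm_num)) (b0 1 (by norm_num)) hcol
    have x2 := r6_xx h hd (b3 3 (by norm_num)) (b0 1 (by norm_num)) hcol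
    have x3 : (d.pos S (.blk (3, l) 2)).1 < (d.pos S (.blk (3, l) 3)).1 := by
      rw [r6_blk1, r6_blk1, e2, e3]
      linarith
    refine r6_W h hd hi (t := (d.gL l).b) (by linarith) (by linarith)
      (m := [((3, l), 2), ((3, l), 3), ((0, ρ), 1)]) rfl ?_ ?_ ?_
    · simp only [List.pairwise_cons, List.mem_cons, List.not_mem_nil, or_false, forall_eq_or_imp,
        forall_eq, List.Pairwise.nil, and_true, false_imp_iff, implies_true]
      exact ⟨⟨x3, x1⟩, x2⟩
    · intro v hv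
      simp only [List.mem_cons, List.not_mem_nil, or_false] at hv
      rcases hv with rfl | rfl | rfl
      · exact ⟨b3 2 (by norm_num), r3, c2⟩
      · exact ⟨b3 3 (by norm_num), r3, c3⟩
      · exact ⟨b0 1 (by norm_num), r0, a1⟩
    · refine key _ _ ?_ (fun _ => by simp) ?_ ?_ ?_ <;> intro e <;> exfalso <;> linarith

end Pool.Agent.H54R
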