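import Pool.Agent.Lib.H54R.RDefs
import Pool.Agent.Lib.H54R.R4
import Pool.Agent.Lib.H54R.R5
import Pool.Agent.Lib.H54R.R5B
import Pool.Agent.Lib.H54R.R6

/-!
# R6B: row lines of the upper and of the unused lanes
-/

set_option autoImplicit false

namespace Pool.Agent.H54R

open RS

variable {S : RS} {d : Dat}

theorem r6b_h1 (ρ : ℕ) : (d.loc S (1, ρ) 0).2 = 0 ∧ (d.loc S (1, ρ) 1).2 = d.hz S ρ ∧
    (d.loc S (1, ρ) 2).2 = d.ht S ρ := by
  refine ⟨?_, ?_, ?_⟩ <;> simp [Dat.loc]

theorem r6b_h4 (l : ℕ) : (d.loc S (4, l) 0).2 = 1 ∧ (d.loc S (4, l) 1).2 = 1 - (d.gU l).yc ∧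
    (d.loc S (4, l) 2).2 = 1 - (d.gU l).y2 ∧ (d.loc S (4, l) 3).2 = 1 - (d.gU l).yu ∧
    (d.loc S (4, l) 4).2 = 0 ∧ (d.loc S (4, l) 5).2 = 1 - (d.gU l).y := by
  refine ⟨?_, ?_, ?_, ?_, ?_, ?_⟩ <;> simp [Dat.loc, gateP, rt2]

theorem r6b_h5 (l : ℕ) : (d.loc S (5, l) 0).2 = 0 ∧ (d.loc S (5, l) 1).2 = 1 ∧
    (d.loc S (5, l) 2).2 = 1 - (d.gU l).b ∧ (d.loc S (5, l) 3).2 = 1 - (d.gU l).b ∧
    (d.loc S (5, l) 4).2 = (d.gU l).xw' ∧ (d.loc S (5, l) 5).2 = (d.gU l).px' := by
  refine ⟨?_, ?_, ?_, ?_, ?_, ?_⟩ <;> simp [Dat.loc, gateP, vT, rt2]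

theorem r6b_x5 (l : ℕ) : (d.loc S (5, l) 2).1 = 1 - (d.gU l).c ∧
    (d.loc S (5, l) 3).1 = 1 - (d.gU l).yu' := by
  refine ⟨?_, ?_⟩ <;> simp [Dat.loc, gateP, vT, rt2]

/-- `(1, ρ)` is to the left of the upper link blocks -/
theorem r6b_col (h : S.WF) {g ρ l : ℕ} (hg : g = 4 ∨ g = 5) (hρ : ρ < S.R) :
    S.bcol (1, ρ) < S.bcol (g, l) := by
  have e1 : S.bcol (g, l) = S.rlane l := by
    unfold bcol
    rw [if_neg (by simp only; omega), if_neg (by simp only; omega)]
  have e2 : S.bcol (1, ρ) = S.lane ρ := by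
    unfold bcol
    rw [if_pos (by simp)]
  rw [e1, e2]
  refine (lane_lt h hρ).trans_le ?_
  unfold rlane
  omega

theorem rows_up_hat (h : S.WF) (hd : DatOK S d) {ρ : ℕ} (hρ : ρ < S.R) (hh : S.hatU ρ = true) :
    ∀ r ∈ S.laneR (S.upr ρ), RowGood S d r := by
  have hrole := role_upr h hρ
  have hi := upr_lt h hρ
  have hl := lkU_lt h hρ
  obtain ⟨l, hlk⟩ : ∃ l, l = lkU ρ := ⟨_, rfl⟩
  have hA : ρ = S.upA l := by
    have h1 := hh
    unfold hatU at h1
    rw [hlk]
    exact of_decide_eq_true h1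
  rw [← hlk] at hl
  have hg := (hd.up l hl).g1
  have hb0 : d.ht S ρ = 1 - (d.gU l).y2 := by
    unfold Dat.ht
    rw [if_pos hh, hlk]
  have hy0 : d.hz S ρ = 1 - (d.gU l).y := by
    unfold Dat.hz
    rw [if_pos hh, hlk]
  have r0 : S.brow (1, ρ) = S.upr ρ := by
    unfold brow
    rw [if_neg (by simp), if_pos rfl]
  have r2 : S.brow (4, l) = S.upr ρ := by
    unfold brow
    rw [if_neg (by simp), if_neg (by simp), if_neg (by simp), if_neg (by simp), if_pos rfl, hA]
  obtain ⟨a0, a1, a2⟩ := r6b_h1 (S := S) (d := d) ρ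
  obtain ⟨c0, c1, c2, c3, c4, c5⟩ := r6b_h4 (S := S) (d := d) l
  rw [hy0] at a1
  rw [hb0] at a2
  have g5 := hg.h5
  have g6 := hg.h6
  have g7 := hg.h7
  have g8 := hg.h8
  have g9 := hg.h9
  have hcc : d.cc S (S.upr ρ) = 1 - (d.gU l).y2 := by
    unfold Dat.cc
    rw [hrole, if_neg (fun h1 => absurd h1.1 (by norm_num)), if_pos ⟨rfl, hh⟩, ← hlk]
  have key : ∀ (t : ℝ) (m : List ((ℕ × ℕ) × ℕ)),
      ((1 : ℝ) = t → ((4, l), 0) ∈ m) → (1 - (d.gU l).yc = t → ((4, l), 1) ∈ m) →
      (1 - (d.gU l).y2 = t → ((4, l), 2) ∈ m ∧ ((1, ρ), 2) ∈ m) →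
      (1 - (d.gU l).yu = t → ((4, l), 3) ∈ m) →
      ((0 : ℝ) = t → ((4, l), 4) ∈ m ∧ ((1, ρ), 0) ∈ m) →
      (1 - (d.gU l).y = t → ((4, l), 5) ∈ m ∧ ((1, ρ), 1) ∈ m) →
      ∀ b c, S.binB b c → S.brow b = S.upr ρ → (d.loc S b c).2 = t → (b, c) ∈ m := by
    intro t m k0 k1 k2 k3 k4 k5 b c hb hr ht
    rcases brow_upr h hb hρ hr with rfl | ⟨rfl, -⟩ | ⟨rfl, h9⟩
    · rcases hb with ⟨-, -, hc⟩ | ⟨h8, -⟩
      · interval_cases c
        · rw [a0] at ht
          exact (k4 ht).2
        · rw [a1] at ht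
          exact (k5 ht).2
        · rw [a2] at ht
          exact (k2 ht).2
      · exact absurd h8 (by norm_num)
    · rw [← hlk] at ht ⊢
      rcases hb with ⟨h8, -⟩ | ⟨-, -, -, hc⟩
      · exact absurd h8 (by norm_num)
      · interval_cases c
        · rw [c0] at ht
          exact k0 ht
        · rw [c1] at ht
          exact k1 ht
        · rw [c2] at ht
          exact (k2 ht).1
        · rw [c3] at ht
          exact k3 ht
        · rw [c4] at ht
          exact (k4 ht).1
        · rw [c5] at ht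
          exact (k5 ht).1
    · rw [hh] at h9
      exact absurd h9 (by simp)
  have eB : S.rB (S.upr ρ) = [((1, ρ), 0), ((4, l), 4)] := by
    unfold rB
    rw [hrole, if_neg (by norm_num), if_pos rfl, if_pos hh, ← hlk]
  have eT : S.rT (S.upr ρ) = [((4, l), 0)] := by
    unfold rT
    rw [hrole, if_neg (by norm_num), if_pos rfl, if_pos hh, ← hlk]
  have eC : S.rC (S.upr ρ) = [.L (4 * S.upr ρ + 2), .blk (1, ρ) 2, .blk (4, l) 2] := by
    unfold rC
    rw [hrole, if_neg (fun h1 => absurd h1.1 (by norm_num)), if_pos ⟨rfl, hh⟩, ← hlk]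
  have eW : S.rW (S.upr ρ) = [.blk (1, ρ) 1, .blk (4, l) 5] := by
    unfold rW
    rw [hrole, if_neg (by norm_num), if_pos rfl, if_pos hh, ← hlk]
  have hcol := r6b_col h (g := 4) (l := l) (Or.inl rfl) hρ
  have b1 : ∀ c < 3, S.binB (1, ρ) c := fun c hc => r6_bin0 (by norm_num) hρ hc
  have b4 : ∀ c < 6, S.binB (4, l) c := fun c hc => r6_bin2 (by norm_num) (by norm_num) hl hc
  intro r hr
  unfold laneR at hr
  simp only [List.mem_cons, List.not_mem_nil, or_false] at hr
  rcases hr with rfl | rfl | rfl | rfl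
  · rw [eB]
    refine r6_LR h hd hi le_rfl zero_le_one (Or.inl ⟨rfl, rfl⟩) ?_ ?_ ?_
    · simp only [bx, List.map_cons, List.map_nil]
      rw [List.pairwise_pair]
      exact r6_xx h hd (b1 0 (by norm_num)) (b4 4 (by norm_num)) hcol
    · intro v hv
      simp only [List.mem_cons, List.not_mem_nil, or_false] at hv
      rcases hv with rfl | rfl
      · exact ⟨b1 0 (by norm_num), r0, a0⟩
      · exact ⟨b4 4 (by norm_num), r2, c4⟩
    · refine key 0 _ ?_ ?_ ?_ ?_ (fun _ => by simp) ?_ <;> intro e <;> exfalso <;> linarith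
  · rw [eT]
    refine r6_LR h hd hi zero_le_one le_rfl (Or.inr ⟨rfl, rfl⟩) ?_ ?_ ?_
    · exact List.pairwise_singleton _ _
    · intro v hv
      rw [List.mem_singleton] at hv
      rw [hv]
      exact ⟨b4 0 (by norm_num), r2, c0⟩
    · refine key 1 _ (fun _ => by simp) ?_ ?_ ?_ ?_ ?_ <;> intro e <;> exfalso <;> linarith
  · rw [eC]
    have hyk := r6_yb2 (S := S) (d := d) (S.upr ρ)
    rw [hcc] at hyk
    have x1 := r6_xx h hd (b1 2 (by norm_num)) (b4 2 (by norm_num)) hcol
    have x2 := r6_x h hd (b1 2 (by norm_num))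
    have x3 := r6_x h hd (b4 2 (by norm_num))
    refine r6_good h hd hi (t := 1 - (d.gU l).y2) (by linarith) (by linarith) ?_ ?_ ?_ ?_ ?_ ?_
    · simp only [List.pairwise_cons, List.mem_cons, List.not_mem_nil, or_false, forall_eq_or_imp,
        forall_eq, List.Pairwise.nil, and_true, false_imp_iff, implies_true]
      exact ⟨⟨x2.1, x3.1⟩, x1⟩
    · intro v hv
      simp only [List.mem_cons, List.not_mem_nil, or_false] at hv
      rcases hv with rfl | rfl | rfl
      · exact hyk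
      · rw [r6_blk2, r0, a2]
      · rw [r6_blk2, r2, c2]
    · intro v hv
      simp only [List.mem_cons, List.not_mem_nil, or_false] at hv
      rcases hv with rfl | rfl | rfl
      · change 4 * S.upr ρ + 2 ≤ 4 * S.MM
        omega
      · exact b1 2 (by norm_num)
      · exact b4 2 (by norm_num)
    · rintro k hk -
      rcases r6_yb h hd (by linarith) (by linarith) hk with ⟨h1, h2⟩ | ⟨h1, h2⟩ | ⟨h1, h2⟩
      · exfalso
        linarith
      · rw [h1]
        simp
      · exfalso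
        linarith
    · rintro k - ⟨a, ha, h1⟩
      exfalso
      simp only [List.mem_cons, List.not_mem_nil, or_false] at ha
      rcases ha with rfl | rfl | rfl
      · change 2 * (S.NN : ℝ) + 1 ≤ -1 at h1
        have hNN : (0 : ℝ) ≤ (S.NN : ℝ) := Nat.cast_nonneg _
        linarith
      · linarith [x2.2]
      · linarith [x3.2]
    · intro b c h1 h2 h3
      have h4 := key (1 - (d.gU l).y2) [((1, ρ), 2), ((4, l), 2)] (fun e => by exfalso; linarith)
        (fun e => by exfalso; linarith) (fun _ => by simp) (fun e => by exfalso; linarith)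
        (fun e => by exfalso; linarith) (fun e => by exfalso; linarith) b c h1 h2 h3
      simp only [List.mem_cons, List.not_mem_nil, or_false, Prod.mk.injEq] at h4
      rcases h4 with ⟨rfl, rfl⟩ | ⟨rfl, rfl⟩ <;> simp
  · rw [eW]
    have x1 := r6_xx h hd (b1 1 (by norm_num)) (b4 5 (by norm_num)) hcol
    refine r6_W h hd hi (t := 1 - (d.gU l).y) (by linarith) (by linarith)
      (m := [((1, ρ), 1), ((4, l), 5)]) rfl ?_ ?_ ?_
    · rw [List.pairwise_pair]
      exact x1
    · intro v hv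
      simp only [List.mem_cons, List.not_mem_nil, or_false] at hv
      rcases hv with rfl | rfl
      · exact ⟨b1 1 (by norm_num), r0, a1⟩
      · exact ⟨b4 5 (by norm_num), r2, c5⟩
    · refine key _ _ ?_ ?_ ?_ ?_ ?_ (fun _ => by simp) <;> intro e <;> exfalso <;> linarith

theorem rows_up (h : S.WF) (hd : DatOK S d) {ρ : ℕ} (hρ : ρ < S.R) (hh : S.hatU ρ = false) :
    ∀ r ∈ S.laneR (S.upr ρ), RowGood S d r := by
  have hrole := role_upr h hρ
  have hi := upr_lt h hρ
  have hl := lkU_lt h hρ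
  obtain ⟨l, hlk⟩ : ∃ l, l = lkU ρ := ⟨_, rfl⟩
  have hh' : ¬ S.hatU ρ = true := by rw [hh]; simp
  have hA : ρ = S.upB l := by
    rcases eq_upA_or S ρ with h1 | h1
    · exfalso
      apply hh'
      unfold hatU
      exact decide_eq_true h1
    · rw [hlk]
      exact h1
  rw [← hlk] at hl
  have hg := (hd.up l hl).g2
  have hbb : (d.gU l).b = 1 - d.u ρ := by
    rw [(hd.up l hl).hb, ← hA]
  rw [← hA, ← hbb] at hg
  have hb0 : d.ht S ρ = 1 := by
    unfold Dat.ht
    rw [if_neg hh']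
  have hy0 : d.hz S ρ = 1 - (d.gU l).b := by
    unfold Dat.hz
    rw [if_neg hh', hbb]
    ring
  have r0 : S.brow (1, ρ) = S.upr ρ := by
    unfold brow
    rw [if_neg (by simp), if_pos rfl]
  have r5 : S.brow (5, l) = S.upr ρ := by
    unfold brow
    rw [if_neg (by simp), if_neg (by simp), if_neg (by simp), if_neg (by simp), if_neg (by simp),
      ← hA]
  obtain ⟨a0, a1, a2⟩ := r6b_h1 (S := S) (d := d) ρ
  obtain ⟨c0, c1, c2, c3, c4, c5⟩ := r6b_h5 (S := S) (d := d) l
  obtain ⟨e2, e3⟩ := r6b_x5 (S := S) (d := d) l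
  rw [hy0] at a1
  rw [hb0] at a2
  have g1 := hg.h1
  have g2 := hg.h2
  have g3 := hg.h3
  have g4 := hg.h4
  have g7 := hg.h7
  have g8 := hg.h8
  have hl01 := hd.u01 ρ hρ
  have key : ∀ (t : ℝ) (m : List ((ℕ × ℕ) × ℕ)),
      ((0 : ℝ) = t → ((5, l), 0) ∈ m ∧ ((1, ρ), 0) ∈ m) →
      (1 - (d.gU l).b = t → ((5, l), 2) ∈ m ∧ ((5, l), 3) ∈ m ∧ ((1, ρ), 1) ∈ m) →
      ((d.gU l).xw' = t → ((5, l), 4) ∈ m) → ((d.gU l).px' = t → ((5, l), 5) ∈ m) →
      ((1 : ℝ) = t → ((5, l), 1) ∈ m ∧ ((1, ρ), 2) ∈ m) →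
      ∀ b c, S.binB b c → S.brow b = S.upr ρ → (d.loc S b c).2 = t → (b, c) ∈ m := by
    intro t m k0 k2 k4 k5 k1 b c hb hr ht
    rcases brow_upr h hb hρ hr with rfl | ⟨rfl, h9⟩ | ⟨rfl, -⟩
    · rcases hb with ⟨-, -, hc⟩ | ⟨h8, -⟩
      · interval_cases c
        · rw [a0] at ht
          exact (k0 ht).2
        · rw [a1] at ht
          exact (k2 ht).2.2
        · rw [a2] at ht
          exact (k1 ht).2
      · exact absurd h8 (by norm_num)
    · exact absurd h9 hh'
    · rw [← hlk] at ht ⊢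
      rcases hb with ⟨h8, -⟩ | ⟨-, -, -, hc⟩
      · exact absurd h8 (by norm_num)
      · interval_cases c
        · rw [c0] at ht
          exact (k0 ht).1
        · rw [c1] at ht
          exact (k1 ht).1
        · rw [c2] at ht
          exact (k2 ht).1
        · rw [c3] at ht
          exact (k2 ht).2.1
        · rw [c4] at ht
          exact k4 ht
        · rw [c5] at ht
          exact k5 ht
  have eB : S.rB (S.upr ρ) = [((1, ρ), 0), ((5, l), 0)] := by
    unfold rB
    rw [hrole, if_neg (by norm_num), if_pos rfl, if_neg hh', ← hlk]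
  have eT : S.rT (S.upr ρ) = [((1, ρ), 2), ((5, l), 1)] := by
    unfold rT
    rw [hrole, if_neg (by norm_num), if_pos rfl, if_neg hh', ← hlk]
  have eC : S.rC (S.upr ρ) = [] := by
    unfold rC
    rw [hrole, if_neg (fun h1 => absurd h1.1 (by norm_num)), if_neg (fun h1 => hh' h1.2)]
  have eW : S.rW (S.upr ρ) = [.blk (1, ρ) 1, .blk (5, l) 3, .blk (5, l) 2] := by
    unfold rW
    rw [hrole, if_neg (by norm_num), if_pos rfl, if_neg hh', ← hlk]
  have hcol := r6b_col h (g := 5) (l := l) (Or.inr rfl) hρ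
  have b1 : ∀ c < 3, S.binB (1, ρ) c := fun c hc => r6_bin0 (by norm_num) hρ hc
  have b5 : ∀ c < 6, S.binB (5, l) c := fun c hc => r6_bin2 (by norm_num) (by norm_num) hl hc
  intro r hr
  unfold laneR at hr
  simp only [List.mem_cons, List.not_mem_nil, or_false] at hr
  rcases hr with rfl | rfl | rfl | rfl
  · rw [eB]
    refine r6_LR h hd hi le_rfl zero_le_one (Or.inl ⟨rfl, rfl⟩) ?_ ?_ ?_
    · simp only [bx, List.map_cons, List.map_nil]
      rw [List.pairwise_pair]
      exact r6_xx h hd (b1 0 (by norm_num)) (b5 0 (by norm_num)) hcol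
    · intro v hv
      simp only [List.mem_cons, List.not_mem_nil, or_false] at hv
      rcases hv with rfl | rfl
      · exact ⟨b1 0 (by norm_num), r0, a0⟩
      · exact ⟨b5 0 (by norm_num), r5, c0⟩
    · refine key 0 _ (fun _ => by simp) ?_ ?_ ?_ ?_ <;> intro e <;> exfalso <;> linarith
  · rw [eT]
    refine r6_LR h hd hi zero_le_one le_rfl (Or.inr ⟨rfl, rfl⟩) ?_ ?_ ?_
    · simp only [bx, List.map_cons, List.map_nil]
      rw [List.pairwise_pair]
      exact r6_xx h hd (b1 2 (by norm_num)) (b5 1 (by norm_num)) hcol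
    · intro v hv
      simp only [List.mem_cons, List.not_mem_nil, or_false] at hv
      rcases hv with rfl | rfl
      · exact ⟨b1 2 (by norm_num), r0, a2⟩
      · exact ⟨b5 1 (by norm_num), r5, c1⟩
    · refine key 1 _ ?_ ?_ ?_ ?_ (fun _ => by simp) <;> intro e <;> exfalso <;> linarith
  · rw [eC]
    exact r6_nil
  · rw [eW]
    have x1 := r6_xx h hd (b1 1 (by norm_num)) (b5 3 (by norm_num)) hcol
    have x2 := r6_xx h hd (b1 1 (by norm_num)) (b5 2 (by norm_num)) hcol
    have x3 : (d.pos S (.blk (5, l) 3)).1 < (d.pos S (.blk (5, l) 2)).1 := by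
      rw [r6_blk1, r6_blk1, e2, e3]
      linarith
    refine r6_W h hd hi (t := 1 - (d.gU l).b) (by linarith) (by linarith)
      (m := [((1, ρ), 1), ((5, l), 3), ((5, l), 2)]) rfl ?_ ?_ ?_
    · simp only [List.pairwise_cons, List.mem_cons, List.not_mem_nil, or_false, forall_eq_or_imp,
        forall_eq, List.Pairwise.nil, and_true, false_imp_iff, implies_true]
      exact ⟨⟨x1, x2⟩, x3⟩
    · intro v hv
      simp only [List.mem_cons, List.not_mem_nil, or_false] at hv
      rcases hv with rfl | rfl | rfl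
      · exact ⟨b1 1 (by norm_num), r0, a1⟩
      · exact ⟨b5 3 (by norm_num), r5, c3⟩
      · exact ⟨b5 2 (by norm_num), r5, c2⟩
    · refine key _ _ ?_ (fun _ => by simp) ?_ ?_ ?_ <;> intro e <;> exfalso <;> linarith

/-- unused lanes -/
theorem rows_unused (h : S.WF) (hd : DatOK S d) {i : ℕ} (hi : i < S.MM)
    (hr : (S.role i).1 = 0) : ∀ r ∈ S.laneR i, RowGood S d r := by
  have eB : S.rB i = [] := by
    unfold rB
    rw [hr, if_neg (by norm_num), if_neg (by norm_num)]
  have eT : S.rT i = [] := by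
    unfold rT
    rw [hr, if_neg (by norm_num), if_neg (by norm_num)]
  have eC : S.rC i = [] := by
    unfold rC
    rw [if_neg (fun h1 => by rw [hr] at h1; exact absurd h1.1 (by norm_num)),
      if_neg (fun h1 => by rw [hr] at h1; exact absurd h1.1 (by norm_num))]
  have eW : S.rW i = [] := by
    unfold rW
    rw [hr, if_neg (by norm_num), if_neg (by norm_num)]
  have hno : ∀ b c, S.binB b c → S.brow b ≠ i := by
    rintro ⟨g, x⟩ c hb rfl
    have key : (∃ ρ < S.R, S.brow (g, x) = S.low ρ) ∨ (∃ ρ < S.R, S.brow (g, x) = S.upr ρ) := by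
      unfold brow
      rcases hb with ⟨h1, h2, -⟩ | ⟨h1, h2, h3, -⟩
      · change g ≤ 1 at h1
        change x < S.R at h2
        have hg : g = 0 ∨ g = 1 := by omega
        rcases hg with rfl | rfl
        · left
          exact ⟨x, h2, by rw [if_pos rfl]⟩
        · right
          exact ⟨x, h2, by rw [if_neg (by norm_num), if_pos rfl]⟩
      · change 2 ≤ g at h1
        change g ≤ 5 at h2
        change x < 2 * S.K at h3
        have hg : g = 2 ∨ g = 3 ∨ g = 4 ∨ g = 5 := by omega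
        rcases hg with rfl | rfl | rfl | rfl
        · left
          exact ⟨_, loA_lt h h3, by
            rw [if_neg (by norm_num), if_neg (by norm_num), if_pos rfl]⟩
        · left
          exact ⟨_, loB_lt h h3, by
            rw [if_neg (by norm_num), if_neg (by norm_num), if_neg (by norm_num), if_pos rfl]⟩
        · right
          exact ⟨_, upA_lt h h3, by
            rw [if_neg (by norm_num), if_neg (by norm_num), if_neg (by norm_num),
              if_neg (by norm_num), if_pos rfl]⟩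
        · right
          exact ⟨_, upB_lt h h3, by
            rw [if_neg (by norm_num), if_neg (by norm_num), if_neg (by norm_num),
              if_neg (by norm_num), if_neg (by norm_num)]⟩
    rcases key with ⟨ρ, h1, h2⟩ | ⟨ρ, h1, h2⟩
    · rw [h2, role_low h h1] at hr
      exact absurd hr (by norm_num)
    · rw [h2, role_upr h h1] at hr
      exact absurd hr (by norm_num)
  intro r hr'
  unfold laneR at hr'
  simp only [List.mem_cons, List.not_mem_nil, or_false] at hr'
  rcases hr' with rfl | rfl | rfl | rfl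
  · rw [eB]
    refine r6_LR h hd hi le_rfl zero_le_one (Or.inl ⟨rfl, rfl⟩) List.Pairwise.nil ?_ ?_
    · intro v hv
      exact absurd hv List.not_mem_nil
    · intro b c h1 h2 _
      exact absurd h2 (hno b c h1)
  · rw [eT]
    refine r6_LR h hd hi zero_le_one le_rfl (Or.inr ⟨rfl, rfl⟩) List.Pairwise.nil ?_ ?_
    · intro v hv
      exact absurd hv List.not_mem_nil
    · intro b c h1 h2 _
      exact absurd h2 (hno b c h1)
  · rw [eC]
    exact r6_nil
  · rw [eW]
    exact r6_nil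

end Pool.Agent.H54R
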