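import Pool.Agent.Lib.H54R.RDefs
import Pool.Agent.Lib.H54R.R6
import Pool.Agent.Lib.H54R.R6B

/-!
# R6C: all row lines
-/

set_option autoImplicit false

namespace Pool.Agent.H54R

open RS

variable {S : RS} {d : Dat}

theorem r6c_mem {r : List Vx} (hr : r ∈ S.rows) : (∃ i ≤ S.MM, r = [.L (4 * i), .R (4 * i)]) ∨
    ∃ i < S.MM, r ∈ S.laneR i := by
  unfold rows at hr
  rw [List.mem_append, List.mem_map, List.mem_flatMap] at hr
  rcases hr with ⟨i, hi, rfl⟩ | ⟨i, hi, hr⟩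
  · rw [List.mem_range] at hi
    exact Or.inl ⟨i, by omega, rfl⟩
  · rw [List.mem_range] at hi
    exact Or.inr ⟨i, hi, hr⟩

theorem rows_good (h : S.WF) (hd : DatOK S d) : ∀ r ∈ S.rows, RowGood S d r := by
  intro r hr
  rcases r6c_mem hr with ⟨i, hi, rfl⟩ | ⟨i, hi, hr⟩
  · exact row_long h hd hi
  · have h1 := role_le S i
    have h2 : (S.role i).1 = 0 ∨ (S.role i).1 = 1 ∨ (S.role i).1 = 2 := by omega
    rcases h2 with h2 | h2 | h2
    · exact rows_unused h hd hi h2 r hr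
    · obtain ⟨h3, h4⟩ := role_one h (i := i) (ρ := (S.role i).2) (Prod.ext h2 rfl)
      rw [← h4] at hr
      cases hh : S.hatL (S.role i).2
      · exact rows_low h hd h3 hh r hr
      · exact rows_low_hat h hd h3 hh r hr
    · obtain ⟨h3, h4⟩ := role_two h (i := i) (ρ := (S.role i).2) (Prod.ext h2 rfl)
      rw [← h4] at hr
      cases hh : S.hatU (S.role i).2
      · exact rows_up h hd h3 hh r hr
      · exact rows_up_hat h hd h3 hh r hr

/-- the lane has a companion line -/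
def R6cHat (S : RS) (i : ℕ) : Prop :=
  ((S.role i).1 = 1 ∧ S.hatL (S.role i).2 = true) ∨
    ((S.role i).1 = 2 ∧ S.hatU (S.role i).2 = true)

theorem r6c_W (h : S.WF) (hd : DatOK S d) {i : ℕ} {v : Vx} (hv : v ∈ S.rW i)
    (hg : RowGood S d (S.rW i)) : ∃ t : ℝ, (d.pos S v).2 = 2 * (i : ℝ) + 1 / 2 + t ∧ 0 < t ∧ t < 1 ∧
      (R6cHat S i → t ≠ d.cc S i) := by
  have h1 := role_le S i
  have h2 : (S.role i).1 = 0 ∨ (S.role i).1 = 1 ∨ (S.role i).1 = 2 := by omega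
  rcases h2 with h2 | h2 | h2
  · exfalso
    unfold rW at hv
    rw [h2, if_neg (by norm_num), if_neg (by norm_num)] at hv
    exact absurd hv List.not_mem_nil
  · obtain ⟨h3, h4⟩ := role_one h (i := i) (ρ := (S.role i).2) (Prod.ext h2 rfl)
    obtain ⟨ρ, hρ⟩ : ∃ ρ, ρ = (S.role i).2 := ⟨_, rfl⟩
    rw [← hρ] at h3 h4
    have hm : Vx.blk (0, ρ) 1 ∈ S.rW i := by
      unfold rW
      rw [h2, if_pos rfl, ← hρ]
      split_ifs <;> simp
    have h5 := hg.2.1 v hv _ hm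
    have hh := height_low h hd h3
    refine ⟨d.hy S ρ, ?_, by linarith [hh.1, hh.2.1], hh.2.2.1, ?_⟩
    · rw [h5, r6_blk2, (r6_h0 ρ).2.1]
      have e : S.brow (0, ρ) = i := by
        unfold brow
        rw [if_pos rfl]
        exact h4
      rw [e]
    · intro hhat
      have hhL : S.hatL ρ = true := by
        rcases hhat with ⟨-, h6⟩ | ⟨h6, -⟩
        · rw [hρ]
          exact h6
        · omega
      have hg1 := (hd.lo _ (lkL_lt h h3)).g1
      have e1 : d.hy S ρ = (d.gL (lkL ρ)).y := by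
        unfold Dat.hy
        rw [if_pos hhL]
      have e2 : d.cc S i = (d.gL (lkL ρ)).y2 := by
        unfold Dat.cc
        rw [← hρ, if_pos ⟨h2, hhL⟩]
      rw [e1, e2]
      exact (by linarith [hg1.h7] : (d.gL (lkL ρ)).y2 < (d.gL (lkL ρ)).y).ne'
  · obtain ⟨h3, h4⟩ := role_two h (i := i) (ρ := (S.role i).2) (Prod.ext h2 rfl)
    obtain ⟨ρ, hρ⟩ : ∃ ρ, ρ = (S.role i).2 := ⟨_, rfl⟩
    rw [← hρ] at h3 h4
    have hm : Vx.blk (1, ρ) 1 ∈ S.rW i := by
      unfold rW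
      rw [h2, if_neg (by norm_num), if_pos rfl, ← hρ]
      split_ifs <;> simp
    have h5 := hg.2.1 v hv _ hm
    have hh := height_up h hd h3
    refine ⟨d.hz S ρ, ?_, hh.1, by linarith [hh.2.1, hh.2.2.1], ?_⟩
    · rw [h5, r6_blk2, (r6b_h1 ρ).2.1]
      have e : S.brow (1, ρ) = i := by
        unfold brow
        rw [if_neg (by norm_num), if_pos rfl]
        exact h4
      rw [e]
    · intro hhat
      have hhU : S.hatU ρ = true := by
        rcases hhat with ⟨h6, -⟩ | ⟨-, h6⟩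
        · omega
        · rw [hρ]
          exact h6
      have hg1 := (hd.up _ (lkU_lt h h3)).g1
      have e1 : d.hz S ρ = 1 - (d.gU (lkU ρ)).y := by
        unfold Dat.hz
        rw [if_pos hhU]
      have e2 : d.cc S i = 1 - (d.gU (lkU ρ)).y2 := by
        unfold Dat.cc
        rw [← hρ, if_neg (fun h7 => by omega), if_pos ⟨h2, hhU⟩]
      rw [e1, e2]
      have := hg1.h7
      intro e3
      linarith

theorem r6c_C (h : S.WF) (hd : DatOK S d) {i : ℕ} {v : Vx} (hv : v ∈ S.rC i)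
    (hg : RowGood S d (S.rC i)) : (d.pos S v).2 = 2 * (i : ℝ) + 1 / 2 + d.cc S i ∧ R6cHat S i := by
  by_cases c1 : (S.role i).1 = 1 ∧ S.hatL (S.role i).2 = true
  · have hm : Vx.R (4 * i + 2) ∈ S.rC i := by
      unfold rC
      rw [if_pos c1]
      simp
    rw [hg.2.1 v hv _ hm]
    exact ⟨r6_yb2 i, Or.inl c1⟩
  · by_cases c2 : (S.role i).1 = 2 ∧ S.hatU (S.role i).2 = true
    · have hm : Vx.L (4 * i + 2) ∈ S.rC i := by
        unfold rC
        rw [if_neg c1, if_pos c2]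
        simp
      rw [hg.2.1 v hv _ hm]
      exact ⟨r6_yb2 i, Or.inr c2⟩
    · exfalso
      unfold rC at hv
      rw [if_neg c1, if_neg c2] at hv
      exact absurd hv List.not_mem_nil

/-- the height of a row line determines it -/
theorem r6c_ht (h : S.WF) (hd : DatOK S d) {i : ℕ} {r : List Vx} (hr : r ∈ S.laneR i)
    (hg : RowGood S d r) {v : Vx} (hv : v ∈ r) : ∃ t : ℝ, (d.pos S v).2 = 2 * (i : ℝ) + 1 / 2 + t ∧
      0 ≤ t ∧ t ≤ 1 ∧ ((t = 0 ∧ r = (.L (4 * i + 1) :: bx (S.rB i) ++ [.R (4 * i + 1)] : List Vx)) ∨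
        (t = 1 ∧ r = (.L (4 * i + 3) :: bx (S.rT i) ++ [.R (4 * i + 3)] : List Vx)) ∨
        (0 < t ∧ t < 1 ∧ t = d.cc S i ∧ R6cHat S i ∧ r = S.rC i) ∨
        (0 < t ∧ t < 1 ∧ (R6cHat S i → t ≠ d.cc S i) ∧ r = S.rW i)) := by
  unfold laneR at hr
  simp only [List.mem_cons, List.not_mem_nil, or_false] at hr
  rcases hr with rfl | rfl | rfl | rfl
  · refine ⟨0, ?_, le_rfl, zero_le_one, Or.inl ⟨rfl, rfl⟩⟩
    rw [hg.2.1 v hv (.L (4 * i + 1)) (by simp)]
    exact r6_yb1 i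
  · refine ⟨1, ?_, zero_le_one, le_rfl, Or.inr (Or.inl ⟨rfl, rfl⟩)⟩
    rw [hg.2.1 v hv (.L (4 * i + 3)) (by simp)]
    exact r6_yb3 i
  · obtain ⟨h1, h2⟩ := r6c_C h hd hv hg
    have hc := cc01 h hd i
    exact ⟨_, h1, hc.1.le, hc.2.le, Or.inr (Or.inr (Or.inl ⟨hc.1, hc.2, rfl, h2, rfl⟩))⟩
  · obtain ⟨t, h1, h2, h3, h4⟩ := r6c_W h hd hv hg
    exact ⟨t, h1, h2.le, h3.le, Or.inr (Or.inr (Or.inr ⟨h2, h3, h4, rfl⟩))⟩

/-- a vertex is on at most one row line -/
theorem rows_disj (h : S.WF) (hd : DatOK S d) : ∀ r ∈ S.rows, ∀ r' ∈ S.rows, ∀ v ∈ r, v ∈ r' →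
    r = r' := by
  intro r hr r' hr' v hv hv'
  have g := rows_good h hd r hr
  have g' := rows_good h hd r' hr'
  have long : ∀ (i : ℕ) (v : Vx), v ∈ ([.L (4 * i), .R (4 * i)] : List Vx) →
      (d.pos S v).2 = 2 * (i : ℝ) := by
    intro i v hv
    have e1 : 4 * i / 4 = i := by omega
    have e2 : 4 * i % 4 = 0 := by omega
    have hyb : d.yb S (4 * i) = 2 * (i : ℝ) := by
      unfold Dat.yb
      rw [e1, e2, if_pos rfl, add_zero]
    simp only [List.mem_cons, List.not_mem_nil, or_false] at hv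
    rcases hv with rfl | rfl <;> exact hyb
  have mixed : ∀ (i j : ℕ) (t : ℝ), 0 ≤ t → t ≤ 1 → 2 * (i : ℝ) ≠ 2 * (j : ℝ) + 1 / 2 + t := by
    intro i j t t0 t1 e
    rcases lt_or_ge j i with h4 | h4
    · have : (j : ℝ) + 1 ≤ (i : ℝ) := by exact_mod_cast h4
      linarith
    · have : (i : ℝ) ≤ (j : ℝ) := by exact_mod_cast h4
      linarith
  rcases r6c_mem hr with ⟨i, hi, rfl⟩ | ⟨i, hi, hr⟩
  · rcases r6c_mem hr' with ⟨j, hj, rfl⟩ | ⟨j, hj, hr'⟩
    · have e := (long i v hv).symm.trans (long j v hv')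
      have e2 : i = j := by
        have : (i : ℝ) = j := by linarith
        exact_mod_cast this
      rw [e2]
    · obtain ⟨t, h1, t0, t1, -⟩ := r6c_ht h hd hr' g' hv'
      exact absurd ((long i v hv).symm.trans h1) (mixed i j t t0 t1)
  · rcases r6c_mem hr' with ⟨j, hj, rfl⟩ | ⟨j, hj, hr'⟩
    · obtain ⟨t, h1, t0, t1, -⟩ := r6c_ht h hd hr g hv
      exact absurd ((long j v hv').symm.trans h1) (mixed j i t t0 t1)
    · obtain ⟨t, h1, t0, t1, h2⟩ := r6c_ht h hd hr g hv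
      obtain ⟨s, h3, s0, s1, h4⟩ := r6c_ht h hd hr' g' hv'
      obtain ⟨e1, e2⟩ := r6_int t0 t1 s0 s1 (h1.symm.trans h3)
      subst e1
      subst e2
      rcases h2 with ⟨a1, a2⟩ | ⟨a1, a2⟩ | ⟨a1, a2, a3, a4, a5⟩ | ⟨a1, a2, a3, a4⟩
      · rcases h4 with ⟨b1, b2⟩ | ⟨b1, b2⟩ | ⟨b1, b2, b3, b4, b5⟩ | ⟨b1, b2, b3, b4⟩
        · rw [a2, b2]
        · exfalso
          linarith
        · exfalso
          linarith
        · exfalso
          linarith
      · rcases h4 with ⟨b1, b2⟩ | ⟨b1, b2⟩ | ⟨b1, b2, b3, b4, b5⟩ | ⟨b1, b2, b3, b4⟩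
        · exfalso
          linarith
        · rw [a2, b2]
        · exfalso
          linarith
        · exfalso
          linarith
      · rcases h4 with ⟨b1, b2⟩ | ⟨b1, b2⟩ | ⟨b1, b2, b3, b4, b5⟩ | ⟨b1, b2, b3, b4⟩
        · exfalso
          linarith
        · exfalso
          linarith
        · rw [a5, b5]
        · exact absurd a3 (b3 a4)
      · rcases h4 with ⟨b1, b2⟩ | ⟨b1, b2⟩ | ⟨b1, b2, b3, b4, b5⟩ | ⟨b1, b2, b3, b4⟩
        · exfalso
          linarith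
        · exfalso
          linarith
        · exact absurd b3 (a3 b4)
        · rw [a4, b4]

end Pool.Agent.H54R
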