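import Pool.Agent.Lib.H54R.RDefs
import Pool.Agent.Lib.H54R.R4
import Pool.Agent.Lib.H54R.R5
import Pool.Agent.Lib.H54R.R5B

/-!
# R7: column lines of the link lanes
-/

set_option autoImplicit false

namespace Pool.Agent.H54R

open RS

variable {S : RS} {d : Dat}

theorem r7_big : (0 : ℝ) < S.big := by
  unfold big
  positivity

theorem r7_brow_lt (h : S.WF) {b : ℕ × ℕ} {c : ℕ} (hb : S.binB b c) : S.brow b < S.MM := by
  rcases r5b_cases hb with ⟨x, hx, rfl⟩ | ⟨x, hx, rfl⟩ | ⟨x, hx, rfl⟩ | ⟨x, hx, rfl⟩ | ⟨x, hx, rfl⟩ |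
    ⟨x, hx, rfl⟩
  · rw [r5b_row0]
    exact low_lt h hx
  · rw [r5b_row1]
    exact upr_lt h hx
  · rw [r5b_row2]
    exact low_lt h (loA_lt h hx)
  · rw [r5b_row3]
    exact low_lt h (loB_lt h hx)
  · rw [r5b_row4]
    exact upr_lt h (upA_lt h hx)
  · rw [r5b_row5]
    exact upr_lt h (upB_lt h hx)

/-- General form for column lines made of boundary vertices and block vertices. -/
theorem r7_gen (h : S.WF) (hd : DatOK S d) {r : List Vx} {X : ℝ} (h0 : 0 ≤ X)
    (h1 : X ≤ 2 * S.NN) (hx : ∀ v ∈ r, (d.pos S v).1 = X) (hV : ∀ v ∈ r, S.isV v)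
    (hf : ∀ v ∈ r, (∃ k, v = .B k) ∨ (∃ k, v = .T k) ∨ ∃ b c, v = .blk b c)
    (hs : r.Pairwise fun v w => (d.pos S v).2 < (d.pos S w).2)
    (hb : ∀ b c, S.binB b c → (d.pos S (.blk b c)).1 = X →
      (∃ a ∈ r, (d.pos S a).2 ≤ (d.pos S (.blk b c)).2) →
      (∃ a ∈ r, (d.pos S (.blk b c)).2 ≤ (d.pos S a).2) → Vx.blk b c ∈ r) : ColGood S d r := by
  refine ⟨hs, fun v hv w hw => (hx v hv).trans (hx w hw).symm, hV, ?_⟩
  rintro v hv ⟨a, ha, b, hb', e1, e2, e3⟩
  rw [hx a ha] at e3
  have hbig := r7_big (S := S)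
  have hBk : ∀ k, k ≤ 4 * S.NN → d.xb S k = X → (∃ a ∈ r, (d.pos S a).2 ≤ -1) → Vx.B k ∈ r := by
    rintro k hk hxk ⟨a, ha, ha'⟩
    rcases hf a ha with ⟨k', rfl⟩ | ⟨k', rfl⟩ | ⟨b, c, rfl⟩
    · have h2 : d.xb S k' = X := hx _ ha
      have h3 : k' ≤ 4 * S.NN := hV _ ha
      rcases lt_trichotomy k k' with h4 | h4 | h4
      · have := xb_lt h hd h4 h3
        linarith
      · rw [h4]
        exact ha
      · have := xb_lt h hd h4 hk
        linarith
    · have h2 : (2 * S.MM + 1 : ℝ) ≤ -1 := ha'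
      have h3 : (0 : ℝ) ≤ S.MM := Nat.cast_nonneg _
      linarith
    · have h2 := (blk_mem h hd (hV _ ha)).2.2.1
      have h3 : (0 : ℝ) ≤ S.brow b := Nat.cast_nonneg _
      linarith
  have hTk : ∀ k, k ≤ 4 * S.NN → d.xb S k = X → (∃ a ∈ r, (2 * S.MM + 1 : ℝ) ≤ (d.pos S a).2) →
      Vx.T k ∈ r := by
    rintro k hk hxk ⟨a, ha, ha'⟩
    rcases hf a ha with ⟨k', rfl⟩ | ⟨k', rfl⟩ | ⟨b, c, rfl⟩
    · have h2 : (2 * S.MM + 1 : ℝ) ≤ -1 := ha'
      have h3 : (0 : ℝ) ≤ S.MM := Nat.cast_nonneg _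
      linarith
    · have h2 : d.xb S k' = X := hx _ ha
      have h3 : k' ≤ 4 * S.NN := hV _ ha
      rcases lt_trichotomy k k' with h4 | h4 | h4
      · have := xb_lt h hd h4 h3
        linarith
      · rw [h4]
        exact ha
      · have := xb_lt h hd h4 hk
        linarith
    · have h2 := (blk_mem h hd (hV _ ha)).2.2.2
      have h3 : (S.brow b : ℝ) + 1 ≤ S.MM := by exact_mod_cast r7_brow_lt h (hV _ ha)
      linarith
  have hM : (0 : ℝ) ≤ S.MM := Nat.cast_nonneg _
  have hN : (0 : ℝ) ≤ S.NN := Nat.cast_nonneg _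
  have hyl : ∀ a ∈ r, -1 ≤ (d.pos S a).2 := by
    intro a ha
    rcases hf a ha with ⟨k', rfl⟩ | ⟨k', rfl⟩ | ⟨b, c, rfl⟩
    · exact le_rfl
    · have h2 : (d.pos S (.T k')).2 = 2 * S.MM + 1 := rfl
      rw [h2]
      linarith
    · have h2 := (blk_mem h hd (hV _ ha)).2.2.1
      have h3 : (0 : ℝ) ≤ S.brow b := Nat.cast_nonneg _
      linarith
  have hyu : ∀ a ∈ r, (d.pos S a).2 ≤ 2 * S.MM + 1 := by
    intro a ha
    rcases hf a ha with ⟨k', rfl⟩ | ⟨k', rfl⟩ | ⟨b, c, rfl⟩
    · have h2 : (d.pos S (.B k')).2 = -1 := rfl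
      rw [h2]
      linarith
    · exact le_rfl
    · have h2 := (blk_mem h hd (hV _ ha)).2.2.2
      have h3 : (S.brow b : ℝ) + 1 ≤ S.MM := by exact_mod_cast r7_brow_lt h (hV _ ha)
      linarith
  have hal := hyl a ha
  have hbu := hyu b hb'
  cases v with
  | L k =>
    have e4 : (-1 : ℝ) = X := e3
    linarith
  | R k =>
    have e4 : (2 * S.NN + 1 : ℝ) = X := e3
    linarith
  | B k => exact hBk k hv e3 ⟨a, ha, e1⟩
  | T k => exact hTk k hv e3 ⟨b, hb', e2⟩
  | hub i =>
    exfalso
    have hbig2 : S.big = 2 * S.NN + 2 * S.MM + 2 := rfl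
    have f1 : -1 ≤ (d.pos S (.hub i)).2 := hal.trans e1
    have f2 : (d.pos S (.hub i)).2 ≤ 2 * S.MM + 1 := e2.trans hbu
    clear e1 e2
    simp only [Dat.pos] at f1 f2 e3
    split_ifs at f1 f2 e3
    all_goals first | linarith | (simp only at f1 f2 e3; linarith)
  | blk b c => exact hb b c hv e3 ⟨_, ha, e1⟩ ⟨_, hb', e2⟩

theorem r7_lt_xb (h : S.WF) (hd : DatOK S d) {k k' : ℕ} (hk : k ≤ 4 * S.NN)
    (hk' : k' ≤ 4 * S.NN) (e : d.xb S k = d.xb S k') : k = k' := by
  rcases lt_trichotomy k k' with h4 | h4 | h4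
  · have := xb_lt h hd h4 hk'
    linarith
  · exact h4
  · have := xb_lt h hd h4 hk
    linarith

theorem r7_xb0 (j : ℕ) : d.xb S (4 * j) = 2 * j := by
  have e1 : 4 * j / 4 = j := by omega
  have e2 : 4 * j % 4 = 0 := by omega
  unfold Dat.xb
  rw [e1, if_pos e2, add_zero]

theorem r7_xb1 (j : ℕ) : d.xb S (4 * j + 1) = 2 * j + 1 / 2 := by
  have e1 : (4 * j + 1) / 4 = j := by omega
  unfold Dat.xb
  rw [e1, if_neg (by omega), if_pos (by omega)]

theorem r7_xb2 (j : ℕ) : d.xb S (4 * j + 2) = 2 * j + (1 / 2 + d.dd S j) := by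
  have e1 : (4 * j + 2) / 4 = j := by omega
  unfold Dat.xb
  rw [e1, if_neg (by omega), if_neg (by omega), if_pos (by omega)]

theorem r7_xb3 (j : ℕ) : d.xb S (4 * j + 3) = 2 * j + 3 / 2 := by
  have e1 : (4 * j + 3) / 4 = j := by omega
  unfold Dat.xb
  rw [e1, if_neg (by omega), if_neg (by omega), if_neg (by omega)]

theorem col_long (h : S.WF) (hd : DatOK S d) {j : ℕ} (hj : j ≤ S.NN) :
    ColGood S d [.B (4 * j), .T (4 * j)] := by
  have hjr : (j : ℝ) ≤ S.NN := by exact_mod_cast hj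
  refine r7_gen h hd (X := 2 * j) (by positivity) (by linarith) ?_ ?_ ?_ ?_ ?_
  · intro v hv
    simp only [List.mem_cons, List.not_mem_nil, or_false] at hv
    rcases hv with rfl | rfl <;> exact r7_xb0 j
  · intro v hv
    simp only [List.mem_cons, List.not_mem_nil, or_false] at hv
    rcases hv with rfl | rfl
    · change 4 * j ≤ 4 * S.NN
      omega
    · change 4 * j ≤ 4 * S.NN
      omega
  · intro v hv
    simp only [List.mem_cons, List.not_mem_nil, or_false] at hv
    rcases hv with rfl | rfl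
    · exact Or.inl ⟨_, rfl⟩
    · exact Or.inr (Or.inl ⟨_, rfl⟩)
  · simp only [List.pairwise_cons, List.mem_cons, List.not_mem_nil, or_false, forall_eq,
      IsEmpty.forall_iff, implies_true, List.Pairwise.nil, and_true]
    change (-1 : ℝ) < 2 * S.MM + 1
    have h3 : (0 : ℝ) ≤ S.MM := Nat.cast_nonneg _
    linarith
  · intro b c hb e _ _
    exfalso
    obtain ⟨h1, h2, -, -⟩ := blk_mem h hd hb
    rw [e] at h1 h2
    rcases lt_or_ge j (S.bcol b + 1) with h3 | h3
    · have h4 : (j : ℝ) ≤ S.bcol b := by exact_mod_cast Nat.lt_succ_iff.1 h3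
      linarith
    · have h4 : (S.bcol b : ℝ) + 1 ≤ j := by exact_mod_cast h3
      linarith

/-- Column lines in the lane `j` at the local coordinate `t`. -/
theorem r7_lane (h : S.WF) (hd : DatOK S d) {r : List Vx} {j : ℕ} (hj : j < S.NN) {t : ℝ}
    (h0 : 0 ≤ t) (h1 : t ≤ 1)
    (hx : ∀ v ∈ r, (∃ k, v = .B k ∧ k ≤ 4 * S.NN ∧ d.xb S k = 2 * j + 1 / 2 + t) ∨
      (∃ k, v = .T k ∧ k ≤ 4 * S.NN ∧ d.xb S k = 2 * j + 1 / 2 + t) ∨
      ∃ b c, v = .blk b c ∧ S.binB b c ∧ S.bcol b = j ∧ (d.loc S b c).1 = t)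
    (hs : r.Pairwise fun v w => (d.pos S v).2 < (d.pos S w).2)
    (hb : ∀ b c, S.binB b c → S.bcol b = j → (d.loc S b c).1 = t → Vx.blk b c ∈ r) :
    ColGood S d r := by
  have hjr : (j : ℝ) + 1 ≤ S.NN := by exact_mod_cast hj
  have hj0 : (0 : ℝ) ≤ j := Nat.cast_nonneg _
  refine r7_gen h hd (X := 2 * j + 1 / 2 + t) (by linarith) (by linarith) ?_ ?_ ?_ hs ?_
  · intro v hv
    rcases hx v hv with ⟨k, rfl, -, e⟩ | ⟨k, rfl, -, e⟩ | ⟨b, c, rfl, -, e1, e2⟩
    · exact e
    · exact e
    · change 2 * (S.bcol b : ℝ) + 1 / 2 + (d.loc S b c).1 = _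
      rw [e1, e2]
  · intro v hv
    rcases hx v hv with ⟨k, rfl, e, -⟩ | ⟨k, rfl, e, -⟩ | ⟨b, c, rfl, e, -, -⟩
    · exact e
    · exact e
    · exact e
  · intro v hv
    rcases hx v hv with ⟨k, rfl, -, -⟩ | ⟨k, rfl, -, -⟩ | ⟨b, c, rfl, -, -, -⟩
    · exact Or.inl ⟨_, rfl⟩
    · exact Or.inr (Or.inl ⟨_, rfl⟩)
    · exact Or.inr (Or.inr ⟨_, _, rfl⟩)
  · intro b c hbin e _ _
    have e' : 2 * (S.bcol b : ℝ) + 1 / 2 + (d.loc S b c).1 = 2 * (j : ℝ) + 1 / 2 + t := e
    obtain ⟨l1, l2, -, -⟩ := loc01 h hd hbin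
    obtain ⟨e1, e2⟩ := r5b_eq l1 l2 h0 h1 e'
    exact hb b c hbin e1 e2

theorem r7_y (b : ℕ × ℕ) (c : ℕ) :
    (d.pos S (.blk b c)).2 = 2 * (S.brow b : ℝ) + 1 / 2 + (d.loc S b c).2 := rfl
theorem r7_yB (k : ℕ) : (d.pos S (.B k)).2 = -1 := rfl
theorem r7_yT (k : ℕ) : (d.pos S (.T k)).2 = 2 * S.MM + 1 := rfl

/-- the coordinates of the vertices of the lower gates -/
theorem r7_loc2 (j : ℕ) :
    d.loc S (2, j) 0 = ((d.gL j).c, 0) ∧ d.loc S (2, j) 1 = (1, (d.gL j).yc) ∧
    d.loc S (2, j) 2 = ((d.gL j).f, (d.gL j).y2) ∧ d.loc S (2, j) 3 = ((d.gL j).f, (d.gL j).yu) ∧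
    d.loc S (2, j) 4 = ((d.gL j).xw, 1) ∧ d.loc S (2, j) 5 = ((d.gL j).px, (d.gL j).y) := by
  simp [Dat.loc, gateP]

theorem r7_loc3 (j : ℕ) :
    d.loc S (3, j) 0 = (0, 1) ∧ d.loc S (3, j) 1 = ((d.gL j).yc', 0) ∧
    d.loc S (3, j) 2 = ((d.gL j).c, (d.gL j).b) ∧ d.loc S (3, j) 3 = ((d.gL j).yu', (d.gL j).b) ∧
    d.loc S (3, j) 4 = (1, 1 - (d.gL j).xw') ∧ d.loc S (3, j) 5 = ((d.gL j).f, 1 - (d.gL j).px') := by
  simp [Dat.loc, gateP, vT]

theorem r7_loc4 (j : ℕ) :
    d.loc S (4, j) 0 = (1 - (d.gU j).c, 1) ∧ d.loc S (4, j) 1 = (0, 1 - (d.gU j).yc) ∧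
    d.loc S (4, j) 2 = (1 - (d.gU j).f, 1 - (d.gU j).y2) ∧
    d.loc S (4, j) 3 = (1 - (d.gU j).f, 1 - (d.gU j).yu) ∧
    d.loc S (4, j) 4 = (1 - (d.gU j).xw, 0) ∧
    d.loc S (4, j) 5 = (1 - (d.gU j).px, 1 - (d.gU j).y) := by
  simp [Dat.loc, gateP, rt2]

theorem r7_loc5 (j : ℕ) :
    d.loc S (5, j) 0 = (1, 0) ∧ d.loc S (5, j) 1 = (1 - (d.gU j).yc', 1) ∧
    d.loc S (5, j) 2 = (1 - (d.gU j).c, 1 - (d.gU j).b) ∧
    d.loc S (5, j) 3 = (1 - (d.gU j).yu', 1 - (d.gU j).b) ∧
    d.loc S (5, j) 4 = (0, (d.gU j).xw') ∧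
    d.loc S (5, j) 5 = (1 - (d.gU j).f, (d.gU j).px') := by
  simp [Dat.loc, gateP, vT, rt2]

theorem r7_bin {g l c : ℕ} (hl : l < 2 * S.K) (hg : 2 ≤ g) (hg' : g ≤ 5) (hc : c < 6) :
    S.binB (g, l) c := Or.inr ⟨hg, hg', hl, hc⟩

theorem r7_c6 {g l c : ℕ} (hg : 2 ≤ g) (hb : S.binB (g, l) c) : c < 6 := by
  rcases hb with ⟨h1, -, -⟩ | ⟨-, -, -, h1⟩
  · change g ≤ 1 at h1
    omega
  · exact h1

theorem r7_rd {j : ℕ} (h : S.WF) (hj : j < 2 * S.K ∨ S.rlane 0 ≤ j) (k : ℕ) : S.rd k j = [] := by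
  rcases hl : S.rd k j with _ | ⟨a, t⟩
  · rfl
  · exfalso
    have ha : a ∈ S.rd k j := by rw [hl]; exact List.mem_cons_self
    obtain ⟨h1, -, h3⟩ := mem_rd.1 ha
    have h4 := lane_ge h h1
    have h5 := lane_lt h h1
    omega

theorem r7_cX {j : ℕ} (h : S.WF) (hj : j < 2 * S.K ∨ S.rlane 0 ≤ j) : S.cX j = [] := by
  unfold cX
  rw [r7_rd h hj, r7_rd h hj, r7_rd h hj, r7_rd h hj]
  rfl

theorem r7_nil : ColGood S d [] := by
  refine ⟨List.Pairwise.nil, ?_, ?_, ?_⟩
  · intro v hv
    simp at hv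
  · intro v hv
    simp at hv
  · rintro v - ⟨a, ha, -⟩
    simp at ha

/-- left link lane: `Lf: B, (3,j) 0, T`; `Rt: B, (2,j) 1, (3,j) 4, T`; `C: B, (2,j) 0, (3,j) 2`;
`f: (2,j) 2, (2,j) 3, (3,j) 5` -/
theorem cols_left (h : S.WF) (hd : DatOK S d) {j : ℕ} (hj : j < 2 * S.K) :
    ∀ r ∈ S.laneC j, ColGood S d r := by
  have hjN : j < S.NN := by
    unfold NN
    omega
  have hg := hd.lo j hj
  obtain ⟨q0, q1, q2, q3, q4, q5⟩ := r7_loc2 (S := S) (d := d) j
  obtain ⟨p0, p1, p2, p3, p4, p5⟩ := r7_loc3 (S := S) (d := d) j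
  have G1 := hg.g1
  have G2 := hg.g2
  rw [← hg.hb] at G2
  have hc := hg.hc
  have a1 := G1.h1
  have a2 := G1.h2
  have a3 := G1.h3
  have a4 := G1.h4
  have a5 := G1.h5
  have a6 := G1.h6
  have a7 := G1.h7
  have a8 := G1.h8
  have a9 := G1.h9
  have b1 := G2.h1
  have b2 := G2.h2
  have b3 := G2.h3
  have b4 := G2.h4
  have b5 := G2.h5
  have b6 := G2.h6
  have b7 := G2.h7
  have b8 := G2.h8
  have b9 := G2.h9
  have r2 : S.brow (2, j) = S.low (S.loA j) := r5b_row2 j
  have r3 : S.brow (3, j) = S.low (S.loB j) := r5b_row3 j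
  have hr : (S.low (S.loA j) : ℝ) + 1 ≤ S.low (S.loB j) := by exact_mod_cast loA_lt_loB h hj
  have hM : (S.low (S.loB j) : ℝ) + 1 ≤ S.MM := by exact_mod_cast low_lt h (loB_lt h hj)
  have hA0 : (0 : ℝ) ≤ S.low (S.loA j) := Nat.cast_nonneg _
  have hdd : d.dd S j = (d.gL j).c := by
    unfold Dat.dd
    rw [if_pos hj]
  have hin2 : ∀ c, c < 6 → S.binB (2, j) c := fun c hc => r7_bin hj le_rfl (by norm_num) hc
  have hin3 : ∀ c, c < 6 → S.binB (3, j) c := fun c hc => r7_bin hj (by norm_num) (by norm_num) hc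
  -- completeness
  have key : ∀ (r : List Vx) (t : ℝ), (∀ c, c < 6 → (d.loc S (2, j) c).1 = t → Vx.blk (2, j) c ∈ r) →
      (∀ c, c < 6 → (d.loc S (3, j) c).1 = t → Vx.blk (3, j) c ∈ r) →
      ∀ b c, S.binB b c → S.bcol b = j → (d.loc S b c).1 = t → Vx.blk b c ∈ r := by
    intro r t k1 k2 b c hb e et
    rcases bcol_left h hb hj e with rfl | rfl
    · exact k1 c (r7_c6 le_rfl hb) et
    · exact k2 c (r7_c6 (by norm_num) hb) et
  intro r hr'
  unfold laneC at hr'
  simp only [List.mem_cons, List.not_mem_nil, or_false] at hr'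
  rcases hr' with rfl | rfl | rfl | rfl | rfl
  · have e1 : S.cL j = [((3, j), 0)] := by
      unfold cL
      rw [if_pos hj]
    rw [e1]
    refine r7_lane h hd hjN (t := 0) le_rfl zero_le_one ?_ ?_ (key _ _ ?_ ?_)
    · intro v hv
      simp only [bx, List.map_cons, List.map_nil, List.cons_append, List.nil_append, List.mem_cons,
        List.not_mem_nil, or_false] at hv
      rcases hv with rfl | rfl | rfl
      · exact Or.inl ⟨_, rfl, by omega, by rw [r7_xb1]; ring⟩
      · exact Or.inr (Or.inr ⟨_, _, rfl, hin3 0 (by norm_num), r5b_col3 j, by rw [p0]⟩)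
      · exact Or.inr (Or.inl ⟨_, rfl, by omega, by rw [r7_xb1]; ring⟩)
    · simp only [bx, List.map_cons, List.map_nil, List.cons_append, List.nil_append,
        List.pairwise_cons, List.mem_cons, List.not_mem_nil, or_false, forall_eq_or_imp, forall_eq,
        IsEmpty.forall_iff, implies_true, List.Pairwise.nil, and_true, r7_y, r7_yB, r7_yT, r3, p0]
      refine ⟨⟨?_, ?_⟩, ?_⟩ <;> linarith
    · intro c hc' e
      exfalso
      interval_cases c
      · rw [q0] at e; simp only at e; linarith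
      · rw [q1] at e; simp only at e; linarith
      · rw [q2] at e; simp only at e; linarith
      · rw [q3] at e; simp only at e; linarith
      · rw [q4] at e; simp only at e; linarith
      · rw [q5] at e; simp only at e; linarith
    · intro c hc' e
      interval_cases c
      · simp [bx]
      · rw [p1] at e; simp only at e; linarith
      · rw [p2] at e; simp only at e; linarith
      · rw [p3] at e; simp only at e; linarith
      · rw [p4] at e; simp only at e; linarith
      · rw [p5] at e; simp only at e; linarith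
  · have e1 : S.cR j = [((2, j), 1), ((3, j), 4)] := by
      unfold cR
      rw [if_pos hj]
    rw [e1]
    refine r7_lane h hd hjN (t := 1) zero_le_one le_rfl ?_ ?_ (key _ _ ?_ ?_)
    · intro v hv
      simp only [bx, List.map_cons, List.map_nil, List.cons_append, List.nil_append, List.mem_cons,
        List.not_mem_nil, or_false] at hv
      rcases hv with rfl | rfl | rfl | rfl
      · exact Or.inl ⟨_, rfl, by omega, by rw [r7_xb3]; ring⟩
      · exact Or.inr (Or.inr ⟨_, _, rfl, hin2 1 (by norm_num), r5b_col2 j, by rw [q1]⟩)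
      · exact Or.inr (Or.inr ⟨_, _, rfl, hin3 4 (by norm_num), r5b_col3 j, by rw [p4]⟩)
      · exact Or.inr (Or.inl ⟨_, rfl, by omega, by rw [r7_xb3]; ring⟩)
    · simp only [bx, List.map_cons, List.map_nil, List.cons_append, List.nil_append,
        List.pairwise_cons, List.mem_cons, List.not_mem_nil, or_false, forall_eq_or_imp, forall_eq,
        IsEmpty.forall_iff, implies_true, List.Pairwise.nil, and_true, r7_y, r7_yB, r7_yT, r2, r3,
        q1, p4]
      refine ⟨⟨?_, ?_, ?_⟩, ⟨?_, ?_⟩, ?_⟩ <;> linarith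
    · intro c hc' e
      interval_cases c
      · rw [q0] at e; simp only at e; linarith
      · simp [bx]
      · rw [q2] at e; simp only at e; linarith
      · rw [q3] at e; simp only at e; linarith
      · rw [q4] at e; simp only at e; linarith
      · rw [q5] at e; simp only at e; linarith
    · intro c hc' e
      interval_cases c
      · rw [p0] at e; simp only at e; linarith
      · rw [p1] at e; simp only at e; linarith
      · rw [p2] at e; simp only at e; linarith
      · rw [p3] at e; simp only at e; linarith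
      · simp [bx]
      · rw [p5] at e; simp only at e; linarith
  · have e1 : S.cC j = [.B (4 * j + 2), .blk (2, j) 0, .blk (3, j) 2] := by
      unfold cC
      rw [if_pos hj]
    rw [e1]
    refine r7_lane h hd hjN (t := (d.gL j).c) hc.le (by linarith) ?_ ?_ (key _ _ ?_ ?_)
    · intro v hv
      simp only [List.mem_cons, List.not_mem_nil, or_false] at hv
      rcases hv with rfl | rfl | rfl
      · exact Or.inl ⟨_, rfl, by omega, by rw [r7_xb2, hdd]; ring⟩
      · exact Or.inr (Or.inr ⟨_, _, rfl, hin2 0 (by norm_num), r5b_col2 j, by rw [q0]⟩)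
      · exact Or.inr (Or.inr ⟨_, _, rfl, hin3 2 (by norm_num), r5b_col3 j, by rw [p2]⟩)
    · simp only [List.pairwise_cons, List.mem_cons, List.not_mem_nil, or_false, forall_eq_or_imp,
        forall_eq, IsEmpty.forall_iff, implies_true, List.Pairwise.nil, and_true, r7_y, r7_yB,
        r2, r3, q0, p2]
      refine ⟨⟨?_, ?_⟩, ?_⟩ <;> linarith
    · intro c hc' e
      interval_cases c
      · simp
      · rw [q1] at e; simp only at e; linarith
      · rw [q2] at e; simp only at e; linarith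
      · rw [q3] at e; simp only at e; linarith
      · rw [q4] at e; simp only at e; linarith
      · rw [q5] at e; simp only at e; linarith
    · intro c hc' e
      interval_cases c
      · rw [p0] at e; simp only at e; linarith
      · rw [p1] at e; simp only at e; linarith
      · simp
      · rw [p3] at e; simp only at e; linarith
      · rw [p4] at e; simp only at e; linarith
      · rw [p5] at e; simp only at e; linarith
  · have e1 : S.cf j = [.blk (2, j) 2, .blk (2, j) 3, .blk (3, j) 5] := by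
      unfold cf
      rw [if_pos hj]
    rw [e1]
    refine r7_lane h hd hjN (t := (d.gL j).f) (by linarith) (by linarith) ?_ ?_ (key _ _ ?_ ?_)
    · intro v hv
      simp only [List.mem_cons, List.not_mem_nil, or_false] at hv
      rcases hv with rfl | rfl | rfl
      · exact Or.inr (Or.inr ⟨_, _, rfl, hin2 2 (by norm_num), r5b_col2 j, by rw [q2]⟩)
      · exact Or.inr (Or.inr ⟨_, _, rfl, hin2 3 (by norm_num), r5b_col2 j, by rw [q3]⟩)
      · exact Or.inr (Or.inr ⟨_, _, rfl, hin3 5 (by norm_num), r5b_col3 j, by rw [p5]⟩)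
    · simp only [List.pairwise_cons, List.mem_cons, List.not_mem_nil, or_false, forall_eq_or_imp,
        forall_eq, IsEmpty.forall_iff, implies_true, List.Pairwise.nil, and_true, r7_y,
        r2, r3, q2, q3, p5]
      refine ⟨⟨?_, ?_⟩, ?_⟩ <;> linarith
    · intro c hc' e
      interval_cases c
      · rw [q0] at e; simp only at e; linarith
      · rw [q1] at e; simp only at e; linarith
      · simp
      · simp
      · rw [q4] at e; simp only at e; linarith
      · rw [q5] at e; simp only at e; linarith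
    · intro c hc' e
      interval_cases c
      · rw [p0] at e; simp only at e; linarith
      · rw [p1] at e; simp only at e; linarith
      · rw [p2] at e; simp only at e; linarith
      · rw [p3] at e; simp only at e; linarith
      · rw [p4] at e; simp only at e; linarith
      · simp
  · rw [r7_cX h (Or.inl hj)]
    exact r7_nil

theorem cols_right (h : S.WF) (hd : DatOK S d) {l : ℕ} (hl : l < 2 * S.K) :
    ∀ r ∈ S.laneC (S.rlane l), ColGood S d r := by
  have hjN : S.rlane l < S.NN := rlane_lt h hl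
  have hn : ¬ S.rlane l < 2 * S.K := by
    unfold rlane
    omega
  have hp : S.rlane 0 ≤ S.rlane l := by
    unfold rlane
    omega
  have hs : S.rlane l - S.rlane 0 = l := by
    unfold rlane
    omega
  have hg := hd.up l hl
  obtain ⟨q0, q1, q2, q3, q4, q5⟩ := r7_loc4 (S := S) (d := d) l
  obtain ⟨p0, p1, p2, p3, p4, p5⟩ := r7_loc5 (S := S) (d := d) l
  have G1 := hg.g1
  have G2 := hg.g2
  rw [← hg.hb] at G2
  have hc := hg.hc
  have a1 := G1.h1
  have a2 := G1.h2
  have a3 := G1.h3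
  have a4 := G1.h4
  have a5 := G1.h5
  have a6 := G1.h6
  have a7 := G1.h7
  have a8 := G1.h8
  have a9 := G1.h9
  have b1 := G2.h1
  have b2 := G2.h2
  have b3 := G2.h3
  have b4 := G2.h4
  have b5 := G2.h5
  have b6 := G2.h6
  have b7 := G2.h7
  have b8 := G2.h8
  have b9 := G2.h9
  have r4 : S.brow (4, l) = S.upr (S.upA l) := r5b_row4 l
  have r5 : S.brow (5, l) = S.upr (S.upB l) := r5b_row5 l
  have hr : (S.upr (S.upB l) : ℝ) + 1 ≤ S.upr (S.upA l) := by exact_mod_cast upB_lt_upA h hl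
  have hM : (S.upr (S.upA l) : ℝ) + 1 ≤ S.MM := by exact_mod_cast upr_lt h (upA_lt h hl)
  have hA0 : (0 : ℝ) ≤ S.upr (S.upB l) := Nat.cast_nonneg _
  have hdd : d.dd S (S.rlane l) = 1 - (d.gU l).c := by
    unfold Dat.dd
    rw [if_neg hn, if_pos hp, hs]
  have hin4 : ∀ c, c < 6 → S.binB (4, l) c := fun c hc => r7_bin hl (by norm_num) (by norm_num) hc
  have hin5 : ∀ c, c < 6 → S.binB (5, l) c := fun c hc => r7_bin hl (by norm_num) (by norm_num) hc
  have key : ∀ (r : List Vx) (t : ℝ), (∀ c, c < 6 → (d.loc S (4, l) c).1 = t → Vx.blk (4, l) c ∈ r) →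
      (∀ c, c < 6 → (d.loc S (5, l) c).1 = t → Vx.blk (5, l) c ∈ r) →
      ∀ b c, S.binB b c → S.bcol b = S.rlane l → (d.loc S b c).1 = t → Vx.blk b c ∈ r := by
    intro r t k1 k2 b c hb e et
    rcases bcol_right h hb hl e with rfl | rfl
    · exact k1 c (r7_c6 (by norm_num) hb) et
    · exact k2 c (r7_c6 (by norm_num) hb) et
  intro r hr'
  unfold laneC at hr'
  simp only [List.mem_cons, List.not_mem_nil, or_false] at hr'
  rcases hr' with rfl | rfl | rfl | rfl | rfl
  · have e1 : S.cL (S.rlane l) = [((5, l), 4), ((4, l), 1)] := by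
      unfold cL
      rw [if_neg hn, if_pos hp, hs]
    rw [e1]
    refine r7_lane h hd hjN (t := 0) le_rfl zero_le_one ?_ ?_ (key _ _ ?_ ?_)
    · intro v hv
      simp only [bx, List.map_cons, List.map_nil, List.cons_append, List.nil_append, List.mem_cons,
        List.not_mem_nil, or_false] at hv
      rcases hv with rfl | rfl | rfl | rfl
      · exact Or.inl ⟨_, rfl, by omega, by rw [r7_xb1]; ring⟩
      · exact Or.inr (Or.inr ⟨_, _, rfl, hin5 4 (by norm_num), r5b_col5 l, by rw [p4]⟩)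
      · exact Or.inr (Or.inr ⟨_, _, rfl, hin4 1 (by norm_num), r5b_col4 l, by rw [q1]⟩)
      · exact Or.inr (Or.inl ⟨_, rfl, by omega, by rw [r7_xb1]; ring⟩)
    · simp only [bx, List.map_cons, List.map_nil, List.cons_append, List.nil_append,
        List.pairwise_cons, List.mem_cons, List.not_mem_nil, or_false, forall_eq_or_imp, forall_eq,
        IsEmpty.forall_iff, implies_true, List.Pairwise.nil, and_true, r7_y, r7_yB, r7_yT, r4, r5,
        q1, p4]
      refine ⟨⟨?_, ?_, ?_⟩, ⟨?_, ?_⟩, ?_⟩ <;> linarith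
    · intro c hc' e
      interval_cases c
      · rw [q0] at e; simp only at e; linarith
      · simp [bx]
      · rw [q2] at e; simp only at e; linarith
      · rw [q3] at e; simp only at e; linarith
      · rw [q4] at e; simp only at e; linarith
      · rw [q5] at e; simp only at e; linarith
    · intro c hc' e
      interval_cases c
      · rw [p0] at e; simp only at e; linarith
      · rw [p1] at e; simp only at e; linarith
      · rw [p2] at e; simp only at e; linarith
      · rw [p3] at e; simp only at e; linarith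
      · simp [bx]
      · rw [p5] at e; simp only at e; linarith
  · have e1 : S.cR (S.rlane l) = [((5, l), 0)] := by
      unfold cR
      rw [if_neg hn, if_pos hp, hs]
    rw [e1]
    refine r7_lane h hd hjN (t := 1) zero_le_one le_rfl ?_ ?_ (key _ _ ?_ ?_)
    · intro v hv
      simp only [bx, List.map_cons, List.map_nil, List.cons_append, List.nil_append, List.mem_cons,
        List.not_mem_nil, or_false] at hv
      rcases hv with rfl | rfl | rfl
      · exact Or.inl ⟨_, rfl, by omega, by rw [r7_xb3]; ring⟩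
      · exact Or.inr (Or.inr ⟨_, _, rfl, hin5 0 (by norm_num), r5b_col5 l, by rw [p0]⟩)
      · exact Or.inr (Or.inl ⟨_, rfl, by omega, by rw [r7_xb3]; ring⟩)
    · simp only [bx, List.map_cons, List.map_nil, List.cons_append, List.nil_append,
        List.pairwise_cons, List.mem_cons, List.not_mem_nil, or_false, forall_eq_or_imp, forall_eq,
        IsEmpty.forall_iff, implies_true, List.Pairwise.nil, and_true, r7_y, r7_yB, r7_yT, r5, p0]
      refine ⟨⟨?_, ?_⟩, ?_⟩ <;> linarith
    · intro c hc' e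
      exfalso
      interval_cases c
      · rw [q0] at e; simp only at e; linarith
      · rw [q1] at e; simp only at e; linarith
      · rw [q2] at e; simp only at e; linarith
      · rw [q3] at e; simp only at e; linarith
      · rw [q4] at e; simp only at e; linarith
      · rw [q5] at e; simp only at e; linarith
    · intro c hc' e
      interval_cases c
      · simp [bx]
      · rw [p1] at e; simp only at e; linarith
      · rw [p2] at e; simp only at e; linarith
      · rw [p3] at e; simp only at e; linarith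
      · rw [p4] at e; simp only at e; linarith
      · rw [p5] at e; simp only at e; linarith
  · have e1 : S.cC (S.rlane l) = [.blk (5, l) 2, .blk (4, l) 0, .T (4 * S.rlane l + 2)] := by
      unfold cC
      rw [if_neg hn, if_pos hp, hs]
    rw [e1]
    refine r7_lane h hd hjN (t := 1 - (d.gU l).c) (by linarith) (by linarith) ?_ ?_ (key _ _ ?_ ?_)
    · intro v hv
      simp only [List.mem_cons, List.not_mem_nil, or_false] at hv
      rcases hv with rfl | rfl | rfl
      · exact Or.inr (Or.inr ⟨_, _, rfl, hin5 2 (by norm_num), r5b_col5 l, by rw [p2]⟩)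
      · exact Or.inr (Or.inr ⟨_, _, rfl, hin4 0 (by norm_num), r5b_col4 l, by rw [q0]⟩)
      · exact Or.inr (Or.inl ⟨_, rfl, by omega, by rw [r7_xb2, hdd]; ring⟩)
    · simp only [List.pairwise_cons, List.mem_cons, List.not_mem_nil, or_false, forall_eq_or_imp,
        forall_eq, IsEmpty.forall_iff, implies_true, List.Pairwise.nil, and_true, r7_y, r7_yT,
        r4, r5, q0, p2]
      refine ⟨⟨?_, ?_⟩, ?_⟩ <;> linarith
    · intro c hc' e
      interval_cases c
      · simp
      · rw [q1] at e; simp only at e; linarith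
      · rw [q2] at e; simp only at e; linarith
      · rw [q3] at e; simp only at e; linarith
      · rw [q4] at e; simp only at e; linarith
      · rw [q5] at e; simp only at e; linarith
    · intro c hc' e
      interval_cases c
      · rw [p0] at e; simp only at e; linarith
      · rw [p1] at e; simp only at e; linarith
      · simp
      · rw [p3] at e; simp only at e; linarith
      · rw [p4] at e; simp only at e; linarith
      · rw [p5] at e; simp only at e; linarith
  · have e1 : S.cf (S.rlane l) = [.blk (5, l) 5, .blk (4, l) 3, .blk (4, l) 2] := by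
      unfold cf
      rw [if_neg hn, if_pos hp, hs]
    rw [e1]
    refine r7_lane h hd hjN (t := 1 - (d.gU l).f) (by linarith) (by linarith) ?_ ?_ (key _ _ ?_ ?_)
    · intro v hv
      simp only [List.mem_cons, List.not_mem_nil, or_false] at hv
      rcases hv with rfl | rfl | rfl
      · exact Or.inr (Or.inr ⟨_, _, rfl, hin5 5 (by norm_num), r5b_col5 l, by rw [p5]⟩)
      · exact Or.inr (Or.inr ⟨_, _, rfl, hin4 3 (by norm_num), r5b_col4 l, by rw [q3]⟩)
      · exact Or.inr (Or.inr ⟨_, _, rfl, hin4 2 (by norm_num), r5b_col4 l, by rw [q2]⟩)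
    · simp only [List.pairwise_cons, List.mem_cons, List.not_mem_nil, or_false, forall_eq_or_imp,
        forall_eq, IsEmpty.forall_iff, implies_true, List.Pairwise.nil, and_true, r7_y,
        r4, r5, q2, q3, p5]
      refine ⟨⟨?_, ?_⟩, ?_⟩ <;> linarith
    · intro c hc' e
      interval_cases c
      · rw [q0] at e; simp only at e; linarith
      · rw [q1] at e; simp only at e; linarith
      · simp
      · simp
      · rw [q4] at e; simp only at e; linarith
      · rw [q5] at e; simp only at e; linarith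
    · intro c hc' e
      interval_cases c
      · rw [p0] at e; simp only at e; linarith
      · rw [p1] at e; simp only at e; linarith
      · rw [p2] at e; simp only at e; linarith
      · rw [p3] at e; simp only at e; linarith
      · rw [p4] at e; simp only at e; linarith
      · simp
  · rw [r7_cX h (Or.inr hp)]
    exact r7_nil

end Pool.Agent.H54R
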