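import Pool.Agent.Lib.H54R.RDefs
import Pool.Agent.Lib.H54R.R4
import Pool.Agent.Lib.H54R.R5
import Pool.Agent.Lib.H54R.R5B
import Pool.Agent.Lib.H54R.C3
import Pool.Agent.Lib.H54R.C4
import Pool.Agent.Lib.H54R.FL1

/-!
# R7B: column lines of the plain and fresh lanes
-/

set_option autoImplicit false

namespace Pool.Agent.H54R

open RS

variable {S : RS} {d : Dat}

theorem r7b_blk (b : ℕ × ℕ) (c : ℕ) : d.pos S (.blk b c) =
    (2 * (S.bcol b : ℝ) + 1 / 2 + (d.loc S b c).1, 2 * (S.brow b : ℝ) + 1 / 2 + (d.loc S b c).2) := rfl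

theorem r7b_lt (h : S.WF) (hd : DatOK S d) {b b' : ℕ × ℕ} {c c' : ℕ} (hb : S.binB b c) (hb' : S.binB b' c')
    (e : S.brow b < S.brow b') : (d.pos S (.blk b c)).2 < (d.pos S (.blk b' c')).2 := by
  obtain ⟨-, -, -, h1⟩ := blk_mem h hd hb
  obtain ⟨-, -, h2, -⟩ := blk_mem h hd hb'
  have h3 : (S.brow b : ℝ) + 1 ≤ (S.brow b' : ℝ) := by exact_mod_cast e
  linarith

theorem r7b_rng (h : S.WF) (hd : DatOK S d) {b : ℕ × ℕ} {c : ℕ} (hb : S.binB b c) :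
    0 < (d.pos S (.blk b c)).2 ∧ (d.pos S (.blk b c)).2 < 2 * S.MM ∧
      0 < (d.pos S (.blk b c)).1 ∧ (d.pos S (.blk b c)).1 < 2 * S.NN := by
  obtain ⟨h1, h2, h3, h4⟩ := blk_mem h hd hb
  have h5 : (S.brow b : ℝ) + 1 ≤ (S.MM : ℝ) := by exact_mod_cast brow_lt h hb
  have h6 : (S.bcol b : ℝ) + 1 ≤ (S.NN : ℝ) := by exact_mod_cast bcol_lt h hb
  have h7 : (0 : ℝ) ≤ (S.brow b : ℝ) := Nat.cast_nonneg _
  have h8 : (0 : ℝ) ≤ (S.bcol b : ℝ) := Nat.cast_nonneg _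
  refine ⟨by linarith, by linarith, by linarith, by linarith⟩

theorem r7b_big (S : RS) : (2 : ℝ) * S.NN + 2 * S.MM + 2 = S.big ∧ (0 : ℝ) ≤ S.NN ∧ (0 : ℝ) ≤ S.MM :=
  ⟨rfl, Nat.cast_nonneg _, Nat.cast_nonneg _⟩

/-- a vertex whose position is in the open rectangle of the blocks is a block vertex -/
theorem r7b_inside (h : S.WF) (hd : DatOK S d) {v : Vx} (hv : S.isV v)
    (h1 : 0 < (d.pos S v).2) (h2 : (d.pos S v).2 < 2 * S.MM) (h3 : 0 < (d.pos S v).1)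
    (h4 : (d.pos S v).1 < 2 * S.NN) : ∃ b c, v = .blk b c ∧ S.binB b c := by
  obtain ⟨e, hN, hM⟩ := r7b_big S
  cases v with
  | L k =>
    have : (d.pos S (.L k)).1 = -1 := rfl
    linarith
  | R k =>
    have : (d.pos S (.R k)).1 = 2 * S.NN + 1 := rfl
    linarith
  | B k =>
    have : (d.pos S (.B k)).2 = -1 := rfl
    linarith
  | T k =>
    have : (d.pos S (.T k)).2 = 2 * S.MM + 1 := rfl
    linarith
  | hub i =>
    exfalso
    simp only [Dat.pos] at h1 h2 h3 h4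
    split_ifs at h1 h2 h3 h4 <;> simp only at h1 h2 h3 h4 <;> linarith
  | blk b c => exact ⟨b, c, rfl, hv⟩

theorem r7b_pw (h : S.WF) (hd : DatOK S d) {l : List ((ℕ × ℕ) × ℕ)} (hl : ∀ v ∈ l, S.binB v.1 v.2)
    (hs : l.Pairwise fun v w => S.brow v.1 < S.brow w.1) :
    (bx l).Pairwise fun v w => (d.pos S v).2 < (d.pos S w).2 := by
  unfold bx
  rw [List.pairwise_map]
  refine hs.imp_of_mem fun {a b} ha hb hab => ?_
  exact r7b_lt h hd (hl a ha) (hl b hb) hab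

/-- inner lines -/
theorem r7b_in (h : S.WF) (hd : DatOK S d) {j : ℕ} {l : List ((ℕ × ℕ) × ℕ)} {a : ℝ}
    (hl : ∀ v ∈ l, S.binB v.1 v.2 ∧ S.bcol v.1 = j ∧ (d.loc S v.1 v.2).1 = a)
    (hs : l.Pairwise fun v w => S.brow v.1 < S.brow w.1)
    (hm : ∀ b c, S.binB b c → S.bcol b = j → (d.loc S b c).1 = a → (b, c) ∈ l) : ColGood S d (bx l) := by
  have hx : ∀ v ∈ bx l, (d.pos S v).1 = 2 * (j : ℝ) + 1 / 2 + a := by
    intro v hv
    obtain ⟨w, hw, rfl⟩ := List.mem_map.1 hv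
    obtain ⟨h1, h2, h3⟩ := hl w hw
    rw [r7b_blk, h2, h3]
  refine ⟨r7b_pw h hd (fun v hv => (hl v hv).1) hs, fun v hv w hw => (hx v hv).trans (hx w hw).symm, ?_, ?_⟩
  · intro v hv
    obtain ⟨w, hw, rfl⟩ := List.mem_map.1 hv
    exact (hl w hw).1
  · rintro v hv ⟨p, hp, q, hq, h1, h2, h3⟩
    obtain ⟨wp, hwp, rfl⟩ := List.mem_map.1 hp
    obtain ⟨wq, hwq, rfl⟩ := List.mem_map.1 hq
    obtain ⟨p1, p2, p3, p4⟩ := r7b_rng h hd (hl wp hwp).1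
    obtain ⟨q1, q2, q3, q4⟩ := r7b_rng h hd (hl wq hwq).1
    obtain ⟨b, c, rfl, hb⟩ := r7b_inside h hd hv (by linarith) (by linarith) (by linarith) (by linarith)
    obtain ⟨e1, e2⟩ := blk_col_eq h hd hb (hl wp hwp).1 h3
    exact List.mem_map.2 ⟨(b, c), hm b c hb (e1.trans (hl wp hwp).2.1) (e2.trans (hl wp hwp).2.2), rfl⟩

/-- complete lines -/
theorem r7b_full (h : S.WF) (hd : DatOK S d) {k : ℕ} (hk : k ≤ 4 * S.NN) {l : List ((ℕ × ℕ) × ℕ)} {a : ℝ}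
    (ha : (k % 4 = 1 ∧ a = 0) ∨ (k % 4 = 3 ∧ a = 1))
    (hl : ∀ v ∈ l, S.binB v.1 v.2 ∧ S.bcol v.1 = k / 4 ∧ (d.loc S v.1 v.2).1 = a)
    (hs : l.Pairwise fun v w => S.brow v.1 < S.brow w.1)
    (hm : ∀ b c, S.binB b c → S.bcol b = k / 4 → (d.loc S b c).1 = a → (b, c) ∈ l) :
    ColGood S d (.B k :: bx l ++ [.T k]) := by
  have hxk : d.xb S k = 2 * ((k / 4 : ℕ) : ℝ) + 1 / 2 + a := by
    unfold Dat.xb
    rcases ha with ⟨h1, h2⟩ | ⟨h1, h2⟩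
    · rw [h1, h2]
      norm_num
    · rw [h1, h2]
      norm_num
      ring
  have hB : d.pos S (.B k) = (d.xb S k, -1) := rfl
  have hT : d.pos S (.T k) = (d.xb S k, 2 * (S.MM : ℝ) + 1) := rfl
  have hM : (0 : ℝ) ≤ S.MM := Nat.cast_nonneg _
  have hmem : ∀ v : Vx, v ∈ (.B k :: bx l ++ [.T k]) ↔ v = .B k ∨ v ∈ bx l ∨ v = .T k := by
    intro v
    simp only [List.cons_append, List.mem_cons, List.mem_append, List.not_mem_nil, or_false]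
  have hx : ∀ v ∈ (.B k :: bx l ++ [.T k]), (d.pos S v).1 = d.xb S k := by
    intro v hv
    rcases (hmem v).1 hv with rfl | hv | rfl
    · rw [hB]
    · obtain ⟨w, hw, rfl⟩ := List.mem_map.1 hv
      obtain ⟨h1, h2, h3⟩ := hl w hw
      rw [r7b_blk, h2, h3, hxk]
    · rw [hT]
  have hy : ∀ v ∈ (.B k :: bx l ++ [.T k]), -1 ≤ (d.pos S v).2 ∧ (d.pos S v).2 ≤ 2 * S.MM + 1 := by
    intro v hv
    rcases (hmem v).1 hv with rfl | hv | rfl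
    · rw [hB]
      exact ⟨le_rfl, by show (-1 : ℝ) ≤ _; linarith⟩
    · obtain ⟨w, hw, rfl⟩ := List.mem_map.1 hv
      obtain ⟨h1, h2, -, -⟩ := r7b_rng h hd (hl w hw).1
      exact ⟨by linarith, by linarith⟩
    · rw [hT]
      exact ⟨by show (-1 : ℝ) ≤ 2 * S.MM + 1; linarith, le_rfl⟩
  refine ⟨?_, fun v hv w hw => (hx v hv).trans (hx w hw).symm, ?_, ?_⟩
  · rw [List.cons_append, List.pairwise_cons]
    refine ⟨fun v hv => ?_, ?_⟩
    · rw [List.mem_append, List.mem_singleton] at hv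
      rcases hv with hv | rfl
      · obtain ⟨w, hw, rfl⟩ := List.mem_map.1 hv
        have h1 := (r7b_rng h hd (hl w hw).1).1
        rw [hB]
        show (-1 : ℝ) < _
        linarith
      · rw [hB, hT]
        show (-1 : ℝ) < 2 * S.MM + 1
        linarith
    · rw [List.pairwise_append]
      refine ⟨r7b_pw h hd (fun v hv => (hl v hv).1) hs, List.pairwise_singleton _ _, fun v hv w hw => ?_⟩
      rw [List.mem_singleton] at hw
      subst hw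
      obtain ⟨w, hw, rfl⟩ := List.mem_map.1 hv
      have h1 := (r7b_rng h hd (hl w hw).1).2.1
      rw [hT]
      show _ < (2 : ℝ) * S.MM + 1
      linarith
  · intro v hv
    rcases (hmem v).1 hv with rfl | hv | rfl
    · exact hk
    · obtain ⟨w, hw, rfl⟩ := List.mem_map.1 hv
      exact (hl w hw).1
    · exact hk
  · rintro v hv ⟨p, hp, q, hq, h1, h2, h3⟩
    rw [hx p hp] at h3
    have hp2 := (hy p hp).1.trans h1
    have hq2 := h2.trans (hy q hq).2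
    clear h1 h2
    obtain ⟨x1, x2⟩ := xb_mem h hd hk
    obtain ⟨e, hN, -⟩ := r7b_big S
    rw [hmem]
    cases v with
    | L k' =>
      have : (d.pos S (.L k')).1 = -1 := rfl
      linarith
    | R k' =>
      have : (d.pos S (.R k')).1 = 2 * S.NN + 1 := rfl
      linarith
    | B k' =>
      left
      have h4 : d.xb S k' = d.xb S k := h3
      rcases lt_trichotomy k' k with h5 | h5 | h5
      · have := xb_lt h hd h5 hk
        linarith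
      · rw [h5]
      · have := xb_lt h hd h5 hv
        linarith
    | T k' =>
      right
      right
      have h4 : d.xb S k' = d.xb S k := h3
      rcases lt_trichotomy k' k with h5 | h5 | h5
      · have := xb_lt h hd h5 hk
        linarith
      · rw [h5]
      · have := xb_lt h hd h5 hv
        linarith
    | hub i =>
      exfalso
      simp only [Dat.pos] at hp2 hq2 h3
      split_ifs at hp2 hq2 h3 <;> simp only at hp2 hq2 h3 <;> linarith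
    | blk b c =>
      right
      left
      obtain ⟨e1, e2⟩ := blk_xb_eq h hd hk hv h3
      refine List.mem_map.2 ⟨(b, c), hm b c hv e1.symm ?_, rfl⟩
      rcases ha with ⟨a1, a2⟩ | ⟨a1, a2⟩
      · rcases e2 with e2 | e2 | e2
        · rw [e2.2, a2]
        · omega
        · omega
      · rcases e2 with e2 | e2 | e2
        · omega
        · omega
        · rw [e2.2, a2]

theorem r7b_nil : ColGood S d [] := by
  refine ⟨List.Pairwise.nil, by simp, by simp, ?_⟩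
  rintro v hv ⟨p, hp, -⟩
  simp at hp

theorem r7b_loc (ρ : ℕ) : (d.loc S (0, ρ) 0).1 = d.bl S ρ ∧ (d.loc S (0, ρ) 1).1 = d.κ ρ ∧
    (d.loc S (0, ρ) 2).1 = d.br S ρ ∧ (d.loc S (1, ρ) 0).1 = d.ul S ρ ∧ (d.loc S (1, ρ) 1).1 = d.κ ρ ∧
    (d.loc S (1, ρ) 2).1 = d.ur S ρ := by
  refine ⟨?_, ?_, ?_, ?_, ?_, ?_⟩ <;> simp [Dat.loc]

/-- the border `cb` -/
theorem r7b_cb (h : S.WF) (hd : DatOK S d) {ρ : ℕ} (hρ : ρ < S.R) :
    (S.kd ρ = 3 → (d.cb S ρ = 0 ↔ S.First ρ)) ∧ (S.kd ρ = 4 → (d.cb S ρ = 1 ↔ S.First ρ)) := by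
  rcases hp : S.prv ρ with _ | σ
  · have h1 := prv_none.1 hp
    rw [r5_cb_none hp]
    refine ⟨fun hk => ?_, fun hk => ?_⟩
    · rw [if_pos hk]
      exact ⟨fun _ => h1, fun _ => rfl⟩
    · rw [if_neg (by omega)]
      exact ⟨fun _ => h1, fun _ => rfl⟩
  · rw [r5_cb_some hp]
    obtain ⟨⟨h1, h2, h3⟩, -⟩ := prv_some.1 hp
    have hσ := h1.trans hρ
    obtain ⟨k1, k2⟩ := hd.k1 σ hσ
    obtain ⟨b1, b2, -, -⟩ := bord01 h hd hσ
    have hnF : ¬ S.First ρ := fun hF => hF σ h1 ⟨h2, h3⟩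
    refine ⟨fun _ => ⟨fun e => ?_, fun hF => absurd hF hnF⟩, fun _ => ⟨fun e => ?_, fun hF => absurd hF hnF⟩⟩
    · linarith
    · linarith

/-- all first coordinates in the blocks of a read -/
theorem r7b_tab (h : S.WF) (hd : DatOK S d) {ρ : ℕ} (hρ : ρ < S.R) :
    (S.kd ρ = 0 ∧ d.bl S ρ = 0 ∧ d.br S ρ = 1 ∧ d.ul S ρ = 0 ∧ d.ur S ρ = 1 ∧ 0 < d.κ ρ ∧ d.κ ρ < 1) ∨
    (S.kd ρ = 1 ∧ d.bl S ρ = 0 ∧ d.br S ρ = 1 ∧ d.ul S ρ = 0 ∧ d.ur S ρ = d.xv S ρ ∧ 0 < d.κ ρ ∧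
      d.κ ρ < d.xv S ρ ∧ d.xv S ρ < 1) ∨
    (S.kd ρ = 2 ∧ d.bl S ρ = d.xv S ρ ∧ d.br S ρ = 1 ∧ d.ul S ρ = 0 ∧ d.ur S ρ = 1 ∧ 0 < d.xv S ρ ∧
      d.xv S ρ < d.κ ρ ∧ d.κ ρ < 1) ∨
    (S.kd ρ = 3 ∧ d.bl S ρ = d.cb S ρ ∧ d.br S ρ = d.xv S ρ ∧ d.ul S ρ = d.cb S ρ ∧ d.ur S ρ = 1 ∧
      0 ≤ d.cb S ρ ∧ d.cb S ρ < d.κ ρ ∧ d.κ ρ < d.xv S ρ ∧ d.xv S ρ < 1 ∧ (d.cb S ρ = 0 ↔ S.First ρ)) ∨
    (S.kd ρ = 4 ∧ d.bl S ρ = 0 ∧ d.br S ρ = d.cb S ρ ∧ d.ul S ρ = d.xv S ρ ∧ d.ur S ρ = d.cb S ρ ∧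
      0 < d.xv S ρ ∧ d.xv S ρ < d.κ ρ ∧ d.κ ρ < d.cb S ρ ∧ d.cb S ρ ≤ 1 ∧ (d.cb S ρ = 1 ↔ S.First ρ)) := by
  obtain ⟨x1, x2⟩ := xv01 (S := S) hd ρ
  obtain ⟨c1, c2⟩ := r7b_cb h hd hρ
  obtain ⟨a1, a2⟩ := hd.k1 ρ hρ
  obtain ⟨a3, a4⟩ := hd.k2 ρ hρ
  have hk := S.kd_le ρ
  have hk' : S.kd ρ = 0 ∨ S.kd ρ = 1 ∨ S.kd ρ = 2 ∨ S.kd ρ = 3 ∨ S.kd ρ = 4 := by omega
  rcases hk' with e | e | e | e | e
  · left
    simp only [Dat.bl, Dat.br, Dat.ul, Dat.ur, e] at a1 a2 a3 a4 ⊢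
    norm_num at a1 a2 a3 a4 ⊢
    exact ⟨a1, a2⟩
  · right; left
    simp only [Dat.bl, Dat.br, Dat.ul, Dat.ur, e] at a1 a2 a3 a4 ⊢
    norm_num at a1 a2 a3 a4 ⊢
    exact ⟨a1, a4, x2⟩
  · right; right; left
    simp only [Dat.bl, Dat.br, Dat.ul, Dat.ur, e] at a1 a2 a3 a4 ⊢
    norm_num at a1 a2 a3 a4 ⊢
    exact ⟨x1, a1, a2⟩
  · right; right; right; left
    obtain ⟨q1, q2, q3⟩ := cb3 h hd hρ e
    simp only [Dat.bl, Dat.br, Dat.ul, Dat.ur, e] at a1 a2 a3 a4 ⊢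
    norm_num at a1 a2 a3 a4 ⊢
    exact ⟨q1, q2, q3, x2, c1 e⟩
  · right; right; right; right
    obtain ⟨q1, q2, q3⟩ := cb4 h hd hρ e
    simp only [Dat.bl, Dat.br, Dat.ul, Dat.ur, e] at a1 a2 a3 a4 ⊢
    norm_num at a1 a2 a3 a4 ⊢
    exact ⟨x1, q3, q2, q1, c2 e⟩

theorem r7b_left (h : S.WF) (hd : DatOK S d) {ρ g c : ℕ} (hρ : ρ < S.R) (hg : g ≤ 1) (hc : c < 3) :
    (d.loc S (g, ρ) c).1 = 0 ↔ ((g, ρ), c) ∈ S.cL (S.lane ρ) := by
  obtain ⟨l1, l2, l3, l4, l5, l6⟩ := r7b_loc (S := S) (d := d) ρ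
  have hg' : g = 0 ∨ g = 1 := by omega
  have hc' : c = 0 ∨ c = 1 ∨ c = 2 := by omega
  rw [← fl1_bci1]
  have t := r7b_tab h hd hρ
  rcases hg' with rfl | rfl
  · rw [mem_bci1_low h hρ]
    rcases hc' with rfl | rfl | rfl
    · rw [l1]
      grind
    · rw [l2]
      grind
    · rw [l3]
      grind
  · rw [mem_bci1_up h hρ]
    rcases hc' with rfl | rfl | rfl
    · rw [l4]
      grind
    · rw [l5]
      grind
    · rw [l6]
      grind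

theorem r7b_right (h : S.WF) (hd : DatOK S d) {ρ g c : ℕ} (hρ : ρ < S.R) (hg : g ≤ 1) (hc : c < 3) :
    (d.loc S (g, ρ) c).1 = 1 ↔ ((g, ρ), c) ∈ S.cR (S.lane ρ) := by
  obtain ⟨l1, l2, l3, l4, l5, l6⟩ := r7b_loc (S := S) (d := d) ρ
  have hg' : g = 0 ∨ g = 1 := by omega
  have hc' : c = 0 ∨ c = 1 ∨ c = 2 := by omega
  rw [← fl1_bci3]
  have t := r7b_tab h hd hρ
  rcases hg' with rfl | rfl
  · rw [mem_bci3_low h hρ]
    rcases hc' with rfl | rfl | rfl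
    · rw [l1]
      grind
    · rw [l2]
      grind
    · rw [l3]
      grind
  · rw [mem_bci3_up h hρ]
    rcases hc' with rfl | rfl | rfl
    · rw [l4]
      grind
    · rw [l5]
      grind
    · rw [l6]
      grind

theorem r7b_X (h : S.WF) (hd : DatOK S d) {ρ g c : ℕ} (hρ : ρ < S.R) (hg : g ≤ 1) (hc : c < 3)
    (hk : S.kd ρ ≠ 0) : (d.loc S (g, ρ) c).1 = d.xv S ρ ↔ Vx.blk (g, ρ) c ∈ S.cX (S.lane ρ) := by
  obtain ⟨l1, l2, l3, l4, l5, l6⟩ := r7b_loc (S := S) (d := d) ρ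
  have hg' : g = 0 ∨ g = 1 := by omega
  have hc' : c = 0 ∨ c = 1 ∨ c = 2 := by omega
  have t := r7b_tab h hd hρ
  rw [mem_cX h hρ]
  rcases hg' with rfl | rfl
  · rcases hc' with rfl | rfl | rfl
    · rw [l1]
      grind
    · rw [l2]
      grind
    · rw [l3]
      grind
  · rcases hc' with rfl | rfl | rfl
    · rw [l4]
      grind
    · rw [l5]
      grind
    · rw [l6]
      grind

theorem r7b_mem_cX {b : ℕ × ℕ} {c j : ℕ} (hv : Vx.blk b c ∈ S.cX j) :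
    ∃ ρ g, b = (g, ρ) ∧ g ≤ 1 ∧ c < 3 ∧ ρ < S.R ∧ S.kd ρ ≠ 0 ∧ S.lane ρ = j := by
  obtain ⟨g, ρ⟩ := b
  refine ⟨ρ, g, rfl, ?_⟩
  simp only [cX, List.mem_append, List.mem_map, Vx.blk.injEq, Prod.mk.injEq, mem_rd,
    List.mem_reverse] at hv
  rcases hv with ((⟨a, ha, h1⟩ | ⟨a, ha, h1⟩) | ⟨a, ha, h1⟩) | ⟨a, ha, h1⟩ <;> grind

theorem r7b_blocks (h : S.WF) {j : ℕ} (h1 : 2 * S.K ≤ j) (h2 : j < S.rlane 0) {b : ℕ × ℕ} {c : ℕ}
    (hb : S.binB b c) (e : S.bcol b = j) : ∃ ρ g, b = (g, ρ) ∧ g ≤ 1 ∧ c < 3 ∧ ρ < S.R ∧ S.lane ρ = j := by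
  obtain ⟨ρ, hρ, h3, h4⟩ := bcol_mid h hb (by omega) (by omega)
  rcases h3 with rfl | rfl
  · refine ⟨ρ, 0, rfl, by omega, ?_, hρ, h4.trans e⟩
    rcases hb with ⟨-, -, h5⟩ | ⟨h5, -⟩
    · exact h5
    · simp at h5
  · refine ⟨ρ, 1, rfl, by omega, ?_, hρ, h4.trans e⟩
    rcases hb with ⟨-, -, h5⟩ | ⟨h5, -⟩
    · exact h5
    · simp at h5

theorem r7b_kd (h : S.WF) {ρ σ : ℕ} (hρ : ρ < S.R) (hσ : σ < S.R) (hk : S.kd ρ ≠ 0) (e : S.lane σ = S.lane ρ) :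
    S.kd σ ≠ 0 := by
  intro e0
  obtain ⟨a1, a2⟩ := lane_plain h hσ e0
  rcases c2_cases (S := S) ρ with h1 | h1 | h1
  · exact hk h1
  · have := (op_div h hρ h1).2.1
    omega
  · have := (op_mul h hρ h1).2.1
    omega

/-- all column lines of the lanes of the reads -/
theorem r7b_mid (h : S.WF) (hd : DatOK S d) {j : ℕ} (h1 : 2 * S.K ≤ j) (h2 : j < S.rlane 0) :
    ∀ r ∈ S.laneC j, ColGood S d r := by
  have hj : j < S.NN := by
    unfold rlane at h2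
    unfold NN
    omega
  have e1 : (4 * j + 1) / 4 = j := by omega
  have e3 : (4 * j + 3) / 4 = j := by omega
  intro r hr
  simp only [laneC, List.mem_cons, List.not_mem_nil, or_false] at hr
  rcases hr with rfl | rfl | rfl | rfl | rfl
  · refine r7b_full h hd (by omega) (Or.inl ⟨by omega, rfl⟩) (fun v hv => ?_) (c4_sL h hj) (fun b c hb e hl => ?_)
    · obtain ⟨g1, g2⟩ := c4_cL h hj hv
      obtain ⟨ρ, g, e4, hg, hc, hρ, hl⟩ := r7b_blocks h h1 h2 g1 g2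
      refine ⟨g1, by rw [e1]; exact g2, ?_⟩
      rw [e4, r7b_left h hd hρ hg hc, hl, ← e4]
      exact hv
    · rw [e1] at e
      obtain ⟨ρ, g, e4, hg, hc, hρ, hl'⟩ := r7b_blocks h h1 h2 hb e
      rw [e4, r7b_left h hd hρ hg hc, hl', ← e4] at hl
      exact hl
  · refine r7b_full h hd (by omega) (Or.inr ⟨by omega, rfl⟩) (fun v hv => ?_) (c4_sR h hj) (fun b c hb e hl => ?_)
    · obtain ⟨g1, g2⟩ := c4_cR h hj hv
      obtain ⟨ρ, g, e4, hg, hc, hρ, hl⟩ := r7b_blocks h h1 h2 g1 g2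
      refine ⟨g1, by rw [e3]; exact g2, ?_⟩
      rw [e4, r7b_right h hd hρ hg hc, hl, ← e4]
      exact hv
    · rw [e3] at e
      obtain ⟨ρ, g, e4, hg, hc, hρ, hl'⟩ := r7b_blocks h h1 h2 hb e
      rw [e4, r7b_right h hd hρ hg hc, hl', ← e4] at hl
      exact hl
  · have e : S.cC j = [] := by
      unfold cC
      rw [if_neg (by omega), if_neg (by omega)]
    rw [e]
    exact r7b_nil
  · have e : S.cf j = [] := by
      unfold cf
      rw [if_neg (by omega), if_neg (by omega)]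
    rw [e]
    exact r7b_nil
  · obtain ⟨l, hl, hs, hb⟩ := cX_sorted h j
    rw [hl]
    have hmem : ∀ b c, (b, c) ∈ l ↔ Vx.blk b c ∈ S.cX j := by
      intro b c
      rw [hl]
      unfold bx
      rw [List.mem_map]
      constructor
      · intro hm
        exact ⟨(b, c), hm, rfl⟩
      · rintro ⟨w, hw, e⟩
        have e4 := Vx.blk.inj e
        have e5 : w = (b, c) := Prod.ext e4.1 e4.2
        rw [← e5]
        exact hw
    rcases l with _ | ⟨v0, t⟩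
    · exact r7b_nil
    · obtain ⟨ρ0, g0, -, -, -, hρ0, hk0, hl0⟩ := r7b_mem_cX ((hmem v0.1 v0.2).1 List.mem_cons_self)
      refine r7b_in (j := j) (a := d.xv S ρ0) h hd (fun v hv => ?_) hs (fun b c hbc e hx => ?_)
      · have hv' := (hmem v.1 v.2).1 hv
        obtain ⟨ρ, g, e4, hg, hc, hρ, hk, hlan⟩ := r7b_mem_cX hv'
        refine ⟨hb v hv, ?_, ?_⟩
        · rw [e4]
          unfold bcol
          rw [if_pos (by omega)]
          exact hlan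
        · rw [e4, ← xv_eq h hρ0 hρ hk0 (hlan.trans hl0.symm), r7b_X h hd hρ hg hc hk, hlan, ← e4]
          exact hv'
      · obtain ⟨ρ, g, e4, hg, hc, hρ, hlan⟩ := r7b_blocks h h1 h2 hbc e
        have hk := r7b_kd h hρ0 hρ hk0 (hlan.trans hl0.symm)
        rw [hmem]
        rw [e4, ← xv_eq h hρ0 hρ hk0 (hlan.trans hl0.symm), r7b_X h hd hρ hg hc hk, hlan, ← e4] at hx
        exact hx

theorem cols_plain (h : S.WF) (hd : DatOK S d) {ρ : ℕ} (hρ : ρ < S.R) :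
    ∀ r ∈ S.laneC (2 * S.K + ρ), ColGood S d r := by
  refine r7b_mid h hd (by omega) ?_
  have := h.len
  unfold rlane
  omega

/-- fresh lane with the reads `ρ` (kind 1) and `σ` (kind 2) (`rd_fresh`):
`Lf: B, (0,ρ) 0, (1,ρ) 0, (1,σ) 0, T`; `Rt: B, (0,ρ) 2, (0,σ) 2, (1,σ) 2, T`; `X: (1,ρ) 2, (0,σ) 0` -/
theorem cols_fresh (h : S.WF) (hd : DatOK S d) {k : ℕ} (hk : k < S.m) :
    ∀ r ∈ S.laneC (6 * S.K + k), ColGood S d r := by
  refine r7b_mid h hd (by omega) ?_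
  unfold rlane
  omega

end Pool.Agent.H54R
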