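import Pool.Agent.Lib.H54R.RDefs
import Pool.Agent.Lib.H54R.R4
import Pool.Agent.Lib.H54R.R5
import Pool.Agent.Lib.H54R.R5B
import Pool.Agent.Lib.H54R.R7B

/-!
# R7C: column lines of the home lanes
-/

set_option autoImplicit false

namespace Pool.Agent.H54R

open RS

variable {S : RS} {d : Dat}

/-- Home lane. Row lanes: `low` of the reads of kind 4 (zone A, increasing), their `upr` (zone B-,
decreasing), `low` of the reads of kind 3 (zone B+, increasing), their `upr` (zone C, decreasing).
`Lf`: local coordinate `0`: exactly the vertices with left border `0`. `Rt`: local coordinate `1`. `X`: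
local coordinate `xv`. -/
theorem cols_home (h : S.WF) (hd : DatOK S d) {i : ℕ} (hi : i < S.n) :
    ∀ r ∈ S.laneC (6 * S.K + S.m + i), ColGood S d r := by
  refine r7b_mid h hd (by omega) ?_
  unfold rlane
  omega

end Pool.Agent.H54R
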