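import Pool.Agent.Lib.H54R.RDefs
import Pool.Agent.Lib.H54R.R4
import Pool.Agent.Lib.H54R.R5
import Pool.Agent.Lib.H54R.R5B
import Pool.Agent.Lib.H54R.R7

/-!
# R7D: the lines `k` of the reads
-/

set_option autoImplicit false

namespace Pool.Agent.H54R

open RS

variable {S : RS} {d : Dat}

theorem r7d_00 (τ : ℕ) : (d.loc S (0, τ) 0).1 = d.bl S τ := by simp [Dat.loc]
theorem r7d_01 (τ : ℕ) : (d.loc S (0, τ) 1).1 = d.κ τ := by simp [Dat.loc]
theorem r7d_02 (τ : ℕ) : (d.loc S (0, τ) 2).1 = d.br S τ := by simp [Dat.loc]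
theorem r7d_10 (τ : ℕ) : (d.loc S (1, τ) 0).1 = d.ul S τ := by simp [Dat.loc]
theorem r7d_11 (τ : ℕ) : (d.loc S (1, τ) 1).1 = d.κ τ := by simp [Dat.loc]
theorem r7d_12 (τ : ℕ) : (d.loc S (1, τ) 2).1 = d.ur S τ := by simp [Dat.loc]

theorem r7d_bin {g τ c : ℕ} (hg : g = 0 ∨ g = 1) (hτ : τ < S.R) (hc : c < 3) :
    S.binB (g, τ) c := by
  left
  change g ≤ 1 ∧ τ < S.R ∧ c < 3
  exact ⟨by omega, hτ, hc⟩

/-- blocks in smaller row lanes are below -/
theorem r7d_lt (h : S.WF) (hd : DatOK S d) {b b' : ℕ × ℕ} {c c' : ℕ} (hb : S.binB b c)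
    (hb' : S.binB b' c') (hlt : S.brow b < S.brow b') :
    (d.pos S (.blk b c)).2 < (d.pos S (.blk b' c')).2 := by
  have h1 := (blk_mem h hd hb).2.2.2
  have h2 := (blk_mem h hd hb').2.2.1
  have h3 : (S.brow b : ℝ) + 1 ≤ S.brow b' := by exact_mod_cast hlt
  linarith

theorem r7d_outer_low {ρ : ℕ} (ho : S.outer ρ = true) : S.low ρ = 2 * S.R + ρ := by
  unfold low
  rw [if_pos ho]

theorem r7d_outer_low' {ρ : ℕ} (ho : ¬ S.outer ρ = true) : S.low ρ = ρ := by
  unfold low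
  rw [if_neg ho]

theorem r7d_outer_upr {ρ : ℕ} (ho : S.outer ρ = true) : S.upr ρ = 4 * S.R - 1 - ρ := by
  unfold upr
  rw [if_pos ho]

theorem r7d_outer_upr' {ρ : ℕ} (ho : ¬ S.outer ρ = true) : S.upr ρ = 2 * S.R - 1 - ρ := by
  unfold upr
  rw [if_neg ho]

theorem r7d_outer_iff (ρ : ℕ) : S.outer ρ = true ↔ S.kd ρ = 2 ∨ S.kd ρ = 3 := by
  unfold outer
  rw [Bool.or_eq_true, decide_eq_true_eq, decide_eq_true_eq]

/-- a block in the lane of `ρ`, between the row lanes of `ρ`, belongs to a read of the same kind -/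
theorem r7d_kd (h : S.WF) {ρ τ : ℕ} (hρ : ρ < S.R) (hτ : τ < S.R) (hl : S.lane τ = S.lane ρ)
    (hr : (S.low ρ ≤ S.low τ ∧ S.low τ ≤ S.upr ρ) ∨ (S.low ρ ≤ S.upr τ ∧ S.upr τ ≤ S.upr ρ)) :
    S.kd τ = S.kd ρ ∧ (S.kd ρ = 0 ∨ S.kd ρ = 1 ∨ S.kd ρ = 2 → τ = ρ) := by
  have ho : (S.outer τ = true ↔ S.outer ρ = true) := by
    by_cases h1 : S.outer τ = true
    · by_cases h2 : S.outer ρ = true
      · simp [h1, h2]
      · exfalso
        rw [r7d_outer_low h1, r7d_outer_low' h2, r7d_outer_upr h1, r7d_outer_upr' h2] at hr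
        omega
    · by_cases h2 : S.outer ρ = true
      · exfalso
        rw [r7d_outer_low' h1, r7d_outer_low h2, r7d_outer_upr' h1, r7d_outer_upr h2] at hr
        omega
      · simp [h1, h2]
  rw [r7d_outer_iff, r7d_outer_iff] at ho
  have h2 := c2_cases (S := S) ρ
  have h3 := c2_cases (S := S) τ
  rcases h2 with h2 | h2 | h2
  · have e1 := lane_plain h hρ h2
    rcases h3 with h3 | h3 | h3
    · have e2 := lane_plain h hτ h3
      exact ⟨by omega, fun _ => by omega⟩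
    · have e2 := op_div h hτ h3
      omega
    · have e2 := op_mul h hτ h3
      omega
  · have e1 := op_div h hρ h2
    rcases h3 with h3 | h3 | h3
    · have e2 := lane_plain h hτ h3
      omega
    · have hk : S.kd τ = S.kd ρ := by omega
      refine ⟨hk, fun _ => ?_⟩
      obtain ⟨k, hk1, hk2⟩ : ∃ k, S.lane ρ = 6 * S.K + k ∧ k < S.m :=
        ⟨S.lane ρ - 6 * S.K, by omega, by omega⟩
      obtain ⟨α, β, r1, r2, -, -, -⟩ := rd_fresh h hk2
      rcases h2 with h2 | h2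
      · have m1 : ρ ∈ S.rd 1 (6 * S.K + k) := mem_rd.2 ⟨hρ, h2, hk1⟩
        have m2 : τ ∈ S.rd 1 (6 * S.K + k) := mem_rd.2 ⟨hτ, by omega, by omega⟩
        rw [r1, List.mem_singleton] at m1 m2
        rw [m1, m2]
      · have m1 : ρ ∈ S.rd 2 (6 * S.K + k) := mem_rd.2 ⟨hρ, h2, hk1⟩
        have m2 : τ ∈ S.rd 2 (6 * S.K + k) := mem_rd.2 ⟨hτ, by omega, by omega⟩
        rw [r2, List.mem_singleton] at m1 m2
        rw [m1, m2]
    · have e2 := op_mul h hτ h3
      omega
  · have e1 := op_mul h hρ h2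
    rcases h3 with h3 | h3 | h3
    · have e2 := lane_plain h hτ h3
      omega
    · have e2 := op_div h hτ h3
      omega
    · exact ⟨by omega, fun _ => by omega⟩

/-- the borders of the next reads, kind 3 -/
theorem r7d_cb3 (h : S.WF) (hd : DatOK S d) {ρ τ : ℕ} (hρ : ρ < S.R) (hτ : τ < S.R)
    (hk : S.kd ρ = 3) (hk' : S.kd τ = 3) (hl : S.lane τ = S.lane ρ) (hne : τ ≠ ρ) :
    (τ ∈ S.nxt ρ ∧ d.cb S τ = d.κ ρ) ∨ (d.cb S τ ≠ d.κ ρ) := by
  rcases lt_or_gt_of_ne hne with hlt | hlt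
  · right
    have h1 := kappa3 h hd hρ hk hk' hl hlt
    have h2 := (cb3 h hd hρ hk).2.1
    have h3 := (cb3 h hd hτ hk').2.1
    intro e
    linarith
  · rcases hp : S.prv τ with _ | σ
    · exact absurd ⟨hk.trans hk'.symm, hl.symm⟩ (prv_none.1 hp ρ hlt)
    · obtain ⟨⟨h1, h2, h3⟩, h4⟩ := prv_some.1 hp
      rcases lt_trichotomy ρ σ with h5 | h5 | h5
      · right
        have hσ : σ < S.R := h1.trans hτ
        have h6 := kappa3 h hd hσ (h2.trans hk') hk (hl.symm.trans h3.symm) h5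
        have h7 := (cb3 h hd hσ (h2.trans hk')).2.1
        rw [r5_cb_some hp]
        intro e
        linarith
      · left
        subst h5
        exact ⟨(prv_nxt hτ).1 hp, r5_cb_some hp⟩
      · exact absurd ⟨hk.trans hk'.symm, hl.symm⟩ (h4 ρ h5 hlt)

/-- the borders of the next reads, kind 4 -/
theorem r7d_cb4 (h : S.WF) (hd : DatOK S d) {ρ τ : ℕ} (hρ : ρ < S.R) (hτ : τ < S.R)
    (hk : S.kd ρ = 4) (hk' : S.kd τ = 4) (hl : S.lane τ = S.lane ρ) (hne : τ ≠ ρ) :
    (τ ∈ S.nxt ρ ∧ d.cb S τ = d.κ ρ) ∨ (d.cb S τ ≠ d.κ ρ) := by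
  rcases lt_or_gt_of_ne hne with hlt | hlt
  · right
    have h1 := kappa4 h hd hρ hk hk' hl hlt
    have h2 := (cb4 h hd hρ hk).2.1
    have h3 := (cb4 h hd hτ hk').2.1
    intro e
    linarith
  · rcases hp : S.prv τ with _ | σ
    · exact absurd ⟨hk.trans hk'.symm, hl.symm⟩ (prv_none.1 hp ρ hlt)
    · obtain ⟨⟨h1, h2, h3⟩, h4⟩ := prv_some.1 hp
      rcases lt_trichotomy ρ σ with h5 | h5 | h5
      · right
        have hσ : σ < S.R := h1.trans hτ
        have h6 := kappa4 h hd hσ (h2.trans hk') hk (hl.symm.trans h3.symm) h5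
        have h7 := (cb4 h hd hσ (h2.trans hk')).2.1
        rw [r5_cb_some hp]
        intro e
        linarith
      · left
        subst h5
        exact ⟨(prv_nxt hτ).1 hp, r5_cb_some hp⟩
      · exact absurd ⟨hk.trans hk'.symm, hl.symm⟩ (h4 ρ h5 hlt)

/-- columns of different reads of the same kind in the same lane are different -/
theorem r7d_kne (h : S.WF) (hd : DatOK S d) {ρ τ : ℕ} (hρ : ρ < S.R) (hτ : τ < S.R)
    (hk : S.kd ρ = 3 ∨ S.kd ρ = 4) (hk' : S.kd τ = S.kd ρ) (hl : S.lane τ = S.lane ρ)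
    (hne : τ ≠ ρ) : d.κ τ ≠ d.κ ρ := by
  rcases hk with hk | hk
  · rcases lt_or_gt_of_ne hne with hlt | hlt
    · have h1 := kappa3 h hd hρ hk (hk'.trans hk) hl hlt
      have h2 := (cb3 h hd hρ hk).2.1
      intro e
      linarith
    · have h1 := kappa3 h hd hτ (hk'.trans hk) hk hl.symm hlt
      have h2 := (cb3 h hd hτ (hk'.trans hk)).2.1
      intro e
      linarith
  · rcases lt_or_gt_of_ne hne with hlt | hlt
    · have h1 := kappa4 h hd hρ hk (hk'.trans hk) hl hlt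
      have h2 := (cb4 h hd hρ hk).2.1
      intro e
      linarith
    · have h1 := kappa4 h hd hτ (hk'.trans hk) hk hl.symm hlt
      have h2 := (cb4 h hd hτ (hk'.trans hk)).2.1
      intro e
      linarith

/-- the block vertices on the line `k_ρ` -/
theorem r7d_key (h : S.WF) (hd : DatOK S d) {ρ : ℕ} (hρ : ρ < S.R) {b : ℕ × ℕ} {c : ℕ}
    (hb : S.binB b c) (e1 : S.bcol b = S.lane ρ) (e2 : (d.loc S b c).1 = d.κ ρ)
    (r1 : S.low ρ ≤ S.brow b) (r2 : S.brow b ≤ S.upr ρ) :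
    ((b = (0, ρ) ∨ b = (1, ρ)) ∧ c = 1) ∨ ∃ σ ∈ S.nxt ρ, (b = (0, σ) ∨ b = (1, σ)) ∧
      ((S.kd ρ = 3 ∧ c = 0) ∨ (S.kd ρ = 4 ∧ c = 2)) := by
  obtain ⟨τ, hτ, hbτ, hlτ⟩ := bcol_mid h hb (by rw [e1]; exact lane_ge h hρ)
    (by rw [e1]; exact lane_lt h hρ)
  have hl : S.lane τ = S.lane ρ := hlτ.trans e1
  have hc : c = 0 ∨ c = 1 ∨ c = 2 := by
    rcases hb with ⟨h1, h2, h3⟩ | ⟨h1, h2, h3, h4⟩
    · omega
    · rcases hbτ with hbτ | hbτ
      · rw [hbτ] at h1
        change 2 ≤ 0 at h1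
        omega
      · rw [hbτ] at h1
        change 2 ≤ 1 at h1
        omega
  have hr : (S.low ρ ≤ S.low τ ∧ S.low τ ≤ S.upr ρ) ∨ (S.low ρ ≤ S.upr τ ∧ S.upr τ ≤ S.upr ρ) := by
    rcases hbτ with hbτ | hbτ
    · rw [hbτ, r5b_row0] at r1 r2
      exact Or.inl ⟨r1, r2⟩
    · rw [hbτ, r5b_row1] at r1 r2
      exact Or.inr ⟨r1, r2⟩
  obtain ⟨hk, hk'⟩ := r7d_kd h hρ hτ hl hr
  by_cases hne : τ = ρ
  · subst hne
    left
    refine ⟨hbτ, ?_⟩
    have k1 := hd.k1 τ hρ
    have k2 := hd.k2 τ hρ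
    rcases hbτ with rfl | rfl
    · rcases hc with rfl | rfl | rfl
      · rw [r7d_00] at e2
        linarith
      · rfl
      · rw [r7d_02] at e2
        linarith
    · rcases hc with rfl | rfl | rfl
      · rw [r7d_10] at e2
        linarith
      · rfl
      · rw [r7d_12] at e2
        linarith
  · right
    have hk34 : S.kd ρ = 3 ∨ S.kd ρ = 4 := by
      have h1 := S.kd_le ρ
      by_contra h2
      exact hne (hk' (by omega))
    have hκ := r7d_kne h hd hρ hτ hk34 hk hl hne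
    have hx : d.xv S τ = d.xv S ρ := xv_eq h hρ hτ (by omega) hl
    have hx01 := xv01 hd ρ
    rcases hk34 with h3 | h3
    · have hcb := cb3 h hd hρ h3
      have hcase := r7d_cb3 h hd hρ hτ h3 (hk.trans h3) hl hne
      have a1 : d.bl S τ = d.cb S τ := by
        unfold Dat.bl
        rw [if_neg (by omega), if_pos (by omega)]
      have a2 : d.br S τ = d.xv S τ := by
        unfold Dat.br
        rw [if_pos (by omega)]
      have a3 : d.ul S τ = d.cb S τ := by
        unfold Dat.ul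
        rw [if_pos (by omega)]
      have a4 : d.ur S τ = 1 := by
        unfold Dat.ur
        rw [if_neg (by omega), if_neg (by omega)]
      rcases hbτ with rfl | rfl
      · rcases hc with rfl | rfl | rfl
        · rw [r7d_00, a1] at e2
          rcases hcase with ⟨h5, -⟩ | h5
          · exact ⟨τ, h5, Or.inl rfl, Or.inl ⟨h3, rfl⟩⟩
          · exact absurd e2 h5
        · rw [r7d_01] at e2
          exact absurd e2 hκ
        · rw [r7d_02, a2, hx] at e2
          linarith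
      · rcases hc with rfl | rfl | rfl
        · rw [r7d_10, a3] at e2
          rcases hcase with ⟨h5, -⟩ | h5
          · exact ⟨τ, h5, Or.inr rfl, Or.inl ⟨h3, rfl⟩⟩
          · exact absurd e2 h5
        · rw [r7d_11] at e2
          exact absurd e2 hκ
        · rw [r7d_12, a4] at e2
          linarith
    · have hcb := cb4 h hd hρ h3
      have hcase := r7d_cb4 h hd hρ hτ h3 (hk.trans h3) hl hne
      have a1 : d.bl S τ = 0 := by
        unfold Dat.bl
        rw [if_neg (by omega), if_neg (by omega)]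
      have a2 : d.br S τ = d.cb S τ := by
        unfold Dat.br
        rw [if_neg (by omega), if_pos (by omega)]
      have a3 : d.ul S τ = d.xv S τ := by
        unfold Dat.ul
        rw [if_neg (by omega), if_pos (by omega)]
      have a4 : d.ur S τ = d.cb S τ := by
        unfold Dat.ur
        rw [if_neg (by omega), if_pos (by omega)]
      rcases hbτ with rfl | rfl
      · rcases hc with rfl | rfl | rfl
        · rw [r7d_00, a1] at e2
          linarith
        · rw [r7d_01] at e2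
          exact absurd e2 hκ
        · rw [r7d_02, a2] at e2
          rcases hcase with ⟨h5, -⟩ | h5
          · exact ⟨τ, h5, Or.inl rfl, Or.inr ⟨h3, rfl⟩⟩
          · exact absurd e2 h5
      · rcases hc with rfl | rfl | rfl
        · rw [r7d_10, a3, hx] at e2
          linarith
        · rw [r7d_11] at e2
          exact absurd e2 hκ
        · rw [r7d_12, a4] at e2
          rcases hcase with ⟨h5, -⟩ | h5
          · exact ⟨τ, h5, Or.inr rfl, Or.inr ⟨h3, rfl⟩⟩
          · exact absurd e2 h5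

/-- The general form: the two ends and a middle part. -/
theorem r7d_gen (h : S.WF) (hd : DatOK S d) {ρ : ℕ} (hρ : ρ < S.R) {r : List Vx}
    (hr : ∀ v ∈ r, ∃ b c, v = .blk b c ∧ S.binB b c ∧ S.bcol b = S.lane ρ ∧
      (d.loc S b c).1 = d.κ ρ ∧ S.low ρ ≤ S.brow b ∧ S.brow b ≤ S.upr ρ)
    (hs : r.Pairwise fun v w => (d.pos S v).2 < (d.pos S w).2)
    (hm : ∀ b c, (((b = (0, ρ) ∨ b = (1, ρ)) ∧ c = 1) ∨ ∃ σ ∈ S.nxt ρ, (b = (0, σ) ∨ b = (1, σ)) ∧
      ((S.kd ρ = 3 ∧ c = 0) ∨ (S.kd ρ = 4 ∧ c = 2))) → Vx.blk b c ∈ r) : ColGood S d r := by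
  have hκ : 0 < d.κ ρ ∧ d.κ ρ < 1 := by
    have h1 := hd.k1 ρ hρ
    have h2 := bord01 h hd hρ
    exact ⟨by linarith, by linarith⟩
  have hN : (S.lane ρ : ℝ) + 1 ≤ S.NN := by
    have h1 := lane_lt h hρ
    have h2 : S.lane ρ + 1 ≤ S.NN := by
      unfold rlane at h1
      unfold NN
      have := h.pos
      omega
    exact_mod_cast h2
  have hl0 : (0 : ℝ) ≤ S.lane ρ := Nat.cast_nonneg _
  refine r7_gen h hd (X := 2 * S.lane ρ + 1 / 2 + d.κ ρ) (by linarith) (by linarith) ?_ ?_ ?_ hs ?_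
  · intro v hv
    obtain ⟨b, c, rfl, -, e1, e2, -, -⟩ := hr v hv
    change 2 * (S.bcol b : ℝ) + 1 / 2 + (d.loc S b c).1 = _
    rw [e1, e2]
  · intro v hv
    obtain ⟨b, c, rfl, e0, -⟩ := hr v hv
    exact e0
  · intro v hv
    obtain ⟨b, c, rfl, -⟩ := hr v hv
    exact Or.inr (Or.inr ⟨b, c, rfl⟩)
  · intro b c hb e hlo hup
    have hb0 : S.binB (0, ρ) 1 := r7d_bin (Or.inl rfl) hρ (by omega)
    have e' : (d.pos S (.blk b c)).1 = (d.pos S (.blk (0, ρ) 1)).1 := by
      rw [e]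
      change _ = 2 * (S.bcol (0, ρ) : ℝ) + 1 / 2 + (d.loc S (0, ρ) 1).1
      rw [r5b_col0, r7d_01]
    obtain ⟨f1, f2⟩ := blk_col_eq h hd hb hb0 e'
    rw [r5b_col0] at f1
    rw [r7d_01] at f2
    obtain ⟨-, -, g1, g2⟩ := blk_mem h hd hb
    obtain ⟨a, ha, ha'⟩ := hlo
    obtain ⟨a2, ha2, ha2'⟩ := hup
    obtain ⟨ba, ca, rfl, i1, -, -, i2, i3⟩ := hr a ha
    obtain ⟨bb, cb, rfl, j1, -, -, j2, j3⟩ := hr a2 ha2
    have k1 := (blk_mem h hd i1).2.2.1
    have k2 := (blk_mem h hd j1).2.2.2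
    refine hm b c (r7d_key h hd hρ hb f1 f2 ?_ ?_)
    · by_contra hlt
      have h1 : (S.brow b : ℝ) + 1 ≤ S.brow ba := by
        have : S.brow b + 1 ≤ S.brow ba := by omega
        exact_mod_cast this
      linarith
    · by_contra hlt
      have h1 : (S.brow bb : ℝ) + 1 ≤ S.brow b := by
        have : S.brow bb + 1 ≤ S.brow b := by omega
        exact_mod_cast this
      linarith

/-- The line `k_ρ`: `(0,ρ) 1`, [the `s` (kind 3) or `v` (kind 4) vertices of the two blocks of the next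
read], `(1,ρ) 1`. Vertices with the same first coordinate `κ ρ` in the same lane: for kind 3 and 4 use
`kappa3`, `kappa4`, `cb3`, `cb4`: other columns of the lane are different, and `cb τ = κ ρ` only for the
next read `τ`. -/
theorem ck_good (h : S.WF) (hd : DatOK S d) {ρ : ℕ} (hρ : ρ < S.R) :
    ColGood S d (S.ck ρ) := by
  have hlu := low_lt_upr h hρ
  have hend : ∀ g, (g = 0 ∨ g = 1) → ∃ b c, Vx.blk (g, ρ) 1 = .blk b c ∧ S.binB b c ∧
      S.bcol b = S.lane ρ ∧ (d.loc S b c).1 = d.κ ρ ∧ S.low ρ ≤ S.brow b ∧ S.brow b ≤ S.upr ρ := by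
    intro g hg
    refine ⟨(g, ρ), 1, rfl, r7d_bin hg hρ (by omega), ?_⟩
    rcases hg with rfl | rfl
    · rw [r5b_col0, r7d_01, r5b_row0]
      exact ⟨rfl, rfl, le_rfl, hlu.le⟩
    · rw [r5b_col1, r7d_11, r5b_row1]
      exact ⟨rfl, rfl, hlu.le, le_rfl⟩
  by_cases hmid : (S.kd ρ = 3 ∨ S.kd ρ = 4) ∧ S.nxt ρ ≠ []
  · obtain ⟨hk, hn⟩ := hmid
    obtain ⟨σ, hσ⟩ : ∃ σ, S.nxt ρ = [σ] := by
      have h1 := nxt_length S ρ
      cases hl : S.nxt ρ with
      | nil => exact absurd hl hn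
      | cons a t =>
        rw [hl] at h1
        simp only [List.length_cons] at h1
        have : t = [] := List.length_eq_zero_iff.1 (by omega)
        exact ⟨a, by rw [this]⟩
    have hσm : σ ∈ S.nxt ρ := by
      rw [hσ]
      exact List.mem_singleton_self _
    obtain ⟨⟨s1, s2, s3, s4⟩, -⟩ := mem_nxt.1 hσm
    have hp : S.prv σ = some ρ := (prv_nxt s1).2 hσm
    have hcb : d.cb S σ = d.κ ρ := r5_cb_some hp
    have hrow : S.low ρ < S.low σ ∧ S.low σ < S.upr σ ∧ S.upr σ < S.upr ρ := by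
      refine ⟨?_, low_lt_upr h s1, ?_⟩
      · unfold low outer
        rw [s2]
        split_ifs <;> omega
      · unfold upr outer
        rw [s2]
        split_ifs <;> omega
    obtain ⟨w1, w2, w3⟩ := hrow
    obtain ⟨c0, hc0, hc3, hl1, hl2⟩ : ∃ c0, ((S.kd ρ = 3 ∧ c0 = 0) ∨ (S.kd ρ = 4 ∧ c0 = 2)) ∧ c0 < 3 ∧
        (d.loc S (0, σ) c0).1 = d.κ ρ ∧ (d.loc S (1, σ) c0).1 = d.κ ρ := by
      rcases hk with hk | hk
      · refine ⟨0, Or.inl ⟨hk, rfl⟩, by omega, ?_, ?_⟩
        · rw [r7d_00, ← hcb]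
          unfold Dat.bl
          rw [if_neg (by omega), if_pos (by omega)]
        · rw [r7d_10, ← hcb]
          unfold Dat.ul
          rw [if_pos (by omega)]
      · refine ⟨2, Or.inr ⟨hk, rfl⟩, by omega, ?_, ?_⟩
        · rw [r7d_02, ← hcb]
          unfold Dat.br
          rw [if_neg (by omega), if_pos (by omega)]
        · rw [r7d_12, ← hcb]
          unfold Dat.ur
          rw [if_neg (by omega), if_pos (by omega)]
    have hck : S.ck ρ = [.blk (0, ρ) 1, .blk (0, σ) c0, .blk (1, σ) c0, .blk (1, ρ) 1] := by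
      unfold ck
      rw [hσ]
      rcases hc0 with ⟨k1, rfl⟩ | ⟨k1, rfl⟩
      · rw [if_pos k1]
        rfl
      · rw [if_neg (by omega), if_pos k1]
        rfl
    have b1 : S.binB (0, ρ) 1 := r7d_bin (Or.inl rfl) hρ (by omega)
    have b2 : S.binB (0, σ) c0 := r7d_bin (Or.inl rfl) s1 hc3
    have b3 : S.binB (1, σ) c0 := r7d_bin (Or.inr rfl) s1 hc3
    have b4 : S.binB (1, ρ) 1 := r7d_bin (Or.inr rfl) hρ (by omega)
    rw [hck]
    refine r7d_gen h hd hρ ?_ ?_ ?_
    · intro v hv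
      simp only [List.mem_cons, List.not_mem_nil, or_false] at hv
      rcases hv with rfl | rfl | rfl | rfl
      · exact hend 0 (Or.inl rfl)
      · refine ⟨(0, σ), c0, rfl, b2, ?_, hl1, ?_, ?_⟩
        · rw [r5b_col0, s3]
        · rw [r5b_row0]
          omega
        · rw [r5b_row0]
          omega
      · refine ⟨(1, σ), c0, rfl, b3, ?_, hl2, ?_, ?_⟩
        · rw [r5b_col1, s3]
        · rw [r5b_row1]
          omega
        · rw [r5b_row1]
          omega
      · exact hend 1 (Or.inr rfl)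
    · have t1 : S.brow (0, ρ) < S.brow (0, σ) := by rw [r5b_row0, r5b_row0]; exact w1
      have t2 : S.brow (0, σ) < S.brow (1, σ) := by rw [r5b_row0, r5b_row1]; exact w2
      have t3 : S.brow (1, σ) < S.brow (1, ρ) := by rw [r5b_row1, r5b_row1]; exact w3
      simp only [List.pairwise_cons, List.mem_cons, List.not_mem_nil, or_false, forall_eq_or_imp,
        forall_eq, IsEmpty.forall_iff, implies_true, List.Pairwise.nil, and_true]
      exact ⟨⟨r7d_lt h hd b1 b2 t1, r7d_lt h hd b1 b3 (by omega), r7d_lt h hd b1 b4 (by omega)⟩,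
        ⟨r7d_lt h hd b2 b3 t2, r7d_lt h hd b2 b4 (by omega)⟩, r7d_lt h hd b3 b4 t3⟩
    · rintro b c (⟨hb, rfl⟩ | ⟨σ', hσ', hb, hc⟩)
      · rcases hb with rfl | rfl <;> simp
      · rw [hσ, List.mem_singleton] at hσ'
        subst hσ'
        have hcc : c = c0 := by omega
        subst hcc
        rcases hb with rfl | rfl <;> simp
  · have hck : S.ck ρ = [.blk (0, ρ) 1, .blk (1, ρ) 1] := by
      unfold ck
      by_cases h3 : S.kd ρ = 3
      · have h4 : S.nxt ρ = [] := by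
          by_contra h5
          exact hmid ⟨Or.inl h3, h5⟩
        rw [if_pos h3, h4]
        rfl
      · rw [if_neg h3]
        by_cases h3' : S.kd ρ = 4
        · have h4 : S.nxt ρ = [] := by
            by_contra h5
            exact hmid ⟨Or.inr h3', h5⟩
          rw [if_pos h3', h4]
          rfl
        · rw [if_neg h3']
          rfl
    have b1 : S.binB (0, ρ) 1 := r7d_bin (Or.inl rfl) hρ (by omega)
    have b4 : S.binB (1, ρ) 1 := r7d_bin (Or.inr rfl) hρ (by omega)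
    rw [hck]
    refine r7d_gen h hd hρ ?_ ?_ ?_
    · intro v hv
      simp only [List.mem_cons, List.not_mem_nil, or_false] at hv
      rcases hv with rfl | rfl
      · exact hend 0 (Or.inl rfl)
      · exact hend 1 (Or.inr rfl)
    · have t1 : S.brow (0, ρ) < S.brow (1, ρ) := by rw [r5b_row0, r5b_row1]; exact hlu
      simp only [List.pairwise_cons, List.mem_cons, List.not_mem_nil, or_false,
        forall_eq, IsEmpty.forall_iff, implies_true, List.Pairwise.nil, and_true]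
      exact r7d_lt h hd b1 b4 t1
    · rintro b c (⟨hb, rfl⟩ | ⟨σ', hσ', hb, hc⟩)
      · rcases hb with rfl | rfl <;> simp
      · exfalso
        refine hmid ⟨?_, List.ne_nil_of_mem hσ'⟩
        rcases hc with ⟨h1, -⟩ | ⟨h1, -⟩
        · exact Or.inl h1
        · exact Or.inr h1

end Pool.Agent.H54R
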