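import Pool.Agent.Lib.H54R.RDefs
import Pool.Agent.Lib.H54R.R7
import Pool.Agent.Lib.H54R.R7B
import Pool.Agent.Lib.H54R.R7C
import Pool.Agent.Lib.H54R.R7D

/-!
# R7E: all column lines
-/

set_option autoImplicit false

namespace Pool.Agent.H54R

open RS

variable {S : RS} {d : Dat}

theorem r7e_cols {r : List Vx} (hr : r ∈ S.cols) : (∃ j ≤ S.NN, r = [.B (4 * j), .T (4 * j)]) ∨
    (∃ j < S.NN, r ∈ S.laneC j) ∨ ∃ ρ < S.R, r = S.ck ρ := by
  unfold cols at hr
  rw [List.mem_append, List.mem_append] at hr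
  rcases hr with (hr | hr) | hr
  · obtain ⟨j, hj, rfl⟩ := List.mem_map.1 hr
    exact Or.inl ⟨j, Nat.lt_succ_iff.1 (List.mem_range.1 hj), rfl⟩
  · obtain ⟨j, hj, hr⟩ := List.mem_flatMap.1 hr
    exact Or.inr (Or.inl ⟨j, List.mem_range.1 hj, hr⟩)
  · obtain ⟨ρ, hρ, rfl⟩ := List.mem_map.1 hr
    exact Or.inr (Or.inr ⟨ρ, List.mem_range.1 hρ, rfl⟩)

theorem cols_good (h : S.WF) (hd : DatOK S d) : ∀ r ∈ S.cols, ColGood S d r := by
  intro r hr
  rcases r7e_cols hr with ⟨j, hj, rfl⟩ | ⟨j, hj, hr⟩ | ⟨ρ, hρ, rfl⟩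
  · exact col_long h hd hj
  · have hlen := h.len
    by_cases h1 : j < 2 * S.K
    · exact cols_left h hd h1 r hr
    · by_cases h2 : j < 6 * S.K
      · obtain ⟨ρ, rfl⟩ : ∃ ρ, j = 2 * S.K + ρ := ⟨j - 2 * S.K, by omega⟩
        exact cols_plain h hd (by omega) r hr
      · by_cases h3 : j < 6 * S.K + S.m
        · obtain ⟨k, rfl⟩ : ∃ k, j = 6 * S.K + k := ⟨j - 6 * S.K, by omega⟩
          exact cols_fresh h hd (by omega) r hr
        · by_cases h4 : j < 6 * S.K + S.m + S.n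
          · obtain ⟨i, rfl⟩ : ∃ i, j = 6 * S.K + S.m + i := ⟨j - (6 * S.K + S.m), by omega⟩
            exact cols_home h hd (by omega) r hr
          · obtain ⟨l, rfl⟩ : ∃ l, j = S.rlane l := ⟨j - (6 * S.K + S.m + S.n), by
              unfold rlane
              omega⟩
            have h5 : l < 2 * S.K := by
              unfold rlane NN at hj
              omega
            exact cols_right h hd h5 r hr
  · exact ck_good h hd hρ

/-- the column line of a vertex: kind of the line and number of the lane or of the read -/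
def r7e_L (S : RS) : Vx → ℕ × ℕ
  | .B k => (k % 4, k / 4)
  | .T k => (k % 4, k / 4)
  | .L _ => (9, 0)
  | .R _ => (9, 0)
  | .hub _ => (9, 0)
  | .blk b c =>
    if b.1 ≤ 1 then
      (if c = 1 then (6, b.2)
      else if c = 0 then
        (if S.kd b.2 = 0 ∨ S.kd b.2 = 1 then (1, S.lane b.2)
        else if S.kd b.2 = 2 then (if b.1 = 0 then (5, S.lane b.2) else (1, S.lane b.2))
        else if S.kd b.2 = 3 then (match S.prv b.2 with
          | none => (1, S.lane b.2)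
          | some σ => (6, σ))
        else (if b.1 = 0 then (1, S.lane b.2) else (5, S.lane b.2)))
      else
        (if S.kd b.2 = 0 ∨ S.kd b.2 = 2 then (3, S.lane b.2)
        else if S.kd b.2 = 1 then (if b.1 = 0 then (3, S.lane b.2) else (5, S.lane b.2))
        else if S.kd b.2 = 3 then (if b.1 = 0 then (5, S.lane b.2) else (3, S.lane b.2))
        else (match S.prv b.2 with
          | none => (3, S.lane b.2)
          | some σ => (6, σ))))
    else if b.1 = 2 then (if c = 0 then (2, b.2) else if c = 1 then (3, b.2) else (4, b.2))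
    else if b.1 = 3 then
      (if c = 0 then (1, b.2) else if c = 2 then (2, b.2) else if c = 4 then (3, b.2) else (4, b.2))
    else if b.1 = 4 then
      (if c = 1 then (1, S.rlane b.2) else if c = 0 then (2, S.rlane b.2) else (4, S.rlane b.2))
    else
      (if c = 4 then (1, S.rlane b.2) else if c = 0 then (3, S.rlane b.2)
        else if c = 2 then (2, S.rlane b.2) else (4, S.rlane b.2))

/-- the line with given kind and number -/
def r7e_mk (S : RS) (p : ℕ × ℕ) : List Vx :=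
  if p.1 = 0 then [.B (4 * p.2), .T (4 * p.2)]
  else if p.1 = 1 then .B (4 * p.2 + 1) :: bx (S.cL p.2) ++ [.T (4 * p.2 + 1)]
  else if p.1 = 2 then S.cC p.2
  else if p.1 = 3 then .B (4 * p.2 + 3) :: bx (S.cR p.2) ++ [.T (4 * p.2 + 3)]
  else if p.1 = 4 then S.cf p.2
  else if p.1 = 5 then S.cX p.2
  else S.ck p.2

theorem r7e_rl {j : ℕ} (hj : S.rlane 0 ≤ j) : S.rlane (j - S.rlane 0) = j := by
  unfold rlane at hj ⊢
  omega

theorem r7e_first {k j ρ : ℕ} (hρ : ρ ∈ (S.rd k j).take 1) :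
    S.kd ρ = k ∧ S.lane ρ = j ∧ S.prv ρ = none := by
  rw [c2_take (S.rd_sorted k j)] at hρ
  obtain ⟨h1, h2⟩ := hρ
  obtain ⟨h3, h4, h5⟩ := mem_rd.1 h1
  refine ⟨h4, h5, prv_none.2 fun τ hτ hh => ?_⟩
  exact h2 τ (mem_rd.2 ⟨by omega, hh.1.trans h4, hh.2.trans h5⟩) hτ

theorem r7e_cL {j : ℕ} {v : (ℕ × ℕ) × ℕ} (hv : v ∈ S.cL j) :
    r7e_L S (.blk v.1 v.2) = (1, j) := by
  unfold cL at hv
  split_ifs at hv with h1 h2
  · rw [List.mem_singleton] at hv
    subst hv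
    simp [r7e_L]
  · simp only [List.mem_cons, List.not_mem_nil, or_false] at hv
    rcases hv with rfl | rfl
    · simp [r7e_L, r7e_rl h2]
    · simp [r7e_L, r7e_rl h2]
  · simp only [List.mem_append, List.mem_map, List.mem_flatMap, List.mem_cons, List.not_mem_nil,
      or_false] at hv
    rcases hv with (((⟨ρ, hρ, rfl⟩ | ⟨ρ, hρ, rfl | rfl⟩) | ⟨ρ, hρ, rfl | rfl⟩) |
      ⟨ρ, hρ, rfl | rfl⟩) | ⟨ρ, hρ, rfl⟩
    · obtain ⟨-, e1, e2⟩ := mem_rd.1 hρ
      simp [r7e_L, e1, e2]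
    · obtain ⟨-, e1, e2⟩ := mem_rd.1 hρ
      simp [r7e_L, e1, e2]
    · obtain ⟨-, e1, e2⟩ := mem_rd.1 hρ
      simp [r7e_L, e1, e2]
    · obtain ⟨-, e1, e2⟩ := mem_rd.1 hρ
      simp [r7e_L, e1, e2]
    · obtain ⟨-, e1, e2⟩ := mem_rd.1 hρ
      simp [r7e_L, e1, e2]
    · obtain ⟨e1, e2, e3⟩ := r7e_first hρ
      simp [r7e_L, e1, e2, e3]
    · obtain ⟨e1, e2, e3⟩ := r7e_first hρ
      simp [r7e_L, e1, e2, e3]
    · obtain ⟨-, e1, e2⟩ := mem_rd.1 hρ
      simp [r7e_L, e1, e2]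

theorem r7e_cR {j : ℕ} {v : (ℕ × ℕ) × ℕ} (hv : v ∈ S.cR j) :
    r7e_L S (.blk v.1 v.2) = (3, j) := by
  unfold cR at hv
  split_ifs at hv with h1 h2
  · simp only [List.mem_cons, List.not_mem_nil, or_false] at hv
    rcases hv with rfl | rfl
    · simp [r7e_L]
    · simp [r7e_L]
  · rw [List.mem_singleton] at hv
    subst hv
    simp [r7e_L, r7e_rl h2]
  · simp only [List.mem_append, List.mem_map, List.mem_flatMap, List.mem_cons, List.not_mem_nil,
      or_false, List.mem_reverse] at hv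
    rcases hv with (((⟨ρ, hρ, rfl | rfl⟩ | ⟨ρ, hρ, rfl⟩) | ⟨ρ, hρ, rfl | rfl⟩) |
      ⟨ρ, hρ, rfl | rfl⟩) | ⟨ρ, hρ, rfl⟩
    · obtain ⟨-, e1, e2⟩ := mem_rd.1 hρ
      simp [r7e_L, e1, e2]
    · obtain ⟨-, e1, e2⟩ := mem_rd.1 hρ
      simp [r7e_L, e1, e2]
    · obtain ⟨-, e1, e2⟩ := mem_rd.1 hρ
      simp [r7e_L, e1, e2]
    · obtain ⟨-, e1, e2⟩ := mem_rd.1 hρ
      simp [r7e_L, e1, e2]
    · obtain ⟨-, e1, e2⟩ := mem_rd.1 hρ
      simp [r7e_L, e1, e2]
    · obtain ⟨e1, e2, e3⟩ := r7e_first hρ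
      simp [r7e_L, e1, e2, e3]
    · obtain ⟨e1, e2, e3⟩ := r7e_first hρ
      simp [r7e_L, e1, e2, e3]
    · obtain ⟨-, e1, e2⟩ := mem_rd.1 hρ
      simp [r7e_L, e1, e2]

theorem r7e_cX {j : ℕ} {v : Vx} (hv : v ∈ S.cX j) : r7e_L S v = (5, j) := by
  unfold cX at hv
  simp only [List.mem_append, List.mem_map, List.mem_reverse] at hv
  rcases hv with ((⟨ρ, hρ, rfl⟩ | ⟨ρ, hρ, rfl⟩) | ⟨ρ, hρ, rfl⟩) | ⟨ρ, hρ, rfl⟩
  · obtain ⟨-, e1, e2⟩ := mem_rd.1 hρ
    simp [r7e_L, e1, e2]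
  · obtain ⟨-, e1, e2⟩ := mem_rd.1 hρ
    simp [r7e_L, e1, e2]
  · obtain ⟨-, e1, e2⟩ := mem_rd.1 hρ
    simp [r7e_L, e1, e2]
  · obtain ⟨-, e1, e2⟩ := mem_rd.1 hρ
    simp [r7e_L, e1, e2]

theorem r7e_cC {j : ℕ} {v : Vx} (hv : v ∈ S.cC j) : r7e_L S v = (2, j) := by
  unfold cC at hv
  split_ifs at hv with h1 h2
  · simp only [List.mem_cons, List.not_mem_nil, or_false] at hv
    rcases hv with rfl | rfl | rfl
    · simp only [r7e_L, Prod.mk.injEq]
      omega
    · simp [r7e_L]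
    · simp [r7e_L]
  · simp only [List.mem_cons, List.not_mem_nil, or_false] at hv
    rcases hv with rfl | rfl | rfl
    · simp [r7e_L, r7e_rl h2]
    · simp [r7e_L, r7e_rl h2]
    · simp only [r7e_L, Prod.mk.injEq]
      omega
  · simp at hv

theorem r7e_cf {j : ℕ} {v : Vx} (hv : v ∈ S.cf j) : r7e_L S v = (4, j) := by
  unfold cf at hv
  split_ifs at hv with h1 h2
  · simp only [List.mem_cons, List.not_mem_nil, or_false] at hv
    rcases hv with rfl | rfl | rfl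
    · simp [r7e_L]
    · simp [r7e_L]
    · simp [r7e_L]
  · simp only [List.mem_cons, List.not_mem_nil, or_false] at hv
    rcases hv with rfl | rfl | rfl
    · simp [r7e_L, r7e_rl h2]
    · simp [r7e_L, r7e_rl h2]
    · simp [r7e_L, r7e_rl h2]
  · simp at hv

theorem r7e_ck {ρ : ℕ} {v : Vx} (hv : v ∈ S.ck ρ) : r7e_L S v = (6, ρ) := by
  unfold ck at hv
  simp only [List.mem_append, List.mem_cons, List.not_mem_nil, or_false] at hv
  rcases hv with (rfl | hv) | rfl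
  · simp [r7e_L]
  · split_ifs at hv with h1 h2
    · obtain ⟨σ, hσ, hv⟩ := List.mem_flatMap.1 hv
      obtain ⟨⟨s1, s2, s3, s4⟩, -⟩ := mem_nxt.1 hσ
      have hp : S.prv σ = some ρ := (prv_nxt s1).2 hσ
      simp only [List.mem_cons, List.not_mem_nil, or_false] at hv
      rcases hv with rfl | rfl
      · simp [r7e_L, hp, s2, h1]
      · simp [r7e_L, hp, s2, h1]
    · obtain ⟨σ, hσ, hv⟩ := List.mem_flatMap.1 hv
      obtain ⟨⟨s1, s2, s3, s4⟩, -⟩ := mem_nxt.1 hσ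
      have hp : S.prv σ = some ρ := (prv_nxt s1).2 hσ
      simp only [List.mem_cons, List.not_mem_nil, or_false] at hv
      rcases hv with rfl | rfl
      · simp [r7e_L, hp, s2, h2]
      · simp [r7e_L, hp, s2, h2]
    · simp at hv
  · simp [r7e_L]

theorem r7e_mk_eq {r : List Vx} (hr : r ∈ S.cols) : ∃ p, r = r7e_mk S p ∧ ∀ v ∈ r, r7e_L S v = p := by
  rcases r7e_cols hr with ⟨j, hj, rfl⟩ | ⟨j, hj, hr⟩ | ⟨ρ, hρ, rfl⟩
  · refine ⟨(0, j), rfl, fun v hv => ?_⟩
    simp only [List.mem_cons, List.not_mem_nil, or_false] at hv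
    rcases hv with rfl | rfl <;> (simp only [r7e_L, Prod.mk.injEq]; omega)
  · unfold laneC at hr
    simp only [List.mem_cons, List.not_mem_nil, or_false] at hr
    rcases hr with rfl | rfl | rfl | rfl | rfl
    · refine ⟨(1, j), rfl, fun v hv => ?_⟩
      simp only [List.mem_append, List.mem_cons, List.not_mem_nil, or_false] at hv
      rcases hv with (rfl | hv) | rfl
      · simp only [r7e_L, Prod.mk.injEq]
        omega
      · unfold bx at hv
        obtain ⟨w, hw, rfl⟩ := List.mem_map.1 hv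
        exact r7e_cL hw
      · simp only [r7e_L, Prod.mk.injEq]
        omega
    · refine ⟨(3, j), rfl, fun v hv => ?_⟩
      simp only [List.mem_append, List.mem_cons, List.not_mem_nil, or_false] at hv
      rcases hv with (rfl | hv) | rfl
      · simp only [r7e_L, Prod.mk.injEq]
        omega
      · unfold bx at hv
        obtain ⟨w, hw, rfl⟩ := List.mem_map.1 hv
        exact r7e_cR hw
      · simp only [r7e_L, Prod.mk.injEq]
        omega
    · exact ⟨(2, j), rfl, fun v hv => r7e_cC hv⟩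
    · exact ⟨(4, j), rfl, fun v hv => r7e_cf hv⟩
    · exact ⟨(5, j), rfl, fun v hv => r7e_cX hv⟩
  · exact ⟨(6, ρ), rfl, fun v hv => r7e_ck hv⟩

/-- a vertex is on at most one column line -/
theorem cols_disj (h : S.WF) (hd : DatOK S d) : ∀ r ∈ S.cols, ∀ r' ∈ S.cols, ∀ v ∈ r, v ∈ r' →
    r = r' := by
  intro r hr r' hr' v hv hv'
  obtain ⟨p, e1, e2⟩ := r7e_mk_eq hr
  obtain ⟨p', e1', e2'⟩ := r7e_mk_eq hr'
  rw [e1, e1', ← e2 v hv, ← e2' v hv']

end Pool.Agent.H54R
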