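import Pool.Agent.Lib.H54R.RDefs
import Pool.Agent.Lib.H54R.R4

/-!
# R4B: the picture of a read block
-/

set_option autoImplicit false

namespace Pool.Agent.H54R

/-- Lower block: `s = (bl, hb)`, `t = (k, hy)`, `v = (br, 1)`, `t` above the lever `s v`. -/
theorem read_lines {bl k br hb hy : ℝ} (h1 : bl < k) (h2 : k < br) (h3 : hb < hy) (h4 : hy < 1)
    (h5 : (k - bl) * (1 - hb) < (hy - hb) * (br - bl)) {a b z : Pt}
    (hab : (a, b) = (((bl, hb) : Pt), ((k, hy) : Pt)) ∨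
      (a, b) = (((k, hy) : Pt), ((br, 1) : Pt)) ∨ (a, b) = (((bl, hb) : Pt), ((br, 1) : Pt)))
    (hz : z ∈ openSegment ℝ a b) :
    bl < z.1 ∧ z.1 < br ∧ hb < z.2 ∧ z.2 < 1 ∧ ¬ (z.2 = hy ∧ z.1 ≤ k) ∧
      ¬ (z.1 = k ∧ hy ≤ z.2) := by
  obtain ⟨t, ht, ht', z1, z2⟩ := r4_open hz
  rcases hab with hab | hab | hab
  · obtain ⟨rfl, rfl⟩ := Prod.mk.inj hab
    change z.1 = bl + t * (k - bl) at z1
    change z.2 = hb + t * (hy - hb) at z2
    obtain ⟨a1, a2⟩ := r4_mul ht ht' (show 0 < k - bl by linarith)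
    obtain ⟨b1, b2⟩ := r4_mul ht ht' (show 0 < hy - hb by linarith)
    refine ⟨by linarith, by linarith, by linarith, by linarith, ?_, ?_⟩
    · rintro ⟨c1, c2⟩
      linarith
    · rintro ⟨c1, c2⟩
      linarith
  · obtain ⟨rfl, rfl⟩ := Prod.mk.inj hab
    change z.1 = k + t * (br - k) at z1
    change z.2 = hy + t * (1 - hy) at z2
    obtain ⟨a1, a2⟩ := r4_mul ht ht' (show 0 < br - k by linarith)
    obtain ⟨b1, b2⟩ := r4_mul ht ht' (show 0 < 1 - hy by linarith)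
    refine ⟨by linarith, by linarith, by linarith, by linarith, ?_, ?_⟩
    · rintro ⟨c1, c2⟩
      linarith
    · rintro ⟨c1, c2⟩
      linarith
  · obtain ⟨rfl, rfl⟩ := Prod.mk.inj hab
    change z.1 = bl + t * (br - bl) at z1
    change z.2 = hb + t * (1 - hb) at z2
    obtain ⟨a1, a2⟩ := r4_mul ht ht' (show 0 < br - bl by linarith)
    obtain ⟨b1, b2⟩ := r4_mul ht ht' (show 0 < 1 - hb by linarith)
    refine ⟨by linarith, by linarith, by linarith, by linarith, ?_, ?_⟩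
    · rintro ⟨c1, c2⟩
      have c3 : t * (1 - hb) = hy - hb := by linarith
      have c4 : t * (br - bl) ≤ k - bl := by linarith
      have c5 := mul_le_mul_of_nonneg_right c4 (show 0 ≤ 1 - hb by linarith)
      have c6 : t * (br - bl) * (1 - hb) = (hy - hb) * (br - bl) := by rw [← c3]; ring
      linarith
    · rintro ⟨c1, c2⟩
      have c3 : t * (br - bl) = k - bl := by linarith
      have c4 : hy - hb ≤ t * (1 - hb) := by linarith
      have c5 := mul_le_mul_of_nonneg_right c4 (show 0 ≤ br - bl by linarith)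
      have c6 : t * (1 - hb) * (br - bl) = (k - bl) * (1 - hb) := by rw [← c3]; ring
      linarith

theorem read_pairs {bl k br hb hy : ℝ} (h1 : bl < k) (h2 : k < br) (h3 : hb < hy) (h4 : hy < 1)
    (h5 : (k - bl) * (1 - hb) < (hy - hb) * (br - bl)) :
    (∀ z ∈ openSegment ℝ ((bl, hb) : Pt) (k, hy), z ∉ openSegment ℝ ((k, hy) : Pt) (br, 1)) ∧
    (∀ z ∈ openSegment ℝ ((bl, hb) : Pt) (k, hy), z ∉ openSegment ℝ ((bl, hb) : Pt) (br, 1)) ∧
    ∀ z ∈ openSegment ℝ ((k, hy) : Pt) (br, 1), z ∉ openSegment ℝ ((bl, hb) : Pt) (br, 1) := by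
  refine ⟨fun z hz hz' => ?_, fun z hz hz' => ?_, fun z hz hz' => ?_⟩
  · refine r4_sep 1 0 (-k) hz' hz ?_ ?_ ?_ ?_ ?_
    · show (0 : ℝ) ≤ 1 * k + 0 * hy + -k
      linarith
    · show (0 : ℝ) ≤ 1 * br + 0 * 1 + -k
      linarith
    · show (0 : ℝ) < (1 * k + 0 * hy + -k) + (1 * br + 0 * 1 + -k)
      linarith
    · show 1 * bl + 0 * hb + -k ≤ (0 : ℝ)
      linarith
    · show 1 * k + 0 * hy + -k ≤ (0 : ℝ)
      linarith
  · refine r4_sep (-(1 - hb)) (br - bl) ((1 - hb) * bl - (br - bl) * hb) hz hz' ?_ ?_ ?_ ?_ ?_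
    · show (0 : ℝ) ≤ -(1 - hb) * bl + (br - bl) * hb + ((1 - hb) * bl - (br - bl) * hb)
      linarith
    · show (0 : ℝ) ≤ -(1 - hb) * k + (br - bl) * hy + ((1 - hb) * bl - (br - bl) * hb)
      linarith
    · show (0 : ℝ) < (-(1 - hb) * bl + (br - bl) * hb + ((1 - hb) * bl - (br - bl) * hb)) +
        (-(1 - hb) * k + (br - bl) * hy + ((1 - hb) * bl - (br - bl) * hb))
      linarith
    · show -(1 - hb) * bl + (br - bl) * hb + ((1 - hb) * bl - (br - bl) * hb) ≤ (0 : ℝ)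
      linarith
    · show -(1 - hb) * br + (br - bl) * 1 + ((1 - hb) * bl - (br - bl) * hb) ≤ (0 : ℝ)
      linarith
  · refine r4_sep (-(1 - hb)) (br - bl) ((1 - hb) * bl - (br - bl) * hb) hz hz' ?_ ?_ ?_ ?_ ?_
    · show (0 : ℝ) ≤ -(1 - hb) * k + (br - bl) * hy + ((1 - hb) * bl - (br - bl) * hb)
      linarith
    · show (0 : ℝ) ≤ -(1 - hb) * br + (br - bl) * 1 + ((1 - hb) * bl - (br - bl) * hb)
      linarith
    · show (0 : ℝ) < (-(1 - hb) * k + (br - bl) * hy + ((1 - hb) * bl - (br - bl) * hb)) +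
        (-(1 - hb) * br + (br - bl) * 1 + ((1 - hb) * bl - (br - bl) * hb))
      linarith
    · show -(1 - hb) * bl + (br - bl) * hb + ((1 - hb) * bl - (br - bl) * hb) ≤ (0 : ℝ)
      linarith
    · show -(1 - hb) * br + (br - bl) * 1 + ((1 - hb) * bl - (br - bl) * hb) ≤ (0 : ℝ)
      linarith

/-- Upper block: `s = (ul, 0)`, `t = (k, hz)`, `v = (ur, ht)`, `t` below the lever (apply the first
part to `(1 - x, 1 - y)`, with `s` and `v` exchanged). -/
theorem read_lines_up {ul k ur ht hz : ℝ} (h1 : ul < k) (h2 : k < ur) (h3 : 0 < hz) (h4 : hz < ht)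
    (h5 : hz * (ur - ul) < (k - ul) * ht) {a b z : Pt}
    (hab : (a, b) = (((ul, 0) : Pt), ((k, hz) : Pt)) ∨
      (a, b) = (((k, hz) : Pt), ((ur, ht) : Pt)) ∨ (a, b) = (((ul, 0) : Pt), ((ur, ht) : Pt)))
    (hz' : z ∈ openSegment ℝ a b) :
    ul < z.1 ∧ z.1 < ur ∧ 0 < z.2 ∧ z.2 < ht ∧ ¬ (z.2 = hz ∧ k ≤ z.1) ∧
      ¬ (z.1 = k ∧ z.2 ≤ hz) := by
  obtain ⟨t, t0, t1, z1, z2⟩ := r4_open hz'
  rcases hab with hab | hab | hab
  · obtain ⟨rfl, rfl⟩ := Prod.mk.inj hab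
    change z.1 = ul + t * (k - ul) at z1
    change z.2 = 0 + t * (hz - 0) at z2
    obtain ⟨a1, a2⟩ := r4_mul t0 t1 (show 0 < k - ul by linarith)
    obtain ⟨b1, b2⟩ := r4_mul t0 t1 (show 0 < hz - 0 by linarith)
    refine ⟨by linarith, by linarith, by linarith, by linarith, ?_, ?_⟩
    · rintro ⟨c1, c2⟩
      linarith
    · rintro ⟨c1, c2⟩
      linarith
  · obtain ⟨rfl, rfl⟩ := Prod.mk.inj hab
    change z.1 = k + t * (ur - k) at z1
    change z.2 = hz + t * (ht - hz) at z2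
    obtain ⟨a1, a2⟩ := r4_mul t0 t1 (show 0 < ur - k by linarith)
    obtain ⟨b1, b2⟩ := r4_mul t0 t1 (show 0 < ht - hz by linarith)
    refine ⟨by linarith, by linarith, by linarith, by linarith, ?_, ?_⟩
    · rintro ⟨c1, c2⟩
      linarith
    · rintro ⟨c1, c2⟩
      linarith
  · obtain ⟨rfl, rfl⟩ := Prod.mk.inj hab
    change z.1 = ul + t * (ur - ul) at z1
    change z.2 = 0 + t * (ht - 0) at z2
    obtain ⟨a1, a2⟩ := r4_mul t0 t1 (show 0 < ur - ul by linarith)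
    obtain ⟨b1, b2⟩ := r4_mul t0 t1 (show 0 < ht - 0 by linarith)
    refine ⟨by linarith, by linarith, by linarith, by linarith, ?_, ?_⟩
    · rintro ⟨c1, c2⟩
      have c3 : t * ht = hz := by linarith
      have c4 : k - ul ≤ t * (ur - ul) := by linarith
      have c5 := mul_le_mul_of_nonneg_right c4 (show 0 ≤ ht by linarith)
      have c6 : t * (ur - ul) * ht = hz * (ur - ul) := by rw [← c3]; ring
      linarith
    · rintro ⟨c1, c2⟩
      have c3 : t * (ur - ul) = k - ul := by linarith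
      have c4 : t * ht ≤ hz := by linarith
      have c5 := mul_le_mul_of_nonneg_right c4 (show 0 ≤ ur - ul by linarith)
      have c6 : t * ht * (ur - ul) = (k - ul) * ht := by rw [← c3]; ring
      linarith

theorem read_pairs_up {ul k ur ht hz : ℝ} (h1 : ul < k) (h2 : k < ur) (h3 : 0 < hz) (h4 : hz < ht)
    (h5 : hz * (ur - ul) < (k - ul) * ht) :
    (∀ z ∈ openSegment ℝ ((ul, 0) : Pt) (k, hz), z ∉ openSegment ℝ ((k, hz) : Pt) (ur, ht)) ∧
    (∀ z ∈ openSegment ℝ ((ul, 0) : Pt) (k, hz), z ∉ openSegment ℝ ((ul, 0) : Pt) (ur, ht)) ∧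
    ∀ z ∈ openSegment ℝ ((k, hz) : Pt) (ur, ht), z ∉ openSegment ℝ ((ul, 0) : Pt) (ur, ht) := by
  refine ⟨fun z hz hz' => ?_, fun z hz hz' => ?_, fun z hz hz' => ?_⟩
  · refine r4_sep 1 0 (-k) hz' hz ?_ ?_ ?_ ?_ ?_
    · show (0 : ℝ) ≤ 1 * k + 0 * _ + -k
      linarith
    · show (0 : ℝ) ≤ 1 * ur + 0 * ht + -k
      linarith
    · show (0 : ℝ) < (1 * k + 0 * _ + -k) + (1 * ur + 0 * ht + -k)
      linarith
    · show 1 * ul + 0 * 0 + -k ≤ (0 : ℝ)
      linarith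
    · show 1 * k + 0 * _ + -k ≤ (0 : ℝ)
      linarith
  · refine r4_sep ht (-(ur - ul)) (-(ht * ul)) hz hz' ?_ ?_ ?_ ?_ ?_
    · show (0 : ℝ) ≤ ht * ul + -(ur - ul) * 0 + -(ht * ul)
      linarith
    · show (0 : ℝ) ≤ ht * k + -(ur - ul) * _ + -(ht * ul)
      linarith
    · show (0 : ℝ) < (ht * ul + -(ur - ul) * 0 + -(ht * ul)) +
        (ht * k + -(ur - ul) * _ + -(ht * ul))
      linarith
    · show ht * ul + -(ur - ul) * 0 + -(ht * ul) ≤ (0 : ℝ)
      linarith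
    · show ht * ur + -(ur - ul) * ht + -(ht * ul) ≤ (0 : ℝ)
      linarith
  · refine r4_sep ht (-(ur - ul)) (-(ht * ul)) hz hz' ?_ ?_ ?_ ?_ ?_
    · show (0 : ℝ) ≤ ht * k + -(ur - ul) * _ + -(ht * ul)
      linarith
    · show (0 : ℝ) ≤ ht * ur + -(ur - ul) * ht + -(ht * ul)
      linarith
    · show (0 : ℝ) < (ht * k + -(ur - ul) * _ + -(ht * ul)) +
        (ht * ur + -(ur - ul) * ht + -(ht * ul))
      linarith
    · show ht * ul + -(ur - ul) * 0 + -(ht * ul) ≤ (0 : ℝ)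
      linarith
    · show ht * ur + -(ur - ul) * ht + -(ht * ul) ≤ (0 : ℝ)
      linarith

end Pool.Agent.H54R
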