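import Pool.Agent.Lib.H54R.RDefs
import Pool.Agent.Lib.H54R.R4
import Pool.Agent.Lib.H54R.R4B
import Pool.Agent.Lib.H54R.R5
import Pool.Agent.Lib.H54R.R5B

/-!
# R8: box edges, local form
-/

set_option autoImplicit false

namespace Pool.Agent.H54R

open RS

variable {S : RS} {d : Dat}

/-- the edges inside a block: pairs of vertex numbers -/
def boxC (b : ℕ × ℕ) : List (ℕ × ℕ) := if b.1 ≤ 1 then [(0, 1), (1, 2), (0, 2)] else gateE

theorem mem_boxE (h : S.WF) {e : Vx × Vx} : e ∈ S.boxE ↔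
    ∃ b : ℕ × ℕ, S.binB b 0 ∧ ∃ f ∈ boxC b, e = (Vx.blk b f.1, Vx.blk b f.2) := by
  constructor
  · intro he
    unfold boxE at he
    rw [List.mem_append] at he
    rcases he with he | he
    · obtain ⟨ρ, hρ, he⟩ := List.mem_flatMap.1 he
      have hρ' := List.mem_range.1 hρ
      have hb0 : S.binB (0, ρ) 0 := Or.inl ⟨by show 0 ≤ 1; omega, hρ', by omega⟩
      have hb1 : S.binB (1, ρ) 0 := Or.inl ⟨by show 1 ≤ 1; omega, hρ', by omega⟩
      unfold hvRd at he
      simp only [List.mem_append, List.mem_flatMap, List.mem_cons, List.not_mem_nil, or_false,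
        exists_eq_or_imp, exists_eq_left] at he
      rcases he with ((he | he) | (he | he)) | (he | he)
      · exact ⟨(0, ρ), hb0, (0, 1), by simp [boxC], he⟩
      · exact ⟨(0, ρ), hb0, (1, 2), by simp [boxC], he⟩
      · exact ⟨(1, ρ), hb1, (0, 1), by simp [boxC], he⟩
      · exact ⟨(1, ρ), hb1, (1, 2), by simp [boxC], he⟩
      · exact ⟨(0, ρ), hb0, (0, 2), by simp [boxC], he⟩
      · exact ⟨(1, ρ), hb1, (0, 2), by simp [boxC], he⟩
    · obtain ⟨l, hl, he⟩ := List.mem_flatMap.1 he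
      have hl' := List.mem_range.1 hl
      have hbb : ∀ g, 2 ≤ g → g ≤ 5 → S.binB (g, l) 0 := fun g h1 h2 =>
        Or.inr ⟨h1, h2, hl', by omega⟩
      have hC : ∀ g, 2 ≤ g → boxC (g, l) = gateE := fun g h1 => by
        unfold boxC
        rw [if_neg (by show ¬ g ≤ 1; omega)]
      unfold hvLk liLk at he
      rw [List.mem_append] at he
      rcases he with he | he
      · obtain ⟨g, hg, he⟩ := List.mem_flatMap.1 he
        have hg' : 2 ≤ g ∧ g ≤ 5 := by
          simp only [List.mem_cons, List.not_mem_nil, or_false] at hg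
          omega
        simp only [List.mem_cons, List.not_mem_nil, or_false] at he
        refine ⟨(g, l), hbb g hg'.1 hg'.2, ?_⟩
        rw [hC g hg'.1]
        rcases he with he | he | he | he | he | he
        · exact ⟨(0, 5), by simp [gateE], he⟩
        · exact ⟨(5, 3), by simp [gateE], he⟩
        · exact ⟨(5, 2), by simp [gateE], he⟩
        · exact ⟨(2, 1), by simp [gateE], he⟩
        · exact ⟨(0, 1), by simp [gateE], he⟩
        · exact ⟨(3, 4), by simp [gateE], he⟩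
      · obtain ⟨g, hg, he⟩ := List.mem_flatMap.1 he
        have hg' : 2 ≤ g ∧ g ≤ 5 := by
          simp only [List.mem_cons, List.not_mem_nil, or_false] at hg
          omega
        simp only [List.mem_cons, List.not_mem_nil, or_false] at he
        refine ⟨(g, l), hbb g hg'.1 hg'.2, ?_⟩
        rw [hC g hg'.1]
        rcases he with he | he
        · exact ⟨(0, 3), by simp [gateE], he⟩
        · exact ⟨(5, 1), by simp [gateE], he⟩
  · rintro ⟨⟨g, x⟩, hb, f, hf, rfl⟩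
    unfold boxE
    rw [List.mem_append]
    rcases hb with ⟨h1, h2, h3⟩ | ⟨h1, h2, h3, h4⟩
    · change g ≤ 1 at h1
      change x < S.R at h2
      left
      refine List.mem_flatMap.2 ⟨x, List.mem_range.2 h2, ?_⟩
      unfold boxC at hf
      rw [if_pos h1] at hf
      simp only [List.mem_cons, List.not_mem_nil, or_false] at hf
      unfold hvRd
      simp only [List.mem_append, List.mem_flatMap, List.mem_cons, List.not_mem_nil, or_false,
        exists_eq_or_imp, exists_eq_left]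
      have hg : g = 0 ∨ g = 1 := by omega
      rcases hg with rfl | rfl <;> rcases hf with rfl | rfl | rfl <;> simp
    · change 2 ≤ g at h1
      change g ≤ 5 at h2
      change x < 2 * S.K at h3
      right
      refine List.mem_flatMap.2 ⟨x, List.mem_range.2 h3, ?_⟩
      unfold boxC at hf
      rw [if_neg (by show ¬ g ≤ 1; omega)] at hf
      simp only [gateE, List.mem_cons, List.not_mem_nil, or_false] at hf
      unfold hvLk liLk
      rw [List.mem_append]
      have hg : g ∈ [2, 3, 4, 5] := by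
        simp only [List.mem_cons, List.not_mem_nil, or_false]
        omega
      rcases hf with rfl | rfl | rfl | rfl | rfl | rfl | rfl | rfl
      · exact Or.inl (List.mem_flatMap.2 ⟨g, hg, by simp⟩)
      · exact Or.inl (List.mem_flatMap.2 ⟨g, hg, by simp⟩)
      · exact Or.inl (List.mem_flatMap.2 ⟨g, hg, by simp⟩)
      · exact Or.inl (List.mem_flatMap.2 ⟨g, hg, by simp⟩)
      · exact Or.inl (List.mem_flatMap.2 ⟨g, hg, by simp⟩)
      · exact Or.inl (List.mem_flatMap.2 ⟨g, hg, by simp⟩)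
      · exact Or.inr (List.mem_flatMap.2 ⟨g, hg, by simp⟩)
      · exact Or.inr (List.mem_flatMap.2 ⟨g, hg, by simp⟩)

/-- a point of an open box edge has the form cell offset + local point of the open local edge -/
theorem box_local {b : ℕ × ℕ} {c c' : ℕ} {z : Pt}
    (hz : z ∈ openSegment ℝ (d.pos S (.blk b c)) (d.pos S (.blk b c'))) :
    ∃ y ∈ openSegment ℝ (d.loc S b c) (d.loc S b c'),
      z = (2 * (S.bcol b : ℝ) + 1 / 2 + y.1, 2 * (S.brow b : ℝ) + 1 / 2 + y.2) := by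
  obtain ⟨s, t, hs, ht, hst, rfl⟩ := hz
  refine ⟨s • d.loc S b c + t • d.loc S b c', ⟨s, t, hs, ht, hst, rfl⟩, ?_⟩
  have e1 : s = 1 - t := by linarith
  refine Prod.ext ?_ ?_
  · show s * (2 * (S.bcol b : ℝ) + 1 / 2 + (d.loc S b c).1) +
      t * (2 * (S.bcol b : ℝ) + 1 / 2 + (d.loc S b c').1) =
      2 * (S.bcol b : ℝ) + 1 / 2 + (s * (d.loc S b c).1 + t * (d.loc S b c').1)
    rw [e1]
    ring
  · show s * (2 * (S.brow b : ℝ) + 1 / 2 + (d.loc S b c).2) +
      t * (2 * (S.brow b : ℝ) + 1 / 2 + (d.loc S b c').2) =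
      2 * (S.brow b : ℝ) + 1 / 2 + (s * (d.loc S b c).2 + t * (d.loc S b c').2)
    rw [e1]
    ring

/-- vertices of a gate are not on its open edges -/
theorem r8_gate_nm {x0 f y2 y px yu yc xw : ℝ} (h : GateN x0 f y2 y px yu yc xw) {e : ℕ × ℕ}
    (he : e ∈ gateE) (c : ℕ) : gateP x0 f y2 y px yu yc xw c ∉
      openSegment ℝ (gateP x0 f y2 y px yu yc xw e.1) (gateP x0 f y2 y px yu yc xw e.2) := by
  intro hz
  obtain ⟨a1, a2, a3, a4, a5, a6, a7⟩ := gate_lines h he hz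
  have e1 := h.h1
  have e2 := h.h2
  have e3 := h.h6
  have e4 := h.h7
  have e5 := h.h8
  clear hz
  unfold gateP at a1 a2 a3 a4 a5 a6 a7
  split_ifs at a1 a2 a3 a4 a5 a6 a7
  · exact lt_irrefl _ a1
  · exact lt_irrefl _ a2
  · exact a5 ⟨rfl, le_rfl⟩
  · exact a7 ⟨rfl, by simp only; linarith⟩
  · exact lt_irrefl _ a4
  · exact a6 ⟨rfl, le_rfl⟩

/-- vertices of a gate are distinct -/
theorem r8_gate_inj {x0 f y2 y px yu yc xw : ℝ} (h : GateN x0 f y2 y px yu yc xw) {c c' : ℕ}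
    (hc : c < 6) (hc' : c' < 6)
    (e : gateP x0 f y2 y px yu yc xw c = gateP x0 f y2 y px yu yc xw c') : c = c' := by
  have e1 := h.h5
  have e2 := h.h6
  have e3 := h.h7
  have e4 := h.h8
  have e5 := h.h9
  have e' := congrArg Prod.snd e
  clear e
  interval_cases c <;> interval_cases c' <;> first
    | rfl
    | (exfalso
       simp [gateP] at e' <;> linarith)

/-- The local picture of a link block is the image of a gate. -/
theorem r8_form (hd : DatOK S d) {g l : ℕ} (hg : 2 ≤ g) (hg' : g ≤ 5) (hl : l < 2 * S.K) :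
    ∃ x0 f y2 y px yu yc xw : ℝ, GateN x0 f y2 y px yu yc xw ∧ ∃ Ψ : Pt → Pt,
      (∀ c, Ψ (d.loc S (g, l) c) = gateP x0 f y2 y px yu yc xw c) ∧
      (∀ P Q z : Pt, z ∈ openSegment ℝ P Q → Ψ z ∈ openSegment ℝ (Ψ P) (Ψ Q)) ∧
      ∀ z : Pt, 0 < (Ψ z).1 → (Ψ z).1 < 1 → 0 < (Ψ z).2 → (Ψ z).2 < 1 →
        0 < z.1 ∧ z.1 < 1 ∧ 0 < z.2 ∧ z.2 < 1 := by
  have hL := hd.lo l hl
  have hU := hd.up l hl
  have eb : (d.gL l).b = d.l (S.loB l) := hL.hb
  have eb' : (d.gU l).b = 1 - d.u (S.upB l) := hU.hb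
  have hgg : g = 2 ∨ g = 3 ∨ g = 4 ∨ g = 5 := by omega
  rcases hgg with rfl | rfl | rfl | rfl
  · refine ⟨_, _, _, _, _, _, _, _, hL.g1, id, fun c => ?_, fun P Q z hz => hz,
      fun z h1 h2 h3 h4 => ⟨h1, h2, h3, h4⟩⟩
    simp [Dat.loc]
  · refine ⟨_, _, _, _, _, _, _, _, hL.g2, fun z => (1 - z.2, z.1), fun c => ?_, fun P Q z hz => ?_,
      fun z h1 h2 h3 h4 => ?_⟩
    · simp [Dat.loc, vT, eb]
    · obtain ⟨s, t, hs, ht, hst, rfl⟩ := hz
      refine ⟨s, t, hs, ht, hst, ?_⟩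
      have e1 : s = 1 - t := by linarith
      refine Prod.ext ?_ ?_
      · show s * (1 - P.2) + t * (1 - Q.2) = 1 - (s * P.2 + t * Q.2)
        rw [e1]
        ring
      · rfl
    · simp only at h1 h2 h3 h4
      exact ⟨h3, h4, by linarith, by linarith⟩
  · refine ⟨_, _, _, _, _, _, _, _, hU.g1, fun z => (1 - z.1, 1 - z.2), fun c => ?_,
      fun P Q z hz => ?_, fun z h1 h2 h3 h4 => ?_⟩
    · simp [Dat.loc, rt2]
    · obtain ⟨s, t, hs, ht, hst, rfl⟩ := hz
      refine ⟨s, t, hs, ht, hst, ?_⟩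
      have e1 : s = 1 - t := by linarith
      refine Prod.ext ?_ ?_
      · show s * (1 - P.1) + t * (1 - Q.1) = 1 - (s * P.1 + t * Q.1)
        rw [e1]
        ring
      · show s * (1 - P.2) + t * (1 - Q.2) = 1 - (s * P.2 + t * Q.2)
        rw [e1]
        ring
    · simp only at h1 h2 h3 h4
      exact ⟨by linarith, by linarith, by linarith, by linarith⟩
  · refine ⟨_, _, _, _, _, _, _, _, hU.g2, fun z => (z.2, 1 - z.1), fun c => ?_,
      fun P Q z hz => ?_, fun z h1 h2 h3 h4 => ?_⟩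
    · simp [Dat.loc, rt2, vT, eb']
    · obtain ⟨s, t, hs, ht, hst, rfl⟩ := hz
      refine ⟨s, t, hs, ht, hst, ?_⟩
      have e1 : s = 1 - t := by linarith
      refine Prod.ext ?_ ?_
      · rfl
      · show s * (1 - P.1) + t * (1 - Q.1) = 1 - (s * P.1 + t * Q.1)
        rw [e1]
        ring
    · simp only at h1 h2 h3 h4
      exact ⟨by linarith, by linarith, h1, h2⟩

/-- the vertices of a read block -/
theorem r8_read0 (ρ : ℕ) : d.loc S (0, ρ) 0 = (d.bl S ρ, d.hb S ρ) ∧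
    d.loc S (0, ρ) 1 = (d.κ ρ, d.hy S ρ) ∧ d.loc S (0, ρ) 2 = (d.br S ρ, 1) := by
  simp [Dat.loc]

theorem r8_read1 (ρ : ℕ) : d.loc S (1, ρ) 0 = (d.ul S ρ, 0) ∧
    d.loc S (1, ρ) 1 = (d.κ ρ, d.hz S ρ) ∧ d.loc S (1, ρ) 2 = (d.ur S ρ, d.ht S ρ) := by
  simp [Dat.loc]

/-- Points of the open edges of a read block. -/
theorem r8_read (h : S.WF) (hd : DatOK S d) {g ρ : ℕ} (hg : g ≤ 1) (hρ : ρ < S.R) {f : ℕ × ℕ}
    (hf : f ∈ boxC (g, ρ)) {z : Pt} (hz : z ∈ openSegment ℝ (d.loc S (g, ρ) f.1) (d.loc S (g, ρ) f.2)) :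
    (0 < z.1 ∧ z.1 < 1 ∧ 0 < z.2 ∧ z.2 < 1) ∧ ∀ c < 3, z ≠ d.loc S (g, ρ) c := by
  obtain ⟨a1, a2⟩ := hd.k1 ρ hρ
  obtain ⟨a3, a4⟩ := hd.k2 ρ hρ
  obtain ⟨b1, b2, b3, b4⟩ := bord01 h hd hρ
  obtain ⟨c1, c2, c3, -, c4⟩ := height_low h hd hρ
  obtain ⟨e1, e2, e3, -, e4⟩ := height_up h hd hρ
  unfold boxC at hf
  rw [if_pos hg] at hf
  simp only [List.mem_cons, List.not_mem_nil, or_false] at hf
  have hgg : g = 0 ∨ g = 1 := by omega
  rcases hgg with rfl | rfl
  · obtain ⟨l0, l1, l2⟩ := r8_read0 (S := S) (d := d) ρ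
    have key : d.bl S ρ < z.1 ∧ z.1 < d.br S ρ ∧ d.hb S ρ < z.2 ∧ z.2 < 1 ∧
        ¬ (z.2 = d.hy S ρ ∧ z.1 ≤ d.κ ρ) ∧ ¬ (z.1 = d.κ ρ ∧ d.hy S ρ ≤ z.2) := by
      refine read_lines a1 a2 c2 c3 c4 (a := d.loc S (0, ρ) f.1) (b := d.loc S (0, ρ) f.2) ?_ hz
      rcases hf with rfl | rfl | rfl
      · left
        simp only [l0, l1]
      · right
        left
        simp only [l1, l2]
      · right
        right
        simp only [l0, l2]
    obtain ⟨k1, k2, k3, k4, k5, k6⟩ := key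
    refine ⟨⟨by linarith, by linarith, by linarith, by linarith⟩, fun c hc e => ?_⟩
    interval_cases c
    · rw [e, l0] at k1
      exact lt_irrefl _ k1
    · rw [e, l1] at k6
      exact k6 ⟨rfl, le_rfl⟩
    · rw [e, l2] at k2
      exact lt_irrefl _ k2
  · obtain ⟨l0, l1, l2⟩ := r8_read1 (S := S) (d := d) ρ
    have key : d.ul S ρ < z.1 ∧ z.1 < d.ur S ρ ∧ 0 < z.2 ∧ z.2 < d.ht S ρ ∧
        ¬ (z.2 = d.hz S ρ ∧ d.κ ρ ≤ z.1) ∧ ¬ (z.1 = d.κ ρ ∧ z.2 ≤ d.hz S ρ) := by
      refine read_lines_up a3 a4 e1 e2 e4 (a := d.loc S (1, ρ) f.1) (b := d.loc S (1, ρ) f.2) ?_ hz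
      rcases hf with rfl | rfl | rfl
      · left
        simp only [l0, l1]
      · right
        left
        simp only [l1, l2]
      · right
        right
        simp only [l0, l2]
    obtain ⟨k1, k2, k3, k4, k5, k6⟩ := key
    refine ⟨⟨by linarith, by linarith, by linarith, by linarith⟩, fun c hc e => ?_⟩
    interval_cases c
    · rw [e, l0] at k1
      exact lt_irrefl _ k1
    · rw [e, l1] at k6
      exact k6 ⟨rfl, le_rfl⟩
    · rw [e, l2] at k2
      exact lt_irrefl _ k2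

/-- open local edges are strictly inside the unit square -/
theorem box_in (h : S.WF) (hd : DatOK S d) {b : ℕ × ℕ} (hb : S.binB b 0) {f : ℕ × ℕ}
    (hf : f ∈ boxC b) {y : Pt} (hy : y ∈ openSegment ℝ (d.loc S b f.1) (d.loc S b f.2)) :
    0 < y.1 ∧ y.1 < 1 ∧ 0 < y.2 ∧ y.2 < 1 := by
  obtain ⟨g, x⟩ := b
  rcases hb with ⟨h1, h2, h3⟩ | ⟨h1, h2, h3, h4⟩
  · exact (r8_read h hd h1 h2 hf hy).1
  · change 2 ≤ g at h1
    obtain ⟨x0, f', y2, y', px, yu, yc, xw, hN, Ψ, p1, p2, p3⟩ := r8_form hd h1 h2 h3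
    unfold boxC at hf
    rw [if_neg (by show ¬ g ≤ 1; omega)] at hf
    have h5 := p2 _ _ _ hy
    rw [p1, p1] at h5
    obtain ⟨q1, q2, q3, q4, -⟩ := gate_lines hN hf h5
    exact p3 y (lt_of_le_of_lt hN.h0 q1) q2 q3 q4

/-- open local edges of a block are pairwise disjoint -/
theorem box_pairs (h : S.WF) (hd : DatOK S d) {b : ℕ × ℕ} (hb : S.binB b 0) {f f' : ℕ × ℕ}
    (hf : f ∈ boxC b) (hf' : f' ∈ boxC b) (hne : f ≠ f') {y : Pt}
    (hy : y ∈ openSegment ℝ (d.loc S b f.1) (d.loc S b f.2)) :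
    y ∉ openSegment ℝ (d.loc S b f'.1) (d.loc S b f'.2) := by
  obtain ⟨g, x⟩ := b
  rcases hb with ⟨h1, h2, h3⟩ | ⟨h1, h2, h3, h4⟩
  · change g ≤ 1 at h1
    change x < S.R at h2
    intro hy'
    obtain ⟨a1, a2⟩ := hd.k1 x h2
    obtain ⟨a3, a4⟩ := hd.k2 x h2
    obtain ⟨c1, c2, c3, -, c4⟩ := height_low h hd h2
    obtain ⟨e1, e2, e3, -, e4⟩ := height_up h hd h2
    obtain ⟨l0, l1, l2⟩ := r8_read0 (S := S) (d := d) x
    obtain ⟨m0, m1, m2⟩ := r8_read1 (S := S) (d := d) x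
    obtain ⟨r1, r2, r3⟩ := read_pairs a1 a2 c2 c3 c4
    obtain ⟨s1, s2, s3⟩ := read_pairs_up a3 a4 e1 e2 e4
    unfold boxC at hf hf'
    rw [if_pos h1] at hf hf'
    simp only [List.mem_cons, List.not_mem_nil, or_false] at hf hf'
    have hgg : g = 0 ∨ g = 1 := by omega
    rcases hgg with rfl | rfl
    · rcases hf with rfl | rfl | rfl <;> rcases hf' with rfl | rfl | rfl <;>
        simp only [l0, l1, l2] at hy hy'
      · exact hne rfl
      · exact r1 y hy hy'
      · exact r2 y hy hy'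
      · exact r1 y hy' hy
      · exact hne rfl
      · exact r3 y hy hy'
      · exact r2 y hy' hy
      · exact r3 y hy' hy
      · exact hne rfl
    · rcases hf with rfl | rfl | rfl <;> rcases hf' with rfl | rfl | rfl <;>
        simp only [m0, m1, m2] at hy hy'
      · exact hne rfl
      · exact s1 y hy hy'
      · exact s2 y hy hy'
      · exact s1 y hy' hy
      · exact hne rfl
      · exact s3 y hy hy'
      · exact s2 y hy' hy
      · exact s3 y hy' hy
      · exact hne rfl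
  · change 2 ≤ g at h1
    obtain ⟨x0, f'', y2, y', px, yu, yc, xw, hN, Ψ, p1, p2, p3⟩ := r8_form hd h1 h2 h3
    unfold boxC at hf hf'
    rw [if_neg (by show ¬ g ≤ 1; omega)] at hf hf'
    intro hy'
    have h5 := p2 _ _ _ hy
    have h6 := p2 _ _ _ hy'
    rw [p1, p1] at h5 h6
    exact gate_pairs hN hf hf' hne h5 h6

/-- the vertices of a block are distinct -/
theorem loc_inj (h : S.WF) (hd : DatOK S d) {b : ℕ × ℕ} {c c' : ℕ} (hb : S.binB b c)
    (hb' : S.binB b c') (e : d.loc S b c = d.loc S b c') : c = c' := by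
  obtain ⟨g, x⟩ := b
  rcases hb with ⟨h1, h2, h3⟩ | ⟨h1, h2, h3, h4⟩
  · change g ≤ 1 at h1
    change x < S.R at h2
    have hc' : c' < 3 := by
      rcases hb' with ⟨-, -, h5⟩ | ⟨h5, -⟩
      · exact h5
      · change 2 ≤ g at h5
        omega
    obtain ⟨a1, a2⟩ := hd.k1 x h2
    obtain ⟨a3, a4⟩ := hd.k2 x h2
    obtain ⟨l0, l1, l2⟩ := r8_read0 (S := S) (d := d) x
    obtain ⟨m0, m1, m2⟩ := r8_read1 (S := S) (d := d) x
    have e' := congrArg Prod.fst e
    clear e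
    have hgg : g = 0 ∨ g = 1 := by omega
    rcases hgg with rfl | rfl
    · interval_cases c <;> interval_cases c' <;> first
        | rfl
        | (exfalso
           simp only [l0, l1, l2] at e'
           linarith)
    · interval_cases c <;> interval_cases c' <;> first
        | rfl
        | (exfalso
           simp only [m0, m1, m2] at e'
           linarith)
  · change 2 ≤ g at h1
    have hc' : c' < 6 := by
      rcases hb' with ⟨h5, -⟩ | ⟨-, -, -, h5⟩
      · change g ≤ 1 at h5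
        omega
      · exact h5
    obtain ⟨x0, f'', y2, y', px, yu, yc, xw, hN, Ψ, p1, p2, p3⟩ := r8_form hd h1 h2 h3
    have h5 := congrArg Ψ e
    rw [p1, p1] at h5
    exact r8_gate_inj hN h4 hc' h5

/-- the vertices of a block are not on the open edges of the block -/
theorem loc_not_mem (h : S.WF) (hd : DatOK S d) {b : ℕ × ℕ} {c : ℕ} (hb : S.binB b c)
    {f : ℕ × ℕ} (hf : f ∈ boxC b) :
    d.loc S b c ∉ openSegment ℝ (d.loc S b f.1) (d.loc S b f.2) := by
  obtain ⟨g, x⟩ := b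
  intro hy
  rcases hb with ⟨h1, h2, h3⟩ | ⟨h1, h2, h3, h4⟩
  · exact (r8_read h hd h1 h2 hf hy).2 c h3 rfl
  · change 2 ≤ g at h1
    obtain ⟨x0, f'', y2, y', px, yu, yc, xw, hN, Ψ, p1, p2, p3⟩ := r8_form hd h1 h2 h3
    unfold boxC at hf
    rw [if_neg (by show ¬ g ≤ 1; omega)] at hf
    have h5 := p2 _ _ _ hy
    rw [p1, p1, p1] at h5
    exact r8_gate_nm hN hf c h5

end Pool.Agent.H54R
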