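import Pool.Agent.Lib.H54R.RDefs
import Pool.Agent.Lib.H54R.R5
import Pool.Agent.Lib.H54R.R5B
import Pool.Agent.Lib.H54R.R6C
import Pool.Agent.Lib.H54R.R7E
import Pool.Agent.Lib.H54R.R8
import Pool.Agent.Lib.H54R.C1
import Pool.Agent.Lib.H54R.C3

/-!
# R10: outer edges and the inside
-/

set_option autoImplicit false

namespace Pool.Agent.H54R

open RS

variable {S : RS} {d : Dat}

theorem r10_seg {a b z : Pt} (h : z ∈ openSegment ℝ a b) : ∃ s t : ℝ, 0 < s ∧ 0 < t ∧ s + t = 1 ∧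
    z.1 = s * a.1 + t * b.1 ∧ z.2 = s * a.2 + t * b.2 := by
  obtain ⟨s, t, hs, ht, hst, rfl⟩ := h
  exact ⟨s, t, hs, ht, hst, by simp, by simp⟩

theorem r10_blk (h : S.WF) (hd : DatOK S d) {b : ℕ × ℕ} {c : ℕ} (hb : S.binB b c) :
    0 < (d.pos S (.blk b c)).1 ∧ (d.pos S (.blk b c)).1 < 2 * S.NN ∧
      0 < (d.pos S (.blk b c)).2 ∧ (d.pos S (.blk b c)).2 < 2 * S.MM := by
  obtain ⟨h1, h2, h3, h4⟩ := blk_mem h hd hb
  have h5 : ((S.bcol b : ℕ) : ℝ) + 1 ≤ S.NN := by
    exact_mod_cast Nat.succ_le_of_lt (bcol_lt h hb)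
  have h6 : ((S.brow b : ℕ) : ℝ) + 1 ≤ S.MM := by
    exact_mod_cast Nat.succ_le_of_lt (brow_lt h hb)
  have h7 : (0 : ℝ) ≤ (S.bcol b : ℝ) := Nat.cast_nonneg _
  have h8 : (0 : ℝ) ≤ (S.brow b : ℝ) := Nat.cast_nonneg _
  refine ⟨by linarith, by linarith, by linarith, by linarith⟩

theorem r10_bx {l : List ((ℕ × ℕ) × ℕ)} {v : Vx} (h : v ∈ bx l) : ∃ b c, v = .blk b c := by
  obtain ⟨w, -, rfl⟩ := List.mem_map.1 h
  exact ⟨_, _, rfl⟩

theorem r10_rowK {r : List Vx} (hr : r ∈ S.rows) {v : Vx} (hv : v ∈ r) :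
    (∃ k, v = .L k) ∨ (∃ k, v = .R k) ∨ ∃ b c, v = .blk b c := by
  unfold rows at hr
  rcases List.mem_append.1 hr with hr | hr
  · obtain ⟨i, -, rfl⟩ := List.mem_map.1 hr
    simp only [List.mem_cons, List.not_mem_nil, or_false] at hv
    rcases hv with rfl | rfl
    · exact Or.inl ⟨_, rfl⟩
    · exact Or.inr (Or.inl ⟨_, rfl⟩)
  · obtain ⟨i, -, hr⟩ := List.mem_flatMap.1 hr
    simp only [List.mem_cons, List.not_mem_nil, or_false] at hr
    rcases hr with rfl | rfl | rfl | rfl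
    · simp only [List.cons_append, List.mem_cons, List.mem_append, List.not_mem_nil,
        or_false] at hv
      rcases hv with rfl | hv | rfl
      · exact Or.inl ⟨_, rfl⟩
      · exact Or.inr (Or.inr (r10_bx hv))
      · exact Or.inr (Or.inl ⟨_, rfl⟩)
    · simp only [List.cons_append, List.mem_cons, List.mem_append, List.not_mem_nil,
        or_false] at hv
      rcases hv with rfl | hv | rfl
      · exact Or.inl ⟨_, rfl⟩
      · exact Or.inr (Or.inr (r10_bx hv))
      · exact Or.inr (Or.inl ⟨_, rfl⟩)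
    · unfold rC at hv
      split_ifs at hv
      · simp only [List.mem_cons, List.not_mem_nil, or_false] at hv
        rcases hv with rfl | rfl | rfl
        · exact Or.inr (Or.inr ⟨_, _, rfl⟩)
        · exact Or.inr (Or.inr ⟨_, _, rfl⟩)
        · exact Or.inr (Or.inl ⟨_, rfl⟩)
      · simp only [List.mem_cons, List.not_mem_nil, or_false] at hv
        rcases hv with rfl | rfl | rfl
        · exact Or.inl ⟨_, rfl⟩
        · exact Or.inr (Or.inr ⟨_, _, rfl⟩)
        · exact Or.inr (Or.inr ⟨_, _, rfl⟩)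
      · simp at hv
    · refine Or.inr (Or.inr ?_)
      unfold rW at hv
      split_ifs at hv
      · simp only [List.mem_cons, List.not_mem_nil, or_false] at hv
        rcases hv with rfl | rfl <;> exact ⟨_, _, rfl⟩
      · simp only [List.mem_cons, List.not_mem_nil, or_false] at hv
        rcases hv with rfl | rfl | rfl <;> exact ⟨_, _, rfl⟩
      · simp only [List.mem_cons, List.not_mem_nil, or_false] at hv
        rcases hv with rfl | rfl <;> exact ⟨_, _, rfl⟩
      · simp only [List.mem_cons, List.not_mem_nil, or_false] at hv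
        rcases hv with rfl | rfl | rfl <;> exact ⟨_, _, rfl⟩
      · simp at hv

theorem r10_colK {r : List Vx} (hr : r ∈ S.cols) {v : Vx} (hv : v ∈ r) :
    (∃ k, v = .B k) ∨ (∃ k, v = .T k) ∨ ∃ b c, v = .blk b c := by
  unfold cols at hr
  rcases List.mem_append.1 hr with hr | hr
  · rcases List.mem_append.1 hr with hr | hr
    · obtain ⟨i, -, rfl⟩ := List.mem_map.1 hr
      simp only [List.mem_cons, List.not_mem_nil, or_false] at hv
      rcases hv with rfl | rfl
      · exact Or.inl ⟨_, rfl⟩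
      · exact Or.inr (Or.inl ⟨_, rfl⟩)
    · obtain ⟨i, -, hr⟩ := List.mem_flatMap.1 hr
      simp only [List.mem_cons, List.not_mem_nil, or_false] at hr
      rcases hr with rfl | rfl | rfl | rfl | rfl
      · simp only [List.cons_append, List.mem_cons, List.mem_append, List.not_mem_nil,
          or_false] at hv
        rcases hv with rfl | hv | rfl
        · exact Or.inl ⟨_, rfl⟩
        · exact Or.inr (Or.inr (r10_bx hv))
        · exact Or.inr (Or.inl ⟨_, rfl⟩)
      · simp only [List.cons_append, List.mem_cons, List.mem_append, List.not_mem_nil,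
          or_false] at hv
        rcases hv with rfl | hv | rfl
        · exact Or.inl ⟨_, rfl⟩
        · exact Or.inr (Or.inr (r10_bx hv))
        · exact Or.inr (Or.inl ⟨_, rfl⟩)
      · unfold cC at hv
        split_ifs at hv
        · simp only [List.mem_cons, List.not_mem_nil, or_false] at hv
          rcases hv with rfl | rfl | rfl
          · exact Or.inl ⟨_, rfl⟩
          · exact Or.inr (Or.inr ⟨_, _, rfl⟩)
          · exact Or.inr (Or.inr ⟨_, _, rfl⟩)
        · simp only [List.mem_cons, List.not_mem_nil, or_false] at hv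
          rcases hv with rfl | rfl | rfl
          · exact Or.inr (Or.inr ⟨_, _, rfl⟩)
          · exact Or.inr (Or.inr ⟨_, _, rfl⟩)
          · exact Or.inr (Or.inl ⟨_, rfl⟩)
        · simp at hv
      · refine Or.inr (Or.inr ?_)
        unfold cf at hv
        split_ifs at hv
        · simp only [List.mem_cons, List.not_mem_nil, or_false] at hv
          rcases hv with rfl | rfl | rfl <;> exact ⟨_, _, rfl⟩
        · simp only [List.mem_cons, List.not_mem_nil, or_false] at hv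
          rcases hv with rfl | rfl | rfl <;> exact ⟨_, _, rfl⟩
        · simp at hv
      · refine Or.inr (Or.inr ?_)
        unfold cX at hv
        simp only [List.mem_append, List.mem_map] at hv
        rcases hv with ((⟨_, -, rfl⟩ | ⟨_, -, rfl⟩) | ⟨_, -, rfl⟩) | ⟨_, -, rfl⟩ <;>
          exact ⟨_, _, rfl⟩
  · refine Or.inr (Or.inr ?_)
    obtain ⟨ρ, -, rfl⟩ := List.mem_map.1 hr
    unfold ck at hv
    rcases List.mem_append.1 hv with hv | hv
    · rcases List.mem_append.1 hv with hv | hv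
      · simp only [List.mem_cons, List.not_mem_nil, or_false] at hv
        exact ⟨_, _, hv⟩
      · split_ifs at hv
        · obtain ⟨σ, -, hv⟩ := List.mem_flatMap.1 hv
          simp only [List.mem_cons, List.not_mem_nil, or_false] at hv
          rcases hv with rfl | rfl <;> exact ⟨_, _, rfl⟩
        · obtain ⟨σ, -, hv⟩ := List.mem_flatMap.1 hv
          simp only [List.mem_cons, List.not_mem_nil, or_false] at hv
          rcases hv with rfl | rfl <;> exact ⟨_, _, rfl⟩
        · simp at hv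
    · simp only [List.mem_cons, List.not_mem_nil, or_false] at hv
      exact ⟨_, _, hv⟩

theorem r10_rowV (h : S.WF) (hd : DatOK S d) {r : List Vx} (hr : r ∈ S.rows) {v : Vx}
    (hv : v ∈ r) : -1 ≤ (d.pos S v).1 ∧ (d.pos S v).1 ≤ 2 * S.NN + 1 ∧ 0 ≤ (d.pos S v).2 ∧
      (d.pos S v).2 ≤ 2 * S.MM ∧ ((d.pos S v).1 ≤ -1 → ∃ k ≤ 4 * S.MM, v = .L k) ∧
      (2 * S.NN + 1 ≤ (d.pos S v).1 → ∃ k ≤ 4 * S.MM, v = .R k) := by
  have hV : S.isV v := (rows_good h hd r hr).2.2.1 v hv
  have hN : (0 : ℝ) ≤ S.NN := Nat.cast_nonneg _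
  rcases r10_rowK hr hv with ⟨k, rfl⟩ | ⟨k, rfl⟩ | ⟨b, c, rfl⟩
  · obtain ⟨h1, h2⟩ := yb_mem h hd (show k ≤ 4 * S.MM from hV)
    refine ⟨?_, ?_, h1, h2, fun _ => ⟨k, hV, rfl⟩, fun h3 => ?_⟩
    · simp only [Dat.pos]; linarith
    · simp only [Dat.pos]; linarith
    · simp only [Dat.pos] at h3; linarith
  · obtain ⟨h1, h2⟩ := yb_mem h hd (show k ≤ 4 * S.MM from hV)
    refine ⟨?_, ?_, h1, h2, fun h3 => ?_, fun _ => ⟨k, hV, rfl⟩⟩
    · simp only [Dat.pos]; linarith
    · simp only [Dat.pos]; linarith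
    · simp only [Dat.pos] at h3; linarith
  · obtain ⟨h1, h2, h3, h4⟩ := r10_blk h hd (show S.binB b c from hV)
    refine ⟨by linarith, by linarith, h3.le, h4.le, fun h5 => ?_, fun h5 => ?_⟩
    · exfalso; linarith
    · exfalso; linarith

theorem r10_colV (h : S.WF) (hd : DatOK S d) {r : List Vx} (hr : r ∈ S.cols) {v : Vx}
    (hv : v ∈ r) : 0 ≤ (d.pos S v).1 ∧ (d.pos S v).1 ≤ 2 * S.NN ∧ -1 ≤ (d.pos S v).2 ∧
      (d.pos S v).2 ≤ 2 * S.MM + 1 ∧ ((d.pos S v).2 ≤ -1 → ∃ k ≤ 4 * S.NN, v = .B k) ∧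
      (2 * S.MM + 1 ≤ (d.pos S v).2 → ∃ k ≤ 4 * S.NN, v = .T k) := by
  have hV : S.isV v := (cols_good h hd r hr).2.2.1 v hv
  have hM : (0 : ℝ) ≤ S.MM := Nat.cast_nonneg _
  rcases r10_colK hr hv with ⟨k, rfl⟩ | ⟨k, rfl⟩ | ⟨b, c, rfl⟩
  · obtain ⟨h1, h2⟩ := xb_mem h hd (show k ≤ 4 * S.NN from hV)
    refine ⟨h1, h2, ?_, ?_, fun _ => ⟨k, hV, rfl⟩, fun h3 => ?_⟩
    · simp only [Dat.pos]; linarith
    · simp only [Dat.pos]; linarith
    · simp only [Dat.pos] at h3; linarith
  · obtain ⟨h1, h2⟩ := xb_mem h hd (show k ≤ 4 * S.NN from hV)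
    refine ⟨h1, h2, ?_, ?_, fun h3 => ?_, fun _ => ⟨k, hV, rfl⟩⟩
    · simp only [Dat.pos]; linarith
    · simp only [Dat.pos]; linarith
    · simp only [Dat.pos] at h3; linarith
  · obtain ⟨h1, h2, h3, h4⟩ := r10_blk h hd (show S.binB b c from hV)
    refine ⟨h1.le, h2.le, by linarith, by linarith, fun h5 => ?_, fun h5 => ?_⟩
    · exfalso; linarith
    · exfalso; linarith

theorem r10_yb0 (S : RS) (d : Dat) : d.yb S 0 = 0 := by
  simp [Dat.yb]

theorem r10_xb0 (S : RS) (d : Dat) : d.xb S 0 = 0 := by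
  simp [Dat.xb]

theorem r10_ybM (S : RS) (d : Dat) : d.yb S (4 * S.MM) = 2 * S.MM := by
  simp [Dat.yb]

theorem r10_xbN (S : RS) (d : Dat) : d.xb S (4 * S.NN) = 2 * S.NN := by
  simp [Dat.xb]

/-- All row lines, column lines, box edges are in the rectangle `[-1, 2 N + 1] x [-1, 2 M + 1]`; a
point of a row line with first coordinate `-1` or `2 N + 1` is the position of a vertex `L k` or
`R k`, it has second coordinate between `0` and `2 M`; similarly for column lines. -/
theorem ext_row_in (h : S.WF) (hd : DatOK S d) {r : List Vx} (hr : r ∈ S.rows) {z : Pt}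
    (hz : z ∈ ExtR (d.pos S) r) : -1 ≤ z.1 ∧ z.1 ≤ 2 * S.NN + 1 ∧ 0 ≤ z.2 ∧ z.2 ≤ 2 * S.MM ∧
      (z.1 = -1 → ∃ k ≤ 4 * S.MM, z = d.pos S (.L k)) ∧
      (z.1 = 2 * S.NN + 1 → ∃ k ≤ 4 * S.MM, z = d.pos S (.R k)) := by
  obtain ⟨a, ha, b, hb, h1, h2, h3⟩ := hz
  obtain ⟨a1, a2, a3, a4, a5, a6⟩ := r10_rowV h hd hr ha
  obtain ⟨b1, b2, b3, b4, b5, b6⟩ := r10_rowV h hd hr hb
  refine ⟨by linarith, by linarith, by linarith, by linarith, fun h4 => ?_, fun h4 => ?_⟩
  · obtain ⟨k, hk, rfl⟩ := a5 (by linarith)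
    exact ⟨k, hk, Prod.ext h4 h3⟩
  · obtain ⟨k, hk, rfl⟩ := b6 (by linarith)
    refine ⟨k, hk, Prod.ext h4 (h3.trans ?_)⟩
    exact (rows_good h hd r hr).2.1 a ha _ hb

theorem ext_col_in (h : S.WF) (hd : DatOK S d) {r : List Vx} (hr : r ∈ S.cols) {z : Pt}
    (hz : z ∈ ExtC (d.pos S) r) : 0 ≤ z.1 ∧ z.1 ≤ 2 * S.NN ∧ -1 ≤ z.2 ∧ z.2 ≤ 2 * S.MM + 1 ∧
      (z.2 = -1 → ∃ k ≤ 4 * S.NN, z = d.pos S (.B k)) ∧
      (z.2 = 2 * S.MM + 1 → ∃ k ≤ 4 * S.NN, z = d.pos S (.T k)) := by
  obtain ⟨a, ha, b, hb, h1, h2, h3⟩ := hz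
  obtain ⟨a1, a2, a3, a4, a5, a6⟩ := r10_colV h hd hr ha
  obtain ⟨b1, b2, b3, b4, b5, b6⟩ := r10_colV h hd hr hb
  refine ⟨by linarith, by linarith, by linarith, by linarith, fun h4 => ?_, fun h4 => ?_⟩
  · obtain ⟨k, hk, rfl⟩ := a5 (by linarith)
    exact ⟨k, hk, Prod.ext h3 h4⟩
  · obtain ⟨k, hk, rfl⟩ := b6 (by linarith)
    refine ⟨k, hk, Prod.ext (h3.trans ?_) h4⟩
    exact (cols_good h hd r hr).2.1 a ha _ hb

/-- Where the open outer edges are: the boundary edges on the sides (strictly between consecutive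
boundary vertices) or on the four oblique lines at the corners, the hub edges outside the
rectangle. -/
theorem out_where (h : S.WF) (hd : DatOK S d) {e : Vx × Vx} (he : e ∈ S.outE) {z : Pt}
    (hz : z ∈ openSegment ℝ (d.pos S e.1) (d.pos S e.2)) :
    (z.1 = -1 ∧ ∃ k < 4 * S.MM, d.yb S k < z.2 ∧ z.2 < d.yb S (k + 1)) ∨
    (z.1 = 2 * S.NN + 1 ∧ ∃ k < 4 * S.MM, d.yb S k < z.2 ∧ z.2 < d.yb S (k + 1)) ∨
    (z.2 = -1 ∧ ∃ k < 4 * S.NN, d.xb S k < z.1 ∧ z.1 < d.xb S (k + 1)) ∨
    (z.2 = 2 * S.MM + 1 ∧ ∃ k < 4 * S.NN, d.xb S k < z.1 ∧ z.1 < d.xb S (k + 1)) ∨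
    (z.2 - z.1 = 2 * S.MM + 1 ∧ -1 < z.1 ∧ z.1 < 0) ∨
    (z.1 + z.2 = 2 * S.NN + 2 * S.MM + 1 ∧ 2 * S.NN < z.1 ∧ z.1 < 2 * S.NN + 1) ∨
    (z.1 - z.2 = 2 * S.NN + 1 ∧ 2 * S.NN < z.1 ∧ z.1 < 2 * S.NN + 1) ∨
    (z.1 + z.2 = -1 ∧ -1 < z.1 ∧ z.1 < 0) ∨
    z.1 < -1 ∨ 2 * S.NN + 1 < z.1 ∨ z.2 < -1 ∨ 2 * S.MM + 1 < z.2 := by
  obtain ⟨s, t, hs, ht, hst, e1, e2⟩ := r10_seg hz
  have hN : (0 : ℝ) ≤ S.NN := Nat.cast_nonneg _
  have hM : (0 : ℝ) ≤ S.MM := Nat.cast_nonneg _
  have hs' : s = 1 - t := by linarith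
  have ht1 : t < 1 := by linarith
  subst hs'
  unfold outE at he
  rcases List.mem_append.1 he with he | he
  · unfold hvBd at he
    rcases List.mem_append.1 he with he | he
    · rcases List.mem_append.1 he with he | he
      · rcases List.mem_append.1 he with he | he
        · rcases List.mem_append.1 he with he | he
          · obtain ⟨k, hk, rfl⟩ := List.mem_map.1 he
            have h1 := yb_lt h hd (Nat.lt_succ_self k)
            simp only [Dat.pos] at e1 e2
            refine Or.inl ⟨by rw [e1]; ring, k, List.mem_range.1 hk, ?_, ?_⟩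
            · rw [e2]; nlinarith
            · rw [e2]; nlinarith
          · obtain ⟨k, hk, rfl⟩ := List.mem_map.1 he
            have h1 := yb_lt h hd (Nat.lt_succ_self k)
            simp only [Dat.pos] at e1 e2
            refine Or.inr (Or.inl ⟨by rw [e1]; ring, k, List.mem_range.1 hk, ?_, ?_⟩)
            · rw [e2]; nlinarith
            · rw [e2]; nlinarith
        · obtain ⟨k, hk, rfl⟩ := List.mem_map.1 he
          have h1 := xb_lt h hd (Nat.lt_succ_self k) (List.mem_range.1 hk)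
          simp only [Dat.pos] at e1 e2
          refine Or.inr (Or.inr (Or.inl ⟨by rw [e2]; ring, k, List.mem_range.1 hk, ?_, ?_⟩))
          · rw [e1]; nlinarith
          · rw [e1]; nlinarith
      · obtain ⟨k, hk, rfl⟩ := List.mem_map.1 he
        have h1 := xb_lt h hd (Nat.lt_succ_self k) (List.mem_range.1 hk)
        simp only [Dat.pos] at e1 e2
        refine Or.inr (Or.inr (Or.inr (Or.inl
          ⟨by rw [e2]; ring, k, List.mem_range.1 hk, ?_, ?_⟩)))
        · rw [e1]; nlinarith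
        · rw [e1]; nlinarith
    · simp only [List.mem_cons, List.not_mem_nil, or_false] at he
      rcases he with rfl | rfl | rfl | rfl
      · simp only [Dat.pos, r10_ybM, r10_xb0] at e1 e2
        refine Or.inr (Or.inr (Or.inr (Or.inr (Or.inl ⟨?_, ?_, ?_⟩))))
        · rw [e1, e2]; ring
        · rw [e1]; linarith
        · rw [e1]; linarith
      · simp only [Dat.pos, r10_ybM, r10_xbN] at e1 e2
        refine Or.inr (Or.inr (Or.inr (Or.inr (Or.inr (Or.inl ⟨?_, ?_, ?_⟩)))))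
        · rw [e1, e2]; ring
        · rw [e1]; linarith
        · rw [e1]; linarith
      · simp only [Dat.pos, r10_yb0, r10_xbN] at e1 e2
        refine Or.inr (Or.inr (Or.inr (Or.inr (Or.inr (Or.inr (Or.inl ⟨?_, ?_, ?_⟩))))))
        · rw [e1, e2]; ring
        · rw [e1]; linarith
        · rw [e1]; linarith
      · simp only [Dat.pos, r10_yb0, r10_xb0] at e1 e2
        refine Or.inr (Or.inr (Or.inr (Or.inr (Or.inr (Or.inr (Or.inr (Or.inl ⟨?_, ?_, ?_⟩)))))))
        · rw [e1, e2]; ring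
        · rw [e1]; linarith
        · rw [e1]; linarith
  · refine Or.inr (Or.inr (Or.inr (Or.inr (Or.inr (Or.inr (Or.inr (Or.inr ?_)))))))
    have hB : S.big = 2 * S.NN + 2 * S.MM + 2 := rfl
    unfold hvHub at he
    rcases List.mem_append.1 he with he | he
    · rcases List.mem_append.1 he with he | he
      · rcases List.mem_append.1 he with he | he
        · rcases List.mem_append.1 he with he | he
          · obtain ⟨k, hk, rfl⟩ := List.mem_map.1 he
            left
            simp only [Dat.pos, if_true, hB] at e1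
            rw [e1]
            nlinarith
          · obtain ⟨k, hk, rfl⟩ := List.mem_map.1 he
            right; left
            simp only [Dat.pos, hB] at e1
            norm_num at e1
            rw [e1]
            nlinarith
        · obtain ⟨k, hk, rfl⟩ := List.mem_map.1 he
          right; right; right
          simp only [Dat.pos, hB] at e2
          norm_num at e2
          rw [e2]
          nlinarith
      · obtain ⟨k, hk, rfl⟩ := List.mem_map.1 he
        right; right; left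
        simp only [Dat.pos, hB] at e2
        norm_num at e2
        rw [e2]
        nlinarith
    · simp only [List.mem_cons, List.not_mem_nil, or_false] at he
      rcases he with rfl | rfl | rfl | rfl
      · by_cases hz1 : z.1 < -1
        · exact Or.inl hz1
        · right; right; right
          simp only [Dat.pos, hB] at e1 e2
          norm_num at e1 e2
          rw [e1] at hz1
          rw [e2]
          nlinarith [mul_nonneg ht.le hN, mul_nonneg ht.le hM]
      · right; left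
        simp only [Dat.pos, hB] at e1
        norm_num at e1
        rw [e1]
        nlinarith [mul_nonneg ht.le hN, mul_nonneg ht.le hM, mul_nonneg hs.le hN,
          mul_nonneg hs.le hM]
      · right; right; right
        simp only [Dat.pos, hB] at e2
        norm_num at e2
        rw [e2]
        nlinarith [mul_nonneg ht.le hN, mul_nonneg ht.le hM, mul_nonneg hs.le hN,
          mul_nonneg hs.le hM]
      · by_cases hz1 : z.2 < -1
        · exact Or.inr (Or.inr (Or.inl hz1))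
        · right; left
          simp only [Dat.pos, hB] at e1 e2
          norm_num at e1 e2
          rw [e2] at hz1
          rw [e1]
          nlinarith [mul_nonneg ht.le hN, mul_nonneg ht.le hM]

theorem out_inside (h : S.WF) (hd : DatOK S d) : ∀ e ∈ S.outE,
    ∀ z ∈ openSegment ℝ (d.pos S e.1) (d.pos S e.2), (∀ r ∈ S.rows, z ∉ ExtR (d.pos S) r) ∧
      (∀ r ∈ S.cols, z ∉ ExtC (d.pos S) r) ∧
      ∀ f ∈ S.boxE, z ∉ openSegment ℝ (d.pos S f.1) (d.pos S f.2) := by
  intro e he z hz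
  have hw := out_where h hd he hz
  have hN : (0 : ℝ) ≤ S.NN := Nat.cast_nonneg _
  have hM : (0 : ℝ) ≤ S.MM := Nat.cast_nonneg _
  refine ⟨fun r hr hz' => ?_, fun r hr hz' => ?_, fun f hf hz' => ?_⟩
  · obtain ⟨a1, a2, a3, a4, a5, a6⟩ := ext_row_in h hd hr hz'
    rcases hw with ⟨h1, k, hk, h2, h3⟩ | ⟨h1, k, hk, h2, h3⟩ | ⟨h1, -⟩ | ⟨h1, -⟩ |
      ⟨h1, h2, h3⟩ | ⟨h1, h2, h3⟩ | ⟨h1, h2, h3⟩ | ⟨h1, h2, h3⟩ | h1 | h1 | h1 | h1
    · obtain ⟨k', -, rfl⟩ := a5 h1
      have h4 : k < k' := by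
        by_contra h5
        rcases lt_or_eq_of_le (not_lt.1 h5) with h6 | h6
        · exact absurd (yb_lt h hd h6) (not_lt.2 h2.le)
        · subst h6; exact lt_irrefl _ h2
      have h5 : k' < k + 1 := by
        by_contra h5
        rcases lt_or_eq_of_le (not_lt.1 h5) with h6 | h6
        · exact absurd (yb_lt h hd h6) (not_lt.2 h3.le)
        · subst h6; exact lt_irrefl _ h3
      omega
    · obtain ⟨k', -, rfl⟩ := a6 h1
      have h4 : k < k' := by
        by_contra h5
        rcases lt_or_eq_of_le (not_lt.1 h5) with h6 | h6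
        · exact absurd (yb_lt h hd h6) (not_lt.2 h2.le)
        · subst h6; exact lt_irrefl _ h2
      have h5 : k' < k + 1 := by
        by_contra h5
        rcases lt_or_eq_of_le (not_lt.1 h5) with h6 | h6
        · exact absurd (yb_lt h hd h6) (not_lt.2 h3.le)
        · subst h6; exact lt_irrefl _ h3
      omega
    all_goals linarith
  · obtain ⟨a1, a2, a3, a4, a5, a6⟩ := ext_col_in h hd hr hz'
    rcases hw with ⟨h1, k, hk, h2, h3⟩ | ⟨h1, k, hk, h2, h3⟩ | ⟨h1, k, hk, h2, h3⟩ |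
      ⟨h1, k, hk, h2, h3⟩ |
      ⟨h1, h2, h3⟩ | ⟨h1, h2, h3⟩ | ⟨h1, h2, h3⟩ | ⟨h1, h2, h3⟩ | h1 | h1 | h1 | h1
    · linarith
    · linarith
    · obtain ⟨k', hk', rfl⟩ := a5 h1
      have h4 : k < k' := by
        by_contra h5
        rcases lt_or_eq_of_le (not_lt.1 h5) with h6 | h6
        · exact absurd (xb_lt h hd h6 hk.le) (not_lt.2 h2.le)
        · subst h6; exact lt_irrefl _ h2
      have h5 : k' < k + 1 := by
        by_contra h5
        rcases lt_or_eq_of_le (not_lt.1 h5) with h6 | h6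
        · exact absurd (xb_lt h hd h6 hk') (not_lt.2 h3.le)
        · subst h6; exact lt_irrefl _ h3
      omega
    · obtain ⟨k', hk', rfl⟩ := a6 h1
      have h4 : k < k' := by
        by_contra h5
        rcases lt_or_eq_of_le (not_lt.1 h5) with h6 | h6
        · exact absurd (xb_lt h hd h6 hk.le) (not_lt.2 h2.le)
        · subst h6; exact lt_irrefl _ h2
      have h5 : k' < k + 1 := by
        by_contra h5
        rcases lt_or_eq_of_le (not_lt.1 h5) with h6 | h6
        · exact absurd (xb_lt h hd h6 hk') (not_lt.2 h3.le)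
        · subst h6; exact lt_irrefl _ h3
      omega
    all_goals linarith
  · obtain ⟨b, hb, g, hg, rfl⟩ := (mem_boxE h).1 hf
    obtain ⟨y, hy, hzy⟩ := box_local hz'
    obtain ⟨a1, a2, a3, a4⟩ := box_in h hd hb hg hy
    have h5 : ((S.bcol b : ℕ) : ℝ) + 1 ≤ S.NN := by
      exact_mod_cast Nat.succ_le_of_lt (bcol_lt h hb)
    have h6 : ((S.brow b : ℕ) : ℝ) + 1 ≤ S.MM := by
      exact_mod_cast Nat.succ_le_of_lt (brow_lt h hb)
    have h7 : (0 : ℝ) ≤ (S.bcol b : ℝ) := Nat.cast_nonneg _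
    have h8 : (0 : ℝ) ≤ (S.brow b : ℝ) := Nat.cast_nonneg _
    have e1 : z.1 = 2 * (S.bcol b : ℝ) + 1 / 2 + y.1 := congrArg Prod.fst hzy
    have e2 : z.2 = 2 * (S.brow b : ℝ) + 1 / 2 + y.2 := congrArg Prod.snd hzy
    rcases hw with ⟨h1, -⟩ | ⟨h1, -⟩ | ⟨h1, -⟩ | ⟨h1, -⟩ |
      ⟨h1, h2, h3⟩ | ⟨h1, h2, h3⟩ | ⟨h1, h2, h3⟩ | ⟨h1, h2, h3⟩ | h1 | h1 | h1 | h1
    all_goals linarith

end Pool.Agent.H54R
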