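import Pool.Agent.Lib.H54R.RDefs
import Pool.Agent.Lib.H54R.C3
import Pool.Agent.Lib.H54R.R5
import Pool.Agent.Lib.H54R.R5B

/-!
# R11: outer edges and vertices, pairs of outer edges
-/

set_option autoImplicit false

namespace Pool.Agent.H54R

open RS

variable {S : RS} {d : Dat}

/-! ### tools -/

theorem r11_pos (a b c : ℝ) {P Q z : Pt} (hz : z ∈ openSegment ℝ P Q)
    (hP : 0 ≤ a * P.1 + b * P.2 + c) (hQ : 0 ≤ a * Q.1 + b * Q.2 + c)
    (h : 0 < a * P.1 + b * P.2 + c ∨ 0 < a * Q.1 + b * Q.2 + c) : 0 < a * z.1 + b * z.2 + c := by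
  obtain ⟨s, t, hs, ht, hst, rfl⟩ := hz
  have e : a * (s • P + t • Q).1 + b * (s • P + t • Q).2 + c =
      s * (a * P.1 + b * P.2 + c) + t * (a * Q.1 + b * Q.2 + c) := by
    simp only [Prod.fst_add, Prod.snd_add, Prod.smul_fst, Prod.smul_snd, smul_eq_mul]
    linear_combination (-c) * hst
  rw [e]
  rcases h with h | h
  · have := mul_pos hs h
    have := mul_nonneg ht.le hQ
    linarith
  · have := mul_pos ht h
    have := mul_nonneg hs.le hP
    linarith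

theorem r11_zero (a b c : ℝ) {P Q z : Pt} (hz : z ∈ openSegment ℝ P Q)
    (hP : a * P.1 + b * P.2 + c = 0) (hQ : a * Q.1 + b * Q.2 + c = 0) :
    a * z.1 + b * z.2 + c = 0 := by
  obtain ⟨s, t, hs, ht, hst, rfl⟩ := hz
  have e : a * (s • P + t • Q).1 + b * (s • P + t • Q).2 + c =
      s * (a * P.1 + b * P.2 + c) + t * (a * Q.1 + b * Q.2 + c) := by
    simp only [Prod.fst_add, Prod.snd_add, Prod.smul_fst, Prod.smul_snd, smul_eq_mul]
    linear_combination (-c) * hst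
  rw [e, hP, hQ]
  ring

/-- two segments with a common end and different directions -/
theorem r11_det {O P Q : Pt}
    (h : (P.1 - O.1) * (Q.2 - O.2) - (P.2 - O.2) * (Q.1 - O.1) ≠ 0) : ¬ Cross O P O Q := by
  rintro ⟨z, hz1, hz2⟩
  have e1 := r11_zero (-(P.2 - O.2)) (P.1 - O.1) ((P.2 - O.2) * O.1 - (P.1 - O.1) * O.2) hz1
    (by ring) (by ring)
  have e2 := r11_zero (-(Q.2 - O.2)) (Q.1 - O.1) ((Q.2 - O.2) * O.1 - (Q.1 - O.1) * O.2) hz2
    (by ring) (by ring)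
  have hO : z ≠ O := by
    rintro rfl
    obtain ⟨s, t, hs, ht, hst, hz⟩ := hz1
    have h1 := congrArg Prod.fst hz
    have h2 := congrArg Prod.snd hz
    simp only [Prod.fst_add, Prod.snd_add, Prod.smul_fst, Prod.smul_snd, smul_eq_mul] at h1 h2
    have h3 : t * (P.1 - z.1) = 0 := by linear_combination h1 - z.1 * hst
    have h4 : t * (P.2 - z.2) = 0 := by linear_combination h2 - z.2 * hst
    have h5 := (mul_eq_zero.mp h3).resolve_left ht.ne'
    have h6 := (mul_eq_zero.mp h4).resolve_left ht.ne'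
    exact h (by rw [h5, h6]; ring)
  apply hO
  have f1 : ((P.1 - O.1) * (Q.2 - O.2) - (P.2 - O.2) * (Q.1 - O.1)) * (z.1 - O.1) = 0 := by
    linear_combination (Q.1 - O.1) * e1 - (P.1 - O.1) * e2
  have f2 : ((P.1 - O.1) * (Q.2 - O.2) - (P.2 - O.2) * (Q.1 - O.1)) * (z.2 - O.2) = 0 := by
    linear_combination (Q.2 - O.2) * e1 - (P.2 - O.2) * e2
  exact Prod.ext (sub_eq_zero.mp ((mul_eq_zero.mp f1).resolve_left h))
    (sub_eq_zero.mp ((mul_eq_zero.mp f2).resolve_left h))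



/-! ### positions -/

theorem r11_dims (h : S.WF) : (1 : ℝ) ≤ S.NN ∧ (1 : ℝ) ≤ S.MM := by
  have h1 : 1 ≤ S.NN := by
    have := h.pos
    unfold NN
    omega
  have h2 : 1 ≤ S.MM := by
    have := R_pos h
    unfold MM
    omega
  exact ⟨by exact_mod_cast h1, by exact_mod_cast h2⟩

theorem r11_yb0 : d.yb S 0 = 0 := by simp [Dat.yb]

theorem r11_xb0 : d.xb S 0 = 0 := by simp [Dat.xb]

theorem r11_yb1 : d.yb S (4 * S.MM) = 2 * S.MM := by simp [Dat.yb]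

theorem r11_xb1 : d.xb S (4 * S.NN) = 2 * S.NN := by simp [Dat.xb]

theorem r11_hub0 : d.pos S (.hub 0) = (-20 * S.big, (S.MM : ℝ) + 1 / 7) := by simp [Dat.pos]

theorem r11_hub1 : d.pos S (.hub 1) = (2 * S.NN + 1 + S.big, (S.MM : ℝ) + 1 / 7) := by simp [Dat.pos]

theorem r11_hub2 : d.pos S (.hub 2) = ((S.NN : ℝ) + 1 / 7, 2 * S.MM + 1 + S.big) := by simp [Dat.pos]

theorem r11_hub3 : d.pos S (.hub 3) = ((S.NN : ℝ) + 1 / 7, -20 * S.big) := by simp [Dat.pos]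

theorem r11_hub4 : d.pos S (.hub 4) = (20 * S.big, 20 * S.big) := by simp [Dat.pos]

/-- where the open boundary edges are -/
def BdW (S : RS) (d : Dat) (e : Vx × Vx) (z : Pt) : Prop :=
  (∃ k < 4 * S.MM, e = (.L k, .L (k + 1)) ∧ z.1 = -1 ∧ d.yb S k < z.2 ∧ z.2 < d.yb S (k + 1) ∧
    0 ≤ d.yb S k ∧ d.yb S (k + 1) ≤ 2 * S.MM) ∨
  (∃ k < 4 * S.MM, e = (.R k, .R (k + 1)) ∧ z.1 = 2 * S.NN + 1 ∧ d.yb S k < z.2 ∧
    z.2 < d.yb S (k + 1) ∧ 0 ≤ d.yb S k ∧ d.yb S (k + 1) ≤ 2 * S.MM) ∨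
  (∃ k < 4 * S.NN, e = (.B k, .B (k + 1)) ∧ z.2 = -1 ∧ d.xb S k < z.1 ∧ z.1 < d.xb S (k + 1) ∧
    0 ≤ d.xb S k ∧ d.xb S (k + 1) ≤ 2 * S.NN) ∨
  (∃ k < 4 * S.NN, e = (.T k, .T (k + 1)) ∧ z.2 = 2 * S.MM + 1 ∧ d.xb S k < z.1 ∧
    z.1 < d.xb S (k + 1) ∧ 0 ≤ d.xb S k ∧ d.xb S (k + 1) ≤ 2 * S.NN) ∨
  (e = (.L (4 * S.MM), .T 0) ∧ z.2 - z.1 = 2 * S.MM + 1 ∧ -1 < z.1 ∧ z.1 < 0) ∨
  (e = (.T (4 * S.NN), .R (4 * S.MM)) ∧ z.1 + z.2 = 2 * S.NN + 2 * S.MM + 1 ∧ 2 * S.NN < z.1 ∧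
    z.1 < 2 * S.NN + 1) ∨
  (e = (.R 0, .B (4 * S.NN)) ∧ z.1 - z.2 = 2 * S.NN + 1 ∧ 2 * S.NN < z.1 ∧
    z.1 < 2 * S.NN + 1) ∨
  (e = (.B 0, .L 0) ∧ z.1 + z.2 = -1 ∧ -1 < z.1 ∧ z.1 < 0)

theorem bd_where (h : S.WF) (hd : DatOK S d) {e : Vx × Vx} (he : e ∈ S.hvBd) {z : Pt}
    (hz : z ∈ openSegment ℝ (d.pos S e.1) (d.pos S e.2)) : BdW S d e z := by
  have hside1 : ∀ {a : ℝ} {k : ℕ}, k < 4 * S.MM →
      z ∈ openSegment ℝ ((a, d.yb S k) : Pt) ((a, d.yb S (k + 1)) : Pt) →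
      z.1 = a ∧ d.yb S k < z.2 ∧ z.2 < d.yb S (k + 1) ∧
        0 ≤ d.yb S k ∧ d.yb S (k + 1) ≤ 2 * S.MM := by
    intro a k hk hz
    have h1 := yb_lt h hd (Nat.lt_succ_self k)
    have h2 := yb_mem h hd hk.le
    have h3 := yb_mem h hd (Nat.succ_le_of_lt hk)
    have a1 := r11_zero 1 0 (-a) hz (by dsimp only; linarith) (by dsimp only; linarith)
    have a2 := r11_pos 0 1 (-d.yb S k) hz (by dsimp only; linarith) (by dsimp only; linarith) (Or.inr (by dsimp only; linarith))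
    have a3 := r11_pos 0 (-1) (d.yb S (k + 1)) hz (by dsimp only; linarith) (by dsimp only; linarith)
      (Or.inl (by dsimp only; linarith))
    exact ⟨by linarith, by linarith, by linarith, h2.1, h3.2⟩
  have hside2 : ∀ {a : ℝ} {k : ℕ}, k < 4 * S.NN →
      z ∈ openSegment ℝ ((d.xb S k, a) : Pt) ((d.xb S (k + 1), a) : Pt) →
      z.2 = a ∧ d.xb S k < z.1 ∧ z.1 < d.xb S (k + 1) ∧
        0 ≤ d.xb S k ∧ d.xb S (k + 1) ≤ 2 * S.NN := by
    intro a k hk hz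
    have h1 := xb_lt h hd (Nat.lt_succ_self k) (Nat.succ_le_of_lt hk)
    have h2 := xb_mem h hd hk.le
    have h3 := xb_mem h hd (Nat.succ_le_of_lt hk)
    have a1 := r11_zero 0 1 (-a) hz (by dsimp only; linarith) (by dsimp only; linarith)
    have a2 := r11_pos 1 0 (-d.xb S k) hz (by dsimp only; linarith) (by dsimp only; linarith) (Or.inr (by dsimp only; linarith))
    have a3 := r11_pos (-1) 0 (d.xb S (k + 1)) hz (by dsimp only; linarith) (by dsimp only; linarith)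
      (Or.inl (by dsimp only; linarith))
    exact ⟨by linarith, by linarith, by linarith, h2.1, h3.2⟩
  unfold BdW
  simp only [hvBd, List.mem_append, List.mem_map, List.mem_range, List.mem_cons,
    List.not_mem_nil, or_false] at he
  rcases he with (((he | he) | he) | he) | he | he | he | he
  · obtain ⟨k, hk, rfl⟩ := he
    exact Or.inl ⟨k, hk, rfl, hside1 hk hz⟩
  · obtain ⟨k, hk, rfl⟩ := he
    exact Or.inr (Or.inl ⟨k, hk, rfl, hside1 hk hz⟩)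
  · obtain ⟨k, hk, rfl⟩ := he
    exact Or.inr (Or.inr (Or.inl ⟨k, hk, rfl, hside2 hk hz⟩))
  · obtain ⟨k, hk, rfl⟩ := he
    exact Or.inr (Or.inr (Or.inr (Or.inl ⟨k, hk, rfl, hside2 hk hz⟩)))
  · subst he
    simp only [Dat.pos, r11_yb1, r11_xb0] at hz
    have a1 := r11_zero (-1) 1 (-(2 * S.MM + 1)) hz (by dsimp only; linarith) (by dsimp only; linarith)
    have a2 := r11_pos 1 0 1 hz (by dsimp only; linarith) (by dsimp only; linarith) (Or.inr (by dsimp only; linarith))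
    have a3 := r11_pos (-1) 0 0 hz (by dsimp only; linarith) (by dsimp only; linarith) (Or.inl (by dsimp only; linarith))
    exact Or.inr (Or.inr (Or.inr (Or.inr (Or.inl ⟨rfl, by linarith, by linarith, by linarith⟩))))
  · subst he
    simp only [Dat.pos, r11_yb1, r11_xb1] at hz
    have a1 := r11_zero 1 1 (-(2 * S.NN + 2 * S.MM + 1)) hz (by dsimp only; linarith) (by dsimp only; linarith)
    have a2 := r11_pos 1 0 (-(2 * S.NN)) hz (by dsimp only; linarith) (by dsimp only; linarith) (Or.inr (by dsimp only; linarith))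
    have a3 := r11_pos (-1) 0 (2 * S.NN + 1) hz (by dsimp only; linarith) (by dsimp only; linarith) (Or.inl (by dsimp only; linarith))
    exact Or.inr (Or.inr (Or.inr (Or.inr (Or.inr (Or.inl
      ⟨rfl, by linarith, by linarith, by linarith⟩)))))
  · subst he
    simp only [Dat.pos, r11_yb0, r11_xb1] at hz
    have a1 := r11_zero 1 (-1) (-(2 * S.NN + 1)) hz (by dsimp only; linarith) (by dsimp only; linarith)
    have a2 := r11_pos 1 0 (-(2 * S.NN)) hz (by dsimp only; linarith) (by dsimp only; linarith) (Or.inl (by dsimp only; linarith))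
    have a3 := r11_pos (-1) 0 (2 * S.NN + 1) hz (by dsimp only; linarith) (by dsimp only; linarith) (Or.inr (by dsimp only; linarith))
    exact Or.inr (Or.inr (Or.inr (Or.inr (Or.inr (Or.inr (Or.inl
      ⟨rfl, by linarith, by linarith, by linarith⟩))))))
  · subst he
    simp only [Dat.pos, r11_yb0, r11_xb0] at hz
    have a1 := r11_zero 1 1 1 hz (by dsimp only; linarith) (by dsimp only; linarith)
    have a2 := r11_pos 1 0 1 hz (by dsimp only; linarith) (by dsimp only; linarith) (Or.inl (by dsimp only; linarith))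
    have a3 := r11_pos (-1) 0 0 hz (by dsimp only; linarith) (by dsimp only; linarith) (Or.inr (by dsimp only; linarith))
    exact Or.inr (Or.inr (Or.inr (Or.inr (Or.inr (Or.inr (Or.inr
      ⟨rfl, by linarith, by linarith, by linarith⟩))))))

/-- where the open hub edges are -/
def HubW (S : RS) (d : Dat) (e : Vx × Vx) (z : Pt) : Prop :=
  (∃ k ≤ 4 * S.MM, e = (.hub 0, .L k) ∧ -20 * S.big < z.1 ∧ z.1 < -1 ∧ 0 < z.2 ∧ z.2 < 2 * S.MM ∧
    z.2 < S.MM + 1 / 7 + (z.1 + 20 * S.big) / 4) ∨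
  (∃ k ≤ 4 * S.MM, e = (.hub 1, .R k) ∧ 2 * S.NN + 1 < z.1 ∧ z.1 < 2 * S.NN + 1 + S.big ∧
    0 < z.2 ∧ z.2 < 2 * S.MM) ∨
  (∃ k ≤ 4 * S.NN, e = (.hub 2, .T k) ∧ 2 * S.MM + 1 < z.2 ∧ z.2 < 2 * S.MM + 1 + S.big ∧
    0 < z.1 ∧ z.1 < 2 * S.NN) ∨
  (∃ k ≤ 4 * S.NN, e = (.hub 3, .B k) ∧ -20 * S.big < z.2 ∧ z.2 < -1 ∧ 0 < z.1 ∧ z.1 < 2 * S.NN ∧
    z.1 < S.NN + 1 / 7 + (z.2 + 20 * S.big) / 4) ∨
  (e = (.hub 4, .hub 0) ∧ -20 * S.big < z.1 ∧ z.1 < 20 * S.big ∧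
    S.MM + 1 / 7 + (z.1 + 20 * S.big) / 4 < z.2 ∧ 20 * S.big + (z.1 - 20 * S.big) / 2 < z.2) ∨
  (e = (.hub 4, .hub 1) ∧ 2 * S.NN + 1 + S.big < z.1 ∧ z.1 < 20 * S.big ∧
    20 * S.big + 2 * (z.1 - 20 * S.big) < z.2 ∧ z.2 < z.1) ∨
  (e = (.hub 4, .hub 2) ∧ 2 * S.MM + 1 + S.big < z.2 ∧ z.2 < 20 * S.big ∧
    20 * S.big + 2 * (z.2 - 20 * S.big) < z.1 ∧ z.1 < z.2) ∨
  (e = (.hub 4, .hub 3) ∧ -20 * S.big < z.2 ∧ z.2 < 20 * S.big ∧
    S.NN + 1 / 7 + (z.2 + 20 * S.big) / 4 < z.1 ∧ 20 * S.big + (z.2 - 20 * S.big) / 2 < z.1)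

theorem hub_where (h : S.WF) (hd : DatOK S d) {e : Vx × Vx} (he : e ∈ S.hvHub) {z : Pt}
    (hz : z ∈ openSegment ℝ (d.pos S e.1) (d.pos S e.2)) : HubW S d e z := by
  obtain ⟨hN, hM⟩ := r11_dims h
  have hW : S.big = 2 * S.NN + 2 * S.MM + 2 := rfl
  unfold HubW
  simp only [hvHub, List.mem_append, List.mem_map, List.mem_range, List.mem_cons,
    List.not_mem_nil, or_false] at he
  rcases he with (((he | he) | he) | he) | he | he | he | he
  · obtain ⟨k, hk, rfl⟩ := he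
    have hk := Nat.lt_succ_iff.mp hk
    have h2 := yb_mem h hd hk
    rw [r11_hub0] at hz
    simp only [Dat.pos] at hz
    refine Or.inl ⟨k, hk, rfl, ?_, ?_, ?_, ?_, ?_⟩
    · have := r11_pos 1 0 (20 * S.big) hz (by dsimp only; linarith) (by dsimp only; linarith) (Or.inr (by dsimp only; linarith))
      linarith
    · have := r11_pos (-1) 0 (-1) hz (by dsimp only; linarith) (by dsimp only; linarith) (Or.inl (by dsimp only; linarith))
      linarith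
    · have := r11_pos 0 1 0 hz (by dsimp only; linarith) (by dsimp only; linarith) (Or.inl (by dsimp only; linarith))
      linarith
    · have := r11_pos 0 (-1) (2 * S.MM) hz (by dsimp only; linarith) (by dsimp only; linarith)
        (Or.inl (by dsimp only; linarith))
      linarith
    · have := r11_pos (1 / 4) (-1) (S.MM + 1 / 7 + 5 * S.big) hz (by dsimp only; linarith)
        (by dsimp only; linarith) (Or.inr (by dsimp only; linarith))
      linarith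
  · obtain ⟨k, hk, rfl⟩ := he
    have hk := Nat.lt_succ_iff.mp hk
    have h2 := yb_mem h hd hk
    rw [r11_hub1] at hz
    simp only [Dat.pos] at hz
    refine Or.inr (Or.inl ⟨k, hk, rfl, ?_, ?_, ?_, ?_⟩)
    · have := r11_pos 1 0 (-(2 * S.NN + 1)) hz (by dsimp only; linarith) (by dsimp only; linarith)
        (Or.inl (by dsimp only; linarith))
      linarith
    · have := r11_pos (-1) 0 (2 * S.NN + 1 + S.big) hz (by dsimp only; linarith) (by dsimp only; linarith)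
        (Or.inr (by dsimp only; linarith))
      linarith
    · have := r11_pos 0 1 0 hz (by dsimp only; linarith) (by dsimp only; linarith) (Or.inl (by dsimp only; linarith))
      linarith
    · have := r11_pos 0 (-1) (2 * S.MM) hz (by dsimp only; linarith) (by dsimp only; linarith)
        (Or.inl (by dsimp only; linarith))
      linarith
  · obtain ⟨k, hk, rfl⟩ := he
    have hk := Nat.lt_succ_iff.mp hk
    have h2 := xb_mem h hd hk
    rw [r11_hub2] at hz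
    simp only [Dat.pos] at hz
    refine Or.inr (Or.inr (Or.inl ⟨k, hk, rfl, ?_, ?_, ?_, ?_⟩))
    · have := r11_pos 0 1 (-(2 * S.MM + 1)) hz (by dsimp only; linarith) (by dsimp only; linarith)
        (Or.inl (by dsimp only; linarith))
      linarith
    · have := r11_pos 0 (-1) (2 * S.MM + 1 + S.big) hz (by dsimp only; linarith) (by dsimp only; linarith)
        (Or.inr (by dsimp only; linarith))
      linarith
    · have := r11_pos 1 0 0 hz (by dsimp only; linarith) (by dsimp only; linarith) (Or.inl (by dsimp only; linarith))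
      linarith
    · have := r11_pos (-1) 0 (2 * S.NN) hz (by dsimp only; linarith) (by dsimp only; linarith)
        (Or.inl (by dsimp only; linarith))
      linarith
  · obtain ⟨k, hk, rfl⟩ := he
    have hk := Nat.lt_succ_iff.mp hk
    have h2 := xb_mem h hd hk
    rw [r11_hub3] at hz
    simp only [Dat.pos] at hz
    refine Or.inr (Or.inr (Or.inr (Or.inl ⟨k, hk, rfl, ?_, ?_, ?_, ?_, ?_⟩)))
    · have := r11_pos 0 1 (20 * S.big) hz (by dsimp only; linarith) (by dsimp only; linarith) (Or.inr (by dsimp only; linarith))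
      linarith
    · have := r11_pos 0 (-1) (-1) hz (by dsimp only; linarith) (by dsimp only; linarith) (Or.inl (by dsimp only; linarith))
      linarith
    · have := r11_pos 1 0 0 hz (by dsimp only; linarith) (by dsimp only; linarith) (Or.inl (by dsimp only; linarith))
      linarith
    · have := r11_pos (-1) 0 (2 * S.NN) hz (by dsimp only; linarith) (by dsimp only; linarith)
        (Or.inl (by dsimp only; linarith))
      linarith
    · have := r11_pos (-1) (1 / 4) (S.NN + 1 / 7 + 5 * S.big) hz (by dsimp only; linarith)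
        (by dsimp only; linarith) (Or.inr (by dsimp only; linarith))
      linarith
  · subst he
    rw [r11_hub4, r11_hub0] at hz
    refine Or.inr (Or.inr (Or.inr (Or.inr (Or.inl ⟨rfl, ?_, ?_, ?_, ?_⟩))))
    · have := r11_pos 1 0 (20 * S.big) hz (by dsimp only; linarith) (by dsimp only; linarith) (Or.inl (by dsimp only; linarith))
      linarith
    · have := r11_pos (-1) 0 (20 * S.big) hz (by dsimp only; linarith) (by dsimp only; linarith)
        (Or.inr (by dsimp only; linarith))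
      linarith
    · have := r11_pos (-1 / 4) 1 (-(S.MM + 1 / 7 + 5 * S.big)) hz (by dsimp only; linarith)
        (by dsimp only; linarith) (Or.inl (by dsimp only; linarith))
      linarith
    · have := r11_pos (-1 / 2) 1 (-10 * S.big) hz (by dsimp only; linarith)
        (by dsimp only; linarith) (Or.inr (by dsimp only; linarith))
      linarith
  · subst he
    rw [r11_hub4, r11_hub1] at hz
    refine Or.inr (Or.inr (Or.inr (Or.inr (Or.inr (Or.inl ⟨rfl, ?_, ?_, ?_, ?_⟩)))))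
    · have := r11_pos 1 0 (-(2 * S.NN + 1 + S.big)) hz (by dsimp only; linarith) (by dsimp only; linarith)
        (Or.inl (by dsimp only; linarith))
      linarith
    · have := r11_pos (-1) 0 (20 * S.big) hz (by dsimp only; linarith) (by dsimp only; linarith)
        (Or.inr (by dsimp only; linarith))
      linarith
    · have := r11_pos (-2) 1 (20 * S.big) hz (by dsimp only; linarith)
        (by dsimp only; linarith) (Or.inr (by dsimp only; linarith))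
      linarith
    · have := r11_pos 1 (-1) 0 hz (by dsimp only; linarith)
        (by dsimp only; linarith) (Or.inr (by dsimp only; linarith))
      linarith
  · subst he
    rw [r11_hub4, r11_hub2] at hz
    refine Or.inr (Or.inr (Or.inr (Or.inr (Or.inr (Or.inr (Or.inl ⟨rfl, ?_, ?_, ?_, ?_⟩))))))
    · have := r11_pos 0 1 (-(2 * S.MM + 1 + S.big)) hz (by dsimp only; linarith) (by dsimp only; linarith)
        (Or.inl (by dsimp only; linarith))
      linarith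
    · have := r11_pos 0 (-1) (20 * S.big) hz (by dsimp only; linarith) (by dsimp only; linarith)
        (Or.inr (by dsimp only; linarith))
      linarith
    · have := r11_pos 1 (-2) (20 * S.big) hz (by dsimp only; linarith)
        (by dsimp only; linarith) (Or.inr (by dsimp only; linarith))
      linarith
    · have := r11_pos (-1) 1 0 hz (by dsimp only; linarith)
        (by dsimp only; linarith) (Or.inr (by dsimp only; linarith))
      linarith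
  · subst he
    rw [r11_hub4, r11_hub3] at hz
    refine Or.inr (Or.inr (Or.inr (Or.inr (Or.inr (Or.inr (Or.inr ⟨rfl, ?_, ?_, ?_, ?_⟩))))))
    · have := r11_pos 0 1 (20 * S.big) hz (by dsimp only; linarith) (by dsimp only; linarith) (Or.inl (by dsimp only; linarith))
      linarith
    · have := r11_pos 0 (-1) (20 * S.big) hz (by dsimp only; linarith) (by dsimp only; linarith)
        (Or.inr (by dsimp only; linarith))
      linarith
    · have := r11_pos 1 (-1 / 4) (-(S.NN + 1 / 7 + 5 * S.big)) hz (by dsimp only; linarith)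
        (by dsimp only; linarith) (Or.inl (by dsimp only; linarith))
      linarith
    · have := r11_pos 1 (-1 / 2) (-10 * S.big) hz (by dsimp only; linarith)
        (by dsimp only; linarith) (Or.inr (by dsimp only; linarith))
      linarith

/-! ### vertices -/

/-- where the vertices are -/
def VtW (S : RS) (d : Dat) (v : Vx) (z : Pt) : Prop :=
  (∃ k ≤ 4 * S.MM, v = .L k ∧ z.1 = -1 ∧ z.2 = d.yb S k ∧ 0 ≤ d.yb S k ∧ d.yb S k ≤ 2 * S.MM) ∨
  (∃ k ≤ 4 * S.MM, v = .R k ∧ z.1 = 2 * S.NN + 1 ∧ z.2 = d.yb S k ∧ 0 ≤ d.yb S k ∧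
    d.yb S k ≤ 2 * S.MM) ∨
  (∃ k ≤ 4 * S.NN, v = .B k ∧ z.2 = -1 ∧ z.1 = d.xb S k ∧ 0 ≤ d.xb S k ∧ d.xb S k ≤ 2 * S.NN) ∨
  (∃ k ≤ 4 * S.NN, v = .T k ∧ z.2 = 2 * S.MM + 1 ∧ z.1 = d.xb S k ∧ 0 ≤ d.xb S k ∧
    d.xb S k ≤ 2 * S.NN) ∨
  (z.1 = -20 * S.big ∧ z.2 = S.MM + 1 / 7) ∨
  (z.1 = 2 * S.NN + 1 + S.big ∧ z.2 = S.MM + 1 / 7) ∨
  (z.1 = S.NN + 1 / 7 ∧ z.2 = 2 * S.MM + 1 + S.big) ∨
  (z.1 = S.NN + 1 / 7 ∧ z.2 = -20 * S.big) ∨
  (z.1 = 20 * S.big ∧ z.2 = 20 * S.big) ∨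
  (0 < z.1 ∧ z.1 < 2 * S.NN ∧ 0 < z.2 ∧ z.2 < 2 * S.MM)

theorem vt_where (h : S.WF) (hd : DatOK S d) {v : Vx} (hv : S.isV v) {z : Pt}
    (hz : z = d.pos S v) : VtW S d v z := by
  subst hz
  unfold VtW
  cases v with
  | L k =>
    exact Or.inl ⟨k, hv, rfl, rfl, rfl, yb_mem h hd hv⟩
  | R k =>
    exact Or.inr (Or.inl ⟨k, hv, rfl, rfl, rfl, yb_mem h hd hv⟩)
  | B k =>
    exact Or.inr (Or.inr (Or.inl ⟨k, hv, rfl, rfl, rfl, xb_mem h hd hv⟩))
  | T k =>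
    exact Or.inr (Or.inr (Or.inr (Or.inl ⟨k, hv, rfl, rfl, rfl, xb_mem h hd hv⟩)))
  | hub i =>
    have hi : i < 5 := hv
    refine Or.inr (Or.inr (Or.inr (Or.inr ?_)))
    interval_cases i
    · rw [r11_hub0]
      exact Or.inl ⟨rfl, rfl⟩
    · rw [r11_hub1]
      exact Or.inr (Or.inl ⟨rfl, rfl⟩)
    · rw [r11_hub2]
      exact Or.inr (Or.inr (Or.inl ⟨rfl, rfl⟩))
    · rw [r11_hub3]
      exact Or.inr (Or.inr (Or.inr (Or.inl ⟨rfl, rfl⟩)))
    · rw [r11_hub4]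
      exact Or.inr (Or.inr (Or.inr (Or.inr (Or.inl ⟨rfl, rfl⟩))))
  | blk b c =>
    have hb : S.binB b c := hv
    obtain ⟨h1, h2, h3, h4⟩ := blk_mem h hd hb
    have h5 : (S.bcol b : ℝ) + 1 ≤ S.NN := by exact_mod_cast bcol_lt h hb
    have h6 : (S.brow b : ℝ) + 1 ≤ S.MM := by exact_mod_cast brow_lt h hb
    have h7 : (0 : ℝ) ≤ S.bcol b := Nat.cast_nonneg _
    have h8 : (0 : ℝ) ≤ S.brow b := Nat.cast_nonneg _
    refine Or.inr (Or.inr (Or.inr (Or.inr (Or.inr (Or.inr (Or.inr (Or.inr (Or.inr ?_))))))))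
    exact ⟨by linarith, by linarith, by linarith, by linarith⟩

theorem yb_gap (h : S.WF) (hd : DatOK S d) {k k' : ℕ} {z : ℝ} (h1 : d.yb S k < z)
    (h2 : z < d.yb S (k + 1)) : z ≠ d.yb S k' := by
  rintro rfl
  rcases Nat.lt_or_ge k k' with h3 | h3
  · rcases (Nat.succ_le_of_lt h3).eq_or_lt with h4 | h4
    · subst h4
      exact lt_irrefl _ h2
    · exact lt_asymm h2 (yb_lt h hd h4)
  · rcases h3.eq_or_lt with h4 | h4
    · subst h4
      exact lt_irrefl _ h1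
    · exact lt_asymm h1 (yb_lt h hd h4)

theorem xb_gap (h : S.WF) (hd : DatOK S d) {k k' : ℕ} (hk : k < 4 * S.NN) (hk' : k' ≤ 4 * S.NN)
    {z : ℝ} (h1 : d.xb S k < z) (h2 : z < d.xb S (k + 1)) : z ≠ d.xb S k' := by
  rintro rfl
  rcases Nat.lt_or_ge k k' with h3 | h3
  · rcases (Nat.succ_le_of_lt h3).eq_or_lt with h4 | h4
    · subst h4
      exact lt_irrefl _ h2
    · exact lt_asymm h2 (xb_lt h hd h4 hk')
  · rcases h3.eq_or_lt with h4 | h4
    · subst h4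
      exact lt_irrefl _ h1
    · exact lt_asymm h1 (xb_lt h hd h4 hk.le)

theorem yb_gap2 (h : S.WF) (hd : DatOK S d) {k k' : ℕ} {z : ℝ} (h1 : d.yb S k < z)
    (h2 : z < d.yb S (k + 1)) (h3 : d.yb S k' < z) (h4 : z < d.yb S (k' + 1)) : k = k' := by
  by_contra hne
  have aux : ∀ {a b : ℕ}, a < b → z < d.yb S (a + 1) → d.yb S b < z → False := by
    intro a b hab h5 h6
    rcases (Nat.succ_le_of_lt hab).eq_or_lt with h7 | h7
    · subst h7
      exact lt_asymm h5 h6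
    · exact lt_asymm (h5.trans (yb_lt h hd h7)) h6
  rcases Nat.lt_or_gt_of_ne hne with h5 | h5
  · exact aux h5 h2 h3
  · exact aux h5 h4 h1

theorem xb_gap2 (h : S.WF) (hd : DatOK S d) {k k' : ℕ} (hk : k < 4 * S.NN) (hk' : k' < 4 * S.NN)
    {z : ℝ} (h1 : d.xb S k < z)
    (h2 : z < d.xb S (k + 1)) (h3 : d.xb S k' < z) (h4 : z < d.xb S (k' + 1)) : k = k' := by
  by_contra hne
  have aux : ∀ {a b : ℕ}, a < b → b < 4 * S.NN → z < d.xb S (a + 1) → d.xb S b < z → False := by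
    intro a b hab hb h5 h6
    rcases (Nat.succ_le_of_lt hab).eq_or_lt with h7 | h7
    · subst h7
      exact lt_asymm h5 h6
    · exact lt_asymm (h5.trans (xb_lt h hd h7 hb.le)) h6
  rcases Nat.lt_or_gt_of_ne hne with h5 | h5
  · exact aux h5 hk' h2 h3
  · exact aux h5 hk h4 h1

theorem bd_vertex (h : S.WF) (hd : DatOK S d) {e : Vx × Vx} {v : Vx} {z : Pt}
    (he : BdW S d e z) (hv : VtW S d v z) : False := by
  obtain ⟨hN, hM⟩ := r11_dims h
  have hW : S.big = 2 * S.NN + 2 * S.MM + 2 := rfl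
  rcases he with ⟨k, hk, -, e1, e2, e3, e4, e5⟩ | ⟨k, hk, -, e1, e2, e3, e4, e5⟩ |
    ⟨k, hk, -, e1, e2, e3, e4, e5⟩ | ⟨k, hk, -, e1, e2, e3, e4, e5⟩ | ⟨-, e1, e2, e3⟩ |
    ⟨-, e1, e2, e3⟩ | ⟨-, e1, e2, e3⟩ | ⟨-, e1, e2, e3⟩
  · rcases hv with ⟨k', hk', -, v1, v2, v3, v4⟩ | ⟨k', hk', -, v1, v2, v3, v4⟩ |
      ⟨k', hk', -, v1, v2, v3, v4⟩ | ⟨k', hk', -, v1, v2, v3, v4⟩ | ⟨v1, v2⟩ | ⟨v1, v2⟩ |
      ⟨v1, v2⟩ | ⟨v1, v2⟩ | ⟨v1, v2⟩ | ⟨v1, v2, v3, v4⟩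
    · exact yb_gap h hd e2 e3 v2
    all_goals linarith
  · rcases hv with ⟨k', hk', -, v1, v2, v3, v4⟩ | ⟨k', hk', -, v1, v2, v3, v4⟩ |
      ⟨k', hk', -, v1, v2, v3, v4⟩ | ⟨k', hk', -, v1, v2, v3, v4⟩ | ⟨v1, v2⟩ | ⟨v1, v2⟩ |
      ⟨v1, v2⟩ | ⟨v1, v2⟩ | ⟨v1, v2⟩ | ⟨v1, v2, v3, v4⟩
    · linarith
    · exact yb_gap h hd e2 e3 v2
    all_goals linarith
  · rcases hv with ⟨k', hk', -, v1, v2, v3, v4⟩ | ⟨k', hk', -, v1, v2, v3, v4⟩ |
      ⟨k', hk', -, v1, v2, v3, v4⟩ | ⟨k', hk', -, v1, v2, v3, v4⟩ | ⟨v1, v2⟩ | ⟨v1, v2⟩ |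
      ⟨v1, v2⟩ | ⟨v1, v2⟩ | ⟨v1, v2⟩ | ⟨v1, v2, v3, v4⟩
    · linarith
    · linarith
    · exact xb_gap h hd hk hk' e2 e3 v2
    all_goals linarith
  · rcases hv with ⟨k', hk', -, v1, v2, v3, v4⟩ | ⟨k', hk', -, v1, v2, v3, v4⟩ |
      ⟨k', hk', -, v1, v2, v3, v4⟩ | ⟨k', hk', -, v1, v2, v3, v4⟩ | ⟨v1, v2⟩ | ⟨v1, v2⟩ |
      ⟨v1, v2⟩ | ⟨v1, v2⟩ | ⟨v1, v2⟩ | ⟨v1, v2, v3, v4⟩
    · linarith
    · linarith
    · linarith
    · exact xb_gap h hd hk hk' e2 e3 v2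
    all_goals linarith
  all_goals
    rcases hv with ⟨k', hk', -, v1, v2, v3, v4⟩ | ⟨k', hk', -, v1, v2, v3, v4⟩ |
      ⟨k', hk', -, v1, v2, v3, v4⟩ | ⟨k', hk', -, v1, v2, v3, v4⟩ | ⟨v1, v2⟩ | ⟨v1, v2⟩ |
      ⟨v1, v2⟩ | ⟨v1, v2⟩ | ⟨v1, v2⟩ | ⟨v1, v2, v3, v4⟩ <;> linarith

theorem hub_vertex (h : S.WF) {e : Vx × Vx} {v : Vx} {z : Pt}
    (he : HubW S d e z) (hv : VtW S d v z) : False := by
  obtain ⟨hN, hM⟩ := r11_dims h
  have hW : S.big = 2 * S.NN + 2 * S.MM + 2 := rfl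
  rcases he with ⟨k, hk, -, e1, e2, e3, e4, e5⟩ | ⟨k, hk, -, e1, e2, e3, e4⟩ |
    ⟨k, hk, -, e1, e2, e3, e4⟩ | ⟨k, hk, -, e1, e2, e3, e4, e5⟩ | ⟨-, e1, e2, e3, e4⟩ |
    ⟨-, e1, e2, e3, e4⟩ | ⟨-, e1, e2, e3, e4⟩ | ⟨-, e1, e2, e3, e4⟩
  all_goals
    rcases hv with ⟨k', hk', -, v1, v2, v3, v4⟩ | ⟨k', hk', -, v1, v2, v3, v4⟩ |
      ⟨k', hk', -, v1, v2, v3, v4⟩ | ⟨k', hk', -, v1, v2, v3, v4⟩ | ⟨v1, v2⟩ | ⟨v1, v2⟩ |
      ⟨v1, v2⟩ | ⟨v1, v2⟩ | ⟨v1, v2⟩ | ⟨v1, v2, v3, v4⟩ <;> linarith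

/-- Boundary edges: on the sides between consecutive boundary vertices, or oblique at the corners.
Edges from a hub to its side: between the hub and the side. `Z` to the hubs: see the regions in
the proof: `Z = (20 W, 20 W)`, `W = big`; `Z OR` has first coordinate `≥ 2 N + 1 + W`, `Z OT` second
coordinate `≥ 2 M + 1 + W`; on `Z OL` the points with first coordinate `≥ -1` have second coordinate
`> 2 M + 1 + W`, and it is above the line from `OL` to the side; symmetric for `Z OB`. -/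
theorem out_vertex (h : S.WF) (hd : DatOK S d) : ∀ e ∈ S.outE,
    ∀ z ∈ openSegment ℝ (d.pos S e.1) (d.pos S e.2), ∀ v, S.isV v → z ≠ d.pos S v := by
  intro e he z hz v hv hzv
  have h1 := vt_where h hd hv hzv
  rcases List.mem_append.mp he with he | he
  · exact bd_vertex h hd (bd_where h hd he hz) h1
  · exact hub_vertex h (hub_where h hd he hz) h1

theorem out_ne (S : RS) : ∀ e ∈ S.outE, e.1 ≠ e.2 := by
  intro e he
  simp only [outE, hvBd, hvHub, List.mem_append, List.mem_map, List.mem_range, List.mem_cons,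
    List.not_mem_nil, or_false] at he
  rcases he with ((((he | he) | he) | he) | he | he | he | he) |
    ((((he | he) | he) | he) | he | he | he | he)
  all_goals first | (obtain ⟨k, hk, rfl⟩ := he; simp) | (subst he; simp)

/-- boundary edges among themselves -/
theorem bd_bd (h : S.WF) (hd : DatOK S d) : ∀ e ∈ S.hvBd, ∀ f ∈ S.hvBd,
    s(e.1, e.2) ≠ s(f.1, f.2) → ¬ Cross (d.pos S e.1) (d.pos S e.2) (d.pos S f.1) (d.pos S f.2) := by
  rintro e he f hf hs ⟨z, hz1, hz2⟩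
  have he := bd_where h hd he hz1
  have hf := bd_where h hd hf hz2
  obtain ⟨hN, hM⟩ := r11_dims h
  apply hs
  rcases he with ⟨k, hk, rfl, e1, e2, e3, e4, e5⟩ | ⟨k, hk, rfl, e1, e2, e3, e4, e5⟩ |
    ⟨k, hk, rfl, e1, e2, e3, e4, e5⟩ | ⟨k, hk, rfl, e1, e2, e3, e4, e5⟩ | ⟨rfl, e1, e2, e3⟩ |
    ⟨rfl, e1, e2, e3⟩ | ⟨rfl, e1, e2, e3⟩ | ⟨rfl, e1, e2, e3⟩ <;>
  rcases hf with ⟨k', hk', rfl, f1, f2, f3, f4, f5⟩ | ⟨k', hk', rfl, f1, f2, f3, f4, f5⟩ |
    ⟨k', hk', rfl, f1, f2, f3, f4, f5⟩ | ⟨k', hk', rfl, f1, f2, f3, f4, f5⟩ | ⟨rfl, f1, f2, f3⟩ |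
    ⟨rfl, f1, f2, f3⟩ | ⟨rfl, f1, f2, f3⟩ | ⟨rfl, f1, f2, f3⟩
  all_goals first
    | rfl
    | (exfalso; linarith)
    | (obtain rfl := yb_gap2 h hd e2 e3 f2 f3; rfl)
    | (obtain rfl := xb_gap2 h hd hk hk' e2 e3 f2 f3; rfl)

/-- boundary edges and hub edges -/
theorem bd_hub (h : S.WF) (hd : DatOK S d) : ∀ e ∈ S.hvBd, ∀ f ∈ S.hvHub,
    ¬ Cross (d.pos S e.1) (d.pos S e.2) (d.pos S f.1) (d.pos S f.2) := by
  rintro e he f hf ⟨z, hz1, hz2⟩
  have he := bd_where h hd he hz1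
  have hf := hub_where h hd hf hz2
  obtain ⟨hN, hM⟩ := r11_dims h
  have hW : S.big = 2 * S.NN + 2 * S.MM + 2 := rfl
  rcases he with ⟨k, hk, -, e1, e2, e3, e4, e5⟩ | ⟨k, hk, -, e1, e2, e3, e4, e5⟩ |
    ⟨k, hk, -, e1, e2, e3, e4, e5⟩ | ⟨k, hk, -, e1, e2, e3, e4, e5⟩ | ⟨-, e1, e2, e3⟩ |
    ⟨-, e1, e2, e3⟩ | ⟨-, e1, e2, e3⟩ | ⟨-, e1, e2, e3⟩ <;>
  rcases hf with ⟨k', hk', -, f1, f2, f3, f4, f5⟩ | ⟨k', hk', -, f1, f2, f3, f4⟩ |
    ⟨k', hk', -, f1, f2, f3, f4⟩ | ⟨k', hk', -, f1, f2, f3, f4, f5⟩ | ⟨-, f1, f2, f3, f4⟩ |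
    ⟨-, f1, f2, f3, f4⟩ | ⟨-, f1, f2, f3, f4⟩ | ⟨-, f1, f2, f3, f4⟩ <;> linarith

/-- hub edges among themselves -/
theorem hub_hub (h : S.WF) (hd : DatOK S d) : ∀ e ∈ S.hvHub, ∀ f ∈ S.hvHub,
    s(e.1, e.2) ≠ s(f.1, f.2) → ¬ Cross (d.pos S e.1) (d.pos S e.2) (d.pos S f.1) (d.pos S f.2) := by
  intro e he f hf hs hc
  have hc0 := hc
  obtain ⟨z, hz1, hz2⟩ := hc
  have he := hub_where h hd he hz1
  have hf := hub_where h hd hf hz2
  obtain ⟨hN, hM⟩ := r11_dims h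
  have hW : S.big = 2 * S.NN + 2 * S.MM + 2 := rfl
  have ny : ∀ {k k' : ℕ}, k ≠ k' → d.yb S k ≠ d.yb S k' := by
    intro k k' hk
    rcases Nat.lt_or_gt_of_ne hk with h1 | h1
    · exact (yb_lt h hd h1).ne
    · exact (yb_lt h hd h1).ne'
  have nx : ∀ {k k' : ℕ}, k ≤ 4 * S.NN → k' ≤ 4 * S.NN → k ≠ k' → d.xb S k ≠ d.xb S k' := by
    intro k k' h2 h3 hk
    rcases Nat.lt_or_gt_of_ne hk with h1 | h1
    · exact (xb_lt h hd h1 h3).ne
    · exact (xb_lt h hd h1 h2).ne'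
  rcases he with ⟨k, hk, rfl, e1, e2, e3, e4, e5⟩ | ⟨k, hk, rfl, e1, e2, e3, e4⟩ |
    ⟨k, hk, rfl, e1, e2, e3, e4⟩ | ⟨k, hk, rfl, e1, e2, e3, e4, e5⟩ | ⟨rfl, e1, e2, e3, e4⟩ |
    ⟨rfl, e1, e2, e3, e4⟩ | ⟨rfl, e1, e2, e3, e4⟩ | ⟨rfl, e1, e2, e3, e4⟩ <;>
  rcases hf with ⟨k', hk', rfl, f1, f2, f3, f4, f5⟩ | ⟨k', hk', rfl, f1, f2, f3, f4⟩ |
    ⟨k', hk', rfl, f1, f2, f3, f4⟩ | ⟨k', hk', rfl, f1, f2, f3, f4, f5⟩ | ⟨rfl, f1, f2, f3, f4⟩ |
    ⟨rfl, f1, f2, f3, f4⟩ | ⟨rfl, f1, f2, f3, f4⟩ | ⟨rfl, f1, f2, f3, f4⟩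
  all_goals first
    | exact hs rfl
    | linarith
    | skip
  · have hne : k ≠ k' := fun e => hs (by rw [e])
    rw [r11_hub0] at hc0
    refine r11_det ?_ hc0
    simp only [Dat.pos]
    have h1 := ny hne
    have h2 : (-1 - -20 * S.big) * (d.yb S k' - (S.MM + 1 / 7)) -
        (d.yb S k - (S.MM + 1 / 7)) * (-1 - -20 * S.big) =
        (20 * S.big - 1) * (d.yb S k' - d.yb S k) := by ring
    rw [h2]
    exact mul_ne_zero (by linarith) (sub_ne_zero.mpr h1.symm)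
  · have hne : k ≠ k' := fun e => hs (by rw [e])
    rw [r11_hub1] at hc0
    refine r11_det ?_ hc0
    simp only [Dat.pos]
    have h1 := ny hne
    have h2 : (2 * (S.NN : ℝ) + 1 - (2 * S.NN + 1 + S.big)) * (d.yb S k' - (S.MM + 1 / 7)) -
        (d.yb S k - (S.MM + 1 / 7)) * (2 * S.NN + 1 - (2 * S.NN + 1 + S.big)) =
        S.big * (d.yb S k - d.yb S k') := by ring
    rw [h2]
    exact mul_ne_zero (by linarith) (sub_ne_zero.mpr h1)
  · have hne : k ≠ k' := fun e => hs (by rw [e])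
    rw [r11_hub2] at hc0
    refine r11_det ?_ hc0
    simp only [Dat.pos]
    have h1 := nx hk hk' hne
    have h2 : (d.xb S k - (S.NN + 1 / 7)) * (2 * S.MM + 1 - (2 * S.MM + 1 + S.big)) -
        (2 * (S.MM : ℝ) + 1 - (2 * S.MM + 1 + S.big)) * (d.xb S k' - (S.NN + 1 / 7)) =
        S.big * (d.xb S k' - d.xb S k) := by ring
    rw [h2]
    exact mul_ne_zero (by linarith) (sub_ne_zero.mpr h1.symm)
  · have hne : k ≠ k' := fun e => hs (by rw [e])
    rw [r11_hub3] at hc0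
    refine r11_det ?_ hc0
    simp only [Dat.pos]
    have h1 := nx hk hk' hne
    have h2 : (d.xb S k - (S.NN + 1 / 7)) * (-1 - -20 * S.big) -
        (-1 - -20 * S.big) * (d.xb S k' - (S.NN + 1 / 7)) =
        (20 * S.big - 1) * (d.xb S k - d.xb S k') := by ring
    rw [h2]
    exact mul_ne_zero (by linarith) (sub_ne_zero.mpr h1)

end Pool.Agent.H54R
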