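import Pool.Agent.Lib.H54R.RDefs

/-!
# R1: numbers of a link
-/

set_option autoImplicit false

namespace Pool.Agent.H54R

/-- One gate: let `0 ≤ x0 < f < 1`, `0 < y2 < y < 1` and `(y - y2) / (1 - y2)` smaller than
`b * y2 / (1 - b + b * y2)` for `b = (f - x0) / (1 - x0)`; this is the hypothesis `h` in the form
`y * (1 - b + b * y2) < y2`, `b = (f - x0) / (1 - x0)`. Choose `yu` near `1`, `yc` near `0`
(then `lo = x0 + (f - x0) * y / yu < hi = (f - r) / (1 - r)`, `r = (y - y2) / (y - yc)`), `px` between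
`lo` and `hi`, `xw = (1 + f) / 2`. -/
theorem exists_gate {x0 f y2 y : ℝ} (h0 : 0 ≤ x0) (h1 : x0 < f) (h2 : f < 1) (h3 : 0 < y2)
    (h4 : y2 < y) (h5 : y < 1)
    (h : y * (1 - x0 - (f - x0) * (1 - y2)) < y2 * (1 - x0)) :
    ∃ px yu yc xw, GateN x0 f y2 y px yu yc xw := by
  have hy : 0 < y := h3.trans h4
  have hfx : 0 < f - x0 := sub_pos.mpr h1
  have key : x0 + (f - x0) * y < (f * y - y + y2) / y2 := by
    rw [lt_div_iff₀ h3]
    nlinarith
  obtain ⟨px, hlo, hhi⟩ := exists_between key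
  rw [lt_div_iff₀ h3] at hhi
  have hp0 : x0 < px := by
    have : 0 < (f - x0) * y := mul_pos hfx hy
    linarith
  have hpf : px < f := by
    have h6 : (1 - f) * (y2 - y) < 0 := mul_neg_of_pos_of_neg (by linarith) (by linarith)
    have h7 : px * y2 < f * y2 := by nlinarith
    exact lt_of_mul_lt_mul_right h7 h3.le
  have hpx : 0 < px - x0 := sub_pos.mpr hp0
  have hfp : 0 < f - px := sub_pos.mpr hpf
  have k1 : max y ((f - x0) * y / (px - x0)) < 1 := by
    apply max_lt h5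
    rw [div_lt_one hpx]
    linarith
  obtain ⟨yu, hu1, hu2⟩ := exists_between k1
  have k2 : 0 < min y2 (y - (1 - px) * (y - y2) / (f - px)) := by
    apply lt_min h3
    rw [sub_pos, div_lt_iff₀ hfp]
    nlinarith
  obtain ⟨yc, hc1, hc2⟩ := exists_between k2
  obtain ⟨xw, hw1, hw2⟩ := exists_between h2
  refine ⟨px, yu, yc, xw, ⟨h0, hp0, hpf, hw1, hw2, hc1, hc2.trans_le (min_le_left _ _), h4,
    (le_max_left _ _).trans_lt hu1, hu2, ?_, ?_⟩⟩
  · have h6 := (le_max_right y ((f - x0) * y / (px - x0))).trans_lt hu1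
    rw [div_lt_iff₀ hpx] at h6
    linarith
  · have h6 := hc2.trans_le (min_le_right y2 (y - (1 - px) * (y - y2) / (f - px)))
    rw [lt_sub_comm, div_lt_iff₀ hfp] at h6
    linarith

/-- A link. Choose `g` with `a < g < 1 - b`; `y2 < 1` near `1` with `a < g * y2 / (1 - g + g * y2)`,
`y = y2 + a * (1 - y2)`; `c < 1` near `1` with `g < (1 - b) * c / (b + (1 - b) * c)`,
`f = c + g * (1 - c)`; then `exists_gate` for `(c, f, y2, y)` and for `(0, 1 - b, c, f)`. -/
theorem exists_gt {a b : ℝ} (ha : 0 < a) (hb : 0 < b) (hab : a + b < 1) :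
    ∃ g, GtOK a b g := by
  obtain ⟨g, hg1, hg2⟩ := exists_between (show a < 1 - b by linarith)
  have hg0 : 0 < g := ha.trans hg1
  have hb1 : 0 < 1 - b := hg0.trans hg2
  obtain ⟨y2, hy1, hy2⟩ := exists_between (show a / g < 1 by rw [div_lt_one hg0]; exact hg1)
  obtain ⟨c, hc1, hc2⟩ := exists_between (show g / (1 - b) < 1 by rw [div_lt_one hb1]; exact hg2)
  have hy0 : 0 < y2 := (div_pos ha hg0).trans hy1
  have hc0 : 0 < c := (div_pos hg0 hb1).trans hc1
  rw [div_lt_iff₀ hg0] at hy1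
  rw [div_lt_iff₀ hb1] at hc1
  have hy2' : 0 < 1 - y2 := by linarith
  have hc2' : 0 < 1 - c := by linarith
  have e1 : 0 < a * (1 - y2) := mul_pos ha hy2'
  have e2 : 0 < g * (1 - c) := mul_pos hg0 hc2'
  have e3 : a * (1 - y2) < 1 * (1 - y2) := mul_lt_mul_of_pos_right (by linarith) hy2'
  have e4 : g * (1 - c) < 1 * (1 - c) := mul_lt_mul_of_pos_right (by linarith) hc2'
  obtain ⟨px, yu, yc, xw, G1⟩ := exists_gate (x0 := c) (f := c + g * (1 - c)) (y2 := y2)
    (y := y2 + a * (1 - y2)) hc0.le (by linarith) (by linarith) hy0 (by linarith) (by linarith) (by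
      have h6 : a < g * (y2 + a * (1 - y2)) := by nlinarith [mul_pos hg0 e1]
      have h7 : 0 < (1 - c) * ((1 - y2) * (g * (y2 + a * (1 - y2)) - a)) :=
        mul_pos hc2' (mul_pos hy2' (by linarith))
      nlinarith)
  obtain ⟨px', yu', yc', xw', G2⟩ := exists_gate (x0 := 0) (f := 1 - b) (y2 := c)
    (y := c + g * (1 - c)) le_rfl hb1 (by linarith) hc0 (by linarith) (by linarith) (by
      have h6 : g < (1 - b) * (c + g * (1 - c)) := by nlinarith [mul_pos hb1 e2]
      have h7 : 0 < (1 - c) * ((1 - b) * (c + g * (1 - c)) - g) :=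
        mul_pos hc2' (by linarith)
      nlinarith)
  exact ⟨⟨y2, y2 + a * (1 - y2), c, c + g * (1 - c), b, px, yu, yc, xw, px', yu', yc', xw'⟩,
    ⟨rfl, rfl, hc0, G1, G2⟩⟩

end Pool.Agent.H54R
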