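import Pool.Agent.Lib.H54R.RDefs
import Pool.Agent.Lib.H54R.C2

/-!
# R2: numbers of the reads
-/

set_option autoImplicit false

namespace Pool.Agent.H54R

open RS

/-- the factor of a read in terms of the value of its variable -/
theorem fac_eq {S : RS} {x w : ℕ → ℝ} {ρ : ℕ} (h : S.WF) (hρ : ρ < S.R) :
    S.fac x w ρ = if S.kd ρ = 0 then 1 else if S.kd ρ = 1 then (w (S.op ρ).2)⁻¹
      else if S.kd ρ = 2 then (1 - w (S.op ρ).2)⁻¹ else if S.kd ρ = 3 then x (S.op ρ).2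
      else 1 - x (S.op ρ).2 := by
  unfold fac kd
  by_cases h0 : (S.op ρ).1 = 0
  · simp [h0]
  · by_cases h1 : (S.op ρ).1 = 1
    · by_cases h2 : ρ % 2 = 0
      · simp [h1, h2]
      · have h3 : ρ % 2 = 1 := by omega
        simp [h1, h3]
    · by_cases h2 : ρ % 2 = 0
      · simp [h0, h1, h2]
      · have h3 : ρ % 2 = 1 := by omega
        simp [h0, h1, h3]

/-- the factors are positive -/
theorem fac_pos {S : RS} {x w : ℕ → ℝ} (hs : S.Sol x w) (ρ : ℕ) : 0 < S.fac x w ρ := by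
  unfold fac
  have h1 := fun i => hs.1 i
  have h2 := fun i => hs.2.1 i
  split_ifs
  · exact one_pos
  · exact inv_pos.2 (h2 _).1
  · refine inv_pos.2 ?_
    linarith [(h2 (S.op ρ).2).2]
  · exact (h1 _).1
  · linarith [(h1 (S.op ρ).2).2]

/-- a number `θ < 1` with `θ ^ 8 P > 1` -/
theorem r2_theta (P : ℝ) : ∃ θ : ℝ, (0 < θ ∧ θ < 1) ∧ (1 < P → 1 < θ ^ 8 * P) := by
  by_cases hP : 1 < P
  · have hc : Filter.Tendsto (fun θ : ℝ => θ ^ 8 * P) (nhdsWithin 1 (Set.Iio 1)) (nhds (1 ^ 8 * P)) := by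
      have : Continuous fun θ : ℝ => θ ^ 8 * P := by fun_prop
      exact (this.tendsto 1).mono_left nhdsWithin_le_nhds
    have h1 : ∀ᶠ θ in nhdsWithin (1 : ℝ) (Set.Iio 1), 1 < θ ^ 8 * P :=
      hc.eventually (lt_mem_nhds (by simpa using hP))
    have h2 : ∀ᶠ θ in nhdsWithin (1 : ℝ) (Set.Iio 1), 0 < θ :=
      (nhdsWithin_le_nhds (lt_mem_nhds (by norm_num : (0 : ℝ) < 1)))
    have h3 : ∀ᶠ θ in nhdsWithin (1 : ℝ) (Set.Iio 1), θ < 1 := self_mem_nhdsWithin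
    obtain ⟨θ, a, b, c⟩ := (h1.and (h2.and h3)).exists
    exact ⟨θ, ⟨b, c⟩, fun _ => a⟩
  · exact ⟨1 / 2, by norm_num, fun h => absurd h hP⟩

/-- the numbers of one ring -/
theorem r2_ring {θ φ0 φ1 φ2 φ3 δ : ℝ} (h0 : 0 < θ) (h1 : θ < 1) (p0 : 0 < φ0) (p1 : 0 < φ1)
    (p2 : 0 < φ2) (p3 : 0 < φ3) (hP : 1 < θ ^ 8 * (φ0 * φ1 * φ2 * φ3)) (hδ : 0 < δ) :
    ∃ v : ℕ → ℝ × ℝ, (∀ j < 4, 0 < (v j).1 ∧ (v j).1 < 1 ∧ 0 < (v j).2 ∧ (v j).2 < 1) ∧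
      ((v 0).1 ≤ δ ∧ (v 0).2 ≤ δ ∧ (v 0).2 = θ * φ0 * (v 0).1) ∧
      ((v 2).1 ≤ δ ∧ (v 2).2 ≤ δ ∧ (v 2).2 = θ * φ2 * (v 2).1) ∧
      (1 - (v 1).1 ≤ δ ∧ 1 - (v 1).2 ≤ δ ∧ 1 - (v 1).1 = θ * φ1 * (1 - (v 1).2)) ∧
      (1 - (v 3).1 ≤ δ ∧ 1 - (v 3).2 ≤ δ ∧ 1 - (v 3).1 = θ * φ3 * (1 - (v 3).2)) ∧
      (v 1).1 + (v 2).1 < 1 ∧ (v 3).1 + (v 0).1 < 1 ∧ 1 < (v 0).2 + (v 1).2 ∧
      1 < (v 2).2 + (v 3).2 := by
  obtain ⟨b0, hb0⟩ : ∃ y, y = θ * φ0 := ⟨_, rfl⟩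
  obtain ⟨c1, hc1⟩ : ∃ y, y = θ * b0 := ⟨_, rfl⟩
  obtain ⟨d1, hd1⟩ : ∃ y, y = θ * φ1 * c1 := ⟨_, rfl⟩
  obtain ⟨a2, ha2⟩ : ∃ y, y = θ * d1 := ⟨_, rfl⟩
  obtain ⟨b2, hb2⟩ : ∃ y, y = θ * φ2 * a2 := ⟨_, rfl⟩
  obtain ⟨c3, hc3⟩ : ∃ y, y = θ * b2 := ⟨_, rfl⟩
  obtain ⟨d3, hd3⟩ : ∃ y, y = θ * φ3 * c3 := ⟨_, rfl⟩
  have q0 : 0 < b0 := by rw [hb0]; positivity
  have q1 : 0 < c1 := by rw [hc1]; positivity
  have q2 : 0 < d1 := by rw [hd1]; positivity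
  have q3 : 0 < a2 := by rw [ha2]; positivity
  have q4 : 0 < b2 := by rw [hb2]; positivity
  have q5 : 0 < c3 := by rw [hc3]; positivity
  have q6 : 0 < d3 := by rw [hd3]; positivity
  have hd : 1 < d3 := by
    have e : θ * d3 = θ ^ 8 * (φ0 * φ1 * φ2 * φ3) := by
      rw [hd3, hc3, hb2, ha2, hd1, hc1, hb0]
      ring
    rw [← e] at hP
    have : θ * d3 ≤ 1 * d3 := mul_le_mul_of_nonneg_right h1.le q6.le
    linarith
  obtain ⟨s, hs⟩ : ∃ y, y = 1 + b0 + c1 + d1 + a2 + b2 + c3 + d3 := ⟨_, rfl⟩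
  have hs0 : 0 < s := by rw [hs]; positivity
  obtain ⟨m, hm⟩ : ∃ y, y = min δ (1 / 2) := ⟨_, rfl⟩
  have hm0 : 0 < m := by rw [hm]; exact lt_min hδ (by norm_num)
  have hm1 : m ≤ δ := by rw [hm]; exact min_le_left _ _
  have hm2 : m ≤ 1 / 2 := by rw [hm]; exact min_le_right _ _
  obtain ⟨q, hq⟩ : ∃ y, y = m / s := ⟨_, rfl⟩
  have hq0 : 0 < q := by rw [hq]; positivity
  have hqs : q * s = m := by rw [hq]; field_simp
  have hle : ∀ c : ℝ, 0 < c → c ≤ s → 0 < q * c ∧ q * c ≤ δ ∧ q * c ≤ 1 / 2 := by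
    intro c hc hcs
    have h2 : q * c ≤ q * s := mul_le_mul_of_nonneg_left hcs hq0.le
    exact ⟨by positivity, by linarith, by linarith⟩
  obtain ⟨r1, r2, r3⟩ := hle 1 one_pos (by linarith)
  obtain ⟨r4, r5, r6⟩ := hle b0 q0 (by linarith)
  obtain ⟨r7, r8, r9⟩ := hle c1 q1 (by linarith)
  obtain ⟨s1, s2, s3⟩ := hle d1 q2 (by linarith)
  obtain ⟨s4, s5, s6⟩ := hle a2 q3 (by linarith)
  obtain ⟨s7, s8, s9⟩ := hle b2 q4 (by linarith)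
  obtain ⟨t1, t2, t3⟩ := hle c3 q5 (by linarith)
  obtain ⟨t4, t5, t6⟩ := hle d3 q6 (by linarith)
  refine ⟨fun j => if j = 0 then (q * 1, q * b0) else if j = 1 then (1 - q * d1, 1 - q * c1)
    else if j = 2 then (q * a2, q * b2) else (1 - q * d3, 1 - q * c3), ?_, ?_, ?_, ?_, ?_, ?_, ?_, ?_, ?_⟩
  · intro j hj
    interval_cases j
    · simp only [if_true]
      exact ⟨by linarith, by linarith, by linarith, by linarith⟩
    · simp only [one_ne_zero, if_false, if_true]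
      exact ⟨by linarith, by linarith, by linarith, by linarith⟩
    · simp only [OfNat.ofNat_ne_zero, OfNat.ofNat_ne_one, if_false, if_true]
      exact ⟨by linarith, by linarith, by linarith, by linarith⟩
    · simp only [OfNat.ofNat_ne_zero, OfNat.ofNat_ne_one, if_false, show (3 : ℕ) ≠ 2 by norm_num]
      exact ⟨by linarith, by linarith, by linarith, by linarith⟩
  · simp only [if_true]
    refine ⟨by linarith, by linarith, ?_⟩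
    rw [hb0]
    ring
  · simp only [OfNat.ofNat_ne_zero, OfNat.ofNat_ne_one, if_false, if_true]
    refine ⟨by linarith, by linarith, ?_⟩
    rw [hb2]
    ring
  · simp only [one_ne_zero, if_false, if_true]
    refine ⟨by linarith, by linarith, ?_⟩
    rw [hd1]
    ring
  · simp only [OfNat.ofNat_ne_zero, OfNat.ofNat_ne_one, if_false, show (3 : ℕ) ≠ 2 by norm_num]
    refine ⟨by linarith, by linarith, ?_⟩
    rw [hd3]
    ring
  · simp only [one_ne_zero, OfNat.ofNat_ne_zero, OfNat.ofNat_ne_one, if_false, if_true]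
    have e : q * a2 = θ * (q * d1) := by rw [ha2]; ring
    have : θ * (q * d1) < 1 * (q * d1) := mul_lt_mul_of_pos_right h1 s1
    linarith
  · simp only [OfNat.ofNat_ne_zero, OfNat.ofNat_ne_one, if_false, if_true, show (3 : ℕ) ≠ 2 by norm_num]
    have : q * 1 < q * d3 := mul_lt_mul_of_pos_left hd hq0
    linarith
  · simp only [one_ne_zero, if_false, if_true]
    have e : q * c1 = θ * (q * b0) := by rw [hc1]; ring
    have : θ * (q * b0) < 1 * (q * b0) := mul_lt_mul_of_pos_right h1 r4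
    linarith
  · simp only [OfNat.ofNat_ne_zero, OfNat.ofNat_ne_one, if_false, if_true, show (3 : ℕ) ≠ 2 by norm_num]
    have e : q * c3 = θ * (q * b2) := by rw [hc3]; ring
    have : θ * (q * b2) < 1 * (q * b2) := mul_lt_mul_of_pos_right h1 s7
    linarith

/-- For a solution choose for every ring `r` a number `θ < 1` with `θ ^ 8 * (product) > 1`, and a small
`q > 0`, and put `l (4r) = q`, `u (4r) = θ φ0 l (4r)`, `1 - u (4r+1) = θ u (4r)`,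
`1 - l (4r+1) = θ φ1 (1 - u (4r+1))`, `l (4r+2) = θ (1 - l (4r+1))`, `u (4r+2) = θ φ2 l (4r+2)`,
`1 - u (4r+3) = θ u (4r+2)`, `1 - l (4r+3) = θ φ3 (1 - u (4r+3))`. Then the numbers `l`, `u` of the
even reads and `1 - l`, `1 - u` of the odd reads are at most `δ` (any given `δ > 0`), and all
inequalities below hold (with `t ρ = θ` of the ring). -/
theorem exists_lu {S : RS} (h : S.WF) {x w : ℕ → ℝ} (hs : S.Sol x w) :
    ∃ t : ℕ → ℝ, (∀ ρ, 0 < t ρ ∧ t ρ < 1) ∧ ∀ δ > 0, ∃ l u : ℕ → ℝ,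
      (∀ ρ < S.R, 0 < l ρ ∧ l ρ < 1 ∧ 0 < u ρ ∧ u ρ < 1) ∧
      (∀ ρ < S.R, ρ % 2 = 0 → l ρ ≤ δ ∧ u ρ ≤ δ ∧ u ρ = t ρ * S.fac x w ρ * l ρ) ∧
      (∀ ρ < S.R, ρ % 2 = 1 → 1 - l ρ ≤ δ ∧ 1 - u ρ ≤ δ ∧
        1 - l ρ = t ρ * S.fac x w ρ * (1 - u ρ)) ∧
      (∀ l' < 2 * S.K, l (loE l') + l (loF l') < 1) ∧
      ∀ l' < 2 * S.K, 1 < u (2 * l') + u (2 * l' + 1) := by
  have hθ : ∀ r : ℕ, ∃ θ : ℝ, (0 < θ ∧ θ < 1) ∧ (r < S.K → 1 < θ ^ 8 *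
      (S.fac x w (4 * r) * S.fac x w (4 * r + 1) * S.fac x w (4 * r + 2) * S.fac x w (4 * r + 3))) := by
    intro r
    obtain ⟨θ, h1, h2⟩ := r2_theta
      (S.fac x w (4 * r) * S.fac x w (4 * r + 1) * S.fac x w (4 * r + 2) * S.fac x w (4 * r + 3))
    exact ⟨θ, h1, fun hr => h2 (hs.2.2 r hr)⟩
  choose θ hθ1 hθ2 using hθ
  refine ⟨fun ρ => θ (ρ / 4), fun ρ => hθ1 _, fun δ hδ => ?_⟩
  have hv : ∀ r : ℕ, ∃ v : ℕ → ℝ × ℝ, r < S.K →
      ((∀ j < 4, 0 < (v j).1 ∧ (v j).1 < 1 ∧ 0 < (v j).2 ∧ (v j).2 < 1) ∧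
      ((v 0).1 ≤ δ ∧ (v 0).2 ≤ δ ∧ (v 0).2 = θ r * S.fac x w (4 * r) * (v 0).1) ∧
      ((v 2).1 ≤ δ ∧ (v 2).2 ≤ δ ∧ (v 2).2 = θ r * S.fac x w (4 * r + 2) * (v 2).1) ∧
      (1 - (v 1).1 ≤ δ ∧ 1 - (v 1).2 ≤ δ ∧ 1 - (v 1).1 = θ r * S.fac x w (4 * r + 1) * (1 - (v 1).2)) ∧
      (1 - (v 3).1 ≤ δ ∧ 1 - (v 3).2 ≤ δ ∧ 1 - (v 3).1 = θ r * S.fac x w (4 * r + 3) * (1 - (v 3).2)) ∧
      (v 1).1 + (v 2).1 < 1 ∧ (v 3).1 + (v 0).1 < 1 ∧ 1 < (v 0).2 + (v 1).2 ∧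
      1 < (v 2).2 + (v 3).2) := by
    intro r
    by_cases hr : r < S.K
    · obtain ⟨v, h1⟩ := r2_ring (hθ1 r).1 (hθ1 r).2 (fac_pos hs (4 * r)) (fac_pos hs (4 * r + 1))
        (fac_pos hs (4 * r + 2)) (fac_pos hs (4 * r + 3)) (hθ2 r hr) hδ
      exact ⟨v, fun _ => h1⟩
    · exact ⟨fun _ => (0, 0), fun h' => absurd h' hr⟩
  choose v hv using hv
  have hlen := h.len
  have hrK : ∀ ρ < S.R, ρ / 4 < S.K := fun ρ hρ => by omega
  refine ⟨fun ρ => (v (ρ / 4) (ρ % 4)).1, fun ρ => (v (ρ / 4) (ρ % 4)).2, ?_, ?_, ?_, ?_, ?_⟩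
  · intro ρ hρ
    exact (hv _ (hrK ρ hρ)).1 (ρ % 4) (by omega)
  · intro ρ hρ he
    obtain ⟨-, h0, h2, -⟩ := hv _ (hrK ρ hρ)
    have hm : ρ % 4 = 0 ∨ ρ % 4 = 2 := by omega
    rcases hm with hm | hm
    · have e : 4 * (ρ / 4) = ρ := by omega
      rw [e] at h0
      simp only [hm]
      exact h0
    · have e : 4 * (ρ / 4) + 2 = ρ := by omega
      rw [e] at h2
      simp only [hm]
      exact h2
  · intro ρ hρ he
    obtain ⟨-, -, -, h1, h3, -⟩ := hv _ (hrK ρ hρ)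
    have hm : ρ % 4 = 1 ∨ ρ % 4 = 3 := by omega
    rcases hm with hm | hm
    · have e : 4 * (ρ / 4) + 1 = ρ := by omega
      rw [e] at h1
      simp only [hm]
      exact h1
    · have e : 4 * (ρ / 4) + 3 = ρ := by omega
      rw [e] at h3
      simp only [hm]
      exact h3
  · intro l' hl'
    obtain ⟨-, -, -, -, -, h4, h5, -⟩ := hv (l' / 2) (by omega)
    unfold loE loF
    by_cases hp : l' % 2 = 0
    · rw [if_pos hp]
      simp only [show (2 * l' + 1) / 4 = l' / 2 by omega, show (2 * l' + 1) % 4 = 1 by omega,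
        show (2 * l' + 2) / 4 = l' / 2 by omega, show (2 * l' + 2) % 4 = 2 by omega]
      exact h4
    · rw [if_neg hp]
      simp only [show (2 * l' + 1) / 4 = l' / 2 by omega, show (2 * l' + 1) % 4 = 3 by omega,
        show (2 * l' - 2) / 4 = l' / 2 by omega, show (2 * l' - 2) % 4 = 0 by omega]
      exact h5
  · intro l' hl'
    obtain ⟨-, -, -, -, -, -, -, h6, h7⟩ := hv (l' / 2) (by omega)
    by_cases hp : l' % 2 = 0
    · simp only [show (2 * l') / 4 = l' / 2 by omega, show (2 * l') % 4 = 0 by omega,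
        show (2 * l' + 1) / 4 = l' / 2 by omega, show (2 * l' + 1) % 4 = 1 by omega]
      exact h6
    · simp only [show (2 * l') / 4 = l' / 2 by omega, show (2 * l') % 4 = 2 by omega,
        show (2 * l' + 1) / 4 = l' / 2 by omega, show (2 * l' + 1) % 4 = 3 by omega]
      exact h7

end Pool.Agent.H54R
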