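import Pool.Agent.Lib.H54R.RDefs
import Pool.Agent.Lib.H54R.R2
import Pool.Agent.Lib.H54R.C1
import Pool.Agent.Lib.H54R.C2

/-!
# R2K: the columns of the reads
-/

set_option autoImplicit false

namespace Pool.Agent.H54R

open RS

/-- borders as functions of the kind, the value and the moving border -/
noncomputable def r2k_bl (k : ℕ) (X c : ℝ) : ℝ := if k = 2 then X else if k = 3 then c else 0
noncomputable def r2k_br (k : ℕ) (X c : ℝ) : ℝ := if k = 3 then X else if k = 4 then c else 1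
noncomputable def r2k_ul (k : ℕ) (X c : ℝ) : ℝ := if k = 3 then c else if k = 4 then X else 0
noncomputable def r2k_ur (k : ℕ) (X c : ℝ) : ℝ := if k = 1 then X else if k = 4 then c else 1

/-- the inequalities of one read -/
def r2k_C (k : ℕ) (X c l u κ : ℝ) : Prop :=
  (r2k_bl k X c < κ ∧ κ < r2k_br k X c) ∧ (r2k_ul k X c < κ ∧ κ < r2k_ur k X c) ∧
    κ - r2k_bl k X c < l * (r2k_br k X c - r2k_bl k X c) ∧
    u * (r2k_ur k X c - r2k_ul k X c) < κ - r2k_ul k X c

theorem r2k_mid {BL BR UL UR l u : ℝ} (hl0 : 0 < l) (hl1 : l < 1) (hu0 : 0 < u) (hu1 : u < 1)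
    (h1 : BL < BR) (h2 : UL < UR) (h3 : BL < UR) (h4 : UL + u * (UR - UL) < BL + l * (BR - BL)) :
    ∃ κ : ℝ, (BL < κ ∧ κ < BR) ∧ (UL < κ ∧ κ < UR) ∧ κ - BL < l * (BR - BL) ∧
      u * (UR - UL) < κ - UL := by
  have ha : max BL (UL + u * (UR - UL)) < min UR (BL + l * (BR - BL)) := by
    rw [max_lt_iff, lt_min_iff, lt_min_iff]
    have := mul_pos hl0 (sub_pos.2 h1)
    have h5 : u * (UR - UL) < UR - UL := by nlinarith [sub_pos.2 h2]
    exact ⟨⟨h3, by linarith⟩, by linarith, h4⟩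
  obtain ⟨κ, hκ1, hκ2⟩ := exists_between ha
  rw [max_lt_iff] at hκ1
  rw [lt_min_iff] at hκ2
  have h6 : l * (BR - BL) < BR - BL := by nlinarith [sub_pos.2 h1]
  have h7 := mul_pos hu0 (sub_pos.2 h2)
  exact ⟨κ, ⟨hκ1.1, by linarith⟩, ⟨by linarith, hκ2.1⟩, by linarith, by linarith⟩

/-- one read, kinds 0, 1, 3 (even) -/
theorem r2k_even {k : ℕ} {X c l u t fc : ℝ} (hk : k = 0 ∨ k = 1 ∨ k = 3) (hX0 : 0 < X) (hX1 : X < 1)
    (hl0 : 0 < l) (hl1 : l < 1) (hu0 : 0 < u) (hu1 : u < 1) (ht1 : t < 1) (ht0 : 0 < t)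
    (hf : fc = if k = 0 then 1 else if k = 1 then X⁻¹ else X) (hu : u = t * fc * l)
    (hc0 : 0 ≤ c) (hc : k = 3 → c < X * (1 - t)) : ∃ κ, r2k_C k X c l u κ := by
  unfold r2k_C
  rcases hk with rfl | rfl | rfl
  · simp only [r2k_bl, r2k_br, r2k_ul, r2k_ur, if_true] at *
    norm_num at *
    subst hf
    have h := @r2k_mid 0 1 0 1 l u hl0 hl1 hu0 hu1 (by norm_num) (by norm_num) (by norm_num) (by nlinarith)
    simpa using h
  · have h := @r2k_mid 0 1 0 X l u hl0 hl1 hu0 hu1 (by norm_num) hX0 hX0 (by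
      have h1 : u * X = t * l := by
        rw [hu, hf]
        simp only [one_ne_zero, if_false, if_true]
        field_simp
      nlinarith)
    simpa [r2k_bl, r2k_br, r2k_ul, r2k_ur] using h
  · have hc' := hc rfl
    have hcX : c < X := by nlinarith
    have hu' : u = t * X * l := by
      rw [hu, hf]
      norm_num
    have h := @r2k_mid c X c 1 l u hl0 hl1 hu0 hu1 hcX (by linarith) (by linarith) (by
      have h1 : u * (1 - c) < l * (X - c) := by
        rw [hu']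
        have h2 : t * X * (1 - c) < X - c := by
          have h3 : c * (1 - t * X) ≤ c := by nlinarith [mul_pos ht0 hX0]
          nlinarith
        nlinarith
      linarith)
    simpa [r2k_bl, r2k_br, r2k_ul, r2k_ur] using h

/-- one read, kinds 0, 2, 4 (odd) -/
theorem r2k_odd {k : ℕ} {X c l u t fc : ℝ} (hk : k = 0 ∨ k = 2 ∨ k = 4) (hX0 : 0 < X) (hX1 : X < 1)
    (hl0 : 0 < l) (hl1 : l < 1) (hu0 : 0 < u) (hu1 : u < 1) (ht1 : t < 1) (ht0 : 0 < t)
    (hf : fc = if k = 0 then 1 else if k = 2 then (1 - X)⁻¹ else 1 - X) (hu : 1 - l = t * fc * (1 - u))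
    (hc1 : c ≤ 1) (hc : k = 4 → 1 - c < (1 - X) * (1 - t)) : ∃ κ, r2k_C k X c l u κ := by
  unfold r2k_C
  rcases hk with rfl | rfl | rfl
  · simp only [if_true] at hf
    subst hf
    have h := @r2k_mid 0 1 0 1 l u hl0 hl1 hu0 hu1 (by norm_num) (by norm_num) (by norm_num) (by nlinarith)
    simpa [r2k_bl, r2k_br, r2k_ul, r2k_ur] using h
  · have h := @r2k_mid X 1 0 1 l u hl0 hl1 hu0 hu1 hX1 (by norm_num) hX1 (by
      have h0 : (0 : ℝ) < 1 - X := by linarith
      have h1 : (1 - l) * (1 - X) = t * (1 - u) := by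
        rw [hu, hf]
        norm_num
        field_simp
      nlinarith)
    simpa [r2k_bl, r2k_br, r2k_ul, r2k_ur] using h
  · have hc' := hc rfl
    have hXc : X < c := by nlinarith
    have hu' : 1 - l = t * (1 - X) * (1 - u) := by
      rw [hu, hf]
      norm_num
    have h := @r2k_mid 0 c X c l u hl0 hl1 hu0 hu1 (by linarith) hXc (by linarith) (by
      have h1 : l = 1 - t * (1 - X) * (1 - u) := by linarith
      have h3 : (1 - c) * (1 - t * (1 - X)) ≤ 1 - c := by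
        nlinarith [mul_pos ht0 (sub_pos.2 hX1)]
      have h2 : X < c * (1 - t * (1 - X)) := by nlinarith
      have h4 : 0 < (1 - u) * (c * (1 - t * (1 - X)) - X) := mul_pos (by linarith) (by linarith)
      rw [h1]
      nlinarith)
    simpa [r2k_bl, r2k_br, r2k_ul, r2k_ur] using h

/-- bound for the next border -/
theorem r2k_b3 {X c l u κ δ : ℝ} (hX1 : X < 1) (hl0 : 0 < l) (hl : l ≤ δ) (hc0 : 0 ≤ c)
    (h : r2k_C 3 X c l u κ) : 0 ≤ κ ∧ κ ≤ c + δ := by
  unfold r2k_C at h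
  simp only [r2k_bl, r2k_br, r2k_ul, r2k_ur] at h
  norm_num at h
  obtain ⟨⟨h1, h2⟩, ⟨h3, h4⟩, h5, h6⟩ := h
  constructor
  · linarith
  · nlinarith

theorem r2k_b4 {X c l u κ δ : ℝ} (hX0 : 0 < X) (hu1 : u < 1) (hu : 1 - u ≤ δ) (hc1 : c ≤ 1)
    (h : r2k_C 4 X c l u κ) : κ ≤ 1 ∧ 1 - κ ≤ (1 - c) + δ := by
  unfold r2k_C at h
  simp only [r2k_bl, r2k_br, r2k_ul, r2k_ur] at h
  norm_num at h
  obtain ⟨⟨h1, h2⟩, ⟨h3, h4⟩, h5, h6⟩ := h
  constructor
  · linarith
  · nlinarith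

/-- the moving border -/
noncomputable def r2k_cb (S : RS) (κ : ℕ → ℝ) (ρ : ℕ) : ℝ :=
  match S.prv ρ with
  | some σ => κ σ
  | none => if S.kd ρ = 3 then 0 else 1

theorem r2k_prv {S : RS} {ρ σ : ℕ} (h : S.prv ρ = some σ) :
    σ < ρ ∧ S.kd σ = S.kd ρ ∧ S.lane σ = S.lane ρ := by
  unfold RS.prv at h
  have h1 := List.mem_of_getLast? h
  rw [List.mem_filter, List.mem_range, decide_eq_true_eq] at h1
  exact h1

theorem r2k_cb_congr {S : RS} {κ κ' : ℕ → ℝ} {ρ : ℕ} (h : ∀ σ < ρ, κ σ = κ' σ) :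
    r2k_cb S κ ρ = r2k_cb S κ' ρ := by
  unfold r2k_cb
  cases hp : S.prv ρ with
  | none => rfl
  | some σ => exact h σ (r2k_prv hp).1

/-- the value of the variable of a read -/
noncomputable def r2k_xv (S : RS) (x w : ℕ → ℝ) (ρ : ℕ) : ℝ :=
  if (S.op ρ).1 = 1 then w (S.op ρ).2 else x (S.op ρ).2

theorem r2k_xv01 {S : RS} {x w : ℕ → ℝ} (hs : S.Sol x w) (ρ : ℕ) :
    0 < r2k_xv S x w ρ ∧ r2k_xv S x w ρ < 1 := by
  unfold r2k_xv
  split_ifs
  · exact hs.2.1 _
  · exact hs.1 _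

theorem r2k_fac {S : RS} {x w : ℕ → ℝ} {ρ : ℕ} (h : S.WF) (hρ : ρ < S.R) :
    S.fac x w ρ = if S.kd ρ = 0 then 1 else if S.kd ρ = 1 then (r2k_xv S x w ρ)⁻¹
      else if S.kd ρ = 2 then (1 - r2k_xv S x w ρ)⁻¹ else if S.kd ρ = 3 then r2k_xv S x w ρ
      else 1 - r2k_xv S x w ρ := by
  rw [fac_eq h hρ]
  have h1 : (S.kd ρ = 1 ∨ S.kd ρ = 2) → (S.op ρ).1 = 1 := by
    intro hk
    rcases hk with hk | hk <;> (unfold kd at hk; split_ifs at hk <;> omega)
  have h2 : (S.kd ρ = 3 ∨ S.kd ρ = 4) → (S.op ρ).1 ≠ 1 := by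
    intro hk
    rcases hk with hk | hk <;> (unfold kd at hk; split_ifs at hk <;> omega)
  have h3 := S.kd_le ρ
  have h4 : S.kd ρ = 0 ∨ S.kd ρ = 1 ∨ S.kd ρ = 2 ∨ S.kd ρ = 3 ∨ S.kd ρ = 4 := by omega
  rcases h4 with h4 | h4 | h4 | h4 | h4
  · rw [h4]
    norm_num
  · have h5 := h1 (Or.inl h4)
    rw [h4]
    unfold r2k_xv
    rw [if_pos h5]
    norm_num
  · have h5 := h1 (Or.inr h4)
    rw [h4]
    unfold r2k_xv
    rw [if_pos h5]
    norm_num
  · have h5 := h2 (Or.inl h4)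
    rw [h4]
    unfold r2k_xv
    rw [if_neg h5]
    norm_num
  · have h5 := h2 (Or.inr h4)
    rw [h4]
    unfold r2k_xv
    rw [if_neg h5]
    norm_num

/-- a positive lower bound for finitely many positive numbers -/
theorem r2k_fin (f : ℕ → ℝ) (hf : ∀ i, 0 < f i) (N : ℕ) : ∃ ε > 0, ∀ i < N, ε ≤ f i := by
  induction N with
  | zero => exact ⟨1, one_pos, fun i hi => absurd hi (Nat.not_lt_zero i)⟩
  | succ N ih =>
    obtain ⟨ε, h0, h1⟩ := ih
    refine ⟨min ε (f N), lt_min h0 (hf N), fun i hi => ?_⟩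
    rcases Nat.lt_succ_iff_lt_or_eq.1 hi with h | h
    · exact (min_le_left _ _).trans (h1 i h)
    · rw [h]
      exact min_le_right _ _

theorem r2k_kdpar {S : RS} {ρ : ℕ} : (ρ % 2 = 0 → S.kd ρ = 0 ∨ S.kd ρ = 1 ∨ S.kd ρ = 3) ∧
    (ρ % 2 = 1 → S.kd ρ = 0 ∨ S.kd ρ = 2 ∨ S.kd ρ = 4) := by
  unfold kd
  constructor
  · intro h
    split_ifs <;> omega
  · intro h
    split_ifs <;> omega

/-- The columns `k`, chosen one after the other in the order of the reads, strictly between the two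
bounds of `k1` - `k4`. Kind 0: between `u` and `l`. Kind 1: between `u X` and `min l X`. Kind 2: between
`max u X` and `X + l (1 - X)`. Kind 3, with `c = cb`: between `c + u (1 - c)` and `c + l (X - c)`;
possible since `u = t X l` and `c < X (1 - t)`; induction hypothesis: `c` is at most the sum of the
`l` of the previous reads of the lane. Kind 4: between `X + u (c - X)` and `l c`; possible since
`1 - l = t (1 - X) (1 - u)` and `1 - c < (1 - X) (1 - t)`; `1 - c` is at most the sum of the `1 - u`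
of the previous reads. Choose `δ` such that `R δ` is smaller than all `X (1 - t)`,
`(1 - X) (1 - t)`. -/
theorem exists_kappa {S : RS} (h : S.WF) {x w : ℕ → ℝ} (hs : S.Sol x w) :
    ∃ l u κ : ℕ → ℝ, (∀ ρ < S.R, 0 < l ρ ∧ l ρ < 1) ∧ (∀ ρ < S.R, 0 < u ρ ∧ u ρ < 1) ∧
      (∀ l' < 2 * S.K, l (loE l') + l (loF l') < 1) ∧
      (∀ l' < 2 * S.K, 1 < u (2 * l') + u (2 * l' + 1)) ∧
      ∀ gL gU : ℕ → Gt, ∀ ρ < S.R, let d : Dat := ⟨x, w, l, u, κ, gL, gU⟩;
        (d.bl S ρ < d.κ ρ ∧ d.κ ρ < d.br S ρ) ∧ (d.ul S ρ < d.κ ρ ∧ d.κ ρ < d.ur S ρ) ∧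
        d.κ ρ - d.bl S ρ < d.l ρ * (d.br S ρ - d.bl S ρ) ∧
        d.u ρ * (d.ur S ρ - d.ul S ρ) < d.κ ρ - d.ul S ρ := by
  obtain ⟨t, ht, hlu⟩ := exists_lu h hs
  have hf0 : ∀ ρ, 0 < min (r2k_xv S x w ρ * (1 - t ρ)) ((1 - r2k_xv S x w ρ) * (1 - t ρ)) := by
    intro ρ
    have h1 := r2k_xv01 hs ρ
    have h2 := ht ρ
    exact lt_min (mul_pos h1.1 (by linarith)) (mul_pos (by linarith) (by linarith))
  obtain ⟨ε, hε0, hε⟩ := r2k_fin _ hf0 S.R
  have hR : (0 : ℝ) ≤ S.R := Nat.cast_nonneg _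
  set δ : ℝ := ε / (S.R + 1) with hδ
  have hδ0 : 0 < δ := by positivity
  have hδR : S.R * δ < ε := by
    rw [hδ, mul_div_assoc', div_lt_iff₀ (by positivity)]
    nlinarith
  obtain ⟨l, u, h01, hev, hod, hlo, hup⟩ := hlu δ hδ0
  have key : ∀ N : ℕ, N ≤ S.R → ∃ κ : ℕ → ℝ, ∀ ρ < N,
      r2k_C (S.kd ρ) (r2k_xv S x w ρ) (r2k_cb S κ ρ) (l ρ) (u ρ) (κ ρ) ∧
      (S.kd ρ = 3 → 0 ≤ κ ρ ∧ κ ρ ≤ (ρ + 1 : ℕ) * δ) ∧
      (S.kd ρ = 4 → κ ρ ≤ 1 ∧ 1 - κ ρ ≤ (ρ + 1 : ℕ) * δ) := by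
    intro N
    induction N with
    | zero => exact fun _ => ⟨fun _ => 0, fun ρ hρ => absurd hρ (Nat.not_lt_zero ρ)⟩
    | succ N ih =>
      intro hN
      obtain ⟨κ, hκ⟩ := ih (by omega)
      have hNR : N < S.R := hN
      set c : ℝ := r2k_cb S κ N with hc
      -- bounds for c
      have hc3 : S.kd N = 3 → 0 ≤ c ∧ c ≤ N * δ := by
        intro hk
        rw [hc]
        unfold r2k_cb
        cases hp : S.prv N with
        | none =>
          simp only
          rw [if_pos hk]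
          exact ⟨le_refl 0, by positivity⟩
        | some σ =>
          obtain ⟨h1, h2, -⟩ := r2k_prv hp
          obtain ⟨h3, h4⟩ := (hκ σ h1).2.1 (h2.trans hk)
          refine ⟨h3, h4.trans ?_⟩
          have : ((σ + 1 : ℕ) : ℝ) ≤ N := by exact_mod_cast h1
          exact mul_le_mul_of_nonneg_right this hδ0.le
      have hc4 : S.kd N = 4 → c ≤ 1 ∧ 1 - c ≤ N * δ := by
        intro hk
        rw [hc]
        unfold r2k_cb
        cases hp : S.prv N with
        | none =>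
          simp only
          rw [if_neg (by omega)]
          refine ⟨le_refl 1, ?_⟩
          rw [sub_self]
          positivity
        | some σ =>
          obtain ⟨h1, h2, -⟩ := r2k_prv hp
          obtain ⟨h3, h4⟩ := (hκ σ h1).2.2 (h2.trans hk)
          refine ⟨h3, h4.trans ?_⟩
          have : ((σ + 1 : ℕ) : ℝ) ≤ N := by exact_mod_cast h1
          exact mul_le_mul_of_nonneg_right this hδ0.le
      have hNδ : N * δ < ε := by
        have : (N : ℝ) ≤ S.R := by exact_mod_cast hNR.le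
        have := mul_le_mul_of_nonneg_right this hδ0.le
        linarith
      have hX := r2k_xv01 hs N
      have htN := ht N
      have hεN := hε N hNR
      rw [le_min_iff] at hεN
      obtain ⟨hl0, hl1, hu0, hu1⟩ := h01 N hNR
      have hfac := r2k_fac (x := x) (w := w) h hNR
      -- the new value
      have hex : ∃ k : ℝ, r2k_C (S.kd N) (r2k_xv S x w N) c (l N) (u N) k ∧
          (S.kd N = 3 → 0 ≤ k ∧ k ≤ (N + 1 : ℕ) * δ) ∧
          (S.kd N = 4 → k ≤ 1 ∧ 1 - k ≤ (N + 1 : ℕ) * δ) := by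
        rcases Nat.mod_two_eq_zero_or_one N with hpar | hpar
        · obtain ⟨e1, e2, e3⟩ := hev N hNR hpar
          have hk := (r2k_kdpar (S := S) (ρ := N)).1 hpar
          have hfac' : S.fac x w N = if S.kd N = 0 then 1 else if S.kd N = 1 then
              (r2k_xv S x w N)⁻¹ else r2k_xv S x w N := by
            rw [hfac]
            rcases hk with hk | hk | hk <;> rw [hk] <;> norm_num
          by_cases h3 : S.kd N = 3
          · obtain ⟨k, hk'⟩ := r2k_even hk hX.1 hX.2 hl0 hl1 hu0 hu1 htN.2 htN.1 hfac' e3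
              (hc3 h3).1 (fun _ => by linarith [(hc3 h3).2, hεN.1])
            refine ⟨k, hk', fun _ => ?_, fun h4 => by omega⟩
            rw [h3] at hk'
            obtain ⟨b1, b2⟩ := r2k_b3 hX.2 hl0 e1 (hc3 h3).1 hk'
            refine ⟨b1, b2.trans ?_⟩
            push_cast
            linarith [(hc3 h3).2]
          · obtain ⟨k, hk'⟩ := r2k_even (c := 0) hk hX.1 hX.2 hl0 hl1 hu0 hu1 htN.2 htN.1 hfac' e3
              (le_refl 0) (fun h4 => absurd h4 h3)
            refine ⟨k, ?_, fun h4 => absurd h4 h3, fun h4 => by omega⟩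
            unfold r2k_C r2k_bl r2k_br r2k_ul r2k_ur at hk' ⊢
            rcases hk with hk | hk | hk
            · rw [hk] at hk' ⊢
              simpa using hk'
            · rw [hk] at hk' ⊢
              simpa using hk'
            · exact absurd hk h3
        · obtain ⟨e1, e2, e3⟩ := hod N hNR hpar
          have hk := (r2k_kdpar (S := S) (ρ := N)).2 hpar
          have hfac' : S.fac x w N = if S.kd N = 0 then 1 else if S.kd N = 2 then
              (1 - r2k_xv S x w N)⁻¹ else 1 - r2k_xv S x w N := by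
            rw [hfac]
            rcases hk with hk | hk | hk <;> rw [hk] <;> norm_num
          by_cases h3 : S.kd N = 4
          · obtain ⟨k, hk'⟩ := r2k_odd hk hX.1 hX.2 hl0 hl1 hu0 hu1 htN.2 htN.1 hfac' e3
              (hc4 h3).1 (fun _ => by linarith [(hc4 h3).2, hεN.2])
            refine ⟨k, hk', fun h4 => by omega, fun _ => ?_⟩
            rw [h3] at hk'
            obtain ⟨b1, b2⟩ := r2k_b4 hX.1 hu1 e2 (hc4 h3).1 hk'
            refine ⟨b1, b2.trans ?_⟩
            push_cast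
            linarith [(hc4 h3).2]
          · obtain ⟨k, hk'⟩ := r2k_odd (c := 0) hk hX.1 hX.2 hl0 hl1 hu0 hu1 htN.2 htN.1 hfac' e3
              (by norm_num) (fun h4 => absurd h4 h3)
            refine ⟨k, ?_, fun h4 => by omega, fun h4 => absurd h4 h3⟩
            unfold r2k_C r2k_bl r2k_br r2k_ul r2k_ur at hk' ⊢
            rcases hk with hk | hk | hk
            · rw [hk] at hk' ⊢
              simpa using hk'
            · rw [hk] at hk' ⊢
              simpa using hk'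
            · exact absurd hk h3
      obtain ⟨k, hk1, hk2, hk3⟩ := hex
      refine ⟨Function.update κ N k, fun ρ hρ => ?_⟩
      have hcong : ∀ σ < N, κ σ = Function.update κ N k σ := by
        intro σ hσ
        rw [Function.update_of_ne (by omega)]
      rcases Nat.lt_succ_iff_lt_or_eq.1 hρ with h1 | h1
      · have h2 : Function.update κ N k ρ = κ ρ := (hcong ρ h1).symm
        rw [h2, ← r2k_cb_congr (κ := κ) (fun σ hσ => hcong σ (by omega))]
        exact hκ ρ h1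
      · subst h1
        rw [Function.update_self, ← r2k_cb_congr (κ := κ) (fun σ hσ => hcong σ hσ)]
        exact ⟨hk1, hk2, hk3⟩
  obtain ⟨κ, hκ⟩ := key S.R le_rfl
  refine ⟨l, u, κ, fun ρ hρ => ⟨(h01 ρ hρ).1, (h01 ρ hρ).2.1⟩,
    fun ρ hρ => ⟨(h01 ρ hρ).2.2.1, (h01 ρ hρ).2.2.2⟩, hlo, hup, ?_⟩
  intro gL gU ρ hρ
  exact (hκ ρ hρ).1

end Pool.Agent.H54R
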