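import Pool.Agent.Lib.H54R.RDefs
import Pool.Agent.Lib.H54R.R1
import Pool.Agent.Lib.H54R.R2
import Pool.Agent.Lib.H54R.R2K
import Pool.Agent.Lib.H54R.C1

/-!
# R2B: all numbers
-/

set_option autoImplicit false

namespace Pool.Agent.H54R

open RS

theorem exists_dat {S : RS} (h : S.WF) (hs : S.Sat) : ∃ d : Dat, DatOK S d := by
  obtain ⟨x, w, hxw⟩ := hs
  obtain ⟨l, u, κ, hl, hu, hlo, hup, hk⟩ := exists_kappa h hxw
  have h1 : ∀ l' : ℕ, ∃ g : Gt, l' < 2 * S.K → GtOK (l (S.loA l')) (l (S.loB l')) g := by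
    intro l'
    by_cases hl' : l' < 2 * S.K
    · have hA := hl _ (loA_lt h hl')
      have hB := hl _ (loB_lt h hl')
      obtain ⟨g, hg⟩ := exists_gt hA.1 hB.1 (by
        have h2 := hlo l' hl'
        rcases S.lo_pair l' with ⟨h3, h4⟩ | ⟨h3, h4⟩
        · rw [h3, h4]
          exact h2
        · rw [h3, h4, add_comm]
          exact h2)
      exact ⟨g, fun _ => hg⟩
    · exact ⟨⟨0, 0, 0, 0, 0, 0, 0, 0, 0, 0, 0, 0, 0⟩, fun h3 => absurd h3 hl'⟩
  have h2 : ∀ l' : ℕ, ∃ g : Gt, l' < 2 * S.K →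
      GtOK (1 - u (S.upA l')) (1 - u (S.upB l')) g := by
    intro l'
    by_cases hl' : l' < 2 * S.K
    · have hA := hu _ (upA_lt h hl')
      have hB := hu _ (upB_lt h hl')
      obtain ⟨g, hg⟩ := exists_gt (a := 1 - u (S.upA l')) (b := 1 - u (S.upB l'))
        (by linarith [hA.2]) (by linarith [hB.2]) (by
        have h2 := hup l' hl'
        rcases S.up_pair l' with ⟨h3, h4⟩ | ⟨h3, h4⟩
        · rw [h3, h4]
          linarith
        · rw [h3, h4]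
          linarith)
      exact ⟨g, fun _ => hg⟩
    · exact ⟨⟨0, 0, 0, 0, 0, 0, 0, 0, 0, 0, 0, 0, 0⟩, fun h3 => absurd h3 hl'⟩
  choose gL hgL using h1
  choose gU hgU using h2
  refine ⟨⟨x, w, l, u, κ, gL, gU⟩, ⟨hxw.1, hxw.2.1, hl, hu, hgL, hgU, ?_, ?_, ?_, ?_⟩⟩
  · intro ρ hρ
    exact (hk gL gU ρ hρ).1
  · intro ρ hρ
    exact (hk gL gU ρ hρ).2.1
  · intro ρ hρ
    exact (hk gL gU ρ hρ).2.2.1
  · intro ρ hρ
    exact (hk gL gU ρ hρ).2.2.2

end Pool.Agent.H54R
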