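import Pool.Agent.Lib.H54R.RDefs

/-!
# R3: drawings made of horizontal and vertical lines and other edges
-/

set_option autoImplicit false

namespace Pool.Agent.H54R

theorem r3_mem_edg {α : Type} {l : List α} {a b : α} (h : (a, b) ∈ edg l) : a ∈ l ∧ b ∈ l := by
  unfold edg at h
  have h1 := List.of_mem_zip h
  exact ⟨h1.1, List.mem_of_mem_tail h1.2⟩

theorem r3_consec {α : Type} (F : α → ℝ) : ∀ {l : List α}, (l.Pairwise fun v w => F v < F w) →
    ∀ {a b : α}, (a, b) ∈ edg l → F a < F b ∧ ∀ v ∈ l, F v ≤ F a ∨ F b ≤ F v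
  | [], _, a, b, h => by simp [edg] at h
  | [x], _, a, b, h => by simp [edg] at h
  | x :: y :: t, hp, a, b, h => by
      have h0 : edg (x :: y :: t) = (x, y) :: edg (y :: t) := rfl
      rw [List.pairwise_cons] at hp
      obtain ⟨hx, hp'⟩ := hp
      rw [h0, List.mem_cons] at h
      rcases h with h | h
      · rw [Prod.mk.injEq] at h
        obtain ⟨rfl, rfl⟩ := h
        refine ⟨hx _ List.mem_cons_self, ?_⟩
        intro v hv
        rcases List.mem_cons.mp hv with rfl | hv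
        · exact Or.inl le_rfl
        · right
          rw [List.pairwise_cons] at hp'
          rcases List.mem_cons.mp hv with rfl | hv
          · exact le_rfl
          · exact (hp'.1 v hv).le
      · obtain ⟨h1, h2⟩ := r3_consec F hp' h
        refine ⟨h1, ?_⟩
        intro v hv
        rcases List.mem_cons.mp hv with rfl | hv
        · exact Or.inl (hx a (r3_mem_edg h).1).le
        · exact h2 v hv

/-- the data of a coordinate system -/
structure R3C (F G : Pt → ℝ) : Prop where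
  hF : ∀ {a b z : Pt}, z ∈ openSegment ℝ a b → F a < F b → F a < F z ∧ F z < F b
  hG : ∀ {a b z : Pt}, z ∈ openSegment ℝ a b → G a = G b → G z = G a
  hFG : ∀ {x y : Pt}, F x = F y → G x = G y → x = y

/-- generic extent of a line -/
def r3_ext (F G : Pt → ℝ) (p : Vx → Pt) (r : List Vx) : Set Pt :=
  {z | ∃ a ∈ r, ∃ b ∈ r, F (p a) ≤ F z ∧ F z ≤ F (p b) ∧ G z = G (p a)}

theorem r3_combo {a b s t : ℝ} (hs : 0 < s) (ht : 0 < t) (hst : s + t = 1) (hab : a < b) :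
    a < s * a + t * b ∧ s * a + t * b < b := by
  have e1 : s = 1 - t := by linarith
  subst e1
  constructor
  · nlinarith
  · nlinarith

theorem r3_combo' {a b s t : ℝ} (hst : s + t = 1) (hab : a = b) : s * a + t * b = a := by
  subst hab
  rw [← add_mul, hst, one_mul]

theorem r3_c1 : R3C (fun z => z.1) (fun z => z.2) where
  hF := by
    rintro a b z ⟨s, t, hs, ht, hst, rfl⟩ hab
    have := r3_combo hs ht hst hab
    simpa using this
  hG := by
    rintro a b z ⟨s, t, hs, ht, hst, rfl⟩ hab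
    have := r3_combo' hst hab
    simpa using this
  hFG := fun h1 h2 => Prod.ext h1 h2

theorem r3_c2 : R3C (fun z => z.2) (fun z => z.1) where
  hF := by
    rintro a b z ⟨s, t, hs, ht, hst, rfl⟩ hab
    have := r3_combo hs ht hst hab
    simpa using this
  hG := by
    rintro a b z ⟨s, t, hs, ht, hst, rfl⟩ hab
    have := r3_combo' hst hab
    simpa using this
  hFG := fun h1 h2 => Prod.ext h2 h1

/-- an edge of a line is on the line -/
theorem r3_on {F G : Pt → ℝ} (C : R3C F G) {p : Vx → Pt} {r : List Vx}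
    (a1 : r.Pairwise fun v w => F (p v) < F (p w))
    (a2 : ∀ v ∈ r, ∀ w ∈ r, G (p v) = G (p w)) {a b : Vx} (h : (a, b) ∈ edg r) {z : Pt}
    (hz : z ∈ openSegment ℝ (p a) (p b)) : z ∈ r3_ext F G p r := by
  obtain ⟨h1, h2⟩ := r3_mem_edg h
  obtain ⟨h3, -⟩ := r3_consec (fun v => F (p v)) a1 h
  obtain ⟨h4, h5⟩ := C.hF hz h3
  exact ⟨a, h1, b, h2, h4.le, h5.le, C.hG hz (a2 a h1 b h2)⟩

/-- a vertex on an edge of a line -/
theorem r3_avoid {F G : Pt → ℝ} (C : R3C F G) {p : Vx → Pt} {V0 : Set Vx} {r : List Vx}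
    (a1 : r.Pairwise fun v w => F (p v) < F (p w))
    (a2 : ∀ v ∈ r, ∀ w ∈ r, G (p v) = G (p w))
    (b1 : ∀ v ∈ V0, p v ∈ r3_ext F G p r → v ∈ r) {a b : Vx} (h : (a, b) ∈ edg r) {v : Vx}
    (hv : v ∈ V0) (hz : p v ∈ openSegment ℝ (p a) (p b)) : False := by
  have h1 := b1 v hv (r3_on C a1 a2 h hz)
  obtain ⟨h3, h6⟩ := r3_consec (fun v => F (p v)) a1 h
  obtain ⟨h4, h5⟩ := C.hF hz h3
  rcases h6 v h1 with h7 | h7
  · exact absurd h7 (not_le.mpr h4)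
  · exact absurd h7 (not_le.mpr h5)

/-- two crossing edges of lines are equal -/
theorem r3_cross {F G : Pt → ℝ} (C : R3C F G) {p : Vx → Pt} {V0 : Set Vx}
    {rows : List (List Vx)}
    (a1 : ∀ r ∈ rows, r.Pairwise fun v w => F (p v) < F (p w))
    (a2 : ∀ r ∈ rows, ∀ v ∈ r, ∀ w ∈ r, G (p v) = G (p w))
    (a3 : ∀ r ∈ rows, ∀ v ∈ r, v ∈ V0)
    (b1 : ∀ r ∈ rows, ∀ v ∈ V0, p v ∈ r3_ext F G p r → v ∈ r)
    (c1 : ∀ r ∈ rows, ∀ r' ∈ rows, ∀ v ∈ r, v ∈ r' → r = r')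
    (g : Set.InjOn p V0) {r r' : List Vx} (hr : r ∈ rows) (hr' : r' ∈ rows) {a b c d : Vx}
    (h : (a, b) ∈ edg r) (h' : (c, d) ∈ edg r') {z : Pt} (hz : z ∈ openSegment ℝ (p a) (p b))
    (hz' : z ∈ openSegment ℝ (p c) (p d)) : a = c ∧ b = d := by
  obtain ⟨ha, hb⟩ := r3_mem_edg h
  obtain ⟨hc, hd⟩ := r3_mem_edg h'
  obtain ⟨x1, x2⟩ := r3_consec (fun v => F (p v)) (a1 r hr) h
  obtain ⟨y1, y2⟩ := r3_consec (fun v => F (p v)) (a1 r' hr') h'
  obtain ⟨x3, x4⟩ := C.hF hz x1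
  obtain ⟨y3, y4⟩ := C.hF hz' y1
  have x5 := C.hG hz (a2 r hr a ha b hb)
  have y5 := C.hG hz' (a2 r' hr' c hc d hd)
  have hrr : r = r' := by
    rcases le_total (F (p a)) (F (p c)) with hac | hac
    · have h1 : c ∈ r := b1 r hr c (a3 r' hr' c hc)
        ⟨a, ha, b, hb, hac, (y3.trans x4).le, by rw [← y5, x5]⟩
      exact c1 r hr r' hr' c h1 hc
    · have h1 : a ∈ r' := b1 r' hr' a (a3 r hr a ha)
        ⟨c, hc, d, hd, hac, (x3.trans y4).le, by rw [← x5, y5]⟩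
      exact c1 r hr r' hr' a ha h1
  subst hrr
  have e1 : F (p c) ≤ F (p a) := (x2 c hc).resolve_right (not_le.mpr (y3.trans x4))
  have e2 : F (p a) ≤ F (p c) := (y2 a ha).resolve_right (not_le.mpr (x3.trans y4))
  have e3 : F (p b) ≤ F (p d) := (x2 d hd).resolve_left (not_le.mpr (x3.trans y4))
  have e4 : F (p d) ≤ F (p b) := (y2 b hb).resolve_left (not_le.mpr (y3.trans x4))
  exact ⟨g (a3 r hr a ha) (a3 r hr c hc) (C.hFG (le_antisymm e2 e1) (a2 r hr a ha c hc)),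
    g (a3 r hr b hb) (a3 r hr d hd) (C.hFG (le_antisymm e3 e4) (a2 r hr b hb d hd))⟩

/-- The grid lemma. All light edges are edges of the row lines `rows`, of the column lines `cols` or
in the list `box`; heavy edges are in `box` or `out`. Two crossing edges of row lines: one end of one of
them is on the other line, hence a member of it (`b1`), so the lines are equal (`c1`), and consecutive
members of a line in strictly increasing order do not overlap. A vertex on an edge of a row line is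
a member of the line, hence an end of the edge. -/
theorem grid {p : Vx → Pt} {V0 : Set Vx} {rows cols : List (List Vx)}
    {box out light heavy : List (Vx × Vx)}
    (hV : ∀ v ∈ vset (light ++ heavy), v ∈ V0)
    (a1 : ∀ r ∈ rows, (r.Pairwise fun v w => (p v).1 < (p w).1) ∧
      (∀ v ∈ r, ∀ w ∈ r, (p v).2 = (p w).2) ∧ ∀ v ∈ r, v ∈ V0)
    (a2 : ∀ r ∈ cols, (r.Pairwise fun v w => (p v).2 < (p w).2) ∧
      (∀ v ∈ r, ∀ w ∈ r, (p v).1 = (p w).1) ∧ ∀ v ∈ r, v ∈ V0)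
    (b1 : ∀ r ∈ rows, ∀ v ∈ V0, p v ∈ ExtR p r → v ∈ r)
    (b2 : ∀ r ∈ cols, ∀ v ∈ V0, p v ∈ ExtC p r → v ∈ r)
    (c1 : ∀ r ∈ rows, ∀ r' ∈ rows, ∀ v ∈ r, v ∈ r' → r = r')
    (c2 : ∀ r ∈ cols, ∀ r' ∈ cols, ∀ v ∈ r, v ∈ r' → r = r')
    (d0 : ∀ e ∈ box, e.1 ≠ e.2)
    (d1 : ∀ e ∈ box, ∀ r ∈ rows, ∀ z ∈ openSegment ℝ (p e.1) (p e.2), z ∉ ExtR p r)
    (d2 : ∀ e ∈ box, ∀ r ∈ cols, ∀ z ∈ openSegment ℝ (p e.1) (p e.2), z ∉ ExtC p r)
    (d3 : ∀ e ∈ box, ∀ v ∈ V0, p v ∉ openSegment ℝ (p e.1) (p e.2))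
    (e1 : ∀ e ∈ box, ∀ f ∈ box, s(e.1, e.2) ≠ s(f.1, f.2) →
      ¬ Cross (p e.1) (p e.2) (p f.1) (p f.2))
    (g : Set.InjOn p V0)
    (h0 : ∀ e ∈ out, e.1 ≠ e.2)
    (h1 : ∀ e ∈ out, ∀ z ∈ openSegment ℝ (p e.1) (p e.2), (∀ r ∈ rows, z ∉ ExtR p r) ∧
      (∀ r ∈ cols, z ∉ ExtC p r) ∧ (∀ v ∈ V0, z ≠ p v) ∧
      ∀ f ∈ box, z ∉ openSegment ℝ (p f.1) (p f.2))
    (h2 : ∀ e ∈ out, ∀ f ∈ out, s(e.1, e.2) ≠ s(f.1, f.2) →
      ¬ Cross (p e.1) (p e.2) (p f.1) (p f.2))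
    (hl : ∀ e ∈ light, (∃ r ∈ rows, e ∈ edg r) ∨ (∃ r ∈ cols, e ∈ edg r) ∨ e ∈ box)
    (hh : ∀ e ∈ heavy, e ∈ box ∨ e ∈ out) :
    CoreDraw (light, heavy) p := by
  have A1 : ∀ r ∈ rows, r.Pairwise fun v w => (p v).1 < (p w).1 := fun r hr => (a1 r hr).1
  have A2 : ∀ r ∈ rows, ∀ v ∈ r, ∀ w ∈ r, (p v).2 = (p w).2 := fun r hr => (a1 r hr).2.1
  have A3 : ∀ r ∈ rows, ∀ v ∈ r, v ∈ V0 := fun r hr => (a1 r hr).2.2
  have B1 : ∀ r ∈ cols, r.Pairwise fun v w => (p v).2 < (p w).2 := fun r hr => (a2 r hr).1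
  have B2 : ∀ r ∈ cols, ∀ v ∈ r, ∀ w ∈ r, (p v).1 = (p w).1 := fun r hr => (a2 r hr).2.1
  have B3 : ∀ r ∈ cols, ∀ v ∈ r, v ∈ V0 := fun r hr => (a2 r hr).2.2
  have onR : ∀ r ∈ rows, ∀ e ∈ edg r, ∀ z ∈ openSegment ℝ (p e.1) (p e.2), z ∈ ExtR p r :=
    fun r hr e he z hz => r3_on r3_c1 (A1 r hr) (A2 r hr) (a := e.1) (b := e.2) he hz
  have onC : ∀ r ∈ cols, ∀ e ∈ edg r, ∀ z ∈ openSegment ℝ (p e.1) (p e.2), z ∈ ExtC p r :=
    fun r hr e he z hz => r3_on r3_c2 (B1 r hr) (B2 r hr) (a := e.1) (b := e.2) he hz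
  have all : ∀ e ∈ light ++ heavy,
      (∃ r ∈ rows, e ∈ edg r) ∨ (∃ r ∈ cols, e ∈ edg r) ∨ e ∈ box ∨ e ∈ out := by
    intro e he
    rcases List.mem_append.mp he with he | he
    · rcases hl e he with h | h | h
      · exact Or.inl h
      · exact Or.inr (Or.inl h)
      · exact Or.inr (Or.inr (Or.inl h))
    · exact Or.inr (Or.inr (hh e he))
  -- crossings
  have key : ∀ e ∈ light ++ heavy, ∀ f ∈ light ++ heavy, s(e.1, e.2) ≠ s(f.1, f.2) →
      Cross (p e.1) (p e.2) (p f.1) (p f.2) →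
      ((∃ r ∈ rows, e ∈ edg r) ∧ (∃ r ∈ cols, f ∈ edg r)) ∨
        ((∃ r ∈ cols, e ∈ edg r) ∧ (∃ r ∈ rows, f ∈ edg r)) := by
    rintro e he f hf hef ⟨z, hz, hz'⟩
    rcases all e he with ⟨r, hr, her⟩ | ⟨r, hr, her⟩ | her | her
    · rcases all f hf with ⟨r', hr', hfr⟩ | ⟨r', hr', hfr⟩ | hfr | hfr
      · obtain ⟨k1, k2⟩ := r3_cross r3_c1 A1 A2 A3 b1 c1 g hr hr' (a := e.1) (b := e.2)
          (c := f.1) (d := f.2) her hfr hz hz'
        exact absurd (by rw [k1, k2]) hef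
      · exact Or.inl ⟨⟨r, hr, her⟩, ⟨r', hr', hfr⟩⟩
      · exact absurd (onR r hr e her z hz) (d1 f hfr r hr z hz')
      · exact absurd (onR r hr e her z hz) ((h1 f hfr z hz').1 r hr)
    · rcases all f hf with ⟨r', hr', hfr⟩ | ⟨r', hr', hfr⟩ | hfr | hfr
      · exact Or.inr ⟨⟨r, hr, her⟩, ⟨r', hr', hfr⟩⟩
      · obtain ⟨k1, k2⟩ := r3_cross r3_c2 B1 B2 B3 b2 c2 g hr hr' (a := e.1) (b := e.2)
          (c := f.1) (d := f.2) her hfr hz hz'
        exact absurd (by rw [k1, k2]) hef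
      · exact absurd (onC r hr e her z hz) (d2 f hfr r hr z hz')
      · exact absurd (onC r hr e her z hz) ((h1 f hfr z hz').2.1 r hr)
    · rcases all f hf with ⟨r', hr', hfr⟩ | ⟨r', hr', hfr⟩ | hfr | hfr
      · exact absurd (onR r' hr' f hfr z hz') (d1 e her r' hr' z hz)
      · exact absurd (onC r' hr' f hfr z hz') (d2 e her r' hr' z hz)
      · exact absurd ⟨z, hz, hz'⟩ (e1 e her f hfr hef)
      · exact absurd hz ((h1 f hfr z hz').2.2.2 e her)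
    · rcases all f hf with ⟨r', hr', hfr⟩ | ⟨r', hr', hfr⟩ | hfr | hfr
      · exact absurd (onR r' hr' f hfr z hz') ((h1 e her z hz).1 r' hr')
      · exact absurd (onC r' hr' f hfr z hz') ((h1 e her z hz).2.1 r' hr')
      · exact absurd hz' ((h1 e her z hz).2.2.2 f hfr)
      · exact absurd ⟨z, hz, hz'⟩ (h2 e her f hfr hef)
  have hin : ∀ e ∈ light ++ heavy, e.1 ∈ V0 ∧ e.2 ∈ V0 := fun e he =>
    ⟨hV _ ⟨e, he, Or.inl rfl⟩, hV _ ⟨e, he, Or.inr rfl⟩⟩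
  refine ⟨fun v hv w hw h => g (hV v hv) (hV w hw) h, ?_, ?_, ?_⟩
  · intro e he v hv hv1 hv2 hseg
    have hvV : v ∈ V0 := hV v hv
    obtain ⟨hE1, hE2⟩ := hin e he
    have ho : p v ∈ openSegment ℝ (p e.1) (p e.2) := by
      rw [← insert_endpoints_openSegment] at hseg
      rcases hseg with h | h | h
      · exact absurd (g hvV hE1 h) hv1
      · exact absurd (g hvV hE2 h) hv2
      · exact h
    rcases all e he with ⟨r, hr, her⟩ | ⟨r, hr, her⟩ | her | her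
    · exact r3_avoid r3_c1 (A1 r hr) (A2 r hr) (b1 r hr) (a := e.1) (b := e.2) her hvV ho
    · exact r3_avoid r3_c2 (B1 r hr) (B2 r hr) (b2 r hr) (a := e.1) (b := e.2) her hvV ho
    · exact d3 e her v hvV ho
    · exact (h1 e her _ ho).2.2.1 v hvV rfl
  · intro e he f hf hef hc
    rcases key e (List.mem_append_left _ he) f (List.mem_append_left _ hf) hef hc with
      ⟨⟨r, hr, her⟩, ⟨r', hr', hfr⟩⟩ | ⟨⟨r, hr, her⟩, ⟨r', hr', hfr⟩⟩
    · left
      have m1 := r3_mem_edg (a := e.1) (b := e.2) her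
      have m2 := r3_mem_edg (a := f.1) (b := f.2) hfr
      exact ⟨A2 r hr _ m1.1 _ m1.2, B2 r' hr' _ m2.1 _ m2.2⟩
    · right
      have m1 := r3_mem_edg (a := e.1) (b := e.2) her
      have m2 := r3_mem_edg (a := f.1) (b := f.2) hfr
      exact ⟨B2 r hr _ m1.1 _ m1.2, A2 r' hr' _ m2.1 _ m2.2⟩
  · rintro e he f hf hef ⟨z, hz, hz'⟩
    rcases hh e he with her | her
    · rcases all f hf with ⟨r', hr', hfr⟩ | ⟨r', hr', hfr⟩ | hfr | hfr
      · exact absurd (onR r' hr' f hfr z hz') (d1 e her r' hr' z hz)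
      · exact absurd (onC r' hr' f hfr z hz') (d2 e her r' hr' z hz)
      · exact absurd ⟨z, hz, hz'⟩ (e1 e her f hfr hef)
      · exact absurd hz ((h1 f hfr z hz').2.2.2 e her)
    · rcases all f hf with ⟨r', hr', hfr⟩ | ⟨r', hr', hfr⟩ | hfr | hfr
      · exact absurd (onR r' hr' f hfr z hz') ((h1 e her z hz).1 r' hr')
      · exact absurd (onC r' hr' f hfr z hz') ((h1 e her z hz).2.1 r' hr')
      · exact absurd hz' ((h1 e her z hz).2.2.2 f hfr)
      · exact absurd ⟨z, hz, hz'⟩ (h2 e her f hfr hef)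

end Pool.Agent.H54R
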