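import Pool.Agent.Lib.H54R.RDefs
import Pool.Agent.Lib.H54R.R4
import Pool.Agent.Lib.H54R.R4B
import Pool.Agent.Lib.H54R.R5
import Pool.Agent.Lib.H54R.R5B
import Pool.Agent.Lib.H54R.R8
import Pool.Agent.Lib.H54R.R7B

/-!
# R8B: box edges and row lines
-/

set_option autoImplicit false

namespace Pool.Agent.H54R

open RS

variable {S : RS} {d : Dat}

theorem r8b_mk {P Q z : Pt} {t : ℝ} (h0 : 0 < t) (h1 : t < 1) (e1 : z.1 = P.1 + t * (Q.1 - P.1))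
    (e2 : z.2 = P.2 + t * (Q.2 - P.2)) : z ∈ openSegment ℝ P Q := by
  refine ⟨1 - t, t, by linarith, h0, by ring, ?_⟩
  refine Prod.ext ?_ ?_
  · simp only [Prod.fst_add, Prod.smul_fst, smul_eq_mul]
    rw [e1]
    ring
  · simp only [Prod.snd_add, Prod.smul_snd, smul_eq_mul]
    rw [e2]
    ring

theorem r8b_vT {P Q y : Pt} (hy : y ∈ openSegment ℝ (vT P) (vT Q)) :
    ((1 - y.2, y.1) : Pt) ∈ openSegment ℝ P Q := by
  obtain ⟨t, h0, h1, e1, e2⟩ := r4_open hy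
  refine r8b_mk h0 h1 ?_ ?_
  · simp only [vT] at e1 e2 ⊢
    rw [e2]
    ring
  · simp only [vT] at e1 e2 ⊢
    rw [e1]

theorem r8b_rt2 {P Q y : Pt} (hy : y ∈ openSegment ℝ (rt2 P) (rt2 Q)) :
    ((1 - y.1, 1 - y.2) : Pt) ∈ openSegment ℝ P Q := by
  obtain ⟨t, h0, h1, e1, e2⟩ := r4_open hy
  refine r8b_mk h0 h1 ?_ ?_
  · simp only [rt2] at e1 e2 ⊢
    rw [e1]
    ring
  · simp only [rt2] at e1 e2 ⊢
    rw [e2]
    ring

theorem r8b_loc (ρ : ℕ) : (d.loc S (0, ρ) 0 = (d.bl S ρ, d.hb S ρ) ∧ d.loc S (0, ρ) 1 = (d.κ ρ, d.hy S ρ) ∧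
    d.loc S (0, ρ) 2 = (d.br S ρ, 1)) ∧ d.loc S (1, ρ) 0 = (d.ul S ρ, 0) ∧
    d.loc S (1, ρ) 1 = (d.κ ρ, d.hz S ρ) ∧ d.loc S (1, ρ) 2 = (d.ur S ρ, d.ht S ρ) := by
  refine ⟨⟨?_, ?_, ?_⟩, ?_, ?_, ?_⟩ <;> simp [Dat.loc]

theorem r8b_loc2 (l c : ℕ) : d.loc S (2, l) c = gateP (d.gL l).c (d.gL l).f (d.gL l).y2 (d.gL l).y (d.gL l).px
    (d.gL l).yu (d.gL l).yc (d.gL l).xw c := by simp [Dat.loc]

theorem r8b_loc3 (l c : ℕ) : d.loc S (3, l) c = vT (gateP 0 (1 - (d.gL l).b) (d.gL l).c (d.gL l).f (d.gL l).px'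
    (d.gL l).yu' (d.gL l).yc' (d.gL l).xw' c) := by simp [Dat.loc]

theorem r8b_loc4 (l c : ℕ) : d.loc S (4, l) c = rt2 (gateP (d.gU l).c (d.gU l).f (d.gU l).y2 (d.gU l).y (d.gU l).px
    (d.gU l).yu (d.gU l).yc (d.gU l).xw c) := by simp [Dat.loc]

theorem r8b_loc5 (l c : ℕ) : d.loc S (5, l) c = rt2 (vT (gateP 0 (1 - (d.gU l).b) (d.gU l).c (d.gU l).f
    (d.gU l).px' (d.gU l).yu' (d.gU l).yc' (d.gU l).xw' c)) := by simp [Dat.loc]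

/-- points of the open edges of the gate of a link -/
structure R8bG (x0 f y2 y px : ℝ) (z1 z2 : ℝ) : Prop where
  a1 : x0 < z1
  a2 : z1 < 1
  a3 : 0 < z2
  a4 : z2 < 1
  a5 : z2 = y2 → z1 < f
  a6 : z2 = y → z1 < px
  a7 : z1 = f → z2 < y2

theorem r8b_gate {x0 f y2 y px yu yc xw : ℝ} (h : GateN x0 f y2 y px yu yc xw) {e : ℕ × ℕ} (he : e ∈ gateE) {z : Pt}
    (hz : z ∈ openSegment ℝ (gateP x0 f y2 y px yu yc xw e.1)
      (gateP x0 f y2 y px yu yc xw e.2)) : R8bG x0 f y2 y px z.1 z.2 := by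
  obtain ⟨h1, h2, h3, h4, h5, h6, h7⟩ := gate_lines h he hz
  refine ⟨h1, h2, h3, h4, fun e => ?_, fun e => ?_, fun e => ?_⟩
  · by_contra hc
    exact h5 ⟨e, not_lt.1 hc⟩
  · by_contra hc
    exact h6 ⟨e, not_lt.1 hc⟩
  · by_contra hc
    exact h7 ⟨e, not_lt.1 hc⟩

/-- points of the open edges of the lower block of a read -/
structure R8bL (bl br hb hy k : ℝ) (z1 z2 : ℝ) : Prop where
  a1 : bl < z1
  a2 : z1 < br
  a3 : hb < z2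
  a4 : z2 < 1
  a5 : z2 = hy → k < z1
  a6 : z1 = k → z2 < hy

structure R8bU (ul ur hz ht k : ℝ) (z1 z2 : ℝ) : Prop where
  a1 : ul < z1
  a2 : z1 < ur
  a3 : 0 < z2
  a4 : z2 < ht
  a5 : z2 = hz → z1 < k
  a6 : z1 = k → hz < z2

theorem r8b_low (h : S.WF) (hd : DatOK S d) {ρ : ℕ} (hρ : ρ < S.R) {f : ℕ × ℕ}
    (hf : f ∈ [((0 : ℕ), (1 : ℕ)), (1, 2), (0, 2)]) {y : Pt} (hy : y ∈ openSegment ℝ (d.loc S (0, ρ) f.1) (d.loc S (0, ρ) f.2)) :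
    R8bL (d.bl S ρ) (d.br S ρ) (d.hb S ρ) (d.hy S ρ) (d.κ ρ) y.1 y.2 := by
  obtain ⟨⟨l0, l1, l2⟩, -⟩ := r8b_loc (S := S) (d := d) ρ
  obtain ⟨a1, a2⟩ := hd.k1 ρ hρ
  obtain ⟨c1, c2, c3, -, c4⟩ := height_low h hd hρ
  have key : ((d.loc S (0, ρ) f.1, d.loc S (0, ρ) f.2) : Pt × Pt) =
      (((d.bl S ρ, d.hb S ρ) : Pt), ((d.κ ρ, d.hy S ρ) : Pt)) ∨
      ((d.loc S (0, ρ) f.1, d.loc S (0, ρ) f.2) : Pt × Pt) =
      (((d.κ ρ, d.hy S ρ) : Pt), ((d.br S ρ, 1) : Pt)) ∨ ((d.loc S (0, ρ) f.1, d.loc S (0, ρ) f.2) : Pt × Pt) =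
      (((d.bl S ρ, d.hb S ρ) : Pt), ((d.br S ρ, 1) : Pt)) := by
    simp only [List.mem_cons, List.not_mem_nil, or_false] at hf
    rcases hf with rfl | rfl | rfl
    · left
      rw [l0, l1]
    · right; left
      rw [l1, l2]
    · right; right
      rw [l0, l2]
  obtain ⟨b1, b2, b3, b4, b5, b6⟩ := read_lines a1 a2 c2 c3 c4 key hy
  refine ⟨b1, b2, b3, b4, fun e => ?_, fun e => ?_⟩
  · by_contra hc
    exact b5 ⟨e, not_lt.1 hc⟩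
  · by_contra hc
    exact b6 ⟨e, not_lt.1 hc⟩

theorem r8b_up (h : S.WF) (hd : DatOK S d) {ρ : ℕ} (hρ : ρ < S.R) {f : ℕ × ℕ}
    (hf : f ∈ [((0 : ℕ), (1 : ℕ)), (1, 2), (0, 2)]) {y : Pt} (hy : y ∈ openSegment ℝ (d.loc S (1, ρ) f.1) (d.loc S (1, ρ) f.2)) :
    R8bU (d.ul S ρ) (d.ur S ρ) (d.hz S ρ) (d.ht S ρ) (d.κ ρ) y.1 y.2 := by
  obtain ⟨-, l0, l1, l2⟩ := r8b_loc (S := S) (d := d) ρ
  obtain ⟨a1, a2⟩ := hd.k2 ρ hρ
  obtain ⟨c1, c2, c3, -, c4⟩ := height_up h hd hρ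
  have key : ((d.loc S (1, ρ) f.1, d.loc S (1, ρ) f.2) : Pt × Pt) =
      (((d.ul S ρ, 0) : Pt), ((d.κ ρ, d.hz S ρ) : Pt)) ∨
      ((d.loc S (1, ρ) f.1, d.loc S (1, ρ) f.2) : Pt × Pt) =
      (((d.κ ρ, d.hz S ρ) : Pt), ((d.ur S ρ, d.ht S ρ) : Pt)) ∨ ((d.loc S (1, ρ) f.1, d.loc S (1, ρ) f.2) : Pt × Pt) =
      (((d.ul S ρ, 0) : Pt), ((d.ur S ρ, d.ht S ρ) : Pt)) := by
    simp only [List.mem_cons, List.not_mem_nil, or_false] at hf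
    rcases hf with rfl | rfl | rfl
    · left
      rw [l0, l1]
    · right; left
      rw [l1, l2]
    · right; right
      rw [l0, l2]
  obtain ⟨b1, b2, b3, b4, b5, b6⟩ := read_lines_up a1 a2 c1 c2 c4 key hy
  refine ⟨b1, b2, b3, b4, fun e => ?_, fun e => ?_⟩
  · by_contra hc
    exact b5 ⟨e, not_lt.1 hc⟩
  · by_contra hc
    exact b6 ⟨e, not_lt.1 hc⟩

theorem r8b_2 (hd : DatOK S d) {l : ℕ} (hl : l < 2 * S.K) {f : ℕ × ℕ} (hf : f ∈ gateE) {y : Pt}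
    (hy : y ∈ openSegment ℝ (d.loc S (2, l) f.1) (d.loc S (2, l) f.2)) :
    R8bG (d.gL l).c (d.gL l).f (d.gL l).y2 (d.gL l).y (d.gL l).px y.1 y.2 := by
  rw [r8b_loc2, r8b_loc2] at hy
  exact r8b_gate (hd.lo l hl).g1 hf hy

theorem r8b_3 (hd : DatOK S d) {l : ℕ} (hl : l < 2 * S.K) {f : ℕ × ℕ} (hf : f ∈ gateE) {y : Pt}
    (hy : y ∈ openSegment ℝ (d.loc S (3, l) f.1) (d.loc S (3, l) f.2)) :
    R8bG 0 (1 - (d.gL l).b) (d.gL l).c (d.gL l).f (d.gL l).px' (1 - y.2) y.1 := by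
  rw [r8b_loc3, r8b_loc3] at hy
  have h1 := (hd.lo l hl).g2
  have h2 := (hd.lo l hl).hb
  rw [← h2] at h1
  exact r8b_gate h1 hf (r8b_vT hy)

theorem r8b_4 (hd : DatOK S d) {l : ℕ} (hl : l < 2 * S.K) {f : ℕ × ℕ} (hf : f ∈ gateE) {y : Pt}
    (hy : y ∈ openSegment ℝ (d.loc S (4, l) f.1) (d.loc S (4, l) f.2)) :
    R8bG (d.gU l).c (d.gU l).f (d.gU l).y2 (d.gU l).y (d.gU l).px (1 - y.1) (1 - y.2) := by
  rw [r8b_loc4, r8b_loc4] at hy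
  exact r8b_gate (hd.up l hl).g1 hf (r8b_rt2 hy)

theorem r8b_5 (hd : DatOK S d) {l : ℕ} (hl : l < 2 * S.K) {f : ℕ × ℕ} (hf : f ∈ gateE) {y : Pt}
    (hy : y ∈ openSegment ℝ (d.loc S (5, l) f.1) (d.loc S (5, l) f.2)) :
    R8bG 0 (1 - (d.gU l).b) (d.gU l).c (d.gU l).f (d.gU l).px' y.2 (1 - y.1) := by
  rw [r8b_loc5, r8b_loc5] at hy
  have h1 := (hd.up l hl).g2
  have h2 := (hd.up l hl).hb
  rw [← h2] at h1
  have h3 := r8b_gate h1 hf (r8b_vT (r8b_rt2 hy))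
  have e : 1 - (1 - y.2) = y.2 := by ring
  simp only [e] at h3
  exact h3

/-- an edge inside a block, at the height of a row line: the line is in the lane of the block -/
theorem r8b_row {b : ℕ × ℕ} {y : Pt} (h1 : 0 < y.2) (h2 : y.2 < 1) {i : ℕ} {t : ℝ} (t0 : 0 ≤ t) (t1 : t ≤ 1)
    (e : 2 * (S.brow b : ℝ) + 1 / 2 + y.2 = 2 * (i : ℝ) + 1 / 2 + t) : S.brow b = i ∧ y.2 = t :=
  r5b_eq h1.le h2.le t0 t1 e

/-- all facts about a point `y` of an open edge of the block `b` -/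
structure R8bZ (S : RS) (d : Dat) (b : ℕ × ℕ) (y : Pt) : Prop where
  y1 : 0 < y.1
  y2 : y.1 < 1
  y3 : 0 < y.2
  y4 : y.2 < 1
  k0 : ∀ ρ, b = (0, ρ) → ρ < S.R ∧ R8bL (d.bl S ρ) (d.br S ρ) (d.hb S ρ) (d.hy S ρ) (d.κ ρ) y.1 y.2
  k1 : ∀ ρ, b = (1, ρ) → ρ < S.R ∧ R8bU (d.ul S ρ) (d.ur S ρ) (d.hz S ρ) (d.ht S ρ) (d.κ ρ) y.1 y.2
  k2 : ∀ l, b = (2, l) → l < 2 * S.K ∧ R8bG (d.gL l).c (d.gL l).f (d.gL l).y2 (d.gL l).y (d.gL l).px y.1 y.2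
  k3 : ∀ l, b = (3, l) → l < 2 * S.K ∧
    R8bG 0 (1 - (d.gL l).b) (d.gL l).c (d.gL l).f (d.gL l).px' (1 - y.2) y.1
  k4 : ∀ l, b = (4, l) → l < 2 * S.K ∧
    R8bG (d.gU l).c (d.gU l).f (d.gU l).y2 (d.gU l).y (d.gU l).px (1 - y.1) (1 - y.2)
  k5 : ∀ l, b = (5, l) → l < 2 * S.K ∧
    R8bG 0 (1 - (d.gU l).b) (d.gU l).c (d.gU l).f (d.gU l).px' y.2 (1 - y.1)

theorem r8b_Z (h : S.WF) (hd : DatOK S d) {b : ℕ × ℕ} (hb : S.binB b 0) {f : ℕ × ℕ} (hf : f ∈ boxC b) {y : Pt}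
    (hy : y ∈ openSegment ℝ (d.loc S b f.1) (d.loc S b f.2)) : R8bZ S d b y := by
  obtain ⟨h1, h2, h3, h4⟩ := box_in h hd hb hf hy
  refine ⟨h1, h2, h3, h4, ?_, ?_, ?_, ?_, ?_, ?_⟩
  · rintro ρ rfl
    rcases hb with ⟨-, hρ, -⟩ | ⟨hg, -⟩
    · exact ⟨hρ, r8b_low h hd hρ hf hy⟩
    · simp at hg
  · rintro ρ rfl
    rcases hb with ⟨-, hρ, -⟩ | ⟨hg, -⟩
    · exact ⟨hρ, r8b_up h hd hρ hf hy⟩
    · simp at hg
  · rintro l rfl
    rcases hb with ⟨hg, -⟩ | ⟨-, -, hl, -⟩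
    · simp at hg
    · exact ⟨hl, r8b_2 hd hl hf hy⟩
  · rintro l rfl
    rcases hb with ⟨hg, -⟩ | ⟨-, -, hl, -⟩
    · simp at hg
    · exact ⟨hl, r8b_3 hd hl hf hy⟩
  · rintro l rfl
    rcases hb with ⟨hg, -⟩ | ⟨-, -, hl, -⟩
    · simp at hg
    · exact ⟨hl, r8b_4 hd hl hf hy⟩
  · rintro l rfl
    rcases hb with ⟨hg, -⟩ | ⟨-, -, hl, -⟩
    · simp at hg
    · exact ⟨hl, r8b_5 hd hl hf hy⟩

theorem r8b_even {m i : ℕ} {t : ℝ} (h0 : 0 < t) (h1 : t < 1) (e : 2 * (m : ℝ) + 1 / 2 + t = 2 * (i : ℝ)) : False := by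
  rcases Nat.lt_or_ge m i with h | h
  · have : (m : ℝ) + 1 ≤ (i : ℝ) := by exact_mod_cast h
    linarith
  · have : (i : ℝ) ≤ (m : ℝ) := by exact_mod_cast h
    linarith

theorem r8b_yb (i : ℕ) : d.yb S (4 * i) = 2 * (i : ℝ) ∧ d.yb S (4 * i + 1) = 2 * (i : ℝ) + 1 / 2 + 0 ∧
    d.yb S (4 * i + 2) = 2 * (i : ℝ) + 1 / 2 + d.cc S i ∧ d.yb S (4 * i + 3) = 2 * (i : ℝ) + 1 / 2 + 1 := by
  have e0 : (4 * i) % 4 = 0 ∧ (4 * i) / 4 = i := by omega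
  have e1 : (4 * i + 1) % 4 = 1 ∧ (4 * i + 1) / 4 = i := by omega
  have e2 : (4 * i + 2) % 4 = 2 ∧ (4 * i + 2) / 4 = i := by omega
  have e3 : (4 * i + 3) % 4 = 3 ∧ (4 * i + 3) / 4 = i := by omega
  refine ⟨?_, ?_, ?_, ?_⟩
  · unfold Dat.yb
    rw [e0.1, e0.2]
    simp
  · unfold Dat.yb
    rw [e1.1, e1.2]
    norm_num
  · unfold Dat.yb
    rw [e2.1, e2.2]
    norm_num
    ring
  · unfold Dat.yb
    rw [e3.1, e3.2]
    norm_num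
    ring

theorem r8b_hb (ρ : ℕ) (hh : S.hatL ρ = false) : d.hb S ρ = 0 ∧ d.hy S ρ = d.l ρ := by
  unfold Dat.hb Dat.hy
  rw [hh]
  simp

theorem r8b_hb' (ρ : ℕ) (hh : S.hatL ρ = true) : d.hb S ρ = (d.gL (lkL ρ)).y2 ∧ d.hy S ρ = (d.gL (lkL ρ)).y := by
  unfold Dat.hb Dat.hy
  rw [if_pos hh, if_pos hh]
  exact ⟨rfl, rfl⟩

theorem r8b_ht (ρ : ℕ) (hh : S.hatU ρ = false) : d.ht S ρ = 1 ∧ d.hz S ρ = d.u ρ := by
  unfold Dat.ht Dat.hz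
  rw [hh]
  simp

theorem r8b_ht' (ρ : ℕ) (hh : S.hatU ρ = true) : d.ht S ρ = 1 - (d.gU (lkU ρ)).y2 ∧
    d.hz S ρ = 1 - (d.gU (lkU ρ)).y := by
  unfold Dat.ht Dat.hz
  rw [if_pos hh, if_pos hh]
  exact ⟨rfl, rfl⟩

theorem r8b_rB {i : ℕ} {v : (ℕ × ℕ) × ℕ} (hv : v ∈ S.rB i) : (d.loc S v.1 v.2).2 = 0 := by
  unfold rB at hv
  split_ifs at hv with g1 g2 g3 g4
  · rw [List.mem_singleton] at hv
    rw [hv, r8b_loc2]
    rfl
  · simp only [List.mem_cons, List.not_mem_nil, or_false] at hv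
    rcases hv with rfl | rfl
    · rw [r8b_loc3]
      show 1 - (1 : ℝ) = 0
      norm_num
    · rw [(r8b_loc _).1.1]
      exact (r8b_hb _ (Bool.eq_false_iff.2 g2)).1
  · simp only [List.mem_cons, List.not_mem_nil, or_false] at hv
    rcases hv with rfl | rfl
    · rw [(r8b_loc _).2.1]
    · rw [r8b_loc4]
      show 1 - (1 : ℝ) = 0
      norm_num
  · simp only [List.mem_cons, List.not_mem_nil, or_false] at hv
    rcases hv with rfl | rfl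
    · rw [(r8b_loc _).2.1]
    · rw [r8b_loc5]
      show 1 - (1 - (0 : ℝ)) = 0
      norm_num
  · simp at hv

theorem r8b_rT {i : ℕ} {v : (ℕ × ℕ) × ℕ} (hv : v ∈ S.rT i) : (d.loc S v.1 v.2).2 = 1 := by
  unfold rT at hv
  split_ifs at hv with g1 g2 g3 g4
  · simp only [List.mem_cons, List.not_mem_nil, or_false] at hv
    rcases hv with rfl | rfl
    · rw [r8b_loc2]
      rfl
    · rw [(r8b_loc _).1.2.2]
  · simp only [List.mem_cons, List.not_mem_nil, or_false] at hv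
    rcases hv with rfl | rfl
    · rw [r8b_loc3]
      show 1 - (0 : ℝ) = 1
      norm_num
    · rw [(r8b_loc _).1.2.2]
  · rw [List.mem_singleton] at hv
    rw [hv, r8b_loc4]
    show 1 - (0 : ℝ) = 1
    norm_num
  · simp only [List.mem_cons, List.not_mem_nil, or_false] at hv
    rcases hv with rfl | rfl
    · rw [(r8b_loc _).2.2.2]
      exact (r8b_ht _ (Bool.eq_false_iff.2 g4)).1
    · rw [r8b_loc5]
      show 1 - (1 - (1 : ℝ)) = 1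
      norm_num
  · simp at hv

theorem r8b_gt {a b : ℝ} {g : Gt} (hg : GtOK a b g) : 0 < g.y2 ∧ g.y2 < g.y ∧ g.y < 1 ∧ 0 < g.c ∧ g.c < g.px ∧
    g.px < g.f ∧ g.f < 1 ∧ g.c < 1 ∧ 0 < g.px' ∧ g.px' < 1 := by
  have h1 := hg.g1
  have h2 := hg.g2
  have h3 := hg.hc
  refine ⟨by linarith [h1.h5, h1.h6], h1.h7, by linarith [h1.h8, h1.h9], h3, h1.h1, h1.h2,
    by linarith [h1.h3, h1.h4], by linarith [h1.h1, h1.h2, h1.h3, h1.h4], h2.h1,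
    by linarith [h2.h2, h2.h3, h2.h4]⟩

/-- companion line of a lower lane -/
theorem r8b_C1 (h : S.WF) (hd : DatOK S d) {b : ℕ × ℕ} {y : Pt} (hb : S.binB b 0) (Z : R8bZ S d b y) {i : ℕ} {a : Vx}
    (g1 : (S.role i).1 = 1) (g2 : S.hatL (S.role i).2 = true) (hi : i < S.MM)
    (ha : a ∈ [Vx.blk (2, lkL (S.role i).2) 2, .blk (0, (S.role i).2) 0, .R (4 * i + 2)])
    (h1 : (d.pos S a).1 ≤ 2 * (S.bcol b : ℝ) + 1 / 2 + y.1)
    (h3 : 2 * (S.brow b : ℝ) + 1 / 2 + y.2 = (d.pos S a).2) : False := by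
  obtain ⟨hρ, hlow⟩ := role_one h (Prod.ext g1 rfl : S.role i = (1, (S.role i).2))
  have hcc : d.cc S i = (d.gL (lkL (S.role i).2)).y2 := by
    unfold Dat.cc
    rw [if_pos ⟨g1, g2⟩]
  generalize (S.role i).2 = ρ at *
  have hl := lkL_lt h hρ
  have hA := c3_hatA g2
  obtain ⟨q1, q2, q3, q4, q5, q6, q7, q8, -, -⟩ := r8b_gt (hd.lo _ hl)
  have hrow2 : S.brow (2, lkL ρ) = i := by rw [r5b_row2, hA, hlow]
  have hlane := lane_ge h hρ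
  have hlan' : ((lkL ρ : ℕ) : ℝ) + 1 ≤ (S.lane ρ : ℝ) := by exact_mod_cast (lt_of_lt_of_le hl hlane)
  have key : (d.pos S a).2 = 2 * (i : ℝ) + 1 / 2 + (d.gL (lkL ρ)).y2 ∧
      2 * ((lkL ρ : ℕ) : ℝ) + 1 / 2 + (d.gL (lkL ρ)).f ≤ (d.pos S a).1 := by
    simp only [List.mem_cons, List.not_mem_nil, or_false] at ha
    rcases ha with rfl | rfl | rfl
    · rw [r7b_blk, hrow2, r5b_col2, r8b_loc2]
      exact ⟨rfl, le_rfl⟩
    · rw [r7b_blk, r5b_row0, r5b_col0, hlow, (r8b_loc ρ).1.1, (r8b_hb' ρ g2).1]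
      refine ⟨rfl, ?_⟩
      have h5 := (bord01 h hd hρ).1
      show _ ≤ 2 * (S.lane ρ : ℝ) + 1 / 2 + d.bl S ρ
      linarith
    · refine ⟨?_, ?_⟩
      · show d.yb S (4 * i + 2) = _
        rw [(r8b_yb i).2.2.1, hcc]
      · show _ ≤ 2 * (S.NN : ℝ) + 1
        have h5 : (S.lane ρ : ℝ) + 1 ≤ (S.NN : ℝ) := by
          have h6 := lane_lt h hρ
          have h7 : S.lane ρ < S.NN := by
            unfold rlane at h6
            unfold NN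
            omega
          exact_mod_cast h7
        linarith
  rw [key.1] at h3
  obtain ⟨e1, e2⟩ := r8b_row Z.y3 Z.y4 (by linarith) (by linarith) h3
  rcases brow_low h hb hρ (e1.trans hlow.symm) with rfl | ⟨rfl, -⟩ | ⟨-, h5⟩
  · have h6 := (Z.k0 ρ rfl).2.a3
    rw [(r8b_hb' ρ g2).1, e2] at h6
    exact lt_irrefl _ h6
  · have h6 := (Z.k2 _ rfl).2.a5 e2
    rw [r5b_col2] at h1
    linarith [key.2]
  · rw [g2] at h5
    exact absurd h5 (by decide)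

/-- companion line of an upper lane -/
theorem r8b_C2 (h : S.WF) (hd : DatOK S d) {b : ℕ × ℕ} {y : Pt} (hb : S.binB b 0) (Z : R8bZ S d b y) {i : ℕ} {a a' : Vx}
    (g1 : (S.role i).1 = 2) (g2 : S.hatU (S.role i).2 = true) (hi : i < S.MM)
    (ha : a ∈ [Vx.L (4 * i + 2), .blk (1, (S.role i).2) 2, .blk (4, lkU (S.role i).2) 2])
    (ha' : a' ∈ [Vx.L (4 * i + 2), .blk (1, (S.role i).2) 2, .blk (4, lkU (S.role i).2) 2])
    (h1 : 2 * (S.bcol b : ℝ) + 1 / 2 + y.1 ≤ (d.pos S a').1)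
    (h3 : 2 * (S.brow b : ℝ) + 1 / 2 + y.2 = (d.pos S a).2) : False := by
  obtain ⟨hρ, hlow⟩ := role_two h (Prod.ext g1 rfl : S.role i = (2, (S.role i).2))
  have hcc : d.cc S i = 1 - (d.gU (lkU (S.role i).2)).y2 := by
    unfold Dat.cc
    rw [if_neg (by omega), if_pos ⟨g1, g2⟩]
  generalize (S.role i).2 = ρ at *
  have hl := lkU_lt h hρ
  have hA := c3_hatA' g2
  obtain ⟨q1, q2, q3, q4, q5, q6, q7, q8, -, -⟩ := r8b_gt (hd.up _ hl)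
  have hrow2 : S.brow (4, lkU ρ) = i := by rw [r5b_row4, hA, hlow]
  have hlane := lane_lt h hρ
  have hlan' : (S.lane ρ : ℝ) + 1 ≤ (S.rlane (lkU ρ) : ℝ) := by
    have : S.lane ρ < S.rlane (lkU ρ) := by
      unfold rlane at hlane ⊢
      omega
    exact_mod_cast this
  have key : ∀ a, a ∈ [Vx.L (4 * i + 2), .blk (1, ρ) 2, .blk (4, lkU ρ) 2] →
      (d.pos S a).2 = 2 * (i : ℝ) + 1 / 2 + (1 - (d.gU (lkU ρ)).y2) ∧
      (d.pos S a).1 ≤ 2 * (S.rlane (lkU ρ) : ℝ) + 1 / 2 + (1 - (d.gU (lkU ρ)).f) := by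
    intro a ha
    simp only [List.mem_cons, List.not_mem_nil, or_false] at ha
    rcases ha with rfl | rfl | rfl
    · refine ⟨?_, ?_⟩
      · show d.yb S (4 * i + 2) = _
        rw [(r8b_yb i).2.2.1, hcc]
      · show (-1 : ℝ) ≤ _
        have h5 : (0 : ℝ) ≤ (S.rlane (lkU ρ) : ℝ) := Nat.cast_nonneg _
        linarith
    · rw [r7b_blk, r5b_row1, r5b_col1, hlow, (r8b_loc ρ).2.2.2, (r8b_ht' ρ g2).1]
      refine ⟨rfl, ?_⟩
      have h5 := (bord01 h hd hρ).2.2.2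
      show 2 * (S.lane ρ : ℝ) + 1 / 2 + d.ur S ρ ≤ _
      linarith
    · rw [r7b_blk, hrow2, r5b_col4, r8b_loc4]
      exact ⟨rfl, le_rfl⟩
  rw [(key a ha).1] at h3
  obtain ⟨e1, e2⟩ := r8b_row Z.y3 Z.y4 (by linarith) (by linarith) h3
  rcases brow_upr h hb hρ (e1.trans hlow.symm) with rfl | ⟨rfl, -⟩ | ⟨-, h5⟩
  · have h6 := (Z.k1 ρ rfl).2.a4
    rw [(r8b_ht' ρ g2).1, e2] at h6
    exact lt_irrefl _ h6
  · have h6 := (Z.k4 _ rfl).2.a5 (by linarith)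
    rw [r5b_col4] at h1
    linarith [(key a' ha').2]
  · rw [g2] at h5
    exact absurd h5 (by decide)

/-- wire of a lower lane with companion -/
theorem r8b_W1 (h : S.WF) (hd : DatOK S d) {b : ℕ × ℕ} {y : Pt} (hb : S.binB b 0) (Z : R8bZ S d b y) {i : ℕ} {a a' : Vx}
    (g1 : (S.role i).1 = 1) (g2 : S.hatL (S.role i).2 = true)
    (ha : a ∈ [Vx.blk (2, lkL (S.role i).2) 5, .blk (0, (S.role i).2) 1])
    (ha' : a' ∈ [Vx.blk (2, lkL (S.role i).2) 5, .blk (0, (S.role i).2) 1])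
    (h1 : (d.pos S a).1 ≤ 2 * (S.bcol b : ℝ) + 1 / 2 + y.1)
    (h2 : 2 * (S.bcol b : ℝ) + 1 / 2 + y.1 ≤ (d.pos S a').1)
    (h3 : 2 * (S.brow b : ℝ) + 1 / 2 + y.2 = (d.pos S a).2) : False := by
  obtain ⟨hρ, hlow⟩ := role_one h (Prod.ext g1 rfl : S.role i = (1, (S.role i).2))
  generalize (S.role i).2 = ρ at *
  have hl := lkL_lt h hρ
  have hA := c3_hatA g2
  obtain ⟨q1, q2, q3, q4, q5, q6, q7, q8, -, -⟩ := r8b_gt (hd.lo _ hl)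
  have hrow2 : S.brow (2, lkL ρ) = i := by rw [r5b_row2, hA, hlow]
  have hlane := lane_ge h hρ
  have hlan' : ((lkL ρ : ℕ) : ℝ) + 1 ≤ (S.lane ρ : ℝ) := by exact_mod_cast (lt_of_lt_of_le hl hlane)
  have hk := hd.k1 ρ hρ
  have h5 := bord01 h hd hρ
  have key : ∀ a, a ∈ [Vx.blk (2, lkL ρ) 5, .blk (0, ρ) 1] →
      (d.pos S a).2 = 2 * (i : ℝ) + 1 / 2 + (d.gL (lkL ρ)).y ∧
      2 * ((lkL ρ : ℕ) : ℝ) + 1 / 2 + (d.gL (lkL ρ)).px ≤ (d.pos S a).1 ∧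
      (d.pos S a).1 ≤ 2 * (S.lane ρ : ℝ) + 1 / 2 + d.κ ρ := by
    intro a ha
    simp only [List.mem_cons, List.not_mem_nil, or_false] at ha
    rcases ha with rfl | rfl
    · rw [r7b_blk, hrow2, r5b_col2, r8b_loc2]
      refine ⟨rfl, le_rfl, ?_⟩
      show 2 * ((lkL ρ : ℕ) : ℝ) + 1 / 2 + (d.gL (lkL ρ)).px ≤ _
      linarith
    · rw [r7b_blk, r5b_row0, r5b_col0, hlow, (r8b_loc ρ).1.2.1, (r8b_hb' ρ g2).2]
      refine ⟨rfl, ?_, le_rfl⟩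
      show _ ≤ 2 * (S.lane ρ : ℝ) + 1 / 2 + d.κ ρ
      linarith
  rw [(key a ha).1] at h3
  obtain ⟨e1, e2⟩ := r8b_row Z.y3 Z.y4 (by linarith) (by linarith) h3
  rcases brow_low h hb hρ (e1.trans hlow.symm) with rfl | ⟨rfl, -⟩ | ⟨-, h5⟩
  · have h6 := (Z.k0 ρ rfl).2.a5 (by rw [e2, (r8b_hb' ρ g2).2])
    rw [r5b_col0] at h2
    linarith [(key a' ha').2.2]
  · have h6 := (Z.k2 _ rfl).2.a6 e2
    rw [r5b_col2] at h1
    linarith [(key a ha).2.1]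
  · rw [g2] at h5
    exact absurd h5 (by decide)

/-- wire of a lower lane without companion -/
theorem r8b_W2 (h : S.WF) (hd : DatOK S d) {b : ℕ × ℕ} {y : Pt} (hb : S.binB b 0) (Z : R8bZ S d b y) {i : ℕ} {a a' : Vx}
    (g1 : (S.role i).1 = 1) (g2 : S.hatL (S.role i).2 = false)
    (ha : a ∈ [Vx.blk (3, lkL (S.role i).2) 2, .blk (3, lkL (S.role i).2) 3, .blk (0, (S.role i).2) 1])
    (ha' : a' ∈ [Vx.blk (3, lkL (S.role i).2) 2, .blk (3, lkL (S.role i).2) 3, .blk (0, (S.role i).2) 1])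
    (h1 : (d.pos S a).1 ≤ 2 * (S.bcol b : ℝ) + 1 / 2 + y.1)
    (h2 : 2 * (S.bcol b : ℝ) + 1 / 2 + y.1 ≤ (d.pos S a').1)
    (h3 : 2 * (S.brow b : ℝ) + 1 / 2 + y.2 = (d.pos S a).2) : False := by
  obtain ⟨hρ, hlow⟩ := role_one h (Prod.ext g1 rfl : S.role i = (1, (S.role i).2))
  generalize (S.role i).2 = ρ at *
  have hl := lkL_lt h hρ
  have hA := c3_hatB (Bool.eq_false_iff.1 g2)
  have hg2' := (hd.lo _ hl).g2
  obtain ⟨q1, q2, q3, q4, q5, q6, q7, q8, -, -⟩ := r8b_gt (hd.lo _ hl)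
  have hbb : (d.gL (lkL ρ)).b = d.l ρ := by rw [(hd.lo _ hl).hb, hA]
  have hl01 := hd.l01 ρ hρ
  have hrow2 : S.brow (3, lkL ρ) = i := by rw [r5b_row3, hA, hlow]
  have hlane := lane_ge h hρ
  have hlan' : ((lkL ρ : ℕ) : ℝ) + 1 ≤ (S.lane ρ : ℝ) := by exact_mod_cast (lt_of_lt_of_le hl hlane)
  have hk := hd.k1 ρ hρ
  have h5 := bord01 h hd hρ
  have key : ∀ a, a ∈ [Vx.blk (3, lkL ρ) 2, .blk (3, lkL ρ) 3, .blk (0, ρ) 1] →
      (d.pos S a).2 = 2 * (i : ℝ) + 1 / 2 + d.l ρ ∧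
      2 * ((lkL ρ : ℕ) : ℝ) + 1 / 2 + (d.gL (lkL ρ)).c ≤ (d.pos S a).1 ∧
      (d.pos S a).1 ≤ 2 * (S.lane ρ : ℝ) + 1 / 2 + d.κ ρ := by
    intro a ha
    simp only [List.mem_cons, List.not_mem_nil, or_false] at ha
    rcases ha with rfl | rfl | rfl
    · rw [r7b_blk, hrow2, r5b_col3, r8b_loc3]
      refine ⟨?_, le_rfl, ?_⟩
      · show 2 * (i : ℝ) + 1 / 2 + (1 - (1 - (d.gL (lkL ρ)).b)) = _
        rw [hbb]
        ring
      · show 2 * ((lkL ρ : ℕ) : ℝ) + 1 / 2 + (d.gL (lkL ρ)).c ≤ _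
        linarith
    · rw [r7b_blk, hrow2, r5b_col3, r8b_loc3]
      refine ⟨?_, ?_, ?_⟩
      · show 2 * (i : ℝ) + 1 / 2 + (1 - (1 - (d.gL (lkL ρ)).b)) = _
        rw [hbb]
        ring
      · show _ ≤ 2 * ((lkL ρ : ℕ) : ℝ) + 1 / 2 + (d.gL (lkL ρ)).yu'
        linarith [hg2'.h7, hg2'.h8]
      · show 2 * ((lkL ρ : ℕ) : ℝ) + 1 / 2 + (d.gL (lkL ρ)).yu' ≤ _
        linarith [hg2'.h9]
    · rw [r7b_blk, r5b_row0, r5b_col0, hlow, (r8b_loc ρ).1.2.1, (r8b_hb ρ g2).2]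
      refine ⟨rfl, ?_, le_rfl⟩
      show _ ≤ 2 * (S.lane ρ : ℝ) + 1 / 2 + d.κ ρ
      linarith
  rw [(key a ha).1] at h3
  obtain ⟨e1, e2⟩ := r8b_row Z.y3 Z.y4 (by linarith) (by linarith) h3
  rcases brow_low h hb hρ (e1.trans hlow.symm) with rfl | ⟨-, h5⟩ | ⟨rfl, -⟩
  · have h6 := (Z.k0 ρ rfl).2.a5 (by rw [e2, (r8b_hb ρ g2).2])
    rw [r5b_col0] at h2
    linarith [(key a' ha').2.2]
  · rw [g2] at h5
    exact absurd h5 (by decide)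
  · have h6 := (Z.k3 _ rfl).2.a7 (by rw [e2, hbb])
    rw [r5b_col3] at h1
    linarith [(key a ha).2.1]

/-- wire of an upper lane with companion -/
theorem r8b_W3 (h : S.WF) (hd : DatOK S d) {b : ℕ × ℕ} {y : Pt} (hb : S.binB b 0) (Z : R8bZ S d b y) {i : ℕ} {a a' : Vx}
    (g1 : (S.role i).1 = 2) (g2 : S.hatU (S.role i).2 = true)
    (ha : a ∈ [Vx.blk (1, (S.role i).2) 1, .blk (4, lkU (S.role i).2) 5])
    (ha' : a' ∈ [Vx.blk (1, (S.role i).2) 1, .blk (4, lkU (S.role i).2) 5])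
    (h1 : (d.pos S a).1 ≤ 2 * (S.bcol b : ℝ) + 1 / 2 + y.1)
    (h2 : 2 * (S.bcol b : ℝ) + 1 / 2 + y.1 ≤ (d.pos S a').1)
    (h3 : 2 * (S.brow b : ℝ) + 1 / 2 + y.2 = (d.pos S a).2) : False := by
  obtain ⟨hρ, hlow⟩ := role_two h (Prod.ext g1 rfl : S.role i = (2, (S.role i).2))
  generalize (S.role i).2 = ρ at *
  have hl := lkU_lt h hρ
  have hA := c3_hatA' g2
  obtain ⟨q1, q2, q3, q4, q5, q6, q7, q8, -, -⟩ := r8b_gt (hd.up _ hl)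
  have hrow2 : S.brow (4, lkU ρ) = i := by rw [r5b_row4, hA, hlow]
  have hlane := lane_lt h hρ
  have hlan' : (S.lane ρ : ℝ) + 1 ≤ (S.rlane (lkU ρ) : ℝ) := by
    have : S.lane ρ < S.rlane (lkU ρ) := by
      unfold rlane at hlane ⊢
      omega
    exact_mod_cast this
  have hk := hd.k1 ρ hρ
  have h5 := bord01 h hd hρ
  have key : ∀ a, a ∈ [Vx.blk (1, ρ) 1, .blk (4, lkU ρ) 5] →
      (d.pos S a).2 = 2 * (i : ℝ) + 1 / 2 + (1 - (d.gU (lkU ρ)).y) ∧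
      2 * (S.lane ρ : ℝ) + 1 / 2 + d.κ ρ ≤ (d.pos S a).1 ∧
      (d.pos S a).1 ≤ 2 * (S.rlane (lkU ρ) : ℝ) + 1 / 2 + (1 - (d.gU (lkU ρ)).px) := by
    intro a ha
    simp only [List.mem_cons, List.not_mem_nil, or_false] at ha
    rcases ha with rfl | rfl
    · rw [r7b_blk, r5b_row1, r5b_col1, hlow, (r8b_loc ρ).2.2.1, (r8b_ht' ρ g2).2]
      refine ⟨rfl, le_rfl, ?_⟩
      show 2 * (S.lane ρ : ℝ) + 1 / 2 + d.κ ρ ≤ _
      linarith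
    · rw [r7b_blk, hrow2, r5b_col4, r8b_loc4]
      refine ⟨rfl, ?_, le_rfl⟩
      show _ ≤ 2 * (S.rlane (lkU ρ) : ℝ) + 1 / 2 + (1 - (d.gU (lkU ρ)).px)
      linarith
  rw [(key a ha).1] at h3
  obtain ⟨e1, e2⟩ := r8b_row Z.y3 Z.y4 (by linarith) (by linarith) h3
  rcases brow_upr h hb hρ (e1.trans hlow.symm) with rfl | ⟨rfl, -⟩ | ⟨-, h5⟩
  · have h6 := (Z.k1 ρ rfl).2.a5 (by rw [e2, (r8b_ht' ρ g2).2])
    rw [r5b_col1] at h1
    linarith [(key a ha).2.1]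
  · have h6 := (Z.k4 _ rfl).2.a6 (by linarith)
    rw [r5b_col4] at h2
    linarith [(key a' ha').2.2]
  · rw [g2] at h5
    exact absurd h5 (by decide)

/-- wire of an upper lane without companion -/
theorem r8b_W4 (h : S.WF) (hd : DatOK S d) {b : ℕ × ℕ} {y : Pt} (hb : S.binB b 0) (Z : R8bZ S d b y) {i : ℕ} {a a' : Vx}
    (g1 : (S.role i).1 = 2) (g2 : S.hatU (S.role i).2 = false)
    (ha : a ∈ [Vx.blk (1, (S.role i).2) 1, .blk (5, lkU (S.role i).2) 3, .blk (5, lkU (S.role i).2) 2])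
    (ha' : a' ∈ [Vx.blk (1, (S.role i).2) 1, .blk (5, lkU (S.role i).2) 3, .blk (5, lkU (S.role i).2) 2])
    (h1 : (d.pos S a).1 ≤ 2 * (S.bcol b : ℝ) + 1 / 2 + y.1)
    (h2 : 2 * (S.bcol b : ℝ) + 1 / 2 + y.1 ≤ (d.pos S a').1)
    (h3 : 2 * (S.brow b : ℝ) + 1 / 2 + y.2 = (d.pos S a).2) : False := by
  obtain ⟨hρ, hlow⟩ := role_two h (Prod.ext g1 rfl : S.role i = (2, (S.role i).2))
  generalize (S.role i).2 = ρ at *
  have hl := lkU_lt h hρ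
  have hA := c3_hatB' (Bool.eq_false_iff.1 g2)
  have hg2' := (hd.up _ hl).g2
  obtain ⟨q1, q2, q3, q4, q5, q6, q7, q8, -, -⟩ := r8b_gt (hd.up _ hl)
  have hbb : 1 - (d.gU (lkU ρ)).b = d.u ρ := by rw [(hd.up _ hl).hb, hA]; ring
  have hl01 := hd.u01 ρ hρ
  have hrow2 : S.brow (5, lkU ρ) = i := by rw [r5b_row5, hA, hlow]
  have hlane := lane_lt h hρ
  have hlan' : (S.lane ρ : ℝ) + 1 ≤ (S.rlane (lkU ρ) : ℝ) := by
    have : S.lane ρ < S.rlane (lkU ρ) := by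
      unfold rlane at hlane ⊢
      omega
    exact_mod_cast this
  have hk := hd.k1 ρ hρ
  have h5 := bord01 h hd hρ
  have key : ∀ a, a ∈ [Vx.blk (1, ρ) 1, .blk (5, lkU ρ) 3, .blk (5, lkU ρ) 2] →
      (d.pos S a).2 = 2 * (i : ℝ) + 1 / 2 + d.u ρ ∧
      2 * (S.lane ρ : ℝ) + 1 / 2 + d.κ ρ ≤ (d.pos S a).1 ∧
      (d.pos S a).1 ≤ 2 * (S.rlane (lkU ρ) : ℝ) + 1 / 2 + (1 - (d.gU (lkU ρ)).c) := by
    intro a ha
    simp only [List.mem_cons, List.not_mem_nil, or_false] at ha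
    rcases ha with rfl | rfl | rfl
    · rw [r7b_blk, r5b_row1, r5b_col1, hlow, (r8b_loc ρ).2.2.1, (r8b_ht ρ g2).2]
      refine ⟨rfl, le_rfl, ?_⟩
      show 2 * (S.lane ρ : ℝ) + 1 / 2 + d.κ ρ ≤ _
      linarith
    · rw [r7b_blk, hrow2, r5b_col5, r8b_loc5]
      refine ⟨?_, ?_, ?_⟩
      · show 2 * (i : ℝ) + 1 / 2 + (1 - (1 - (1 - (d.gU (lkU ρ)).b))) = _
        rw [← hbb]
        ring
      · show _ ≤ 2 * (S.rlane (lkU ρ) : ℝ) + 1 / 2 + (1 - (d.gU (lkU ρ)).yu')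
        linarith [hg2'.h9]
      · show 2 * (S.rlane (lkU ρ) : ℝ) + 1 / 2 + (1 - (d.gU (lkU ρ)).yu') ≤ _
        linarith [hg2'.h7, hg2'.h8]
    · rw [r7b_blk, hrow2, r5b_col5, r8b_loc5]
      refine ⟨?_, ?_, le_rfl⟩
      · show 2 * (i : ℝ) + 1 / 2 + (1 - (1 - (1 - (d.gU (lkU ρ)).b))) = _
        rw [← hbb]
        ring
      · show _ ≤ 2 * (S.rlane (lkU ρ) : ℝ) + 1 / 2 + (1 - (d.gU (lkU ρ)).c)
        linarith
  rw [(key a ha).1] at h3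
  obtain ⟨e1, e2⟩ := r8b_row Z.y3 Z.y4 (by linarith) (by linarith) h3
  rcases brow_upr h hb hρ (e1.trans hlow.symm) with rfl | ⟨-, h5⟩ | ⟨rfl, -⟩
  · have h6 := (Z.k1 ρ rfl).2.a5 (by rw [e2, (r8b_ht ρ g2).2])
    rw [r5b_col1] at h1
    linarith [(key a ha).2.1]
  · rw [g2] at h5
    exact absurd h5 (by decide)
  · have h6 := (Z.k5 _ rfl).2.a7 (by rw [e2, hbb])
    rw [r5b_col5] at h2
    linarith [(key a' ha').2.2]

theorem box_rows (h : S.WF) (hd : DatOK S d) : ∀ e ∈ S.boxE, ∀ r ∈ S.rows,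
    ∀ z ∈ openSegment ℝ (d.pos S e.1) (d.pos S e.2), z ∉ ExtR (d.pos S) r := by
  rintro e he r hr z hz ⟨a, ha, a', ha', h1, h2, h3⟩
  obtain ⟨b, hb, f, hf, rfl⟩ := (mem_boxE h).1 he
  obtain ⟨y, hy, rfl⟩ := box_local hz
  have Z := r8b_Z h hd hb hf hy
  change (d.pos S a).1 ≤ 2 * (S.bcol b : ℝ) + 1 / 2 + y.1 at h1
  change 2 * (S.bcol b : ℝ) + 1 / 2 + y.1 ≤ (d.pos S a').1 at h2
  change 2 * (S.brow b : ℝ) + 1 / 2 + y.2 = (d.pos S a).2 at h3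
  unfold rows at hr
  rw [List.mem_append, List.mem_map, List.mem_flatMap] at hr
  rcases hr with ⟨i, hi, rfl⟩ | ⟨i, hi, hr⟩
  · have e1 : (d.pos S a).2 = 2 * (i : ℝ) := by
      simp only [List.mem_cons, List.not_mem_nil, or_false] at ha
      rcases ha with rfl | rfl
      · exact (r8b_yb i).1
      · exact (r8b_yb i).1
    rw [e1] at h3
    exact r8b_even Z.y3 Z.y4 h3
  · have hi' : i < S.MM := List.mem_range.1 hi
    simp only [List.mem_cons, List.not_mem_nil, or_false] at hr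
    rcases hr with rfl | rfl | rfl | rfl
    · have e1 : (d.pos S a).2 = 2 * (i : ℝ) + 1 / 2 + 0 := by
        simp only [List.cons_append, List.mem_cons, List.mem_append, List.not_mem_nil, or_false] at ha
        rcases ha with rfl | ha | rfl
        · exact (r8b_yb i).2.1
        · obtain ⟨v, hv, rfl⟩ := List.mem_map.1 ha
          rw [r7b_blk, r8b_rB hv, (c3_rB h hv).2]
        · exact (r8b_yb i).2.1
      rw [e1] at h3
      have h4 := (r8b_row Z.y3 Z.y4 le_rfl zero_le_one h3).2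
      have h5 := Z.y3
      linarith
    · have e1 : (d.pos S a).2 = 2 * (i : ℝ) + 1 / 2 + 1 := by
        simp only [List.cons_append, List.mem_cons, List.mem_append, List.not_mem_nil, or_false] at ha
        rcases ha with rfl | ha | rfl
        · exact (r8b_yb i).2.2.2
        · obtain ⟨v, hv, rfl⟩ := List.mem_map.1 ha
          rw [r7b_blk, r8b_rT hv, (c3_rT h hv).2]
        · exact (r8b_yb i).2.2.2
      rw [e1] at h3
      have h4 := (r8b_row Z.y3 Z.y4 zero_le_one le_rfl h3).2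
      have h5 := Z.y4
      linarith
    · unfold rC at ha ha'
      split_ifs at ha ha' with g1 g2
      · exact r8b_C1 h hd hb Z g1.1 g1.2 hi' ha h1 h3
      · exact r8b_C2 h hd hb Z g2.1 g2.2 hi' ha ha' h2 h3
      · simp at ha
    · unfold rW at ha ha'
      split_ifs at ha ha' with g1 g2 g3 g4
      · exact r8b_W1 h hd hb Z g1 g2 ha ha' h1 h2 h3
      · exact r8b_W2 h hd hb Z g1 (Bool.eq_false_iff.2 g2) ha ha' h1 h2 h3
      · exact r8b_W3 h hd hb Z g3 g4 ha ha' h1 h2 h3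
      · exact r8b_W4 h hd hb Z g3 (Bool.eq_false_iff.2 g4) ha ha' h1 h2 h3
      · simp at ha

end Pool.Agent.H54R
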