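import Pool.Agent.Lib.H54R.RDefs
import Pool.Agent.Lib.H54R.R4
import Pool.Agent.Lib.H54R.R4B
import Pool.Agent.Lib.H54R.R5
import Pool.Agent.Lib.H54R.R5B
import Pool.Agent.Lib.H54R.R7B
import Pool.Agent.Lib.H54R.R8
import Pool.Agent.Lib.H54R.R8B

/-!
# R8C: box edges and column lines
-/

set_option autoImplicit false

namespace Pool.Agent.H54R

open RS

variable {S : RS} {d : Dat}

theorem r8c_xb (j : ℕ) : d.xb S (4 * j) = 2 * (j : ℝ) ∧ d.xb S (4 * j + 1) = 2 * (j : ℝ) + 1 / 2 + 0 ∧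
    d.xb S (4 * j + 2) = 2 * (j : ℝ) + 1 / 2 + d.dd S j ∧ d.xb S (4 * j + 3) = 2 * (j : ℝ) + 1 / 2 + 1 := by
  have e0 : (4 * j) % 4 = 0 ∧ (4 * j) / 4 = j := by omega
  have e1 : (4 * j + 1) % 4 = 1 ∧ (4 * j + 1) / 4 = j := by omega
  have e2 : (4 * j + 2) % 4 = 2 ∧ (4 * j + 2) / 4 = j := by omega
  have e3 : (4 * j + 3) % 4 = 3 ∧ (4 * j + 3) / 4 = j := by omega
  refine ⟨?_, ?_, ?_, ?_⟩
  · unfold Dat.xb
    rw [e0.1, e0.2]
    simp
  · unfold Dat.xb
    rw [e1.1, e1.2]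
    norm_num
  · unfold Dat.xb
    rw [e2.1, e2.2]
    norm_num
    ring
  · unfold Dat.xb
    rw [e3.1, e3.2]
    norm_num
    ring

theorem r8c_cL (h : S.WF) (hd : DatOK S d) {j : ℕ} (hj : j < S.NN) {v : (ℕ × ℕ) × ℕ} (hv : v ∈ S.cL j) :
    (d.loc S v.1 v.2).1 = 0 := by
  obtain ⟨hb, hcol⟩ := c4_cL h hj hv
  by_cases h1 : j < 2 * S.K
  · unfold cL at hv
    rw [if_pos h1, List.mem_singleton] at hv
    rw [hv, r8b_loc3]
    rfl
  · by_cases h2 : S.rlane 0 ≤ j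
    · unfold cL at hv
      rw [if_neg h1, if_pos h2] at hv
      simp only [List.mem_cons, List.not_mem_nil, or_false] at hv
      rcases hv with rfl | rfl
      · rw [r8b_loc5]
        show 1 - (1 : ℝ) = 0
        norm_num
      · rw [r8b_loc4]
        show 1 - (1 : ℝ) = 0
        norm_num
    · obtain ⟨ρ, g, e4, hg, hc, hρ, hl⟩ := r7b_blocks h (by omega) (by omega) hb hcol
      rw [e4, r7b_left h hd hρ hg hc, hl, ← e4]
      exact hv

theorem r8c_cR (h : S.WF) (hd : DatOK S d) {j : ℕ} (hj : j < S.NN) {v : (ℕ × ℕ) × ℕ} (hv : v ∈ S.cR j) :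
    (d.loc S v.1 v.2).1 = 1 := by
  obtain ⟨hb, hcol⟩ := c4_cR h hj hv
  by_cases h1 : j < 2 * S.K
  · unfold cR at hv
    rw [if_pos h1] at hv
    simp only [List.mem_cons, List.not_mem_nil, or_false] at hv
    rcases hv with rfl | rfl
    · rw [r8b_loc2]
      rfl
    · rw [r8b_loc3]
      rfl
  · by_cases h2 : S.rlane 0 ≤ j
    · unfold cR at hv
      rw [if_neg h1, if_pos h2, List.mem_singleton] at hv
      rw [hv, r8b_loc5]
      show 1 - (0 : ℝ) = 1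
      norm_num
    · obtain ⟨ρ, g, e4, hg, hc, hρ, hl⟩ := r7b_blocks h (by omega) (by omega) hb hcol
      rw [e4, r7b_right h hd hρ hg hc, hl, ← e4]
      exact hv

/-- companion line of a left link lane -/
theorem r8c_C1 (h : S.WF) (hd : DatOK S d) {b : ℕ × ℕ} {y : Pt} (hb : S.binB b 0) (Z : R8bZ S d b y) {j : ℕ} {a a' : Vx}
    (hj : j < 2 * S.K) (ha : a ∈ [Vx.B (4 * j + 2), .blk (2, j) 0, .blk (3, j) 2])
    (ha' : a' ∈ [Vx.B (4 * j + 2), .blk (2, j) 0, .blk (3, j) 2])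
    (h2 : 2 * (S.brow b : ℝ) + 1 / 2 + y.2 ≤ (d.pos S a').2)
    (h3 : 2 * (S.bcol b : ℝ) + 1 / 2 + y.1 = (d.pos S a).1) : False := by
  obtain ⟨q1, q2, q3, q4, q5, q6, q7, q8, -, -⟩ := r8b_gt (hd.lo _ hj)
  have hdd : d.dd S j = (d.gL j).c := by
    unfold Dat.dd
    rw [if_pos hj]
  have hAB : ((S.low (S.loA j) : ℕ) : ℝ) + 1 ≤ (S.low (S.loB j) : ℝ) := by exact_mod_cast loA_lt_loB h hj
  have hb0 := hd.l01 _ (loB_lt h hj)
  rw [← (hd.lo _ hj).hb] at hb0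
  have key : ∀ a, a ∈ [Vx.B (4 * j + 2), .blk (2, j) 0, .blk (3, j) 2] →
      (d.pos S a).1 = 2 * (j : ℝ) + 1 / 2 + (d.gL j).c ∧
      (d.pos S a).2 ≤ 2 * (S.low (S.loB j) : ℝ) + 1 / 2 + (d.gL j).b := by
    intro a ha
    simp only [List.mem_cons, List.not_mem_nil, or_false] at ha
    rcases ha with rfl | rfl | rfl
    · refine ⟨?_, ?_⟩
      · show d.xb S (4 * j + 2) = _
        rw [(r8c_xb j).2.2.1, hdd]
      · show (-1 : ℝ) ≤ _
        have h5 : (0 : ℝ) ≤ (S.low (S.loB j) : ℝ) := Nat.cast_nonneg _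
        linarith
    · rw [r7b_blk, r5b_row2, r5b_col2, r8b_loc2]
      refine ⟨rfl, ?_⟩
      show 2 * (S.low (S.loA j) : ℝ) + 1 / 2 + 0 ≤ _
      linarith
    · rw [r7b_blk, r5b_row3, r5b_col3, r8b_loc3]
      refine ⟨rfl, ?_⟩
      show 2 * (S.low (S.loB j) : ℝ) + 1 / 2 + (1 - (1 - (d.gL j).b)) ≤ _
      linarith
  rw [(key a ha).1] at h3
  obtain ⟨e1, e2⟩ := r5b_eq Z.y1.le Z.y2.le q4.le q8.le h3
  rcases bcol_left h hb hj e1 with rfl | rfl
  · have h6 := (Z.k2 _ rfl).2.a1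
    rw [e2] at h6
    exact lt_irrefl _ h6
  · have h6 := (Z.k3 _ rfl).2.a5 e2
    rw [r5b_row3] at h2
    linarith [(key a' ha').2]

/-- companion line of a right link lane -/
theorem r8c_C2 (h : S.WF) (hd : DatOK S d) {b : ℕ × ℕ} {y : Pt} (hb : S.binB b 0) (Z : R8bZ S d b y) {l : ℕ} {a : Vx}
    (hl : l < 2 * S.K) (ha : a ∈ [Vx.blk (5, l) 2, .blk (4, l) 0, .T (4 * S.rlane l + 2)])
    (h1 : (d.pos S a).2 ≤ 2 * (S.brow b : ℝ) + 1 / 2 + y.2)
    (h3 : 2 * (S.bcol b : ℝ) + 1 / 2 + y.1 = (d.pos S a).1) : False := by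
  obtain ⟨q1, q2, q3, q4, q5, q6, q7, q8, -, -⟩ := r8b_gt (hd.up _ hl)
  have hdd : d.dd S (S.rlane l) = 1 - (d.gU l).c := by
    unfold Dat.dd
    have e1 : ¬ S.rlane l < 2 * S.K := by unfold rlane; omega
    have e2 : S.rlane 0 ≤ S.rlane l := by unfold rlane; omega
    have e3 : S.rlane l - S.rlane 0 = l := by unfold rlane; omega
    rw [if_neg e1, if_pos e2, e3]
  have hAB : ((S.upr (S.upB l) : ℕ) : ℝ) + 1 ≤ (S.upr (S.upA l) : ℝ) := by exact_mod_cast upB_lt_upA h hl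
  have hAM : (S.upr (S.upA l) : ℝ) + 1 ≤ (S.MM : ℝ) := by exact_mod_cast upr_lt h (upA_lt h hl)
  have hb0 := hd.u01 _ (upB_lt h hl)
  have hbb := (hd.up _ hl).hb
  have key : (d.pos S a).1 = 2 * (S.rlane l : ℝ) + 1 / 2 + (1 - (d.gU l).c) ∧
      2 * (S.upr (S.upB l) : ℝ) + 1 / 2 + (1 - (d.gU l).b) ≤ (d.pos S a).2 := by
    simp only [List.mem_cons, List.not_mem_nil, or_false] at ha
    rcases ha with rfl | rfl | rfl
    · rw [r7b_blk, r5b_row5, r5b_col5, r8b_loc5]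
      refine ⟨rfl, ?_⟩
      show _ ≤ 2 * (S.upr (S.upB l) : ℝ) + 1 / 2 + (1 - (1 - (1 - (d.gU l).b)))
      linarith
    · rw [r7b_blk, r5b_row4, r5b_col4, r8b_loc4]
      refine ⟨rfl, ?_⟩
      show _ ≤ 2 * (S.upr (S.upA l) : ℝ) + 1 / 2 + (1 - 0)
      rw [hbb]
      linarith
    · refine ⟨?_, ?_⟩
      · show d.xb S (4 * S.rlane l + 2) = _
        rw [(r8c_xb _).2.2.1, hdd]
      · show _ ≤ 2 * (S.MM : ℝ) + 1
        rw [hbb]
        linarith
  rw [key.1] at h3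
  obtain ⟨e1, e2⟩ := r5b_eq Z.y1.le Z.y2.le (by linarith) (by linarith) h3
  rcases bcol_right h hb hl e1 with rfl | rfl
  · have h6 := (Z.k4 _ rfl).2.a1
    rw [e2] at h6
    linarith
  · have h6 := (Z.k5 _ rfl).2.a5 (by linarith)
    rw [r5b_row5] at h1
    linarith [key.2]

/-- main line of a left link lane -/
theorem r8c_f1 (h : S.WF) (hd : DatOK S d) {b : ℕ × ℕ} {y : Pt} (hb : S.binB b 0) (Z : R8bZ S d b y) {j : ℕ} {a a' : Vx}
    (hj : j < 2 * S.K) (ha : a ∈ [Vx.blk (2, j) 2, .blk (2, j) 3, .blk (3, j) 5])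
    (ha' : a' ∈ [Vx.blk (2, j) 2, .blk (2, j) 3, .blk (3, j) 5])
    (h1 : (d.pos S a).2 ≤ 2 * (S.brow b : ℝ) + 1 / 2 + y.2)
    (h2 : 2 * (S.brow b : ℝ) + 1 / 2 + y.2 ≤ (d.pos S a').2)
    (h3 : 2 * (S.bcol b : ℝ) + 1 / 2 + y.1 = (d.pos S a).1) : False := by
  obtain ⟨q1, q2, q3, q4, q5, q6, q7, q8, q9, q10⟩ := r8b_gt (hd.lo _ hj)
  have hg1 := (hd.lo _ hj).g1
  have hAB : ((S.low (S.loA j) : ℕ) : ℝ) + 1 ≤ (S.low (S.loB j) : ℝ) := by exact_mod_cast loA_lt_loB h hj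
  have key : ∀ a, a ∈ [Vx.blk (2, j) 2, .blk (2, j) 3, .blk (3, j) 5] →
      (d.pos S a).1 = 2 * (j : ℝ) + 1 / 2 + (d.gL j).f ∧
      2 * (S.low (S.loA j) : ℝ) + 1 / 2 + (d.gL j).y2 ≤ (d.pos S a).2 ∧
      (d.pos S a).2 ≤ 2 * (S.low (S.loB j) : ℝ) + 1 / 2 + (1 - (d.gL j).px') := by
    intro a ha
    simp only [List.mem_cons, List.not_mem_nil, or_false] at ha
    rcases ha with rfl | rfl | rfl
    · rw [r7b_blk, r5b_row2, r5b_col2, r8b_loc2]
      refine ⟨rfl, le_rfl, ?_⟩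
      show 2 * (S.low (S.loA j) : ℝ) + 1 / 2 + (d.gL j).y2 ≤ _
      linarith
    · rw [r7b_blk, r5b_row2, r5b_col2, r8b_loc2]
      refine ⟨rfl, ?_, ?_⟩
      · show _ ≤ 2 * (S.low (S.loA j) : ℝ) + 1 / 2 + (d.gL j).yu
        linarith [hg1.h8]
      · show 2 * (S.low (S.loA j) : ℝ) + 1 / 2 + (d.gL j).yu ≤ _
        linarith [hg1.h9]
    · rw [r7b_blk, r5b_row3, r5b_col3, r8b_loc3]
      refine ⟨rfl, ?_, le_rfl⟩
      show _ ≤ 2 * (S.low (S.loB j) : ℝ) + 1 / 2 + (1 - (d.gL j).px')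
      linarith
  rw [(key a ha).1] at h3
  obtain ⟨e1, e2⟩ := r5b_eq Z.y1.le Z.y2.le (by linarith) q7.le h3
  rcases bcol_left h hb hj e1 with rfl | rfl
  · have h6 := (Z.k2 _ rfl).2.a7 e2
    rw [r5b_row2] at h1
    linarith [(key a ha).2.1]
  · have h6 := (Z.k3 _ rfl).2.a6 e2
    rw [r5b_row3] at h2
    linarith [(key a' ha').2.2]

/-- main line of a right link lane -/
theorem r8c_f2 (h : S.WF) (hd : DatOK S d) {b : ℕ × ℕ} {y : Pt} (hb : S.binB b 0) (Z : R8bZ S d b y) {l : ℕ} {a a' : Vx}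
    (hl : l < 2 * S.K) (ha : a ∈ [Vx.blk (5, l) 5, .blk (4, l) 3, .blk (4, l) 2])
    (ha' : a' ∈ [Vx.blk (5, l) 5, .blk (4, l) 3, .blk (4, l) 2])
    (h1 : (d.pos S a).2 ≤ 2 * (S.brow b : ℝ) + 1 / 2 + y.2)
    (h2 : 2 * (S.brow b : ℝ) + 1 / 2 + y.2 ≤ (d.pos S a').2)
    (h3 : 2 * (S.bcol b : ℝ) + 1 / 2 + y.1 = (d.pos S a).1) : False := by
  obtain ⟨q1, q2, q3, q4, q5, q6, q7, q8, q9, q10⟩ := r8b_gt (hd.up _ hl)
  have hg1 := (hd.up _ hl).g1
  have hAB : ((S.upr (S.upB l) : ℕ) : ℝ) + 1 ≤ (S.upr (S.upA l) : ℝ) := by exact_mod_cast upB_lt_upA h hl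
  have key : ∀ a, a ∈ [Vx.blk (5, l) 5, .blk (4, l) 3, .blk (4, l) 2] →
      (d.pos S a).1 = 2 * (S.rlane l : ℝ) + 1 / 2 + (1 - (d.gU l).f) ∧
      2 * (S.upr (S.upB l) : ℝ) + 1 / 2 + (d.gU l).px' ≤ (d.pos S a).2 ∧
      (d.pos S a).2 ≤ 2 * (S.upr (S.upA l) : ℝ) + 1 / 2 + (1 - (d.gU l).y2) := by
    intro a ha
    simp only [List.mem_cons, List.not_mem_nil, or_false] at ha
    rcases ha with rfl | rfl | rfl
    · rw [r7b_blk, r5b_row5, r5b_col5, r8b_loc5]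
      refine ⟨rfl, ?_, ?_⟩
      · show _ ≤ 2 * (S.upr (S.upB l) : ℝ) + 1 / 2 + (1 - (1 - (d.gU l).px'))
        linarith
      · show 2 * (S.upr (S.upB l) : ℝ) + 1 / 2 + (1 - (1 - (d.gU l).px')) ≤ _
        linarith
    · rw [r7b_blk, r5b_row4, r5b_col4, r8b_loc4]
      refine ⟨rfl, ?_, ?_⟩
      · show _ ≤ 2 * (S.upr (S.upA l) : ℝ) + 1 / 2 + (1 - (d.gU l).yu)
        linarith [hg1.h9]
      · show 2 * (S.upr (S.upA l) : ℝ) + 1 / 2 + (1 - (d.gU l).yu) ≤ _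
        linarith [hg1.h8]
    · rw [r7b_blk, r5b_row4, r5b_col4, r8b_loc4]
      refine ⟨rfl, ?_, le_rfl⟩
      show _ ≤ 2 * (S.upr (S.upA l) : ℝ) + 1 / 2 + (1 - (d.gU l).y2)
      linarith
  rw [(key a ha).1] at h3
  obtain ⟨e1, e2⟩ := r5b_eq Z.y1.le Z.y2.le (by linarith) (by linarith) h3
  rcases bcol_right h hb hl e1 with rfl | rfl
  · have h6 := (Z.k4 _ rfl).2.a7 (by linarith)
    rw [r5b_row4] at h2
    linarith [(key a' ha').2.2]
  · have h6 := (Z.k5 _ rfl).2.a6 (by linarith)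
    rw [r5b_row5] at h1
    linarith [(key a ha).2.1]

theorem r8c_low {ρ : ℕ} : (S.kd ρ = 0 ∨ S.kd ρ = 1 ∨ S.kd ρ = 4 → S.low ρ = ρ ∧ S.upr ρ = 2 * S.R - 1 - ρ) ∧
    (S.kd ρ = 2 ∨ S.kd ρ = 3 → S.low ρ = 2 * S.R + ρ ∧ S.upr ρ = 4 * S.R - 1 - ρ) :=
  ⟨fun e => c4_in e, fun e => c4_out e⟩

/-- members of the variable line -/
theorem r8c_cX (h : S.WF) (hd : DatOK S d) {a : Vx} {j : ℕ} (ha : a ∈ S.cX j) : ∃ σ, σ < S.R ∧ S.kd σ ≠ 0 ∧
    S.lane σ = j ∧ (d.pos S a).1 = 2 * (j : ℝ) + 1 / 2 + d.xv S σ ∧ 2 * (S.R : ℝ) ≤ (d.pos S a).2 ∧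
      (d.pos S a).2 < 6 * (S.R : ℝ) := by
  obtain ⟨l, hl, -, hb⟩ := cX_sorted h j
  rw [hl] at ha
  obtain ⟨v, hv, rfl⟩ := List.mem_map.1 ha
  have hv' : Vx.blk v.1 v.2 ∈ S.cX j := by
    rw [hl]
    exact ha
  obtain ⟨ρ, g, e4, hg, hc, hρ, hk, hlan⟩ := r7b_mem_cX hv'
  have hx : (d.loc S (g, ρ) v.2).1 = d.xv S ρ := by
    rw [r7b_X h hd hρ hg hc hk, hlan, ← e4]
    exact hv'
  have hbin := hb v hv
  obtain ⟨b1, b2, b3, b4⟩ := blk_mem h hd hbin
  have hrow : S.R ≤ S.brow v.1 ∧ S.brow v.1 < 3 * S.R := by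
    have hm := (mem_cX h hρ (c := v.2) (g := g)).1 (by rw [hlan, ← e4]; exact hv')
    rw [e4]
    have hh := r8c_low (S := S) (ρ := ρ)
    rcases hm with ⟨rfl, -, k⟩ | ⟨rfl, -, k⟩ | ⟨rfl, -, k⟩ | ⟨rfl, -, k⟩
    · rw [r5b_row1, (hh.1 (by omega)).2]
      omega
    · rw [r5b_row1, (hh.1 (by omega)).2]
      omega
    · rw [r5b_row0, (hh.2 (by omega)).1]
      omega
    · rw [r5b_row0, (hh.2 (by omega)).1]
      omega
  refine ⟨ρ, hρ, hk, hlan, ?_, ?_, ?_⟩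
  · rw [r7b_blk, e4, hx]
    show 2 * (S.bcol (g, ρ) : ℝ) + 1 / 2 + d.xv S ρ = _
    have : S.bcol (g, ρ) = j := by
      unfold bcol
      rw [if_pos (by omega)]
      exact hlan
    rw [this]
  · have : (S.R : ℝ) ≤ (S.brow v.1 : ℝ) := by exact_mod_cast hrow.1
    linarith
  · have : (S.brow v.1 : ℝ) + 1 ≤ 3 * (S.R : ℝ) := by exact_mod_cast hrow.2
    linarith

/-- the variable line -/
theorem r8c_X (h : S.WF) (hd : DatOK S d) {b : ℕ × ℕ} {y : Pt} (hb : S.binB b 0) (Z : R8bZ S d b y) {j : ℕ} {a a' : Vx}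
    (ha : a ∈ S.cX j) (ha' : a' ∈ S.cX j)
    (h1 : (d.pos S a).2 ≤ 2 * (S.brow b : ℝ) + 1 / 2 + y.2)
    (h2 : 2 * (S.brow b : ℝ) + 1 / 2 + y.2 ≤ (d.pos S a').2)
    (h3 : 2 * (S.bcol b : ℝ) + 1 / 2 + y.1 = (d.pos S a).1) : False := by
  obtain ⟨σ, hσ, hkσ, hlσ, x1, x2, -⟩ := r8c_cX h hd ha
  obtain ⟨-, -, -, -, -, -, x3⟩ := r8c_cX h hd ha'
  obtain ⟨u1, u2⟩ := xv01 (S := S) hd σ
  rw [x1] at h3
  obtain ⟨e1, e2⟩ := r5b_eq Z.y1.le Z.y2.le u1.le u2.le h3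
  have hj1 : 2 * S.K ≤ j := by
    rw [← hlσ]
    exact lane_ge h hσ
  have hj2 : j < S.rlane 0 := by
    rw [← hlσ]
    exact lane_lt h hσ
  obtain ⟨ρ, g, e4, hg, -, hρ, hlan⟩ := r7b_blocks h hj1 hj2 hb e1
  have hxx : d.xv S ρ = d.xv S σ := xv_eq h hσ hρ hkσ (hlan.trans hlσ.symm)
  have hk := r7b_kd h hσ hρ hkσ (hlan.trans hlσ.symm)
  have t := r7b_tab h hd hρ
  have hh := r8c_low (S := S) (ρ := ρ)
  have z3 := Z.y3
  have z4 := Z.y4
  have hR : (ρ : ℝ) + 1 ≤ (S.R : ℝ) := by exact_mod_cast hρ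
  have lowrow : S.low ρ = ρ → b = (0, ρ) → False := by
    intro e5 e6
    rw [e6, r5b_row0, e5] at h1
    linarith
  have uprow : S.upr ρ = 4 * S.R - 1 - ρ → b = (1, ρ) → False := by
    intro e5 e6
    have e7 : 3 * S.R ≤ S.upr ρ := by omega
    have e8 : 3 * (S.R : ℝ) ≤ (S.upr ρ : ℝ) := by exact_mod_cast e7
    rw [e6, r5b_row1] at h2
    linarith
  have hg' : g = 0 ∨ g = 1 := by omega
  rcases hg' with rfl | rfl
  · have L := (Z.k0 ρ e4).2
    have l1 := L.a1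
    have l2 := L.a2
    rcases t with t | t | t | t | t
    · exact hk t.1
    · exact lowrow (hh.1 (by omega)).1 e4
    · rw [t.2.1] at l1
      linarith
    · rw [t.2.2.1] at l2
      linarith
    · exact lowrow (hh.1 (by omega)).1 e4
  · have L := (Z.k1 ρ e4).2
    have l1 := L.a1
    have l2 := L.a2
    rcases t with t | t | t | t | t
    · exact hk t.1
    · rw [t.2.2.2.2.1] at l2
      linarith
    · exact uprow (hh.2 (by omega)).2 e4
    · exact uprow (hh.2 (by omega)).2 e4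
    · rw [t.2.2.2.1] at l1
      linarith

/-- members of the line `k` of a read -/
theorem r8c_ck (h : S.WF) (hd : DatOK S d) {σ : ℕ} (hσ : σ < S.R) {a : Vx} (ha : a ∈ S.ck σ) :
    (d.pos S a).1 = 2 * (S.lane σ : ℝ) + 1 / 2 + d.κ σ ∧
    2 * (S.low σ : ℝ) + 1 / 2 + d.hy S σ ≤ (d.pos S a).2 ∧
    (d.pos S a).2 ≤ 2 * (S.upr σ : ℝ) + 1 / 2 + d.hz S σ := by
  obtain ⟨p1, p2, p3, -, -⟩ := height_low h hd hσ
  obtain ⟨p4, p5, p6, -, -⟩ := height_up h hd hσ
  have hlu : (S.low σ : ℝ) + 1 ≤ (S.upr σ : ℝ) := by exact_mod_cast low_lt_upr h hσ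
  have inner : ∀ τ, τ ∈ S.nxt σ → ∀ g ≤ 1, ∀ c < 3, (d.loc S (g, τ) c).1 = d.κ σ → (S.kd σ = 3 ∨ S.kd σ = 4) →
      (d.pos S (.blk (g, τ) c)).1 = 2 * (S.lane σ : ℝ) + 1 / 2 + d.κ σ ∧
      2 * (S.low σ : ℝ) + 1 / 2 + d.hy S σ ≤ (d.pos S (.blk (g, τ) c)).2 ∧
      (d.pos S (.blk (g, τ) c)).2 ≤ 2 * (S.upr σ : ℝ) + 1 / 2 + d.hz S σ := by
    intro τ hτ g hg c hc hx hkk
    obtain ⟨⟨g1, g2, g3, g4⟩, -⟩ := mem_nxt.1 hτ
    have hbin : S.binB (g, τ) c := Or.inl ⟨hg, g1, hc⟩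
    obtain ⟨-, -, b3, b4⟩ := blk_mem h hd hbin
    have hcol : S.bcol (g, τ) = S.lane σ := by
      unfold bcol
      rw [if_pos (by omega)]
      exact g3
    have hlow : S.low σ < S.low τ ∧ S.upr τ < S.upr σ := by
      have e1 := r8c_low (S := S) (ρ := σ)
      have e2 := r8c_low (S := S) (ρ := τ)
      rcases hkk with k | k
      · have e3 := e1.2 (Or.inr k)
        have e4 := e2.2 (Or.inr (g2.trans k))
        omega
      · have e3 := e1.1 (Or.inr (Or.inr k))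
        have e4 := e2.1 (Or.inr (Or.inr (g2.trans k)))
        omega
    have hlt := low_lt_upr h g1
    have hrow : S.low σ + 1 ≤ S.brow (g, τ) ∧ S.brow (g, τ) + 1 ≤ S.upr σ := by
      have hg' : g = 0 ∨ g = 1 := by omega
      rcases hg' with rfl | rfl
      · rw [r5b_row0]
        omega
      · rw [r5b_row1]
        omega
    have r1 : (S.low σ : ℝ) + 1 ≤ (S.brow (g, τ) : ℝ) := by exact_mod_cast hrow.1
    have r2 : (S.brow (g, τ) : ℝ) + 1 ≤ (S.upr σ : ℝ) := by exact_mod_cast hrow.2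
    refine ⟨?_, by linarith, by linarith⟩
    rw [r7b_blk, hcol, hx]
  unfold ck at ha
  rw [List.mem_append, List.mem_append, List.mem_singleton, List.mem_singleton] at ha
  rcases ha with (rfl | ha) | rfl
  · rw [r7b_blk, r5b_row0, r5b_col0, (r8b_loc σ).1.2.1]
    refine ⟨rfl, le_rfl, ?_⟩
    show 2 * (S.low σ : ℝ) + 1 / 2 + d.hy S σ ≤ _
    linarith
  · split_ifs at ha with k3 k4
    · obtain ⟨τ, hτ, ha⟩ := List.mem_flatMap.1 ha
      have hτ' := mem_nxt.1 hτ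
      have hp : S.prv τ = some σ := (prv_nxt hτ'.1.1).2 hτ
      have kτ : S.kd τ = 3 := hτ'.1.2.1.trans k3
      have t := r7b_tab h hd hτ'.1.1
      have hcb := r5_cb_some (d := d) hp
      simp only [List.mem_cons, List.not_mem_nil, or_false] at ha
      rcases ha with rfl | rfl
      · refine inner τ hτ 0 (by omega) 0 (by omega) ?_ (Or.inl k3)
        rw [(r7b_loc τ).1]
        rcases t with t | t | t | t | t
        · omega
        · omega
        · omega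
        · rw [t.2.1, hcb]
        · omega
      · refine inner τ hτ 1 (by omega) 0 (by omega) ?_ (Or.inl k3)
        rw [(r7b_loc τ).2.2.2.1]
        rcases t with t | t | t | t | t
        · omega
        · omega
        · omega
        · rw [t.2.2.2.1, hcb]
        · omega
    · obtain ⟨τ, hτ, ha⟩ := List.mem_flatMap.1 ha
      have hτ' := mem_nxt.1 hτ
      have hp : S.prv τ = some σ := (prv_nxt hτ'.1.1).2 hτ
      have kτ : S.kd τ = 4 := hτ'.1.2.1.trans k4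
      have t := r7b_tab h hd hτ'.1.1
      have hcb := r5_cb_some (d := d) hp
      simp only [List.mem_cons, List.not_mem_nil, or_false] at ha
      rcases ha with rfl | rfl
      · refine inner τ hτ 0 (by omega) 2 (by omega) ?_ (Or.inr k4)
        rw [(r7b_loc τ).2.2.1]
        rcases t with t | t | t | t | t
        · omega
        · omega
        · omega
        · omega
        · rw [t.2.2.1, hcb]
      · refine inner τ hτ 1 (by omega) 2 (by omega) ?_ (Or.inr k4)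
        rw [(r7b_loc τ).2.2.2.2.2]
        rcases t with t | t | t | t | t
        · omega
        · omega
        · omega
        · omega
        · rw [t.2.2.2.2.1, hcb]
    · simp at ha
  · rw [r7b_blk, r5b_row1, r5b_col1, (r8b_loc σ).2.2.1]
    refine ⟨rfl, ?_, le_rfl⟩
    show _ ≤ 2 * (S.upr σ : ℝ) + 1 / 2 + d.hz S σ
    linarith

/-- reads of kind 1 or 2 in the same lane with the same kind are equal -/
theorem r8c_uniq (h : S.WF) {ρ σ : ℕ} (hρ : ρ < S.R) (hσ : σ < S.R) (hk : S.kd ρ = S.kd σ)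
    (h12 : S.kd σ = 1 ∨ S.kd σ = 2) (hl : S.lane ρ = S.lane σ) : ρ = σ := by
  obtain ⟨oa, la, la'⟩ := op_div h hσ h12
  obtain ⟨ob, lb, lb'⟩ := op_div h hρ (by rw [hk]; exact h12)
  rw [hl] at ob
  rcases h12 with h1 | h1
  · obtain ⟨u, -, hu⟩ := h.divE (S.lane σ - 6 * S.K) (by omega)
    rw [hu ρ ⟨hρ, kd_even (Or.inl (hk.trans h1)), ob⟩, hu σ ⟨hσ, kd_even (Or.inl h1), oa⟩]
  · obtain ⟨u, -, hu⟩ := h.divO (S.lane σ - 6 * S.K) (by omega)
    rw [hu ρ ⟨hρ, kd_odd (Or.inl (hk.trans h1)), ob⟩, hu σ ⟨hσ, kd_odd (Or.inl h1), oa⟩]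

/-- the line `k` of a read -/
theorem r8c_k (h : S.WF) (hd : DatOK S d) {b : ℕ × ℕ} {y : Pt} (hb : S.binB b 0) (Z : R8bZ S d b y) {σ : ℕ} {a a' : Vx}
    (hσ : σ < S.R) (ha : a ∈ S.ck σ) (ha' : a' ∈ S.ck σ)
    (h1 : (d.pos S a).2 ≤ 2 * (S.brow b : ℝ) + 1 / 2 + y.2)
    (h2 : 2 * (S.brow b : ℝ) + 1 / 2 + y.2 ≤ (d.pos S a').2)
    (h3 : 2 * (S.bcol b : ℝ) + 1 / 2 + y.1 = (d.pos S a).1) : False := by
  obtain ⟨x1, x2, -⟩ := r8c_ck h hd hσ ha
  obtain ⟨-, -, x3⟩ := r8c_ck h hd hσ ha'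
  obtain ⟨k1, k2⟩ := hd.k1 σ hσ
  obtain ⟨b1, b2, -, -⟩ := bord01 h hd hσ
  obtain ⟨p1, p2, p3, -, -⟩ := height_low h hd hσ
  obtain ⟨p4, p5, p6, -, -⟩ := height_up h hd hσ
  rw [x1] at h3
  obtain ⟨e1, e2⟩ := r5b_eq Z.y1.le Z.y2.le (by linarith) (by linarith) h3
  obtain ⟨ρ, g, e4, hg, -, hρ, hlan⟩ := r7b_blocks h (lane_ge h hσ) (lane_lt h hσ) hb e1
  have z3 := Z.y3
  have z4 := Z.y4
  have hg' : g = 0 ∨ g = 1 := by omega
  by_cases hrs : ρ = σ
  · subst hrs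
    rcases hg' with rfl | rfl
    · have L := (Z.k0 ρ e4).2.a6 e2
      rw [e4, r5b_row0] at h1
      linarith
    · have L := (Z.k1 ρ e4).2.a6 e2
      rw [e4, r5b_row1] at h2
      linarith
  · -- the row of the block is strictly between the rows of `σ`
    have hrow : S.low σ ≤ S.brow b ∧ S.brow b ≤ S.upr σ := by
      refine ⟨?_, ?_⟩
      · by_contra hc
        have : (S.brow b : ℝ) + 1 ≤ (S.low σ : ℝ) := by exact_mod_cast not_le.1 hc
        linarith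
      · by_contra hc
        have : (S.upr σ : ℝ) + 1 ≤ (S.brow b : ℝ) := by exact_mod_cast not_le.1 hc
        linarith
    have eσ := r8c_low (S := S) (ρ := σ)
    have eρ := r8c_low (S := S) (ρ := ρ)
    have hbr : S.brow b = S.low ρ ∨ S.brow b = S.upr ρ := by
      rcases hg' with rfl | rfl
      · left
        rw [e4, r5b_row0]
      · right
        rw [e4, r5b_row1]
    have kρ := S.kd_le ρ
    have kσ := S.kd_le σ
    by_cases h0 : S.kd σ = 0
    · obtain ⟨l1, l2⟩ := lane_plain h hσ h0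
      have h0' : S.kd ρ = 0 := by
        by_contra hne
        exact r7b_kd h hρ hσ hne hlan.symm h0
      obtain ⟨l3, l4⟩ := lane_plain h hρ h0'
      omega
    · have h0' : S.kd ρ ≠ 0 := r7b_kd h hσ hρ h0 hlan
      have hsame : S.kd ρ = S.kd σ := by
        by_cases c1 : S.kd σ = 1 ∨ S.kd σ = 4
        · have e5 := eσ.1 (by omega)
          by_cases c2 : S.kd ρ = 2 ∨ S.kd ρ = 3
          · have e6 := eρ.2 c2
            omega
          · -- kinds 1, 4: lanes of different type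
            by_contra hne
            have c3 : (S.kd ρ = 1 ∧ S.kd σ = 4) ∨ (S.kd ρ = 4 ∧ S.kd σ = 1) := by omega
            rcases c3 with c3 | c3
            · have q1 := op_div h hρ (Or.inl c3.1)
              have q2 := op_mul h hσ (Or.inr c3.2)
              omega
            · have q1 := op_div h hσ (Or.inl c3.2)
              have q2 := op_mul h hρ (Or.inr c3.1)
              omega
        · have c1' : S.kd σ = 2 ∨ S.kd σ = 3 := by omega
          have e5 := eσ.2 c1'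
          by_cases c2 : S.kd ρ = 1 ∨ S.kd ρ = 4
          · have e6 := eρ.1 (by omega)
            omega
          · by_contra hne
            have c3 : (S.kd ρ = 2 ∧ S.kd σ = 3) ∨ (S.kd ρ = 3 ∧ S.kd σ = 2) := by omega
            rcases c3 with c3 | c3
            · have q1 := op_div h hρ (Or.inr c3.1)
              have q2 := op_mul h hσ (Or.inl c3.2)
              omega
            · have q1 := op_div h hσ (Or.inr c3.2)
              have q2 := op_mul h hρ (Or.inl c3.1)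
              omega
      have c : S.kd σ = 1 ∨ S.kd σ = 2 ∨ S.kd σ = 3 ∨ S.kd σ = 4 := by omega
      have t := r7b_tab h hd hρ
      rcases c with c | c | c | c
      · exact hrs (r8c_uniq h hρ hσ hsame (Or.inl c) hlan)
      · exact hrs (r8c_uniq h hρ hσ hsame (Or.inr c) hlan)
      · have cρ : S.kd ρ = 3 := hsame.trans c
        have e5 := eσ.2 (Or.inr c)
        have e6 := eρ.2 (Or.inr cρ)
        have hlt : σ < ρ := by omega
        have hkk := kappa3 h hd hρ cρ c hlan.symm hlt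
        rcases hg' with rfl | rfl
        · have L := (Z.k0 ρ e4).2.a1
          rcases t with t | t | t | t | t
          · omega
          · omega
          · omega
          · rw [t.2.1] at L
            linarith
          · omega
        · have L := (Z.k1 ρ e4).2.a1
          rcases t with t | t | t | t | t
          · omega
          · omega
          · omega
          · rw [t.2.2.2.1] at L
            linarith
          · omega
      · have cρ : S.kd ρ = 4 := hsame.trans c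
        have e5 := eσ.1 (Or.inr (Or.inr c))
        have e6 := eρ.1 (Or.inr (Or.inr cρ))
        have hlt : σ < ρ := by omega
        have hkk := kappa4 h hd hρ cρ c hlan.symm hlt
        rcases hg' with rfl | rfl
        · have L := (Z.k0 ρ e4).2.a2
          rcases t with t | t | t | t | t
          · omega
          · omega
          · omega
          · omega
          · rw [t.2.2.1] at L
            linarith
        · have L := (Z.k1 ρ e4).2.a2
          rcases t with t | t | t | t | t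
          · omega
          · omega
          · omega
          · omega
          · rw [t.2.2.2.2.1] at L
            linarith

/-- all column lines -/
theorem r8c_all (h : S.WF) (hd : DatOK S d) {b : ℕ × ℕ} {y : Pt} (hb : S.binB b 0) (Z : R8bZ S d b y) {r : List Vx}
    (hr : r ∈ S.cols) {a a' : Vx} (ha : a ∈ r) (ha' : a' ∈ r)
    (h1 : (d.pos S a).2 ≤ 2 * (S.brow b : ℝ) + 1 / 2 + y.2)
    (h2 : 2 * (S.brow b : ℝ) + 1 / 2 + y.2 ≤ (d.pos S a').2)
    (h3 : 2 * (S.bcol b : ℝ) + 1 / 2 + y.1 = (d.pos S a).1) : False := by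
  unfold cols at hr
  rw [List.mem_append, List.mem_append, List.mem_map, List.mem_flatMap, List.mem_map] at hr
  rcases hr with (⟨j, hj, rfl⟩ | ⟨j, hj, hr⟩) | ⟨σ, hσ, rfl⟩
  · have e1 : (d.pos S a).1 = 2 * (j : ℝ) := by
      simp only [List.mem_cons, List.not_mem_nil, or_false] at ha
      rcases ha with rfl | rfl
      · exact (r8c_xb j).1
      · exact (r8c_xb j).1
    rw [e1] at h3
    exact r8b_even Z.y1 Z.y2 h3
  · have hj' : j < S.NN := List.mem_range.1 hj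
    simp only [List.mem_cons, List.not_mem_nil, or_false] at hr
    rcases hr with rfl | rfl | rfl | rfl | rfl
    · have e1 : (d.pos S a).1 = 2 * (j : ℝ) + 1 / 2 + 0 := by
        simp only [List.cons_append, List.mem_cons, List.mem_append, List.not_mem_nil, or_false] at ha
        rcases ha with rfl | ha | rfl
        · exact (r8c_xb j).2.1
        · obtain ⟨v, hv, rfl⟩ := List.mem_map.1 ha
          rw [r7b_blk, r8c_cL h hd hj' hv, (c4_cL h hj' hv).2]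
        · exact (r8c_xb j).2.1
      rw [e1] at h3
      have h4 := (r5b_eq Z.y1.le Z.y2.le le_rfl zero_le_one h3).2
      have h5 := Z.y1
      linarith
    · have e1 : (d.pos S a).1 = 2 * (j : ℝ) + 1 / 2 + 1 := by
        simp only [List.cons_append, List.mem_cons, List.mem_append, List.not_mem_nil, or_false] at ha
        rcases ha with rfl | ha | rfl
        · exact (r8c_xb j).2.2.2
        · obtain ⟨v, hv, rfl⟩ := List.mem_map.1 ha
          rw [r7b_blk, r8c_cR h hd hj' hv, (c4_cR h hj' hv).2]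
        · exact (r8c_xb j).2.2.2
      rw [e1] at h3
      have h4 := (r5b_eq Z.y1.le Z.y2.le zero_le_one le_rfl h3).2
      have h5 := Z.y2
      linarith
    · unfold cC at ha ha'
      split_ifs at ha ha' with g1 g2
      · exact r8c_C1 h hd hb Z g1 ha ha' h2 h3
      · have e1 : j = S.rlane (j - S.rlane 0) := by
          unfold rlane at g2 ⊢
          omega
        have hl : j - S.rlane 0 < 2 * S.K := by
          unfold rlane at g2 ⊢
          unfold NN at hj'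
          omega
        generalize j - S.rlane 0 = l at *
        subst e1
        exact r8c_C2 h hd hb Z hl ha h1 h3
      · simp at ha
    · unfold cf at ha ha'
      split_ifs at ha ha' with g1 g2
      · exact r8c_f1 h hd hb Z g1 ha ha' h1 h2 h3
      · have hl : j - S.rlane 0 < 2 * S.K := by
          unfold rlane at g2 ⊢
          unfold NN at hj'
          omega
        exact r8c_f2 h hd hb Z hl ha ha' h1 h2 h3
      · simp at ha
    · exact r8c_X h hd hb Z ha ha' h1 h2 h3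
  · exact r8c_k h hd hb Z (List.mem_range.1 hσ) ha ha' h1 h2 h3

theorem r8c_box (h : S.WF) (hd : DatOK S d) {b : ℕ × ℕ} (hb : S.binB b 0) {f : ℕ × ℕ} (hf : f ∈ boxC b) :
    ∀ r ∈ S.cols, ∀ z ∈ openSegment ℝ (d.pos S (.blk b f.1)) (d.pos S (.blk b f.2)), z ∉ ExtC (d.pos S) r := by
  rintro r hr z hz ⟨a, ha, a', ha', h1, h2, h3⟩
  obtain ⟨y, hy, rfl⟩ := box_local hz
  exact r8c_all h hd hb (r8b_Z h hd hb hf hy) hr ha ha' h1 h2 h3

/-- link blocks -/
theorem box_cols_link (h : S.WF) (hd : DatOK S d) {g l : ℕ} (hg : 2 ≤ g) (hg' : g ≤ 5)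
    (hl : l < 2 * S.K) {f : ℕ × ℕ} (hf : f ∈ gateE) : ∀ r ∈ S.cols,
    ∀ z ∈ openSegment ℝ (d.pos S (.blk (g, l) f.1)) (d.pos S (.blk (g, l) f.2)),
      z ∉ ExtC (d.pos S) r := by
  refine r8c_box h hd (Or.inr ⟨hg, hg', hl, by norm_num⟩) ?_
  unfold boxC
  rw [if_neg (by show ¬ g ≤ 1; omega)]
  exact hf

/-- Read blocks. -/
theorem box_cols_read (h : S.WF) (hd : DatOK S d) {g ρ : ℕ} (hg : g ≤ 1) (hρ : ρ < S.R)
    {f : ℕ × ℕ} (hf : f ∈ [(0, 1), (1, 2), (0, 2)]) : ∀ r ∈ S.cols,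
    ∀ z ∈ openSegment ℝ (d.pos S (.blk (g, ρ) f.1)) (d.pos S (.blk (g, ρ) f.2)),
      z ∉ ExtC (d.pos S) r := by
  refine r8c_box h hd (Or.inl ⟨hg, hρ, by norm_num⟩) ?_
  unfold boxC
  rw [if_pos hg]
  exact hf

end Pool.Agent.H54R
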