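import Pool.Agent.Lib.H54R.RDefs
import Pool.Agent.Lib.H54R.R5
import Pool.Agent.Lib.H54R.R5B
import Pool.Agent.Lib.H54R.R8
import Pool.Agent.Lib.H54R.C1
import Pool.Agent.Lib.H54R.C3

/-!
# R9: injectivity, vertices and box edges, pairs of box edges
-/

set_option autoImplicit false

namespace Pool.Agent.H54R

open RS

variable {S : RS} {d : Dat}

theorem r9_bin0 {b : ℕ × ℕ} {c : ℕ} (hb : S.binB b c) : S.binB b 0 := by
  rcases hb with ⟨h1, h2, -⟩ | ⟨h1, h2, h3, -⟩
  · exact Or.inl ⟨h1, h2, by norm_num⟩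
  · exact Or.inr ⟨h1, h2, h3, by norm_num⟩

theorem r9_big (S : RS) : (0 : ℝ) ≤ S.NN ∧ (0 : ℝ) ≤ S.MM ∧ S.big = 2 * S.NN + 2 * S.MM + 2 :=
  ⟨Nat.cast_nonneg _, Nat.cast_nonneg _, rfl⟩

/-- block vertices are strictly inside the large rectangle -/
theorem r9_blk (h : S.WF) (hd : DatOK S d) {b : ℕ × ℕ} {c : ℕ} (hb : S.binB b c) :
    0 < (d.pos S (.blk b c)).1 ∧ (d.pos S (.blk b c)).1 < 2 * S.NN ∧
      0 < (d.pos S (.blk b c)).2 ∧ (d.pos S (.blk b c)).2 < 2 * S.MM := by
  obtain ⟨h1, h2, h3, h4⟩ := blk_mem h hd hb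
  have h5 : ((S.bcol b : ℕ) : ℝ) + 1 ≤ S.NN := by
    exact_mod_cast Nat.succ_le_of_lt (bcol_lt h hb)
  have h6 : ((S.brow b : ℕ) : ℝ) + 1 ≤ S.MM := by
    exact_mod_cast Nat.succ_le_of_lt (brow_lt h hb)
  have h7 : (0 : ℝ) ≤ (S.bcol b : ℝ) := Nat.cast_nonneg _
  have h8 : (0 : ℝ) ≤ (S.brow b : ℝ) := Nat.cast_nonneg _
  refine ⟨by linarith, by linarith, by linarith, by linarith⟩

/-- hubs are outside -/
theorem r9_hub (S : RS) (d : Dat) {i : ℕ} (hi : i < 5) :
    (d.pos S (.hub i)).1 < -1 ∨ 2 * S.NN + 1 < (d.pos S (.hub i)).1 ∨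
      (d.pos S (.hub i)).2 < -1 ∨ 2 * S.MM + 1 < (d.pos S (.hub i)).2 := by
  obtain ⟨h1, h2, h3⟩ := r9_big S
  have hc : i = 0 ∨ i = 1 ∨ i = 2 ∨ i = 3 ∨ i = 4 := by omega
  rcases hc with rfl | rfl | rfl | rfl | rfl
  · left
    simp only [Dat.pos, if_true, h3]
    linarith
  · right; left
    simp only [Dat.pos, h3]
    norm_num
    linarith
  · right; right; right
    simp only [Dat.pos, h3]
    norm_num
    linarith
  · right; right; left
    simp only [Dat.pos, h3]
    norm_num
    linarith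
  · right; left
    simp only [Dat.pos, h3]
    norm_num
    linarith

theorem r9_hub_inj (S : RS) (d : Dat) {i j : ℕ} (hi : i < 5) (hj : j < 5)
    (e : d.pos S (.hub i) = d.pos S (.hub j)) : i = j := by
  obtain ⟨h1, h2, h3⟩ := r9_big S
  have e1 := congrArg Prod.fst e
  have e2 := congrArg Prod.snd e
  have hc : i = 0 ∨ i = 1 ∨ i = 2 ∨ i = 3 ∨ i = 4 := by omega
  have hc' : j = 0 ∨ j = 1 ∨ j = 2 ∨ j = 3 ∨ j = 4 := by omega
  rcases hc with rfl | rfl | rfl | rfl | rfl <;> rcases hc' with rfl | rfl | rfl | rfl | rfl <;>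
    first
      | rfl
      | (exfalso
         simp only [Dat.pos, h3] at e1 e2
         norm_num at e1 e2
         linarith)

theorem r9_yb_inj (h : S.WF) (hd : DatOK S d) {k k' : ℕ} (e : d.yb S k = d.yb S k') : k = k' := by
  rcases lt_trichotomy k k' with h1 | h1 | h1
  · exact absurd e (yb_lt h hd h1).ne
  · exact h1
  · exact absurd e (yb_lt h hd h1).ne'

theorem r9_xb_inj (h : S.WF) (hd : DatOK S d) {k k' : ℕ} (hk : k ≤ 4 * S.NN)
    (hk' : k' ≤ 4 * S.NN) (e : d.xb S k = d.xb S k') : k = k' := by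
  rcases lt_trichotomy k k' with h1 | h1 | h1
  · exact absurd e (xb_lt h hd h1 hk').ne
  · exact h1
  · exact absurd e (xb_lt h hd h1 hk).ne'

theorem r9_blk_inj (h : S.WF) (hd : DatOK S d) {b b' : ℕ × ℕ} {c c' : ℕ} (hb : S.binB b c)
    (hb' : S.binB b' c') (e : d.pos S (.blk b c) = d.pos S (.blk b' c')) : b = b' ∧ c = c' := by
  obtain ⟨h1, h2⟩ := blk_row_eq h hd hb hb' (congrArg Prod.snd e)
  obtain ⟨h3, h4⟩ := blk_col_eq h hd hb hb' (congrArg Prod.fst e)
  have h5 := block_inj h hb hb' h1 h3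
  subst h5
  exact ⟨rfl, loc_inj h hd hb hb' (Prod.ext h4 h2)⟩

/-- Positions are distinct. Boundary vertices are on the four sides of the rectangle (`yb_lt`,
`xb_lt`), block vertices inside (`blk_mem`; equal positions: same cell, `block_inj`, same local
coordinates, `loc_inj`), hubs outside. -/
theorem pos_inj (h : S.WF) (hd : DatOK S d) : Set.InjOn (d.pos S) {v | S.isV v} := by
  obtain ⟨hN, hM, -⟩ := r9_big S
  intro v hv w hw e
  have e1 := congrArg Prod.fst e
  have e2 := congrArg Prod.snd e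
  have hv' : S.isV v := hv
  have hw' : S.isV w := hw
  cases v with
  | L k =>
    obtain ⟨a1, a2⟩ := yb_mem h hd (show k ≤ 4 * S.MM from hv')
    cases w with
    | L k' =>
      congr 1
      exact r9_yb_inj h hd e2
    | R k' => simp only [Dat.pos] at e1; linarith
    | B k' => simp only [Dat.pos] at e2; linarith
    | T k' => simp only [Dat.pos] at e2; linarith
    | hub i =>
      rcases r9_hub S d (show i < 5 from hw') with h1 | h1 | h1 | h1 <;>
        first
          | (rw [← e1] at h1; simp only [Dat.pos] at h1; linarith)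
          | (rw [← e2] at h1; simp only [Dat.pos] at h1; linarith)
    | blk b c =>
      obtain ⟨b1, -, -, -⟩ := r9_blk h hd (show S.binB b c from hw')
      rw [← e1] at b1
      simp only [Dat.pos] at b1
      linarith
  | R k =>
    obtain ⟨a1, a2⟩ := yb_mem h hd (show k ≤ 4 * S.MM from hv')
    cases w with
    | L k' => simp only [Dat.pos] at e1; linarith
    | R k' =>
      congr 1
      exact r9_yb_inj h hd e2
    | B k' => simp only [Dat.pos] at e2; linarith
    | T k' => simp only [Dat.pos] at e2; linarith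
    | hub i =>
      rcases r9_hub S d (show i < 5 from hw') with h1 | h1 | h1 | h1 <;>
        first
          | (rw [← e1] at h1; simp only [Dat.pos] at h1; linarith)
          | (rw [← e2] at h1; simp only [Dat.pos] at h1; linarith)
    | blk b c =>
      obtain ⟨-, b1, -, -⟩ := r9_blk h hd (show S.binB b c from hw')
      rw [← e1] at b1
      simp only [Dat.pos] at b1
      linarith
  | B k =>
    obtain ⟨a1, a2⟩ := xb_mem h hd (show k ≤ 4 * S.NN from hv')
    cases w with
    | L k' => simp only [Dat.pos] at e1; linarith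
    | R k' => simp only [Dat.pos] at e1; linarith
    | B k' =>
      congr 1
      exact r9_xb_inj h hd hv' hw' e1
    | T k' => simp only [Dat.pos] at e2; linarith
    | hub i =>
      rcases r9_hub S d (show i < 5 from hw') with h1 | h1 | h1 | h1 <;>
        first
          | (rw [← e1] at h1; simp only [Dat.pos] at h1; linarith)
          | (rw [← e2] at h1; simp only [Dat.pos] at h1; linarith)
    | blk b c =>
      obtain ⟨-, -, b1, -⟩ := r9_blk h hd (show S.binB b c from hw')
      rw [← e2] at b1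
      simp only [Dat.pos] at b1
      linarith
  | T k =>
    obtain ⟨a1, a2⟩ := xb_mem h hd (show k ≤ 4 * S.NN from hv')
    cases w with
    | L k' => simp only [Dat.pos] at e1; linarith
    | R k' => simp only [Dat.pos] at e1; linarith
    | B k' => simp only [Dat.pos] at e2; linarith
    | T k' =>
      congr 1
      exact r9_xb_inj h hd hv' hw' e1
    | hub i =>
      rcases r9_hub S d (show i < 5 from hw') with h1 | h1 | h1 | h1 <;>
        first
          | (rw [← e1] at h1; simp only [Dat.pos] at h1; linarith)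
          | (rw [← e2] at h1; simp only [Dat.pos] at h1; linarith)
    | blk b c =>
      obtain ⟨-, -, -, b1⟩ := r9_blk h hd (show S.binB b c from hw')
      rw [← e2] at b1
      simp only [Dat.pos] at b1
      linarith
  | hub i =>
    cases w with
    | L k' =>
      obtain ⟨a1, a2⟩ := yb_mem h hd (show k' ≤ 4 * S.MM from hw')
      rcases r9_hub S d (show i < 5 from hv') with h1 | h1 | h1 | h1 <;>
        first
          | (rw [e1] at h1; simp only [Dat.pos] at h1; linarith)
          | (rw [e2] at h1; simp only [Dat.pos] at h1; linarith)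
    | R k' =>
      obtain ⟨a1, a2⟩ := yb_mem h hd (show k' ≤ 4 * S.MM from hw')
      rcases r9_hub S d (show i < 5 from hv') with h1 | h1 | h1 | h1 <;>
        first
          | (rw [e1] at h1; simp only [Dat.pos] at h1; linarith)
          | (rw [e2] at h1; simp only [Dat.pos] at h1; linarith)
    | B k' =>
      obtain ⟨a1, a2⟩ := xb_mem h hd (show k' ≤ 4 * S.NN from hw')
      rcases r9_hub S d (show i < 5 from hv') with h1 | h1 | h1 | h1 <;>
        first
          | (rw [e1] at h1; simp only [Dat.pos] at h1; linarith)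
          | (rw [e2] at h1; simp only [Dat.pos] at h1; linarith)
    | T k' =>
      obtain ⟨a1, a2⟩ := xb_mem h hd (show k' ≤ 4 * S.NN from hw')
      rcases r9_hub S d (show i < 5 from hv') with h1 | h1 | h1 | h1 <;>
        first
          | (rw [e1] at h1; simp only [Dat.pos] at h1; linarith)
          | (rw [e2] at h1; simp only [Dat.pos] at h1; linarith)
    | hub i' =>
      congr 1
      exact r9_hub_inj S d hv' hw' e
    | blk b c =>
      obtain ⟨b1, b2, b3, b4⟩ := r9_blk h hd (show S.binB b c from hw')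
      rcases r9_hub S d (show i < 5 from hv') with h1 | h1 | h1 | h1 <;>
        first
          | (rw [e1] at h1; linarith)
          | (rw [e2] at h1; linarith)
  | blk b c =>
    obtain ⟨b1, b2, b3, b4⟩ := r9_blk h hd (show S.binB b c from hv')
    cases w with
    | L k' =>
      rw [e1] at b1
      simp only [Dat.pos] at b1
      linarith
    | R k' =>
      rw [e1] at b2
      simp only [Dat.pos] at b2
      linarith
    | B k' =>
      rw [e2] at b3
      simp only [Dat.pos] at b3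
      linarith
    | T k' =>
      rw [e2] at b4
      simp only [Dat.pos] at b4
      linarith
    | hub i' =>
      rcases r9_hub S d (show i' < 5 from hw') with h1 | h1 | h1 | h1 <;>
        first
          | (rw [← e1] at h1; linarith)
          | (rw [← e2] at h1; linarith)
    | blk b' c' =>
      obtain ⟨h1, h2⟩ := r9_blk_inj h hd hv' hw' e
      rw [h1, h2]

/-- a point of the interior of the cell of a block -/
theorem r9_cell (h : S.WF) (hd : DatOK S d) {b b' : ℕ × ℕ} {c c' : ℕ} (hb : S.binB b c)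
    (hb' : S.binB b' c') {y y' : Pt} (hy : 0 ≤ y.1 ∧ y.1 ≤ 1 ∧ 0 ≤ y.2 ∧ y.2 ≤ 1)
    (hy' : 0 ≤ y'.1 ∧ y'.1 ≤ 1 ∧ 0 ≤ y'.2 ∧ y'.2 ≤ 1)
    (e1 : 2 * (S.bcol b : ℝ) + 1 / 2 + y.1 = 2 * (S.bcol b' : ℝ) + 1 / 2 + y'.1)
    (e2 : 2 * (S.brow b : ℝ) + 1 / 2 + y.2 = 2 * (S.brow b' : ℝ) + 1 / 2 + y'.2) :
    b = b' ∧ y = y' := by
  obtain ⟨a1, a2, a3, a4⟩ := hy
  obtain ⟨a1', a2', a3', a4'⟩ := hy'
  have h1 : S.bcol b = S.bcol b' := by
    rcases lt_trichotomy (S.bcol b) (S.bcol b') with h1 | h1 | h1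
    · have h2 : ((S.bcol b : ℕ) : ℝ) + 1 ≤ S.bcol b' := by exact_mod_cast h1
      linarith
    · exact h1
    · have h2 : ((S.bcol b' : ℕ) : ℝ) + 1 ≤ S.bcol b := by exact_mod_cast h1
      linarith
  have h2 : S.brow b = S.brow b' := by
    rcases lt_trichotomy (S.brow b) (S.brow b') with h1 | h1 | h1
    · have h2 : ((S.brow b : ℕ) : ℝ) + 1 ≤ S.brow b' := by exact_mod_cast h1
      linarith
    · exact h1
    · have h2 : ((S.brow b' : ℕ) : ℝ) + 1 ≤ S.brow b := by exact_mod_cast h1
      linarith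
  rw [h1] at e1
  rw [h2] at e2
  exact ⟨block_inj h hb hb' h2 h1, Prod.ext (by linarith) (by linarith)⟩

theorem box_vertex (h : S.WF) (hd : DatOK S d) : ∀ e ∈ S.boxE, ∀ v, S.isV v →
    d.pos S v ∉ openSegment ℝ (d.pos S e.1) (d.pos S e.2) := by
  intro e he v hv hz
  obtain ⟨b, hb, f, hf, rfl⟩ := (mem_boxE h).1 he
  obtain ⟨y, hy, hzy⟩ := box_local hz
  obtain ⟨a1, a2, a3, a4⟩ := box_in h hd hb hf hy
  have h5 : ((S.bcol b : ℕ) : ℝ) + 1 ≤ S.NN := by
    exact_mod_cast Nat.succ_le_of_lt (bcol_lt h hb)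
  have h6 : ((S.brow b : ℕ) : ℝ) + 1 ≤ S.MM := by
    exact_mod_cast Nat.succ_le_of_lt (brow_lt h hb)
  have h7 : (0 : ℝ) ≤ (S.bcol b : ℝ) := Nat.cast_nonneg _
  have h8 : (0 : ℝ) ≤ (S.brow b : ℝ) := Nat.cast_nonneg _
  have e1 : (d.pos S v).1 = 2 * (S.bcol b : ℝ) + 1 / 2 + y.1 := congrArg Prod.fst hzy
  have e2 : (d.pos S v).2 = 2 * (S.brow b : ℝ) + 1 / 2 + y.2 := congrArg Prod.snd hzy
  cases v with
  | L k => simp only [Dat.pos] at e1; linarith
  | R k => simp only [Dat.pos] at e1; linarith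
  | B k => simp only [Dat.pos] at e2; linarith
  | T k => simp only [Dat.pos] at e2; linarith
  | hub i =>
    rcases r9_hub S d (show i < 5 from hv) with h1 | h1 | h1 | h1 <;>
      first
        | (rw [e1] at h1; linarith)
        | (rw [e2] at h1; linarith)
  | blk b' c' =>
    have hb' : S.binB b' c' := hv
    have h9 := r9_cell h hd hb' hb (loc01 h hd hb') ⟨a1.le, a2.le, a3.le, a4.le⟩ e1 e2
    obtain ⟨rfl, rfl⟩ := h9
    exact loc_not_mem h hd hb' hf hy

theorem box_box (h : S.WF) (hd : DatOK S d) : ∀ e ∈ S.boxE, ∀ f ∈ S.boxE,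
    s(e.1, e.2) ≠ s(f.1, f.2) → ¬ Cross (d.pos S e.1) (d.pos S e.2) (d.pos S f.1) (d.pos S f.2) := by
  rintro e he f hf hne ⟨z, hz1, hz2⟩
  obtain ⟨b, hb, g, hg, rfl⟩ := (mem_boxE h).1 he
  obtain ⟨b', hb', g', hg', rfl⟩ := (mem_boxE h).1 hf
  obtain ⟨y, hy, hzy⟩ := box_local hz1
  obtain ⟨y', hy', hzy'⟩ := box_local hz2
  obtain ⟨a1, a2, a3, a4⟩ := box_in h hd hb hg hy
  obtain ⟨b1, b2, b3, b4⟩ := box_in h hd hb' hg' hy'
  have h0 := hzy.symm.trans hzy'
  obtain ⟨rfl, rfl⟩ := r9_cell h hd hb hb' ⟨a1.le, a2.le, a3.le, a4.le⟩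
    ⟨b1.le, b2.le, b3.le, b4.le⟩ (congrArg Prod.fst h0) (congrArg Prod.snd h0)
  refine box_pairs h hd hb hg hg' (fun e => hne ?_) hy hy'
  rw [e]

theorem box_ne (h : S.WF) : ∀ e ∈ S.boxE, e.1 ≠ e.2 := by
  intro e he
  obtain ⟨b, hb, f, hf, rfl⟩ := (mem_boxE h).1 he
  have h1 : f.1 ≠ f.2 := by
    unfold boxC gateE at hf
    split_ifs at hf
    · simp only [List.mem_cons, List.not_mem_nil, or_false] at hf
      rcases hf with rfl | rfl | rfl <;> norm_num
    · simp only [List.mem_cons, List.not_mem_nil, or_false] at hf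
      rcases hf with rfl | rfl | rfl | rfl | rfl | rfl | rfl | rfl <;> norm_num
  intro e
  simp only [Vx.blk.injEq, true_and] at e
  exact h1 e

end Pool.Agent.H54R
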