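import Pool.Agent.Lib.H54R.RDefs
import Pool.Agent.Lib.H54R.R3
import Pool.Agent.Lib.H54R.R6C
import Pool.Agent.Lib.H54R.R7E
import Pool.Agent.Lib.H54R.R8
import Pool.Agent.Lib.H54R.R8B
import Pool.Agent.Lib.H54R.R8C
import Pool.Agent.Lib.H54R.R9
import Pool.Agent.Lib.H54R.R10
import Pool.Agent.Lib.H54R.R11
import Pool.Agent.Lib.H54R.R2B
import Pool.Agent.Lib.H54R.NetOf

/-!
# R12: the drawing
-/

set_option autoImplicit false

namespace Pool.Agent.H54R

open RS

variable {S : RS} {d : Dat}

/-- the light edges are edges of lines or levers -/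
theorem light_class (S : RS) : ∀ e ∈ S.light, (∃ r ∈ S.rows, e ∈ edg r) ∨
    (∃ r ∈ S.cols, e ∈ edg r) ∨ e ∈ S.boxE := by
  intro e he
  unfold light at he
  have hrow : ∀ r ∈ S.rows, e ∈ edg r → (∃ r ∈ S.rows, e ∈ edg r) ∨
    (∃ r ∈ S.cols, e ∈ edg r) ∨ e ∈ S.boxE := fun r hr h => Or.inl ⟨r, hr, h⟩
  have hcol : ∀ r ∈ S.cols, e ∈ edg r → (∃ r ∈ S.rows, e ∈ edg r) ∨
    (∃ r ∈ S.cols, e ∈ edg r) ∨ e ∈ S.boxE := fun r hr h => Or.inr (Or.inl ⟨r, hr, h⟩)
  rcases List.mem_append.1 he with he | he
  · rcases List.mem_append.1 he with he | he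
    · rcases List.mem_append.1 he with he | he
      · rcases List.mem_append.1 he with he | he
        · rcases List.mem_append.1 he with he | he
          · obtain ⟨i, hi, rfl⟩ := List.mem_map.1 he
            refine hrow [.L (4 * i), .R (4 * i)] ?_ (by simp [edg])
            exact List.mem_append_left _ (List.mem_map.2 ⟨i, hi, rfl⟩)
          · obtain ⟨i, hi, rfl⟩ := List.mem_map.1 he
            refine hcol [.B (4 * i), .T (4 * i)] ?_ (by simp [edg])
            exact List.mem_append_left _ (List.mem_append_left _ (List.mem_map.2 ⟨i, hi, rfl⟩))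
        · obtain ⟨i, hi, he⟩ := List.mem_flatMap.1 he
          have hmem : ∀ r ∈ S.laneR i, r ∈ S.rows := fun r hr =>
            List.mem_append_right _ (List.mem_flatMap.2 ⟨i, hi, hr⟩)
          unfold liRow at he
          rcases List.mem_append.1 he with he | he
          · rcases List.mem_append.1 he with he | he
            · rcases List.mem_append.1 he with he | he
              · exact hrow _ (hmem _ (by simp [laneR])) he
              · exact hrow _ (hmem _ (by simp [laneR])) he
            · exact hrow _ (hmem _ (by simp [laneR])) he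
          · exact hrow _ (hmem _ (by simp [laneR])) he
      · obtain ⟨j, hj, he⟩ := List.mem_flatMap.1 he
        have hmem : ∀ r ∈ S.laneC j, r ∈ S.cols := fun r hr =>
          List.mem_append_left _ (List.mem_append_right _ (List.mem_flatMap.2 ⟨j, hj, hr⟩))
        unfold liCol at he
        rcases List.mem_append.1 he with he | he
        · rcases List.mem_append.1 he with he | he
          · rcases List.mem_append.1 he with he | he
            · rcases List.mem_append.1 he with he | he
              · exact hcol _ (hmem _ (by simp [laneC])) he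
              · exact hcol _ (hmem _ (by simp [laneC])) he
            · exact hcol _ (hmem _ (by simp [laneC])) he
          · exact hcol _ (hmem _ (by simp [laneC])) he
        · exact hcol _ (hmem _ (by simp [laneC])) he
    · obtain ⟨ρ, hρ, he⟩ := List.mem_flatMap.1 he
      unfold liRd at he
      rcases List.mem_append.1 he with he | he
      · exact hcol (S.ck ρ) (List.mem_append_right _ (List.mem_map.2 ⟨ρ, hρ, rfl⟩)) he
      · refine Or.inr (Or.inr (List.mem_append_left _ (List.mem_flatMap.2 ⟨ρ, hρ, ?_⟩)))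
        exact List.mem_append_right _ he
  · obtain ⟨l, hl, he⟩ := List.mem_flatMap.1 he
    refine Or.inr (Or.inr (List.mem_append_right _ (List.mem_flatMap.2 ⟨l, hl, ?_⟩)))
    exact List.mem_append_right _ he

theorem heavy_class (S : RS) : ∀ e ∈ S.heavy, e ∈ S.boxE ∨ e ∈ S.outE := by
  intro e he
  unfold heavy at he
  rcases List.mem_append.1 he with he | he
  · rcases List.mem_append.1 he with he | he
    · rcases List.mem_append.1 he with he | he
      · obtain ⟨ρ, hρ, he⟩ := List.mem_flatMap.1 he
        refine Or.inl (List.mem_append_left _ (List.mem_flatMap.2 ⟨ρ, hρ, ?_⟩))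
        exact List.mem_append_left _ he
      · obtain ⟨l, hl, he⟩ := List.mem_flatMap.1 he
        refine Or.inl (List.mem_append_right _ (List.mem_flatMap.2 ⟨l, hl, ?_⟩))
        exact List.mem_append_left _ he
    · exact Or.inr (List.mem_append_left _ he)
  · exact Or.inr (List.mem_append_right _ he)

/-- all ends of edges are vertices of the network (`isV_iff`) -/
theorem vset_isV (h : S.WF) : ∀ v ∈ vset (S.light ++ S.heavy), S.isV v := by
  intro v hv
  have h1 := (nf_isV S h v).1 ((isV_iff S h v).2 hv)
  cases v <;> exact h1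

theorem r12_box_cols (h : S.WF) (hd : DatOK S d) : ∀ e ∈ S.boxE, ∀ r ∈ S.cols,
    ∀ z ∈ openSegment ℝ (d.pos S e.1) (d.pos S e.2), z ∉ ExtC (d.pos S) r := by
  intro e he r hr z hz
  obtain ⟨⟨g, l⟩, hb, f, hf, rfl⟩ := (mem_boxE h).1 he
  rcases hb with ⟨h1, h2, -⟩ | ⟨h1, h2, h3, -⟩
  · refine box_cols_read h hd (g := g) (ρ := l) h1 h2 (f := f) ?_ r hr z hz
    have h4 : g ≤ 1 := h1
    simpa [boxC, h4] using hf
  · refine box_cols_link h hd (g := g) (l := l) h1 h2 h3 (f := f) ?_ r hr z hz
    have h4 : ¬ g ≤ 1 := by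
      have h5 : 2 ≤ g := h1
      omega
    simpa [boxC, h4] using hf

theorem core_draw (h : S.WF) (hd : DatOK S d) : CoreDraw (coreG S) (d.pos S) := by
  unfold coreG
  refine grid (V0 := {v | S.isV v}) (rows := S.rows) (cols := S.cols) (box := S.boxE)
    (out := S.outE) (vset_isV h) (fun r hr => ?_) (fun r hr => ?_)
    (fun r hr => (rows_good h hd r hr).2.2.2) (fun r hr => (cols_good h hd r hr).2.2.2)
    (rows_disj h hd) (cols_disj h hd) (box_ne h) (box_rows h hd) (r12_box_cols h hd)
    (box_vertex h hd) (box_box h hd) (pos_inj h hd) (out_ne S) (fun e he z hz => ?_)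
    (fun e he f hf hne => ?_) (light_class S) (heavy_class S)
  · obtain ⟨h1, h2, h3, -⟩ := rows_good h hd r hr
    exact ⟨h1, h2, h3⟩
  · obtain ⟨h1, h2, h3, -⟩ := cols_good h hd r hr
    exact ⟨h1, h2, h3⟩
  · obtain ⟨h1, h2, h3⟩ := out_inside h hd e he z hz
    exact ⟨h1, h2, out_vertex h hd e he z hz, h3⟩
  · rcases List.mem_append.1 he with he | he
    · rcases List.mem_append.1 hf with hf | hf
      · exact bd_bd h hd e he f hf hne
      · exact bd_hub h hd e he f hf
    · rcases List.mem_append.1 hf with hf | hf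
      · rintro ⟨z, hz1, hz2⟩
        exact bd_hub h hd f hf e he ⟨z, hz2, hz1⟩
      · exact hub_hub h hd e he f hf hne

/-- a solvable ring system has a drawing -/
theorem draw_of_sat (h : S.WF) (hs : S.Sat) : ∃ p, CoreDraw (coreG S) p := by
  obtain ⟨d, hd⟩ := exists_dat h hs
  exact ⟨_, core_draw h hd⟩

end Pool.Agent.H54R
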