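import Pool.Agent.Lib.H54R.E1
import Pool.Agent.Lib.H54R.E3
import Pool.Agent.Lib.H54R.E4
import Pool.Agent.Lib.H54R.NetOf
import Pool.Agent.Lib.H54R.F7
import Pool.Agent.Lib.H54R.R12

/-!
# Q1: the graph of a ring system
-/

set_option autoImplicit false

namespace Pool.Agent.H54R

open RS

/-- the graph of a well-formed ring system has an apRAC-drawing iff the system has a solution -/
theorem graphOf_mem {S : RS} (h : S.WF) : graphOf S ∈ APRAC ↔ S.Sat := by
  unfold graphOf
  rw [toGr_mem (e3_noLoop (core_noLoop S h))]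
  constructor
  · rintro ⟨q, hq⟩
    obtain ⟨D⟩ := semi_of_expand (core_noLoop S h) hq
    obtain ⟨D'⟩ := nd_of_semi S h D
    exact sat_of_nd D'
  · intro hs
    obtain ⟨p, hp⟩ := draw_of_sat h hs
    exact expand_of_core (core_noLoop S h) hp

end Pool.Agent.H54R
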