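import Pool.Agent.Lib.H54R.P6
import Pool.Agent.Lib.H54R.Q1
import Pool.Agent.Lib.H54R.M7
import Pool.Agent.Lib.H54R.N13
import Pool.Agent.Lib.H54R.N16
import Pool.Agent.Lib.PolyTime.Comp

/-!
# Q2: the reduction
-/

set_option autoImplicit false

namespace Pool.Agent.H54R

open Pool.Agent.PolyTime Pool.Agent.MinRank

/-- the numbers of variables of the ring system of a formula are bounded (`toRS`: they are lengths of
lists, `PBd_length` with the `PT` theorems of N14 - N16) -/
theorem PBd_toRS_n : PBd fun φ : Formula => (toRS φ).n := by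
  show PBd fun φ : Formula => (occ (strictSys (simpleSys φ))).length
  exact PBd_length (PT_occ (PT_strictSys (PT_simpleSys PT.id)))

theorem PBd_toRS_m : PBd fun φ : Formula => (toRS φ).m := by
  show PBd fun φ : Formula => 2 * (renSys (strictSys (simpleSys φ))).length
  exact (PBd.const 2).mul (PBd_length (PT_renSys (PT_strictSys (PT_simpleSys PT.id))))

/-- `PT_graphOf`, `PT_toRS`, `PT.tm`, `graphOf_mem`, `toRS_wf`, `toRS_sat` -/
theorem etr_red : RedTo bitString bitString ETR APRAC := by
  refine ⟨fun φ => graphOf (toRS φ),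
    PT.tm (PT_graphOf (PT_toRS PT.id) PBd_toRS_n PBd_toRS_m), fun φ => ?_⟩
  rw [graphOf_mem (toRS_wf φ), toRS_sat]

/-- composition of reductions (`PolyTime/Comp.lean`) -/
theorem RedTo.trans {α β γ : Type} {ea : α → List Bool} {eb : β → List Bool} {ec : γ → List Bool}
    {A : Set α} {B : Set β} {C : Set γ} (h : RedTo ea eb A B) (h' : RedTo eb ec B C) :
    RedTo ea ec A C := by
  obtain ⟨f, hf, h1⟩ := h
  obtain ⟨g, hg, h2⟩ := h'
  exact ⟨fun a => g (f a), tm_comp ea eb ec f g hf hg, fun a => (h1 a).trans (h2 (f a))⟩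

/-- the main theorem -/
theorem aprac_complete : ERComplete (bitString (α := Gr)) APRAC := by
  exact ⟨inER_APRAC, fun _ _ _ h => RedTo.trans h etr_red⟩

end Pool.Agent.H54R
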