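import Pool.Agent.Lib.H54R.EDefs
import Pool.Agent.Lib.H54R.FL3

/-!
# The drawing of the core graph of a solvable ring system: definitions

`Gt`: the numbers of a link; `Dat`: all numbers of the drawing; `DatOK`: the inequalities they
satisfy; `pos`: the positions of the vertices. Cell `(i, j)` is the square `[2 j, 2 j + 2] × [2 i, 2 i + 2]`;
the local coordinates of a vertex of a block in the cell are its coordinates minus
`(2 j + 1 / 2, 2 i + 1 / 2)`, they are between `0` and `1`.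
-/

set_option autoImplicit false

namespace Pool.Agent.H54R

open RS

/-- The inequalities for the six vertices of a gate in local coordinates: `s = (x0, 0)`,
`c = (1, yc)`, `q = (f, y2)`, `u = (f, yu)`, `w = (xw, 1)`, `p = (px, y)`. -/
structure GateN (x0 f y2 y px yu yc xw : ℝ) : Prop where
  h0 : 0 ≤ x0
  h1 : x0 < px
  h2 : px < f
  h3 : f < xw
  h4 : xw < 1
  h5 : 0 < yc
  h6 : yc < y2
  h7 : y2 < y
  h8 : y < yu
  h9 : yu < 1
  /-- the ray of `p` is to the right of the lever `s u` -/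
  h10 : (f - x0) * y < (px - x0) * yu
  /-- the ray of `q` is to the right of the lever `p c` -/
  h11 : (1 - px) * (y - y2) < (f - px) * (y - yc)

/-- the vertices of a gate -/
def gateP (x0 f y2 y px yu yc xw : ℝ) (c : ℕ) : Pt :=
  if c = 0 then (x0, 0) else if c = 1 then (1, yc) else if c = 2 then (f, y2)
  else if c = 3 then (f, yu) else if c = 4 then (xw, 1) else (px, y)

/-- the heavy edges and the levers of a gate -/
def gateE : List (ℕ × ℕ) := [(0, 5), (5, 3), (5, 2), (2, 1), (0, 1), (3, 4), (0, 3), (5, 1)]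

/-- The numbers of a link: `y2`, `y` heights of the companion and the wire of the read `a`; `c`, `f`
the columns of the link lane; the free coordinates of the two gates. -/
structure Gt : Type where
  y2 : ℝ
  y : ℝ
  c : ℝ
  f : ℝ
  b : ℝ
  px : ℝ
  yu : ℝ
  yc : ℝ
  xw : ℝ
  px' : ℝ
  yu' : ℝ
  yc' : ℝ
  xw' : ℝ

/-- the inequalities for a link between wires of relative heights `a` and `b` -/
structure GtOK (a b : ℝ) (g : Gt) : Prop where
  hy : g.y = g.y2 + a * (1 - g.y2)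
  hb : g.b = b
  hc : 0 < g.c
  g1 : GateN g.c g.f g.y2 g.y g.px g.yu g.yc g.xw
  g2 : GateN 0 (1 - b) g.c g.f g.px' g.yu' g.yc' g.xw'

/-- The numbers of the drawing. -/
structure Dat : Type where
  /-- home and fresh variables -/
  x : ℕ → ℝ
  w : ℕ → ℝ
  /-- relative heights of the lower and upper wires of the reads, their column `k` -/
  l : ℕ → ℝ
  u : ℕ → ℝ
  κ : ℕ → ℝ
  /-- lower and upper links -/
  gL : ℕ → Gt
  gU : ℕ → Gt

variable (S : RS) (d : Dat)

/-- the previous read of the same kind in the same lane -/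
def RS.prv (ρ : ℕ) : Option ℕ :=
  ((List.range ρ).filter fun σ => S.kd σ = S.kd ρ ∧ S.lane σ = S.lane ρ).getLast?

/-- value of the variable of a read -/
noncomputable def Dat.xv (ρ : ℕ) : ℝ :=
  if (S.op ρ).1 = 1 then d.w (S.op ρ).2 else d.x (S.op ρ).2

/-- the moving border of the reads of kind 3 and 4 -/
noncomputable def Dat.cb (ρ : ℕ) : ℝ :=
  match S.prv ρ with
  | some σ => d.κ σ
  | none => if S.kd ρ = 3 then 0 else 1

/-- left and right border of the lower block, left and right border of the upper block -/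
noncomputable def Dat.bl (ρ : ℕ) : ℝ :=
  if S.kd ρ = 2 then d.xv S ρ else if S.kd ρ = 3 then d.cb S ρ else 0
noncomputable def Dat.br (ρ : ℕ) : ℝ :=
  if S.kd ρ = 3 then d.xv S ρ else if S.kd ρ = 4 then d.cb S ρ else 1
noncomputable def Dat.ul (ρ : ℕ) : ℝ :=
  if S.kd ρ = 3 then d.cb S ρ else if S.kd ρ = 4 then d.xv S ρ else 0
noncomputable def Dat.ur (ρ : ℕ) : ℝ :=
  if S.kd ρ = 1 then d.xv S ρ else if S.kd ρ = 4 then d.cb S ρ else 1

/-- height of the base line of the lower block, of the lower wire -/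
noncomputable def Dat.hb (ρ : ℕ) : ℝ := if S.hatL ρ then (d.gL (lkL ρ)).y2 else 0
noncomputable def Dat.hy (ρ : ℕ) : ℝ := if S.hatL ρ then (d.gL (lkL ρ)).y else d.l ρ

/-- height of the top line of the upper block, of the upper wire -/
noncomputable def Dat.ht (ρ : ℕ) : ℝ := if S.hatU ρ then 1 - (d.gU (lkU ρ)).y2 else 1
noncomputable def Dat.hz (ρ : ℕ) : ℝ := if S.hatU ρ then 1 - (d.gU (lkU ρ)).y else d.u ρ

/-- All inequalities. -/
structure DatOK : Prop where
  x01 : ∀ i, 0 < d.x i ∧ d.x i < 1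
  w01 : ∀ i, 0 < d.w i ∧ d.w i < 1
  l01 : ∀ ρ < S.R, 0 < d.l ρ ∧ d.l ρ < 1
  u01 : ∀ ρ < S.R, 0 < d.u ρ ∧ d.u ρ < 1
  lo : ∀ l < 2 * S.K, GtOK (d.l (S.loA l)) (d.l (S.loB l)) (d.gL l)
  up : ∀ l < 2 * S.K, GtOK (1 - d.u (S.upA l)) (1 - d.u (S.upB l)) (d.gU l)
  k1 : ∀ ρ < S.R, d.bl S ρ < d.κ ρ ∧ d.κ ρ < d.br S ρ
  k2 : ∀ ρ < S.R, d.ul S ρ < d.κ ρ ∧ d.κ ρ < d.ur S ρ
  k3 : ∀ ρ < S.R, d.κ ρ - d.bl S ρ < d.l ρ * (d.br S ρ - d.bl S ρ)
  k4 : ∀ ρ < S.R, d.u ρ * (d.ur S ρ - d.ul S ρ) < d.κ ρ - d.ul S ρ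

/-- `(x, y) ↦ (y, 1 - x)` and `(x, y) ↦ (1 - x, 1 - y)` -/
def vT (z : Pt) : Pt := (z.2, 1 - z.1)
def rt2 (z : Pt) : Pt := (1 - z.1, 1 - z.2)

/-- local coordinates of the vertices of the blocks -/
noncomputable def Dat.loc (b : ℕ × ℕ) (c : ℕ) : Pt :=
  if b.1 = 0 then
    (if c = 0 then (d.bl S b.2, d.hb S b.2) else if c = 1 then (d.κ b.2, d.hy S b.2)
      else (d.br S b.2, 1))
  else if b.1 = 1 then
    (if c = 0 then (d.ul S b.2, 0) else if c = 1 then (d.κ b.2, d.hz S b.2)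
      else (d.ur S b.2, d.ht S b.2))
  else if b.1 = 2 then
    gateP (d.gL b.2).c (d.gL b.2).f (d.gL b.2).y2 (d.gL b.2).y (d.gL b.2).px (d.gL b.2).yu
      (d.gL b.2).yc (d.gL b.2).xw c
  else if b.1 = 3 then
    vT (gateP 0 (1 - (d.gL b.2).b) (d.gL b.2).c (d.gL b.2).f (d.gL b.2).px' (d.gL b.2).yu'
      (d.gL b.2).yc' (d.gL b.2).xw' c)
  else if b.1 = 4 then
    rt2 (gateP (d.gU b.2).c (d.gU b.2).f (d.gU b.2).y2 (d.gU b.2).y (d.gU b.2).px (d.gU b.2).yu
      (d.gU b.2).yc (d.gU b.2).xw c)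
  else
    rt2 (vT (gateP 0 (1 - (d.gU b.2).b) (d.gU b.2).c (d.gU b.2).f (d.gU b.2).px' (d.gU b.2).yu'
      (d.gU b.2).yc' (d.gU b.2).xw' c))

/-- local height of the companion line of the row lane `i` -/
noncomputable def Dat.cc (i : ℕ) : ℝ :=
  if (S.role i).1 = 1 ∧ S.hatL (S.role i).2 then (d.gL (lkL (S.role i).2)).y2
  else if (S.role i).1 = 2 ∧ S.hatU (S.role i).2 then 1 - (d.gU (lkU (S.role i).2)).y2
  else 1 / 2

/-- local coordinate of the companion line of the column lane `j` -/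
noncomputable def Dat.dd (j : ℕ) : ℝ :=
  if j < 2 * S.K then (d.gL j).c
  else if S.rlane 0 ≤ j then 1 - (d.gU (j - S.rlane 0)).c
  else 1 / 2

/-- heights of the boundary vertices `L k`, `R k` -/
noncomputable def Dat.yb (k : ℕ) : ℝ :=
  2 * (k / 4 : ℕ) + (if k % 4 = 0 then 0 else if k % 4 = 1 then 1 / 2
    else if k % 4 = 2 then 1 / 2 + d.cc S (k / 4) else 3 / 2)

/-- first coordinates of the boundary vertices `B k`, `T k` -/
noncomputable def Dat.xb (k : ℕ) : ℝ :=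
  2 * (k / 4 : ℕ) + (if k % 4 = 0 then 0 else if k % 4 = 1 then 1 / 2
    else if k % 4 = 2 then 1 / 2 + d.dd S (k / 4) else 3 / 2)

/-- a large number -/
noncomputable def RS.big : ℝ := 2 * S.NN + 2 * S.MM + 2

/-- the positions -/
noncomputable def Dat.pos : Vx → Pt
  | .L k => (-1, d.yb S k)
  | .R k => (2 * S.NN + 1, d.yb S k)
  | .B k => (d.xb S k, -1)
  | .T k => (d.xb S k, 2 * S.MM + 1)
  | .hub i => if i = 0 then (-20 * S.big, S.MM + 1 / 7)
      else if i = 1 then (2 * S.NN + 1 + S.big, S.MM + 1 / 7)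
      else if i = 2 then (S.NN + 1 / 7, 2 * S.MM + 1 + S.big)
      else if i = 3 then (S.NN + 1 / 7, -20 * S.big)
      else (20 * S.big, 20 * S.big)
  | .blk b c => (2 * (S.bcol b : ℝ) + 1 / 2 + (d.loc S b c).1,
      2 * (S.brow b : ℝ) + 1 / 2 + (d.loc S b c).2)

/-- the row lines and the column lines -/
def RS.rows : List (List Vx) :=
  ((List.range (S.MM + 1)).map fun i => [.L (4 * i), .R (4 * i)]) ++
    (List.range S.MM).flatMap fun i => [.L (4 * i + 1) :: bx (S.rB i) ++ [.R (4 * i + 1)],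
      .L (4 * i + 3) :: bx (S.rT i) ++ [.R (4 * i + 3)], S.rC i, S.rW i]

def RS.cols : List (List Vx) :=
  ((List.range (S.NN + 1)).map fun j => [.B (4 * j), .T (4 * j)]) ++
    ((List.range S.NN).flatMap fun j => [.B (4 * j + 1) :: bx (S.cL j) ++ [.T (4 * j + 1)],
      .B (4 * j + 3) :: bx (S.cR j) ++ [.T (4 * j + 3)], S.cC j, S.cf j, S.cX j]) ++
    (List.range S.R).map fun ρ => S.ck ρ

/-- edges inside blocks: heavy edges and levers -/
def RS.boxE : List (Vx × Vx) :=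
  ((List.range S.R).flatMap fun ρ => hvRd ρ ++
    [(.blk (0, ρ) 0, .blk (0, ρ) 2), (.blk (1, ρ) 0, .blk (1, ρ) 2)]) ++
    (List.range (2 * S.K)).flatMap fun l => hvLk l ++ liLk l

/-- the outer edges -/
def RS.outE : List (Vx × Vx) := S.hvBd ++ S.hvHub

/-- the vertices of the core graph -/
def RS.isV : Vx → Prop
  | .L k => k ≤ 4 * S.MM
  | .R k => k ≤ 4 * S.MM
  | .B k => k ≤ 4 * S.NN
  | .T k => k ≤ 4 * S.NN
  | .hub i => i < 5
  | .blk b c => S.binB b c

/-- points of a row line -/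
def ExtR (p : Vx → Pt) (r : List Vx) : Set Pt :=
  {z | ∃ a ∈ r, ∃ b ∈ r, (p a).1 ≤ z.1 ∧ z.1 ≤ (p b).1 ∧ z.2 = (p a).2}

/-- points of a column line -/
def ExtC (p : Vx → Pt) (r : List Vx) : Set Pt :=
  {z | ∃ a ∈ r, ∃ b ∈ r, (p a).2 ≤ z.2 ∧ z.2 ≤ (p b).2 ∧ z.1 = (p a).1}

/-- A row line `r` is good: straight, from left to right, and all vertices on it are members. -/
def RowGood (r : List Vx) : Prop :=
  (r.Pairwise fun v w => (d.pos S v).1 < (d.pos S w).1) ∧
    (∀ v ∈ r, ∀ w ∈ r, (d.pos S v).2 = (d.pos S w).2) ∧ (∀ v ∈ r, S.isV v) ∧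
    ∀ v, S.isV v → d.pos S v ∈ ExtR (d.pos S) r → v ∈ r

/-- the same for column lines -/
def ColGood (r : List Vx) : Prop :=
  (r.Pairwise fun v w => (d.pos S v).2 < (d.pos S w).2) ∧
    (∀ v ∈ r, ∀ w ∈ r, (d.pos S v).1 = (d.pos S w).1) ∧ (∀ v ∈ r, S.isV v) ∧
    ∀ v, S.isV v → d.pos S v ∈ ExtC (d.pos S) r → v ∈ r

/-- the four row lines of a row lane -/
def RS.laneR (i : ℕ) : List (List Vx) := [.L (4 * i + 1) :: bx (S.rB i) ++ [.R (4 * i + 1)],
  .L (4 * i + 3) :: bx (S.rT i) ++ [.R (4 * i + 3)], S.rC i, S.rW i]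

/-- the five column lines of a column lane -/
def RS.laneC (j : ℕ) : List (List Vx) := [.B (4 * j + 1) :: bx (S.cL j) ++ [.T (4 * j + 1)],
  .B (4 * j + 3) :: bx (S.cR j) ++ [.T (4 * j + 3)], S.cC j, S.cf j, S.cX j]

end Pool.Agent.H54R
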