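import Pool.Agent.Lib.H54R.Defs

/-!
# Parity of crossings: definitions

Points are ordered lexicographically by the first coordinate and then by decreasing second
coordinate (`lx`). For a segment `pq` and a point `z` strictly between `p` and `q` in this order,
`rr p q z = 1` means that `z` is below the segment, `ss p q z = 1` that it is above.
-/

set_option autoImplicit false

namespace Pool.Agent.H54R

/-- points of the plane -/
abbrev Pt : Type := ℝ × ℝ

/-- twice the oriented area of the triangle `abc` -/
def ori (a b c : Pt) : ℝ := (b.1 - a.1) * (c.2 - a.2) - (b.2 - a.2) * (c.1 - a.1)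

/-- the lexicographic order: first coordinate, then decreasing second coordinate -/
def lx (a b : Pt) : Prop := a.1 < b.1 ∨ (a.1 = b.1 ∧ b.2 < a.2)

open Classical in
/-- indicator of `lx a b` -/
noncomputable def lxi (a b : Pt) : ZMod 2 := if lx a b then 1 else 0

open Classical in
/-- `z` is between `p` and `q` in the order and below the segment `pq` -/
noncomputable def rr (p q z : Pt) : ZMod 2 :=
  if (lx p z ∧ lx z q ∧ ori p q z < 0) ∨ (lx q z ∧ lx z p ∧ ori q p z < 0) then 1 else 0

open Classical in
/-- `z` is between `p` and `q` in the order and above the segment `pq` -/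
noncomputable def ss (p q z : Pt) : ZMod 2 :=
  if (lx p z ∧ lx z q ∧ 0 < ori p q z) ∨ (lx q z ∧ lx z p ∧ 0 < ori q p z) then 1 else 0

open Classical in
/-- indicator of a crossing -/
noncomputable def cr (a b c d : Pt) : ZMod 2 := if Cross a b c d then 1 else 0

/-- The segments `ab` and `cd` are in general position: no end of one of them lies on the other
one. -/
structure GP4 (a b c d : Pt) : Prop where
  ab : a ≠ b
  cd : c ≠ d
  a_cd : a ∉ segment ℝ c d
  b_cd : b ∉ segment ℝ c d
  c_ab : c ∉ segment ℝ a b
  d_ab : d ∉ segment ℝ a b

/-- the edges of a polygonal path -/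
def edg {α : Type} (l : List α) : List (α × α) := l.zip l.tail

/-- sum of `f` over the edges of a polygonal path -/
def sumE (f : Pt → Pt → ZMod 2) (l : List Pt) : ZMod 2 := ((edg l).map fun e => f e.1 e.2).sum

/-- number of crossings of the segment `ab` with the path `l`, modulo 2 -/
noncomputable def crL (a b : Pt) (l : List Pt) : ZMod 2 := sumE (fun c d => cr a b c d) l

/-- number of crossings of two paths, modulo 2 -/
noncomputable def crLL (k l : List Pt) : ZMod 2 := sumE (fun a b => crL a b l) k

/-- number of edges of the path `l` above `z`, modulo 2; for closed paths this tells on which side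
`z` lies -/
noncomputable def rrL (l : List Pt) (z : Pt) : ZMod 2 := sumE (fun c d => rr c d z) l

/-- number of edges of the path `l` below `z`, modulo 2 -/
noncomputable def ssL (l : List Pt) (z : Pt) : ZMod 2 := sumE (fun c d => ss c d z) l

/-- the segment `ab` is in general position to all edges of `l` -/
def GPL (a b : Pt) (l : List Pt) : Prop := ∀ e ∈ edg l, GP4 a b e.1 e.2

/-- all edges of the two paths are in general position -/
def GPLL (k l : List Pt) : Prop := ∀ e ∈ edg k, GPL e.1 e.2 l

/-- `l` is a path from `a` to `b` with at least one edge -/
def PathL (a b : Pt) (l : List Pt) : Prop := 2 ≤ l.length ∧ l.head? = some a ∧ l.getLast? = some b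

end Pool.Agent.H54R
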